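import Pool.Agent.KS6_24.ST.B0A

set_option autoImplicit false

/-! Bootstrapped correlations, part B: good levels and their number. -/

namespace Pool.Agent.KS6_24.ST.B0

open Finset Pool.Agent.H499R2.CO Pool.Agent.T6.H47.CL

/-- good levels -/
def good (m0 k M K : ℕ) : ℕ → ℕ → Prop
  | 0, _ => True
  | t + 1, i => k ≤ i ∧ VV (m0 + (t + 1) * k) M i ≤ (K : ℝ) ^ 14 ∧
      ∀ j, i ≤ j + k → j ≤ i + k → good m0 k M K t j

/-- the bound at a good level -/
noncomputable def EE (K : ℕ) (Q : ℝ) : ℕ → ℝ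
  | 0 => 1
  | t + 1 => 1 / K + 4 * Q * EE K Q t

theorem EE_nonneg {K : ℕ} {Q : ℝ} (hQ : 0 ≤ Q) : ∀ t, 0 ≤ EE K Q t := by
  intro t
  induction t with
  | zero => rw [EE]; norm_num
  | succ t ih => rw [EE]; positivity

theorem EE_le {K : ℕ} {Q : ℝ} (hQ : 0 ≤ Q) (hQ1 : 4 * Q ≤ 1 / 2) : ∀ t, EE K Q t ≤ 2 / K + (4 * Q) ^ t := by
  have hK : (0 : ℝ) ≤ 1 / K := by positivity
  have e : (2 : ℝ) / K = 2 * (1 / K) := by ring
  intro t
  induction t with
  | zero => rw [EE, e, pow_zero]; linarith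
  | succ t ih =>
    rw [EE, pow_succ']
    rw [e] at ih ⊢
    have h1 : 4 * Q * EE K Q t ≤ 4 * Q * (2 * (1 / K) + (4 * Q) ^ t) :=
      mul_le_mul_of_nonneg_left ih (by positivity)
    have h2 : 4 * Q * (2 * (1 / K)) ≤ 1 / 2 * (2 * (1 / (K : ℝ))) :=
      mul_le_mul_of_nonneg_right hQ1 (by positivity)
    linarith

theorem good_corr {m0 k K : ℕ} {Q : ℝ} (hK : 1 ≤ K)
    (hQ : ∀ h : ℕ, h < K ^ 4 → q step (0, 0) k (0, (h : ℤ)) ≤ Q) :
    ∀ (t i : ℕ), good m0 k (K ^ 4) K t i → ∀ r : ℤ, |(P^[m0 + t * k] Y) (i, r)| ≤ EE K Q t := by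
  have hKr : (0 : ℝ) < K := by exact_mod_cast hK
  have hM1 : 1 ≤ K ^ 4 := Nat.one_le_pow _ _ hK
  have hQ0 : 0 ≤ Q := (q_nonneg step (0, 0) k _).trans (hQ 0 (by omega))
  intro t
  induction t with
  | zero => intro i _ r; rw [EE]; exact PY_abs _ _
  | succ t ih =>
    intro i hg r
    obtain ⟨hki, hV, hj⟩ := hg
    have hn : m0 + (t + 1) * k = (m0 + t * k) + k := by ring
    have hb : ∀ j : ℕ, i ≤ j + k → j ≤ i + k → ∀ r : ℤ, |(P^[m0 + t * k] Y) (j, r)| ≤ EE K Q t :=
      fun j h1 h2 r => ih j (hj j h1 h2) r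
    rw [hn] at hV ⊢
    refine (corr_le' hki hb hM1 (μ := 1 / (K : ℝ) ^ 7) (by positivity) r).trans ?_
    rw [EE]
    have hE := EE_nonneg (K := K) hQ0 t
    have h1 : (1 / (((K ^ 4 : ℕ) : ℝ)) ^ 2) * ((1 / (K : ℝ) ^ 7 * VV (m0 + t * k + k) (K ^ 4) i +
        1 / (1 / (K : ℝ) ^ 7)) / 2) ≤ 1 / (K : ℝ) := by
      calc (1 / (((K ^ 4 : ℕ) : ℝ)) ^ 2) * ((1 / (K : ℝ) ^ 7 * VV (m0 + t * k + k) (K ^ 4) i +
            1 / (1 / (K : ℝ) ^ 7)) / 2) ≤ (1 / (((K ^ 4 : ℕ) : ℝ)) ^ 2) * ((1 / (K : ℝ) ^ 7 * (K : ℝ) ^ 14 +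
            1 / (1 / (K : ℝ) ^ 7)) / 2) := by
            apply mul_le_mul_of_nonneg_left _ (by positivity)
            have := mul_le_mul_of_nonneg_left hV (show (0 : ℝ) ≤ 1 / (K : ℝ) ^ 7 by positivity)
            linarith
        _ = 1 / (K : ℝ) := by
            push_cast
            field_simp
            ring
    have h2 : 4 / ((K ^ 4 : ℕ) : ℝ) * (EE K Q t * ∑ h ∈ range (K ^ 4), q step (0, 0) k (0, (h : ℤ))) ≤
        4 * Q * EE K Q t := by
      have h3 : ∑ h ∈ range (K ^ 4), q step (0, 0) k (0, (h : ℤ)) ≤ ((K ^ 4 : ℕ) : ℝ) * Q := by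
        calc _ ≤ ∑ h ∈ range (K ^ 4), Q := sum_le_sum fun h hh => hQ h (mem_range.1 hh)
          _ = _ := by rw [sum_const, card_range, nsmul_eq_mul]
      calc 4 / ((K ^ 4 : ℕ) : ℝ) * (EE K Q t * ∑ h ∈ range (K ^ 4), q step (0, 0) k (0, (h : ℤ))) ≤
          4 / ((K ^ 4 : ℕ) : ℝ) * (EE K Q t * (((K ^ 4 : ℕ) : ℝ) * Q)) := by
            apply mul_le_mul_of_nonneg_left _ (by positivity)
            exact mul_le_mul_of_nonneg_left h3 hE
        _ = 4 * Q * EE K Q t := by
            push_cast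
            field_simp
    linarith

theorem VV_per_mul {n : ℕ} (hn : 3 ≤ n) (M : ℕ) : ∀ j i : ℕ, VV n M (i + 2 ^ (n - 1) * j) = VV n M i := by
  intro j
  induction j with
  | zero => intro i; simp
  | succ j ih =>
    intro i
    rw [show i + 2 ^ (n - 1) * (j + 1) = (i + 2 ^ (n - 1) * j) + 2 ^ (n - 1) by ring, VV_per hn, ih]

theorem VV_window {n M : ℕ} (hn : 3 ≤ n) (hM : M ≤ 2 ^ (n - 2)) (a x : ℕ) :
    ∑ j ∈ range x, VV n M (a + j) ≤ (M : ℝ) ^ 3 * (x + 2 ^ n) := by
  set p := 2 ^ (n - 1) with hp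
  have hp0 : 0 < p := by positivity
  have h1 : ∀ j ∈ range x, VV n M (a + j) = VV n M (a % p + j) := by
    intro j _
    have := Nat.mod_add_div a p
    rw [show a + j = (a % p + j) + p * (a / p) by omega, hp, VV_per_mul hn]
  rw [sum_congr rfl h1]
  have h2 : ∑ j ∈ range x, VV n M (a % p + j) ≤ ∑ j ∈ range (a % p + x), VV n M j := by
    rw [sum_range_add]
    have : 0 ≤ ∑ j ∈ range (a % p), VV n M j := sum_nonneg fun _ _ => VV_nonneg _ _ _
    linarith
  refine h2.trans ((VV_sum_all hn hM _).trans ?_)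
  apply mul_le_mul_of_nonneg_left _ (by positivity)
  have h3 : a % p < p := Nat.mod_lt _ hp0
  have h4 : ((a % p : ℕ) : ℝ) ≤ p := by exact_mod_cast h3.le
  have h5 : (p : ℝ) = 2 ^ (n - 1) := by rw [hp]; push_cast; rfl
  have h6 : (2 : ℝ) ^ n = 2 * 2 ^ (n - 1) := by
    rw [← pow_succ']; congr 1; omega
  push_cast
  rw [h6]
  rw [h5] at h4
  linarith

open Classical in
/-- number of bad levels in a window -/
theorem bad_le {m0 k K s n : ℕ} (hK : 1 ≤ K) (hn : n = m0 + s * k) (h3 : 3 ≤ m0) (hM : K ^ 4 ≤ 2 ^ (m0 - 2)) :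
    ∀ t, t ≤ s → ∀ a x : ℕ, ∑ j ∈ range x, (if good m0 k (K ^ 4) K t (a + j) then (0 : ℝ) else 1) ≤
      (2 * k + 2) ^ t * ((x + 2 ^ n) / (K : ℝ) ^ 2 + k) := by
  have hKr : (0 : ℝ) < K := by exact_mod_cast hK
  intro t
  induction t with
  | zero =>
    intro _ a x
    have : ∑ j ∈ range x, (if good m0 k (K ^ 4) K 0 (a + j) then (0 : ℝ) else 1) = 0 := by
      apply sum_eq_zero
      intro j _
      rw [if_pos (by trivial)]
    rw [this]
    positivity
  | succ t ih =>
    intro hts a x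
    have iht := ih (by omega)
    set B : ℝ := (x + 2 ^ n) / (K : ℝ) ^ 2 + k with hB
    have hB0 : 0 ≤ B := by positivity
    -- windows above `k`
    have key : ∀ a0 : ℕ, ∑ j ∈ range x, (if good m0 k (K ^ 4) K (t + 1) (k + a0 + j) then (0 : ℝ) else 1) ≤
        (x + 2 ^ n) / (K : ℝ) ^ 2 + (2 * k + 1) * ((2 * k + 2) ^ t * B) := by
      intro a0
      have h1 : ∀ j ∈ range x, (if good m0 k (K ^ 4) K (t + 1) (k + a0 + j) then (0 : ℝ) else 1) ≤
          VV (m0 + (t + 1) * k) (K ^ 4) ((k + a0) + j) / (K : ℝ) ^ 14 +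
            ∑ l ∈ range (2 * k + 1), (if good m0 k (K ^ 4) K t (a0 + l + j) then (0 : ℝ) else 1) := by
        intro j _
        have hV0 := VV_nonneg (m0 + (t + 1) * k) (K ^ 4) ((k + a0) + j)
        have hS0 : 0 ≤ ∑ l ∈ range (2 * k + 1), (if good m0 k (K ^ 4) K t (a0 + l + j) then (0 : ℝ) else 1) :=
          sum_nonneg fun _ _ => by split_ifs <;> norm_num
        have hV1 : 0 ≤ VV (m0 + (t + 1) * k) (K ^ 4) ((k + a0) + j) / (K : ℝ) ^ 14 := by positivity
        by_cases hg : good m0 k (K ^ 4) K (t + 1) (k + a0 + j)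
        · rw [if_pos hg]; linarith
        · rw [if_neg hg]
          by_cases hV : VV (m0 + (t + 1) * k) (K ^ 4) ((k + a0) + j) ≤ (K : ℝ) ^ 14
          · have h2 : ∃ j', k + a0 + j ≤ j' + k ∧ j' ≤ k + a0 + j + k ∧ ¬ good m0 k (K ^ 4) K t j' := by
              by_contra hcon
              push Not at hcon
              exact hg ⟨by omega, hV, hcon⟩
            obtain ⟨j', h2, h3, h4⟩ := h2
            have h5 : (1 : ℝ) ≤ ∑ l ∈ range (2 * k + 1),
                (if good m0 k (K ^ 4) K t (a0 + l + j) then (0 : ℝ) else 1) := by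
              have h6 := single_le_sum (f := fun l => if good m0 k (K ^ 4) K t (a0 + l + j) then (0 : ℝ) else 1)
                (s := range (2 * k + 1)) (fun _ _ => by split_ifs <;> norm_num)
                (a := j' - a0 - j) (mem_range.2 (by omega))
              rw [show a0 + (j' - a0 - j) + j = j' by omega, if_neg h4] at h6
              exact h6
            linarith
          · have h2 : (1 : ℝ) ≤ VV (m0 + (t + 1) * k) (K ^ 4) ((k + a0) + j) / (K : ℝ) ^ 14 := by
              rw [le_div_iff₀ (by positivity), one_mul]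
              exact (not_le.1 hV).le
            linarith
      refine (sum_le_sum h1).trans ?_
      rw [sum_add_distrib, ← sum_div, sum_comm]
      apply add_le_add
      · have h2 : 3 ≤ m0 + (t + 1) * k := by omega
        have h4 : K ^ 4 ≤ 2 ^ (m0 + (t + 1) * k - 2) :=
          hM.trans (Nat.pow_le_pow_right (by norm_num) (by omega))
        have h5 := VV_window h2 h4 (k + a0) x
        have h6 : m0 + (t + 1) * k ≤ n := by
          rw [hn]
          have : (t + 1) * k ≤ s * k := Nat.mul_le_mul_right _ hts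
          omega
        have h7 : (2 : ℝ) ^ (m0 + (t + 1) * k) ≤ 2 ^ n := pow_le_pow_right₀ (by norm_num) h6
        rw [div_le_iff₀ (by positivity)]
        refine h5.trans ?_
        push_cast
        have h8 : (x + (2 : ℝ) ^ n) / (K : ℝ) ^ 2 * (K : ℝ) ^ 14 = ((K : ℝ) ^ 4) ^ 3 * (x + 2 ^ n) := by
          field_simp
        rw [h8]
        apply mul_le_mul_of_nonneg_left _ (by positivity)
        linarith
      · calc ∑ l ∈ range (2 * k + 1), ∑ j ∈ range x, (if good m0 k (K ^ 4) K t (a0 + l + j) then (0 : ℝ) else 1) ≤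
            ∑ l ∈ range (2 * k + 1), (2 * (k : ℝ) + 2) ^ t * B := sum_le_sum fun l _ => iht (a0 + l) x
          _ = _ := by rw [sum_const, card_range, nsmul_eq_mul]; push_cast; ring
    -- all windows
    have h2 : ∑ j ∈ range x, (if good m0 k (K ^ 4) K (t + 1) (a + j) then (0 : ℝ) else 1) ≤
        k + ((x + 2 ^ n) / (K : ℝ) ^ 2 + (2 * k + 1) * ((2 * k + 2) ^ t * B)) := by
      rcases Nat.lt_or_ge a k with hak | hak
      · have h4 := key 0
        rw [add_zero] at h4
        have h5 : ∑ j ∈ range x, (if good m0 k (K ^ 4) K (t + 1) (a + j) then (0 : ℝ) else 1) ≤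
            ∑ j ∈ range (k - a + x), (if good m0 k (K ^ 4) K (t + 1) (a + j) then (0 : ℝ) else 1) := by
          apply sum_le_sum_of_subset_of_nonneg
          · intro j hj; rw [mem_range] at hj ⊢; omega
          · intro _ _ _; split_ifs <;> norm_num
        rw [sum_range_add] at h5
        have h6 : ∑ j ∈ range (k - a), (if good m0 k (K ^ 4) K (t + 1) (a + j) then (0 : ℝ) else 1) ≤ k := by
          calc _ ≤ ∑ j ∈ range (k - a), (1 : ℝ) := sum_le_sum fun _ _ => by split_ifs <;> norm_num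
            _ = ((k - a : ℕ) : ℝ) := by rw [sum_const, card_range, nsmul_eq_mul, mul_one]
            _ ≤ k := by exact_mod_cast Nat.sub_le k a
        have h7 : ∑ j ∈ range x, (if good m0 k (K ^ 4) K (t + 1) (a + (k - a + j)) then (0 : ℝ) else 1) =
            ∑ j ∈ range x, (if good m0 k (K ^ 4) K (t + 1) (k + j) then (0 : ℝ) else 1) := by
          apply sum_congr rfl
          intro j _
          rw [show a + (k - a + j) = k + j by omega]
        rw [h7] at h5
        linarith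
      · have h4 := key (a - k)
        rw [show k + (a - k) = a by omega] at h4
        have : (0 : ℝ) ≤ k := Nat.cast_nonneg k
        linarith
    refine h2.trans ?_
    have h4 : (1 : ℝ) ≤ (2 * k + 2) ^ t := one_le_pow₀ (by
      have : (0 : ℝ) ≤ k := Nat.cast_nonneg k
      linarith)
    have h5 : B ≤ (2 * (k : ℝ) + 2) ^ t * B := le_mul_of_one_le_left hB0 h4
    have h6 : (2 * (k : ℝ) + 2) ^ (t + 1) * B = (2 * k + 1) * ((2 * (k : ℝ) + 2) ^ t * B) +
        (2 * (k : ℝ) + 2) ^ t * B := by rw [pow_succ]; ring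
    rw [h6]
    linarith

end Pool.Agent.KS6_24.ST.B0
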