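import Pool.Agent.KS6_24.ST.Defs
import Pool.Agent.KS6_24.ST.B0B

set_option autoImplicit false

/-! Bootstrapped correlations, part C: the choice of the parameters. -/

namespace Pool.Agent.KS6_24.ST.B0

open Finset Pool.Agent.H499R2.CO Pool.Agent.T6.H47.CL Filter

theorem log_est {c : ℝ} (hc : 0 < c) : ∃ n0 : ℕ, ∀ n : ℕ, n0 ≤ n → c * Real.log ((n : ℝ) + 1) ^ 4 ≤ n := by
  have h1 := (Real.isLittleO_pow_log_id_atTop (n := 4)).def (show 0 < 1 / (2 * c) by positivity)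
  have h2 : Tendsto (fun n : ℕ => (n : ℝ) + 1) atTop atTop :=
    tendsto_atTop_add_const_right _ _ tendsto_natCast_atTop_atTop
  obtain ⟨n0, hn0⟩ := Filter.eventually_atTop.1 (h2.eventually h1)
  refine ⟨max n0 1, fun n hn => ?_⟩
  have h3 := hn0 n (le_trans (le_max_left _ _) hn)
  have h4 : (1 : ℝ) ≤ n := by exact_mod_cast le_trans (le_max_right _ _) hn
  simp only [id, Real.norm_eq_abs] at h3
  rw [abs_of_pos (show (0 : ℝ) < (n : ℝ) + 1 by positivity)] at h3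
  have h5 := (le_abs_self _).trans h3
  calc c * Real.log ((n : ℝ) + 1) ^ 4 ≤ c * (1 / (2 * c) * ((n : ℝ) + 1)) :=
        mul_le_mul_of_nonneg_left h5 hc.le
    _ = ((n : ℝ) + 1) / 2 := by field_simp
    _ ≤ n := by linarith

theorem pow_est (a D : ℕ) : ∃ k0 : ℕ, ∀ k : ℕ, k0 ≤ k → D * (k + 1) ^ a ≤ 2 ^ k := by
  have h1 := tendsto_pow_const_div_const_pow_of_one_lt a (r := (2 : ℝ)) (by norm_num)
  have h2 : (0 : ℝ) < 1 / (D * 2 ^ a + 1) := by positivity
  obtain ⟨k0, hk0⟩ := Filter.eventually_atTop.1 (h1.eventually (gt_mem_nhds h2))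
  refine ⟨max k0 1, fun k hk => ?_⟩
  have h3 := hk0 k (le_trans (le_max_left _ _) hk)
  have h4 : (1 : ℝ) ≤ k := by exact_mod_cast le_trans (le_max_right _ _) hk
  rw [div_lt_div_iff₀ (by positivity) (by positivity), one_mul] at h3
  have h5 : ((k : ℝ) + 1) ^ a ≤ 2 ^ a * (k : ℝ) ^ a := by
    rw [← mul_pow]
    exact pow_le_pow_left₀ (by positivity) (by linarith) a
  have h6 : (D : ℝ) * ((k : ℝ) + 1) ^ a ≤ 2 ^ k := by
    have h7 : (D : ℝ) * ((k : ℝ) + 1) ^ a ≤ D * (2 ^ a * (k : ℝ) ^ a) :=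
      mul_le_mul_of_nonneg_left h5 (by positivity)
    have h8 : (0 : ℝ) ≤ (k : ℝ) ^ a := by positivity
    nlinarith
  exact_mod_cast h6

theorem natlog_le {n : ℕ} (hn : 1 ≤ n) : (Nat.log 2 n : ℝ) ≤ 2 * Real.log ((n : ℝ) + 1) := by
  have h1 : (2 : ℝ) ^ Nat.log 2 n ≤ (n : ℝ) + 1 := by
    have h2 : 2 ^ Nat.log 2 n ≤ n := Nat.pow_log_le_self 2 (by omega)
    have h3 : ((2 ^ Nat.log 2 n : ℕ) : ℝ) ≤ n := by exact_mod_cast h2
    push_cast at h3
    linarith
  have h2 := Real.log_le_log (by positivity) h1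
  rw [Real.log_pow] at h2
  have h3 := Real.log_two_gt_d9
  have h4 : (0 : ℝ) ≤ Nat.log 2 n := Nat.cast_nonneg _
  nlinarith

end Pool.Agent.KS6_24.ST.B0

namespace Pool.Agent.KS6_24.ST

open Finset Pool.Agent.H499R2.CO Pool.Agent.T6.H47.CL Filter B0

/-- **J1.** -/
theorem b0 : S_B0 := by
  classical
  intro C
  obtain ⟨C0, hC0, hq⟩ := q_rate
  obtain ⟨s, hs⟩ : ∃ s, s = 4 * (C + 1) := ⟨_, rfl⟩
  obtain ⟨C1, hC1⟩ : ∃ C1, C1 = s + C + 2 := ⟨_, rfl⟩
  set c : ℝ := (4 * C0) ^ 4 * (4 * (1 + 8 * C1) ^ 2) * (2 * (s + 1)) ^ 2 with hc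
  have hc0 : 0 < c := by positivity
  obtain ⟨n1, hn1⟩ := log_est hc0
  obtain ⟨k0, hk0⟩ := pow_est (4 * C1) (4 * (s + 1) ^ (4 * C1))
  refine ⟨n1 + 16 + (s + 1) * (k0 + 3), fun n hn => ?_⟩
  -- the basic parameters
  obtain ⟨k, hk⟩ : ∃ k, k = n / (s + 1) := ⟨_, rfl⟩
  have hkk : k0 + 3 ≤ k := by
    rw [hk, Nat.le_div_iff_mul_le (by omega), mul_comm]
    omega
  have hkn : (s + 1) * k ≤ n := by rw [hk]; exact Nat.mul_div_le n (s + 1)
  have hnk : n < (s + 1) * (k + 1) := by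
    rw [hk]; exact Nat.lt_mul_div_succ n (by omega)
  have hsk : (s + 1) * k = s * k + k := by ring
  obtain ⟨m0, hm0⟩ : ∃ m0, n = m0 + s * k := ⟨n - s * k, by omega⟩
  have hm0k : k ≤ m0 := by omega
  have hn16 : 16 ≤ n := by omega
  have hnr : (16 : ℝ) ≤ n := by exact_mod_cast hn16
  have hnp : (0 : ℝ) < n := by linarith
  have hkr : (0 : ℝ) < k := by exact_mod_cast (show 0 < k by omega)
  obtain ⟨K, hK⟩ : ∃ K, K = n ^ C1 := ⟨_, rfl⟩
  have hK1 : 1 ≤ K := by rw [hK]; exact Nat.one_le_pow _ _ (by omega)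
  have hKr : (K : ℝ) = (n : ℝ) ^ C1 := by rw [hK]; push_cast; rfl
  have hK4 : K ^ 4 = n ^ (4 * C1) := by rw [hK, ← pow_mul, mul_comm]
  have h4K : 4 * K ^ 4 ≤ 2 ^ k := by
    rw [hK4]
    calc 4 * n ^ (4 * C1) ≤ 4 * ((s + 1) * (k + 1)) ^ (4 * C1) :=
          Nat.mul_le_mul_left _ (Nat.pow_le_pow_left hnk.le _)
      _ = 4 * (s + 1) ^ (4 * C1) * (k + 1) ^ (4 * C1) := by rw [mul_pow, mul_assoc]
      _ ≤ 2 ^ k := hk0 k (by omega)
  have hM : K ^ 4 ≤ 2 ^ (m0 - 2) := by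
    have h1 : 2 ^ k ≤ 2 ^ m0 := Nat.pow_le_pow_right (by norm_num) hm0k
    have h2 : 2 ^ m0 = 4 * 2 ^ (m0 - 2) := by
      rw [show (4 : ℕ) = 2 ^ 2 by norm_num, ← pow_add]; congr 1; omega
    omega
  -- the coalescence
  obtain ⟨u, hu⟩ : ∃ u, u = 4 * C1 * (Nat.log 2 n + 1) := ⟨_, rfl⟩
  obtain ⟨Q, hQ⟩ : ∃ Q, Q = C0 * √ (1 + ((0 : ℕ) : ℝ) ^ 2 + u) * rho k := ⟨_, rfl⟩
  have hQ0 : 0 ≤ Q := by rw [hQ]; have := rho_nonneg k; positivity
  have hKu : K ^ 4 ≤ 4 ^ u := by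
    rw [hK4, hu]
    calc n ^ (4 * C1) ≤ (2 ^ (Nat.log 2 n + 1)) ^ (4 * C1) :=
          Nat.pow_le_pow_left (Nat.lt_pow_succ_log_self (by norm_num) n).le _
      _ = 2 ^ (4 * C1 * (Nat.log 2 n + 1)) := by rw [← pow_mul]; congr 1; ring
      _ ≤ 4 ^ (4 * C1 * (Nat.log 2 n + 1)) := Nat.pow_le_pow_left (by norm_num) _
  have hqQ : ∀ h : ℕ, h < K ^ 4 → q step (0, 0) k (0, (h : ℤ)) ≤ Q := by
    intro h hh
    rw [hQ]
    apply hq k (by omega) 0 u (h : ℤ)
    rw [Int.cast_natCast, abs_of_nonneg (Nat.cast_nonneg h)]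
    exact_mod_cast (hh.le.trans hKu)
  have hL : 0.69 < Real.log ((n : ℝ) + 1) := log_pos' (by omega)
  set L := Real.log ((n : ℝ) + 1) with hLdef
  have hQ4 : (4 * Q) ^ 4 ≤ 1 / n := by
    have e1 : (4 * Q) ^ 4 = (4 * C0) ^ 4 * (1 + u) ^ 2 * (Real.log ((k : ℝ) + 1) / k) ^ 2 := by
      have h1 : (√ (1 + ((0 : ℕ) : ℝ) ^ 2 + u)) ^ 2 = 1 + u := by
        rw [Real.sq_sqrt (by positivity)]; push_cast; ring
      have h2 := rho_sq (k := k) (by omega)
      rw [hQ, ← h2, ← h1]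
      ring
    have h1 : (1 : ℝ) + u ≤ 2 * (1 + 8 * C1) * L := by
      have h2 := natlog_le (n := n) (by omega)
      have h3 : (u : ℝ) = 4 * C1 * ((Nat.log 2 n : ℕ) + 1) := by rw [hu]; push_cast; ring
      rw [h3]
      have h4 : (0 : ℝ) ≤ C1 := Nat.cast_nonneg _
      rw [← hLdef] at h2
      have h5 : 4 * (C1 : ℝ) * ((Nat.log 2 n : ℕ) + 1) ≤ 4 * C1 * (2 * L + 2 * L) :=
        mul_le_mul_of_nonneg_left (by linarith) (by positivity)
      linarith
    have h2 : Real.log ((k : ℝ) + 1) / k ≤ L * (2 * (s + 1)) / n := by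
      have h3 : Real.log ((k : ℝ) + 1) ≤ L := by
        rw [hLdef]
        apply Real.log_le_log (by positivity)
        have : (k : ℝ) ≤ n := by
          have : k ≤ n := by
            have : 0 ≤ s * k := Nat.zero_le _
            omega
          exact_mod_cast this
        linarith
      have h4 : (n : ℝ) ≤ 2 * (s + 1) * k := by
        have h5 : (n : ℝ) ≤ (s + 1) * (k + 1) := by exact_mod_cast hnk.le
        have h6 : (1 : ℝ) ≤ k := by exact_mod_cast (show 1 ≤ k by omega)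
        have h7 : ((s : ℝ) + 1) * (k + 1) ≤ (s + 1) * (2 * k) :=
          mul_le_mul_of_nonneg_left (by linarith) (by positivity)
        linarith
      rw [div_le_div_iff₀ hkr hnp]
      calc Real.log ((k : ℝ) + 1) * n ≤ L * n := mul_le_mul_of_nonneg_right h3 hnp.le
        _ ≤ L * (2 * (s + 1) * k) := mul_le_mul_of_nonneg_left h4 (by linarith)
        _ = _ := by ring
    have h3 : 0 ≤ Real.log ((k : ℝ) + 1) / k := by
      have := log_pos' (k := k) (by omega)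
      positivity
    have h4 : (1 + (u : ℝ)) ^ 2 ≤ (2 * (1 + 8 * C1) * L) ^ 2 := pow_le_pow_left₀ (by positivity) h1 2
    have h5 : (Real.log ((k : ℝ) + 1) / k) ^ 2 ≤ (L * (2 * (s + 1)) / n) ^ 2 := pow_le_pow_left₀ h3 h2 2
    have hLp : 0 < L := by linarith
    rw [e1]
    calc (4 * C0) ^ 4 * (1 + (u : ℝ)) ^ 2 * (Real.log ((k : ℝ) + 1) / k) ^ 2 ≤
        (4 * C0) ^ 4 * (2 * (1 + 8 * C1) * L) ^ 2 * (L * (2 * (s + 1)) / n) ^ 2 :=
          mul_le_mul (mul_le_mul_of_nonneg_left h4 (by positivity)) h5 (by positivity) (by positivity)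
      _ = (c * L ^ 4) / (n : ℝ) ^ 2 := by rw [hc]; field_simp; ring
      _ ≤ n / (n : ℝ) ^ 2 := by
          apply div_le_div_of_nonneg_right _ (by positivity)
          exact hn1 n (by omega)
      _ = 1 / n := by field_simp
  have hQ1 : 4 * Q ≤ 1 / 2 := by
    by_contra hcon
    push Not at hcon
    have h1 : (1 / 2 : ℝ) ^ 4 < (4 * Q) ^ 4 := pow_lt_pow_left₀ hcon (by norm_num) (by norm_num)
    have h2 : (1 : ℝ) / n ≤ 1 / 16 := one_div_le_one_div_of_le (by norm_num) hnr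
    norm_num at h1
    linarith
  have hE : EE K Q s ≤ 2 / (n : ℝ) ^ (C + 1) := by
    refine (EE_le hQ0 hQ1 s).trans ?_
    have h1 : (4 * Q) ^ s ≤ 1 / (n : ℝ) ^ (C + 1) := by
      rw [hs, pow_mul]
      calc ((4 * Q) ^ 4) ^ (C + 1) ≤ (1 / n) ^ (C + 1) := pow_le_pow_left₀ (by positivity) hQ4 _
        _ = _ := by rw [one_div_pow]
    have h2 : (2 : ℝ) / K ≤ 1 / (n : ℝ) ^ (C + 1) := by
      rw [hKr, div_le_div_iff₀ (by positivity) (by positivity), one_mul]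
      calc 2 * (n : ℝ) ^ (C + 1) ≤ n * (n : ℝ) ^ (C + 1) :=
            mul_le_mul_of_nonneg_right (by linarith) (by positivity)
        _ = (n : ℝ) ^ (C + 2) := by rw [← pow_succ']
        _ ≤ (n : ℝ) ^ C1 := pow_le_pow_right₀ (by linarith) (by omega)
    have h3 : (2 : ℝ) / (n : ℝ) ^ (C + 1) = 1 / (n : ℝ) ^ (C + 1) + 1 / (n : ℝ) ^ (C + 1) := by ring
    rw [h3]
    linarith
  -- the bound
  have hEn := EE_nonneg (K := K) hQ0 s
  refine ⟨fun i => if good m0 k (K ^ 4) K s i then min 1 (EE K Q s) else 1, fun i => ?_, fun i => ?_,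
    fun i r => ?_, fun a x => ?_⟩
  · simp only
    split_ifs
    · exact le_min zero_le_one hEn
    · exact zero_le_one
  · simp only
    split_ifs
    · exact min_le_left _ _
    · exact le_rfl
  · simp only
    split_ifs with hg
    · have h1 := good_corr hK1 hqQ s i hg r
      rw [← hm0] at h1
      exact le_min (PY_abs n _) h1
    · exact PY_abs n _
  · have h1 : ∀ j ∈ range x, (if good m0 k (K ^ 4) K s (a + j) then min 1 (EE K Q s) else 1) ≤
        EE K Q s + (if good m0 k (K ^ 4) K s (a + j) then (0 : ℝ) else 1) := by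
      intro j _
      split_ifs
      · rw [add_zero]; exact min_le_right _ _
      · linarith
    refine (sum_le_sum h1).trans ?_
    rw [sum_add_distrib, sum_const, card_range, nsmul_eq_mul]
    have h2 := bad_le hK1 hm0 (by omega) hM s le_rfl a x
    have h3 : (2 * (k : ℝ) + 2) ^ s ≤ (n : ℝ) ^ s := by
      apply pow_le_pow_left₀ (by positivity)
      have h4 : 2 * k + 2 ≤ n := by
        have h5 : 4 * k ≤ s * k := Nat.mul_le_mul_right _ (by omega)
        omega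
      exact_mod_cast h4
    set X : ℝ := x + 2 ^ n with hX
    have hX0 : 0 < X := by positivity
    set G : ℝ := (n : ℝ) ^ (C + 1) with hG
    have hG0 : 0 < G := by positivity
    have h4 : (n : ℝ) ^ s * (X / (K : ℝ) ^ 2) ≤ X / G := by
      rw [← mul_div_assoc, div_le_div_iff₀ (by positivity) hG0, hKr, hG, ← pow_mul]
      calc (n : ℝ) ^ s * X * (n : ℝ) ^ (C + 1) = X * (n : ℝ) ^ (s + (C + 1)) := by rw [pow_add]; ring
        _ ≤ X * (n : ℝ) ^ (C1 * 2) :=
            mul_le_mul_of_nonneg_left (pow_le_pow_right₀ (by linarith) (by omega)) hX0.le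
    have h5 : (n : ℝ) ^ s * k ≤ 2 ^ n / G := by
      rw [le_div_iff₀ hG0, hG]
      have h6 : (k : ℝ) ≤ n := by
        have : k ≤ n := by
          have : 0 ≤ s * k := Nat.zero_le _
          omega
        exact_mod_cast this
      have h7 : K ^ 4 ≤ 2 ^ n := hM.trans (Nat.pow_le_pow_right (by norm_num) (by omega))
      have h8 : K ≤ K ^ 4 := Nat.le_self_pow (by norm_num) K
      have h9 : (K : ℝ) ≤ 2 ^ n := by exact_mod_cast (h8.trans h7)
      calc (n : ℝ) ^ s * k * (n : ℝ) ^ (C + 1) ≤ (n : ℝ) ^ s * n * (n : ℝ) ^ (C + 1) := by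
            apply mul_le_mul_of_nonneg_right _ (by positivity)
            exact mul_le_mul_of_nonneg_left h6 (by positivity)
        _ = (n : ℝ) ^ (s + C + 2) := by ring
        _ = (K : ℝ) := by rw [hKr, hC1]
        _ ≤ _ := h9
    have h6 : (2 * (k : ℝ) + 2) ^ s * (X / (K : ℝ) ^ 2 + k) ≤ X / G + 2 ^ n / G := by
      calc (2 * (k : ℝ) + 2) ^ s * (X / (K : ℝ) ^ 2 + k) ≤ (n : ℝ) ^ s * (X / (K : ℝ) ^ 2 + k) :=
            mul_le_mul_of_nonneg_right h3 (by positivity)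
        _ = (n : ℝ) ^ s * (X / (K : ℝ) ^ 2) + (n : ℝ) ^ s * k := by ring
        _ ≤ _ := add_le_add h4 h5
    have h7 : (x : ℝ) * EE K Q s ≤ x * (2 / G) := mul_le_mul_of_nonneg_left hE (by positivity)
    have h8 : X / (n : ℝ) ^ C = n * (X / G) := by
      rw [hG, pow_succ]; field_simp
    rw [h8]
    have h9 : (2 : ℝ) ^ n / G ≤ X / G := by
      apply div_le_div_of_nonneg_right _ hG0.le
      rw [hX]
      have : (0 : ℝ) ≤ x := Nat.cast_nonneg x
      linarith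
    have h10 : (x : ℝ) * (2 / G) ≤ 2 * (X / G) := by
      have : (x : ℝ) * (2 / G) = 2 * (x / G) := by ring
      rw [this]
      apply mul_le_mul_of_nonneg_left _ (by norm_num)
      apply div_le_div_of_nonneg_right _ hG0.le
      rw [hX]
      have : (0 : ℝ) < 2 ^ n := by positivity
      linarith
    have h11 : 4 * (X / G) ≤ n * (X / G) :=
      mul_le_mul_of_nonneg_right (by linarith) (by positivity)
    linarith

end Pool.Agent.KS6_24.ST
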