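import Pool.Graph.R_pool_sql_team_seeded_47a924f7.T6.H47.CL5

set_option autoImplicit false

/-! Bootstrapped correlations, part A: change of `r` with the gain of the correlations at an earlier time. -/

namespace Pool.Agent.KS6_24.ST.B0

open Finset Pool.Agent.H499R2.CO Pool.Agent.T6.H47.CL

theorem T_aff (k : ℕ) : ∀ x : ℤ, ∃ a : ℕ, a ≤ k ∧ ∀ m : ℤ,
    (Tz 1)^[k] (x + m * 2 ^ k) = (Tz 1)^[k] x + 3 ^ a * m := by
  induction k with
  | zero => intro x; exact ⟨0, le_rfl, fun m => by simp⟩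
  | succ k ih =>
    intro x
    obtain ⟨a, ha, h⟩ := ih (Tz 1 x)
    rcases Int.emod_two_eq_zero_or_one x with hx | hx
    · refine ⟨a, by omega, fun m => ?_⟩
      have h2 : m * (2 : ℤ) ^ (k + 1) = 2 * (m * 2 ^ k) := by rw [pow_succ]; ring
      rw [Function.iterate_succ_apply, Function.iterate_succ_apply, ← h m]
      congr 1
      unfold Tz
      rw [if_pos hx, if_pos (by omega)]; omega
    · refine ⟨a + 1, by omega, fun m => ?_⟩
      have h2 : m * (2 : ℤ) ^ (k + 1) = 2 * (m * 2 ^ k) := by rw [pow_succ]; ring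
      rw [Function.iterate_succ_apply, Function.iterate_succ_apply,
        show (3 : ℤ) ^ (a + 1) * m = 3 ^ a * (3 * m) by ring, ← h (3 * m)]
      congr 1
      unfold Tz
      rw [if_neg (by omega), if_neg (by omega)]
      have h3 : 3 * m * (2 : ℤ) ^ k = 3 * (m * 2 ^ k) := by ring
      rw [h3]; omega

theorem Fn_add (m k : ℕ) (x : ℤ) : Fn (m + k) x = Fn m ((Tz 1)^[k] x) := by
  unfold Fn
  rw [Function.iterate_add_apply]

/-- on a class modulo `2 ^ k` the correlation is a correlation at an earlier time -/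
theorem class_corr {m k i : ℕ} {b : ℝ} (hik : k ≤ i)
    (hb : ∀ j : ℕ, i ≤ j + k → j ≤ i + k → ∀ r : ℤ, |(P^[m] Y) (j, r)| ≤ b) (A B : ℤ) :
    |∑ u ∈ range (2 ^ (m + 1)), Fn (m + k) (A + (u : ℤ) * 2 ^ k) *
      Fn (m + k) (B + 3 ^ i * (u : ℤ) * 2 ^ k)| ≤ 2 ^ (m + 1) * b := by
  obtain ⟨a, ha, hA⟩ := T_aff k A
  obtain ⟨a', ha', hB⟩ := T_aff k B
  set A' := (Tz 1)^[k] A with hA'
  set B' := (Tz 1)^[k] B with hB'
  obtain ⟨j, hj⟩ : ∃ j, j + a = i + a' := ⟨i + a' - a, by omega⟩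
  have e : ∀ u ∈ range (2 ^ (m + 1)), Fn (m + k) (A + (u : ℤ) * 2 ^ k) *
      Fn (m + k) (B + 3 ^ i * (u : ℤ) * 2 ^ k) =
      Fn m (3 ^ a * (u : ℤ) + A') * Fn m (3 ^ j * (3 ^ a * (u : ℤ) + A') + (B' - 3 ^ j * A')) := by
    intro u _
    rw [Fn_add, Fn_add, hA, hB, add_comm A']
    congr 2
    have h1 : (3 : ℤ) ^ a' * 3 ^ i = 3 ^ j * 3 ^ a := by
      rw [← pow_add, ← pow_add, add_comm a', hj]
    calc B' + 3 ^ a' * (3 ^ i * (u : ℤ)) = B' + (3 ^ a' * 3 ^ i) * u := by ring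
      _ = _ := by rw [h1]; ring
  rw [sum_congr rfl e]
  have h2 := sum_affine (m + 1) (fun v : ℤ => Fn m v * Fn m (3 ^ j * v + (B' - 3 ^ j * A')))
    (fun x c => prod_per m j _ x c) (odd3 a) A'
  rw [h2, pair_avg, abs_mul, abs_of_pos (by positivity)]
  exact mul_le_mul_of_nonneg_left (hb j (by omega) (by omega) _) (by positivity)

/-- summation by classes -/
theorem sum_class (f : ℤ → ℝ) (a b : ℕ) :
    ∑ x ∈ range (a * b), f (x : ℤ) = ∑ x ∈ range a, ∑ u ∈ range b, f ((x : ℤ) + (u : ℤ) * a) := by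
  induction b with
  | zero => simp
  | succ b ih =>
    rw [Nat.mul_succ, sum_range_add, ih, ← sum_add_distrib]
    apply sum_congr rfl
    intro x _
    rw [sum_range_succ]
    congr 2
    push_cast
    ring

/-- the part of the change which comes from `h` -/
theorem half1 {m k i : ℕ} {b : ℝ} (hik : k ≤ i)
    (hb : ∀ j : ℕ, i ≤ j + k → j ≤ i + k → ∀ r : ℤ, |(P^[m] Y) (j, r)| ≤ b) (r h : ℤ) :
    |∑ x ∈ range (2 ^ (m + k + 1)), (Fn (m + k) (x + h) - Fn (m + k) x) * Fn (m + k) (3 ^ i * x + r)| ≤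
      2 ^ (m + k + 1) * (2 * b * q step (0, 0) k (0, h)) := by
  classical
  have hN : 2 ^ (m + k + 1) = 2 ^ k * 2 ^ (m + 1) := by rw [← pow_add]; congr 1; ring
  rw [hN, sum_class (fun x : ℤ => (Fn (m + k) (x + h) - Fn (m + k) x) * Fn (m + k) (3 ^ i * x + r))]
  refine (abs_sum_le_sum_abs _ _).trans ?_
  have h1 : ∀ x ∈ range (2 ^ k), |∑ u ∈ range (2 ^ (m + 1)),
      (Fn (m + k) ((x : ℤ) + (u : ℤ) * ((2 ^ k : ℕ) : ℤ) + h) - Fn (m + k) ((x : ℤ) + (u : ℤ) * ((2 ^ k : ℕ) : ℤ))) *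
        Fn (m + k) (3 ^ i * ((x : ℤ) + (u : ℤ) * ((2 ^ k : ℕ) : ℤ)) + r)| ≤
      (2 * 2 ^ (m + 1) * b) * (if surv 1 k (0, h) (x : ℤ) then (1 : ℝ) else 0) := by
    intro x _
    by_cases hs : surv 1 k (0, h) (x : ℤ)
    · rw [if_pos hs, mul_one]
      have e : ∑ u ∈ range (2 ^ (m + 1)),
        (Fn (m + k) ((x : ℤ) + (u : ℤ) * ((2 ^ k : ℕ) : ℤ) + h) - Fn (m + k) ((x : ℤ) + (u : ℤ) * ((2 ^ k : ℕ) : ℤ))) *
        Fn (m + k) (3 ^ i * ((x : ℤ) + (u : ℤ) * ((2 ^ k : ℕ) : ℤ)) + r) =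
        ∑ u ∈ range (2 ^ (m + 1)), Fn (m + k) (((x : ℤ) + h) + (u : ℤ) * 2 ^ k) *
          Fn (m + k) ((3 ^ i * x + r) + 3 ^ i * (u : ℤ) * 2 ^ k) -
        ∑ u ∈ range (2 ^ (m + 1)), Fn (m + k) ((x : ℤ) + (u : ℤ) * 2 ^ k) *
          Fn (m + k) ((3 ^ i * x + r) + 3 ^ i * (u : ℤ) * 2 ^ k) := by
        rw [← sum_sub_distrib]
        apply sum_congr rfl
        intro u _
        have e1 : (x : ℤ) + (u : ℤ) * ((2 ^ k : ℕ) : ℤ) + h = ((x : ℤ) + h) + (u : ℤ) * 2 ^ k := by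
          push_cast; ring
        have e2 : 3 ^ i * ((x : ℤ) + (u : ℤ) * ((2 ^ k : ℕ) : ℤ)) + r =
            (3 ^ i * x + r) + 3 ^ i * (u : ℤ) * 2 ^ k := by push_cast; ring
        rw [e1, e2]
        push_cast
        ring
      rw [e]
      refine (abs_sub _ _).trans ?_
      have h2 := class_corr hik hb ((x : ℤ) + h) (3 ^ i * x + r)
      have h3 := class_corr hik hb (x : ℤ) (3 ^ i * x + r)
      linarith
    · rw [if_neg hs, mul_zero]
      apply le_of_eq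
      rw [abs_eq_zero]
      apply sum_eq_zero
      intro u _
      have hs' : ¬ surv 1 k (0, h) ((x : ℤ) + (u : ℤ) * ((2 ^ k : ℕ) : ℤ)) := by
        push_cast
        rw [surv_periodic (d := 1) (by norm_num)]
        exact hs
      obtain ⟨l, hl, hh⟩ := coal (by norm_num) k 0 h _ hs'
      rw [pow_zero, one_mul, one_mul] at hh
      have h3 := iter_persist hh (show l ≤ m + k by omega)
      have e : Fn (m + k) ((x : ℤ) + (u : ℤ) * ((2 ^ k : ℕ) : ℤ) + h) =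
          Fn (m + k) ((x : ℤ) + (u : ℤ) * ((2 ^ k : ℕ) : ℤ)) := by
        unfold Fn
        rw [h3]
      rw [e, sub_self, zero_mul]
  refine (sum_le_sum h1).trans ?_
  rw [← mul_sum, count_surv (d := 1) (by norm_num)]
  apply le_of_eq
  ring

/-- the part of the change which comes from `h'` -/
theorem half2 {m k i : ℕ} {b : ℝ} (hik : k ≤ i)
    (hb : ∀ j : ℕ, i ≤ j + k → j ≤ i + k → ∀ r : ℤ, |(P^[m] Y) (j, r)| ≤ b) (r h : ℤ) :
    |∑ x ∈ range (2 ^ (m + k + 1)), Fn (m + k) x * (Fn (m + k) (3 ^ i * x + r + h) - Fn (m + k) (3 ^ i * x + r))| ≤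
      2 ^ (m + k + 1) * (2 * b * q step (0, 0) k (0, h)) := by
  classical
  have hN : 2 ^ (m + k + 1) = 2 ^ k * 2 ^ (m + 1) := by rw [← pow_add]; congr 1; ring
  rw [hN, sum_class (fun x : ℤ => Fn (m + k) x * (Fn (m + k) (3 ^ i * x + r + h) - Fn (m + k) (3 ^ i * x + r)))]
  refine (abs_sum_le_sum_abs _ _).trans ?_
  have h1 : ∀ x ∈ range (2 ^ k), |∑ u ∈ range (2 ^ (m + 1)),
      Fn (m + k) ((x : ℤ) + (u : ℤ) * ((2 ^ k : ℕ) : ℤ)) *
        (Fn (m + k) (3 ^ i * ((x : ℤ) + (u : ℤ) * ((2 ^ k : ℕ) : ℤ)) + r + h) -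
          Fn (m + k) (3 ^ i * ((x : ℤ) + (u : ℤ) * ((2 ^ k : ℕ) : ℤ)) + r))| ≤
      (2 * 2 ^ (m + 1) * b) * (if surv 1 k (0, h) (3 ^ i * (x : ℤ) + r) then (1 : ℝ) else 0) := by
    intro x _
    by_cases hs : surv 1 k (0, h) (3 ^ i * (x : ℤ) + r)
    · rw [if_pos hs, mul_one]
      have e : ∑ u ∈ range (2 ^ (m + 1)),
        Fn (m + k) ((x : ℤ) + (u : ℤ) * ((2 ^ k : ℕ) : ℤ)) *
        (Fn (m + k) (3 ^ i * ((x : ℤ) + (u : ℤ) * ((2 ^ k : ℕ) : ℤ)) + r + h) -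
          Fn (m + k) (3 ^ i * ((x : ℤ) + (u : ℤ) * ((2 ^ k : ℕ) : ℤ)) + r)) =
        ∑ u ∈ range (2 ^ (m + 1)), Fn (m + k) ((x : ℤ) + (u : ℤ) * 2 ^ k) *
          Fn (m + k) ((3 ^ i * x + r + h) + 3 ^ i * (u : ℤ) * 2 ^ k) -
        ∑ u ∈ range (2 ^ (m + 1)), Fn (m + k) ((x : ℤ) + (u : ℤ) * 2 ^ k) *
          Fn (m + k) ((3 ^ i * x + r) + 3 ^ i * (u : ℤ) * 2 ^ k) := by
        rw [← sum_sub_distrib]
        apply sum_congr rfl
        intro u _
        have e1 : 3 ^ i * ((x : ℤ) + (u : ℤ) * ((2 ^ k : ℕ) : ℤ)) + r + h =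
            (3 ^ i * x + r + h) + 3 ^ i * (u : ℤ) * 2 ^ k := by push_cast; ring
        have e2 : 3 ^ i * ((x : ℤ) + (u : ℤ) * ((2 ^ k : ℕ) : ℤ)) + r =
            (3 ^ i * x + r) + 3 ^ i * (u : ℤ) * 2 ^ k := by push_cast; ring
        rw [e1, e2]
        push_cast
        ring
      rw [e]
      refine (abs_sub _ _).trans ?_
      have h2 := class_corr hik hb (x : ℤ) (3 ^ i * x + r + h)
      have h3 := class_corr hik hb (x : ℤ) (3 ^ i * x + r)
      linarith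
    · rw [if_neg hs, mul_zero]
      apply le_of_eq
      rw [abs_eq_zero]
      apply sum_eq_zero
      intro u _
      have hs' : ¬ surv 1 k (0, h) (3 ^ i * ((x : ℤ) + (u : ℤ) * ((2 ^ k : ℕ) : ℤ)) + r) := by
        have e : 3 ^ i * ((x : ℤ) + (u : ℤ) * ((2 ^ k : ℕ) : ℤ)) + r =
            (3 ^ i * (x : ℤ) + r) + (3 ^ i * (u : ℤ)) * 2 ^ k := by push_cast; ring
        rw [e, surv_periodic (d := 1) (by norm_num)]
        exact hs
      obtain ⟨l, hl, hh⟩ := coal (by norm_num) k 0 h _ hs'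
      rw [pow_zero, one_mul, one_mul] at hh
      have h3 := iter_persist hh (show l ≤ m + k by omega)
      have e : Fn (m + k) (3 ^ i * ((x : ℤ) + (u : ℤ) * ((2 ^ k : ℕ) : ℤ)) + r + h) =
          Fn (m + k) (3 ^ i * ((x : ℤ) + (u : ℤ) * ((2 ^ k : ℕ) : ℤ)) + r) := by
        unfold Fn
        rw [h3]
      rw [e, sub_self, mul_zero]
  refine (sum_le_sum h1).trans ?_
  have h4 := sum_affine k (fun x : ℤ => if surv 1 k (0, h) x then (1 : ℝ) else 0)
    (by intro x c; simp only [surv_periodic (d := 1) (by norm_num : (1 : ℤ) % 2 = 1)]) (odd3 i) r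
  rw [← mul_sum, h4, count_surv (d := 1) (by norm_num)]
  apply le_of_eq

  ring

/-- changing `r` by `3 ^ i h + h'` -/
theorem change_r' {m k i : ℕ} {b : ℝ} (hik : k ≤ i)
    (hb : ∀ j : ℕ, i ≤ j + k → j ≤ i + k → ∀ r : ℤ, |(P^[m] Y) (j, r)| ≤ b) (r h h' : ℤ) :
    |∑ x ∈ range (2 ^ (m + k + 1)), Fn (m + k) x * Fn (m + k) (3 ^ i * x + r) -
      ∑ x ∈ range (2 ^ (m + k + 1)), Fn (m + k) x * Fn (m + k) (3 ^ i * x + r + (3 ^ i * h + h'))| ≤
      2 ^ (m + k + 1) * (2 * b * q step (0, 0) k (0, h) + 2 * b * q step (0, 0) k (0, h')) := by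
  set n := m + k with hn
  have e1 : ∑ x ∈ range (2 ^ (n + 1)), Fn n x * Fn n (3 ^ i * x + r) =
      ∑ x ∈ range (2 ^ (n + 1)), Fn n (x + h) * Fn n (3 ^ i * x + (r + 3 ^ i * h)) := by
    have := sum_affine (n + 1) (fun x : ℤ => Fn n x * Fn n (3 ^ i * x + r)) (fun x m => prod_per n i r x m)
      (a := 1) (by norm_num) h
    rw [← this]
    apply sum_congr rfl
    intro x _
    rw [one_mul]
    congr 2
    ring
  have e2 : ∑ x ∈ range (2 ^ (n + 1)), Fn n x * Fn n (3 ^ i * x + r) -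
      ∑ x ∈ range (2 ^ (n + 1)), Fn n x * Fn n (3 ^ i * x + r + (3 ^ i * h + h')) =
      ∑ x ∈ range (2 ^ (n + 1)), (Fn n (x + h) - Fn n x) * Fn n (3 ^ i * x + (r + 3 ^ i * h)) -
      ∑ x ∈ range (2 ^ (n + 1)), Fn n x * (Fn n (3 ^ i * x + (r + 3 ^ i * h) + h') - Fn n (3 ^ i * x + (r + 3 ^ i * h))) := by
    rw [e1, ← sum_sub_distrib, ← sum_sub_distrib]
    apply sum_congr rfl
    intro x _
    have e : 3 ^ i * (x : ℤ) + r + (3 ^ i * h + h') = 3 ^ i * x + (r + 3 ^ i * h) + h' := by ring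
    rw [e]
    ring
  rw [e2]
  refine (abs_sub _ _).trans ?_
  have h4 := half1 hik hb (r + 3 ^ i * h) h
  have h5 := half2 hik hb (r + 3 ^ i * h) h'
  rw [← hn] at h4 h5
  linarith

/-- the correlation at the level `i` -/
theorem corr_le' {m k i : ℕ} {b : ℝ} (hik : k ≤ i)
    (hb : ∀ j : ℕ, i ≤ j + k → j ≤ i + k → ∀ r : ℤ, |(P^[m] Y) (j, r)| ≤ b)
    {M : ℕ} (hM : 1 ≤ M) {μ : ℝ} (hμ : 0 < μ) (r : ℤ) :
    |(P^[m + k] Y) (i, r)| ≤ (1 / (M : ℝ) ^ 2) * ((μ * VV (m + k) M i + 1 / μ) / 2) +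
      4 / M * (b * ∑ h ∈ range M, q step (0, 0) k (0, (h : ℤ))) := by
  have hMr : (0 : ℝ) < M := by exact_mod_cast hM
  set n := m + k with hn
  set N : ℝ := 2 ^ (n + 1) with hN
  have hN0 : 0 < N := by positivity
  set B := ∑ x ∈ range (2 ^ (n + 1)), Fn n x * Fn n (3 ^ i * x + r) with hB
  have hBP : B = N * (P^[n] Y) (i, r) := pair_avg n i r
  set Qs := b * ∑ h ∈ range M, q step (0, 0) k (0, (h : ℤ)) with hQs
  have h1 : (M : ℝ) ^ 2 * |B| ≤ |∑ x ∈ range (2 ^ (n + 1)), Fn n x * SA n M i (3 ^ i * x + r)| + N * (4 * M * Qs) := by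
    have e1 : (M : ℝ) ^ 2 * B = ∑ h ∈ range M, ∑ h' ∈ range M, B := by
      rw [sum_const, sum_const, card_range, nsmul_eq_mul, nsmul_eq_mul]; ring
    have e2 : ∑ x ∈ range (2 ^ (n + 1)), Fn n x * SA n M i (3 ^ i * x + r) = ∑ h ∈ range M, ∑ h' ∈ range M,
        ∑ x ∈ range (2 ^ (n + 1)), Fn n x * Fn n (3 ^ i * x + r + (3 ^ i * (h : ℤ) + (h' : ℤ))) := by
      unfold SA
      have h5 : ∀ x ∈ range (2 ^ (n + 1)), Fn n x * ∑ h ∈ range M, ∑ h' ∈ range M,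
          Fn n (3 ^ i * x + r + (3 ^ i * (h : ℤ) + (h' : ℤ))) = ∑ h ∈ range M, ∑ h' ∈ range M,
          Fn n x * Fn n (3 ^ i * x + r + (3 ^ i * (h : ℤ) + (h' : ℤ))) := by
        intro x _
        rw [mul_sum]
        apply sum_congr rfl
        intro h _
        rw [mul_sum]
      rw [sum_congr rfl h5, sum_comm]
      apply sum_congr rfl
      intro h _
      rw [sum_comm]
    have e3 : (M : ℝ) ^ 2 * |B| = |(M : ℝ) ^ 2 * B| := by
      rw [abs_mul, abs_of_nonneg (show (0 : ℝ) ≤ (M : ℝ) ^ 2 by positivity)]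
    rw [e3, e1, e2]
    have h6 : |∑ h ∈ range M, ∑ h' ∈ range M, B - ∑ h ∈ range M, ∑ h' ∈ range M,
        ∑ x ∈ range (2 ^ (n + 1)), Fn n x * Fn n (3 ^ i * x + r + (3 ^ i * (h : ℤ) + (h' : ℤ)))| ≤ N * (4 * M * Qs) := by
      rw [← sum_sub_distrib]
      refine (abs_sum_le_sum_abs _ _).trans ?_
      calc _ ≤ ∑ h ∈ range M, ∑ h' ∈ range M, N * (2 * b * q step (0, 0) k (0, (h : ℤ)) +
                2 * b * q step (0, 0) k (0, (h' : ℤ))) := by
            apply sum_le_sum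
            intro h _
            rw [← sum_sub_distrib]
            refine (abs_sum_le_sum_abs _ _).trans ?_
            apply sum_le_sum
            intro h' _
            exact change_r' hik hb r h h'
        _ = N * (4 * M * Qs) := by
            have e4 : ∀ h ∈ range M, ∑ h' ∈ range M, N * (2 * b * q step (0, 0) k (0, (h : ℤ)) +
                2 * b * q step (0, 0) k (0, (h' : ℤ))) = N * (2 * M * b * q step (0, 0) k (0, (h : ℤ))) + N * (2 * Qs) := by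
              intro h _
              rw [← mul_sum, sum_add_distrib, sum_const, card_range, nsmul_eq_mul, ← mul_sum, hQs]
              ring
            rw [sum_congr rfl e4, sum_add_distrib, ← mul_sum, ← mul_sum, sum_const, card_range, nsmul_eq_mul, hQs]
            ring
    have h7 := abs_sub_abs_le_abs_sub (∑ h ∈ range M, ∑ h' ∈ range M, B) (∑ h ∈ range M, ∑ h' ∈ range M,
        ∑ x ∈ range (2 ^ (n + 1)), Fn n x * Fn n (3 ^ i * x + r + (3 ^ i * (h : ℤ) + (h' : ℤ))))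
    linarith
  have h2 : |∑ x ∈ range (2 ^ (n + 1)), Fn n x * SA n M i (3 ^ i * x + r)| ≤ N * ((μ * VV n M i + 1 / μ) / 2) := by
    calc _ ≤ ∑ x ∈ range (2 ^ (n + 1)), (μ * SA n M i (3 ^ i * x + r) ^ 2 + 1 / μ) / 2 := by
          refine (abs_sum_le_sum_abs _ _).trans ?_
          apply sum_le_sum
          intro x _
          rw [abs_mul, Fn_abs, one_mul]
          set z := SA n M i (3 ^ i * x + r)
          have h3 : 0 ≤ (μ * |z| - 1) ^ 2 := sq_nonneg _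
          have h4 : μ * (2 * |z|) ≤ μ * (μ * z ^ 2 + 1 / μ) := by
            have e : μ * (μ * z ^ 2 + 1 / μ) = μ ^ 2 * |z| ^ 2 + 1 := by rw [sq_abs]; field_simp
            rw [e]; nlinarith
          have h5 := le_of_mul_le_mul_left h4 hμ
          linarith
      _ = ∑ x ∈ range (2 ^ (n + 1)), (μ * SA n M i x ^ 2 + 1 / μ) / 2 :=
          sum_affine (n + 1) (fun y : ℤ => (μ * SA n M i y ^ 2 + 1 / μ) / 2) (fun y m => by rw [SA_per]) (odd3 i) r
      _ = N * ((μ * VV n M i + 1 / μ) / 2) := by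
          rw [← sum_div, sum_add_distrib, ← mul_sum, sum_const, card_range, nsmul_eq_mul]
          unfold VV
          rw [← hN]
          push_cast
          rw [← hN]
          field_simp
  have h3 : (M : ℝ) ^ 2 * (N * |(P^[n] Y) (i, r)|) ≤ N * ((μ * VV n M i + 1 / μ) / 2) + N * (4 * M * Qs) := by
    have e : |B| = N * |(P^[n] Y) (i, r)| := by rw [hBP, abs_mul, abs_of_pos hN0]
    rw [e] at h1
    linarith
  have h4 : (M : ℝ) ^ 2 * N * |(P^[n] Y) (i, r)| ≤ (M : ℝ) ^ 2 * N *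
      ((1 / (M : ℝ) ^ 2) * ((μ * VV n M i + 1 / μ) / 2) + 4 / M * Qs) := by
    have e : (M : ℝ) ^ 2 * N * ((1 / (M : ℝ) ^ 2) * ((μ * VV n M i + 1 / μ) / 2) + 4 / M * Qs) =
        N * ((μ * VV n M i + 1 / μ) / 2) + N * (4 * M * Qs) := by field_simp
    rw [e]
    linarith
  exact le_of_mul_le_mul_left h4 (by positivity)

end Pool.Agent.KS6_24.ST.B0
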