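import Pool.Agent.KS6_24.ST.BalDefs

/-!
PROJECT ST, job J2-A1: the blocks of the pair in terms of the chain.
-/

set_option autoImplicit false

namespace Pool.Agent.KS6_24.ST

open Pool.Agent.H499R2.CO Pool.Agent.Y965.SI Finset Pool.Agent.KS6_24.LN Pool.Agent.KS6_24.LN.TW

open Pool.Agent.T6.H47.CL (Y al kb vv mm yy)

namespace BA1

/-- the mean over the residues splits into the even and the odd residues -/
theorem pm_two (t : ℕ) (F : ℤ → ℝ) :
    pm (t + 1) F = (pm t (fun u => F (2 * u)) + pm t (fun u => F (2 * u + 1))) / 2 := by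
  unfold pm
  rw [pow_succ, mul_comm (2 ^ t) 2, sum_two]
  push_cast
  rw [pow_succ]
  field_simp

/-- one step of the pair for a symmetric function -/
theorem pair_pm {d : ℤ} (hd : d % 2 = 1) (t : ℕ) (Φ : ℤ → ℤ → ℝ) (hs : ∀ x y, Φ x y = Φ y x)
    (hp : ∀ x y m m' : ℤ, Φ (x + m * 2 ^ t) (y + m' * 2 ^ t) = Φ x y) (i : ℕ) (r : ℤ) :
    pm (t + 1) (fun v => Φ (Tz d v) (Tz d (3 ^ i * v + d * r))) =
      (pm t (fun v => Φ v (3 ^ (step (i, r) false).1 * v + d * (step (i, r) false).2)) +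
        pm t (fun v => Φ v (3 ^ (step (i, r) true).1 * v + d * (step (i, r) true).2))) / 2 := by
  have key : ∀ v : ℤ, Φ (Tz d v) (Tz d (3 ^ i * v + d * r)) =
      Φ (nx d (i, r) v) (3 ^ (step (i, r) (decide (v % 2 = 1))).1 * nx d (i, r) v +
        d * (step (i, r) (decide (v % 2 = 1))).2) := by
    intro v
    rcases pair_step hd i r v with ⟨e1, e2, _⟩ | ⟨e1, e2, _⟩
    · rw [e1, e2]
    · rw [e1, e2, hs]
  have hper : ∀ s : ℕ × ℤ, Per t (fun v => Φ v (3 ^ s.1 * v + d * s.2)) := by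
    intro s x m
    have e : 3 ^ s.1 * (x + m * 2 ^ t) + d * s.2 = (3 ^ s.1 * x + d * s.2) + (3 ^ s.1 * m) * 2 ^ t := by
      ring
    simp only
    rw [e, hp]
  rw [pm_two]
  congr 1
  congr 1
  · apply pm_congr
    intro u
    rw [key]
    have hx : (2 * u) % 2 = 0 := by omega
    have hn : nx d (i, r) (2 * u) = u := by
      unfold nx
      rw [if_neg (by omega)]
      unfold Tz
      rw [if_pos hx]; omega
    have hdec : decide ((2 * u) % 2 = 1) = false := by rw [hx]; rfl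
    rw [hdec, hn]
  · have hpar : ∀ u : ℤ, (2 * u + 1) % 2 = 1 := by intro u; omega
    by_cases hsw : i = 0 ∧ r % 2 = 1
    · have hodd : (d * r) % 2 = 1 := odd_mul hd hsw.2
      rw [← pm_affine (hper (step (i, r) true)) (a := 1) (by norm_num) ((1 + d * r) / 2)]
      apply pm_congr
      intro u
      rw [key]
      have hn : nx d (i, r) (2 * u + 1) = 1 * u + (1 + d * r) / 2 := by
        unfold nx
        rw [if_pos ⟨hsw.1, hsw.2, hpar u⟩]
        simp only
        omega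
      have hdec : decide ((2 * u + 1) % 2 = 1) = true := by rw [hpar]; rfl
      rw [hdec, hn]
    · rw [← pm_affine (hper (step (i, r) true)) (a := 3) (by norm_num) ((3 + d) / 2)]
      apply pm_congr
      intro u
      rw [key]
      have hn : nx d (i, r) (2 * u + 1) = 3 * u + (3 + d) / 2 := by
        unfold nx
        rw [if_neg (fun h' => hsw ⟨h'.1, h'.2.1⟩)]
        unfold Tz
        rw [if_neg (by rw [hpar]; norm_num)]; omega
      have hdec : decide ((2 * u + 1) % 2 = 1) = true := by rw [hpar]; rfl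
      rw [hdec, hn]

/-- the product of the signs of the pair -/
theorem sg_pair {d : ℤ} (hd : d % 2 = 1) (i : ℕ) (r v : ℤ) :
    sg v * sg (3 ^ i * v + d * r) = Y (i, r) := by
  have h3 := three_pow_odd i
  obtain ⟨e, he⟩ : ∃ e, d = 2 * e + 1 := ⟨d / 2, by omega⟩
  obtain ⟨p, hp⟩ : ∃ p, (3 : ℤ) ^ i = 2 * p + 1 := ⟨3 ^ i / 2, by omega⟩
  have e1 : 3 ^ i * v + d * r = v + (r + (2 * (p * v + e * r))) := by rw [hp, he]; ring
  rw [e1]
  rcases Int.emod_two_eq_zero_or_one r with hr | hr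
  · rw [Pool.Agent.T6.H47.CL.Y_even hr, sg_even (by omega), sg_sq]
  · rw [Pool.Agent.T6.H47.CL.Y_odd hr, sg_odd (by omega), mul_neg, sg_sq]

/-- sums of products of signs are periodic -/
theorem sum_per {d : ℤ} (hd : d % 2 = 1) {t Λ a : ℕ} (h : a + Λ ≤ t) (x y m m' : ℤ) :
    ∑ j ∈ range Λ, sg ((Tz d)^[a + j] (x + m * 2 ^ t)) * sg ((Tz d)^[a + j] (y + m' * 2 ^ t)) =
      ∑ j ∈ range Λ, sg ((Tz d)^[a + j] x) * sg ((Tz d)^[a + j] y) := by
  apply sum_congr rfl
  intro j hj
  rw [mem_range] at hj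
  rw [sg_per hd (by omega), sg_per hd (by omega)]

/-- a block which starts at once -/
theorem block0 {d : ℤ} (hd : d % 2 = 1) (Λ : ℕ) : ∀ (t i : ℕ) (r : ℤ) (b : ℝ), Λ ≤ t →
    pm t (fun v => |b + ∑ j ∈ range Λ, sg ((Tz d)^[j] v) * sg ((Tz d)^[j] (3 ^ i * v + d * r))|) =
      Gb Λ (i, r) b := by
  induction Λ with
  | zero =>
    intro t i r b _
    rw [Gb]
    simp only [range_zero, sum_empty, add_zero]
    exact pm_const t _
  | succ Λ ih =>
    intro t i r b ht
    obtain ⟨t', rfl⟩ : ∃ t', t = t' + 1 := ⟨t - 1, by omega⟩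
    have ht' : Λ ≤ t' := by omega
    set Φ : ℤ → ℤ → ℝ := fun x y => |(b + Y (i, r)) + ∑ j ∈ range Λ, sg ((Tz d)^[j] x) * sg ((Tz d)^[j] y)|
      with hΦ
    have e : ∀ v : ℤ, |b + ∑ j ∈ range (Λ + 1), sg ((Tz d)^[j] v) * sg ((Tz d)^[j] (3 ^ i * v + d * r))| =
        Φ (Tz d v) (Tz d (3 ^ i * v + d * r)) := by
      intro v
      rw [hΦ]
      simp only
      rw [sum_range_succ', Function.iterate_zero, id, id, sg_pair hd]
      congr 1
      rw [add_comm (∑ k ∈ range Λ, _) (Y (i, r)), ← add_assoc]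
      rfl
    rw [pm_congr e, pair_pm hd t' Φ]
    · rw [Gb, ← ih t' _ _ _ ht', ← ih t' _ _ _ ht']
    · intro x y
      rw [hΦ]
      simp only [mul_comm]
    · intro x y m m'
      rw [hΦ]
      simp only
      have h1 := sum_per hd (t := t') (Λ := Λ) (a := 0) (by omega) x y m m'
      simp only [zero_add] at h1
      rw [h1]

theorem block {d : ℤ} (hd : d % 2 = 1) (Λ : ℕ) (a : ℕ) : ∀ (t i : ℕ) (r : ℤ), a + Λ ≤ t →
    pm t (fun v => |∑ j ∈ range Λ, sg ((Tz d)^[a + j] v) * sg ((Tz d)^[a + j] (3 ^ i * v + d * r))|) =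
      (P^[a] (fun s => Gb Λ s 0)) (i, r) := by
  induction a with
  | zero =>
    intro t i r ht
    have h1 := block0 hd Λ t i r 0 (by omega)
    simp only [zero_add] at h1 ⊢
    rw [h1, Function.iterate_zero, id]
  | succ a ih =>
    intro t i r ht
    obtain ⟨t', rfl⟩ : ∃ t', t = t' + 1 := ⟨t - 1, by omega⟩
    set Φ : ℤ → ℤ → ℝ := fun x y => |∑ j ∈ range Λ, sg ((Tz d)^[a + j] x) * sg ((Tz d)^[a + j] y)|
      with hΦ
    have e : ∀ v : ℤ, |∑ j ∈ range Λ, sg ((Tz d)^[a + 1 + j] v) * sg ((Tz d)^[a + 1 + j] (3 ^ i * v + d * r))| =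
        Φ (Tz d v) (Tz d (3 ^ i * v + d * r)) := by
      intro v
      rw [hΦ]
      simp only
      congr 1
      apply sum_congr rfl
      intro j _
      rw [show a + 1 + j = (a + j) + 1 by ring, Function.iterate_succ_apply, Function.iterate_succ_apply]
    rw [pm_congr e, pair_pm hd t' Φ]
    · rw [Function.iterate_succ_apply', Pool.Agent.T6.H47.CL.P_apply, ← ih t' _ _ (by omega),
        ← ih t' _ _ (by omega)]
    · intro x y
      rw [hΦ]
      simp only [mul_comm]
    · intro x y m m'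
      rw [hΦ]
      simp only
      rw [sum_per hd (by omega)]

end BA1

/-- **J2-A1.** -/
theorem ba1 (d : ℤ) (hd : d = 1 ∨ d = -1) : S_BA1 d := by
  intro t Λ a i h c
  have hd2 : d % 2 = 1 := by rcases hd with rfl | rfl <;> decide
  have hdd : d * (d * c) = c := by rcases hd with rfl | rfl <;> ring
  have h1 := BA1.block hd2 Λ a t i (d * c) h
  rw [hdd] at h1
  exact h1

end Pool.Agent.KS6_24.ST
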