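import Mathlib
import Pool.Agent.KS6_24.LN.TW
import Pool.Agent.KS6_24.LN.PairAbs
import Pool.Agent.KS6_24.LN.U1
import Pool.Graph.R_pool_sql_team_seeded_47a924f7.T6.H47.CL5

/-!
PROJECT ST (sharp threshold `sqrt (log n)`), MP_d02c56_nt.  Statements of the jobs.
See `ST/Blueprint.md` for the proofs.
-/

set_option autoImplicit false

namespace Pool.Agent.KS6_24.ST

open Pool.Agent.H499R2.CO Pool.Agent.Y965.SI Finset Pool.Agent.KS6_24.LN Pool.Agent.KS6_24.LN.TW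

/-- J1, BOOTSTRAPPED CORRELATIONS (library chain, `P`, `Y`; improves `CL.exists_beta`). -/
def S_B0 : Prop := ∀ C : ℕ, ∃ n0 : ℕ, ∀ n : ℕ, n0 ≤ n → ∃ β : ℕ → ℝ, (∀ i, 0 ≤ β i) ∧ (∀ i, β i ≤ 1) ∧
  (∀ (i : ℕ) (r : ℤ), |(P^[n] Pool.Agent.T6.H47.CL.Y) (i, r)| ≤ β i) ∧
  ∀ a k : ℕ, ∑ j ∈ range k, β (a + j) ≤ ((k : ℝ) + 2 ^ n) / (n : ℝ) ^ C

/-- J2, BALANCE of the pair `v`, `3 ^ i v + c`. -/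
def S_BAL (d : ℤ) : Prop := ∀ C : ℕ, ∃ (D : ℝ) (t0 : ℕ), 0 < D ∧ 2 ≤ t0 ∧ ∀ t Λ i : ℕ, t0 ≤ t → 1 ≤ Λ → Λ ≤ t →
  i ≤ t ^ 10 → ∀ c : ℤ,
  ∑ q ∈ range (t / Λ), pm t (fun v => |∑ j ∈ range Λ, sg ((Tz d)^[q * Λ + j] v) *
      sg ((Tz d)^[q * Λ + j] (3 ^ i * v + c))|)
    ≤ t * (D * √ (Real.log t / Λ) + 1 / Real.log t ^ C + 2 * Real.exp (-(i : ℝ) ^ 2 / (2 * t)))

/-- J3, FOUR WALKERS: smooth functions of the numbers of odd steps of four affine walkers. -/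
def S_4W (d : ℤ) : Prop := ∃ C : ℝ, 0 < C ∧ ∀ t Λ : ℕ, 1 ≤ Λ → Λ ≤ t → ∀ (φ : Fin 4 → ℕ → ℝ) (δ₁ δ₂ : ℝ),
  δ₁ ≤ 1 → (∀ a n, |φ a n| ≤ 1) → (∀ a n, |φ a (n + 1) - φ a n| ≤ δ₁) →
  (∀ a n, |φ a (n + 2) - 2 * φ a (n + 1) + φ a n| ≤ δ₂) → ∀ A B : Fin 4 → ℤ, (∀ a, A a % 2 = 1) →
  |pm t (fun v => ∏ a, φ a (od d t (A a * v + B a))) - ∏ a, pm t (fun v => φ a (od d t v))|
    ≤ δ₁ ^ 2 * (∑ a, ∑ b, if a < b then ∑ q ∈ range (t / Λ), pm t (fun v => |∑ j ∈ range Λ,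
        sg ((Tz d)^[q * Λ + j] (A a * v + B a)) * sg ((Tz d)^[q * Λ + j] (A b * v + B b))|) else 0)
      + C * (t * Λ * (δ₁ * δ₂ + δ₁ ^ 3) + Λ * δ₁ ^ 2)

/-- J4a, SIGNS IN A WINDOW (as `TW.sign_block`, arbitrary coefficients). -/
def S_WS (d : ℤ) : Prop := ∃ C : ℝ, 0 < C ∧ ∀ t k Λ l m : ℕ, C ≤ k → 1 ≤ Λ → Λ ≤ k → m ≤ t →
  gm * t + 40 * k ≤ Real.log l → ∀ c : ℕ → ℝ, (∀ i, c i * c i = 1) → ∀ x : ℤ,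
    (∑ w ∈ range l, |∑ j ∈ range Λ, c j * sg ((Tz d)^[m + j] (x + (w : ℕ)))|) / l
      ≤ C * (Λ * √ (1 / Λ + (t + k : ℝ) ^ 3 / (k : ℝ) ^ 4))

/-- J4b, the oscillating factors of `y` and `y / 3 ^ i` in a window of length `l * 3 ^ i`. -/
def S_ETA (d : ℤ) : Prop := ∀ C : ℕ, ∃ (D : ℝ) (t0 : ℕ), 0 < D ∧ 2 ≤ t0 ∧ ∀ t k Λ g l i : ℕ, t0 ≤ t → D ≤ k →
  1 ≤ Λ → Λ ≤ k → k ≤ t → 1 ≤ g → i ≤ t ^ 10 → gm * t + 40 * k ≤ Real.log l → ∀ V : ℝ, 2 ^ t ≤ V → ∀ c c' : ℕ,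
    (∑ w ∈ range (l * 3 ^ i), ∑ w' ∈ range (l * 3 ^ i), |av (3 ^ i * V) (fun y =>
        (ph d t g c (⌊y⌋ + (w : ℕ)) * ph d t g c (⌊y⌋ + (w' : ℕ))) *
          (ph d t g c' ((⌊y⌋ + (w : ℕ)) / 3 ^ i) * ph d t g c' ((⌊y⌋ + (w' : ℕ)) / 3 ^ i)))|) / (l * 3 ^ i : ℝ) ^ 2
      ≤ D * (t / (g : ℝ) ^ 2 * (√ (1 / Λ + (t + k : ℝ) ^ 3 / (k : ℝ) ^ 4) + √ (Real.log t / Λ) + 1 / Real.log t ^ C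
          + Real.exp (-(i : ℝ) ^ 2 / (2 * t))) + t * Λ / (g : ℝ) ^ 3 + Λ / (g : ℝ) ^ 2 + 2 ^ t / V)

/-- the correlation of `f y` and `f (3 ^ j y)`, `j` an integer -/
noncomputable def cor (f : ℤ → ℝ) (V : ℝ) (j : ℤ) : ℝ := av V (fun y => f ⌊y⌋ * f ⌊(3 : ℝ) ^ j * y⌋)

/-- number of steps, width of the kernel, range of a stage at height `m` -/
def st (m L : ℕ) : ℕ := m / L ^ 2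
def sgw (m L : ℕ) : ℕ := Nat.sqrt (st m L) / L ^ 5
def sB (m L : ℕ) : ℕ := Nat.sqrt (st m L) * L ^ 3

/-- J5, STAGE LEMMA. -/
def S_STAGE (d : ℤ) : Prop := ∃ (D : ℝ) (m0 : ℕ), 0 < D ∧ 2 ≤ m0 ∧ ∀ f : ℤ → ℝ, InvF d f → ∀ m L : ℕ, m0 ≤ m →
  Nat.log 2 m ≤ L → L ≤ 3 * Nat.log 2 m → ∀ V : ℝ, 2 ^ m ≤ V → ∀ i : ℕ, √ m ≤ i → (i : ℝ) ≤ (m : ℝ) ^ (0.9995 : ℝ) →
    |cor f V i - ∑ c ∈ Cs (st m L) (sgw m L) (sB m L), ∑ c' ∈ Cs (st m L) (sgw m L) (sB m L),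
        pc d (st m L) (sgw m L) c * pc d (st m L) (sgw m L) c' * cor f (3 ^ c / 2 ^ (st m L) * V) ((i : ℤ) + c' - c)|
      ≤ D / (L : ℝ) ^ 4

/-- J6, ENERGY IN THE VERTICAL CLOCK, from `S_EN2`. -/
def S_VEN (d : ℤ) : Prop := ∀ f : ℤ → ℝ, InvF d f → MeanZero f → ∀ ε : ℝ, 0 < ε → ∃ Z0 : ℝ, 1 ≤ Z0 ∧
  ∀ Z : ℝ, Z0 ≤ Z → ∀ K : ℕ, Real.log Z ^ (0.9985 : ℝ) ≤ K → (K : ℝ) ≤ Real.log Z ^ (0.999 : ℝ) →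
    av Z (fun y => |(∑ j ∈ range K, f ⌊3 ^ j * y⌋) / K|) ≤ ε

/-- J7, CORRELATIONS (from `S_STAGE` and `S_VEN`). -/
def S_COR (d : ℤ) : Prop := ∀ f : ℤ → ℝ, InvF d f → MeanZero f → ∀ ε : ℝ, 0 < ε → ∃ A V0 : ℝ, 0 < A ∧ 1 ≤ V0 ∧
  ∀ V : ℝ, V0 ≤ V → ∀ i : ℕ, A * √ (Real.log V) ≤ i → (i : ℝ) ≤ Real.log V ^ (0.5001 : ℝ) → |cor f V i| ≤ ε

/-- J8, SHARP ENERGY (from `S_COR`). -/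
def S_EN3 (d : ℤ) : Prop := ∀ f : ℤ → ℝ, InvF d f → MeanZero f → ∀ ε : ℝ, 0 < ε → ∃ A V0 : ℝ, 0 < A ∧ 1 ≤ V0 ∧
  ∀ V : ℝ, V0 ≤ V → ∀ K : ℕ, A * √ (Real.log V) ≤ K → (K : ℝ) ≤ 2 * Real.log V →
    av V (fun y => ((∑ j ∈ range K, f ⌊3 ^ j * y⌋) / K) ^ 2) ≤ ε

/-- J9a, coalescence of `3 ^ j n` and `3 ^ j n + r` (library `count_blocks`; see `CI.lean`). -/
def S_CJ (d : ℤ) : Prop := ∃ C : ℝ, 0 < C ∧ ∀ f : ℤ → ℝ, InvF d f → ∀ R : ℕ, 1 ≤ R → ∀ V : ℝ, 2 ^ R ≤ V →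
  ∀ j : ℕ, av V (fun y => |f (3 ^ j * ⌊y⌋) - f ⌊3 ^ j * y⌋|) ≤ C * √ (1 + j) * rho R

open Classical in
/-- J9b, SHARP LAW OF LARGE NUMBERS along `n, 3 n, 9 n, ...`. -/
def S_LLN3 (d : ℤ) : Prop := ∀ S : Set ℤ, (∀ x, Tz d x ∈ S ↔ x ∈ S) → ∀ δ : ℝ, 0 ≤ δ → δ ≤ 1 →
  MeanZero (fun x => S.indicator (fun _ => (1 : ℝ)) x - δ) → ∀ ε : ℝ, 0 < ε → ∃ (A : ℝ) (N0 : ℕ), 0 < A ∧
  ∀ N : ℕ, N0 ≤ N → ∀ K : ℕ, A * √ (Real.log N) ≤ K → (K : ℝ) ≤ Real.log N →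
    (({n ∈ Icc 1 N | ε * K < |(#{i ∈ range K | ((3 ^ i * n : ℕ) : ℤ) ∈ S} : ℝ) - δ * K|}.card : ℕ) : ℝ) ≤ ε * N

open Classical in
/-- J9c, SHARP WINDOWS: all but `ε N` of the windows `[n, n + exp (A √ (log N))]` meet `S`. -/
def S_WIN3 (d : ℤ) : Prop := ∀ S : Set ℤ, (∀ x, Tz d x ∈ S ↔ x ∈ S) → (∃ x ∈ S, 0 < x) → ∀ ε : ℝ, 0 < ε →
  ∃ (A : ℝ) (N0 : ℕ), 0 < A ∧ ∀ N : ℕ, N0 ≤ N →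
    (({n ∈ Icc 1 N | ∀ x : ℕ, n ≤ x → (x : ℝ) ≤ n + Real.exp (A * √ (Real.log N)) → (x : ℤ) ∉ S}.card : ℕ) : ℝ) ≤ ε * N

end Pool.Agent.KS6_24.ST
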