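import Mathlib
import Pool.Agent.KS6_24.ST.Defs

/-!
PROJECT ST, job J2 (`S_BAL`), split into A1, A2, B, C, D.
-/

set_option autoImplicit false

namespace Pool.Agent.KS6_24.ST

open Pool.Agent.H499R2.CO Pool.Agent.Y965.SI Finset Pool.Agent.KS6_24.LN Pool.Agent.KS6_24.LN.TW

open Pool.Agent.T6.H47.CL (Y al kb vv mm yy)

/-- mean of `|a + Σ Y|` over `Λ` steps of the chain (no killing) -/
noncomputable def Gb : ℕ → ℕ × ℤ → ℝ → ℝ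
  | 0, _, a => |a|
  | t + 1, s, a => (Gb t (step s false) (a + Y s) + Gb t (step s true) (a + Y s)) / 2

/-- J2-A1, the pair and the chain (block `[a, a + Λ)`). -/
def S_BA1 (d : ℤ) : Prop := ∀ t Λ a i : ℕ, a + Λ ≤ t → ∀ c : ℤ,
  pm t (fun v => |∑ j ∈ range Λ, sg ((Tz d)^[a + j] v) * sg ((Tz d)^[a + j] (3 ^ i * v + c))|)
    = (P^[a] (fun s => Gb Λ s 0)) (i, d * c)

/-- J2-A2, the sum over the blocks in terms of the killed local time. -/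
def S_BA2 : Prop := ∀ (n : ℕ) (β : ℕ → ℝ), (∀ i, 0 ≤ β i) →
  (∀ (i : ℕ) (r : ℤ), |(P^[n] Y) (i, r)| ≤ β i) → ∀ t Λ : ℕ, 1 ≤ Λ → Λ ≤ t → ∀ s : ℕ × ℤ,
    ∑ q ∈ range (t / Λ), (P^[q * Λ] (fun s => Gb Λ s 0)) s
      ≤ t * (√ ((1 + 4 * n) / Λ + 2 * (∑ j ∈ range t, kb β j s) / t) + (1 - al t s))

/-- J2-B, the killing. -/
def S_BB : Prop := ∀ t i : ℕ, 1 ≤ t → ∀ r : ℤ, 1 - al t (i, r) ≤ Real.exp (-(i : ℝ) ^ 2 / (2 * t))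

/-- J2-C, the killed local time from the potential centred at the level of the start. -/
def S_POT : Prop := ∃ C : ℝ, 0 < C ∧ ∀ (n : ℕ) (β : ℕ → ℝ) (b : ℝ), 0 < b → b ≤ 1 → (∀ i, 0 ≤ β i) → (∀ i, β i ≤ 1) →
  (∀ a k : ℕ, ∑ j ∈ range k, β (a + j) ≤ ((k : ℝ) + 2 ^ n) * b) → ∀ (i₀ t : ℕ) (r : ℤ),
    ∑ j ∈ range t, kb β j (i₀, r) ≤ C * (√ b * t + ((2 : ℝ) ^ n + (Nat.log 2 (i₀ + 2) : ℝ) ^ 2) ^ 2)

end Pool.Agent.KS6_24.ST
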