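import Mathlib
import Pool.Agent.KS6_24.ST.BalDefs

/-! J2-A2 and J2-B. -/

set_option autoImplicit false

namespace Pool.Agent.KS6_24.ST

open Pool.Agent.H499R2.CO Pool.Agent.Y965.SI Finset Pool.Agent.KS6_24.LN Pool.Agent.KS6_24.LN.TW

open Pool.Agent.T6.H47.CL (Y al kb vv mm yy al_zero_level al_zero al_succ level_even level_odd al_nonneg al_le_one
  al_anti GG_eq GG_nonneg GG_zero GG_zero_level GG_succ Y_abs vv_nonneg mm_sum yy_le yy_abs al_sum kb_zero_level kb_zero
  kb_succ vv_zero_level vv_succ P_apply)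

theorem al_exp {θ : ℝ} : ∀ (t i : ℕ) (r : ℤ),
    1 - al t (i, r) ≤ Real.exp (-θ * i) * Real.cosh θ ^ t := by
  have hc : 1 ≤ Real.cosh θ := Real.one_le_cosh θ
  intro t
  induction t with
  | zero =>
    intro i r
    rcases Nat.eq_zero_or_pos i with rfl | h
    · rw [al_zero_level]; simp
    · rw [al_zero h, sub_self]; positivity
  | succ t ih =>
    intro i r
    rcases Nat.eq_zero_or_pos i with rfl | h
    · rw [al_zero_level]
      have := one_le_pow₀ (n := t + 1) hc
      simp only [Nat.cast_zero, mul_zero, Real.exp_zero, one_mul, sub_zero]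
      exact this
    · rw [al_succ h]
      rcases Int.emod_two_eq_zero_or_one r with hr | hr
      · obtain ⟨e1, e2⟩ := level_even (i := i) hr
        have h1 : 1 - al t (step (i, r) false) ≤ Real.exp (-θ * i) * Real.cosh θ ^ t := by
          have := ih (step (i, r) false).1 (step (i, r) false).2
          rw [e1] at this
          have g : (i, (step (i, r) false).2) = step (i, r) false := Prod.ext e1.symm rfl
          rw [g] at this
          exact this
        have h2 : 1 - al t (step (i, r) true) ≤ Real.exp (-θ * i) * Real.cosh θ ^ t := by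
          have := ih (step (i, r) true).1 (step (i, r) true).2
          rw [e2] at this
          have g : (i, (step (i, r) true).2) = step (i, r) true := Prod.ext e2.symm rfl
          rw [g] at this
          exact this
        have h3 : Real.cosh θ ^ t ≤ Real.cosh θ ^ (t + 1) := pow_le_pow_right₀ hc (by omega)
        have h4 := mul_le_mul_of_nonneg_left h3 (Real.exp_pos (-θ * i)).le
        linarith
      · obtain ⟨e1, e2⟩ := level_odd h hr
        have h1 : 1 - al t (step (i, r) false) ≤ Real.exp (-θ * ((i + 1 : ℕ) : ℝ)) * Real.cosh θ ^ t := by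
          have := ih (step (i, r) false).1 (step (i, r) false).2
          rw [e1] at this
          have g : ((i + 1 : ℕ), (step (i, r) false).2) = step (i, r) false := Prod.ext e1.symm rfl
          rw [g] at this
          exact this
        have h2 : 1 - al t (step (i, r) true) ≤ Real.exp (-θ * ((i - 1 : ℕ) : ℝ)) * Real.cosh θ ^ t := by
          have := ih (step (i, r) true).1 (step (i, r) true).2
          rw [e2] at this
          have g : ((i - 1 : ℕ), (step (i, r) true).2) = step (i, r) true := Prod.ext e2.symm rfl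
          rw [g] at this
          exact this
        have e3 : ((i - 1 : ℕ) : ℝ) = i - 1 := by rw [Nat.cast_sub h]; simp
        rw [e3] at h2
        push_cast at h1
        have e4 : Real.exp (-θ * (i + 1)) = Real.exp (-θ * i) * Real.exp (-θ) := by
          rw [← Real.exp_add]; congr 1; ring
        have e5 : Real.exp (-θ * (i - 1)) = Real.exp (-θ * i) * Real.exp θ := by
          rw [← Real.exp_add]; congr 1; ring
        rw [e4] at h1
        rw [e5] at h2
        have e6 : Real.exp (-θ * i) * Real.cosh θ ^ (t + 1)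
            = (Real.exp (-θ * i) * Real.exp (-θ) * Real.cosh θ ^ t + Real.exp (-θ * i) * Real.exp θ * Real.cosh θ ^ t) / 2 := by
          rw [pow_succ, Real.cosh_eq]; ring
        rw [e6]
        linarith

theorem bb : S_BB := by
  intro t i ht r
  have ht0 : (0 : ℝ) < t := by exact_mod_cast ht
  refine (al_exp (θ := (i : ℝ) / t) t i r).trans ?_
  have h1 := Real.cosh_le_exp_half_sq ((i : ℝ) / t)
  have h2 : Real.cosh ((i : ℝ) / t) ^ t ≤ Real.exp (((i : ℝ) / t) ^ 2 / 2) ^ t :=
    pow_le_pow_left₀ (Real.cosh_pos _).le h1 t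
  calc Real.exp (-((i : ℝ) / t) * i) * Real.cosh ((i : ℝ) / t) ^ t
      ≤ Real.exp (-((i : ℝ) / t) * i) * Real.exp (((i : ℝ) / t) ^ 2 / 2) ^ t :=
        mul_le_mul_of_nonneg_left h2 (Real.exp_pos _).le
    _ = Real.exp (-(i : ℝ) ^ 2 / (2 * t)) := by
        rw [← Real.exp_nat_mul, ← Real.exp_add]
        congr 1
        field_simp
        ring

/-- averaging with killing at level zero -/
noncomputable def Kl (F : ℕ × ℤ → ℝ) : ℕ → ℕ × ℤ → ℝ
  | 0, s => if s.1 = 0 then 0 else F s
  | j + 1, s => if s.1 = 0 then 0 else (Kl F j (step s false) + Kl F j (step s true)) / 2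

theorem Kl_zero_level (F : ℕ × ℤ → ℝ) (j : ℕ) (r : ℤ) : Kl F j (0, r) = 0 := by cases j <;> simp [Kl]

theorem Kl_zero (F : ℕ × ℤ → ℝ) {i : ℕ} (hi : 1 ≤ i) (r : ℤ) : Kl F 0 (i, r) = F (i, r) := by
  rw [Kl]; rw [if_neg (by simp only; omega)]

theorem Kl_succ (F : ℕ × ℤ → ℝ) {i : ℕ} (hi : 1 ≤ i) (j : ℕ) (r : ℤ) :
    Kl F (j + 1) (i, r) = (Kl F j (step (i, r) false) + Kl F j (step (i, r) true)) / 2 := by
  rw [Kl]; rw [if_neg (by simp only; omega)]

theorem Kl_mono {F G : ℕ × ℤ → ℝ} (h : ∀ s, F s ≤ G s) : ∀ (j : ℕ) (s : ℕ × ℤ), Kl F j s ≤ Kl G j s := by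
  intro j
  induction j with
  | zero =>
    intro ⟨i, r⟩
    rcases Nat.eq_zero_or_pos i with rfl | hi
    · rw [Kl_zero_level, Kl_zero_level]
    · rw [Kl_zero F hi, Kl_zero G hi]; exact h _
  | succ j ih =>
    intro ⟨i, r⟩
    rcases Nat.eq_zero_or_pos i with rfl | hi
    · rw [Kl_zero_level, Kl_zero_level]
    · rw [Kl_succ F hi, Kl_succ G hi]
      have h1 := ih (step (i, r) false); have h2 := ih (step (i, r) true)
      linarith

theorem Kl_nonneg {F : ℕ × ℤ → ℝ} (h : ∀ s, 0 ≤ F s) : ∀ (j : ℕ) (s : ℕ × ℤ), 0 ≤ Kl F j s := by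
  intro j
  induction j with
  | zero =>
    intro ⟨i, r⟩
    rcases Nat.eq_zero_or_pos i with rfl | hi
    · rw [Kl_zero_level]
    · rw [Kl_zero F hi]; exact h _
  | succ j ih =>
    intro ⟨i, r⟩
    rcases Nat.eq_zero_or_pos i with rfl | hi
    · rw [Kl_zero_level]
    · rw [Kl_succ F hi]
      have h1 := ih (step (i, r) false); have h2 := ih (step (i, r) true)
      linarith

/-- linear combinations -/
theorem Kl_lin (F G : ℕ × ℤ → ℝ) (a b : ℝ) : ∀ (j : ℕ) (s : ℕ × ℤ),
    Kl (fun s => a * F s + b * G s) j s = a * Kl F j s + b * Kl G j s := by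
  intro j
  induction j with
  | zero =>
    intro ⟨i, r⟩
    rcases Nat.eq_zero_or_pos i with rfl | hi
    · rw [Kl_zero_level, Kl_zero_level, Kl_zero_level]; ring
    · rw [Kl_zero _ hi, Kl_zero F hi, Kl_zero G hi]
  | succ j ih =>
    intro ⟨i, r⟩
    rcases Nat.eq_zero_or_pos i with rfl | hi
    · rw [Kl_zero_level, Kl_zero_level, Kl_zero_level]; ring
    · rw [Kl_succ _ hi, Kl_succ F hi, Kl_succ G hi, ih, ih]; ring

theorem Kl_one : ∀ (j : ℕ) (s : ℕ × ℤ), Kl (fun _ => 1) j s = al j s := by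
  intro j
  induction j with
  | zero =>
    intro ⟨i, r⟩
    rcases Nat.eq_zero_or_pos i with rfl | hi
    · rw [Kl_zero_level, al_zero_level]
    · rw [Kl_zero _ hi, al_zero hi]
  | succ j ih =>
    intro ⟨i, r⟩
    rcases Nat.eq_zero_or_pos i with rfl | hi
    · rw [Kl_zero_level, al_zero_level]
    · rw [Kl_succ _ hi, al_succ hi, ih, ih]

theorem Kl_al (Λ : ℕ) : ∀ (j : ℕ) (s : ℕ × ℤ), Kl (al Λ) j s = al (j + Λ) s := by
  intro j
  induction j with
  | zero =>
    intro ⟨i, r⟩
    rcases Nat.eq_zero_or_pos i with rfl | hi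
    · rw [Kl_zero_level, al_zero_level]
    · rw [Kl_zero _ hi, zero_add]
  | succ j ih =>
    intro ⟨i, r⟩
    rcases Nat.eq_zero_or_pos i with rfl | hi
    · rw [Kl_zero_level, al_zero_level]
    · rw [Kl_succ _ hi, show j + 1 + Λ = j + Λ + 1 by ring, al_succ hi, ih, ih]

theorem Kl_kb (β : ℕ → ℝ) (l : ℕ) : ∀ (j : ℕ) (s : ℕ × ℤ), Kl (kb β l) j s = kb β (j + l) s := by
  intro j
  induction j with
  | zero =>
    intro ⟨i, r⟩
    rcases Nat.eq_zero_or_pos i with rfl | hi
    · rw [Kl_zero_level, kb_zero_level]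
    · rw [Kl_zero _ hi, zero_add]
  | succ j ih =>
    intro ⟨i, r⟩
    rcases Nat.eq_zero_or_pos i with rfl | hi
    · rw [Kl_zero_level, kb_zero_level]
    · rw [Kl_succ _ hi, show j + 1 + l = j + l + 1 by ring, kb_succ β hi, ih, ih]

theorem Kl_sum (F : ℕ → ℕ × ℤ → ℝ) (j : ℕ) (s : ℕ × ℤ) : ∀ m : ℕ,
    Kl (fun s => ∑ l ∈ range m, F l s) j s = ∑ l ∈ range m, Kl (F l) j s := by
  intro m
  induction m with
  | zero =>
    simp only [range_zero, sum_empty]
    have := Kl_lin (fun _ => 1) (fun _ => 1) 0 0 j s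
    simpa using this
  | succ m ih =>
    have h1 := Kl_lin (fun s => ∑ l ∈ range m, F l s) (F m) 1 1 j s
    simp only [one_mul] at h1
    rw [sum_range_succ, ← ih, ← h1]
    congr 1
    funext s
    rw [sum_range_succ]

/-- concavity of the square root -/
theorem sqrt_avg {x y : ℝ} (hx : 0 ≤ x) (hy : 0 ≤ y) : (√ x + √ y) / 2 ≤ √ ((x + y) / 2) := by
  apply Real.le_sqrt_of_sq_le
  have h1 := Real.sq_sqrt hx
  have h2 := Real.sq_sqrt hy
  nlinarith [sq_nonneg (√ x - √ y)]

theorem Kl_sqrt {F : ℕ × ℤ → ℝ} (h : ∀ s, 0 ≤ F s) : ∀ (j : ℕ) (s : ℕ × ℤ),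
    Kl (fun s => √ (F s)) j s ≤ √ (Kl F j s) := by
  intro j
  induction j with
  | zero =>
    intro ⟨i, r⟩
    rcases Nat.eq_zero_or_pos i with rfl | hi
    · rw [Kl_zero_level, Kl_zero_level]; simp
    · rw [Kl_zero _ hi, Kl_zero _ hi]
  | succ j ih =>
    intro ⟨i, r⟩
    rcases Nat.eq_zero_or_pos i with rfl | hi
    · rw [Kl_zero_level, Kl_zero_level]; simp
    · rw [Kl_succ _ hi, Kl_succ _ hi]
      have h1 := ih (step (i, r) false); have h2 := ih (step (i, r) true)
      have h3 := sqrt_avg (Kl_nonneg h j (step (i, r) false)) (Kl_nonneg h j (step (i, r) true))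
      linarith

/-- killing costs little -/
theorem P_le_Kl {F : ℕ × ℤ → ℝ} {M : ℝ} (hF : ∀ s, F s ≤ M) : ∀ (j : ℕ) (s : ℕ × ℤ),
    (P^[j] F) s ≤ Kl F j s + M * (1 - al j s) := by
  have hP : ∀ (j : ℕ) (s : ℕ × ℤ), (P^[j] F) s ≤ M := by
    intro j
    induction j with
    | zero => intro s; exact hF s
    | succ j ih =>
      intro s
      rw [Function.iterate_succ_apply', P_apply]
      have h1 := ih (step s false); have h2 := ih (step s true)
      linarith
  intro j
  induction j with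
  | zero =>
    intro ⟨i, r⟩
    rcases Nat.eq_zero_or_pos i with rfl | hi
    · rw [Kl_zero_level, al_zero_level]
      have := hF (0, r)
      simp only [Function.iterate_zero, id]
      linarith
    · rw [Kl_zero _ hi, al_zero hi]
      simp only [Function.iterate_zero, id]
      linarith
  | succ j ih =>
    intro ⟨i, r⟩
    rcases Nat.eq_zero_or_pos i with rfl | hi
    · rw [Kl_zero_level, al_zero_level]
      have := hP (j + 1) (0, r)
      linarith
    · rw [Kl_succ _ hi, al_succ hi, Function.iterate_succ_apply', P_apply]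
      have h1 := ih (step (i, r) false); have h2 := ih (step (i, r) true)
      linarith

theorem Gb_le : ∀ (t : ℕ) (s : ℕ × ℤ) (a : ℝ), Gb t s a ≤ |a| + t := by
  intro t
  induction t with
  | zero => intro s a; rw [Gb]; simp
  | succ t ih =>
    intro s a
    rw [Gb]
    have h1 := ih (step s false) (a + Y s); have h2 := ih (step s true) (a + Y s)
    have h3 : |a + Y s| ≤ |a| + 1 := by
      have := abs_add_le a (Y s)
      rwa [Y_abs] at this
    push_cast
    linarith

theorem Gb_sqrt : ∀ (t : ℕ) (s : ℕ × ℤ) (a : ℝ), Gb t s a ≤ √ (Pool.Agent.T6.H47.CL.GG t s a) + t * (1 - al t s) := by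
  intro t
  induction t with
  | zero => intro s a; rw [Gb, Pool.Agent.T6.H47.CL.GG, Real.sqrt_sq_eq_abs]; simp
  | succ t ih =>
    intro ⟨i, r⟩ a
    rcases Nat.eq_zero_or_pos i with rfl | hi
    · rw [GG_zero_level, al_zero_level, Real.sqrt_sq_eq_abs]
      have := Gb_le (t + 1) (0, r) a
      linarith
    · rw [Gb, GG_succ hi, al_succ hi]
      have h1 := ih (step (i, r) false) (a + Y (i, r)); have h2 := ih (step (i, r) true) (a + Y (i, r))
      have h3 := sqrt_avg (GG_nonneg t (step (i, r) false) (a + Y (i, r))) (GG_nonneg t (step (i, r) true) (a + Y (i, r)))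
      have h4 := al_le_one t (step (i, r) false)
      have h5 := al_le_one t (step (i, r) true)
      push_cast
      nlinarith

theorem Gb_vv (t : ℕ) (s : ℕ × ℤ) : Gb t s 0 ≤ √ (vv t s) + t * (1 - al t s) := by
  rw [← GG_zero]; exact Gb_sqrt t s 0

variable {n : ℕ} {β : ℕ → ℝ}

theorem kb_nonneg (hβ0 : ∀ i, 0 ≤ β i) : ∀ (j : ℕ) (s : ℕ × ℤ), 0 ≤ kb β j s := by
  intro j
  induction j with
  | zero =>
    intro ⟨i, r⟩
    rcases Nat.eq_zero_or_pos i with rfl | hi
    · rw [kb_zero_level]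
    · rw [kb_zero β hi]; exact hβ0 _
  | succ j ih =>
    intro ⟨i, r⟩
    rcases Nat.eq_zero_or_pos i with rfl | hi
    · rw [kb_zero_level]
    · rw [kb_succ β hi]
      have h1 := ih (step (i, r) false); have h2 := ih (step (i, r) true)
      linarith

theorem KB_nonneg (hβ0 : ∀ i, 0 ≤ β i) (t : ℕ) (s : ℕ × ℤ) : 0 ≤ ∑ j ∈ range t, kb β j s :=
  sum_nonneg fun j _ => kb_nonneg hβ0 j s

theorem KB_succ (hi : ∀ i, 0 ≤ β i) (t : ℕ) {i : ℕ} (h : 1 ≤ i) (r : ℤ) :
    ((∑ j ∈ range t, kb β j (step (i, r) false)) + ∑ j ∈ range t, kb β j (step (i, r) true)) / 2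
      ≤ ∑ j ∈ range (t + 1), kb β j (i, r) := by
  rw [sum_range_succ', kb_zero β h]
  have e : ∑ k ∈ range t, kb β (k + 1) (i, r) =
      ∑ k ∈ range t, (kb β k (step (i, r) false) + kb β k (step (i, r) true)) / 2 :=
    sum_congr rfl fun k _ => kb_succ β h k r
  rw [e, ← sum_div, sum_add_distrib]
  linarith [hi i]

theorem mm_le' (hβ : ∀ (i : ℕ) (r : ℤ), |(P^[n] Y) (i, r)| ≤ β i) (t : ℕ) (s : ℕ × ℤ) :
    |mm t s| ≤ 2 * n + ∑ j ∈ range t, kb β j s := by
  rw [mm_sum]
  refine (abs_sum_le_sum_abs _ _).trans ?_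
  have h1 : ∑ j ∈ range t, |yy j s| ≤ ∑ j ∈ range (n + t), |yy j s| := by
    apply sum_le_sum_of_subset_of_nonneg
    · intro j hj
      rw [mem_range] at hj ⊢
      omega
    · intro _ _ _
      exact abs_nonneg _
  refine h1.trans ?_
  rw [sum_range_add]
  have h2 : ∑ j ∈ range n, |yy j s| ≤ n := by
    calc _ ≤ ∑ j ∈ range n, (1 : ℝ) := sum_le_sum fun j _ => yy_abs j s
      _ = n := by simp
  have h3 : ∑ j ∈ range t, |yy (n + j) s| ≤ ∑ j ∈ range t, (kb β j s + (al j s - al (j + n) s)) :=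
    sum_le_sum fun j _ => yy_le (fun i _ r => hβ i r) j s
  rw [sum_add_distrib] at h3
  have h5 := al_sum s t n
  linarith

theorem vv_le' (hβ : ∀ (i : ℕ) (r : ℤ), |(P^[n] Y) (i, r)| ≤ β i) (hβ0 : ∀ i, 0 ≤ β i) : ∀ (t : ℕ) (s : ℕ × ℤ),
    vv t s ≤ t * (1 + 4 * n + 2 * ∑ j ∈ range t, kb β j s) := by
  intro t
  induction t with
  | zero => intro s; rw [vv]; simp
  | succ t ih =>
    intro ⟨i, r⟩
    rcases Nat.eq_zero_or_pos i with rfl | h
    · rw [vv_zero_level]
      have := KB_nonneg hβ0 (t + 1) (0, r)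
      positivity
    · rw [vv_succ h]
      have h1 := ih (step (i, r) false)
      have h2 := ih (step (i, r) true)
      have h3 := KB_succ hβ0 t h r
      have h4 := mm_le' hβ t (step (i, r) false)
      have h5 := mm_le' hβ t (step (i, r) true)
      have ht : (0 : ℝ) ≤ t := Nat.cast_nonneg t
      have h6 : Y (i, r) * (mm t (step (i, r) false) + mm t (step (i, r) true)) ≤
          |mm t (step (i, r) false)| + |mm t (step (i, r) true)| := by
        refine (le_abs_self _).trans ?_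
        rw [abs_mul, Y_abs, one_mul]
        exact abs_add_le _ _
      set A := ∑ j ∈ range t, kb β j (step (i, r) false)
      set B := ∑ j ∈ range t, kb β j (step (i, r) true)
      set D := ∑ j ∈ range (t + 1), kb β j (i, r)
      have h8 : (t : ℝ) * (A + B) ≤ t * (2 * D) := mul_le_mul_of_nonneg_left (by linarith) ht
      push_cast
      nlinarith

theorem ba2 : S_BA2 := by
  intro n β hβ0 hβ t Λ hΛ hΛt s
  set N := t / Λ with hN
  set KB := ∑ j ∈ range t, kb β j s with hKB
  have hKB0 : 0 ≤ KB := KB_nonneg hβ0 t s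
  have hNΛ : N * Λ ≤ t := Nat.div_mul_le_self t Λ
  have hNΛr : (N : ℝ) * Λ ≤ t := by exact_mod_cast hNΛ
  have hΛr : (0 : ℝ) < Λ := by exact_mod_cast hΛ
  have htr : (0 : ℝ) < t := by exact_mod_cast (show 0 < t by omega)
  have halt := al_nonneg t s
  have halt1 := al_le_one t s
  set W : ℕ → ℝ := fun q => Kl (vv Λ) (q * Λ) s with hW
  have hW0 : ∀ q, 0 ≤ W q := fun q => Kl_nonneg (fun s => vv_nonneg Λ s) _ _
  -- one block
  have h1 : ∀ q ∈ range N, (P^[q * Λ] (fun s => Gb Λ s 0)) s ≤ √ (W q) + Λ * (1 - al t s) := by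
    intro q hq
    rw [mem_range] at hq
    have a1 := P_le_Kl (F := fun s => Gb Λ s 0) (M := Λ) (fun s => by
      have := Gb_le Λ s 0; rwa [abs_zero, zero_add] at this) (q * Λ) s
    have a2 : Kl (fun s => Gb Λ s 0) (q * Λ) s ≤ Kl (fun s => √ (vv Λ s)) (q * Λ) s
        + Λ * (al (q * Λ) s - al (q * Λ + Λ) s) := by
      have b1 := Kl_mono (F := fun s => Gb Λ s 0)
        (G := fun s => 1 * √ (vv Λ s) + 1 * ((Λ : ℝ) * (fun _ => (1 : ℝ)) s + (-(Λ : ℝ)) * al Λ s)) (fun s => by
          have := Gb_vv Λ s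
          simp only
          linarith) (q * Λ) s
      rw [Kl_lin (fun s => √ (vv Λ s)) (fun s => (Λ : ℝ) * (fun _ => (1 : ℝ)) s + (-(Λ : ℝ)) * al Λ s) 1 1,
        Kl_lin (fun _ => (1 : ℝ)) (al Λ) Λ (-(Λ : ℝ)), Kl_one, Kl_al] at b1
      linarith
    have a3 := Kl_sqrt (fun s => vv_nonneg Λ s) (q * Λ) s
    have a4 : al t s ≤ al (q * Λ + Λ) s := by
      have h5 : q * Λ + Λ ≤ t := by
        calc q * Λ + Λ = (q + 1) * Λ := by ring
          _ ≤ N * Λ := Nat.mul_le_mul_right _ hq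
          _ ≤ t := hNΛ
      exact antitone_nat_of_succ_le (f := fun t => al t s) (fun t => al_anti t s) h5
    have a5 : (Λ : ℝ) * (1 - al (q * Λ + Λ) s) ≤ Λ * (1 - al t s) :=
      mul_le_mul_of_nonneg_left (by linarith) hΛr.le
    linarith
  -- sum of the second moments
  have h2 : ∀ q ∈ range N, W q ≤ Λ * (1 + 4 * n) + 2 * Λ * ∑ j ∈ range Λ, kb β (q * Λ + j) s := by
    intro q _
    have b1 := Kl_mono (F := vv Λ)
      (G := fun s => ((Λ : ℝ) * (1 + 4 * n)) * (fun _ => (1 : ℝ)) s + (2 * Λ) * ∑ j ∈ range Λ, kb β j s) (fun s => by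
        have := vv_le' hβ hβ0 Λ s
        simp only
        linarith) (q * Λ) s
    rw [Kl_lin (fun _ => (1 : ℝ)) (fun s => ∑ j ∈ range Λ, kb β j s), Kl_one, Kl_sum (fun j => kb β j)] at b1
    have b2 : ∑ l ∈ range Λ, Kl (kb β l) (q * Λ) s = ∑ j ∈ range Λ, kb β (q * Λ + j) s :=
      sum_congr rfl fun l _ => Kl_kb β l _ s
    rw [b2] at b1
    have b3 := al_le_one (q * Λ) s
    have b4 : (Λ : ℝ) * (1 + 4 * n) * al (q * Λ) s ≤ Λ * (1 + 4 * n) * 1 :=
      mul_le_mul_of_nonneg_left b3 (by positivity)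
    rw [hW]
    simp only
    linarith
  have hsum : ∀ M : ℕ, ∑ q ∈ range M, ∑ j ∈ range Λ, kb β (q * Λ + j) s = ∑ j ∈ range (M * Λ), kb β j s := by
    intro M
    induction M with
    | zero => simp
    | succ M ih => rw [sum_range_succ, ih, show (M + 1) * Λ = M * Λ + Λ by ring, sum_range_add]
  have h3 : ∑ q ∈ range N, W q ≤ N * (Λ * (1 + 4 * n)) + 2 * Λ * KB := by
    refine (sum_le_sum h2).trans ?_
    rw [sum_add_distrib, sum_const, card_range, nsmul_eq_mul, ← mul_sum, hsum]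
    have : ∑ j ∈ range (N * Λ), kb β j s ≤ KB := by
      apply sum_le_sum_of_subset_of_nonneg
      · intro j hj; rw [mem_range] at hj ⊢; omega
      · intro j _ _; exact kb_nonneg hβ0 j s
    have := mul_le_mul_of_nonneg_left this (show (0 : ℝ) ≤ 2 * Λ by positivity)
    linarith
  -- Cauchy-Schwarz
  have h4 : ∑ q ∈ range N, √ (W q) ≤ t * √ ((1 + 4 * n) / Λ + 2 * KB / t) := by
    have c1 : (∑ q ∈ range N, √ (W q)) ^ 2 ≤ N * ∑ q ∈ range N, W q := by
      have e1 := sq_sum_le_card_mul_sum_sq (s := range N) (f := fun q => √ (W q))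
      rw [card_range] at e1
      refine e1.trans (le_of_eq ?_)
      congr 1
      exact sum_congr rfl fun q _ => Real.sq_sqrt (hW0 q)
    have c2 : (N : ℝ) * ∑ q ∈ range N, W q ≤ t ^ 2 * ((1 + 4 * n) / Λ + 2 * KB / t) := by
      have hN0 : (0 : ℝ) ≤ N := Nat.cast_nonneg N
      have d1 := mul_le_mul_of_nonneg_left h3 hN0
      have d2 : (N : ℝ) * (N * (Λ * (1 + 4 * n)) + 2 * Λ * KB)
          = (N * Λ) * (N * Λ) * ((1 + 4 * n) / Λ) + 2 * (N * Λ) * KB := by field_simp
      have d3 : (t : ℝ) ^ 2 * ((1 + 4 * n) / Λ + 2 * KB / t) = t * t * ((1 + 4 * n) / Λ) + 2 * t * KB := by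
        field_simp
      have d4 : ((N : ℝ) * Λ) * (N * Λ) ≤ t * t := mul_le_mul hNΛr hNΛr (by positivity) htr.le
      have d5 := mul_le_mul_of_nonneg_right d4 (show (0 : ℝ) ≤ (1 + 4 * n) / Λ by positivity)
      have d6 : 2 * ((N : ℝ) * Λ) * KB ≤ 2 * t * KB := mul_le_mul_of_nonneg_right (by linarith) hKB0
      rw [d3]
      rw [d2] at d1
      linarith
    have c3 : ∑ q ∈ range N, √ (W q) ≤ √ (t ^ 2 * ((1 + 4 * n) / Λ + 2 * KB / t)) :=
      Real.le_sqrt_of_sq_le (c1.trans c2)
    rwa [Real.sqrt_mul (by positivity), Real.sqrt_sq htr.le] at c3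
  have h5 := sum_le_sum h1
  rw [sum_add_distrib, sum_const, card_range, nsmul_eq_mul] at h5
  have h6 : (N : ℝ) * (Λ * (1 - al t s)) ≤ t * (1 - al t s) := by
    rw [← mul_assoc]
    exact mul_le_mul_of_nonneg_right hNΛr (by linarith)
  rw [mul_add]
  linarith

end Pool.Agent.KS6_24.ST
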