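import Pool.Agent.KS6_24.ST.BA1
import Pool.Agent.KS6_24.ST.BA2

/-!
PROJECT ST, job J2-D: final parameters of the balance of the pair.
-/

set_option autoImplicit false

namespace Pool.Agent.KS6_24.ST

open Pool.Agent.H499R2.CO Pool.Agent.Y965.SI Finset Pool.Agent.KS6_24.LN Pool.Agent.KS6_24.LN.TW

open Pool.Agent.T6.H47.CL (Y al kb vv mm yy)

namespace BalD

open Filter

/-- the powers of two used -/
theorem two_pow_le {t : ℕ} (ht : 1 ≤ t) : ((2 : ℝ) ^ (Nat.log 2 t / 8)) ≤ (t : ℝ) ^ (1 / 8 : ℝ) := by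
  have h1 : 2 ^ (Nat.log 2 t) ≤ t := Nat.pow_log_le_self 2 (by omega)
  have h2 : 2 ^ (Nat.log 2 t / 8 * 8) ≤ t := (Nat.pow_le_pow_right (by norm_num) (Nat.div_mul_le_self _ _)).trans h1
  have h3 : ((2 : ℝ) ^ (Nat.log 2 t / 8)) ^ (8 : ℕ) ≤ t := by
    rw [← pow_mul]; exact_mod_cast h2
  have h4 : (((2 : ℝ) ^ (Nat.log 2 t / 8)) ^ (8 : ℕ)) ^ (1 / 8 : ℝ) ≤ (t : ℝ) ^ (1 / 8 : ℝ) :=
    Real.rpow_le_rpow (by positivity) h3 (by norm_num)
  rwa [← Real.rpow_natCast _ 8, ← Real.rpow_mul (by positivity), show ((8 : ℕ) : ℝ) * (1 / 8 : ℝ) = 1 by norm_num,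
    Real.rpow_one] at h4

/-- the level of the start -/
theorem log_start {t i : ℕ} (ht : 2 ≤ t) (hi : i ≤ t ^ 10) : (Nat.log 2 (i + 2) : ℝ) ≤ 16 * Real.log t := by
  have h1 : i + 2 ≤ t ^ 11 := by
    have : 2 ≤ t ^ 10 := le_trans (by norm_num) (Nat.pow_le_pow_left ht 10)
    calc i + 2 ≤ t ^ 10 * 2 := by omega
      _ ≤ t ^ 10 * t := Nat.mul_le_mul_left _ ht
      _ = t ^ 11 := by ring
  have h2 : 2 ^ (Nat.log 2 (i + 2)) ≤ t ^ 11 := (Nat.pow_log_le_self 2 (by omega)).trans h1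
  have h3 : ((2 : ℝ) ^ (Nat.log 2 (i + 2))) ≤ (t : ℝ) ^ 11 := by exact_mod_cast h2
  have h4 := Real.log_le_log (by positivity) h3
  rw [Real.log_pow, Real.log_pow] at h4
  have h5 : (0.6931471803 : ℝ) < Real.log 2 := Real.log_two_gt_d9
  have h6 : 0 ≤ (Nat.log 2 (i + 2) : ℝ) := Nat.cast_nonneg _
  push_cast at h4
  have h7 : (Nat.log 2 (i + 2) : ℝ) * (11 / 16) ≤ (Nat.log 2 (i + 2) : ℝ) * Real.log 2 :=
    mul_le_mul_of_nonneg_left (by linarith) h6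
  linarith

/-- size of the step number -/
theorem n_le {t : ℕ} (ht : 1 ≤ t) : 4 * ((Nat.log 2 t / 8 : ℕ) : ℝ) ≤ Real.log t := by
  have h1 : 2 ^ (Nat.log 2 t) ≤ t := Nat.pow_log_le_self 2 (by omega)
  have h2 : ((2 : ℝ) ^ (Nat.log 2 t)) ≤ t := by exact_mod_cast h1
  have h3 := Real.log_le_log (by positivity) h2
  rw [Real.log_pow] at h3
  have h4 : ((Nat.log 2 t / 8 : ℕ) : ℝ) ≤ (Nat.log 2 t : ℝ) / 8 := Nat.cast_div_le
  have h5 : (0.6931471803 : ℝ) < Real.log 2 := Real.log_two_gt_d9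
  have h6 : 0 ≤ (Nat.log 2 t : ℝ) := Nat.cast_nonneg _
  nlinarith

theorem le_n {t : ℕ} (ht : 1 ≤ t) (hL : 16 ≤ Real.log t) : Real.log t / 16 ≤ ((Nat.log 2 t / 8 : ℕ) : ℝ) := by
  have h1 : t < 2 ^ (Nat.log 2 t + 1) := Nat.lt_pow_succ_log_self (by norm_num) t
  have h2 : (t : ℝ) ≤ (2 : ℝ) ^ (Nat.log 2 t + 1) := by exact_mod_cast h1.le
  have h3 := Real.log_le_log (by positivity) h2
  rw [Real.log_pow] at h3
  have h4 : Real.log 2 < 0.6931471808 := Real.log_two_lt_d9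
  push_cast at h3
  have h5 : Nat.log 2 t + 1 ≤ 8 * (Nat.log 2 t / 8) + 8 := by omega
  have h5' : ((Nat.log 2 t : ℕ) : ℝ) + 1 ≤ 8 * ((Nat.log 2 t / 8 : ℕ) : ℝ) + 8 := by exact_mod_cast h5
  have h6 : 0 ≤ (Nat.log 2 t : ℝ) := Nat.cast_nonneg _
  have h7 : 0 ≤ ((Nat.log 2 t / 8 : ℕ) : ℝ) := Nat.cast_nonneg _
  have h8 : ((Nat.log 2 t : ℝ) + 1) * Real.log 2 ≤ (8 * ((Nat.log 2 t / 8 : ℕ) : ℝ) + 8) * 0.6931471808 :=
    mul_le_mul h5' h4.le (Real.log_nonneg (by norm_num)) (by positivity)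
  linarith

/-- the potential in terms of `t` -/
theorem ev1 : ∀ᶠ t : ℕ in atTop, (256 * Real.log t ^ 2 : ℝ) ≤ (t : ℝ) ^ (1 / 8 : ℝ) := by
  have h := (isLittleO_log_rpow_rpow_atTop (2 : ℝ) (by norm_num : (0 : ℝ) < 1 / 8)).bound
    (by norm_num : (0 : ℝ) < 1 / 256)
  have h' := tendsto_natCast_atTop_atTop.eventually h
  filter_upwards [h', eventually_ge_atTop 1] with t ht h1
  rw [Real.norm_of_nonneg (by positivity), Real.norm_of_nonneg (by positivity)] at ht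
  rw [show (2 : ℝ) = ((2 : ℕ) : ℝ) by norm_num, Real.rpow_natCast] at ht
  linarith

theorem ev2 (A : ℝ) (C : ℕ) : ∀ᶠ t : ℕ in atTop, (A * Real.log t ^ C : ℝ) ≤ (t : ℝ) ^ (3 / 4 : ℝ) := by
  have h := (isLittleO_log_rpow_rpow_atTop (C : ℝ) (by norm_num : (0 : ℝ) < 3 / 4)).bound
    (c := 1 / (|A| + 1)) (by positivity)
  have h' := tendsto_natCast_atTop_atTop.eventually h
  filter_upwards [h', eventually_ge_atTop 1] with t ht h1
  have hl : 0 ≤ Real.log (t : ℝ) := Real.log_natCast_nonneg t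
  rw [Real.norm_of_nonneg (by positivity), Real.norm_of_nonneg (by positivity)] at ht
  rw [Real.rpow_natCast] at ht
  have hA : 0 < |A| + 1 := by positivity
  rw [one_div, inv_mul_eq_div, le_div_iff₀ hA] at ht
  have h3 : A * Real.log t ^ C ≤ (|A| + 1) * Real.log t ^ C := by
    apply mul_le_mul_of_nonneg_right _ (by positivity)
    linarith [le_abs_self A]
  linarith

theorem ev3 (A : ℝ) : ∀ᶠ t : ℕ in atTop, A ≤ Real.log t :=
  (Real.tendsto_log_atTop.comp tendsto_natCast_atTop_atTop).eventually (eventually_ge_atTop A)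

end BalD

open BalD Filter in
theorem bal (d : ℤ) (hd : d = 1 ∨ d = -1) (h : S_B0) (hp : S_POT) : S_BAL d := by
  intro C
  obtain ⟨n0, h0⟩ := h (4 * (C + 1))
  obtain ⟨C0, hC0, hpot⟩ := hp
  have hev : ∀ᶠ t : ℕ in atTop, (256 * Real.log t ^ 2 : ℝ) ≤ (t : ℝ) ^ (1 / 8 : ℝ) ∧
      (16 * C0 * Real.log t ^ (2 * C) : ℝ) ≤ (t : ℝ) ^ (3 / 4 : ℝ) ∧
      16 ≤ Real.log t ∧ 16 * (n0 + 1 : ℝ) ≤ Real.log t ∧ 4 * C0 * 16 ^ (2 * C + 2) ≤ Real.log t ∧ 2 ≤ t := by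
    filter_upwards [ev1, ev2 (16 * C0) (2 * C), ev3 16, ev3 (16 * (n0 + 1 : ℝ)), ev3 (4 * C0 * 16 ^ (2 * C + 2)),
      eventually_ge_atTop 2] with t h1 h2 h3 h4 h5 h6
    exact ⟨h1, h2, h3, h4, h5, h6⟩
  obtain ⟨t0, ht0⟩ := eventually_atTop.1 hev
  refine ⟨2, max t0 2, by norm_num, le_max_right _ _, ?_⟩
  intro t Λ i ht hΛ hΛt hi c
  obtain ⟨g1, g2, g3, g4, g5, g6⟩ := ht0 t ((le_max_left _ _).trans ht)
  have ht1 : 1 ≤ t := by omega
  have htr : (0 : ℝ) < t := by exact_mod_cast ht1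
  have hL : 0 < Real.log t := by linarith
  set n := Nat.log 2 t / 8 with hn
  have hn1 : Real.log t / 16 ≤ (n : ℝ) := le_n ht1 g3
  have hn2 : 4 * (n : ℝ) ≤ Real.log t := n_le ht1
  have hnn0 : n0 + 1 ≤ n := by
    have : ((n0 + 1 : ℕ) : ℝ) ≤ n := by push_cast; linarith
    exact_mod_cast this
  obtain ⟨β, hβ0, hβ1, hβ, hβs⟩ := h0 n (by omega)
  have hnr : (1 : ℝ) ≤ n := by exact_mod_cast (by omega : 1 ≤ n)
  have hnr0 : (0 : ℝ) < n := by linarith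
  -- the chain
  have e1 : ∑ q ∈ range (t / Λ), pm t (fun v => |∑ j ∈ range Λ, sg ((Tz d)^[q * Λ + j] v) *
      sg ((Tz d)^[q * Λ + j] (3 ^ i * v + c))|)
      = ∑ q ∈ range (t / Λ), (P^[q * Λ] (fun s => Gb Λ s 0)) (i, d * c) := by
    apply Finset.sum_congr rfl
    intro q hq
    rw [Finset.mem_range] at hq
    apply ba1 d hd
    have : (q + 1) * Λ ≤ t / Λ * Λ := Nat.mul_le_mul_right _ hq
    have h2 := Nat.div_mul_le_self t Λ
    linarith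
  rw [e1]
  refine (ba2 n β hβ0 hβ t Λ hΛ hΛt (i, d * c)).trans ?_
  have e2 := bb t i ht1 (d * c)
  -- the potential
  have e3 := hpot n β (1 / (n : ℝ) ^ (4 * (C + 1))) (by positivity)
    (by rw [div_le_one (by positivity)]; exact one_le_pow₀ hnr) hβ0 hβ1
    (fun a k => by rw [mul_one_div]; exact hβs a k) i t (d * c)
  set KB := ∑ j ∈ range t, kb β j (i, d * c) with hKB
  -- `√ b`
  have hsb : √ (1 / (n : ℝ) ^ (4 * (C + 1))) = 1 / (n : ℝ) ^ (2 * C + 2) := by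
    rw [Real.sqrt_eq_iff_mul_self_eq (by positivity) (by positivity)]
    rw [div_mul_div_comm, one_mul, ← pow_add]
    congr 2; ring
  rw [hsb] at e3
  have hb1 : 1 / (n : ℝ) ^ (2 * C + 2) ≤ 16 ^ (2 * C + 2) / Real.log t ^ (2 * C + 2) := by
    rw [div_le_div_iff₀ (by positivity) (by positivity), one_mul, ← mul_pow]
    apply pow_le_pow_left₀ hL.le
    linarith
  -- the additive term
  have h16 := log_start g6 hi
  have h17 : (Nat.log 2 (i + 2) : ℝ) ^ 2 ≤ 256 * Real.log t ^ 2 := by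
    calc (Nat.log 2 (i + 2) : ℝ) ^ 2 ≤ (16 * Real.log t) ^ 2 := pow_le_pow_left₀ (Nat.cast_nonneg _) h16 2
      _ = _ := by ring
  have h18 : ((2 : ℝ) ^ n + (Nat.log 2 (i + 2) : ℝ) ^ 2) ≤ 2 * (t : ℝ) ^ (1 / 8 : ℝ) := by
    have := two_pow_le ht1
    rw [← hn] at this
    linarith
  have h19 : ((2 : ℝ) ^ n + (Nat.log 2 (i + 2) : ℝ) ^ 2) ^ 2 ≤ 4 * (t : ℝ) ^ (1 / 4 : ℝ) := by
    calc ((2 : ℝ) ^ n + (Nat.log 2 (i + 2) : ℝ) ^ 2) ^ 2 ≤ (2 * (t : ℝ) ^ (1 / 8 : ℝ)) ^ 2 :=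
          pow_le_pow_left₀ (by positivity) h18 2
      _ = 4 * ((t : ℝ) ^ (1 / 8 : ℝ) * (t : ℝ) ^ (1 / 8 : ℝ)) := by ring
      _ = 4 * (t : ℝ) ^ (1 / 4 : ℝ) := by
          rw [← Real.rpow_add htr]; norm_num
  have h20 : (t : ℝ) ^ (1 / 4 : ℝ) = t / (t : ℝ) ^ (3 / 4 : ℝ) := by
    rw [eq_div_iff (by positivity), ← Real.rpow_add htr]; norm_num
  have h21 : 1 / (t : ℝ) ^ (3 / 4 : ℝ) ≤ 1 / (16 * C0 * Real.log t ^ (2 * C)) :=
    one_div_le_one_div_of_le (by positivity) g2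
  have h22 : 2 * KB / t ≤ 1 / Real.log t ^ (2 * C) := by
    have a1 : KB ≤ C0 * (16 ^ (2 * C + 2) / Real.log t ^ (2 * C + 2) * t + 4 * (t / (t : ℝ) ^ (3 / 4 : ℝ))) := by
      refine e3.trans (mul_le_mul_of_nonneg_left ?_ hC0.le)
      rw [← h20]
      have := mul_le_mul_of_nonneg_right hb1 htr.le
      linarith
    have a2 : 2 * KB / t ≤ 2 * C0 * (16 ^ (2 * C + 2) / Real.log t ^ (2 * C + 2)) + 8 * C0 * (1 / (t : ℝ) ^ (3 / 4 : ℝ)) := by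
      rw [div_le_iff₀ htr]
      calc 2 * KB ≤ 2 * (C0 * (16 ^ (2 * C + 2) / Real.log t ^ (2 * C + 2) * t + 4 * (t / (t : ℝ) ^ (3 / 4 : ℝ)))) := by linarith
        _ = _ := by ring
    have a3 : 8 * C0 * (1 / (t : ℝ) ^ (3 / 4 : ℝ)) ≤ 1 / 2 * (1 / Real.log t ^ (2 * C)) := by
      calc 8 * C0 * (1 / (t : ℝ) ^ (3 / 4 : ℝ)) ≤ 8 * C0 * (1 / (16 * C0 * Real.log t ^ (2 * C))) :=
            mul_le_mul_of_nonneg_left h21 (by positivity)
        _ = _ := by field_simp; norm_num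
    have a4 : 2 * C0 * (16 ^ (2 * C + 2) / Real.log t ^ (2 * C + 2)) ≤ 1 / 2 * (1 / Real.log t ^ (2 * C)) := by
      have b1 : Real.log t ^ (2 * C + 2) = Real.log t ^ (2 * C) * Real.log t ^ 2 := by ring
      have b2 : 4 * C0 * 16 ^ (2 * C + 2) ≤ Real.log t ^ 2 := by nlinarith
      rw [b1]
      have b3 : 2 * C0 * (16 ^ (2 * C + 2) / (Real.log t ^ (2 * C) * Real.log t ^ 2))
          = (4 * C0 * 16 ^ (2 * C + 2)) / Real.log t ^ 2 * (1 / 2 * (1 / Real.log t ^ (2 * C))) := by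
        field_simp; ring
      rw [b3]
      have b4 : (4 * C0 * 16 ^ (2 * C + 2)) / Real.log t ^ 2 ≤ 1 := (div_le_one (by positivity)).2 b2
      calc _ ≤ 1 * (1 / 2 * (1 / Real.log t ^ (2 * C))) := mul_le_mul_of_nonneg_right b4 (by positivity)
        _ = _ := one_mul _
    linarith
  have hΛr : (0 : ℝ) < Λ := by exact_mod_cast hΛ
  have h23 : √ ((1 + 4 * n) / Λ + 2 * KB / t) ≤ 2 * √ (Real.log t / Λ) + 1 / Real.log t ^ C := by
    have c1 : (1 + 4 * (n : ℝ)) / Λ ≤ 2 * √ (Real.log t / Λ) * (2 * √ (Real.log t / Λ)) := by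
      have : 2 * √ (Real.log t / Λ) * (2 * √ (Real.log t / Λ)) = 4 * (√ (Real.log t / Λ) * √ (Real.log t / Λ)) := by ring
      rw [this, Real.mul_self_sqrt (by positivity), ← mul_div_assoc]
      apply div_le_div_of_nonneg_right _ hΛr.le
      linarith
    have c2 : 1 / Real.log t ^ (2 * C) = 1 / Real.log t ^ C * (1 / Real.log t ^ C) := by
      rw [div_mul_div_comm, one_mul, ← pow_add]; congr 2; ring
    apply Real.sqrt_le_iff.2
    refine ⟨by positivity, ?_⟩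
    have c3 : 0 ≤ 2 * √ (Real.log t / Λ) * (1 / Real.log t ^ C) := by positivity
    nlinarith
  apply mul_le_mul_of_nonneg_left _ htr.le
  have h24 := (Real.exp_pos (-(i : ℝ) ^ 2 / (2 * t))).le
  linarith

end Pool.Agent.KS6_24.ST
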