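import Mathlib
import Pool.Agent.KS6_24.ST.Defs
import Pool.Agent.KS6_24.LN.CI

/-! J9a: coalescence of `3 ^ j n` and `3 ^ j n + r`. -/

set_option autoImplicit false

namespace Pool.Agent.KS6_24.ST

open Pool.Agent.H499R2.CO Pool.Agent.Y965.SI Finset MeasureTheory Pool.Agent.KS6_24.LN

open Classical in
/-- the survivors among the multiples of `3 ^ j` -/
theorem surv_block3 {d : ℤ} (hd : d % 2 = 1) (R j : ℕ) (s : ℕ × ℤ) (a : ℤ) :
    ∑ i ∈ range (2 ^ R), (if surv d R s (3 ^ j * (a + (i : ℕ))) then (1 : ℝ) else 0)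
      = 2 ^ R * q step (0, 0) R s := by
  rw [← count_surv hd]
  have h3 : ((3 : ℤ) ^ j) % 2 = 1 := by
    have : Odd ((3 : ℤ) ^ j) := Odd.pow (by decide)
    obtain ⟨k, hk⟩ := this
    omega
  have h1 := sum_affine R (fun x : ℤ => if surv d R s x then (1 : ℝ) else 0)
    (by intro x m; simp only [surv_periodic hd]) (a := 3 ^ j) h3 (3 ^ j * a)
  rw [← h1]
  apply sum_congr rfl
  intro i _
  rw [mul_add, add_comm]

theorem cj (d : ℤ) (hd : d = 1 ∨ d = -1) : S_CJ d := by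
  classical
  have hd2 : d % 2 = 1 := by rcases hd with rfl | rfl <;> decide
  have hdd : d * d = 1 := by rcases hd with rfl | rfl <;> norm_num
  obtain ⟨C0, hC0, hq⟩ := q_rate
  refine ⟨6 * C0, by positivity, ?_⟩
  intro f hf R hR V hV j
  have hVR : ((2 ^ R : ℕ) : ℝ) ≤ V := by push_cast; exact hV
  have hρ := rho_nonneg R
  set Q : ℝ := C0 * √ (1 + ((0 : ℕ) : ℝ) ^ 2 + (j : ℕ)) * rho R with hQ
  have key : av V (fun y => |f (3 ^ j * ⌊y⌋) - f ⌊3 ^ j * y⌋|) ≤ 3 * (2 * Q) := by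
    apply av_le_block (B := 2) (P := 2 ^ R) _ _ _ Nat.one_le_two_pow hVR
    · intro θ hθ0 hθ1 a
      set s : ℤ := ⌊3 ^ j * θ⌋ with hs
      have hsu : |((d * s : ℤ) : ℝ)| ≤ 4 ^ j := by
        have e1 : |((d * s : ℤ) : ℝ)| = |(s : ℝ)| := by
          push_cast; rw [abs_mul]
          rcases hd with rfl | rfl <;> simp
        rw [e1]
        have h1 : (s : ℝ) ≤ 3 ^ j * θ := Int.floor_le _
        have h2 : 0 ≤ s := Int.floor_nonneg.2 (by positivity)
        have h2' : (0 : ℝ) ≤ s := by exact_mod_cast h2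
        have h3 : (3 : ℝ) ^ j ≤ 4 ^ j := pow_le_pow_left₀ (by norm_num) (by norm_num) j
        have h8 : (3 : ℝ) ^ j * θ ≤ 3 ^ j := by
          have : (3 : ℝ) ^ j * θ ≤ 3 ^ j * 1 := mul_le_mul_of_nonneg_left hθ1.le (by positivity)
          linarith
        rw [abs_of_nonneg h2']
        linarith
      have hqs := hq R hR 0 j (d * s) hsu
      have hterm : ∀ i : ℕ, |f (3 ^ j * ⌊((a + i : ℕ) : ℝ) + θ⌋) - f ⌊3 ^ j * (((a + i : ℕ) : ℝ) + θ)⌋|
          ≤ 2 * (if surv d R (0, d * s) (3 ^ j * ((a : ℤ) + (i : ℕ))) then (1 : ℝ) else 0) := by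
        intro i
        have e1 : ⌊((a + i : ℕ) : ℝ) + θ⌋ = ((a : ℤ) + (i : ℕ)) := by
          rw [Int.floor_eq_iff]; push_cast; constructor <;> linarith
        have e2 : ⌊3 ^ j * (((a + i : ℕ) : ℝ) + θ)⌋
            = 3 ^ 0 * (3 ^ j * ((a : ℤ) + (i : ℕ))) + d * (d * s) := by
          rw [← mul_assoc d d, hdd, one_mul, pow_zero, one_mul]
          have : 3 ^ j * (((a + i : ℕ) : ℝ) + θ)
              = 3 ^ j * θ + ((3 ^ j * ((a : ℤ) + (i : ℕ)) : ℤ) : ℝ) := by push_cast; ring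
          rw [this, Int.floor_add_intCast, ← hs]; ring
        rw [e1, e2]
        split_ifs with hsv
        · have h1 := hf.1 (3 ^ j * ((a : ℤ) + (i : ℕ)))
          have h2 := hf.1 (3 ^ 0 * (3 ^ j * ((a : ℤ) + (i : ℕ))) + d * (d * s))
          rw [abs_le] at h1 h2 ⊢
          constructor <;> linarith [h1.1, h1.2, h2.1, h2.2]
        · rw [hf.coal hd2 hsv, sub_self, abs_zero]; norm_num
      calc ∑ i ∈ range (2 ^ R), |f (3 ^ j * ⌊((a + i : ℕ) : ℝ) + θ⌋) - f ⌊3 ^ j * (((a + i : ℕ) : ℝ) + θ)⌋|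
          ≤ ∑ i ∈ range (2 ^ R), 2 * (if surv d R (0, d * s) (3 ^ j * ((a : ℤ) + (i : ℕ))) then (1 : ℝ) else 0) :=
            sum_le_sum fun i _ => hterm i
        _ = 2 * (2 ^ R * q step (0, 0) R (0, d * s)) := by rw [← mul_sum, surv_block3 hd2]
        _ ≤ 2 * (2 ^ R * Q) := by
            apply mul_le_mul_of_nonneg_left _ (by norm_num)
            apply mul_le_mul_of_nonneg_left _ (by positivity)
            exact hqs
        _ = ((2 ^ R : ℕ) : ℝ) * (2 * Q) := by push_cast; ring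
    · exact (((measurable_of_countable fun n : ℤ => f (3 ^ j * n)).comp Int.measurable_floor).sub
        (meas_floor f (fun y => 3 ^ j * y) (by fun_prop))).abs
    · intro y; exact abs_nonneg _
    · intro y
      have h1 := hf.1 (3 ^ j * ⌊y⌋)
      have h2 := hf.1 ⌊3 ^ j * y⌋
      rw [abs_le] at h1 h2 ⊢
      constructor <;> linarith [h1.1, h1.2, h2.1, h2.2]
  refine key.trans (le_of_eq ?_)
  have e : (1 + ((0 : ℕ) : ℝ) ^ 2 + (j : ℕ)) = 1 + (j : ℝ) := by push_cast; ring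
  rw [hQ, e]
  ring

end Pool.Agent.KS6_24.ST
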