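import Mathlib
import Pool.Agent.KS6_24.ST.Defs
import Pool.Agent.KS6_24.LN.AV

/-! J8: the sharp energy estimate from the correlations. -/

set_option autoImplicit false

namespace Pool.Agent.KS6_24.ST

open Pool.Agent.H499R2.CO Pool.Agent.Y965.SI Finset Filter Topology MeasureTheory Pool.Agent.KS6_24.LN

/-- the energy -/
noncomputable def EV (f : ℤ → ℝ) (K : ℕ) (V : ℝ) : ℝ :=
  av V (fun y => ((∑ j ∈ range K, f ⌊3 ^ j * y⌋) / K) ^ 2)

theorem fj_bd {f : ℤ → ℝ} (hf : ∀ x, |f x| ≤ 1) (j : ℕ) : Bd 1 (fun y => f ⌊3 ^ j * y⌋) :=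
  Bd.flc hf (by fun_prop)

theorem sj_bd {f : ℤ → ℝ} (hf : ∀ x, |f x| ≤ 1) (K : ℕ) :
    Bd 1 (fun y => (∑ j ∈ range K, f ⌊3 ^ j * y⌋) / K) := by
  rcases Nat.eq_zero_or_pos K with rfl | hK
  · simp only [range_zero, sum_empty, zero_div]
    exact ⟨measurable_const, fun _ => by norm_num⟩
  have hK' : (0 : ℝ) < K := by exact_mod_cast hK
  have h4 := (Bd.sum fun j (_ : j ∈ range K) => fj_bd hf j).cmul (1 / K : ℝ)
  rw [abs_of_nonneg (by positivity : (0 : ℝ) ≤ 1 / K)] at h4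
  have e : (fun y : ℝ => (∑ j ∈ range K, f ⌊3 ^ j * y⌋) / (K : ℝ))
      = fun y : ℝ => (1 / K : ℝ) * ∑ j ∈ range K, f ⌊3 ^ j * y⌋ := by funext y; ring
  rw [e]
  refine h4.mono (le_of_eq ?_)
  rw [sum_const, card_range, nsmul_eq_mul]
  field_simp

theorem sj2_bd {f : ℤ → ℝ} (hf : ∀ x, |f x| ≤ 1) (K : ℕ) :
    Bd 1 (fun y => ((∑ j ∈ range K, f ⌊3 ^ j * y⌋) / K) ^ 2) := by
  have := (sj_bd hf K).mul (sj_bd hf K)
  simpa [pow_two] using this

/-- two terms -/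
theorem av_two {f : ℤ → ℝ} {V : ℝ} (hV : 0 < V) (j i : ℕ) :
    av V (fun y => f ⌊3 ^ j * y⌋ * f ⌊3 ^ (j + i) * y⌋) = cor f (3 ^ j * V) i := by
  unfold cor
  rw [← av_scale hV (by positivity)]
  congr 1
  funext y
  rw [zpow_natCast, pow_add, mul_comm ((3 : ℝ) ^ j) (3 ^ i), mul_assoc]

theorem abs_av_two {f : ℤ → ℝ} (hf : ∀ x, |f x| ≤ 1) {V : ℝ} (hV : 0 < V) (j j' : ℕ) :
    |av V (fun y => f ⌊3 ^ j * y⌋ * f ⌊3 ^ j' * y⌋)| ≤ 1 := by
  have := av_abs hV ((fj_bd hf j).mul (fj_bd hf j'))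
  simpa using this

/-- expansion of the square -/
theorem EV_expand {f : ℤ → ℝ} (hf : ∀ x, |f x| ≤ 1) {V : ℝ} (K : ℕ) :
    EV f K V = (∑ j ∈ range K, ∑ j' ∈ range K, av V (fun y => f ⌊3 ^ j * y⌋ * f ⌊3 ^ j' * y⌋)) / K ^ 2 := by
  unfold EV
  have e : (fun y : ℝ => ((∑ j ∈ range K, f ⌊3 ^ j * y⌋) / K) ^ 2)
      = fun y => (1 / (K : ℝ) ^ 2) * ∑ j ∈ range K, ∑ j' ∈ range K, f ⌊3 ^ j * y⌋ * f ⌊3 ^ j' * y⌋ := by
    funext y
    rw [div_pow, sq, sum_mul_sum]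
    ring
  rw [e, av_cmul]
  have hb : ∀ j ∈ range K, Bd (∑ j' ∈ range K, (1 * 1 : ℝ))
      (fun y => ∑ j' ∈ range K, f ⌊3 ^ j * y⌋ * f ⌊3 ^ j' * y⌋) := fun j _ =>
    Bd.sum fun j' _ => (fj_bd hf j).mul (fj_bd hf j')
  rw [av_sum V hb]
  have h2 : ∀ j ∈ range K, av V (fun y => ∑ j' ∈ range K, f ⌊3 ^ j * y⌋ * f ⌊3 ^ j' * y⌋)
      = ∑ j' ∈ range K, av V (fun y => f ⌊3 ^ j * y⌋ * f ⌊3 ^ j' * y⌋) := fun j _ =>
    av_sum V fun j' _ => (fj_bd hf j).mul (fj_bd hf j')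
  rw [sum_congr rfl h2]
  ring

/-- the energy from bounds for the correlations at distance `≥ M` -/
theorem EV_le {f : ℤ → ℝ} (hf : ∀ x, |f x| ≤ 1) {V : ℝ} (hV : 0 < V) {K M : ℕ} (hK : 1 ≤ K) {η : ℝ} (hη : 0 ≤ η)
    (h : ∀ j i : ℕ, j < K → j + i < K → M ≤ i → |cor f (3 ^ j * V) i| ≤ η) :
    EV f K V ≤ η + 2 * M / K := by
  classical
  have hK' : (0 : ℝ) < K := by exact_mod_cast hK
  rw [EV_expand hf]
  have h1 : ∀ j ∈ range K, ∑ j' ∈ range K, av V (fun y => f ⌊3 ^ j * y⌋ * f ⌊3 ^ j' * y⌋)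
      ≤ K * η + 2 * M := by
    intro j hj
    rw [mem_range] at hj
    have h2 : ∀ j' ∈ range K, av V (fun y => f ⌊3 ^ j * y⌋ * f ⌊3 ^ j' * y⌋)
        ≤ η + (if j' ∈ Ico (j + 1 - M) (j + M) then (1 : ℝ) else 0) := by
      intro j' hj'
      rw [mem_range] at hj'
      by_cases hc : j' ∈ Ico (j + 1 - M) (j + M)
      · rw [if_pos hc]
        have := (abs_le.1 (abs_av_two hf hV j j')).2
        linarith
      · rw [if_neg hc, add_zero]
        rw [mem_Ico] at hc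
        rcases Nat.lt_or_ge j' (j + M) with h3 | h3
        · -- j' + M ≤ j
          have h4 : j' + M ≤ j := by
            by_contra h5
            exact hc ⟨by omega, h3⟩
          obtain ⟨i, hi⟩ : ∃ i, j = j' + i := ⟨j - j', by omega⟩
          have h5 := h j' i hj' (by omega) (by omega)
          have h6 : av V (fun y => f ⌊3 ^ j * y⌋ * f ⌊3 ^ j' * y⌋) = cor f (3 ^ j' * V) i := by
            rw [← av_two hV, ← hi]
            congr 1
            funext y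
            ring
          rw [h6]
          exact (abs_le.1 h5).2
        · obtain ⟨i, hi⟩ : ∃ i, j' = j + i := ⟨j' - j, by omega⟩
          have h5 := h j i hj (by omega) (by omega)
          rw [hi, av_two hV]
          exact (abs_le.1 h5).2
    refine (sum_le_sum h2).trans ?_
    rw [sum_add_distrib, sum_const, card_range, nsmul_eq_mul]
    have h7 : ∑ j' ∈ range K, (if j' ∈ Ico (j + 1 - M) (j + M) then (1 : ℝ) else 0) ≤ 2 * M := by
      rw [← sum_filter, sum_const, nsmul_eq_mul, mul_one]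
      have h8 : #{j' ∈ range K | j' ∈ Ico (j + 1 - M) (j + M)} ≤ 2 * M := by
        refine (card_le_card (t := Ico (j + 1 - M) (j + M)) ?_).trans ?_
        · intro x hx
          exact (mem_filter.1 hx).2
        · rw [Nat.card_Ico]; omega
      exact_mod_cast h8
    linarith
  rw [div_le_iff₀ (by positivity)]
  calc ∑ j ∈ range K, ∑ j' ∈ range K, av V (fun y => f ⌊3 ^ j * y⌋ * f ⌊3 ^ j' * y⌋)
      ≤ ∑ j ∈ range K, (K * η + 2 * M : ℝ) := sum_le_sum h1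
    _ = (η + 2 * M / K) * K ^ 2 := by
        rw [sum_const, card_range, nsmul_eq_mul]; field_simp

/-- from blocks to long sums -/
theorem EV_blocks {f : ℤ → ℝ} (hf : ∀ x, |f x| ≤ 1) {V : ℝ} (hV : 0 < V) {K B : ℕ} (hB : 1 ≤ B) (hBK : B ≤ K)
    {η : ℝ} (h : ∀ b : ℕ, b < K / B → EV f B (3 ^ (b * B) * V) ≤ η) :
    EV f K V ≤ 2 * η + 2 * (B / K) ^ 2 := by
  have hB' : (0 : ℝ) < B := by exact_mod_cast hB
  have hK' : (0 : ℝ) < K := by exact_mod_cast (by omega : 0 < K)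
  obtain ⟨q, hq⟩ : ∃ q, q = K / B := ⟨_, rfl⟩
  have hq1 : 1 ≤ q := by rw [hq]; exact (Nat.one_le_div_iff (by omega)).2 hBK
  have hq' : (0 : ℝ) < q := by exact_mod_cast hq1
  have hqB : q * B ≤ K := by rw [hq]; exact Nat.div_mul_le_self K B
  have hqB' : (q : ℝ) * B ≤ K := by exact_mod_cast hqB
  have hrem : K - q * B ≤ B := by
    have h1 := Nat.div_add_mod K B
    have h2 := Nat.mod_lt K (show B > 0 by omega)
    rw [← hq] at h1
    have h3 : q * B = B * q := mul_comm _ _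
    omega
  -- pointwise
  have hpt : ∀ y : ℝ, ((∑ j ∈ range K, f ⌊3 ^ j * y⌋) / K) ^ 2
      ≤ (2 / q) * ∑ b ∈ range q, ((∑ x ∈ range B, f ⌊3 ^ x * (3 ^ (b * B) * y)⌋) / B) ^ 2
        + 2 * (B / K) ^ 2 := by
    intro y
    have e1 : ∑ j ∈ range K, f ⌊3 ^ j * y⌋
        = ∑ b ∈ range q, ∑ x ∈ range B, f ⌊3 ^ x * (3 ^ (b * B) * y)⌋
          + ∑ x ∈ range (K - q * B), f ⌊3 ^ (q * B + x) * y⌋ := by
      have e2 : K = q * B + (K - q * B) := by omega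
      have e3 : ∑ j ∈ range (q * B), f ⌊3 ^ j * y⌋
          = ∑ b ∈ range q, ∑ x ∈ range B, f ⌊3 ^ x * (3 ^ (b * B) * y)⌋ := by
        clear e2 hrem hqB' hqB hq' hq1 hq
        induction q with
        | zero => simp
        | succ q ih =>
          rw [Nat.succ_mul, sum_range_add, ih, sum_range_succ]
          congr 1
          apply sum_congr rfl
          intro x _
          rw [pow_add, mul_comm ((3 : ℝ) ^ (q * B)) (3 ^ x), mul_assoc]
      calc ∑ j ∈ range K, f ⌊3 ^ j * y⌋ = ∑ j ∈ range (q * B + (K - q * B)), f ⌊3 ^ j * y⌋ := by rw [← e2]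
        _ = _ := by rw [sum_range_add, e3]
    set S := ∑ b ∈ range q, ∑ x ∈ range B, f ⌊3 ^ x * (3 ^ (b * B) * y)⌋ with hS
    set Rm := ∑ x ∈ range (K - q * B), f ⌊3 ^ (q * B + x) * y⌋ with hRm
    have h2 : |Rm| ≤ B := by
      rw [hRm]
      refine (abs_sum_le_sum_abs _ _).trans ?_
      calc ∑ x ∈ range (K - q * B), |f ⌊3 ^ (q * B + x) * y⌋| ≤ ∑ x ∈ range (K - q * B), (1 : ℝ) :=
            sum_le_sum fun x _ => hf _
        _ = ((K - q * B : ℕ) : ℝ) := by simp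
        _ ≤ B := by exact_mod_cast hrem
    have h3 : S ^ 2 ≤ q * ∑ b ∈ range q, (∑ x ∈ range B, f ⌊3 ^ x * (3 ^ (b * B) * y)⌋) ^ 2 := by
      rw [hS]
      have := sq_sum_le_card_mul_sum_sq (s := range q)
        (f := fun b => ∑ x ∈ range B, f ⌊3 ^ x * (3 ^ (b * B) * y)⌋)
      rwa [card_range] at this
    have h4 : (S + Rm) ^ 2 ≤ 2 * S ^ 2 + 2 * B ^ 2 := by
      have h5 : Rm ^ 2 ≤ (B : ℝ) ^ 2 := by
        rw [← sq_abs Rm]; exact pow_le_pow_left₀ (abs_nonneg _) h2 2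
      nlinarith [sq_nonneg (S - Rm)]
    rw [e1, div_pow, div_le_iff₀ (by positivity)]
    have e6 : ∑ b ∈ range q, ((∑ x ∈ range B, f ⌊3 ^ x * (3 ^ (b * B) * y)⌋) / B) ^ 2
        = (∑ b ∈ range q, (∑ x ∈ range B, f ⌊3 ^ x * (3 ^ (b * B) * y)⌋) ^ 2) / B ^ 2 := by
      rw [sum_div]; apply sum_congr rfl; intro b _; rw [div_pow]
    set Q := ∑ b ∈ range q, (∑ x ∈ range B, f ⌊3 ^ x * (3 ^ (b * B) * y)⌋) ^ 2 with hQ
    have hQ0 : 0 ≤ Q := sum_nonneg fun b _ => sq_nonneg _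
    rw [e6]
    have e7 : (2 / (q : ℝ) * (Q / B ^ 2) + 2 * (B / K) ^ 2) * K ^ 2
        = 2 * (K ^ 2 / (q * B) ^ 2) * (q * Q) + 2 * B ^ 2 := by field_simp
    rw [e7]
    have h8 : (1 : ℝ) ≤ K ^ 2 / (q * B) ^ 2 := by
      rw [one_le_div (by positivity)]
      exact pow_le_pow_left₀ (by positivity) hqB' 2
    have h9 : 0 ≤ (q : ℝ) * Q := by positivity
    nlinarith
  unfold EV
  have hb1 : ∀ b ∈ range q, Bd 1 (fun y => ((∑ x ∈ range B, f ⌊3 ^ x * (3 ^ (b * B) * y)⌋) / B) ^ 2) :=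
    fun b _ => (sj2_bd hf B).comp (by fun_prop)
  have hbs := (Bd.sum hb1).cmul (2 / q : ℝ)
  calc av V (fun y => ((∑ j ∈ range K, f ⌊3 ^ j * y⌋) / K) ^ 2)
      ≤ av V (fun y => (2 / q : ℝ) * ∑ b ∈ range q, ((∑ x ∈ range B, f ⌊3 ^ x * (3 ^ (b * B) * y)⌋) / B) ^ 2
        + 2 * ((B : ℝ) / K) ^ 2) :=
        av_mono hV (sj2_bd hf K) (hbs.add (Bd.const _)) fun y _ _ => hpt y
    _ = (2 / q : ℝ) * ∑ b ∈ range q, EV f B (3 ^ (b * B) * V) + 2 * ((B : ℝ) / K) ^ 2 := by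
        rw [av_add V hbs (Bd.const _), av_cmul, av_const hV, av_sum V hb1]
        congr 2
        apply sum_congr rfl
        intro b _
        unfold EV
        exact av_scale hV (by positivity) (fun z => ((∑ x ∈ range B, f ⌊3 ^ x * z⌋) / B) ^ 2)
    _ ≤ (2 / q : ℝ) * ∑ b ∈ range q, η + 2 * ((B : ℝ) / K) ^ 2 := by
        gcongr with b hb
        exact h b (by rw [← hq]; exact mem_range.1 hb)
    _ = 2 * η + 2 * (B / K) ^ 2 := by
        rw [sum_const, card_range, nsmul_eq_mul]; field_simp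

/-- short sums -/
theorem EV_short {d : ℤ} (h : S_COR d) {f : ℤ → ℝ} (hf : InvF d f) (hm : MeanZero f) {ε : ℝ} (hε : 0 < ε) :
    ∃ A V0 : ℝ, 0 < A ∧ 3 ≤ V0 ∧ ∀ V : ℝ, V0 ≤ V → ∀ K : ℕ, A * √ (Real.log V) ≤ K →
      (K : ℝ) ≤ Real.log V ^ (0.5001 : ℝ) → EV f K V ≤ ε := by
  obtain ⟨A1, V1, hA1, hV1, hcor⟩ := h f hf hm (ε / 2) (by positivity)
  refine ⟨2 * (4 * A1 + 2) / ε, max V1 3, by positivity, le_max_right _ _, fun V hV K hK1 hK2 => ?_⟩
  have hVV1 : V1 ≤ V := (le_max_left _ _).trans hV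
  have hV3 : 3 ≤ V := (le_max_right _ _).trans hV
  have hV0 : 0 < V := by linarith
  have hl1 : 1 ≤ Real.log V := by
    rw [Real.le_log_iff_exp_le hV0]
    have := Real.exp_one_lt_d9
    linarith
  obtain ⟨l, hl⟩ : ∃ l, l = Real.log V := ⟨_, rfl⟩
  rw [← hl] at hK1 hK2 hl1
  have hs1 : 1 ≤ √l := Real.one_le_sqrt.2 hl1
  have hA0 : 0 < 2 * (4 * A1 + 2) / ε := by positivity
  have hKpos : (0 : ℝ) < K := lt_of_lt_of_le (by positivity) hK1
  have hK0 : 1 ≤ K := by exact_mod_cast hKpos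
  obtain ⟨M, hM⟩ : ∃ M : ℕ, M = ⌈2 * A1 * √l⌉₊ := ⟨_, rfl⟩
  have hM1 : 2 * A1 * √l ≤ M := by rw [hM]; exact Nat.le_ceil _
  have hM2 : (M : ℝ) ≤ 2 * A1 * √l + 1 := by rw [hM]; exact (Nat.ceil_lt_add_one (by positivity)).le
  have hKl : (K : ℝ) ≤ l := by
    refine hK2.trans ?_
    calc l ^ (0.5001 : ℝ) ≤ l ^ (1 : ℝ) := Real.rpow_le_rpow_of_exponent_le hl1 (by norm_num)
      _ = l := Real.rpow_one l
  have h3l : Real.log 3 ≤ 1.2 := by
    rw [Real.log_le_iff_le_exp (by norm_num)]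
    have h2 : Real.exp 1.2 = Real.exp 1 * Real.exp 0.2 := by rw [← Real.exp_add]; norm_num
    have h3 := Real.add_one_le_exp (0.2 : ℝ)
    have h4 := Real.exp_one_gt_d9
    rw [h2]
    nlinarith
  have h3p : 0 < Real.log 3 := Real.log_pos (by norm_num)
  have hE := EV_le hf.1 hV0 hK0 (M := M) (η := ε / 2) (by positivity) (by
    intro j i hj hji hMi
    have hjK : (j : ℝ) ≤ K := by exact_mod_cast hj.le
    have hlog : Real.log (3 ^ j * V) = j * Real.log 3 + l := by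
      rw [Real.log_mul (by positivity) hV0.ne', Real.log_pow, hl]
    have hj0 : (0 : ℝ) ≤ j := Nat.cast_nonneg j
    have hlog1 : l ≤ Real.log (3 ^ j * V) := by rw [hlog]; nlinarith
    have hlog2 : Real.log (3 ^ j * V) ≤ 4 * l := by
      rw [hlog]
      have : (j : ℝ) * Real.log 3 ≤ l * 1.2 := mul_le_mul (by linarith) h3l h3p.le (by linarith)
      linarith
    have hs4 : √ (4 * l) = 2 * √l := by
      rw [Real.sqrt_mul (by norm_num), show (4 : ℝ) = 2 ^ 2 by norm_num, Real.sqrt_sq (by norm_num)]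
    refine hcor (3 ^ j * V) ?_ i ?_ ?_
    · have : V ≤ 3 ^ j * V := le_mul_of_one_le_left hV0.le (one_le_pow₀ (by norm_num))
      linarith
    · calc A1 * √ (Real.log (3 ^ j * V)) ≤ A1 * √ (4 * l) := by gcongr
        _ = 2 * A1 * √l := by rw [hs4]; ring
        _ ≤ M := hM1
        _ ≤ i := by exact_mod_cast hMi
    · have hiK : (i : ℝ) ≤ K := by exact_mod_cast (by omega : i ≤ K)
      calc (i : ℝ) ≤ K := hiK
        _ ≤ l ^ (0.5001 : ℝ) := hK2
        _ ≤ (Real.log (3 ^ j * V)) ^ (0.5001 : ℝ) :=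
          Real.rpow_le_rpow (by linarith) hlog1 (by norm_num))
  refine hE.trans ?_
  have h5 : 2 * (M : ℝ) / K ≤ ε / 2 := by
    rw [div_le_iff₀ hKpos]
    have h6 : 2 * (M : ℝ) ≤ (4 * A1 + 2) * √l := by nlinarith
    have h7 : (4 * A1 + 2) * √l = ε / 2 * (2 * (4 * A1 + 2) / ε * √l) := by field_simp
    rw [h7] at h6
    exact h6.trans (mul_le_mul_of_nonneg_left hK1 (by positivity))
  linarith

theorem en3 (d : ℤ) (_hd : d = 1 ∨ d = -1) (h : S_COR d) : S_EN3 d := by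
  intro f hf hm ε hε
  obtain ⟨A1, V1, hA1, hV1, hsh⟩ := EV_short h hf hm (ε := ε / 4) (by positivity)
  -- growth conditions
  have hg1 : Tendsto (fun x : ℝ => x ^ (0.00005 : ℝ)) atTop atTop := tendsto_rpow_atTop (by norm_num)
  have hg := hg1.comp Real.tendsto_log_atTop
  obtain ⟨V2, hV2⟩ := eventually_atTop.1 ((hg.eventually_ge_atTop (2 * A1 + 1)).and
    (hg.eventually_ge_atTop (4 / ε + 1)))
  refine ⟨A1, max (max V1 V2) 3, hA1, by have := le_max_right (max V1 V2) 3; linarith, fun V hV K hK1 hK2 => ?_⟩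
  have hVV1 : V1 ≤ V := ((le_max_left _ _).trans (le_max_left _ _)).trans hV
  have hVV2 : V2 ≤ V := ((le_max_right _ _).trans (le_max_left _ _)).trans hV
  have hV3 : 3 ≤ V := (le_max_right _ _).trans hV
  have hV0 : 0 < V := by linarith
  obtain ⟨hg2, hg3⟩ := hV2 V hVV2
  simp only [Function.comp] at hg2 hg3
  have hl1 : 1 ≤ Real.log V := by
    rw [Real.le_log_iff_exp_le hV0]
    have := Real.exp_one_lt_d9
    linarith
  by_cases hK : (K : ℝ) ≤ Real.log V ^ (0.5001 : ℝ)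
  · have := hsh V hVV1 K hK1 hK
    unfold EV at this
    linarith
  push Not at hK
  obtain ⟨l, hl⟩ : ∃ l, l = Real.log V := ⟨_, rfl⟩
  rw [← hl] at hK1 hK2 hl1 hg2 hg3 hK
  have hl0 : 0 < l := by linarith
  obtain ⟨w, hw⟩ : ∃ w, w = l ^ (0.00005 : ℝ) := ⟨_, rfl⟩
  rw [← hw] at hg2 hg3
  have hs1 : 1 ≤ √l := Real.one_le_sqrt.2 hl1
  have hw1 : 1 ≤ w := by rw [hw]; exact Real.one_le_rpow hl1 (by norm_num)
  have hsl : √l = l ^ (0.5 : ℝ) := by rw [Real.sqrt_eq_rpow]; norm_num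
  have e1 : l ^ (0.50005 : ℝ) = w * √l := by
    rw [hw, hsl, ← Real.rpow_add hl0]; norm_num
  have e2 : l ^ (0.5001 : ℝ) = w * (w * √l) := by
    rw [hw, hsl, ← Real.rpow_add hl0, ← Real.rpow_add hl0]; norm_num
  obtain ⟨B, hB⟩ : ∃ B : ℕ, B = ⌊w * √l⌋₊ := ⟨_, rfl⟩
  have hws : 1 ≤ w * √l := by nlinarith
  have hB1 : (B : ℝ) ≤ w * √l := by rw [hB]; exact Nat.floor_le (by positivity)
  have hB2 : w * √l < B + 1 := by rw [hB]; exact Nat.lt_floor_add_one _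
  have hB3 : 2 * A1 * √l ≤ B := by nlinarith
  have hB0 : 1 ≤ B := by rw [hB]; exact Nat.le_floor (by exact_mod_cast hws)
  have hBK' : (B : ℝ) ≤ K := by
    rw [e2] at hK
    nlinarith
  have hBK : B ≤ K := by exact_mod_cast hBK'
  have h3l : Real.log 3 ≤ 1.2 := by
    rw [Real.log_le_iff_le_exp (by norm_num)]
    have h2 : Real.exp 1.2 = Real.exp 1 * Real.exp 0.2 := by rw [← Real.exp_add]; norm_num
    have h3 := Real.add_one_le_exp (0.2 : ℝ)
    have h4 := Real.exp_one_gt_d9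
    rw [h2]
    nlinarith
  have h3p : 0 < Real.log 3 := Real.log_pos (by norm_num)
  have hfin := EV_blocks hf.1 hV0 hB0 hBK (η := ε / 4) (by
    intro b hb
    have hbB : b * B ≤ K := by
      calc b * B ≤ (K / B) * B := Nat.mul_le_mul_right _ hb.le
        _ ≤ K := Nat.div_mul_le_self _ _
    have hbB' : ((b * B : ℕ) : ℝ) ≤ 2 * l := le_trans (by exact_mod_cast hbB) hK2
    have hlog : Real.log (3 ^ (b * B) * V) = ((b * B : ℕ) : ℝ) * Real.log 3 + l := by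
      rw [Real.log_mul (by positivity) hV0.ne', Real.log_pow, hl]
    have hj0 : (0 : ℝ) ≤ ((b * B : ℕ) : ℝ) := Nat.cast_nonneg _
    have hlog1 : l ≤ Real.log (3 ^ (b * B) * V) := by rw [hlog]; nlinarith
    have hlog2 : Real.log (3 ^ (b * B) * V) ≤ 4 * l := by
      rw [hlog]
      have : ((b * B : ℕ) : ℝ) * Real.log 3 ≤ (2 * l) * 1.2 := mul_le_mul hbB' h3l h3p.le (by linarith)
      linarith
    have hs4 : √ (4 * l) = 2 * √l := by
      rw [Real.sqrt_mul (by norm_num), show (4 : ℝ) = 2 ^ 2 by norm_num, Real.sqrt_sq (by norm_num)]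
    refine hsh (3 ^ (b * B) * V) ?_ B ?_ ?_
    · have : V ≤ 3 ^ (b * B) * V := le_mul_of_one_le_left hV0.le (one_le_pow₀ (by norm_num))
      linarith
    · calc A1 * √ (Real.log (3 ^ (b * B) * V)) ≤ A1 * √ (4 * l) := by gcongr
        _ = 2 * A1 * √l := by rw [hs4]; ring
        _ ≤ B := hB3
    · calc (B : ℝ) ≤ w * √l := hB1
        _ ≤ w * (w * √l) := by nlinarith
        _ = l ^ (0.5001 : ℝ) := e2.symm
        _ ≤ (Real.log (3 ^ (b * B) * V)) ^ (0.5001 : ℝ) :=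
          Real.rpow_le_rpow (by linarith) hlog1 (by norm_num))
  have hBKr : ((B : ℝ) / K) ^ 2 ≤ ε / 4 := by
    have hK0 : (0 : ℝ) < K := by
      have : (1 : ℝ) ≤ B := by exact_mod_cast hB0
      linarith
    have h5 : (B : ℝ) / K ≤ 1 / w := by
      rw [div_le_div_iff₀ hK0 (by linarith)]
      rw [e2] at hK
      nlinarith
    have h6 : (0 : ℝ) ≤ (B : ℝ) / K := by positivity
    have h7 : (1 : ℝ) / w ≤ ε / 4 := by
      rw [div_le_iff₀ (by linarith)]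
      have h8 : 4 / ε ≤ w := by linarith
      rw [div_le_iff₀ hε] at h8
      linarith
    have h9 : (1 : ℝ) / w ≤ 1 := by rw [div_le_one (by linarith)]; exact hw1
    calc ((B : ℝ) / K) ^ 2 ≤ (1 / w) ^ 2 := pow_le_pow_left₀ h6 h5 2
      _ = (1 / w) * (1 / w) := sq _
      _ ≤ (ε / 4) * 1 := mul_le_mul h7 h9 (by positivity) (by positivity)
      _ = ε / 4 := mul_one _
  unfold EV at hfin
  linarith

end Pool.Agent.KS6_24.ST
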