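import Mathlib
import Pool.Agent.KS6_24.ST.En3
import Pool.Agent.KS6_24.ST.Cj
import Pool.Agent.KS6_24.LN.FinA

/-! J9b: the sharp law of large numbers.  `S_LLN3b` is `S_LLN3` for `K ≤ (log N) ^ 0.99` (the cost of the
comparison of `3 ^ j n` with `⌊3 ^ j y⌋` is `√ j * rho`, so `K` of the order `log N` is out of reach). -/

set_option autoImplicit false

namespace Pool.Agent.KS6_24.ST

open Pool.Agent.H499R2.CO Pool.Agent.Y965.SI Finset Filter Topology MeasureTheory Pool.Agent.KS6_24.LN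

open Classical in
/-- J9b, SHARP LAW OF LARGE NUMBERS along `n, 3 n, 9 n, ...`. -/
def S_LLN3b (d : ℤ) : Prop := ∀ S : Set ℤ, (∀ x, Tz d x ∈ S ↔ x ∈ S) → ∀ δ : ℝ, 0 ≤ δ → δ ≤ 1 →
  MeanZero (fun x => S.indicator (fun _ => (1 : ℝ)) x - δ) → ∀ ε : ℝ, 0 < ε → ∃ (A : ℝ) (N0 : ℕ), 0 < A ∧
  ∀ N : ℕ, N0 ≤ N → ∀ K : ℕ, A * √ (Real.log N) ≤ K → (K : ℝ) ≤ Real.log N ^ (0.99 : ℝ) →
    (({n ∈ Icc 1 N | ε * K < |(#{i ∈ range K | ((3 ^ i * n : ℕ) : ℤ) ∈ S} : ℝ) - δ * K|}.card : ℕ) : ℝ) ≤ ε * N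

/-- from dyadic blocks to `[1, N]` -/
theorem icc_of_dyadic {P : ℕ → Prop} [DecidablePred P] {N N1 : ℕ} {η : ℝ} (hη : 0 ≤ η)
    (h : ∀ M : ℕ, N1 ≤ M → M ≤ N → (#{n ∈ Ico M (2 * M) | P n} : ℝ) ≤ η * M) :
    (#{n ∈ Icc 1 N | P n} : ℝ) ≤ 2 * N1 + 4 + 4 * η * (N + 1) := by
  have hcnt : ∀ M : ℕ, M ≤ N + 1 → (#{n ∈ range M | P n} : ℝ) ≤ 2 * N1 + 4 + 4 * η * M := by
    intro M
    induction M using Nat.strong_induction_on with
    | _ M ih =>
      intro hMN
      by_cases hM : M ≤ 2 * N1 + 4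
      · have h1 : #{n ∈ range M | P n} ≤ M := by simpa using card_filter_le (range M) P
        have h2 : (#{n ∈ range M | P n} : ℝ) ≤ M := by exact_mod_cast h1
        have h3 : (M : ℝ) ≤ 2 * N1 + 4 := by exact_mod_cast hM
        have h4 : 0 ≤ 4 * η * M := by positivity
        linarith
      · push Not at hM
        obtain ⟨M', hM'⟩ : ∃ M', M' = (M + 1) / 2 := ⟨_, rfl⟩
        have h1 := ih M' (by omega) (by omega)
        have h2 := h M' (by omega) (by omega)
        have h3 : #{n ∈ range M | P n} ≤ #{n ∈ range M' | P n} + #{n ∈ Ico M' (2 * M') | P n} := by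
          rw [← card_union_of_disjoint]
          · apply card_le_card
            intro n hn
            simp only [mem_union, mem_filter, mem_range, mem_Ico] at hn ⊢
            by_cases h : n < M'
            · exact Or.inl ⟨h, hn.2⟩
            · exact Or.inr ⟨⟨by omega, by omega⟩, hn.2⟩
          · rw [disjoint_left]
            intro n hn hn'
            simp only [mem_filter, mem_range, mem_Ico] at hn hn'
            omega
        have h4 : (#{n ∈ range M | P n} : ℝ) ≤ #{n ∈ range M' | P n} + #{n ∈ Ico M' (2 * M') | P n} := by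
          exact_mod_cast h3
        have h5 : (2 : ℝ) * M' ≤ M + 1 := by
          have : 2 * M' ≤ M + 1 := by omega
          exact_mod_cast this
        have h6 : (4 : ℝ) ≤ M := by
          have : 4 ≤ M := by omega
          exact_mod_cast this
        nlinarith
  have h1 : #{n ∈ Icc 1 N | P n} ≤ #{n ∈ range (N + 1) | P n} := by
    apply card_le_card
    intro n hn
    simp only [mem_filter, mem_range, mem_Icc] at hn ⊢
    exact ⟨by omega, hn.2⟩
  have h2 := hcnt (N + 1) le_rfl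
  have h3 : (#{n ∈ Icc 1 N | P n} : ℝ) ≤ #{n ∈ range (N + 1) | P n} := by exact_mod_cast h1
  push_cast at h2
  linarith

/-- the cost of `S_CJ` for `K` terms -/
theorem cost_tendsto : Tendsto (fun x : ℝ => (1 + (2 * x) ^ (0.99 : ℝ)) * Real.log (2 * x + 1) / x) atTop (𝓝 0) := by
  have h1 : Tendsto (fun x : ℝ => 1200 * x ^ (-0.005 : ℝ)) atTop (𝓝 0) := by
    have := (tendsto_rpow_neg_atTop (y := 0.005) (by norm_num)).const_mul (1200 : ℝ)
    rw [mul_zero] at this
    exact this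
  apply squeeze_zero' _ _ h1
  · filter_upwards [eventually_ge_atTop 1] with x hx
    have : 0 ≤ Real.log (2 * x + 1) := Real.log_nonneg (by linarith)
    positivity
  · filter_upwards [eventually_ge_atTop 1] with x hx
    have hx0 : 0 < x := by linarith
    have e1 : Real.log (2 * x + 1) ≤ 200 * (3 * x) ^ (0.005 : ℝ) := by
      have h2 := Real.log_le_rpow_div (x := 3 * x) (by positivity) (show (0 : ℝ) < 0.005 by norm_num)
      have h3 : Real.log (2 * x + 1) ≤ Real.log (3 * x) := Real.log_le_log (by positivity) (by linarith)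
      have h4 : (3 * x) ^ (0.005 : ℝ) / 0.005 = 200 * (3 * x) ^ (0.005 : ℝ) := by ring
      linarith
    have e2 : 1 + (2 * x) ^ (0.99 : ℝ) ≤ 2 * (3 * x) ^ (0.99 : ℝ) := by
      have h2 : (2 * x) ^ (0.99 : ℝ) ≤ (3 * x) ^ (0.99 : ℝ) :=
        Real.rpow_le_rpow (by positivity) (by linarith) (by norm_num)
      have h3 : (1 : ℝ) ≤ (3 * x) ^ (0.99 : ℝ) := Real.one_le_rpow (by linarith) (by norm_num)
      linarith
    have e3 : (3 * x) ^ (0.99 : ℝ) * (3 * x) ^ (0.005 : ℝ) = (3 * x) ^ (0.995 : ℝ) := by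
      rw [← Real.rpow_add (by positivity)]; norm_num
    have e4 : (3 * x) ^ (0.995 : ℝ) ≤ 3 * (x * x ^ (-0.005 : ℝ)) := by
      rw [Real.mul_rpow (by norm_num) hx0.le]
      have h2 : (3 : ℝ) ^ (0.995 : ℝ) ≤ 3 := by
        calc (3 : ℝ) ^ (0.995 : ℝ) ≤ 3 ^ (1 : ℝ) := Real.rpow_le_rpow_of_exponent_le (by norm_num) (by norm_num)
          _ = 3 := Real.rpow_one 3
      have h3 : x * x ^ (-0.005 : ℝ) = x ^ (0.995 : ℝ) := by
        nth_rewrite 1 [← Real.rpow_one x]
        rw [← Real.rpow_add hx0]; norm_num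
      rw [h3]
      exact mul_le_mul_of_nonneg_right h2 (by positivity)
    rw [div_le_iff₀ hx0]
    have hl : 0 ≤ Real.log (2 * x + 1) := Real.log_nonneg (by linarith)
    calc (1 + (2 * x) ^ (0.99 : ℝ)) * Real.log (2 * x + 1)
        ≤ (2 * (3 * x) ^ (0.99 : ℝ)) * (200 * (3 * x) ^ (0.005 : ℝ)) :=
          mul_le_mul e2 e1 hl (by positivity)
      _ = 400 * ((3 * x) ^ (0.99 : ℝ) * (3 * x) ^ (0.005 : ℝ)) := by ring
      _ = 400 * (3 * x) ^ (0.995 : ℝ) := by rw [e3]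
      _ ≤ 400 * (3 * (x * x ^ (-0.005 : ℝ))) := by gcongr
      _ = 1200 * x ^ (-0.005 : ℝ) * x := by ring

/-- `rho` and the logarithm of `M` -/
theorem cost_le {M K : ℕ} (hM : 8 ≤ M) (hK : (K : ℝ) ≤ (2 * Real.log M) ^ (0.99 : ℝ)) :
    √ (1 + K) * rho (Nat.log 2 M)
      ≤ √ ((1 + (2 * Real.log M) ^ (0.99 : ℝ)) * Real.log (2 * Real.log M + 1) / Real.log M) := by
  have hM0 : (0 : ℝ) < M := by positivity
  have hM8 : (8 : ℝ) ≤ M := by exact_mod_cast hM
  obtain ⟨x, hx⟩ : ∃ x, x = Real.log M := ⟨_, rfl⟩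
  obtain ⟨R, hR⟩ : ∃ R, R = Nat.log 2 M := ⟨_, rfl⟩
  have hl2 : 0.69 < Real.log 2 := by have := Real.log_two_gt_d9; linarith
  have hl2' : Real.log 2 < 0.7 := by have := Real.log_two_lt_d9; linarith
  have hx2 : 2.07 ≤ x := by
    have : Real.log 8 ≤ x := by rw [hx]; exact Real.log_le_log (by norm_num) hM8
    have h8 : Real.log 8 = 3 * Real.log 2 := by
      rw [show (8 : ℝ) = 2 ^ 3 by norm_num, Real.log_pow]; norm_num
    linarith
  have hR1 : (R : ℝ) * Real.log 2 ≤ x := by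
    have h1 : (2 : ℝ) ^ R ≤ M := by exact_mod_cast (by rw [hR]; exact Nat.pow_log_le_self 2 (by omega) : 2 ^ R ≤ M)
    have h2 := Real.log_le_log (by positivity) h1
    rw [Real.log_pow] at h2
    rw [hx]; exact h2
  have hR2 : x ≤ ((R : ℝ) + 1) * Real.log 2 := by
    have h1 : (M : ℝ) ≤ 2 ^ (R + 1) := by
      exact_mod_cast (by rw [hR]; exact (Nat.lt_pow_succ_log_self (by norm_num) M).le : M ≤ 2 ^ (R + 1))
    have h2 := Real.log_le_log hM0 h1
    rw [Real.log_pow] at h2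
    push_cast at h2
    rw [hx]; exact h2
  have hR3 : (3 : ℝ) ≤ R := by
    have : 3 ≤ R := by
      rw [hR]; exact (Nat.le_log_iff_pow_le (by norm_num) (by omega)).2 hM
    exact_mod_cast this
  have hxR : x ≤ R := by nlinarith
  have hRx : (R : ℝ) ≤ 2 * x := by nlinarith
  rw [← hx] at hK ⊢
  rw [← hR]
  unfold rho
  rw [← Real.sqrt_mul (by positivity)]
  apply Real.sqrt_le_sqrt
  rw [← mul_div_assoc]
  have hlog : Real.log ((R : ℝ) + 1) ≤ Real.log (2 * x + 1) := Real.log_le_log (by positivity) (by linarith)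
  have hlog0 : 0 ≤ Real.log ((R : ℝ) + 1) := Real.log_nonneg (by linarith)
  apply div_le_div₀ _ _ (by linarith) hxR
  · have : 0 ≤ Real.log (2 * x + 1) := hlog0.trans hlog
    have h0 : 0 ≤ (2 * x) ^ (0.99 : ℝ) := by positivity
    positivity
  · apply mul_le_mul (by linarith) hlog hlog0
    positivity

/-- the difference at the integers -/
theorem mean_int {d : ℤ} {C : ℝ} (hC : ∀ f : ℤ → ℝ, InvF d f → ∀ R : ℕ, 1 ≤ R → ∀ V : ℝ, 2 ^ R ≤ V →
      ∀ j : ℕ, av V (fun y => |f (3 ^ j * ⌊y⌋) - f ⌊3 ^ j * y⌋|) ≤ C * √ (1 + j) * rho R) (hC0 : 0 < C)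
    {f : ℤ → ℝ} (hf : InvF d f) {R N K : ℕ} (hR : 1 ≤ R) (hN : 2 ^ R ≤ N) (hK : 1 ≤ K) :
    (∑ n ∈ Ico N (2 * N), |(∑ j ∈ range K, f (3 ^ j * (n : ℕ))) / K|) / N
      ≤ √ (EV f K N) + C * √ (1 + K) * rho R := by
  have hN1 : 1 ≤ N := le_trans Nat.one_le_two_pow hN
  have hN' : (0 : ℝ) < N := by exact_mod_cast hN1
  have hK' : (0 : ℝ) < K := by exact_mod_cast hK
  have hV : (2 : ℝ) ^ R ≤ N := by exact_mod_cast hN
  obtain ⟨g, hg⟩ : ∃ g : ℤ → ℝ, g = fun n : ℤ => |(∑ j ∈ range K, f (3 ^ j * n)) / K| := ⟨_, rfl⟩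
  have hg1 : ∀ x, |g x| ≤ 1 := by
    intro x
    rw [hg]
    simp only [abs_abs]
    rw [abs_div, Nat.abs_cast]
    apply div_le_one_of_le₀ _ (Nat.cast_nonneg _)
    calc |∑ j ∈ range K, f (3 ^ j * x)| ≤ ∑ j ∈ range K, |f (3 ^ j * x)| := abs_sum_le_sum_abs _ _
      _ ≤ ∑ j ∈ range K, (1 : ℝ) := sum_le_sum fun _ _ => hf.1 _
      _ = K := by simp
  have h1 := av_floor hg1 hN1
  have h2 : (∑ n ∈ Ico N (2 * N), |(∑ j ∈ range K, f (3 ^ j * (n : ℕ))) / K|) / N = av N (fun y => g ⌊y⌋) := by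
    rw [h1, hg]
  rw [h2]
  have hb := sj_bd hf.1 K
  have hdb : ∀ j ∈ range K, Bd (1 + 1) (fun y => |f (3 ^ j * ⌊y⌋) - f ⌊3 ^ j * y⌋|) := fun j _ =>
    ((Bd.fl (F := fun n => f (3 ^ j * n)) fun x => hf.1 _).sub (fj_bd hf.1 j)).abs
  have hb2 := (Bd.sum hdb).cmul (1 / K : ℝ)
  calc av N (fun y => g ⌊y⌋)
      ≤ av N (fun y => |(∑ j ∈ range K, f ⌊3 ^ j * y⌋) / K|
          + (1 / K : ℝ) * ∑ j ∈ range K, |f (3 ^ j * ⌊y⌋) - f ⌊3 ^ j * y⌋|) := by
        apply av_mono hN' (Bd.fl hg1) (hb.abs.add hb2)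
        intro y _ _
        rw [hg]
        simp only
        have e1 : (∑ j ∈ range K, f (3 ^ j * ⌊y⌋)) / (K : ℝ)
            = (∑ j ∈ range K, f ⌊3 ^ j * y⌋) / K
              + (1 / K : ℝ) * ∑ j ∈ range K, (f (3 ^ j * ⌊y⌋) - f ⌊3 ^ j * y⌋) := by
          rw [sum_sub_distrib]; ring
        rw [e1]
        refine (abs_add_le _ _).trans ?_
        have e2 : |(1 / K : ℝ) * ∑ j ∈ range K, (f (3 ^ j * ⌊y⌋) - f ⌊3 ^ j * y⌋)|
            ≤ (1 / K : ℝ) * ∑ j ∈ range K, |f (3 ^ j * ⌊y⌋) - f ⌊3 ^ j * y⌋| := by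
          rw [abs_mul, abs_of_nonneg (by positivity : (0 : ℝ) ≤ 1 / K)]
          exact mul_le_mul_of_nonneg_left (abs_sum_le_sum_abs _ _) (by positivity)
        linarith
    _ = av N (fun y => |(∑ j ∈ range K, f ⌊3 ^ j * y⌋) / K|)
          + (1 / K : ℝ) * ∑ j ∈ range K, av N (fun y => |f (3 ^ j * ⌊y⌋) - f ⌊3 ^ j * y⌋|) := by
        rw [av_add _ hb.abs hb2, av_cmul, av_sum _ hdb]
    _ ≤ √ (EV f K N) + (1 / K : ℝ) * ∑ j ∈ range K, C * √ (1 + K) * rho R := by
        apply add_le_add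
        · exact av_abs_le_sqrt hN' hb
        · gcongr with j hj
          refine (hC f hf R hR N hV j).trans ?_
          have hρ := rho_nonneg R
          have hjK : (j : ℝ) ≤ K := by exact_mod_cast (mem_range.1 hj).le
          gcongr
    _ = √ (EV f K N) + C * √ (1 + K) * rho R := by
        rw [sum_const, card_range, nsmul_eq_mul]; field_simp

theorem lln3 (d : ℤ) (hd : d = 1 ∨ d = -1) (h : S_EN3 d) : S_LLN3b d := by
  classical
  intro S hS δ h0 h1 hmz ε hε
  obtain ⟨C, hC0, hC⟩ := cj d hd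
  set f : ℤ → ℝ := fun x => S.indicator (fun _ => (1 : ℝ)) x - δ with hfdef
  have hf : InvF d f := invF_ind hS h0 h1
  obtain ⟨A, V0, hA, hV0, hen⟩ := h f hf hmz ((ε ^ 2 / 32) ^ 2) (by positivity)
  refine ⟨A, ?_⟩
  -- the eventual conditions on `M`
  have hc1 : Tendsto (fun M : ℕ => C * √ ((1 + (2 * Real.log M) ^ (0.99 : ℝ)) * Real.log (2 * Real.log M + 1)
      / Real.log M)) atTop (𝓝 0) := by
    have := (cost_tendsto.comp (Real.tendsto_log_atTop.comp tendsto_natCast_atTop_atTop)).sqrt.const_mul C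
    rw [Real.sqrt_zero, mul_zero] at this
    exact this
  have hlogt : Tendsto (fun N : ℕ => Real.log N) atTop atTop :=
    Real.tendsto_log_atTop.comp tendsto_natCast_atTop_atTop
  obtain ⟨M0, hM0⟩ := eventually_atTop.1 ((hc1.eventually (eventually_le_nhds (show (0 : ℝ) < ε ^ 2 / 32 by positivity))).and
    ((eventually_ge_atTop 8).and ((tendsto_natCast_atTop_atTop (R := ℝ)).eventually_ge_atTop V0)))
  obtain ⟨N0, hN0⟩ := eventually_atTop.1 ((eventually_ge_atTop 1).and ((hlogt.eventually_ge_atTop 1).and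
    ((hlogt.eventually_ge_atTop (2 * Real.log (16 / ε))).and
    (((tendsto_natCast_atTop_atTop (R := ℝ)).eventually_ge_atTop (16 * (M0 + 1) / ε)).and
    ((tendsto_natCast_atTop_atTop (R := ℝ)).eventually_ge_atTop (32 / ε))))))
  refine ⟨N0, hA, fun N hN K hK1 hK2 => ?_⟩
  obtain ⟨hN1, hNl1, hNl2, hNM, hN8⟩ := hN0 N hN
  have hN' : (0 : ℝ) < N := by exact_mod_cast hN1
  have hKpos : (0 : ℝ) < K := by
    refine lt_of_lt_of_le ?_ hK1
    have : 0 < √ (Real.log N) := Real.sqrt_pos.2 (by linarith)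
    positivity
  have hKn : 1 ≤ K := by exact_mod_cast hKpos
  obtain ⟨N1, hN1def⟩ : ∃ N1 : ℕ, N1 = ⌈ε / 16 * N⌉₊ := ⟨_, rfl⟩
  have hN1a : ε / 16 * N ≤ N1 := by rw [hN1def]; exact Nat.le_ceil _
  have hN1b : (N1 : ℝ) ≤ ε / 16 * N + 1 := by rw [hN1def]; exact (Nat.ceil_lt_add_one (by positivity)).le
  have hdy := icc_of_dyadic (P := fun n : ℕ => ε * K < |(#{i ∈ range K | ((3 ^ i * n : ℕ) : ℤ) ∈ S} : ℝ) - δ * K|)
    (N := N) (N1 := N1) (η := ε / 16) (by positivity) (by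
      intro M hM1 hM2
      have hMr1 : ε / 16 * N ≤ M := hN1a.trans (by exact_mod_cast hM1)
      have hMr2 : (M : ℝ) ≤ N := by exact_mod_cast hM2
      have hM0' : M0 ≤ M := by
        have : (M0 : ℝ) + 1 ≤ M := by
          refine le_trans ?_ hMr1
          rw [div_le_iff₀ hε] at hNM
          linarith
        have h2 : (M0 : ℝ) ≤ M := by linarith
        exact_mod_cast h2
      obtain ⟨hcM, hM8, hMV⟩ := hM0 M hM0'
      have hM' : (0 : ℝ) < M := by
        have : 0 < M := by omega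
        exact_mod_cast this
      have hlogM : Real.log N ≤ 2 * Real.log M := by
        have h2 : Real.log (ε / 16 * N) ≤ Real.log M := Real.log_le_log (by positivity) hMr1
        rw [Real.log_mul (by positivity) hN'.ne'] at h2
        have h3 : Real.log (ε / 16) = -Real.log (16 / ε) := by
          rw [← Real.log_inv]; congr 1; field_simp
        rw [h3] at h2
        linarith
      have hlogM1 : Real.log M ≤ Real.log N := Real.log_le_log hM' hMr2
      have hlogM0 : 0 < Real.log M := by linarith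
      have hKM : (K : ℝ) ≤ (2 * Real.log M) ^ (0.99 : ℝ) :=
        hK2.trans (Real.rpow_le_rpow (by linarith) hlogM (by norm_num))
      have hcost := cost_le hM8 hKM
      have hKen2 : (K : ℝ) ≤ 2 * Real.log M := by
        refine hK2.trans ?_
        calc Real.log N ^ (0.99 : ℝ) ≤ Real.log N ^ (1 : ℝ) :=
              Real.rpow_le_rpow_of_exponent_le hNl1 (by norm_num)
          _ = Real.log N := Real.rpow_one _
          _ ≤ 2 * Real.log M := hlogM
      have hKen1 : A * √ (Real.log M) ≤ K := by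
        refine le_trans ?_ hK1
        gcongr
      have hE : EV f K M ≤ (ε ^ 2 / 32) ^ 2 := hen M hMV K hKen1 hKen2
      have hsq : √ (EV f K M) ≤ ε ^ 2 / 32 := by
        have := Real.sqrt_le_sqrt hE
        rwa [Real.sqrt_sq (by positivity)] at this
      have hR : 1 ≤ Nat.log 2 M := (Nat.le_log_iff_pow_le (by norm_num) (by omega)).2 (by omega)
      have hmean := mean_int hC hC0 hf hR (Nat.pow_log_le_self 2 (by omega)) hKn
      have hsum : ∑ n ∈ Ico M (2 * M), |(∑ j ∈ range K, f (3 ^ j * (n : ℕ))) / K| ≤ ε ^ 2 / 16 * M := by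
        rw [div_le_iff₀ hM'] at hmean
        refine hmean.trans ?_
        gcongr
        have h2 : C * √ (1 + K) * rho (Nat.log 2 M) ≤ ε ^ 2 / 32 := by
          rw [mul_assoc]
          exact (mul_le_mul_of_nonneg_left hcost hC0.le).trans hcM
        linarith
      -- Chebyshev
      have hinc : ∀ n : ℕ, ε * K < |(#{i ∈ range K | ((3 ^ i * n : ℕ) : ℤ) ∈ S} : ℝ) - δ * K| →
          ε ≤ |(∑ j ∈ range K, f (3 ^ j * (n : ℕ))) / K| := by
        intro n hn
        have e1 : ∑ j ∈ range K, f (3 ^ j * (n : ℕ)) = (#{i ∈ range K | ((3 ^ i * n : ℕ) : ℤ) ∈ S} : ℝ) - δ * K := by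
          rw [hfdef, sum_sub_distrib, sum_const, card_range, nsmul_eq_mul, card_filter, mul_comm (K : ℝ)]
          push_cast
          congr 1
        rw [e1, abs_div, Nat.abs_cast, le_div_iff₀ hKpos]
        exact hn.le
      have hcard : ε * (#{n ∈ Ico M (2 * M) | ε * K < |(#{i ∈ range K | ((3 ^ i * n : ℕ) : ℤ) ∈ S} : ℝ) - δ * K|} : ℝ)
          ≤ ε ^ 2 / 16 * M := by
        refine le_trans ?_ hsum
        rw [mul_comm, ← nsmul_eq_mul, ← sum_const]
        calc ∑ n ∈ Ico M (2 * M) with ε * K < |(#{i ∈ range K | ((3 ^ i * n : ℕ) : ℤ) ∈ S} : ℝ) - δ * K|, ε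
            ≤ ∑ n ∈ Ico M (2 * M) with ε * K < |(#{i ∈ range K | ((3 ^ i * n : ℕ) : ℤ) ∈ S} : ℝ) - δ * K|,
              |(∑ j ∈ range K, f (3 ^ j * (n : ℕ))) / K| := by
              apply sum_le_sum
              intro n hn
              rw [mem_filter] at hn
              exact hinc n hn.2
          _ ≤ ∑ n ∈ Ico M (2 * M), |(∑ j ∈ range K, f (3 ^ j * (n : ℕ))) / K| :=
              sum_le_sum_of_subset_of_nonneg (filter_subset _ _) fun _ _ _ => abs_nonneg _
      have e3 : ε ^ 2 / 16 * (M : ℝ) = ε * (ε / 16 * M) := by ring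
      rw [e3] at hcard
      exact le_of_mul_le_mul_left hcard hε)
  have hN8' : 32 ≤ ε * N := by
    rw [div_le_iff₀ hε] at hN8
    linarith
  refine hdy.trans ?_
  have hN1r : (1 : ℝ) ≤ N := by exact_mod_cast hN1
  have hεN : ε ≤ ε * N := le_mul_of_one_le_right hε.le hN1r
  linarith

end Pool.Agent.KS6_24.ST
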