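import Mathlib
import Pool.Agent.KS6_24.ST.Lln3
import Pool.Agent.KS6_24.LN.Win
import Pool.Agent.KS6_24.LN.CI
import Pool.Agent.KS6_24.LN.Dens
import Pool.Agent.KS6_24.LN.Steer

/-! J9c: sharp windows. -/

set_option autoImplicit false

namespace Pool.Agent.KS6_24.ST

open Pool.Agent.H499R2.CO Pool.Agent.Y965.SI Finset Filter Topology MeasureTheory Pool.Agent.KS6_24.LN

/-- the bad function -/
noncomputable def B3 (f : ℤ → ℝ) (δ : ℝ) (K : ℕ) (z : ℝ) : ℝ :=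
  2 / δ * |(∑ j ∈ range K, f ⌊3 ^ j * z⌋) / K| + 4 / δ * ((∑ D ∈ range K, dp f (3 ^ D * z)) / K)

theorem dps3_bd {f : ℤ → ℝ} (hf : ∀ x, |f x| ≤ 1) {K : ℕ} (hK : 1 ≤ K) :
    Bd 2 (fun z : ℝ => (∑ D ∈ range K, dp f (3 ^ D * z)) / (K : ℝ)) := by
  have hK' : (0 : ℝ) < K := by exact_mod_cast hK
  have h3 : ∀ D ∈ range K, Bd 2 (fun y : ℝ => dp f (3 ^ D * y)) := fun D _ => (dp_bd hf).comp (by fun_prop)
  have h4 := (Bd.sum h3).cmul (1 / K : ℝ)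
  rw [abs_of_nonneg (by positivity : (0 : ℝ) ≤ 1 / K)] at h4
  have e : (fun y : ℝ => (∑ D ∈ range K, dp f (3 ^ D * y)) / (K : ℝ))
      = fun y : ℝ => (1 / K : ℝ) * ∑ D ∈ range K, dp f (3 ^ D * y) := by funext y; ring
  rw [e]
  refine h4.mono (le_of_eq ?_)
  rw [sum_const, card_range, nsmul_eq_mul]
  field_simp

theorem B3_bd {f : ℤ → ℝ} (hf : ∀ x, |f x| ≤ 1) {δ : ℝ} (hδ : 0 < δ) {K : ℕ} (hK : 1 ≤ K) :
    Bd (10 / δ) (B3 f δ K) := by
  have h1 := ((sj_bd hf K).abs.cmul (2 / δ)).add ((dps3_bd hf hK).cmul (4 / δ))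
  refine h1.mono (le_of_eq ?_)
  rw [abs_of_pos (by positivity), abs_of_pos (by positivity)]
  field_simp
  norm_num

theorem av_B3 {d : ℤ} {C : ℝ}
    (hC : ∀ f : ℤ → ℝ, InvF d f → ∀ R : ℕ, 1 ≤ R → ∀ V : ℝ, 2 ^ R ≤ V →
      ∀ (i u : ℕ) (h : ℝ), |h| ≤ 4 ^ u →
      av V (fun y => |f ⌊y⌋ - f ⌊3 ^ i * y + h⌋|) ≤ C * √ (1 + (i : ℝ) ^ 2 + u) * rho R)
    {f : ℤ → ℝ} (hf : InvF d f) {δ : ℝ} (hδ : 0 < δ) {R : ℕ} (hR : 1 ≤ R) {V : ℝ} (hV : 2 ^ R ≤ V)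
    {K : ℕ} (hK : 1 ≤ K) :
    av V (B3 f δ K) ≤ 2 / δ * √ (EV f K V) + 4 / δ * (C * √ 2 * rho R) := by
  have hV0 : 0 < V := lt_of_lt_of_le (by positivity) hV
  have hK' : (0 : ℝ) < K := by exact_mod_cast hK
  have e : B3 f δ K = fun z : ℝ => 2 / δ * |(∑ j ∈ range K, f ⌊3 ^ j * z⌋) / (K : ℝ)|
      + 4 / δ * ((∑ D ∈ range K, dp f (3 ^ D * z)) / (K : ℝ)) := rfl
  rw [e, av_add V ((sj_bd hf.1 K).abs.cmul (2 / δ)) ((dps3_bd hf.1 hK).cmul (4 / δ)), av_cmul, av_cmul]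
  have h1 : av V (fun y : ℝ => |(∑ j ∈ range K, f ⌊3 ^ j * y⌋) / (K : ℝ)|) ≤ √ (EV f K V) :=
    av_abs_le_sqrt hV0 (sj_bd hf.1 K)
  have hdp : ∀ V : ℝ, 2 ^ R ≤ V → av V (dp f) ≤ C * √ 2 * rho R := by
    intro V hV
    have h2 := hC f hf R hR V hV 0 1 1 (by norm_num)
    have e : (1 + ((0 : ℕ) : ℝ) ^ 2 + ((1 : ℕ) : ℝ)) = 2 := by norm_num
    rw [e] at h2
    simp only [pow_zero, one_mul] at h2
    exact h2
  have h3 : av V (fun z : ℝ => (∑ D ∈ range K, dp f (3 ^ D * z)) / (K : ℝ)) ≤ C * √ 2 * rho R := by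
    have e1 : (fun y : ℝ => (∑ D ∈ range K, dp f (3 ^ D * y)) / (K : ℝ))
        = fun y : ℝ => (1 / K : ℝ) * ∑ D ∈ range K, dp f (3 ^ D * y) := by
      funext y; ring
    have hb : ∀ D ∈ range K, Bd 2 (fun y : ℝ => dp f (3 ^ D * y)) := fun D _ => (dp_bd hf.1).comp (by fun_prop)
    rw [e1, av_cmul, av_sum V hb]
    have h1 : ∀ D ∈ range K, av V (fun y : ℝ => dp f (3 ^ D * y)) ≤ C * √ 2 * rho R := by
      intro D _
      rw [av_scale hV0 (by positivity)]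
      apply hdp
      exact hV.trans (le_mul_of_one_le_left hV0.le (one_le_pow₀ (by norm_num)))
    calc 1 / (K : ℝ) * ∑ D ∈ range K, av V (fun y : ℝ => dp f (3 ^ D * y))
        ≤ 1 / (K : ℝ) * ∑ D ∈ range K, C * √ 2 * rho R := by gcongr with D hD; exact h1 D hD
      _ = C * √ 2 * rho R := by rw [sum_const, card_range, nsmul_eq_mul]; field_simp
  gcongr

theorem good_point3 {S : Set ℤ} {δ : ℝ} (hδ : 0 < δ) {K : ℕ} (hK : 1 ≤ K) {z : ℝ} (hz : 1 ≤ z)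
    (hB : B3 (fun x => S.indicator (fun _ => (1 : ℝ)) x - δ) δ K z < 1) :
    ∃ D : ℕ, D < K ∧ ∃ y : ℤ, 1 ≤ y ∧ y % 3 ≠ 0 ∧ y ∈ S ∧ |(y : ℝ) - 3 ^ D * z| ≤ 1 := by
  classical
  have hK' : (0 : ℝ) < K := by exact_mod_cast hK
  set ind : ℤ → ℝ := S.indicator (fun _ => (1 : ℝ)) with hind
  have hmain : ∃ D : ℕ, D < K ∧ ⌊3 ^ D * z⌋ ∈ S ∧ ⌊3 ^ D * z + 1⌋ ∈ S := by
    by_contra hcon
    push Not at hcon
    have h1 : ∀ D ∈ range K, ind ⌊3 ^ D * z⌋ ≤ dp (fun x => ind x - δ) (3 ^ D * z) := by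
      intro D hD
      have h := hcon D (mem_range.1 hD)
      unfold dp
      by_cases h2 : ⌊3 ^ D * z⌋ ∈ S
      · have h3 := h h2
        have e1 : ind ⌊3 ^ D * z⌋ = 1 := by simp [hind, h2]
        have e2 : ind ⌊3 ^ D * z + 1⌋ = 0 := by rw [hind]; exact Set.indicator_of_notMem h3 _
        simp only [e1, e2]
        rw [show (1 - δ - (0 - δ) : ℝ) = 1 by ring, abs_one]
      · have e1 : ind ⌊3 ^ D * z⌋ = 0 := by rw [hind]; exact Set.indicator_of_notMem h2 _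
        rw [e1]
        exact abs_nonneg _
    have h2 := sum_le_sum h1
    have h3 : (∑ j ∈ range K, (ind ⌊3 ^ j * z⌋ - δ)) / (K : ℝ) = (∑ D ∈ range K, ind ⌊3 ^ D * z⌋) / K - δ := by
      rw [sum_sub_distrib, sum_const, card_range, nsmul_eq_mul, sub_div, mul_div_cancel_left₀ _ hK'.ne']
    unfold B3 at hB
    simp only at hB
    rw [h3] at hB
    set A := |(∑ D ∈ range K, ind ⌊3 ^ D * z⌋) / K - δ| with hA
    set Q := (∑ D ∈ range K, dp (fun x => ind x - δ) (3 ^ D * z)) / K with hQ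
    have hQ0 : 0 ≤ Q := by
      rw [hQ]
      apply div_nonneg _ hK'.le
      exact sum_nonneg fun D _ => abs_nonneg _
    have hA0 : 0 ≤ A := abs_nonneg _
    have h4 : 2 * A + 4 * Q < δ := by
      have : 2 / δ * A + 4 / δ * Q = (2 * A + 4 * Q) / δ := by ring
      rw [this, div_lt_one hδ] at hB
      exact hB
    have h5 : (∑ D ∈ range K, ind ⌊3 ^ D * z⌋) / K ≤ Q := div_le_div_of_nonneg_right h2 hK'.le
    have h6 := neg_abs_le ((∑ D ∈ range K, ind ⌊3 ^ D * z⌋) / K - δ)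
    rw [← hA] at h6
    linarith
  obtain ⟨D, hD, h1, h2⟩ := hmain
  have hl : (1 : ℝ) ≤ 3 ^ D := one_le_pow₀ (by norm_num)
  have hY : 1 ≤ 3 ^ D * z := by nlinarith
  have hfl : 1 ≤ ⌊3 ^ D * z⌋ := Int.le_floor.2 (by exact_mod_cast hY)
  have h3 := Int.floor_le (3 ^ D * z)
  have h4 := Int.lt_floor_add_one (3 ^ D * z)
  rw [show 3 ^ D * z + 1 = 3 ^ D * z + (1 : ℤ) by push_cast; ring, Int.floor_add_intCast] at h2
  by_cases h5 : ⌊3 ^ D * z⌋ % 3 = 0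
  · refine ⟨D, hD, ⌊3 ^ D * z⌋ + 1, by omega, by omega, h2, ?_⟩
    push_cast
    rw [abs_le]; constructor <;> linarith
  · refine ⟨D, hD, ⌊3 ^ D * z⌋, hfl, h5, h1, ?_⟩
    rw [abs_le]; constructor <;> linarith

theorem good_window3 {d : ℤ} (hSt : S_STEER d) {S : Set ℤ} (hS : ∀ x, Tz d x ∈ S ↔ x ∈ S) {δ : ℝ} (hδ : 0 < δ)
    {K p : ℕ} (hK : 1 ≤ K) (hp : p = 4 * K) {y : ℝ} (hy : 2 ^ p ≤ y)
    (hB : B3 (fun x => S.indicator (fun _ => (1 : ℝ)) x - δ) δ K (1 / 2 ^ p * y) < 1) :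
    ∃ M : ℤ, 0 < M ∧ M ∈ S ∧ |(M : ℝ) - y| ≤ 2 * 2 ^ p := by
  obtain ⟨D, hD, x, hx1, hx3, hxS, hx⟩ := good_point3 hδ hK (z := 1 / 2 ^ p * y) (by
    rw [one_div, inv_mul_eq_div, le_div_iff₀ (by positivity), one_mul]; exact hy) hB
  set z : ℝ := 1 / 2 ^ p * y with hz
  have hzy : (2 : ℝ) ^ p * z = y := by rw [hz]; field_simp
  obtain ⟨M, hM0, hM1, hM2⟩ := hSt x D p hx1 hx3 (by omega)
  refine ⟨M, hM0, (iter_mem hS _ M).1 (by rw [hM1]; exact hxS), ?_⟩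
  have hl : (1 : ℝ) ≤ 3 ^ D := one_le_pow₀ (by norm_num)
  have hl0 : (0 : ℝ) < 3 ^ D := by positivity
  have e2 : (2 : ℝ) ^ p * x / 3 ^ D - y = 2 ^ p * ((x - 3 ^ D * z) / 3 ^ D) := by
    rw [← hzy]; field_simp
  have h1 : |(2 : ℝ) ^ p * x / 3 ^ D - y| ≤ 2 ^ p := by
    rw [e2, abs_mul, abs_div, abs_of_pos (by positivity : (0 : ℝ) < 2 ^ p), abs_of_pos hl0]
    have : |(x : ℝ) - 3 ^ D * z| / 3 ^ D ≤ 1 := by rw [div_le_one hl0]; linarith
    calc (2 : ℝ) ^ p * (|(x : ℝ) - 3 ^ D * z| / 3 ^ D) ≤ 2 ^ p * 1 := by gcongr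
      _ = 2 ^ p := mul_one _
  calc |(M : ℝ) - y| = |((M : ℝ) - 2 ^ p * x / 3 ^ D) + (2 ^ p * x / 3 ^ D - y)| := by congr 1; ring
    _ ≤ |(M : ℝ) - 2 ^ p * x / 3 ^ D| + |2 ^ p * x / 3 ^ D - y| := abs_add_le _ _
    _ ≤ 2 ^ p + 2 ^ p := add_le_add hM2 h1
    _ = 2 * 2 ^ p := by ring

/-- one dyadic block -/
theorem win_block {d : ℤ} {C : ℝ}
    (hC : ∀ f : ℤ → ℝ, InvF d f → ∀ R : ℕ, 1 ≤ R → ∀ V : ℝ, 2 ^ R ≤ V →
      ∀ (i u : ℕ) (h : ℝ), |h| ≤ 4 ^ u →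
      av V (fun y => |f ⌊y⌋ - f ⌊3 ^ i * y + h⌋|) ≤ C * √ (1 + (i : ℝ) ^ 2 + u) * rho R)
    (hSt : S_STEER d) {S : Set ℤ} (hS : ∀ x, Tz d x ∈ S ↔ x ∈ S) {δ : ℝ} (hδ : 0 < δ) (hδ1 : δ ≤ 1)
    {K p R M : ℕ} (hK : 1 ≤ K) (hp : p = 4 * K) (hR : 1 ≤ R) {E η : ℝ} (hM : 1 ≤ M) (hRM : 2 ^ R * 2 ^ p ≤ (M : ℝ))
    (hE : 5 * (2 : ℝ) ^ p ≤ E)
    (h1 : 2 / δ * √ (EV (fun x => S.indicator (fun _ => (1 : ℝ)) x - δ) K (1 / 2 ^ p * M)) ≤ η / 4)
    (h2 : 4 / δ * (C * √ 2 * rho R) ≤ η / 4) (h3 : 40 * 2 ^ p / δ ≤ η / 2 * M)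
    [DecidablePred fun n : ℕ => ∀ x : ℕ, n ≤ x → (x : ℝ) ≤ n + E → (x : ℤ) ∉ S] :
    (#{n ∈ Ico M (2 * M) | ∀ x : ℕ, n ≤ x → (x : ℝ) ≤ n + E → (x : ℤ) ∉ S} : ℝ) ≤ η * M := by
  classical
  set f : ℤ → ℝ := fun x => S.indicator (fun _ => (1 : ℝ)) x - δ with hfdef
  have hf : InvF d f := invF_ind hS hδ.le hδ1
  have hM' : (0 : ℝ) < M := by exact_mod_cast hM
  have h2p : (0 : ℝ) < 2 ^ p := by positivity
  have hZR : (2 : ℝ) ^ R ≤ 1 / 2 ^ p * M := by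
    rw [one_div, inv_mul_eq_div, le_div_iff₀ h2p]; exact hRM
  have hBZ : av (1 / 2 ^ p * M) (B3 f δ K) ≤ η / 2 := by
    have := av_B3 hC hf hδ hR hZR hK
    linarith
  set w : ℝ := 2 * 2 ^ p with hw
  have hbd := B3_bd hf.1 hδ hK
  set u : ℝ → ℝ := fun y => B3 f δ K (1 / 2 ^ p * y) with hu
  have hubd : Bd (10 / δ) u := hbd.comp (by fun_prop)
  have hu1 : av M u = av (1 / 2 ^ p * M) (B3 f δ K) := av_scale hM' (by positivity) (B3 f δ K)
  have hshift := av_shift hM' hubd w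
  have hw2 : 2 * |w| * (10 / δ) / M ≤ η / 2 := by
    rw [abs_of_pos (by positivity : 0 < w), hw, div_le_iff₀ hM']
    refine le_trans (le_of_eq ?_) h3
    ring
  set g : ℤ → ℝ := fun n => if (∀ x : ℕ, n.toNat ≤ x → (x : ℝ) ≤ n.toNat + E → (x : ℤ) ∉ S)
    then 1 else 0 with hg
  have hg1 : ∀ x, |g x| ≤ 1 := by
    intro x; simp only [hg]; split_ifs <;> simp
  have havg := av_floor hg1 (N := M) hM
  have hcount : ∑ n ∈ Ico M (2 * M), g n
      = (#{n ∈ Ico M (2 * M) | ∀ x : ℕ, n ≤ x → (x : ℝ) ≤ n + E → (x : ℤ) ∉ S} : ℝ) := by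
    rw [card_filter]
    push_cast
    apply sum_congr rfl
    intro n _
    simp only [hg, Int.toNat_natCast]
  have hcomp : av M (fun y => g ⌊y⌋) ≤ av M (fun y => u (y + w)) := by
    have hmw : Measurable fun y : ℝ => y + w := by fun_prop
    apply av_mono hM' (Bd.fl hg1) (hubd.comp hmw)
    intro y hy1 hy2
    have hu0 : 0 ≤ u (y + w) := by
      simp only [hu]
      unfold B3
      have h1 : 0 ≤ (∑ D ∈ range K, dp f (3 ^ D * (1 / 2 ^ p * (y + w)))) / (K : ℝ) := by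
        apply div_nonneg _ (Nat.cast_nonneg _)
        exact sum_nonneg fun D _ => abs_nonneg _
      positivity
    by_cases hgy : g ⌊y⌋ = 0
    · rw [hgy]; exact hu0
    have hcond : ∀ x : ℕ, ⌊y⌋.toNat ≤ x → (x : ℝ) ≤ ⌊y⌋.toNat + E → (x : ℤ) ∉ S := by
      by_contra hc
      apply hgy
      simp only [hg]
      rw [if_neg hc]
    have hgle : g ⌊y⌋ ≤ 1 := (le_abs_self _).trans (hg1 _)
    refine hgle.trans ?_
    by_contra hlt1
    push Not at hlt1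
    have hPle : (2 : ℝ) ^ p ≤ y + w := by rw [hw]; linarith
    obtain ⟨Q, hQ0, hQS, hQ⟩ := good_window3 hSt hS hδ (p := p) hK hp hPle hlt1
    have hy0 : 0 ≤ ⌊y⌋ := Int.floor_nonneg.2 (by linarith)
    have hfl1 := Int.floor_le y
    have hfl2 := Int.lt_floor_add_one y
    have hn : ((⌊y⌋.toNat : ℕ) : ℝ) = (⌊y⌋ : ℝ) := by
      have : ((⌊y⌋.toNat : ℕ) : ℤ) = ⌊y⌋ := Int.toNat_of_nonneg hy0
      exact_mod_cast this
    have hMn : ((Q.toNat : ℕ) : ℤ) = Q := Int.toNat_of_nonneg hQ0.le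
    have hMr : ((Q.toNat : ℕ) : ℝ) = (Q : ℝ) := by exact_mod_cast hMn
    rw [abs_le] at hQ
    have h2p1 : (1 : ℝ) ≤ 2 ^ p := one_le_pow₀ (by norm_num)
    refine hcond Q.toNat ?_ ?_ (by rw [hMn]; exact hQS)
    · have : ((⌊y⌋.toNat : ℕ) : ℝ) ≤ (Q.toNat : ℕ) := by
        rw [hn, hMr]
        rw [hw] at hQ
        linarith [hQ.1]
      exact_mod_cast this
    · rw [hn, hMr]
      rw [hw] at hQ
      linarith [hQ.2]
  have hfin : (∑ n ∈ Ico M (2 * M), g n) / M ≤ η := by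
    rw [← havg]
    have h1 := (abs_le.1 hshift).2
    rw [hu1] at h1
    linarith
  rw [← hcount]
  rwa [div_le_iff₀ hM'] at hfin

theorem win3 (d : ℤ) (hd : d = 1 ∨ d = -1) (h : S_EN3 d) : S_WIN3 d := by
  classical
  intro S hS hex ε hε
  obtain ⟨δ, hδ, hδ1, hmz⟩ := dens hd S hS hex
  obtain ⟨C, hCpos, hC⟩ := ci d hd
  have hSt := steer hd
  set f : ℤ → ℝ := fun x => S.indicator (fun _ => (1 : ℝ)) x - δ with hfdef
  have hf : InvF d f := invF_ind hS hδ.le hδ1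
  obtain ⟨A1, V0, hA1, hV0, hen⟩ := h f hf hmz ((δ * (ε / 16) / 8) ^ 2) (by positivity)
  obtain ⟨A, hA⟩ : ∃ A : ℝ, A = 3 * A1 + 12 := ⟨_, rfl⟩
  -- eventual conditions
  have hN : Tendsto (fun N : ℕ => (N : ℝ)) atTop atTop := tendsto_natCast_atTop_atTop
  have hlog : Tendsto (fun N : ℕ => Real.log N) atTop atTop := Real.tendsto_log_atTop.comp hN
  have hsl : Tendsto (fun N : ℕ => √ (Real.log N)) atTop atTop :=
    Real.tendsto_sqrt_atTop.comp hlog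
  have hsN : Tendsto (fun N : ℕ => √ (N : ℝ)) atTop atTop := Real.tendsto_sqrt_atTop.comp hN
  have hRt : Tendsto (fun N : ℕ => Nat.log 2 ⌊ε / 16 * √ (N : ℝ)⌋₊) atTop atTop := by
    have h2 : Tendsto (fun N : ℕ => Nat.log 2 N) atTop atTop := by
      apply tendsto_atTop.2
      intro b
      filter_upwards [eventually_ge_atTop (2 ^ b)] with N hN
      exact (Nat.le_log_iff_pow_le (by norm_num) (by have := Nat.one_le_two_pow (n := b); omega)).2 hN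
    exact h2.comp (tendsto_nat_floor_atTop.comp (hsN.const_mul_atTop (by positivity)))
  have hrho : Tendsto (fun N : ℕ => 4 / δ * (C * √ 2 * rho (Nat.log 2 ⌊ε / 16 * √ (N : ℝ)⌋₊))) atTop (𝓝 0) := by
    have := ((rho_tendsto.comp hRt).const_mul (C * √ 2)).const_mul (4 / δ)
    rw [mul_zero, mul_zero] at this
    exact this
  obtain ⟨N0, hN0⟩ := eventually_atTop.1 ((hsl.eventually_ge_atTop 1).and
    ((hsl.eventually_ge_atTop (2 * A)).and ((hsl.eventually_ge_atTop (2 * A1 + 4)).and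
    ((hlog.eventually_ge_atTop (4 * Real.log (16 / ε))).and
    ((hsN.eventually_ge_atTop (16 / ε * V0)).and ((hsN.eventually_ge_atTop (80 / (δ * (ε / 16) * (ε / 16)))).and
    ((hN.eventually_ge_atTop (32 / ε)).and ((hRt.eventually_ge_atTop 1).and
    ((hrho.eventually (eventually_le_nhds (show (0 : ℝ) < ε / 16 / 4 by positivity))).and
    ((eventually_ge_atTop 1).and (hsN.eventually_ge_atTop (16 / ε))))))))))))
  refine ⟨A, N0, by rw [hA]; positivity, fun N hNN => ?_⟩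
  obtain ⟨c1, c2, c3, c4, c5, c6, c7, c8, c9, c10, c11⟩ := hN0 N hNN
  have hN' : (0 : ℝ) < N := by exact_mod_cast c10
  obtain ⟨s, hs⟩ : ∃ s, s = √ (Real.log N) := ⟨_, rfl⟩
  have hlog0 : 0 ≤ Real.log N := Real.log_natCast_nonneg N
  have hs2 : s * s = Real.log N := by rw [hs]; exact Real.mul_self_sqrt hlog0
  rw [← hs] at c1 c2 c3 ⊢
  obtain ⟨K, hK⟩ : ∃ K : ℕ, K = ⌈A1 * s⌉₊ + 1 := ⟨_, rfl⟩
  have hK1 : 1 ≤ K := by omega
  have hKge : A1 * s ≤ K := by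
    rw [hK]; push_cast
    have := Nat.le_ceil (A1 * s)
    linarith
  have hKle : (K : ℝ) ≤ A1 * s + 2 := by
    rw [hK]; push_cast
    have := (Nat.ceil_lt_add_one (show 0 ≤ A1 * s by positivity)).le
    linarith
  obtain ⟨p, hp⟩ : ∃ p : ℕ, p = 4 * K := ⟨_, rfl⟩
  have hpr : (p : ℝ) = 4 * K := by rw [hp]; push_cast; ring
  -- the length of the windows
  have h2exp : (2 : ℝ) ≤ Real.exp 0.7 := by
    rw [← Real.log_le_iff_le_exp (by norm_num)]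
    have := Real.log_two_lt_d9
    linarith
  have h2p : (2 : ℝ) ^ p ≤ Real.exp (0.7 * p) := by
    calc (2 : ℝ) ^ p ≤ (Real.exp 0.7) ^ p := pow_le_pow_left₀ (by norm_num) h2exp p
      _ = Real.exp (0.7 * p) := by rw [← Real.exp_nat_mul]; congr 1; ring
  obtain ⟨E, hE⟩ : ∃ E, E = Real.exp (A * s) := ⟨_, rfl⟩
  rw [← hE]
  have h5p : 5 * (2 : ℝ) ^ p ≤ E := by
    have e1 : (5 : ℝ) ≤ Real.exp 2.1 := by
      calc (5 : ℝ) ≤ 2 ^ 3 := by norm_num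
        _ ≤ (Real.exp 0.7) ^ 3 := pow_le_pow_left₀ (by norm_num) h2exp 3
        _ = Real.exp 2.1 := by rw [← Real.exp_nat_mul]; norm_num
    calc 5 * (2 : ℝ) ^ p ≤ Real.exp 2.1 * Real.exp (0.7 * p) := mul_le_mul e1 h2p (by positivity) (by positivity)
      _ = Real.exp (2.1 + 0.7 * p) := (Real.exp_add _ _).symm
      _ ≤ Real.exp (A * s) := by
          apply Real.exp_le_exp.mpr
          rw [hpr, hA]
          have : 0 ≤ A1 * s := by positivity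
          nlinarith
      _ = E := hE.symm
  have hE2 : E ≤ √ (N : ℝ) := by
    apply Real.le_sqrt_of_sq_le
    rw [hE, ← Real.exp_nat_mul]
    calc Real.exp ((2 : ℕ) * (A * s)) ≤ Real.exp (Real.log N) := by
          apply Real.exp_le_exp.mpr
          push_cast
          rw [← hs2]
          nlinarith
      _ = N := Real.exp_log hN'
  have h2pE : (2 : ℝ) ^ p ≤ √ (N : ℝ) := by
    have : (0 : ℝ) < 2 ^ p := by positivity
    linarith
  have hsqN : √ (N : ℝ) * √ (N : ℝ) = N := Real.mul_self_sqrt hN'.le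
  have hsqN0 : 0 < √ (N : ℝ) := Real.sqrt_pos.2 hN'
  obtain ⟨R, hR⟩ : ∃ R : ℕ, R = Nat.log 2 ⌊ε / 16 * √ (N : ℝ)⌋₊ := ⟨_, rfl⟩
  rw [← hR] at c8 c9
  have hRle : (2 : ℝ) ^ R ≤ ε / 16 * √ (N : ℝ) := by
    have h1 : 1 ≤ ε / 16 * √ (N : ℝ) := by
      rw [div_le_iff₀ hε] at c11
      linarith
    have h2 : ⌊ε / 16 * √ (N : ℝ)⌋₊ ≠ 0 := by
      have := Nat.le_floor (show ((1 : ℕ) : ℝ) ≤ ε / 16 * √ (N : ℝ) by exact_mod_cast h1)
      omega
    have h3 : 2 ^ R ≤ ⌊ε / 16 * √ (N : ℝ)⌋₊ := by rw [hR]; exact Nat.pow_log_le_self 2 h2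
    have h4 : ((2 ^ R : ℕ) : ℝ) ≤ (⌊ε / 16 * √ (N : ℝ)⌋₊ : ℝ) := by exact_mod_cast h3
    have h5 := Nat.floor_le (show 0 ≤ ε / 16 * √ (N : ℝ) by positivity)
    push_cast at h4
    linarith
  obtain ⟨N1, hN1def⟩ : ∃ N1 : ℕ, N1 = ⌈ε / 16 * N⌉₊ := ⟨_, rfl⟩
  have hN1a : ε / 16 * N ≤ N1 := by rw [hN1def]; exact Nat.le_ceil _
  have hN1b : (N1 : ℝ) ≤ ε / 16 * N + 1 := by rw [hN1def]; exact (Nat.ceil_lt_add_one (by positivity)).le
  have hdy := icc_of_dyadic (P := fun n : ℕ => ∀ x : ℕ, n ≤ x → (x : ℝ) ≤ n + E → (x : ℤ) ∉ S)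
    (N := N) (N1 := N1) (η := ε / 16) (by positivity) (by
      intro M hM1 hM2
      have hMr1 : ε / 16 * N ≤ M := hN1a.trans (by exact_mod_cast hM1)
      have hMr2 : (M : ℝ) ≤ N := by exact_mod_cast hM2
      have hM' : (0 : ℝ) < M := lt_of_lt_of_le (by positivity) hMr1
      have hM0 : 1 ≤ M := by exact_mod_cast hM'
      have h2p0 : (0 : ℝ) < 2 ^ p := by positivity
      have hVge : ε / 16 * √ (N : ℝ) ≤ 1 / 2 ^ p * M := by
        rw [one_div, inv_mul_eq_div, le_div_iff₀ h2p0]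
        calc ε / 16 * √ (N : ℝ) * 2 ^ p ≤ ε / 16 * √ (N : ℝ) * √ (N : ℝ) := by gcongr
          _ = ε / 16 * N := by rw [mul_assoc, hsqN]
          _ ≤ M := hMr1
      have hVle : 1 / 2 ^ p * (M : ℝ) ≤ N := by
        rw [one_div, inv_mul_eq_div]
        exact (div_le_self hM'.le (one_le_pow₀ (by norm_num))).trans hMr2
      have hVpos : 0 < 1 / 2 ^ p * (M : ℝ) := by positivity
      refine win_block hC hSt hS hδ hδ1 hK1 hp c8 hM0 ?_ h5p ?_ c9 ?_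
      · calc (2 : ℝ) ^ R * 2 ^ p ≤ (ε / 16 * √ (N : ℝ)) * √ (N : ℝ) := by gcongr
          _ = ε / 16 * N := by rw [mul_assoc, hsqN]
          _ ≤ M := hMr1
      · have hE3 : EV f K (1 / 2 ^ p * M) ≤ (δ * (ε / 16) / 8) ^ 2 := by
          refine hen _ ?_ K ?_ ?_
          · have : 16 / ε * V0 * (ε / 16) = V0 := by field_simp
            calc V0 = 16 / ε * V0 * (ε / 16) := this.symm
              _ ≤ √ (N : ℝ) * (ε / 16) := by gcongr
              _ = ε / 16 * √ (N : ℝ) := mul_comm _ _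
              _ ≤ _ := hVge
          · calc A1 * √ (Real.log (1 / 2 ^ p * M)) ≤ A1 * √ (Real.log N) := by
                  gcongr
              _ = A1 * s := by rw [hs]
              _ ≤ K := hKge
          · have h1 : Real.log (ε / 16 * √ (N : ℝ)) ≤ Real.log (1 / 2 ^ p * M) :=
              Real.log_le_log (by positivity) hVge
            rw [Real.log_mul (by positivity) hsqN0.ne', Real.log_sqrt hN'.le] at h1
            have h3 : Real.log (ε / 16) = -Real.log (16 / ε) := by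
              rw [← Real.log_inv]; congr 1; field_simp
            rw [h3] at h1
            have h4 : (K : ℝ) ≤ Real.log N / 2 := by
              rw [← hs2]
              have : (K : ℝ) ≤ (A1 + 2) * s := by nlinarith
              have h5 : (A1 + 2) * s ≤ s / 2 * s := by
                apply mul_le_mul_of_nonneg_right _ (by linarith)
                linarith
              linarith
            linarith
        have hsq : √ (EV f K (1 / 2 ^ p * M)) ≤ δ * (ε / 16) / 8 := by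
          have := Real.sqrt_le_sqrt hE3
          rwa [Real.sqrt_sq (by positivity)] at this
        calc 2 / δ * √ (EV f K (1 / 2 ^ p * M)) ≤ 2 / δ * (δ * (ε / 16) / 8) := by gcongr
          _ = ε / 16 / 4 := by field_simp; norm_num
      · -- the shift
        have h1 : 80 / (δ * (ε / 16) * (ε / 16)) * (2 : ℝ) ^ p ≤ N := by
          calc 80 / (δ * (ε / 16) * (ε / 16)) * (2 : ℝ) ^ p ≤ √ (N : ℝ) * √ (N : ℝ) := by gcongr
            _ = N := hsqN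
        have h3 : 40 * (2 : ℝ) ^ p / δ = ε / 16 / 2 * (ε / 16 * (80 / (δ * (ε / 16) * (ε / 16)) * (2 : ℝ) ^ p)) := by
          field_simp
          norm_num
        rw [h3]
        have h4 : ε / 16 * (80 / (δ * (ε / 16) * (ε / 16)) * (2 : ℝ) ^ p) ≤ ε / 16 * N := by gcongr
        exact mul_le_mul_of_nonneg_left (h4.trans hMr1) (by positivity))
  have hN8' : 32 ≤ ε * N := by
    rw [div_le_iff₀ hε] at c7
    linarith
  refine hdy.trans ?_
  have hN1r : (1 : ℝ) ≤ N := by exact_mod_cast c10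
  have hεN : ε ≤ ε * N := le_mul_of_one_le_right hε.le hN1r
  linarith

end Pool.Agent.KS6_24.ST
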