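import Mathlib
import Pool.Agent.KS6_24.ST.Win3
import Pool.Agent.KS6_24.LN.Cnt

/-! The number of members in all windows longer than `exp (A √ (log N))`. -/

set_option autoImplicit false

namespace Pool.Agent.KS6_24.ST

open Pool.Agent.H499R2.CO Pool.Agent.Y965.SI Finset Filter Topology Pool.Agent.KS6_24.LN

open Classical in
/-- SHARP COUNTS: for all but `ε N` of the `n ≤ N` ALL the intervals `[n, n + L]` with
`exp (A √ (log N)) ≤ L ≤ N` contain at least `L / exp (A √ (log N))` members of `S`. -/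
def S_CNT3 (d : ℤ) : Prop := ∀ S : Set ℤ, (∀ x, Tz d x ∈ S ↔ x ∈ S) → (∃ x ∈ S, 0 < x) → ∀ ε : ℝ, 0 < ε →
  ∃ (A : ℝ) (N0 : ℕ), 0 < A ∧ ∀ N : ℕ, N0 ≤ N →
    (({n ∈ Icc 1 N | ∃ L : ℕ, Real.exp (A * √ (Real.log N)) ≤ L ∧ L ≤ N ∧
      (cnt S n L : ℝ) < L / Real.exp (A * √ (Real.log N))}.card : ℕ) : ℝ) ≤ ε * N

open Classical in
theorem count_fixed {S : Set ℤ} {W N : ℕ} (hW1 : 1 ≤ W) :
    #{n ∈ Icc 1 N | ∃ L : ℕ, 2 * W ≤ L ∧ L ≤ N ∧ 8 * W * cnt S n L < L}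
      ≤ 2 * #{n ∈ Icc 1 (2 * N) | ∀ x : ℕ, n ≤ x → x ≤ n + W → (x : ℤ) ∉ S} := by
  obtain ⟨B, hB⟩ : ∃ B : Finset ℕ, B = {n ∈ Icc 1 (2 * N) | ∀ x : ℕ, n ≤ x → x ≤ n + W → (x : ℤ) ∉ S} :=
    ⟨_, rfl⟩
  rw [← hB]
  have h2 := maximal_aux B (N + 1) (N + 1 - 1) 1 le_rfl
  have h3 : #{b ∈ B | 1 ≤ b} ≤ #B := card_filter_le _ _
  have h4 : #{n ∈ Icc 1 N | ∃ L : ℕ, 2 * W ≤ L ∧ L ≤ N ∧ 8 * W * cnt S n L < L}
      ≤ #{n ∈ Ico 1 (N + 1) | ∃ L : ℕ, 1 ≤ L ∧ L ≤ 2 * #{b ∈ B | n ≤ b ∧ b < n + L}} := by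
    apply card_le_card
    intro n hn
    simp only [mem_filter, mem_Ico, mem_Icc] at hn ⊢
    refine ⟨by omega, ?_⟩
    obtain ⟨⟨hn1, hnN⟩, L, hL1, hL2, hL3⟩ := hn
    by_contra hcon
    push Not at hcon
    -- the good starting points
    set L' := L - W with hL'
    have hL'1 : 1 ≤ L' := by omega
    have h5 := hcon L' hL'1
    set G := {b ∈ Ico n (n + L') | b ∉ B} with hG
    have h6 : #{b ∈ B | n ≤ b ∧ b < n + L'} + #G = L' := by
      have h7 : #{b ∈ Ico n (n + L') | b ∈ B} + #G = #(Ico n (n + L')) := by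
        rw [hG, card_filter_add_card_filter_not]
      have h8 : {b ∈ B | n ≤ b ∧ b < n + L'} = {b ∈ Ico n (n + L') | b ∈ B} := by
        ext b
        simp only [mem_filter, mem_Ico]
        tauto
      rw [h8, h7, Nat.card_Ico]
      omega
    have hmem : ∀ b ∈ G, ∃ x : ℕ, b ≤ x ∧ x ≤ b + W ∧ (x : ℤ) ∈ S := by
      intro b hb
      rw [hG, mem_filter, mem_Ico] at hb
      obtain ⟨⟨hb1, hb2⟩, hbB⟩ := hb
      rw [hB, mem_filter, mem_Icc] at hbB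
      have hb3 : 1 ≤ b ∧ b ≤ 2 * N := by omega
      have hb4 : ¬ ∀ x : ℕ, b ≤ x → x ≤ b + W → (x : ℤ) ∉ S := fun h0 => hbB ⟨hb3, h0⟩
      push Not at hb4
      obtain ⟨x, hx1, hx2, hx3⟩ := hb4
      exact ⟨x, hx1, hx2, hx3⟩
    choose! g hg1 hg2 hg3 using hmem
    have h9 : #G ≤ (W + 1) * cnt S n L := by
      unfold cnt
      refine card_le_mul_card_image_of_maps_to (f := g) ?_ (W + 1) ?_
      · intro b hb
        have hbG := hb
        rw [hG, mem_filter, mem_Ico] at hb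
        rw [mem_filter, mem_Icc]
        have := hg1 b hbG
        have := hg2 b hbG
        exact ⟨⟨by omega, by omega⟩, hg3 b hbG⟩
      · intro x hx
        have h10 : {b ∈ G | g b = x} ⊆ Icc (x - W) x := by
          intro b hb
          rw [mem_filter] at hb
          have := hg1 b hb.1
          have := hg2 b hb.1
          rw [mem_Icc]
          have := hb.2
          omega
        refine (card_le_card h10).trans ?_
        rw [Nat.card_Icc]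
        omega
    have h11 : (W + 1) * cnt S n L ≤ 2 * W * cnt S n L := Nat.mul_le_mul_right _ (by omega)
    have h12 : 8 * W * cnt S n L = 4 * (2 * W * cnt S n L) := by ring
    omega
  omega

theorem cnt3 (d : ℤ) (hd : d = 1 ∨ d = -1) (h : S_EN3 d) : S_CNT3 d := by
  classical
  intro S hS hex ε hε
  obtain ⟨A, N0, hA, hw⟩ := win3 d hd h S hS hex (ε / 4) (by positivity)
  have hN : Tendsto (fun N : ℕ => (N : ℝ)) atTop atTop := tendsto_natCast_atTop_atTop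
  have hlog : Tendsto (fun N : ℕ => Real.log N) atTop atTop := Real.tendsto_log_atTop.comp hN
  have hsl : Tendsto (fun N : ℕ => √ (Real.log N)) atTop atTop :=
    Real.tendsto_sqrt_atTop.comp hlog
  obtain ⟨N1, hN1⟩ := eventually_atTop.1 ((hsl.eventually_ge_atTop 1).and (eventually_ge_atTop 1))
  refine ⟨2 * A + 3, max N0 N1, by positivity, fun N hNN => ?_⟩
  obtain ⟨c1, c2⟩ := hN1 N ((le_max_right _ _).trans hNN)
  have hN' : (0 : ℝ) < N := by exact_mod_cast c2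
  have h2N := hw (2 * N) (by have := (le_max_left N0 N1).trans hNN; omega)
  obtain ⟨s, hs⟩ : ∃ s, s = √ (Real.log N) := ⟨_, rfl⟩
  obtain ⟨E, hE⟩ : ∃ E, E = Real.exp (A * √ (Real.log (2 * N : ℕ))) := ⟨_, rfl⟩
  rw [← hE] at h2N
  rw [← hs] at c1 ⊢
  have hlog1 : 1 ≤ Real.log N := by
    have hlog0 : 0 ≤ Real.log N := Real.log_natCast_nonneg N
    have : s * s = Real.log N := by rw [hs]; exact Real.mul_self_sqrt hlog0
    nlinarith
  have hE1 : 1 ≤ E := by rw [hE]; exact Real.one_le_exp (by positivity)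
  have hE2 : E ≤ Real.exp (2 * A * s) := by
    rw [hE]
    apply Real.exp_le_exp.mpr
    have e1 : Real.log (2 * N : ℕ) ≤ 4 * Real.log N := by
      push_cast
      rw [Real.log_mul (by norm_num) hN'.ne']
      have := Real.log_two_lt_d9
      linarith
    have e2 : √ (Real.log (2 * N : ℕ)) ≤ 2 * s := by
      have hs4 : √ (4 * Real.log N) = 2 * s := by
        rw [Real.sqrt_mul (by norm_num), show (4 : ℝ) = 2 ^ 2 by norm_num, Real.sqrt_sq (by norm_num), hs]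
      rw [← hs4]
      exact Real.sqrt_le_sqrt e1
    calc A * √ (Real.log (2 * N : ℕ)) ≤ A * (2 * s) := by gcongr
      _ = 2 * A * s := by ring
  obtain ⟨W, hW⟩ : ∃ W : ℕ, W = ⌈E⌉₊ := ⟨_, rfl⟩
  have hWE : E ≤ W := by rw [hW]; exact Nat.le_ceil E
  have hWE2 : (W : ℝ) ≤ E + 1 := by rw [hW]; exact (Nat.ceil_lt_add_one (by linarith)).le
  have hW1 : 1 ≤ W := by
    have : (1 : ℝ) ≤ W := by linarith
    exact_mod_cast this
  obtain ⟨Q, hQ⟩ : ∃ Q, Q = Real.exp ((2 * A + 3) * s) := ⟨_, rfl⟩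
  rw [← hQ]
  have hQW : 8 * (W : ℝ) ≤ Q := by
    have e1 : (16 : ℝ) ≤ Real.exp 3 := by
      have h6 : Real.exp 3 = Real.exp 1 ^ 3 := by rw [← Real.exp_nat_mul]; norm_num
      have h7 := Real.exp_one_gt_d9
      have h8 : (2.6 : ℝ) ^ 3 ≤ Real.exp 1 ^ 3 := pow_le_pow_left₀ (by norm_num) (by linarith) 3
      rw [h6]
      norm_num at h8
      linarith
    calc 8 * (W : ℝ) ≤ 16 * E := by linarith
      _ ≤ Real.exp 3 * Real.exp (2 * A * s) := mul_le_mul e1 hE2 (by linarith) (by positivity)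
      _ = Real.exp (3 + 2 * A * s) := (Real.exp_add _ _).symm
      _ ≤ Q := by
          rw [hQ]
          apply Real.exp_le_exp.mpr
          nlinarith
  have hQ0 : 0 < Q := by rw [hQ]; exact Real.exp_pos _
  have hcf := count_fixed (S := S) (W := W) (N := N) hW1
  -- the bad sets
  have hbad : #{n ∈ Icc 1 (2 * N) | ∀ x : ℕ, n ≤ x → x ≤ n + W → (x : ℤ) ∉ S}
      ≤ #{n ∈ Icc 1 (2 * N) | ∀ x : ℕ, n ≤ x → (x : ℝ) ≤ n + E → (x : ℤ) ∉ S} := by
    apply card_le_card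
    intro n hn
    rw [mem_filter] at hn ⊢
    refine ⟨hn.1, fun x hx1 hx2 => hn.2 x hx1 ?_⟩
    have : (x : ℝ) ≤ ((n + W : ℕ) : ℝ) := by push_cast; linarith
    exact_mod_cast this
  have hinc : #{n ∈ Icc 1 N | ∃ L : ℕ, Q ≤ L ∧ L ≤ N ∧ (cnt S n L : ℝ) < L / Q}
      ≤ #{n ∈ Icc 1 N | ∃ L : ℕ, 2 * W ≤ L ∧ L ≤ N ∧ 8 * W * cnt S n L < L} := by
    apply card_le_card
    intro n hn
    rw [mem_filter] at hn ⊢
    obtain ⟨hn1, L, hL1, hL2, hL3⟩ := hn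
    refine ⟨hn1, L, ?_, hL2, ?_⟩
    · have : ((2 * W : ℕ) : ℝ) ≤ L := by
        push_cast
        have : (0 : ℝ) ≤ W := Nat.cast_nonneg _
        linarith
      exact_mod_cast this
    · rw [lt_div_iff₀ hQ0] at hL3
      have h6 : ((8 * W * cnt S n L : ℕ) : ℝ) < L := by
        push_cast
        have h7 : (0 : ℝ) ≤ cnt S n L := Nat.cast_nonneg _
        nlinarith
      exact_mod_cast h6
  have hfin : #{n ∈ Icc 1 N | ∃ L : ℕ, Q ≤ L ∧ L ≤ N ∧ (cnt S n L : ℝ) < L / Q}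
      ≤ 2 * #{n ∈ Icc 1 (2 * N) | ∀ x : ℕ, n ≤ x → (x : ℝ) ≤ n + E → (x : ℤ) ∉ S} :=
    hinc.trans (hcf.trans (Nat.mul_le_mul_left 2 hbad))
  have hfin' : (#{n ∈ Icc 1 N | ∃ L : ℕ, Q ≤ L ∧ L ≤ N ∧ (cnt S n L : ℝ) < L / Q} : ℝ)
      ≤ 2 * (#{n ∈ Icc 1 (2 * N) | ∀ x : ℕ, n ≤ x → (x : ℝ) ≤ n + E → (x : ℤ) ∉ S} : ℝ) := by
    exact_mod_cast hfin
  refine hfin'.trans ?_
  push_cast at h2N
  linarith

end Pool.Agent.KS6_24.ST
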