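import Pool.Agent.KS6_24.ST.JT2

/-!
PROJECT KL: independent colours on the positions of coalescing walks.
-/

set_option autoImplicit false

namespace Pool.Agent.KS6_24.ST

open Finset Filter Topology

namespace Col

variable {ι : Type*} {k : ℕ}

open Classical in
/-- Independent colours of law `μ` on the positions: the probability that the walker `a` gets the colour `c a`, for all `a`. -/
noncomputable def colour (μ : ι → ℝ) (c : Fin k → ι) (x : Fin k → ℤ) : ℝ :=
  ∏ z ∈ univ.image x, ∑' v : ι, if ∀ a, x a = z → c a = v then μ v else 0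

/-- products of a distribution of mass `m` -/
theorem hasSum_pi {μ : ι → ℝ} {m : ℝ} (h0 : ∀ a, 0 ≤ μ a) (h1 : HasSum μ m) (k : ℕ) :
    HasSum (fun c : Fin k → ι => ∏ a, μ (c a)) (m ^ k) := by
  induction k with
  | zero =>
    have : (fun c : Fin 0 → ι => ∏ a, μ (c a)) = fun _ => (1 : ℝ) := by funext c; simp
    rw [this, pow_zero]
    exact hasSum_unique (fun _ : Fin 0 → ι => (1 : ℝ))
  | succ k ih =>
    obtain ⟨G, hG⟩ : ∃ G : (Fin k → ι) → ℝ, G = fun c => ∏ a, μ (c a) := ⟨_, rfl⟩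
    rw [← hG] at ih
    have hG0 : 0 ≤ G := by
      intro c
      rw [hG]
      exact Finset.prod_nonneg fun a _ => h0 _
    have h2 : Summable (fun x : ι × (Fin k → ι) => μ x.1 * G x.2) :=
      Summable.mul_of_nonneg h1.summable ih.summable h0 hG0
    have h3 : HasSum (fun x : ι × (Fin k → ι) => μ x.1 * G x.2) (m * m ^ k) := HasSum.mul h1 ih h2
    rw [pow_succ', ← (Fin.consEquiv (fun _ : Fin (k + 1) => ι)).hasSum_iff]
    convert h3 using 1
    funext x
    simp only [Function.comp, Fin.consEquiv, Equiv.coe_fn_mk, Fin.prod_univ_succ, Fin.cons_zero, Fin.cons_succ, hG]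

theorem hasSum_pi' {κ : Type*} [Fintype κ] {μ : ι → ℝ} {m : ℝ} (h0 : ∀ a, 0 ≤ μ a) (h1 : HasSum μ m) :
    HasSum (fun c : κ → ι => ∏ a, μ (c a)) (m ^ Fintype.card κ) := by
  classical
  obtain ⟨e⟩ : Nonempty (κ ≃ Fin (Fintype.card κ)) := ⟨Fintype.equivFin κ⟩
  have h2 := hasSum_pi h0 h1 (Fintype.card κ)
  rw [← (Equiv.arrowCongr e (Equiv.refl ι)).hasSum_iff] at h2
  convert h2 using 1
  funext c
  simp only [Function.comp, Equiv.arrowCongr_apply, Equiv.coe_refl, id]
  exact (Equiv.prod_comp e.symm (fun a => μ (c a))).symm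

open Classical in
/-- the factor of a block -/
theorem blk (μ : ι → ℝ) (c : Fin k → ι) (x : Fin k → ℤ) (a : Fin k) :
    (∑' v : ι, if ∀ b, x b = x a → c b = v then μ v else 0) = if ∀ b, x b = x a → c b = c a then μ (c a) else 0 := by
  rw [tsum_eq_single (c a)]
  intro v hv
  rw [if_neg]
  intro h
  exact hv (h a rfl).symm

theorem colour_nonneg {μ : ι → ℝ} (h0 : ∀ a, 0 ≤ μ a) (c : Fin k → ι) (x : Fin k → ℤ) : 0 ≤ colour μ c x := by
  classical
  unfold colour
  apply prod_nonneg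
  intro z _
  apply tsum_nonneg
  intro v
  split_ifs
  · exact h0 v
  · exact le_rfl

/-- the colours have total mass `m ^ (number of blocks)` -/
theorem hasSum_colour {μ : ι → ℝ} {m : ℝ} (h0 : ∀ a, 0 ≤ μ a) (h1 : HasSum μ m) (x : Fin k → ℤ) :
    HasSum (fun c : Fin k → ι => colour μ c x) (m ^ #(univ.image x)) := by
  classical
  obtain ⟨φ, hφ⟩ : ∃ φ : ({z // z ∈ univ.image x} → ι) → (Fin k → ι),
      φ = fun g a => g ⟨x a, mem_image_of_mem x (mem_univ a)⟩ := ⟨_, rfl⟩
  have hinj : Function.Injective φ := by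
    intro g g' h
    funext z
    obtain ⟨z, hz⟩ := z
    have hz' := hz
    rw [mem_image] at hz'
    obtain ⟨a, _, ha⟩ := hz'
    have h2 := congrFun h a
    rw [hφ] at h2
    simp only at h2
    have e : (⟨x a, mem_image_of_mem x (mem_univ a)⟩ : {z // z ∈ univ.image x}) = ⟨z, hz⟩ := Subtype.ext ha
    rw [e] at h2
    exact h2
  have h2 : HasSum (fun g : {z // z ∈ univ.image x} → ι => ∏ z ∈ (univ.image x).attach, μ (g z)) (m ^ #(univ.image x)) := by
    have h3 := @hasSum_pi' ι {z // z ∈ univ.image x} (Finset.fintypeCoeSort (univ.image x)) μ m h0 h1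
    rw [Fintype.card_coe] at h3
    exact h3
  rw [← hinj.hasSum_iff]
  · convert h2 using 1
    funext g
    show colour μ (φ g) x = ∏ z ∈ (univ.image x).attach, μ (g z)
    unfold colour
    rw [← prod_attach (univ.image x) (fun z => ∑' v : ι, if ∀ a, x a = z → φ g a = v then μ v else 0)]
    apply prod_congr rfl
    intro z _
    obtain ⟨z, hz⟩ := z
    have hz' := hz
    rw [mem_image] at hz'
    obtain ⟨a, _, rfl⟩ := hz'
    show (∑' v : ι, if ∀ b, x b = x a → φ g b = v then μ v else 0) = μ (g ⟨x a, hz⟩)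
    rw [blk, if_pos]
    · rw [hφ]
    · intro b hb
      rw [hφ]
      simp only
      congr 1
      exact Subtype.ext hb
  · intro c hc
    by_contra hne
    apply hc
    unfold colour at hne
    have h3 : ∀ z ∈ univ.image x, (∑' v : ι, if ∀ a, x a = z → c a = v then μ v else 0) ≠ 0 := by
      intro z hz h
      exact hne (prod_eq_zero hz h)
    refine ⟨fun z => c (Finset.mem_image.1 z.2).choose, ?_⟩
    funext a
    rw [hφ]
    simp only
    have hz := mem_image_of_mem x (mem_univ a)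
    have h5 := (Finset.mem_image.1 hz).choose_spec.2
    have h4 := h3 (x a) hz
    rw [blk] at h4
    have h6 : ∀ b, x b = x a → c b = c a := by
      by_contra h7
      rw [if_neg h7] at h4
      exact h4 rfl
    exact h6 _ h5

/-- finitely many colours -/
theorem sum_colour {μ : ι → ℝ} (h0 : ∀ a, 0 ≤ μ a) [DecidableEq ι] (F : Finset ι) (x : Fin k → ℤ) :
    ∑ c ∈ Fintype.piFinset (fun _ : Fin k => F), colour μ c x = (∑ v ∈ F, μ v) ^ #(univ.image x) := by
  obtain ⟨μ', hμ'⟩ : ∃ μ' : ι → ℝ, μ' = fun v => if v ∈ F then μ v else 0 := ⟨_, rfl⟩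
  have h0' : ∀ a, 0 ≤ μ' a := by
    intro a; rw [hμ']; simp only; split_ifs
    · exact h0 a
    · exact le_rfl
  have h1 : HasSum μ' (∑ v ∈ F, μ v) := by
    have h2 : ∑ v ∈ F, μ v = ∑ v ∈ F, μ' v := by
      apply sum_congr rfl
      intro v hv
      rw [hμ']; simp only [hv, if_true]
    rw [h2]
    apply hasSum_sum_of_ne_finset_zero
    intro v hv
    rw [hμ']; simp only [hv, if_false]
  have h2 := hasSum_colour h0' h1 x
  have h3 : ∀ c : Fin k → ι, c ∉ Fintype.piFinset (fun _ : Fin k => F) → colour μ' c x = 0 := by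
    intro c hc
    rw [Fintype.mem_piFinset] at hc
    push Not at hc
    obtain ⟨a, ha⟩ := hc
    unfold colour
    apply prod_eq_zero (mem_image_of_mem x (mem_univ a))
    rw [blk]
    split_ifs
    · rw [hμ']; simp only [ha, if_false]
    · rfl
  have h4 := (hasSum_sum_of_ne_finset_zero (f := fun c : Fin k → ι => colour μ' c x) h3).unique h2
  rw [← h4]
  apply sum_congr rfl
  intro c hc
  rw [Fintype.mem_piFinset] at hc
  unfold colour
  apply prod_congr rfl
  intro z hz
  rw [mem_image] at hz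
  obtain ⟨a, _, rfl⟩ := hz
  rw [blk, blk, hμ']
  simp only [hc a, if_true]
  split_ifs <;> rfl

/-! ### linearity and monotonicity of `Cw` -/

theorem Cw_hasSum {κ : Type*} {W : κ → (Fin k → ℤ) → ℝ} {s : (Fin k → ℤ) → ℝ} (h : ∀ x, HasSum (fun c => W c x) (s x))
    (t : ℕ) (x : Fin k → ℤ) : HasSum (fun c => Cw (W c) t x) (Cw s t x) := by
  induction t generalizing x with
  | zero => exact h x
  | succ t ih =>
    have h1 : HasSum (fun c => (∑ A ∈ (univ.image x).powerset, Cw (W c) t fun a => mv A (x a)) / 2 ^ #(univ.image x))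
        ((∑ A ∈ (univ.image x).powerset, Cw s t fun a => mv A (x a)) / 2 ^ #(univ.image x)) :=
      (hasSum_sum fun A _ => ih _).div_const _
    exact h1

theorem Cw_sum {κ : Type*} (T : Finset κ) (W : κ → (Fin k → ℤ) → ℝ) (t : ℕ) (x : Fin k → ℤ) :
    ∑ c ∈ T, Cw (W c) t x = Cw (fun x => ∑ c ∈ T, W c x) t x := by
  induction t generalizing x with
  | zero => rfl
  | succ t ih =>
    simp only [KL1.Cw_succ']
    rw [← EP_sum]
    congr 1
    funext σ
    exact ih _

theorem Cw_mono {G G' : (Fin k → ℤ) → ℝ} (h : ∀ x, G x ≤ G' x) (t : ℕ) (x : Fin k → ℤ) : Cw G t x ≤ Cw G' t x := by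
  induction t generalizing x with
  | zero => exact h x
  | succ t ih =>
    rw [KL1.Cw_succ', KL1.Cw_succ']
    exact EP_mono fun σ _ => ih _

theorem Cw_nonneg {G : (Fin k → ℤ) → ℝ} (h : ∀ x, 0 ≤ G x) (t : ℕ) (x : Fin k → ℤ) : 0 ≤ Cw G t x := by
  have h1 := Cw_mono (G := fun _ => 0) h t x
  rwa [jt_Cw_const (fun _ => rfl)] at h1

theorem Cw_ge {G : (Fin k → ℤ) → ℝ} {c : ℝ} (h : ∀ x, c ≤ G x) (t : ℕ) (x : Fin k → ℤ) : c ≤ Cw G t x := by
  have h1 := Cw_mono (G := fun _ => c) h t x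
  rwa [jt_Cw_const (fun _ => rfl)] at h1

/-- the colours of coalescing walks are a probability distribution -/
theorem law_hasSum {μ : ι → ℝ} (h0 : ∀ a, 0 ≤ μ a) (h1 : HasSum μ 1) (t : ℕ) (x : Fin k → ℤ) :
    HasSum (fun c : Fin k → ι => Cw (colour μ c) t x) 1 := by
  have h2 := Cw_hasSum (fun x => hasSum_colour h0 h1 x) t x
  have h3 : Cw (fun x : Fin k → ℤ => (1 : ℝ) ^ #(univ.image x)) t x = 1 := jt_Cw_const (fun x => one_pow _) t x
  rwa [h3] at h2

/-- finitely many colours carry most of the mass, uniformly -/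
theorem law_sum_ge {μ : ι → ℝ} (h0 : ∀ a, 0 ≤ μ a) [DecidableEq ι] (F : Finset ι) (h1 : ∑ v ∈ F, μ v ≤ 1) (t : ℕ) (x : Fin k → ℤ) :
    (∑ v ∈ F, μ v) ^ k ≤ ∑ c ∈ Fintype.piFinset (fun _ : Fin k => F), Cw (colour μ c) t x := by
  rw [Cw_sum]
  apply Cw_ge
  intro x
  rw [sum_colour h0]
  apply pow_le_pow_of_le_one (sum_nonneg fun v _ => h0 v) h1
  refine card_image_le.trans ?_
  rw [card_univ, Fintype.card_fin]

end Col

end Pool.Agent.KS6_24.ST
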