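import Mathlib
import Pool.Agent.KS6_24.ST.Defs
import Pool.Agent.KS6_24.LN.CI
import Pool.Agent.KS6_24.LN.Par

/-! J7: the walk of the level, abstract part. -/

set_option autoImplicit false

namespace Pool.Agent.KS6_24.ST

open Pool.Agent.H499R2.CO Pool.Agent.Y965.SI Finset Pool.Agent.KS6_24.LN

variable {d : ℤ} {t g B : ℕ}

/-! ### the weights -/

theorem W_mom {g a N : ℕ} (ha : a + 3 * g ≤ N) (hg : 1 ≤ g) (z : ℝ) :
    ∑ c ∈ range N, W g (c - a) * ((c : ℝ) - z) ^ 2 ≤ 2 * ((a : ℝ) - z) ^ 2 + 18 * (g : ℝ) ^ 2 := by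
  have h1 : ∀ c ∈ range N, W g ((c : ℤ) - a) * ((c : ℝ) - z) ^ 2
      ≤ W g (c - a) * (2 * ((a : ℝ) - z) ^ 2 + 18 * (g : ℝ) ^ 2) := by
    intro c _
    by_cases h0 : W g ((c : ℤ) - a) = 0
    · rw [h0]; simp
    · obtain ⟨w1, w2⟩ := W_supp _ h0
      have w1' : a ≤ c := by omega
      have w2' : c ≤ a + 3 * g := by push_cast at w2; omega
      apply mul_le_mul_of_nonneg_left _ (W_nonneg _ _)
      have e1 : (a : ℝ) ≤ c := by exact_mod_cast w1'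
      have e2 : (c : ℝ) ≤ a + 3 * g := by exact_mod_cast w2'
      have e3 : ((c : ℝ) - a) ^ 2 ≤ (3 * g) ^ 2 := pow_le_pow_left₀ (by linarith) (by linarith) 2
      nlinarith [sq_nonneg (((a : ℝ) - z) - (c - a))]
  refine (sum_le_sum h1).trans ?_
  rw [← sum_mul, W_sum_one ha hg, one_mul]

theorem p_mom (hd : d % 2 = 1) (hg : 1 ≤ g) :
    ∑ c ∈ Cs t g B, pc d t g c * ((c : ℝ) - t / 2) ^ 2 ≤ t / 2 + 18 * (g : ℝ) ^ 2 := by
  have h1 : ∑ c ∈ Cs t g B, pc d t g c * ((c : ℝ) - t / 2) ^ 2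
      = pm t (fun x => ∑ c ∈ Cs t g B, psi d t g c x * ((c : ℝ) - t / 2) ^ 2) := by
    rw [pm_sum]
    apply sum_congr rfl
    intro c _
    unfold pc
    have : (fun x => psi d t g c x * ((c : ℝ) - t / 2) ^ 2) = fun x => ((c : ℝ) - t / 2) ^ 2 * psi d t g c x := by
      funext x; ring
    rw [this, pm_mul, mul_comm]
  rw [h1]
  have h2 : pm t (fun x => ∑ c ∈ Cs t g B, psi d t g c x * ((c : ℝ) - t / 2) ^ 2)
      ≤ pm t (fun x => 2 * ((od d t x : ℝ) - t / 2) ^ 2 + 18 * (g : ℝ) ^ 2) := by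
    apply pm_mono
    intro x
    have h3 := W_mom (g := g) (a := od d t x) (N := t + 3 * g) (by have := od_le d t x; omega) hg (t / 2)
    refine le_trans ?_ h3
    unfold psi
    exact sum_le_sum_of_subset_of_nonneg Cs_sub fun c _ _ => mul_nonneg (W_nonneg _ _) (sq_nonneg _)
  refine h2.trans (le_of_eq ?_)
  rw [pm_add, pm_mul, var_od hd, pm_const]
  ring

theorem pp_one (hg : 1 ≤ g) : ∑ c ∈ Cs t g B, ∑ c' ∈ Cs t g B, pc d t g c * pc d t g c' ≤ 1 := by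
  have h1 := sum_pc_le (d := d) (t := t) (B := B) hg
  have h0 : 0 ≤ ∑ c ∈ Cs t g B, pc d t g c := sum_nonneg fun c _ => pc_nonneg c
  rw [← sum_mul_sum]
  nlinarith

theorem pp_anti : ∑ c ∈ Cs t g B, ∑ c' ∈ Cs t g B, pc d t g c * pc d t g c' * ((c' : ℝ) - c) = 0 := by
  have h1 : ∑ c ∈ Cs t g B, ∑ c' ∈ Cs t g B, pc d t g c * pc d t g c' * ((c' : ℝ) - c)
      = ∑ c ∈ Cs t g B, ∑ c' ∈ Cs t g B, pc d t g c * pc d t g c' * ((c : ℝ) - c') := by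
    rw [sum_comm]
    apply sum_congr rfl; intro c _
    apply sum_congr rfl; intro c' _
    ring
  have h2 : ∑ c ∈ Cs t g B, ∑ c' ∈ Cs t g B, pc d t g c * pc d t g c' * ((c' : ℝ) - c)
      + ∑ c ∈ Cs t g B, ∑ c' ∈ Cs t g B, pc d t g c * pc d t g c' * ((c : ℝ) - c') = 0 := by
    rw [← sum_add_distrib]
    apply sum_eq_zero; intro c _
    rw [← sum_add_distrib]
    apply sum_eq_zero; intro c' _
    ring
  linarith

theorem pp_var (hd : d % 2 = 1) (hg : 1 ≤ g) :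
    ∑ c ∈ Cs t g B, ∑ c' ∈ Cs t g B, pc d t g c * pc d t g c' * ((c' : ℝ) - c) ^ 2 ≤ 2 * t + 72 * (g : ℝ) ^ 2 := by
  have hm := p_mom (d := d) (t := t) (B := B) hd hg
  have h1 := sum_pc_le (d := d) (t := t) (B := B) hg
  have h0 : 0 ≤ ∑ c ∈ Cs t g B, pc d t g c := sum_nonneg fun c _ => pc_nonneg c
  have hm0 : 0 ≤ ∑ c ∈ Cs t g B, pc d t g c * ((c : ℝ) - t / 2) ^ 2 :=
    sum_nonneg fun c _ => mul_nonneg (pc_nonneg c) (sq_nonneg _)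
  have h2 : ∑ c ∈ Cs t g B, ∑ c' ∈ Cs t g B, pc d t g c * pc d t g c' * ((c' : ℝ) - c) ^ 2
      ≤ ∑ c ∈ Cs t g B, ∑ c' ∈ Cs t g B, (2 * ((pc d t g c * ((c : ℝ) - t / 2) ^ 2) * pc d t g c')
        + 2 * (pc d t g c * (pc d t g c' * ((c' : ℝ) - t / 2) ^ 2))) := by
    apply sum_le_sum; intro c _
    apply sum_le_sum; intro c' _
    have hp : 0 ≤ pc d t g c * pc d t g c' := mul_nonneg (pc_nonneg c) (pc_nonneg c')
    have e : ((c' : ℝ) - c) ^ 2 ≤ 2 * ((c : ℝ) - t / 2) ^ 2 + 2 * ((c' : ℝ) - t / 2) ^ 2 := by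
      nlinarith [sq_nonneg (((c : ℝ) - t / 2) + ((c' : ℝ) - t / 2))]
    have := mul_le_mul_of_nonneg_left e hp
    linarith
  refine h2.trans ?_
  have e3 : ∑ c ∈ Cs t g B, ∑ c' ∈ Cs t g B, (2 * ((pc d t g c * ((c : ℝ) - t / 2) ^ 2) * pc d t g c')
        + 2 * (pc d t g c * (pc d t g c' * ((c' : ℝ) - t / 2) ^ 2)))
      = 2 * ((∑ c ∈ Cs t g B, pc d t g c * ((c : ℝ) - t / 2) ^ 2) * (∑ c ∈ Cs t g B, pc d t g c))
        + 2 * ((∑ c ∈ Cs t g B, pc d t g c) * (∑ c ∈ Cs t g B, pc d t g c * ((c : ℝ) - t / 2) ^ 2)) := by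
    rw [sum_mul_sum, sum_mul_sum, mul_sum, mul_sum, ← sum_add_distrib]
    apply sum_congr rfl; intro c _
    rw [mul_sum, mul_sum, ← sum_add_distrib]
  rw [e3]
  set p1 := ∑ c ∈ Cs t g B, pc d t g c
  set p2 := ∑ c ∈ Cs t g B, pc d t g c * ((c : ℝ) - t / 2) ^ 2
  have e1 : p2 * p1 ≤ p2 := mul_le_of_le_one_right hm0 h1
  nlinarith

theorem pp_pot (hd : d % 2 = 1) (hg : 1 ≤ g) (x : ℝ) :
    ∑ c ∈ Cs t g B, ∑ c' ∈ Cs t g B, pc d t g c * pc d t g c' * (x + c' - c) ^ 2 ≤ x ^ 2 + (2 * t + 72 * (g : ℝ) ^ 2) := by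
  have e : ∑ c ∈ Cs t g B, ∑ c' ∈ Cs t g B, pc d t g c * pc d t g c' * (x + c' - c) ^ 2
      = x ^ 2 * (∑ c ∈ Cs t g B, ∑ c' ∈ Cs t g B, pc d t g c * pc d t g c')
        + 2 * x * (∑ c ∈ Cs t g B, ∑ c' ∈ Cs t g B, pc d t g c * pc d t g c' * ((c' : ℝ) - c))
        + ∑ c ∈ Cs t g B, ∑ c' ∈ Cs t g B, pc d t g c * pc d t g c' * ((c' : ℝ) - c) ^ 2 := by
    simp only [mul_sum]
    rw [← sum_add_distrib, ← sum_add_distrib]
    apply sum_congr rfl; intro c _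
    rw [← sum_add_distrib, ← sum_add_distrib]
    apply sum_congr rfl; intro c' _
    ring
  rw [e, pp_anti]
  have h1 := pp_one (d := d) (t := t) (B := B) hg
  have h2 := pp_var (d := d) (t := t) (B := B) hd hg
  have h3 := mul_le_mul_of_nonneg_left h1 (sq_nonneg x)
  linarith

/-! ### correlations of blocks -/

variable {f : ℤ → ℝ}

/-- mean correlation of a block of levels -/
noncomputable def bl (f : ℤ → ℝ) (K : ℕ) (V : ℝ) (j : ℤ) : ℝ := (∑ x ∈ range K, cor f V (j + (x : ℕ))) / K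

theorem corB (hf : ∀ x, |f x| ≤ 1) (j : ℤ) : Bd 1 (fun y : ℝ => f ⌊y⌋ * f ⌊(3 : ℝ) ^ j * y⌋) := by
  have := (Bd.fl hf).mul (Bd.flc (F := f) hf (g := fun y : ℝ => (3 : ℝ) ^ j * y) (by fun_prop))
  rwa [one_mul] at this

theorem cor_abs (hf : ∀ x, |f x| ≤ 1) {V : ℝ} (hV : 0 < V) (j : ℤ) : |cor f V j| ≤ 1 := av_abs hV (corB hf j)

theorem bl_abs (hf : ∀ x, |f x| ≤ 1) {K : ℕ} (hK : 1 ≤ K) {V : ℝ} (hV : 0 < V) (j : ℤ) : |bl f K V j| ≤ 1 := by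
  unfold bl
  have hK' : (0 : ℝ) < K := by exact_mod_cast hK
  rw [abs_div, abs_of_pos hK', div_le_one hK']
  refine (abs_sum_le_sum_abs _ _).trans ?_
  calc ∑ x ∈ range K, |cor f V (j + (x : ℕ))| ≤ ∑ x ∈ range K, (1 : ℝ) := sum_le_sum fun x _ => cor_abs hf hV _
    _ = K := by simp

theorem bl_end (hf : ∀ x, |f x| ≤ 1) {K : ℕ} (hK : 1 ≤ K) {V : ℝ} (hV : 0 < V) (n : ℕ) :
    |bl f K V n| ≤ av (3 ^ n * V) (fun y => |(∑ x ∈ range K, f ⌊3 ^ x * y⌋) / K|) := by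
  have hK' : (0 : ℝ) < K := by exact_mod_cast hK
  have b1 : ∀ x : ℕ, Bd 1 (fun y : ℝ => f ⌊3 ^ x * y⌋) := fun x =>
    Bd.flc (F := f) hf (g := fun y : ℝ => (3 : ℝ) ^ x * y) (by fun_prop)
  have b2 : Bd (|1 / (K : ℝ)| * ∑ x ∈ range K, (1 : ℝ)) (fun y : ℝ => (1 / (K : ℝ)) * ∑ x ∈ range K, f ⌊3 ^ x * y⌋) :=
    (Bd.sum fun x _ => b1 x).cmul _
  have b3 : Bd (|1 / (K : ℝ)| * ∑ x ∈ range K, (1 : ℝ)) (fun y : ℝ => (1 / (K : ℝ)) * ∑ x ∈ range K, f ⌊3 ^ x * (3 ^ n * y)⌋) :=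
    b2.comp (by fun_prop)
  have e : bl f K V n = av V (fun y => f ⌊y⌋ * ((1 / (K : ℝ)) * ∑ x ∈ range K, f ⌊3 ^ x * (3 ^ n * y)⌋)) := by
    unfold bl cor
    have h1 : ∀ x ∈ range K, Bd 1 (fun y : ℝ => f ⌊y⌋ * f ⌊(3 : ℝ) ^ ((n : ℤ) + (x : ℕ)) * y⌋) := fun x _ => corB hf _
    rw [← av_sum V h1, div_eq_mul_one_div, mul_comm, ← av_cmul]
    congr 1
    funext y
    rw [mul_left_comm, mul_sum (a := f ⌊y⌋)]
    congr 1
    apply sum_congr rfl; intro x _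
    have e5 : (3 : ℝ) ^ ((n : ℤ) + ((x : ℕ) : ℤ)) * y = 3 ^ x * (3 ^ n * y) := by
      rw [show ((n : ℤ) + ((x : ℕ) : ℤ)) = ((n + x : ℕ) : ℤ) by push_cast; ring, zpow_natCast, pow_add]
      ring
    rw [e5]
  rw [e]
  have hb := (Bd.fl (F := f) hf).mul b3
  refine (abs_av_le hV hb).trans ?_
  have h2 := av_scale hV (show (0 : ℝ) < 3 ^ n by positivity) (fun y => |(∑ x ∈ range K, f ⌊3 ^ x * y⌋) / K|)
  rw [← h2]
  have e6 : (fun y : ℝ => |(∑ x ∈ range K, f ⌊3 ^ x * (3 ^ n * y)⌋) / K|)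
      = fun y : ℝ => |(1 / (K : ℝ)) * ∑ x ∈ range K, f ⌊3 ^ x * (3 ^ n * y)⌋| := by
    funext y; congr 1; ring
  rw [e6]
  apply av_mono hV hb.abs b3.abs
  intro y _ _
  rw [abs_mul]
  exact mul_le_of_le_one_left (abs_nonneg _) (hf _)

end Pool.Agent.KS6_24.ST
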