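import Mathlib
import Pool.Agent.KS6_24.ST.Cor1

/-! J7: the induction on the height. -/

set_option autoImplicit false

namespace Pool.Agent.KS6_24.ST

open Pool.Agent.H499R2.CO Pool.Agent.Y965.SI Finset Pool.Agent.KS6_24.LN

/-- the body of the stage lemma for one `f` -/
def Stg (f : ℤ → ℝ) (d : ℤ) (D : ℝ) (m0 : ℕ) : Prop := ∀ m L : ℕ, m0 ≤ m →
  Nat.log 2 m ≤ L → L ≤ 3 * Nat.log 2 m → ∀ V : ℝ, 2 ^ m ≤ V → ∀ i : ℕ, √ m ≤ i → (i : ℝ) ≤ (m : ℝ) ^ (0.9995 : ℝ) →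
    |cor f V i - ∑ c ∈ Cs (st m L) (sgw m L) (sB m L), ∑ c' ∈ Cs (st m L) (sgw m L) (sB m L),
        pc d (st m L) (sgw m L) c * pc d (st m L) (sgw m L) c' * cor f (3 ^ c / 2 ^ (st m L) * V) ((i : ℤ) + c' - c)|
      ≤ D / (L : ℝ) ^ 4

theorem height {V : ℝ} (hV : 1 ≤ V) : ∃ n : ℕ, (2 : ℝ) ^ n ≤ V ∧ V < 2 ^ (n + 1) :=
  exists_nat_pow_near hV (by norm_num)

/-- the new height -/
theorem height_drop {m t c s : ℕ} {V : ℝ} (h1 : (2 : ℝ) ^ m ≤ V) (h2 : V < 2 ^ (m + 1)) (ht : t ≤ m)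
    (hs : s ≤ t) (hc : 8 * c ≤ 5 * (t - s)) :
    ∃ n : ℕ, (2 : ℝ) ^ n ≤ 3 ^ c / 2 ^ t * V ∧ 3 ^ c / 2 ^ t * V < 2 ^ (n + 1) ∧ m ≤ n + t ∧ n + s ≤ m := by
  have h2t : (0 : ℝ) < 2 ^ t := by positivity
  have hV0 : (0 : ℝ) < V := lt_of_lt_of_le (by positivity) h1
  have h3c : (1 : ℝ) ≤ 3 ^ c := one_le_pow₀ (by norm_num)
  have hlow : (2 : ℝ) ^ (m - t) ≤ 3 ^ c / 2 ^ t * V := by
    have e : (2 : ℝ) ^ m = 2 ^ (m - t) * 2 ^ t := by rw [← pow_add]; congr 1; omega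
    rw [div_mul_eq_mul_div, le_div_iff₀ h2t, ← e]
    nlinarith
  have hcs : (3 : ℝ) ^ c ≤ 2 ^ (t - s) := by
    have e1 : ((3 : ℝ) ^ c) ^ 5 ≤ ((2 : ℝ) ^ (t - s)) ^ 5 := by
      rw [← pow_mul, ← pow_mul]
      calc (3 : ℝ) ^ (c * 5) = (3 ^ 5) ^ c := by rw [← pow_mul]; congr 1; ring
        _ ≤ (2 ^ 8) ^ c := pow_le_pow_left₀ (by norm_num) (by norm_num) c
        _ = 2 ^ (8 * c) := by rw [← pow_mul]
        _ ≤ 2 ^ ((t - s) * 5) := pow_le_pow_right₀ (by norm_num) (by omega)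
    exact le_of_pow_le_pow_left₀ (by norm_num) (by positivity) e1
  have hup : 3 ^ c / 2 ^ t * V < 2 ^ (m + 1 - s) := by
    have e : (2 : ℝ) ^ (m + 1) = 2 ^ (m + 1 - s) * 2 ^ s := by rw [← pow_add]; congr 1; omega
    have e2 : (2 : ℝ) ^ t = 2 ^ (t - s) * 2 ^ s := by rw [← pow_add]; congr 1; omega
    rw [div_mul_eq_mul_div, div_lt_iff₀ h2t]
    calc (3 : ℝ) ^ c * V < 3 ^ c * 2 ^ (m + 1) := mul_lt_mul_of_pos_left h2 (by positivity)
      _ ≤ 2 ^ (t - s) * 2 ^ (m + 1) := mul_le_mul_of_nonneg_right hcs (by positivity)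
      _ = 2 ^ (m + 1 - s) * 2 ^ t := by rw [e, e2]; ring
  obtain ⟨n, hn1, hn2⟩ := height (show 1 ≤ 3 ^ c / 2 ^ t * V from le_trans (one_le_pow₀ (by norm_num)) hlow)
  refine ⟨n, hn1, hn2, ?_, ?_⟩
  · have : (2 : ℝ) ^ (m - t) < 2 ^ (n + 1) := lt_of_le_of_lt hlow hn2
    have := (pow_lt_pow_iff_right₀ (show (1 : ℝ) < 2 by norm_num)).1 this
    omega
  · have : (2 : ℝ) ^ n < 2 ^ (m + 1 - s) := lt_of_le_of_lt hn1 hup
    have := (pow_lt_pow_iff_right₀ (show (1 : ℝ) < 2 by norm_num)).1 this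
    omega

/-- sizes of the parameters of a stage -/
theorem stage_sizes {m L h : ℕ} (hL : 2 ≤ L) (hh1 : 256 * (L ^ 3 + 1) ^ 2 ≤ h / L ^ 2) (hh2 : L ^ 10 ≤ h / L ^ 2)
    (hm : h ≤ m) :
    1 ≤ sgw m L ∧ 1000 ≤ st m L ∧ 4 * st m L ≤ m ∧ 72 * (sgw m L) ^ 2 ≤ st m L ∧
      (∀ c ∈ Cs (st m L) (sgw m L) (sB m L), 8 * c ≤ 5 * (st m L - st m L / 10)) ∧
      (m : ℝ) ≤ 12 * (L : ℝ) ^ 2 * ((st m L / 10 : ℕ) : ℝ) := by
  set t := st m L with ht
  set g := sgw m L with hg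
  set s := Nat.sqrt t with hs
  have hL2 : 0 < L ^ 2 := by positivity
  have ht1 : h / L ^ 2 ≤ t := Nat.div_le_div_right hm
  have ht2 : 256 * (L ^ 3 + 1) ^ 2 ≤ t := hh1.trans ht1
  have ht3 : L ^ 10 ≤ t := hh2.trans ht1
  have hL3 : 8 ≤ L ^ 3 := by
    calc 8 = 2 ^ 3 := by norm_num
      _ ≤ L ^ 3 := Nat.pow_le_pow_left hL 3
  have hL5 : 32 ≤ L ^ 5 := by
    calc 32 = 2 ^ 5 := by norm_num
      _ ≤ L ^ 5 := Nat.pow_le_pow_left hL 5
  have hs1 : s * s ≤ t := Nat.sqrt_le t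
  have hs2 : 16 * (L ^ 3 + 1) ≤ s := by
    rw [hs, Nat.le_sqrt]
    calc 16 * (L ^ 3 + 1) * (16 * (L ^ 3 + 1)) = 256 * (L ^ 3 + 1) ^ 2 := by ring
      _ ≤ t := ht2
  have hs3 : L ^ 5 ≤ s := by
    rw [hs, Nat.le_sqrt]
    calc L ^ 5 * L ^ 5 = L ^ 10 := by ring
      _ ≤ t := ht3
  have hg1 : 1 ≤ g := by
    rw [hg, sgw, ← ht, ← hs]
    exact (Nat.one_le_div_iff (by positivity)).2 hs3
  have hgs : g * L ^ 5 ≤ s := by
    rw [hg, sgw, ← ht, ← hs]
    exact Nat.div_mul_le_self _ _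
  have hg32 : g * 32 ≤ s := le_trans (Nat.mul_le_mul_left g hL5) hgs
  have ht1000 : 1000 ≤ t := by
    have : 256 * (8 + 1) ^ 2 ≤ 256 * (L ^ 3 + 1) ^ 2 :=
      Nat.mul_le_mul_left _ (Nat.pow_le_pow_left (by omega) 2)
    omega
  have htm : t * L ^ 2 ≤ m := by rw [ht, st]; exact Nat.div_mul_le_self _ _
  have hL24 : 4 ≤ L ^ 2 := by
    calc 4 = 2 ^ 2 := by norm_num
      _ ≤ L ^ 2 := Nat.pow_le_pow_left hL 2
  refine ⟨hg1, ht1000, ?_, ?_, ?_, ?_⟩
  · have := Nat.mul_le_mul_left t hL24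
    omega
  · have h1 : (g * 32) * (g * 32) ≤ s * s := Nat.mul_le_mul hg32 hg32
    nlinarith
  · intro c hc
    unfold Cs at hc
    rw [mem_filter] at hc
    obtain ⟨_, _, hc2⟩ := hc
    have hB : sB m L = s * L ^ 3 := by rw [sB, ← ht, ← hs]
    rw [hB] at hc2
    have h1 : 16 * (s * (L ^ 3 + 1)) ≤ t := by
      calc 16 * (s * (L ^ 3 + 1)) = s * (16 * (L ^ 3 + 1)) := by ring
        _ ≤ s * s := Nat.mul_le_mul_left s hs2
        _ ≤ t := hs1
    have h2 : s * (L ^ 3 + 1) = s * L ^ 3 + s := by ring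
    rw [h2] at h1
    omega
  · have h1 : m < (t + 1) * L ^ 2 := by
      rw [ht, st]
      have := Nat.lt_div_mul_add (a := m) hL2
      calc m < m / L ^ 2 * L ^ 2 + L ^ 2 := this
        _ = _ := by ring
    have h1' : (m : ℝ) ≤ (t + 1) * (L : ℝ) ^ 2 := by exact_mod_cast h1.le
    have h2 : t ≤ 10 * (t / 10) + 9 := by omega
    have h2' : (t : ℝ) ≤ 10 * ((t / 10 : ℕ) : ℝ) + 9 := by exact_mod_cast h2
    have h3 : (100 : ℝ) ≤ ((t / 10 : ℕ) : ℝ) := by exact_mod_cast (show 100 ≤ t / 10 by omega)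
    have h4 : (0 : ℝ) ≤ (L : ℝ) ^ 2 := by positivity
    calc (m : ℝ) ≤ (t + 1) * (L : ℝ) ^ 2 := h1'
      _ ≤ (12 * ((t / 10 : ℕ) : ℝ)) * (L : ℝ) ^ 2 := mul_le_mul_of_nonneg_right (by linarith) h4
      _ = _ := by ring

variable {d : ℤ} {f : ℤ → ℝ}

/-- the stage lemma for blocks -/
theorem bl_stage {D : ℝ} {m0 : ℕ} (hS : Stg f d D m0) {m L K : ℕ} (hm : m0 ≤ m) (hL1 : Nat.log 2 m ≤ L)
    (hL2 : L ≤ 3 * Nat.log 2 m) {V : ℝ} (hV : 2 ^ m ≤ V) (hK : 1 ≤ K) (j : ℕ)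
    (hj : ∀ x < K, √ m ≤ (j : ℝ) + x ∧ (j : ℝ) + x ≤ (m : ℝ) ^ (0.9995 : ℝ)) :
    |bl f K V j - ∑ c ∈ Cs (st m L) (sgw m L) (sB m L), ∑ c' ∈ Cs (st m L) (sgw m L) (sB m L),
        pc d (st m L) (sgw m L) c * pc d (st m L) (sgw m L) c' * bl f K (3 ^ c / 2 ^ (st m L) * V) ((j : ℤ) + c' - c)|
      ≤ D / (L : ℝ) ^ 4 := by
  have hK' : (0 : ℝ) < K := by exact_mod_cast hK
  set E : ℕ → ℝ := fun x => cor f V ((j : ℤ) + (x : ℕ)) - ∑ c ∈ Cs (st m L) (sgw m L) (sB m L),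
    ∑ c' ∈ Cs (st m L) (sgw m L) (sB m L), pc d (st m L) (sgw m L) c * pc d (st m L) (sgw m L) c' *
      cor f (3 ^ c / 2 ^ (st m L) * V) ((j : ℤ) + c' - c + (x : ℕ)) with hE
  have h1 : ∀ x ∈ range K, |E x| ≤ D / (L : ℝ) ^ 4 := by
    intro x hx
    rw [mem_range] at hx
    have h2 := hS m L hm hL1 hL2 V hV (j + x) (by push_cast; exact (hj x hx).1) (by push_cast; exact (hj x hx).2)
    rw [hE]
    simp only
    have e : ∀ c c' : ℕ, ((j : ℤ) + c' - c + (x : ℕ)) = ((j + x : ℕ) : ℤ) + c' - c := by intro c c'; push_cast; ring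
    simp only [e]
    rw [show (j : ℤ) + (x : ℕ) = ((j + x : ℕ) : ℤ) by push_cast; ring]
    exact h2
  have h2 : bl f K V j - ∑ c ∈ Cs (st m L) (sgw m L) (sB m L), ∑ c' ∈ Cs (st m L) (sgw m L) (sB m L),
        pc d (st m L) (sgw m L) c * pc d (st m L) (sgw m L) c' * bl f K (3 ^ c / 2 ^ (st m L) * V) ((j : ℤ) + c' - c)
      = (∑ x ∈ range K, E x) / K := by
    rw [hE, sum_sub_distrib, sub_div]
    unfold bl
    congr 1
    symm
    rw [sum_comm, sum_div]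
    apply sum_congr rfl; intro c _
    rw [sum_comm, sum_div]
    apply sum_congr rfl; intro c' _
    rw [← mul_sum]
    ring
  rw [h2, abs_div, abs_of_pos hK', div_le_iff₀ hK']
  refine (abs_sum_le_sum_abs _ _).trans ?_
  calc ∑ x ∈ range K, |E x| ≤ ∑ x ∈ range K, D / (L : ℝ) ^ 4 := sum_le_sum h1
    _ = D / (L : ℝ) ^ 4 * K := by rw [sum_const, card_range, nsmul_eq_mul, mul_comm]

/-- THE INDUCTION -/
theorem core (hd : d % 2 = 1) (hf : ∀ x, |f x| ≤ 1) {D : ℝ} (hD : 0 < D) {m0 : ℕ} (hS : Stg f d D m0)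
    {m L h K : ℕ} {i0 γ : ℝ} (hK : 1 ≤ K) (hh : m0 ≤ h) (hh0 : 1 ≤ h)
    (hLL : ∀ m' : ℕ, h ≤ m' → m' ≤ m → Nat.log 2 m' ≤ L ∧ L ≤ 3 * Nat.log 2 m') (hL : 2 ≤ L)
    (hh1 : 256 * (L ^ 3 + 1) ^ 2 ≤ h / L ^ 2) (hh2 : L ^ 10 ≤ h / L ^ 2) (hi : 0 < i0)
    (hγ : 0 ≤ γ)
    (hgood : ∀ m' : ℕ, h ≤ m' → m' ≤ m → ∀ j : ℕ, |(j : ℝ) - i0| ≤ i0 / 2 → ∀ x < K,
      √ m' ≤ (j : ℝ) + x ∧ (j : ℝ) + x ≤ (m' : ℝ) ^ (0.9995 : ℝ))
    (hend : ∀ V : ℝ, 2 ^ h ≤ V → V < 2 ^ (2 * h) → ∀ j : ℕ, |(j : ℝ) - i0| ≤ i0 / 2 →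
      av (3 ^ j * V) (fun y => |(∑ x ∈ range K, f ⌊3 ^ x * y⌋) / K|) ≤ γ) :
    ∀ m' : ℕ, h ≤ m' → m' ≤ m → ∀ V : ℝ, 2 ^ m' ≤ V → V < 2 ^ (m' + 1) → ∀ j : ℤ,
      |bl f K V j| ≤ 4 * ((j : ℝ) - i0) ^ 2 / i0 ^ 2 + 132 * m' / i0 ^ 2
        + 12 * D / (L : ℝ) ^ 2 * (Real.log m' - Real.log h) + γ := by
  have hLr : (0 : ℝ) < L := by exact_mod_cast (show 0 < L by omega)
  have hi2 : 0 < i0 ^ 2 := by positivity
  have hhr : (0 : ℝ) < h := by exact_mod_cast hh0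
  intro m'
  induction m' using Nat.strong_induction_on with
  | _ m' ih =>
    intro hm1 hm2 V hV1 hV2 j
    have hV0 : (0 : ℝ) < V := lt_of_lt_of_le (by positivity) hV1
    have hm'r : (0 : ℝ) < m' := lt_of_lt_of_le hhr (by exact_mod_cast hm1)
    have hlog : 0 ≤ Real.log m' - Real.log h := by
      have := Real.log_le_log hhr (show (h : ℝ) ≤ m' by exact_mod_cast hm1)
      linarith
    have hlog2 : 0 ≤ 12 * D / (L : ℝ) ^ 2 * (Real.log m' - Real.log h) := mul_nonneg (by positivity) hlog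
    have hm'0 : 0 ≤ 132 * (m' : ℝ) / i0 ^ 2 := by positivity
    by_cases hj : |(j : ℝ) - i0| ≤ i0 / 2
    · -- good level
      have hj0 : 0 ≤ j := by
        have := (abs_le.1 hj).1
        have h3 : (0 : ℝ) ≤ j := by linarith
        exact_mod_cast h3
      obtain ⟨n, rfl⟩ := Int.eq_ofNat_of_zero_le hj0
      have hjn : |(n : ℝ) - i0| ≤ i0 / 2 := by
        have : (((n : ℕ) : ℤ) : ℝ) = (n : ℝ) := by norm_cast
        rwa [this] at hj
      have hsq : 0 ≤ 4 * ((((n : ℕ) : ℤ) : ℝ) - i0) ^ 2 / i0 ^ 2 := by positivity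
      by_cases hm3 : m' < 2 * h
      · -- end
        have h1 := bl_end hf hK hV0 n
        have h2 := hend V (le_trans (pow_le_pow_right₀ (by norm_num) hm1) hV1)
          (lt_of_lt_of_le hV2 (pow_le_pow_right₀ (by norm_num) (by omega))) n hjn
        linarith
      · -- stage
        push Not at hm3
        obtain ⟨hl1, hl2⟩ := hLL m' hm1 hm2
        obtain ⟨hg1, ht1, ht2, hg2, hcs, hmt⟩ := stage_sizes hL hh1 hh2 hm1
        have hst := bl_stage hS (hh.trans hm1) hl1 hl2 hV1 hK n (fun x hx => hgood m' hm1 hm2 n hjn x hx)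
        set t := st m' L with ht
        set g := sgw m' L with hg
        set B := sB m' L with hB
        set s := t / 10 with hs
        -- bound for each term
        have hterm : ∀ c ∈ Cs t g B, ∀ c' : ℕ, |bl f K (3 ^ c / 2 ^ t * V) ((n : ℤ) + c' - c)|
            ≤ 4 / i0 ^ 2 * (((n : ℝ) - i0) + c' - c) ^ 2 + (132 * ((m' : ℝ) - s) / i0 ^ 2
              + 12 * D / (L : ℝ) ^ 2 * (Real.log m' - s / m' - Real.log h) + γ) := by
          intro c hc c'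
          obtain ⟨n', hn1, hn2, hn3, hn4⟩ := height_drop (s := s) hV1 hV2 (by omega) (by omega) (hcs c hc)
          have h1 := ih n' (by omega) (by omega) (by omega) _ hn1 hn2 ((n : ℤ) + c' - c)
          refine h1.trans ?_
          have hn4' : (n' : ℝ) ≤ m' - s := by
            have : (n' : ℝ) + s ≤ m' := by exact_mod_cast hn4
            linarith
          have hn'0 : (0 : ℝ) < n' := by exact_mod_cast (show 0 < n' by omega)
          have e1 : (((n : ℤ) + (c' : ℤ) - (c : ℤ) : ℤ) : ℝ) - i0 = ((n : ℝ) - i0) + c' - c := by push_cast; ring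
          rw [e1]
          have e2 : 132 * (n' : ℝ) / i0 ^ 2 ≤ 132 * ((m' : ℝ) - s) / i0 ^ 2 :=
            div_le_div_of_nonneg_right (by linarith) hi2.le
          have e3 : Real.log n' ≤ Real.log m' - s / m' := by
            have h5 := Real.log_le_sub_one_of_pos (show (0 : ℝ) < n' / m' by positivity)
            rw [Real.log_div hn'0.ne' hm'r.ne'] at h5
            have h6 : (n' : ℝ) / m' ≤ 1 - s / m' := by
              rw [div_le_iff₀ hm'r, sub_mul, div_mul_cancel₀ _ hm'r.ne']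
              linarith
            linarith
          have e4 : 12 * D / (L : ℝ) ^ 2 * (Real.log n' - Real.log h)
              ≤ 12 * D / (L : ℝ) ^ 2 * (Real.log m' - s / m' - Real.log h) :=
            mul_le_mul_of_nonneg_left (by linarith) (by positivity)
          have e5 : 4 * (((n : ℝ) - i0) + c' - c) ^ 2 / i0 ^ 2 = 4 / i0 ^ 2 * (((n : ℝ) - i0) + c' - c) ^ 2 := by ring
          rw [e5]
          linarith
        set X := 132 * ((m' : ℝ) - s) / i0 ^ 2 + 12 * D / (L : ℝ) ^ 2 * (Real.log m' - s / m' - Real.log h) + γ with hX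
        have hX0 : 0 ≤ X := by
          have h6 : (s : ℝ) ≤ m' := by exact_mod_cast (show s ≤ m' by omega)
          have h8 : 0 ≤ 132 * ((m' : ℝ) - s) / i0 ^ 2 := div_nonneg (by linarith) hi2.le
          have h9 : 0 ≤ Real.log m' - s / m' - Real.log h := by
            -- log m' - log h ≥ log 2 ≥ 1/4 ≥ s/m'
            have h10 : Real.log 2 ≤ Real.log m' - Real.log h := by
              have h11 : (2 : ℝ) * h ≤ m' := by exact_mod_cast hm3
              have h12 := Real.log_le_log (by positivity) h11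
              rw [Real.log_mul (by norm_num) hhr.ne'] at h12
              linarith
            have h13 : (s : ℝ) / m' ≤ 1 / 4 := by
              rw [div_le_div_iff₀ hm'r (by norm_num)]
              have : 4 * (s : ℝ) ≤ m' := by exact_mod_cast (show 4 * s ≤ m' by omega)
              linarith
            have := Real.log_two_gt_d9
            linarith
          have h14 := mul_nonneg (show 0 ≤ 12 * D / (L : ℝ) ^ 2 by positivity) h9
          linarith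
        have hsum : |∑ c ∈ Cs t g B, ∑ c' ∈ Cs t g B, pc d t g c * pc d t g c' *
            bl f K (3 ^ c / 2 ^ t * V) ((n : ℤ) + c' - c)|
            ≤ 4 / i0 ^ 2 * (((n : ℝ) - i0) ^ 2 + (2 * t + 72 * (g : ℝ) ^ 2)) + X := by
          have h1 : |∑ c ∈ Cs t g B, ∑ c' ∈ Cs t g B, pc d t g c * pc d t g c' *
              bl f K (3 ^ c / 2 ^ t * V) ((n : ℤ) + c' - c)|
              ≤ ∑ c ∈ Cs t g B, ∑ c' ∈ Cs t g B, pc d t g c * pc d t g c' *
                (4 / i0 ^ 2 * (((n : ℝ) - i0) + c' - c) ^ 2 + X) := by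
            refine (abs_sum_le_sum_abs _ _).trans (sum_le_sum fun c hc => ?_)
            refine (abs_sum_le_sum_abs _ _).trans (sum_le_sum fun c' _ => ?_)
            rw [abs_mul, abs_of_nonneg (mul_nonneg (pc_nonneg c) (pc_nonneg c'))]
            exact mul_le_mul_of_nonneg_left (hterm c hc c') (mul_nonneg (pc_nonneg c) (pc_nonneg c'))
          refine h1.trans ?_
          have h2 : ∑ c ∈ Cs t g B, ∑ c' ∈ Cs t g B, pc d t g c * pc d t g c' *
                (4 / i0 ^ 2 * (((n : ℝ) - i0) + c' - c) ^ 2 + X)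
              = 4 / i0 ^ 2 * (∑ c ∈ Cs t g B, ∑ c' ∈ Cs t g B, pc d t g c * pc d t g c' * (((n : ℝ) - i0) + c' - c) ^ 2)
                + X * (∑ c ∈ Cs t g B, ∑ c' ∈ Cs t g B, pc d t g c * pc d t g c') := by
            simp only [mul_sum]
            rw [← sum_add_distrib]
            apply sum_congr rfl; intro c _
            rw [← sum_add_distrib]
            apply sum_congr rfl; intro c' _
            ring
          rw [h2]
          have h3 := mul_le_mul_of_nonneg_left (pp_pot (d := d) (t := t) (B := B) hd hg1 ((n : ℝ) - i0))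
            (show 0 ≤ 4 / i0 ^ 2 by positivity)
          have h4 := mul_le_mul_of_nonneg_left (pp_one (d := d) (t := t) (B := B) hg1) hX0
          linarith
        have h1 := abs_sub_abs_le_abs_sub (bl f K V n) (∑ c ∈ Cs t g B, ∑ c' ∈ Cs t g B, pc d t g c * pc d t g c' *
            bl f K (3 ^ c / 2 ^ t * V) ((n : ℤ) + c' - c))
        have h2 : |bl f K V n| ≤ D / (L : ℝ) ^ 4 + (4 / i0 ^ 2 * (((n : ℝ) - i0) ^ 2 + (2 * t + 72 * (g : ℝ) ^ 2)) + X) := by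
          linarith
        refine h2.trans ?_
        -- numeric
        have e1 : (72 : ℝ) * (g : ℝ) ^ 2 ≤ t := by exact_mod_cast hg2
        have e2 : (t : ℝ) ≤ 10 * s + 9 := by exact_mod_cast (show t ≤ 10 * s + 9 by omega)
        have e3 : (100 : ℝ) ≤ s := by exact_mod_cast (show 100 ≤ s by omega)
        have e4 : 4 / i0 ^ 2 * (2 * t + 72 * (g : ℝ) ^ 2) ≤ 132 * s / i0 ^ 2 := by
          rw [div_mul_eq_mul_div]
          apply div_le_div_of_nonneg_right _ hi2.le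
          linarith
        have e5 : D / (L : ℝ) ^ 4 ≤ 12 * D / (L : ℝ) ^ 2 * (s / m') := by
          have h3 : 1 / (12 * (L : ℝ) ^ 2) ≤ s / m' := by
            rw [div_le_div_iff₀ (by positivity) hm'r]
            linarith
          have h4 := mul_le_mul_of_nonneg_left h3 (show 0 ≤ 12 * D / (L : ℝ) ^ 2 by positivity)
          refine le_trans (le_of_eq ?_) h4
          field_simp
        have e6 : (((n : ℕ) : ℤ) : ℝ) = (n : ℝ) := by norm_cast
        rw [e6, hX]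
        have e7 : 132 * ((m' : ℝ) - s) / i0 ^ 2 = 132 * m' / i0 ^ 2 - 132 * s / i0 ^ 2 := by ring
        have e8 : 12 * D / (L : ℝ) ^ 2 * (Real.log m' - s / m' - Real.log h)
            = 12 * D / (L : ℝ) ^ 2 * (Real.log m' - Real.log h) - 12 * D / (L : ℝ) ^ 2 * (s / m') := by ring
        have e9 : 4 / i0 ^ 2 * (((n : ℝ) - i0) ^ 2 + (2 * t + 72 * (g : ℝ) ^ 2))
            = 4 * ((n : ℝ) - i0) ^ 2 / i0 ^ 2 + 4 / i0 ^ 2 * (2 * t + 72 * (g : ℝ) ^ 2) := by ring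
        rw [e7, e8, e9]
        linarith
    · -- bad level
      push Not at hj
      have h1 := bl_abs hf hK hV0 j
      have h2 : 1 ≤ 4 * ((j : ℝ) - i0) ^ 2 / i0 ^ 2 := by
        rw [le_div_iff₀ hi2, one_mul, ← sq_abs ((j : ℝ) - i0)]
        have h3 : (i0 / 2) ^ 2 ≤ |(j : ℝ) - i0| ^ 2 := pow_le_pow_left₀ (by positivity) hj.le 2
        linarith
      linarith

end Pool.Agent.KS6_24.ST
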