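import Mathlib
import Pool.Agent.KS6_24.ST.Cor2

/-! J7: `S_COR`. -/

set_option autoImplicit false

namespace Pool.Agent.KS6_24.ST

open Pool.Agent.H499R2.CO Pool.Agent.Y965.SI Finset Pool.Agent.KS6_24.LN Filter

theorem ev1 {a b : ℝ} (c : ℝ) (hab : a < b) : ∀ᶠ m : ℕ in atTop, c * (m : ℝ) ^ a ≤ (m : ℝ) ^ b := by
  have h1 : Tendsto (fun m : ℕ => (m : ℝ) ^ (b - a)) atTop atTop :=
    (tendsto_rpow_atTop (by linarith)).comp tendsto_natCast_atTop_atTop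
  filter_upwards [h1.eventually_ge_atTop c, eventually_ge_atTop 1] with m hm hm1
  have hm0 : (0 : ℝ) < m := by exact_mod_cast hm1
  have e : (m : ℝ) ^ b = (m : ℝ) ^ (b - a) * (m : ℝ) ^ a := by rw [← Real.rpow_add hm0]; congr 1; ring
  rw [e]
  exact mul_le_mul_of_nonneg_right hm (by positivity)

theorem ev2 {b : ℝ} (c : ℝ) (hc : 0 ≤ c) (hb : 0 < b) : ∀ᶠ m : ℕ in atTop, c * Real.log (m + 1) ≤ (m : ℝ) ^ b := by
  have h1 := ev1 (a := b / 2) (b := b) (c * (2 ^ (b / 2) / (b / 2))) (by linarith)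
  filter_upwards [h1, eventually_ge_atTop 1] with m hm hm1
  have hm0 : (1 : ℝ) ≤ m := by exact_mod_cast hm1
  refine le_trans ?_ hm
  rw [mul_assoc]
  apply mul_le_mul_of_nonneg_left _ hc
  have h2 := Real.log_le_rpow_div (show (0 : ℝ) ≤ m + 1 by linarith) (show 0 < b / 2 by linarith)
  refine h2.trans ?_
  rw [div_mul_eq_mul_div]
  apply div_le_div_of_nonneg_right _ (by linarith)
  rw [← Real.mul_rpow (by norm_num) (by linarith)]
  exact Real.rpow_le_rpow (by linarith) (by linarith) (by linarith)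

theorem log2_le (m : ℕ) (hm : 1 ≤ m) : (Nat.log 2 m : ℝ) ≤ 2 * Real.log m := by
  have h1 : (2 : ℝ) ^ Nat.log 2 m ≤ m := by exact_mod_cast Nat.pow_log_le_self 2 (by omega)
  have h2 := Real.log_le_log (by positivity) h1
  rw [Real.log_pow] at h2
  have h3 := Real.log_two_gt_d9
  have h4 : (0 : ℝ) ≤ Nat.log 2 m := Nat.cast_nonneg _
  nlinarith

theorem ev3 : ∀ᶠ m : ℕ in atTop, ((Nat.log 2 m : ℕ) : ℝ) ^ 20 ≤ (m : ℝ) ^ (0.5 : ℝ) := by
  filter_upwards [ev1 (a := 0.4) (b := 0.5) (100 ^ 20) (by norm_num), eventually_ge_atTop 1] with m hm hm1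
  have hm0 : (1 : ℝ) ≤ m := by exact_mod_cast hm1
  refine le_trans ?_ hm
  have h1 := log2_le m hm1
  have h2 := Real.log_le_rpow_div (show (0 : ℝ) ≤ m by linarith) (show (0 : ℝ) < 0.02 by norm_num)
  have h3 : (Nat.log 2 m : ℝ) ≤ 100 * (m : ℝ) ^ (0.02 : ℝ) := by
    refine h1.trans ?_
    have : (m : ℝ) ^ (0.02 : ℝ) / 0.02 = 50 * (m : ℝ) ^ (0.02 : ℝ) := by ring
    linarith
  calc ((Nat.log 2 m : ℕ) : ℝ) ^ 20 ≤ (100 * (m : ℝ) ^ (0.02 : ℝ)) ^ 20 := pow_le_pow_left₀ (Nat.cast_nonneg _) h3 20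
    _ = 100 ^ 20 * ((m : ℝ) ^ (0.02 : ℝ)) ^ (20 : ℕ) := by rw [mul_pow]
    _ = 100 ^ 20 * (m : ℝ) ^ (0.4 : ℝ) := by
      rw [← Real.rpow_natCast ((m : ℝ) ^ (0.02 : ℝ)) 20, ← Real.rpow_mul (by linarith)]
      norm_num

theorem ev4 (c : ℝ) : ∀ᶠ m : ℕ in atTop, c ≤ ((Nat.log 2 m : ℕ) : ℝ) := by
  obtain ⟨n, hn⟩ := exists_nat_ge c
  filter_upwards [eventually_ge_atTop (2 ^ n)] with m hm
  refine hn.trans ?_
  have : n ≤ Nat.log 2 m := Nat.le_log_of_pow_le (by norm_num) hm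
  exact_mod_cast this

theorem corr (d : ℤ) (hd : d = 1 ∨ d = -1) (hS : S_STAGE d) (hVE : S_VEN d) : S_COR d := by
  intro f hf hmz ε hε
  have hd2 : d % 2 = 1 := by rcases hd with rfl | rfl <;> decide
  obtain ⟨D, m0, hD, hm0, hS⟩ := hS
  obtain ⟨C, hC, hci⟩ := ci d hd
  obtain ⟨Z0, hZ0, hven⟩ := hVE f hf hmz (ε / 4) (by positivity)
  have hfb := hf.1
  set A : ℝ := 4 + 28 / √ε with hA
  have hsε : 0 < √ε := Real.sqrt_pos.2 hε
  have hA4 : 4 ≤ A := by rw [hA]; have : 0 ≤ 28 / √ε := by positivity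
                         linarith
  have hA2 : 784 / ε ≤ A ^ 2 := by
    have h1 : (28 / √ε) ^ 2 = 784 / ε := by rw [div_pow, Real.sq_sqrt hε.le]; norm_num
    rw [← h1]
    apply pow_le_pow_left₀ (by positivity)
    rw [hA]; linarith
  -- eventual facts
  have F1 : ∀ᶠ m : ℕ in atTop, (m0 : ℝ) * (m : ℝ) ^ (0 : ℝ) ≤ (m : ℝ) ^ (0.5005 : ℝ) := ev1 _ (by norm_num)
  have F2 := ev3
  have F3 := ev4 (max 2 (96 * D / ε))
  have F4 : ∀ᶠ m : ℕ in atTop, 5 * (m : ℝ) ^ (0.5001 : ℝ) ≤ (m : ℝ) ^ (0.5002 : ℝ) := ev1 _ (by norm_num)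
  have F5 : ∀ᶠ m : ℕ in atTop, 5 * (m : ℝ) ^ (0.5001 : ℝ) ≤ (m : ℝ) ^ (0.5005 : ℝ) := ev1 _ (by norm_num)
  have F6 : ∀ᶠ m : ℕ in atTop, 4 * (m : ℝ) ^ (0.49974925 : ℝ) ≤ (m : ℝ) ^ (0.4999 : ℝ) := ev1 _ (by norm_num)
  have F7 : ∀ᶠ m : ℕ in atTop, 4 * (m : ℝ) ^ (0.4999 : ℝ) ≤ (m : ℝ) ^ (0.4999995 : ℝ) := ev1 _ (by norm_num)
  have F8 : ∀ᶠ m : ℕ in atTop, (2 * Real.log Z0) * (m : ℝ) ^ (0 : ℝ) ≤ (m : ℝ) ^ (0.5005 : ℝ) := ev1 _ (by norm_num)
  have F9 : ∀ᶠ m : ℕ in atTop, (5 * C ^ 2 * (36 / ε ^ 2)) * Real.log (m + 1) ≤ (m : ℝ) ^ (0.0002 : ℝ) :=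
    ev2 _ (by positivity) (by norm_num)
  obtain ⟨m1, hm1⟩ := eventually_atTop.1 ((F1.and (F2.and (F3.and (F4.and F5)))).and (F6.and (F7.and (F8.and F9))))
  refine ⟨A, 2 ^ (max m1 1), by linarith, one_le_pow₀ (by norm_num), ?_⟩
  intro V hV i hi1 hi2
  obtain ⟨m, hmV1, hmV2⟩ := height (show 1 ≤ V from le_trans (one_le_pow₀ (by norm_num)) hV)
  have hmm : max m1 1 ≤ m := by
    have : (2 : ℝ) ^ (max m1 1) < 2 ^ (m + 1) := lt_of_le_of_lt hV hmV2
    have := (pow_lt_pow_iff_right₀ (show (1 : ℝ) < 2 by norm_num)).1 this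
    omega
  obtain ⟨⟨G1, G2, G3, G4, G5⟩, G6, G7, G8, G9⟩ := hm1 m ((le_max_left _ _).trans hmm)
  have hmn : 1 ≤ m := (le_max_right _ _).trans hmm
  have hm : (1 : ℝ) ≤ m := by exact_mod_cast hmn
  have hm00 : (0 : ℝ) < m := by linarith
  have hV0 : 0 < V := lt_of_lt_of_le (by positivity) hmV1
  have l2 := Real.log_two_gt_d9
  have l2' := Real.log_two_lt_d9
  have l3 := log3_lt
  have l30 : 0 < Real.log 3 := Real.log_pos (by norm_num)
  have hlogV1 : 0.69 * m ≤ Real.log V := by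
    have := Real.log_le_log (by positivity) hmV1
    rw [Real.log_pow] at this
    nlinarith
  have hlogV2 : Real.log V ≤ 1.4 * m := by
    have := Real.log_le_log hV0 hmV2.le
    rw [Real.log_pow] at this
    push_cast at this
    nlinarith
  set L := Nat.log 2 m with hL
  set h := ⌈(m : ℝ) ^ (0.5005 : ℝ)⌉₊ with hh
  set K := ⌈(m : ℝ) ^ (0.4999 : ℝ)⌉₊ with hK
  have hh1 : (m : ℝ) ^ (0.5005 : ℝ) ≤ h := Nat.le_ceil _
  have hh2 : (h : ℝ) ≤ 2 * (m : ℝ) ^ (0.5005 : ℝ) := by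
    have h1 : (h : ℝ) < (m : ℝ) ^ (0.5005 : ℝ) + 1 := Nat.ceil_lt_add_one (by positivity)
    have h2 : (1 : ℝ) ≤ (m : ℝ) ^ (0.5005 : ℝ) := Real.one_le_rpow hm (by norm_num)
    linarith
  have hK1 : (m : ℝ) ^ (0.4999 : ℝ) ≤ K := Nat.le_ceil _
  have hm49 : (1 : ℝ) ≤ (m : ℝ) ^ (0.4999 : ℝ) := Real.one_le_rpow hm (by norm_num)
  have hK2 : (K : ℝ) ≤ 2 * (m : ℝ) ^ (0.4999 : ℝ) := by
    have h1 : (K : ℝ) < (m : ℝ) ^ (0.4999 : ℝ) + 1 := Nat.ceil_lt_add_one (by positivity)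
    linarith
  have hKn : 1 ≤ K := by
    have : (1 : ℝ) ≤ K := hm49.trans hK1
    exact_mod_cast this
  have hL2 : 2 ≤ L := by
    have := (le_max_left _ _).trans G3
    exact_mod_cast this
  have hLr : (0 : ℝ) < L := by exact_mod_cast (show 0 < L by omega)
  have hm0h : m0 ≤ h := by
    rw [Real.rpow_zero, mul_one] at G1
    have : (m0 : ℝ) ≤ h := G1.trans hh1
    exact_mod_cast this
  have hh0 : 1 ≤ h := by omega
  have hLh : L ^ 20 ≤ h := by
    have h1 : (m : ℝ) ^ (0.5 : ℝ) ≤ (m : ℝ) ^ (0.5005 : ℝ) := Real.rpow_le_rpow_of_exponent_le hm (by norm_num)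
    have : ((L : ℕ) : ℝ) ^ 20 ≤ h := G2.trans (h1.trans hh1)
    exact_mod_cast this
  have hLdiv : L ^ 18 ≤ h / L ^ 2 := by
    rw [Nat.le_div_iff_mul_le (by positivity)]
    calc L ^ 18 * L ^ 2 = L ^ 20 := by ring
      _ ≤ h := hLh
  have hL10 : 1024 ≤ L ^ 10 := by
    calc 1024 = 2 ^ 10 := by norm_num
      _ ≤ L ^ 10 := Nat.pow_le_pow_left hL2 10
  have hL31 : L ^ 3 + 1 ≤ 2 * L ^ 3 := by
    have : 1 ≤ L ^ 3 := Nat.one_le_pow _ _ (by omega)
    omega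
  have hc1 : 256 * (L ^ 3 + 1) ^ 2 ≤ h / L ^ 2 := by
    refine le_trans ?_ hLdiv
    calc 256 * (L ^ 3 + 1) ^ 2 ≤ 256 * (2 * L ^ 3) ^ 2 := Nat.mul_le_mul_left _ (Nat.pow_le_pow_left hL31 2)
      _ = 1024 * L ^ 6 := by ring
      _ ≤ L ^ 10 * L ^ 6 := Nat.mul_le_mul_right _ hL10
      _ = L ^ 16 := by ring
      _ ≤ L ^ 18 := Nat.pow_le_pow_right (by omega) (by norm_num)
  have hc2 : L ^ 10 ≤ h / L ^ 2 := le_trans (Nat.pow_le_pow_right (by omega) (by norm_num)) hLdiv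
  -- i
  have hsq : √ (0.69 * m) ≤ √ (Real.log V) := Real.sqrt_le_sqrt hlogV1
  have hsqm : 0.8 * √ (m : ℝ) ≤ √ (0.69 * m) := by
    rw [Real.sqrt_mul (show (0 : ℝ) ≤ 0.69 by norm_num)]
    apply mul_le_mul_of_nonneg_right _ (Real.sqrt_nonneg _)
    apply Real.le_sqrt_of_sq_le
    norm_num
  have hsqm0 : 0 < √ (m : ℝ) := Real.sqrt_pos.2 hm00
  have hi3 : A * (0.8 * √ (m : ℝ)) ≤ i := by
    refine le_trans ?_ hi1
    exact mul_le_mul_of_nonneg_left (hsqm.trans hsq) (by linarith)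
  have hi0 : (0 : ℝ) < i := lt_of_lt_of_le (by positivity) hi3
  have hi4 : (i : ℝ) ≤ 2 * (m : ℝ) ^ (0.5001 : ℝ) := by
    refine hi2.trans ?_
    calc Real.log V ^ (0.5001 : ℝ) ≤ (1.4 * m) ^ (0.5001 : ℝ) :=
          Real.rpow_le_rpow (by nlinarith) hlogV2 (by norm_num)
      _ = 1.4 ^ (0.5001 : ℝ) * (m : ℝ) ^ (0.5001 : ℝ) := Real.mul_rpow (by norm_num) (by linarith)
      _ ≤ 2 * (m : ℝ) ^ (0.5001 : ℝ) := by
        apply mul_le_mul_of_nonneg_right _ (by positivity)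
        calc (1.4 : ℝ) ^ (0.5001 : ℝ) ≤ 1.4 ^ (1 : ℝ) := Real.rpow_le_rpow_of_exponent_le (by norm_num) (by norm_num)
          _ ≤ 2 := by norm_num
  have hjb : ∀ j : ℕ, |(j : ℝ) - i| ≤ i / 2 → (i : ℝ) / 2 ≤ j ∧ (j : ℝ) ≤ 3 * (m : ℝ) ^ (0.5001 : ℝ) := by
    intro j hj
    obtain ⟨a, b⟩ := abs_le.1 hj
    constructor <;> linarith
  have hcore := core (f := f) (L := L) (m := m) (h := h) (K := K) (i0 := i) (γ := ε / 4) hd2 hfb hD
    (fun m L a b c V e i g k => hS f hf m L a b c V e i g k) hKn hm0h hh0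
    (fun m' h1 h2 => by
      have e1 : Nat.log 2 m' ≤ L := Nat.log_mono_right h2
      refine ⟨e1, ?_⟩
      have e2 : m ≤ m' ^ 2 := by
        have h3 : (m : ℝ) ≤ (m' : ℝ) ^ 2 := by
          have h4 : (m : ℝ) ^ (0.5 : ℝ) ≤ m' := by
            have h5 : (m : ℝ) ^ (0.5 : ℝ) ≤ (m : ℝ) ^ (0.5005 : ℝ) := Real.rpow_le_rpow_of_exponent_le hm (by norm_num)
            have h6 : (h : ℝ) ≤ m' := by exact_mod_cast h1
            linarith
          calc (m : ℝ) = ((m : ℝ) ^ (0.5 : ℝ)) ^ 2 := by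
                rw [← Real.rpow_natCast, ← Real.rpow_mul (by linarith)]; norm_num
            _ ≤ (m' : ℝ) ^ 2 := pow_le_pow_left₀ (by positivity) h4 2
        exact_mod_cast h3
      have e3 : m' < 2 ^ (Nat.log 2 m' + 1) := Nat.lt_pow_succ_log_self (by norm_num) m'
      have e4 : 2 ^ L ≤ m := Nat.pow_log_le_self 2 (by omega)
      have e5 : 2 ^ L < 2 ^ (2 * (Nat.log 2 m' + 1)) := by
        calc 2 ^ L ≤ m := e4
          _ ≤ m' ^ 2 := e2
          _ < (2 ^ (Nat.log 2 m' + 1)) ^ 2 := Nat.pow_lt_pow_left e3 (by norm_num)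
          _ = 2 ^ (2 * (Nat.log 2 m' + 1)) := by rw [← pow_mul, mul_comm]
      have e6 := (Nat.pow_lt_pow_iff_right (show 1 < 2 by norm_num)).1 e5
      have e7 : 1 ≤ Nat.log 2 m' := by
        have : 2 ^ 20 ≤ L ^ 20 := Nat.pow_le_pow_left hL2 20
        exact Nat.le_log_of_pow_le (by norm_num) (by omega)
      omega) hL2 hc1 hc2 hi0 (by positivity)
    (fun m' h1 h2 j hj x hx => by
      obtain ⟨a, b⟩ := hjb j hj
      have hx' : (x : ℝ) ≤ K := by exact_mod_cast hx.le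
      have hx0 : (0 : ℝ) ≤ x := Nat.cast_nonneg _
      constructor
      · have e1 : √ (m' : ℝ) ≤ √ (m : ℝ) := Real.sqrt_le_sqrt (by exact_mod_cast h2)
        have e2 : 4 * (0.8 * √ (m : ℝ)) ≤ A * (0.8 * √ (m : ℝ)) := mul_le_mul_of_nonneg_right hA4 (by positivity)
        linarith
      · have e1 : (m : ℝ) ^ (0.4999 : ℝ) ≤ (m : ℝ) ^ (0.5001 : ℝ) := Real.rpow_le_rpow_of_exponent_le hm (by norm_num)
        have e2 : (m : ℝ) ^ (0.5005 : ℝ) ≤ m' := hh1.trans (by exact_mod_cast h1)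
        calc (j : ℝ) + x ≤ 5 * (m : ℝ) ^ (0.5001 : ℝ) := by linarith
          _ ≤ (m : ℝ) ^ (0.5002 : ℝ) := G4
          _ ≤ (m : ℝ) ^ ((0.5005 : ℝ) * 0.9995) := Real.rpow_le_rpow_of_exponent_le hm (by norm_num)
          _ = ((m : ℝ) ^ (0.5005 : ℝ)) ^ (0.9995 : ℝ) := Real.rpow_mul (by linarith) _ _
          _ ≤ (m' : ℝ) ^ (0.9995 : ℝ) := Real.rpow_le_rpow (by positivity) e2 (by norm_num))
    (fun V' h1 h2 j hj => by
      obtain ⟨a, b⟩ := hjb j hj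
      have hV'0 : 0 < V' := lt_of_lt_of_le (by positivity) h1
      have hlz : Real.log (3 ^ j * V') = j * Real.log 3 + Real.log V' := by
        rw [Real.log_mul (by positivity) hV'0.ne', Real.log_pow]
      have hj0 : (0 : ℝ) ≤ j := Nat.cast_nonneg _
      have hh0r : (0 : ℝ) < h := by exact_mod_cast hh0
      have e1 : Real.log V' ≤ 1.4 * h := by
        have := Real.log_le_log hV'0 h2.le
        rw [Real.log_pow] at this
        push_cast at this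
        nlinarith
      have e2 : 0.69 * h ≤ Real.log V' := by
        have := Real.log_le_log (by positivity) h1
        rw [Real.log_pow] at this
        nlinarith
      have e3 : Real.log (3 ^ j * V') ≤ 4 * (m : ℝ) ^ (0.5005 : ℝ) := by
        rw [hlz]
        have : (j : ℝ) * Real.log 3 ≤ 3 * (m : ℝ) ^ (0.5001 : ℝ) * 1.1 := mul_le_mul b l3.le l30.le (by positivity)
        nlinarith
      have e4 : 0.69 * (m : ℝ) ^ (0.5005 : ℝ) ≤ Real.log (3 ^ j * V') := by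
        rw [hlz]
        have : 0 ≤ (j : ℝ) * Real.log 3 := by positivity
        nlinarith
      have e0 : 0 < (m : ℝ) ^ (0.5005 : ℝ) := by positivity
      have hlz0 : 0 ≤ Real.log (3 ^ j * V') := by nlinarith
      refine hven (3 ^ j * V') ?_ K ?_ ?_
      · rw [Real.rpow_zero, mul_one] at G8
        have hz : 0 < 3 ^ j * V' := by positivity
        rw [← Real.log_le_log_iff (by linarith) hz]
        rcases le_or_gt (Real.log Z0) 0 with h5 | h5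
        · linarith
        · nlinarith
      · calc Real.log (3 ^ j * V') ^ (0.9985 : ℝ) ≤ (4 * (m : ℝ) ^ (0.5005 : ℝ)) ^ (0.9985 : ℝ) :=
              Real.rpow_le_rpow hlz0 e3 (by norm_num)
          _ = 4 ^ (0.9985 : ℝ) * ((m : ℝ) ^ (0.5005 : ℝ)) ^ (0.9985 : ℝ) := Real.mul_rpow (by norm_num) e0.le
          _ ≤ 4 * (m : ℝ) ^ (0.49974925 : ℝ) := by
            rw [← Real.rpow_mul (by linarith)]
            apply mul_le_mul
            · calc (4 : ℝ) ^ (0.9985 : ℝ) ≤ 4 ^ (1 : ℝ) := Real.rpow_le_rpow_of_exponent_le (by norm_num) (by norm_num)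
                _ = 4 := Real.rpow_one _
            · exact Real.rpow_le_rpow_of_exponent_le hm (by norm_num)
            · positivity
            · norm_num
          _ ≤ (m : ℝ) ^ (0.4999 : ℝ) := G6
          _ ≤ K := hK1
      · calc (K : ℝ) ≤ 2 * (m : ℝ) ^ (0.4999 : ℝ) := hK2
          _ ≤ 0.5 * (m : ℝ) ^ (0.4999995 : ℝ) := by linarith
          _ ≤ 0.69 ^ (0.999 : ℝ) * (m : ℝ) ^ (0.4999995 : ℝ) := by
            apply mul_le_mul_of_nonneg_right _ (by positivity)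
            calc (0.5 : ℝ) ≤ 0.69 ^ (1 : ℝ) := by norm_num
              _ ≤ 0.69 ^ (0.999 : ℝ) := Real.rpow_le_rpow_of_exponent_ge (by norm_num) (by norm_num) (by norm_num)
          _ = (0.69 * (m : ℝ) ^ (0.5005 : ℝ)) ^ (0.999 : ℝ) := by
            rw [Real.mul_rpow (by norm_num) e0.le, ← Real.rpow_mul (by linarith)]
            norm_num
          _ ≤ Real.log (3 ^ j * V') ^ (0.999 : ℝ) := Real.rpow_le_rpow (by positivity) e4 (by norm_num))
  -- the value at the top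
  have hhm : h ≤ m := by
    by_contra hcon
    push Not at hcon
    -- h ≤ 2 m^0.5005 ≤ m
    have e1 : (m : ℝ) < h := by exact_mod_cast hcon
    have e2 : (m : ℝ) ^ (0.5005 : ℝ) ≤ m / 2 := by
      have h1 : (2 : ℝ) ^ 20 ≤ (m : ℝ) ^ (0.5 : ℝ) := by
        refine le_trans ?_ G2
        exact pow_le_pow_left₀ (by norm_num) (by exact_mod_cast hL2) 20
      have h2 : (m : ℝ) ^ (0.5005 : ℝ) * 2 ≤ (m : ℝ) ^ (0.5005 : ℝ) * (m : ℝ) ^ (0.4995 : ℝ) := by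
        apply mul_le_mul_of_nonneg_left _ (by positivity)
        calc (2 : ℝ) ≤ ((2 : ℝ) ^ (20 : ℕ)) ^ (0.999 : ℝ) := by
              rw [← Real.rpow_natCast, ← Real.rpow_mul (by norm_num)]
              calc (2 : ℝ) = 2 ^ (1 : ℝ) := (Real.rpow_one 2).symm
                _ ≤ 2 ^ (((20 : ℕ) : ℝ) * 0.999) := Real.rpow_le_rpow_of_exponent_le (by norm_num) (by norm_num)
          _ ≤ ((m : ℝ) ^ (0.5 : ℝ)) ^ (0.999 : ℝ) := Real.rpow_le_rpow (by positivity) h1 (by norm_num)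
          _ = (m : ℝ) ^ (0.4995 : ℝ) := by rw [← Real.rpow_mul (by linarith)]; norm_num
      rw [← Real.rpow_add hm00] at h2
      norm_num at h2 ⊢
      linarith
    linarith
  have hb := hcore m hhm le_rfl V hmV1 hmV2 i
  have e0 : (((i : ℕ) : ℤ) : ℝ) = (i : ℝ) := by norm_cast
  rw [e0, sub_self] at hb
  have t1 : 132 * (m : ℝ) / (i : ℝ) ^ 2 ≤ ε / 3 := by
    have h1 : (A * (0.8 * √ (m : ℝ))) ^ 2 ≤ (i : ℝ) ^ 2 := pow_le_pow_left₀ (by positivity) hi3 2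
    have h2 : (A * (0.8 * √ (m : ℝ))) ^ 2 = 0.64 * A ^ 2 * m := by
      rw [mul_pow, mul_pow, Real.sq_sqrt hm00.le]; ring
    rw [h2] at h1
    have h3 : 0.64 * (784 / ε) * m ≤ (i : ℝ) ^ 2 :=
      le_trans (mul_le_mul_of_nonneg_right (mul_le_mul_of_nonneg_left hA2 (by norm_num)) hm00.le) h1
    rw [div_le_iff₀ (by positivity)]
    calc 132 * (m : ℝ) ≤ ε / 3 * (0.64 * (784 / ε) * m) := by
          have : ε / 3 * (0.64 * (784 / ε) * m) = 0.64 * 784 / 3 * m := by field_simp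
          rw [this]
          nlinarith
      _ ≤ ε / 3 * (i : ℝ) ^ 2 := mul_le_mul_of_nonneg_left h3 (by positivity)
  have t2 : 12 * D / (L : ℝ) ^ 2 * (Real.log m - Real.log h) ≤ ε / 4 := by
    have h1 : Real.log m ≤ 2 * L := by
      have h2 : (m : ℝ) ≤ 2 ^ (L + 1) := by
        exact_mod_cast (Nat.lt_pow_succ_log_self (by norm_num) m).le
      have h3 := Real.log_le_log hm00 h2
      rw [Real.log_pow] at h3
      push_cast at h3
      have h4 : (2 : ℝ) ≤ L := by exact_mod_cast hL2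
      nlinarith
    have h2 : 0 ≤ Real.log h := Real.log_nonneg (by exact_mod_cast hh0)
    have h3 : 96 * D / ε ≤ L := (le_max_right _ _).trans G3
    rw [div_le_iff₀ hε] at h3
    calc 12 * D / (L : ℝ) ^ 2 * (Real.log m - Real.log h) ≤ 12 * D / (L : ℝ) ^ 2 * (2 * L) :=
          mul_le_mul_of_nonneg_left (by linarith) (by positivity)
      _ = 24 * D / L := by field_simp; ring
      _ ≤ ε / 4 := by
        rw [div_le_iff₀ hLr]; linarith
  -- smoothing at the top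
  have t3 : |cor f V i - bl f K V i| ≤ ε / 6 := by
    have hKr : (0 : ℝ) < K := by exact_mod_cast hKn
    have h1 : ∀ x ∈ range K, |cor f V i - cor f V ((i : ℤ) + (x : ℕ))| ≤ ε / 6 := by
      intro x hx
      rw [mem_range] at hx
      have b1 := corB hfb (i : ℤ)
      have b2 := corB hfb ((i : ℤ) + (x : ℕ))
      have b3 : Bd 1 (fun y : ℝ => f ⌊3 ^ i * y⌋) := Bd.flc (F := f) hfb (g := fun y : ℝ => (3 : ℝ) ^ i * y) (by fun_prop)
      have b4 : Bd 1 (fun y : ℝ => f ⌊3 ^ x * (3 ^ i * y) + 0⌋) :=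
        Bd.flc (F := f) hfb (g := fun y : ℝ => (3 : ℝ) ^ x * (3 ^ i * y) + 0) (by fun_prop)
      have e1 : cor f V i - cor f V ((i : ℤ) + (x : ℕ))
          = av V (fun y => f ⌊y⌋ * f ⌊(3 : ℝ) ^ (i : ℤ) * y⌋ - f ⌊y⌋ * f ⌊(3 : ℝ) ^ ((i : ℤ) + (x : ℕ)) * y⌋) :=
        (av_sub V b1 b2).symm
      rw [e1]
      refine (abs_av_le hV0 (b1.sub b2)).trans ?_
      have h2 := hci f hf m hmn (3 ^ i * V) (le_trans hmV1 (le_mul_of_one_le_left hV0.le (one_le_pow₀ (by norm_num)))) x 0 0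
        (by simp)
      have h3 := av_scale hV0 (show (0 : ℝ) < 3 ^ i by positivity) (fun y => |f ⌊y⌋ - f ⌊3 ^ x * y + 0⌋|)
      rw [← h3] at h2
      have h4 : av V (fun y => |f ⌊y⌋ * f ⌊(3 : ℝ) ^ (i : ℤ) * y⌋ - f ⌊y⌋ * f ⌊(3 : ℝ) ^ ((i : ℤ) + (x : ℕ)) * y⌋|)
          ≤ av V (fun y => |f ⌊3 ^ i * y⌋ - f ⌊3 ^ x * (3 ^ i * y) + 0⌋|) := by
        apply av_mono hV0 (b1.sub b2).abs (b3.sub b4).abs
        intro y _ _
        have e2 : (3 : ℝ) ^ ((i : ℤ) + (x : ℕ)) * y = 3 ^ x * (3 ^ i * y) + 0 := by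
          rw [show ((i : ℤ) + ((x : ℕ) : ℤ)) = ((i + x : ℕ) : ℤ) by push_cast; ring, zpow_natCast, pow_add]
          ring
        rw [e2, zpow_natCast, ← mul_sub, abs_mul]
        exact mul_le_of_le_one_left (abs_nonneg _) (hfb _)
      refine h4.trans (h2.trans ?_)
      -- numeric
      have hρ := rho_nonneg m
      have h5 : 1 + (x : ℝ) ^ 2 + ((0 : ℕ) : ℝ) ≤ 5 * (m : ℝ) ^ (0.9998 : ℝ) := by
        have h6 : (x : ℝ) ≤ K := by exact_mod_cast hx.le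
        have h7 : (x : ℝ) ^ 2 ≤ (2 * (m : ℝ) ^ (0.4999 : ℝ)) ^ 2 :=
          pow_le_pow_left₀ (Nat.cast_nonneg _) (h6.trans hK2) 2
        have h8 : (2 * (m : ℝ) ^ (0.4999 : ℝ)) ^ 2 = 4 * (m : ℝ) ^ (0.9998 : ℝ) := by
          rw [mul_pow, ← Real.rpow_natCast ((m : ℝ) ^ (0.4999 : ℝ)) 2, ← Real.rpow_mul (by linarith)]
          norm_num
        have h9 : (1 : ℝ) ≤ (m : ℝ) ^ (0.9998 : ℝ) := Real.one_le_rpow hm (by norm_num)
        rw [h8] at h7
        push_cast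
        linarith
      have h6 : (C * √ (1 + (x : ℝ) ^ 2 + ((0 : ℕ) : ℝ)) * rho m) ^ 2 ≤ (ε / 6) ^ 2 := by
        rw [mul_pow, mul_pow, Real.sq_sqrt (by positivity), rho_sq hmn]
        have h7 : (m : ℝ) ^ (0.0002 : ℝ) * (m : ℝ) ^ (0.9998 : ℝ) = m := by
          rw [← Real.rpow_add hm00]; norm_num
        have hlog0 : 0 ≤ Real.log ((m : ℝ) + 1) := Real.log_nonneg (by linarith)
        calc C ^ 2 * (1 + (x : ℝ) ^ 2 + ((0 : ℕ) : ℝ)) * (Real.log (m + 1) / m)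
            ≤ C ^ 2 * (5 * (m : ℝ) ^ (0.9998 : ℝ)) * (Real.log (m + 1) / m) := by
              apply mul_le_mul_of_nonneg_right _ (by positivity)
              exact mul_le_mul_of_nonneg_left h5 (by positivity)
          _ = (5 * C ^ 2 * (36 / ε ^ 2) * Real.log (m + 1)) * (m : ℝ) ^ (0.9998 : ℝ) * (ε ^ 2 / 36) / m := by
              field_simp
          _ ≤ (m : ℝ) ^ (0.0002 : ℝ) * (m : ℝ) ^ (0.9998 : ℝ) * (ε ^ 2 / 36) / m := by
              apply div_le_div_of_nonneg_right _ hm00.le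
              apply mul_le_mul_of_nonneg_right _ (by positivity)
              exact mul_le_mul_of_nonneg_right G9 (by positivity)
          _ = (ε / 6) ^ 2 := by rw [h7]; field_simp; norm_num
      exact le_of_sq_le_sq h6 (by positivity)
    have h2 : cor f V i - bl f K V i = (∑ x ∈ range K, (cor f V i - cor f V ((i : ℤ) + (x : ℕ)))) / K := by
      rw [sum_sub_distrib, sum_const, card_range, nsmul_eq_mul, sub_div]
      unfold bl
      congr 1
      field_simp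
    rw [h2, abs_div, abs_of_pos hKr, div_le_iff₀ hKr]
    refine (abs_sum_le_sum_abs _ _).trans ?_
    calc ∑ x ∈ range K, |cor f V i - cor f V ((i : ℤ) + (x : ℕ))| ≤ ∑ x ∈ range K, ε / 6 := sum_le_sum h1
      _ = ε / 6 * K := by rw [sum_const, card_range, nsmul_eq_mul, mul_comm]
  have h9 := abs_sub_abs_le_abs_sub (cor f V i) (bl f K V i)
  have h10 : 4 * (0 : ℝ) ^ 2 / (i : ℝ) ^ 2 = 0 := by norm_num
  rw [h10] at hb
  linarith

end Pool.Agent.KS6_24.ST
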