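import Mathlib
import Pool.Agent.KS6_24.ST.Defs
import Pool.Graph.R_pool_sql_team_seeded_47a924f7.T6.H47.CL13

/-!
PROJECT PL: the exact pair law `P(n ∈ S, 3^i n ∈ S) = δ² + δ(1-δ)(1 - erf(i √(gm / log N))) + o(1)`.
Statements of the jobs.

Proof. `UU k j` is the mean of the sign of `j + S_k`, `S_k` the simple random walk (for `j ≥ 0` the probability `uu k j` not
to reach `0` in `k` steps). A stage changes the level `i` by `c' - c`, the difference of two independent Binomial (t,1/2),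
that is by `S_{2t}/2`, and `kk V = 2 log V / gm` by `-2t`. So `UU (kk V) (2i)` is preserved by the stage up to `C/L^4`
(S_WK), as is `cor f V i` (S_STAGE2), and `e V i = cor f V i - q (1 - UU (kk V) (2i))` is small at the ends: `i` small
(S_BD, the trajectories have merged), height `eta m` and `i ≥ A √(eta m)` (S_COR). Barrier for the other levels at the
height `eta m`: `UU (kk V) (2i+a) - UU (kk V) (2i-a)`.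
-/

set_option autoImplicit false

namespace Pool.Agent.KS6_24.ST

open Pool.Agent.H499R2.CO Pool.Agent.Y965.SI Finset Pool.Agent.KS6_24.LN

open Pool.Agent.T6.H47.CL (uu Er)

/-- the mean of the sign of `j + S_k`, `S_k` the simple random walk -/
noncomputable def UU : ℕ → ℤ → ℝ
  | 0, j => if j = 0 then 0 else if 0 < j then 1 else -1
  | k + 1, j => (UU k (j + 1) + UU k (j - 1)) / 2

/-- number of steps of the simple random walk until the height of `V` is zero -/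
noncomputable def kk (V : ℝ) : ℕ := ⌊2 * Real.log V / gm⌋₊

/-- PL1 (helper12): properties of `UU`. -/
def S_U : Prop := ∃ C : ℝ, 0 < C ∧ (∀ k j, UU k (-j) = - UU k j) ∧ (∀ k j, |UU k j| ≤ 1) ∧ (∀ k, Monotone (UU k)) ∧
  (∀ k j, UU k (j + 1) - UU k j ≤ C / √ ((k : ℝ) + 1)) ∧
  (∀ (k n : ℕ) (j : ℤ), |UU (k + n) j - UU k j| ≤ C * √ n / √ ((k : ℝ) + 1)) ∧
  (∀ (k : ℕ) (j : ℤ), 1 ≤ j → 1 - 2 * k / (j : ℝ) ^ 2 ≤ UU k j) ∧ (∀ k i : ℕ, UU k i = uu k i)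

/-- PL2 (helper6): the stage acts on `UU` (also the total mass). -/
def S_WK (d : ℤ) : Prop := ∃ (C : ℝ) (m0 : ℕ), 0 < C ∧ ∀ m L : ℕ, m0 ≤ m → Nat.log 2 m ≤ L → L ≤ 3 * Nat.log 2 m →
  (∀ V : ℝ, 2 ^ m ≤ V → V < 2 ^ (m + 1) → ∀ j : ℤ,
    |∑ c ∈ Cs (st m L) (sgw m L) (sB m L), ∑ c' ∈ Cs (st m L) (sgw m L) (sB m L),
        pc d (st m L) (sgw m L) c * pc d (st m L) (sgw m L) c' * UU (kk (3 ^ c / 2 ^ (st m L) * V)) (j + 2 * ((c' : ℤ) - c))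
      - UU (kk V) j| ≤ C / (L : ℝ) ^ 4) ∧
  1 - C / (L : ℝ) ^ 4 ≤ ∑ c ∈ Cs (st m L) (sgw m L) (sB m L), ∑ c' ∈ Cs (st m L) (sgw m L) (sB m L),
        pc d (st m L) (sgw m L) c * pc d (st m L) (sgw m L) c'

/-- PL3 (helper56): the tail of `c - c'`. -/
def S_TL (d : ℤ) : Prop := ∃ (C : ℝ) (m0 : ℕ), 0 < C ∧ ∀ m L : ℕ, m0 ≤ m → Nat.log 2 m ≤ L → L ≤ 3 * Nat.log 2 m →
  ∀ i : ℕ, (m : ℝ) ^ 2 ≤ (i : ℝ) ^ 4 * (L : ℝ) ^ 3 →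
    ∑ c ∈ Cs (st m L) (sgw m L) (sB m L), ∑ c' ∈ Cs (st m L) (sgw m L) (sB m L),
      pc d (st m L) (sgw m L) c * pc d (st m L) (sgw m L) c' * (if i + c' ≤ c then 1 else 0) ≤ C / (L : ℝ) ^ 4

/-- PL4 (helper56): merged pairs. -/
def S_BD (d : ℤ) : Prop := ∀ f : ℤ → ℝ, InvF d f → ∀ q : ℝ, MeanZero (fun x => f x ^ 2 - q) → ∀ ε : ℝ, 0 < ε →
  ∃ m0 : ℕ, ∀ m L : ℕ, m0 ≤ m → Nat.log 2 m ≤ L → L ≤ 3 * Nat.log 2 m → ∀ V : ℝ, 2 ^ m ≤ V → V < 2 ^ (m + 1) →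
    ∀ i : ℕ, (i : ℝ) ^ 4 * (L : ℝ) ^ 3 ≤ (m : ℝ) ^ 2 → |cor f V i - q| ≤ ε ∧ |UU (kk V) (2 * i)| ≤ ε

/-- PL5 (helper24): the stage lemma for lower levels. -/
def S_STAGE2 (d : ℤ) : Prop := ∃ (D : ℝ) (m0 : ℕ), 0 < D ∧ 2 ≤ m0 ∧ ∀ f : ℤ → ℝ, InvF d f → ∀ m L : ℕ, m0 ≤ m →
  Nat.log 2 m ≤ L → L ≤ 3 * Nat.log 2 m → ∀ V : ℝ, 2 ^ m ≤ V → ∀ i : ℕ, (m : ℝ) ^ 2 ≤ (i : ℝ) ^ 4 * (L : ℝ) ^ 3 →
    (i : ℝ) ≤ (m : ℝ) ^ (0.9995 : ℝ) →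
    |cor f V i - ∑ c ∈ Cs (st m L) (sgw m L) (sB m L), ∑ c' ∈ Cs (st m L) (sgw m L) (sB m L),
        pc d (st m L) (sgw m L) c * pc d (st m L) (sgw m L) c' * cor f (3 ^ c / 2 ^ (st m L) * V) ((i : ℤ) + c' - c)|
      ≤ D / (L : ℝ) ^ 4

/-- PL6 (helper24): THE PAIR LAW in terms of the simple random walk. -/
def S_PL (d : ℤ) : Prop := ∀ f : ℤ → ℝ, InvF d f → MeanZero f → ∀ q : ℝ, MeanZero (fun x => f x ^ 2 - q) →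
  ∀ ε : ℝ, 0 < ε → ∃ V0 : ℝ, 1 ≤ V0 ∧ ∀ V : ℝ, V0 ≤ V → ∀ i : ℕ, (i : ℝ) ≤ Real.log V ^ (0.5001 : ℝ) →
    |cor f V i - q * (1 - UU (kk V) (2 * i))| ≤ ε

/-- PL7 (helper7): the pair law with the error function, `Er (√2 x) = erf x` (`CL.Er_eq`). -/
def S_PLE (d : ℤ) : Prop := ∀ f : ℤ → ℝ, InvF d f → MeanZero f → ∀ q : ℝ, MeanZero (fun x => f x ^ 2 - q) →
  ∀ ε : ℝ, 0 < ε → ∃ V0 : ℝ, 1 ≤ V0 ∧ ∀ V : ℝ, V0 ≤ V → ∀ i : ℕ, (i : ℝ) ≤ Real.log V ^ (0.5001 : ℝ) →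
    |cor f V i - q * (1 - Er (√2 * (i * √ (gm / Real.log V))))| ≤ ε

open Classical in
/-- PL8 (helper7): THE PAIR LAW for sets, uniform in the level and in the shift. -/
def S_PAIRLAW (d : ℤ) : Prop := ∀ S : Set ℤ, (∀ x, Tz d x ∈ S ↔ x ∈ S) → ∀ δ : ℝ, 0 ≤ δ → δ ≤ 1 →
  MeanZero (fun x => S.indicator (fun _ => (1 : ℝ)) x - δ) → ∀ ε : ℝ, 0 < ε → ∃ N0 : ℕ, ∀ N : ℕ, N0 ≤ N →
  ∀ i : ℕ, (i : ℝ) ≤ Real.log N ^ (0.50005 : ℝ) → ∀ r : ℤ, |r| ≤ 3 ^ i →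
    |(({n ∈ Icc 1 N | ((n : ℕ) : ℤ) ∈ S ∧ 3 ^ i * ((n : ℕ) : ℤ) + r ∈ S}.card : ℕ) : ℝ)
      - (δ ^ 2 + δ * (1 - δ) * (1 - Er (√2 * (i * √ (gm / Real.log N))))) * N| ≤ ε * N

end Pool.Agent.KS6_24.ST
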