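import Mathlib
import Pool.Agent.KS6_24.ST.PLDefs

/-!
PROJECT MX: `n` invariant functions at once. Statements of the jobs.

After `t` steps `3^(i a) y` becomes `3^(i a + c a) y / 2^t`, `c a` the numbers of odd steps; they are asymptotically independent
if the gaps `|i a - i b|` are at least `√m / L^(3/4)`.
Stage lemma: `Π F a (x a) ~ Σ_c Π psi_(c a)(x a) fc_(c a)(y a)` (co2), the `fc` do not feel a shift `w < l 3^E` of the largest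
`y` (fc_shift), and the average of `Π psi_(c a)(x a)` over these shifts is `Π pc (c a)` in mean square (S_ETAN).
-/

set_option autoImplicit false

namespace Pool.Agent.KS6_24.ST

open Pool.Agent.H499R2.CO Pool.Agent.Y965.SI Finset Pool.Agent.KS6_24.LN Pool.Agent.KS6_24.LN.TW

/-- MX1 (helper6): `n` WALKERS (as `S_4W`). -/
def S_NW (d : ℤ) : Prop := ∀ n : ℕ, ∃ C : ℝ, 0 < C ∧ ∀ t Λ : ℕ, 1 ≤ Λ → Λ ≤ t → ∀ (φ : ℕ → ℕ → ℝ) (δ₁ δ₂ : ℝ),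
  0 ≤ δ₁ → δ₁ ≤ 1 → 0 ≤ δ₂ → (∀ a k, |φ a k| ≤ 1) → (∀ a k, |φ a (k + 1) - φ a k| ≤ δ₁) →
  (∀ a k, |φ a (k + 2) - 2 * φ a (k + 1) + φ a k| ≤ δ₂) → ∀ A B : ℕ → ℤ, (∀ a, A a % 2 = 1) →
  |pm t (fun v => ∏ a ∈ range n, φ a (od d t (A a * v + B a))) - ∏ a ∈ range n, pm t (fun v => φ a (od d t v))|
    ≤ δ₁ ^ 2 * (∑ a ∈ range n, ∑ b ∈ range n, if a < b then ∑ q ∈ range (t / Λ), pm t (fun v => |∑ j ∈ range Λ,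
        sg ((Tz d)^[q * Λ + j] (A a * v + B a)) * sg ((Tz d)^[q * Λ + j] (A b * v + B b))|) else 0)
      + C * (t * Λ * (δ₁ * δ₂ + δ₁ ^ 3) + Λ * δ₁ ^ 2)

/-- MX2: the averages over windows of the product of the weights of `y / 3^(e a)`, `a : Fin n`, in mean square
(from `S_NW`, `S_WS`, `S_BAL`; as `eta`). -/
def S_ETAN (d : ℤ) : Prop := ∀ n C : ℕ, ∃ (D : ℝ) (t0 : ℕ), 0 < D ∧ 2 ≤ t0 ∧ ∀ t k Λ g l E : ℕ, t0 ≤ t → D ≤ k →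
  1 ≤ Λ → Λ ≤ k → k ≤ t → 1 ≤ g → E ≤ t ^ 10 → gm * t + 40 * k ≤ Real.log l → ∀ e : Fin n → ℕ, (∀ a, e a ≤ E) →
  ∀ x : ℝ, 0 ≤ x → (∀ a b, a ≠ b → x ≤ |(e a : ℝ) - e b|) → ∀ W : ℝ, 3 ^ E * 2 ^ t ≤ W → ∀ c : Fin n → ℕ,
    av W (fun y => ((∑ w ∈ range (l * 3 ^ E), ∏ a, ((g : ℝ) * psi d t g (c a) ((⌊y⌋ + (w : ℕ)) / 3 ^ e a))) / (l * 3 ^ E)
        - ∏ a, ((g : ℝ) * pc d t g (c a))) ^ 2)
      ≤ D * (t / (g : ℝ) ^ 2 * (√ (1 / Λ + (t + k : ℝ) ^ 3 / (k : ℝ) ^ 4) + √ (Real.log t / Λ) + 1 / Real.log t ^ C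
          + Real.exp (-x ^ 2 / (2 * t))) + t * Λ / (g : ℝ) ^ 3 + Λ / (g : ℝ) ^ 2 + 3 ^ E * 2 ^ t / W)

/-- correlation of `n` functions at the levels `i` -/
noncomputable def cn {n : ℕ} (F : Fin n → ℤ → ℝ) (V : ℝ) (i : Fin n → ℤ) : ℝ :=
  av V (fun y => ∏ a, F a ⌊(3 : ℝ) ^ i a * y⌋)

/-- MX3 (helper24): STAGE LEMMA for `n` functions. -/
def S_STAGEN (d : ℤ) : Prop := ∀ n : ℕ, ∃ (D : ℝ) (m0 : ℕ), 0 < D ∧ 2 ≤ m0 ∧ ∀ F : Fin n → ℤ → ℝ,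
  (∀ a, InvF d (F a)) → ∀ m L : ℕ, m0 ≤ m → Nat.log 2 m ≤ L → L ≤ 3 * Nat.log 2 m → ∀ V : ℝ, 2 ^ m ≤ V →
  ∀ i : Fin n → ℕ, (∀ a, (i a : ℝ) ≤ (m : ℝ) ^ (0.9995 : ℝ)) →
    (∀ a b, a ≠ b → (m : ℝ) ^ 2 ≤ ((i a : ℝ) - i b) ^ 4 * (L : ℝ) ^ 3) →
    |cn F V (fun a => i a) - ∑ c ∈ Fintype.piFinset (fun _ : Fin n => Cs (st m L) (sgw m L) (sB m L)),
        (∏ a, pc d (st m L) (sgw m L) (c a)) * cn F (V / 2 ^ (st m L)) (fun a => (i a : ℤ) + c a)|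
      ≤ D / (L : ℝ) ^ 4

/-- MX4: MIXING OF ALL ORDERS for mean zero functions (from `S_STAGEN` and `S_VEN`, as `corr`). -/
def S_CORN (d : ℤ) : Prop := ∀ (n : ℕ) (F : Fin (n + 1) → ℤ → ℝ), (∀ a, InvF d (F a)) → MeanZero (F 0) →
  ∀ ε : ℝ, 0 < ε → ∃ A V0 : ℝ, 0 < A ∧ 1 ≤ V0 ∧ ∀ V : ℝ, V0 ≤ V → ∀ i : Fin (n + 1) → ℕ,
    (∀ a, (i a : ℝ) ≤ Real.log V ^ (0.5001 : ℝ)) → (∀ a b, a ≠ b → A * √ (Real.log V) ≤ |(i a : ℝ) - i b|) →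
    |cn F V (fun a => i a)| ≤ ε

end Pool.Agent.KS6_24.ST
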