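import Mathlib
import Pool.Agent.KS6_24.LN.PairAbs

/-! J5a: the stage lemma with abstract error terms (`lam ≤ 1`). -/

set_option autoImplicit false

namespace Pool.Agent.KS6_24.ST

open Pool.Agent.H499R2.CO Pool.Agent.Y965.SI Finset Pool.Agent.KS6_24.LN

/-- TWO oscillating factors, second moment as hypothesis -/
theorem q1' {φ χ : ℤ → ℝ} (hφ : ∀ x, |φ x| ≤ 1) (hχ : ∀ x, |χ x| ≤ 1)
    {G : ℝ → ℝ} (hG : Bd 1 G) {V : ℝ} (hV : 0 < V) {l : ℕ}
    (hl : 1 ≤ l) {lam e₃ η : ℝ} (h3 : ∀ w < l, av V (fun y => |G (y + (w : ℕ)) - G y|) ≤ e₃)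
    (h45 : (∑ w ∈ range l, ∑ w' ∈ range l, |av V (fun y => (φ (⌊y⌋ + (w : ℕ)) * φ (⌊y⌋ + (w' : ℕ))) *
      (χ ⌊lam * y + lam * w⌋ * χ ⌊lam * y + lam * w'⌋))|) / (l : ℝ) ^ 2 ≤ η) :
    |av V (fun y => φ ⌊y⌋ * χ ⌊lam * y⌋ * G y)| ≤ √ η + e₃ + 2 * l / V := by
  have hl' : (0 : ℝ) < l := by exact_mod_cast hl
  have hφB : Bd 1 (fun y : ℝ => φ ⌊y⌋) := Bd.fl hφ
  have hχB : Bd 1 (fun y : ℝ => χ ⌊lam * y⌋) := Bd.flc hχ (by fun_prop)
  have hu : Bd (1 * 1 * 1) (fun y => φ ⌊y⌋ * χ ⌊lam * y⌋ * G y) := (hφB.mul hχB).mul hG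
  have h0 := av_avg_shift hV hu hl
  simp only [mul_one] at h0
  have hfl : ∀ (y : ℝ) (w : ℕ), ⌊y + (w : ℕ)⌋ = ⌊y⌋ + (w : ℕ) := fun y w => by
    rw [Int.floor_add_natCast]
  simp only [hfl, mul_add] at h0
  set P : ℕ → ℝ → ℝ := fun w y => φ (⌊y⌋ + (w : ℕ)) * χ ⌊lam * y + lam * (w : ℕ)⌋ with hPdef
  have bP : ∀ w : ℕ, Bd (1 * 1) (P w) := fun w => (Bd.shiftfl hφ (w : ℤ)).mul (Bd.flc hχ (by fun_prop))
  have h4' : |(∑ w ∈ range l, av V (fun y => P w y * G (y + (w : ℕ)))) / l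
      - (∑ w ∈ range l, av V (fun y => P w y * G y)) / l| ≤ e₃ := by
    rw [← sub_div, ← sum_sub_distrib, abs_div, abs_of_pos hl', div_le_iff₀ hl']
    refine (abs_sum_le_sum_abs _ _).trans ?_
    calc ∑ w ∈ range l, |av V (fun y => P w y * G (y + (w : ℕ))) - av V (fun y => P w y * G y)|
        ≤ ∑ w ∈ range l, e₃ := by
          apply sum_le_sum
          intro w hw
          have b1 := bP w
          have b2 : Bd 1 (fun y => G (y + (w : ℕ))) := hG.comp (by fun_prop)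
          rw [← av_sub V (b1.mul b2) (b1.mul hG)]
          have b3 : Bd (1 * 1 * (1 + 1)) (fun y => P w y * (G (y + (w : ℕ)) - G y)) := b1.mul (b2.sub hG)
          have e : (fun y => P w y * G (y + (w : ℕ)) - P w y * G y)
              = fun y => P w y * (G (y + (w : ℕ)) - G y) := by funext y; ring
          rw [e]
          refine (abs_av_le hV b3).trans ?_
          refine le_trans ?_ (h3 w (mem_range.1 hw))
          apply av_mono hV b3.abs (b2.sub hG).abs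
          intro y _ _
          rw [abs_mul]
          have := b1.2 y
          rw [one_mul] at this
          exact mul_le_of_le_one_left (abs_nonneg _) this
      _ = e₃ * l := by rw [sum_const, card_range, nsmul_eq_mul, mul_comm]
  -- second moment
  set A : ℝ → ℝ := fun y => (1 / (l : ℝ)) * ∑ w ∈ range l, P w y with hA
  have bA : Bd 1 A := by
    have b := (Bd.sum fun w (_ : w ∈ range l) => bP w).cmul (1 / (l : ℝ))
    refine b.mono (le_of_eq ?_)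
    rw [abs_of_pos (by positivity), sum_const, card_range, nsmul_eq_mul]
    field_simp
  have h6 : (∑ w ∈ range l, av V (fun y => P w y * G y)) / l = av V (fun y => A y * G y) := by
    have b : ∀ w ∈ range l, Bd (1 * 1 * 1) (fun y => P w y * G y) := fun w _ => (bP w).mul hG
    have e : (fun y => A y * G y) = fun y => (1 / (l : ℝ)) * ∑ w ∈ range l, P w y * G y := by
      funext y; rw [hA]; simp only; rw [← sum_mul]; ring
    rw [e, av_cmul, av_sum V b]; ring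
  have h7 : |av V (fun y => A y * G y)| ≤ √ (av V (fun y => A y ^ 2)) := by
    refine (abs_av_le hV (bA.mul hG)).trans (le_trans ?_ (av_abs_le_sqrt hV bA))
    apply av_mono hV (bA.mul hG).abs bA.abs
    intro y _ _
    rw [abs_mul]
    exact mul_le_of_le_one_right (abs_nonneg _) (hG.2 y)
  have h8 : av V (fun y => A y ^ 2) ≤ η := by
    have b2 : ∀ w ∈ range l, ∀ w' ∈ range l, Bd (1 * 1 * (1 * 1)) (fun y => P w y * P w' y) :=
      fun w _ w' _ => (bP w).mul (bP w')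
    have e : (fun y => A y ^ 2) = fun y => (1 / (l : ℝ) ^ 2) * ∑ w ∈ range l, ∑ w' ∈ range l, P w y * P w' y := by
      funext y
      rw [hA]
      simp only
      rw [mul_pow, pow_two (∑ w ∈ range l, P w y), sum_mul_sum, one_div, inv_pow, one_div]
    rw [e, av_cmul]
    have bs : ∀ w ∈ range l, Bd (∑ w' ∈ range l, (1 * 1 * (1 * 1) : ℝ)) (fun y => ∑ w' ∈ range l, P w y * P w' y) :=
      fun w hw => Bd.sum fun w' hw' => b2 w hw w' hw'
    rw [av_sum V bs]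
    have e2 : ∀ w ∈ range l, av V (fun y => ∑ w' ∈ range l, P w y * P w' y)
        = ∑ w' ∈ range l, av V (fun y => P w y * P w' y) := fun w hw => av_sum V fun w' hw' => b2 w hw w' hw'
    rw [sum_congr rfl e2]
    refine le_trans ?_ h45
    rw [one_div, inv_mul_eq_div]
    apply div_le_div_of_nonneg_right _ (by positivity)
    apply sum_le_sum; intro w _
    apply sum_le_sum; intro w' _
    have e3 : (fun y => P w y * P w' y) = fun y => (φ (⌊y⌋ + (w : ℕ)) * φ (⌊y⌋ + (w' : ℕ))) *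
        (χ ⌊lam * y + lam * w⌋ * χ ⌊lam * y + lam * w'⌋) := by
      funext y; rw [hPdef]; simp only; ring
    rw [e3]
    exact le_abs_self _
  have h14 : √ (av V (fun y => A y ^ 2)) ≤ √ η := Real.sqrt_le_sqrt h8
  rw [h6] at h4'
  have h9 := abs_le.1 h0
  have h10 := abs_le.1 h4'
  have h11 := abs_le.1 h7
  rw [abs_le]
  constructor <;> linarith [h9.1, h9.2, h10.1, h10.2, h11.1, h11.2]

variable {d : ℤ} {f : ℤ → ℝ} {t g B : ℕ}
variable (hf : ∀ x, |f x| ≤ 1)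
include hf

/-- the quadratic term -/
theorem term2' (hg : 1 ≤ g) {V lam : ℝ} (hV : 0 < V) (hlam : 0 < lam) {l : ℕ} (hl : 1 ≤ l) {e₃ η : ℝ}
    (h3 : ∀ c ∈ Cs t g B, ∀ w < l, av V (fun y => |fc f t c (y + (w : ℕ)) - fc f t c y|) ≤ e₃)
    (h3' : ∀ c ∈ Cs t g B, ∀ w < l, av (lam * V) (fun y => |fc f t c (y + lam * (w : ℕ)) - fc f t c y|) ≤ e₃)
    (h45 : ∀ c ∈ Cs t g B, ∀ c' ∈ Cs t g B, (∑ w ∈ range l, ∑ w' ∈ range l,
      |av V (fun y => (ph d t g c (⌊y⌋ + (w : ℕ)) * ph d t g c (⌊y⌋ + (w' : ℕ))) *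
        (ph d t g c' ⌊lam * y + lam * w⌋ * ph d t g c' ⌊lam * y + lam * w'⌋))|) / (l : ℝ) ^ 2 ≤ η) :
    |av V (fun y => (Ff f d t g B y - Pf f d t g B y) * (Ff f d t g B (lam * y) - Pf f d t g B (lam * y)))|
      ≤ ((#(Cs t g B) : ℝ) / g) ^ 2 * (√ η + 2 * e₃ + 2 * l / V) := by
  have hg' : (0 : ℝ) < g := by exact_mod_cast hg
  have bp : ∀ c, Bd 1 (fun y : ℝ => ph d t g c ⌊y⌋) := fun c => Bd.fl fun x => ph_abs hg c x
  have bp' : ∀ c, Bd 1 (fun y : ℝ => ph d t g c ⌊lam * y⌋) := fun c => Bd.flc (fun x => ph_abs hg c x) (by fun_prop)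
  have bf' : ∀ c, Bd 1 (fun y => fc f t c (lam * y)) := fun c => (fcB hf t c).comp (by fun_prop)
  have b : ∀ c ∈ Cs t g B, ∀ c' ∈ Cs t g B, Bd (1 * 1 * (1 * 1))
      (fun y => ph d t g c ⌊y⌋ * ph d t g c' ⌊lam * y⌋ * (fc f t c y * fc f t c' (lam * y))) :=
    fun c _ c' _ => ((bp c).mul (bp' c')).mul ((fcB hf t c).mul (bf' c'))
  have e : (fun y => (Ff f d t g B y - Pf f d t g B y) * (Ff f d t g B (lam * y) - Pf f d t g B (lam * y)))
      = fun y => (1 / (g : ℝ) ^ 2) * ∑ c ∈ Cs t g B, ∑ c' ∈ Cs t g B,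
        ph d t g c ⌊y⌋ * ph d t g c' ⌊lam * y⌋ * (fc f t c y * fc f t c' (lam * y)) := by
    funext y
    rw [Ff_sub hf hg, Ff_sub hf hg]
    have : (1 / (g : ℝ) * ∑ c ∈ Cs t g B, ph d t g c ⌊y⌋ * fc f t c y)
        * (1 / (g : ℝ) * ∑ c ∈ Cs t g B, ph d t g c ⌊lam * y⌋ * fc f t c (lam * y))
        = (1 / (g : ℝ) ^ 2) * ((∑ c ∈ Cs t g B, ph d t g c ⌊y⌋ * fc f t c y)
          * (∑ c ∈ Cs t g B, ph d t g c ⌊lam * y⌋ * fc f t c (lam * y))) := by
      field_simp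
    rw [this, sum_mul_sum]
    congr 1
    apply sum_congr rfl; intro c _
    apply sum_congr rfl; intro c' _
    ring
  have bs : ∀ c ∈ Cs t g B, Bd (∑ c' ∈ Cs t g B, (1 * 1 * (1 * 1) : ℝ)) (fun y => ∑ c' ∈ Cs t g B,
        ph d t g c ⌊y⌋ * ph d t g c' ⌊lam * y⌋ * (fc f t c y * fc f t c' (lam * y))) :=
    fun c hc => Bd.sum fun c' hc' => b c hc c' hc'
  rw [e, av_cmul, av_sum V bs, abs_mul, abs_of_pos (by positivity : (0 : ℝ) < 1 / (g : ℝ) ^ 2)]
  have e2 : ∀ c ∈ Cs t g B, av V (fun y => ∑ c' ∈ Cs t g B,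
        ph d t g c ⌊y⌋ * ph d t g c' ⌊lam * y⌋ * (fc f t c y * fc f t c' (lam * y)))
        = ∑ c' ∈ Cs t g B, av V (fun y => ph d t g c ⌊y⌋ * ph d t g c' ⌊lam * y⌋ * (fc f t c y * fc f t c' (lam * y))) :=
    fun c hc => av_sum V fun c' hc' => b c hc c' hc'
  rw [sum_congr rfl e2]
  set E := √ η + 2 * e₃ + 2 * l / V with hE
  have h6 : |∑ c ∈ Cs t g B, ∑ c' ∈ Cs t g B, av V (fun y => ph d t g c ⌊y⌋ * ph d t g c' ⌊lam * y⌋
      * (fc f t c y * fc f t c' (lam * y)))| ≤ ∑ c ∈ Cs t g B, ∑ c' ∈ Cs t g B, E := by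
    refine (abs_sum_le_sum_abs _ _).trans (sum_le_sum fun c hc => ?_)
    refine (abs_sum_le_sum_abs _ _).trans (sum_le_sum fun c' hc' => ?_)
    refine q1' (φ := ph d t g c) (χ := ph d t g c') (ph_abs hg c) (ph_abs hg c')
      (G := fun y => fc f t c y * fc f t c' (lam * y)) (by simpa using (fcB hf t c).mul (bf' c')) hV hl
      (e₃ := 2 * e₃) (fun w hw => ?_) (h45 c hc c' hc')
    have h7 : av V (fun y => |fc f t c' (lam * (y + (w : ℕ))) - fc f t c' (lam * y)|) ≤ e₃ := by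
      have := av_scale hV hlam (fun y => |fc f t c' (y + lam * (w : ℕ)) - fc f t c' y|)
      have e3 : (fun y => |fc f t c' (lam * (y + (w : ℕ))) - fc f t c' (lam * y)|)
          = fun y => |fc f t c' (lam * y + lam * (w : ℕ)) - fc f t c' (lam * y)| := by
        funext y; rw [mul_add]
      rw [e3, this]
      exact h3' c' hc' w hw
    have := prod_const hf (fcB hf t c) (bf' c') hV (h3 c hc w hw) h7
    rw [two_mul]
    exact this
  have h7 : ∑ c ∈ Cs t g B, ∑ c' ∈ Cs t g B, E = (#(Cs t g B) : ℝ) ^ 2 * E := by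
    simp only [sum_const, nsmul_eq_mul]; ring
  rw [h7] at h6
  calc 1 / (g : ℝ) ^ 2 * |∑ c ∈ Cs t g B, ∑ c' ∈ Cs t g B, av V (fun y => ph d t g c ⌊y⌋ * ph d t g c' ⌊lam * y⌋
      * (fc f t c y * fc f t c' (lam * y)))| ≤ 1 / (g : ℝ) ^ 2 * ((#(Cs t g B) : ℝ) ^ 2 * E) :=
        mul_le_mul_of_nonneg_left h6 (by positivity)
    _ = _ := by rw [div_pow]; ring

/-- STAGE LEMMA, abstract form: `W` is the scale of `y`, `lam * W` that of `lam * y`. -/
theorem stage_abs (hg : 1 ≤ g) {W lam : ℝ} (hW : 0 < W) (hlam0 : 0 < lam) (hlam1 : lam ≤ 1) {l ℓ : ℕ}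
    (hl : 1 ≤ l) (hll : lam⁻¹ * l ≤ ℓ) (hll' : lam * ℓ ≤ l) {e₁ e₂ e₃ η : ℝ} (h30 : 0 ≤ e₃)
    (h1 : av W (fun y => |f ⌊y⌋ - Ff f d t g B y|) ≤ e₁)
    (h1' : av (lam * W) (fun y => |f ⌊y⌋ - Ff f d t g B y|) ≤ e₁)
    (h2 : ∀ c ∈ Cs t g B, ∀ x : ℤ, |(∑ w ∈ range l, ph d t g c (x + (w : ℕ))) / l| ≤ e₂)
    (h3 : ∀ c ∈ Cs t g B, ∀ w : ℝ, 0 ≤ w → w ≤ ℓ → av W (fun y => |fc f t c (y + w) - fc f t c y|) ≤ e₃)
    (h3' : ∀ c ∈ Cs t g B, ∀ w : ℝ, 0 ≤ w → w ≤ l → av (lam * W) (fun y => |fc f t c (y + w) - fc f t c y|) ≤ e₃)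
    (h45 : ∀ c ∈ Cs t g B, ∀ c' ∈ Cs t g B, (∑ w ∈ range ℓ, ∑ w' ∈ range ℓ,
      |av W (fun y => (ph d t g c (⌊y⌋ + (w : ℕ)) * ph d t g c (⌊y⌋ + (w' : ℕ))) *
        (ph d t g c' ⌊lam * y + lam * w⌋ * ph d t g c' ⌊lam * y + lam * w'⌋))|) / (ℓ : ℝ) ^ 2 ≤ η) :
    |av W (fun y => f ⌊y⌋ * f ⌊lam * y⌋) - av W (fun y => Pf f d t g B y * Pf f d t g B (lam * y))|
      ≤ 2 * e₁ + (#(Cs t g B) : ℝ) / g * (2 * e₂ + 4 * e₃ + 2 * l / W + 2 * l / (lam * W))
        + ((#(Cs t g B) : ℝ) / g) ^ 2 * (√ η + 2 * e₃ + 2 * ℓ / W) := by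
  have hlW : 0 < lam * W := by positivity
  have hlr : (1 : ℝ) ≤ l := by exact_mod_cast hl
  have hinv : 1 ≤ lam⁻¹ := (one_le_inv₀ hlam0).2 hlam1
  have hlℓ : (l : ℝ) ≤ ℓ := by nlinarith
  have hℓ1 : 1 ≤ ℓ := by
    have : (1 : ℝ) ≤ ℓ := hlr.trans hlℓ
    exact_mod_cast this
  have bP := PfB (d := d) (t := t) (B := B) hf hg
  have bF := FfB (d := d) (t := t) (B := B) hf hg
  have bf : Bd 1 (fun y : ℝ => f ⌊y⌋) := Bd.fl hf
  have bP' : Bd 1 (fun y => Pf f d t g B (lam * y)) := bP.comp (by fun_prop)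
  have bF' : Bd 1 (fun y => Ff f d t g B (lam * y)) := bF.comp (by fun_prop)
  have bf' : Bd 1 (fun y : ℝ => f ⌊lam * y⌋) := bf.comp (g := fun y => lam * y) (by fun_prop)
  -- five terms
  set D : ℝ → ℝ := fun y => Ff f d t g B y - Pf f d t g B y with hD
  have bD : Bd (1 + 1) D := bF.sub bP
  have bD' : Bd (1 + 1) (fun y => D (lam * y)) := bD.comp (by fun_prop)
  have b1 : Bd ((1 + 1) * 1) (fun y => (f ⌊y⌋ - Ff f d t g B y) * f ⌊lam * y⌋) := (bf.sub bF).mul bf'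
  have b2 : Bd (1 * (1 + 1)) (fun y => Ff f d t g B y * (f ⌊lam * y⌋ - Ff f d t g B (lam * y))) :=
    bF.mul (bf'.sub bF')
  have b3 : Bd ((1 + 1) * 1) (fun y => D y * Pf f d t g B (lam * y)) := bD.mul bP'
  have b4 : Bd (1 * (1 + 1)) (fun y => Pf f d t g B y * D (lam * y)) := bP.mul bD'
  have b5 : Bd ((1 + 1) * (1 + 1)) (fun y => D y * D (lam * y)) := bD.mul bD'
  have bff : Bd (1 * 1) (fun y => f ⌊y⌋ * f ⌊lam * y⌋) := bf.mul bf'
  have bPP : Bd (1 * 1) (fun y => Pf f d t g B y * Pf f d t g B (lam * y)) := bP.mul bP'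
  have e : av W (fun y => f ⌊y⌋ * f ⌊lam * y⌋) - av W (fun y => Pf f d t g B y * Pf f d t g B (lam * y))
      = av W (fun y => (f ⌊y⌋ - Ff f d t g B y) * f ⌊lam * y⌋)
        + av W (fun y => Ff f d t g B y * (f ⌊lam * y⌋ - Ff f d t g B (lam * y)))
        + av W (fun y => D y * Pf f d t g B (lam * y)) + av W (fun y => Pf f d t g B y * D (lam * y))
        + av W (fun y => D y * D (lam * y)) := by
    rw [← av_sub W bff bPP, ← av_add W b1 b2, ← av_add W (b1.add b2) b3, ← av_add W ((b1.add b2).add b3) b4,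
      ← av_add W (((b1.add b2).add b3).add b4) b5]
    congr 1
    funext y
    rw [hD]
    ring
  -- the first two
  have k1 : |av W (fun y => (f ⌊y⌋ - Ff f d t g B y) * f ⌊lam * y⌋)| ≤ e₁ := by
    refine (abs_av_le hW b1).trans (le_trans ?_ h1)
    apply av_mono hW b1.abs (bf.sub bF).abs
    intro y _ _
    rw [abs_mul]
    exact mul_le_of_le_one_right (abs_nonneg _) (bf'.2 y)
  have k2 : |av W (fun y => Ff f d t g B y * (f ⌊lam * y⌋ - Ff f d t g B (lam * y)))| ≤ e₁ := by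
    refine (abs_av_le hW b2).trans (le_trans ?_ h1')
    have := av_scale hW hlam0 (fun y => |f ⌊y⌋ - Ff f d t g B y|)
    rw [← this]
    apply av_mono hW b2.abs (bf'.sub bF').abs
    intro y _ _
    rw [abs_mul]
    exact mul_le_of_le_one_left (abs_nonneg _) (bF.2 y)
  -- the mixed terms
  have k3 : |av W (fun y => D y * Pf f d t g B (lam * y))|
      ≤ (#(Cs t g B) : ℝ) / g * (e₂ + (e₃ + e₃) + 2 * l / W) := by
    refine term1 hf hg hW (Q := fun y => Pf f d t g B (lam * y)) bP' hl h2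
      (fun c hc w hw => h3 c hc w (Nat.cast_nonneg _) ?_) (fun w hw => ?_)
    · have : (w : ℝ) ≤ l := by exact_mod_cast hw.le
      linarith
    have e3 : (fun y => |Pf f d t g B (lam * (y + (w : ℕ))) - Pf f d t g B (lam * y)|)
        = fun y => |Pf f d t g B (lam * y + lam * (w : ℕ)) - Pf f d t g B (lam * y)| := by
      funext y; rw [mul_add]
    rw [e3, av_scale hW hlam0 (fun y => |Pf f d t g B (y + lam * (w : ℕ)) - Pf f d t g B y|)]
    apply Pf_const hf hg hlW _ h30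
    intro c hc
    have hw' : (w : ℝ) ≤ l := by exact_mod_cast hw.le
    have hw0 : (0 : ℝ) ≤ w := Nat.cast_nonneg _
    exact h3' c hc _ (by positivity) (by nlinarith)
  have k4 : |av W (fun y => Pf f d t g B y * D (lam * y))|
      ≤ (#(Cs t g B) : ℝ) / g * (e₂ + (e₃ + e₃) + 2 * l / (lam * W)) := by
    have e3 : (fun y => Pf f d t g B y * D (lam * y)) = fun y => (fun z => D z * Pf f d t g B (lam⁻¹ * z)) (lam * y) := by
      funext y
      simp only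
      rw [← mul_assoc, inv_mul_cancel₀ hlam0.ne', one_mul, mul_comm]
    rw [e3, av_scale hW hlam0 (fun z => D z * Pf f d t g B (lam⁻¹ * z))]
    refine term1 hf hg hlW (Q := fun z => Pf f d t g B (lam⁻¹ * z)) (bP.comp (by fun_prop)) hl h2
      (fun c hc w hw => h3' c hc w (Nat.cast_nonneg _) (by exact_mod_cast hw.le)) (fun w hw => ?_)
    have e4 : (fun y => |Pf f d t g B (lam⁻¹ * (y + (w : ℕ))) - Pf f d t g B (lam⁻¹ * y)|)
        = fun y => |Pf f d t g B (lam⁻¹ * y + lam⁻¹ * (w : ℕ)) - Pf f d t g B (lam⁻¹ * y)| := by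
      funext y; rw [mul_add]
    rw [e4, av_scale hlW (inv_pos.2 hlam0) (fun y => |Pf f d t g B (y + lam⁻¹ * (w : ℕ)) - Pf f d t g B y|),
      ← mul_assoc, inv_mul_cancel₀ hlam0.ne', one_mul]
    apply Pf_const hf hg hW _ h30
    intro c hc
    have hw' : (w : ℝ) ≤ l := by exact_mod_cast hw.le
    have hi0 : 0 ≤ lam⁻¹ := by positivity
    exact h3 c hc _ (by positivity) ((mul_le_mul_of_nonneg_left hw' hi0).trans hll)
  have k5 : |av W (fun y => D y * D (lam * y))|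
      ≤ ((#(Cs t g B) : ℝ) / g) ^ 2 * (√ η + 2 * e₃ + 2 * ℓ / W) := by
    refine term2' hf hg hW hlam0 hℓ1 (fun c hc w hw => h3 c hc w (Nat.cast_nonneg _) (by exact_mod_cast hw.le))
      (fun c hc w hw => ?_) h45
    have hw' : (w : ℝ) ≤ ℓ := by exact_mod_cast hw.le
    exact h3' c hc _ (by positivity) ((mul_le_mul_of_nonneg_left hw' hlam0.le).trans hll')
  have k7 : (#(Cs t g B) : ℝ) / g * (e₂ + (e₃ + e₃) + 2 * l / W) + (#(Cs t g B) : ℝ) / g * (e₂ + (e₃ + e₃) + 2 * l / (lam * W))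
      = (#(Cs t g B) : ℝ) / g * (2 * e₂ + 4 * e₃ + 2 * l / W + 2 * l / (lam * W)) := by
    rw [← mul_add]; ring
  rw [e]
  have a1 := abs_le.1 k1
  have a2 := abs_le.1 k2
  have a3 := abs_le.1 k3
  have a4 := abs_le.1 k4
  have a5 := abs_le.1 k5
  rw [abs_le]
  constructor <;> linarith [a1.1, a1.2, a2.1, a2.2, a3.1, a3.2, a4.1, a4.2, a5.1, a5.2]

end Pool.Agent.KS6_24.ST
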