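import Mathlib
import Pool.Agent.KS6_24.ST.StAbs
import Pool.Agent.KS6_24.ST.Cor1
import Pool.Agent.KS6_24.LN.Pair

/-! J5b: parameters of the stage lemma. -/

set_option autoImplicit false

namespace Pool.Agent.KS6_24.ST

open Pool.Agent.H499R2.CO Pool.Agent.Y965.SI Finset Pool.Agent.KS6_24.LN Filter

theorem ev1' {a b : ℝ} (c : ℝ) (hab : a < b) : ∀ᶠ m : ℕ in atTop, c * (m : ℝ) ^ a ≤ (m : ℝ) ^ b := by
  have h1 : Tendsto (fun m : ℕ => (m : ℝ) ^ (b - a)) atTop atTop :=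
    (tendsto_rpow_atTop (by linarith)).comp tendsto_natCast_atTop_atTop
  filter_upwards [h1.eventually_ge_atTop c, eventually_ge_atTop 1] with m hm hm1
  have hm0 : (0 : ℝ) < m := by exact_mod_cast hm1
  have e : (m : ℝ) ^ b = (m : ℝ) ^ (b - a) * (m : ℝ) ^ a := by rw [← Real.rpow_add hm0]; congr 1; ring
  rw [e]
  exact mul_le_mul_of_nonneg_right hm (by positivity)

theorem log2_le' (m : ℕ) (hm : 1 ≤ m) : (Nat.log 2 m : ℝ) ≤ 2 * Real.log m := by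
  have h1 : (2 : ℝ) ^ Nat.log 2 m ≤ m := by exact_mod_cast Nat.pow_log_le_self 2 (by omega)
  have h2 := Real.log_le_log (by positivity) h1
  rw [Real.log_pow] at h2
  have h3 := Real.log_two_gt_d9
  have h4 : (0 : ℝ) ≤ Nat.log 2 m := Nat.cast_nonneg _
  nlinarith

/-- powers of `log` are smaller than powers -/
theorem ev5 (c : ℝ) (hc : 0 ≤ c) (n : ℕ) {e : ℝ} (he : 0 < e) :
    ∀ᶠ m : ℕ in atTop, c * ((Nat.log 2 m : ℕ) : ℝ) ^ n ≤ (m : ℝ) ^ e := by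
  set δ : ℝ := e / (2 * (n + 1)) with hδ
  have hn : (0 : ℝ) < n + 1 := by positivity
  have hδ0 : 0 < δ := by positivity
  have hδn : δ * n < e := by
    rw [hδ, div_mul_eq_mul_div, div_lt_iff₀ (by positivity)]
    nlinarith
  filter_upwards [ev1' (a := δ * n) (b := e) (c * (2 / δ) ^ n) hδn, eventually_ge_atTop 1] with m hm hm1
  have hm0 : (1 : ℝ) ≤ m := by exact_mod_cast hm1
  refine le_trans ?_ hm
  have h1 := log2_le' m hm1
  have h2 := Real.log_le_rpow_div (show (0 : ℝ) ≤ m by linarith) hδ0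
  have h3 : (Nat.log 2 m : ℝ) ≤ 2 / δ * (m : ℝ) ^ δ := by
    refine h1.trans ?_
    have : 2 / δ * (m : ℝ) ^ δ = 2 * ((m : ℝ) ^ δ / δ) := by ring
    linarith
  rw [mul_assoc]
  apply mul_le_mul_of_nonneg_left _ hc
  calc ((Nat.log 2 m : ℕ) : ℝ) ^ n ≤ (2 / δ * (m : ℝ) ^ δ) ^ n := pow_le_pow_left₀ (Nat.cast_nonneg _) h3 n
    _ = (2 / δ) ^ n * ((m : ℝ) ^ δ) ^ (n : ℕ) := by rw [mul_pow]
    _ = (2 / δ) ^ n * (m : ℝ) ^ (δ * n) := by
      rw [← Real.rpow_natCast ((m : ℝ) ^ δ) n, ← Real.rpow_mul (by linarith)]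

theorem ev6 (n : ℕ) : ∀ᶠ m : ℕ in atTop, n ≤ Nat.log 2 m := by
  filter_upwards [eventually_ge_atTop (2 ^ n)] with m hm
  exact Nat.le_log_of_pow_le (by norm_num) hm

theorem params (c0 : ℕ) : ∃ m0 : ℕ, 2 ≤ m0 ∧ ∀ m L : ℕ, m0 ≤ m → Nat.log 2 m ≤ L → L ≤ 3 * Nat.log 2 m →
    c0 ≤ L ∧ L ^ 1202 ≤ m ∧ 240 * (L : ℝ) ^ 101 ≤ (m : ℝ) ^ (0.0005 : ℝ) ∧ Real.log ((m : ℝ) + 1) ≤ 2 * L ∧
      0.2 * (L : ℝ) ≤ Real.log m := by
  have F1 := ev6 (max c0 1)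
  have F2 := ev5 (3 ^ 1202) (by positivity) 1202 (e := 1) (by norm_num)
  have F3 := ev5 (240 * 3 ^ 101) (by positivity) 101 (e := 0.0005) (by norm_num)
  obtain ⟨m0, h0⟩ := eventually_atTop.1 (F1.and (F2.and F3))
  refine ⟨max m0 2, le_max_right _ _, fun m L hm hL1 hL2 => ?_⟩
  obtain ⟨G1, G2, G3⟩ := h0 m ((le_max_left _ _).trans hm)
  have hm2 : 2 ≤ m := (le_max_right _ _).trans hm
  have hmr : (1 : ℝ) ≤ m := by exact_mod_cast (show 1 ≤ m by omega)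
  have hL0 : (0 : ℝ) ≤ L := Nat.cast_nonneg _
  have hLr : (L : ℝ) ≤ 3 * (Nat.log 2 m : ℕ) := by exact_mod_cast hL2
  have hLc : max c0 1 ≤ L := G1.trans hL1
  refine ⟨(le_max_left _ _).trans hLc, ?_, ?_, ?_, ?_⟩
  · have h1 : (L : ℝ) ^ 1202 ≤ m := by
      calc (L : ℝ) ^ 1202 ≤ (3 * (Nat.log 2 m : ℕ) : ℝ) ^ 1202 := pow_le_pow_left₀ hL0 hLr _
        _ = 3 ^ 1202 * ((Nat.log 2 m : ℕ) : ℝ) ^ 1202 := by rw [mul_pow]
        _ ≤ (m : ℝ) ^ (1 : ℝ) := G2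
        _ = m := Real.rpow_one _
    exact_mod_cast h1
  · calc 240 * (L : ℝ) ^ 101 ≤ 240 * (3 * (Nat.log 2 m : ℕ) : ℝ) ^ 101 :=
          mul_le_mul_of_nonneg_left (pow_le_pow_left₀ hL0 hLr _) (by norm_num)
      _ = 240 * 3 ^ 101 * ((Nat.log 2 m : ℕ) : ℝ) ^ 101 := by rw [mul_pow, mul_assoc]
      _ ≤ _ := G3
  · have h1 : m + 1 ≤ 2 ^ (L + 1) := by
      have : m < 2 ^ (Nat.log 2 m + 1) := Nat.lt_pow_succ_log_self (by norm_num) m
      calc m + 1 ≤ 2 ^ (Nat.log 2 m + 1) := this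
        _ ≤ 2 ^ (L + 1) := Nat.pow_le_pow_right (by norm_num) (by omega)
    have h2 : (m : ℝ) + 1 ≤ 2 ^ (L + 1) := by exact_mod_cast h1
    have h3 := Real.log_le_log (by positivity) h2
    rw [Real.log_pow] at h3
    have h4 := Real.log_two_lt_d9
    have h5 : (1 : ℝ) ≤ L := by exact_mod_cast (le_max_right c0 1).trans hLc
    push_cast at h3
    nlinarith
  · have h1 : (2 : ℝ) ^ (Nat.log 2 m) ≤ m := by exact_mod_cast Nat.pow_log_le_self 2 (by omega)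
    have h2 := Real.log_le_log (by positivity) h1
    rw [Real.log_pow] at h2
    have h3 := Real.log_two_gt_d9
    have h4 : (0 : ℝ) ≤ (Nat.log 2 m : ℕ) := Nat.cast_nonneg _
    nlinarith

theorem root10 (t : ℕ) : ∃ q : ℕ, q ^ 10 ≤ t ∧ t < (q + 1) ^ 10 := by
  induction t with
  | zero => exact ⟨0, by norm_num⟩
  | succ t ih =>
    obtain ⟨q, h1, h2⟩ := ih
    rcases Nat.lt_or_ge (t + 1) ((q + 1) ^ 10) with h | h
    · exact ⟨q, by omega, h⟩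
    · refine ⟨q + 1, h, ?_⟩
      calc t + 1 < (q + 1) ^ 10 + 1 := by omega
        _ ≤ (q + 1 + 1) ^ 10 := Nat.pow_lt_pow_left (by omega) (by norm_num)

theorem sizes {m L : ℕ} (hc : 2 ≤ L) (h1 : L ^ 1202 ≤ m) : ∃ q : ℕ, q ^ 10 ≤ st m L ∧ st m L < (q + 1) ^ 10 ∧
    L ^ 120 ≤ q ∧ 1 ≤ sgw m L ∧ Nat.sqrt (st m L) ≤ 2 * (sgw m L * L ^ 5) ∧
    sgw m L * L ^ 5 ≤ Nat.sqrt (st m L) ∧ Nat.sqrt (st m L) * Nat.sqrt (st m L) ≤ st m L ∧
    st m L ≤ 4 * (Nat.sqrt (st m L) * Nat.sqrt (st m L)) ∧ q ^ 5 ≤ Nat.sqrt (st m L) ∧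
    st m L * L ^ 2 ≤ m ∧ m < (st m L + 1) * L ^ 2 := by
  obtain ⟨q, hq1, hq2⟩ := root10 (st m L)
  have hL2 : 0 < L ^ 2 := by positivity
  have ht1 : L ^ 1200 ≤ st m L := by
    unfold st
    rw [Nat.le_div_iff_mul_le hL2, ← pow_add]
    exact h1
  have hq3 : L ^ 120 ≤ q := by
    have h2 : (L ^ 120) ^ 10 < (q + 1) ^ 10 := by
      rw [← pow_mul]
      exact lt_of_le_of_lt ht1 hq2
    have := lt_of_pow_lt_pow_left₀ 10 (by omega) h2
    omega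
  have hs5 : q ^ 5 ≤ Nat.sqrt (st m L) := by
    rw [Nat.le_sqrt]
    calc q ^ 5 * q ^ 5 = q ^ 10 := by ring
      _ ≤ _ := hq1
  have hsL : L ^ 5 ≤ Nat.sqrt (st m L) := by
    calc L ^ 5 ≤ L ^ 120 := Nat.pow_le_pow_right (by omega) (by norm_num)
      _ ≤ q := hq3
      _ = q ^ 1 := (pow_one q).symm
      _ ≤ q ^ 5 := Nat.pow_le_pow_right (by have : 1 ≤ L ^ 120 := Nat.one_le_pow _ _ (by omega)
                                            omega) (by norm_num)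
      _ ≤ _ := hs5
  have hg1 : 1 ≤ sgw m L := (Nat.one_le_div_iff (by positivity)).2 hsL
  refine ⟨q, hq1, hq2, hq3, hg1, ?_, Nat.div_mul_le_self _ _, Nat.sqrt_le _, ?_, hs5, Nat.div_mul_le_self _ _, ?_⟩
  · have h2 := Nat.lt_div_mul_add (a := Nat.sqrt (st m L)) (show 0 < L ^ 5 by positivity)
    change _ < sgw m L * L ^ 5 + L ^ 5 at h2
    have h3 : L ^ 5 ≤ sgw m L * L ^ 5 := Nat.le_mul_of_pos_left _ hg1
    omega
  · have h2 := Nat.sqrt_le_add (st m L)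
    have h3 : 2 ≤ Nat.sqrt (st m L) := by
      refine le_trans ?_ hsL
      calc 2 ≤ L := hc
        _ = L ^ 1 := (pow_one L).symm
        _ ≤ L ^ 5 := Nat.pow_le_pow_right (by omega) (by norm_num)
    nlinarith
  · have h2 := Nat.lt_div_mul_add (a := m) hL2
    change _ < st m L * L ^ 2 + L ^ 2 at h2
    calc m < st m L * L ^ 2 + L ^ 2 := h2
      _ = _ := by ring

/-- the floor of `(y + w) / 3 ^ i` -/
theorem floor_three (i w : ℕ) (y : ℝ) : ⌊((3 : ℝ) ^ i)⁻¹ * y + ((3 : ℝ) ^ i)⁻¹ * w⌋ = (⌊y⌋ + (w : ℕ)) / 3 ^ i := by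
  have h1 : ((3 : ℝ) ^ i)⁻¹ * y + ((3 : ℝ) ^ i)⁻¹ * w = (y + (w : ℕ)) / ((3 ^ i : ℕ) : ℝ) := by
    push_cast
    field_simp
  rw [h1, Int.floor_div_natCast, Int.floor_add_natCast]
  push_cast
  rfl

variable {d : ℤ} {f : ℤ → ℝ} {t g B : ℕ}

/-- the correlations of the averaged function -/
theorem Pf_corr (hf : ∀ x, |f x| ≤ 1) (hg : 1 ≤ g) {V : ℝ} (hV : 0 < V) (i : ℕ) :
    av V (fun y => Pf f d t g B (3 ^ i * y) * Pf f d t g B y)
      = ∑ c ∈ Cs t g B, ∑ c' ∈ Cs t g B, pc d t g c * pc d t g c' *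
        cor f (3 ^ c / 2 ^ t * V) ((i : ℤ) + c' - c) := by
  have b1 : ∀ c c' : ℕ, Bd (|pc d t g c * pc d t g c'| * (1 * 1)) (fun y => (pc d t g c * pc d t g c') *
      (fc f t c' (3 ^ i * y) * fc f t c y)) := fun c c' =>
    (((fcB hf t c').comp (g := fun y => 3 ^ i * y) (by fun_prop)).mul (fcB hf t c)).cmul _
  have e : (fun y => Pf f d t g B (3 ^ i * y) * Pf f d t g B y)
      = fun y => ∑ c ∈ Cs t g B, ∑ c' ∈ Cs t g B, (pc d t g c * pc d t g c') * (fc f t c' (3 ^ i * y) * fc f t c y) := by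
    funext y
    unfold Pf
    rw [mul_comm, sum_mul_sum]
    apply sum_congr rfl; intro c _
    apply sum_congr rfl; intro c' _
    ring
  rw [e, av_sum V (fun c _ => Bd.sum fun c' _ => b1 c c')]
  apply sum_congr rfl; intro c _
  rw [av_sum V (fun c' _ => b1 c c')]
  apply sum_congr rfl; intro c' _
  rw [av_cmul]
  congr 1
  unfold cor
  have hθ : (0 : ℝ) < 3 ^ c / 2 ^ t := by positivity
  rw [← av_scale hV hθ (fun y => f ⌊y⌋ * f ⌊(3 : ℝ) ^ ((i : ℤ) + c' - c) * y⌋)]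
  congr 1
  funext y
  unfold fc
  have e1 : (3 : ℝ) ^ c' * (3 ^ i * y) / 2 ^ t = (3 : ℝ) ^ ((i : ℤ) + c' - c) * (3 ^ c / 2 ^ t * y) := by
    rw [zpow_sub₀ (by norm_num), zpow_add₀ (by norm_num)]
    simp only [zpow_natCast]
    field_simp
  have e2 : (3 : ℝ) ^ c * y / 2 ^ t = 3 ^ c / 2 ^ t * y := by ring
  rw [e1, e2, mul_comm]

end Pool.Agent.KS6_24.ST
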