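import Mathlib
import Pool.Agent.KS6_24.ST.MXDefs
import Pool.Agent.KS6_24.ST.Stage0

/-! MX3a: the stage lemma for `n` functions with abstract error terms. -/

set_option autoImplicit false

namespace Pool.Agent.KS6_24.ST

open Pool.Agent.H499R2.CO Pool.Agent.Y965.SI Finset Pool.Agent.KS6_24.LN

section aux

variable {ι : Type*}

theorem prod_abs_le (s : Finset ι) {u : ι → ℝ} (hu : ∀ a ∈ s, |u a| ≤ 1) : |∏ a ∈ s, u a| ≤ 1 := by
  rw [abs_prod]
  exact prod_le_one (fun a _ => abs_nonneg _) hu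

theorem prod_tele (s : Finset ι) {u v : ι → ℝ} (hu : ∀ a ∈ s, |u a| ≤ 1) (hv : ∀ a ∈ s, |v a| ≤ 1) :
    |∏ a ∈ s, u a - ∏ a ∈ s, v a| ≤ ∑ a ∈ s, |u a - v a| := by
  classical
  induction s using Finset.induction_on with
  | empty => simp
  | insert b s hb ih =>
    rw [prod_insert hb, prod_insert hb, sum_insert hb]
    have h1 := ih (fun a ha => hu a (mem_insert_of_mem ha)) (fun a ha => hv a (mem_insert_of_mem ha))
    have h2 : |∏ a ∈ s, u a| ≤ 1 := prod_abs_le s fun a ha => hu a (mem_insert_of_mem ha)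
    have h3 : |v b| ≤ 1 := hv b (mem_insert_self _ _)
    have e : u b * ∏ a ∈ s, u a - v b * ∏ a ∈ s, v a
        = (u b - v b) * ∏ a ∈ s, u a + v b * (∏ a ∈ s, u a - ∏ a ∈ s, v a) := by ring
    rw [e]
    refine (abs_add_le _ _).trans ?_
    rw [abs_mul, abs_mul]
    have h4 : |u b - v b| * |∏ a ∈ s, u a| ≤ |u b - v b| := mul_le_of_le_one_right (abs_nonneg _) h2
    have h5 : |v b| * |∏ a ∈ s, u a - ∏ a ∈ s, v a| ≤ |∏ a ∈ s, u a - ∏ a ∈ s, v a| :=
      mul_le_of_le_one_left (abs_nonneg _) h3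
    linarith

theorem Bd.fprod (s : Finset ι) {u : ι → ℝ → ℝ} (h : ∀ a ∈ s, Bd 1 (u a)) : Bd 1 (fun y => ∏ a ∈ s, u a y) := by
  refine ⟨?_, fun y => prod_abs_le s fun a ha => (h a ha).2 y⟩
  exact Finset.measurable_fun_prod s fun a ha => (h a ha).1

/-- telescoping under the average -/
theorem av_prod_tele (s : Finset ι) {V : ℝ} (hV : 0 < V) {u v : ι → ℝ → ℝ} (hu : ∀ a ∈ s, Bd 1 (u a))
    (hv : ∀ a ∈ s, Bd 1 (v a)) {e : ℝ} (he : ∀ a ∈ s, av V (fun y => |u a y - v a y|) ≤ e) :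
    av V (fun y => |∏ a ∈ s, u a y - ∏ a ∈ s, v a y|) ≤ #s * e := by
  have b1 : ∀ a ∈ s, Bd (1 + 1) (fun y => |u a y - v a y|) := fun a ha => ((hu a ha).sub (hv a ha)).abs
  calc av V (fun y => |∏ a ∈ s, u a y - ∏ a ∈ s, v a y|) ≤ av V (fun y => ∑ a ∈ s, |u a y - v a y|) := by
        apply av_mono hV ((Bd.fprod s hu).sub (Bd.fprod s hv)).abs (Bd.sum b1)
        intro y _ _
        exact prod_tele s (fun a ha => (hu a ha).2 y) (fun a ha => (hv a ha).2 y)
    _ = ∑ a ∈ s, av V (fun y => |u a y - v a y|) := av_sum V b1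
    _ ≤ ∑ a ∈ s, e := sum_le_sum he
    _ = #s * e := by rw [sum_const, nsmul_eq_mul]

end aux

/-- many oscillating factors: `Ψ w` is the product of the weights of the point `y + w` -/
theorem qN {Ψ : ℕ → ℝ → ℝ} (hΨ : ∀ w, Bd 1 (Ψ w)) {G : ℝ → ℝ} (hG : Bd 1 G) {V : ℝ} (hV : 0 < V) {l : ℕ}
    (hl : 1 ≤ l) {e₃ η p : ℝ} (hsh : ∀ w y, Ψ 0 (y + (w : ℕ)) = Ψ w y)
    (h3 : ∀ w < l, av V (fun y => |G (y + (w : ℕ)) - G y|) ≤ e₃)
    (h4 : av V (fun y => ((∑ w ∈ range l, Ψ w y) / l - p) ^ 2) ≤ η) :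
    |av V (fun y => Ψ 0 y * G y) - p * av V G| ≤ √ η + e₃ + 2 * l / V := by
  have hl' : (0 : ℝ) < l := by exact_mod_cast hl
  have hu : Bd (1 * 1) (fun y => Ψ 0 y * G y) := (hΨ 0).mul hG
  have h0 := av_avg_shift hV hu hl
  simp only [mul_one, hsh] at h0
  have h4' : |(∑ w ∈ range l, av V (fun y => Ψ w y * G (y + (w : ℕ)))) / l
      - (∑ w ∈ range l, av V (fun y => Ψ w y * G y)) / l| ≤ e₃ := by
    rw [← sub_div, ← sum_sub_distrib, abs_div, abs_of_pos hl', div_le_iff₀ hl']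
    refine (abs_sum_le_sum_abs _ _).trans ?_
    calc ∑ w ∈ range l, |av V (fun y => Ψ w y * G (y + (w : ℕ))) - av V (fun y => Ψ w y * G y)|
        ≤ ∑ w ∈ range l, e₃ := by
          apply sum_le_sum
          intro w hw
          have b1 := hΨ w
          have b2 : Bd 1 (fun y => G (y + (w : ℕ))) := hG.comp (by fun_prop)
          rw [← av_sub V (b1.mul b2) (b1.mul hG)]
          have b3 : Bd (1 * (1 + 1)) (fun y => Ψ w y * (G (y + (w : ℕ)) - G y)) := b1.mul (b2.sub hG)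
          have e : (fun y => Ψ w y * G (y + (w : ℕ)) - Ψ w y * G y)
              = fun y => Ψ w y * (G (y + (w : ℕ)) - G y) := by funext y; ring
          rw [e]
          refine (abs_av_le hV b3).trans ?_
          refine le_trans ?_ (h3 w (mem_range.1 hw))
          apply av_mono hV b3.abs (b2.sub hG).abs
          intro y _ _
          rw [abs_mul]
          exact mul_le_of_le_one_left (abs_nonneg _) (b1.2 y)
      _ = e₃ * l := by rw [sum_const, card_range, nsmul_eq_mul, mul_comm]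
  -- second moment
  set A : ℝ → ℝ := fun y => (∑ w ∈ range l, Ψ w y) / l - p with hA
  have bA : Bd (1 + |p|) A := by
    have b := (Bd.sum fun w (_ : w ∈ range l) => hΨ w).cmul (1 / (l : ℝ))
    have b' : Bd 1 (fun y => (∑ w ∈ range l, Ψ w y) / l) := by
      have e : (fun y => (∑ w ∈ range l, Ψ w y) / l) = fun y => (1 / (l : ℝ)) * ∑ w ∈ range l, Ψ w y := by
        funext y; ring
      rw [e]
      refine b.mono (le_of_eq ?_)
      rw [abs_of_pos (by positivity), sum_const, card_range, nsmul_eq_mul]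
      field_simp
    exact b'.sub (Bd.const p)
  have h6 : (∑ w ∈ range l, av V (fun y => Ψ w y * G y)) / l - p * av V G = av V (fun y => A y * G y) := by
    have b : ∀ w ∈ range l, Bd (1 * 1) (fun y => Ψ w y * G y) := fun w _ => (hΨ w).mul hG
    have bs := (Bd.sum b).cmul (1 / (l : ℝ))
    have e : (fun y => A y * G y) = fun y => (1 / (l : ℝ)) * (∑ w ∈ range l, Ψ w y * G y) - p * G y := by
      funext y; rw [hA]; simp only; rw [← sum_mul]; ring
    rw [e, av_sub V bs (hG.cmul p), av_cmul, av_cmul, av_sum V b]; ring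
  have h7 : |av V (fun y => A y * G y)| ≤ √ (av V (fun y => A y ^ 2)) := by
    refine (abs_av_le hV (bA.mul hG)).trans (le_trans ?_ (av_abs_le_sqrt hV bA))
    apply av_mono hV (bA.mul hG).abs bA.abs
    intro y _ _
    rw [abs_mul]
    exact mul_le_of_le_one_right (abs_nonneg _) (hG.2 y)
  have h14 : √ (av V (fun y => A y ^ 2)) ≤ √ η := Real.sqrt_le_sqrt h4
  rw [← h6] at h7
  have h9 := abs_le.1 h0
  have h10 := abs_le.1 h4'
  have h11 := abs_le.1 h7
  rw [abs_le]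
  constructor <;> linarith [h9.1, h9.2, h10.1, h10.2, h11.1, h11.2]

variable {d : ℤ} {t g B : ℕ}

/-- STAGE LEMMA for `n` functions, abstract form. -/
theorem stage_absN (hg : 1 ≤ g) {n : ℕ} {F : Fin n → ℤ → ℝ} (hF : ∀ a x, |F a x| ≤ 1) {V : ℝ} (hV : 0 < V)
    {E l : ℕ} (hl : 1 ≤ l) {i e : Fin n → ℕ} (hei : ∀ a, e a + i a = E) {e₁ e₃ η : ℝ}
    (h1 : ∀ a, av (3 ^ i a * V) (fun y => |F a ⌊y⌋ - Ff (F a) d t g B y|) ≤ e₁)
    (h3 : ∀ a, ∀ c ∈ Cs t g B, ∀ u : ℝ, 0 ≤ u → u ≤ l * 3 ^ i a →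
      av (3 ^ i a * V) (fun y => |fc (F a) t c (y + u) - fc (F a) t c y|) ≤ e₃)
    (h4 : ∀ c : Fin n → ℕ, av (3 ^ E * V) (fun y => ((∑ w ∈ range (l * 3 ^ E), ∏ a, ((g : ℝ) *
      psi d t g (c a) ((⌊y⌋ + (w : ℕ)) / 3 ^ e a))) / (l * 3 ^ E) - ∏ a, ((g : ℝ) * pc d t g (c a))) ^ 2) ≤ η) :
    |cn F V (fun a => i a) - ∑ c ∈ Fintype.piFinset (fun _ : Fin n => Cs t g B),
        (∏ a, pc d t g (c a)) * cn F (V / 2 ^ t) (fun a => (i a : ℤ) + c a)|
      ≤ n * e₁ + ((#(Cs t g B) : ℝ) / g) ^ n * (√ η + n * e₃ + 2 * l / V) := by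
  have hg' : (0 : ℝ) < g := by exact_mod_cast hg
  have hl' : (0 : ℝ) < l := by exact_mod_cast hl
  have h3E : (0 : ℝ) < 3 ^ E := by positivity
  have hW : 0 < 3 ^ E * V := by positivity
  set W : ℝ := 3 ^ E * V with hWdef
  set lam : Fin n → ℝ := fun a => ((3 : ℝ) ^ e a)⁻¹ with hlam
  have hlam0 : ∀ a, 0 < lam a := fun a => by rw [hlam]; positivity
  have hlamE : ∀ a, lam a * 3 ^ E = 3 ^ i a := fun a => by
    rw [hlam]; simp only
    rw [← hei a, pow_add]; field_simp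
  have hlamW : ∀ a, lam a * W = 3 ^ i a * V := fun a => by rw [hWdef, ← mul_assoc, hlamE]
  -- the three functions
  have bF : ∀ a, Bd 1 (fun y : ℝ => F a ⌊y⌋) := fun a => Bd.fl (hF a)
  have bFf : ∀ a, Bd 1 (Ff (F a) d t g B) := fun a => FfB (hF a) hg
  have bFl : ∀ a, Bd 1 (fun z : ℝ => F a ⌊lam a * z⌋) := fun a => (bF a).comp (g := fun z => lam a * z) (by fun_prop)
  have bFfl : ∀ a, Bd 1 (fun z : ℝ => Ff (F a) d t g B (lam a * z)) :=
    fun a => (bFf a).comp (g := fun z => lam a * z) (by fun_prop)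
  have bfcl : ∀ a c, Bd 1 (fun z : ℝ => fc (F a) t c (lam a * z)) :=
    fun a c => (fcB (hF a) t c).comp (g := fun z => lam a * z) (by fun_prop)
  -- step 0: change of variable
  have ecn : cn F V (fun a => i a) = av W (fun z => ∏ a, F a ⌊lam a * z⌋) := by
    rw [hWdef, ← av_scale hV h3E (fun z => ∏ a, F a ⌊lam a * z⌋)]
    unfold cn
    congr 1
    funext y
    apply prod_congr rfl
    intro a _
    rw [← mul_assoc, hlamE, zpow_natCast]
  -- step 1
  have k1 : |av W (fun z => ∏ a, F a ⌊lam a * z⌋) - av W (fun z => ∏ a, Ff (F a) d t g B (lam a * z))| ≤ n * e₁ := by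
    have b1 : Bd 1 (fun z => ∏ a, F a ⌊lam a * z⌋) := Bd.fprod univ fun a _ => bFl a
    have b2 : Bd 1 (fun z => ∏ a, Ff (F a) d t g B (lam a * z)) := Bd.fprod univ fun a _ => bFfl a
    rw [← av_sub W b1 b2]
    refine (abs_av_le hW (b1.sub b2)).trans ?_
    have := av_prod_tele univ hW (u := fun a z => F a ⌊lam a * z⌋) (v := fun a z => Ff (F a) d t g B (lam a * z))
      (fun a _ => bFl a) (fun a _ => bFfl a) (e := e₁) (fun a _ => by
        have e1 := av_scale hW (hlam0 a) (fun y => |F a ⌊y⌋ - Ff (F a) d t g B y|)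
        rw [e1, hlamW]
        exact h1 a)
    simpa using this
  -- step 2: expansion
  set Ψ : (Fin n → ℕ) → ℕ → ℝ → ℝ := fun c w z => ∏ a, ((g : ℝ) * psi d t g (c a) ((⌊z⌋ + (w : ℕ)) / 3 ^ e a)) with hΨ
  set Φ : (Fin n → ℕ) → ℝ → ℝ := fun c z => ∏ a, fc (F a) t (c a) (lam a * z) with hΦ
  have bΦ : ∀ c, Bd 1 (Φ c) := fun c => Bd.fprod univ fun a _ => bfcl a (c a)
  have hps : ∀ (c : ℕ) (x : ℤ), |(g : ℝ) * psi d t g c x| ≤ 1 := fun c x => by
    rw [abs_of_nonneg (mul_nonneg hg'.le (psi_nonneg c x))]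
    calc (g : ℝ) * psi d t g c x ≤ g * (1 / g) := mul_le_mul_of_nonneg_left (psi_le hg c x) hg'.le
      _ = 1 := by field_simp
  have bΨ : ∀ c w, Bd 1 (Ψ c w) := fun c w => Bd.fprod univ fun a _ =>
    Bd.fl (F := fun x : ℤ => (g : ℝ) * psi d t g (c a) ((x + (w : ℕ)) / 3 ^ e a)) fun x => hps _ _
  have hfl0 : ∀ (a : Fin n) (z : ℝ), ⌊lam a * z⌋ = (⌊z⌋ + (0 : ℕ)) / 3 ^ e a := fun a z => by
    have := floor_three (e a) 0 z
    simpa using this
  have eFf : ∀ z, ∏ a, Ff (F a) d t g B (lam a * z)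
      = ∑ c ∈ Fintype.piFinset (fun _ : Fin n => Cs t g B), (1 / (g : ℝ) ^ n) * (Ψ c 0 z * Φ c z) := by
    intro z
    unfold Ff
    rw [prod_univ_sum]
    apply sum_congr rfl
    intro c _
    rw [hΨ, hΦ]
    simp only
    rw [← prod_mul_distrib]
    have e1 : (1 / (g : ℝ) ^ n) = ∏ _a : Fin n, (1 / (g : ℝ)) := by
      rw [Finset.prod_const, card_univ, Fintype.card_fin, div_pow, one_pow]
    rw [e1, ← prod_mul_distrib]
    apply prod_congr rfl
    intro a _
    rw [hfl0 a z]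
    field_simp
  have eav : av W (fun z => ∏ a, Ff (F a) d t g B (lam a * z))
      = ∑ c ∈ Fintype.piFinset (fun _ : Fin n => Cs t g B), (1 / (g : ℝ) ^ n) * av W (fun z => Ψ c 0 z * Φ c z) := by
    simp only [eFf]
    rw [av_sum W (M := fun _ => |1 / (g : ℝ) ^ n| * (1 * 1)) (fun c _ => ((bΨ c 0).mul (bΦ c)).cmul _)]
    apply sum_congr rfl
    intro c _
    rw [av_cmul]
  -- step 3
  have k3 : ∀ c ∈ Fintype.piFinset (fun _ : Fin n => Cs t g B),
      |av W (fun z => Ψ c 0 z * Φ c z) - (∏ a, ((g : ℝ) * pc d t g (c a))) * av W (Φ c)|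
        ≤ √ η + n * e₃ + 2 * l / V := by
    intro c hc
    rw [Fintype.mem_piFinset] at hc
    have hℓ : 1 ≤ l * 3 ^ E := Nat.mul_pos hl (by positivity)
    have h5 := qN (Ψ := Ψ c) (bΨ c) (bΦ c) hW (l := l * 3 ^ E) hℓ (e₃ := n * e₃) (η := η)
      (p := ∏ a, ((g : ℝ) * pc d t g (c a)))
      (fun w y => by
        rw [hΨ]
        simp only
        apply prod_congr rfl
        intro a _
        rw [Int.floor_add_natCast]
        push_cast
        rw [add_zero])
      (fun w hw => by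
        have h6 := av_prod_tele univ hW (u := fun a z => fc (F a) t (c a) (lam a * (z + (w : ℕ))))
          (v := fun a z => fc (F a) t (c a) (lam a * z))
          (fun a _ => (bfcl a (c a)).comp (g := fun z => z + (w : ℕ)) (by fun_prop)) (fun a _ => bfcl a (c a)) (e := e₃)
          (fun a _ => by
            have e2 : (fun z => |fc (F a) t (c a) (lam a * (z + (w : ℕ))) - fc (F a) t (c a) (lam a * z)|)
                = fun z => |fc (F a) t (c a) (lam a * z + lam a * (w : ℕ)) - fc (F a) t (c a) (lam a * z)| := by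
              funext z; rw [mul_add]
            have e1 := av_scale hW (hlam0 a) (fun y => |fc (F a) t (c a) (y + lam a * (w : ℕ)) - fc (F a) t (c a) y|)
            rw [e2, e1, hlamW]
            refine h3 a (c a) (hc a) _ (mul_nonneg (hlam0 a).le (Nat.cast_nonneg _)) ?_
            have hw' : (w : ℝ) ≤ l * 3 ^ E := by exact_mod_cast hw.le
            calc lam a * (w : ℝ) ≤ lam a * (l * 3 ^ E) := mul_le_mul_of_nonneg_left hw' (hlam0 a).le
              _ = l * (lam a * 3 ^ E) := by ring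
              _ = l * 3 ^ i a := by rw [hlamE])
        simpa using h6)
      (by
        have := h4 c
        rw [hΨ]
        simp only
        push_cast
        exact this)
    have e6 : 2 * ((l * 3 ^ E : ℕ) : ℝ) / W = 2 * l / V := by rw [hWdef]; push_cast; field_simp
    rw [e6] at h5
    exact h5
  -- step 4: identify the main term
  have e4 : ∀ c : Fin n → ℕ, av W (Φ c) = cn F (V / 2 ^ t) (fun a => (i a : ℤ) + c a) := by
    intro c
    have h2t : (0 : ℝ) < 1 / 2 ^ t := by positivity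
    rw [hWdef, ← av_scale hV h3E (Φ c)]
    unfold cn
    have e5 : V / 2 ^ t = 1 / 2 ^ t * V := by ring
    rw [e5, ← av_scale hV h2t (fun y => ∏ a, F a ⌊(3 : ℝ) ^ ((i a : ℤ) + c a) * y⌋)]
    congr 1
    funext y
    rw [hΦ]
    apply prod_congr rfl
    intro a _
    unfold fc
    have e6 : (3 : ℝ) ^ c a * (lam a * (3 ^ E * y)) / 2 ^ t = (3 : ℝ) ^ ((i a : ℤ) + c a) * (1 / 2 ^ t * y) := by
      rw [← mul_assoc (lam a), hlamE, zpow_add₀ (by norm_num)]
      simp only [zpow_natCast]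
      ring
    rw [e6]
  have eM : ∑ c ∈ Fintype.piFinset (fun _ : Fin n => Cs t g B),
        (∏ a, pc d t g (c a)) * cn F (V / 2 ^ t) (fun a => (i a : ℤ) + c a)
      = ∑ c ∈ Fintype.piFinset (fun _ : Fin n => Cs t g B),
        (1 / (g : ℝ) ^ n) * ((∏ a, ((g : ℝ) * pc d t g (c a))) * av W (Φ c)) := by
    apply sum_congr rfl
    intro c _
    rw [e4, prod_mul_distrib, Finset.prod_const, card_univ, Fintype.card_fin]
    field_simp
  have k5 : |av W (fun z => ∏ a, Ff (F a) d t g B (lam a * z)) - ∑ c ∈ Fintype.piFinset (fun _ : Fin n => Cs t g B),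
        (∏ a, pc d t g (c a)) * cn F (V / 2 ^ t) (fun a => (i a : ℤ) + c a)|
      ≤ ((#(Cs t g B) : ℝ) / g) ^ n * (√ η + n * e₃ + 2 * l / V) := by
    rw [eav, eM, ← sum_sub_distrib]
    refine (abs_sum_le_sum_abs _ _).trans ?_
    have h7 : ∀ c ∈ Fintype.piFinset (fun _ : Fin n => Cs t g B),
        |1 / (g : ℝ) ^ n * av W (fun z => Ψ c 0 z * Φ c z)
          - 1 / (g : ℝ) ^ n * ((∏ a, ((g : ℝ) * pc d t g (c a))) * av W (Φ c))|
          ≤ 1 / (g : ℝ) ^ n * (√ η + n * e₃ + 2 * l / V) := by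
      intro c hc
      rw [← mul_sub, abs_mul, abs_of_pos (by positivity : (0 : ℝ) < 1 / (g : ℝ) ^ n)]
      exact mul_le_mul_of_nonneg_left (k3 c hc) (by positivity)
    refine (sum_le_sum h7).trans (le_of_eq ?_)
    rw [sum_const, Fintype.card_piFinset, Finset.prod_const, card_univ, Fintype.card_fin, nsmul_eq_mul, div_pow]
    push_cast
    ring
  rw [ecn]
  have a1 := abs_le.1 k1
  have a5 := abs_le.1 k5
  rw [abs_le]
  constructor <;> linarith [a1.1, a1.2, a5.1, a5.2]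

end Pool.Agent.KS6_24.ST
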