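import Mathlib
import Pool.Agent.KS6_24.ST.MXDefs

/-!
PROJECT KL: the joint law at `n` levels is that of `n` coalescing simple random walks. Statements of the jobs.

After `t` steps the walker `a` at the level `i a` is at the level `i a + c a`; `2 c a - t` is a simple random walk of `t`
steps, and the walkers are independent until they meet. `kn V = log V / gm` steps in all. `Cw G k x` is the mean of `G` at
the positions after `k` steps of coalescing simple random walks from `x`.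
Error: `e V i = cn F V i - Cw (GM M) (kn (3 ^ i 0 * V)) (2 i)`. Stage (S_STAGEN, S_WKN) if all gaps are
`≥ √m / L ^ (3/4)`; otherwise two walkers are merged (KL4) and induction on `n`; at the height `η m` gaps `≥ A √(η m)`:
product of the means (S_CORNL, S_CW), other gaps: barrier `Br` for the pairs (S_WK2).
-/

set_option autoImplicit false

namespace Pool.Agent.KS6_24.ST

open Pool.Agent.H499R2.CO Pool.Agent.Y965.SI Finset Pool.Agent.KS6_24.LN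

/-- the position `x` after a step: those in `A` go up, the others down -/
def mv (A : Finset ℤ) (x : ℤ) : ℤ := if x ∈ A then x + 1 else x - 1

/-- mean over the subsets `A` of `T` -/
noncomputable def Ex (T : Finset ℤ) (h : Finset ℤ → ℝ) : ℝ := (∑ A ∈ T.powerset, h A) / 2 ^ #T

/-- mean of `G` after `k` steps of COALESCING simple random walks from `x` (walkers at the same position move together) -/
noncomputable def Cw {n : ℕ} (G : (Fin n → ℤ) → ℝ) : ℕ → (Fin n → ℤ) → ℝ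
  | 0, x => G x
  | k + 1, x => Ex (univ.image x) fun A => Cw G k fun a => mv A (x a)

/-- mean of `H` after `t` steps of INDEPENDENT simple random walks from `x` -/
noncomputable def In {n : ℕ} (H : (Fin n → ℤ) → ℝ) : ℕ → (Fin n → ℤ) → ℝ
  | 0, x => H x
  | t + 1, x => (∑ A ∈ (univ : Finset (Fin n)).powerset, In H t fun a => if a ∈ A then x a + 1 else x a - 1) / 2 ^ n

/-- the product over the blocks of walkers at the same position of the means `M` -/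
noncomputable def GM {n : ℕ} (M : Finset (Fin n) → ℝ) (x : Fin n → ℤ) : ℝ :=
  ∏ z ∈ univ.image x, M (univ.filter fun a => x a = z)

/-- the number of steps of the walks -/
noncomputable def kn (V : ℝ) : ℕ := ⌊Real.log V / gm⌋₊

/-- `G` is bounded by `1` and translation invariant -/
def Gok {n : ℕ} (G : (Fin n → ℤ) → ℝ) : Prop := (∀ x, |G x| ≤ 1) ∧ ∀ (x : Fin n → ℤ) (s : ℤ), G (fun a => x a + s) = G x

/-- the sum over the pairs of `exp (- (x a - x b) ^ 2 / (4 k))` (bound for the probability that two walkers meet in `k` steps) -/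
noncomputable def Ep {n : ℕ} (k : ℕ) (x : Fin n → ℤ) : ℝ :=
  ∑ a, ∑ b, if a = b then 0 else Real.exp (-((x a : ℝ) - x b) ^ 2 / (4 * k))

/-- KL1 (helper7): properties of `Cw`. (3): two copies with the same arrows, the walkers `x a`, `x' a` meet with
probability `1 - UU (2k) |x a - x' a|`; (4): `Cw (Cw G k) l = Cw G (k + l)` and (3); (5), (6): induction on `t`, with
`1 - UU k j ≤ 2 exp (-j²/(2k))`. -/
def S_CW : Prop := ∃ C : ℝ, 1 ≤ C ∧ ∀ (n : ℕ) (G : (Fin n → ℤ) → ℝ), Gok G →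
  (∀ k x, |Cw G k x| ≤ 1) ∧
  (∀ (k : ℕ) (x : Fin n → ℤ) (s : ℤ), Cw G k (fun a => x a + s) = Cw G k x) ∧
  (∀ (k : ℕ) (x x' : Fin n → ℤ), (∀ a, (x a - x' a) % 2 = 0) →
    |Cw G k x - Cw G k x'| ≤ C * (∑ a, |(x a : ℝ) - x' a|) / √ ((k : ℝ) + 1)) ∧
  (∀ (k l : ℕ) (x : Fin n → ℤ), |Cw G (k + l) x - Cw G k x| ≤ C * n * (√ l + 1) / √ ((k : ℝ) + 1)) ∧
  (∀ (k t : ℕ) (x : Fin n → ℤ), (∀ a b, (x a - x b) % 2 = 0) → |Cw G (t + k) x - In (Cw G k) t x| ≤ C * Ep t x) ∧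
  (∀ g0 : ℝ, (∀ x, Function.Injective x → G x = g0) → ∀ (k : ℕ) (x : Fin n → ℤ), (∀ a b, (x a - x b) % 2 = 0) →
    |Cw G k x - g0| ≤ C * Ep k x)

/-- KL2 (helper12): the stage acts on `Cw`. -/
def S_WKN (d : ℤ) : Prop := ∀ n : ℕ, ∃ (C : ℝ) (m0 : ℕ), 0 < C ∧ ∀ G : (Fin (n + 1) → ℤ) → ℝ, Gok G →
  ∀ m L : ℕ, m0 ≤ m → Nat.log 2 m ≤ L → L ≤ 3 * Nat.log 2 m → ∀ V : ℝ, 2 ^ m ≤ V →
  ∀ i : Fin (n + 1) → ℕ, (∀ a, (i a : ℝ) ≤ (m : ℝ) ^ (0.9995 : ℝ)) →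
    (∀ a b, a ≠ b → (m : ℝ) ^ 2 ≤ ((i a : ℝ) - i b) ^ 4 * (L : ℝ) ^ 3) →
    |Cw G (kn (3 ^ i 0 * V)) (fun a => 2 * (i a : ℤ))
      - ∑ c ∈ Fintype.piFinset (fun _ : Fin (n + 1) => Cs (st m L) (sgw m L) (sB m L)),
        (∏ a, pc d (st m L) (sgw m L) (c a)) *
          Cw G (kn (3 ^ (i 0 + c 0) * (V / 2 ^ (st m L)))) (fun a => 2 * ((i a : ℤ) + c a))|
      ≤ C / (L : ℝ) ^ 4

/-- KL3: `S_WK` without the upper bound for `V` (the proof in PL2 does not use it). -/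
def S_WK2 (d : ℤ) : Prop := ∃ (C : ℝ) (m0 : ℕ), 0 < C ∧ ∀ m L : ℕ, m0 ≤ m → Nat.log 2 m ≤ L → L ≤ 3 * Nat.log 2 m →
  ∀ V : ℝ, 2 ^ m ≤ V → ∀ j : ℤ,
    |∑ c ∈ Cs (st m L) (sgw m L) (sB m L), ∑ c' ∈ Cs (st m L) (sgw m L) (sB m L),
        pc d (st m L) (sgw m L) c * pc d (st m L) (sgw m L) c' * UU (kk (3 ^ c / 2 ^ (st m L) * V)) (j + 2 * ((c' : ℤ) - c))
      - UU (kk V) j| ≤ C / (L : ℝ) ^ 4

/-- the functions after the walker `b` has been merged with the walker `b.succAbove a` -/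
noncomputable def mgF {n : ℕ} (F : Fin (n + 1) → ℤ → ℝ) (b : Fin (n + 1)) (a : Fin n) : Fin n → ℤ → ℝ :=
  fun c x => if c = a then F (b.succAbove a) x * F b x else F (b.succAbove c) x

/-- the means after the walker `b` has been merged with the walker `b.succAbove a` -/
noncomputable def mgM {n : ℕ} (M : Finset (Fin (n + 1)) → ℝ) (b : Fin (n + 1)) (a : Fin n) : Finset (Fin n) → ℝ :=
  fun s => if a ∈ s then M (insert b (s.map b.succAboveEmb)) else M (s.map b.succAboveEmb)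

/-- the means of the products of the functions -/
def Mn {n : ℕ} (F : Fin n → ℤ → ℝ) (M : Finset (Fin n) → ℝ) : Prop :=
  (∀ s, |M s| ≤ 1) ∧ ∀ s, MeanZero (fun x => ∏ a ∈ s, F a x - M s)

/-- KL4: merging. -/
def S_MG (d : ℤ) : Prop := ∀ (n : ℕ) (F : Fin (n + 1) → ℤ → ℝ), (∀ a, InvF d (F a)) → ∀ M : Finset (Fin (n + 1)) → ℝ, Mn F M →
  Gok (GM M) ∧ (∀ x : Fin (n + 1) → ℤ, Function.Injective x → GM M x = ∏ a, M {a}) ∧
  (∀ b a, (∀ c, InvF d (mgF F b a c)) ∧ Mn (mgF F b a) (mgM M b a)) ∧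
  (∀ (b : Fin (n + 1)) (a : Fin n) (k : ℕ) (x : Fin (n + 1) → ℤ), x b = x (b.succAbove a) →
    Cw (GM M) k x = Cw (GM (mgM M b a)) k (fun c => x (b.succAbove c))) ∧
  ∀ ε : ℝ, 0 < ε → ∃ m0 : ℕ, ∀ m L : ℕ, m0 ≤ m → Nat.log 2 m ≤ L → L ≤ 3 * Nat.log 2 m → ∀ V : ℝ, 2 ^ m ≤ V →
    ∀ (i : Fin (n + 1) → ℕ) (b : Fin (n + 1)) (a : Fin n), ((i b : ℝ) - i (b.succAbove a)) ^ 4 * (L : ℝ) ^ 3 ≤ (m : ℝ) ^ 2 →
      |cn F V (fun a => i a) - cn (mgF F b a) V (fun c => i (b.succAbove c))| ≤ ε ∧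
      ∀ k : ℕ, (m : ℝ) ≤ k → |Cw (GM M) k (fun a => 2 * (i a : ℤ)) - Cw (GM (mgM M b a)) k (fun c => 2 * (i (b.succAbove c) : ℤ))| ≤ ε

/-- MX4 (helper24): MIXING OF ALL ORDERS, levels up to `(log V) ^ 0.99` (from `S_STAGEN` and `S_EN3`). -/
def S_CORNL (d : ℤ) : Prop := ∀ (n : ℕ) (F : Fin (n + 1) → ℤ → ℝ), (∀ a, InvF d (F a)) → MeanZero (F 0) →
  ∀ ε : ℝ, 0 < ε → ∃ A V0 : ℝ, 0 < A ∧ 1 ≤ V0 ∧ ∀ V : ℝ, V0 ≤ V → ∀ i : Fin (n + 1) → ℕ,
    (∀ a, (i a : ℝ) ≤ Real.log V ^ (0.99 : ℝ)) → (∀ a b, a ≠ b → A * √ (Real.log V) ≤ |(i a : ℝ) - i b|) →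
    |cn F V (fun a => i a)| ≤ ε

/-- KL5 (helper24): THE JOINT LAW. -/
def S_KL (d : ℤ) : Prop := ∀ (n : ℕ) (F : Fin n → ℤ → ℝ), (∀ a, InvF d (F a)) → ∀ M : Finset (Fin n) → ℝ, Mn F M →
  ∀ ε : ℝ, 0 < ε → ∃ V0 : ℝ, 1 ≤ V0 ∧ ∀ V : ℝ, V0 ≤ V → ∀ i : Fin n → ℕ, (∀ a, (i a : ℝ) ≤ Real.log V ^ (0.98 : ℝ)) →
    |cn F V (fun a => i a) - Cw (GM M) (kn V) (fun a => 2 * (i a : ℤ))| ≤ ε

end Pool.Agent.KS6_24.ST
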