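import Mathlib
import Pool.Agent.KS6_24.ST.KLDefs
import Pool.Agent.KS6_24.ST.CorN1
import Pool.Agent.KS6_24.ST.Cor

/-! MX4: `S_CORNL`. -/

set_option autoImplicit false

namespace Pool.Agent.KS6_24.ST

open Pool.Agent.H499R2.CO Pool.Agent.Y965.SI Finset Pool.Agent.KS6_24.LN Filter

/-- smoothing at the top -/
theorem smooth_top {n : ℕ} {F : Fin (n + 1) → ℤ → ℝ} (hfb : ∀ a x, |F a x| ≤ 1) {K : ℕ} (hK : 1 ≤ K) {V : ℝ} (hV0 : 0 < V)
    (i : Fin (n + 1) → ℕ) {e : ℝ}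
    (h2 : ∀ x < K, av (3 ^ i 0 * V) (fun y => |F 0 ⌊y⌋ - F 0 ⌊3 ^ x * y + 0⌋|) ≤ e) :
    |cn F V (fun a => i a) - blN F K V (fun a => i a)| ≤ e := by
  have hKr : (0 : ℝ) < K := by exact_mod_cast hK
  have h1 : ∀ x ∈ range K, |cn F V (fun a => i a) - cn F V (fun a => (i a : ℤ) + if a = 0 then ((x : ℕ) : ℤ) else 0)| ≤ e := by
    intro x hx
    rw [mem_range] at hx
    have b1 := cnB hfb (fun a => (i a : ℤ))
    have b2 := cnB hfb (fun a => (i a : ℤ) + if a = 0 then ((x : ℕ) : ℤ) else 0)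
    have b3 : Bd 1 (fun y : ℝ => F 0 ⌊3 ^ i 0 * y⌋) :=
      Bd.flc (F := F 0) (hfb 0) (g := fun y : ℝ => (3 : ℝ) ^ i 0 * y) (by fun_prop)
    have b4 : Bd 1 (fun y : ℝ => F 0 ⌊3 ^ x * (3 ^ i 0 * y) + 0⌋) :=
      Bd.flc (F := F 0) (hfb 0) (g := fun y : ℝ => (3 : ℝ) ^ x * (3 ^ i 0 * y) + 0) (by fun_prop)
    have b5 : Bd 1 (fun y : ℝ => ∏ a : Fin n, F a.succ ⌊(3 : ℝ) ^ i a.succ * y⌋) :=
      Bd.fprod univ fun a _ => Bd.flc (F := F a.succ) (hfb a.succ) (g := fun y : ℝ => (3 : ℝ) ^ i a.succ * y) (by fun_prop)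
    have e1 : cn F V (fun a => i a) - cn F V (fun a => (i a : ℤ) + if a = 0 then ((x : ℕ) : ℤ) else 0)
        = av V (fun y => (∏ a, F a ⌊(3 : ℝ) ^ (i a : ℤ) * y⌋)
          - ∏ a, F a ⌊(3 : ℝ) ^ ((i a : ℤ) + if a = 0 then ((x : ℕ) : ℤ) else 0) * y⌋) := (av_sub V b1 b2).symm
    rw [e1]
    refine (abs_av_le hV0 (b1.sub b2)).trans ?_
    have h3 := av_scale hV0 (show (0 : ℝ) < 3 ^ i 0 by positivity) (fun y => |F 0 ⌊y⌋ - F 0 ⌊3 ^ x * y + 0⌋|)
    have h4 := h2 x hx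
    rw [← h3] at h4
    refine le_trans ?_ h4
    apply av_mono hV0 (b1.sub b2).abs (b3.sub b4).abs
    intro y _ _
    rw [Fin.prod_univ_succ, Fin.prod_univ_succ]
    have e2 : (3 : ℝ) ^ (((i 0 : ℕ) : ℤ) + if (0 : Fin (n + 1)) = 0 then ((x : ℕ) : ℤ) else 0) * y = 3 ^ x * (3 ^ i 0 * y) + 0 := by
      rw [if_pos rfl, show (((i 0 : ℕ) : ℤ) + ((x : ℕ) : ℤ)) = ((i 0 + x : ℕ) : ℤ) by push_cast; ring, zpow_natCast, pow_add]
      ring
    have e3 : ∏ a : Fin n, F a.succ ⌊(3 : ℝ) ^ ((i a.succ : ℤ) + if a.succ = 0 then ((x : ℕ) : ℤ) else 0) * y⌋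
        = ∏ a : Fin n, F a.succ ⌊(3 : ℝ) ^ i a.succ * y⌋ := by
      apply prod_congr rfl
      intro a _
      rw [if_neg (Fin.succ_ne_zero a), add_zero, zpow_natCast]
    have e4 : ∏ a : Fin n, F a.succ ⌊(3 : ℝ) ^ (i a.succ : ℤ) * y⌋ = ∏ a : Fin n, F a.succ ⌊(3 : ℝ) ^ i a.succ * y⌋ := by
      apply prod_congr rfl
      intro a _
      rw [zpow_natCast]
    rw [e2, e3, e4, zpow_natCast, ← sub_mul, abs_mul]
    exact mul_le_of_le_one_right (abs_nonneg _) (b5.2 y)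
  have h2 : cn F V (fun a => i a) - blN F K V (fun a => i a)
      = (∑ x ∈ range K, (cn F V (fun a => i a) - cn F V (fun a => (i a : ℤ) + if a = 0 then ((x : ℕ) : ℤ) else 0))) / K := by
    rw [sum_sub_distrib, sum_const, card_range, nsmul_eq_mul, sub_div]
    unfold blN
    congr 1
    field_simp
  rw [h2, abs_div, abs_of_pos hKr, div_le_iff₀ hKr]
  refine (abs_sum_le_sum_abs _ _).trans ?_
  calc _ ≤ ∑ x ∈ range K, e := sum_le_sum h1
    _ = e * K := by rw [sum_const, card_range, nsmul_eq_mul, mul_comm]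

theorem cornl (d : ℤ) (hd : d = 1 ∨ d = -1) (hS : S_STAGEN d) (hE3 : S_EN3 d) : S_CORNL d := by
  intro n F hF hmz ε hε
  have hd2 : d % 2 = 1 := by rcases hd with rfl | rfl <;> decide
  obtain ⟨D, m0, hD, hm0, hS⟩ := hS (n + 1)
  obtain ⟨C, hC, hci⟩ := ci d hd
  obtain ⟨A3, Z0, hA3, hZ0, hen⟩ := hE3 (F 0) (hF 0) hmz ((ε / 4) ^ 2) (by positivity)
  have hfb : ∀ a x, |F a x| ≤ 1 := fun a => (hF a).1
  set A : ℝ := 8 + 92 * √ ((n + 1) / ε) with hA
  have hA8 : 8 ≤ A := by rw [hA]; have : 0 ≤ 92 * √ (((n : ℝ) + 1) / ε) := by positivity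
                         linarith
  have hA2 : 8464 * ((n + 1) / ε) ≤ A ^ 2 := by
    have h1 : (92 * √ (((n : ℝ) + 1) / ε)) ^ 2 = 8464 * ((n + 1) / ε) := by
      rw [mul_pow, Real.sq_sqrt (by positivity)]; norm_num
    rw [← h1]
    apply pow_le_pow_left₀ (by positivity)
    rw [hA]; linarith
  -- eventual facts
  have F1 : ∀ᶠ m : ℕ in atTop, (m0 : ℝ) * (m : ℝ) ^ (0 : ℝ) ≤ (m : ℝ) ^ (0.995 : ℝ) := ev1 _ (by norm_num)
  have F2 := ev3
  have F3 := ev4 (max 2 (96 * D / ε))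
  have F4 : ∀ᶠ m : ℕ in atTop, 3 * (m : ℝ) ^ (0.99 : ℝ) ≤ (m : ℝ) ^ (0.9945 : ℝ) := ev1 _ (by norm_num)
  have F5 : ∀ᶠ m : ℕ in atTop, 4 * (m : ℝ) ^ (0.99 : ℝ) ≤ (m : ℝ) ^ (0.995 : ℝ) := ev1 _ (by norm_num)
  have F6 : ∀ᶠ m : ℕ in atTop, (A3 * 2) * (m : ℝ) ^ (0.4975 : ℝ) ≤ (m : ℝ) ^ (0.4999 : ℝ) := ev1 _ (by norm_num)
  have F7 : ∀ᶠ m : ℕ in atTop, 2 * (m : ℝ) ^ (0.4999 : ℝ) ≤ (m : ℝ) ^ (0.995 : ℝ) := ev1 _ (by norm_num)
  have F8 : ∀ᶠ m : ℕ in atTop, (2 * Real.log Z0) * (m : ℝ) ^ (0 : ℝ) ≤ (m : ℝ) ^ (0.995 : ℝ) := ev1 _ (by norm_num)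
  have F9 : ∀ᶠ m : ℕ in atTop, (5 * C ^ 2 * (36 / ε ^ 2)) * Real.log (m + 1) ≤ (m : ℝ) ^ (0.0002 : ℝ) :=
    ev2 _ (by positivity) (by norm_num)
  have F10 : ∀ᶠ m : ℕ in atTop, 2 * (m : ℝ) ^ (0.4999 : ℝ) ≤ (m : ℝ) ^ (0.5 : ℝ) := ev1 _ (by norm_num)
  have F11 : ∀ᶠ m : ℕ in atTop, 3 * (m : ℝ) ^ (0.995 : ℝ) ≤ (m : ℝ) ^ (1 : ℝ) := ev1 _ (by norm_num)
  have F12 : ∀ᶠ m : ℕ in atTop, (2 + A) * (m : ℝ) ^ (0.5 : ℝ) ≤ (m : ℝ) ^ (0.99 : ℝ) := ev1 _ (by norm_num)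
  obtain ⟨m1, hm1⟩ := eventually_atTop.1 ((F1.and (F2.and (F3.and (F4.and F5)))).and
    ((F6.and (F7.and (F8.and F9))).and (F10.and (F11.and F12))))
  refine ⟨A, 2 ^ (max m1 2), by linarith, one_le_pow₀ (by norm_num), ?_⟩
  intro V hV i hi2 hi1
  -- normalization
  obtain ⟨a1, _, ha1⟩ := exists_mem_eq_inf' (s := (univ : Finset (Fin (n + 1)))) univ_nonempty i
  obtain ⟨σ, hσ⟩ : ∃ σ, σ = (univ : Finset (Fin (n + 1))).inf' univ_nonempty i := ⟨_, rfl⟩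
  rw [← hσ] at ha1
  have hσle : ∀ a, σ ≤ i a := fun a => by rw [hσ]; exact inf'_le _ (mem_univ a)
  have hV1 : 1 ≤ V := le_trans (one_le_pow₀ (by norm_num)) hV
  have hVpos : 0 < V := by linarith
  obtain ⟨W, hW⟩ : ∃ W : ℝ, W = 3 ^ σ * V := ⟨_, rfl⟩
  have hVW : V ≤ W := by rw [hW]; exact le_mul_of_one_le_left (by linarith) (one_le_pow₀ (by norm_num))
  have hcnW : cn F V (fun a => (i a : ℤ)) = cn F W (fun a => ((i a - σ : ℕ) : ℤ)) := by
    rw [hW, ← cn_shift F hVpos]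
    congr 1
    funext a
    have := hσle a
    push_cast [Nat.cast_sub this]
    ring
  rw [hcnW]
  obtain ⟨k, hk⟩ : ∃ k : Fin (n + 1) → ℕ, k = fun a => i a - σ := ⟨_, rfl⟩
  have hk' : (fun a => ((i a - σ : ℕ) : ℤ)) = fun a => ((k a : ℕ) : ℤ) := by rw [hk]
  rw [hk']
  have hkr : ∀ a, (k a : ℝ) = (i a : ℝ) - σ := fun a => by rw [hk]; simp only; rw [Nat.cast_sub (hσle a)]
  have hk0 : ∃ a, k a = 0 := ⟨a1, by rw [hk]; simp only; omega⟩
  obtain ⟨m, hmV1, hmV2⟩ := height (show 1 ≤ W from hV1.trans hVW)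
  have hmm : max m1 2 ≤ m := by
    have : (2 : ℝ) ^ (max m1 2) < 2 ^ (m + 1) := lt_of_le_of_lt (hV.trans hVW) hmV2
    have := (pow_lt_pow_iff_right₀ (show (1 : ℝ) < 2 by norm_num)).1 this
    omega
  obtain ⟨⟨G1, G2, G3, G4, G5⟩, ⟨G6, G7, G8, G9⟩, G10, G11, G12⟩ := hm1 m ((le_max_left _ _).trans hmm)
  have hmn2 : 2 ≤ m := (le_max_right _ _).trans hmm
  have hmn : 1 ≤ m := by omega
  have hm : (1 : ℝ) ≤ m := by exact_mod_cast hmn
  have hm00 : (0 : ℝ) < m := by linarith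
  have hW0 : 0 < W := lt_of_lt_of_le (by positivity) hmV1
  have l2 := Real.log_two_gt_d9
  have l2' := Real.log_two_lt_d9
  have l3 := log3_lt
  have l30 : 0 < Real.log 3 := Real.log_pos (by norm_num)
  have hlogV1 : 1 ≤ Real.log V := by
    have h1 : (2 : ℝ) ^ 2 ≤ V := le_trans (pow_le_pow_right₀ (by norm_num) (le_max_right _ _)) hV
    have := Real.log_le_log (by norm_num) h1
    rw [Real.log_pow] at this
    push_cast at this
    linarith
  have hlogW1 : 0.69 * m ≤ Real.log W := by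
    have := Real.log_le_log (by positivity) hmV1
    rw [Real.log_pow] at this
    nlinarith
  have hlogW2 : Real.log W ≤ 1.4 * m := by
    have := Real.log_le_log hW0 hmV2.le
    rw [Real.log_pow] at this
    push_cast at this
    nlinarith
  have hlogVW : Real.log V ≤ Real.log W := Real.log_le_log hVpos hVW
  have hlogWV : Real.log W ≤ 2.1 * Real.log V := by
    have h1 : Real.log W = σ * Real.log 3 + Real.log V := by
      rw [hW, Real.log_mul (by positivity) hVpos.ne', Real.log_pow]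
    have h2 : (σ : ℝ) ≤ Real.log V := by
      have h3 : (σ : ℝ) ≤ Real.log V ^ (0.99 : ℝ) := le_trans (by exact_mod_cast hσle a1) (hi2 a1)
      refine h3.trans ?_
      calc Real.log V ^ (0.99 : ℝ) ≤ Real.log V ^ (1 : ℝ) := Real.rpow_le_rpow_of_exponent_le hlogV1 (by norm_num)
        _ = Real.log V := Real.rpow_one _
    rw [h1]
    have h4 : (σ : ℝ) * Real.log 3 ≤ Real.log V * 1.1 := mul_le_mul h2 l3.le l30.le (by linarith)
    linarith
  set L := Nat.log 2 m with hL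
  set h := ⌈(m : ℝ) ^ (0.995 : ℝ)⌉₊ with hh
  set K := ⌈(m : ℝ) ^ (0.4999 : ℝ)⌉₊ with hK
  have hh1 : (m : ℝ) ^ (0.995 : ℝ) ≤ h := Nat.le_ceil _
  have hh2 : (h : ℝ) ≤ 2 * (m : ℝ) ^ (0.995 : ℝ) := by
    have h1 : (h : ℝ) < (m : ℝ) ^ (0.995 : ℝ) + 1 := Nat.ceil_lt_add_one (by positivity)
    have h2 : (1 : ℝ) ≤ (m : ℝ) ^ (0.995 : ℝ) := Real.one_le_rpow hm (by norm_num)
    linarith
  have hK1 : (m : ℝ) ^ (0.4999 : ℝ) ≤ K := Nat.le_ceil _
  have hm49 : (1 : ℝ) ≤ (m : ℝ) ^ (0.4999 : ℝ) := Real.one_le_rpow hm (by norm_num)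
  have hK2 : (K : ℝ) ≤ 2 * (m : ℝ) ^ (0.4999 : ℝ) := by
    have h1 : (K : ℝ) < (m : ℝ) ^ (0.4999 : ℝ) + 1 := Nat.ceil_lt_add_one (by positivity)
    linarith
  have hKn : 1 ≤ K := by
    have : (1 : ℝ) ≤ K := hm49.trans hK1
    exact_mod_cast this
  have hL2 : 2 ≤ L := by
    have := (le_max_left _ _).trans G3
    exact_mod_cast this
  have hLr : (0 : ℝ) < L := by exact_mod_cast (show 0 < L by omega)
  have hL1r : (1 : ℝ) ≤ L := by exact_mod_cast (show 1 ≤ L by omega)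
  have hm0h : m0 ≤ h := by
    rw [Real.rpow_zero, mul_one] at G1
    have : (m0 : ℝ) ≤ h := G1.trans hh1
    exact_mod_cast this
  have hh0 : 1 ≤ h := by omega
  have hm5 : (m : ℝ) ^ (0.5 : ℝ) ≤ (m : ℝ) ^ (0.995 : ℝ) := Real.rpow_le_rpow_of_exponent_le hm (by norm_num)
  have hLh : L ^ 20 ≤ h := by
    have : ((L : ℕ) : ℝ) ^ 20 ≤ h := G2.trans (hm5.trans hh1)
    exact_mod_cast this
  have hLdiv : L ^ 18 ≤ h / L ^ 2 := by
    rw [Nat.le_div_iff_mul_le (by positivity)]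
    calc L ^ 18 * L ^ 2 = L ^ 20 := by ring
      _ ≤ h := hLh
  have hL10 : 1024 ≤ L ^ 10 := by
    calc 1024 = 2 ^ 10 := by norm_num
      _ ≤ L ^ 10 := Nat.pow_le_pow_left hL2 10
  have hL31 : L ^ 3 + 1 ≤ 2 * L ^ 3 := by
    have : 1 ≤ L ^ 3 := Nat.one_le_pow _ _ (by omega)
    omega
  have hc1 : 256 * (L ^ 3 + 1) ^ 2 ≤ h / L ^ 2 := by
    refine le_trans ?_ hLdiv
    calc 256 * (L ^ 3 + 1) ^ 2 ≤ 256 * (2 * L ^ 3) ^ 2 := Nat.mul_le_mul_left _ (Nat.pow_le_pow_left hL31 2)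
      _ = 1024 * L ^ 6 := by ring
      _ ≤ L ^ 10 * L ^ 6 := Nat.mul_le_mul_right _ hL10
      _ = L ^ 16 := by ring
      _ ≤ L ^ 18 := Nat.pow_le_pow_right (by omega) (by norm_num)
  have hc2 : L ^ 10 ≤ h / L ^ 2 := le_trans (Nat.pow_le_pow_right (by omega) (by norm_num)) hLdiv
  have hsm : (m : ℝ) ^ (0.5 : ℝ) = √ m := by rw [Real.sqrt_eq_rpow]; norm_num
  rw [hsm] at G10 G12 hm5
  rw [Real.rpow_one] at G11
  have hsqm0 : 0 < √ (m : ℝ) := Real.sqrt_pos.2 hm00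
  -- the gap
  set G : ℝ := A / 2 * √ (m : ℝ) with hG
  have hG0 : 0 < G := by positivity
  have hgap : ∀ a b, a ≠ b → G ≤ |(k a : ℝ) - k b| := by
    intro a b hab
    have h1 := hi1 a b hab
    have h2 : (k a : ℝ) - k b = (i a : ℝ) - i b := by rw [hkr, hkr]; ring
    rw [h2]
    refine le_trans ?_ h1
    have h3 : √ (m : ℝ) ≤ 2 * √ (Real.log V) := by
      rw [Real.sqrt_le_left (by positivity), mul_pow, Real.sq_sqrt (by linarith only [hlogV1])]
      linarith only [hlogW1, hlogWV, hlogV1]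
    rw [hG]
    have h4 := mul_le_mul_of_nonneg_left h3 (show 0 ≤ A / 2 by linarith only [hA8])
    linarith only [h4]
  have hkle : ∀ a, (k a : ℝ) ≤ 2 * (m : ℝ) ^ (0.99 : ℝ) := by
    intro a
    have h1 : (k a : ℝ) ≤ i a := by
      rw [hkr]
      have : (0 : ℝ) ≤ σ := Nat.cast_nonneg _
      linarith
    refine (h1.trans (hi2 a)).trans ?_
    calc Real.log V ^ (0.99 : ℝ) ≤ (1.4 * m) ^ (0.99 : ℝ) :=
          Real.rpow_le_rpow (by linarith) (hlogVW.trans hlogW2) (by norm_num)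
      _ = 1.4 ^ (0.99 : ℝ) * (m : ℝ) ^ (0.99 : ℝ) := Real.mul_rpow (by norm_num) hm00.le
      _ ≤ 2 * (m : ℝ) ^ (0.99 : ℝ) := by
        apply mul_le_mul_of_nonneg_right _ (by positivity)
        calc (1.4 : ℝ) ^ (0.99 : ℝ) ≤ 1.4 ^ (1 : ℝ) := Real.rpow_le_rpow_of_exponent_le (by norm_num) (by norm_num)
          _ ≤ 2 := by norm_num
  -- good levels
  have hdiff : ∀ j : Fin (n + 1) → ℕ, (∀ a, |((j a : ℝ) - j 0) - ((k a : ℝ) - k 0)| ≤ G / 4) →
      ∀ a b, |((j a : ℝ) - j b) - ((k a : ℝ) - k b)| ≤ G / 2 := by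
    intro j hj a b
    have h1 := abs_le.1 (hj a)
    have h2 := abs_le.1 (hj b)
    rw [abs_le]
    constructor <;> linarith [h1.1, h1.2, h2.1, h2.2]
  have hup : ∀ j : Fin (n + 1) → ℕ, (∃ a, j a = 0) → (∀ a, |((j a : ℝ) - j 0) - ((k a : ℝ) - k 0)| ≤ G / 4) →
      ∀ a, (j a : ℝ) + √ (m : ℝ) ≤ 3 * (m : ℝ) ^ (0.99 : ℝ) := by
    intro j hj0 hj a
    obtain ⟨b, hb⟩ := hj0
    have h1 := (abs_le.1 (hdiff j hj a b)).2
    rw [hb] at h1
    have h2 := hkle a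
    have h3 : (0 : ℝ) ≤ k b := Nat.cast_nonneg _
    push_cast at h1
    have h4 : G / 2 + √ (m : ℝ) ≤ (2 + A) * √ (m : ℝ) := by
      rw [hG]; nlinarith
    linarith
  have hcore := coreN (F := F) (L := L) (m := m) (h := h) (K := K) (G := G) (γ := ε / 4) (δ := fun a => (k a : ℝ) - k 0)
    hd2 hfb hD (fun m L a b c V e i g k => hS F hF m L a b c V e i g k) (by simp) hKn hm0h hh0
    (fun m' h1 h2 => by
      have e1 : Nat.log 2 m' ≤ L := Nat.log_mono_right h2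
      refine ⟨e1, ?_⟩
      have e2 : m ≤ m' ^ 2 := by
        have h3 : (m : ℝ) ≤ (m' : ℝ) ^ 2 := by
          have h4 : √ (m : ℝ) ≤ m' := by
            have h6 : (h : ℝ) ≤ m' := by exact_mod_cast h1
            linarith
          calc (m : ℝ) = √ (m : ℝ) ^ 2 := (Real.sq_sqrt hm00.le).symm
            _ ≤ (m' : ℝ) ^ 2 := pow_le_pow_left₀ (by positivity) h4 2
        exact_mod_cast h3
      have e3 : m' < 2 ^ (Nat.log 2 m' + 1) := Nat.lt_pow_succ_log_self (by norm_num) m'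
      have e4 : 2 ^ L ≤ m := Nat.pow_log_le_self 2 (by omega)
      have e5 : 2 ^ L < 2 ^ (2 * (Nat.log 2 m' + 1)) := by
        calc 2 ^ L ≤ m := e4
          _ ≤ m' ^ 2 := e2
          _ < (2 ^ (Nat.log 2 m' + 1)) ^ 2 := Nat.pow_lt_pow_left e3 (by norm_num)
          _ = 2 ^ (2 * (Nat.log 2 m' + 1)) := by rw [← pow_mul, mul_comm]
      have e6 := (Nat.pow_lt_pow_iff_right (show 1 < 2 by norm_num)).1 e5
      have e7 : 1 ≤ Nat.log 2 m' := by
        have : 2 ^ 20 ≤ L ^ 20 := Nat.pow_le_pow_left hL2 20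
        exact Nat.le_log_of_pow_le (by norm_num) (by omega)
      omega) hL2 hc1 hc2 hG0 (by positivity)
    (fun m' h1 h2 j hj0 hj x hx => by
      have hx' : (x : ℝ) ≤ √ (m : ℝ) := by
        have : (x : ℝ) ≤ K := by exact_mod_cast hx.le
        linarith
      have hx0 : (0 : ℝ) ≤ x := Nat.cast_nonneg _
      have hi0 : ∀ a : Fin (n + 1), 0 ≤ (if a = 0 then ((x : ℕ) : ℝ) else 0) := fun a => by
        by_cases h5 : a = 0
        · rw [if_pos h5]; exact hx0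
        · rw [if_neg h5]
      have hi1' : ∀ a : Fin (n + 1), (if a = 0 then ((x : ℕ) : ℝ) else 0) ≤ √ (m : ℝ) := fun a => by
        by_cases h5 : a = 0
        · rw [if_pos h5]; exact hx'
        · rw [if_neg h5]; exact hsqm0.le
      constructor
      · intro a
        have e1 := hup j hj0 hj a
        have e2 : (m : ℝ) ^ (0.995 : ℝ) ≤ m' := hh1.trans (by exact_mod_cast h1)
        calc (j a : ℝ) + (if a = 0 then ((x : ℕ) : ℝ) else 0) ≤ 3 * (m : ℝ) ^ (0.99 : ℝ) := by linarith [hi1' a]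
          _ ≤ (m : ℝ) ^ (0.9945 : ℝ) := G4
          _ ≤ (m : ℝ) ^ ((0.995 : ℝ) * 0.9995) := Real.rpow_le_rpow_of_exponent_le hm (by norm_num)
          _ = ((m : ℝ) ^ (0.995 : ℝ)) ^ (0.9995 : ℝ) := Real.rpow_mul hm00.le _ _
          _ ≤ (m' : ℝ) ^ (0.9995 : ℝ) := Real.rpow_le_rpow (by positivity) e2 (by norm_num)
      · intro a b hab
        have e1 := hdiff j hj a b
        have e2 := hgap a b hab
        have e3 : √ (m : ℝ) ≤ |((j a : ℝ) + (if a = 0 then ((x : ℕ) : ℝ) else 0))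
            - ((j b : ℝ) + (if b = 0 then ((x : ℕ) : ℝ) else 0))| := by
          have e4 : |(k a : ℝ) - k b| ≤ |((j a : ℝ) + (if a = 0 then ((x : ℕ) : ℝ) else 0))
            - ((j b : ℝ) + (if b = 0 then ((x : ℕ) : ℝ) else 0))| + (G / 2 + √ (m : ℝ)) := by
            have e5 : (k a : ℝ) - k b = (((j a : ℝ) + (if a = 0 then ((x : ℕ) : ℝ) else 0))
              - ((j b : ℝ) + (if b = 0 then ((x : ℕ) : ℝ) else 0)))
              - (((j a : ℝ) - j b) - ((k a : ℝ) - k b))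
              - ((if a = 0 then ((x : ℕ) : ℝ) else 0) - (if b = 0 then ((x : ℕ) : ℝ) else 0)) := by ring
            rw [e5]
            refine (abs_sub _ _).trans ?_
            have e6 := abs_sub (((j a : ℝ) + (if a = 0 then ((x : ℕ) : ℝ) else 0))
              - ((j b : ℝ) + (if b = 0 then ((x : ℕ) : ℝ) else 0))) (((j a : ℝ) - j b) - ((k a : ℝ) - k b))
            have e7 : |(if a = 0 then ((x : ℕ) : ℝ) else 0) - (if b = 0 then ((x : ℕ) : ℝ) else 0)| ≤ √ (m : ℝ) := by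
              rw [abs_le]
              constructor <;> linarith [hi0 a, hi0 b, hi1' a, hi1' b]
            linarith
          have e8 : 4 * √ (m : ℝ) ≤ G := by
            rw [hG]; nlinarith
          linarith
        have e9 : √ (m : ℝ) ^ 4 ≤ (((j a : ℝ) + (if a = 0 then ((x : ℕ) : ℝ) else 0))
            - ((j b : ℝ) + (if b = 0 then ((x : ℕ) : ℝ) else 0))) ^ 4 := by
          have := pow_le_pow_left₀ hsqm0.le e3 4
          rwa [show (4 : ℕ) = 2 * 2 by norm_num, pow_mul |_| 2 2, sq_abs, ← pow_mul, ← show (4 : ℕ) = 2 * 2 by norm_num] at this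
        have e10 : √ (m : ℝ) ^ 4 = (m : ℝ) ^ 2 := by
          rw [show (4 : ℕ) = 2 * 2 by norm_num, pow_mul, Real.sq_sqrt hm00.le]
        rw [e10] at e9
        have e11 : (m' : ℝ) ^ 2 ≤ (m : ℝ) ^ 2 := pow_le_pow_left₀ (Nat.cast_nonneg _) (by exact_mod_cast h2) 2
        have e12 : (1 : ℝ) ≤ (L : ℝ) ^ 3 := one_le_pow₀ hL1r
        calc (m' : ℝ) ^ 2 ≤ (m : ℝ) ^ 2 := e11
          _ ≤ _ := e9
          _ ≤ _ := le_mul_of_one_le_right (by positivity) e12)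
    (fun V' h1 h2 j hj0 hj => by
      have b := hup j hj0 hj 0
      have hV'0 : 0 < V' := lt_of_lt_of_le (by positivity) h1
      have hlz : Real.log (3 ^ j 0 * V') = j 0 * Real.log 3 + Real.log V' := by
        rw [Real.log_mul (by positivity) hV'0.ne', Real.log_pow]
      have hj0' : (0 : ℝ) ≤ j 0 := Nat.cast_nonneg _
      have hh0r : (0 : ℝ) < h := by exact_mod_cast hh0
      have e1 : Real.log V' ≤ 1.4 * h := by
        have := Real.log_le_log hV'0 h2.le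
        rw [Real.log_pow] at this
        push_cast at this
        nlinarith
      have e2 : 0.69 * h ≤ Real.log V' := by
        have := Real.log_le_log (by positivity) h1
        rw [Real.log_pow] at this
        nlinarith
      have e0 : 0 < (m : ℝ) ^ (0.995 : ℝ) := by positivity
      have e3 : Real.log (3 ^ j 0 * V') ≤ 4 * (m : ℝ) ^ (0.995 : ℝ) := by
        rw [hlz]
        have : (j 0 : ℝ) * Real.log 3 ≤ 3 * (m : ℝ) ^ (0.99 : ℝ) * 1.1 :=
          mul_le_mul (by linarith) l3.le l30.le (by positivity)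
        linarith only [this, e1, hh2, G5, e0]
      have e4 : 0.69 * (m : ℝ) ^ (0.995 : ℝ) ≤ Real.log (3 ^ j 0 * V') := by
        rw [hlz]
        have : 0 ≤ (j 0 : ℝ) * Real.log 3 := by positivity
        linarith
      have hlz0 : 0 ≤ Real.log (3 ^ j 0 * V') := by linarith
      have hz : 0 < 3 ^ j 0 * V' := by positivity
      have hZ : Z0 ≤ 3 ^ j 0 * V' := by
        rw [Real.rpow_zero, mul_one] at G8
        rw [← Real.log_le_log_iff (by linarith) hz]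
        rcases le_or_gt (Real.log Z0) 0 with h5 | h5
        · linarith
        · linarith
      have hKlow : A3 * √ (Real.log (3 ^ j 0 * V')) ≤ K := by
        have h5 : √ (Real.log (3 ^ j 0 * V')) ≤ 2 * (m : ℝ) ^ (0.4975 : ℝ) := by
          rw [Real.sqrt_le_left (by positivity), mul_pow, ← Real.rpow_natCast ((m : ℝ) ^ (0.4975 : ℝ)) 2,
            ← Real.rpow_mul hm00.le]
          norm_num at e3 ⊢
          linarith only [e3]
        calc A3 * √ (Real.log (3 ^ j 0 * V')) ≤ A3 * (2 * (m : ℝ) ^ (0.4975 : ℝ)) := mul_le_mul_of_nonneg_left h5 hA3.le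
          _ = (A3 * 2) * (m : ℝ) ^ (0.4975 : ℝ) := by ring
          _ ≤ (m : ℝ) ^ (0.4999 : ℝ) := G6
          _ ≤ K := hK1
      have h6 := hen (3 ^ j 0 * V') hZ K hKlow (by linarith)
      have hKr : (0 : ℝ) < K := by exact_mod_cast hKn
      have b1 : ∀ x : ℕ, Bd 1 (fun y : ℝ => F 0 ⌊3 ^ x * y⌋) := fun x =>
        Bd.flc (F := F 0) (hfb 0) (g := fun y : ℝ => (3 : ℝ) ^ x * y) (by fun_prop)
      have b2 : Bd (|1 / (K : ℝ)| * ∑ x ∈ range K, (1 : ℝ)) (fun y : ℝ => (∑ x ∈ range K, F 0 ⌊3 ^ x * y⌋) / K) := by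
        have e5 : (fun y : ℝ => (∑ x ∈ range K, F 0 ⌊3 ^ x * y⌋) / K) = fun y => (1 / (K : ℝ)) * ∑ x ∈ range K, F 0 ⌊3 ^ x * y⌋ := by
          funext y; ring
        rw [e5]
        exact (Bd.sum fun x _ => b1 x).cmul _
      refine (av_abs_le_sqrt hz b2).trans ?_
      calc _ ≤ √ ((ε / 4) ^ 2) := Real.sqrt_le_sqrt h6
        _ = ε / 4 := Real.sqrt_sq (by positivity))
  -- the value at the top
  have hhm : h ≤ m := by
    have : (h : ℝ) ≤ m := by linarith only [hh2, G11, Real.rpow_nonneg hm00.le (0.995 : ℝ)]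
    exact_mod_cast this
  have hb := hcore m hhm le_rfl W hmV1 hmV2 k hk0
  have e0 : ∑ a, (((k a : ℝ) - k 0) - ((k a : ℝ) - k 0)) ^ 2 = 0 := by simp
  rw [e0, mul_zero] at hb
  have t1 : 528 * (n + 1) * (m : ℝ) / G ^ 2 ≤ ε / 4 := by
    rw [hG, mul_pow, Real.sq_sqrt hm00.le, div_le_iff₀ (by positivity)]
    have h3 : 528 * ((n : ℝ) + 1) ≤ ε / 4 * (A / 2) ^ 2 := by
      have : ε / 4 * (8464 * ((n + 1) / ε) / 4) ≤ ε / 4 * (A ^ 2 / 4) :=
        mul_le_mul_of_nonneg_left (by linarith) (by positivity)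
      have e5 : ε / 4 * (8464 * (((n : ℝ) + 1) / ε) / 4) = 529 * (n + 1) := by field_simp; norm_num
      have e6 : (0 : ℝ) ≤ n := Nat.cast_nonneg _
      nlinarith
    calc 528 * (n + 1) * (m : ℝ) ≤ (ε / 4 * (A / 2) ^ 2) * m := mul_le_mul_of_nonneg_right h3 hm00.le
      _ = ε / 4 * ((A / 2) ^ 2 * m) := by ring
  have t2 : 12 * D / (L : ℝ) ^ 2 * (Real.log m - Real.log h) ≤ ε / 4 := by
    have h1 : Real.log m ≤ 2 * L := by
      have h2 : (m : ℝ) ≤ 2 ^ (L + 1) := by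
        exact_mod_cast (Nat.lt_pow_succ_log_self (by norm_num) m).le
      have h3 := Real.log_le_log hm00 h2
      rw [Real.log_pow] at h3
      push_cast at h3
      have h4 : (2 : ℝ) ≤ L := by exact_mod_cast hL2
      nlinarith
    have h2 : 0 ≤ Real.log h := Real.log_nonneg (by exact_mod_cast hh0)
    have h3 : 96 * D / ε ≤ L := (le_max_right _ _).trans G3
    rw [div_le_iff₀ hε] at h3
    calc 12 * D / (L : ℝ) ^ 2 * (Real.log m - Real.log h) ≤ 12 * D / (L : ℝ) ^ 2 * (2 * L) :=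
          mul_le_mul_of_nonneg_left (by linarith) (by positivity)
      _ = 24 * D / L := by field_simp; ring
      _ ≤ ε / 4 := by
        rw [div_le_iff₀ hLr]; linarith
  -- smoothing at the top
  have t3 : |cn F W (fun a => k a) - blN F K W (fun a => k a)| ≤ ε / 6 := by
    apply smooth_top hfb hKn hW0 k
    intro x hx
    have h2 := hci (F 0) (hF 0) m hmn (3 ^ k 0 * W) (le_trans hmV1 (le_mul_of_one_le_left hW0.le (one_le_pow₀ (by norm_num)))) x 0 0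
      (by simp)
    refine h2.trans ?_
    have hρ := rho_nonneg m
    have h5 : 1 + (x : ℝ) ^ 2 + ((0 : ℕ) : ℝ) ≤ 5 * (m : ℝ) ^ (0.9998 : ℝ) := by
      have h6 : (x : ℝ) ≤ K := by exact_mod_cast hx.le
      have h7 : (x : ℝ) ^ 2 ≤ (2 * (m : ℝ) ^ (0.4999 : ℝ)) ^ 2 :=
        pow_le_pow_left₀ (Nat.cast_nonneg _) (h6.trans hK2) 2
      have h8 : (2 * (m : ℝ) ^ (0.4999 : ℝ)) ^ 2 = 4 * (m : ℝ) ^ (0.9998 : ℝ) := by
        rw [mul_pow, ← Real.rpow_natCast ((m : ℝ) ^ (0.4999 : ℝ)) 2, ← Real.rpow_mul hm00.le]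
        norm_num
      have h9 : (1 : ℝ) ≤ (m : ℝ) ^ (0.9998 : ℝ) := Real.one_le_rpow hm (by norm_num)
      rw [h8] at h7
      push_cast
      linarith
    have h6 : (C * √ (1 + (x : ℝ) ^ 2 + ((0 : ℕ) : ℝ)) * rho m) ^ 2 ≤ (ε / 6) ^ 2 := by
      rw [mul_pow, mul_pow, Real.sq_sqrt (by positivity), rho_sq hmn]
      have h7 : (m : ℝ) ^ (0.0002 : ℝ) * (m : ℝ) ^ (0.9998 : ℝ) = m := by
        rw [← Real.rpow_add hm00]; norm_num
      have hlog0 : 0 ≤ Real.log ((m : ℝ) + 1) := Real.log_nonneg (by linarith only [hm])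
      calc C ^ 2 * (1 + (x : ℝ) ^ 2 + ((0 : ℕ) : ℝ)) * (Real.log (m + 1) / m)
          ≤ C ^ 2 * (5 * (m : ℝ) ^ (0.9998 : ℝ)) * (Real.log (m + 1) / m) := by
            apply mul_le_mul_of_nonneg_right _ (by positivity)
            exact mul_le_mul_of_nonneg_left h5 (by positivity)
        _ = (5 * C ^ 2 * (36 / ε ^ 2) * Real.log (m + 1)) * (m : ℝ) ^ (0.9998 : ℝ) * (ε ^ 2 / 36) / m := by
            field_simp
        _ ≤ (m : ℝ) ^ (0.0002 : ℝ) * (m : ℝ) ^ (0.9998 : ℝ) * (ε ^ 2 / 36) / m := by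
            apply div_le_div_of_nonneg_right _ hm00.le
            apply mul_le_mul_of_nonneg_right _ (by positivity)
            exact mul_le_mul_of_nonneg_right G9 (by positivity)
        _ = (ε / 6) ^ 2 := by rw [h7]; field_simp; norm_num
    exact le_of_sq_le_sq h6 (by positivity)
  have h9 := abs_sub_abs_le_abs_sub (cn F W (fun a => k a)) (blN F K W (fun a => k a))
  linarith

/-- `S_CORN` -/
theorem corn_of_cornl {d : ℤ} (h : S_CORNL d) : S_CORN d := by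
  intro n F hF hmz ε hε
  obtain ⟨A, V0, hA, hV0, h1⟩ := h n F hF hmz ε hε
  refine ⟨A, max V0 (Real.exp 1), hA, le_max_of_le_left hV0, fun V hV i hi1 hi2 => h1 V ((le_max_left _ _).trans hV) i ?_ hi2⟩
  intro a
  have h2 : Real.exp 1 ≤ V := (le_max_right _ _).trans hV
  have h3 : 1 ≤ Real.log V := by
    have := Real.log_le_log (Real.exp_pos 1) h2
    rwa [Real.log_exp] at this
  exact (hi1 a).trans (Real.rpow_le_rpow_of_exponent_le h3 (by norm_num))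

end Pool.Agent.KS6_24.ST
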