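import Mathlib

/-! Averages over a field of signs on a finite set of positions. -/

set_option autoImplicit false

namespace Pool.Agent.KS6_24.ST

open Finset

/-- the field of signs with `+` exactly on `A` -/
def sgn (A : Finset ℤ) (x : ℤ) : ℤ := if x ∈ A then 1 else -1

/-- mean over the fields of signs on `P` -/
noncomputable def EP (P : Finset ℤ) (f : (ℤ → ℤ) → ℝ) : ℝ := (∑ A ∈ P.powerset, f (sgn A)) / 2 ^ #P

theorem EP_empty (f : (ℤ → ℤ) → ℝ) : EP ∅ f = f (sgn ∅) := by
  unfold EP; simp

theorem EP_insert {P : Finset ℤ} {x : ℤ} (hx : x ∉ P) (f : (ℤ → ℤ) → ℝ) :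
    EP (insert x P) f = (EP P (fun σ => f (Function.update σ x 1)) + EP P (fun σ => f (Function.update σ x (-1)))) / 2 := by
  unfold EP
  rw [sum_powerset_insert hx, card_insert_of_notMem hx, pow_succ]
  have e1 : ∀ A ∈ P.powerset, f (sgn A) = f (Function.update (sgn A) x (-1)) := by
    intro A hA
    rw [mem_powerset] at hA
    congr 1
    funext y
    by_cases hy : y = x
    · subst hy
      rw [Function.update_self]
      unfold sgn
      rw [if_neg fun h => hx (hA h)]
    · rw [Function.update_of_ne hy]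
  have e2 : ∀ A ∈ P.powerset, f (sgn (insert x A)) = f (Function.update (sgn A) x 1) := by
    intro A _
    congr 1
    funext y
    by_cases hy : y = x
    · subst hy
      rw [Function.update_self]
      unfold sgn
      rw [if_pos (mem_insert_self _ _)]
    · rw [Function.update_of_ne hy]
      unfold sgn
      simp only [mem_insert, hy, false_or]
  rw [sum_congr rfl e1, sum_congr rfl e2]
  field_simp
  ring

theorem EP_add (P : Finset ℤ) (f g : (ℤ → ℤ) → ℝ) : EP P (fun σ => f σ + g σ) = EP P f + EP P g := by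
  unfold EP; rw [sum_add_distrib, add_div]

theorem EP_sub (P : Finset ℤ) (f g : (ℤ → ℤ) → ℝ) : EP P (fun σ => f σ - g σ) = EP P f - EP P g := by
  unfold EP; rw [sum_sub_distrib, sub_div]

theorem EP_mul (P : Finset ℤ) (c : ℝ) (f : (ℤ → ℤ) → ℝ) : EP P (fun σ => c * f σ) = c * EP P f := by
  unfold EP; rw [← mul_sum, mul_div_assoc]

theorem EP_const (P : Finset ℤ) (c : ℝ) : EP P (fun _ => c) = c := by
  unfold EP
  rw [sum_const, card_powerset, nsmul_eq_mul]
  push_cast
  field_simp

theorem EP_sum {ι : Type*} (P : Finset ℤ) (s : Finset ι) (f : ι → (ℤ → ℤ) → ℝ) :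
    EP P (fun σ => ∑ a ∈ s, f a σ) = ∑ a ∈ s, EP P (f a) := by
  unfold EP; rw [sum_comm, sum_div]

/-- monotonicity, on the fields with values `±1` -/
theorem EP_mono {P : Finset ℤ} {f g : (ℤ → ℤ) → ℝ} (h : ∀ σ : ℤ → ℤ, (∀ x, σ x = 1 ∨ σ x = -1) → f σ ≤ g σ) :
    EP P f ≤ EP P g := by
  unfold EP
  apply div_le_div_of_nonneg_right _ (by positivity)
  apply sum_le_sum
  intro A _
  apply h
  intro x
  unfold sgn
  split_ifs <;> simp

theorem EP_congr {P : Finset ℤ} {f g : (ℤ → ℤ) → ℝ} (h : ∀ σ : ℤ → ℤ, (∀ x, σ x = 1 ∨ σ x = -1) → f σ = g σ) :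
    EP P f = EP P g := le_antisymm (EP_mono fun σ hσ => (h σ hσ).le) (EP_mono fun σ hσ => (h σ hσ).ge)

theorem EP_abs {P : Finset ℤ} (f : (ℤ → ℤ) → ℝ) : |EP P f| ≤ EP P (fun σ => |f σ|) := by
  unfold EP
  rw [abs_div, abs_of_pos (show (0 : ℝ) < 2 ^ #P by positivity)]
  exact div_le_div_of_nonneg_right (abs_sum_le_sum_abs _ _) (by positivity)

/-- only the positions on which `f` depends matter -/
theorem EP_eq {Q P : Finset ℤ} (hQP : Q ⊆ P) {f : (ℤ → ℤ) → ℝ}
    (hf : ∀ σ σ' : ℤ → ℤ, (∀ x ∈ Q, σ x = σ' x) → f σ = f σ') : EP P f = EP Q f := by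
  have main : ∀ R : Finset ℤ, Disjoint Q R → EP (Q ∪ R) f = EP Q f := by
    intro R
    induction R using Finset.induction_on with
    | empty => intro _; rw [union_empty]
    | insert x R hx ih =>
      intro hd
      rw [disjoint_insert_right] at hd
      have hx2 : x ∉ Q ∪ R := by
        rw [mem_union]; tauto
      rw [union_insert, EP_insert hx2]
      have e : ∀ c : ℤ, EP (Q ∪ R) (fun σ => f (Function.update σ x c)) = EP (Q ∪ R) f := by
        intro c
        apply EP_congr
        intro σ _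
        apply hf
        intro y hy
        rw [Function.update_of_ne]
        intro h
        exact hd.1 (h ▸ hy)
      rw [e, e, ih hd.2]
      ring
  have h := main (P \ Q) disjoint_sdiff
  rwa [union_sdiff_of_subset hQP] at h

/-- one position -/
theorem EP_one {P : Finset ℤ} {x : ℤ} (hx : x ∈ P) (f : ℤ → ℝ) : EP P (fun σ => f (σ x)) = (f 1 + f (-1)) / 2 := by
  rw [EP_eq (Q := {x}) (by simpa using hx) (fun σ σ' h => by rw [h x (mem_singleton_self x)])]
  rw [show ({x} : Finset ℤ) = insert x ∅ from rfl, EP_insert (by simp)]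
  simp only [Function.update_self, EP_empty]

/-- two positions -/
theorem EP_two {P : Finset ℤ} {x y : ℤ} (hx : x ∈ P) (hy : y ∈ P) (hxy : x ≠ y) (f : ℤ → ℤ → ℝ) :
    EP P (fun σ => f (σ x) (σ y)) = (f 1 1 + f 1 (-1) + f (-1) 1 + f (-1) (-1)) / 4 := by
  rw [EP_eq (Q := {x, y}) (by
    intro z hz
    rw [mem_insert, mem_singleton] at hz
    rcases hz with rfl | rfl <;> assumption) (fun σ σ' h => by
      rw [h x (mem_insert_self _ _), h y (mem_insert_of_mem (mem_singleton_self y))])]
  rw [EP_insert (by simpa using hxy), show ({y} : Finset ℤ) = insert y ∅ from rfl, EP_insert (by simp), EP_insert (by simp)]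
  simp only [Function.update_self, Function.update_of_ne hxy.symm, EP_empty]
  ring

end Pool.Agent.KS6_24.ST
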