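import Mathlib
import Pool.Agent.KS6_24.ST.Defs

/-! J4b: the oscillating factors of `y` and `y / 3 ^ i` (helper6). -/

set_option autoImplicit false

namespace Pool.Agent.KS6_24.ST

open Pool.Agent.H499R2.CO Pool.Agent.Y965.SI Finset Pool.Agent.KS6_24.LN Pool.Agent.KS6_24.LN.TW

namespace Eta

/-- block sums of products of signs -/
noncomputable def Bk (d : ℤ) (t Λ : ℕ) (x y : ℤ) : ℝ :=
  ∑ q ∈ range (t / Λ), |∑ j ∈ range Λ, sg ((Tz d)^[q * Λ + j] x) * sg ((Tz d)^[q * Λ + j] y)|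

theorem Bk_nonneg (d : ℤ) (t Λ : ℕ) (x y : ℤ) : 0 ≤ Bk d t Λ x y := sum_nonneg fun _ _ => abs_nonneg _

theorem Bk_comm (d : ℤ) (t Λ : ℕ) (x y : ℤ) : Bk d t Λ x y = Bk d t Λ y x := by
  unfold Bk
  apply sum_congr rfl; intro q _
  congr 1
  apply sum_congr rfl; intro j _
  ring

theorem Bk_per {d : ℤ} (hd : d % 2 = 1) (t Λ : ℕ) (x y m n : ℤ) :
    Bk d t Λ (x + m * 2 ^ t) (y + n * 2 ^ t) = Bk d t Λ x y := by
  unfold Bk
  apply sum_congr rfl; intro q hq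
  rw [mem_range] at hq
  congr 1
  apply sum_congr rfl; intro j hj
  rw [mem_range] at hj
  have hlt : q * Λ + j < t := by
    have h1 : (q + 1) * Λ ≤ t := (Nat.mul_le_mul_right Λ hq).trans (Nat.div_mul_le_self t Λ)
    rw [Nat.succ_mul] at h1
    omega
  rw [sg_per hd hlt, sg_per hd hlt]

theorem sum_blocks (M N : ℕ) (F : ℕ → ℝ) :
    ∑ u ∈ range (M * N), F u = ∑ v ∈ range M, ∑ r ∈ range N, F (v * N + r) := by
  induction M with
  | zero => simp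
  | succ M ih => rw [Nat.succ_mul, sum_range_add, ih, sum_range_succ]

theorem fib_sum {G : ℤ → ℝ} (h0 : ∀ x, 0 ≤ G x) {N : ℕ} (hN : 1 ≤ N) (l : ℕ) (X : ℤ) :
    ∑ w ∈ range (l * N), G ((X + (w : ℕ)) / (N : ℤ)) ≤ N * ∑ h ∈ range (l + 1), G (X / (N : ℤ) + (h : ℕ)) := by
  have hNz : (N : ℤ) ≠ 0 := by omega
  obtain ⟨ρ, hρ⟩ : ∃ ρ : ℕ, (ρ : ℤ) = X % N := ⟨(X % N).toNat, Int.toNat_of_nonneg (Int.emod_nonneg _ hNz)⟩
  have hρN : ρ < N := by
    have := Int.emod_lt_of_pos X (show (0 : ℤ) < N by omega)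
    omega
  have hX : X = ρ + N * (X / N) := by rw [hρ]; exact (Int.emod_add_mul_ediv X N).symm
  set X0 := X / (N : ℤ) with hX0
  set f : ℕ → ℝ := fun u => G (X0 + ((u / N : ℕ) : ℤ)) with hf
  have hf0 : ∀ u, 0 ≤ f u := fun u => h0 _
  have h1 : ∀ w : ℕ, G ((X + (w : ℕ)) / (N : ℤ)) = f (ρ + w) := by
    intro w
    simp only [hf]
    congr 1
    rw [show X + (w : ℕ) = ((ρ + w : ℕ) : ℤ) + N * X0 by rw [hX]; push_cast; ring]
    rw [Int.add_mul_ediv_left _ _ hNz]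
    push_cast; ring
  calc ∑ w ∈ range (l * N), G ((X + (w : ℕ)) / (N : ℤ)) = ∑ w ∈ range (l * N), f (ρ + w) :=
        sum_congr rfl fun w _ => h1 w
    _ ≤ ∑ u ∈ range (ρ + l * N), f u := by
        rw [sum_range_add]
        have := sum_nonneg fun u (_ : u ∈ range ρ) => hf0 u
        linarith
    _ ≤ ∑ u ∈ range ((l + 1) * N), f u := by
        apply sum_le_sum_of_subset_of_nonneg
        · intro u hu
          rw [mem_range] at hu ⊢
          rw [Nat.succ_mul]; omega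
        · intro u _ _; exact hf0 u
    _ = ∑ h ∈ range (l + 1), ∑ r ∈ range N, f (h * N + r) := sum_blocks _ _ _
    _ = N * ∑ h ∈ range (l + 1), G (X0 + (h : ℕ)) := by
        rw [mul_sum]
        apply sum_congr rfl; intro h _
        have : ∀ r ∈ range N, f (h * N + r) = G (X0 + (h : ℕ)) := by
          intro r hr
          rw [mem_range] at hr
          simp only [hf]
          have e : (h * N + r) / N = h := by
            rw [mul_comm, Nat.mul_add_div (by omega), Nat.div_eq_of_lt hr, add_zero]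
          rw [e]
        rw [sum_congr rfl this, sum_const, card_range, nsmul_eq_mul]

theorem per_sum {P : ℕ} {F : ℤ → ℝ} (hF : ∀ x, F (x + P) = F x) (U : ℤ) :
    ∑ h ∈ range P, F (U + (h : ℕ)) = ∑ h ∈ range P, F (h : ℕ) := by
  have step : ∀ U : ℤ, ∑ h ∈ range P, F (U + 1 + (h : ℕ)) = ∑ h ∈ range P, F (U + (h : ℕ)) := by
    intro U
    have h1 := sum_range_succ (fun h : ℕ => F (U + (h : ℕ))) P
    have h2 := sum_range_succ' (fun h : ℕ => F (U + (h : ℕ))) P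
    have h3 : ∑ h ∈ range P, F (U + ((h + 1 : ℕ) : ℤ)) = ∑ h ∈ range P, F (U + 1 + (h : ℕ)) := by
      apply sum_congr rfl; intro h _; congr 1; push_cast; ring
    rw [h1, h3] at h2
    have h4 := hF U
    simp only [Nat.cast_zero, add_zero] at h2
    linarith
  induction U using Int.induction_on with
  | zero => apply sum_congr rfl; intro h _; rw [zero_add]
  | succ n ih => rw [step, ih]
  | pred n ih =>
    have := step (-(n : ℤ) - 1)
    rw [show -(n : ℤ) - 1 + 1 = -n by ring] at this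
    rw [← this, ih]

theorem av_period {F : ℤ → ℝ} (h1 : ∀ x, |F x| ≤ 1) {P : ℕ} (hP : 1 ≤ P) (hF : ∀ x, F (x + P) = F x) {V : ℝ}
    (hV : 0 < V) (a : ℤ) :
    |av V (fun y => F ⌊y⌋) - (∑ h ∈ range P, F (a + (h : ℕ))) / P| ≤ 2 * P / V := by
  have h0 := av_avg_shift hV (Bd.fl h1) hP
  have e : (∑ w ∈ range P, av V (fun y => F ⌊y + (w : ℕ)⌋)) = ∑ h ∈ range P, F (a + (h : ℕ)) := by
    have b : ∀ w ∈ range P, Bd 1 (fun y : ℝ => F ⌊y + (w : ℕ)⌋) := fun w _ => Bd.flc h1 (by fun_prop)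
    rw [← av_sum V b]
    have : (fun y : ℝ => ∑ w ∈ range P, F ⌊y + (w : ℕ)⌋) = fun _ => ∑ h ∈ range P, F (a + (h : ℕ)) := by
      funext y
      have : ∀ w ∈ range P, F ⌊y + (w : ℕ)⌋ = F (⌊y⌋ + (w : ℕ)) := by intro w _; rw [Int.floor_add_natCast]
      rw [sum_congr rfl this, per_sum hF, per_sum hF]
    rw [this, av_const hV]
  rw [e, mul_one] at h0
  exact h0

/-! ### the factor -/

noncomputable def zt (d : ℤ) (t g c n : ℕ) : ℝ := g * (W g ((c : ℤ) - (n : ℕ)) - pc d t g c)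

theorem ph_zt (d : ℤ) (t g c : ℕ) (x : ℤ) : ph d t g c x = zt d t g c (od d t x) := rfl

theorem zt_abs {d : ℤ} {t g : ℕ} (hg : 1 ≤ g) (c n : ℕ) : |zt d t g c n| ≤ 1 := by
  unfold zt
  have hg' : (0 : ℝ) < g := by exact_mod_cast hg
  have h1 := W_nonneg g ((c : ℤ) - (n : ℕ))
  have h2 := W_le hg ((c : ℤ) - (n : ℕ))
  have h3 := pc_nonneg (d := d) (t := t) (g := g) c
  have h4 := pc_le (d := d) (t := t) hg c
  rw [abs_mul, abs_of_pos hg']
  have h5 : |W g ((c : ℤ) - (n : ℕ)) - pc d t g c| ≤ 1 / g := by rw [abs_le]; constructor <;> linarith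
  calc (g : ℝ) * |W g ((c : ℤ) - (n : ℕ)) - pc d t g c| ≤ g * (1 / g) := mul_le_mul_of_nonneg_left h5 hg'.le
    _ = 1 := by field_simp

theorem zt_d1 {d : ℤ} {t g : ℕ} (hg : 1 ≤ g) (c n : ℕ) : |zt d t g c (n + 1) - zt d t g c n| ≤ 1 / g := by
  have hg' : (0 : ℝ) < g := by exact_mod_cast hg
  have h1 := W_diff hg ((c : ℤ) - (n : ℕ) - 1)
  rw [show (c : ℤ) - (n : ℕ) - 1 + 1 = c - (n : ℕ) by ring] at h1
  have e : zt d t g c (n + 1) - zt d t g c n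
      = g * (-(W g ((c : ℤ) - (n : ℕ)) - W g ((c : ℤ) - (n : ℕ) - 1))) := by
    unfold zt
    rw [show (c : ℤ) - ((n + 1 : ℕ) : ℕ) = c - (n : ℕ) - 1 by push_cast; ring]
    ring
  rw [e, abs_mul, abs_of_pos hg', abs_neg]
  calc (g : ℝ) * |W g ((c : ℤ) - (n : ℕ)) - W g ((c : ℤ) - (n : ℕ) - 1)| ≤ g * (1 / g ^ 2) :=
        mul_le_mul_of_nonneg_left h1 hg'.le
    _ = 1 / g := by field_simp

theorem zt_d2 {d : ℤ} {t g : ℕ} (hg : 1 ≤ g) (c n : ℕ) :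
    |zt d t g c (n + 2) - 2 * zt d t g c (n + 1) + zt d t g c n| ≤ 2 / (g : ℝ) ^ 2 := by
  have hg' : (0 : ℝ) < g := by exact_mod_cast hg
  have h1 := W_diff2 hg ((c : ℤ) - (n : ℕ) - 2)
  rw [show (c : ℤ) - (n : ℕ) - 2 + 2 = c - (n : ℕ) by ring,
    show (c : ℤ) - (n : ℕ) - 2 + 1 = c - (n : ℕ) - 1 by ring] at h1
  have e : zt d t g c (n + 2) - 2 * zt d t g c (n + 1) + zt d t g c n
      = g * (W g ((c : ℤ) - (n : ℕ)) - 2 * W g ((c : ℤ) - (n : ℕ) - 1) + W g ((c : ℤ) - (n : ℕ) - 2)) := by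
    unfold zt
    rw [show (c : ℤ) - ((n + 1 : ℕ) : ℕ) = c - (n : ℕ) - 1 by push_cast; ring,
      show (c : ℤ) - ((n + 2 : ℕ) : ℕ) = c - (n : ℕ) - 2 by push_cast; ring]
    ring
  rw [e, abs_mul, abs_of_pos hg']
  calc (g : ℝ) * |W g ((c : ℤ) - (n : ℕ)) - 2 * W g ((c : ℤ) - (n : ℕ) - 1) + W g ((c : ℤ) - (n : ℕ) - 2)|
        ≤ g * (2 / g ^ 3) := mul_le_mul_of_nonneg_left h1 hg'.le
    _ = 2 / (g : ℝ) ^ 2 := by field_simp

theorem zt_mean (d : ℤ) (t g c : ℕ) : pm t (fun v => zt d t g c (od d t v)) = 0 := by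
  unfold zt
  have e : pm t (fun v => (g : ℝ) * (W g ((c : ℤ) - (od d t v : ℕ)) - pc d t g c))
      = g * (pm t (psi d t g c) - pc d t g c) := by
    rw [pm_mul, pm_sub, pm_const]; rfl
  rw [e]; unfold pc; ring

/-- body of `S_4W` -/
def H4 (d : ℤ) (C : ℝ) : Prop := ∀ t Λ : ℕ, 1 ≤ Λ → Λ ≤ t → ∀ (φ : Fin 4 → ℕ → ℝ) (δ₁ δ₂ : ℝ),
  δ₁ ≤ 1 → (∀ a n, |φ a n| ≤ 1) → (∀ a n, |φ a (n + 1) - φ a n| ≤ δ₁) →
  (∀ a n, |φ a (n + 2) - 2 * φ a (n + 1) + φ a n| ≤ δ₂) → ∀ A B : Fin 4 → ℤ, (∀ a, A a % 2 = 1) →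
  |pm t (fun v => ∏ a, φ a (od d t (A a * v + B a))) - ∏ a, pm t (fun v => φ a (od d t v))|
    ≤ δ₁ ^ 2 * (∑ a, ∑ b, if a < b then ∑ q ∈ range (t / Λ), pm t (fun v => |∑ j ∈ range Λ,
        sg ((Tz d)^[q * Λ + j] (A a * v + B a)) * sg ((Tz d)^[q * Λ + j] (A b * v + B b))|) else 0)
      + C * (t * Λ * (δ₁ * δ₂ + δ₁ ^ 3) + Λ * δ₁ ^ 2)

theorem core4 {d : ℤ} {C4 : ℝ} (h4 : H4 d C4) {t Λ g : ℕ} (hΛ1 : 1 ≤ Λ) (hΛt : Λ ≤ t) (hg : 1 ≤ g)
    (c c' : ℕ) {N : ℤ} (hN : N % 2 = 1) (r s h' : ℤ) :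
    |pm t (fun v => ph d t g c (N * v + r) * ph d t g c (N * v + s) * (ph d t g c' v * ph d t g c' (v + h')))|
      ≤ 1 / (g : ℝ) ^ 2 * (pm t (fun v => Bk d t Λ (N * v + r) (N * v + s)) + pm t (fun v => Bk d t Λ (N * v + r) v)
        + pm t (fun v => Bk d t Λ (N * v + r) (v + h')) + pm t (fun v => Bk d t Λ (N * v + s) v)
        + pm t (fun v => Bk d t Λ (N * v + s) (v + h')) + pm t (fun v => Bk d t Λ v (v + h')))
        + C4 * (3 * (t * Λ / (g : ℝ) ^ 3) + Λ / (g : ℝ) ^ 2) := by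
  have hg' : (0 : ℝ) < g := by exact_mod_cast hg
  have h := h4 t Λ hΛ1 hΛt ![zt d t g c, zt d t g c, zt d t g c', zt d t g c'] (1 / g) (2 / (g : ℝ) ^ 2)
    (by rw [div_le_one hg']; exact_mod_cast hg)
    (by intro a n; fin_cases a <;> exact zt_abs hg _ _)
    (by intro a n; fin_cases a <;> exact zt_d1 hg _ _)
    (by intro a n; fin_cases a <;> exact zt_d2 hg _ _)
    ![N, N, 1, 1] ![r, s, 0, h']
    (by intro a; fin_cases a <;> simp [hN])
  simp only [Fin.prod_univ_four, Fin.sum_univ_four] at h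
  simp [Fin.lt_def] at h
  simp only [zt_mean, mul_zero, sub_zero] at h
  have pmBk : ∀ x y : ℤ → ℤ, pm t (fun v => Bk d t Λ (x v) (y v)) = ∑ q ∈ range (t / Λ), pm t (fun v =>
      |∑ j ∈ range Λ, sg ((Tz d)^[q * Λ + j] (x v)) * sg ((Tz d)^[q * Λ + j] (y v))|) := fun x y => pm_sum _ _ _
  rw [pmBk, pmBk, pmBk, pmBk, pmBk, pmBk]
  have e1 : pm t (fun v => ph d t g c (N * v + r) * ph d t g c (N * v + s) * (ph d t g c' v * ph d t g c' (v + h')))
      = pm t (fun v => zt d t g c (od d t (N * v + r)) * zt d t g c (od d t (N * v + s)) * zt d t g c' (od d t v) *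
            zt d t g c' (od d t (v + h'))) := by
    apply pm_congr; intro v
    simp only [ph_zt]; ring
  rw [e1]
  refine h.trans (le_of_eq ?_)
  rw [one_div]
  have e2 : (t : ℝ) * Λ * ((g : ℝ)⁻¹ * (2 / (g : ℝ) ^ 2) + ((g : ℝ) ^ 3)⁻¹) = 3 * (t * Λ / (g : ℝ) ^ 3) := by
    field_simp; norm_num
  rw [e2, div_eq_mul_inv (Λ : ℝ) ((g : ℝ) ^ 2)]
  ring

end Eta

/-- **J4b.** -/
theorem eta (d : ℤ) (hd : d = 1 ∨ d = -1) (h4 : S_4W d) (hw : S_WS d) (hb : S_BAL d) : S_ETA d := by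
  have hd2 : d % 2 = 1 := by rcases hd with h | h <;> rw [h] <;> norm_num
  obtain ⟨C4, hC4, h4⟩ := h4
  obtain ⟨Cw, hCw, hw⟩ := hw
  intro C
  obtain ⟨DB, t0, hDB, ht0, hb⟩ := hb C
  refine ⟨6 * Cw + 2 * DB + 4 + 3 * C4, t0, by positivity, ht0, ?_⟩
  intro t k Λ g l i ht hk hΛ1 hΛk hkt hg hi hl V hV c c'
  have hg' : (0 : ℝ) < g := by exact_mod_cast hg
  have hΛt : Λ ≤ t := hΛk.trans hkt
  have hk' : Cw ≤ k := by linarith
  have hk0 : (0 : ℝ) < k := lt_of_lt_of_le hCw hk'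
  have hl0 : 0 < l := by
    rcases Nat.eq_zero_or_pos l with h0 | h0
    · exfalso
      rw [h0] at hl
      simp only [Nat.cast_zero, Real.log_zero] at hl
      have := mul_nonneg gm_nonneg (Nat.cast_nonneg (α := ℝ) t)
      linarith
    · exact h0
  have hl1 : (1 : ℝ) ≤ l := by exact_mod_cast hl0
  have hV0 : 0 < V := lt_of_lt_of_le (by positivity) hV
  set N : ℕ := 3 ^ i with hN
  have hN1 : 1 ≤ N := Nat.one_le_pow _ _ (by norm_num)
  have hN0 : (0 : ℝ) < N := by exact_mod_cast hN1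
  have hNodd : (N : ℤ) % 2 = 1 := by rw [hN]; push_cast; exact three_pow_odd i
  have hNz : (N : ℤ) ≠ 0 := by omega
  set S := √ (1 / Λ + (t + k : ℝ) ^ 3 / (k : ℝ) ^ 4) with hS
  have hS0 : 0 ≤ S := Real.sqrt_nonneg _
  set K1 : ℝ := t * (Cw * S) with hK1
  have hK10 : 0 ≤ K1 := by positivity
  set bal : ℝ := t * (DB * √ (Real.log t / Λ) + 1 / Real.log t ^ C + 2 * Real.exp (-(i : ℝ) ^ 2 / (2 * t))) with hbal
  -- balance
  have hbal1 : ∀ r : ℤ, pm t (fun v => Eta.Bk d t Λ v (N * v + r)) ≤ bal := by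
    intro r
    have h1 := hb t Λ i ht hΛ1 hΛt hi r
    refine le_trans (le_of_eq ?_) h1
    have : ((N : ℕ) : ℤ) = 3 ^ i := by rw [hN]; push_cast; rfl
    rw [this]
    exact pm_sum _ _ _
  -- windows
  have hwin : ∀ l' : ℕ, l ≤ l' → ∀ x X : ℤ, ∑ w ∈ range l', Eta.Bk d t Λ x (X + (w : ℕ)) ≤ l' * K1 := by
    intro l' hl' x X
    have hl'0 : (0 : ℝ) < l' := by exact_mod_cast lt_of_lt_of_le hl0 hl'
    have hlog : gm * t + 40 * k ≤ Real.log l' := by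
      refine hl.trans (Real.log_le_log (by positivity) ?_)
      exact_mod_cast hl'
    unfold Eta.Bk
    rw [sum_comm]
    have h1 : ∀ q ∈ range (t / Λ), ∑ w ∈ range l', |∑ j ∈ range Λ, sg ((Tz d)^[q * Λ + j] x) *
        sg ((Tz d)^[q * Λ + j] (X + (w : ℕ)))| ≤ l' * (Cw * (Λ * S)) := by
      intro q hq
      rw [mem_range] at hq
      have hqt : q * Λ ≤ t := by
        have h1 : q * Λ ≤ (t / Λ) * Λ := Nat.mul_le_mul_right Λ hq.le
        exact h1.trans (Nat.div_mul_le_self t Λ)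
      have h2 := hw t k Λ l' (q * Λ) hk' hΛ1 hΛk hqt hlog (fun j => sg ((Tz d)^[q * Λ + j] x))
        (fun j => sg_sq _) X
      rw [div_le_iff₀ hl'0] at h2
      linarith
    refine (sum_le_sum h1).trans ?_
    rw [sum_const, card_range, nsmul_eq_mul]
    have h3 : (((t / Λ : ℕ) : ℝ)) * Λ ≤ t := by exact_mod_cast Nat.div_mul_le_self t Λ
    have h4 : (((t / Λ : ℕ) : ℝ)) * (l' * (Cw * (Λ * S))) = ((((t / Λ : ℕ) : ℝ)) * Λ) * (l' * (Cw * S)) := by ring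
    rw [h4, hK1]
    have h5 := mul_le_mul_of_nonneg_right h3 (show 0 ≤ l' * (Cw * S) by positivity)
    refine h5.trans (le_of_eq (by ring))
  have hlN : l ≤ l * N := Nat.le_mul_of_pos_right l hN1
  set LN : ℝ := ((l * N : ℕ) : ℝ) with hLN
  have hLN0 : 0 < LN := by rw [hLN]; exact_mod_cast Nat.mul_pos hl0 hN1
  have hLN' : LN = l * N := by rw [hLN]; push_cast; ring
  have hwin1 : ∀ x X : ℤ, ∑ w ∈ range (l * N), Eta.Bk d t Λ x (X + (w : ℕ)) ≤ LN * K1 := hwin (l * N) hlN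
  have hwin2 : ∀ x X : ℤ, ∑ w ∈ range (l * N), Eta.Bk d t Λ x ((X + (w : ℕ)) / (N : ℤ)) ≤ 2 * (LN * K1) := by
    intro x X
    have h1 := Eta.fib_sum (G := fun z => Eta.Bk d t Λ x z) (fun z => Eta.Bk_nonneg _ _ _ _ _) hN1 l X
    refine h1.trans ?_
    have h2 := hwin (l + 1) (by omega) x (X / (N : ℤ))
    have h3 : ((l + 1 : ℕ) : ℝ) ≤ 2 * l := by push_cast; linarith
    have h4 : (N : ℝ) * ∑ h ∈ range (l + 1), Eta.Bk d t Λ x (X / (N : ℤ) + (h : ℕ)) ≤ N * (((l + 1 : ℕ) : ℝ) * K1) :=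
      mul_le_mul_of_nonneg_left h2 hN0.le
    have h5 : (N : ℝ) * (((l + 1 : ℕ) : ℝ) * K1) ≤ N * ((2 * l) * K1) := by
      apply mul_le_mul_of_nonneg_left _ hN0.le
      exact mul_le_mul_of_nonneg_right h3 hK10
    refine (h4.trans h5).trans (le_of_eq ?_)
    rw [hLN']; ring
  -- error of the Lindeberg replacement
  set E4 : ℝ := C4 * (3 * (t * Λ / (g : ℝ) ^ 3) + Λ / (g : ℝ) ^ 2) with hE4
  have hE40 : 0 ≤ E4 := by positivity
  -- one pair (w, w')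
  set F : ℕ → ℕ → ℤ → ℝ := fun w w' U => (ph d t g c (U + (w : ℕ)) * ph d t g c (U + (w' : ℕ))) *
          (ph d t g c' ((U + (w : ℕ)) / 3 ^ i) * ph d t g c' ((U + (w' : ℕ)) / 3 ^ i)) with hF
  have hF1 : ∀ w w' x, |F w w' x| ≤ 1 := by
    intro w w' x
    simp only [hF]
    rw [abs_mul, abs_mul, abs_mul]
    exact mul_le_one₀ (mul_le_one₀ (ph_abs hg _ _) (abs_nonneg _) (ph_abs hg _ _)) (by positivity)
      (mul_le_one₀ (ph_abs hg _ _) (abs_nonneg _) (ph_abs hg _ _))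
  set P : ℕ := 2 ^ t * N with hP
  have hP1 : 1 ≤ P := Nat.one_le_iff_ne_zero.2 (by positivity)
  have h3i : (3 : ℤ) ^ i = (N : ℤ) := by rw [hN]; push_cast; rfl
  have hFP : ∀ w w' x, F w w' (x + P) = F w w' x := by
    intro w w' x
    simp only [hF, h3i]
    have e1 : ∀ u : ℕ, x + (P : ℤ) + (u : ℕ) = (x + (u : ℕ)) + (N : ℤ) * 2 ^ t := by
      intro u; rw [hP]; push_cast; ring
    have e2 : ∀ u : ℕ, (x + (P : ℤ) + (u : ℕ)) / (N : ℤ) = (x + (u : ℕ)) / (N : ℤ) + 1 * 2 ^ t := by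
      intro u; rw [e1, Int.add_mul_ediv_left _ _ hNz, one_mul]
    rw [e2, e2, e1, e1, ph_per hd2, ph_per hd2, ph_per hd2, ph_per hd2]
  -- brackets
  set Br : ℕ → ℕ → ℕ → ℝ := fun r w w' =>
      pm t (fun v => Eta.Bk d t Λ (N * v + (r : ℕ)) (N * v + ((r : ℕ) - (w : ℕ) + (w' : ℕ))))
        + pm t (fun v => Eta.Bk d t Λ (N * v + (r : ℕ)) v)
        + pm t (fun v => Eta.Bk d t Λ (N * v + (r : ℕ)) (v + ((r : ℕ) - (w : ℕ) + (w' : ℕ)) / (N : ℤ)))
        + pm t (fun v => Eta.Bk d t Λ (N * v + ((r : ℕ) - (w : ℕ) + (w' : ℕ))) v)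
        + pm t (fun v => Eta.Bk d t Λ (N * v + ((r : ℕ) - (w : ℕ) + (w' : ℕ)))
            (v + ((r : ℕ) - (w : ℕ) + (w' : ℕ)) / (N : ℤ)))
        + pm t (fun v => Eta.Bk d t Λ v (v + ((r : ℕ) - (w : ℕ) + (w' : ℕ)) / (N : ℤ))) with hBr
  have hBrsum : ∀ r < N, ∀ w : ℕ, ∑ w' ∈ range (l * N), Br r w w' ≤ LN * (6 * K1 + 2 * bal) := by
    intro r hr w
    simp only [hBr, sum_add_distrib]
    have a1 : ∑ w' ∈ range (l * N), pm t (fun v => Eta.Bk d t Λ (N * v + (r : ℕ))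
        (N * v + ((r : ℕ) - (w : ℕ) + (w' : ℕ)))) ≤ LN * K1 := by
      rw [← pm_sum, ← pm_const t (LN * K1)]
      apply pm_mono; intro v
      have := hwin1 (N * v + (r : ℕ)) (N * v + ((r : ℕ) - (w : ℕ)))
      refine le_trans (le_of_eq ?_) this
      apply sum_congr rfl; intro w' _
      rw [show (N : ℤ) * v + ((r : ℕ) - (w : ℕ) + (w' : ℕ)) = N * v + ((r : ℕ) - (w : ℕ)) + (w' : ℕ) by ring]
    have a2 : ∑ w' ∈ range (l * N), pm t (fun v => Eta.Bk d t Λ (N * v + (r : ℕ)) v) ≤ LN * bal := by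
      rw [sum_const, card_range, nsmul_eq_mul]
      apply mul_le_mul_of_nonneg_left _ hLN0.le
      refine le_trans (le_of_eq ?_) (hbal1 r)
      apply pm_congr; intro v; exact Eta.Bk_comm _ _ _ _ _
    have hdiv : ∀ v : ℤ, ∀ w' : ℕ, v + ((r : ℕ) - (w : ℕ) + (w' : ℕ)) / (N : ℤ)
        = ((N * v + ((r : ℕ) - (w : ℕ))) + (w' : ℕ)) / (N : ℤ) := by
      intro v w'
      rw [show (N : ℤ) * v + ((r : ℕ) - (w : ℕ)) + (w' : ℕ) = ((r : ℕ) - (w : ℕ) + (w' : ℕ)) + N * v by ring,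
        Int.add_mul_ediv_left _ _ hNz]
      ring
    have a3 : ∑ w' ∈ range (l * N), pm t (fun v => Eta.Bk d t Λ (N * v + (r : ℕ))
        (v + ((r : ℕ) - (w : ℕ) + (w' : ℕ)) / (N : ℤ))) ≤ 2 * (LN * K1) := by
      rw [← pm_sum, ← pm_const t (2 * (LN * K1))]
      apply pm_mono; intro v
      simp only [hdiv]
      exact hwin2 _ _
    have a4 : ∑ w' ∈ range (l * N), pm t (fun v => Eta.Bk d t Λ (N * v + ((r : ℕ) - (w : ℕ) + (w' : ℕ))) v)
        ≤ LN * K1 := by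
      rw [← pm_sum, ← pm_const t (LN * K1)]
      apply pm_mono; intro v
      have := hwin1 v (N * v + ((r : ℕ) - (w : ℕ)))
      refine le_trans (le_of_eq ?_) this
      apply sum_congr rfl; intro w' _
      rw [Eta.Bk_comm, show (N : ℤ) * v + ((r : ℕ) - (w : ℕ) + (w' : ℕ)) = N * v + ((r : ℕ) - (w : ℕ)) + (w' : ℕ) by ring]
    have a5 : ∑ w' ∈ range (l * N), pm t (fun v => Eta.Bk d t Λ (N * v + ((r : ℕ) - (w : ℕ) + (w' : ℕ)))
            (v + ((r : ℕ) - (w : ℕ) + (w' : ℕ)) / (N : ℤ))) ≤ LN * bal := by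
      have : ∀ w' ∈ range (l * N), pm t (fun v => Eta.Bk d t Λ (N * v + ((r : ℕ) - (w : ℕ) + (w' : ℕ)))
            (v + ((r : ℕ) - (w : ℕ) + (w' : ℕ)) / (N : ℤ))) ≤ bal := by
        intro w' _
        set s : ℤ := (r : ℕ) - (w : ℕ) + (w' : ℕ) with hs
        set h := s / (N : ℤ) with hh
        have hGp : Per t (fun u => Eta.Bk d t Λ (N * u + (s - N * h)) u) := by
          intro u m
          simp only []
          rw [show (N : ℤ) * (u + m * 2 ^ t) + (s - N * h) = (N * u + (s - N * h)) + (N * m) * 2 ^ t by ring,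
            Eta.Bk_per hd2]
        have h1 := pm_shift hGp h
        have h2 : pm t (fun v => Eta.Bk d t Λ (N * v + s) (v + h))
            = pm t (fun u => Eta.Bk d t Λ (N * (u + h) + (s - N * h)) (u + h)) := by
          apply pm_congr; intro v
          rw [show (N : ℤ) * (v + h) + (s - N * h) = N * v + s by ring]
        rw [h2, h1]
        refine le_trans (le_of_eq ?_) (hbal1 (s - N * h))
        apply pm_congr; intro v; exact Eta.Bk_comm _ _ _ _ _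
      refine (sum_le_sum this).trans (le_of_eq ?_)
      rw [sum_const, card_range, nsmul_eq_mul]
    have a6 : ∑ w' ∈ range (l * N), pm t (fun v => Eta.Bk d t Λ v
        (v + ((r : ℕ) - (w : ℕ) + (w' : ℕ)) / (N : ℤ))) ≤ 2 * (LN * K1) := by
      rw [← pm_sum, ← pm_const t (2 * (LN * K1))]
      apply pm_mono; intro v
      simp only [hdiv]
      exact hwin2 _ _
    linarith
  -- one pair (w, w')
  have hpair : ∀ w w' : ℕ, |av (3 ^ i * V) (fun y => F w w' ⌊y⌋)|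
      ≤ (∑ r ∈ range N, (1 / (g : ℝ) ^ 2 * Br r w w' + E4)) / N + 2 * 2 ^ t / V := by
    intro w w'
    have hW0 : 0 < (3 : ℝ) ^ i * V := by positivity
    have h1 := Eta.av_period (hF1 w w') hP1 (hFP w w') hW0 (-(w : ℤ))
    have h2 : ∑ h ∈ range P, F w w' (-(w : ℤ) + (h : ℕ))
        = ∑ r ∈ range N, (2 ^ t : ℝ) * pm t (fun v => F w w' (-(w : ℤ) + (N * v + (r : ℕ)))) := by
      rw [hP, Eta.sum_blocks, sum_comm]
      apply sum_congr rfl; intro r _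
      unfold pm
      rw [mul_div_cancel₀ _ (by positivity)]
      apply sum_congr rfl; intro v _
      congr 2
      push_cast; ring
    have h3 : ∀ r ∈ range N, |pm t (fun v => F w w' (-(w : ℤ) + (N * v + (r : ℕ))))|
        ≤ 1 / (g : ℝ) ^ 2 * Br r w w' + E4 := by
      intro r hr
      rw [mem_range] at hr
      have h4' := Eta.core4 (d := d) h4 (t := t) hΛ1 hΛt hg c c' hNodd (r : ℕ) ((r : ℕ) - (w : ℕ) + (w' : ℕ))
        (((r : ℕ) - (w : ℕ) + (w' : ℕ)) / (N : ℤ))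
      refine le_trans (le_of_eq ?_) h4'
      congr 1
      apply pm_congr; intro v
      simp only [hF, h3i]
      have e1 : -(w : ℤ) + (N * v + (r : ℕ)) + (w : ℕ) = N * v + (r : ℕ) := by ring
      have e2 : -(w : ℤ) + (N * v + (r : ℕ)) + (w' : ℕ) = N * v + ((r : ℕ) - (w : ℕ) + (w' : ℕ)) := by ring
      have e3 : ((N : ℤ) * v + (r : ℕ)) / (N : ℤ) = v := by
        rw [add_comm, Int.add_mul_ediv_left _ _ hNz, Int.ediv_eq_zero_of_lt (by positivity) (by exact_mod_cast hr),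
          zero_add]
      have e4 : ((N : ℤ) * v + ((r : ℕ) - (w : ℕ) + (w' : ℕ))) / (N : ℤ)
          = v + ((r : ℕ) - (w : ℕ) + (w' : ℕ)) / (N : ℤ) := by
        rw [add_comm, Int.add_mul_ediv_left _ _ hNz, add_comm]
      rw [e1, e2, e3, e4]
    have hPR : (P : ℝ) = 2 ^ t * N := by rw [hP]; push_cast; ring
    have h5 : |(∑ h ∈ range P, F w w' (-(w : ℤ) + (h : ℕ))) / P|
        ≤ (∑ r ∈ range N, (1 / (g : ℝ) ^ 2 * Br r w w' + E4)) / N := by
      rw [h2, ← mul_sum, hPR, abs_div, abs_mul, abs_of_pos (show (0 : ℝ) < 2 ^ t by positivity),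
        abs_of_pos (show (0 : ℝ) < 2 ^ t * N by positivity), mul_div_mul_left _ _ (by positivity)]
      apply div_le_div_of_nonneg_right _ hN0.le
      exact (abs_sum_le_sum_abs _ _).trans (sum_le_sum h3)
    have h6 : 2 * (P : ℝ) / (3 ^ i * V) = 2 * 2 ^ t / V := by
      have : (3 : ℝ) ^ i = N := by rw [hN]; push_cast; rfl
      rw [hPR, this]; field_simp
    rw [h6] at h1
    have h7 := abs_le.1 h1
    have h8 := abs_le.1 h5
    rw [abs_le]
    constructor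
    · linarith [h7.1, h8.1]
    · linarith [h7.2, h8.2]
  -- sum over the pairs
  have hLN3 : ((l : ℝ) * 3 ^ i) = LN := by
    rw [hLN', hN]; push_cast; ring
  rw [hLN3, div_le_iff₀ (by positivity)]
  have hsum : (∑ w ∈ range (l * N), ∑ w' ∈ range (l * N), |av (3 ^ i * V) (fun y => F w w' ⌊y⌋)|)
      ≤ LN ^ 2 * (1 / (g : ℝ) ^ 2 * (6 * K1 + 2 * bal) + E4 + 2 * 2 ^ t / V) := by
    have h1 : ∀ w ∈ range (l * N), ∑ w' ∈ range (l * N), |av (3 ^ i * V) (fun y => F w w' ⌊y⌋)|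
        ≤ LN * (1 / (g : ℝ) ^ 2 * (6 * K1 + 2 * bal) + E4 + 2 * 2 ^ t / V) := by
      intro w _
      refine (sum_le_sum fun w' _ => hpair w w').trans ?_
      rw [sum_add_distrib, sum_const, card_range, nsmul_eq_mul, ← sum_div, sum_comm]
      have h2 : ∀ r ∈ range N, ∑ w' ∈ range (l * N), (1 / (g : ℝ) ^ 2 * Br r w w' + E4)
          ≤ LN * (1 / (g : ℝ) ^ 2 * (6 * K1 + 2 * bal) + E4) := by
        intro r hr
        rw [mem_range] at hr
        rw [sum_add_distrib, sum_const, card_range, nsmul_eq_mul, ← mul_sum]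
        have := mul_le_mul_of_nonneg_left (hBrsum r hr w) (show 0 ≤ 1 / (g : ℝ) ^ 2 by positivity)
        refine (add_le_add this le_rfl).trans (le_of_eq ?_)
        rw [← hLN]; ring
      have h3 := sum_le_sum h2
      rw [sum_const, card_range, nsmul_eq_mul] at h3
      have h4 : (∑ r ∈ range N, ∑ w' ∈ range (l * N), (1 / (g : ℝ) ^ 2 * Br r w w' + E4)) / N
          ≤ LN * (1 / (g : ℝ) ^ 2 * (6 * K1 + 2 * bal) + E4) := by
        rw [div_le_iff₀ hN0]; linarith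
      rw [← hLN]
      linarith
    refine (sum_le_sum h1).trans (le_of_eq ?_)
    rw [sum_const, card_range, nsmul_eq_mul, ← hLN]; ring
  have hfin : 1 / (g : ℝ) ^ 2 * (6 * K1 + 2 * bal) + E4 + 2 * 2 ^ t / V
      ≤ (6 * Cw + 2 * DB + 4 + 3 * C4) * (t / (g : ℝ) ^ 2 * (S + √ (Real.log t / Λ) + 1 / Real.log t ^ C
          + Real.exp (-(i : ℝ) ^ 2 / (2 * t))) + t * Λ / (g : ℝ) ^ 3 + Λ / (g : ℝ) ^ 2 + 2 ^ t / V) := by
    have q1 : 0 ≤ (t : ℝ) / (g : ℝ) ^ 2 := by positivity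
    have q2 : 0 ≤ √ (Real.log t / Λ) := Real.sqrt_nonneg _
    have q3 : 0 ≤ 1 / Real.log t ^ C := by
      have : 0 ≤ Real.log t := Real.log_natCast_nonneg t
      positivity
    have q4 : 0 ≤ Real.exp (-(i : ℝ) ^ 2 / (2 * t)) := (Real.exp_pos _).le
    have q5 : 0 ≤ (t : ℝ) * Λ / (g : ℝ) ^ 3 := by positivity
    have q6 : 0 ≤ (Λ : ℝ) / (g : ℝ) ^ 2 := by positivity
    have q7 : 0 ≤ 2 ^ t / V := by positivity
    set s2 := √ (Real.log t / Λ)
    set s3 := 1 / Real.log t ^ C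
    set s4 := Real.exp (-(i : ℝ) ^ 2 / (2 * t))
    set T := (t : ℝ) / (g : ℝ) ^ 2 with hT
    have e1 : 1 / (g : ℝ) ^ 2 * (6 * K1 + 2 * bal) = T * (6 * Cw * S + 2 * DB * s2 + 2 * s3 + 4 * s4) := by
      rw [hK1, hbal, hT]; ring
    have e2 : 2 * 2 ^ t / V = 2 * (2 ^ t / V) := by ring
    rw [e1, hE4, e2]
    have i1 : 6 * Cw * S + 2 * DB * s2 + 2 * s3 + 4 * s4
        ≤ (6 * Cw + 2 * DB + 4 + 3 * C4) * (S + s2 + s3 + s4) := by
      have : (6 * Cw + 2 * DB + 4 + 3 * C4) * (S + s2 + s3 + s4) - (6 * Cw * S + 2 * DB * s2 + 2 * s3 + 4 * s4)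
          = (2 * DB + 4 + 3 * C4) * S + (6 * Cw + 4 + 3 * C4) * s2 + (6 * Cw + 2 * DB + 2 + 3 * C4) * s3
            + (6 * Cw + 2 * DB + 3 * C4) * s4 := by ring
      have h2 : 0 ≤ (2 * DB + 4 + 3 * C4) * S + (6 * Cw + 4 + 3 * C4) * s2 + (6 * Cw + 2 * DB + 2 + 3 * C4) * s3
            + (6 * Cw + 2 * DB + 3 * C4) * s4 := by positivity
      linarith
    have i2 := mul_le_mul_of_nonneg_left i1 q1
    have i3 : C4 * (3 * (t * Λ / (g : ℝ) ^ 3) + Λ / (g : ℝ) ^ 2)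
        ≤ (6 * Cw + 2 * DB + 4 + 3 * C4) * (t * Λ / (g : ℝ) ^ 3 + Λ / (g : ℝ) ^ 2) := by
      have : (6 * Cw + 2 * DB + 4 + 3 * C4) * (t * Λ / (g : ℝ) ^ 3 + Λ / (g : ℝ) ^ 2)
          - C4 * (3 * (t * Λ / (g : ℝ) ^ 3) + Λ / (g : ℝ) ^ 2)
          = (6 * Cw + 2 * DB + 4) * (t * Λ / (g : ℝ) ^ 3) + (6 * Cw + 2 * DB + 4 + 2 * C4) * (Λ / (g : ℝ) ^ 2) := by
        ring
      have h2 : 0 ≤ (6 * Cw + 2 * DB + 4) * (t * Λ / (g : ℝ) ^ 3)
          + (6 * Cw + 2 * DB + 4 + 2 * C4) * (Λ / (g : ℝ) ^ 2) := by positivity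
      linarith
    have i4 : 2 * (2 ^ t / V) ≤ (6 * Cw + 2 * DB + 4 + 3 * C4) * (2 ^ t / V) := by
      apply mul_le_mul_of_nonneg_right _ q7; linarith
    linarith
  refine hsum.trans ?_
  rw [mul_comm (LN ^ 2)]
  exact mul_le_mul_of_nonneg_right hfin (by positivity)

end Pool.Agent.KS6_24.ST
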