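import Mathlib
import Pool.Agent.KS6_24.ST.Eta
import Pool.Agent.KS6_24.ST.MXDefs

/-! MX2: the averages over windows of the product of the weights, in mean square (helper7, after Eta.lean of helper6). -/

set_option autoImplicit false

namespace Pool.Agent.KS6_24.ST

open Pool.Agent.H499R2.CO Pool.Agent.Y965.SI Finset Pool.Agent.KS6_24.LN Pool.Agent.KS6_24.LN.TW

namespace EtaN

/-- `S_NW` for an arbitrary index type, with all ordered pairs -/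
theorem nw_ft {d : ℤ} (h : S_NW d) (n : ℕ) : ∃ C : ℝ, 0 < C ∧ ∀ (ι : Type) [Fintype ι] [DecidableEq ι],
    Fintype.card ι = n → ∀ t Λ : ℕ, 1 ≤ Λ → Λ ≤ t → ∀ (φ : ι → ℕ → ℝ) (δ₁ δ₂ : ℝ),
    0 ≤ δ₁ → δ₁ ≤ 1 → 0 ≤ δ₂ → (∀ a k, |φ a k| ≤ 1) → (∀ a k, |φ a (k + 1) - φ a k| ≤ δ₁) →
    (∀ a k, |φ a (k + 2) - 2 * φ a (k + 1) + φ a k| ≤ δ₂) → ∀ A B : ι → ℤ, (∀ a, A a % 2 = 1) →
    |pm t (fun v => ∏ a, φ a (od d t (A a * v + B a))) - ∏ a, pm t (fun v => φ a (od d t v))|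
      ≤ δ₁ ^ 2 * (∑ a, ∑ b, if a ≠ b then pm t (fun v => Eta.Bk d t Λ (A a * v + B a) (A b * v + B b)) else 0)
        + C * (t * Λ * (δ₁ * δ₂ + δ₁ ^ 3) + Λ * δ₁ ^ 2) := by
  obtain ⟨C, hC, h⟩ := h n
  refine ⟨C, hC, ?_⟩
  intro ι _ _ hcard t Λ hΛ1 hΛt φ δ₁ δ₂ h0 h1 h2 hφ hd1 hd2 A B hA
  obtain ⟨e⟩ : Nonempty (Fin n ≃ ι) := ⟨(Fintype.equivFinOfCardEq hcard).symm⟩
  obtain ⟨φ', hφ'⟩ : ∃ φ' : ℕ → ℕ → ℝ, φ' = fun k j => if hk : k < n then φ (e ⟨k, hk⟩) j else 0 := ⟨_, rfl⟩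
  obtain ⟨A', hA'⟩ : ∃ A' : ℕ → ℤ, A' = fun k => if hk : k < n then A (e ⟨k, hk⟩) else 1 := ⟨_, rfl⟩
  obtain ⟨B', hB'⟩ : ∃ B' : ℕ → ℤ, B' = fun k => if hk : k < n then B (e ⟨k, hk⟩) else 0 := ⟨_, rfl⟩
  have eφ : ∀ (i : Fin n) (j : ℕ), φ' i j = φ (e i) j := by intro i j; rw [hφ']; simp [i.2]
  have eA : ∀ i : Fin n, A' i = A (e i) := by intro i; rw [hA']; simp [i.2]
  have eB : ∀ i : Fin n, B' i = B (e i) := by intro i; rw [hB']; simp [i.2]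
  have key := h t Λ hΛ1 hΛt φ' δ₁ δ₂ h0 h1 h2
    (by intro a k; rw [hφ']; simp only; split_ifs; exacts [hφ _ _, by simp])
    (by intro a k; rw [hφ']; simp only; split_ifs; exacts [hd1 _ _, by simpa using h0])
    (by intro a k; rw [hφ']; simp only; split_ifs; exacts [hd2 _ _, by simpa using h2])
    A' B' (by intro a; rw [hA']; simp only; split_ifs; exacts [hA _, by norm_num])
  have p1 : ∀ v : ℤ, ∏ a ∈ range n, φ' a (od d t (A' a * v + B' a)) = ∏ a, φ a (od d t (A a * v + B a)) := by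
    intro v
    rw [prod_range]
    simp only [eφ, eA, eB]
    exact Equiv.prod_comp e (fun a => φ a (od d t (A a * v + B a)))
  have p2 : ∏ a ∈ range n, pm t (fun v => φ' a (od d t v)) = ∏ a, pm t (fun v => φ a (od d t v)) := by
    rw [prod_range]
    simp only [eφ]
    exact Equiv.prod_comp e (fun a => pm t (fun v => φ a (od d t v)))
  have p3 : (∑ a ∈ range n, ∑ b ∈ range n, if a < b then ∑ q ∈ range (t / Λ), pm t (fun v => |∑ j ∈ range Λ,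
        sg ((Tz d)^[q * Λ + j] (A' a * v + B' a)) * sg ((Tz d)^[q * Λ + j] (A' b * v + B' b))|) else 0)
      ≤ ∑ a, ∑ b, if a ≠ b then pm t (fun v => Eta.Bk d t Λ (A a * v + B a) (A b * v + B b)) else 0 := by
    have h3 : (∑ a, ∑ b, if a ≠ b then pm t (fun v => Eta.Bk d t Λ (A a * v + B a) (A b * v + B b)) else 0)
        = ∑ i : Fin n, ∑ j : Fin n, if e i ≠ e j then pm t (fun v => Eta.Bk d t Λ (A (e i) * v + B (e i))
            (A (e j) * v + B (e j))) else 0 := by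
      rw [← Equiv.sum_comp e]
      apply sum_congr rfl
      intro i _
      rw [← Equiv.sum_comp e]
    rw [h3, sum_range]
    apply sum_le_sum
    intro i _
    rw [sum_range]
    apply sum_le_sum
    intro j _
    rw [eA, eB, eA, eB]
    by_cases hij : (i : ℕ) < (j : ℕ)
    · have hne : e i ≠ e j := by
        intro h4
        have h5 := e.injective h4
        rw [h5] at hij
        exact lt_irrefl _ hij
      rw [if_pos hij, if_pos hne]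
      exact le_of_eq (pm_sum _ _ _).symm
    · rw [if_neg hij]
      split_ifs
      · exact pm_nonneg fun v => Eta.Bk_nonneg _ _ _ _ _
      · exact le_rfl
  have e1 : pm t (fun v => ∏ a ∈ range n, φ' a (od d t (A' a * v + B' a)))
      = pm t (fun v => ∏ a, φ a (od d t (A a * v + B a))) := pm_congr p1
  rw [e1, p2] at key
  refine key.trans ?_
  have := mul_le_mul_of_nonneg_left p3 (sq_nonneg δ₁)
  linarith

theorem div_aff {E e : ℕ} (he : e ≤ E) (v s : ℤ) : ((3 : ℤ) ^ E * v + s) / 3 ^ e = 3 ^ (E - e) * v + s / 3 ^ e := by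
  have h1 : (3 : ℤ) ^ E = 3 ^ e * 3 ^ (E - e) := by rw [← pow_add]; congr 1; omega
  rw [h1, mul_assoc, add_comm, Int.add_mul_ediv_left _ _ (by positivity : (3 : ℤ) ^ e ≠ 0), add_comm]

/-- the balance of two of the walkers -/
theorem pair_bal {d : ℤ} (hd2 : d % 2 = 1) {t Λ : ℕ} {bal : ℝ} {x : ℝ}
    (hbal : ∀ (i : ℕ) (r : ℤ), x ≤ i → i ≤ t ^ 10 → pm t (fun v => Eta.Bk d t Λ v (3 ^ i * v + r)) ≤ bal)
    {E a b : ℕ} (ha : a ≤ E) (hb : b ≤ E) (hE : E ≤ t ^ 10) (hab : x ≤ |(a : ℝ) - b|) (s : ℤ) :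
    pm t (fun v => Eta.Bk d t Λ (3 ^ (E - a) * v + s / 3 ^ a) (3 ^ (E - b) * v + s / 3 ^ b)) ≤ bal := by
  have main : ∀ a b : ℕ, b ≤ a → a ≤ E → x ≤ |(a : ℝ) - b| →
      pm t (fun v => Eta.Bk d t Λ (3 ^ (E - a) * v + s / 3 ^ a) (3 ^ (E - b) * v + s / 3 ^ b)) ≤ bal := by
    intro a b hba ha hab
    obtain ⟨i, hi⟩ : ∃ i, a = b + i := ⟨a - b, by omega⟩
    obtain ⟨ca, hca⟩ : ∃ ca : ℤ, ca = s / 3 ^ a := ⟨_, rfl⟩
    obtain ⟨cb, hcb⟩ : ∃ cb : ℤ, cb = s / 3 ^ b := ⟨_, rfl⟩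
    rw [← hca, ← hcb]
    have hG : Per t (fun X => Eta.Bk d t Λ X (3 ^ i * X + (cb - 3 ^ i * ca))) := by
      intro X m
      simp only []
      rw [show (3 : ℤ) ^ i * (X + m * 2 ^ t) + (cb - 3 ^ i * ca) = (3 ^ i * X + (cb - 3 ^ i * ca)) + (3 ^ i * m) * 2 ^ t by ring,
        Eta.Bk_per hd2]
    have h1 := pm_affine hG (a := 3 ^ (E - a)) (three_pow_odd (E - a)) ca
    have h2 : pm t (fun v => Eta.Bk d t Λ (3 ^ (E - a) * v + ca) (3 ^ (E - b) * v + cb))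
        = pm t (fun v => Eta.Bk d t Λ (3 ^ (E - a) * v + ca) (3 ^ i * (3 ^ (E - a) * v + ca) + (cb - 3 ^ i * ca))) := by
      apply pm_congr; intro v
      have e1 : (3 : ℤ) ^ (E - b) = 3 ^ i * 3 ^ (E - a) := by rw [← pow_add]; congr 1; omega
      rw [e1]
      congr 1
      ring
    rw [h2]
    refine le_trans (le_of_eq h1) ?_
    apply hbal i
    · rw [hi] at hab
      push_cast at hab
      rw [add_sub_cancel_left, Nat.abs_cast] at hab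
      exact hab
    · omega
  rcases le_total b a with h | h
  · exact main a b h ha hab
  · have h1 := main b a h hb (by rw [abs_sub_comm]; exact hab)
    refine le_trans (le_of_eq ?_) h1
    apply pm_congr; intro v; exact Eta.Bk_comm _ _ _ _ _

/-- the weight as a function of the number of odd steps -/
noncomputable def ze (g c k : ℕ) : ℝ := g * W g ((c : ℤ) - (k : ℕ))

theorem ze_eq (d : ℤ) (t g c k : ℕ) : ze g c k = Eta.zt d t g c k + g * pc d t g c := by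
  unfold ze Eta.zt; ring

theorem ze_abs {g : ℕ} (hg : 1 ≤ g) (c k : ℕ) : |ze g c k| ≤ 1 := by
  unfold ze
  have hg' : (0 : ℝ) < g := by exact_mod_cast hg
  have h1 := W_nonneg g ((c : ℤ) - (k : ℕ))
  have h2 := W_le hg ((c : ℤ) - (k : ℕ))
  rw [abs_of_nonneg (by positivity)]
  calc (g : ℝ) * W g ((c : ℤ) - (k : ℕ)) ≤ g * (1 / g) := mul_le_mul_of_nonneg_left h2 hg'.le
    _ = 1 := by field_simp

theorem ze_d1 (d : ℤ) (t : ℕ) {g : ℕ} (hg : 1 ≤ g) (c k : ℕ) : |ze g c (k + 1) - ze g c k| ≤ 1 / g := by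
  have := Eta.zt_d1 (d := d) (t := t) hg c k
  rw [ze_eq d t, ze_eq d t]
  have e : Eta.zt d t g c (k + 1) + g * pc d t g c - (Eta.zt d t g c k + g * pc d t g c)
      = Eta.zt d t g c (k + 1) - Eta.zt d t g c k := by ring
  rw [e]; exact this

theorem ze_d2 (d : ℤ) (t : ℕ) {g : ℕ} (hg : 1 ≤ g) (c k : ℕ) :
    |ze g c (k + 2) - 2 * ze g c (k + 1) + ze g c k| ≤ 2 / (g : ℝ) ^ 2 := by
  have := Eta.zt_d2 (d := d) (t := t) hg c k
  rw [ze_eq d t, ze_eq d t, ze_eq d t]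
  have e : Eta.zt d t g c (k + 2) + g * pc d t g c - 2 * (Eta.zt d t g c (k + 1) + g * pc d t g c)
      + (Eta.zt d t g c k + g * pc d t g c)
      = Eta.zt d t g c (k + 2) - 2 * Eta.zt d t g c (k + 1) + Eta.zt d t g c k := by ring
  rw [e]; exact this

theorem ze_mean (d : ℤ) (t g c : ℕ) : pm t (fun v => ze g c (od d t v)) = g * pc d t g c := by
  unfold ze pc psi
  rw [pm_mul]

/-- one block of residues: the mean over `⌊y⌋ = h - w`, `h` mod `2 ^ t 3 ^ E` -/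
theorem av_block {F : ℤ → ℝ} (h1 : ∀ x, |F x| ≤ 1) {t N : ℕ} (hN : 1 ≤ N) (hF : ∀ x, F (x + (2 ^ t * N : ℕ)) = F x)
    {W : ℝ} (hW : 0 < W) (w : ℤ) {m : ℝ} {B : ℕ → ℝ}
    (hB : ∀ r < N, |pm t (fun v => F (-w + (N * v + (r : ℕ)))) - m| ≤ B r) :
    |av W (fun y => F ⌊y⌋) - m| ≤ (∑ r ∈ range N, B r) / N + 2 * (N * 2 ^ t / W) := by
  have hN0 : (0 : ℝ) < N := by exact_mod_cast hN
  obtain ⟨P, hP⟩ : ∃ P, P = 2 ^ t * N := ⟨_, rfl⟩
  rw [← hP] at hF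
  have hP1 : 1 ≤ P := by rw [hP]; exact Nat.one_le_iff_ne_zero.2 (by positivity)
  have hPR : (P : ℝ) = 2 ^ t * N := by rw [hP]; push_cast; ring
  have h2 := Eta.av_period h1 hP1 hF hW (-w)
  have h3 : ∑ h ∈ range P, F (-w + (h : ℕ))
      = ∑ r ∈ range N, (2 ^ t : ℝ) * pm t (fun v => F (-w + (N * v + (r : ℕ)))) := by
    rw [hP, Eta.sum_blocks, sum_comm]
    apply sum_congr rfl; intro r _
    unfold pm
    rw [mul_div_cancel₀ _ (by positivity)]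
    apply sum_congr rfl; intro v _
    congr 2
    push_cast; ring
  have h4 : (∑ h ∈ range P, F (-w + (h : ℕ))) / P - m
      = (∑ r ∈ range N, (pm t (fun v => F (-w + (N * v + (r : ℕ)))) - m)) / N := by
    rw [h3, ← mul_sum, hPR, mul_div_mul_left _ _ (by positivity), sum_sub_distrib, sum_const, card_range, nsmul_eq_mul]
    field_simp
  have h5 : |(∑ h ∈ range P, F (-w + (h : ℕ))) / P - m| ≤ (∑ r ∈ range N, B r) / N := by
    rw [h4, abs_div, abs_of_pos hN0]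
    apply div_le_div_of_nonneg_right _ hN0.le
    refine (abs_sum_le_sum_abs _ _).trans (sum_le_sum fun r hr => hB r (mem_range.1 hr))
  have h6 : 2 * (P : ℝ) / W = 2 * (N * 2 ^ t / W) := by rw [hPR]; ring
  rw [h6] at h2
  have h7 := abs_le.1 h2
  have h8 := abs_le.1 h5
  rw [abs_le]
  constructor
  · linarith [h7.1, h8.1]
  · linarith [h7.2, h8.2]

end EtaN

open EtaN in
/-- **MX2.** -/
theorem etan (d : ℤ) (hd : d = 1 ∨ d = -1) (h4 : S_NW d) (hw : S_WS d) (hb : S_BAL d) : S_ETAN d := by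
  have hd2 : d % 2 = 1 := by rcases hd with h | h <;> rw [h] <;> norm_num
  intro n C
  obtain ⟨Ca, hCa, ha⟩ := nw_ft h4 n
  obtain ⟨Cb, hCb, hb2⟩ := nw_ft h4 (n + n)
  obtain ⟨Cw, hCw, hw⟩ := hw
  obtain ⟨DB, t0, hDB, ht0, hb⟩ := hb C
  refine ⟨4 * (n : ℝ) ^ 2 * (Cw + DB + 3) + 3 * (Cb + 2 * Ca) + 6 + Cw, t0, by positivity, ht0, ?_⟩
  intro t k Λ g l E ht hk hΛ1 hΛk hkt hg hE hl e he x hx hgap W hW c
  have hg' : (0 : ℝ) < g := by exact_mod_cast hg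
  have hΛt : Λ ≤ t := hΛk.trans hkt
  have hn0 : (0 : ℝ) ≤ (n : ℝ) ^ 2 := by positivity
  have hk' : Cw ≤ k := by
    refine le_trans ?_ hk
    have : 0 ≤ 4 * (n : ℝ) ^ 2 * (Cw + DB + 3) := by positivity
    linarith
  have hk0 : (0 : ℝ) < k := lt_of_lt_of_le hCw hk'
  have hl0 : 0 < l := by
    rcases Nat.eq_zero_or_pos l with h0 | h0
    · exfalso
      rw [h0] at hl
      simp only [Nat.cast_zero, Real.log_zero] at hl
      have := mul_nonneg gm_nonneg (Nat.cast_nonneg (α := ℝ) t)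
      linarith
    · exact h0
  have hl1 : (1 : ℝ) ≤ l := by exact_mod_cast hl0
  obtain ⟨N, hN⟩ : ∃ N : ℕ, N = 3 ^ E := ⟨_, rfl⟩
  have hN1 : 1 ≤ N := by rw [hN]; exact Nat.one_le_pow _ _ (by norm_num)
  have hN0 : (0 : ℝ) < N := by exact_mod_cast hN1
  have hNr : (N : ℝ) = 3 ^ E := by rw [hN]; push_cast; rfl
  have hNz : (N : ℤ) = 3 ^ E := by rw [hN]; push_cast; rfl
  have hW0 : 0 < W := lt_of_lt_of_le (by positivity) hW
  obtain ⟨S, hS⟩ : ∃ S, S = √ (1 / Λ + (t + k : ℝ) ^ 3 / (k : ℝ) ^ 4) := ⟨_, rfl⟩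
  have hS0 : 0 ≤ S := by rw [hS]; exact Real.sqrt_nonneg _
  obtain ⟨K1, hK1⟩ : ∃ K1 : ℝ, K1 = t * (Cw * S) := ⟨_, rfl⟩
  have hK10 : 0 ≤ K1 := by rw [hK1]; positivity
  obtain ⟨bal, hbal⟩ : ∃ bal : ℝ, bal = t * (DB * √ (Real.log t / Λ) + 1 / Real.log t ^ C
      + 2 * Real.exp (-x ^ 2 / (2 * t))) := ⟨_, rfl⟩
  have hlogt0 : 0 ≤ Real.log t := Real.log_natCast_nonneg t
  have hbal0 : 0 ≤ bal := by rw [hbal]; positivity
  -- balance
  have hbal1 : ∀ (i : ℕ) (r : ℤ), x ≤ i → i ≤ t ^ 10 → pm t (fun v => Eta.Bk d t Λ v (3 ^ i * v + r)) ≤ bal := by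
    intro i r hxi hi
    have h1 := hb t Λ i ht hΛ1 hΛt hi r
    refine le_trans (le_of_eq (pm_sum _ _ _)) (h1.trans ?_)
    rw [hbal]
    apply mul_le_mul_of_nonneg_left _ (Nat.cast_nonneg _)
    have h2 : Real.exp (-(i : ℝ) ^ 2 / (2 * t)) ≤ Real.exp (-x ^ 2 / (2 * t)) := by
      apply Real.exp_le_exp.2
      apply div_le_div_of_nonneg_right _ (by positivity)
      have : x ^ 2 ≤ (i : ℝ) ^ 2 := pow_le_pow_left₀ hx hxi 2
      linarith
    linarith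
  have hpb : ∀ a b : Fin n, a ≠ b → ∀ s : ℤ,
      pm t (fun v => Eta.Bk d t Λ (3 ^ (E - e a) * v + s / 3 ^ e a) (3 ^ (E - e b) * v + s / 3 ^ e b)) ≤ bal :=
    fun a b hab s => pair_bal hd2 hbal1 (he a) (he b) hE (hgap a b hab) s
  -- windows
  have hwin : ∀ l' : ℕ, l ≤ l' → ∀ x X : ℤ, ∑ w ∈ range l', Eta.Bk d t Λ x (X + (w : ℕ)) ≤ l' * K1 := by
    intro l' hl' x X
    have hl'0 : (0 : ℝ) < l' := by exact_mod_cast lt_of_lt_of_le hl0 hl'
    have hlog : gm * t + 40 * k ≤ Real.log l' := by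
      refine hl.trans (Real.log_le_log (by positivity) ?_)
      exact_mod_cast hl'
    unfold Eta.Bk
    rw [sum_comm]
    have h1 : ∀ q ∈ range (t / Λ), ∑ w ∈ range l', |∑ j ∈ range Λ, sg ((Tz d)^[q * Λ + j] x) *
        sg ((Tz d)^[q * Λ + j] (X + (w : ℕ)))| ≤ l' * (Cw * (Λ * S)) := by
      intro q hq
      rw [mem_range] at hq
      have hqt : q * Λ ≤ t := by
        have h1 : q * Λ ≤ (t / Λ) * Λ := Nat.mul_le_mul_right Λ hq.le
        exact h1.trans (Nat.div_mul_le_self t Λ)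
      have h2 := hw t k Λ l' (q * Λ) hk' hΛ1 hΛk hqt hlog (fun j => sg ((Tz d)^[q * Λ + j] x))
        (fun j => sg_sq _) X
      rw [div_le_iff₀ hl'0, ← hS] at h2
      linarith
    refine (sum_le_sum h1).trans ?_
    rw [sum_const, card_range, nsmul_eq_mul]
    have h3 : (((t / Λ : ℕ) : ℝ)) * Λ ≤ t := by exact_mod_cast Nat.div_mul_le_self t Λ
    have h4 : (((t / Λ : ℕ) : ℝ)) * (l' * (Cw * (Λ * S))) = ((((t / Λ : ℕ) : ℝ)) * Λ) * (l' * (Cw * S)) := by ring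
    rw [h4, hK1]
    have h5 := mul_le_mul_of_nonneg_right h3 (show 0 ≤ l' * (Cw * S) by positivity)
    refine h5.trans (le_of_eq (by ring))
  obtain ⟨LN, hLN⟩ : ∃ LN : ℝ, LN = ((l * N : ℕ) : ℝ) := ⟨_, rfl⟩
  have hLN0 : 0 < LN := by rw [hLN]; exact_mod_cast Nat.mul_pos hl0 hN1
  have hwin2 : ∀ (b : Fin n) (x X : ℤ), ∑ w ∈ range (l * N), Eta.Bk d t Λ x ((X + (w : ℕ)) / 3 ^ e b) ≤ 2 * (LN * K1) := by
    intro b x X
    obtain ⟨Nb, hNb⟩ : ∃ Nb : ℕ, Nb = 3 ^ e b := ⟨_, rfl⟩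
    obtain ⟨l', hl'⟩ : ∃ l' : ℕ, l' = l * 3 ^ (E - e b) := ⟨_, rfl⟩
    have hNb1 : 1 ≤ Nb := by rw [hNb]; exact Nat.one_le_pow _ _ (by norm_num)
    have hll' : l ≤ l' := by rw [hl']; exact Nat.le_mul_of_pos_right l (by positivity)
    have hln : l * N = l' * Nb := by
      rw [hN, hl', hNb, mul_assoc, ← pow_add]
      congr 2
      have := he b
      omega
    have h1 := Eta.fib_sum (G := fun z => Eta.Bk d t Λ x z) (fun z => Eta.Bk_nonneg _ _ _ _ _) hNb1 l' X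
    have e1 : ((Nb : ℕ) : ℤ) = 3 ^ e b := by rw [hNb]; push_cast; rfl
    rw [e1, ← hln] at h1
    refine h1.trans ?_
    have h2 := hwin (l' + 1) (by omega) x (X / 3 ^ e b)
    have hl'1 : (1 : ℝ) ≤ l' := hl1.trans (by exact_mod_cast hll')
    have h3 : ((l' + 1 : ℕ) : ℝ) ≤ 2 * l' := by push_cast; linarith
    have hNb0 : (0 : ℝ) ≤ Nb := Nat.cast_nonneg _
    have h4 : (Nb : ℝ) * ∑ h ∈ range (l' + 1), Eta.Bk d t Λ x (X / 3 ^ e b + (h : ℕ)) ≤ Nb * (((l' + 1 : ℕ) : ℝ) * K1) :=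
      mul_le_mul_of_nonneg_left h2 hNb0
    have h5 : (Nb : ℝ) * (((l' + 1 : ℕ) : ℝ) * K1) ≤ Nb * ((2 * l') * K1) := by
      apply mul_le_mul_of_nonneg_left _ hNb0
      exact mul_le_mul_of_nonneg_right h3 hK10
    refine (h4.trans h5).trans (le_of_eq ?_)
    rw [hLN, hln]; push_cast; ring
  -- the factors
  obtain ⟨Q, hQ⟩ : ∃ Q : ℕ → ℤ → ℝ, Q = fun w U => ∏ a : Fin n, ze g (c a) (od d t ((U + (w : ℕ)) / 3 ^ e a)) := ⟨_, rfl⟩
  obtain ⟨m, hm⟩ : ∃ m : ℝ, m = ∏ a : Fin n, ((g : ℝ) * pc d t g (c a)) := ⟨_, rfl⟩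
  have hQ1 : ∀ w U, |Q w U| ≤ 1 := by
    intro w U
    rw [hQ]
    simp only
    rw [abs_prod]
    exact prod_le_one (fun a _ => abs_nonneg _) (fun a _ => ze_abs hg _ _)
  have hm1 : |m| ≤ 1 := by
    rw [hm, abs_prod]
    apply prod_le_one (fun a _ => abs_nonneg _)
    intro a _
    rw [← ze_mean]
    exact pm_abs fun v => ze_abs hg _ _
  have hQP : ∀ w U, Q w (U + (2 ^ t * N : ℕ)) = Q w U := by
    intro w U
    rw [hQ]
    simp only
    apply prod_congr rfl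
    intro a _
    have e1 : U + ((2 ^ t * N : ℕ) : ℤ) + (w : ℕ) = 3 ^ E * 2 ^ t + (U + (w : ℕ)) := by push_cast; rw [hNz]; ring
    have e2 : (U + ((2 ^ t * N : ℕ) : ℤ) + (w : ℕ)) / 3 ^ e a = (U + (w : ℕ)) / 3 ^ e a + 3 ^ (E - e a) * 2 ^ t := by
      rw [e1, div_aff (he a)]; ring
    rw [e2, od_per hd2]
  -- the walkers
  have hwalk : ∀ (r : ℕ) (w w' : ℕ) (v : ℤ) (a : Fin n), (-(w : ℤ) + (N * v + (r : ℕ)) + (w' : ℕ)) / 3 ^ e a
      = 3 ^ (E - e a) * v + ((r : ℤ) - w + w') / 3 ^ e a := by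
    intro r w w' v a
    rw [← div_aff (he a), hNz]
    congr 1
    ring
  obtain ⟨E4, hE4⟩ : ∃ E4 : ℝ, E4 = 3 * (t * Λ / (g : ℝ) ^ 3) + Λ / (g : ℝ) ^ 2 := ⟨_, rfl⟩
  have hE40 : 0 ≤ E4 := by rw [hE4]; positivity
  have herr : ∀ C : ℝ, C * (t * Λ * ((1 / (g : ℝ)) * (2 / (g : ℝ) ^ 2) + (1 / (g : ℝ)) ^ 3) + Λ * (1 / (g : ℝ)) ^ 2) = C * E4 := by
    intro C; rw [hE4]; field_simp; ring
  have hδ1 : 1 / (g : ℝ) ≤ 1 := by rw [div_le_one hg']; exact_mod_cast hg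
  -- one factor
  have hone : ∀ w : ℕ, |av W (fun y => Q w ⌊y⌋) - m| ≤ 1 / (g : ℝ) ^ 2 * (n ^ 2 * bal) + Ca * E4 + 2 * (N * 2 ^ t / W) := by
    intro w
    have h1 := av_block (hQ1 w) hN1 (hQP w) hW0 (w : ℤ) (m := m)
      (B := fun _ => 1 / (g : ℝ) ^ 2 * (n ^ 2 * bal) + Ca * E4) (by
        intro r _
        have h2 := ha (Fin n) (Fintype.card_fin n) t Λ hΛ1 hΛt (fun a => ze g (c a)) (1 / g) (2 / (g : ℝ) ^ 2)
          (by positivity) hδ1 (by positivity) (fun a k => ze_abs hg _ _) (fun a k => ze_d1 d t hg _ _)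
          (fun a k => ze_d2 d t hg _ _) (fun a => 3 ^ (E - e a)) (fun a => ((r : ℕ) : ℤ) / 3 ^ e a)
          (fun a => three_pow_odd _)
        simp only [ze_mean] at h2
        rw [← hm, herr] at h2
        have e1 : pm t (fun v => Q w (-(w : ℤ) + (N * v + (r : ℕ))))
            = pm t (fun v => ∏ a, ze g (c a) (od d t (3 ^ (E - e a) * v + ((r : ℕ) : ℤ) / 3 ^ e a))) := by
          apply pm_congr; intro v
          rw [hQ]
          simp only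
          apply prod_congr rfl
          intro a _
          rw [hwalk r w w v a]
          congr 4
          ring
        rw [e1]
        refine h2.trans ?_
        have h3 : (∑ a : Fin n, ∑ b : Fin n, if a ≠ b then pm t (fun v => Eta.Bk d t Λ (3 ^ (E - e a) * v + ((r : ℕ) : ℤ) / 3 ^ e a)
            (3 ^ (E - e b) * v + ((r : ℕ) : ℤ) / 3 ^ e b)) else 0) ≤ n ^ 2 * bal := by
          have h4 : ∀ a b : Fin n, (if a ≠ b then pm t (fun v => Eta.Bk d t Λ (3 ^ (E - e a) * v + ((r : ℕ) : ℤ) / 3 ^ e a)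
            (3 ^ (E - e b) * v + ((r : ℕ) : ℤ) / 3 ^ e b)) else 0) ≤ bal := by
            intro a b
            split_ifs with hab
            · exact hpb a b hab _
            · exact hbal0
          refine (sum_le_sum fun a _ => sum_le_sum fun b _ => h4 a b).trans (le_of_eq ?_)
          simp only [sum_const, card_univ, Fintype.card_fin, nsmul_eq_mul]
          ring
        have e2 : (1 / (g : ℝ)) ^ 2 = 1 / (g : ℝ) ^ 2 := by rw [div_pow, one_pow]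
        rw [e2]
        have h5 := mul_le_mul_of_nonneg_left h3 (show 0 ≤ 1 / (g : ℝ) ^ 2 by positivity)
        linarith)
    refine h1.trans (le_of_eq ?_)
    rw [sum_const, card_range, nsmul_eq_mul]
    field_simp
  -- two factors
  obtain ⟨T2, hT2⟩ : ∃ T2 : ℕ → ℕ → ℕ → Fin n → Fin n → ℝ, T2 = fun r w w' a b =>
      pm t (fun v => Eta.Bk d t Λ (3 ^ (E - e a) * v + ((r : ℕ) : ℤ) / 3 ^ e a)
        (3 ^ (E - e b) * v + (((r : ℕ) : ℤ) - (w : ℕ) + (w' : ℕ)) / 3 ^ e b)) := ⟨_, rfl⟩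
  have htwo : ∀ w w' : ℕ, |av W (fun y => Q w ⌊y⌋ * Q w' ⌊y⌋) - m * m|
      ≤ (∑ r ∈ range N, (1 / (g : ℝ) ^ 2 * (2 * (n ^ 2 * bal) + 2 * ∑ a, ∑ b, T2 r w w' a b) + Cb * E4)) / N
        + 2 * (N * 2 ^ t / W) := by
    intro w w'
    apply av_block (F := fun U => Q w U * Q w' U) (fun U => by
      rw [abs_mul]; exact mul_le_one₀ (hQ1 w U) (abs_nonneg _) (hQ1 w' U)) hN1
      (fun U => by simp only [hQP]) hW0 (w : ℤ)
    intro r _
    obtain ⟨s, hs⟩ : ∃ s : ℤ, s = ((r : ℕ) : ℤ) - (w : ℕ) + (w' : ℕ) := ⟨_, rfl⟩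
    have h2 := hb2 (Fin n ⊕ Fin n) (by rw [Fintype.card_sum, Fintype.card_fin]) t Λ hΛ1 hΛt
      (Sum.elim (fun a => ze g (c a)) (fun a => ze g (c a))) (1 / g) (2 / (g : ℝ) ^ 2)
      (by positivity) hδ1 (by positivity)
      (by rintro (a | a) k <;> simpa using ze_abs hg _ _)
      (by rintro (a | a) k <;> simpa using ze_d1 d t hg _ _)
      (by rintro (a | a) k <;> simpa using ze_d2 d t hg _ _)
      (Sum.elim (fun a => 3 ^ (E - e a)) (fun a => 3 ^ (E - e a)))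
      (Sum.elim (fun a => ((r : ℕ) : ℤ) / 3 ^ e a) (fun a => s / 3 ^ e a))
      (by rintro (a | a) <;> exact three_pow_odd _)
    simp only [Fintype.prod_sum_type, Fintype.sum_sum_type, Sum.elim_inl, Sum.elim_inr, ze_mean] at h2
    rw [← hm, herr] at h2
    have e1 : pm t (fun v => Q w (-(w : ℤ) + (N * v + (r : ℕ))) * Q w' (-(w : ℤ) + (N * v + (r : ℕ))))
        = pm t (fun v => (∏ a, ze g (c a) (od d t (3 ^ (E - e a) * v + ((r : ℕ) : ℤ) / 3 ^ e a))) *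
            ∏ a, ze g (c a) (od d t (3 ^ (E - e a) * v + s / 3 ^ e a))) := by
      apply pm_congr; intro v
      rw [hQ]
      simp only
      congr 1
      · apply prod_congr rfl
        intro a _
        rw [hwalk r w w v a]
        congr 4
        ring
      · apply prod_congr rfl
        intro a _
        rw [hwalk r w w' v a, hs]
    rw [e1]
    refine h2.trans ?_
    have h4 : ∀ (z : ℤ) (P : Prop) [Decidable P] (a b : Fin n), (P → a ≠ b) →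
        (if P then pm t (fun v => Eta.Bk d t Λ (3 ^ (E - e a) * v + z / 3 ^ e a)
          (3 ^ (E - e b) * v + z / 3 ^ e b)) else 0) ≤ bal := by
      intro z P _ a b hP
      split_ifs with h
      · exact hpb a b (hP h) _
      · exact hbal0
    have hT0 : ∀ a b, 0 ≤ T2 r w w' a b := by
      intro a b; rw [hT2]; exact pm_nonneg fun v => Eta.Bk_nonneg _ _ _ _ _
    have h5 : ∀ (P : Prop) [Decidable P] (a b : Fin n),
        (if P then pm t (fun v => Eta.Bk d t Λ (3 ^ (E - e a) * v + ((r : ℕ) : ℤ) / 3 ^ e a)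
          (3 ^ (E - e b) * v + s / 3 ^ e b)) else 0) ≤ T2 r w w' a b := by
      intro P _ a b
      split_ifs
      · rw [hT2, hs]
      · exact hT0 a b
    have h6 : ∀ (P : Prop) [Decidable P] (a b : Fin n),
        (if P then pm t (fun v => Eta.Bk d t Λ (3 ^ (E - e a) * v + s / 3 ^ e a)
          (3 ^ (E - e b) * v + ((r : ℕ) : ℤ) / 3 ^ e b)) else 0) ≤ T2 r w w' b a := by
      intro P _ a b
      split_ifs
      · rw [hT2, hs]
        apply le_of_eq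
        apply pm_congr; intro v; exact Eta.Bk_comm _ _ _ _ _
      · exact hT0 b a
    have h7 : ∀ F : Fin n → Fin n → ℝ, (∀ a b, F a b ≤ bal) → ∑ a, ∑ b, F a b ≤ n ^ 2 * bal := by
      intro F hF
      refine (sum_le_sum fun a _ => sum_le_sum fun b _ => hF a b).trans (le_of_eq ?_)
      simp only [sum_const, card_univ, Fintype.card_fin, nsmul_eq_mul]
      ring
    have h8 := h7 _ fun a b => h4 ((r : ℕ) : ℤ) ((Sum.inl a : Fin n ⊕ Fin n) ≠ Sum.inl b) a b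
      (fun h hab => h (by rw [hab]))
    have h9 := h7 _ fun a b => h4 s ((Sum.inr a : Fin n ⊕ Fin n) ≠ Sum.inr b) a b
      (fun h hab => h (by rw [hab]))
    have h10 := sum_le_sum fun a (_ : a ∈ (univ : Finset (Fin n))) => sum_le_sum fun b (_ : b ∈ (univ : Finset (Fin n))) =>
      h5 ((Sum.inl a : Fin n ⊕ Fin n) ≠ Sum.inr b) a b
    have h11 := sum_le_sum fun a (_ : a ∈ (univ : Finset (Fin n))) => sum_le_sum fun b (_ : b ∈ (univ : Finset (Fin n))) =>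
      h6 ((Sum.inr a : Fin n ⊕ Fin n) ≠ Sum.inl b) a b
    rw [sum_comm (f := fun a b => T2 r w w' b a)] at h11
    have e2 : (1 / (g : ℝ)) ^ 2 = 1 / (g : ℝ) ^ 2 := by rw [div_pow, one_pow]
    rw [e2]
    have hg2 : 0 ≤ 1 / (g : ℝ) ^ 2 := by positivity
    rw [sum_add_distrib, sum_add_distrib]
    have h12 := mul_le_mul_of_nonneg_left (add_le_add (add_le_add h8 h10) (add_le_add h11 h9)) hg2
    linarith
  -- sum over the second factor
  have hT2sum : ∀ (r w : ℕ) (a b : Fin n), ∑ w' ∈ range (l * N), T2 r w w' a b ≤ 2 * (LN * K1) := by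
    intro r w a b
    rw [hT2]
    simp only
    rw [← pm_sum, ← pm_const t (2 * (LN * K1))]
    apply pm_mono; intro v
    have h1 := hwin2 b (3 ^ (E - e a) * v + ((r : ℕ) : ℤ) / 3 ^ e a) (3 ^ E * v + (((r : ℕ) : ℤ) - (w : ℕ)))
    refine le_trans (le_of_eq ?_) h1
    apply sum_congr rfl; intro w' _
    have e1 : (3 : ℤ) ^ E * v + (((r : ℕ) : ℤ) - (w : ℕ)) + (w' : ℕ) = 3 ^ E * v + (((r : ℕ) : ℤ) - (w : ℕ) + (w' : ℕ)) := by
      ring
    rw [e1, div_aff (he b)]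
  obtain ⟨R2, hR2⟩ : ∃ R2 : ℝ, R2 = 1 / (g : ℝ) ^ 2 * (2 * (n ^ 2 * bal) + 4 * (n ^ 2 * K1)) + Cb * E4
      + 2 * (N * 2 ^ t / W) := ⟨_, rfl⟩
  have hsum2 : ∀ w : ℕ, ∑ w' ∈ range (l * N), |av W (fun y => Q w ⌊y⌋ * Q w' ⌊y⌋) - m * m| ≤ LN * R2 := by
    intro w
    refine (sum_le_sum fun w' _ => htwo w w').trans ?_
    rw [sum_add_distrib, sum_const, card_range, nsmul_eq_mul, ← hLN, ← sum_div, sum_comm]
    have h1 : ∀ r ∈ range N, ∑ w' ∈ range (l * N), (1 / (g : ℝ) ^ 2 * (2 * (n ^ 2 * bal) + 2 * ∑ a, ∑ b, T2 r w w' a b)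
        + Cb * E4) ≤ LN * (1 / (g : ℝ) ^ 2 * (2 * (n ^ 2 * bal) + 4 * (n ^ 2 * K1)) + Cb * E4) := by
      intro r _
      rw [sum_add_distrib, sum_const, card_range, nsmul_eq_mul, ← hLN, ← mul_sum, sum_add_distrib, sum_const, card_range,
        nsmul_eq_mul, ← hLN, ← mul_sum]
      have h2 : ∑ w' ∈ range (l * N), ∑ a, ∑ b, T2 r w w' a b ≤ n ^ 2 * (2 * (LN * K1)) := by
        rw [sum_comm]
        have h3 : ∀ a : Fin n, ∑ w' ∈ range (l * N), ∑ b, T2 r w w' a b ≤ n * (2 * (LN * K1)) := by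
          intro a
          rw [sum_comm]
          refine (sum_le_sum fun b _ => hT2sum r w a b).trans (le_of_eq ?_)
          rw [sum_const, card_univ, Fintype.card_fin, nsmul_eq_mul]
        refine (sum_le_sum fun a _ => h3 a).trans (le_of_eq ?_)
        rw [sum_const, card_univ, Fintype.card_fin, nsmul_eq_mul]
        ring
      have hg2 : 0 ≤ 1 / (g : ℝ) ^ 2 := by positivity
      have h4 := mul_le_mul_of_nonneg_left h2 hg2
      linarith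
    have h2 := sum_le_sum h1
    rw [sum_const, card_range, nsmul_eq_mul] at h2
    have h3 : (∑ r ∈ range N, ∑ w' ∈ range (l * N), (1 / (g : ℝ) ^ 2 * (2 * (n ^ 2 * bal) + 2 * ∑ a, ∑ b, T2 r w w' a b)
        + Cb * E4)) / N ≤ LN * (1 / (g : ℝ) ^ 2 * (2 * (n ^ 2 * bal) + 4 * (n ^ 2 * K1)) + Cb * E4) := by
      rw [div_le_iff₀ hN0]; linarith
    rw [hR2]
    linarith
  obtain ⟨R1, hR1⟩ : ∃ R1 : ℝ, R1 = 1 / (g : ℝ) ^ 2 * (n ^ 2 * bal) + Ca * E4 + 2 * (N * 2 ^ t / W) := ⟨_, rfl⟩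
  -- expansion of the square
  have hQB : ∀ w, Bd 1 (fun y => Q w ⌊y⌋) := fun w => Bd.fl (hQ1 w)
  have hQB2 : ∀ w w', Bd (1 * 1) (fun y => Q w ⌊y⌋ * Q w' ⌊y⌋) := fun w w' => (hQB w).mul (hQB w')
  have hmain : av W (fun y => ((∑ w ∈ range (l * N), Q w ⌊y⌋) / LN - m) ^ 2)
      = 1 / LN ^ 2 * ∑ w ∈ range (l * N), ∑ w' ∈ range (l * N), (av W (fun y => Q w ⌊y⌋ * Q w' ⌊y⌋) - m * m)
        - 2 * m / LN * ∑ w ∈ range (l * N), (av W (fun y => Q w ⌊y⌋) - m) := by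
    have hB1 : ∀ w w', Bd (1 * 1 + |m * m|) (fun y => Q w ⌊y⌋ * Q w' ⌊y⌋ - m * m) := fun w w' =>
      (hQB2 w w').sub (Bd.const _)
    have hB2 : ∀ w, Bd (∑ w' ∈ range (l * N), (1 * 1 + |m * m|)) (fun y => ∑ w' ∈ range (l * N), (Q w ⌊y⌋ * Q w' ⌊y⌋ - m * m)) :=
      fun w => Bd.sum fun w' _ => hB1 w w'
    have hB3 : Bd (∑ w ∈ range (l * N), ∑ w' ∈ range (l * N), (1 * 1 + |m * m|))
        (fun y => ∑ w ∈ range (l * N), ∑ w' ∈ range (l * N), (Q w ⌊y⌋ * Q w' ⌊y⌋ - m * m)) := Bd.sum fun w _ => hB2 w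
    have hB4 : ∀ w, Bd (1 + |m|) (fun y => Q w ⌊y⌋ - m) := fun w => (hQB w).sub (Bd.const _)
    have hB5 : Bd (∑ w ∈ range (l * N), (1 + |m|)) (fun y => ∑ w ∈ range (l * N), (Q w ⌊y⌋ - m)) := Bd.sum fun w _ => hB4 w
    have e1 : (fun y : ℝ => ((∑ w ∈ range (l * N), Q w ⌊y⌋) / LN - m) ^ 2)
        = fun y => 1 / LN ^ 2 * ∑ w ∈ range (l * N), ∑ w' ∈ range (l * N), (Q w ⌊y⌋ * Q w' ⌊y⌋ - m * m)
          - 2 * m / LN * ∑ w ∈ range (l * N), (Q w ⌊y⌋ - m) := by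
      funext y
      have e2 : ∑ w ∈ range (l * N), ∑ w' ∈ range (l * N), (Q w ⌊y⌋ * Q w' ⌊y⌋ - m * m)
          = (∑ w ∈ range (l * N), Q w ⌊y⌋) * (∑ w ∈ range (l * N), Q w ⌊y⌋) - LN * (LN * (m * m)) := by
        rw [sum_mul_sum]
        simp only [sum_sub_distrib, sum_const, card_range, nsmul_eq_mul, ← hLN]
      have e3 : ∑ w ∈ range (l * N), (Q w ⌊y⌋ - m) = ∑ w ∈ range (l * N), Q w ⌊y⌋ - LN * m := by
        rw [sum_sub_distrib, sum_const, card_range, nsmul_eq_mul, ← hLN]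
      rw [e2, e3]
      field_simp
      ring
    rw [e1, av_sub W (hB3.cmul _) (hB5.cmul _), av_cmul, av_cmul, av_sum W (fun w _ => hB2 w), av_sum W (fun w _ => hB4 w)]
    congr 2
    · apply sum_congr rfl; intro w _
      rw [av_sum W (fun w' _ => hB1 w w')]
      apply sum_congr rfl; intro w' _
      rw [av_sub W (hQB2 w w') (Bd.const _), av_const hW0]
    · apply sum_congr rfl; intro w _
      rw [av_sub W (hQB w) (Bd.const _), av_const hW0]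
  have hbound : av W (fun y => ((∑ w ∈ range (l * N), Q w ⌊y⌋) / LN - m) ^ 2) ≤ R2 + 2 * R1 := by
    rw [hmain]
    have h1 : 1 / LN ^ 2 * ∑ w ∈ range (l * N), ∑ w' ∈ range (l * N), (av W (fun y => Q w ⌊y⌋ * Q w' ⌊y⌋) - m * m) ≤ R2 := by
      have h2 : ∑ w ∈ range (l * N), ∑ w' ∈ range (l * N), (av W (fun y => Q w ⌊y⌋ * Q w' ⌊y⌋) - m * m) ≤ LN * (LN * R2) := by
        have h3 : ∀ w ∈ range (l * N), ∑ w' ∈ range (l * N), (av W (fun y => Q w ⌊y⌋ * Q w' ⌊y⌋) - m * m) ≤ LN * R2 :=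
          fun w _ => (sum_le_sum fun w' _ => le_abs_self _).trans (hsum2 w)
        refine (sum_le_sum h3).trans (le_of_eq ?_)
        rw [sum_const, card_range, nsmul_eq_mul, ← hLN]
      have h4 : 0 ≤ 1 / LN ^ 2 := by positivity
      have h5 := mul_le_mul_of_nonneg_left h2 h4
      have e1 : 1 / LN ^ 2 * (LN * (LN * R2)) = R2 := by field_simp
      rw [e1] at h5
      exact h5
    have h2 : |2 * m / LN * ∑ w ∈ range (l * N), (av W (fun y => Q w ⌊y⌋) - m)| ≤ 2 * R1 := by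
      rw [abs_mul, abs_div, abs_mul, abs_of_pos hLN0, abs_of_pos (show (0 : ℝ) < 2 by norm_num)]
      have h3 : |∑ w ∈ range (l * N), (av W (fun y => Q w ⌊y⌋) - m)| ≤ LN * R1 := by
        refine (abs_sum_le_sum_abs _ _).trans ?_
        refine (sum_le_sum fun w _ => hone w).trans (le_of_eq ?_)
        rw [sum_const, card_range, nsmul_eq_mul, ← hLN, hR1]
      have hR10 : 0 ≤ LN * R1 := (abs_nonneg _).trans h3
      have h4 : 2 * |m| / LN ≤ 2 / LN := by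
        apply div_le_div_of_nonneg_right _ hLN0.le
        linarith
      calc 2 * |m| / LN * |∑ w ∈ range (l * N), (av W (fun y => Q w ⌊y⌋) - m)| ≤ 2 / LN * (LN * R1) :=
            mul_le_mul h4 h3 (abs_nonneg _) (by positivity)
        _ = 2 * R1 := by field_simp
    have h3 := (abs_le.1 h2).1
    linarith
  -- the statement
  have hstat : av W (fun y => ((∑ w ∈ range (l * 3 ^ E), ∏ a, ((g : ℝ) * psi d t g (c a) ((⌊y⌋ + (w : ℕ)) / 3 ^ e a)))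
        / (l * 3 ^ E) - ∏ a, ((g : ℝ) * pc d t g (c a))) ^ 2)
      = av W (fun y => ((∑ w ∈ range (l * N), Q w ⌊y⌋) / LN - m) ^ 2) := by
    have e1 : (l : ℝ) * 3 ^ E = LN := by rw [hLN]; push_cast; rw [hNr]
    rw [e1, ← hm, ← hN, hQ]
    rfl
  rw [hstat]
  refine hbound.trans ?_
  have hWN : (3 : ℝ) ^ E * 2 ^ t / W = N * 2 ^ t / W := by rw [hNr]
  rw [hWN, ← hS, hR2, hR1, hE4]
  have q1 : 0 ≤ (t : ℝ) / (g : ℝ) ^ 2 := by positivity
  obtain ⟨s2, hs2⟩ : ∃ s2, s2 = √ (Real.log t / Λ) := ⟨_, rfl⟩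
  obtain ⟨s3, hs3⟩ : ∃ s3, s3 = 1 / Real.log t ^ C := ⟨_, rfl⟩
  obtain ⟨s4, hs4⟩ : ∃ s4, s4 = Real.exp (-x ^ 2 / (2 * t)) := ⟨_, rfl⟩
  obtain ⟨s5, hs5⟩ : ∃ s5, s5 = (t : ℝ) * Λ / (g : ℝ) ^ 3 := ⟨_, rfl⟩
  obtain ⟨s6, hs6⟩ : ∃ s6, s6 = (Λ : ℝ) / (g : ℝ) ^ 2 := ⟨_, rfl⟩
  obtain ⟨s7, hs7⟩ : ∃ s7, s7 = (N : ℝ) * 2 ^ t / W := ⟨_, rfl⟩
  obtain ⟨T, hT⟩ : ∃ T, T = (t : ℝ) / (g : ℝ) ^ 2 := ⟨_, rfl⟩
  have q2 : 0 ≤ s2 := by rw [hs2]; exact Real.sqrt_nonneg _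
  have q3 : 0 ≤ s3 := by rw [hs3]; positivity
  have q4 : 0 ≤ s4 := by rw [hs4]; exact (Real.exp_pos _).le
  have q5 : 0 ≤ s5 := by rw [hs5]; positivity
  have q6 : 0 ≤ s6 := by rw [hs6]; positivity
  have q7 : 0 ≤ s7 := by rw [hs7]; positivity
  rw [← hT] at q1
  have e1 : 1 / (g : ℝ) ^ 2 * (2 * (n ^ 2 * bal) + 4 * (n ^ 2 * K1))
      = T * (n ^ 2 * (2 * (DB * s2 + s3 + 2 * s4) + 4 * (Cw * S))) := by
    rw [hK1, hbal, hT, hs2, hs3, hs4]; ring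
  have e2 : 1 / (g : ℝ) ^ 2 * (n ^ 2 * bal) = T * (n ^ 2 * (DB * s2 + s3 + 2 * s4)) := by
    rw [hbal, hT, hs2, hs3, hs4]; ring
  rw [e1, e2, ← hs2, ← hs3, ← hs4, ← hs5, ← hs6, ← hs7, ← hT]
  have i1 : n ^ 2 * (2 * (DB * s2 + s3 + 2 * s4) + 4 * (Cw * S)) + 2 * (n ^ 2 * (DB * s2 + s3 + 2 * s4))
      ≤ (4 * (n : ℝ) ^ 2 * (Cw + DB + 3) + 3 * (Cb + 2 * Ca) + 6 + Cw) * (S + s2 + s3 + s4) := by
    have h1 : (4 * (DB * s2 + s3 + 2 * s4) + 4 * (Cw * S)) ≤ 4 * (Cw + DB + 3) * (S + s2 + s3 + s4) := by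
      have : 4 * (Cw + DB + 3) * (S + s2 + s3 + s4) - (4 * (DB * s2 + s3 + 2 * s4) + 4 * (Cw * S))
          = 4 * ((DB + 3) * S + (Cw + 3) * s2 + (Cw + DB + 2) * s3 + (Cw + DB + 1) * s4) := by ring
      have h2 : 0 ≤ 4 * ((DB + 3) * S + (Cw + 3) * s2 + (Cw + DB + 2) * s3 + (Cw + DB + 1) * s4) := by positivity
      linarith
    have h2 := mul_le_mul_of_nonneg_left h1 hn0
    have h3 : 0 ≤ (3 * (Cb + 2 * Ca) + 6 + Cw) * (S + s2 + s3 + s4) := by positivity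
    linarith
  have i2 := mul_le_mul_of_nonneg_left i1 q1
  have i3 : Cb * (3 * s5 + s6) + 2 * (Ca * (3 * s5 + s6))
      ≤ (4 * (n : ℝ) ^ 2 * (Cw + DB + 3) + 3 * (Cb + 2 * Ca) + 6 + Cw) * (s5 + s6) := by
    have : (4 * (n : ℝ) ^ 2 * (Cw + DB + 3) + 3 * (Cb + 2 * Ca) + 6 + Cw) * (s5 + s6)
        - (Cb * (3 * s5 + s6) + 2 * (Ca * (3 * s5 + s6)))
        = (4 * (n : ℝ) ^ 2 * (Cw + DB + 3) + 6 + Cw) * (s5 + s6) + 2 * (Cb + 2 * Ca) * s6 := by ring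
    have h2 : 0 ≤ (4 * (n : ℝ) ^ 2 * (Cw + DB + 3) + 6 + Cw) * (s5 + s6) + 2 * (Cb + 2 * Ca) * s6 := by positivity
    linarith
  have i4 : 2 * s7 + 2 * (2 * s7) ≤ (4 * (n : ℝ) ^ 2 * (Cw + DB + 3) + 3 * (Cb + 2 * Ca) + 6 + Cw) * s7 := by
    have h1 : 0 ≤ (4 * (n : ℝ) ^ 2 * (Cw + DB + 3) + 3 * (Cb + 2 * Ca) + Cw) * s7 := by positivity
    linarith
  linarith

end Pool.Agent.KS6_24.ST
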