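import Mathlib
import Pool.Agent.KS6_24.ST.BalDefs

/-! J2-C: the potential centred at the level of the start (helper6). -/

set_option autoImplicit false

namespace Pool.Agent.KS6_24.ST

open Pool.Agent.H499R2.CO Pool.Agent.Y965.SI Finset Pool.Agent.KS6_24.LN Pool.Agent.KS6_24.LN.TW

open Pool.Agent.T6.H47.CL (Y al kb vv mm yy)

namespace Pot

theorem cnt (a k e : ℕ) : ((#{j ∈ range k | 2 ^ e ∣ a + j} : ℕ) : ℝ) ≤ k / 2 ^ e + 1 := by
  have h1 : #{j ∈ range k | 2 ^ e ∣ a + j} ≤ #{x ∈ Ico (a : ℤ) (a + k : ℕ) | (2 ^ e : ℤ) ∣ x} := by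
    apply card_le_card_of_injOn (fun j : ℕ => ((a + j : ℕ) : ℤ))
    · intro j hj
      simp only [coe_filter, mem_range, Set.mem_ofPred_eq] at hj
      simp only [coe_filter, mem_Ico, Set.mem_ofPred_eq]
      refine ⟨⟨by push_cast; omega, by push_cast; omega⟩, ?_⟩
      exact_mod_cast hj.2
    · intro j _ j' _ h
      simp only [Nat.cast_inj] at h
      omega
  have h2 := Int.Ico_filter_dvd_card (a : ℤ) ((a + k : ℕ) : ℤ) (r := 2 ^ e) (by positivity)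
  have h3 : ((#{x ∈ Ico (a : ℤ) (a + k : ℕ) | (2 ^ e : ℤ) ∣ x} : ℕ) : ℚ) ≤ k / 2 ^ e + 1 := by
    have h4 : ((#{x ∈ Ico (a : ℤ) (a + k : ℕ) | (2 ^ e : ℤ) ∣ x} : ℕ) : ℚ)
        = ((#{x ∈ Ico (a : ℤ) (a + k : ℕ) | (2 ^ e : ℤ) ∣ x} : ℤ) : ℚ) := by push_cast; rfl
    rw [h4, h2]
    push_cast
    apply max_le
    · have a1 := Int.ceil_lt_add_one (((a : ℚ) + k) / 2 ^ e)
      have a2 := Int.le_ceil ((a : ℚ) / 2 ^ e)
      rw [add_div] at a1
      rw [add_div]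
      linarith
    · positivity
  have h5 : ((#{x ∈ Ico (a : ℤ) (a + k : ℕ) | (2 ^ e : ℤ) ∣ x} : ℕ) : ℝ) ≤ k / 2 ^ e + 1 := by
    have h7 := (Rat.cast_le (K := ℝ)).2 h3
    push_cast at h7
    exact h7
  have h6 : ((#{j ∈ range k | 2 ^ e ∣ a + j} : ℕ) : ℝ) ≤ (#{x ∈ Ico (a : ℤ) (a + k : ℕ) | (2 ^ e : ℤ) ∣ x} : ℕ) := by
    exact_mod_cast h1
  linarith

theorem sum_min (a k : ℕ) : ∀ L : ℕ, ∑ j ∈ range k, (4 + (min (padicValNat 2 (a + j)) L : ℕ) : ℝ) ^ 2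
    ≤ (27 - (2 * L + 11) / 2 ^ L) * k + (4 + L) ^ 2 - 16 := by
  intro L
  induction L with
  | zero =>
    simp only [Nat.min_zero, Nat.cast_zero, add_zero, sum_const, card_range, nsmul_eq_mul]
    norm_num
    linarith
  | succ L ih =>
    have h1 : ∀ j ∈ range k, (4 + (min (padicValNat 2 (a + j)) (L + 1) : ℕ) : ℝ) ^ 2
        ≤ (4 + (min (padicValNat 2 (a + j)) L : ℕ) : ℝ) ^ 2 + (2 * L + 9) * (if 2 ^ (L + 1) ∣ a + j then 1 else 0) := by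
      intro j _
      rcases Nat.lt_or_ge L (padicValNat 2 (a + j)) with h | h
      · rw [Nat.min_eq_right (by omega), Nat.min_eq_right (by omega), if_pos]
        · push_cast; nlinarith
        · exact (pow_dvd_pow 2 h).trans pow_padicValNat_dvd
      · rw [Nat.min_eq_left (by omega), Nat.min_eq_left h]
        split_ifs
        · have : (0 : ℝ) ≤ L := Nat.cast_nonneg L
          linarith
        · linarith
    refine (sum_le_sum h1).trans ?_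
    rw [sum_add_distrib, ← mul_sum, sum_ite, sum_const_zero, add_zero, sum_const, nsmul_eq_mul, mul_one]
    have h2 := cnt a k (L + 1)
    have h3 := mul_le_mul_of_nonneg_left h2 (show (0 : ℝ) ≤ 2 * L + 9 by positivity)
    have h4 : (27 - (2 * ((L + 1 : ℕ) : ℝ) + 11) / 2 ^ (L + 1)) * (k : ℝ)
        = (27 - (2 * L + 11) / 2 ^ L) * k + (2 * L + 9) * (k / 2 ^ (L + 1)) := by
      push_cast
      rw [pow_succ]
      field_simp
      ring
    have e : ((L + 1 : ℕ) : ℝ) = L + 1 := by push_cast; ring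
    rw [h4, e]
    nlinarith

theorem sq_le_four (y : ℕ) : y ^ 2 + 4 ≤ 4 * 2 ^ y := by
  induction y with
  | zero => norm_num
  | succ y ih =>
    have := Nat.lt_two_pow_self (n := y)
    rw [pow_succ 2 y]
    nlinarith

theorem log_add (a k : ℕ) : Nat.log 2 (a + k) ≤ Nat.log 2 (a + 1) + Nat.log 2 (k + 1) + 1 := by
  have h1 := Nat.lt_pow_succ_log_self (b := 2) (by norm_num) (a + 1)
  have h2 := Nat.lt_pow_succ_log_self (b := 2) (by norm_num) (k + 1)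
  have h3 : a + k < 2 ^ (Nat.log 2 (a + 1) + Nat.log 2 (k + 1) + 2) := by
    have h4 : (a + 1) * (k + 1) < 2 ^ (Nat.log 2 (a + 1) + 1) * 2 ^ (Nat.log 2 (k + 1) + 1) :=
      Nat.mul_lt_mul'' h1 h2
    have h5 : a + k ≤ (a + 1) * (k + 1) := by nlinarith
    have h6 : 2 ^ (Nat.log 2 (a + 1) + 1) * 2 ^ (Nat.log 2 (k + 1) + 1)
        = 2 ^ (Nat.log 2 (a + 1) + Nat.log 2 (k + 1) + 2) := by
      rw [← pow_add]; congr 1; ring
    omega
  have := Nat.log_lt_of_lt_pow' (b := 2) (by omega) h3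
  omega

/-- windows of `(v + 2)^2` -/
theorem window (a k : ℕ) : ∑ j ∈ range k, ((v (a + j) : ℝ) + 2) ^ 2
    ≤ 35 * k + 2 * (5 + (Nat.log 2 (a + 1) : ℝ)) ^ 2 := by
  set L := Nat.log 2 (a + k) with hL
  have h1 : ∀ j ∈ range k, ((v (a + j) : ℝ) + 2) ^ 2 ≤ (4 + (min (padicValNat 2 (a + j)) L : ℕ) : ℝ) ^ 2 := by
    intro j hj
    rw [mem_range] at hj
    have h2 : padicValNat 2 (a + j) ≤ L :=
      (padicValNat_le_nat_log (a + j)).trans (Nat.log_mono_right (by omega))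
    rw [Nat.min_eq_left h2]
    have h3 : (v (a + j) : ℝ) ≤ 2 + padicValNat 2 (a + j) := by
      rcases Nat.eq_zero_or_pos (a + j) with h0 | h0
      · rw [h0]; simp [v]
      · exact_mod_cast v_le_two_add h0
    apply pow_le_pow_left₀ (by positivity)
    linarith
  refine (sum_le_sum h1).trans ((sum_min a k L).trans ?_)
  have h4 : (0 : ℝ) ≤ (2 * L + 11) / 2 ^ L * k := by positivity
  set x := Nat.log 2 (a + 1) with hx
  set y := Nat.log 2 (k + 1) with hy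
  have h5 : (L : ℝ) ≤ x + y + 1 := by exact_mod_cast log_add a k
  have h6 : (y : ℝ) ^ 2 ≤ 4 * k := by
    have h7 := sq_le_four y
    have h8 : 2 ^ y ≤ k + 1 := Nat.pow_log_le_self 2 (by omega)
    have h9 : y ^ 2 ≤ 4 * k := by omega
    exact_mod_cast h9
  have h7 : (4 + (L : ℝ)) ^ 2 ≤ (5 + x + y) ^ 2 := by
    apply pow_le_pow_left₀ (by positivity); linarith
  have h8 : (5 + (x : ℝ) + y) ^ 2 ≤ 2 * (5 + x) ^ 2 + 2 * (y : ℝ) ^ 2 := by nlinarith [sq_nonneg (5 + (x : ℝ) - y)]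
  nlinarith

section

variable {β : ℕ → ℝ} {s Q : ℝ} {i₀ : ℕ}

/-- the weight -/
noncomputable def cc (β : ℕ → ℝ) (j : ℕ) : ℝ := β j * (v j + 2)

/-- the required second difference -/
noncomputable def ee (β : ℕ → ℝ) (z : ℕ) : ℝ := cc β (z + 1) + cc β (z - 1)

noncomputable def S1 (β : ℕ → ℝ) (i₀ y : ℕ) : ℝ := ∑ z ∈ range y, ee β (i₀ + z)
noncomputable def S2 (β : ℕ → ℝ) (i₀ y : ℕ) : ℝ := ∑ z ∈ range y, ee β (i₀ - z)
noncomputable def R1 (β : ℕ → ℝ) (i₀ x : ℕ) : ℝ := ∑ y ∈ range x, S1 β i₀ (y + 1)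
noncomputable def R2 (β : ℕ → ℝ) (i₀ x : ℕ) : ℝ := ∑ y ∈ range x, S2 β i₀ (y + 1)

theorem cc_window {n : ℕ} {b : ℝ} (hβ0 : ∀ i, 0 ≤ β i) (hβ1 : ∀ i, β i ≤ 1) (hs : 0 < s) (hsb : s ^ 2 = b)
    (hsum : ∀ a k : ℕ, ∑ j ∈ range k, β (a + j) ≤ ((k : ℝ) + 2 ^ n) * b) {a : ℕ} (ha : a ≤ i₀ + 1) (k : ℕ) :
    ∑ j ∈ range k, cc β (a + j) ≤ s * (36 * k + (2 ^ n + 2 * (5 + (Nat.log 2 (i₀ + 2) : ℝ)) ^ 2)) := by
  have h1 : ∀ j ∈ range k, cc β (a + j) ≤ 1 / s * β (a + j) + s * ((v (a + j) : ℝ) + 2) ^ 2 := by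
    intro j _
    unfold cc
    set w : ℝ := (v (a + j) : ℝ) + 2 with hw
    have hw0 : 0 ≤ w := by positivity
    have h2 : 0 ≤ (β (a + j) - s * w) ^ 2 := sq_nonneg _
    have h3 : β (a + j) * β (a + j) ≤ β (a + j) := by nlinarith [hβ0 (a + j), hβ1 (a + j)]
    have h4 : s * (β (a + j) * w) ≤ s * (1 / s * β (a + j) + s * w ^ 2) := by
      have e : s * (1 / s * β (a + j) + s * w ^ 2) = β (a + j) + s ^ 2 * w ^ 2 := by field_simp
      rw [e]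
      have h6 : 0 ≤ s * (β (a + j) * w) := mul_nonneg hs.le (mul_nonneg (hβ0 _) hw0)
      nlinarith
    exact le_of_mul_le_mul_left h4 hs
  refine (sum_le_sum h1).trans ?_
  rw [sum_add_distrib, ← mul_sum, ← mul_sum]
  have h2 := mul_le_mul_of_nonneg_left (hsum a k) (show 0 ≤ 1 / s by positivity)
  have h3 := mul_le_mul_of_nonneg_left (window a k) hs.le
  have h4 : (Nat.log 2 (a + 1) : ℝ) ≤ Nat.log 2 (i₀ + 2) := by
    exact_mod_cast Nat.log_mono_right (show a + 1 ≤ i₀ + 2 by omega)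
  have h5 : (5 + (Nat.log 2 (a + 1) : ℝ)) ^ 2 ≤ (5 + (Nat.log 2 (i₀ + 2) : ℝ)) ^ 2 := by
    apply pow_le_pow_left₀ (by positivity); linarith
  have h6 : 1 / s * (((k : ℝ) + 2 ^ n) * b) = s * (k + 2 ^ n) := by
    rw [← hsb]; field_simp
  rw [h6] at h2
  have h7 := mul_le_mul_of_nonneg_left h5 (show 0 ≤ 2 * s by positivity)
  nlinarith

theorem cc_nonneg (hβ0 : ∀ i, 0 ≤ β i) (j : ℕ) : 0 ≤ cc β j := mul_nonneg (hβ0 j) (by positivity)

theorem ee_nonneg (hβ0 : ∀ i, 0 ≤ β i) (j : ℕ) : 0 ≤ ee β j := add_nonneg (cc_nonneg hβ0 _) (cc_nonneg hβ0 _)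

theorem S1_le (hw : ∀ a : ℕ, a ≤ i₀ + 1 → ∀ k : ℕ, ∑ j ∈ range k, cc β (a + j) ≤ s * (36 * k + Q)) (hi : 1 ≤ i₀)
    (y : ℕ) : S1 β i₀ y ≤ 2 * (s * (36 * y + Q)) := by
  unfold S1 ee
  rw [sum_add_distrib]
  have h1 := hw (i₀ + 1) le_rfl y
  have h2 := hw (i₀ - 1) (by omega) y
  have e1 : ∑ z ∈ range y, cc β (i₀ + z + 1) = ∑ j ∈ range y, cc β (i₀ + 1 + j) := by
    apply sum_congr rfl; intro z _; congr 1; ring
  have e2 : ∑ z ∈ range y, cc β (i₀ + z - 1) = ∑ j ∈ range y, cc β (i₀ - 1 + j) := by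
    apply sum_congr rfl; intro z _; congr 1; omega
  rw [e1, e2]
  linarith

theorem S2_le (hw : ∀ a : ℕ, a ≤ i₀ + 1 → ∀ k : ℕ, ∑ j ∈ range k, cc β (a + j) ≤ s * (36 * k + Q))
    {y : ℕ} (hy : y + 1 ≤ i₀) : S2 β i₀ (y + 1) ≤ 2 * (s * (36 * (y + 1 : ℕ) + Q)) := by
  unfold S2 ee
  rw [sum_add_distrib]
  have h1 := hw (i₀ - y + 1) (by omega) (y + 1)
  have h2 := hw (i₀ - y - 1) (by omega) (y + 1)
  have e1 : ∑ z ∈ range (y + 1), cc β (i₀ - z + 1) = ∑ j ∈ range (y + 1), cc β (i₀ - y + 1 + j) := by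
    rw [← sum_range_reflect (fun z => cc β (i₀ - z + 1))]
    apply sum_congr rfl; intro z hz
    rw [mem_range] at hz
    congr 1; omega
  have e2 : ∑ z ∈ range (y + 1), cc β (i₀ - z - 1) = ∑ j ∈ range (y + 1), cc β (i₀ - y - 1 + j) := by
    rw [← sum_range_reflect (fun z => cc β (i₀ - z - 1))]
    apply sum_congr rfl; intro z hz
    rw [mem_range] at hz
    congr 1; omega
  rw [e1, e2]
  linarith

theorem R1_le (hs : 0 ≤ s) (hw : ∀ a : ℕ, a ≤ i₀ + 1 → ∀ k : ℕ, ∑ j ∈ range k, cc β (a + j) ≤ s * (36 * k + Q))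
    (hi : 1 ≤ i₀) (x : ℕ) : R1 β i₀ x ≤ s * (72 * x ^ 2 + 2 * Q * x) := by
  unfold R1
  have h1 : ∀ y ∈ range x, S1 β i₀ (y + 1) ≤ 2 * (s * (36 * x + Q)) := by
    intro y hy
    rw [mem_range] at hy
    refine (S1_le hw hi (y + 1)).trans ?_
    have : ((y + 1 : ℕ) : ℝ) ≤ x := by exact_mod_cast hy
    have := mul_le_mul_of_nonneg_left this hs
    nlinarith
  refine (sum_le_sum h1).trans (le_of_eq ?_)
  rw [sum_const, card_range, nsmul_eq_mul]; ring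

theorem R2_le (hs : 0 ≤ s) (hw : ∀ a : ℕ, a ≤ i₀ + 1 → ∀ k : ℕ, ∑ j ∈ range k, cc β (a + j) ≤ s * (36 * k + Q))
    {x : ℕ} (hx : x ≤ i₀) : R2 β i₀ x ≤ s * (72 * x ^ 2 + 2 * Q * x) := by
  unfold R2
  have h1 : ∀ y ∈ range x, S2 β i₀ (y + 1) ≤ 2 * (s * (36 * x + Q)) := by
    intro y hy
    rw [mem_range] at hy
    refine (S2_le hw (show y + 1 ≤ i₀ by omega)).trans ?_
    have : ((y + 1 : ℕ) : ℝ) ≤ x := by exact_mod_cast hy
    have := mul_le_mul_of_nonneg_left this hs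
    nlinarith
  refine (sum_le_sum h1).trans (le_of_eq ?_)
  rw [sum_const, card_range, nsmul_eq_mul]; ring

/-- the potential -/
noncomputable def phi (β : ℕ → ℝ) (s Q : ℝ) (i₀ j : ℕ) : ℝ :=
  144 * s * ((j : ℝ) - i₀) ^ 2 + s * Q ^ 2 / 72 - R1 β i₀ (j - i₀) - R2 β i₀ (i₀ - j)

theorem phi_nonneg (hs : 0 ≤ s) (hw : ∀ a : ℕ, a ≤ i₀ + 1 → ∀ k : ℕ, ∑ j ∈ range k, cc β (a + j) ≤ s * (36 * k + Q))
    (hi : 1 ≤ i₀) (j : ℕ) : 0 ≤ phi β s Q i₀ j := by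
  unfold phi
  rcases Nat.le_total i₀ j with h | h
  · obtain ⟨x, rfl⟩ := Nat.exists_eq_add_of_le h
    rw [Nat.add_sub_cancel_left, show i₀ - (i₀ + x) = 0 by omega]
    have h1 := R1_le hs hw hi x
    have h2 : R2 β i₀ 0 = 0 := by unfold R2; simp
    rw [h2]
    push_cast
    have h3 : 0 ≤ s * (72 * x - Q) ^ 2 / 72 := by positivity
    nlinarith
  · obtain ⟨x, hx⟩ := Nat.exists_eq_add_of_le h
    rw [show j - i₀ = 0 by omega, show i₀ - j = x by omega]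
    have h1 := R2_le hs hw (show x ≤ i₀ by omega)
    have h2 : R1 β i₀ 0 = 0 := by unfold R1; simp
    rw [h2]
    have h4 : (i₀ : ℝ) = j + x := by exact_mod_cast hx
    have h3 : 0 ≤ s * (72 * x - Q) ^ 2 / 72 := by positivity
    rw [h4] at *
    nlinarith

theorem R1_succ (x : ℕ) : R1 β i₀ (x + 1) = R1 β i₀ x + S1 β i₀ (x + 1) := by
  unfold R1; rw [sum_range_succ]

theorem R2_succ (x : ℕ) : R2 β i₀ (x + 1) = R2 β i₀ x + S2 β i₀ (x + 1) := by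
  unfold R2; rw [sum_range_succ]

theorem S1_succ (x : ℕ) : S1 β i₀ (x + 1) = S1 β i₀ x + ee β (i₀ + x) := by
  unfold S1; rw [sum_range_succ]

theorem S2_succ (x : ℕ) : S2 β i₀ (x + 1) = S2 β i₀ x + ee β (i₀ - x) := by
  unfold S2; rw [sum_range_succ]

theorem phi_drift (hβ0 : ∀ i, 0 ≤ β i) {i : ℕ} (h1 : 1 ≤ i) :
    phi β s Q i₀ (i + 1) + phi β s Q i₀ (i - 1) - 2 * phi β s Q i₀ i + β (i + 1) * (v (i + 1) + 2) +
        β (i - 1) * (v (i - 1) + 2) ≤ 2 * (144 * s) := by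
  have hc : β (i + 1) * ((v (i + 1) : ℝ) + 2) + β (i - 1) * ((v (i - 1) : ℝ) + 2) = ee β i := rfl
  have hz1 : R1 β i₀ 0 = 0 := by unfold R1; simp
  have hz2 : R2 β i₀ 0 = 0 := by unfold R2; simp
  have hq : ((i - 1 : ℕ) : ℝ) = i - 1 := by rw [Nat.cast_sub h1]; simp
  have key : R1 β i₀ (i + 1 - i₀) + R2 β i₀ (i₀ - (i + 1)) + (R1 β i₀ (i - 1 - i₀) + R2 β i₀ (i₀ - (i - 1)))
      - 2 * (R1 β i₀ (i - i₀) + R2 β i₀ (i₀ - i)) ≥ ee β i := by
    rcases lt_trichotomy i i₀ with h | h | h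
    · obtain ⟨x, hx⟩ : ∃ x, i₀ = i + (x + 1) := ⟨i₀ - i - 1, by omega⟩
      rw [show i + 1 - i₀ = 0 by omega, show i₀ - (i + 1) = x by omega, show i - 1 - i₀ = 0 by omega,
        show i₀ - (i - 1) = x + 1 + 1 by omega, show i - i₀ = 0 by omega, show i₀ - i = x + 1 by omega, hz1,
        R2_succ (x + 1), S2_succ (x + 1), R2_succ x]
      rw [show i₀ - (x + 1) = i by omega]
      linarith
    · rw [h, show i₀ + 1 - i₀ = 0 + 1 by omega, show i₀ - (i₀ + 1) = 0 by omega, show i₀ - 1 - i₀ = 0 by omega,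
        show i₀ - (i₀ - 1) = 0 + 1 by omega, show i₀ - i₀ = 0 by omega, R1_succ, R2_succ, hz1, hz2, S1_succ, S2_succ]
      have e1 : S1 β i₀ 0 = 0 := by unfold S1; simp
      have e2 : S2 β i₀ 0 = 0 := by unfold S2; simp
      rw [e1, e2]
      have := ee_nonneg hβ0 i₀
      simp only [add_zero, Nat.sub_zero]
      linarith
    · obtain ⟨x, hx⟩ : ∃ x, i = i₀ + (x + 1) := ⟨i - i₀ - 1, by omega⟩
      rw [show i + 1 - i₀ = x + 1 + 1 by omega, show i₀ - (i + 1) = 0 by omega, show i - 1 - i₀ = x by omega,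
        show i₀ - (i - 1) = 0 by omega, show i - i₀ = x + 1 by omega, show i₀ - i = 0 by omega, hz2,
        R1_succ (x + 1), S1_succ (x + 1), R1_succ x, ← hx]
      linarith
  unfold phi
  rw [hq]
  push_cast
  linarith

end

end Pot

/-- **J2-C.** -/
theorem pot : S_POT := by
  refine ⟨144, by norm_num, ?_⟩
  intro n β b hb hb1 hβ0 hβ1 hsum i₀ t r
  rcases Nat.eq_zero_or_pos i₀ with rfl | hi
  · have : ∑ j ∈ range t, kb β j (0, r) = 0 := by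
      apply sum_eq_zero; intro j _
      exact Pool.Agent.T6.H47.CL.kb_zero_level β j r
    rw [this]; positivity
  set s := √ b with hs
  have hs0 : 0 < s := Real.sqrt_pos.2 hb
  have hs1 : s ≤ 1 := by rw [hs]; exact Real.sqrt_le_one.2 hb1
  have hsb : s ^ 2 = b := Real.sq_sqrt hb.le
  set L : ℝ := (Nat.log 2 (i₀ + 2) : ℝ) with hL
  have hL1 : 1 ≤ L := by
    rw [hL]
    have : 1 ≤ Nat.log 2 (i₀ + 2) := by
      have h2 : Nat.log 2 2 ≤ Nat.log 2 (i₀ + 2) := Nat.log_mono_right (by omega)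
      have h3 : Nat.log 2 2 = 1 := by norm_num
      omega
    exact_mod_cast this
  set Q : ℝ := 2 ^ n + 2 * (5 + L) ^ 2 with hQ
  have hw : ∀ a : ℕ, a ≤ i₀ + 1 → ∀ k : ℕ, ∑ j ∈ range k, Pot.cc β (a + j) ≤ s * (36 * k + Q) :=
    fun a ha k => Pot.cc_window hβ0 hβ1 hs0 hsb hsum ha k
  have h1 := Pool.Agent.T6.H47.CL.kb_sum (β := β) (φ := Pot.phi β s Q i₀) (m := 144 * s) hβ0
    (Pot.phi_nonneg hs0.le hw hi) (by positivity) (fun i hi' => Pot.phi_drift hβ0 hi') t (i₀, r)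
  refine h1.trans ?_
  unfold Pool.Agent.T6.H47.CL.Ph
  simp only
  have h2 : Pot.phi β s Q i₀ i₀ = s * Q ^ 2 / 72 := by
    unfold Pot.phi
    rw [Nat.sub_self]
    have e1 : Pot.R1 β i₀ 0 = 0 := by unfold Pot.R1; simp
    have e2 : Pot.R2 β i₀ 0 = 0 := by unfold Pot.R2; simp
    rw [e1, e2]; ring
  rw [h2]
  have h3 : (H i₀ r : ℝ) ≤ v i₀ + 1 := by exact_mod_cast H_le_v i₀ r
  have h4 : (v i₀ : ℝ) ≤ 2 + L := by
    have h5 : v i₀ ≤ 2 + padicValNat 2 i₀ := v_le_two_add hi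
    have h6 : padicValNat 2 i₀ ≤ Nat.log 2 (i₀ + 2) :=
      (padicValNat_le_nat_log i₀).trans (Nat.log_mono_right (by omega))
    rw [hL]
    exact_mod_cast (show v i₀ ≤ 2 + Nat.log 2 (i₀ + 2) by omega)
  have h5 : β i₀ * (1 + H i₀ r) ≤ 1 * (4 + L) := by
    apply mul_le_mul (hβ1 i₀) (by linarith) (by positivity) zero_le_one
  have h6 : (1 : ℝ) ≤ 2 ^ n := one_le_pow₀ (by norm_num)
  set A : ℝ := 2 ^ n with hA
  have h7 : Q ≤ 72 * (A + L ^ 2) := by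
    rw [hQ]
    have : (5 + L) ^ 2 ≤ (6 * L) ^ 2 := by apply pow_le_pow_left₀ (by positivity); linarith
    nlinarith
  have hQ0 : 0 ≤ Q := by rw [hQ]; positivity
  have h8 : Q ^ 2 ≤ (72 * (A + L ^ 2)) ^ 2 := pow_le_pow_left₀ hQ0 h7 2
  have h9 : s * Q ^ 2 / 72 ≤ 72 * (A + L ^ 2) ^ 2 := by
    have h10 : s * Q ^ 2 ≤ 1 * Q ^ 2 := mul_le_mul_of_nonneg_right hs1 (by positivity)
    nlinarith
  have h11 : 4 + L ≤ 5 * (A + L ^ 2) ^ 2 := by
    have h12 : L ≤ A + L ^ 2 := by nlinarith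
    have h13 : A + L ^ 2 ≤ (A + L ^ 2) ^ 2 := by nlinarith
    have h14 : 1 ≤ A + L ^ 2 := by nlinarith
    linarith
  have h15 : 0 ≤ (A + L ^ 2) ^ 2 := by positivity
  nlinarith

end Pool.Agent.KS6_24.ST
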