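import Pool.Agent.KS6_24.ST.FM1
import Pool.Agent.KS6_24.ST.Bal
import Pool.Agent.KS6_24.ST.Pot

/-!
PROJECT FM, job FM2: balance of the pair `A v + c`, `A' v + c'` for `A A' = 5, 7` mod `8` (helper12).
-/

set_option autoImplicit false

namespace Pool.Agent.KS6_24.ST

open Pool.Agent.H499R2.CO Pool.Agent.Y965.SI Finset Pool.Agent.KS6_24.LN Pool.Agent.KS6_24.LN.TW

open Pool.Agent.T6.H47.CL (Y Fn three_pow_two)

namespace FM2

/-! ### powers of three modulo powers of two -/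

theorem pow_exists {B : ℤ} (hB : B % 8 = 1 ∨ B % 8 = 3) : ∀ t : ℕ, ∃ i : ℕ, ∃ m : ℤ, (3 : ℤ) ^ i = B + m * 2 ^ (t + 3) := by
  intro t
  induction t with
  | zero =>
    rcases hB with h | h
    · exact ⟨0, (1 - B) / 8, by norm_num; omega⟩
    · exact ⟨1, (3 - B) / 8, by norm_num; omega⟩
  | succ t ih =>
    obtain ⟨i, m, hi⟩ := ih
    rcases Int.emod_two_eq_zero_or_one m with hm | hm
    · refine ⟨i, m / 2, ?_⟩
      obtain ⟨k, rfl⟩ : ∃ k, m = 2 * k := ⟨m / 2, by omega⟩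
      rw [hi, show 2 * k / 2 = k by omega]
      ring
    · obtain ⟨d, hd, hh⟩ := three_pow_two (t + 1) (by omega)
      refine ⟨i + 2 ^ (t + 1), ?_⟩
      have hB2 : B % 2 = 1 := by rcases hB with h | h <;> omega
      obtain ⟨k, hk⟩ : ∃ k, m + B * d = 2 * k := by
        have : (m + B * d) % 2 = 0 := by
          have : (B * d) % 2 = 1 := by rw [Int.mul_emod, hB2, hd]; norm_num
          omega
        exact ⟨(m + B * d) / 2, by omega⟩
      refine ⟨k + m * d * 2 ^ (t + 2), ?_⟩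
      rw [pow_add, hi, hh]
      have e1 : (2 : ℤ) ^ (t + 1 + 2) = 2 ^ (t + 3) := rfl
      have e2 : (2 : ℤ) ^ (t + 1 + 3) = 2 * 2 ^ (t + 3) := by ring
      have e3 : (2 : ℤ) ^ (t + 3) = 2 * 2 ^ (t + 2) := by ring
      rw [e1, e2]
      calc (B + m * 2 ^ (t + 3)) * (1 + d * 2 ^ (t + 3))
          = B + (m + B * d) * 2 ^ (t + 3) + m * d * 2 ^ (t + 3) * 2 ^ (t + 3) := by ring
        _ = B + (2 * k) * 2 ^ (t + 3) + m * d * 2 ^ (t + 3) * 2 ^ (t + 3) := by rw [hk]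
        _ = _ := by rw [e3]; ring

/-- large exponents -/
theorem pow_exists_ge {B : ℤ} (hB : B % 8 = 1 ∨ B % 8 = 3) (t : ℕ) :
    ∃ i : ℕ, t ≤ i ∧ ∃ m : ℤ, (3 : ℤ) ^ i = B + m * 2 ^ t := by
  obtain ⟨i, m, hi⟩ := pow_exists hB t
  obtain ⟨d, hd, hh⟩ := three_pow_two (t + 1) (by omega)
  have hk : ∀ k : ℕ, ∃ c : ℤ, (3 : ℤ) ^ (2 ^ (t + 1) * k) = 1 + c * 2 ^ (t + 3) := by
    intro k
    induction k with
    | zero => exact ⟨0, by norm_num⟩
    | succ k ih =>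
      obtain ⟨c, hc⟩ := ih
      refine ⟨c + d + c * d * 2 ^ (t + 3), ?_⟩
      rw [Nat.mul_succ, pow_add, hc, hh, show t + 1 + 2 = t + 3 by ring]
      ring
  obtain ⟨c, hc⟩ := hk t
  refine ⟨i + 2 ^ (t + 1) * t, ?_, (m + B * c) * 8 + m * c * 2 ^ (t + 3) * 8, ?_⟩
  · have : 1 ≤ 2 ^ (t + 1) := Nat.one_le_two_pow
    nlinarith
  · rw [pow_add, hi, hc]
    have e : (2 : ℤ) ^ (t + 3) = 8 * 2 ^ t := by ring
    calc (B + m * 2 ^ (t + 3)) * (1 + c * 2 ^ (t + 3))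
        = B + (m + B * c) * 2 ^ (t + 3) + m * c * 2 ^ (t + 3) * 2 ^ (t + 3) := by ring
      _ = B + (m + B * c) * (8 * 2 ^ t) + m * c * 2 ^ (t + 3) * (8 * 2 ^ t) := by rw [e]
      _ = _ := by ring

/-! ### the chain -/

/-- one step of the pair `x, -3 ^ i x + r` -/
def stm (s : ℕ × ℤ) (b : Bool) : ℕ × ℤ :=
  if s.2 % 2 = 0 then (s.1, if b then (3 ^ s.1 + 3 * s.2 + 1) / 2 else s.2 / 2)
  else if b then (s.1 - 1, (s.2 + 3 ^ (s.1 - 1)) / 2) else (s.1 + 1, (3 * s.2 + 1) / 2)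

/-- the averaging operator -/
noncomputable def Pm (F : ℕ × ℤ → ℝ) (s : ℕ × ℤ) : ℝ := (F (stm s false) + F (stm s true)) / 2

theorem lvl (s : ℕ × ℤ) (b : Bool) : s.1 ≤ (stm s b).1 + 1 := by
  unfold stm
  split_ifs <;> simp <;> omega

theorem Tz_even {X Z : ℤ} (h : X = 2 * Z) : Tz 1 X = Z := by
  unfold Tz
  rw [if_pos (by omega)]; omega

theorem Tz_odd {X Z : ℤ} (h : 3 * X + 1 = 2 * Z) : Tz 1 X = Z := by
  unfold Tz
  rw [if_neg (by omega)]; omega

/-- one step of the pair -/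
theorem pair_m (t : ℕ) (Φ : ℤ → ℤ → ℝ)
    (hp : ∀ x y m m' : ℤ, Φ (x + m * 2 ^ t) (y + m' * 2 ^ t) = Φ x y) {i : ℕ} (hi : 1 ≤ i) (r : ℤ) :
    pm (t + 1) (fun v => Φ (Tz 1 v) (Tz 1 (-(3 ^ i) * v + r))) =
      (pm t (fun v => Φ v (-(3 ^ (stm (i, r) false).1) * v + (stm (i, r) false).2)) +
        pm t (fun v => Φ v (-(3 ^ (stm (i, r) true).1) * v + (stm (i, r) true).2))) / 2 := by
  have hper : ∀ s : ℕ × ℤ, Per t (fun v => Φ v (-(3 ^ s.1) * v + s.2)) := by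
    intro s x m
    have e : -(3 ^ s.1) * (x + m * 2 ^ t) + s.2 = (-(3 ^ s.1) * x + s.2) + (-(3 ^ s.1) * m) * 2 ^ t := by
      ring
    simp only
    rw [e, hp]
  obtain ⟨p, hp'⟩ : ∃ p, (3 : ℤ) ^ i = 2 * p + 1 := ⟨3 ^ i / 2, by have := three_pow_odd i; omega⟩
  rw [BA1.pm_two]
  congr 1
  congr 1
  · apply pm_congr
    intro u
    rw [Tz_even (Z := u) rfl]
    congr 1
    unfold stm
    rcases Int.emod_two_eq_zero_or_one r with hr | hr
    · obtain ⟨ρ, rfl⟩ : ∃ ρ, r = 2 * ρ := ⟨r / 2, by omega⟩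
      rw [if_pos hr]
      simp only [Bool.false_eq_true, if_false]
      rw [show 2 * ρ / 2 = ρ by omega]
      apply Tz_even
      ring
    · obtain ⟨ρ, rfl⟩ : ∃ ρ, r = 2 * ρ + 1 := ⟨r / 2, by omega⟩
      rw [if_neg (by simp only; omega)]
      simp only [Bool.false_eq_true, if_false]
      rw [show (3 * (2 * ρ + 1) + 1) / 2 = 3 * ρ + 2 by omega]
      apply Tz_odd
      rw [pow_succ]
      ring
  · rw [← pm_affine (hper (stm (i, r) true)) (a := 3) (by norm_num) 2]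
    apply pm_congr
    intro u
    rw [Tz_odd (X := 2 * u + 1) (Z := 3 * u + 2) (by ring)]
    congr 1
    unfold stm
    rcases Int.emod_two_eq_zero_or_one r with hr | hr
    · obtain ⟨ρ, rfl⟩ : ∃ ρ, r = 2 * ρ := ⟨r / 2, by omega⟩
      rw [if_pos hr]
      simp only [if_true]
      have e : (3 ^ i + 3 * (2 * ρ) + 1) / 2 = p + 3 * ρ + 1 := by rw [hp']; omega
      rw [e]
      apply Tz_odd
      rw [hp']
      ring
    · obtain ⟨ρ, rfl⟩ : ∃ ρ, r = 2 * ρ + 1 := ⟨r / 2, by omega⟩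
      rw [if_neg (by simp only; omega)]
      simp only [if_true]
      obtain ⟨j, rfl⟩ : ∃ j, i = j + 1 := ⟨i - 1, by omega⟩
      obtain ⟨q, hq⟩ : ∃ q, (3 : ℤ) ^ j = 2 * q + 1 := ⟨3 ^ j / 2, by have := three_pow_odd j; omega⟩
      have e : (2 * ρ + 1 + 3 ^ (j + 1 - 1)) / 2 = ρ + q + 1 := by
        rw [Nat.add_sub_cancel, hq]; omega
      rw [e, Nat.add_sub_cancel]
      apply Tz_even
      rw [pow_succ, hq]
      ring

/-- the product of the signs of the pair -/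
theorem sg_pairm (i : ℕ) (r v : ℤ) : sg v * sg (-(3 ^ i) * v + r) = Y (i, r) := by
  have h3 := three_pow_odd i
  obtain ⟨p, hp⟩ : ∃ p, (3 : ℤ) ^ i = 2 * p + 1 := ⟨3 ^ i / 2, by omega⟩
  have e1 : -(3 ^ i) * v + r = v + (r + (2 * (-(p * v) - v))) := by rw [hp]; ring
  rw [e1]
  rcases Int.emod_two_eq_zero_or_one r with hr | hr
  · rw [Pool.Agent.T6.H47.CL.Y_even hr, sg_even (by omega), sg_sq]
  · rw [Pool.Agent.T6.H47.CL.Y_odd hr, sg_odd (by omega), mul_neg, sg_sq]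

theorem Fn_sg (n : ℕ) (x : ℤ) : Fn n x = sg ((Tz 1)^[n] x) := by
  unfold Fn sg
  rcases Int.emod_two_eq_zero_or_one ((Tz 1)^[n] x) with h | h
  · rw [if_pos h, if_neg (by omega)]
  · rw [if_neg (by omega), if_pos h]

/-- the correlations in terms of the chain -/
theorem cmr_chain (n : ℕ) : ∀ (i : ℕ) (r : ℤ), n ≤ i → (Pm^[n] Y) (i, r) = cmr n i r := by
  have hcm : ∀ (n i : ℕ) (r : ℤ), cmr n i r = pm (n + 1) (fun x => Fn n x * Fn n (-(3 ^ i) * x + r)) := by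
    intro n i r; rfl
  induction n with
  | zero =>
    intro i r _
    rw [hcm, Function.iterate_zero, id]
    have : ∀ x : ℤ, Fn 0 x * Fn 0 (-(3 ^ i) * x + r) = Y (i, r) := by
      intro x
      rw [Fn_sg, Fn_sg, Function.iterate_zero, id, id, sg_pairm]
    rw [pm_congr this, pm_const]
  | succ n ih =>
    intro i r hi
    rw [hcm, Function.iterate_succ_apply']
    have e : ∀ x : ℤ, Fn (n + 1) x * Fn (n + 1) (-(3 ^ i) * x + r) =
        (fun x y => Fn n x * Fn n y) (Tz 1 x) (Tz 1 (-(3 ^ i) * x + r)) := by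
      intro x
      simp only [Fn_sg, Function.iterate_succ_apply]
    rw [pm_congr e, pair_m (n + 1) (fun x y => Fn n x * Fn n y) ?_ (by omega) r]
    · have h1 := lvl (i, r) false
      have h2 := lvl (i, r) true
      simp only at h1 h2
      rw [Pm]
      have e1 := ih (stm (i, r) false).1 (stm (i, r) false).2 (by omega)
      have e2 := ih (stm (i, r) true).1 (stm (i, r) true).2 (by omega)
      rw [hcm] at e1 e2
      have e1' : (Pm^[n] Y) (stm (i, r) false) = (Pm^[n] Y) ((stm (i, r) false).1, (stm (i, r) false).2) := rfl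
      have e2' : (Pm^[n] Y) (stm (i, r) true) = (Pm^[n] Y) ((stm (i, r) true).1, (stm (i, r) true).2) := rfl
      rw [e1', e2', e1, e2]
    · intro x y m m'
      simp only [Fn_sg]
      rw [sg_per (by norm_num) (by omega), sg_per (by norm_num) (by omega)]

/-- first and second moments of the sums of the signs of the chain -/
noncomputable def mM : ℕ → ℕ × ℤ → ℝ
  | 0, _ => 0
  | t + 1, s => Y s + (mM t (stm s false) + mM t (stm s true)) / 2

noncomputable def vM : ℕ → ℕ × ℤ → ℝ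
  | 0, _ => 0
  | t + 1, s => 1 + Y s * (mM t (stm s false) + mM t (stm s true)) + (vM t (stm s false) + vM t (stm s true)) / 2

theorem sum_perm {t Λ a : ℕ} (h : a + Λ ≤ t) (x y m m' : ℤ) :
    ∑ j ∈ range Λ, sg ((Tz 1)^[a + j] (x + m * 2 ^ t)) * sg ((Tz 1)^[a + j] (y + m' * 2 ^ t)) =
      ∑ j ∈ range Λ, sg ((Tz 1)^[a + j] x) * sg ((Tz 1)^[a + j] y) :=
  BA1.sum_per (by norm_num) h x y m m'

theorem block0m (Λ : ℕ) : ∀ (t i : ℕ) (r : ℤ) (b : ℝ), Λ ≤ t → Λ ≤ i →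
    pm t (fun v => (b + ∑ j ∈ range Λ, sg ((Tz 1)^[j] v) * sg ((Tz 1)^[j] (-(3 ^ i) * v + r))) ^ 2) =
      b ^ 2 + 2 * b * mM Λ (i, r) + vM Λ (i, r) := by
  induction Λ with
  | zero =>
    intro t i r b _ _
    simp only [range_zero, sum_empty, add_zero, mM, vM, mul_zero]
    exact pm_const t _
  | succ Λ ih =>
    intro t i r b ht hi
    obtain ⟨t', rfl⟩ : ∃ t', t = t' + 1 := ⟨t - 1, by omega⟩
    have ht' : Λ ≤ t' := by omega
    set Φ : ℤ → ℤ → ℝ := fun x y => ((b + Y (i, r)) + ∑ j ∈ range Λ, sg ((Tz 1)^[j] x) * sg ((Tz 1)^[j] y)) ^ 2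
      with hΦ
    have e : ∀ v : ℤ, (b + ∑ j ∈ range (Λ + 1), sg ((Tz 1)^[j] v) * sg ((Tz 1)^[j] (-(3 ^ i) * v + r))) ^ 2 =
        Φ (Tz 1 v) (Tz 1 (-(3 ^ i) * v + r)) := by
      intro v
      rw [hΦ]
      simp only
      rw [sum_range_succ', Function.iterate_zero, id, id, sg_pairm]
      congr 1
      rw [add_comm (∑ k ∈ range Λ, _) (Y (i, r)), ← add_assoc]
      rfl
    have h1 := lvl (i, r) false
    have h2 := lvl (i, r) true
    simp only at h1 h2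
    rw [pm_congr e, pair_m t' Φ ?_ (by omega) r]
    · rw [hΦ]
      simp only
      rw [ih t' _ _ _ ht' (by omega), ih t' _ _ _ ht' (by omega), mM, vM]
      have := Pool.Agent.T6.H47.CL.Y_sq (i, r)
      nlinarith
    · intro x y m m'
      rw [hΦ]
      simp only
      have h1 := sum_perm (t := t') (Λ := Λ) (a := 0) (by omega) x y m m'
      simp only [zero_add] at h1
      rw [h1]

theorem blockm (Λ : ℕ) (a : ℕ) : ∀ (t i : ℕ) (r : ℤ), a + Λ ≤ t → a + Λ ≤ i →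
    pm t (fun v => (∑ j ∈ range Λ, sg ((Tz 1)^[a + j] v) * sg ((Tz 1)^[a + j] (-(3 ^ i) * v + r))) ^ 2) =
      (Pm^[a] (vM Λ)) (i, r) := by
  induction a with
  | zero =>
    intro t i r ht hi
    have h1 := block0m Λ t i r 0 (by omega) (by omega)
    simp only [zero_add] at h1 ⊢
    rw [h1, Function.iterate_zero, id]
    ring
  | succ a ih =>
    intro t i r ht hi
    obtain ⟨t', rfl⟩ : ∃ t', t = t' + 1 := ⟨t - 1, by omega⟩
    set Φ : ℤ → ℤ → ℝ := fun x y => (∑ j ∈ range Λ, sg ((Tz 1)^[a + j] x) * sg ((Tz 1)^[a + j] y)) ^ 2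
      with hΦ
    have e : ∀ v : ℤ, (∑ j ∈ range Λ, sg ((Tz 1)^[a + 1 + j] v) * sg ((Tz 1)^[a + 1 + j] (-(3 ^ i) * v + r))) ^ 2 =
        Φ (Tz 1 v) (Tz 1 (-(3 ^ i) * v + r)) := by
      intro v
      rw [hΦ]
      simp only
      congr 1
      apply sum_congr rfl
      intro j _
      rw [show a + 1 + j = (a + j) + 1 by ring, Function.iterate_succ_apply, Function.iterate_succ_apply]
    have h1 := lvl (i, r) false
    have h2 := lvl (i, r) true
    simp only at h1 h2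
    rw [pm_congr e, pair_m t' Φ ?_ (by omega) r]
    · rw [hΦ]
      simp only
      rw [Function.iterate_succ_apply', Pm, ← ih t' _ _ (by omega) (by omega), ← ih t' _ _ (by omega) (by omega)]
    · intro x y m m'
      rw [hΦ]
      simp only
      rw [sum_perm (by omega)]

/-! ### the operator `Pm` -/

theorem Pm_add (F G : ℕ × ℤ → ℝ) (a b : ℝ) : ∀ (j : ℕ) (s : ℕ × ℤ),
    (Pm^[j] (fun s => a * F s + b * G s)) s = a * (Pm^[j] F) s + b * (Pm^[j] G) s := by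
  intro j
  induction j with
  | zero => intro s; rfl
  | succ j ih =>
    intro s
    rw [Function.iterate_succ_apply', Function.iterate_succ_apply', Function.iterate_succ_apply']
    simp only [Pm, ih]
    ring

theorem Pm_one : ∀ (j : ℕ) (s : ℕ × ℤ), (Pm^[j] (fun _ => (1 : ℝ))) s = 1 := by
  intro j
  induction j with
  | zero => intro s; rfl
  | succ j ih =>
    intro s
    rw [Function.iterate_succ_apply']
    simp only [Pm, ih]
    norm_num

theorem Pm_mono {F G : ℕ × ℤ → ℝ} {L : ℕ} (h : ∀ s : ℕ × ℤ, L ≤ s.1 → F s ≤ G s) : ∀ (j : ℕ) (s : ℕ × ℤ),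
    j + L ≤ s.1 → (Pm^[j] F) s ≤ (Pm^[j] G) s := by
  intro j
  induction j with
  | zero => intro s hs; exact h s (by omega)
  | succ j ih =>
    intro s hs
    rw [Function.iterate_succ_apply', Function.iterate_succ_apply']
    simp only [Pm]
    have h1 := lvl s false
    have h2 := lvl s true
    have h3 := ih (stm s false) (by omega)
    have h4 := ih (stm s true) (by omega)
    linarith

theorem Pm_sum (F : ℕ → ℕ × ℤ → ℝ) (j : ℕ) (s : ℕ × ℤ) : ∀ m : ℕ,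
    (Pm^[j] (fun s => ∑ l ∈ range m, F l s)) s = ∑ l ∈ range m, (Pm^[j] (F l)) s := by
  intro m
  induction m with
  | zero =>
    simp only [range_zero, sum_empty]
    have := Pm_add (fun _ => 1) (fun _ => 1) 0 0 j s
    simpa using this
  | succ m ih =>
    have h1 := Pm_add (fun s => ∑ l ∈ range m, F l s) (F m) 1 1 j s
    simp only [one_mul] at h1
    have e : (fun s => ∑ l ∈ range (m + 1), F l s) = fun s => ∑ l ∈ range m, F l s + F m s := by
      funext s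
      rw [sum_range_succ]
    rw [sum_range_succ, ← ih, ← h1, e]

theorem Pm_abs {F : ℕ × ℤ → ℝ} {M : ℝ} (h : ∀ s, |F s| ≤ M) : ∀ (j : ℕ) (s : ℕ × ℤ), |(Pm^[j] F) s| ≤ M := by
  intro j
  induction j with
  | zero => intro s; exact h s
  | succ j ih =>
    intro s
    rw [Function.iterate_succ_apply']
    simp only [Pm]
    have h1 := abs_le.1 (ih (stm s false))
    have h2 := abs_le.1 (ih (stm s true))
    rw [abs_le]
    constructor <;> linarith

theorem Pm_nonneg {F : ℕ × ℤ → ℝ} (h : ∀ s, 0 ≤ F s) : ∀ (j : ℕ) (s : ℕ × ℤ), 0 ≤ (Pm^[j] F) s := by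
  intro j
  induction j with
  | zero => intro s; exact h s
  | succ j ih =>
    intro s
    rw [Function.iterate_succ_apply']
    simp only [Pm]
    have h1 := ih (stm s false)
    have h2 := ih (stm s true)
    linarith

/-! ### second moments -/

section

variable {n : ℕ} {β : ℕ → ℝ}

/-- the local time -/
noncomputable def KK (β : ℕ → ℝ) (t : ℕ) (s : ℕ × ℤ) : ℝ := ∑ j ∈ range t, (Pm^[j] (fun s => β s.1)) s

theorem KK_nonneg (hβ0 : ∀ i, 0 ≤ β i) (t : ℕ) (s : ℕ × ℤ) : 0 ≤ KK β t s :=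
  sum_nonneg fun j _ => Pm_nonneg (fun s => hβ0 s.1) j s

theorem KK_succ (t : ℕ) (s : ℕ × ℤ) : KK β (t + 1) s = β s.1 + (KK β t (stm s false) + KK β t (stm s true)) / 2 := by
  unfold KK
  rw [sum_range_succ', Function.iterate_zero, id, ← sum_add_distrib, sum_div, add_comm]
  congr 1
  apply sum_congr rfl
  intro j _
  rw [Function.iterate_succ_apply']
  rfl

theorem mM_sum : ∀ (t : ℕ) (s : ℕ × ℤ), mM t s = ∑ j ∈ range t, (Pm^[j] Y) s := by
  intro t
  induction t with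
  | zero => intro s; simp [mM]
  | succ t ih =>
    intro s
    rw [mM, ih, ih, sum_range_succ', Function.iterate_zero, id, ← sum_add_distrib, sum_div, add_comm]
    congr 1
    apply sum_congr rfl
    intro j _
    rw [Function.iterate_succ_apply']
    rfl

theorem late (hβ : ∀ (i : ℕ) (r : ℤ), |cmr n i r| ≤ β i) : ∀ (j : ℕ) (s : ℕ × ℤ), n + j ≤ s.1 →
    |(Pm^[n + j] Y) s| ≤ (Pm^[j] (fun s => β s.1)) s := by
  intro j
  induction j with
  | zero =>
    intro ⟨i, r⟩ hs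
    rw [add_zero, cmr_chain n i r (by simpa using hs)]
    exact hβ i r
  | succ j ih =>
    intro s hs
    rw [← add_assoc, Function.iterate_succ_apply', Function.iterate_succ_apply']
    simp only [Pm]
    have h1 := lvl s false
    have h2 := lvl s true
    have h3 := abs_le.1 (ih (stm s false) (by omega))
    have h4 := abs_le.1 (ih (stm s true) (by omega))
    rw [abs_le]
    constructor <;> linarith

theorem mM_le (hβ0 : ∀ i, 0 ≤ β i) (hβ : ∀ (i : ℕ) (r : ℤ), |cmr n i r| ≤ β i) (t : ℕ) (s : ℕ × ℤ) (hs : t ≤ s.1) :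
    |mM t s| ≤ n + KK β t s := by
  rw [mM_sum]
  refine (abs_sum_le_sum_abs _ _).trans ?_
  have hY : ∀ j : ℕ, |(Pm^[j] Y) s| ≤ 1 := fun j => Pm_abs (fun s => (Pool.Agent.T6.H47.CL.Y_abs s).le) j s
  rcases Nat.le_total t n with h | h
  · have h1 : ∑ j ∈ range t, |(Pm^[j] Y) s| ≤ t := by
      calc _ ≤ ∑ j ∈ range t, (1 : ℝ) := sum_le_sum fun j _ => hY j
        _ = t := by simp
    have h2 := KK_nonneg hβ0 t s
    have h3 : (t : ℝ) ≤ n := by exact_mod_cast h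
    linarith
  · obtain ⟨t', rfl⟩ := Nat.exists_eq_add_of_le h
    rw [sum_range_add]
    have h1 : ∑ j ∈ range n, |(Pm^[j] Y) s| ≤ n := by
      calc _ ≤ ∑ j ∈ range n, (1 : ℝ) := sum_le_sum fun j _ => hY j
        _ = n := by simp
    have h2 : ∑ j ∈ range t', |(Pm^[n + j] Y) s| ≤ KK β t' s := by
      apply sum_le_sum
      intro j hj
      rw [mem_range] at hj
      exact late hβ j s (by omega)
    have h3 : KK β t' s ≤ KK β (n + t') s := by
      unfold KK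
      apply sum_le_sum_of_subset_of_nonneg
      · intro j hj; rw [mem_range] at hj ⊢; omega
      · intro j _ _; exact Pm_nonneg (fun s => hβ0 s.1) j s
    linarith

theorem vM_le (hβ0 : ∀ i, 0 ≤ β i) (hβ : ∀ (i : ℕ) (r : ℤ), |cmr n i r| ≤ β i) : ∀ (t : ℕ) (s : ℕ × ℤ), t ≤ s.1 →
    vM t s ≤ t * (1 + 2 * n + 2 * KK β t s) := by
  intro t
  induction t with
  | zero => intro s _; rw [vM]; simp
  | succ t ih =>
    intro s hs
    rw [vM]
    have l1 := lvl s false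
    have l2 := lvl s true
    have h1 := ih (stm s false) (by omega)
    have h2 := ih (stm s true) (by omega)
    have h3 := KK_succ (β := β) t s
    have h4 := mM_le hβ0 hβ t (stm s false) (by omega)
    have h5 := mM_le hβ0 hβ t (stm s true) (by omega)
    have hb := hβ0 s.1
    have ht : (0 : ℝ) ≤ t := Nat.cast_nonneg t
    have h6 : Y s * (mM t (stm s false) + mM t (stm s true)) ≤ |mM t (stm s false)| + |mM t (stm s true)| := by
      refine (le_abs_self _).trans ?_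
      rw [abs_mul, Pool.Agent.T6.H47.CL.Y_abs, one_mul]
      exact abs_add_le _ _
    set A := KK β t (stm s false)
    set B := KK β t (stm s true)
    set D := KK β (t + 1) s
    have h8 : (t : ℝ) * (A + B) ≤ t * (2 * D) := mul_le_mul_of_nonneg_left (by linarith) ht
    push_cast
    nlinarith

/-! ### the potential -/

/-- waiting potential -/
noncomputable def Hm (i : ℕ) (r : ℤ) : ℝ :=
  if r % 2 = 1 then 0 else if i % 2 = 0 then 2 else if r % 4 = 2 then 1 else 3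

theorem Hm_le (i : ℕ) (r : ℤ) : Hm i r ≤ 3 := by unfold Hm; split_ifs <;> norm_num

theorem Hm_nonneg (i : ℕ) (r : ℤ) : 0 ≤ Hm i r := by unfold Hm; split_ifs <;> norm_num

theorem pow_mod (i : ℕ) : (i % 2 = 0 → (3 : ℤ) ^ i % 8 = 1) ∧ (i % 2 = 1 → (3 : ℤ) ^ i % 8 = 3) := by
  induction i with
  | zero => norm_num
  | succ i ih =>
    rw [pow_succ]
    constructor
    · intro h; have := ih.2 (by omega); omega
    · intro h; have := ih.1 (by omega); omega

theorem Hm_odd (i : ℕ) {r : ℤ} (h : r % 2 = 1) : Hm i r = 0 := by unfold Hm; rw [if_pos h]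

theorem Hm_ev {i : ℕ} (hi : i % 2 = 0) {r : ℤ} (h : r % 2 = 0) : Hm i r = 2 := by
  unfold Hm; rw [if_neg (by omega), if_pos hi]

theorem Hm_two {i : ℕ} (hi : i % 2 = 1) {r : ℤ} (h : r % 4 = 2) : Hm i r = 1 := by
  unfold Hm; rw [if_neg (by omega), if_neg (by omega), if_pos h]

theorem Hm_four {i : ℕ} (hi : i % 2 = 1) {r : ℤ} (h : r % 4 = 0) : Hm i r = 3 := by
  unfold Hm; rw [if_neg (by omega), if_neg (by omega), if_neg (by omega)]

theorem Hm_wait (i : ℕ) {r : ℤ} (hr : r % 2 = 0) :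
    Hm i (r / 2) + Hm i ((3 ^ i + 3 * r + 1) / 2) + 2 ≤ 2 * Hm i r := by
  obtain ⟨h0, h1⟩ := pow_mod i
  obtain ⟨ρ, rfl⟩ : ∃ ρ, r = 2 * ρ := ⟨r / 2, by omega⟩
  rw [show 2 * ρ / 2 = ρ by omega]
  rcases Nat.mod_two_eq_zero_or_one i with hi | hi
  · have h3 := h0 hi
    set z := ((3 : ℤ) ^ i + 3 * (2 * ρ) + 1) / 2 with hz
    have hz2 : z % 2 = (1 + ρ) % 2 := by omega
    rw [Hm_ev hi (r := 2 * ρ) (by omega)]
    rcases Int.emod_two_eq_zero_or_one ρ with h | h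
    · rw [Hm_ev hi h, Hm_odd i (r := z) (by omega)]; norm_num
    · rw [Hm_odd i h, Hm_ev hi (r := z) (by omega)]; norm_num
  · have h3 := h1 hi
    set z := ((3 : ℤ) ^ i + 3 * (2 * ρ) + 1) / 2 with hz
    have hz2 : z % 4 = (2 + 3 * ρ) % 4 := by omega
    rcases Int.emod_two_eq_zero_or_one ρ with h | h
    · rw [Hm_four hi (r := 2 * ρ) (by omega)]
      rcases (show ρ % 4 = 0 ∨ ρ % 4 = 2 by omega) with h4 | h4
      · rw [Hm_four hi h4, Hm_two hi (r := z) (by omega)]; norm_num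
      · rw [Hm_two hi h4, Hm_four hi (r := z) (by omega)]; norm_num
    · rw [Hm_odd i h, Hm_odd i (r := z) (by omega), Hm_two hi (r := 2 * ρ) (by omega)]; norm_num

/-- the potential -/
noncomputable def Ps (β φ : ℕ → ℝ) (s : ℕ × ℤ) : ℝ := φ s.1 + β s.1 * (1 + Hm s.1 s.2)

theorem Ps_step {φ : ℕ → ℝ} {m : ℝ} (hm : 0 ≤ m) (hβ0 : ∀ i, 0 ≤ β i)
    (hφ : ∀ i, 1 ≤ i → φ (i + 1) + φ (i - 1) - 2 * φ i + 4 * β (i + 1) + 4 * β (i - 1) ≤ 2 * m) (s : ℕ × ℤ)
    (hs : 1 ≤ s.1) : β s.1 + (Ps β φ (stm s false) + Ps β φ (stm s true)) / 2 ≤ Ps β φ s + m := by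
  obtain ⟨i, r⟩ := s
  simp only at hs
  unfold Ps stm
  rcases Int.emod_two_eq_zero_or_one r with hr | hr
  · simp only [hr, if_true, Bool.false_eq_true, if_false]
    have h1 := Hm_wait i hr
    have h2 := mul_le_mul_of_nonneg_left h1 (hβ0 i)
    nlinarith
  · have hr' : ¬ r % 2 = 0 := by omega
    simp only [hr', if_true, Bool.false_eq_true, if_false]
    have h1 := hφ i hs
    have h2 := mul_le_mul_of_nonneg_left (Hm_le (i + 1) ((3 * r + 1) / 2)) (hβ0 (i + 1))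
    have h3 := mul_le_mul_of_nonneg_left (Hm_le (i - 1) ((r + 3 ^ (i - 1)) / 2)) (hβ0 (i - 1))
    have h4 : Hm i r = 0 := by unfold Hm; rw [if_pos hr]
    rw [h4]
    nlinarith

theorem KK_pot {φ : ℕ → ℝ} {m : ℝ} (hm : 0 ≤ m) (hβ0 : ∀ i, 0 ≤ β i) (hφ0 : ∀ i, 0 ≤ φ i)
    (hφ : ∀ i, 1 ≤ i → φ (i + 1) + φ (i - 1) - 2 * φ i + 4 * β (i + 1) + 4 * β (i - 1) ≤ 2 * m) :
    ∀ (t : ℕ) (s : ℕ × ℤ), t ≤ s.1 → KK β t s ≤ Ps β φ s + m * t := by
  intro t
  induction t with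
  | zero =>
    intro s _
    have h1 := hφ0 s.1
    have h2 := mul_nonneg (hβ0 s.1) (show 0 ≤ 1 + Hm s.1 s.2 by have := Hm_nonneg s.1 s.2; linarith)
    unfold KK Ps
    simp only [range_zero, sum_empty, Nat.cast_zero, mul_zero, add_zero]
    linarith
  | succ t ih =>
    intro s hs
    rw [KK_succ]
    have l1 := lvl s false
    have l2 := lvl s true
    have h1 := ih (stm s false) (by omega)
    have h2 := ih (stm s true) (by omega)
    have h3 := Ps_step hm hβ0 hφ s (by omega)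
    push_cast
    linarith

/-- the local time -/
theorem KK_le {b : ℝ} (hb : 0 < b) (hb1 : b ≤ 1) (hβ0 : ∀ i, 0 ≤ β i) (hβ1 : ∀ i, β i ≤ 1)
    (hsum : ∀ a k : ℕ, ∑ j ∈ range k, β (a + j) ≤ ((k : ℝ) + 2 ^ n) * b) (i t : ℕ) (r : ℤ) (hi : 1 ≤ i) (hit : t ≤ i) :
    KK β t (i, r) ≤ 144 * (b * t + ((2 : ℝ) ^ n) ^ 2) := by
  set β' : ℕ → ℝ := fun j => 4 * β j / ((v j : ℝ) + 2) with hβ'
  have hcc : ∀ j, Pot.cc β' j = 4 * β j := by
    intro j
    unfold Pot.cc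
    rw [hβ']
    simp only
    rw [div_mul_cancel₀]
    positivity
  have hβ'0 : ∀ j, 0 ≤ β' j := fun j => by
    have := hβ0 j
    rw [hβ']; simp only; positivity
  set Q : ℝ := 4 * 2 ^ n with hQ
  have hw : ∀ a : ℕ, a ≤ i + 1 → ∀ k : ℕ, ∑ j ∈ range k, Pot.cc β' (a + j) ≤ b * (36 * k + Q) := by
    intro a _ k
    simp only [hcc]
    rw [← mul_sum]
    have h1 := hsum a k
    have h2 : (0 : ℝ) ≤ k := Nat.cast_nonneg k
    have h3 : 0 ≤ b * k := by positivity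
    rw [hQ]
    nlinarith
  have hφ : ∀ j, 1 ≤ j → Pot.phi β' b Q i (j + 1) + Pot.phi β' b Q i (j - 1) - 2 * Pot.phi β' b Q i j
      + 4 * β (j + 1) + 4 * β (j - 1) ≤ 2 * (144 * b) := by
    intro j hj
    have h1 := Pot.phi_drift (β := β') (s := b) (Q := Q) (i₀ := i) hβ'0 hj
    have h2 := hcc (j + 1)
    have h3 := hcc (j - 1)
    unfold Pot.cc at h2 h3
    rw [h2, h3] at h1
    exact h1
  have h1 := KK_pot (m := 144 * b) (by positivity) hβ0 (Pot.phi_nonneg hb.le hw hi) hφ t (i, r) hit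
  refine h1.trans ?_
  unfold Ps
  simp only
  have h2 : Pot.phi β' b Q i i = b * Q ^ 2 / 72 := by
    unfold Pot.phi
    rw [Nat.sub_self]
    have e1 : Pot.R1 β' i 0 = 0 := by unfold Pot.R1; simp
    have e2 : Pot.R2 β' i 0 = 0 := by unfold Pot.R2; simp
    rw [e1, e2]; ring
  rw [h2]
  have h3 : β i * (1 + Hm i r) ≤ 1 * 4 := by
    apply mul_le_mul (hβ1 i) (by have := Hm_le i r; linarith) (by have := Hm_nonneg i r; linarith) zero_le_one
  have h4 : (1 : ℝ) ≤ (2 : ℝ) ^ n := one_le_pow₀ (by norm_num)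
  have h5 : b * Q ^ 2 / 72 ≤ 1 * Q ^ 2 / 72 := by
    apply div_le_div_of_nonneg_right _ (by norm_num)
    exact mul_le_mul_of_nonneg_right hb1 (by positivity)
  rw [hQ] at h5 ⊢
  nlinarith

end

/-! ### the blocks -/

theorem pm_cs (t : ℕ) (f : ℤ → ℝ) : pm t (fun v => |f v|) ≤ √ (pm t (fun v => f v ^ 2)) := by
  apply Real.le_sqrt_of_sq_le
  have h1 : ∀ c : ℝ, 0 ≤ pm t (fun v => f v ^ 2) - 2 * c * pm t (fun v => |f v|) + c ^ 2 := by
    intro c
    have h2 : 0 ≤ pm t (fun v => (|f v| - c) ^ 2) := pm_nonneg fun v => sq_nonneg _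
    have h3 : pm t (fun v => (|f v| - c) ^ 2) = pm t (fun v => f v ^ 2) + (-(2 * c)) * pm t (fun v => |f v|) + c ^ 2 := by
      rw [← pm_mul]
      have h4 : pm t (fun v => (|f v| - c) ^ 2) = pm t (fun v => (f v ^ 2 + (-(2 * c)) * |f v|) + c ^ 2) := by
        apply pm_congr
        intro v
        have := sq_abs (f v)
        nlinarith
      rw [h4, pm_add, pm_add, pm_const]
    linarith
  have := h1 (pm t (fun v => |f v|))
  nlinarith

theorem blocks {n : ℕ} {β : ℕ → ℝ} (hβ0 : ∀ i, 0 ≤ β i) (hβ : ∀ (i : ℕ) (r : ℤ), |cmr n i r| ≤ β i)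
    {t Λ : ℕ} (hΛ : 1 ≤ Λ) (hΛt : Λ ≤ t) {i : ℕ} (hi : t ≤ i) (r : ℤ) :
    ∑ q ∈ range (t / Λ), pm t (fun v => |∑ j ∈ range Λ, sg ((Tz 1)^[q * Λ + j] v) *
      sg ((Tz 1)^[q * Λ + j] (-(3 ^ i) * v + r))|) ≤ t * √ ((1 + 2 * n) / Λ + 2 * KK β t (i, r) / t) := by
  set N := t / Λ with hN
  set KB := KK β t (i, r) with hKB
  have hKB0 : 0 ≤ KB := KK_nonneg hβ0 t _
  have hNΛ : N * Λ ≤ t := Nat.div_mul_le_self t Λ
  have hNΛr : (N : ℝ) * Λ ≤ t := by exact_mod_cast hNΛ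
  have hΛr : (0 : ℝ) < Λ := by exact_mod_cast hΛ
  have htr : (0 : ℝ) < t := by exact_mod_cast (show 0 < t by omega)
  set W : ℕ → ℝ := fun q => pm t (fun v => (∑ j ∈ range Λ, sg ((Tz 1)^[q * Λ + j] v) *
      sg ((Tz 1)^[q * Λ + j] (-(3 ^ i) * v + r))) ^ 2) with hW
  have hW0 : ∀ q, 0 ≤ W q := fun q => pm_nonneg fun v => sq_nonneg _
  have h1 : ∀ q ∈ range N, pm t (fun v => |∑ j ∈ range Λ, sg ((Tz 1)^[q * Λ + j] v) *
      sg ((Tz 1)^[q * Λ + j] (-(3 ^ i) * v + r))|) ≤ √ (W q) := fun q _ => pm_cs t _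
  have h2 : ∀ q ∈ range N, W q ≤ Λ * (1 + 2 * n) + 2 * Λ * ∑ j ∈ range Λ, (Pm^[q * Λ + j] (fun s => β s.1)) (i, r) := by
    intro q hq
    rw [mem_range] at hq
    have h5 : q * Λ + Λ ≤ t := by
      calc q * Λ + Λ = (q + 1) * Λ := by ring
        _ ≤ N * Λ := Nat.mul_le_mul_right _ hq
        _ ≤ t := hNΛ
    have b0 : W q = (Pm^[q * Λ] (vM Λ)) (i, r) := blockm Λ (q * Λ) t i r h5 (by omega)
    have b1 := Pm_mono (F := vM Λ) (L := Λ)
      (G := fun s => ((Λ : ℝ) * (1 + 2 * n)) * (fun _ => (1 : ℝ)) s + (2 * Λ) * KK β Λ s) (fun s hs => by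
        have := vM_le hβ0 hβ Λ s hs
        simp only
        linarith) (q * Λ) (i, r) (by simp only; omega)
    rw [Pm_add (fun _ => (1 : ℝ)) (fun s => KK β Λ s), Pm_one] at b1
    have b2 : (Pm^[q * Λ] (fun s => KK β Λ s)) (i, r) = ∑ j ∈ range Λ, (Pm^[q * Λ + j] (fun s => β s.1)) (i, r) := by
      unfold KK
      rw [Pm_sum (fun j s => (Pm^[j] (fun s => β s.1)) s)]
      apply sum_congr rfl
      intro j _
      rw [Function.iterate_add_apply]
    rw [b2] at b1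
    rw [b0]
    linarith
  have hsum : ∀ M : ℕ, ∑ q ∈ range M, ∑ j ∈ range Λ, (Pm^[q * Λ + j] (fun s => β s.1)) (i, r)
      = ∑ j ∈ range (M * Λ), (Pm^[j] (fun s => β s.1)) (i, r) := by
    intro M
    induction M with
    | zero => simp
    | succ M ih => rw [sum_range_succ, ih, show (M + 1) * Λ = M * Λ + Λ by ring, sum_range_add]
  have h3 : ∑ q ∈ range N, W q ≤ N * (Λ * (1 + 2 * n)) + 2 * Λ * KB := by
    refine (sum_le_sum h2).trans ?_
    rw [sum_add_distrib, sum_const, card_range, nsmul_eq_mul, ← mul_sum, hsum]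
    have : ∑ j ∈ range (N * Λ), (Pm^[j] (fun s => β s.1)) (i, r) ≤ KB := by
      rw [hKB]
      unfold KK
      apply sum_le_sum_of_subset_of_nonneg
      · intro j hj; rw [mem_range] at hj ⊢; omega
      · intro j _ _; exact Pm_nonneg (fun s => hβ0 s.1) j _
    have := mul_le_mul_of_nonneg_left this (show (0 : ℝ) ≤ 2 * Λ by positivity)
    linarith
  have h4 : ∑ q ∈ range N, √ (W q) ≤ t * √ ((1 + 2 * n) / Λ + 2 * KB / t) := by
    have c1 : (∑ q ∈ range N, √ (W q)) ^ 2 ≤ N * ∑ q ∈ range N, W q := by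
      have e1 := sq_sum_le_card_mul_sum_sq (s := range N) (f := fun q => √ (W q))
      rw [card_range] at e1
      refine e1.trans (le_of_eq ?_)
      congr 1
      exact sum_congr rfl fun q _ => Real.sq_sqrt (hW0 q)
    have c2 : (N : ℝ) * ∑ q ∈ range N, W q ≤ t ^ 2 * ((1 + 2 * n) / Λ + 2 * KB / t) := by
      have hN0 : (0 : ℝ) ≤ N := Nat.cast_nonneg N
      have d1 := mul_le_mul_of_nonneg_left h3 hN0
      have d2 : (N : ℝ) * (N * (Λ * (1 + 2 * n)) + 2 * Λ * KB)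
          = (N * Λ) * (N * Λ) * ((1 + 2 * n) / Λ) + 2 * (N * Λ) * KB := by field_simp
      have d3 : (t : ℝ) ^ 2 * ((1 + 2 * n) / Λ + 2 * KB / t) = t * t * ((1 + 2 * n) / Λ) + 2 * t * KB := by
        field_simp
      have d4 : ((N : ℝ) * Λ) * (N * Λ) ≤ t * t := mul_le_mul hNΛr hNΛr (by positivity) htr.le
      have d5 := mul_le_mul_of_nonneg_right d4 (show (0 : ℝ) ≤ (1 + 2 * n) / Λ by positivity)
      have d6 : 2 * ((N : ℝ) * Λ) * KB ≤ 2 * t * KB := mul_le_mul_of_nonneg_right (by linarith) hKB0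
      rw [d3]
      rw [d2] at d1
      linarith
    have c3 : ∑ q ∈ range N, √ (W q) ≤ √ (t ^ 2 * ((1 + 2 * n) / Λ + 2 * KB / t)) :=
      Real.le_sqrt_of_sq_le (c1.trans c2)
    rwa [Real.sqrt_mul (by positivity), Real.sqrt_sq htr.le] at c3
  exact (sum_le_sum h1).trans h4

end FM2

open FM2 BalD Filter in
/-- **FM2.** -/
theorem balm (h : S_B0M) : S_BALM := by
  intro C
  obtain ⟨n0, h0⟩ := h (2 * C + 2)
  obtain ⟨C0, hC0d⟩ : ∃ C0 : ℝ, C0 = 144 := ⟨_, rfl⟩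
  have hC0 : 0 < C0 := by rw [hC0d]; norm_num
  have hev : ∀ᶠ t : ℕ in atTop, (256 * Real.log t ^ 2 : ℝ) ≤ (t : ℝ) ^ (1 / 8 : ℝ) ∧
      (16 * C0 * Real.log t ^ (2 * C) : ℝ) ≤ (t : ℝ) ^ (3 / 4 : ℝ) ∧
      16 ≤ Real.log t ∧ 16 * (n0 + 1 : ℝ) ≤ Real.log t ∧ 4 * C0 * 16 ^ (2 * C + 2) ≤ Real.log t ∧ 2 ≤ t := by
    filter_upwards [ev1, ev2 (16 * C0) (2 * C), ev3 16, ev3 (16 * (n0 + 1 : ℝ)), ev3 (4 * C0 * 16 ^ (2 * C + 2)),
      eventually_ge_atTop 2] with t h1 h2 h3 h4 h5 h6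
    exact ⟨h1, h2, h3, h4, h5, h6⟩
  obtain ⟨t0, ht0⟩ := eventually_atTop.1 hev
  refine ⟨2, max t0 2, by norm_num, le_max_right _ _, ?_⟩
  intro t Λ ht hΛ hΛt A A' hAA c c'
  obtain ⟨g1, g2, g3, g4, g5, g6⟩ := ht0 t ((le_max_left _ _).trans ht)
  have ht1 : 1 ≤ t := by omega
  have htr : (0 : ℝ) < t := by exact_mod_cast ht1
  have hL : 0 < Real.log t := by linarith
  set n := Nat.log 2 t / 8 with hn
  have hn1 : Real.log t / 16 ≤ (n : ℝ) := le_n ht1 g3
  have hn2 : 4 * (n : ℝ) ≤ Real.log t := n_le ht1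
  have hnn0 : n0 + 1 ≤ n := by
    have : ((n0 + 1 : ℕ) : ℝ) ≤ n := by push_cast; linarith
    exact_mod_cast this
  obtain ⟨β, hβ0, hβ1, hβ, hβs⟩ := h0 n (by omega)
  have hnr : (1 : ℝ) ≤ n := by exact_mod_cast (by omega : 1 ≤ n)
  have hnr0 : (0 : ℝ) < n := by linarith
  -- the level
  have hA2 : A % 2 = 1 := by
    rcases Int.emod_two_eq_zero_or_one A with h | h
    · exfalso
      have : (A * A') % 2 = 0 := by rw [Int.mul_emod, h]; simp
      omega
    · exact h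
  have hA'2 : A' % 2 = 1 := by
    rcases Int.emod_two_eq_zero_or_one A' with h | h
    · exfalso
      have : (A * A') % 2 = 0 := by rw [Int.mul_emod, h]; simp
      omega
    · exact h
  obtain ⟨Ai, hAi⟩ : ∃ Ai : ℤ, ∃ m : ℤ, A * Ai = 1 + m * 2 ^ (t + 3) := by
    have hco : IsCoprime A ((2 : ℤ) ^ (t + 3)) := by
      apply IsCoprime.pow_right
      rw [Int.isCoprime_iff_gcd_eq_one, Int.gcd_comm]
      rw [← Int.isCoprime_iff_gcd_eq_one]
      exact (Int.isCoprime_iff_gcd_eq_one.2 (by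
        rw [Int.gcd_comm]
        have : A.natAbs % 2 = 1 := by omega
        rw [Int.gcd]
        simpa using (Nat.coprime_two_right.2 (Nat.odd_iff.2 this)))).symm.symm
    obtain ⟨u, w, huw⟩ := hco
    exact ⟨u, -w, by linarith⟩
  obtain ⟨m0, hm0⟩ := hAi
  have hB : (-(A' * Ai)) % 8 = 1 ∨ (-(A' * Ai)) % 8 = 3 := by
    have h8 : (A * Ai) % 8 = 1 := by
      rw [hm0, pow_add]
      have : m0 * ((2 : ℤ) ^ t * 2 ^ 3) = 8 * (m0 * 2 ^ t) := by ring
      rw [this]; omega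
    have hAo : A % 8 = 1 ∨ A % 8 = 3 ∨ A % 8 = 5 ∨ A % 8 = 7 := by omega
    have hAio : Ai % 8 = 0 ∨ Ai % 8 = 1 ∨ Ai % 8 = 2 ∨ Ai % 8 = 3 ∨ Ai % 8 = 4 ∨ Ai % 8 = 5 ∨ Ai % 8 = 6 ∨ Ai % 8 = 7 := by omega
    have hA'o : A' % 8 = 1 ∨ A' % 8 = 3 ∨ A' % 8 = 5 ∨ A' % 8 = 7 := by omega
    have e1 : (A * Ai) % 8 = ((A % 8) * (Ai % 8)) % 8 := Int.mul_emod _ _ _
    have e2 : (A' * Ai) % 8 = ((A' % 8) * (Ai % 8)) % 8 := Int.mul_emod _ _ _
    have e3 : (A * A') % 8 = ((A % 8) * (A' % 8)) % 8 := Int.mul_emod _ _ _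
    rw [h8] at e1
    rcases hAo with h | h | h | h <;> rcases hA'o with h' | h' | h' | h' <;> rw [h, h'] at e3 <;>
      rcases hAio with k | k | k | k | k | k | k | k <;> rw [h, k] at e1 <;> rw [h', k] at e2 <;>
      first
        | (exfalso; omega)
        | omega
  obtain ⟨i, hit, m1, hm1⟩ := pow_exists_ge hB t
  -- `A' v + c' = - 3 ^ i (A v + c) + r` modulo `2 ^ t`
  set r : ℤ := c' + 3 ^ i * c with hr
  have e0 : ∀ v : ℤ, A' * v + c' = (-(3 ^ i) * (A * v + c) + r) + (-(A' * v * m0 * 8) + A * v * m1) * 2 ^ t := by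
    intro v
    rw [hr, hm1]
    have e1 : A' * (A * Ai) = A' * (1 + m0 * 2 ^ (t + 3)) := by rw [hm0]
    have e2 : (2 : ℤ) ^ (t + 3) = 8 * 2 ^ t := by ring
    rw [e2] at e1
    linear_combination (-v) * e1
  have e1 : ∑ q ∈ range (t / Λ), pm t (fun v => |∑ j ∈ range Λ, sg ((Tz 1)^[q * Λ + j] (A * v + c)) *
      sg ((Tz 1)^[q * Λ + j] (A' * v + c'))|)
      = ∑ q ∈ range (t / Λ), pm t (fun v => |∑ j ∈ range Λ, sg ((Tz 1)^[q * Λ + j] v) *
      sg ((Tz 1)^[q * Λ + j] (-(3 ^ i) * v + r))|) := by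
    apply Finset.sum_congr rfl
    intro q hq
    rw [Finset.mem_range] at hq
    have hq' : q * Λ + Λ ≤ t := by
      have h1 : (q + 1) * Λ ≤ t / Λ * Λ := Nat.mul_le_mul_right _ hq
      have h2 := Nat.div_mul_le_self t Λ
      linarith
    set Φ : ℤ → ℝ := fun v => |∑ j ∈ range Λ, sg ((Tz 1)^[q * Λ + j] v) *
      sg ((Tz 1)^[q * Λ + j] (-(3 ^ i) * v + r))| with hΦ
    have hper : Per t Φ := by
      intro x m
      rw [hΦ]
      simp only
      have e : -(3 ^ i) * (x + m * 2 ^ t) + r = (-(3 ^ i) * x + r) + (-(3 ^ i) * m) * 2 ^ t := by ring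
      rw [e, sum_perm hq']
    rw [← pm_affine hper hA2 c]
    apply pm_congr
    intro v
    rw [hΦ]
    simp only
    have h3 := sum_perm (t := t) (Λ := Λ) (a := q * Λ) hq' (A * v + c) (-(3 ^ i) * (A * v + c) + r) 0
      (-(A' * v * m0 * 8) + A * v * m1)
    rw [zero_mul, add_zero, ← e0 v] at h3
    rw [h3]
  rw [e1]
  refine (blocks hβ0 hβ hΛ hΛt hit r).trans ?_
  -- the potential
  have e3 := KK_le (n := n) (b := 1 / (n : ℝ) ^ (2 * C + 2)) (by positivity)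
    (by rw [div_le_one (by positivity)]; exact one_le_pow₀ hnr) hβ0 hβ1
    (fun a k => by rw [mul_one_div]; exact hβs a k) i t r (by omega) hit
  rw [← hC0d] at e3
  set KB := KK β t (i, r) with hKB
  have hb1 : 1 / (n : ℝ) ^ (2 * C + 2) ≤ 16 ^ (2 * C + 2) / Real.log t ^ (2 * C + 2) := by
    rw [div_le_div_iff₀ (by positivity) (by positivity), one_mul, ← mul_pow]
    apply pow_le_pow_left₀ hL.le
    linarith
  have h19 : ((2 : ℝ) ^ n) ^ 2 ≤ 4 * (t : ℝ) ^ (1 / 4 : ℝ) := by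
    have h18 := two_pow_le ht1
    rw [← hn] at h18
    calc ((2 : ℝ) ^ n) ^ 2 ≤ ((t : ℝ) ^ (1 / 8 : ℝ)) ^ 2 :=
          pow_le_pow_left₀ (by positivity) h18 2
      _ = (t : ℝ) ^ (1 / 8 : ℝ) * (t : ℝ) ^ (1 / 8 : ℝ) := by ring
      _ = (t : ℝ) ^ (1 / 4 : ℝ) := by
          rw [← Real.rpow_add htr]; norm_num
      _ ≤ 4 * (t : ℝ) ^ (1 / 4 : ℝ) := by
          have : 0 ≤ (t : ℝ) ^ (1 / 4 : ℝ) := by positivity
          linarith
  have h20 : (t : ℝ) ^ (1 / 4 : ℝ) = t / (t : ℝ) ^ (3 / 4 : ℝ) := by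
    rw [eq_div_iff (by positivity), ← Real.rpow_add htr]; norm_num
  have h21 : 1 / (t : ℝ) ^ (3 / 4 : ℝ) ≤ 1 / (16 * C0 * Real.log t ^ (2 * C)) :=
    one_div_le_one_div_of_le (by positivity) g2
  have h22 : 2 * KB / t ≤ 1 / Real.log t ^ (2 * C) := by
    have a1 : KB ≤ C0 * (16 ^ (2 * C + 2) / Real.log t ^ (2 * C + 2) * t + 4 * (t / (t : ℝ) ^ (3 / 4 : ℝ))) := by
      refine e3.trans (mul_le_mul_of_nonneg_left ?_ hC0.le)
      rw [← h20]
      have := mul_le_mul_of_nonneg_right hb1 htr.le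
      linarith
    have a2 : 2 * KB / t ≤ 2 * C0 * (16 ^ (2 * C + 2) / Real.log t ^ (2 * C + 2)) + 8 * C0 * (1 / (t : ℝ) ^ (3 / 4 : ℝ)) := by
      rw [div_le_iff₀ htr]
      calc 2 * KB ≤ 2 * (C0 * (16 ^ (2 * C + 2) / Real.log t ^ (2 * C + 2) * t + 4 * (t / (t : ℝ) ^ (3 / 4 : ℝ)))) := by linarith
        _ = _ := by ring
    have a3 : 8 * C0 * (1 / (t : ℝ) ^ (3 / 4 : ℝ)) ≤ 1 / 2 * (1 / Real.log t ^ (2 * C)) := by
      calc 8 * C0 * (1 / (t : ℝ) ^ (3 / 4 : ℝ)) ≤ 8 * C0 * (1 / (16 * C0 * Real.log t ^ (2 * C))) :=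
            mul_le_mul_of_nonneg_left h21 (by positivity)
        _ = _ := by field_simp; norm_num
    have a4 : 2 * C0 * (16 ^ (2 * C + 2) / Real.log t ^ (2 * C + 2)) ≤ 1 / 2 * (1 / Real.log t ^ (2 * C)) := by
      have b1 : Real.log t ^ (2 * C + 2) = Real.log t ^ (2 * C) * Real.log t ^ 2 := by ring
      have b2 : 4 * C0 * 16 ^ (2 * C + 2) ≤ Real.log t ^ 2 := by nlinarith
      rw [b1]
      have b3 : 2 * C0 * (16 ^ (2 * C + 2) / (Real.log t ^ (2 * C) * Real.log t ^ 2))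
          = (4 * C0 * 16 ^ (2 * C + 2)) / Real.log t ^ 2 * (1 / 2 * (1 / Real.log t ^ (2 * C))) := by
        field_simp; ring
      rw [b3]
      have b4 : (4 * C0 * 16 ^ (2 * C + 2)) / Real.log t ^ 2 ≤ 1 := (div_le_one (by positivity)).2 b2
      calc _ ≤ 1 * (1 / 2 * (1 / Real.log t ^ (2 * C))) := mul_le_mul_of_nonneg_right b4 (by positivity)
        _ = _ := one_mul _
    linarith
  have hΛr : (0 : ℝ) < Λ := by exact_mod_cast hΛ
  have h23 : √ ((1 + 2 * n) / Λ + 2 * KB / t) ≤ 2 * √ (Real.log t / Λ) + 1 / Real.log t ^ C := by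
    have c1 : (1 + 2 * (n : ℝ)) / Λ ≤ 2 * √ (Real.log t / Λ) * (2 * √ (Real.log t / Λ)) := by
      have : 2 * √ (Real.log t / Λ) * (2 * √ (Real.log t / Λ)) = 4 * (√ (Real.log t / Λ) * √ (Real.log t / Λ)) := by ring
      rw [this, Real.mul_self_sqrt (by positivity), ← mul_div_assoc]
      apply div_le_div_of_nonneg_right _ hΛr.le
      linarith
    have c2 : 1 / Real.log t ^ (2 * C) = 1 / Real.log t ^ C * (1 / Real.log t ^ C) := by
      rw [div_mul_div_comm, one_mul, ← pow_add]; congr 2; ring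
    apply Real.sqrt_le_iff.2
    refine ⟨by positivity, ?_⟩
    have c3 : 0 ≤ 2 * √ (Real.log t / Λ) * (1 / Real.log t ^ C) := by positivity
    nlinarith
  exact mul_le_mul_of_nonneg_left h23 htr.le

end Pool.Agent.KS6_24.ST
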