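import Pool.Agent.KS6_24.ST.FGDefs
import Pool.Agent.KS6_24.ST.FM2
import Pool.Agent.KS6_24.ST.B0

/-!
PROJECT FG, job FG2: balance of the pair `A 3 ^ i v + c`, `B 3 ^ j v + c'` (helper12).
-/

set_option autoImplicit false

namespace Pool.Agent.KS6_24.ST

open Pool.Agent.H499R2.CO Pool.Agent.Y965.SI Finset Pool.Agent.KS6_24.LN Pool.Agent.KS6_24.LN.TW

open Pool.Agent.T6.H47.CL (Y al kb kb_zero_level kb_zero kb_succ level_even level_odd)

namespace FG2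

/-- division modulo a power of two -/
theorem quot {M M' : ℤ} (h : M % 2 = 1) (h' : M' % 2 = 1) (t : ℕ) :
    ∃ Q m : ℤ, Q % 8 = (M * M') % 8 ∧ M' = M * Q + m * 2 ^ t := by
  obtain ⟨Ai, m0, hm0⟩ : ∃ Ai : ℤ, ∃ m : ℤ, M * Ai = 1 + m * 2 ^ (t + 3) := by
    have hco : IsCoprime M ((2 : ℤ) ^ (t + 3)) := by
      apply IsCoprime.pow_right
      exact (Int.isCoprime_iff_gcd_eq_one.2 (by
        rw [Int.gcd_comm]
        have : M.natAbs % 2 = 1 := by omega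
        rw [Int.gcd]
        simpa using (Nat.coprime_two_right.2 (Nat.odd_iff.2 this)).symm))
    obtain ⟨u, w, huw⟩ := hco
    exact ⟨u, -w, by linarith⟩
  refine ⟨M' * Ai, -(M' * m0 * 8), ?_, ?_⟩
  · have h8 : (M * Ai) % 8 = 1 := by
      rw [hm0, pow_add]
      have : m0 * ((2 : ℤ) ^ t * 2 ^ 3) = 8 * (m0 * 2 ^ t) := by ring
      rw [this]; omega
    have hAo : M % 8 = 1 ∨ M % 8 = 3 ∨ M % 8 = 5 ∨ M % 8 = 7 := by omega
    have hAio : Ai % 8 = 0 ∨ Ai % 8 = 1 ∨ Ai % 8 = 2 ∨ Ai % 8 = 3 ∨ Ai % 8 = 4 ∨ Ai % 8 = 5 ∨ Ai % 8 = 6 ∨ Ai % 8 = 7 := by omega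
    have e1 : (M * Ai) % 8 = ((M % 8) * (Ai % 8)) % 8 := Int.mul_emod _ _ _
    have hMA : Ai % 8 = M % 8 := by
      rw [h8] at e1
      rcases hAo with h | h | h | h <;> rcases hAio with k | k | k | k | k | k | k | k <;> rw [h, k] at e1 <;>
        first
          | (exfalso; omega)
          | omega
    rw [Int.mul_emod M' Ai, hMA, ← Int.mul_emod, mul_comm]
  · have e2 : (2 : ℤ) ^ (t + 3) = 8 * 2 ^ t := by ring
    rw [e2] at hm0
    linear_combination (-M') * hm0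

/-- the levels in the window -/
theorem window_v {M M' : ℤ} {t k0 : ℕ} (m : ℤ) (hM : M' = M * 3 ^ k0 + m * 2 ^ t)
    (hs : ∀ w u : ℕ, w ≤ t → ((2 : ℤ) ^ u ∣ M - M' * 3 ^ w ∨ (2 : ℤ) ^ u ∣ M * 3 ^ w - M') → u ^ 16 ≤ t) (ht : 2 ≤ t)
    {k : ℕ} (h1 : k ≤ k0 + t) (h2 : k0 ≤ k + t) : v k ^ 16 ≤ t := by
  obtain ⟨u, hu⟩ : ∃ u, u = min (v k) t := ⟨_, rfl⟩
  have hd : (2 : ℤ) ^ u ∣ 3 ^ k - 1 := (pow_dvd_pow 2 (by omega)).trans v_dvd
  have hdt : (2 : ℤ) ^ u ∣ 2 ^ t := pow_dvd_pow 2 (by omega)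
  have hu16 : u ^ 16 ≤ t := by
    rcases Nat.le_total k0 k with h | h
    · obtain ⟨w, rfl⟩ := Nat.exists_eq_add_of_le h
      apply hs w u (by omega)
      left
      have e : M - M' * 3 ^ w = (3 ^ (k0 + w) - 1) * (-M) + 2 ^ t * (-(m * 3 ^ w)) := by rw [hM, pow_add]; ring
      rw [e]
      exact dvd_add (Dvd.dvd.mul_right hd _) (Dvd.dvd.mul_right hdt _)
    · obtain ⟨w, rfl⟩ := Nat.exists_eq_add_of_le h
      apply hs w u (by omega)
      right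
      have e : M * 3 ^ w - M' = (3 ^ k - 1) * (-(M * 3 ^ w)) + 2 ^ t * (-m) := by rw [hM, pow_add]; ring
      rw [e]
      exact dvd_add (Dvd.dvd.mul_right hd _) (Dvd.dvd.mul_right hdt _)
  have hut : u < t := by
    by_contra hcon
    have : u = t := by omega
    rw [this] at hu16
    have h3 : t ^ 2 ≤ t ^ 16 := Nat.pow_le_pow_right (by omega) (by norm_num)
    nlinarith
  have : u = v k := by omega
  rw [← this]; exact hu16

/-- only the levels in the window matter -/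
theorem kb_congr {β β' : ℕ → ℝ} : ∀ (j i : ℕ) (r : ℤ), (∀ k, k ≤ i + j → i ≤ k + j → β k = β' k) →
    kb β j (i, r) = kb β' j (i, r) := by
  intro j
  induction j with
  | zero =>
    intro i r h
    rcases Nat.eq_zero_or_pos i with rfl | hi
    · rw [kb_zero_level, kb_zero_level]
    · rw [kb_zero β hi, kb_zero β' hi]; exact h i (by omega) (by omega)
  | succ j ih =>
    intro i r h
    rcases Nat.eq_zero_or_pos i with rfl | hi
    · rw [kb_zero_level, kb_zero_level]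
    · rw [kb_succ β hi, kb_succ β' hi]
      have key : ∀ b, kb β j (step (i, r) b) = kb β' j (step (i, r) b) := by
        intro b
        have h1 : (step (i, r) b).1 ≤ i + 1 ∧ i ≤ (step (i, r) b).1 + 1 := by
          rcases Int.emod_two_eq_zero_or_one r with hr | hr
          · obtain ⟨e1, e2⟩ := level_even (i := i) hr
            cases b
            · rw [e1]; omega
            · rw [e2]; omega
          · obtain ⟨e1, e2⟩ := level_odd hi hr
            cases b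
            · rw [e1]; omega
            · rw [e2]; omega
        exact ih (step (i, r) b).1 (step (i, r) b).2 fun k h2 h3 => h k (by omega) (by omega)
      rw [key, key]

/-- the killed local time -/
theorem kb_bound {n : ℕ} {β : ℕ → ℝ} {b : ℝ} (hb : 0 < b) (hb1 : b ≤ 1) (hβ0 : ∀ i, 0 ≤ β i) (hβ1 : ∀ i, β i ≤ 1)
    (hsum : ∀ a k : ℕ, ∑ j ∈ range k, β (a + j) ≤ ((k : ℝ) + 2 ^ n) * b) {k0 t K0 : ℕ} (hk0 : 1 ≤ k0)
    (hv : ∀ k, k ≤ k0 + t → k0 ≤ k + t → v k ≤ K0) (hkt : t < k0) (r : ℤ) :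
    ∑ j ∈ range t, kb β j (k0, r) ≤ 144 * (√ b * t + ((2 : ℝ) ^ n + (4 + K0) ^ 2) ^ 2) := by
  classical
  set β' : ℕ → ℝ := fun k => if k ≤ k0 + t ∧ k0 ≤ k + t then β k else 0 with hβ'
  have e1 : ∑ j ∈ range t, kb β j (k0, r) = ∑ j ∈ range t, kb β' j (k0, r) := by
    apply sum_congr rfl
    intro j hj
    rw [mem_range] at hj
    apply kb_congr
    intro k h1 h2
    rw [hβ']
    simp only
    rw [if_pos ⟨by omega, by omega⟩]
  rw [e1]
  have hβ'0 : ∀ i, 0 ≤ β' i := by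
    intro i; rw [hβ']; simp only; split_ifs
    · exact hβ0 i
    · exact le_rfl
  have hβ'le : ∀ i, β' i ≤ β i := by
    intro i; rw [hβ']; simp only; split_ifs
    · exact le_rfl
    · exact hβ0 i
  set s := √ b with hs
  have hs0 : 0 < s := Real.sqrt_pos.2 hb
  have hs1 : s ≤ 1 := by rw [hs]; exact Real.sqrt_le_one.2 hb1
  have hsb : s ^ 2 = b := Real.sq_sqrt hb.le
  set Q : ℝ := 2 ^ n + (4 + K0) ^ 2 with hQ
  have hw : ∀ a : ℕ, a ≤ k0 + 1 → ∀ k : ℕ, ∑ j ∈ range k, Pot.cc β' (a + j) ≤ s * (36 * k + Q) := by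
    intro a _ k
    have h1 : ∀ j ∈ range k, Pot.cc β' (a + j) ≤ 1 / s * β (a + j) +
        s * (4 + (min (padicValNat 2 (a + j)) K0 : ℕ) : ℝ) ^ 2 := by
      intro j _
      unfold Pot.cc
      rw [hβ']
      simp only
      split_ifs with hwin
      · have hv1 := hv (a + j) hwin.1 hwin.2
        have hv2 : v (a + j) ≤ 2 + padicValNat 2 (a + j) := v_le_two_add (by omega)
        have hv3 : (v (a + j) : ℝ) + 2 ≤ 4 + (min (padicValNat 2 (a + j)) K0 : ℕ) := by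
          have : v (a + j) + 2 ≤ 4 + min (padicValNat 2 (a + j)) K0 := by omega
          exact_mod_cast this
        set w : ℝ := 4 + (min (padicValNat 2 (a + j)) K0 : ℕ) with hwd
        have hw0 : 0 ≤ w := by rw [hwd]; positivity
        have h2 : 0 ≤ (β (a + j) - s * w) ^ 2 := sq_nonneg _
        have h3 : β (a + j) * β (a + j) ≤ β (a + j) := by nlinarith [hβ0 (a + j), hβ1 (a + j)]
        have h5 : β (a + j) * ((v (a + j) : ℝ) + 2) ≤ β (a + j) * w := mul_le_mul_of_nonneg_left hv3 (hβ0 _)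
        refine h5.trans ?_
        have h4 : s * (β (a + j) * w) ≤ s * (1 / s * β (a + j) + s * w ^ 2) := by
          have e : s * (1 / s * β (a + j) + s * w ^ 2) = β (a + j) + s ^ 2 * w ^ 2 := by field_simp
          rw [e]
          have h6 : 0 ≤ s * (β (a + j) * w) := mul_nonneg hs0.le (mul_nonneg (hβ0 _) hw0)
          nlinarith
        exact le_of_mul_le_mul_left h4 hs0
      · rw [zero_mul]
        have := hβ0 (a + j)
        positivity
    refine (sum_le_sum h1).trans ?_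
    rw [sum_add_distrib, ← mul_sum, ← mul_sum]
    have h2 := mul_le_mul_of_nonneg_left (hsum a k) (show 0 ≤ 1 / s by positivity)
    have h3 := mul_le_mul_of_nonneg_left (Pot.sum_min a k K0) hs0.le
    have h6 : 1 / s * (((k : ℝ) + 2 ^ n) * b) = s * (k + 2 ^ n) := by
      rw [← hsb]; field_simp
    rw [h6] at h2
    have h7 : (0 : ℝ) ≤ (2 * K0 + 11) / 2 ^ K0 * k := by positivity
    have h8 : s * ((27 - (2 * (K0 : ℝ) + 11) / 2 ^ K0) * k + (4 + K0) ^ 2 - 16) ≤ s * (27 * k + (4 + K0) ^ 2) := by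
      apply mul_le_mul_of_nonneg_left _ hs0.le
      nlinarith
    have h9 : (0 : ℝ) ≤ s * k := by positivity
    rw [hQ]
    nlinarith
  have h1 := Pool.Agent.T6.H47.CL.kb_sum (β := β') (φ := Pot.phi β' s Q k0) (m := 144 * s) hβ'0
    (Pot.phi_nonneg hs0.le hw hk0) (by positivity) (fun i hi' => Pot.phi_drift hβ'0 hi') t (k0, r)
  refine h1.trans ?_
  unfold Pool.Agent.T6.H47.CL.Ph
  simp only
  have h2 : Pot.phi β' s Q k0 k0 = s * Q ^ 2 / 72 := by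
    unfold Pot.phi
    rw [Nat.sub_self]
    have e1 : Pot.R1 β' k0 0 = 0 := by unfold Pot.R1; simp
    have e2 : Pot.R2 β' k0 0 = 0 := by unfold Pot.R2; simp
    rw [e1, e2]; ring
  rw [h2]
  have h3 : (H k0 r : ℝ) ≤ K0 + 1 := by
    have h4 := H_le_v k0 r
    have h5 := hv k0 (by omega) (by omega)
    have : H k0 r ≤ K0 + 1 := by omega
    exact_mod_cast this
  have h5 : β' k0 * (1 + H k0 r) ≤ 1 * (2 + K0) := by
    apply mul_le_mul ((hβ'le k0).trans (hβ1 k0)) (by linarith) (by positivity) zero_le_one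
  have h6 : (1 : ℝ) ≤ 2 ^ n := one_le_pow₀ (by norm_num)
  have hK : (0 : ℝ) ≤ K0 := Nat.cast_nonneg _
  have h7 : (2 : ℝ) + K0 ≤ Q := by rw [hQ]; nlinarith
  have h8 : 1 ≤ Q := by rw [hQ]; nlinarith
  have h9 : Q ≤ Q ^ 2 := by nlinarith
  have h10 : s * Q ^ 2 / 72 ≤ Q ^ 2 := by
    have : s * Q ^ 2 ≤ 1 * Q ^ 2 := mul_le_mul_of_nonneg_right hs1 (by positivity)
    have : 0 ≤ Q ^ 2 := by positivity
    linarith
  have h11 : 0 ≤ Q ^ 2 := by positivity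
  linarith

theorem exp_le {t Λ : ℕ} (ht : 1 ≤ t) (hΛ : 1 ≤ Λ) (hΛt : Λ ≤ t) (hL : 1 ≤ Real.log t) {k0 : ℕ} (hk : t ≤ k0) :
    Real.exp (-(k0 : ℝ) ^ 2 / (2 * t)) ≤ √ (Real.log t / Λ) := by
  have htr : (0 : ℝ) < t := by exact_mod_cast ht
  have hΛr : (0 : ℝ) < Λ := by exact_mod_cast hΛ
  have hkr : (t : ℝ) ≤ k0 := by exact_mod_cast hk
  have hΛtr : (Λ : ℝ) ≤ t := by exact_mod_cast hΛt
  apply Real.le_sqrt_of_sq_le
  rw [← Real.exp_nat_mul]
  have h1 : ((2 : ℕ) : ℝ) * (-(k0 : ℝ) ^ 2 / (2 * t)) ≤ -t := by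
    have e : ((2 : ℕ) : ℝ) * (-(k0 : ℝ) ^ 2 / (2 * t)) = -((k0 : ℝ) ^ 2 / t) := by push_cast; field_simp
    rw [e, neg_le_neg_iff, le_div_iff₀ htr]
    nlinarith
  have h2 := Real.exp_le_exp.2 h1
  refine h2.trans ?_
  have h3 : Real.exp (-(t : ℝ)) ≤ 1 / t := by
    rw [Real.exp_neg, inv_eq_one_div]
    apply one_div_le_one_div_of_le htr
    have := Real.add_one_le_exp (t : ℝ)
    linarith
  refine h3.trans ?_
  rw [div_le_div_iff₀ htr hΛr]
  nlinarith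

/-- eventually -/
theorem ev4 : ∀ᶠ t : ℕ in Filter.atTop, (1 : ℝ) ≤ (t : ℝ) ^ (1 / 16 : ℝ) := by
  filter_upwards [Filter.eventually_ge_atTop 1] with t ht
  apply Real.one_le_rpow
  · exact_mod_cast ht
  · norm_num

end FG2

open FG2 FM2 BalD Filter in
/-- **FG2.** -/
theorem balg (hM : S_BALM) (hG : S_GL) : S_BALG := by
  intro A B hA hB hAB C
  obtain ⟨t1, hG⟩ := hG A B hA hB hAB
  obtain ⟨t2, hG2⟩ : ∃ t2 : ℕ, t2 = t1 := ⟨_, rfl⟩
  obtain ⟨D1, t3, hD1, ht3, hM⟩ := hM C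
  obtain ⟨n0, h0⟩ := b0 (4 * (C + 1))
  obtain ⟨C0, hC0d⟩ : ∃ C0 : ℝ, C0 = 144 := ⟨_, rfl⟩
  have hC0 : 0 < C0 := by rw [hC0d]; norm_num
  have hev : ∀ᶠ t : ℕ in atTop, (4000 * C0 * Real.log t ^ (2 * C) : ℝ) ≤ (t : ℝ) ^ (3 / 4 : ℝ) ∧
      16 ≤ Real.log t ∧ 16 * (n0 + 1 : ℝ) ≤ Real.log t ∧ 4 * C0 * 16 ^ (2 * C + 2) ≤ Real.log t ∧ 2 ≤ t ∧ t1 ≤ t ∧
      t3 ≤ t := by
    filter_upwards [ev2 (4000 * C0) (2 * C), ev3 16, ev3 (16 * (n0 + 1 : ℝ)), ev3 (4 * C0 * 16 ^ (2 * C + 2)),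
      eventually_ge_atTop 2, eventually_ge_atTop t1, eventually_ge_atTop t3] with t h2 h3 h4 h5 h6 h7 h8
    exact ⟨h2, h3, h4, h5, h6, h7, h8⟩
  obtain ⟨t0, ht0⟩ := eventually_atTop.1 hev
  refine ⟨max D1 3, max t0 2, by positivity, le_max_right _ _, ?_⟩
  intro t Λ i j ht hΛ hΛt hi hj c c'
  obtain ⟨g2, g3, g4, g5, g6, g7, g8⟩ := ht0 t ((le_max_left _ _).trans ht)
  have ht1 : 1 ≤ t := by omega
  have htr : (0 : ℝ) < t := by exact_mod_cast ht1
  have hL : 0 < Real.log t := by linarith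
  have hΛr : (0 : ℝ) < Λ := by exact_mod_cast hΛ
  have hsq : 0 ≤ √ (Real.log t / Λ) := Real.sqrt_nonneg _
  set M : ℤ := A * 3 ^ i with hMd
  set M' : ℤ := B * 3 ^ j with hM'd
  have hMo : M % 2 = 1 := by
    rw [hMd, Int.mul_emod, hA, three_pow_odd]; norm_num
  have hM'o : M' % 2 = 1 := by
    rw [hM'd, Int.mul_emod, hB, three_pow_odd]; norm_num
  by_cases h57 : (M * M') % 8 = 5 ∨ (M * M') % 8 = 7
  · refine (hM t Λ g8 hΛ hΛt M M' h57 c c').trans ?_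
    apply mul_le_mul_of_nonneg_left _ htr.le
    have : D1 * √ (Real.log t / Λ) ≤ max D1 3 * √ (Real.log t / Λ) :=
      mul_le_mul_of_nonneg_right (le_max_left _ _) hsq
    linarith
  have h13 : (M * M') % 8 = 1 ∨ (M * M') % 8 = 3 := by
    have : (M * M') % 2 = 1 := by rw [Int.mul_emod, hMo, hM'o]; norm_num
    omega
  -- the level of the start
  obtain ⟨Q', m', hQ8, hQM⟩ := quot hMo hM'o (t + 1)
  rw [← hQ8] at h13
  obtain ⟨k0, hk0, m1, hm1⟩ := pow_exists_ge h13 (t + 1)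
  have hMk : M' = M * 3 ^ k0 + ((m' - M * m1) * 2) * 2 ^ t := by
    rw [hm1]
    have e : (2 : ℤ) ^ (t + 1) = 2 * 2 ^ t := by ring
    rw [e] at hQM ⊢
    linear_combination hQM
  -- valuations in the window
  have hv16 : ∀ k, k ≤ k0 + t → k0 ≤ k + t → v k ^ 16 ≤ t := by
    intro k h1 h2
    refine window_v _ hMk (fun w u hw hd => ?_) g6 h1 h2
    have ht10 : t ^ 10 + t ≤ t ^ 11 := by
      have h3 : t ≤ t ^ 10 := Nat.le_self_pow (by norm_num) t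
      calc t ^ 10 + t ≤ t ^ 10 + t ^ 10 := by omega
        _ = t ^ 10 * 2 := by ring
        _ ≤ t ^ 10 * t := Nat.mul_le_mul_left _ g6
        _ = t ^ 11 := by ring
    rcases hd with hd | hd
    · apply hG t g7 i (j + w) u (by omega) (by omega)
      have e : A * 3 ^ i - B * 3 ^ (j + w) = M - M' * 3 ^ w := by rw [hMd, hM'd, pow_add]; ring
      rw [e]; exact hd
    · apply hG t g7 (i + w) j u (by omega) (by omega)
      have e : A * 3 ^ (i + w) - B * 3 ^ j = M * 3 ^ w - M' := by rw [hMd, hM'd, pow_add]; ring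
      rw [e]; exact hd
  obtain ⟨K0, hK0⟩ : ∃ K0 : ℕ, K0 = ⌊(t : ℝ) ^ (1 / 16 : ℝ)⌋₊ := ⟨_, rfl⟩
  have hK0r : (K0 : ℝ) ≤ (t : ℝ) ^ (1 / 16 : ℝ) := by rw [hK0]; exact Nat.floor_le (by positivity)
  have hv : ∀ k, k ≤ k0 + t → k0 ≤ k + t → v k ≤ K0 := by
    intro k h1 h2
    rw [hK0]
    apply Nat.le_floor
    have h3 : ((v k : ℝ)) ^ (16 : ℕ) ≤ t := by exact_mod_cast hv16 k h1 h2
    have h4 := Real.rpow_le_rpow (by positivity) h3 (show (0 : ℝ) ≤ 1 / 16 by norm_num)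
    rwa [← Real.rpow_natCast _ 16, ← Real.rpow_mul (by positivity),
      show ((16 : ℕ) : ℝ) * (1 / 16 : ℝ) = 1 by norm_num, Real.rpow_one] at h4
  set n := Nat.log 2 t / 8 with hn
  have hn1 : Real.log t / 16 ≤ (n : ℝ) := le_n ht1 g3
  have hn2 : 4 * (n : ℝ) ≤ Real.log t := n_le ht1
  have hnn0 : n0 + 1 ≤ n := by
    have : ((n0 + 1 : ℕ) : ℝ) ≤ n := by push_cast; linarith
    exact_mod_cast this
  obtain ⟨β, hβ0, hβ1, hβ, hβs⟩ := h0 n (by omega)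
  have hnr : (1 : ℝ) ≤ n := by exact_mod_cast (by omega : 1 ≤ n)
  have hnr0 : (0 : ℝ) < n := by linarith
  -- the chain
  set r : ℤ := c' - 3 ^ k0 * c with hr
  have e0 : ∀ v : ℤ, M' * v + c' = (3 ^ k0 * (M * v + c) + r) + (v * ((m' - M * m1) * 2)) * 2 ^ t := by
    intro v
    rw [hMk, hr]; ring
  have e1 : ∑ q ∈ range (t / Λ), pm t (fun v => |∑ j ∈ range Λ, sg ((Tz 1)^[q * Λ + j] (M * v + c)) *
      sg ((Tz 1)^[q * Λ + j] (M' * v + c'))|)
      = ∑ q ∈ range (t / Λ), (P^[q * Λ] (fun s => Gb Λ s 0)) (k0, r) := by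
    apply Finset.sum_congr rfl
    intro q hq
    rw [Finset.mem_range] at hq
    have hq' : q * Λ + Λ ≤ t := by
      have h1 : (q + 1) * Λ ≤ t / Λ * Λ := Nat.mul_le_mul_right _ hq
      have h2 := Nat.div_mul_le_self t Λ
      linarith
    have h1 := ba1 1 (Or.inl rfl) t Λ (q * Λ) k0 hq' r
    rw [one_mul] at h1
    rw [← h1]
    set Φ : ℤ → ℝ := fun v => |∑ j ∈ range Λ, sg ((Tz 1)^[q * Λ + j] v) *
      sg ((Tz 1)^[q * Λ + j] (3 ^ k0 * v + r))| with hΦ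
    have hper : Per t Φ := by
      intro x m
      rw [hΦ]
      simp only
      have e : 3 ^ k0 * (x + m * 2 ^ t) + r = (3 ^ k0 * x + r) + (3 ^ k0 * m) * 2 ^ t := by ring
      rw [e, sum_perm hq']
    rw [← pm_affine hper hMo c]
    apply pm_congr
    intro v
    rw [hΦ]
    simp only
    have h3 := sum_perm (t := t) (Λ := Λ) (a := q * Λ) hq' (M * v + c) (3 ^ k0 * (M * v + c) + r) 0
      (v * ((m' - M * m1) * 2))
    rw [zero_mul, add_zero, ← e0 v] at h3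
    rw [h3]
  rw [e1]
  refine (ba2 n β hβ0 hβ t Λ hΛ hΛt (k0, r)).trans ?_
  have e2 := (bb t k0 ht1 r).trans (exp_le ht1 hΛ hΛt (by linarith) (show t ≤ k0 by omega))
  -- the potential
  have e3 := kb_bound (n := n) (b := 1 / (n : ℝ) ^ (4 * (C + 1))) (by positivity)
    (by rw [div_le_one (by positivity)]; exact one_le_pow₀ hnr) hβ0 hβ1
    (fun a k => by rw [mul_one_div]; exact hβs a k) (show 1 ≤ k0 by omega) hv (show t < k0 by omega) r
  rw [← hC0d] at e3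
  set KB := ∑ j ∈ range t, kb β j (k0, r) with hKB
  -- `√ b`
  have hsb : √ (1 / (n : ℝ) ^ (4 * (C + 1))) = 1 / (n : ℝ) ^ (2 * C + 2) := by
    rw [Real.sqrt_eq_iff_mul_self_eq (by positivity) (by positivity)]
    rw [div_mul_div_comm, one_mul, ← pow_add]
    congr 2; ring
  rw [hsb] at e3
  have hb1 : 1 / (n : ℝ) ^ (2 * C + 2) ≤ 16 ^ (2 * C + 2) / Real.log t ^ (2 * C + 2) := by
    rw [div_le_div_iff₀ (by positivity) (by positivity), one_mul, ← mul_pow]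
    apply pow_le_pow_left₀ hL.le
    linarith
  -- the additive term
  have h18 : ((2 : ℝ) ^ n + (4 + K0) ^ 2) ≤ 26 * (t : ℝ) ^ (1 / 8 : ℝ) := by
    have h1 := two_pow_le ht1
    rw [← hn] at h1
    have h2 : (1 : ℝ) ≤ (t : ℝ) ^ (1 / 16 : ℝ) := Real.one_le_rpow (by exact_mod_cast ht1) (by norm_num)
    have h3 : (4 + (K0 : ℝ)) ^ 2 ≤ (5 * (t : ℝ) ^ (1 / 16 : ℝ)) ^ 2 := by
      apply pow_le_pow_left₀ (by positivity)
      linarith
    have h4 : (5 * (t : ℝ) ^ (1 / 16 : ℝ)) ^ 2 = 25 * (t : ℝ) ^ (1 / 8 : ℝ) := by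
      have e : (t : ℝ) ^ (1 / 16 : ℝ) * (t : ℝ) ^ (1 / 16 : ℝ) = (t : ℝ) ^ (1 / 8 : ℝ) := by
        rw [← Real.rpow_add htr]; norm_num
      rw [mul_pow, sq ((t : ℝ) ^ (1 / 16 : ℝ)), e]; norm_num
    linarith
  have h19 : ((2 : ℝ) ^ n + (4 + K0) ^ 2) ^ 2 ≤ 676 * (t : ℝ) ^ (1 / 4 : ℝ) := by
    calc ((2 : ℝ) ^ n + (4 + K0) ^ 2) ^ 2 ≤ (26 * (t : ℝ) ^ (1 / 8 : ℝ)) ^ 2 :=
          pow_le_pow_left₀ (by positivity) h18 2
      _ = 676 * ((t : ℝ) ^ (1 / 8 : ℝ) * (t : ℝ) ^ (1 / 8 : ℝ)) := by ring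
      _ = 676 * (t : ℝ) ^ (1 / 4 : ℝ) := by
          rw [← Real.rpow_add htr]; norm_num
  have h20 : (t : ℝ) ^ (1 / 4 : ℝ) = t / (t : ℝ) ^ (3 / 4 : ℝ) := by
    rw [eq_div_iff (by positivity), ← Real.rpow_add htr]; norm_num
  have h21 : 1 / (t : ℝ) ^ (3 / 4 : ℝ) ≤ 1 / (4000 * C0 * Real.log t ^ (2 * C)) :=
    one_div_le_one_div_of_le (by positivity) g2
  have h22 : 2 * KB / t ≤ 1 / Real.log t ^ (2 * C) := by
    have a1 : KB ≤ C0 * (16 ^ (2 * C + 2) / Real.log t ^ (2 * C + 2) * t + 676 * (t / (t : ℝ) ^ (3 / 4 : ℝ))) := by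
      refine e3.trans (mul_le_mul_of_nonneg_left ?_ hC0.le)
      rw [← h20]
      have := mul_le_mul_of_nonneg_right hb1 htr.le
      linarith
    have a2 : 2 * KB / t ≤ 2 * C0 * (16 ^ (2 * C + 2) / Real.log t ^ (2 * C + 2)) + 1352 * C0 * (1 / (t : ℝ) ^ (3 / 4 : ℝ)) := by
      rw [div_le_iff₀ htr]
      calc 2 * KB ≤ 2 * (C0 * (16 ^ (2 * C + 2) / Real.log t ^ (2 * C + 2) * t + 676 * (t / (t : ℝ) ^ (3 / 4 : ℝ)))) := by linarith
        _ = _ := by ring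
    have a3 : 1352 * C0 * (1 / (t : ℝ) ^ (3 / 4 : ℝ)) ≤ 1 / 2 * (1 / Real.log t ^ (2 * C)) := by
      calc 1352 * C0 * (1 / (t : ℝ) ^ (3 / 4 : ℝ)) ≤ 1352 * C0 * (1 / (4000 * C0 * Real.log t ^ (2 * C))) :=
            mul_le_mul_of_nonneg_left h21 (by positivity)
        _ = 1352 / 4000 * (1 / Real.log t ^ (2 * C)) := by field_simp
        _ ≤ _ := by
            apply mul_le_mul_of_nonneg_right (by norm_num) (by positivity)
    have a4 : 2 * C0 * (16 ^ (2 * C + 2) / Real.log t ^ (2 * C + 2)) ≤ 1 / 2 * (1 / Real.log t ^ (2 * C)) := by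
      have b1 : Real.log t ^ (2 * C + 2) = Real.log t ^ (2 * C) * Real.log t ^ 2 := by ring
      have b2 : 4 * C0 * 16 ^ (2 * C + 2) ≤ Real.log t ^ 2 := by nlinarith
      rw [b1]
      have b3 : 2 * C0 * (16 ^ (2 * C + 2) / (Real.log t ^ (2 * C) * Real.log t ^ 2))
          = (4 * C0 * 16 ^ (2 * C + 2)) / Real.log t ^ 2 * (1 / 2 * (1 / Real.log t ^ (2 * C))) := by
        field_simp; ring
      rw [b3]
      have b4 : (4 * C0 * 16 ^ (2 * C + 2)) / Real.log t ^ 2 ≤ 1 := (div_le_one (by positivity)).2 b2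
      calc _ ≤ 1 * (1 / 2 * (1 / Real.log t ^ (2 * C))) := mul_le_mul_of_nonneg_right b4 (by positivity)
        _ = _ := one_mul _
    linarith
  have h23 : √ ((1 + 4 * n) / Λ + 2 * KB / t) ≤ 2 * √ (Real.log t / Λ) + 1 / Real.log t ^ C := by
    have c1 : (1 + 4 * (n : ℝ)) / Λ ≤ 2 * √ (Real.log t / Λ) * (2 * √ (Real.log t / Λ)) := by
      have : 2 * √ (Real.log t / Λ) * (2 * √ (Real.log t / Λ)) = 4 * (√ (Real.log t / Λ) * √ (Real.log t / Λ)) := by ring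
      rw [this, Real.mul_self_sqrt (by positivity), ← mul_div_assoc]
      apply div_le_div_of_nonneg_right _ hΛr.le
      linarith
    have c2 : 1 / Real.log t ^ (2 * C) = 1 / Real.log t ^ C * (1 / Real.log t ^ C) := by
      rw [div_mul_div_comm, one_mul, ← pow_add]; congr 2; ring
    apply Real.sqrt_le_iff.2
    refine ⟨by positivity, ?_⟩
    have c3 : 0 ≤ 2 * √ (Real.log t / Λ) * (1 / Real.log t ^ C) := by positivity
    nlinarith
  apply mul_le_mul_of_nonneg_left _ htr.le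
  have h24 : 3 * √ (Real.log t / Λ) ≤ max D1 3 * √ (Real.log t / Λ) :=
    mul_le_mul_of_nonneg_right (le_max_right _ _) hsq
  linarith

end Pool.Agent.KS6_24.ST
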