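import Mathlib
import Pool.Agent.KS6_24.ST.KLDefs

/-!
PROJECT FM: independence along two fixed linear forms `A n + r`, `B n + q` whose quotient is, up to powers of two,
`5` or `7` modulo `8` (for instance `n, 5 n` and `n, -n`). Statements of the jobs.

The pair `x, M x + r` with `M = 5, 7` mod `8`: `M = -3 ^ i` modulo `2 ^ t` with `i ≥ t`. The level moves by at most one in each
step, never reaches zero, and the waiting time at a level is bounded (`v_2 (3 ^ i + 1) ≤ 2`), so there is no coalescence at all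
and the numbers of odd steps of the two walkers are independent at all levels.
-/

set_option autoImplicit false

namespace Pool.Agent.KS6_24.ST

open Pool.Agent.H499R2.CO Pool.Agent.Y965.SI Finset Pool.Agent.KS6_24.LN Pool.Agent.KS6_24.LN.TW

open Pool.Agent.T6.H47.CL (Fn)

/-- correlation at time `n` of the parities of the trajectories of `x` and `-3 ^ i x + r` -/
noncomputable def cmr (n i : ℕ) (r : ℤ) : ℝ :=
  (∑ x ∈ range (2 ^ (n + 1)), Fn n x * Fn n (-(3 ^ i) * x + r)) / 2 ^ (n + 1)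

/-- FM1 (helper24): as `S_B0` (`VV` is the same for `-3 ^ i`: reflect `h`). -/
def S_B0M : Prop := ∀ C : ℕ, ∃ n0 : ℕ, ∀ n : ℕ, n0 ≤ n → ∃ β : ℕ → ℝ, (∀ i, 0 ≤ β i) ∧ (∀ i, β i ≤ 1) ∧
  (∀ (i : ℕ) (r : ℤ), |cmr n i r| ≤ β i) ∧
  ∀ a k : ℕ, ∑ j ∈ range k, β (a + j) ≤ ((k : ℝ) + 2 ^ n) / (n : ℝ) ^ C

/-- FM2 (helper12): BALANCE of the pair `A v + c`, `A' v + c'` if `A A' = 5, 7` mod `8`. -/
def S_BALM : Prop := ∀ C : ℕ, ∃ (D : ℝ) (t0 : ℕ), 0 < D ∧ 2 ≤ t0 ∧ ∀ t Λ : ℕ, t0 ≤ t → 1 ≤ Λ → Λ ≤ t →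
  ∀ A A' : ℤ, ((A * A') % 8 = 5 ∨ (A * A') % 8 = 7) → ∀ c c' : ℤ,
  ∑ q ∈ range (t / Λ), pm t (fun v => |∑ j ∈ range Λ, sg ((Tz 1)^[q * Λ + j] (A * v + c)) *
      sg ((Tz 1)^[q * Λ + j] (A' * v + c'))|)
    ≤ t * (D * √ (Real.log t / Λ) + 1 / Real.log t ^ C)

/-- signs `d a` and multipliers `A a` such that the quotients of the `d a * A a` are `5` or `7` modulo `8` -/
def AdmM {n : ℕ} (A : Fin n → ℕ) (d : Fin n → ℤ) : Prop := (∀ a, A a % 2 = 1) ∧ (∀ a, d a = 1 ∨ d a = -1) ∧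
  ∀ a b, a ≠ b → (d a * A a * (d b * A b)) % 8 = 5 ∨ (d a * A a * (d b * A b)) % 8 = 7

/-- FM3: as `S_ETAN` (proof `etan` in EtaN.lean) with general divisors `e a` of `N` (there `e a` is `3 ^ e a`, `N = 3 ^ E`)
and with maps `Tz (d a)`; no gap, no exponential. `od (-1) t x = od 1 t (-x)`, `psi (-1) t g c x = psi 1 t g c (-x)`,
`pc (-1) = pc 1`. -/
def S_ETAM : Prop := ∀ n C : ℕ, ∃ (D : ℝ) (t0 : ℕ), 0 < D ∧ 2 ≤ t0 ∧ ∀ t k Λ g l N : ℕ, t0 ≤ t → D ≤ k →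
  1 ≤ Λ → Λ ≤ k → k ≤ t → 1 ≤ g → 1 ≤ N → gm * t + 40 * k ≤ Real.log l → ∀ (A e : Fin n → ℕ) (d : Fin n → ℤ),
  AdmM A d → (∀ a, A a * e a = N) → ∀ W : ℝ, N * 2 ^ t ≤ W → ∀ c : Fin n → ℕ,
    av W (fun y => ((∑ w ∈ range (l * N), ∏ a, ((g : ℝ) * psi (d a) t g (c a) ((⌊y⌋ + (w : ℕ)) / (e a : ℤ)))) / (l * N)
        - ∏ a, ((g : ℝ) * pc 1 t g (c a))) ^ 2)
      ≤ D * (t / (g : ℝ) ^ 2 * (√ (1 / Λ + (t + k : ℝ) ^ 3 / (k : ℝ) ^ 4) + √ (Real.log t / Λ) + 1 / Real.log t ^ C)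
          + t * Λ / (g : ℝ) ^ 3 + Λ / (g : ℝ) ^ 2 + N * 2 ^ t / W)

/-- correlation of `n` functions at the multiples `A a * 3 ^ i a` -/
noncomputable def cf {n : ℕ} (F : Fin n → ℤ → ℝ) (A : Fin n → ℕ) (V : ℝ) (i : Fin n → ℤ) : ℝ :=
  av V (fun y => ∏ a, F a ⌊(A a : ℝ) * ((3 : ℝ) ^ i a * y)⌋)

/-- FM4 (helper24): STAGE LEMMA (as `S_STAGEN`, StAbsN.lean and StageN.lean), at all levels. -/
def S_STAGEM : Prop := ∀ (n : ℕ) (A : Fin n → ℕ) (d : Fin n → ℤ), AdmM A d → ∃ (D : ℝ) (m0 : ℕ), 0 < D ∧ 2 ≤ m0 ∧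
  ∀ F : Fin n → ℤ → ℝ, (∀ a, InvF (d a) (F a)) → ∀ m L : ℕ, m0 ≤ m → Nat.log 2 m ≤ L → L ≤ 3 * Nat.log 2 m →
  ∀ V : ℝ, 2 ^ m ≤ V → ∀ i : Fin n → ℕ, (∀ a, (i a : ℝ) ≤ (m : ℝ) ^ (0.9995 : ℝ)) →
    |cf F A V (fun a => i a) - ∑ c ∈ Fintype.piFinset (fun _ : Fin n => Cs (st m L) (sgw m L) (sB m L)),
        (∏ a, pc 1 (st m L) (sgw m L) (c a)) * cf F A (V / 2 ^ (st m L)) (fun a => (i a : ℤ) + c a)|
      ≤ D / (L : ℝ) ^ 4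

/-- FM5: INDEPENDENCE for mean zero functions, from `S_STAGEM` and `S_EN3 (d 0)` (as `coreN`, `cornl` in CorN1.lean, CorN.lean;
no gaps, so the width `G` of the barrier can be `m ^ 0.6`). -/
def S_CORM : Prop := ∀ (n : ℕ) (A : Fin (n + 1) → ℕ) (d : Fin (n + 1) → ℤ), AdmM A d → ∀ F : Fin (n + 1) → ℤ → ℝ,
  (∀ a, InvF (d a) (F a)) → MeanZero (F 0) → ∀ ε : ℝ, 0 < ε → ∃ V0 : ℝ, 1 ≤ V0 ∧ ∀ V : ℝ, V0 ≤ V →
    |cf F A V (fun _ => 0)| ≤ ε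

end Pool.Agent.KS6_24.ST
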