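import Mathlib
import Pool.Agent.KS6_24.ST.FMDefs

/-!
PROJECT FG: independence along ANY linear forms `A a n + r a` no two of which have a quotient `2 ^ x 3 ^ y`.
-/

set_option autoImplicit false

namespace Pool.Agent.KS6_24.ST

open Pool.Agent.H499R2.CO Pool.Agent.Y965.SI Finset Pool.Agent.KS6_24.LN Pool.Agent.KS6_24.LN.TW

/-- FG1 (helper24): the powers of two which divide `A 3 ^ i - B 3 ^ j` are small (method of Gelfond, exact integers). -/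
def S_GL : Prop := ∀ A B : ℤ, A % 2 = 1 → B % 2 = 1 → (∀ i j : ℕ, A * 3 ^ i ≠ B * 3 ^ j) → ∃ t0 : ℕ, ∀ t : ℕ, t0 ≤ t →
  ∀ i j v : ℕ, i ≤ t ^ 11 → j ≤ t ^ 11 → (2 : ℤ) ^ v ∣ A * 3 ^ i - B * 3 ^ j → v ^ 16 ≤ t

/-- FG2 (helper12): BALANCE of `A 3 ^ i v + c`, `B 3 ^ j v + c'`, from `S_GL`, `S_BALM` (if `A B 3 ^ (i + j)` is `5, 7` mod `8`)
and the chain `P` of the library otherwise: `B 3 ^ j = A 3 ^ i 3 ^ k` mod `2 ^ t`, `k ≥ t + 1`; the levels stay in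
`[k - t, k + t]`, no killing, and `v ≤ t ^ (1/16)` there by `S_GL`. -/
def S_BALG : Prop := ∀ A B : ℤ, A % 2 = 1 → B % 2 = 1 → (∀ i j : ℕ, A * 3 ^ i ≠ B * 3 ^ j) → ∀ C : ℕ,
  ∃ (D : ℝ) (t0 : ℕ), 0 < D ∧ 2 ≤ t0 ∧ ∀ t Λ i j : ℕ, t0 ≤ t → 1 ≤ Λ → Λ ≤ t → i ≤ t ^ 10 → j ≤ t ^ 10 → ∀ c c' : ℤ,
  ∑ q ∈ range (t / Λ), pm t (fun v => |∑ k ∈ range Λ, sg ((Tz 1)^[q * Λ + k] (A * 3 ^ i * v + c)) *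
      sg ((Tz 1)^[q * Λ + k] (B * 3 ^ j * v + c'))|)
    ≤ t * (D * √ (Real.log t / Λ) + 1 / Real.log t ^ C)

/-- families of signs and odd multipliers no two of which have a quotient `3 ^ y` -/
def GoodF {n : ℕ} (A : Fin n → ℕ) (d : Fin n → ℤ) : Prop := (∀ a, A a % 2 = 1) ∧ (∀ a, d a = 1 ∨ d a = -1) ∧
  ∀ a b, a ≠ b → ∀ i j : ℕ, d a * A a * 3 ^ i ≠ d b * A b * 3 ^ j

/-- FG3: as `S_ETAM` (FM3) for a good family. -/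
def S_ETAG : Prop := ∀ (n : ℕ) (A : Fin n → ℕ) (d : Fin n → ℤ), GoodF A d → ∀ C : ℕ,
  ∃ (D : ℝ) (t0 : ℕ), 0 < D ∧ 2 ≤ t0 ∧ ∀ t k Λ g l N : ℕ, t0 ≤ t → D ≤ k →
  1 ≤ Λ → Λ ≤ k → k ≤ t → 1 ≤ g → 1 ≤ N → gm * t + 40 * k ≤ Real.log l → ∀ i e : Fin n → ℕ, (∀ a, i a ≤ t ^ 10) →
  (∀ a, A a * 3 ^ i a * e a = N) → ∀ W : ℝ, N * 2 ^ t ≤ W → ∀ c : Fin n → ℕ,
    av W (fun y => ((∑ w ∈ range (l * N), ∏ a, ((g : ℝ) * psi (d a) t g (c a) ((⌊y⌋ + (w : ℕ)) / (e a : ℤ)))) / (l * N)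
        - ∏ a, ((g : ℝ) * pc 1 t g (c a))) ^ 2)
      ≤ D * (t / (g : ℝ) ^ 2 * (√ (1 / Λ + (t + k : ℝ) ^ 3 / (k : ℝ) ^ 4) + √ (Real.log t / Λ) + 1 / Real.log t ^ C)
          + t * Λ / (g : ℝ) ^ 3 + Λ / (g : ℝ) ^ 2 + N * 2 ^ t / W)

/-- FG4 (helper24): STAGE LEMMA. -/
def S_STAGEG : Prop := ∀ (n : ℕ) (A : Fin n → ℕ) (d : Fin n → ℤ), GoodF A d → ∃ (D : ℝ) (m0 : ℕ), 0 < D ∧ 2 ≤ m0 ∧
  ∀ F : Fin n → ℤ → ℝ, (∀ a, InvF (d a) (F a)) → ∀ m L : ℕ, m0 ≤ m → Nat.log 2 m ≤ L → L ≤ 3 * Nat.log 2 m →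
  ∀ V : ℝ, 2 ^ m ≤ V → ∀ i : Fin n → ℕ, (∀ a, (i a : ℝ) ≤ (m : ℝ) ^ (0.9995 : ℝ)) →
    |cf F A V (fun a => i a) - ∑ c ∈ Fintype.piFinset (fun _ : Fin n => Cs (st m L) (sgw m L) (sB m L)),
        (∏ a, pc 1 (st m L) (sgw m L) (c a)) * cf F A (V / 2 ^ (st m L)) (fun a => (i a : ℤ) + c a)|
      ≤ D / (L : ℝ) ^ 4

/-- FG5 (helper24): INDEPENDENCE for mean zero functions. -/
def S_CORG : Prop := ∀ (n : ℕ) (A : Fin (n + 1) → ℕ) (d : Fin (n + 1) → ℤ), GoodF A d → ∀ F : Fin (n + 1) → ℤ → ℝ,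
  (∀ a, InvF (d a) (F a)) → MeanZero (F 0) → ∀ ε : ℝ, 0 < ε → ∃ V0 : ℝ, 1 ≤ V0 ∧ ∀ V : ℝ, V0 ≤ V →
    |cf F A V (fun _ => 0)| ≤ ε

end Pool.Agent.KS6_24.ST
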