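import Mathlib
import Pool.Agent.KS6_24.ST.FMDefs
import Pool.Agent.KS6_24.ST.StAbsN

/-! FM4a: the stage lemma for `n` functions at multiples, with abstract error terms (after StAbsN). -/

set_option autoImplicit false

namespace Pool.Agent.KS6_24.ST

open Pool.Agent.H499R2.CO Pool.Agent.Y965.SI Finset Pool.Agent.KS6_24.LN

theorem floor_inv (e : ℕ) (z : ℝ) : ⌊(e : ℝ)⁻¹ * z⌋ = ⌊z⌋ / (e : ℤ) := by
  rw [inv_mul_eq_div, Int.floor_div_natCast]

variable {t g B : ℕ}

/-- STAGE LEMMA for `n` functions at multiples, abstract form. -/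
theorem stage_absM (hg : 1 ≤ g) {n : ℕ} {F : Fin n → ℤ → ℝ} {d : Fin n → ℤ} (hF : ∀ a x, |F a x| ≤ 1) {V : ℝ} (hV : 0 < V)
    {N l : ℕ} (hN : 1 ≤ N) (hl : 1 ≤ l) {A i e : Fin n → ℕ} (hA : ∀ a, A a * 3 ^ i a * e a = N) {e₁ e₃ η : ℝ}
    (h1 : ∀ a, av ((A a * 3 ^ i a : ℕ) * V) (fun y => |F a ⌊y⌋ - Ff (F a) (d a) t g B y|) ≤ e₁)
    (h3 : ∀ a, ∀ c ∈ Cs t g B, ∀ u : ℝ, 0 ≤ u → u ≤ l * (A a * 3 ^ i a : ℕ) →
      av ((A a * 3 ^ i a : ℕ) * V) (fun y => |fc (F a) t c (y + u) - fc (F a) t c y|) ≤ e₃)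
    (h4 : ∀ c : Fin n → ℕ, av (N * V) (fun y => ((∑ w ∈ range (l * N), ∏ a, ((g : ℝ) *
      psi (d a) t g (c a) ((⌊y⌋ + (w : ℕ)) / (e a : ℤ)))) / (l * N) - ∏ a, ((g : ℝ) * pc 1 t g (c a))) ^ 2) ≤ η) :
    |cf F A V (fun a => i a) - ∑ c ∈ Fintype.piFinset (fun _ : Fin n => Cs t g B),
        (∏ a, pc 1 t g (c a)) * cf F A (V / 2 ^ t) (fun a => (i a : ℤ) + c a)|
      ≤ n * e₁ + ((#(Cs t g B) : ℝ) / g) ^ n * (√ η + n * e₃ + 2 * l / V) := by
  have hg' : (0 : ℝ) < g := by exact_mod_cast hg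
  have hl' : (0 : ℝ) < l := by exact_mod_cast hl
  have h3E : (0 : ℝ) < N := by exact_mod_cast hN
  have hW : 0 < (N : ℝ) * V := by positivity
  set W : ℝ := N * V with hWdef
  have he1 : ∀ a, 1 ≤ e a := fun a => by
    rcases Nat.eq_zero_or_pos (e a) with h | h
    · exfalso; have := hA a; rw [h] at this; omega
    · exact h
  set lam : Fin n → ℝ := fun a => (e a : ℝ)⁻¹ with hlam
  have hlam0 : ∀ a, 0 < lam a := fun a => by
    have : (0 : ℝ) < e a := by exact_mod_cast he1 a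
    rw [hlam]; positivity
  have hlamE : ∀ a, lam a * N = (A a * 3 ^ i a : ℕ) := fun a => by
    have h0 : (0 : ℝ) < e a := by exact_mod_cast he1 a
    rw [hlam]; simp only
    rw [← hA a]; push_cast; field_simp
  have hlamW : ∀ a, lam a * W = (A a * 3 ^ i a : ℕ) * V := fun a => by rw [hWdef, ← mul_assoc, hlamE]
  -- the three functions
  have bF : ∀ a, Bd 1 (fun y : ℝ => F a ⌊y⌋) := fun a => Bd.fl (hF a)
  have bFf : ∀ a, Bd 1 (Ff (F a) (d a) t g B) := fun a => FfB (hF a) hg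
  have bFl : ∀ a, Bd 1 (fun z : ℝ => F a ⌊lam a * z⌋) := fun a => (bF a).comp (g := fun z => lam a * z) (by fun_prop)
  have bFfl : ∀ a, Bd 1 (fun z : ℝ => Ff (F a) (d a) t g B (lam a * z)) :=
    fun a => (bFf a).comp (g := fun z => lam a * z) (by fun_prop)
  have bfcl : ∀ a c, Bd 1 (fun z : ℝ => fc (F a) t c (lam a * z)) :=
    fun a c => (fcB (hF a) t c).comp (g := fun z => lam a * z) (by fun_prop)
  -- step 0: change of variable
  have ecn : cf F A V (fun a => i a) = av W (fun z => ∏ a, F a ⌊lam a * z⌋) := by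
    rw [hWdef, ← av_scale hV h3E (fun z => ∏ a, F a ⌊lam a * z⌋)]
    unfold cf
    congr 1
    funext y
    apply prod_congr rfl
    intro a _
    rw [← mul_assoc (lam a), hlamE, zpow_natCast]
    congr 2
    push_cast
    ring
  -- step 1
  have k1 : |av W (fun z => ∏ a, F a ⌊lam a * z⌋) - av W (fun z => ∏ a, Ff (F a) (d a) t g B (lam a * z))| ≤ n * e₁ := by
    have b1 : Bd 1 (fun z => ∏ a, F a ⌊lam a * z⌋) := Bd.fprod univ fun a _ => bFl a
    have b2 : Bd 1 (fun z => ∏ a, Ff (F a) (d a) t g B (lam a * z)) := Bd.fprod univ fun a _ => bFfl a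
    rw [← av_sub W b1 b2]
    refine (abs_av_le hW (b1.sub b2)).trans ?_
    have := av_prod_tele univ hW (u := fun a z => F a ⌊lam a * z⌋) (v := fun a z => Ff (F a) (d a) t g B (lam a * z))
      (fun a _ => bFl a) (fun a _ => bFfl a) (e := e₁) (fun a _ => by
        have e1 := av_scale hW (hlam0 a) (fun y => |F a ⌊y⌋ - Ff (F a) (d a) t g B y|)
        rw [e1, hlamW]
        exact h1 a)
    simpa using this
  -- step 2: expansion
  set Ψ : (Fin n → ℕ) → ℕ → ℝ → ℝ := fun c w z => ∏ a, ((g : ℝ) * psi (d a) t g (c a) ((⌊z⌋ + (w : ℕ)) / (e a : ℤ))) with hΨ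
  set Φ : (Fin n → ℕ) → ℝ → ℝ := fun c z => ∏ a, fc (F a) t (c a) (lam a * z) with hΦ
  have bΦ : ∀ c, Bd 1 (Φ c) := fun c => Bd.fprod univ fun a _ => bfcl a (c a)
  have hps : ∀ (a : Fin n) (c : ℕ) (x : ℤ), |(g : ℝ) * psi (d a) t g c x| ≤ 1 := fun a c x => by
    rw [abs_of_nonneg (mul_nonneg hg'.le (psi_nonneg c x))]
    calc (g : ℝ) * psi (d a) t g c x ≤ g * (1 / g) := mul_le_mul_of_nonneg_left (psi_le hg c x) hg'.le
      _ = 1 := by field_simp
  have bΨ : ∀ c w, Bd 1 (Ψ c w) := fun c w => Bd.fprod univ fun a _ =>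
    Bd.fl (F := fun x : ℤ => (g : ℝ) * psi (d a) t g (c a) ((x + (w : ℕ)) / (e a : ℤ))) fun x => hps _ _ _
  have hfl0 : ∀ (a : Fin n) (z : ℝ), ⌊lam a * z⌋ = (⌊z⌋ + (0 : ℕ)) / (e a : ℤ) := fun a z => by
    have := floor_inv (e a) z
    rw [Nat.cast_zero, add_zero]
    exact this
  have eFf : ∀ z, ∏ a, Ff (F a) (d a) t g B (lam a * z)
      = ∑ c ∈ Fintype.piFinset (fun _ : Fin n => Cs t g B), (1 / (g : ℝ) ^ n) * (Ψ c 0 z * Φ c z) := by
    intro z
    unfold Ff
    rw [prod_univ_sum]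
    apply sum_congr rfl
    intro c _
    rw [hΨ, hΦ]
    simp only
    rw [← prod_mul_distrib]
    have e1 : (1 / (g : ℝ) ^ n) = ∏ _a : Fin n, (1 / (g : ℝ)) := by
      rw [Finset.prod_const, card_univ, Fintype.card_fin, div_pow, one_pow]
    rw [e1, ← prod_mul_distrib]
    apply prod_congr rfl
    intro a _
    rw [hfl0 a z]
    field_simp
  have eav : av W (fun z => ∏ a, Ff (F a) (d a) t g B (lam a * z))
      = ∑ c ∈ Fintype.piFinset (fun _ : Fin n => Cs t g B), (1 / (g : ℝ) ^ n) * av W (fun z => Ψ c 0 z * Φ c z) := by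
    simp only [eFf]
    rw [av_sum W (M := fun _ => |1 / (g : ℝ) ^ n| * (1 * 1)) (fun c _ => ((bΨ c 0).mul (bΦ c)).cmul _)]
    apply sum_congr rfl
    intro c _
    rw [av_cmul]
  -- step 3
  have k3 : ∀ c ∈ Fintype.piFinset (fun _ : Fin n => Cs t g B),
      |av W (fun z => Ψ c 0 z * Φ c z) - (∏ a, ((g : ℝ) * pc 1 t g (c a))) * av W (Φ c)|
        ≤ √ η + n * e₃ + 2 * l / V := by
    intro c hc
    rw [Fintype.mem_piFinset] at hc
    have hℓ : 1 ≤ l * N := Nat.mul_pos hl hN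
    have h5 := qN (Ψ := Ψ c) (bΨ c) (bΦ c) hW (l := l * N) hℓ (e₃ := n * e₃) (η := η)
      (p := ∏ a, ((g : ℝ) * pc 1 t g (c a)))
      (fun w y => by
        rw [hΨ]
        simp only
        apply prod_congr rfl
        intro a _
        rw [Int.floor_add_natCast]
        push_cast
        rw [add_zero])
      (fun w hw => by
        have h6 := av_prod_tele univ hW (u := fun a z => fc (F a) t (c a) (lam a * (z + (w : ℕ))))
          (v := fun a z => fc (F a) t (c a) (lam a * z))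
          (fun a _ => (bfcl a (c a)).comp (g := fun z => z + (w : ℕ)) (by fun_prop)) (fun a _ => bfcl a (c a)) (e := e₃)
          (fun a _ => by
            have e2 : (fun z => |fc (F a) t (c a) (lam a * (z + (w : ℕ))) - fc (F a) t (c a) (lam a * z)|)
                = fun z => |fc (F a) t (c a) (lam a * z + lam a * (w : ℕ)) - fc (F a) t (c a) (lam a * z)| := by
              funext z; rw [mul_add]
            have e1 := av_scale hW (hlam0 a) (fun y => |fc (F a) t (c a) (y + lam a * (w : ℕ)) - fc (F a) t (c a) y|)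
            rw [e2, e1, hlamW]
            refine h3 a (c a) (hc a) _ (mul_nonneg (hlam0 a).le (Nat.cast_nonneg _)) ?_
            have hw' : (w : ℝ) ≤ l * N := by exact_mod_cast hw.le
            calc lam a * (w : ℝ) ≤ lam a * (l * N) := mul_le_mul_of_nonneg_left hw' (hlam0 a).le
              _ = l * (lam a * N) := by ring
              _ = l * (A a * 3 ^ i a : ℕ) := by rw [hlamE])
        simpa using h6)
      (by
        have := h4 c
        rw [hΨ]
        simp only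
        push_cast
        exact this)
    have e6 : 2 * ((l * N : ℕ) : ℝ) / W = 2 * l / V := by rw [hWdef]; push_cast; field_simp
    rw [e6] at h5
    exact h5
  -- step 4: identify the main term
  have e4 : ∀ c : Fin n → ℕ, av W (Φ c) = cf F A (V / 2 ^ t) (fun a => (i a : ℤ) + c a) := by
    intro c
    have h2t : (0 : ℝ) < 1 / 2 ^ t := by positivity
    rw [hWdef, ← av_scale hV h3E (Φ c)]
    unfold cf
    have e5 : V / 2 ^ t = 1 / 2 ^ t * V := by ring
    rw [e5, ← av_scale hV h2t (fun y => ∏ a, F a ⌊(A a : ℝ) * ((3 : ℝ) ^ ((i a : ℤ) + c a) * y)⌋)]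
    congr 1
    funext y
    rw [hΦ]
    apply prod_congr rfl
    intro a _
    unfold fc
    have e6 : (3 : ℝ) ^ c a * (lam a * (N * y)) / 2 ^ t = (A a : ℝ) * ((3 : ℝ) ^ ((i a : ℤ) + c a) * (1 / 2 ^ t * y)) := by
      rw [← mul_assoc (lam a), hlamE, zpow_add₀ (by norm_num)]
      simp only [zpow_natCast]
      push_cast
      ring
    rw [e6]
  have eM : ∑ c ∈ Fintype.piFinset (fun _ : Fin n => Cs t g B),
        (∏ a, pc 1 t g (c a)) * cf F A (V / 2 ^ t) (fun a => (i a : ℤ) + c a)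
      = ∑ c ∈ Fintype.piFinset (fun _ : Fin n => Cs t g B),
        (1 / (g : ℝ) ^ n) * ((∏ a, ((g : ℝ) * pc 1 t g (c a))) * av W (Φ c)) := by
    apply sum_congr rfl
    intro c _
    rw [e4, prod_mul_distrib, Finset.prod_const, card_univ, Fintype.card_fin]
    field_simp
  have k5 : |av W (fun z => ∏ a, Ff (F a) (d a) t g B (lam a * z)) - ∑ c ∈ Fintype.piFinset (fun _ : Fin n => Cs t g B),
        (∏ a, pc 1 t g (c a)) * cf F A (V / 2 ^ t) (fun a => (i a : ℤ) + c a)|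
      ≤ ((#(Cs t g B) : ℝ) / g) ^ n * (√ η + n * e₃ + 2 * l / V) := by
    rw [eav, eM, ← sum_sub_distrib]
    refine (abs_sum_le_sum_abs _ _).trans ?_
    have h7 : ∀ c ∈ Fintype.piFinset (fun _ : Fin n => Cs t g B),
        |1 / (g : ℝ) ^ n * av W (fun z => Ψ c 0 z * Φ c z)
          - 1 / (g : ℝ) ^ n * ((∏ a, ((g : ℝ) * pc 1 t g (c a))) * av W (Φ c))|
          ≤ 1 / (g : ℝ) ^ n * (√ η + n * e₃ + 2 * l / V) := by
      intro c hc
      rw [← mul_sub, abs_mul, abs_of_pos (by positivity : (0 : ℝ) < 1 / (g : ℝ) ^ n)]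
      exact mul_le_mul_of_nonneg_left (k3 c hc) (by positivity)
    refine (sum_le_sum h7).trans (le_of_eq ?_)
    rw [sum_const, Fintype.card_piFinset, Finset.prod_const, card_univ, Fintype.card_fin, nsmul_eq_mul, div_pow]
    push_cast
    ring
  rw [ecn]
  have a1 := abs_le.1 k1
  have a5 := abs_le.1 k5
  rw [abs_le]
  constructor <;> linarith [a1.1, a1.2, a5.1, a5.2]

end Pool.Agent.KS6_24.ST
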