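import Mathlib
import Pool.Agent.KS6_24.ST.Stage0

/-! MX3b: parameters of the stage lemma for `n` functions (`P` large; `P = 60` is `params`, `sizes`). -/

set_option autoImplicit false

namespace Pool.Agent.KS6_24.ST

open Pool.Agent.H499R2.CO Pool.Agent.Y965.SI Finset Pool.Agent.KS6_24.LN Filter

theorem paramsN (c0 P : ℕ) : ∃ m0 : ℕ, 2 ≤ m0 ∧ ∀ m L : ℕ, m0 ≤ m → Nat.log 2 m ≤ L → L ≤ 3 * Nat.log 2 m →
    c0 ≤ L ∧ L ^ (20 * P + 2) ≤ m ∧ 240 * (L : ℝ) ^ (2 * P + 1) ≤ (m : ℝ) ^ (0.0005 : ℝ) ∧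
      Real.log ((m : ℝ) + 1) ≤ 2 * L ∧ 0.2 * (L : ℝ) ≤ Real.log m := by
  have F1 := ev6 (max c0 1)
  have F2 := ev5 (3 ^ (20 * P + 2)) (by positivity) (20 * P + 2) (e := 1) (by norm_num)
  have F3 := ev5 (240 * 3 ^ (2 * P + 1)) (by positivity) (2 * P + 1) (e := 0.0005) (by norm_num)
  obtain ⟨m0, h0⟩ := eventually_atTop.1 (F1.and (F2.and F3))
  refine ⟨max m0 2, le_max_right _ _, fun m L hm hL1 hL2 => ?_⟩
  obtain ⟨G1, G2, G3⟩ := h0 m ((le_max_left _ _).trans hm)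
  have hm2 : 2 ≤ m := (le_max_right _ _).trans hm
  have hmr : (1 : ℝ) ≤ m := by exact_mod_cast (show 1 ≤ m by omega)
  have hL0 : (0 : ℝ) ≤ L := Nat.cast_nonneg _
  have hLr : (L : ℝ) ≤ 3 * (Nat.log 2 m : ℕ) := by exact_mod_cast hL2
  have hLc : max c0 1 ≤ L := G1.trans hL1
  refine ⟨(le_max_left _ _).trans hLc, ?_, ?_, ?_, ?_⟩
  · have h1 : (L : ℝ) ^ (20 * P + 2) ≤ m := by
      calc (L : ℝ) ^ (20 * P + 2) ≤ (3 * (Nat.log 2 m : ℕ) : ℝ) ^ (20 * P + 2) := pow_le_pow_left₀ hL0 hLr _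
        _ = 3 ^ (20 * P + 2) * ((Nat.log 2 m : ℕ) : ℝ) ^ (20 * P + 2) := by rw [mul_pow]
        _ ≤ (m : ℝ) ^ (1 : ℝ) := G2
        _ = m := Real.rpow_one _
    exact_mod_cast h1
  · calc 240 * (L : ℝ) ^ (2 * P + 1) ≤ 240 * (3 * (Nat.log 2 m : ℕ) : ℝ) ^ (2 * P + 1) :=
          mul_le_mul_of_nonneg_left (pow_le_pow_left₀ hL0 hLr _) (by norm_num)
      _ = 240 * 3 ^ (2 * P + 1) * ((Nat.log 2 m : ℕ) : ℝ) ^ (2 * P + 1) := by rw [mul_pow, mul_assoc]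
      _ ≤ _ := G3
  · have h1 : m + 1 ≤ 2 ^ (L + 1) := by
      have : m < 2 ^ (Nat.log 2 m + 1) := Nat.lt_pow_succ_log_self (by norm_num) m
      calc m + 1 ≤ 2 ^ (Nat.log 2 m + 1) := this
        _ ≤ 2 ^ (L + 1) := Nat.pow_le_pow_right (by norm_num) (by omega)
    have h2 : (m : ℝ) + 1 ≤ 2 ^ (L + 1) := by exact_mod_cast h1
    have h3 := Real.log_le_log (by positivity) h2
    rw [Real.log_pow] at h3
    have h4 := Real.log_two_lt_d9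
    have h5 : (1 : ℝ) ≤ L := by exact_mod_cast (le_max_right c0 1).trans hLc
    push_cast at h3
    nlinarith
  · have h1 : (2 : ℝ) ^ (Nat.log 2 m) ≤ m := by exact_mod_cast Nat.pow_log_le_self 2 (by omega)
    have h2 := Real.log_le_log (by positivity) h1
    rw [Real.log_pow] at h2
    have h3 := Real.log_two_gt_d9
    have h4 : (0 : ℝ) ≤ (Nat.log 2 m : ℕ) := Nat.cast_nonneg _
    nlinarith

theorem sizesN {m L P : ℕ} (hP : 60 ≤ P) (hc : 2 ≤ L) (h1 : L ^ (20 * P + 2) ≤ m) :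
    ∃ q : ℕ, q ^ 10 ≤ st m L ∧ st m L < (q + 1) ^ 10 ∧
    L ^ (2 * P) ≤ q ∧ 1 ≤ sgw m L ∧ Nat.sqrt (st m L) ≤ 2 * (sgw m L * L ^ 5) ∧
    sgw m L * L ^ 5 ≤ Nat.sqrt (st m L) ∧ Nat.sqrt (st m L) * Nat.sqrt (st m L) ≤ st m L ∧
    st m L ≤ 4 * (Nat.sqrt (st m L) * Nat.sqrt (st m L)) ∧ q ^ 5 ≤ Nat.sqrt (st m L) ∧
    st m L * L ^ 2 ≤ m ∧ m < (st m L + 1) * L ^ 2 := by
  have h2 : L ^ 1202 ≤ m := (Nat.pow_le_pow_right (by omega) (by omega)).trans h1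
  obtain ⟨q, a1, a2, a3, a4, a5, a6, a7, a8, a9, a10, a11⟩ := sizes hc h2
  refine ⟨q, a1, a2, ?_, a4, a5, a6, a7, a8, a9, a10, a11⟩
  have ht1 : L ^ (20 * P) ≤ st m L := by
    unfold st
    rw [Nat.le_div_iff_mul_le (by positivity), ← pow_add]
    exact h1
  have h3 : (L ^ (2 * P)) ^ 10 < (q + 1) ^ 10 := by
    rw [← pow_mul, show 2 * P * 10 = 20 * P by ring]
    exact lt_of_le_of_lt ht1 a2
  have := lt_of_pow_lt_pow_left₀ 10 (by omega) h3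
  omega

/-- constant of `η` -/
noncomputable def CetaN (P : ℕ) : ℝ := 16 * (2 ^ 17 + 2 + 10 ^ P + (((Nat.factorial (2 * P) : ℕ) : ℝ) * 2 ^ (2 * P))) + 35

theorem CetaN_pos (P : ℕ) : 0 < CetaN P := by unfold CetaN; positivity

theorem eta_smallN {P : ℕ} (hP : 60 ≤ P) {U t g q X : ℝ} {A1 A2 A3 A4 : ℝ} (hU : 2 ≤ U) (hg : 0 < g) (hq : U ^ (2 * P) ≤ q)
    (htg : t ≤ 16 * g ^ 2 * U ^ 10) (hgq : q ^ 5 ≤ 2 * (g * U ^ 5)) (ht0 : 0 ≤ t)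
    (hA1 : A1 ≤ 2 ^ 17 * (1 / U ^ P)) (hA2 : A2 ≤ 2 * (1 / U ^ (P - 1))) (hA3 : A3 ≤ 10 ^ P * (1 / U ^ P))
    (hA4 : A4 ≤ (((Nat.factorial (2 * P) : ℕ) : ℝ) * 2 ^ (2 * P)) * (1 / U ^ P)) (hA0 : 0 ≤ A1 + A2 + A3 + A4)
    (hX : X ≤ 1 / U ^ (P - 11)) (hg1 : 1 ≤ g) :
    t / g ^ 2 * (A1 + A2 + A3 + A4) + t * q / g ^ 3 + q / g ^ 2 + X ≤ CetaN P / U ^ (P - 11) := by
  have hU0 : 0 < U := by linarith
  have hU1 : 1 ≤ U := by linarith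
  have hq0 : 0 < q := lt_of_lt_of_le (by positivity) hq
  have hq1 : 1 ≤ q := le_trans (one_le_pow₀ hU1) hq
  have ivm : ∀ a b : ℕ, a ≤ b → 1 / U ^ b ≤ 1 / U ^ a := fun a b hab =>
    one_div_le_one_div_of_le (by positivity) (pow_le_pow_right₀ hU1 hab)
  have ivk : ∀ a b : ℕ, U ^ a * (1 / U ^ (a + b)) = 1 / U ^ b := fun a b => by
    rw [pow_add]; field_simp
  have h1 : t / g ^ 2 ≤ 16 * U ^ 10 := by
    rw [div_le_iff₀ (by positivity)]; linarith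
  have h2 : q / g ≤ 2 * (1 / U ^ (8 * P - 5)) := by
    have a1 : q / g ≤ 2 * U ^ 5 / q ^ 4 := by
      rw [div_le_div_iff₀ hg (by positivity)]
      calc q * q ^ 4 = q ^ 5 := by ring
        _ ≤ 2 * (g * U ^ 5) := hgq
        _ = 2 * U ^ 5 * g := by ring
    refine a1.trans ?_
    have a2 : (U ^ (2 * P)) ^ 4 ≤ q ^ 4 := pow_le_pow_left₀ (by positivity) hq 4
    calc 2 * U ^ 5 / q ^ 4 ≤ 2 * U ^ 5 / (U ^ (2 * P)) ^ 4 := div_le_div_of_nonneg_left (by positivity) (by positivity) a2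
      _ = 2 * (U ^ 5 * (1 / U ^ (5 + (8 * P - 5)))) := by
        rw [← pow_mul, show 5 + (8 * P - 5) = 2 * P * 4 by omega]; ring
      _ = 2 * (1 / U ^ (8 * P - 5)) := by rw [ivk]
  have h20 : 0 ≤ q / g := by positivity
  have h3 : t / g ^ 2 * (A1 + A2 + A3 + A4) ≤ 16 * (2 ^ 17 + 2 + 10 ^ P + (((Nat.factorial (2 * P) : ℕ) : ℝ) * 2 ^ (2 * P))) * (1 / U ^ (P - 11)) := by
    have b1 : A1 + A2 + A3 + A4 ≤ (2 ^ 17 + 2 + 10 ^ P + (((Nat.factorial (2 * P) : ℕ) : ℝ) * 2 ^ (2 * P))) * (1 / U ^ (P - 1)) := by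
      have c := ivm (P - 1) P (by omega)
      have c1 := mul_le_mul_of_nonneg_left c (show (0 : ℝ) ≤ 2 ^ 17 by norm_num)
      have c2 := mul_le_mul_of_nonneg_left c (show (0 : ℝ) ≤ 10 ^ P by positivity)
      have c3 := mul_le_mul_of_nonneg_left c (show (0 : ℝ) ≤ (((Nat.factorial (2 * P) : ℕ) : ℝ) * 2 ^ (2 * P)) by positivity)
      have e : (2 ^ 17 + 2 + 10 ^ P + (((Nat.factorial (2 * P) : ℕ) : ℝ) * 2 ^ (2 * P))) * (1 / U ^ (P - 1))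
          = 2 ^ 17 * (1 / U ^ (P - 1)) + 2 * (1 / U ^ (P - 1)) + 10 ^ P * (1 / U ^ (P - 1))
            + (((Nat.factorial (2 * P) : ℕ) : ℝ) * 2 ^ (2 * P)) * (1 / U ^ (P - 1)) := by ring
      rw [e]
      linarith
    calc t / g ^ 2 * (A1 + A2 + A3 + A4)
        ≤ (16 * U ^ 10) * ((2 ^ 17 + 2 + 10 ^ P + (((Nat.factorial (2 * P) : ℕ) : ℝ) * 2 ^ (2 * P))) * (1 / U ^ (P - 1))) :=
          mul_le_mul h1 b1 hA0 (by positivity)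
      _ = 16 * (2 ^ 17 + 2 + 10 ^ P + (((Nat.factorial (2 * P) : ℕ) : ℝ) * 2 ^ (2 * P))) * (U ^ 10 * (1 / U ^ (10 + (P - 11)))) := by
        rw [show 10 + (P - 11) = P - 1 by omega]; ring
      _ = _ := by rw [ivk]
  have h4 : t * q / g ^ 3 ≤ 32 * (1 / U ^ (P - 11)) := by
    have e : t * q / g ^ 3 = t / g ^ 2 * (q / g) := by field_simp
    rw [e]
    calc t / g ^ 2 * (q / g) ≤ (16 * U ^ 10) * (2 * (1 / U ^ (8 * P - 5))) := mul_le_mul h1 h2 h20 (by positivity)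
      _ = 32 * (U ^ 10 * (1 / U ^ (10 + (8 * P - 15)))) := by rw [show 10 + (8 * P - 15) = 8 * P - 5 by omega]; ring
      _ = 32 * (1 / U ^ (8 * P - 15)) := by rw [ivk]
      _ ≤ 32 * (1 / U ^ (P - 11)) := mul_le_mul_of_nonneg_left (ivm _ _ (by omega)) (by norm_num)
  have h5 : q / g ^ 2 ≤ 2 * (1 / U ^ (P - 11)) := by
    calc q / g ^ 2 ≤ q / g := by
          apply div_le_div_of_nonneg_left hq0.le hg
          nlinarith
      _ ≤ 2 * (1 / U ^ (8 * P - 5)) := h2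
      _ ≤ 2 * (1 / U ^ (P - 11)) := mul_le_mul_of_nonneg_left (ivm _ _ (by omega)) (by norm_num)
  have e : CetaN P / U ^ (P - 11) = 16 * (2 ^ 17 + 2 + 10 ^ P + (((Nat.factorial (2 * P) : ℕ) : ℝ) * 2 ^ (2 * P))) * (1 / U ^ (P - 11))
      + 32 * (1 / U ^ (P - 11)) + 2 * (1 / U ^ (P - 11)) + 1 / U ^ (P - 11) := by unfold CetaN; ring
  rw [e]
  linarith

end Pool.Agent.KS6_24.ST
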