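import Mathlib
import Pool.Agent.KS6_24.ST.Stage0

/-! J5b: `S_STAGE` from `S_TV` and `S_ETA`. -/

set_option autoImplicit false

namespace Pool.Agent.KS6_24.ST

open Pool.Agent.H499R2.CO Pool.Agent.Y965.SI Finset Pool.Agent.KS6_24.LN

/-- size of the shifts -/
theorem shift_size {t k g B c l : ℕ} (hl : (l : ℝ) ≤ 2 * Real.exp (gm * t + 40 * k)) (hc : 2 * c ≤ t + 2 * B + 6 * g)
    (hgB : g ≤ B) (hBk : B ≤ k) (hB2 : 2 ≤ B) : (l : ℝ) * 3 ^ c ≤ 4 ^ (50 * k) * 2 ^ t := by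
  have a2 : (3 : ℝ) ^ c = Real.exp (c * Real.log 3) := by rw [Real.exp_nat_mul, Real.exp_log (by norm_num)]
  have a3 : (4 : ℝ) ^ (50 * k) * 2 ^ t = Real.exp (100 * k * Real.log 2 + t * Real.log 2) := by
    rw [Real.exp_add]
    congr 1
    · rw [show (4 : ℝ) = 2 ^ 2 by norm_num, ← pow_mul]
      have : (100 * (k : ℝ)) * Real.log 2 = ((2 * (50 * k) : ℕ) : ℝ) * Real.log 2 := by push_cast; ring
      rw [this, Real.exp_nat_mul, Real.exp_log (by norm_num)]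
    · rw [Real.exp_nat_mul, Real.exp_log (by norm_num)]
  have a4 : (4 : ℝ) = Real.exp (2 * Real.log 2) := by
    rw [show (2 : ℝ) * Real.log 2 = Real.log (2 ^ 2) by rw [Real.log_pow]; norm_num]
    rw [Real.exp_log (by norm_num)]; norm_num
  have a1 : (l : ℝ) ≤ 4 * Real.exp (gm * t + 40 * k) := by
    have := Real.exp_pos (gm * t + 40 * k)
    linarith
  have a5 : (l : ℝ) * 3 ^ c ≤ Real.exp (2 * Real.log 2 + (gm * t + 40 * k) + c * Real.log 3) := by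
    rw [Real.exp_add, Real.exp_add, ← a2, ← a4]
    exact mul_le_mul_of_nonneg_right a1 (by positivity)
  refine a5.trans ?_
  rw [a3]
  apply Real.exp_le_exp.2
  have b1 : (2 : ℝ) * c ≤ t + 2 * B + 6 * g := by exact_mod_cast hc
  have b2 : (g : ℝ) ≤ B := by exact_mod_cast hgB
  have b3 : (B : ℝ) ≤ k := by exact_mod_cast hBk
  have b4 : (2 : ℝ) ≤ B := by exact_mod_cast hB2
  have l2 := Real.log_two_gt_d9
  have l3 : Real.log 3 ≤ 1.1 := log3_lt.le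
  have l30 : 0 ≤ Real.log 3 := Real.log_nonneg (by norm_num)
  have b5 : (c : ℝ) * Real.log 3 ≤ (t / 2 + 4 * k) * Real.log 3 := by
    apply mul_le_mul_of_nonneg_right _ l30
    linarith
  have e1 : gm * (t : ℝ) = t * Real.log 2 - t / 2 * Real.log 3 := by unfold gm; ring
  have b6 : (4 * (k : ℝ)) * Real.log 3 ≤ 4 * k * 1.1 := mul_le_mul_of_nonneg_left l3 (by positivity)
  have b7 : 100 * (k : ℝ) * 0.6931471803 ≤ 100 * k * Real.log 2 := mul_le_mul_of_nonneg_left l2.le (by positivity)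
  have l2' := Real.log_two_lt_d9
  have e2 : (t / 2 + 4 * (k : ℝ)) * Real.log 3 = t / 2 * Real.log 3 + 4 * k * Real.log 3 := by ring
  rw [e1]
  linarith

/-- constant of `η` -/
noncomputable def Ceta : ℝ := 16 * (2 ^ 17 + 2 + 10 ^ 60 + ((Nat.factorial 60 : ℕ) : ℝ)) + 35

theorem Ceta_pos : 0 < Ceta := by unfold Ceta; positivity

theorem eta_small {U t g q V : ℝ} {A1 A2 A3 A4 : ℝ} (hU : 2 ≤ U) (hg : 0 < g) (hq : U ^ 120 ≤ q)
    (htg : t ≤ 16 * g ^ 2 * U ^ 10) (hgq : q ^ 5 ≤ 2 * (g * U ^ 5)) (ht0 : 0 ≤ t)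
    (hA1 : A1 ≤ 2 ^ 17 * (1 / U ^ 60)) (hA2 : A2 ≤ 2 * (1 / U ^ 59)) (hA3 : A3 ≤ 10 ^ 60 * (1 / U ^ 60))
    (hA4 : A4 ≤ ((Nat.factorial 60 : ℕ) : ℝ) * (1 / U ^ 60)) (hA0 : 0 ≤ A1 + A2 + A3 + A4) (hV : 2 ^ t / V ≤ 1 / U ^ 49)
    (hg1 : 1 ≤ g) :
    t / g ^ 2 * (A1 + A2 + A3 + A4) + t * q / g ^ 3 + q / g ^ 2 + 2 ^ t / V ≤ Ceta / U ^ 49 := by
  have hU0 : 0 < U := by linarith
  have hU1 : 1 ≤ U := by linarith
  have hq0 : 0 < q := lt_of_lt_of_le (by positivity) hq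
  have hq1 : 1 ≤ q := le_trans (one_le_pow₀ hU1) hq
  have ivm : ∀ a b : ℕ, a ≤ b → 1 / U ^ b ≤ 1 / U ^ a := fun a b hab =>
    one_div_le_one_div_of_le (by positivity) (pow_le_pow_right₀ hU1 hab)
  have h1 : t / g ^ 2 ≤ 16 * U ^ 10 := by
    rw [div_le_iff₀ (by positivity)]; linarith
  have h2 : q / g ≤ 2 * (1 / U ^ 475) := by
    -- q / g ≤ 2 U^5 / q^4
    have a1 : q / g ≤ 2 * U ^ 5 / q ^ 4 := by
      rw [div_le_div_iff₀ hg (by positivity)]
      calc q * q ^ 4 = q ^ 5 := by ring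
        _ ≤ 2 * (g * U ^ 5) := hgq
        _ = 2 * U ^ 5 * g := by ring
    refine a1.trans ?_
    have a2 : (U ^ 120) ^ 4 ≤ q ^ 4 := pow_le_pow_left₀ (by positivity) hq 4
    calc 2 * U ^ 5 / q ^ 4 ≤ 2 * U ^ 5 / (U ^ 120) ^ 4 := div_le_div_of_nonneg_left (by positivity) (by positivity) a2
      _ = 2 * (1 / U ^ 475) := by rw [← pow_mul]; norm_num; field_simp
  have h20 : 0 ≤ q / g := by positivity
  have h3 : t / g ^ 2 * (A1 + A2 + A3 + A4) ≤ 16 * (2 ^ 17 + 2 + 10 ^ 60 + ((Nat.factorial 60 : ℕ) : ℝ)) * (1 / U ^ 49) := by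
    have b1 : A1 + A2 + A3 + A4 ≤ (2 ^ 17 + 2 + 10 ^ 60 + ((Nat.factorial 60 : ℕ) : ℝ)) * (1 / U ^ 59) := by
      have c := ivm 59 60 (by norm_num)
      have c1 := mul_le_mul_of_nonneg_left c (show (0 : ℝ) ≤ 2 ^ 17 by norm_num)
      have c2 := mul_le_mul_of_nonneg_left c (show (0 : ℝ) ≤ 10 ^ 60 by norm_num)
      have c3 := mul_le_mul_of_nonneg_left c (show (0 : ℝ) ≤ ((Nat.factorial 60 : ℕ) : ℝ) by positivity)
      have e : (2 ^ 17 + 2 + 10 ^ 60 + ((Nat.factorial 60 : ℕ) : ℝ)) * (1 / U ^ 59)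
          = 2 ^ 17 * (1 / U ^ 59) + 2 * (1 / U ^ 59) + 10 ^ 60 * (1 / U ^ 59)
            + ((Nat.factorial 60 : ℕ) : ℝ) * (1 / U ^ 59) := by ring
      rw [e]
      linarith
    calc t / g ^ 2 * (A1 + A2 + A3 + A4)
        ≤ (16 * U ^ 10) * ((2 ^ 17 + 2 + 10 ^ 60 + ((Nat.factorial 60 : ℕ) : ℝ)) * (1 / U ^ 59)) :=
          mul_le_mul h1 b1 hA0 (by positivity)
      _ = 16 * (2 ^ 17 + 2 + 10 ^ 60 + ((Nat.factorial 60 : ℕ) : ℝ)) * (U ^ 10 * (1 / U ^ (10 + 49))) := by norm_num; ring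
      _ = _ := by rw [pow_add U 10 49]; field_simp
  have h4 : t * q / g ^ 3 ≤ 32 * (1 / U ^ 49) := by
    have e : t * q / g ^ 3 = t / g ^ 2 * (q / g) := by field_simp
    rw [e]
    calc t / g ^ 2 * (q / g) ≤ (16 * U ^ 10) * (2 * (1 / U ^ 475)) := mul_le_mul h1 h2 h20 (by positivity)
      _ = 32 * (U ^ 10 * (1 / U ^ (10 + 465))) := by norm_num; ring
      _ = 32 * (1 / U ^ 465) := by rw [pow_add U 10 465]; field_simp
      _ ≤ 32 * (1 / U ^ 49) := mul_le_mul_of_nonneg_left (ivm _ _ (by norm_num)) (by norm_num)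
  have h5 : q / g ^ 2 ≤ 2 * (1 / U ^ 49) := by
    calc q / g ^ 2 ≤ q / g := by
          apply div_le_div_of_nonneg_left hq0.le hg
          nlinarith
      _ ≤ 2 * (1 / U ^ 475) := h2
      _ ≤ 2 * (1 / U ^ 49) := mul_le_mul_of_nonneg_left (ivm _ _ (by norm_num)) (by norm_num)
  have e : Ceta / U ^ 49 = 16 * (2 ^ 17 + 2 + 10 ^ 60 + ((Nat.factorial 60 : ℕ) : ℝ)) * (1 / U ^ 49) + 32 * (1 / U ^ 49)
      + 2 * (1 / U ^ 49) + 1 / U ^ 49 := by unfold Ceta; ring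
  rw [e]
  linarith

theorem stage (d : ℤ) (hd : d = 1 ∨ d = -1) (hTV : S_TV d) (hE : S_ETA d) : S_STAGE d := by
  have hd2 : d % 2 = 1 := by rcases hd with rfl | rfl <;> decide
  obtain ⟨C1, hC1, h1⟩ := co2 d hd
  obtain ⟨C2, hC2, h2⟩ := hTV
  obtain ⟨C3, hC3, h3⟩ := ci d hd
  obtain ⟨D0, t0, hD0, ht0, hEta⟩ := hE 60
  obtain ⟨m0, hm02, hpar⟩ := params (max (max ⌈C2⌉₊ ⌈D0⌉₊) (max t0 200))
  set S : ℝ := √ (D0 * Ceta) with hS
  have hS0 : 0 ≤ S := Real.sqrt_nonneg _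
  refine ⟨4 * C1 + 24 * 2 ^ 33 * C2 + 400 * C3 + 144 * S + 1000, m0, by positivity, hm02, ?_⟩
  intro f hf m L hm hL1 hL2 V hV i hi1 hi2
  have hfb := hf.1
  obtain ⟨p1, p2, p3, p4, p5⟩ := hpar m L hm hL1 hL2
  have hL200 : 200 ≤ L := (le_max_right _ _).trans ((le_max_right _ _).trans p1)
  have hLt0 : t0 ≤ L := (le_max_left _ _).trans ((le_max_right _ _).trans p1)
  have hLC2 : ⌈C2⌉₊ ≤ L := (le_max_left _ _).trans ((le_max_left _ _).trans p1)
  have hLD0 : ⌈D0⌉₊ ≤ L := (le_max_right _ _).trans ((le_max_left _ _).trans p1)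
  obtain ⟨q, q1, q2, q3, q4, q5, q6, q7, q8, q9, q10, q11⟩ := sizes (by omega) p2
  obtain ⟨s, hs⟩ : ∃ s, s = Nat.sqrt (st m L) := ⟨_, rfl⟩
  obtain ⟨t, ht⟩ : ∃ t, t = st m L := ⟨_, rfl⟩
  obtain ⟨g, hg⟩ : ∃ g, g = sgw m L := ⟨_, rfl⟩
  obtain ⟨B, hB⟩ : ∃ B, B = sB m L := ⟨_, rfl⟩
  obtain ⟨k, hk⟩ : ∃ k, k = q ^ 8 := ⟨_, rfl⟩
  have hBs : B = s * L ^ 3 := by rw [hB, sB, hs]
  rw [← hs] at q5 q6 q7 q8 q9
  rw [← ht] at q1 q2 q7 q8 q10 q11
  rw [← hg] at q4 q5 q6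
  rw [← ht, ← hg, ← hB]
  -- naturals
  have hL1' : 1 ≤ L := by omega
  have Lp : ∀ a b : ℕ, a ≤ b → L ^ a ≤ L ^ b := fun a b hab => Nat.pow_le_pow_right hL1' hab
  have hqL : L ≤ q := by
    calc L = L ^ 1 := (pow_one L).symm
      _ ≤ L ^ 120 := Lp 1 120 (by norm_num)
      _ ≤ q := q3
  have hq1' : 1 ≤ q := by omega
  have qp : ∀ a b : ℕ, a ≤ b → q ^ a ≤ q ^ b := fun a b hab => Nat.pow_le_pow_right hq1' hab
  have hqk : q ≤ k := by
    calc q = q ^ 1 := (pow_one q).symm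
      _ ≤ q ^ 8 := qp 1 8 (by norm_num)
      _ = k := hk.symm
  have hkt : k ≤ t := by rw [hk]; exact (qp 8 10 (by norm_num)).trans q1
  have hk80 : 80 * k ≤ t := by
    calc 80 * k ≤ q ^ 2 * k := by
          apply Nat.mul_le_mul_right
          calc 80 ≤ 200 := by norm_num
            _ ≤ q := by omega
            _ = q ^ 1 := (pow_one q).symm
            _ ≤ q ^ 2 := qp 1 2 (by norm_num)
      _ = q ^ 10 := by rw [hk]; ring
      _ ≤ t := q1
  have hLt : L ≤ t := hqL.trans (hqk.trans hkt)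
  have ht1 : 1 ≤ t := by omega
  have h4t : 4 * t ≤ m := by
    have : 4 ≤ L ^ 2 := by nlinarith
    calc 4 * t ≤ L ^ 2 * t := Nat.mul_le_mul_right _ this
      _ = t * L ^ 2 := by ring
      _ ≤ m := q10
  have ht2q : t ≤ (2 * q) ^ 10 := (q2.trans_le (Nat.pow_le_pow_left (by omega) 10)).le
  have hs32 : s ≤ 32 * q ^ 5 := by
    have h5 : s * s ≤ (32 * q ^ 5) * (32 * q ^ 5) := by
      calc s * s ≤ t := q7
        _ ≤ (2 * q) ^ 10 := ht2q
        _ = (32 * q ^ 5) * (32 * q ^ 5) := by ring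
    exact Nat.mul_self_le_mul_self_iff.1 h5
  have hL3q : L ^ 3 ≤ q := (Lp 3 120 (by norm_num)).trans q3
  have hBk : B ≤ k := by
    rw [hBs]
    calc s * L ^ 3 ≤ (32 * q ^ 5) * q := Nat.mul_le_mul hs32 hL3q
      _ = 32 * q ^ 6 := by ring
      _ ≤ q ^ 2 * q ^ 6 := by
        apply Nat.mul_le_mul_right
        nlinarith
      _ = k := by rw [hk]; ring
  have hgs : g ≤ s := by
    calc g ≤ g * L ^ 5 := Nat.le_mul_of_pos_right _ (by positivity)
      _ ≤ s := q6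
  have hsB : s ≤ B := by rw [hBs]; exact Nat.le_mul_of_pos_right _ (by positivity)
  have hgB : g ≤ B := hgs.trans hsB
  have hB2 : 2 ≤ B := by
    have : q ^ 1 ≤ q ^ 5 := qp 1 5 (by norm_num)
    rw [pow_one] at this
    omega
  -- reals
  set U : ℝ := (L : ℝ) with hU
  have hU200 : (200 : ℝ) ≤ U := by rw [hU]; exact_mod_cast hL200
  have hU1 : (1 : ℝ) ≤ U := by linarith
  have hU0 : (0 : ℝ) < U := by linarith
  have ivm : ∀ a b : ℕ, a ≤ b → 1 / U ^ b ≤ 1 / U ^ a := fun a b hab =>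
    one_div_le_one_div_of_le (by positivity) (pow_le_pow_right₀ hU1 hab)
  have ivk : ∀ a b : ℕ, U ^ a * (1 / U ^ (a + b)) = 1 / U ^ b := fun a b => by
    rw [pow_add]; field_simp
  have hC2k : C2 ≤ k := (Nat.le_ceil C2).trans (by exact_mod_cast (show ⌈C2⌉₊ ≤ k by omega))
  have hD0k : D0 ≤ k := (Nat.le_ceil D0).trans (by exact_mod_cast (show ⌈D0⌉₊ ≤ k by omega))
  have htr : (1 : ℝ) ≤ t := by exact_mod_cast ht1
  have ht00 : (0 : ℝ) < t := by linarith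
  have hqr : (1 : ℝ) ≤ q := by exact_mod_cast hq1'
  have hqr0 : (0 : ℝ) < q := by linarith
  have hgr : (1 : ℝ) ≤ g := by exact_mod_cast q4
  have hgr0 : (0 : ℝ) < g := by linarith
  have hkr : (k : ℝ) = (q : ℝ) ^ 8 := by rw [hk]; push_cast; rfl
  have hkr0 : (0 : ℝ) < k := by rw [hkr]; positivity
  have hqU : U ^ 120 ≤ (q : ℝ) := by rw [hU]; exact_mod_cast q3
  have hmr : (1 : ℝ) ≤ m := by exact_mod_cast (show 1 ≤ m by omega)
  have hmr0 : (0 : ℝ) < m := by linarith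
  have ht4 : 4 * (t : ℝ) ≤ m := by exact_mod_cast h4t
  have hiV : V ≤ 3 ^ i * V := by
    have h0 : (0 : ℝ) < V := lt_of_lt_of_le (by positivity) hV
    exact le_mul_of_one_le_left h0.le (one_le_pow₀ (by norm_num))
  have hV0 : 0 < V := lt_of_lt_of_le (by positivity) hV
  have hW0 : 0 < 3 ^ i * V := by positivity
  set R := m - t with hR
  have hRn : 1 ≤ R := by omega
  have htR : t + R = m := by omega
  have hVR : (2 : ℝ) ^ (t + R) ≤ V := by rw [htR]; exact hV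
  have hWR : (2 : ℝ) ^ (t + R) ≤ 3 ^ i * V := hVR.trans hiV
  -- rho
  have hρ0 := rho_nonneg R
  have hρ2 : rho R ^ 2 ≤ 4 * U / m := by
    rw [rho_sq hRn]
    have hRr : (m : ℝ) / 2 ≤ R := by
      have : (R : ℝ) = m - t := by rw [hR, Nat.cast_sub (by omega)]
      rw [this]; linarith
    have hRp : (0 : ℝ) < R := by linarith
    have hl : Real.log ((R : ℝ) + 1) ≤ 2 * U := by
      refine le_trans (Real.log_le_log (by positivity) ?_) p4
      have : (R : ℝ) ≤ m := by exact_mod_cast Nat.sub_le m t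
      linarith
    rw [div_le_div_iff₀ hRp hmr0]
    calc Real.log ((R : ℝ) + 1) * m ≤ (2 * U) * m := mul_le_mul_of_nonneg_right hl hmr0.le
      _ = 4 * U * (m / 2) := by ring
      _ ≤ 4 * U * R := mul_le_mul_of_nonneg_left hRr (by positivity)
  -- windows
  obtain ⟨hgm0, hgm1⟩ := gm_bounds
  obtain ⟨l, hl1, hl2, hl3⟩ := exists_l (t := t) (k := k)
  have hl0 : (0 : ℝ) < l := by exact_mod_cast hl1
  have hk80r : 80 * (k : ℝ) ≤ t := by exact_mod_cast hk80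
  have hlexp : (l : ℝ) ≤ 2 * 2 ^ t := by
    refine hl3.trans (mul_le_mul_of_nonneg_left ?_ (by norm_num))
    have h0 : (2 : ℝ) ^ t = Real.exp (t * Real.log 2) := by rw [Real.exp_nat_mul, Real.exp_log (by norm_num)]
    rw [h0]
    apply Real.exp_le_exp.2
    have := Real.log_two_gt_d9
    nlinarith
  have h2t : (0 : ℝ) < 2 ^ t := by positivity
  have h2tU : 1 / (2 : ℝ) ^ t ≤ 1 / U ^ 100 := by
    apply one_div_le_one_div_of_le (by positivity)
    have h0 : t < 2 ^ t := Nat.lt_two_pow_self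
    have h00 : (t : ℝ) ≤ 2 ^ t := by exact_mod_cast h0.le
    have h01 : (q : ℝ) ≤ t := by exact_mod_cast hqk.trans hkt
    exact (pow_le_pow_right₀ hU1 (by norm_num)).trans (hqU.trans (h01.trans h00))
  have h2V : (2 : ℝ) ^ t / V ≤ 1 / 2 ^ t := by
    rw [div_le_div_iff₀ hV0 h2t, one_mul, ← pow_add]
    exact (pow_le_pow_right₀ (by norm_num) (by omega)).trans hV
  have hlV : (l : ℝ) / V ≤ 2 * (1 / U ^ 100) := by
    calc (l : ℝ) / V ≤ 2 * 2 ^ t / V := div_le_div_of_nonneg_right hlexp hV0.le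
      _ = 2 * (2 ^ t / V) := by ring
      _ ≤ 2 * (1 / 2 ^ t) := mul_le_mul_of_nonneg_left h2V (by norm_num)
      _ ≤ _ := mul_le_mul_of_nonneg_left h2tU (by norm_num)
  -- e₁
  have hgρ : (g : ℝ) * rho R ≤ 2 * (1 / U ^ 5) := by
    have h5 : (g : ℝ) ^ 2 * U ^ 12 ≤ m := by
      have : g ^ 2 * L ^ 12 ≤ m := by
        calc g ^ 2 * L ^ 12 = (g * L ^ 5) * (g * L ^ 5) * L ^ 2 := by ring
          _ ≤ s * s * L ^ 2 := Nat.mul_le_mul_right _ (Nat.mul_le_mul q6 q6)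
          _ ≤ t * L ^ 2 := Nat.mul_le_mul_right _ q7
          _ ≤ m := q10
      rw [hU]; exact_mod_cast this
    have h6 : ((g : ℝ) * rho R) ^ 2 ≤ (2 * (1 / U ^ 5)) ^ 2 := by
      rw [mul_pow]
      calc (g : ℝ) ^ 2 * rho R ^ 2 ≤ (g : ℝ) ^ 2 * (4 * U / m) := mul_le_mul_of_nonneg_left hρ2 (by positivity)
        _ ≤ 4 / U ^ 11 := by
          rw [← mul_div_assoc, div_le_div_iff₀ hmr0 (by positivity)]
          calc (g : ℝ) ^ 2 * (4 * U) * U ^ 11 = 4 * ((g : ℝ) ^ 2 * U ^ 12) := by ring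
            _ ≤ 4 * (m : ℝ) := mul_le_mul_of_nonneg_left h5 (by norm_num)
        _ = 4 * (1 / U ^ 11) := by ring
        _ ≤ 4 * (1 / U ^ 10) := mul_le_mul_of_nonneg_left (ivm 10 11 (by norm_num)) (by norm_num)
        _ = (2 * (1 / U ^ 5)) ^ 2 := by rw [mul_pow, div_pow, ← pow_mul]; norm_num
    exact le_of_sq_le_sq h6 (by positivity)
  have htB : (t : ℝ) / (B : ℝ) ^ 2 ≤ 4 * (1 / U ^ 5) := by
    have hsr : (0 : ℝ) < s := by exact_mod_cast (show 0 < s by omega)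
    have h5 : (t : ℝ) ≤ 4 * (s * s) := by exact_mod_cast q8
    have h6 : (B : ℝ) = s * U ^ 3 := by rw [hBs, hU]; push_cast; rfl
    rw [h6, div_le_iff₀ (by positivity)]
    calc (t : ℝ) ≤ 4 * (s * s) := h5
      _ ≤ 4 * (s * s) * U := le_mul_of_one_le_right (by positivity) hU1
      _ = 4 * (1 / U ^ 5) * (s * U ^ 3) ^ 2 := by field_simp
  have he1 : ∀ V' : ℝ, 2 ^ (t + R) ≤ V' → av V' (fun y => |f ⌊y⌋ - Ff f d t g B y|) ≤ (2 * C1 + 4) * (1 / U ^ 5) := by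
    intro V' hV'
    refine (h1 f hf t R g B hRn q4 (by omega) V' hV').trans ?_
    have h5 : C1 * g * rho R ≤ C1 * (2 * (1 / U ^ 5)) := by
      rw [mul_assoc]; exact mul_le_mul_of_nonneg_left hgρ hC1.le
    linarith
  -- e₂
  have htk : ((t : ℝ) + k) ^ 3 / (k : ℝ) ^ 4 ≤ 2 ^ 33 / (q : ℝ) ^ 2 := by
    have h5 : (t : ℝ) + k ≤ 2 ^ 11 * (q : ℝ) ^ 10 := by
      have : t + k ≤ 2 ^ 11 * q ^ 10 := by
        calc t + k ≤ 2 * t := by omega
          _ ≤ 2 * (2 * q) ^ 10 := by omega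
          _ = 2 ^ 11 * q ^ 10 := by ring
      exact_mod_cast this
    rw [div_le_div_iff₀ (by positivity) (by positivity), hkr]
    calc ((t : ℝ) + (q : ℝ) ^ 8) ^ 3 * (q : ℝ) ^ 2 ≤ (2 ^ 11 * (q : ℝ) ^ 10) ^ 3 * (q : ℝ) ^ 2 := by
          apply mul_le_mul_of_nonneg_right _ (by positivity)
          apply pow_le_pow_left₀ (by positivity)
          rw [← hkr]; exact h5
      _ = 2 ^ 33 * ((q : ℝ) ^ 8) ^ 4 := by ring
  have htk0 : 0 ≤ ((t : ℝ) + k) ^ 3 / (k : ℝ) ^ 4 := by positivity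
  have hq2U : 1 / (q : ℝ) ^ 2 ≤ 1 / U ^ 100 := by
    apply one_div_le_one_div_of_le (by positivity)
    calc U ^ 100 ≤ U ^ 120 := pow_le_pow_right₀ hU1 (by norm_num)
      _ ≤ q := hqU
      _ ≤ (q : ℝ) ^ 2 := by nlinarith
  have he2 : ∀ c ∈ Cs t g B, ∀ x : ℤ, |(∑ w ∈ range l, ph d t g c (x + (w : ℕ))) / l| ≤ 2 ^ 33 * C2 * (1 / U ^ 100) := by
    intro c _ x
    refine (ph_window hd2 q4 (fun Ψ hΨ1 hΨ2 x => h2 t k 0 hC2k (Nat.zero_le _) Ψ hΨ1 hΨ2 x l hl2) hl1 x).trans ?_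
    calc C2 * (((t : ℝ) + k) ^ 3 / (k : ℝ) ^ 4) ≤ C2 * (2 ^ 33 / (q : ℝ) ^ 2) := mul_le_mul_of_nonneg_left htk hC2.le
      _ = 2 ^ 33 * C2 * (1 / (q : ℝ) ^ 2) := by ring
      _ ≤ 2 ^ 33 * C2 * (1 / U ^ 100) := mul_le_mul_of_nonneg_left hq2U (by positivity)
  -- e₃
  have hkm : (k : ℝ) ≤ (m : ℝ) ^ (0.9995 : ℝ) := by
    have h5 : (k : ℝ) ^ (10 : ℕ) ≤ (m : ℝ) ^ (8 : ℕ) := by
      have : k ^ 10 ≤ m ^ 8 := by
        calc k ^ 10 = (q ^ 10) ^ 8 := by rw [hk]; ring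
          _ ≤ t ^ 8 := Nat.pow_le_pow_left q1 8
          _ ≤ m ^ 8 := Nat.pow_le_pow_left (by omega) 8
      exact_mod_cast this
    have hk0 : (0 : ℝ) ≤ k := Nat.cast_nonneg _
    calc (k : ℝ) = ((k : ℝ) ^ (10 : ℕ)) ^ (0.1 : ℝ) := by
          rw [← Real.rpow_natCast, ← Real.rpow_mul hk0]; norm_num
      _ ≤ ((m : ℝ) ^ (8 : ℕ)) ^ (0.1 : ℝ) := Real.rpow_le_rpow (by positivity) h5 (by norm_num)
      _ = (m : ℝ) ^ (0.8 : ℝ) := by rw [← Real.rpow_natCast, ← Real.rpow_mul hmr0.le]; norm_num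
      _ ≤ (m : ℝ) ^ (0.9995 : ℝ) := Real.rpow_le_rpow_of_exponent_le hmr (by norm_num)
  have hsqn : √ (1 + ((50 * k + i : ℕ) : ℝ)) * rho R ≤ 1 / U ^ 50 := by
    have h5 : 1 + ((50 * k + i : ℕ) : ℝ) ≤ 52 * (m : ℝ) ^ (0.9995 : ℝ) := by
      have : (1 : ℝ) ≤ (m : ℝ) ^ (0.9995 : ℝ) := Real.one_le_rpow hmr (by norm_num)
      push_cast; linarith
    have h6 : (m : ℝ) = (m : ℝ) ^ (0.9995 : ℝ) * (m : ℝ) ^ (0.0005 : ℝ) := by
      rw [← Real.rpow_add hmr0]; norm_num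
    have h7 : (√ (1 + ((50 * k + i : ℕ) : ℝ)) * rho R) ^ 2 ≤ (1 / U ^ 50) ^ 2 := by
      rw [mul_pow, Real.sq_sqrt (by positivity)]
      calc (1 + ((50 * k + i : ℕ) : ℝ)) * rho R ^ 2 ≤ (52 * (m : ℝ) ^ (0.9995 : ℝ)) * (4 * U / m) :=
            mul_le_mul h5 hρ2 (sq_nonneg _) (by positivity)
        _ ≤ 1 / U ^ 100 := by
          rw [← mul_div_assoc, div_le_div_iff₀ hmr0 (by positivity), one_mul]
          calc 52 * (m : ℝ) ^ (0.9995 : ℝ) * (4 * U) * U ^ 100 = (m : ℝ) ^ (0.9995 : ℝ) * (208 * U ^ 101) := by ring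
            _ ≤ (m : ℝ) ^ (0.9995 : ℝ) * (m : ℝ) ^ (0.0005 : ℝ) := by
              apply mul_le_mul_of_nonneg_left _ (by positivity)
              have : 0 ≤ U ^ 101 := by positivity
              linarith
            _ = m := h6.symm
        _ = (1 / U ^ 50) ^ 2 := by rw [div_pow, ← pow_mul]; norm_num
    exact le_of_sq_le_sq h7 (by positivity)
  have he3 : ∀ V' : ℝ, 2 ^ (t + R) ≤ V' → ∀ c ∈ Cs t g B, ∀ w : ℝ, 0 ≤ w → w ≤ l * 3 ^ i →
      av V' (fun y => |fc f t c (y + w) - fc f t c y|) ≤ C3 * (1 / U ^ 50) := by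
    intro V' hV' c hc w hw0 hw
    have hcs : 2 * c ≤ t + 2 * B + 6 * g := by
      unfold Cs at hc; rw [mem_filter] at hc; exact hc.2.2
    have hwc : |w| * 3 ^ c ≤ 4 ^ (50 * k + i) * 2 ^ t := by
      rw [abs_of_nonneg hw0]
      have h5 := shift_size hl3 hcs hgB hBk hB2
      calc w * 3 ^ c ≤ (l * 3 ^ i) * 3 ^ c := mul_le_mul_of_nonneg_right hw (by positivity)
        _ = 3 ^ i * (l * 3 ^ c) := by ring
        _ ≤ 4 ^ i * (4 ^ (50 * k) * 2 ^ t) :=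
          mul_le_mul (pow_le_pow_left₀ (by norm_num) (by norm_num) i) h5 (by positivity) (by positivity)
        _ = _ := by rw [pow_add]; ring
    refine (fc_shift hf h3 hRn hV' hwc).trans ?_
    rw [mul_assoc]
    exact mul_le_mul_of_nonneg_left hsqn hC3.le
  -- η
  have hη : ∀ c c' : ℕ, (∑ w ∈ range (l * 3 ^ i), ∑ w' ∈ range (l * 3 ^ i), |av (3 ^ i * V) (fun y =>
        (ph d t g c (⌊y⌋ + (w : ℕ)) * ph d t g c (⌊y⌋ + (w' : ℕ))) *
          (ph d t g c' ((⌊y⌋ + (w : ℕ)) / 3 ^ i) * ph d t g c' ((⌊y⌋ + (w' : ℕ)) / 3 ^ i)))|) / (l * 3 ^ i : ℝ) ^ 2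
      ≤ D0 * Ceta / U ^ 49 := by
    intro c c'
    have him : (i : ℝ) ≤ m := by
      refine hi2.trans ?_
      calc (m : ℝ) ^ (0.9995 : ℝ) ≤ (m : ℝ) ^ (1 : ℝ) := Real.rpow_le_rpow_of_exponent_le hmr (by norm_num)
        _ = m := Real.rpow_one _
    have hin : i ≤ m := by exact_mod_cast him
    have hi10 : i ≤ t ^ 10 := by
      have h5 : m ≤ t ^ 10 := by
        calc m ≤ (t + 1) * L ^ 2 := q11.le
          _ ≤ (t * t) * (t ^ 2) := by
            apply Nat.mul_le_mul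
            · nlinarith
            · exact Nat.pow_le_pow_left hLt 2
          _ = t ^ 4 := by ring
          _ ≤ t ^ 10 := Nat.pow_le_pow_right ht1 (by norm_num)
      omega
    have h5 := hEta t k q g l i (hLt0.trans hLt) hD0k hq1' hqk hkt q4 hi10 hl2 V
      (le_trans (pow_le_pow_right₀ (by norm_num) (by omega)) hV) c c'
    refine h5.trans ?_
    rw [mul_div_assoc D0 Ceta]
    apply mul_le_mul_of_nonneg_left _ hD0.le
    have hlogt1 : Real.log t ≤ 2 * U := by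
      refine le_trans (Real.log_le_log ht00 ?_) p4
      linarith
    have hlogt2 : 0.1 * U ≤ Real.log t := by
      have a1 : (m : ℝ) ≤ 2 * t * U ^ 2 := by
        have : m ≤ 2 * t * L ^ 2 := q11.le.trans (Nat.mul_le_mul_right _ (by omega))
        rw [hU]; exact_mod_cast this
      have a2 := Real.log_le_log hmr0 a1
      rw [Real.log_mul (by positivity) (by positivity), Real.log_mul (by norm_num) ht00.ne', Real.log_pow] at a2
      have a3 : (1202 : ℝ) * Real.log U ≤ Real.log m := by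
        have b1 : U ^ 1202 ≤ m := by rw [hU]; exact_mod_cast p2
        have b2 := Real.log_le_log (by positivity) b1
        rw [Real.log_pow] at b2
        exact_mod_cast b2
      have a4 := Real.log_two_lt_d9
      push_cast at a2
      linarith
    have hlogt0 : 0 < Real.log t := by linarith
    have hA1 : √ (1 / (q : ℝ) + ((t : ℝ) + k) ^ 3 / (k : ℝ) ^ 4) ≤ 2 ^ 17 * (1 / U ^ 60) := by
      rw [Real.sqrt_le_left (by positivity)]
      have b1 : 1 / (q : ℝ) + ((t : ℝ) + k) ^ 3 / (k : ℝ) ^ 4 ≤ 2 ^ 34 * (1 / q) := by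
        have b2 : (2 : ℝ) ^ 33 / (q : ℝ) ^ 2 ≤ 2 ^ 33 * (1 / q) := by
          rw [div_eq_mul_one_div]
          apply mul_le_mul_of_nonneg_left _ (by norm_num)
          apply one_div_le_one_div_of_le hqr0
          nlinarith
        have b3 : 0 < 1 / (q : ℝ) := by positivity
        linarith
      refine b1.trans ?_
      calc 2 ^ 34 * (1 / (q : ℝ)) ≤ 2 ^ 34 * (1 / U ^ 120) :=
            mul_le_mul_of_nonneg_left (one_div_le_one_div_of_le (by positivity) hqU) (by norm_num)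
        _ = (2 ^ 17 * (1 / U ^ 60)) ^ 2 := by rw [mul_pow, div_pow, ← pow_mul, ← pow_mul]; norm_num
    have hA2 : √ (Real.log t / (q : ℝ)) ≤ 2 * (1 / U ^ 59) := by
      rw [Real.sqrt_le_left (by positivity)]
      calc Real.log t / (q : ℝ) ≤ 2 * U / U ^ 120 := div_le_div₀ (by positivity) hlogt1 (by positivity) hqU
        _ = 2 * (1 / U ^ 119) := by rw [show (120 : ℕ) = 1 + 119 by norm_num, pow_add]; field_simp
        _ ≤ 4 * (1 / U ^ 118) := by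
          have b1 := ivm 118 119 (by norm_num)
          have b2 : 0 < 1 / U ^ 119 := by positivity
          linarith
        _ = (2 * (1 / U ^ 59)) ^ 2 := by rw [mul_pow, div_pow, ← pow_mul]; norm_num
    have hA3 : 1 / Real.log t ^ 60 ≤ 10 ^ 60 * (1 / U ^ 60) := by
      calc 1 / Real.log t ^ 60 ≤ 1 / (0.1 * U) ^ 60 :=
            one_div_le_one_div_of_le (by positivity) (pow_le_pow_left₀ (by positivity) hlogt2 60)
        _ = 10 ^ 60 * (1 / U ^ 60) := by rw [mul_pow]; norm_num; field_simp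
    have hA4 : Real.exp (-(i : ℝ) ^ 2 / (2 * t)) ≤ ((Nat.factorial 60 : ℕ) : ℝ) * (1 / U ^ 60) := by
      have b1 : (m : ℝ) ≤ (i : ℝ) ^ 2 := by
        have := pow_le_pow_left₀ (Real.sqrt_nonneg _) hi1 2
        rwa [Real.sq_sqrt hmr0.le] at this
      have b2 : (t : ℝ) * U ^ 2 ≤ m := by rw [hU]; exact_mod_cast q10
      have b3 : -(i : ℝ) ^ 2 / (2 * t) ≤ -U := by
        rw [div_le_iff₀ (by positivity)]
        have b4 : U * (2 * t) ≤ U ^ 2 * t := by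
          have : 2 * U ≤ U ^ 2 := by nlinarith
          nlinarith
        linarith
      have b5 := Real.pow_div_factorial_le_exp U hU0.le 60
      calc Real.exp (-(i : ℝ) ^ 2 / (2 * t)) ≤ Real.exp (-U) := Real.exp_le_exp.2 b3
        _ = 1 / Real.exp U := by rw [Real.exp_neg, one_div]
        _ ≤ 1 / (U ^ 60 / ((Nat.factorial 60 : ℕ) : ℝ)) := one_div_le_one_div_of_le (by positivity) b5
        _ = _ := by rw [one_div_div]; ring
    have h6 := eta_small (U := U) (t := t) (g := g) (q := q) (V := V) (by linarith) hgr0 hqU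
      (by
        have : t ≤ 16 * g ^ 2 * L ^ 10 := by
          calc t ≤ 4 * (s * s) := q8
            _ ≤ 4 * ((2 * (g * L ^ 5)) * (2 * (g * L ^ 5))) := Nat.mul_le_mul_left _ (Nat.mul_le_mul q5 q5)
            _ = 16 * g ^ 2 * L ^ 10 := by ring
        rw [hU]; exact_mod_cast this)
      (by
        have : q ^ 5 ≤ 2 * (g * L ^ 5) := q9.trans q5
        rw [hU]; exact_mod_cast this)
      ht00.le hA1 hA2 hA3 hA4 (by positivity) (by
        rw [Real.rpow_natCast]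
        exact h2V.trans (h2tU.trans (ivm 49 100 (by norm_num)))) hgr
    rw [Real.rpow_natCast] at h6
    exact h6
  -- number of scales
  have hng : (#(Cs t g B) : ℝ) / g ≤ 12 * U ^ 8 := by
    have a1 := Cs_card t g B
    have a2 : #(Cs t g B) ≤ 6 * B := by omega
    have a3 : B ≤ 2 * g * L ^ 8 := by
      rw [hBs]
      calc s * L ^ 3 ≤ 2 * (g * L ^ 5) * L ^ 3 := Nat.mul_le_mul_right _ q5
        _ = 2 * g * L ^ 8 := by ring
    rw [div_le_iff₀ hgr0]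
    have a4 : #(Cs t g B) ≤ 12 * L ^ 8 * g := by
      calc #(Cs t g B) ≤ 6 * B := a2
        _ ≤ 6 * (2 * g * L ^ 8) := Nat.mul_le_mul_left _ a3
        _ = 12 * L ^ 8 * g := by ring
    rw [hU]; exact_mod_cast a4
  have hng0 : 0 ≤ (#(Cs t g B) : ℝ) / g := by positivity
  -- the abstract lemma
  have h3i : (0 : ℝ) < 3 ^ i := by positivity
  have hlamW : ((3 : ℝ) ^ i)⁻¹ * (3 ^ i * V) = V := by field_simp
  have hlast := stage_abs (d := d) (f := f) (t := t) (g := g) (B := B) hfb q4 (W := 3 ^ i * V) (lam := ((3 : ℝ) ^ i)⁻¹)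
    hW0 (by positivity) (inv_le_one_of_one_le₀ (one_le_pow₀ (by norm_num))) (l := l) (ℓ := l * 3 ^ i) hl1
    (by rw [inv_inv]; push_cast; rw [mul_comm])
    (by push_cast; rw [mul_comm, mul_assoc, mul_inv_cancel₀ h3i.ne', mul_one])
    (e₁ := (2 * C1 + 4) * (1 / U ^ 5)) (e₂ := 2 ^ 33 * C2 * (1 / U ^ 100)) (e₃ := C3 * (1 / U ^ 50))
    (η := D0 * Ceta / U ^ 49) (by positivity) (he1 _ hWR) (by rw [hlamW]; exact he1 _ hVR) he2
    (fun c hc w hw0 hw => he3 _ hWR c hc w hw0 (by push_cast at hw; exact hw))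
    (fun c hc w hw0 hw => by
      rw [hlamW]
      exact he3 _ hVR c hc w hw0 (hw.trans (le_mul_of_one_le_right hl0.le (one_le_pow₀ (by norm_num)))))
    (fun c _ c' _ => by
      have := hη c c'
      simp only [floor_three]
      push_cast
      push_cast at this
      exact this)
  rw [hlamW] at hlast
  -- identify the two means
  have ecor : av (3 ^ i * V) (fun y => f ⌊y⌋ * f ⌊((3 : ℝ) ^ i)⁻¹ * y⌋) = cor f V i := by
    rw [← av_scale hV0 h3i (fun y => f ⌊y⌋ * f ⌊((3 : ℝ) ^ i)⁻¹ * y⌋)]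
    unfold cor
    congr 1
    funext y
    rw [← mul_assoc, inv_mul_cancel₀ h3i.ne', one_mul, zpow_natCast, mul_comm]
  have ePf : av (3 ^ i * V) (fun y => Pf f d t g B y * Pf f d t g B (((3 : ℝ) ^ i)⁻¹ * y))
      = ∑ c ∈ Cs t g B, ∑ c' ∈ Cs t g B, pc d t g c * pc d t g c' *
        cor f (3 ^ c / 2 ^ t * V) ((i : ℤ) + c' - c) := by
    rw [← av_scale hV0 h3i (fun y => Pf f d t g B y * Pf f d t g B (((3 : ℝ) ^ i)⁻¹ * y)), ← Pf_corr hfb q4 hV0 i]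
    congr 1
    funext y
    rw [← mul_assoc (((3 : ℝ) ^ i)⁻¹), inv_mul_cancel₀ h3i.ne', one_mul]
  rw [ecor, ePf] at hlast
  refine hlast.trans ?_
  -- numeric
  have hsη : √ (D0 * Ceta / U ^ 49) ≤ S * (1 / U ^ 24) := by
    rw [Real.sqrt_le_left (by positivity), mul_pow, hS, Real.sq_sqrt (mul_pos hD0 Ceta_pos).le, div_pow, ← pow_mul]
    norm_num only
    rw [div_eq_mul_one_div]
    apply mul_le_mul_of_nonneg_left (ivm 48 49 (by norm_num)) (mul_pos hD0 Ceta_pos).le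
  have hlW : 2 * (l : ℝ) / (3 ^ i * V) ≤ 4 * (1 / U ^ 100) := by
    calc 2 * (l : ℝ) / (3 ^ i * V) ≤ 2 * l / V := div_le_div_of_nonneg_left (by positivity) hV0 hiV
      _ = 2 * (l / V) := by ring
      _ ≤ _ := by linarith
  have hlV' : 2 * (l : ℝ) / V ≤ 4 * (1 / U ^ 100) := by
    calc 2 * (l : ℝ) / V = 2 * (l / V) := by ring
      _ ≤ _ := by linarith
  have hℓW : 2 * ((l * 3 ^ i : ℕ) : ℝ) / (3 ^ i * V) ≤ 4 * (1 / U ^ 100) := by
    have : 2 * ((l * 3 ^ i : ℕ) : ℝ) / (3 ^ i * V) = 2 * l / V := by push_cast; field_simp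
    rw [this]; exact hlV'
  have i5 := ivm 4 5 (by norm_num)
  have z4 : 0 ≤ 1 / U ^ 4 := by positivity
  have k1 : (#(Cs t g B) : ℝ) / g * (2 * (2 ^ 33 * C2 * (1 / U ^ 100)) + 4 * (C3 * (1 / U ^ 50)) + 2 * l / (3 ^ i * V)
      + 2 * l / V) ≤ (24 * 2 ^ 33 * C2 + 48 * C3 + 96) * (1 / U ^ 4) := by
    calc _ ≤ (12 * U ^ 8) * (2 * (2 ^ 33 * C2 * (1 / U ^ 100)) + 4 * (C3 * (1 / U ^ 50)) + 4 * (1 / U ^ 100)
          + 4 * (1 / U ^ 100)) := by
          apply mul_le_mul hng _ (by positivity) (by positivity)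
          linarith
      _ = 24 * 2 ^ 33 * C2 * (U ^ 8 * (1 / U ^ (8 + 92))) + 48 * C3 * (U ^ 8 * (1 / U ^ (8 + 42)))
          + 96 * (U ^ 8 * (1 / U ^ (8 + 92))) := by norm_num only; ring
      _ = 24 * 2 ^ 33 * C2 * (1 / U ^ 92) + 48 * C3 * (1 / U ^ 42) + 96 * (1 / U ^ 92) := by rw [ivk, ivk]
      _ ≤ 24 * 2 ^ 33 * C2 * (1 / U ^ 4) + 48 * C3 * (1 / U ^ 4) + 96 * (1 / U ^ 4) :=
          add_le_add (add_le_add (mul_le_mul_of_nonneg_left (ivm _ _ (by norm_num)) (by positivity))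
            (mul_le_mul_of_nonneg_left (ivm _ _ (by norm_num)) (by positivity)))
            (mul_le_mul_of_nonneg_left (ivm _ _ (by norm_num)) (by positivity))
      _ = _ := by ring
  have k2 : ((#(Cs t g B) : ℝ) / g) ^ 2 * (√ (D0 * Ceta / U ^ 49) + 2 * (C3 * (1 / U ^ 50))
      + 2 * ((l * 3 ^ i : ℕ) : ℝ) / (3 ^ i * V)) ≤ (144 * S + 288 * C3 + 576) * (1 / U ^ 4) := by
    calc _ ≤ (12 * U ^ 8) ^ 2 * (S * (1 / U ^ 24) + 2 * (C3 * (1 / U ^ 50)) + 4 * (1 / U ^ 100)) := by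
          apply mul_le_mul (pow_le_pow_left₀ hng0 hng 2) _ (by positivity) (by positivity)
          linarith
      _ = 144 * S * (U ^ 16 * (1 / U ^ (16 + 8))) + 288 * C3 * (U ^ 16 * (1 / U ^ (16 + 34)))
          + 576 * (U ^ 16 * (1 / U ^ (16 + 84))) := by norm_num only; ring
      _ = 144 * S * (1 / U ^ 8) + 288 * C3 * (1 / U ^ 34) + 576 * (1 / U ^ 84) := by rw [ivk, ivk, ivk]
      _ ≤ 144 * S * (1 / U ^ 4) + 288 * C3 * (1 / U ^ 4) + 576 * (1 / U ^ 4) :=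
          add_le_add (add_le_add (mul_le_mul_of_nonneg_left (ivm _ _ (by norm_num)) (by positivity))
            (mul_le_mul_of_nonneg_left (ivm _ _ (by norm_num)) (by positivity)))
            (mul_le_mul_of_nonneg_left (ivm _ _ (by norm_num)) (by positivity))
      _ = _ := by ring
  have k3 : 2 * ((2 * C1 + 4) * (1 / U ^ 5)) ≤ (4 * C1 + 8) * (1 / U ^ 4) := by
    have := mul_le_mul_of_nonneg_left i5 (show 0 ≤ 4 * C1 + 8 by positivity)
    linarith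
  have k4 : (4 * C1 + 24 * 2 ^ 33 * C2 + 400 * C3 + 144 * S + 1000) / U ^ 4
      = (4 * C1 + 8) * (1 / U ^ 4) + (24 * 2 ^ 33 * C2 + 48 * C3 + 96) * (1 / U ^ 4)
        + (144 * S + 288 * C3 + 576) * (1 / U ^ 4) + (64 * C3 + 320) * (1 / U ^ 4) := by ring
  have k5 : 0 ≤ (64 * C3 + 320) * (1 / U ^ 4) := by positivity
  rw [k4]
  linarith

end Pool.Agent.KS6_24.ST
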