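import Mathlib
import Pool.Agent.KS6_24.ST.FM5
import Pool.Agent.KS6_24.ST.FGDefs

/-! FG5: `S_CORG` (after FM5). -/

set_option autoImplicit false

namespace Pool.Agent.KS6_24.ST

open Pool.Agent.H499R2.CO Pool.Agent.Y965.SI Finset Pool.Agent.KS6_24.LN Filter

theorem corg (hS : S_STAGEG) (hE3 : ∀ d : ℤ, d = 1 ∨ d = -1 → S_EN3 d) : S_CORG := by
  intro n A d hAd F hF hmz ε hε
  obtain ⟨hAo, hdd, _⟩ := id hAd
  have hA01 : 1 ≤ A 0 := by have := hAo 0; omega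
  obtain ⟨D, m0, hD, hm0, hS⟩ := hS (n + 1) A d hAd
  obtain ⟨C, hC, hci⟩ := ci (d 0) (hdd 0)
  obtain ⟨A3, Z0, hA3, hZ0, hen⟩ := hE3 (d 0) (hdd 0) (F 0) (hF 0) hmz ((ε / 4) ^ 2) (by positivity)
  have hfb : ∀ a x, |F a x| ≤ 1 := fun a => (hF a).1
  have hA0r : (1 : ℝ) ≤ A 0 := by exact_mod_cast hA01
  have hlA : 0 ≤ Real.log (A 0) := Real.log_nonneg hA0r
  -- eventual facts
  have F1 : ∀ᶠ m : ℕ in atTop, (m0 : ℝ) * (m : ℝ) ^ (0 : ℝ) ≤ (m : ℝ) ^ (0.995 : ℝ) := ev1 _ (by norm_num)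
  have F2 := ev3
  have F3 := ev4 (max 2 (96 * D / ε))
  have F4 : ∀ᶠ m : ℕ in atTop, 3 * (m : ℝ) ^ (0.9 : ℝ) ≤ (m : ℝ) ^ (0.9945 : ℝ) := ev1 _ (by norm_num)
  have F5 : ∀ᶠ m : ℕ in atTop, (4 + Real.log (A 0)) * (m : ℝ) ^ (0.9 : ℝ) ≤ (m : ℝ) ^ (0.995 : ℝ) := ev1 _ (by norm_num)
  have F6 : ∀ᶠ m : ℕ in atTop, (A3 * 2) * (m : ℝ) ^ (0.4975 : ℝ) ≤ (m : ℝ) ^ (0.4999 : ℝ) := ev1 _ (by norm_num)
  have F7 : ∀ᶠ m : ℕ in atTop, 2 * (m : ℝ) ^ (0.4999 : ℝ) ≤ (m : ℝ) ^ (0.995 : ℝ) := ev1 _ (by norm_num)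
  have F8 : ∀ᶠ m : ℕ in atTop, (2 * Real.log Z0) * (m : ℝ) ^ (0 : ℝ) ≤ (m : ℝ) ^ (0.995 : ℝ) := ev1 _ (by norm_num)
  have F9 : ∀ᶠ m : ℕ in atTop, (5 * C ^ 2 * (36 / ε ^ 2)) * Real.log (m + 1) ≤ (m : ℝ) ^ (0.0002 : ℝ) :=
    ev2 _ (by positivity) (by norm_num)
  have F10 : ∀ᶠ m : ℕ in atTop, 2 * (m : ℝ) ^ (0.4999 : ℝ) ≤ (m : ℝ) ^ (0.5 : ℝ) := ev1 _ (by norm_num)
  have F11 : ∀ᶠ m : ℕ in atTop, 3 * (m : ℝ) ^ (0.995 : ℝ) ≤ (m : ℝ) ^ (1 : ℝ) := ev1 _ (by norm_num)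
  have F12 : ∀ᶠ m : ℕ in atTop, (528 * (n + 1) * (4 / ε)) * (m : ℝ) ^ (1 : ℝ) ≤ (m : ℝ) ^ (1.8 : ℝ) := ev1 _ (by norm_num)
  obtain ⟨m1, hm1⟩ := eventually_atTop.1 ((F1.and (F2.and (F3.and (F4.and F5)))).and
    ((F6.and (F7.and (F8.and F9))).and (F10.and (F11.and F12))))
  refine ⟨2 ^ (max m1 2), one_le_pow₀ (by norm_num), ?_⟩
  intro W hV
  have hV1 : 1 ≤ W := le_trans (one_le_pow₀ (by norm_num)) hV
  obtain ⟨k, hk⟩ : ∃ k : Fin (n + 1) → ℕ, k = fun _ => 0 := ⟨_, rfl⟩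
  have hk' : (fun _ : Fin (n + 1) => (0 : ℤ)) = fun a => ((k a : ℕ) : ℤ) := by rw [hk]; simp
  rw [hk']
  have hka : ∀ a, k a = 0 := fun a => by rw [hk]
  have hk0 : ∃ a, k a = 0 := ⟨0, hka 0⟩
  obtain ⟨m, hmV1, hmV2⟩ := height hV1
  have hmm : max m1 2 ≤ m := by
    have : (2 : ℝ) ^ (max m1 2) < 2 ^ (m + 1) := lt_of_le_of_lt hV hmV2
    have := (pow_lt_pow_iff_right₀ (show (1 : ℝ) < 2 by norm_num)).1 this
    omega
  obtain ⟨⟨G1, G2, G3, G4, G5⟩, ⟨G6, G7, G8, G9⟩, G10, G11, G12⟩ := hm1 m ((le_max_left _ _).trans hmm)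
  have hmn2 : 2 ≤ m := (le_max_right _ _).trans hmm
  have hmn : 1 ≤ m := by omega
  have hm : (1 : ℝ) ≤ m := by exact_mod_cast hmn
  have hm00 : (0 : ℝ) < m := by linarith
  have hW0 : 0 < W := lt_of_lt_of_le (by positivity) hmV1
  have l2 := Real.log_two_gt_d9
  have l2' := Real.log_two_lt_d9
  have l3 := log3_lt
  have l30 : 0 < Real.log 3 := Real.log_pos (by norm_num)
  set L := Nat.log 2 m with hL
  set h := ⌈(m : ℝ) ^ (0.995 : ℝ)⌉₊ with hh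
  set K := ⌈(m : ℝ) ^ (0.4999 : ℝ)⌉₊ with hK
  have hh1 : (m : ℝ) ^ (0.995 : ℝ) ≤ h := Nat.le_ceil _
  have hh2 : (h : ℝ) ≤ 2 * (m : ℝ) ^ (0.995 : ℝ) := by
    have h1 : (h : ℝ) < (m : ℝ) ^ (0.995 : ℝ) + 1 := Nat.ceil_lt_add_one (by positivity)
    have h2 : (1 : ℝ) ≤ (m : ℝ) ^ (0.995 : ℝ) := Real.one_le_rpow hm (by norm_num)
    linarith
  have hK1 : (m : ℝ) ^ (0.4999 : ℝ) ≤ K := Nat.le_ceil _
  have hm49 : (1 : ℝ) ≤ (m : ℝ) ^ (0.4999 : ℝ) := Real.one_le_rpow hm (by norm_num)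
  have hK2 : (K : ℝ) ≤ 2 * (m : ℝ) ^ (0.4999 : ℝ) := by
    have h1 : (K : ℝ) < (m : ℝ) ^ (0.4999 : ℝ) + 1 := Nat.ceil_lt_add_one (by positivity)
    linarith
  have hKn : 1 ≤ K := by
    have : (1 : ℝ) ≤ K := hm49.trans hK1
    exact_mod_cast this
  have hL2 : 2 ≤ L := by
    have := (le_max_left _ _).trans G3
    exact_mod_cast this
  have hLr : (0 : ℝ) < L := by exact_mod_cast (show 0 < L by omega)
  have hL1r : (1 : ℝ) ≤ L := by exact_mod_cast (show 1 ≤ L by omega)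
  have hm0h : m0 ≤ h := by
    rw [Real.rpow_zero, mul_one] at G1
    have : (m0 : ℝ) ≤ h := G1.trans hh1
    exact_mod_cast this
  have hh0 : 1 ≤ h := by omega
  have hm5 : (m : ℝ) ^ (0.5 : ℝ) ≤ (m : ℝ) ^ (0.995 : ℝ) := Real.rpow_le_rpow_of_exponent_le hm (by norm_num)
  have hLh : L ^ 20 ≤ h := by
    have : ((L : ℕ) : ℝ) ^ 20 ≤ h := G2.trans (hm5.trans hh1)
    exact_mod_cast this
  have hLdiv : L ^ 18 ≤ h / L ^ 2 := by
    rw [Nat.le_div_iff_mul_le (by positivity)]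
    calc L ^ 18 * L ^ 2 = L ^ 20 := by ring
      _ ≤ h := hLh
  have hL10 : 1024 ≤ L ^ 10 := by
    calc 1024 = 2 ^ 10 := by norm_num
      _ ≤ L ^ 10 := Nat.pow_le_pow_left hL2 10
  have hL31 : L ^ 3 + 1 ≤ 2 * L ^ 3 := by
    have : 1 ≤ L ^ 3 := Nat.one_le_pow _ _ (by omega)
    omega
  have hc1 : 256 * (L ^ 3 + 1) ^ 2 ≤ h / L ^ 2 := by
    refine le_trans ?_ hLdiv
    calc 256 * (L ^ 3 + 1) ^ 2 ≤ 256 * (2 * L ^ 3) ^ 2 := Nat.mul_le_mul_left _ (Nat.pow_le_pow_left hL31 2)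
      _ = 1024 * L ^ 6 := by ring
      _ ≤ L ^ 10 * L ^ 6 := Nat.mul_le_mul_right _ hL10
      _ = L ^ 16 := by ring
      _ ≤ L ^ 18 := Nat.pow_le_pow_right (by omega) (by norm_num)
  have hc2 : L ^ 10 ≤ h / L ^ 2 := le_trans (Nat.pow_le_pow_right (by omega) (by norm_num)) hLdiv
  have hsm : (m : ℝ) ^ (0.5 : ℝ) = √ m := by rw [Real.sqrt_eq_rpow]; norm_num
  rw [hsm] at G10 hm5
  rw [Real.rpow_one] at G11 G12
  have hsqm0 : 0 < √ (m : ℝ) := Real.sqrt_pos.2 hm00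
  -- the width
  set G : ℝ := (m : ℝ) ^ (0.9 : ℝ) with hG
  have hG0 : 0 < G := by positivity
  have hG2 : G ^ 2 = (m : ℝ) ^ (1.8 : ℝ) := by
    rw [hG, ← Real.rpow_natCast, ← Real.rpow_mul hm00.le]; norm_num
  have hsG : √ (m : ℝ) ≤ G := by
    rw [← hsm]; exact Real.rpow_le_rpow_of_exponent_le hm (by norm_num)
  have hup : ∀ j : Fin (n + 1) → ℕ, (∃ a, j a = 0) → (∀ a, |((j a : ℝ) - j 0) - ((k a : ℝ) - k 0)| ≤ G / 4) →
      ∀ a, (j a : ℝ) ≤ G := by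
    intro j hj0 hj a
    obtain ⟨b, hb⟩ := hj0
    have h1 := abs_le.1 (hj b)
    have h2 := abs_le.1 (hj a)
    rw [hb, hka b, hka 0] at h1
    rw [hka a, hka 0] at h2
    push_cast at h1 h2
    linarith [h1.1, h1.2, h2.1, h2.2]
  have hcore := coreM (F := F) (A := A) (L := L) (m := m) (h := h) (K := K) (G := G) (γ := ε / 4) (δ := fun a => (k a : ℝ) - k 0)
    hfb hA01 hD (fun m L a b c V e i g => hS F hF m L a b c V e i g) (by simp) hKn hm0h hh0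
    (fun m' h1 h2 => by
      have e1 : Nat.log 2 m' ≤ L := Nat.log_mono_right h2
      refine ⟨e1, ?_⟩
      have e2 : m ≤ m' ^ 2 := by
        have h3 : (m : ℝ) ≤ (m' : ℝ) ^ 2 := by
          have h4 : √ (m : ℝ) ≤ m' := by
            have h6 : (h : ℝ) ≤ m' := by exact_mod_cast h1
            linarith
          calc (m : ℝ) = √ (m : ℝ) ^ 2 := (Real.sq_sqrt hm00.le).symm
            _ ≤ (m' : ℝ) ^ 2 := pow_le_pow_left₀ (by positivity) h4 2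
        exact_mod_cast h3
      have e3 : m' < 2 ^ (Nat.log 2 m' + 1) := Nat.lt_pow_succ_log_self (by norm_num) m'
      have e4 : 2 ^ L ≤ m := Nat.pow_log_le_self 2 (by omega)
      have e5 : 2 ^ L < 2 ^ (2 * (Nat.log 2 m' + 1)) := by
        calc 2 ^ L ≤ m := e4
          _ ≤ m' ^ 2 := e2
          _ < (2 ^ (Nat.log 2 m' + 1)) ^ 2 := Nat.pow_lt_pow_left e3 (by norm_num)
          _ = 2 ^ (2 * (Nat.log 2 m' + 1)) := by rw [← pow_mul, mul_comm]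
      have e6 := (Nat.pow_lt_pow_iff_right (show 1 < 2 by norm_num)).1 e5
      have e7 : 1 ≤ Nat.log 2 m' := by
        have : 2 ^ 20 ≤ L ^ 20 := Nat.pow_le_pow_left hL2 20
        exact Nat.le_log_of_pow_le (by norm_num) (by omega)
      omega) hL2 hc1 hc2 hG0 (by positivity)
    (fun m' h1 h2 j hj0 hj x hx => by
      have hx' : (x : ℝ) ≤ √ (m : ℝ) := by
        have : (x : ℝ) ≤ K := by exact_mod_cast hx.le
        linarith
      have hi1' : ∀ a : Fin (n + 1), (if a = 0 then ((x : ℕ) : ℝ) else 0) ≤ √ (m : ℝ) := fun a => by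
        by_cases h5 : a = 0
        · rw [if_pos h5]; exact hx'
        · rw [if_neg h5]; exact hsqm0.le
      intro a
      have e1 := hup j hj0 hj a
      have e2 : (m : ℝ) ^ (0.995 : ℝ) ≤ m' := hh1.trans (by exact_mod_cast h1)
      calc (j a : ℝ) + (if a = 0 then ((x : ℕ) : ℝ) else 0) ≤ 3 * (m : ℝ) ^ (0.9 : ℝ) := by
            rw [← hG]; linarith [hi1' a]
        _ ≤ (m : ℝ) ^ (0.9945 : ℝ) := G4
        _ ≤ (m : ℝ) ^ ((0.995 : ℝ) * 0.9995) := Real.rpow_le_rpow_of_exponent_le hm (by norm_num)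
        _ = ((m : ℝ) ^ (0.995 : ℝ)) ^ (0.9995 : ℝ) := Real.rpow_mul hm00.le _ _
        _ ≤ (m' : ℝ) ^ (0.9995 : ℝ) := Real.rpow_le_rpow (by positivity) e2 (by norm_num))
    (fun V' h1 h2 j hj0 hj => by
      have b := hup j hj0 hj 0
      have hV'0 : 0 < V' := lt_of_lt_of_le (by positivity) h1
      have hlz : Real.log ((A 0 * 3 ^ j 0 : ℕ) * V') = Real.log (A 0) + j 0 * Real.log 3 + Real.log V' := by
        push_cast
        rw [Real.log_mul (by positivity) hV'0.ne', Real.log_mul (by positivity) (by positivity), Real.log_pow]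
      have hj0' : (0 : ℝ) ≤ j 0 := Nat.cast_nonneg _
      have hh0r : (0 : ℝ) < h := by exact_mod_cast hh0
      have e1 : Real.log V' ≤ 1.4 * h := by
        have := Real.log_le_log hV'0 h2.le
        rw [Real.log_pow] at this
        push_cast at this
        nlinarith
      have e2 : 0.69 * h ≤ Real.log V' := by
        have := Real.log_le_log (by positivity) h1
        rw [Real.log_pow] at this
        nlinarith
      have e0 : 0 < (m : ℝ) ^ (0.995 : ℝ) := by positivity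
      have e3 : Real.log ((A 0 * 3 ^ j 0 : ℕ) * V') ≤ 4 * (m : ℝ) ^ (0.995 : ℝ) := by
        rw [hlz]
        have : (j 0 : ℝ) * Real.log 3 ≤ (m : ℝ) ^ (0.9 : ℝ) * 1.1 :=
          mul_le_mul (by rw [← hG]; linarith) l3.le l30.le (by positivity)
        have e9 : (1 : ℝ) ≤ (m : ℝ) ^ (0.9 : ℝ) := Real.one_le_rpow hm (by norm_num)
        have e10 : Real.log (A 0) ≤ Real.log (A 0) * (m : ℝ) ^ (0.9 : ℝ) := le_mul_of_one_le_right hlA e9
        have e11 : (4 + Real.log (A 0)) * (m : ℝ) ^ (0.9 : ℝ) = 4 * (m : ℝ) ^ (0.9 : ℝ) + Real.log (A 0) * (m : ℝ) ^ (0.9 : ℝ) := by ring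
        rw [e11] at G5
        linarith only [this, e1, hh2, G5, e0, e9, e10]
      have e4 : 0.69 * (m : ℝ) ^ (0.995 : ℝ) ≤ Real.log ((A 0 * 3 ^ j 0 : ℕ) * V') := by
        rw [hlz]
        have : 0 ≤ (j 0 : ℝ) * Real.log 3 := by positivity
        linarith only [this, e2, hh1, hlA]
      have hlz0 : 0 ≤ Real.log ((A 0 * 3 ^ j 0 : ℕ) * V') := by linarith
      have hz : 0 < (A 0 * 3 ^ j 0 : ℕ) * V' := by positivity
      have hZ : Z0 ≤ (A 0 * 3 ^ j 0 : ℕ) * V' := by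
        rw [Real.rpow_zero, mul_one] at G8
        rw [← Real.log_le_log_iff (by linarith) hz]
        rcases le_or_gt (Real.log Z0) 0 with h5 | h5
        · linarith
        · linarith
      have hKlow : A3 * √ (Real.log ((A 0 * 3 ^ j 0 : ℕ) * V')) ≤ K := by
        have h5 : √ (Real.log ((A 0 * 3 ^ j 0 : ℕ) * V')) ≤ 2 * (m : ℝ) ^ (0.4975 : ℝ) := by
          rw [Real.sqrt_le_left (by positivity), mul_pow, ← Real.rpow_natCast ((m : ℝ) ^ (0.4975 : ℝ)) 2,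
            ← Real.rpow_mul hm00.le]
          norm_num at e3 ⊢
          linarith only [e3]
        calc A3 * √ (Real.log ((A 0 * 3 ^ j 0 : ℕ) * V')) ≤ A3 * (2 * (m : ℝ) ^ (0.4975 : ℝ)) := mul_le_mul_of_nonneg_left h5 hA3.le
          _ = (A3 * 2) * (m : ℝ) ^ (0.4975 : ℝ) := by ring
          _ ≤ (m : ℝ) ^ (0.4999 : ℝ) := G6
          _ ≤ K := hK1
      have h6 := hen ((A 0 * 3 ^ j 0 : ℕ) * V') hZ K hKlow (by linarith)
      have hKr : (0 : ℝ) < K := by exact_mod_cast hKn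
      have b1 : ∀ x : ℕ, Bd 1 (fun y : ℝ => F 0 ⌊3 ^ x * y⌋) := fun x =>
        Bd.flc (F := F 0) (hfb 0) (g := fun y : ℝ => (3 : ℝ) ^ x * y) (by fun_prop)
      have b2 : Bd (|1 / (K : ℝ)| * ∑ x ∈ range K, (1 : ℝ)) (fun y : ℝ => (∑ x ∈ range K, F 0 ⌊3 ^ x * y⌋) / K) := by
        have e5 : (fun y : ℝ => (∑ x ∈ range K, F 0 ⌊3 ^ x * y⌋) / K) = fun y => (1 / (K : ℝ)) * ∑ x ∈ range K, F 0 ⌊3 ^ x * y⌋ := by
          funext y; ring
        rw [e5]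
        exact (Bd.sum fun x _ => b1 x).cmul _
      refine (av_abs_le_sqrt hz b2).trans ?_
      calc _ ≤ √ ((ε / 4) ^ 2) := Real.sqrt_le_sqrt h6
        _ = ε / 4 := Real.sqrt_sq (by positivity))
  -- the value at the top
  have hhm : h ≤ m := by
    have : (h : ℝ) ≤ m := by linarith only [hh2, G11, Real.rpow_nonneg hm00.le (0.995 : ℝ)]
    exact_mod_cast this
  have hb := hcore m hhm le_rfl W hmV1 hmV2 k hk0
  have e0 : ∑ a, (((k a : ℝ) - k 0) - ((k a : ℝ) - k 0)) ^ 2 = 0 := by simp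
  rw [e0, mul_zero] at hb
  have t1 : 528 * (n + 1) * (m : ℝ) / G ^ 2 ≤ ε / 4 := by
    rw [hG2, div_le_iff₀ (by positivity)]
    have h3 := mul_le_mul_of_nonneg_left G12 (show 0 ≤ ε / 4 by positivity)
    have e5 : ε / 4 * ((528 * ((n : ℝ) + 1) * (4 / ε)) * m) = 528 * (n + 1) * m := by field_simp
    linarith
  have t2 : 12 * D / (L : ℝ) ^ 2 * (Real.log m - Real.log h) ≤ ε / 4 := by
    have h1 : Real.log m ≤ 2 * L := by
      have h2 : (m : ℝ) ≤ 2 ^ (L + 1) := by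
        exact_mod_cast (Nat.lt_pow_succ_log_self (by norm_num) m).le
      have h3 := Real.log_le_log hm00 h2
      rw [Real.log_pow] at h3
      push_cast at h3
      have h4 : (2 : ℝ) ≤ L := by exact_mod_cast hL2
      nlinarith
    have h2 : 0 ≤ Real.log h := Real.log_nonneg (by exact_mod_cast hh0)
    have h3 : 96 * D / ε ≤ L := (le_max_right _ _).trans G3
    rw [div_le_iff₀ hε] at h3
    calc 12 * D / (L : ℝ) ^ 2 * (Real.log m - Real.log h) ≤ 12 * D / (L : ℝ) ^ 2 * (2 * L) :=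
          mul_le_mul_of_nonneg_left (by linarith) (by positivity)
      _ = 24 * D / L := by field_simp; ring
      _ ≤ ε / 4 := by
        rw [div_le_iff₀ hLr]; linarith
  -- smoothing at the top
  have t3 : |cf F A W (fun a => k a) - blM F A K W (fun a => k a)| ≤ ε / 6 := by
    apply smooth_topM hfb hA01 hKn hW0 k
    intro x hx
    have h2 := hci (F 0) (hF 0) m hmn ((A 0 * 3 ^ k 0 : ℕ) * W) (le_trans hmV1 (le_mul_of_one_le_left hW0.le (by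
        have : 1 ≤ A 0 * 3 ^ k 0 := Nat.mul_pos hA01 (by positivity)
        exact_mod_cast this))) x 0 0
      (by simp)
    refine h2.trans ?_
    have hρ := rho_nonneg m
    have h5 : 1 + (x : ℝ) ^ 2 + ((0 : ℕ) : ℝ) ≤ 5 * (m : ℝ) ^ (0.9998 : ℝ) := by
      have h6 : (x : ℝ) ≤ K := by exact_mod_cast hx.le
      have h7 : (x : ℝ) ^ 2 ≤ (2 * (m : ℝ) ^ (0.4999 : ℝ)) ^ 2 :=
        pow_le_pow_left₀ (Nat.cast_nonneg _) (h6.trans hK2) 2
      have h8 : (2 * (m : ℝ) ^ (0.4999 : ℝ)) ^ 2 = 4 * (m : ℝ) ^ (0.9998 : ℝ) := by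
        rw [mul_pow, ← Real.rpow_natCast ((m : ℝ) ^ (0.4999 : ℝ)) 2, ← Real.rpow_mul hm00.le]
        norm_num
      have h9 : (1 : ℝ) ≤ (m : ℝ) ^ (0.9998 : ℝ) := Real.one_le_rpow hm (by norm_num)
      rw [h8] at h7
      push_cast
      linarith
    have h6 : (C * √ (1 + (x : ℝ) ^ 2 + ((0 : ℕ) : ℝ)) * rho m) ^ 2 ≤ (ε / 6) ^ 2 := by
      rw [mul_pow, mul_pow, Real.sq_sqrt (by positivity), rho_sq hmn]
      have h7 : (m : ℝ) ^ (0.0002 : ℝ) * (m : ℝ) ^ (0.9998 : ℝ) = m := by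
        rw [← Real.rpow_add hm00]; norm_num
      have hlog0 : 0 ≤ Real.log ((m : ℝ) + 1) := Real.log_nonneg (by linarith only [hm])
      calc C ^ 2 * (1 + (x : ℝ) ^ 2 + ((0 : ℕ) : ℝ)) * (Real.log (m + 1) / m)
          ≤ C ^ 2 * (5 * (m : ℝ) ^ (0.9998 : ℝ)) * (Real.log (m + 1) / m) := by
            apply mul_le_mul_of_nonneg_right _ (by positivity)
            exact mul_le_mul_of_nonneg_left h5 (by positivity)
        _ = (5 * C ^ 2 * (36 / ε ^ 2) * Real.log (m + 1)) * (m : ℝ) ^ (0.9998 : ℝ) * (ε ^ 2 / 36) / m := by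
            field_simp
        _ ≤ (m : ℝ) ^ (0.0002 : ℝ) * (m : ℝ) ^ (0.9998 : ℝ) * (ε ^ 2 / 36) / m := by
            apply div_le_div_of_nonneg_right _ hm00.le
            apply mul_le_mul_of_nonneg_right _ (by positivity)
            exact mul_le_mul_of_nonneg_right G9 (by positivity)
        _ = (ε / 6) ^ 2 := by rw [h7]; field_simp; norm_num
    exact le_of_sq_le_sq h6 (by positivity)
  have h9 := abs_sub_abs_le_abs_sub (cf F A W (fun a => k a)) (blM F A K W (fun a => k a))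
  linarith


end Pool.Agent.KS6_24.ST
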