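import Mathlib
import Pool.Agent.KS6_24.ST.PLDefs

/-! PL7: the pair law with the error function. -/

set_option autoImplicit false

namespace Pool.Agent.KS6_24.ST

open Pool.Agent.H499R2.CO Pool.Agent.Y965.SI Finset Filter Topology Pool.Agent.KS6_24.LN

open Pool.Agent.T6.H47.CL (uu Er uu_lim Er_mono Er_lip Er_zero Er_top Er_le_one Er_nonneg)

/-- `Er` varies slowly in the ratio -/
theorem Er_ratio {ε : ℝ} (hε : 0 < ε) : ∃ κ : ℝ, 0 < κ ∧ ∀ x x' : ℝ, 0 ≤ x → x ≤ x' → x' ≤ (1 + κ) * x →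
    |Er x' - Er x| ≤ ε := by
  obtain ⟨X0, hX0⟩ := eventually_atTop.1 (Er_top.eventually (eventually_ge_nhds (show 1 - ε < 1 by linarith)))
  obtain ⟨X, hX⟩ : ∃ X, X = max X0 0 := ⟨_, rfl⟩
  have hXX : X0 ≤ X := by rw [hX]; exact le_max_left _ _
  have hX00 : 0 ≤ X := by rw [hX]; exact le_max_right _ _
  refine ⟨ε / (2 * X + 1), by positivity, fun x x' hx hxx' hx' => ?_⟩
  rw [abs_of_nonneg (sub_nonneg.2 (Er_mono hxx'))]
  rcases le_or_gt X x with h | h
  · have h1 := hX0 x (hXX.trans h)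
    have h2 := Er_le_one x'
    linarith
  · have h1 := Er_lip hxx'
    have h2 : ε / (2 * X + 1) * x ≤ ε / (2 * X + 1) * X := mul_le_mul_of_nonneg_left h.le (by positivity)
    have h3 : 2 * (ε / (2 * X + 1) * X) ≤ ε := by
      have e : 2 * (ε / (2 * X + 1) * X) = ε * (2 * X / (2 * X + 1)) := by ring
      rw [e]
      have h4 : 2 * X / (2 * X + 1) ≤ 1 := by rw [div_le_one (by positivity)]; linarith
      nlinarith
    nlinarith

/-- the mean of the square is between 0 and 1 -/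
theorem q_mem {f : ℤ → ℝ} (hf : ∀ x, |f x| ≤ 1) {q : ℝ} (hq : MeanZero (fun x => f x ^ 2 - q)) : 0 ≤ q ∧ q ≤ 1 := by
  unfold MeanZero at hq
  have h1 : Tendsto (fun N : ℕ => (∑ n ∈ range N, f (n : ℕ) ^ 2) / N) atTop (𝓝 q) := by
    have h2 := hq.add_const q
    rw [zero_add] at h2
    refine h2.congr' ?_
    filter_upwards [eventually_ge_atTop 1] with N hN
    have hN' : (0 : ℝ) < N := by exact_mod_cast hN
    rw [sum_sub_distrib, sum_const, card_range, nsmul_eq_mul]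
    field_simp
    ring
  have hb : ∀ n : ℤ, 0 ≤ f n ^ 2 ∧ f n ^ 2 ≤ 1 := fun n => ⟨sq_nonneg _, by
    rw [← sq_abs]
    exact pow_le_one₀ (abs_nonneg _) (hf n)⟩
  constructor
  · apply ge_of_tendsto h1
    filter_upwards with N
    exact div_nonneg (sum_nonneg fun n _ => (hb _).1) (Nat.cast_nonneg _)
  · apply le_of_tendsto h1
    filter_upwards with N
    apply div_le_one_of_le₀ _ (Nat.cast_nonneg _)
    calc ∑ n ∈ range N, f (n : ℕ) ^ 2 ≤ ∑ n ∈ range N, (1 : ℝ) := sum_le_sum fun n _ => (hb _).2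
      _ = N := by simp

theorem pl_gm_pos : 0 < gm := by
  unfold gm
  have h1 := Real.log_lt_log (x := 3) (y := 4) (by norm_num) (by norm_num)
  have h2 : Real.log 4 = 2 * Real.log 2 := by
    rw [show (4 : ℝ) = 2 ^ 2 by norm_num, Real.log_pow]; norm_num
  linarith

theorem ple (d : ℤ) (hU : S_U) (h : S_PL d) : S_PLE d := by
  intro f hf hm q hq ε hε
  obtain ⟨hq0, hq1⟩ := q_mem hf.1 hq
  obtain ⟨V1, hV1, hpl⟩ := h f hf hm q hq (ε / 3) (by positivity)
  obtain ⟨C, hC, _, _, _, _, _, _, hUu⟩ := hU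
  obtain ⟨K0, hK0⟩ := uu_lim (show 0 < ε / 3 by positivity)
  obtain ⟨κ, hκ, hEr⟩ := Er_ratio (show 0 < ε / 3 by positivity)
  have hg := pl_gm_pos
  -- growth
  have hlim : Tendsto (fun V : ℝ => 2 * Real.log V / gm) atTop atTop := by
    apply Tendsto.atTop_div_const hg
    exact Real.tendsto_log_atTop.const_mul_atTop (by norm_num)
  obtain ⟨V2, hV2⟩ := eventually_atTop.1 ((hlim.eventually_ge_atTop ((K0 : ℝ) + 1)).and
    ((hlim.eventually_ge_atTop (1 / κ + 1)).and ((hlim.eventually_ge_atTop 2).and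
      (Real.tendsto_log_atTop.eventually_ge_atTop 1))))
  refine ⟨max V1 V2, by have := le_max_left V1 V2; linarith, fun V hV i hi => ?_⟩
  have hVV1 : V1 ≤ V := (le_max_left _ _).trans hV
  obtain ⟨hy1, hy2, hy3, hl1⟩ := hV2 V ((le_max_right _ _).trans hV)
  obtain ⟨y, hy⟩ : ∃ y, y = 2 * Real.log V / gm := ⟨_, rfl⟩
  rw [← hy] at hy1 hy2 hy3
  have hk : kk V = ⌊y⌋₊ := by rw [hy]; rfl
  obtain ⟨k, hkk⟩ : ∃ k, k = kk V := ⟨_, rfl⟩
  have hy0 : 0 ≤ y := by linarith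
  have hk1 : (k : ℝ) ≤ y := by rw [hkk, hk]; exact Nat.floor_le hy0
  have hk2 : y < k + 1 := by rw [hkk, hk]; exact Nat.lt_floor_add_one y
  have hk0 : K0 ≤ k := by
    have : (K0 : ℝ) ≤ k := by linarith
    exact_mod_cast this
  have hkp : (1 : ℝ) ≤ k := by linarith
  have hkp' : (0 : ℝ) < k := by linarith
  have h1 := hpl V hVV1 i hi
  have h2 := hK0 k hk0 (2 * i)
  have h3 : UU (kk V) (2 * i) = uu k (2 * i) := by
    have := hUu k (2 * i)
    rw [← hkk, ← this]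
    push_cast; rfl
  -- the two arguments
  obtain ⟨x, hx⟩ : ∃ x, x = √2 * (i * √ (gm / Real.log V)) := ⟨_, rfl⟩
  obtain ⟨x', hx'⟩ : ∃ x', x' = ((2 * i : ℕ) : ℝ) / √k := ⟨_, rfl⟩
  have hxy : x = ((2 * i : ℕ) : ℝ) / √y := by
    rw [hx, hy]
    have e1 : gm / Real.log V = 2 / (2 * Real.log V / gm) := by field_simp
    have e2 : √ (gm / Real.log V) = √2 / √ (2 * Real.log V / gm) := by
      rw [e1, Real.sqrt_div (by norm_num)]
    rw [e2]
    have e3 : √2 * √2 = 2 := Real.mul_self_sqrt (by norm_num)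
    push_cast
    calc √2 * (i * (√2 / √ (2 * Real.log V / gm))) = (√2 * √2) * i / √ (2 * Real.log V / gm) := by ring
      _ = 2 * i / √ (2 * Real.log V / gm) := by rw [e3]
  have hx0 : 0 ≤ x := by rw [hx]; positivity
  have hsk : 0 < √ (k : ℝ) := Real.sqrt_pos.2 hkp'
  have hsy : 0 < √ y := Real.sqrt_pos.2 (by linarith)
  have hsky : √ (k : ℝ) ≤ √ y := Real.sqrt_le_sqrt hk1
  have hxx' : x ≤ x' := by
    rw [hxy, hx']
    exact div_le_div_of_nonneg_left (Nat.cast_nonneg _) hsk hsky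
  have hxx2 : x' ≤ (1 + κ) * x := by
    rw [hxy, hx', div_eq_mul_inv, div_eq_mul_inv, ← mul_assoc, mul_comm (1 + κ), mul_assoc]
    apply mul_le_mul_of_nonneg_left _ (Nat.cast_nonneg _)
    rw [← div_eq_mul_inv, inv_eq_one_div, div_le_div_iff₀ hsk hsy, one_mul]
    have e1 : √ y ≤ √ ((1 + κ) ^ 2 * k) := by
      apply Real.sqrt_le_sqrt
      have e2 : 1 ≤ κ * k := by
        have : 1 / κ ≤ k := by linarith
        rw [div_le_iff₀ hκ] at this
        linarith
      nlinarith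
    rw [Real.sqrt_mul (by positivity), Real.sqrt_sq (by positivity)] at e1
    exact e1
  have h4 := hEr x x' hx0 hxx' hxx2
  rw [← hx']at h2
  rw [h3] at h1
  rw [← hx]
  -- conclusion
  have e : cor f V i - q * (1 - Er x) = (cor f V i - q * (1 - uu k (2 * i))) - q * (uu k (2 * i) - Er x')
      - q * (Er x' - Er x) := by ring
  rw [e]
  have h5 : |q * (uu k (2 * i) - Er x')| ≤ ε / 3 := by
    rw [abs_mul, abs_of_nonneg hq0]
    calc q * |uu k (2 * i) - Er x'| ≤ 1 * (ε / 3) := mul_le_mul hq1 h2 (abs_nonneg _) (by norm_num)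
      _ = ε / 3 := one_mul _
  have h6 : |q * (Er x' - Er x)| ≤ ε / 3 := by
    rw [abs_mul, abs_of_nonneg hq0]
    calc q * |Er x' - Er x| ≤ 1 * (ε / 3) := mul_le_mul hq1 h4 (abs_nonneg _) (by norm_num)
      _ = ε / 3 := one_mul _
  rw [abs_le] at h1 h5 h6 ⊢
  constructor <;> linarith [h1.1, h1.2, h5.1, h5.2, h6.1, h6.2]

end Pool.Agent.KS6_24.ST
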