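import Mathlib
import Pool.Agent.KS6_24.ST.PL7
import Pool.Agent.KS6_24.ST.Lln3

/-! PL8: the pair law for sets, uniform in the level and in the shift. -/

set_option autoImplicit false

namespace Pool.Agent.KS6_24.ST

open Pool.Agent.H499R2.CO Pool.Agent.Y965.SI Finset Filter Topology MeasureTheory Pool.Agent.KS6_24.LN

open Pool.Agent.T6.H47.CL (Er Er_mono Er_le_one Er_nonneg)

open Classical in
/-- the survivors among the numbers `3 ^ j m + r` -/
theorem surv_block3r {d : ℤ} (hd : d % 2 = 1) (R j : ℕ) (s : ℕ × ℤ) (a r : ℤ) :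
    ∑ i ∈ range (2 ^ R), (if surv d R s (3 ^ j * (a + (i : ℕ)) + r) then (1 : ℝ) else 0)
      = 2 ^ R * q step (0, 0) R s := by
  rw [← count_surv hd]
  have h3 : ((3 : ℤ) ^ j) % 2 = 1 := by
    have : Odd ((3 : ℤ) ^ j) := Odd.pow (by decide)
    obtain ⟨k, hk⟩ := this
    omega
  have h1 := sum_affine R (fun x : ℤ => if surv d R s x then (1 : ℝ) else 0)
    (by intro x m; simp only [surv_periodic hd]) (a := 3 ^ j) h3 (3 ^ j * a + r)
  rw [← h1]
  apply sum_congr rfl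
  intro i _
  have e : (3 : ℤ) ^ j * (a + (i : ℕ)) + r = 3 ^ j * (i : ℕ) + (3 ^ j * a + r) := by ring
  rw [e]

/-- coalescence of `3 ^ j n + r` and `⌊3 ^ j y⌋` -/
theorem cjr (d : ℤ) (hd : d = 1 ∨ d = -1) : ∃ C : ℝ, 0 < C ∧ ∀ f : ℤ → ℝ, InvF d f → ∀ R : ℕ, 1 ≤ R →
    ∀ V : ℝ, 2 ^ R ≤ V → ∀ (j : ℕ) (r : ℤ), |r| ≤ 3 ^ j →
      av V (fun y => |f (3 ^ j * ⌊y⌋ + r) - f ⌊3 ^ j * y⌋|) ≤ C * √ (1 + ((j + 1 : ℕ) : ℝ)) * rho R := by
  classical
  have hd2 : d % 2 = 1 := by rcases hd with rfl | rfl <;> decide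
  have hdd : d * d = 1 := by rcases hd with rfl | rfl <;> norm_num
  obtain ⟨C0, hC0, hq⟩ := q_rate
  refine ⟨6 * C0, by positivity, ?_⟩
  intro f hf R hR V hV j r hr
  have hVR : ((2 ^ R : ℕ) : ℝ) ≤ V := by push_cast; exact hV
  have hρ := rho_nonneg R
  have hr' : |(r : ℝ)| ≤ 3 ^ j := by exact_mod_cast hr
  set Q : ℝ := C0 * √ (1 + ((0 : ℕ) : ℝ) ^ 2 + ((j + 1 : ℕ) : ℝ)) * rho R with hQ
  have key : av V (fun y => |f (3 ^ j * ⌊y⌋ + r) - f ⌊3 ^ j * y⌋|) ≤ 3 * (2 * Q) := by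
    apply av_le_block (B := 2) (P := 2 ^ R) _ _ _ Nat.one_le_two_pow hVR
    · intro θ hθ0 hθ1 a
      set s : ℤ := ⌊3 ^ j * θ⌋ - r with hs
      have hsu : |((d * s : ℤ) : ℝ)| ≤ 4 ^ (j + 1) := by
        have e1 : |((d * s : ℤ) : ℝ)| = |(s : ℝ)| := by
          push_cast; rw [abs_mul]
          rcases hd with rfl | rfl <;> simp
        rw [e1]
        have h1 : ((⌊3 ^ j * θ⌋ : ℤ) : ℝ) ≤ 3 ^ j * θ := Int.floor_le _
        have h2 : 0 ≤ ⌊3 ^ j * θ⌋ := Int.floor_nonneg.2 (by positivity)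
        have h2' : (0 : ℝ) ≤ ((⌊3 ^ j * θ⌋ : ℤ) : ℝ) := by exact_mod_cast h2
        have h3 : (3 : ℝ) ^ j ≤ 4 ^ j := pow_le_pow_left₀ (by norm_num) (by norm_num) j
        have h8 : (3 : ℝ) ^ j * θ ≤ 3 ^ j := by
          have : (3 : ℝ) ^ j * θ ≤ 3 ^ j * 1 := mul_le_mul_of_nonneg_left hθ1.le (by positivity)
          linarith
        rw [hs]
        push_cast
        rw [abs_le] at hr' ⊢
        rw [pow_succ]
        constructor <;> nlinarith [hr'.1, hr'.2]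
      have hqs := hq R hR 0 (j + 1) (d * s) hsu
      have hterm : ∀ i : ℕ, |f (3 ^ j * ⌊((a + i : ℕ) : ℝ) + θ⌋ + r) - f ⌊3 ^ j * (((a + i : ℕ) : ℝ) + θ)⌋|
          ≤ 2 * (if surv d R (0, d * s) (3 ^ j * ((a : ℤ) + (i : ℕ)) + r) then (1 : ℝ) else 0) := by
        intro i
        have e1 : ⌊((a + i : ℕ) : ℝ) + θ⌋ = ((a : ℤ) + (i : ℕ)) := by
          rw [Int.floor_eq_iff]; push_cast; constructor <;> linarith
        have e2 : ⌊3 ^ j * (((a + i : ℕ) : ℝ) + θ)⌋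
            = 3 ^ 0 * (3 ^ j * ((a : ℤ) + (i : ℕ)) + r) + d * (d * s) := by
          rw [← mul_assoc d d, hdd, one_mul, pow_zero, one_mul]
          have : 3 ^ j * (((a + i : ℕ) : ℝ) + θ)
              = 3 ^ j * θ + ((3 ^ j * ((a : ℤ) + (i : ℕ)) : ℤ) : ℝ) := by push_cast; ring
          rw [this, Int.floor_add_intCast, hs]; ring
        rw [e1, e2]
        split_ifs with hsv
        · have h1 := hf.1 (3 ^ j * ((a : ℤ) + (i : ℕ)) + r)
          have h2 := hf.1 (3 ^ 0 * (3 ^ j * ((a : ℤ) + (i : ℕ)) + r) + d * (d * s))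
          rw [abs_le] at h1 h2 ⊢
          constructor <;> linarith [h1.1, h1.2, h2.1, h2.2]
        · rw [hf.coal hd2 hsv, sub_self, abs_zero]; norm_num
      calc ∑ i ∈ range (2 ^ R), |f (3 ^ j * ⌊((a + i : ℕ) : ℝ) + θ⌋ + r) - f ⌊3 ^ j * (((a + i : ℕ) : ℝ) + θ)⌋|
          ≤ ∑ i ∈ range (2 ^ R), 2 * (if surv d R (0, d * s) (3 ^ j * ((a : ℤ) + (i : ℕ)) + r) then (1 : ℝ)
              else 0) := sum_le_sum fun i _ => hterm i
        _ = 2 * (2 ^ R * q step (0, 0) R (0, d * s)) := by rw [← mul_sum, surv_block3r hd2]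
        _ ≤ 2 * (2 ^ R * Q) := by
            apply mul_le_mul_of_nonneg_left _ (by norm_num)
            apply mul_le_mul_of_nonneg_left _ (by positivity)
            exact hqs
        _ = ((2 ^ R : ℕ) : ℝ) * (2 * Q) := by push_cast; ring
    · exact (((measurable_of_countable fun n : ℤ => f (3 ^ j * n + r)).comp Int.measurable_floor).sub
        (meas_floor f (fun y => 3 ^ j * y) (by fun_prop))).abs
    · intro y; exact abs_nonneg _
    · intro y
      have h1 := hf.1 (3 ^ j * ⌊y⌋ + r)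
      have h2 := hf.1 ⌊3 ^ j * y⌋
      rw [abs_le] at h1 h2 ⊢
      constructor <;> linarith [h1.1, h1.2, h2.1, h2.2]
  refine key.trans (le_of_eq ?_)
  have e : (1 + ((0 : ℕ) : ℝ) ^ 2 + ((j + 1 : ℕ) : ℝ)) = 1 + ((j + 1 : ℕ) : ℝ) := by push_cast; ring
  rw [hQ, e]
  ring

/-- from dyadic blocks to `[1, N]`, with signs -/
theorem sum_of_dyadic {u : ℕ → ℝ} {B : ℝ} (hu : ∀ n, |u n| ≤ B) {N N1 : ℕ} {η : ℝ} (hη : 0 ≤ η)
    (hBN : B ≤ η * N1)
    (h : ∀ M : ℕ, N1 ≤ M → M ≤ N → |∑ n ∈ Ico M (2 * M), u n| ≤ η * M) :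
    |∑ n ∈ Icc 1 N, u n| ≤ B * (2 * N1 + 5) + 4 * η * (N + 1) := by
  have hB : 0 ≤ B := (abs_nonneg _).trans (hu 0)
  have hcnt : ∀ M : ℕ, M ≤ N + 1 → |∑ n ∈ range M, u n| ≤ B * (2 * N1 + 4) + 4 * η * M := by
    intro M
    induction M using Nat.strong_induction_on with
    | _ M ih =>
      intro hMN
      by_cases hM : M ≤ 2 * N1 + 4
      · have h3 : (M : ℝ) ≤ 2 * N1 + 4 := by exact_mod_cast hM
        have h4 : 0 ≤ 4 * η * M := by positivity
        calc |∑ n ∈ range M, u n| ≤ ∑ n ∈ range M, |u n| := abs_sum_le_sum_abs _ _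
          _ ≤ ∑ n ∈ range M, B := sum_le_sum fun n _ => hu n
          _ = M * B := by rw [sum_const, card_range, nsmul_eq_mul]
          _ ≤ (2 * N1 + 4) * B := mul_le_mul_of_nonneg_right h3 hB
          _ ≤ _ := by linarith
      · push Not at hM
        obtain ⟨M', hM'⟩ : ∃ M', M' = M / 2 := ⟨_, rfl⟩
        have h1 := ih M' (by omega) (by omega)
        have h2 := h M' (by omega) (by omega)
        have h3 : ∑ n ∈ range M, u n = ∑ n ∈ range M', u n + ∑ n ∈ Ico M' (2 * M'), u n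
            + ∑ n ∈ Ico (2 * M') M, u n := by
          rw [sum_range_add_sum_Ico _ (by omega : M' ≤ 2 * M'),
            sum_range_add_sum_Ico _ (by omega : 2 * M' ≤ M)]
        have h4 : |∑ n ∈ Ico (2 * M') M, u n| ≤ B := by
          calc |∑ n ∈ Ico (2 * M') M, u n| ≤ ∑ n ∈ Ico (2 * M') M, |u n| := abs_sum_le_sum_abs _ _
            _ ≤ ∑ n ∈ Ico (2 * M') M, B := sum_le_sum fun n _ => hu n
            _ = ((M - 2 * M' : ℕ) : ℝ) * B := by rw [sum_const, Nat.card_Ico, nsmul_eq_mul]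
            _ ≤ 1 * B := by
                apply mul_le_mul_of_nonneg_right _ hB
                exact_mod_cast (by omega : M - 2 * M' ≤ 1)
            _ = B := one_mul B
        have h5 : (2 : ℝ) * M' ≤ M := by
          have : 2 * M' ≤ M := by omega
          exact_mod_cast this
        have h6 : (N1 : ℝ) ≤ M / 2 := by
          have : 2 * N1 ≤ M := by omega
          have h7 : (2 : ℝ) * N1 ≤ M := by exact_mod_cast this
          linarith
        rw [h3]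
        have h8 := abs_add_le (∑ n ∈ range M', u n + ∑ n ∈ Ico M' (2 * M'), u n) (∑ n ∈ Ico (2 * M') M, u n)
        have h9 := abs_add_le (∑ n ∈ range M', u n) (∑ n ∈ Ico M' (2 * M'), u n)
        have h10 : η * (N1 : ℝ) ≤ η * (M / 2) := mul_le_mul_of_nonneg_left h6 hη
        have h11 : η * (2 * (M' : ℝ)) ≤ η * M := mul_le_mul_of_nonneg_left h5 hη
        nlinarith
  have h1 : ∑ n ∈ range (N + 1), u n = u 0 + ∑ n ∈ Icc 1 N, u n := by
    rw [sum_range_succ']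
    rw [add_comm]
    congr 1
    rw [range_eq_Ico, sum_Ico_add' u 0 N 1]
    rfl
  have h2 := hcnt (N + 1) le_rfl
  have h3 : ∑ n ∈ Icc 1 N, u n = ∑ n ∈ range (N + 1), u n - u 0 := by rw [h1]; ring
  rw [h3]
  have h4 := abs_sub (∑ n ∈ range (N + 1), u n) (u 0)
  have h5 := hu 0
  push_cast at h2
  nlinarith

/-- the mean over `[M, 2 M]`, `M` an integer -/
theorem mz_av {f : ℤ → ℝ} (hf : ∀ x, |f x| ≤ 1) (hm : MeanZero f) {ε : ℝ} (hε : 0 < ε) :
    ∃ M0 : ℕ, ∀ M : ℕ, M0 ≤ M → |av M (fun y => f ⌊y⌋)| ≤ ε := by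
  unfold MeanZero at hm
  have h1 := hm.comp (tendsto_id.const_mul_atTop' (show 0 < 2 by norm_num))
  have h2 : Tendsto (fun N : ℕ => 2 * ((∑ n ∈ range (2 * N), f (n : ℕ)) / ((2 * N : ℕ) : ℝ))
      - (∑ n ∈ range N, f (n : ℕ)) / N) atTop (𝓝 0) := by
    have := (h1.const_mul (2 : ℝ)).sub hm
    simpa [Function.comp] using this
  obtain ⟨M0, hM0⟩ := eventually_atTop.1 ((h2.eventually (Metric.closedBall_mem_nhds _ hε)).and
    (eventually_ge_atTop 1))
  refine ⟨M0, fun M hM => ?_⟩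
  obtain ⟨h3, h4⟩ := hM0 M hM
  rw [av_floor hf h4]
  have hM' : (0 : ℝ) < M := by exact_mod_cast h4
  have e : (∑ n ∈ Ico M (2 * M), f (n : ℕ)) / (M : ℝ)
      = 2 * ((∑ n ∈ range (2 * M), f (n : ℕ)) / ((2 * M : ℕ) : ℝ)) - (∑ n ∈ range M, f (n : ℕ)) / M := by
    have e1 : ∑ n ∈ range (2 * M), f (n : ℕ) = ∑ n ∈ range M, f (n : ℕ) + ∑ n ∈ Ico M (2 * M), f (n : ℕ) :=
      (sum_range_add_sum_Ico (fun n : ℕ => f (n : ℕ)) (by omega : M ≤ 2 * M)).symm
    rw [e1]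
    push_cast
    field_simp
    ring
  rw [e]
  rw [Real.dist_eq, sub_zero] at h3
  exact h3

/-- the mean over one block -/
theorem block_mean {d : ℤ} {C : ℝ} (hC : ∀ f : ℤ → ℝ, InvF d f → ∀ R : ℕ, 1 ≤ R →
    ∀ V : ℝ, 2 ^ R ≤ V → ∀ (j : ℕ) (r : ℤ), |r| ≤ 3 ^ j →
      av V (fun y => |f (3 ^ j * ⌊y⌋ + r) - f ⌊3 ^ j * y⌋|) ≤ C * √ (1 + ((j + 1 : ℕ) : ℝ)) * rho R)
    {f : ℤ → ℝ} (hf : InvF d f) {M : ℕ} (hM : 8 ≤ M) {i : ℕ} {r : ℤ} (hr : |r| ≤ 3 ^ i) {δ c κ : ℝ} (h0 : 0 ≤ δ)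
    (h1 : δ ≤ 1) (hcost : C * √ (1 + ((i + 1 : ℕ) : ℝ)) * rho (Nat.log 2 M) ≤ κ) (hcor : |cor f M i - c| ≤ κ)
    (hm1 : |av M (fun y => f ⌊y⌋)| ≤ κ) (hm2 : |av ((3 ^ i * M : ℕ) : ℝ) (fun y => f ⌊y⌋)| ≤ κ) :
    |(∑ n ∈ Ico M (2 * M), (f (n : ℕ) * f (3 ^ i * (n : ℕ) + r) + δ * f (n : ℕ) + δ * f (3 ^ i * (n : ℕ) + r) - c)) / M|
      ≤ 5 * κ := by
  have hM' : (0 : ℝ) < M := by
    have : 0 < M := by omega
    exact_mod_cast this
  have hR : 1 ≤ Nat.log 2 M := (Nat.le_log_iff_pow_le (by norm_num) (by omega)).2 (by omega)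
  have hVR : (2 : ℝ) ^ (Nat.log 2 M) ≤ M := by exact_mod_cast Nat.pow_log_le_self 2 (by omega : M ≠ 0)
  have hb1 : Bd 1 (fun y => f ⌊y⌋) := Bd.fl hf.1
  have hb2 : Bd 1 (fun y => f (3 ^ i * ⌊y⌋ + r)) := Bd.fl (F := fun n => f (3 ^ i * n + r)) fun x => hf.1 _
  have hb3 : Bd 1 (fun y => f ⌊3 ^ i * y⌋) := fj_bd hf.1 i
  have hc := hC f hf _ hR M hVR i r hr
  have hc2 : av M (fun y => |f (3 ^ i * ⌊y⌋ + r) - f ⌊3 ^ i * y⌋|) ≤ κ := hc.trans hcost
  have hg : ∀ x : ℤ, |f x * f (3 ^ i * x + r) + δ * f x + δ * f (3 ^ i * x + r) - c| ≤ 1 * 1 + |δ| * 1 + |δ| * 1 + |c| := by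
    intro x
    have hx1 := hf.1 x
    have hx2 := hf.1 (3 ^ i * x + r)
    have hx3 : |f x * f (3 ^ i * x + r)| ≤ 1 * 1 := by
      rw [abs_mul]; exact mul_le_mul hx1 hx2 (abs_nonneg _) (by norm_num)
    have hx4 : |δ * f x| ≤ |δ| * 1 := by rw [abs_mul]; exact mul_le_mul_of_nonneg_left hx1 (abs_nonneg _)
    have hx5 : |δ * f (3 ^ i * x + r)| ≤ |δ| * 1 := by
      rw [abs_mul]; exact mul_le_mul_of_nonneg_left hx2 (abs_nonneg _)
    have hx6 := abs_sub (f x * f (3 ^ i * x + r) + δ * f x + δ * f (3 ^ i * x + r)) c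
    have hx7 := abs_add_le (f x * f (3 ^ i * x + r) + δ * f x) (δ * f (3 ^ i * x + r))
    have hx8 := abs_add_le (f x * f (3 ^ i * x + r)) (δ * f x)
    linarith
  have e1 := av_floor hg (N := M) (by omega)
  rw [← e1]
  -- expansion
  have e2 : av M (fun y => f ⌊y⌋ * f (3 ^ i * ⌊y⌋ + r) + δ * f ⌊y⌋ + δ * f (3 ^ i * ⌊y⌋ + r) - c)
      = av M (fun y => f ⌊y⌋ * f (3 ^ i * ⌊y⌋ + r)) + δ * av M (fun y => f ⌊y⌋)
        + δ * av M (fun y => f (3 ^ i * ⌊y⌋ + r)) - c := by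
    rw [av_sub _ (((hb1.mul hb2).add (hb1.cmul δ)).add (hb2.cmul δ)) (Bd.const c), av_const hM',
      av_add _ ((hb1.mul hb2).add (hb1.cmul δ)) (hb2.cmul δ), av_add _ (hb1.mul hb2) (hb1.cmul δ), av_cmul, av_cmul]
  rw [e2]
  have hd1 : |av M (fun y => f ⌊y⌋ * f (3 ^ i * ⌊y⌋ + r)) - cor f M i| ≤ κ := by
    have e3 : cor f M i = av M (fun y => f ⌊y⌋ * f ⌊3 ^ i * y⌋) := by
      unfold cor; simp only [zpow_natCast]
    rw [e3, ← av_sub _ (hb1.mul hb2) (hb1.mul hb3)]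
    refine (abs_av_le hM' ((hb1.mul hb2).sub (hb1.mul hb3))).trans ?_
    refine le_trans (av_mono hM' ((hb1.mul hb2).sub (hb1.mul hb3)).abs (hb2.sub hb3).abs ?_) hc2
    intro y _ _
    rw [← mul_sub, abs_mul]
    calc |f ⌊y⌋| * |f (3 ^ i * ⌊y⌋ + r) - f ⌊3 ^ i * y⌋| ≤ 1 * |f (3 ^ i * ⌊y⌋ + r) - f ⌊3 ^ i * y⌋| :=
          mul_le_mul_of_nonneg_right (hf.1 _) (abs_nonneg _)
      _ = _ := one_mul _
  have hd2 : |av M (fun y => f (3 ^ i * ⌊y⌋ + r)) - av M (fun y => f ⌊3 ^ i * y⌋)| ≤ κ := by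
    rw [← av_sub _ hb2 hb3]
    exact (abs_av_le hM' (hb2.sub hb3)).trans hc2
  have hd3 : av M (fun y => f ⌊3 ^ i * y⌋) = av ((3 ^ i * M : ℕ) : ℝ) (fun y => f ⌊y⌋) := by
    have := av_scale hM' (show (0 : ℝ) < 3 ^ i by positivity) (fun y => f ⌊y⌋)
    rw [this]; push_cast; rfl
  rw [hd3] at hd2
  have hκ : 0 ≤ κ := (abs_nonneg _).trans hm1
  have hm3 : |δ * av M (fun y => f ⌊y⌋)| ≤ κ := by
    rw [abs_mul, abs_of_nonneg h0]
    calc δ * |av M (fun y => f ⌊y⌋)| ≤ 1 * κ := mul_le_mul h1 hm1 (abs_nonneg _) (by norm_num)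
      _ = κ := one_mul _
  have hm4 : |δ * av M (fun y => f (3 ^ i * ⌊y⌋ + r))| ≤ 2 * κ := by
    rw [abs_mul, abs_of_nonneg h0]
    have h5 : |av M (fun y => f (3 ^ i * ⌊y⌋ + r))| ≤ 2 * κ := by
      rw [abs_le] at hd2 hm2 ⊢
      constructor <;> linarith [hd2.1, hd2.2, hm2.1, hm2.2]
    calc δ * |av M (fun y => f (3 ^ i * ⌊y⌋ + r))| ≤ 1 * (2 * κ) := mul_le_mul h1 h5 (abs_nonneg _) (by norm_num)
      _ = 2 * κ := one_mul _
  rw [abs_le] at hd1 hcor hm3 hm4 ⊢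
  constructor <;> linarith [hd1.1, hd1.2, hcor.1, hcor.2, hm3.1, hm3.2, hm4.1, hm4.2]

theorem pairlaw (d : ℤ) (hd : d = 1 ∨ d = -1) (h : S_PLE d) : S_PAIRLAW d := by
  classical
  intro S hS δ h0 h1 hmz ε hε
  obtain ⟨C, hC0, hC⟩ := cjr d hd
  obtain ⟨f, hfdef⟩ : ∃ f : ℤ → ℝ, f = fun x => S.indicator (fun _ => (1 : ℝ)) x - δ := ⟨_, rfl⟩
  have hf : InvF d f := by rw [hfdef]; exact invF_ind hS h0 h1
  rw [← hfdef] at hmz
  obtain ⟨q, hqdef⟩ : ∃ q, q = δ * (1 - δ) := ⟨_, rfl⟩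
  have hq0 : 0 ≤ q := by rw [hqdef]; nlinarith
  have hq1 : q ≤ 1 := by rw [hqdef]; nlinarith
  have hmq : MeanZero (fun x => f x ^ 2 - q) := by
    have e : (fun x => f x ^ 2 - q) = fun x => (1 - 2 * δ) * f x := by
      funext x
      rw [hfdef, hqdef]
      by_cases hx : x ∈ S
      · simp only [Set.indicator_of_mem hx]; ring
      · simp only [Set.indicator_of_notMem hx]; ring
    rw [e]
    unfold MeanZero at hmz ⊢
    have h2 := hmz.const_mul (1 - 2 * δ)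
    rw [mul_zero] at h2
    refine h2.congr fun N => ?_
    rw [← mul_sum, mul_div_assoc]
  have hκ : 0 < ε / 160 := by positivity
  obtain ⟨V0, hV0, hple⟩ := h f hf hmz q hmq (ε / 160) hκ
  obtain ⟨M1, hM1⟩ := mz_av hf.1 hmz hκ
  obtain ⟨κ, hκ0, hEr⟩ := Er_ratio hκ
  -- the eventual conditions on `M`
  have hc1 : Tendsto (fun M : ℕ => C * √ ((1 + (2 * Real.log M) ^ (0.99 : ℝ)) * Real.log (2 * Real.log M + 1)
      / Real.log M)) atTop (𝓝 0) := by
    have := (cost_tendsto.comp (Real.tendsto_log_atTop.comp tendsto_natCast_atTop_atTop)).sqrt.const_mul C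
    rw [Real.sqrt_zero, mul_zero] at this
    exact this
  have hlogt : Tendsto (fun N : ℕ => Real.log N) atTop atTop :=
    Real.tendsto_log_atTop.comp tendsto_natCast_atTop_atTop
  have hg1 : Tendsto (fun N : ℕ => Real.log N ^ (0.00005 : ℝ)) atTop atTop :=
    (tendsto_rpow_atTop (by norm_num)).comp hlogt
  have hg2 : Tendsto (fun N : ℕ => Real.log N ^ (0.48995 : ℝ)) atTop atTop :=
    (tendsto_rpow_atTop (by norm_num)).comp hlogt
  obtain ⟨M0, hM0⟩ := eventually_atTop.1 ((hc1.eventually (eventually_le_nhds hκ)).and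
    ((eventually_ge_atTop 8).and (((tendsto_natCast_atTop_atTop (R := ℝ)).eventually_ge_atTop V0).and
      (eventually_ge_atTop M1))))
  obtain ⟨N0, hN0⟩ := eventually_atTop.1 ((eventually_ge_atTop 1).and ((hlogt.eventually_ge_atTop 1).and
    ((hlogt.eventually_ge_atTop (2 * Real.log (64 / ε))).and
    (((tendsto_natCast_atTop_atTop (R := ℝ)).eventually_ge_atTop (64 * (M0 + 1) / ε)).and
    (((tendsto_natCast_atTop_atTop (R := ℝ)).eventually_ge_atTop (256 / ε)).and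
    (((tendsto_natCast_atTop_atTop (R := ℝ)).eventually_ge_atTop (64 * (64 / ε) / ε)).and
    ((hlogt.eventually_ge_atTop ((1 + κ) / κ * Real.log (64 / ε))).and
    ((hg1.eventually_ge_atTop 2).and (hg2.eventually_ge_atTop 2)))))))))
  refine ⟨N0, fun N hN i hi r hr => ?_⟩
  obtain ⟨hN1, hNl1, hNl2, hNM, hN8, hN9, hNκ, hNg1, hNg2⟩ := hN0 N hN
  have hN' : (0 : ℝ) < N := by exact_mod_cast hN1
  obtain ⟨N1, hN1def⟩ : ∃ N1 : ℕ, N1 = ⌈ε / 64 * N⌉₊ := ⟨_, rfl⟩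
  have hN1a : ε / 64 * N ≤ N1 := by rw [hN1def]; exact Nat.le_ceil _
  have hN1b : (N1 : ℝ) ≤ ε / 64 * N + 1 := by rw [hN1def]; exact (Nat.ceil_lt_add_one (by positivity)).le
  obtain ⟨E, hE⟩ : ∃ E, E = Er (√2 * (i * √ (gm / Real.log N))) := ⟨_, rfl⟩
  have hE0 : 0 ≤ E := by rw [hE]; exact Er_nonneg (by positivity)
  have hE1 : E ≤ 1 := by rw [hE]; exact Er_le_one _
  obtain ⟨u, hu⟩ : ∃ u : ℕ → ℝ, u = fun n : ℕ => f (n : ℕ) * f (3 ^ i * (n : ℕ) + r) + δ * f (n : ℕ)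
      + δ * f (3 ^ i * (n : ℕ) + r) - q * (1 - E) := ⟨_, rfl⟩
  have hub : ∀ n, |u n| ≤ 4 := by
    intro n
    rw [hu]
    simp only
    have hx1 := hf.1 (n : ℕ)
    have hx2 := hf.1 (3 ^ i * (n : ℕ) + r)
    have hx3 : |f (n : ℕ) * f (3 ^ i * (n : ℕ) + r)| ≤ 1 := by
      rw [abs_mul]; exact mul_le_one₀ hx1 (abs_nonneg _) hx2
    have hx4 : |δ * f (n : ℕ)| ≤ 1 := by
      rw [abs_mul, abs_of_nonneg h0]; exact mul_le_one₀ h1 (abs_nonneg _) hx1
    have hx5 : |δ * f (3 ^ i * (n : ℕ) + r)| ≤ 1 := by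
      rw [abs_mul, abs_of_nonneg h0]; exact mul_le_one₀ h1 (abs_nonneg _) hx2
    have hx6 : 0 ≤ q * (1 - E) := mul_nonneg hq0 (by linarith)
    have hx7 : q * (1 - E) ≤ 1 := by nlinarith
    rw [abs_le] at hx3 hx4 hx5 ⊢
    constructor <;> linarith [hx3.1, hx3.2, hx4.1, hx4.2, hx5.1, hx5.2]
  have hmain := sum_of_dyadic (u := u) (B := 4) hub (N := N) (N1 := N1) (η := ε / 16) (by positivity)
    (by
      have : 64 / ε ≤ N1 := by
        refine le_trans ?_ hN1a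
        rw [div_le_iff₀ hε] at hN9
        rw [div_le_iff₀ hε]
        have h3 : 64 * (64 / ε) * ε = 64 * 64 := by field_simp
        have h4 : 64 * (64 / ε) ≤ N * ε := hN9
        have h5 : 64 * (64 / ε) * ε ≤ N * ε * ε := mul_le_mul_of_nonneg_right h4 hε.le
        nlinarith
      rw [div_le_iff₀ hε] at this
      linarith)
    (by
      intro M hMa hMb
      have hMr1 : ε / 64 * N ≤ M := hN1a.trans (by exact_mod_cast hMa)
      have hMr2 : (M : ℝ) ≤ N := by exact_mod_cast hMb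
      have hM0' : M0 ≤ M := by
        have : (M0 : ℝ) + 1 ≤ M := by
          refine le_trans ?_ hMr1
          rw [div_le_iff₀ hε] at hNM
          linarith
        have h2 : (M0 : ℝ) ≤ M := by linarith
        exact_mod_cast h2
      obtain ⟨hcM, hM8, hMV, hMM1⟩ := hM0 M hM0'
      have hM' : (0 : ℝ) < M := by
        have : 0 < M := by omega
        exact_mod_cast this
      have hlogM0 : Real.log N ≤ Real.log M + Real.log (64 / ε) := by
        have h2 : Real.log (ε / 64 * N) ≤ Real.log M := Real.log_le_log (by positivity) hMr1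
        rw [Real.log_mul (by positivity) hN'.ne'] at h2
        have h3 : Real.log (ε / 64) = -Real.log (64 / ε) := by
          rw [← Real.log_inv]; congr 1; field_simp
        rw [h3] at h2
        linarith
      have hlogM : Real.log N ≤ 2 * Real.log M := by linarith
      have hlogM1 : Real.log M ≤ Real.log N := Real.log_le_log hM' hMr2
      have hlogMp : 0 < Real.log M := by linarith
      have hlogκ : Real.log N ≤ (1 + κ) * Real.log M := by
        have h2 : (1 + κ) * Real.log (64 / ε) ≤ κ * Real.log N := by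
          have h3 := mul_le_mul_of_nonneg_left hNκ hκ0.le
          have h4 : κ * ((1 + κ) / κ * Real.log (64 / ε)) = (1 + κ) * Real.log (64 / ε) := by field_simp
          rw [h4] at h3
          exact h3
        nlinarith
      -- the cost
      have hi1 : ((i + 1 : ℕ) : ℝ) ≤ (2 * Real.log M) ^ (0.99 : ℝ) := by
        push_cast
        have h2 : Real.log N ^ (0.99 : ℝ) ≤ (2 * Real.log M) ^ (0.99 : ℝ) :=
          Real.rpow_le_rpow (by linarith) hlogM (by norm_num)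
        have h3 : Real.log N ^ (0.99 : ℝ) = Real.log N ^ (0.50005 : ℝ) * Real.log N ^ (0.48995 : ℝ) := by
          rw [← Real.rpow_add (by linarith)]; norm_num
        have h4 : (1 : ℝ) ≤ Real.log N ^ (0.50005 : ℝ) := Real.one_le_rpow hNl1 (by norm_num)
        nlinarith
      have hcost := cost_le hM8 hi1
      have hcost' : C * √ (1 + ((i + 1 : ℕ) : ℝ)) * rho (Nat.log 2 M) ≤ ε / 80 := by
        rw [mul_assoc]
        refine ((mul_le_mul_of_nonneg_left hcost hC0.le).trans hcM).trans ?_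
        linarith
      -- the level
      have hi2 : (i : ℝ) ≤ Real.log M ^ (0.5001 : ℝ) := by
        refine hi.trans ?_
        have h2 : Real.log N ^ (0.5001 : ℝ) ≤ (2 * Real.log M) ^ (0.5001 : ℝ) :=
          Real.rpow_le_rpow (by linarith) hlogM (by norm_num)
        have h3 : Real.log N ^ (0.5001 : ℝ) = Real.log N ^ (0.50005 : ℝ) * Real.log N ^ (0.00005 : ℝ) := by
          rw [← Real.rpow_add (by linarith)]; norm_num
        have h4 : 0 ≤ Real.log N ^ (0.50005 : ℝ) := by positivity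
        rw [Real.mul_rpow (by norm_num) hlogMp.le] at h2
        have h5 : (2 : ℝ) ^ (0.5001 : ℝ) ≤ 2 := by
          calc (2 : ℝ) ^ (0.5001 : ℝ) ≤ 2 ^ (1 : ℝ) := Real.rpow_le_rpow_of_exponent_le (by norm_num) (by norm_num)
            _ = 2 := Real.rpow_one 2
        have h6 : 0 ≤ Real.log M ^ (0.5001 : ℝ) := by positivity
        nlinarith
      have hcor := hple M hMV i hi2
      have hErM := hEr (√2 * (i * √ (gm / Real.log N))) (√2 * (i * √ (gm / Real.log M))) (by positivity)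
        (by
          have h2 : gm / Real.log N ≤ gm / Real.log M := div_le_div_of_nonneg_left pl_gm_pos.le hlogMp hlogM1
          have h3 := Real.sqrt_le_sqrt h2
          gcongr)
        (by
          have h2 : gm / Real.log M ≤ (1 + κ) ^ 2 * (gm / Real.log N) := by
            have hg := pl_gm_pos
            rw [← mul_div_assoc, div_le_div_iff₀ hlogMp (by linarith)]
            have h3 : gm * Real.log N ≤ gm * ((1 + κ) * Real.log M) := mul_le_mul_of_nonneg_left hlogκ hg.le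
            have h4 : 0 ≤ gm * Real.log M * (κ * (1 + κ)) := by positivity
            nlinarith
          have h3 := Real.sqrt_le_sqrt h2
          rw [Real.sqrt_mul (by positivity), Real.sqrt_sq (by positivity)] at h3
          have h4 : 0 ≤ √2 * (i : ℝ) := by positivity
          have h5 := mul_le_mul_of_nonneg_left h3 h4
          linarith)
      rw [← hE] at hErM
      obtain ⟨EM, hEM⟩ : ∃ EM, EM = Er (√2 * (i * √ (gm / Real.log M))) := ⟨_, rfl⟩
      rw [← hEM] at hErM hcor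
      have hcor2 : |cor f M i - q * (1 - E)| ≤ ε / 80 := by
        have e : cor f M i - q * (1 - E) = (cor f M i - q * (1 - EM)) - q * (EM - E) := by ring
        rw [e]
        have h6 : |q * (EM - E)| ≤ ε / 160 := by
          rw [abs_mul, abs_of_nonneg hq0]
          calc q * |EM - E| ≤ 1 * (ε / 160) := mul_le_mul hq1 hErM (abs_nonneg _) (by norm_num)
            _ = ε / 160 := one_mul _
        have h7 := abs_sub (cor f M i - q * (1 - EM)) (q * (EM - E))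
        linarith
      have h3i : 1 ≤ 3 ^ i := Nat.one_le_pow _ _ (by norm_num)
      have hbm := block_mean hC hf hM8 hr h0 h1 (c := q * (1 - E)) (κ := ε / 80) hcost' hcor2
        ((hM1 M hMM1).trans (by linarith)) ((hM1 (3 ^ i * M) (hMM1.trans (Nat.le_mul_of_pos_left M h3i))).trans (by linarith))
      rw [abs_div, Nat.abs_cast, div_le_iff₀ hM'] at hbm
      rw [hu]
      refine hbm.trans ?_
      have : 0 ≤ ε * M := by positivity
      linarith)
  -- the count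
  have hcount : (((#{n ∈ Icc 1 N | ((n : ℕ) : ℤ) ∈ S ∧ 3 ^ i * ((n : ℕ) : ℤ) + r ∈ S} : ℕ) : ℝ)
      - (δ ^ 2 + δ * (1 - δ) * (1 - E)) * N) = ∑ n ∈ Icc 1 N, u n := by
    rw [card_filter]
    push_cast
    have e : ((δ ^ 2 + δ * (1 - δ) * (1 - E)) * N : ℝ) = ∑ n ∈ Icc 1 N, (δ ^ 2 + δ * (1 - δ) * (1 - E)) := by
      rw [sum_const, Nat.card_Icc, nsmul_eq_mul, Nat.add_sub_cancel]; ring
    rw [e, ← sum_sub_distrib]
    apply sum_congr rfl
    intro n _
    rw [hu, hfdef, hqdef]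
    simp only [Set.indicator]
    split_ifs <;> first | (exfalso; tauto) | ring
  rw [← hE]
  have hgoal : |(((#{n ∈ Icc 1 N | ((n : ℕ) : ℤ) ∈ S ∧ 3 ^ i * ((n : ℕ) : ℤ) + r ∈ S} : ℕ) : ℝ)
      - (δ ^ 2 + δ * (1 - δ) * (1 - E)) * N)| ≤ ε * N := by
    rw [hcount]
    refine hmain.trans ?_
    rw [div_le_iff₀ hε] at hN8
    have h1N : (1 : ℝ) ≤ N := by exact_mod_cast hN1
    have hεN : ε ≤ ε * N := le_mul_of_one_le_right hε.le h1N
    linarith
  convert hgoal using 5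

end Pool.Agent.KS6_24.ST
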