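import Mathlib
import Pool.Agent.KS6_24.ST.MXDefs
import Pool.Agent.KS6_24.ST.PL8

/-! MX, final step: mixing of all orders for sets, from `S_CORN`. -/

set_option autoImplicit false

namespace Pool.Agent.KS6_24.ST

open Pool.Agent.H499R2.CO Pool.Agent.Y965.SI Finset Filter Topology MeasureTheory Pool.Agent.KS6_24.LN

open Classical in
/-- MIXING OF ALL ORDERS for sets: `n` invariant sets at levels with gaps `≥ A √(log N)`, with shifts. -/
def S_MIXALL (d : ℤ) : Prop := ∀ (n : ℕ) (S : Fin n → Set ℤ), (∀ a x, Tz d x ∈ S a ↔ x ∈ S a) → ∀ δ : Fin n → ℝ,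
  (∀ a, 0 ≤ δ a) → (∀ a, δ a ≤ 1) → (∀ a, MeanZero (fun x => (S a).indicator (fun _ => (1 : ℝ)) x - δ a)) →
  ∀ ε : ℝ, 0 < ε → ∃ (A : ℝ) (N0 : ℕ), 0 < A ∧ ∀ N : ℕ, N0 ≤ N →
  ∀ i : Fin n → ℕ, (∀ a, (i a : ℝ) ≤ Real.log N ^ (0.50005 : ℝ)) →
    (∀ a b, a ≠ b → A * √ (Real.log N) ≤ |(i a : ℝ) - i b|) → ∀ r : Fin n → ℤ, (∀ a, |r a| ≤ 3 ^ i a) →
    |(({m ∈ Icc 1 N | ∀ a, 3 ^ i a * ((m : ℕ) : ℤ) + r a ∈ S a}.card : ℕ) : ℝ) - (∏ a, δ a) * N| ≤ ε * N

/-! ### products -/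

theorem prod_diff_one {ι : Type*} [Fintype ι] [DecidableEq ι] (b : ι) (u v w : ι → ℝ) (h1 : ∀ a, a ≠ b → u a = w a)
    (h2 : ∀ a, a ≠ b → v a = w a) (h3 : w b = u b - v b) : ∏ a, u a - ∏ a, v a = ∏ a, w a := by
  rw [← mul_prod_erase univ u (mem_univ b), ← mul_prod_erase univ v (mem_univ b), ← mul_prod_erase univ w (mem_univ b)]
  have e1 : ∏ a ∈ univ.erase b, u a = ∏ a ∈ univ.erase b, w a := prod_congr rfl fun a ha => h1 a (ne_of_mem_erase ha)
  have e2 : ∏ a ∈ univ.erase b, v a = ∏ a ∈ univ.erase b, w a := prod_congr rfl fun a ha => h2 a (ne_of_mem_erase ha)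
  rw [e1, e2, h3]; ring

theorem abs_prod_le_one {ι : Type*} {s : Finset ι} {u : ι → ℝ} (h : ∀ a ∈ s, |u a| ≤ 1) : |∏ a ∈ s, u a| ≤ 1 := by
  rw [abs_prod]
  exact prod_le_one (fun a _ => abs_nonneg _) h

theorem abs_prod_sub_prod {ι : Type*} {s : Finset ι} {u v : ι → ℝ} (h : ∀ a ∈ s, |u a| ≤ 1) (h' : ∀ a ∈ s, |v a| ≤ 1) :
    |∏ a ∈ s, u a - ∏ a ∈ s, v a| ≤ ∑ a ∈ s, |u a - v a| := by
  classical
  induction s using Finset.induction_on with
  | empty => simp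
  | insert b s hb ih =>
    rw [prod_insert hb, prod_insert hb, sum_insert hb]
    have h1 := ih (fun a ha => h a (mem_insert_of_mem ha)) (fun a ha => h' a (mem_insert_of_mem ha))
    have h2 := h b (mem_insert_self _ _)
    have h3 : |∏ a ∈ s, v a| ≤ 1 := abs_prod_le_one fun a ha => h' a (mem_insert_of_mem ha)
    have e : u b * ∏ a ∈ s, u a - v b * ∏ a ∈ s, v a
        = u b * (∏ a ∈ s, u a - ∏ a ∈ s, v a) + (u b - v b) * ∏ a ∈ s, v a := by ring
    rw [e]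
    refine (abs_add_le _ _).trans ?_
    rw [abs_mul, abs_mul]
    have h4 : |u b| * |∏ a ∈ s, u a - ∏ a ∈ s, v a| ≤ 1 * ∑ a ∈ s, |u a - v a| :=
      mul_le_mul h2 h1 (abs_nonneg _) (by norm_num)
    have h5 : |u b - v b| * |∏ a ∈ s, v a| ≤ |u b - v b| * 1 := mul_le_mul_of_nonneg_left h3 (abs_nonneg _)
    linarith

theorem Bd.prod {ι : Type*} {s : Finset ι} {u : ι → ℝ → ℝ} (h : ∀ a ∈ s, Bd 1 (u a)) :
    Bd 1 (fun y => ∏ a ∈ s, u a y) :=
  ⟨Finset.measurable_prod s fun a ha => (h a ha).1, fun y => abs_prod_le_one fun a ha => (h a ha).2 y⟩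

theorem cn_bd {n : ℕ} {F : Fin n → ℤ → ℝ} (hF : ∀ a x, |F a x| ≤ 1) (i : Fin n → ℤ) :
    Bd 1 (fun y => ∏ a, F a ⌊(3 : ℝ) ^ i a * y⌋) :=
  Bd.prod fun a _ => Bd.flc (hF a) (by fun_prop)

theorem cn_perm {n : ℕ} (F : Fin n → ℤ → ℝ) (V : ℝ) (i : Fin n → ℤ) (σ : Equiv.Perm (Fin n)) :
    cn (fun a => F (σ a)) V (fun a => i (σ a)) = cn F V i := by
  unfold cn
  congr 1
  funext y
  exact Equiv.prod_comp σ (fun a => F a ⌊(3 : ℝ) ^ i a * y⌋)

theorem invF_const {d : ℤ} {c : ℝ} (hc : |c| ≤ 1) : InvF d (fun _ => c) := ⟨fun _ => hc, fun _ => rfl⟩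

/-- `S_CORN` with the mean zero function at the place `b` -/
theorem corn_at {d : ℤ} (h : S_CORN d) {n : ℕ} (F : Fin n → ℤ → ℝ) (hF : ∀ a, InvF d (F a)) (b : Fin n)
    (hm : MeanZero (F b)) {ε : ℝ} (hε : 0 < ε) : ∃ A V0 : ℝ, 0 < A ∧ 1 ≤ V0 ∧ ∀ V : ℝ, V0 ≤ V → ∀ i : Fin n → ℕ,
      (∀ a, (i a : ℝ) ≤ Real.log V ^ (0.5001 : ℝ)) → (∀ a b, a ≠ b → A * √ (Real.log V) ≤ |(i a : ℝ) - i b|) →
      |cn F V (fun a => i a)| ≤ ε := by
  obtain ⟨n, rfl⟩ : ∃ n', n = n' + 1 := ⟨n - 1, by have := b.2; omega⟩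
  obtain ⟨σ, hσ⟩ : ∃ σ : Equiv.Perm (Fin (n + 1)), σ = Equiv.swap 0 b := ⟨_, rfl⟩
  have hσ0 : σ 0 = b := by rw [hσ]; exact Equiv.swap_apply_left 0 b
  obtain ⟨A, V0, hA, hV0, hc⟩ := h n (fun a => F (σ a)) (fun a => hF _) (by rw [hσ0]; exact hm) ε hε
  refine ⟨A, V0, hA, hV0, fun V hV i hi hgap => ?_⟩
  have h1 := hc V hV (fun a => i (σ a)) (fun a => hi _) (fun a b hab => hgap _ _ (σ.injective.ne hab))
  rwa [cn_perm F V (fun a => i a) σ] at h1

/-- mixing for bounded invariant functions -/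
theorem cn_mix {d : ℤ} (h : S_CORN d) {n : ℕ} {g : Fin n → ℤ → ℝ} {δ : Fin n → ℝ} (hg : ∀ a, InvF d (g a))
    (hδ : ∀ a, |δ a| ≤ 1) (hgδ : ∀ a, InvF d (fun x => g a x - δ a)) (hm : ∀ a, MeanZero (fun x => g a x - δ a))
    {ε : ℝ} (hε : 0 < ε) : ∃ A V0 : ℝ, 0 < A ∧ 1 ≤ V0 ∧ ∀ V : ℝ, V0 ≤ V → ∀ i : Fin n → ℕ,
      (∀ a, (i a : ℝ) ≤ Real.log V ^ (0.5001 : ℝ)) → (∀ a b, a ≠ b → A * √ (Real.log V) ≤ |(i a : ℝ) - i b|) →
      |cn g V (fun a => i a) - ∏ a, δ a| ≤ ε := by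
  classical
  -- the hybrids
  obtain ⟨W, hW⟩ : ∃ W : Fin n → Fin n → ℤ → ℝ,
      W = fun b a => if a < b then (fun _ => δ a) else if a = b then (fun x => g a x - δ a) else g a := ⟨_, rfl⟩
  have hWinv : ∀ b a, InvF d (W b a) := by
    intro b a
    rw [hW]
    simp only
    split_ifs
    · exact invF_const (hδ a)
    · exact hgδ a
    · exact hg a
  have hWm : ∀ b, MeanZero (W b b) := by
    intro b
    rw [hW]
    simp only [lt_irrefl, if_false, if_true]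
    exact hm b
  have hε' : 0 < ε / (n + 1) := by positivity
  choose A V0 hA hV0 hc using fun b => corn_at h (W b) (hWinv b) b (hWm b) hε'
  refine ⟨1 + ∑ b, A b, 1 + ∑ b, V0 b, ?_, ?_, fun V hV i hi hgap => ?_⟩
  · have := sum_nonneg fun b (_ : b ∈ (univ : Finset (Fin n))) => (hA b).le
    linarith
  · have := sum_nonneg fun b (_ : b ∈ (univ : Finset (Fin n))) => (show 0 ≤ V0 b by linarith [hV0 b])
    linarith
  have hV1 : 1 ≤ V := by
    have := sum_nonneg fun b (_ : b ∈ (univ : Finset (Fin n))) => (show 0 ≤ V0 b by linarith [hV0 b])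
    linarith
  have hV : ∀ b, |cn (W b) V (fun a => i a)| ≤ ε / (n + 1) := by
    intro b
    apply hc b V
    · have := single_le_sum (f := V0) (fun b _ => (show 0 ≤ V0 b by linarith [hV0 b])) (mem_univ b)
      linarith
    · exact hi
    · intro a b' hab
      refine le_trans ?_ (hgap a b' hab)
      apply mul_le_mul_of_nonneg_right _ (Real.sqrt_nonneg _)
      have := single_le_sum (f := A) (fun b _ => (hA b).le) (mem_univ b)
      linarith
  -- telescoping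
  obtain ⟨G, hG⟩ : ∃ G : ℕ → ℝ, G = fun b => cn (fun a : Fin n => if (a : ℕ) < b then (fun _ => δ a) else g a) V
      (fun a => i a) := ⟨_, rfl⟩
  have hG0 : G 0 = cn g V (fun a => i a) := by rw [hG]; simp only [Nat.not_lt_zero, if_false]
  have hGn : G n = ∏ a, δ a := by
    rw [hG]
    simp only [Fin.is_lt, if_true]
    unfold cn
    exact av_const (by linarith) _
  have hGb : ∀ b : ℕ, ∀ hb : b < n, G b - G (b + 1) = cn (W ⟨b, hb⟩) V (fun a => i a) := by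
    intro b hb
    rw [hG]
    simp only
    unfold cn
    have hbd : ∀ b : ℕ, Bd 1 (fun y => ∏ a : Fin n, (if (a : ℕ) < b then (fun _ => δ a) else g a) ⌊(3 : ℝ) ^ ((i a : ℕ) : ℤ) * y⌋) := by
      intro b
      apply cn_bd
      intro a x
      split_ifs
      · exact hδ a
      · exact (hg a).1 x
    rw [← av_sub V (hbd b) (hbd (b + 1))]
    congr 1
    funext y
    apply prod_diff_one (⟨b, hb⟩ : Fin n)
    · intro a ha
      have ha' : (a : ℕ) ≠ b := fun h => ha (Fin.ext h)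
      rw [hW]
      simp only [Fin.lt_def, ha, if_false]
    · intro a ha
      have ha' : (a : ℕ) ≠ b := fun h => ha (Fin.ext h)
      rw [hW]
      simp only [Fin.lt_def, ha, if_false]
      have : (a : ℕ) < b + 1 ↔ (a : ℕ) < b := by omega
      simp only [this]
    · rw [hW]
      simp only [lt_irrefl, if_false, if_true, Nat.lt_succ_self]
  have hsum : G 0 - G n = ∑ b ∈ range n, (G b - G (b + 1)) := (sum_range_sub' G n).symm
  rw [← hG0, ← hGn, hsum]
  calc |∑ b ∈ range n, (G b - G (b + 1))| ≤ ∑ b ∈ range n, |G b - G (b + 1)| := abs_sum_le_sum_abs _ _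
    _ ≤ ∑ b ∈ range n, ε / (n + 1) := by
        apply sum_le_sum
        intro b hb
        rw [hGb b (mem_range.1 hb)]
        exact hV _
    _ = n * (ε / (n + 1)) := by rw [sum_const, card_range, nsmul_eq_mul]
    _ ≤ ε := by
        rw [← mul_div_assoc, div_le_iff₀ (by positivity)]
        nlinarith

/-- the mean over one block -/
theorem block_mean_n {d : ℤ} {C : ℝ} (hC : ∀ f : ℤ → ℝ, InvF d f → ∀ R : ℕ, 1 ≤ R →
    ∀ V : ℝ, 2 ^ R ≤ V → ∀ (j : ℕ) (r : ℤ), |r| ≤ 3 ^ j →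
      av V (fun y => |f (3 ^ j * ⌊y⌋ + r) - f ⌊3 ^ j * y⌋|) ≤ C * √ (1 + ((j + 1 : ℕ) : ℝ)) * rho R)
    {n : ℕ} {g : Fin n → ℤ → ℝ} (hg : ∀ a, InvF d (g a)) {M : ℕ} (hM : 8 ≤ M) {i : Fin n → ℕ} {r : Fin n → ℤ}
    (hr : ∀ a, |r a| ≤ 3 ^ i a) {c κ : ℝ}
    (hcost : ∀ a, C * √ (1 + ((i a + 1 : ℕ) : ℝ)) * rho (Nat.log 2 M) ≤ κ)
    (hcor : |cn g M (fun a => i a) - c| ≤ κ) :
    |(∑ m ∈ Ico M (2 * M), (∏ a, g a (3 ^ i a * (m : ℕ) + r a) - c)) / M| ≤ (n + 1) * κ := by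
  have hM' : (0 : ℝ) < M := by
    have : 0 < M := by omega
    exact_mod_cast this
  have hR : 1 ≤ Nat.log 2 M := (Nat.le_log_iff_pow_le (by norm_num) (by omega)).2 (by omega)
  have hVR : (2 : ℝ) ^ (Nat.log 2 M) ≤ M := by exact_mod_cast Nat.pow_log_le_self 2 (by omega : M ≠ 0)
  have hb1 : ∀ a, Bd 1 (fun y => g a (3 ^ i a * ⌊y⌋ + r a)) := fun a =>
    Bd.fl (F := fun x => g a (3 ^ i a * x + r a)) fun x => (hg a).1 _
  have hb2 : ∀ a, Bd 1 (fun y => g a ⌊3 ^ i a * y⌋) := fun a => fj_bd (hg a).1 (i a)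
  have hp1 : Bd 1 (fun y => ∏ a, g a (3 ^ i a * ⌊y⌋ + r a)) := Bd.prod fun a _ => hb1 a
  have hp2 : Bd 1 (fun y => ∏ a, g a ⌊3 ^ i a * y⌋) := Bd.prod fun a _ => hb2 a
  have hgb : ∀ x : ℤ, |∏ a, g a (3 ^ i a * x + r a) - c| ≤ 1 + |c| := by
    intro x
    have h1 : |∏ a, g a (3 ^ i a * x + r a)| ≤ 1 := abs_prod_le_one fun a _ => (hg a).1 _
    have h2 := abs_sub (∏ a, g a (3 ^ i a * x + r a)) c
    linarith
  have e1 := av_floor hgb (N := M) (by omega)
  rw [← e1]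
  have e2 : av M (fun y => ∏ a, g a (3 ^ i a * ⌊y⌋ + r a) - c) = av M (fun y => ∏ a, g a (3 ^ i a * ⌊y⌋ + r a)) - c := by
    rw [av_sub _ hp1 (Bd.const c), av_const hM']
  rw [e2]
  have hd1 : |av M (fun y => ∏ a, g a (3 ^ i a * ⌊y⌋ + r a)) - cn g M (fun a => i a)| ≤ n * κ := by
    have e3 : cn g M (fun a => i a) = av M (fun y => ∏ a, g a ⌊3 ^ i a * y⌋) := by
      unfold cn; simp only [zpow_natCast]
    rw [e3, ← av_sub _ hp1 hp2]
    refine (abs_av_le hM' (hp1.sub hp2)).trans ?_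
    have hs : Bd (∑ a : Fin n, (1 + 1 : ℝ)) (fun y => ∑ a, |g a (3 ^ i a * ⌊y⌋ + r a) - g a ⌊3 ^ i a * y⌋|) :=
      Bd.sum fun a _ => ((hb1 a).sub (hb2 a)).abs
    calc av M (fun y => |∏ a, g a (3 ^ i a * ⌊y⌋ + r a) - ∏ a, g a ⌊3 ^ i a * y⌋|)
        ≤ av M (fun y => ∑ a, |g a (3 ^ i a * ⌊y⌋ + r a) - g a ⌊3 ^ i a * y⌋|) := by
          apply av_mono hM' (hp1.sub hp2).abs hs
          intro y _ _
          exact abs_prod_sub_prod (fun a _ => (hg a).1 _) (fun a _ => (hg a).1 _)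
      _ = ∑ a, av M (fun y => |g a (3 ^ i a * ⌊y⌋ + r a) - g a ⌊3 ^ i a * y⌋|) :=
          av_sum _ fun a _ => ((hb1 a).sub (hb2 a)).abs
      _ ≤ ∑ a : Fin n, κ := sum_le_sum fun a _ => (hC (g a) (hg a) _ hR M hVR (i a) (r a) (hr a)).trans (hcost a)
      _ = n * κ := by rw [sum_const, card_univ, Fintype.card_fin, nsmul_eq_mul]
  rw [abs_le] at hd1 hcor ⊢
  constructor <;> linarith [hd1.1, hd1.2, hcor.1, hcor.2]

theorem mixall (d : ℤ) (hd : d = 1 ∨ d = -1) (h : S_CORN d) : S_MIXALL d := by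
  classical
  intro n S hS δ h0 h1 hmz ε hε
  obtain ⟨C, hC0, hC⟩ := cjr d hd
  obtain ⟨g, hgdef⟩ : ∃ g : Fin n → ℤ → ℝ, g = fun a => (S a).indicator (fun _ => (1 : ℝ)) := ⟨_, rfl⟩
  have hg : ∀ a, InvF d (g a) := by
    intro a
    have := invF_ind (hS a) (le_refl (0 : ℝ)) zero_le_one
    simp only [sub_zero] at this
    rw [hgdef]; exact this
  have hgδ : ∀ a, InvF d (fun x => g a x - δ a) := by
    intro a; rw [hgdef]; exact invF_ind (hS a) (h0 a) (h1 a)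
  have hm : ∀ a, MeanZero (fun x => g a x - δ a) := by
    intro a; rw [hgdef]; exact hmz a
  have hδ : ∀ a, |δ a| ≤ 1 := fun a => by rw [abs_of_nonneg (h0 a)]; exact h1 a
  have hκ : 0 < ε / (32 * (n + 1)) := by positivity
  obtain ⟨κ, hκdef⟩ : ∃ κ, κ = ε / (32 * ((n : ℝ) + 1)) := ⟨_, rfl⟩
  rw [← hκdef] at hκ
  obtain ⟨A, V0, hA, hV0, hmix⟩ := cn_mix h hg hδ hgδ hm hκ
  refine ⟨A, ?_⟩
  -- the eventual conditions on `M`
  have hc1 : Tendsto (fun M : ℕ => C * √ ((1 + (2 * Real.log M) ^ (0.99 : ℝ)) * Real.log (2 * Real.log M + 1)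
      / Real.log M)) atTop (𝓝 0) := by
    have := (cost_tendsto.comp (Real.tendsto_log_atTop.comp tendsto_natCast_atTop_atTop)).sqrt.const_mul C
    rw [Real.sqrt_zero, mul_zero] at this
    exact this
  have hlogt : Tendsto (fun N : ℕ => Real.log N) atTop atTop :=
    Real.tendsto_log_atTop.comp tendsto_natCast_atTop_atTop
  have hg1 : Tendsto (fun N : ℕ => Real.log N ^ (0.00005 : ℝ)) atTop atTop :=
    (tendsto_rpow_atTop (by norm_num)).comp hlogt
  have hg2 : Tendsto (fun N : ℕ => Real.log N ^ (0.48995 : ℝ)) atTop atTop :=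
    (tendsto_rpow_atTop (by norm_num)).comp hlogt
  obtain ⟨M0, hM0⟩ := eventually_atTop.1 ((hc1.eventually (eventually_le_nhds hκ)).and
    ((eventually_ge_atTop 8).and ((tendsto_natCast_atTop_atTop (R := ℝ)).eventually_ge_atTop V0)))
  obtain ⟨N0, hN0⟩ := eventually_atTop.1 ((eventually_ge_atTop 1).and ((hlogt.eventually_ge_atTop 1).and
    ((hlogt.eventually_ge_atTop (2 * Real.log (64 / ε))).and
    (((tendsto_natCast_atTop_atTop (R := ℝ)).eventually_ge_atTop (64 * (M0 + 1) / ε)).and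
    (((tendsto_natCast_atTop_atTop (R := ℝ)).eventually_ge_atTop (256 / ε)).and
    (((tendsto_natCast_atTop_atTop (R := ℝ)).eventually_ge_atTop (64 * (64 / ε) / ε)).and
    ((hg1.eventually_ge_atTop 2).and (hg2.eventually_ge_atTop 2))))))))
  refine ⟨N0, hA, fun N hN i hi hgap r hr => ?_⟩
  obtain ⟨hN1, hNl1, hNl2, hNM, hN8, hN9, hNg1, hNg2⟩ := hN0 N hN
  have hN' : (0 : ℝ) < N := by exact_mod_cast hN1
  obtain ⟨N1, hN1def⟩ : ∃ N1 : ℕ, N1 = ⌈ε / 64 * N⌉₊ := ⟨_, rfl⟩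
  have hN1a : ε / 64 * N ≤ N1 := by rw [hN1def]; exact Nat.le_ceil _
  have hN1b : (N1 : ℝ) ≤ ε / 64 * N + 1 := by rw [hN1def]; exact (Nat.ceil_lt_add_one (by positivity)).le
  obtain ⟨u, hu⟩ : ∃ u : ℕ → ℝ, u = fun m : ℕ => ∏ a, g a (3 ^ i a * (m : ℕ) + r a) - ∏ a, δ a := ⟨_, rfl⟩
  have hub : ∀ m, |u m| ≤ 4 := by
    intro m
    rw [hu]
    simp only
    have h2 : |∏ a, g a (3 ^ i a * (m : ℕ) + r a)| ≤ 1 := abs_prod_le_one fun a _ => (hg a).1 _
    have h3 : |∏ a, δ a| ≤ 1 := abs_prod_le_one fun a _ => hδ a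
    rw [abs_le] at h2 h3 ⊢
    constructor <;> linarith [h2.1, h2.2, h3.1, h3.2]
  have hmain := sum_of_dyadic (u := u) (B := 4) hub (N := N) (N1 := N1) (η := ε / 16) (by positivity)
    (by
      have : 64 / ε ≤ N1 := by
        refine le_trans ?_ hN1a
        rw [div_le_iff₀ hε] at hN9
        rw [div_le_iff₀ hε]
        have h3 : 64 * (64 / ε) * ε = 64 * 64 := by field_simp
        have h4 : 64 * (64 / ε) ≤ N * ε := hN9
        have h5 : 64 * (64 / ε) * ε ≤ N * ε * ε := mul_le_mul_of_nonneg_right h4 hε.le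
        nlinarith
      rw [div_le_iff₀ hε] at this
      linarith)
    (by
      intro M hMa hMb
      have hMr1 : ε / 64 * N ≤ M := hN1a.trans (by exact_mod_cast hMa)
      have hMr2 : (M : ℝ) ≤ N := by exact_mod_cast hMb
      have hM0' : M0 ≤ M := by
        have : (M0 : ℝ) + 1 ≤ M := by
          refine le_trans ?_ hMr1
          rw [div_le_iff₀ hε] at hNM
          linarith
        have h2 : (M0 : ℝ) ≤ M := by linarith
        exact_mod_cast h2
      obtain ⟨hcM, hM8, hMV⟩ := hM0 M hM0'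
      have hM' : (0 : ℝ) < M := by
        have : 0 < M := by omega
        exact_mod_cast this
      have hlogM0 : Real.log N ≤ Real.log M + Real.log (64 / ε) := by
        have h2 : Real.log (ε / 64 * N) ≤ Real.log M := Real.log_le_log (by positivity) hMr1
        rw [Real.log_mul (by positivity) hN'.ne'] at h2
        have h3 : Real.log (ε / 64) = -Real.log (64 / ε) := by
          rw [← Real.log_inv]; congr 1; field_simp
        rw [h3] at h2
        linarith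
      have hlogM : Real.log N ≤ 2 * Real.log M := by linarith
      have hlogM1 : Real.log M ≤ Real.log N := Real.log_le_log hM' hMr2
      have hlogMp : 0 < Real.log M := by linarith
      -- the cost
      have hcost' : ∀ a, C * √ (1 + ((i a + 1 : ℕ) : ℝ)) * rho (Nat.log 2 M) ≤ κ := by
        intro a
        have hi1 : ((i a + 1 : ℕ) : ℝ) ≤ (2 * Real.log M) ^ (0.99 : ℝ) := by
          push_cast
          have h2 : Real.log N ^ (0.99 : ℝ) ≤ (2 * Real.log M) ^ (0.99 : ℝ) :=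
            Real.rpow_le_rpow (by linarith) hlogM (by norm_num)
          have h3 : Real.log N ^ (0.99 : ℝ) = Real.log N ^ (0.50005 : ℝ) * Real.log N ^ (0.48995 : ℝ) := by
            rw [← Real.rpow_add (by linarith)]; norm_num
          have h4 : (1 : ℝ) ≤ Real.log N ^ (0.50005 : ℝ) := Real.one_le_rpow hNl1 (by norm_num)
          have h5 := hi a
          nlinarith
        rw [mul_assoc]
        exact (mul_le_mul_of_nonneg_left (cost_le hM8 hi1) hC0.le).trans hcM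
      -- the level
      have hi2 : ∀ a, (i a : ℝ) ≤ Real.log M ^ (0.5001 : ℝ) := by
        intro a
        refine (hi a).trans ?_
        have h2 : Real.log N ^ (0.5001 : ℝ) ≤ (2 * Real.log M) ^ (0.5001 : ℝ) :=
          Real.rpow_le_rpow (by linarith) hlogM (by norm_num)
        have h3 : Real.log N ^ (0.5001 : ℝ) = Real.log N ^ (0.50005 : ℝ) * Real.log N ^ (0.00005 : ℝ) := by
          rw [← Real.rpow_add (by linarith)]; norm_num
        have h4 : 0 ≤ Real.log N ^ (0.50005 : ℝ) := by positivity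
        rw [Real.mul_rpow (by norm_num) hlogMp.le] at h2
        have h5 : (2 : ℝ) ^ (0.5001 : ℝ) ≤ 2 := by
          calc (2 : ℝ) ^ (0.5001 : ℝ) ≤ 2 ^ (1 : ℝ) := Real.rpow_le_rpow_of_exponent_le (by norm_num) (by norm_num)
            _ = 2 := Real.rpow_one 2
        have h6 : 0 ≤ Real.log M ^ (0.5001 : ℝ) := by positivity
        nlinarith
      have hgapM : ∀ a b, a ≠ b → A * √ (Real.log M) ≤ |(i a : ℝ) - i b| := by
        intro a b hab
        refine le_trans ?_ (hgap a b hab)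
        exact mul_le_mul_of_nonneg_left (Real.sqrt_le_sqrt hlogM1) hA.le
      have hcor := hmix M hMV i hi2 hgapM
      have hbm := block_mean_n hC hg hM8 hr hcost' hcor
      rw [abs_div, Nat.abs_cast, div_le_iff₀ hM'] at hbm
      rw [hu]
      refine hbm.trans ?_
      have e : ((n : ℝ) + 1) * κ = ε / 32 := by rw [hκdef]; field_simp
      rw [e]
      have : 0 ≤ ε * M := by positivity
      linarith)
  -- the count
  have hcount : (((#{m ∈ Icc 1 N | ∀ a, 3 ^ i a * ((m : ℕ) : ℤ) + r a ∈ S a} : ℕ) : ℝ) - (∏ a, δ a) * N)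
      = ∑ m ∈ Icc 1 N, u m := by
    rw [card_filter]
    push_cast
    have e : ((∏ a, δ a) * N : ℝ) = ∑ m ∈ Icc 1 N, ∏ a, δ a := by
      rw [sum_const, Nat.card_Icc, nsmul_eq_mul, Nat.add_sub_cancel]; ring
    rw [e, ← sum_sub_distrib]
    apply sum_congr rfl
    intro m _
    rw [hu, hgdef]
    simp only [Set.indicator]
    congr 1
    rw [prod_ite_zero]
    simp
  rw [hcount]
  refine hmain.trans ?_
  rw [div_le_iff₀ hε] at hN8
  have h1N : (1 : ℝ) ≤ N := by exact_mod_cast hN1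
  have hεN : ε ≤ ε * N := le_mul_of_one_le_right hε.le h1N
  linarith

end Pool.Agent.KS6_24.ST
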