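import Pool.Agent.KS6_24.ST.KL4
import Pool.Agent.KS6_24.ST.MXF
import Pool.Agent.KS6_24.ST.PL7

/-!
PROJECT KL: the joint law for sums over `n ≤ N`, with shifts.
-/

set_option autoImplicit false

namespace Pool.Agent.KS6_24.ST

open Pool.Agent.H499R2.CO Pool.Agent.Y965.SI Finset Filter Topology MeasureTheory Pool.Agent.KS6_24.LN

/-- THE JOINT LAW for sums. -/
def S_JOINT (d : ℤ) : Prop := ∀ (n : ℕ) (F : Fin n → ℤ → ℝ), (∀ a, InvF d (F a)) → ∀ M : Finset (Fin n) → ℝ, Mn F M →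
  ∀ ε : ℝ, 0 < ε → ∃ N0 : ℕ, ∀ N : ℕ, N0 ≤ N → ∀ i : Fin n → ℕ, (∀ a, (i a : ℝ) ≤ Real.log N ^ (0.97 : ℝ)) →
    ∀ r : Fin n → ℤ, (∀ a, |r a| ≤ 3 ^ i a) →
      |∑ m ∈ Icc 1 N, ∏ a, F a (3 ^ i a * ((m : ℕ) : ℤ) + r a) - Cw (GM M) (kn N) (fun a => 2 * (i a : ℤ)) * N| ≤ ε * N

theorem jt_kn_tendsto : Tendsto (fun N : ℕ => kn N) atTop atTop := by
  unfold kn
  exact tendsto_nat_floor_atTop.comp ((Real.tendsto_log_atTop.comp tendsto_natCast_atTop_atTop).atTop_div_const pl_gm_pos)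

/-- the time for `N` and for `M ≥ N / B` -/
theorem jt_kn_diff {M N : ℕ} {B : ℝ} (hM : 1 ≤ M) (hMN : M ≤ N) (hB : Real.log N ≤ Real.log M + B) :
    ∃ l : ℕ, kn N = kn M + l ∧ (l : ℝ) ≤ B / gm + 1 := by
  have hg := pl_gm_pos
  have hM' : (1 : ℝ) ≤ M := by exact_mod_cast hM
  have hMN' : (M : ℝ) ≤ N := by exact_mod_cast hMN
  have h0 : 0 ≤ Real.log M := Real.log_nonneg hM'
  have h1 : Real.log M ≤ Real.log N := Real.log_le_log (by linarith) hMN'
  have h2 : kn M ≤ kn N := by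
    unfold kn
    exact Nat.floor_mono (div_le_div_of_nonneg_right h1 hg.le)
  refine ⟨kn N - kn M, by omega, ?_⟩
  rw [Nat.cast_sub h2]
  have h3 : (kn N : ℝ) ≤ Real.log N / gm := Nat.floor_le (by positivity)
  have h4 : Real.log M / gm < kn M + 1 := Nat.lt_floor_add_one _
  have h5 : Real.log N / gm ≤ Real.log M / gm + B / gm := by
    rw [← add_div]; exact div_le_div_of_nonneg_right hB hg.le
  linarith

theorem joint (d : ℤ) (hd : d = 1 ∨ d = -1) (h : S_KL d) : S_JOINT d := by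
  classical
  intro n g hg Mm hMn ε hε
  obtain ⟨C, hC0, hC⟩ := cjr d hd
  obtain ⟨Cc, hCc1, hcw⟩ := cw
  have hG : Gok (GM Mm) := ⟨fun x => KL4.GM_abs hMn.1 x, fun x s => KL4.GM_trans Mm x s⟩
  obtain ⟨hwabs, -, -, hwtime, -, -⟩ := hcw n (GM Mm) hG
  obtain ⟨κ, hκdef⟩ : ∃ κ, κ = ε / (32 * ((n : ℝ) + 1)) := ⟨_, rfl⟩
  have hκ : 0 < κ := by rw [hκdef]; positivity
  obtain ⟨V0, hV0, hkl⟩ := h n g hg Mm hMn (κ / 2) (by positivity)
  -- the eventual conditions on `M`
  have hc1 : Tendsto (fun M : ℕ => C * √ ((1 + (2 * Real.log M) ^ (0.99 : ℝ)) * Real.log (2 * Real.log M + 1)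
      / Real.log M)) atTop (𝓝 0) := by
    have := (cost_tendsto.comp (Real.tendsto_log_atTop.comp tendsto_natCast_atTop_atTop)).sqrt.const_mul C
    rw [Real.sqrt_zero, mul_zero] at this
    exact this
  have hlogt : Tendsto (fun N : ℕ => Real.log N) atTop atTop :=
    Real.tendsto_log_atTop.comp tendsto_natCast_atTop_atTop
  have hg1 : Tendsto (fun N : ℕ => Real.log N ^ (0.01 : ℝ)) atTop atTop :=
    (tendsto_rpow_atTop (by norm_num)).comp hlogt
  have hg2 : Tendsto (fun N : ℕ => Real.log N ^ (0.02 : ℝ)) atTop atTop :=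
    (tendsto_rpow_atTop (by norm_num)).comp hlogt
  obtain ⟨l0, hl0⟩ : ∃ l0 : ℝ, l0 = Real.log (64 / ε) / gm + 1 := ⟨_, rfl⟩
  have hk1 : Tendsto (fun M : ℕ => Cc * n * (√ l0 + 1) / √ ((kn M : ℝ) + 1)) atTop (𝓝 0) := by
    apply Tendsto.const_div_atTop
    apply Real.tendsto_sqrt_atTop.comp
    apply tendsto_atTop_add_const_right
    exact tendsto_natCast_atTop_atTop.comp jt_kn_tendsto
  obtain ⟨M0, hM0⟩ := eventually_atTop.1 ((hc1.eventually (eventually_le_nhds hκ)).and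
    ((eventually_ge_atTop 8).and (((tendsto_natCast_atTop_atTop (R := ℝ)).eventually_ge_atTop V0).and
      (hk1.eventually (eventually_le_nhds (show 0 < κ / 2 by positivity))))))
  obtain ⟨N0, hN0⟩ := eventually_atTop.1 ((eventually_ge_atTop 1).and ((hlogt.eventually_ge_atTop 1).and
    ((hlogt.eventually_ge_atTop (2 * Real.log (64 / ε))).and
    (((tendsto_natCast_atTop_atTop (R := ℝ)).eventually_ge_atTop (64 * (M0 + 1) / ε)).and
    (((tendsto_natCast_atTop_atTop (R := ℝ)).eventually_ge_atTop (256 / ε)).and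
    (((tendsto_natCast_atTop_atTop (R := ℝ)).eventually_ge_atTop (64 * (64 / ε) / ε)).and
    ((hg1.eventually_ge_atTop 2).and (hg2.eventually_ge_atTop 2))))))))
  refine ⟨N0, fun N hN i hi r hr => ?_⟩
  obtain ⟨hN1, hNl1, hNl2, hNM, hN8, hN9, hNg1, hNg2⟩ := hN0 N hN
  have hN' : (0 : ℝ) < N := by exact_mod_cast hN1
  obtain ⟨N1, hN1def⟩ : ∃ N1 : ℕ, N1 = ⌈ε / 64 * N⌉₊ := ⟨_, rfl⟩
  have hN1a : ε / 64 * N ≤ N1 := by rw [hN1def]; exact Nat.le_ceil _
  have hN1b : (N1 : ℝ) ≤ ε / 64 * N + 1 := by rw [hN1def]; exact (Nat.ceil_lt_add_one (by positivity)).le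
  obtain ⟨c, hc⟩ : ∃ c : ℝ, c = Cw (GM Mm) (kn N) (fun a => 2 * (i a : ℤ)) := ⟨_, rfl⟩
  have hcabs : |c| ≤ 1 := by rw [hc]; exact hwabs _ _
  obtain ⟨u, hu⟩ : ∃ u : ℕ → ℝ, u = fun m : ℕ => ∏ a, g a (3 ^ i a * (m : ℕ) + r a) - c := ⟨_, rfl⟩
  have hub : ∀ m, |u m| ≤ 4 := by
    intro m
    rw [hu]
    simp only
    have h2 : |∏ a, g a (3 ^ i a * (m : ℕ) + r a)| ≤ 1 := abs_prod_le_one fun a _ => (hg a).1 _
    rw [abs_le] at h2 hcabs ⊢
    constructor <;> linarith [h2.1, h2.2, hcabs.1, hcabs.2]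
  have hmain := sum_of_dyadic (u := u) (B := 4) hub (N := N) (N1 := N1) (η := ε / 16) (by positivity)
    (by
      have : 64 / ε ≤ N1 := by
        refine le_trans ?_ hN1a
        rw [div_le_iff₀ hε] at hN9
        rw [div_le_iff₀ hε]
        have h3 : 64 * (64 / ε) * ε = 64 * 64 := by field_simp
        have h4 : 64 * (64 / ε) ≤ N * ε := hN9
        have h5 : 64 * (64 / ε) * ε ≤ N * ε * ε := mul_le_mul_of_nonneg_right h4 hε.le
        nlinarith
      rw [div_le_iff₀ hε] at this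
      linarith)
    (by
      intro M hMa hMb
      have hMr1 : ε / 64 * N ≤ M := hN1a.trans (by exact_mod_cast hMa)
      have hMr2 : (M : ℝ) ≤ N := by exact_mod_cast hMb
      have hM0' : M0 ≤ M := by
        have : (M0 : ℝ) + 1 ≤ M := by
          refine le_trans ?_ hMr1
          rw [div_le_iff₀ hε] at hNM
          linarith
        have h2 : (M0 : ℝ) ≤ M := by linarith
        exact_mod_cast h2
      obtain ⟨hcM, hM8, hMV, hMk⟩ := hM0 M hM0'
      have hM' : (0 : ℝ) < M := by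
        have : 0 < M := by omega
        exact_mod_cast this
      have hlogM0 : Real.log N ≤ Real.log M + Real.log (64 / ε) := by
        have h2 : Real.log (ε / 64 * N) ≤ Real.log M := Real.log_le_log (by positivity) hMr1
        rw [Real.log_mul (by positivity) hN'.ne'] at h2
        have h3 : Real.log (ε / 64) = -Real.log (64 / ε) := by
          rw [← Real.log_inv]; congr 1; field_simp
        rw [h3] at h2
        linarith
      have hlogM : Real.log N ≤ 2 * Real.log M := by linarith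
      have hlogM1 : Real.log M ≤ Real.log N := Real.log_le_log hM' hMr2
      have hlogMp : 0 < Real.log M := by linarith
      -- the cost
      have hcost' : ∀ a, C * √ (1 + ((i a + 1 : ℕ) : ℝ)) * rho (Nat.log 2 M) ≤ κ := by
        intro a
        have hi1 : ((i a + 1 : ℕ) : ℝ) ≤ (2 * Real.log M) ^ (0.99 : ℝ) := by
          push_cast
          have h2 : Real.log N ^ (0.99 : ℝ) ≤ (2 * Real.log M) ^ (0.99 : ℝ) :=
            Real.rpow_le_rpow (by linarith) hlogM (by norm_num)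
          have h3 : Real.log N ^ (0.99 : ℝ) = Real.log N ^ (0.97 : ℝ) * Real.log N ^ (0.02 : ℝ) := by
            rw [← Real.rpow_add (by linarith)]; norm_num
          have h4 : (1 : ℝ) ≤ Real.log N ^ (0.97 : ℝ) := Real.one_le_rpow hNl1 (by norm_num)
          have h5 := hi a
          nlinarith
        rw [mul_assoc]
        exact (mul_le_mul_of_nonneg_left (cost_le hM8 hi1) hC0.le).trans hcM
      -- the level
      have hi2 : ∀ a, (i a : ℝ) ≤ Real.log M ^ (0.98 : ℝ) := by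
        intro a
        refine (hi a).trans ?_
        have h2 : Real.log N ^ (0.98 : ℝ) ≤ (2 * Real.log M) ^ (0.98 : ℝ) :=
          Real.rpow_le_rpow (by linarith) hlogM (by norm_num)
        have h3 : Real.log N ^ (0.98 : ℝ) = Real.log N ^ (0.97 : ℝ) * Real.log N ^ (0.01 : ℝ) := by
          rw [← Real.rpow_add (by linarith)]; norm_num
        have h4 : 0 ≤ Real.log N ^ (0.97 : ℝ) := by positivity
        rw [Real.mul_rpow (by norm_num) hlogMp.le] at h2
        have h5 : (2 : ℝ) ^ (0.98 : ℝ) ≤ 2 := by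
          calc (2 : ℝ) ^ (0.98 : ℝ) ≤ 2 ^ (1 : ℝ) := Real.rpow_le_rpow_of_exponent_le (by norm_num) (by norm_num)
            _ = 2 := Real.rpow_one 2
        have h6 : 0 ≤ Real.log M ^ (0.98 : ℝ) := by positivity
        nlinarith
      have hcor := hkl M hMV i hi2
      -- the time
      obtain ⟨l, hl1, hl2⟩ := jt_kn_diff (B := Real.log (64 / ε)) (by omega : 1 ≤ M) hMb hlogM0
      have htime := hwtime (kn M) l (fun a => 2 * (i a : ℤ))
      rw [← hl1, ← hc] at htime
      have htime2 : |c - Cw (GM Mm) (kn M) (fun a => 2 * (i a : ℤ))| ≤ κ / 2 := by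
        refine htime.trans (le_trans ?_ hMk)
        apply div_le_div_of_nonneg_right _ (Real.sqrt_nonneg _)
        apply mul_le_mul_of_nonneg_left _ (by positivity)
        have : √ (l : ℝ) ≤ √ l0 := Real.sqrt_le_sqrt (by rw [hl0]; exact hl2)
        linarith
      have hcor2 : |cn g M (fun a => i a) - c| ≤ κ := by
        have e : cn g M (fun a => i a) - c = (cn g M (fun a => i a) - Cw (GM Mm) (kn M) (fun a => 2 * (i a : ℤ)))
          - (c - Cw (GM Mm) (kn M) (fun a => 2 * (i a : ℤ))) := by ring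
        rw [e]
        refine (abs_sub _ _).trans ?_
        linarith
      have hbm := block_mean_n hC hg hM8 hr hcost' hcor2
      rw [abs_div, Nat.abs_cast, div_le_iff₀ hM'] at hbm
      rw [hu]
      refine hbm.trans ?_
      have e : ((n : ℝ) + 1) * κ = ε / 32 := by rw [hκdef]; field_simp
      rw [e]
      have : 0 ≤ ε * M := by positivity
      linarith)
  have hcount : ∑ m ∈ Icc 1 N, ∏ a, g a (3 ^ i a * ((m : ℕ) : ℤ) + r a) - c * N = ∑ m ∈ Icc 1 N, u m := by
    rw [hu, sum_sub_distrib, sum_const, Nat.card_Icc, nsmul_eq_mul, Nat.add_sub_cancel]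
    ring
  rw [← hc, hcount]
  refine hmain.trans ?_
  rw [div_le_iff₀ hε] at hN8
  have h1N : (1 : ℝ) ≤ N := by exact_mod_cast hN1
  have hεN : ε ≤ ε * N := le_mul_of_one_le_right hε.le h1N
  linarith

end Pool.Agent.KS6_24.ST
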