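import Mathlib
import Pool.Agent.KS6_24.ST.FMDefs
import Pool.Agent.KS6_24.ST.FM3
import Pool.Agent.KS6_24.ST.JT

/-! FM6: from `S_CORM` to counts of `n ≤ N` along two linear forms. -/

set_option autoImplicit false

namespace Pool.Agent.KS6_24.ST

open Pool.Agent.H499R2.CO Pool.Agent.Y965.SI Finset Filter Topology MeasureTheory Pool.Agent.KS6_24.LN

namespace FM6

/-- a shift does not matter on average -/
theorem shift_small {d : ℤ} (hd : d = 1 ∨ d = -1) {f : ℤ → ℝ} (hf : InvF d f) (s : ℝ) :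
    Tendsto (fun V : ℝ => av V (fun y => |f ⌊y⌋ - f ⌊y + s⌋|)) atTop (𝓝 0) := by
  obtain ⟨C, hC0, hC⟩ := ci d hd
  obtain ⟨u, hu⟩ : ∃ u : ℕ, |s| ≤ 4 ^ u := by
    obtain ⟨u, hu⟩ := pow_unbounded_of_one_lt |s| (show (1 : ℝ) < 4 by norm_num)
    exact ⟨u, hu.le⟩
  rw [Metric.tendsto_atTop]
  intro ε hε
  have h1 : Tendsto (fun R : ℕ => C * √ (1 + ((0 : ℕ) : ℝ) ^ 2 + u) * rho R) atTop (𝓝 0) := by
    have := rho_tendsto.const_mul (C * √ (1 + ((0 : ℕ) : ℝ) ^ 2 + u))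
    rwa [mul_zero] at this
  obtain ⟨R, hR1, hR2⟩ := ((h1.eventually (gt_mem_nhds hε)).and (eventually_ge_atTop 1)).exists
  refine ⟨2 ^ R, fun V hV => ?_⟩
  have hV0 : 0 < V := lt_of_lt_of_le (by positivity) hV
  have h2 := hC f hf R hR2 V hV 0 u s hu
  simp only [pow_zero, one_mul] at h2 hR1
  rw [Real.dist_eq, sub_zero, abs_of_nonneg (av_nonneg hV0 fun y => abs_nonneg _)]
  exact lt_of_le_of_lt h2 hR1

theorem bd_shift {f : ℤ → ℝ} (hf : ∀ x, |f x| ≤ 1) (s : ℝ) : Bd (1 + 1) (fun y => |f ⌊y⌋ - f ⌊y + s⌋|) :=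
  ((Bd.fl hf).sub (Bd.flc hf (g := fun y => y + s) (by fun_prop))).abs

/-- `A ⌊y⌋ + r` and `⌊A y⌋` -/
theorem form_small {d : ℤ} (hd : d = 1 ∨ d = -1) {f : ℤ → ℝ} (hf : InvF d f) {A : ℕ} (hA : 1 ≤ A) (r : ℤ) :
    Tendsto (fun V : ℝ => av V (fun y => |f (A * ⌊y⌋ + r) - f ⌊(A : ℝ) * y⌋|)) atTop (𝓝 0) := by
  have hA0 : (0 : ℝ) < A := by exact_mod_cast hA
  have h1 : Tendsto (fun V : ℝ => ∑ s ∈ Finset.Icc (r - A) r, av (A * V) (fun y => |f ⌊y⌋ - f ⌊y + s⌋|)) atTop (𝓝 0) := by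
    have h2 : ∀ s ∈ Finset.Icc (r - (A : ℤ)) r, Tendsto (fun V : ℝ => av (A * V) (fun y => |f ⌊y⌋ - f ⌊y + s⌋|)) atTop (𝓝 0) :=
      fun s _ => (shift_small hd hf (s : ℝ)).comp (tendsto_id.const_mul_atTop hA0)
    have h3 := tendsto_finset_sum _ h2
    simpa using h3
  refine squeeze_zero' ?_ ?_ h1
  · filter_upwards [eventually_gt_atTop 0] with V hV
    exact av_nonneg hV fun y => abs_nonneg _
  · filter_upwards [eventually_gt_atTop 0] with V hV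
    have hb : ∀ s ∈ Finset.Icc (r - (A : ℤ)) r, Bd (1 + 1) (fun y : ℝ => |f ⌊(A : ℝ) * y⌋ - f ⌊(A : ℝ) * y + s⌋|) :=
      fun s _ => (bd_shift hf.1 (s : ℝ)).comp (g := fun y => (A : ℝ) * y) (by fun_prop)
    have e1 : ∑ s ∈ Finset.Icc (r - (A : ℤ)) r, av (A * V) (fun y => |f ⌊y⌋ - f ⌊y + s⌋|)
        = av V (fun y => ∑ s ∈ Finset.Icc (r - (A : ℤ)) r, |f ⌊(A : ℝ) * y⌋ - f ⌊(A : ℝ) * y + s⌋|) := by
      rw [av_sum V hb]
      apply sum_congr rfl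
      intro s _
      exact (av_scale hV hA0 (fun y => |f ⌊y⌋ - f ⌊y + s⌋|)).symm
    rw [e1]
    have hb1 : Bd 1 (fun y : ℝ => f (A * ⌊y⌋ + r)) := Bd.fl (F := fun x => f (A * x + r)) fun x => hf.1 _
    have hb2 : Bd 1 (fun y : ℝ => f ⌊(A : ℝ) * y⌋) := Bd.flc hf.1 (g := fun y => (A : ℝ) * y) (by fun_prop)
    apply av_mono hV (hb1.sub hb2).abs (Bd.sum hb)
    intro y _ _
    obtain ⟨s, hs⟩ : ∃ s : ℤ, s = A * ⌊y⌋ + r - ⌊(A : ℝ) * y⌋ := ⟨_, rfl⟩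
    have h3 : (A : ℤ) * ⌊y⌋ ≤ ⌊(A : ℝ) * y⌋ := by
      rw [Int.le_floor]
      push_cast
      exact mul_le_mul_of_nonneg_left (Int.floor_le y) hA0.le
    have h4 : ⌊(A : ℝ) * y⌋ ≤ (A : ℤ) * ⌊y⌋ + A := by
      have : ⌊(A : ℝ) * y⌋ < (A : ℤ) * ⌊y⌋ + A + 1 := by
        rw [Int.floor_lt]
        push_cast
        have h5 := Int.lt_floor_add_one y
        nlinarith
      omega
    have hmem : s ∈ Finset.Icc (r - (A : ℤ)) r := by rw [Finset.mem_Icc]; constructor <;> omega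
    have e2 : f (A * ⌊y⌋ + r) = f ⌊(A : ℝ) * y + s⌋ := by
      rw [Int.floor_add_intCast]; congr 1; omega
    rw [e2, abs_sub_comm]
    exact single_le_sum (f := fun s : ℤ => |f ⌊(A : ℝ) * y⌋ - f ⌊(A : ℝ) * y + s⌋|) (fun s _ => abs_nonneg _) hmem

theorem Tz_two_pow (d : ℤ) (k : ℕ) (x : ℤ) : (Tz d)^[k] (2 ^ k * x) = x := by
  induction k with
  | zero => simp
  | succ k ih =>
    rw [Function.iterate_succ_apply]
    have e : Tz d (2 ^ (k + 1) * x) = 2 ^ k * x := by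
      unfold Tz
      have h1 : (2 : ℤ) ^ (k + 1) * x = 2 * (2 ^ k * x) := by ring
      rw [h1, if_pos (by omega)]
      omega
    rw [e, ih]

/-- `2 ^ k A ⌊y⌋ + r` and `⌊A y⌋` -/
theorem form_small2 {d : ℤ} (hd : d = 1 ∨ d = -1) {f : ℤ → ℝ} (hf : InvF d f) {A : ℕ} (hA : 1 ≤ A) (k : ℕ) (r : ℤ) :
    Tendsto (fun V : ℝ => av V (fun y => |f (2 ^ k * A * ⌊y⌋ + r) - f ⌊(A : ℝ) * y⌋|)) atTop (𝓝 0) := by
  have hA0 : (0 : ℝ) < A := by exact_mod_cast hA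
  have h1 := form_small hd hf (A := 2 ^ k * A) (by have := Nat.one_le_two_pow (n := k); nlinarith) r
  have h2 := (form_small hd hf (A := 2 ^ k) Nat.one_le_two_pow 0).comp (tendsto_id.const_mul_atTop hA0)
  have h3 := h1.add h2
  rw [add_zero] at h3
  refine squeeze_zero' ?_ ?_ h3
  · filter_upwards [eventually_gt_atTop 0] with V hV
    exact av_nonneg hV fun y => abs_nonneg _
  · filter_upwards [eventually_gt_atTop 0] with V hV
    simp only [Function.comp, id]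
    have e1 := av_scale hV hA0 (fun y => |f (((2 ^ k : ℕ) : ℤ) * ⌊y⌋ + 0) - f ⌊((2 ^ k : ℕ) : ℝ) * y⌋|)
    rw [← e1]
    have hb1 : Bd 1 (fun y : ℝ => f (2 ^ k * A * ⌊y⌋ + r)) := Bd.fl (F := fun x => f (2 ^ k * A * x + r)) fun x => hf.1 _
    have hb2 : Bd 1 (fun y : ℝ => f ⌊(A : ℝ) * y⌋) := Bd.flc hf.1 (g := fun y => (A : ℝ) * y) (by fun_prop)
    have hb3 : Bd 1 (fun y : ℝ => f (((2 ^ k * A : ℕ) : ℤ) * ⌊y⌋ + r)) :=
      Bd.fl (F := fun x => f (((2 ^ k * A : ℕ) : ℤ) * x + r)) fun x => hf.1 _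
    have hb4 : Bd 1 (fun y : ℝ => f ⌊((2 ^ k * A : ℕ) : ℝ) * y⌋) :=
      Bd.flc hf.1 (g := fun y => ((2 ^ k * A : ℕ) : ℝ) * y) (by fun_prop)
    have hb5 : Bd 1 (fun y : ℝ => f (((2 ^ k : ℕ) : ℤ) * ⌊(A : ℝ) * y⌋ + 0)) :=
      (Bd.fl (F := fun x => f (((2 ^ k : ℕ) : ℤ) * x + 0)) fun x => hf.1 _).comp (g := fun y => (A : ℝ) * y) (by fun_prop)
    have hb6 : Bd 1 (fun y : ℝ => f ⌊((2 ^ k : ℕ) : ℝ) * ((A : ℝ) * y)⌋) :=
      Bd.flc hf.1 (g := fun y => ((2 ^ k : ℕ) : ℝ) * ((A : ℝ) * y)) (by fun_prop)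
    have e2 := av_add V (hb3.sub hb4).abs (hb5.sub hb6).abs
    rw [← e2]
    apply av_mono hV (hb1.sub hb2).abs ((hb3.sub hb4).abs.add (hb5.sub hb6).abs)
    intro y _ _
    have e3 : f (2 ^ k * A * ⌊y⌋ + r) = f (((2 ^ k * A : ℕ) : ℤ) * ⌊y⌋ + r) := by push_cast; rfl
    have e4 : f ⌊(A : ℝ) * y⌋ = f (((2 ^ k : ℕ) : ℤ) * ⌊(A : ℝ) * y⌋ + 0) := by
      have := hf.iter k (2 ^ k * ⌊(A : ℝ) * y⌋)
      rw [Tz_two_pow] at this
      rw [this]; push_cast; rw [add_zero]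
    have e5 : ((2 ^ k * A : ℕ) : ℝ) * y = ((2 ^ k : ℕ) : ℝ) * ((A : ℝ) * y) := by push_cast; ring
    rw [e3, e4, e5]
    have := abs_sub_le (f (((2 ^ k * A : ℕ) : ℤ) * ⌊y⌋ + r)) (f ⌊((2 ^ k : ℕ) : ℝ) * ((A : ℝ) * y)⌋)
      (f (((2 ^ k : ℕ) : ℤ) * ⌊(A : ℝ) * y⌋ + 0))
    rw [abs_sub_comm (f ⌊((2 ^ k : ℕ) : ℝ) * ((A : ℝ) * y)⌋)] at this
    exact this

/-- from averages over `[V, 2 V]` to means over `[1, N]` -/
theorem mean_of_blocks {G : ℤ → ℝ} {B c : ℝ} (hG : ∀ x, |G x| ≤ B)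
    (h : Tendsto (fun V : ℝ => av V (fun y => G ⌊y⌋)) atTop (𝓝 c)) :
    Tendsto (fun N : ℕ => (∑ m ∈ Icc 1 N, G ((m : ℕ) : ℤ)) / (N : ℝ)) atTop (𝓝 c) := by
  rw [Metric.tendsto_atTop] at h ⊢
  intro ε hε
  obtain ⟨V0, hV0⟩ := h (ε / 16) (by positivity)
  have hB : 0 ≤ B := (abs_nonneg _).trans (hG 0)
  obtain ⟨D, hD⟩ : ∃ D : ℝ, D = B + |c| := ⟨_, rfl⟩
  have hD0 : 0 ≤ D := by rw [hD]; positivity
  obtain ⟨N1, hN1⟩ : ∃ N1 : ℕ, N1 = ⌈max (max V0 1) (D / (ε / 16))⌉₊ := ⟨_, rfl⟩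
  have hN1a : max (max V0 1) (D / (ε / 16)) ≤ N1 := by rw [hN1]; exact Nat.le_ceil _
  have hN1V : V0 ≤ N1 := ((le_max_left _ _).trans (le_max_left _ _)).trans hN1a
  have hN11 : (1 : ℝ) ≤ N1 := ((le_max_right _ _).trans (le_max_left _ _)).trans hN1a
  have hN1D : D ≤ ε / 16 * N1 := by
    have := (le_max_right _ _).trans hN1a
    rw [div_le_iff₀ (by positivity)] at this
    linarith
  obtain ⟨u, hu⟩ : ∃ u : ℕ → ℝ, u = fun m : ℕ => G (m : ℕ) - c := ⟨_, rfl⟩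
  have hub : ∀ m, |u m| ≤ D := by
    intro m
    rw [hu, hD]
    have := abs_sub (G (m : ℕ)) c
    have := hG (m : ℕ)
    simp only
    linarith
  have hblock : ∀ M : ℕ, N1 ≤ M → |∑ n ∈ Ico M (2 * M), u n| ≤ ε / 16 * M := by
    intro M hM
    have hM1 : (1 : ℝ) ≤ M := hN11.trans (by exact_mod_cast hM)
    have hM0 : (0 : ℝ) < M := by linarith
    have h1 := hV0 M (hN1V.trans (by exact_mod_cast hM))
    rw [av_floor hG (N := M) (by exact_mod_cast hM1), Real.dist_eq] at h1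
    have e : (∑ n ∈ Ico M (2 * M), G (n : ℕ)) / (M : ℝ) - c = (∑ n ∈ Ico M (2 * M), u n) / M := by
      rw [hu, sum_sub_distrib, sum_const, Nat.card_Ico, nsmul_eq_mul]
      have : 2 * M - M = M := by omega
      rw [this]
      field_simp
    rw [e, abs_div, Nat.abs_cast, div_lt_iff₀ hM0] at h1
    exact h1.le
  obtain ⟨N2, hN2⟩ : ∃ N2 : ℕ, N2 = ⌈max 1 ((D * (2 * N1 + 5)) / (ε / 4))⌉₊ := ⟨_, rfl⟩
  refine ⟨N2, fun N hN => ?_⟩
  have hNr : max 1 ((D * (2 * N1 + 5)) / (ε / 4)) ≤ N :=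
    (Nat.le_ceil _).trans (by rw [← hN2]; exact_mod_cast hN)
  have hNr1 : (1 : ℝ) ≤ N := (le_max_left _ _).trans hNr
  have hN0 : (0 : ℝ) < N := by linarith
  have hNr2 : D * (2 * N1 + 5) ≤ ε / 4 * N := by
    have := (le_max_right _ _).trans hNr
    rw [div_le_iff₀ (by positivity)] at this
    linarith
  have hmain := sum_of_dyadic (u := u) (B := D) hub (N := N) (N1 := N1) (η := ε / 16) (by positivity) hN1D
    (fun M hM _ => hblock M hM)
  have e : (∑ m ∈ Icc 1 N, G ((m : ℕ) : ℤ)) / (N : ℝ) - c = (∑ n ∈ Icc 1 N, u n) / N := by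
    rw [hu, sum_sub_distrib, sum_const, Nat.card_Icc, nsmul_eq_mul, Nat.add_sub_cancel]
    field_simp
  rw [Real.dist_eq, e, abs_div, Nat.abs_cast, div_lt_iff₀ hN0]
  refine lt_of_le_of_lt hmain ?_
  nlinarith

/-- the mean of a product along forms -/
theorem prod_forms {n : ℕ} {F : Fin n → ℤ → ℝ} {d : Fin n → ℤ} (hd : ∀ a, d a = 1 ∨ d a = -1) (hF : ∀ a, InvF (d a) (F a))
    {A : Fin n → ℕ} (hA : ∀ a, 1 ≤ A a) (k : Fin n → ℕ) (r : Fin n → ℤ) {c : ℝ}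
    (h : Tendsto (fun V : ℝ => cf F A V (fun _ => 0)) atTop (𝓝 c)) :
    Tendsto (fun N : ℕ => (∑ m ∈ Icc 1 N, ∏ a, F a (2 ^ k a * A a * ((m : ℕ) : ℤ) + r a)) / (N : ℝ)) atTop (𝓝 c) := by
  apply mean_of_blocks (G := fun x => ∏ a, F a (2 ^ k a * A a * x + r a)) (B := 1)
  · intro x
    exact abs_prod_le_one fun a _ => (hF a).1 _
  · have hb1 : ∀ a, Bd 1 (fun y : ℝ => F a (2 ^ k a * A a * ⌊y⌋ + r a)) := fun a =>
      Bd.fl (F := fun x => F a (2 ^ k a * A a * x + r a)) fun x => (hF a).1 _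
    have hb2 : ∀ a, Bd 1 (fun y : ℝ => F a ⌊(A a : ℝ) * y⌋) := fun a =>
      Bd.flc (hF a).1 (g := fun y => (A a : ℝ) * y) (by fun_prop)
    have h1 : Tendsto (fun V : ℝ => av V (fun y => ∏ a, F a (2 ^ k a * A a * ⌊y⌋ + r a)) - cf F A V (fun _ => 0)) atTop (𝓝 0) := by
      have h2 : Tendsto (fun V : ℝ => ∑ a, av V (fun y => |F a (2 ^ k a * A a * ⌊y⌋ + r a) - F a ⌊(A a : ℝ) * y⌋|)) atTop (𝓝 0) := by
        have h3 := tendsto_finset_sum univ (fun a (_ : a ∈ univ) => form_small2 (hd a) (hF a) (hA a) (k a) (r a))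
        simpa using h3
      rw [tendsto_zero_iff_abs_tendsto_zero]
      refine squeeze_zero' (Eventually.of_forall fun V => abs_nonneg _) ?_ h2
      filter_upwards [eventually_gt_atTop 0] with V hV
      have hp1 : Bd 1 (fun y : ℝ => ∏ a, F a (2 ^ k a * A a * ⌊y⌋ + r a)) := Bd.prod fun a _ => hb1 a
      have hp2 : Bd 1 (fun y : ℝ => ∏ a, F a ⌊(A a : ℝ) * y⌋) := Bd.prod fun a _ => hb2 a
      have e1 : cf F A V (fun _ => 0) = av V (fun y => ∏ a, F a ⌊(A a : ℝ) * y⌋) := by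
        unfold cf; simp only [zpow_zero, one_mul]
      simp only [Function.comp]
      rw [e1, ← av_sub V hp1 hp2]
      refine (abs_av_le hV (hp1.sub hp2)).trans ?_
      rw [← av_sum V (fun a _ => ((hb1 a).sub (hb2 a)).abs)]
      apply av_mono hV (hp1.sub hp2).abs (Bd.sum fun a _ => ((hb1 a).sub (hb2 a)).abs)
      intro y _ _
      exact abs_prod_sub_prod (fun a _ => (hF a).1 _) (fun a _ => (hF a).1 _)
    have h2 := h1.add h
    rw [zero_add] at h2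
    refine h2.congr fun V => ?_
    ring

/-- the limit of `cf` from `S_CORM` -/
theorem corm_lim (h : S_CORM) {n : ℕ} {A : Fin (n + 1) → ℕ} {d : Fin (n + 1) → ℤ} (hA : AdmM A d) {F : Fin (n + 1) → ℤ → ℝ}
    (hF : ∀ a, InvF (d a) (F a)) (hm : MeanZero (F 0)) : Tendsto (fun V : ℝ => cf F A V (fun _ => 0)) atTop (𝓝 0) := by
  rw [Metric.tendsto_atTop]
  intro ε hε
  obtain ⟨V0, _, hV0⟩ := h n A d hA F hF hm (ε / 2) (by positivity)
  refine ⟨V0, fun V hV => ?_⟩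
  rw [Real.dist_eq, sub_zero]
  exact lt_of_le_of_lt (hV0 V hV) (by linarith)

theorem half_inv {d : ℤ} {F : ℤ → ℝ} (hF : InvF d F) {μ : ℝ} (hμ : |μ| ≤ 1) : InvF d (fun x => (F x - μ) / 2) := by
  refine ⟨fun x => ?_, fun x => ?_⟩
  · rw [abs_div, abs_of_pos (show (0 : ℝ) < 2 by norm_num), div_le_one (by norm_num)]
    have := abs_sub (F x) μ
    have := hF.1 x
    linarith
  · simp only [hF.2]

theorem half_mz {F : ℤ → ℝ} {μ : ℝ} (h : MeanZero (fun x => F x - μ)) : MeanZero (fun x => (F x - μ) / 2) := by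
  unfold MeanZero at h ⊢
  have h2 := h.const_mul (1 / 2)
  rw [mul_zero] at h2
  refine h2.congr fun N => ?_
  rw [← sum_div]; ring

/-- **Independence of two forms.** -/
theorem two_forms (h : S_CORM) {d e : ℤ} (hd : d = 1 ∨ d = -1) (he : e = 1 ∨ e = -1) {A B : ℕ} (hA : A % 2 = 1)
    (hB : B % 2 = 1) (hAB : (d * A * (e * B)) % 8 = 5 ∨ (d * A * (e * B)) % 8 = 7) (k l : ℕ) (r q : ℤ) {F G : ℤ → ℝ}
    (hF : InvF d F) (hG : InvF e G) {μ ν : ℝ} (hμ : |μ| ≤ 1) (hν : |ν| ≤ 1) (hmF : MeanZero (fun x => F x - μ))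
    (hmG : MeanZero (fun x => G x - ν)) :
    Tendsto (fun N : ℕ => (∑ m ∈ Icc 1 N, F (2 ^ k * A * ((m : ℕ) : ℤ) + r) * G (2 ^ l * B * ((m : ℕ) : ℤ) + q)) / (N : ℝ))
      atTop (𝓝 (μ * ν)) := by
  -- the product of `(F - μ) / 2` and `G`
  have h1 : Tendsto (fun N : ℕ => (∑ m ∈ Icc 1 N, ∏ a, ![fun x => (F x - μ) / 2, G] a (2 ^ ![k, l] a * ![A, B] a * ((m : ℕ) : ℤ)
      + ![r, q] a)) / (N : ℝ)) atTop (𝓝 0) := by
    apply prod_forms (d := ![d, e])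
    · intro a; fin_cases a <;> simpa
    · intro a
      fin_cases a
      · exact half_inv hF hμ
      · exact hG
    · intro a; fin_cases a <;> simp <;> omega
    · apply corm_lim h (d := ![d, e])
      · refine ⟨?_, ?_, ?_⟩
        · intro a; fin_cases a <;> simpa
        · intro a; fin_cases a <;> simpa
        · intro a b hab
          have hBA : (e * B * (d * A)) % 8 = 5 ∨ (e * B * (d * A)) % 8 = 7 := by rw [mul_comm]; exact hAB
          fin_cases a <;> fin_cases b <;> simp at hab ⊢ <;> assumption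
      · intro a
        fin_cases a
        · exact half_inv hF hμ
        · exact hG
      · exact half_mz hmF
  have h2 : Tendsto (fun N : ℕ => (∑ m ∈ Icc 1 N, ∏ a, ![fun x => (G x - ν) / 2] a (2 ^ ![l] a * ![B] a * ((m : ℕ) : ℤ)
      + ![q] a)) / (N : ℝ)) atTop (𝓝 0) := by
    apply prod_forms (d := ![e])
    · intro a; fin_cases a; simpa
    · intro a
      fin_cases a
      exact half_inv hG hν
    · intro a; fin_cases a; simp; omega
    · apply corm_lim h (d := ![e])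
      · refine ⟨?_, ?_, ?_⟩
        · intro a; fin_cases a; simpa
        · intro a; fin_cases a; simpa
        · intro a b hab
          exact absurd (Fin.ext (by have := a.2; have := b.2; omega)) hab
      · intro a
        fin_cases a
        exact half_inv hG hν
      · exact half_mz hmG
  simp only [Fin.prod_univ_two, Fin.prod_univ_one, Matrix.cons_val_zero, Matrix.cons_val_one, Matrix.cons_val_fin_one] at h1 h2
  have h3 := ((h1.const_mul 2).add (h2.const_mul (2 * μ))).add_const (μ * ν)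
  simp only [mul_zero, zero_add] at h3
  apply h3.congr'
  filter_upwards [eventually_ge_atTop 1] with N hN
  have hN0 : (0 : ℝ) < N := by exact_mod_cast hN
  have e1 : μ * ν = (∑ m ∈ Icc 1 N, μ * ν) / (N : ℝ) := by
    rw [sum_const, Nat.card_Icc, nsmul_eq_mul, Nat.add_sub_cancel]
    field_simp
  rw [e1, ← mul_div_assoc, ← mul_div_assoc, mul_sum, mul_sum, ← add_div, ← add_div, ← sum_add_distrib, ← sum_add_distrib]
  congr 1
  apply sum_congr rfl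
  intro m _
  ring

end FM6

end Pool.Agent.KS6_24.ST
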