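import Mathlib
import Pool.Agent.KS6_24.ST.FGDefs
import Pool.Agent.KS6_24.ST.FM6

/-! FG6: from `S_CORG` to counts of `n ≤ N` along linear forms; forms with quotient `2 ^ x 3 ^ y`. -/

set_option autoImplicit false

namespace Pool.Agent.KS6_24.ST

open Pool.Agent.H499R2.CO Pool.Agent.Y965.SI Finset Filter Topology MeasureTheory Pool.Agent.KS6_24.LN

namespace FG6

open FM6

/-- the limit of `cf` for mean zero functions -/
theorem corg_lim (h : S_CORG) {n : ℕ} {A : Fin (n + 1) → ℕ} {d : Fin (n + 1) → ℤ} (hA : GoodF A d) {F : Fin (n + 1) → ℤ → ℝ}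
    (hF : ∀ a, InvF (d a) (F a)) (hm : MeanZero (F 0)) : Tendsto (fun V : ℝ => cf F A V (fun _ => 0)) atTop (𝓝 0) := by
  rw [Metric.tendsto_atTop]
  intro ε hε
  obtain ⟨V0, _, hV0⟩ := h n A d hA F hF hm (ε / 2) (by positivity)
  refine ⟨V0, fun V hV => ?_⟩
  rw [Real.dist_eq, sub_zero]
  exact lt_of_le_of_lt (hV0 V hV) (by linarith)

/-- the limit of `cf` for a good family -/
theorem cf_lim (h : S_CORG) : ∀ {n : ℕ} {A : Fin n → ℕ} {d : Fin n → ℤ}, GoodF A d → ∀ {F : Fin n → ℤ → ℝ},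
    (∀ a, InvF (d a) (F a)) → ∀ {μ : Fin n → ℝ}, (∀ a, |μ a| ≤ 1) → (∀ a, MeanZero (fun x => F a x - μ a)) →
    Tendsto (fun V : ℝ => cf F A V (fun _ => 0)) atTop (𝓝 (∏ a, μ a)) := by
  intro n
  induction n with
  | zero =>
    intro A d _ F _ μ _ _
    refine tendsto_const_nhds.congr' ?_
    filter_upwards [eventually_gt_atTop 0] with V hV
    unfold cf
    simp only [univ_eq_empty, prod_empty]
    rw [av_const hV]
  | succ n ih =>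
    intro A d hA F hF μ hμ hm
    obtain ⟨G, hG⟩ : ∃ G : Fin (n + 1) → ℤ → ℝ, G = Fin.cons (fun x => (F 0 x - μ 0) / 2) (fun a => F a.succ) := ⟨_, rfl⟩
    have hG0 : G 0 = fun x => (F 0 x - μ 0) / 2 := by rw [hG]; rfl
    have hGs : ∀ a : Fin n, G a.succ = F a.succ := fun a => by rw [hG]; rfl
    have h1 : Tendsto (fun V : ℝ => cf G A V (fun _ => 0)) atTop (𝓝 0) := by
      apply corg_lim h hA
      · intro a
        refine Fin.cases ?_ (fun a => ?_) a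
        · rw [hG0]; exact half_inv (hF 0) (hμ 0)
        · rw [hGs]; exact hF a.succ
      · rw [hG0]; exact half_mz (hm 0)
    have h2 := ih (A := fun a => A a.succ) (d := fun a => d a.succ)
      ⟨fun a => hA.1 _, fun a => hA.2.1 _, fun a b hab => hA.2.2 _ _ (fun h => hab (Fin.succ_injective _ h))⟩
      (F := fun a => F a.succ) (fun a => hF _) (μ := fun a => μ a.succ) (fun a => hμ _) (fun a => hm _)
    have h3 := (h1.const_mul 2).add (h2.const_mul (μ 0))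
    rw [mul_zero, zero_add, ← Fin.prod_univ_succ] at h3
    refine h3.congr fun V => ?_
    have hb1 : ∀ a : Fin (n + 1), Bd 1 (fun y : ℝ => F a ⌊(A a : ℝ) * ((3 : ℝ) ^ ((fun _ => 0 : Fin (n + 1) → ℤ) a) * y)⌋) :=
      fun a => Bd.flc (hF a).1 (g := fun y => (A a : ℝ) * ((3 : ℝ) ^ ((fun _ => 0 : Fin (n + 1) → ℤ) a) * y)) (by fun_prop)
    have hb2 : Bd 1 (fun y : ℝ => (F 0 ⌊(A 0 : ℝ) * ((3 : ℝ) ^ (0 : ℤ) * y)⌋ - μ 0) / 2) :=
      Bd.flc (half_inv (hF 0) (hμ 0)).1 (g := fun y => (A 0 : ℝ) * ((3 : ℝ) ^ (0 : ℤ) * y)) (by fun_prop)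
    have hb3 : Bd 1 (fun y : ℝ => ∏ a : Fin n, F a.succ ⌊(A a.succ : ℝ) * ((3 : ℝ) ^ (0 : ℤ) * y)⌋) :=
      Bd.prod fun a _ => hb1 a.succ
    have e1 : cf G A V (fun _ => 0) = av V (fun y => (F 0 ⌊(A 0 : ℝ) * ((3 : ℝ) ^ (0 : ℤ) * y)⌋ - μ 0) / 2
        * ∏ a : Fin n, F a.succ ⌊(A a.succ : ℝ) * ((3 : ℝ) ^ (0 : ℤ) * y)⌋) := by
      unfold cf
      congr 1
      funext y
      rw [Fin.prod_univ_succ, hG0]
      simp only [hGs]
    have e2 : cf (fun a => F a.succ) (fun a => A a.succ) V (fun _ => 0)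
        = av V (fun y => ∏ a : Fin n, F a.succ ⌊(A a.succ : ℝ) * ((3 : ℝ) ^ (0 : ℤ) * y)⌋) := rfl
    have e3 : cf F A V (fun _ => 0) = av V (fun y => F 0 ⌊(A 0 : ℝ) * ((3 : ℝ) ^ (0 : ℤ) * y)⌋
        * ∏ a : Fin n, F a.succ ⌊(A a.succ : ℝ) * ((3 : ℝ) ^ (0 : ℤ) * y)⌋) := by
      unfold cf
      congr 1
      funext y
      rw [Fin.prod_univ_succ]
    rw [e1, e2, e3, ← av_cmul, ← av_cmul, ← av_add V ((hb2.mul hb3).cmul 2) (hb3.cmul (μ 0))]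
    congr 1
    funext y
    ring

/-- **Independence of forms.** -/
theorem k_forms (h : S_CORG) {n : ℕ} {A : Fin n → ℕ} {d : Fin n → ℤ} (hA : GoodF A d) (k : Fin n → ℕ) (r : Fin n → ℤ)
    {F : Fin n → ℤ → ℝ} (hF : ∀ a, InvF (d a) (F a)) {μ : Fin n → ℝ} (hμ : ∀ a, |μ a| ≤ 1)
    (hm : ∀ a, MeanZero (fun x => F a x - μ a)) :
    Tendsto (fun N : ℕ => (∑ m ∈ Icc 1 N, ∏ a, F a (2 ^ k a * A a * ((m : ℕ) : ℤ) + r a)) / (N : ℝ)) atTop (𝓝 (∏ a, μ a)) :=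
  prod_forms hA.2.1 hF (fun a => by have := hA.1 a; omega) k r (cf_lim h hA hF hμ hm)

/-- `y` and `3 ^ j y` -/
theorem three_small {d : ℤ} (hd : d = 1 ∨ d = -1) {f : ℤ → ℝ} (hf : InvF d f) (j : ℕ) :
    Tendsto (fun V : ℝ => av V (fun y => |f ⌊y⌋ - f ⌊3 ^ j * y⌋|)) atTop (𝓝 0) := by
  obtain ⟨C, hC0, hC⟩ := ci d hd
  rw [Metric.tendsto_atTop]
  intro ε hε
  have h1 : Tendsto (fun R : ℕ => C * √ (1 + (j : ℝ) ^ 2 + ((0 : ℕ) : ℝ)) * rho R) atTop (𝓝 0) := by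
    have := rho_tendsto.const_mul (C * √ (1 + (j : ℝ) ^ 2 + ((0 : ℕ) : ℝ)))
    rwa [mul_zero] at this
  obtain ⟨R, hR1, hR2⟩ := ((h1.eventually (gt_mem_nhds hε)).and (eventually_ge_atTop 1)).exists
  refine ⟨2 ^ R, fun V hV => ?_⟩
  have hV0 : 0 < V := lt_of_lt_of_le (by positivity) hV
  have h2 := hC f hf R hR2 V hV j 0 0 (by norm_num)
  simp only [add_zero] at h2
  simp only [Nat.cast_zero, add_zero] at hR1
  rw [Real.dist_eq, sub_zero, abs_of_nonneg (av_nonneg hV0 fun y => abs_nonneg _)]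
  refine lt_of_le_of_lt h2 ?_
  simpa using hR1

/-- `2 ^ k 3 ^ j A ⌊y⌋ + r` and `⌊A y⌋` -/
theorem form_small3 {d : ℤ} (hd : d = 1 ∨ d = -1) {f : ℤ → ℝ} (hf : InvF d f) {A : ℕ} (hA : 1 ≤ A) (k j : ℕ) (r : ℤ) :
    Tendsto (fun V : ℝ => av V (fun y => |f (2 ^ k * 3 ^ j * A * ⌊y⌋ + r) - f ⌊(A : ℝ) * y⌋|)) atTop (𝓝 0) := by
  have hA0 : (0 : ℝ) < A := by exact_mod_cast hA
  have h1 := form_small2 hd hf (A := 3 ^ j * A) (by have := Nat.one_le_pow j 3 (by norm_num); nlinarith) k r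
  have h2 := (three_small hd hf j).comp (tendsto_id.const_mul_atTop hA0)
  have h3 := h1.add h2
  rw [add_zero] at h3
  refine squeeze_zero' ?_ ?_ h3
  · filter_upwards [eventually_gt_atTop 0] with V hV
    exact av_nonneg hV fun y => abs_nonneg _
  · filter_upwards [eventually_gt_atTop 0] with V hV
    simp only [Function.comp, id]
    have e1 := av_scale hV hA0 (fun y => |f ⌊y⌋ - f ⌊3 ^ j * y⌋|)
    rw [← e1]
    have hb1 : Bd 1 (fun y : ℝ => f (2 ^ k * 3 ^ j * A * ⌊y⌋ + r)) := Bd.fl (F := fun x => f (2 ^ k * 3 ^ j * A * x + r)) fun x => hf.1 _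
    have hb2 : Bd 1 (fun y : ℝ => f ⌊(A : ℝ) * y⌋) := Bd.flc hf.1 (g := fun y => (A : ℝ) * y) (by fun_prop)
    have hb3 : Bd 1 (fun y : ℝ => f (2 ^ k * ((3 ^ j * A : ℕ) : ℤ) * ⌊y⌋ + r)) :=
      Bd.fl (F := fun x => f (2 ^ k * ((3 ^ j * A : ℕ) : ℤ) * x + r)) fun x => hf.1 _
    have hb4 : Bd 1 (fun y : ℝ => f ⌊((3 ^ j * A : ℕ) : ℝ) * y⌋) :=
      Bd.flc hf.1 (g := fun y => ((3 ^ j * A : ℕ) : ℝ) * y) (by fun_prop)
    have hb6 : Bd 1 (fun y : ℝ => f ⌊(3 : ℝ) ^ j * ((A : ℝ) * y)⌋) :=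
      Bd.flc hf.1 (g := fun y => (3 : ℝ) ^ j * ((A : ℝ) * y)) (by fun_prop)
    have e2 := av_add V (hb3.sub hb4).abs (hb2.sub hb6).abs
    rw [← e2]
    apply av_mono hV (hb1.sub hb2).abs ((hb3.sub hb4).abs.add (hb2.sub hb6).abs)
    intro y _ _
    have e3 : f (2 ^ k * 3 ^ j * A * ⌊y⌋ + r) = f (2 ^ k * ((3 ^ j * A : ℕ) : ℤ) * ⌊y⌋ + r) := by
      congr 1; push_cast; ring
    have e5 : ((3 ^ j * A : ℕ) : ℝ) * y = (3 : ℝ) ^ j * ((A : ℝ) * y) := by push_cast; ring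
    rw [e3, e5]
    have := abs_sub_le (f (2 ^ k * ((3 ^ j * A : ℕ) : ℤ) * ⌊y⌋ + r)) (f ⌊(3 : ℝ) ^ j * ((A : ℝ) * y)⌋)
      (f ⌊(A : ℝ) * y⌋)
    rw [abs_sub_comm (f ⌊(3 : ℝ) ^ j * ((A : ℝ) * y)⌋)] at this
    exact this

/-- an invariant function takes the same value at two forms with quotient `2 ^ x 3 ^ y`, on average -/
theorem two_related {d : ℤ} (hd : d = 1 ∨ d = -1) {f : ℤ → ℝ} (hf : InvF d f) {A : ℕ} (hA : 1 ≤ A) (k j : ℕ) (r : ℤ)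
    (k' j' : ℕ) (r' : ℤ) :
    Tendsto (fun N : ℕ => (∑ m ∈ Icc 1 N, |f (2 ^ k * 3 ^ j * A * ((m : ℕ) : ℤ) + r)
      - f (2 ^ k' * 3 ^ j' * A * ((m : ℕ) : ℤ) + r')|) / (N : ℝ)) atTop (𝓝 0) := by
  apply mean_of_blocks (G := fun x => |f (2 ^ k * 3 ^ j * A * x + r) - f (2 ^ k' * 3 ^ j' * A * x + r')|) (B := 1 + 1)
  · intro x
    rw [abs_abs]
    have h1 := abs_sub (f (2 ^ k * 3 ^ j * A * x + r)) (f (2 ^ k' * 3 ^ j' * A * x + r'))
    have h2 := hf.1 (2 ^ k * 3 ^ j * A * x + r)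
    have h3 := hf.1 (2 ^ k' * 3 ^ j' * A * x + r')
    linarith
  · have h1 := (form_small3 hd hf hA k j r).add (form_small3 hd hf hA k' j' r')
    rw [add_zero] at h1
    refine squeeze_zero' ?_ ?_ h1
    · filter_upwards [eventually_gt_atTop 0] with V hV
      exact av_nonneg hV fun y => abs_nonneg _
    · filter_upwards [eventually_gt_atTop 0] with V hV
      have hb1 : ∀ (k j : ℕ) (r : ℤ), Bd 1 (fun y : ℝ => f (2 ^ k * 3 ^ j * A * ⌊y⌋ + r)) := fun k j r =>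
        Bd.fl (F := fun x => f (2 ^ k * 3 ^ j * A * x + r)) fun x => hf.1 _
      have hb2 : Bd 1 (fun y : ℝ => f ⌊(A : ℝ) * y⌋) := Bd.flc hf.1 (g := fun y => (A : ℝ) * y) (by fun_prop)
      rw [← av_add V ((hb1 k j r).sub hb2).abs ((hb1 k' j' r').sub hb2).abs]
      apply av_mono hV ((hb1 k j r).sub (hb1 k' j' r')).abs (((hb1 k j r).sub hb2).abs.add ((hb1 k' j' r').sub hb2).abs)
      intro y _ _
      have := abs_sub_le (f (2 ^ k * 3 ^ j * A * ⌊y⌋ + r)) (f ⌊(A : ℝ) * y⌋) (f (2 ^ k' * 3 ^ j' * A * ⌊y⌋ + r'))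
      rw [abs_sub_comm (f ⌊(A : ℝ) * y⌋)] at this
      exact this

end FG6

end Pool.Agent.KS6_24.ST
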