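import Mathlib
import Pool.Agent.KS6_24.ST.FM6

/-! FG7: two forms with quotient `2 ^ x 3 ^ y` have the same fate on average. -/

set_option autoImplicit false

namespace Pool.Agent.KS6_24.ST

open Pool.Agent.H499R2.CO Pool.Agent.Y965.SI Finset Filter Topology MeasureTheory Pool.Agent.KS6_24.LN

namespace FG7

/-- `A y` and `3 ^ j A y` -/
theorem three_small {d : ℤ} (hd : d = 1 ∨ d = -1) {f : ℤ → ℝ} (hf : InvF d f) {A : ℕ} (hA : 1 ≤ A) (j : ℕ) :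
    Tendsto (fun V : ℝ => av V (fun y => |f ⌊(A : ℝ) * y⌋ - f ⌊(3 : ℝ) ^ j * ((A : ℝ) * y)⌋|)) atTop (𝓝 0) := by
  obtain ⟨C, hC0, hC⟩ := ci d hd
  have hA0 : (0 : ℝ) < A := by exact_mod_cast hA
  have hA1 : (1 : ℝ) ≤ A := by exact_mod_cast hA
  rw [Metric.tendsto_atTop]
  intro ε hε
  have h1 : Tendsto (fun R : ℕ => C * √ (1 + (j : ℝ) ^ 2 + ((0 : ℕ) : ℝ)) * rho R) atTop (𝓝 0) := by
    have := rho_tendsto.const_mul (C * √ (1 + (j : ℝ) ^ 2 + ((0 : ℕ) : ℝ)))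
    rwa [mul_zero] at this
  obtain ⟨R, hR1, hR2⟩ := ((h1.eventually (gt_mem_nhds hε)).and (eventually_ge_atTop 1)).exists
  refine ⟨2 ^ R, fun V hV => ?_⟩
  have hV0 : 0 < V := lt_of_lt_of_le (by positivity) hV
  have h2 := hC f hf R hR2 (A * V) (hV.le.trans (le_mul_of_one_le_left hV0.le hA1)) j 0 0 (by simp)
  simp only [add_zero] at h2
  have e1 := av_scale hV0 hA0 (fun y => |f ⌊y⌋ - f ⌊(3 : ℝ) ^ j * y⌋|)
  rw [← e1] at h2
  rw [Real.dist_eq, sub_zero, abs_of_nonneg (av_nonneg hV0 fun y => abs_nonneg _)]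
  exact lt_of_le_of_lt h2 hR1

theorem av_tri {V : ℝ} (hV : 0 < V) {B1 B2 : ℝ} {p q r : ℝ → ℝ} (h1 : Bd B1 (fun y => |p y - q y|))
    (h2 : Bd B2 (fun y => |q y - r y|)) {B3 : ℝ} (h3 : Bd B3 (fun y => |p y - r y|)) :
    av V (fun y => |p y - r y|) ≤ av V (fun y => |p y - q y|) + av V (fun y => |q y - r y|) := by
  rw [← av_add V h1 h2]
  exact av_mono hV h3 (h1.add h2) fun y _ _ => abs_sub_le _ _ _

/-- forms with quotient `2 ^ x 3 ^ y` -/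
theorem same_forms {d : ℤ} (hd : d = 1 ∨ d = -1) {f : ℤ → ℝ} (hf : InvF d f) {A B : ℕ} (hA : 1 ≤ A) (hB : 1 ≤ B)
    {i j : ℕ} (h : A * 3 ^ i = B * 3 ^ j) (k l : ℕ) (r q : ℤ) :
    Tendsto (fun N : ℕ => (∑ m ∈ Icc 1 N, |f (2 ^ k * A * ((m : ℕ) : ℤ) + r) - f (2 ^ l * B * ((m : ℕ) : ℤ) + q)|) / (N : ℝ))
      atTop (𝓝 0) := by
  apply FM6.mean_of_blocks (G := fun x => |f (2 ^ k * A * x + r) - f (2 ^ l * B * x + q)|) (B := 2)
  · intro x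
    rw [abs_abs]
    have := abs_sub (f (2 ^ k * A * x + r)) (f (2 ^ l * B * x + q))
    have := hf.1 (2 ^ k * A * x + r)
    have := hf.1 (2 ^ l * B * x + q)
    linarith
  have b1 : Bd 1 (fun y : ℝ => f (2 ^ k * A * ⌊y⌋ + r)) := Bd.fl (F := fun x => f (2 ^ k * A * x + r)) fun x => hf.1 _
  have b2 : Bd 1 (fun y : ℝ => f ⌊(A : ℝ) * y⌋) := Bd.flc hf.1 (g := fun y => (A : ℝ) * y) (by fun_prop)
  have b3 : Bd 1 (fun y : ℝ => f ⌊(3 : ℝ) ^ i * ((A : ℝ) * y)⌋) := Bd.flc hf.1 (g := fun y => (3 : ℝ) ^ i * ((A : ℝ) * y)) (by fun_prop)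
  have b4 : Bd 1 (fun y : ℝ => f ⌊(B : ℝ) * y⌋) := Bd.flc hf.1 (g := fun y => (B : ℝ) * y) (by fun_prop)
  have b5 : Bd 1 (fun y : ℝ => f (2 ^ l * B * ⌊y⌋ + q)) := Bd.fl (F := fun x => f (2 ^ l * B * x + q)) fun x => hf.1 _
  have b6 : Bd 1 (fun y : ℝ => f ⌊(3 : ℝ) ^ j * ((B : ℝ) * y)⌋) := Bd.flc hf.1 (g := fun y => (3 : ℝ) ^ j * ((B : ℝ) * y)) (by fun_prop)
  have hr : (A : ℝ) * 3 ^ i = B * 3 ^ j := by exact_mod_cast h
  have e : (fun y : ℝ => f ⌊(3 : ℝ) ^ i * ((A : ℝ) * y)⌋) = fun y => f ⌊(3 : ℝ) ^ j * ((B : ℝ) * y)⌋ := by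
    funext y
    congr 2
    calc (3 : ℝ) ^ i * ((A : ℝ) * y) = (A * 3 ^ i) * y := by ring
      _ = (B * 3 ^ j) * y := by rw [hr]
      _ = _ := by ring
  have t1 := FM6.form_small2 hd hf hA k r
  have t2 := three_small hd hf hA i
  have t3 := three_small hd hf hB j
  have t4 := FM6.form_small2 hd hf hB l q
  have t5 := (t1.add t2).add (t3.add t4)
  simp only [add_zero] at t5
  refine squeeze_zero' ?_ ?_ t5
  · filter_upwards [eventually_gt_atTop 0] with V hV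
    exact av_nonneg hV fun y => abs_nonneg _
  · filter_upwards [eventually_gt_atTop 0] with V hV
    have u1 := av_tri hV (b1.sub b2).abs (b2.sub b3).abs (b1.sub b3).abs
    have u2 := av_tri hV (b5.sub b4).abs (b4.sub b6).abs (b5.sub b6).abs
    have u3 := av_tri hV (b1.sub b3).abs (b3.sub b5).abs (b1.sub b5).abs
    have u4 : av V (fun y => |f ⌊(3 : ℝ) ^ i * ((A : ℝ) * y)⌋ - f (2 ^ l * B * ⌊y⌋ + q)|)
        = av V (fun y => |f (2 ^ l * B * ⌊y⌋ + q) - f ⌊(3 : ℝ) ^ j * ((B : ℝ) * y)⌋|) := by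
      congr 1
      funext y
      have : f ⌊(3 : ℝ) ^ i * ((A : ℝ) * y)⌋ = f ⌊(3 : ℝ) ^ j * ((B : ℝ) * y)⌋ := congrFun e y
      rw [this, abs_sub_comm]
    linarith

end FG7

end Pool.Agent.KS6_24.ST
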