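import Pool.Agent.KS6_24.ST.FMDefs
import Pool.Agent.KS6_24.ST.B0

set_option autoImplicit false

/-! FM1: bootstrapped correlations for the pair `x, -3 ^ i x + r` (after B0A, B0B, B0). -/

namespace Pool.Agent.KS6_24.ST.B0M

open Finset Pool.Agent.H499R2.CO Pool.Agent.T6.H47.CL Pool.Agent.KS6_24.ST.B0

theorem odd3m (i : ℕ) : (-(3 ^ i) : ℤ) % 2 = 1 := by
  have := odd3 i
  omega

theorem prod_perm (n i : ℕ) (r x m : ℤ) :
    Fn n (x + m * 2 ^ (n + 1)) * Fn n (-(3 ^ i) * (x + m * 2 ^ (n + 1)) + r) = Fn n x * Fn n (-(3 ^ i) * x + r) := by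
  rw [Fn_per]
  congr 1
  apply Fn_per'
  exact ⟨-(3 ^ i) * m, by ring⟩

theorem cmr_eq (n i : ℕ) (r : ℤ) :
    ∑ x ∈ range (2 ^ (n + 1)), Fn n x * Fn n (-(3 ^ i) * x + r) = 2 ^ (n + 1) * cmr n i r := by
  unfold cmr
  field_simp

theorem cmr_abs (n i : ℕ) (r : ℤ) : |cmr n i r| ≤ 1 := by
  unfold cmr
  rw [abs_div, abs_of_pos (show (0 : ℝ) < 2 ^ (n + 1) by positivity), div_le_one (by positivity)]
  refine (abs_sum_le_sum_abs _ _).trans ?_
  calc _ ≤ ∑ x ∈ range (2 ^ (n + 1)), (1 : ℝ) := by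
        apply sum_le_sum
        intro x _
        rw [abs_mul, Fn_abs, Fn_abs, one_mul]
    _ = _ := by simp

/-- the sum over the shifts -/
noncomputable def SAm (n M i : ℕ) (y : ℤ) : ℝ := ∑ h ∈ range M, ∑ h' ∈ range M, Fn n (y + (-(3 ^ i) * (h : ℤ) + h'))

theorem SAm_eq (n M i : ℕ) (y : ℤ) : SAm n M i y = SA n M i (y + -(3 ^ i) * (((M - 1 : ℕ) : ℕ) : ℤ)) := by
  unfold SAm SA
  rw [← sum_range_reflect (fun h => ∑ h' ∈ range M, Fn n (y + (-(3 ^ i) * (h : ℤ) + h')))]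
  apply sum_congr rfl
  intro h hh
  rw [mem_range] at hh
  apply sum_congr rfl
  intro h' _
  congr 1
  have e : ((M - 1 - h : ℕ) : ℤ) = ((M - 1 : ℕ) : ℤ) - h := by
    rw [Nat.cast_sub (by omega)]
  rw [e]
  ring

theorem SAm_per (n M i : ℕ) (y m : ℤ) : SAm n M i (y + m * 2 ^ (n + 1)) = SAm n M i y := by
  rw [SAm_eq, SAm_eq, ← SA_per n M i (y + -(3 ^ i) * (((M - 1 : ℕ) : ℕ) : ℤ)) m]
  congr 1
  ring

theorem VVm_eq (n M i : ℕ) : (∑ y ∈ range (2 ^ (n + 1)), SAm n M i y ^ 2) / 2 ^ (n + 1) = VV n M i := by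
  unfold VV
  congr 1
  have := sum_affine (n + 1) (fun y : ℤ => SA n M i y ^ 2) (fun y m => by rw [SA_per]) (a := 1) (by norm_num)
    (-(3 ^ i) * (((M - 1 : ℕ) : ℕ) : ℤ))
  rw [← this]
  apply sum_congr rfl
  intro y _
  rw [SAm_eq, one_mul]

/-- on a class modulo `2 ^ k` the correlation is a correlation at an earlier time -/
theorem class_corr {m k i : ℕ} {b : ℝ} (hik : k ≤ i)
    (hb : ∀ j : ℕ, i ≤ j + k → j ≤ i + k → ∀ r : ℤ, |cmr m j r| ≤ b) (A B : ℤ) :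
    |∑ u ∈ range (2 ^ (m + 1)), Fn (m + k) (A + (u : ℤ) * 2 ^ k) *
      Fn (m + k) (B + -(3 ^ i) * (u : ℤ) * 2 ^ k)| ≤ 2 ^ (m + 1) * b := by
  obtain ⟨a, ha, hA⟩ := T_aff k A
  obtain ⟨a', ha', hB⟩ := T_aff k B
  set A' := (Tz 1)^[k] A with hA'
  set B' := (Tz 1)^[k] B with hB'
  obtain ⟨j, hj⟩ : ∃ j, j + a = i + a' := ⟨i + a' - a, by omega⟩
  have e : ∀ u ∈ range (2 ^ (m + 1)), Fn (m + k) (A + (u : ℤ) * 2 ^ k) *
      Fn (m + k) (B + -(3 ^ i) * (u : ℤ) * 2 ^ k) =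
      Fn m (3 ^ a * (u : ℤ) + A') * Fn m (-(3 ^ j) * (3 ^ a * (u : ℤ) + A') + (B' + 3 ^ j * A')) := by
    intro u _
    rw [Fn_add, Fn_add, hA, hB, add_comm A']
    congr 2
    have h1 : (3 : ℤ) ^ a' * 3 ^ i = 3 ^ j * 3 ^ a := by
      rw [← pow_add, ← pow_add, add_comm a', hj]
    calc B' + 3 ^ a' * (-(3 ^ i) * (u : ℤ)) = B' - (3 ^ a' * 3 ^ i) * u := by ring
      _ = _ := by rw [h1]; ring
  rw [sum_congr rfl e]
  have h2 := sum_affine (m + 1) (fun v : ℤ => Fn m v * Fn m (-(3 ^ j) * v + (B' + 3 ^ j * A')))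
    (fun x c => prod_perm m j _ x c) (odd3 a) A'
  rw [h2, cmr_eq, abs_mul, abs_of_pos (by positivity)]
  exact mul_le_mul_of_nonneg_left (hb j (by omega) (by omega) _) (by positivity)

/-- the part of the change which comes from `h` -/
theorem half1 {m k i : ℕ} {b : ℝ} (hik : k ≤ i)
    (hb : ∀ j : ℕ, i ≤ j + k → j ≤ i + k → ∀ r : ℤ, |cmr m j r| ≤ b) (r h : ℤ) :
    |∑ x ∈ range (2 ^ (m + k + 1)), (Fn (m + k) (x + h) - Fn (m + k) x) * Fn (m + k) (-(3 ^ i) * x + r)| ≤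
      2 ^ (m + k + 1) * (2 * b * q step (0, 0) k (0, h)) := by
  classical
  have hN : 2 ^ (m + k + 1) = 2 ^ k * 2 ^ (m + 1) := by rw [← pow_add]; congr 1; ring
  rw [hN, sum_class (fun x : ℤ => (Fn (m + k) (x + h) - Fn (m + k) x) * Fn (m + k) (-(3 ^ i) * x + r))]
  refine (abs_sum_le_sum_abs _ _).trans ?_
  have h1 : ∀ x ∈ range (2 ^ k), |∑ u ∈ range (2 ^ (m + 1)),
      (Fn (m + k) ((x : ℤ) + (u : ℤ) * ((2 ^ k : ℕ) : ℤ) + h) - Fn (m + k) ((x : ℤ) + (u : ℤ) * ((2 ^ k : ℕ) : ℤ))) *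
        Fn (m + k) (-(3 ^ i) * ((x : ℤ) + (u : ℤ) * ((2 ^ k : ℕ) : ℤ)) + r)| ≤
      (2 * 2 ^ (m + 1) * b) * (if surv 1 k (0, h) (x : ℤ) then (1 : ℝ) else 0) := by
    intro x _
    by_cases hs : surv 1 k (0, h) (x : ℤ)
    · rw [if_pos hs, mul_one]
      have e : ∑ u ∈ range (2 ^ (m + 1)),
        (Fn (m + k) ((x : ℤ) + (u : ℤ) * ((2 ^ k : ℕ) : ℤ) + h) - Fn (m + k) ((x : ℤ) + (u : ℤ) * ((2 ^ k : ℕ) : ℤ))) *
        Fn (m + k) (-(3 ^ i) * ((x : ℤ) + (u : ℤ) * ((2 ^ k : ℕ) : ℤ)) + r) =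
        ∑ u ∈ range (2 ^ (m + 1)), Fn (m + k) (((x : ℤ) + h) + (u : ℤ) * 2 ^ k) *
          Fn (m + k) ((-(3 ^ i) * x + r) + -(3 ^ i) * (u : ℤ) * 2 ^ k) -
        ∑ u ∈ range (2 ^ (m + 1)), Fn (m + k) ((x : ℤ) + (u : ℤ) * 2 ^ k) *
          Fn (m + k) ((-(3 ^ i) * x + r) + -(3 ^ i) * (u : ℤ) * 2 ^ k) := by
        rw [← sum_sub_distrib]
        apply sum_congr rfl
        intro u _
        have e1 : (x : ℤ) + (u : ℤ) * ((2 ^ k : ℕ) : ℤ) + h = ((x : ℤ) + h) + (u : ℤ) * 2 ^ k := by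
          push_cast; ring
        have e2 : -(3 ^ i) * ((x : ℤ) + (u : ℤ) * ((2 ^ k : ℕ) : ℤ)) + r =
            (-(3 ^ i) * x + r) + -(3 ^ i) * (u : ℤ) * 2 ^ k := by push_cast; ring
        rw [e1, e2]
        push_cast
        ring
      rw [e]
      refine (abs_sub _ _).trans ?_
      have h2 := class_corr hik hb ((x : ℤ) + h) (-(3 ^ i) * x + r)
      have h3 := class_corr hik hb (x : ℤ) (-(3 ^ i) * x + r)
      linarith
    · rw [if_neg hs, mul_zero]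
      apply le_of_eq
      rw [abs_eq_zero]
      apply sum_eq_zero
      intro u _
      have hs' : ¬ surv 1 k (0, h) ((x : ℤ) + (u : ℤ) * ((2 ^ k : ℕ) : ℤ)) := by
        push_cast
        rw [surv_periodic (d := 1) (by norm_num)]
        exact hs
      obtain ⟨l, hl, hh⟩ := coal (by norm_num) k 0 h _ hs'
      rw [pow_zero, one_mul, one_mul] at hh
      have h3 := iter_persist hh (show l ≤ m + k by omega)
      have e : Fn (m + k) ((x : ℤ) + (u : ℤ) * ((2 ^ k : ℕ) : ℤ) + h) =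
          Fn (m + k) ((x : ℤ) + (u : ℤ) * ((2 ^ k : ℕ) : ℤ)) := by
        unfold Fn
        rw [h3]
      rw [e, sub_self, zero_mul]
  refine (sum_le_sum h1).trans ?_
  rw [← mul_sum, count_surv (d := 1) (by norm_num)]
  apply le_of_eq
  ring

/-- the part of the change which comes from `h'` -/
theorem half2 {m k i : ℕ} {b : ℝ} (hik : k ≤ i)
    (hb : ∀ j : ℕ, i ≤ j + k → j ≤ i + k → ∀ r : ℤ, |cmr m j r| ≤ b) (r h : ℤ) :
    |∑ x ∈ range (2 ^ (m + k + 1)), Fn (m + k) x * (Fn (m + k) (-(3 ^ i) * x + r + h) - Fn (m + k) (-(3 ^ i) * x + r))| ≤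
      2 ^ (m + k + 1) * (2 * b * q step (0, 0) k (0, h)) := by
  classical
  have hN : 2 ^ (m + k + 1) = 2 ^ k * 2 ^ (m + 1) := by rw [← pow_add]; congr 1; ring
  rw [hN, sum_class (fun x : ℤ => Fn (m + k) x * (Fn (m + k) (-(3 ^ i) * x + r + h) - Fn (m + k) (-(3 ^ i) * x + r)))]
  refine (abs_sum_le_sum_abs _ _).trans ?_
  have h1 : ∀ x ∈ range (2 ^ k), |∑ u ∈ range (2 ^ (m + 1)),
      Fn (m + k) ((x : ℤ) + (u : ℤ) * ((2 ^ k : ℕ) : ℤ)) *
        (Fn (m + k) (-(3 ^ i) * ((x : ℤ) + (u : ℤ) * ((2 ^ k : ℕ) : ℤ)) + r + h) -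
          Fn (m + k) (-(3 ^ i) * ((x : ℤ) + (u : ℤ) * ((2 ^ k : ℕ) : ℤ)) + r))| ≤
      (2 * 2 ^ (m + 1) * b) * (if surv 1 k (0, h) (-(3 ^ i) * (x : ℤ) + r) then (1 : ℝ) else 0) := by
    intro x _
    by_cases hs : surv 1 k (0, h) (-(3 ^ i) * (x : ℤ) + r)
    · rw [if_pos hs, mul_one]
      have e : ∑ u ∈ range (2 ^ (m + 1)),
        Fn (m + k) ((x : ℤ) + (u : ℤ) * ((2 ^ k : ℕ) : ℤ)) *
        (Fn (m + k) (-(3 ^ i) * ((x : ℤ) + (u : ℤ) * ((2 ^ k : ℕ) : ℤ)) + r + h) -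
          Fn (m + k) (-(3 ^ i) * ((x : ℤ) + (u : ℤ) * ((2 ^ k : ℕ) : ℤ)) + r)) =
        ∑ u ∈ range (2 ^ (m + 1)), Fn (m + k) ((x : ℤ) + (u : ℤ) * 2 ^ k) *
          Fn (m + k) ((-(3 ^ i) * x + r + h) + -(3 ^ i) * (u : ℤ) * 2 ^ k) -
        ∑ u ∈ range (2 ^ (m + 1)), Fn (m + k) ((x : ℤ) + (u : ℤ) * 2 ^ k) *
          Fn (m + k) ((-(3 ^ i) * x + r) + -(3 ^ i) * (u : ℤ) * 2 ^ k) := by
        rw [← sum_sub_distrib]
        apply sum_congr rfl
        intro u _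
        have e1 : -(3 ^ i) * ((x : ℤ) + (u : ℤ) * ((2 ^ k : ℕ) : ℤ)) + r + h =
            (-(3 ^ i) * x + r + h) + -(3 ^ i) * (u : ℤ) * 2 ^ k := by push_cast; ring
        have e2 : -(3 ^ i) * ((x : ℤ) + (u : ℤ) * ((2 ^ k : ℕ) : ℤ)) + r =
            (-(3 ^ i) * x + r) + -(3 ^ i) * (u : ℤ) * 2 ^ k := by push_cast; ring
        rw [e1, e2]
        push_cast
        ring
      rw [e]
      refine (abs_sub _ _).trans ?_
      have h2 := class_corr hik hb (x : ℤ) (-(3 ^ i) * x + r + h)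
      have h3 := class_corr hik hb (x : ℤ) (-(3 ^ i) * x + r)
      linarith
    · rw [if_neg hs, mul_zero]
      apply le_of_eq
      rw [abs_eq_zero]
      apply sum_eq_zero
      intro u _
      have hs' : ¬ surv 1 k (0, h) (-(3 ^ i) * ((x : ℤ) + (u : ℤ) * ((2 ^ k : ℕ) : ℤ)) + r) := by
        have e : -(3 ^ i) * ((x : ℤ) + (u : ℤ) * ((2 ^ k : ℕ) : ℤ)) + r =
            (-(3 ^ i) * (x : ℤ) + r) + (-(3 ^ i) * (u : ℤ)) * 2 ^ k := by push_cast; ring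
        rw [e, surv_periodic (d := 1) (by norm_num)]
        exact hs
      obtain ⟨l, hl, hh⟩ := coal (by norm_num) k 0 h _ hs'
      rw [pow_zero, one_mul, one_mul] at hh
      have h3 := iter_persist hh (show l ≤ m + k by omega)
      have e : Fn (m + k) (-(3 ^ i) * ((x : ℤ) + (u : ℤ) * ((2 ^ k : ℕ) : ℤ)) + r + h) =
          Fn (m + k) (-(3 ^ i) * ((x : ℤ) + (u : ℤ) * ((2 ^ k : ℕ) : ℤ)) + r) := by
        unfold Fn
        rw [h3]
      rw [e, sub_self, mul_zero]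
  refine (sum_le_sum h1).trans ?_
  have h4 := sum_affine k (fun x : ℤ => if surv 1 k (0, h) x then (1 : ℝ) else 0)
    (by intro x c; simp only [surv_periodic (d := 1) (by norm_num : (1 : ℤ) % 2 = 1)]) (odd3m i) r
  rw [← mul_sum, h4, count_surv (d := 1) (by norm_num)]
  apply le_of_eq

  ring

/-- changing `r` by `-(3 ^ i) h + h'` -/
theorem change_r' {m k i : ℕ} {b : ℝ} (hik : k ≤ i)
    (hb : ∀ j : ℕ, i ≤ j + k → j ≤ i + k → ∀ r : ℤ, |cmr m j r| ≤ b) (r h h' : ℤ) :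
    |∑ x ∈ range (2 ^ (m + k + 1)), Fn (m + k) x * Fn (m + k) (-(3 ^ i) * x + r) -
      ∑ x ∈ range (2 ^ (m + k + 1)), Fn (m + k) x * Fn (m + k) (-(3 ^ i) * x + r + (-(3 ^ i) * h + h'))| ≤
      2 ^ (m + k + 1) * (2 * b * q step (0, 0) k (0, h) + 2 * b * q step (0, 0) k (0, h')) := by
  set n := m + k with hn
  have e1 : ∑ x ∈ range (2 ^ (n + 1)), Fn n x * Fn n (-(3 ^ i) * x + r) =
      ∑ x ∈ range (2 ^ (n + 1)), Fn n (x + h) * Fn n (-(3 ^ i) * x + (r + -(3 ^ i) * h)) := by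
    have := sum_affine (n + 1) (fun x : ℤ => Fn n x * Fn n (-(3 ^ i) * x + r)) (fun x m => prod_perm n i r x m)
      (a := 1) (by norm_num) h
    rw [← this]
    apply sum_congr rfl
    intro x _
    rw [one_mul]
    congr 2
    ring
  have e2 : ∑ x ∈ range (2 ^ (n + 1)), Fn n x * Fn n (-(3 ^ i) * x + r) -
      ∑ x ∈ range (2 ^ (n + 1)), Fn n x * Fn n (-(3 ^ i) * x + r + (-(3 ^ i) * h + h')) =
      ∑ x ∈ range (2 ^ (n + 1)), (Fn n (x + h) - Fn n x) * Fn n (-(3 ^ i) * x + (r + -(3 ^ i) * h)) -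
      ∑ x ∈ range (2 ^ (n + 1)), Fn n x * (Fn n (-(3 ^ i) * x + (r + -(3 ^ i) * h) + h') - Fn n (-(3 ^ i) * x + (r + -(3 ^ i) * h))) := by
    rw [e1, ← sum_sub_distrib, ← sum_sub_distrib]
    apply sum_congr rfl
    intro x _
    have e : -(3 ^ i) * (x : ℤ) + r + (-(3 ^ i) * h + h') = -(3 ^ i) * x + (r + -(3 ^ i) * h) + h' := by ring
    rw [e]
    ring
  rw [e2]
  refine (abs_sub _ _).trans ?_
  have h4 := half1 hik hb (r + -(3 ^ i) * h) h
  have h5 := half2 hik hb (r + -(3 ^ i) * h) h'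
  rw [← hn] at h4 h5
  linarith

/-- the correlation at the level `i` -/
theorem corr_le' {m k i : ℕ} {b : ℝ} (hik : k ≤ i)
    (hb : ∀ j : ℕ, i ≤ j + k → j ≤ i + k → ∀ r : ℤ, |cmr m j r| ≤ b)
    {M : ℕ} (hM : 1 ≤ M) {μ : ℝ} (hμ : 0 < μ) (r : ℤ) :
    |cmr (m + k) i r| ≤ (1 / (M : ℝ) ^ 2) * ((μ * VV (m + k) M i + 1 / μ) / 2) +
      4 / M * (b * ∑ h ∈ range M, q step (0, 0) k (0, (h : ℤ))) := by
  have hMr : (0 : ℝ) < M := by exact_mod_cast hM
  set n := m + k with hn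
  set N : ℝ := 2 ^ (n + 1) with hN
  have hN0 : 0 < N := by positivity
  set B := ∑ x ∈ range (2 ^ (n + 1)), Fn n x * Fn n (-(3 ^ i) * x + r) with hB
  have hBP : B = N * cmr n i r := cmr_eq n i r
  set Qs := b * ∑ h ∈ range M, q step (0, 0) k (0, (h : ℤ)) with hQs
  have h1 : (M : ℝ) ^ 2 * |B| ≤ |∑ x ∈ range (2 ^ (n + 1)), Fn n x * SAm n M i (-(3 ^ i) * x + r)| + N * (4 * M * Qs) := by
    have e1 : (M : ℝ) ^ 2 * B = ∑ h ∈ range M, ∑ h' ∈ range M, B := by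
      rw [sum_const, sum_const, card_range, nsmul_eq_mul, nsmul_eq_mul]; ring
    have e2 : ∑ x ∈ range (2 ^ (n + 1)), Fn n x * SAm n M i (-(3 ^ i) * x + r) = ∑ h ∈ range M, ∑ h' ∈ range M,
        ∑ x ∈ range (2 ^ (n + 1)), Fn n x * Fn n (-(3 ^ i) * x + r + (-(3 ^ i) * (h : ℤ) + (h' : ℤ))) := by
      unfold SAm
      have h5 : ∀ x ∈ range (2 ^ (n + 1)), Fn n x * ∑ h ∈ range M, ∑ h' ∈ range M,
          Fn n (-(3 ^ i) * x + r + (-(3 ^ i) * (h : ℤ) + (h' : ℤ))) = ∑ h ∈ range M, ∑ h' ∈ range M,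
          Fn n x * Fn n (-(3 ^ i) * x + r + (-(3 ^ i) * (h : ℤ) + (h' : ℤ))) := by
        intro x _
        rw [mul_sum]
        apply sum_congr rfl
        intro h _
        rw [mul_sum]
      rw [sum_congr rfl h5, sum_comm]
      apply sum_congr rfl
      intro h _
      rw [sum_comm]
    have e3 : (M : ℝ) ^ 2 * |B| = |(M : ℝ) ^ 2 * B| := by
      rw [abs_mul, abs_of_nonneg (show (0 : ℝ) ≤ (M : ℝ) ^ 2 by positivity)]
    rw [e3, e1, e2]
    have h6 : |∑ h ∈ range M, ∑ h' ∈ range M, B - ∑ h ∈ range M, ∑ h' ∈ range M,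
        ∑ x ∈ range (2 ^ (n + 1)), Fn n x * Fn n (-(3 ^ i) * x + r + (-(3 ^ i) * (h : ℤ) + (h' : ℤ)))| ≤ N * (4 * M * Qs) := by
      rw [← sum_sub_distrib]
      refine (abs_sum_le_sum_abs _ _).trans ?_
      calc _ ≤ ∑ h ∈ range M, ∑ h' ∈ range M, N * (2 * b * q step (0, 0) k (0, (h : ℤ)) +
                2 * b * q step (0, 0) k (0, (h' : ℤ))) := by
            apply sum_le_sum
            intro h _
            rw [← sum_sub_distrib]
            refine (abs_sum_le_sum_abs _ _).trans ?_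
            apply sum_le_sum
            intro h' _
            exact change_r' hik hb r h h'
        _ = N * (4 * M * Qs) := by
            have e4 : ∀ h ∈ range M, ∑ h' ∈ range M, N * (2 * b * q step (0, 0) k (0, (h : ℤ)) +
                2 * b * q step (0, 0) k (0, (h' : ℤ))) = N * (2 * M * b * q step (0, 0) k (0, (h : ℤ))) + N * (2 * Qs) := by
              intro h _
              rw [← mul_sum, sum_add_distrib, sum_const, card_range, nsmul_eq_mul, ← mul_sum, hQs]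
              ring
            rw [sum_congr rfl e4, sum_add_distrib, ← mul_sum, ← mul_sum, sum_const, card_range, nsmul_eq_mul, hQs]
            ring
    have h7 := abs_sub_abs_le_abs_sub (∑ h ∈ range M, ∑ h' ∈ range M, B) (∑ h ∈ range M, ∑ h' ∈ range M,
        ∑ x ∈ range (2 ^ (n + 1)), Fn n x * Fn n (-(3 ^ i) * x + r + (-(3 ^ i) * (h : ℤ) + (h' : ℤ))))
    linarith
  have h2 : |∑ x ∈ range (2 ^ (n + 1)), Fn n x * SAm n M i (-(3 ^ i) * x + r)| ≤ N * ((μ * VV n M i + 1 / μ) / 2) := by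
    calc _ ≤ ∑ x ∈ range (2 ^ (n + 1)), (μ * SAm n M i (-(3 ^ i) * x + r) ^ 2 + 1 / μ) / 2 := by
          refine (abs_sum_le_sum_abs _ _).trans ?_
          apply sum_le_sum
          intro x _
          rw [abs_mul, Fn_abs, one_mul]
          set z := SAm n M i (-(3 ^ i) * x + r)
          have h3 : 0 ≤ (μ * |z| - 1) ^ 2 := sq_nonneg _
          have h4 : μ * (2 * |z|) ≤ μ * (μ * z ^ 2 + 1 / μ) := by
            have e : μ * (μ * z ^ 2 + 1 / μ) = μ ^ 2 * |z| ^ 2 + 1 := by rw [sq_abs]; field_simp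
            rw [e]; nlinarith
          have h5 := le_of_mul_le_mul_left h4 hμ
          linarith
      _ = ∑ x ∈ range (2 ^ (n + 1)), (μ * SAm n M i x ^ 2 + 1 / μ) / 2 :=
          sum_affine (n + 1) (fun y : ℤ => (μ * SAm n M i y ^ 2 + 1 / μ) / 2) (fun y m => by rw [SAm_per]) (odd3m i) r
      _ = N * ((μ * VV n M i + 1 / μ) / 2) := by
          rw [← sum_div, sum_add_distrib, ← mul_sum, sum_const, card_range, nsmul_eq_mul]
          rw [← VVm_eq]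
          rw [← hN]
          push_cast
          rw [← hN]
          field_simp
  have h3 : (M : ℝ) ^ 2 * (N * |cmr n i r|) ≤ N * ((μ * VV n M i + 1 / μ) / 2) + N * (4 * M * Qs) := by
    have e : |B| = N * |cmr n i r| := by rw [hBP, abs_mul, abs_of_pos hN0]
    rw [e] at h1
    linarith
  have h4 : (M : ℝ) ^ 2 * N * |cmr n i r| ≤ (M : ℝ) ^ 2 * N *
      ((1 / (M : ℝ) ^ 2) * ((μ * VV n M i + 1 / μ) / 2) + 4 / M * Qs) := by
    have e : (M : ℝ) ^ 2 * N * ((1 / (M : ℝ) ^ 2) * ((μ * VV n M i + 1 / μ) / 2) + 4 / M * Qs) =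
        N * ((μ * VV n M i + 1 / μ) / 2) + N * (4 * M * Qs) := by field_simp
    rw [e]
    linarith
  exact le_of_mul_le_mul_left h4 (by positivity)


theorem good_corr {m0 k K : ℕ} {Q : ℝ} (hK : 1 ≤ K)
    (hQ : ∀ h : ℕ, h < K ^ 4 → q step (0, 0) k (0, (h : ℤ)) ≤ Q) :
    ∀ (t i : ℕ), good m0 k (K ^ 4) K t i → ∀ r : ℤ, |cmr (m0 + t * k) i r| ≤ EE K Q t := by
  have hKr : (0 : ℝ) < K := by exact_mod_cast hK
  have hM1 : 1 ≤ K ^ 4 := Nat.one_le_pow _ _ hK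
  have hQ0 : 0 ≤ Q := (q_nonneg step (0, 0) k _).trans (hQ 0 (by omega))
  intro t
  induction t with
  | zero => intro i _ r; rw [EE]; exact cmr_abs _ _ _
  | succ t ih =>
    intro i hg r
    obtain ⟨hki, hV, hj⟩ := hg
    have hn : m0 + (t + 1) * k = (m0 + t * k) + k := by ring
    have hb : ∀ j : ℕ, i ≤ j + k → j ≤ i + k → ∀ r : ℤ, |cmr (m0 + t * k) j r| ≤ EE K Q t :=
      fun j h1 h2 r => ih j (hj j h1 h2) r
    rw [hn] at hV ⊢
    refine (corr_le' hki hb hM1 (μ := 1 / (K : ℝ) ^ 7) (by positivity) r).trans ?_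
    rw [EE]
    have hE := EE_nonneg (K := K) hQ0 t
    have h1 : (1 / (((K ^ 4 : ℕ) : ℝ)) ^ 2) * ((1 / (K : ℝ) ^ 7 * VV (m0 + t * k + k) (K ^ 4) i +
        1 / (1 / (K : ℝ) ^ 7)) / 2) ≤ 1 / (K : ℝ) := by
      calc (1 / (((K ^ 4 : ℕ) : ℝ)) ^ 2) * ((1 / (K : ℝ) ^ 7 * VV (m0 + t * k + k) (K ^ 4) i +
            1 / (1 / (K : ℝ) ^ 7)) / 2) ≤ (1 / (((K ^ 4 : ℕ) : ℝ)) ^ 2) * ((1 / (K : ℝ) ^ 7 * (K : ℝ) ^ 14 +
            1 / (1 / (K : ℝ) ^ 7)) / 2) := by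
            apply mul_le_mul_of_nonneg_left _ (by positivity)
            have := mul_le_mul_of_nonneg_left hV (show (0 : ℝ) ≤ 1 / (K : ℝ) ^ 7 by positivity)
            linarith
        _ = 1 / (K : ℝ) := by
            push_cast
            field_simp
            ring
    have h2 : 4 / ((K ^ 4 : ℕ) : ℝ) * (EE K Q t * ∑ h ∈ range (K ^ 4), q step (0, 0) k (0, (h : ℤ))) ≤
        4 * Q * EE K Q t := by
      have h3 : ∑ h ∈ range (K ^ 4), q step (0, 0) k (0, (h : ℤ)) ≤ ((K ^ 4 : ℕ) : ℝ) * Q := by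
        calc _ ≤ ∑ h ∈ range (K ^ 4), Q := sum_le_sum fun h hh => hQ h (mem_range.1 hh)
          _ = _ := by rw [sum_const, card_range, nsmul_eq_mul]
      calc 4 / ((K ^ 4 : ℕ) : ℝ) * (EE K Q t * ∑ h ∈ range (K ^ 4), q step (0, 0) k (0, (h : ℤ))) ≤
          4 / ((K ^ 4 : ℕ) : ℝ) * (EE K Q t * (((K ^ 4 : ℕ) : ℝ) * Q)) := by
            apply mul_le_mul_of_nonneg_left _ (by positivity)
            exact mul_le_mul_of_nonneg_left h3 hE
        _ = 4 * Q * EE K Q t := by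
            push_cast
            field_simp
    linarith

end Pool.Agent.KS6_24.ST.B0M

namespace Pool.Agent.KS6_24.ST

open Finset Pool.Agent.H499R2.CO Pool.Agent.T6.H47.CL Filter B0

open B0M (cmr_abs)

/-- **FM1.** -/
theorem b0m : S_B0M := by
  classical
  intro C
  obtain ⟨C0, hC0, hq⟩ := q_rate
  obtain ⟨s, hs⟩ : ∃ s, s = 4 * (C + 1) := ⟨_, rfl⟩
  obtain ⟨C1, hC1⟩ : ∃ C1, C1 = s + C + 2 := ⟨_, rfl⟩
  set c : ℝ := (4 * C0) ^ 4 * (4 * (1 + 8 * C1) ^ 2) * (2 * (s + 1)) ^ 2 with hc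
  have hc0 : 0 < c := by positivity
  obtain ⟨n1, hn1⟩ := log_est hc0
  obtain ⟨k0, hk0⟩ := pow_est (4 * C1) (4 * (s + 1) ^ (4 * C1))
  refine ⟨n1 + 16 + (s + 1) * (k0 + 3), fun n hn => ?_⟩
  -- the basic parameters
  obtain ⟨k, hk⟩ : ∃ k, k = n / (s + 1) := ⟨_, rfl⟩
  have hkk : k0 + 3 ≤ k := by
    rw [hk, Nat.le_div_iff_mul_le (by omega), mul_comm]
    omega
  have hkn : (s + 1) * k ≤ n := by rw [hk]; exact Nat.mul_div_le n (s + 1)
  have hnk : n < (s + 1) * (k + 1) := by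
    rw [hk]; exact Nat.lt_mul_div_succ n (by omega)
  have hsk : (s + 1) * k = s * k + k := by ring
  obtain ⟨m0, hm0⟩ : ∃ m0, n = m0 + s * k := ⟨n - s * k, by omega⟩
  have hm0k : k ≤ m0 := by omega
  have hn16 : 16 ≤ n := by omega
  have hnr : (16 : ℝ) ≤ n := by exact_mod_cast hn16
  have hnp : (0 : ℝ) < n := by linarith
  have hkr : (0 : ℝ) < k := by exact_mod_cast (show 0 < k by omega)
  obtain ⟨K, hK⟩ : ∃ K, K = n ^ C1 := ⟨_, rfl⟩
  have hK1 : 1 ≤ K := by rw [hK]; exact Nat.one_le_pow _ _ (by omega)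
  have hKr : (K : ℝ) = (n : ℝ) ^ C1 := by rw [hK]; push_cast; rfl
  have hK4 : K ^ 4 = n ^ (4 * C1) := by rw [hK, ← pow_mul, mul_comm]
  have h4K : 4 * K ^ 4 ≤ 2 ^ k := by
    rw [hK4]
    calc 4 * n ^ (4 * C1) ≤ 4 * ((s + 1) * (k + 1)) ^ (4 * C1) :=
          Nat.mul_le_mul_left _ (Nat.pow_le_pow_left hnk.le _)
      _ = 4 * (s + 1) ^ (4 * C1) * (k + 1) ^ (4 * C1) := by rw [mul_pow, mul_assoc]
      _ ≤ 2 ^ k := hk0 k (by omega)
  have hM : K ^ 4 ≤ 2 ^ (m0 - 2) := by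
    have h1 : 2 ^ k ≤ 2 ^ m0 := Nat.pow_le_pow_right (by norm_num) hm0k
    have h2 : 2 ^ m0 = 4 * 2 ^ (m0 - 2) := by
      rw [show (4 : ℕ) = 2 ^ 2 by norm_num, ← pow_add]; congr 1; omega
    omega
  -- the coalescence
  obtain ⟨u, hu⟩ : ∃ u, u = 4 * C1 * (Nat.log 2 n + 1) := ⟨_, rfl⟩
  obtain ⟨Q, hQ⟩ : ∃ Q, Q = C0 * √ (1 + ((0 : ℕ) : ℝ) ^ 2 + u) * rho k := ⟨_, rfl⟩
  have hQ0 : 0 ≤ Q := by rw [hQ]; have := rho_nonneg k; positivity
  have hKu : K ^ 4 ≤ 4 ^ u := by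
    rw [hK4, hu]
    calc n ^ (4 * C1) ≤ (2 ^ (Nat.log 2 n + 1)) ^ (4 * C1) :=
          Nat.pow_le_pow_left (Nat.lt_pow_succ_log_self (by norm_num) n).le _
      _ = 2 ^ (4 * C1 * (Nat.log 2 n + 1)) := by rw [← pow_mul]; congr 1; ring
      _ ≤ 4 ^ (4 * C1 * (Nat.log 2 n + 1)) := Nat.pow_le_pow_left (by norm_num) _
  have hqQ : ∀ h : ℕ, h < K ^ 4 → q step (0, 0) k (0, (h : ℤ)) ≤ Q := by
    intro h hh
    rw [hQ]
    apply hq k (by omega) 0 u (h : ℤ)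
    rw [Int.cast_natCast, abs_of_nonneg (Nat.cast_nonneg h)]
    exact_mod_cast (hh.le.trans hKu)
  have hL : 0.69 < Real.log ((n : ℝ) + 1) := log_pos' (by omega)
  set L := Real.log ((n : ℝ) + 1) with hLdef
  have hQ4 : (4 * Q) ^ 4 ≤ 1 / n := by
    have e1 : (4 * Q) ^ 4 = (4 * C0) ^ 4 * (1 + u) ^ 2 * (Real.log ((k : ℝ) + 1) / k) ^ 2 := by
      have h1 : (√ (1 + ((0 : ℕ) : ℝ) ^ 2 + u)) ^ 2 = 1 + u := by
        rw [Real.sq_sqrt (by positivity)]; push_cast; ring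
      have h2 := rho_sq (k := k) (by omega)
      rw [hQ, ← h2, ← h1]
      ring
    have h1 : (1 : ℝ) + u ≤ 2 * (1 + 8 * C1) * L := by
      have h2 := natlog_le (n := n) (by omega)
      have h3 : (u : ℝ) = 4 * C1 * ((Nat.log 2 n : ℕ) + 1) := by rw [hu]; push_cast; ring
      rw [h3]
      have h4 : (0 : ℝ) ≤ C1 := Nat.cast_nonneg _
      rw [← hLdef] at h2
      have h5 : 4 * (C1 : ℝ) * ((Nat.log 2 n : ℕ) + 1) ≤ 4 * C1 * (2 * L + 2 * L) :=
        mul_le_mul_of_nonneg_left (by linarith) (by positivity)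
      linarith
    have h2 : Real.log ((k : ℝ) + 1) / k ≤ L * (2 * (s + 1)) / n := by
      have h3 : Real.log ((k : ℝ) + 1) ≤ L := by
        rw [hLdef]
        apply Real.log_le_log (by positivity)
        have : (k : ℝ) ≤ n := by
          have : k ≤ n := by
            have : 0 ≤ s * k := Nat.zero_le _
            omega
          exact_mod_cast this
        linarith
      have h4 : (n : ℝ) ≤ 2 * (s + 1) * k := by
        have h5 : (n : ℝ) ≤ (s + 1) * (k + 1) := by exact_mod_cast hnk.le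
        have h6 : (1 : ℝ) ≤ k := by exact_mod_cast (show 1 ≤ k by omega)
        have h7 : ((s : ℝ) + 1) * (k + 1) ≤ (s + 1) * (2 * k) :=
          mul_le_mul_of_nonneg_left (by linarith) (by positivity)
        linarith
      rw [div_le_div_iff₀ hkr hnp]
      calc Real.log ((k : ℝ) + 1) * n ≤ L * n := mul_le_mul_of_nonneg_right h3 hnp.le
        _ ≤ L * (2 * (s + 1) * k) := mul_le_mul_of_nonneg_left h4 (by linarith)
        _ = _ := by ring
    have h3 : 0 ≤ Real.log ((k : ℝ) + 1) / k := by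
      have := log_pos' (k := k) (by omega)
      positivity
    have h4 : (1 + (u : ℝ)) ^ 2 ≤ (2 * (1 + 8 * C1) * L) ^ 2 := pow_le_pow_left₀ (by positivity) h1 2
    have h5 : (Real.log ((k : ℝ) + 1) / k) ^ 2 ≤ (L * (2 * (s + 1)) / n) ^ 2 := pow_le_pow_left₀ h3 h2 2
    have hLp : 0 < L := by linarith
    rw [e1]
    calc (4 * C0) ^ 4 * (1 + (u : ℝ)) ^ 2 * (Real.log ((k : ℝ) + 1) / k) ^ 2 ≤
        (4 * C0) ^ 4 * (2 * (1 + 8 * C1) * L) ^ 2 * (L * (2 * (s + 1)) / n) ^ 2 :=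
          mul_le_mul (mul_le_mul_of_nonneg_left h4 (by positivity)) h5 (by positivity) (by positivity)
      _ = (c * L ^ 4) / (n : ℝ) ^ 2 := by rw [hc]; field_simp; ring
      _ ≤ n / (n : ℝ) ^ 2 := by
          apply div_le_div_of_nonneg_right _ (by positivity)
          exact hn1 n (by omega)
      _ = 1 / n := by field_simp
  have hQ1 : 4 * Q ≤ 1 / 2 := by
    by_contra hcon
    push Not at hcon
    have h1 : (1 / 2 : ℝ) ^ 4 < (4 * Q) ^ 4 := pow_lt_pow_left₀ hcon (by norm_num) (by norm_num)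
    have h2 : (1 : ℝ) / n ≤ 1 / 16 := one_div_le_one_div_of_le (by norm_num) hnr
    norm_num at h1
    linarith
  have hE : EE K Q s ≤ 2 / (n : ℝ) ^ (C + 1) := by
    refine (EE_le hQ0 hQ1 s).trans ?_
    have h1 : (4 * Q) ^ s ≤ 1 / (n : ℝ) ^ (C + 1) := by
      rw [hs, pow_mul]
      calc ((4 * Q) ^ 4) ^ (C + 1) ≤ (1 / n) ^ (C + 1) := pow_le_pow_left₀ (by positivity) hQ4 _
        _ = _ := by rw [one_div_pow]
    have h2 : (2 : ℝ) / K ≤ 1 / (n : ℝ) ^ (C + 1) := by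
      rw [hKr, div_le_div_iff₀ (by positivity) (by positivity), one_mul]
      calc 2 * (n : ℝ) ^ (C + 1) ≤ n * (n : ℝ) ^ (C + 1) :=
            mul_le_mul_of_nonneg_right (by linarith) (by positivity)
        _ = (n : ℝ) ^ (C + 2) := by rw [← pow_succ']
        _ ≤ (n : ℝ) ^ C1 := pow_le_pow_right₀ (by linarith) (by omega)
    have h3 : (2 : ℝ) / (n : ℝ) ^ (C + 1) = 1 / (n : ℝ) ^ (C + 1) + 1 / (n : ℝ) ^ (C + 1) := by ring
    rw [h3]
    linarith
  -- the bound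
  have hEn := EE_nonneg (K := K) hQ0 s
  refine ⟨fun i => if good m0 k (K ^ 4) K s i then min 1 (EE K Q s) else 1, fun i => ?_, fun i => ?_,
    fun i r => ?_, fun a x => ?_⟩
  · simp only
    split_ifs
    · exact le_min zero_le_one hEn
    · exact zero_le_one
  · simp only
    split_ifs
    · exact min_le_left _ _
    · exact le_rfl
  · simp only
    split_ifs with hg
    · have h1 := B0M.good_corr hK1 hqQ s i hg r
      rw [← hm0] at h1
      exact le_min (cmr_abs n _ _) h1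
    · exact cmr_abs n _ _
  · have h1 : ∀ j ∈ range x, (if good m0 k (K ^ 4) K s (a + j) then min 1 (EE K Q s) else 1) ≤
        EE K Q s + (if good m0 k (K ^ 4) K s (a + j) then (0 : ℝ) else 1) := by
      intro j _
      split_ifs
      · rw [add_zero]; exact min_le_right _ _
      · linarith
    refine (sum_le_sum h1).trans ?_
    rw [sum_add_distrib, sum_const, card_range, nsmul_eq_mul]
    have h2 := bad_le hK1 hm0 (by omega) hM s le_rfl a x
    have h3 : (2 * (k : ℝ) + 2) ^ s ≤ (n : ℝ) ^ s := by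
      apply pow_le_pow_left₀ (by positivity)
      have h4 : 2 * k + 2 ≤ n := by
        have h5 : 4 * k ≤ s * k := Nat.mul_le_mul_right _ (by omega)
        omega
      exact_mod_cast h4
    set X : ℝ := x + 2 ^ n with hX
    have hX0 : 0 < X := by positivity
    set G : ℝ := (n : ℝ) ^ (C + 1) with hG
    have hG0 : 0 < G := by positivity
    have h4 : (n : ℝ) ^ s * (X / (K : ℝ) ^ 2) ≤ X / G := by
      rw [← mul_div_assoc, div_le_div_iff₀ (by positivity) hG0, hKr, hG, ← pow_mul]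
      calc (n : ℝ) ^ s * X * (n : ℝ) ^ (C + 1) = X * (n : ℝ) ^ (s + (C + 1)) := by rw [pow_add]; ring
        _ ≤ X * (n : ℝ) ^ (C1 * 2) :=
            mul_le_mul_of_nonneg_left (pow_le_pow_right₀ (by linarith) (by omega)) hX0.le
    have h5 : (n : ℝ) ^ s * k ≤ 2 ^ n / G := by
      rw [le_div_iff₀ hG0, hG]
      have h6 : (k : ℝ) ≤ n := by
        have : k ≤ n := by
          have : 0 ≤ s * k := Nat.zero_le _
          omega
        exact_mod_cast this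
      have h7 : K ^ 4 ≤ 2 ^ n := hM.trans (Nat.pow_le_pow_right (by norm_num) (by omega))
      have h8 : K ≤ K ^ 4 := Nat.le_self_pow (by norm_num) K
      have h9 : (K : ℝ) ≤ 2 ^ n := by exact_mod_cast (h8.trans h7)
      calc (n : ℝ) ^ s * k * (n : ℝ) ^ (C + 1) ≤ (n : ℝ) ^ s * n * (n : ℝ) ^ (C + 1) := by
            apply mul_le_mul_of_nonneg_right _ (by positivity)
            exact mul_le_mul_of_nonneg_left h6 (by positivity)
        _ = (n : ℝ) ^ (s + C + 2) := by ring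
        _ = (K : ℝ) := by rw [hKr, hC1]
        _ ≤ _ := h9
    have h6 : (2 * (k : ℝ) + 2) ^ s * (X / (K : ℝ) ^ 2 + k) ≤ X / G + 2 ^ n / G := by
      calc (2 * (k : ℝ) + 2) ^ s * (X / (K : ℝ) ^ 2 + k) ≤ (n : ℝ) ^ s * (X / (K : ℝ) ^ 2 + k) :=
            mul_le_mul_of_nonneg_right h3 (by positivity)
        _ = (n : ℝ) ^ s * (X / (K : ℝ) ^ 2) + (n : ℝ) ^ s * k := by ring
        _ ≤ _ := add_le_add h4 h5
    have h7 : (x : ℝ) * EE K Q s ≤ x * (2 / G) := mul_le_mul_of_nonneg_left hE (by positivity)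
    have h8 : X / (n : ℝ) ^ C = n * (X / G) := by
      rw [hG, pow_succ]; field_simp
    rw [h8]
    have h9 : (2 : ℝ) ^ n / G ≤ X / G := by
      apply div_le_div_of_nonneg_right _ hG0.le
      rw [hX]
      have : (0 : ℝ) ≤ x := Nat.cast_nonneg x
      linarith
    have h10 : (x : ℝ) * (2 / G) ≤ 2 * (X / G) := by
      have : (x : ℝ) * (2 / G) = 2 * (x / G) := by ring
      rw [this]
      apply mul_le_mul_of_nonneg_left _ (by norm_num)
      apply div_le_div_of_nonneg_right _ hG0.le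
      rw [hX]
      have : (0 : ℝ) < 2 ^ n := by positivity
      linarith
    have h11 : 4 * (X / G) ≤ n * (X / G) :=
      mul_le_mul_of_nonneg_right (by linarith) (by positivity)
    linarith

end Pool.Agent.KS6_24.ST
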