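import Mathlib
import Pool.Agent.KS6_24.ST.FM4a
import Pool.Agent.KS6_24.ST.ParN
import Pool.Agent.KS6_24.ST.Stage

/-! FM4: the stage lemma for `n` functions at multiples (after StageN). -/

set_option autoImplicit false

namespace Pool.Agent.KS6_24.ST

open Pool.Agent.H499R2.CO Pool.Agent.Y965.SI Finset Pool.Agent.KS6_24.LN

theorem mod8_pow (i : ℕ) : (3 : ℤ) ^ i % 8 = 1 ∨ (3 : ℤ) ^ i % 8 = 3 := by
  induction i with
  | zero => left; norm_num
  | succ i ih => rw [pow_succ]; rcases ih with h | h <;> omega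

theorem admM_pow {n : ℕ} {A : Fin n → ℕ} {d : Fin n → ℤ} (h : AdmM A d) (i : Fin n → ℕ) :
    AdmM (fun a => A a * 3 ^ i a) d := by
  obtain ⟨h1, h2, h3⟩ := h
  refine ⟨fun a => ?_, h2, fun a b hab => ?_⟩
  · have := h1 a
    rw [Nat.mul_mod, this, Nat.pow_mod]
    norm_num
  · have e : (d a * ((A a * 3 ^ i a : ℕ) : ℤ) * (d b * ((A b * 3 ^ i b : ℕ) : ℤ)))
        = (d a * A a * (d b * A b)) * 3 ^ (i a + i b) := by push_cast; ring
    rw [e, Int.mul_emod]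
    rcases h3 a b hab with h | h <;> rcases mod8_pow (i a + i b) with h' | h' <;> rw [h, h'] <;> norm_num

theorem stagem (hE : S_ETAM) : S_STAGEM := by
  intro n A d hAd
  obtain ⟨hAo, hdd, _⟩ := id hAd
  obtain ⟨P, hPdef⟩ : ∃ P, P = 16 * n + 60 := ⟨_, rfl⟩
  have hP60 : 60 ≤ P := by omega
  obtain ⟨C1, hC1, h1⟩ : ∃ C1 : ℝ, 0 < C1 ∧ ∀ d : ℤ, d = 1 ∨ d = -1 → ∀ f : ℤ → ℝ, InvF d f → ∀ t R g B : ℕ,
      1 ≤ R → 1 ≤ g → 1 ≤ B → ∀ V : ℝ, 2 ^ (t + R) ≤ V →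
      av V (fun y => |f ⌊y⌋ - Ff f d t g B y|) ≤ C1 * g * rho R + t / (B : ℝ) ^ 2 := by
    obtain ⟨c1, hc1, k1⟩ := co2 1 (Or.inl rfl)
    obtain ⟨c2, hc2, k2⟩ := co2 (-1) (Or.inr rfl)
    refine ⟨c1 + c2, by positivity, ?_⟩
    intro d hd f hf t R g B hR hg hB V hV
    have hr := rho_nonneg R
    have a1 : 0 ≤ c1 * g * rho R := by positivity
    have a2 : 0 ≤ c2 * g * rho R := by positivity
    have e : (c1 + c2) * g * rho R = c1 * g * rho R + c2 * g * rho R := by ring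
    rw [e]
    rcases hd with rfl | rfl
    · have := k1 f hf t R g B hR hg hB V hV; linarith
    · have := k2 f hf t R g B hR hg hB V hV; linarith
  obtain ⟨C3, hC3, h3⟩ : ∃ C3 : ℝ, 0 < C3 ∧ ∀ d : ℤ, d = 1 ∨ d = -1 → ∀ f : ℤ → ℝ, InvF d f → ∀ R : ℕ, 1 ≤ R →
      ∀ V : ℝ, 2 ^ R ≤ V → ∀ (i u : ℕ) (h : ℝ), |h| ≤ 4 ^ u →
        av V (fun y => |f ⌊y⌋ - f ⌊3 ^ i * y + h⌋|) ≤ C3 * √ (1 + (i : ℝ) ^ 2 + u) * rho R := by
    obtain ⟨c1, hc1, k1⟩ := ci 1 (Or.inl rfl)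
    obtain ⟨c2, hc2, k2⟩ := ci (-1) (Or.inr rfl)
    refine ⟨c1 + c2, by positivity, ?_⟩
    intro d hd f hf R hR V hV i u h hh
    have hr := rho_nonneg R
    have a1 : 0 ≤ c1 * √ (1 + (i : ℝ) ^ 2 + u) * rho R := by positivity
    have a2 : 0 ≤ c2 * √ (1 + (i : ℝ) ^ 2 + u) * rho R := by positivity
    have e : (c1 + c2) * √ (1 + (i : ℝ) ^ 2 + u) * rho R = c1 * √ (1 + (i : ℝ) ^ 2 + u) * rho R
        + c2 * √ (1 + (i : ℝ) ^ 2 + u) * rho R := by ring
    rw [e]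
    rcases hd with rfl | rfl
    · have := k1 f hf R hR V hV i u h hh; linarith
    · have := k2 f hf R hR V hV i u h hh; linarith
  obtain ⟨D0, t0, hD0, ht0, hEta⟩ := hE n P
  obtain ⟨α, hα⟩ : ∃ α : ℕ, ∀ a, A a ≤ 4 ^ α := by
    refine ⟨univ.sup A, fun a => ?_⟩
    have h5 : A a ≤ univ.sup A := le_sup (f := A) (mem_univ a)
    exact h5.trans ((Nat.lt_pow_self (by norm_num)).le)
  obtain ⟨m0, hm02, hpar⟩ := paramsN (max ⌈D0⌉₊ (max t0 (max 200 α))) P
  set S : ℝ := √ (D0 * CetaN P) with hS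
  have hS0 : 0 ≤ S := Real.sqrt_nonneg _
  refine ⟨n * (2 * C1 + 4) + 12 ^ n * (S + n * C3 + 4), m0, by positivity, hm02, ?_⟩
  intro F hF m L hm hL1 hL2 V hV i hi2
  have hFb : ∀ a x, |F a x| ≤ 1 := fun a => (hF a).1
  obtain ⟨p1, p2, p3, p4, p5⟩ := hpar m L hm hL1 hL2
  have hL200 : 200 ≤ L := (le_max_left _ _).trans ((le_max_right _ _).trans ((le_max_right _ _).trans p1))
  have hLα : α ≤ L := (le_max_right _ _).trans ((le_max_right _ _).trans ((le_max_right _ _).trans p1))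
  have hLt0 : t0 ≤ L := (le_max_left _ _).trans ((le_max_right _ _).trans p1)
  have hLD0 : ⌈D0⌉₊ ≤ L := (le_max_left _ _).trans p1
  obtain ⟨q, q1, q2, q3, q4, q5, q6, q7, q8, q9, q10, q11⟩ := sizesN hP60 (by omega) p2
  obtain ⟨s, hs⟩ : ∃ s, s = Nat.sqrt (st m L) := ⟨_, rfl⟩
  obtain ⟨t, ht⟩ : ∃ t, t = st m L := ⟨_, rfl⟩
  obtain ⟨g, hg⟩ : ∃ g, g = sgw m L := ⟨_, rfl⟩
  obtain ⟨B, hB⟩ : ∃ B, B = sB m L := ⟨_, rfl⟩
  obtain ⟨k, hk⟩ : ∃ k, k = q ^ 8 := ⟨_, rfl⟩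
  have hBs : B = s * L ^ 3 := by rw [hB, sB, hs]
  rw [← hs] at q5 q6 q7 q8 q9
  rw [← ht] at q1 q2 q7 q8 q10 q11
  rw [← hg] at q4 q5 q6
  rw [← ht, ← hg, ← hB]
  -- naturals
  have hL1' : 1 ≤ L := by omega
  have Lp : ∀ a b : ℕ, a ≤ b → L ^ a ≤ L ^ b := fun a b hab => Nat.pow_le_pow_right hL1' hab
  have hqL : L ≤ q := by
    calc L = L ^ 1 := (pow_one L).symm
      _ ≤ L ^ (2 * P) := Lp 1 (2 * P) (by omega)
      _ ≤ q := q3
  have hq1' : 1 ≤ q := by omega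
  have qp : ∀ a b : ℕ, a ≤ b → q ^ a ≤ q ^ b := fun a b hab => Nat.pow_le_pow_right hq1' hab
  have hqk : q ≤ k := by
    calc q = q ^ 1 := (pow_one q).symm
      _ ≤ q ^ 8 := qp 1 8 (by norm_num)
      _ = k := hk.symm
  have hkt : k ≤ t := by rw [hk]; exact (qp 8 10 (by norm_num)).trans q1
  have hk80 : 80 * k ≤ t := by
    calc 80 * k ≤ q ^ 2 * k := by
          apply Nat.mul_le_mul_right
          calc 80 ≤ 200 := by norm_num
            _ ≤ q := by omega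
            _ = q ^ 1 := (pow_one q).symm
            _ ≤ q ^ 2 := qp 1 2 (by norm_num)
      _ = q ^ 10 := by rw [hk]; ring
      _ ≤ t := q1
  have hLt : L ≤ t := hqL.trans (hqk.trans hkt)
  have ht1 : 1 ≤ t := by omega
  have h4t : 4 * t ≤ m := by
    have : 4 ≤ L ^ 2 := by nlinarith
    calc 4 * t ≤ L ^ 2 * t := Nat.mul_le_mul_right _ this
      _ = t * L ^ 2 := by ring
      _ ≤ m := q10
  have ht2q : t ≤ (2 * q) ^ 10 := (q2.trans_le (Nat.pow_le_pow_left (by omega) 10)).le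
  have hs32 : s ≤ 32 * q ^ 5 := by
    have h5 : s * s ≤ (32 * q ^ 5) * (32 * q ^ 5) := by
      calc s * s ≤ t := q7
        _ ≤ (2 * q) ^ 10 := ht2q
        _ = (32 * q ^ 5) * (32 * q ^ 5) := by ring
    exact Nat.mul_self_le_mul_self_iff.1 h5
  have hL3q : L ^ 3 ≤ q := (Lp 3 (2 * P) (by omega)).trans q3
  have hBk : B ≤ k := by
    rw [hBs]
    calc s * L ^ 3 ≤ (32 * q ^ 5) * q := Nat.mul_le_mul hs32 hL3q
      _ = 32 * q ^ 6 := by ring
      _ ≤ q ^ 2 * q ^ 6 := by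
        apply Nat.mul_le_mul_right
        nlinarith
      _ = k := by rw [hk]; ring
  have hgs : g ≤ s := by
    calc g ≤ g * L ^ 5 := Nat.le_mul_of_pos_right _ (by positivity)
      _ ≤ s := q6
  have hsB : s ≤ B := by rw [hBs]; exact Nat.le_mul_of_pos_right _ (by positivity)
  have hgB : g ≤ B := hgs.trans hsB
  have hB2 : 2 ≤ B := by
    have : q ^ 1 ≤ q ^ 5 := qp 1 5 (by norm_num)
    rw [pow_one] at this
    omega
  -- reals
  set U : ℝ := (L : ℝ) with hU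
  have hU200 : (200 : ℝ) ≤ U := by rw [hU]; exact_mod_cast hL200
  have hU1 : (1 : ℝ) ≤ U := by linarith
  have hU0 : (0 : ℝ) < U := by linarith
  have ivm : ∀ a b : ℕ, a ≤ b → 1 / U ^ b ≤ 1 / U ^ a := fun a b hab =>
    one_div_le_one_div_of_le (by positivity) (pow_le_pow_right₀ hU1 hab)
  have ivk : ∀ a b : ℕ, U ^ a * (1 / U ^ (a + b)) = 1 / U ^ b := fun a b => by
    rw [pow_add]; field_simp
  have hD0k : D0 ≤ k := (Nat.le_ceil D0).trans (by exact_mod_cast (show ⌈D0⌉₊ ≤ k by omega))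
  have htr : (1 : ℝ) ≤ t := by exact_mod_cast ht1
  have ht00 : (0 : ℝ) < t := by linarith
  have hqr : (1 : ℝ) ≤ q := by exact_mod_cast hq1'
  have hqr0 : (0 : ℝ) < q := by linarith
  have hgr : (1 : ℝ) ≤ g := by exact_mod_cast q4
  have hgr0 : (0 : ℝ) < g := by linarith
  have hkr : (k : ℝ) = (q : ℝ) ^ 8 := by rw [hk]; push_cast; rfl
  have hkr0 : (0 : ℝ) < k := by rw [hkr]; positivity
  have hqU : U ^ (2 * P) ≤ (q : ℝ) := by rw [hU]; exact_mod_cast q3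
  have hmr : (1 : ℝ) ≤ m := by exact_mod_cast (show 1 ≤ m by omega)
  have hmr0 : (0 : ℝ) < m := by linarith
  have ht4 : 4 * (t : ℝ) ≤ m := by exact_mod_cast h4t
  have hV0 : 0 < V := lt_of_lt_of_le (by positivity) hV
  have hA1' : ∀ a, 1 ≤ A a := fun a => by have := hAo a; omega
  have hiV : ∀ a, V ≤ (A a * 3 ^ i a : ℕ) * V := fun a => le_mul_of_one_le_left hV0.le (by
    have : 1 ≤ A a * 3 ^ i a := Nat.mul_pos (hA1' a) (by positivity)
    exact_mod_cast this)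
  set R := m - t with hR
  have hRn : 1 ≤ R := by omega
  have htR : t + R = m := by omega
  have hVR : (2 : ℝ) ^ (t + R) ≤ V := by rw [htR]; exact hV
  have hWR : ∀ a, (2 : ℝ) ^ (t + R) ≤ (A a * 3 ^ i a : ℕ) * V := fun a => hVR.trans (hiV a)
  -- rho
  have hρ0 := rho_nonneg R
  have hρ2 : rho R ^ 2 ≤ 4 * U / m := by
    rw [rho_sq hRn]
    have hRr : (m : ℝ) / 2 ≤ R := by
      have : (R : ℝ) = m - t := by rw [hR, Nat.cast_sub (by omega)]
      rw [this]; linarith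
    have hRp : (0 : ℝ) < R := by linarith
    have hl : Real.log ((R : ℝ) + 1) ≤ 2 * U := by
      refine le_trans (Real.log_le_log (by positivity) ?_) p4
      have : (R : ℝ) ≤ m := by exact_mod_cast Nat.sub_le m t
      linarith
    rw [div_le_div_iff₀ hRp hmr0]
    calc Real.log ((R : ℝ) + 1) * m ≤ (2 * U) * m := mul_le_mul_of_nonneg_right hl hmr0.le
      _ = 4 * U * (m / 2) := by ring
      _ ≤ 4 * U * R := mul_le_mul_of_nonneg_left hRr (by positivity)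
  -- windows
  obtain ⟨hgm0, hgm1⟩ := gm_bounds
  obtain ⟨l, hl1, hl2, hl3⟩ := exists_l (t := t) (k := k)
  have hl0 : (0 : ℝ) < l := by exact_mod_cast hl1
  have hk80r : 80 * (k : ℝ) ≤ t := by exact_mod_cast hk80
  have hlexp : (l : ℝ) ≤ 2 * 2 ^ t := by
    refine hl3.trans (mul_le_mul_of_nonneg_left ?_ (by norm_num))
    have h0 : (2 : ℝ) ^ t = Real.exp (t * Real.log 2) := by rw [Real.exp_nat_mul, Real.exp_log (by norm_num)]
    rw [h0]
    apply Real.exp_le_exp.2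
    have := Real.log_two_gt_d9
    nlinarith
  have h2t : (0 : ℝ) < 2 ^ t := by positivity
  have h2tU : 1 / (2 : ℝ) ^ t ≤ 1 / U ^ (2 * P) := by
    apply one_div_le_one_div_of_le (by positivity)
    have h0 : t < 2 ^ t := Nat.lt_two_pow_self
    have h00 : (t : ℝ) ≤ 2 ^ t := by exact_mod_cast h0.le
    have h01 : (q : ℝ) ≤ t := by exact_mod_cast hqk.trans hkt
    exact hqU.trans (h01.trans h00)
  have h2V : (2 : ℝ) ^ t / V ≤ 1 / 2 ^ t := by
    rw [div_le_div_iff₀ hV0 h2t, one_mul, ← pow_add]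
    exact (pow_le_pow_right₀ (by norm_num) (by omega)).trans hV
  have hlV : (l : ℝ) / V ≤ 2 * (1 / U ^ (2 * P)) := by
    calc (l : ℝ) / V ≤ 2 * 2 ^ t / V := div_le_div_of_nonneg_right hlexp hV0.le
      _ = 2 * (2 ^ t / V) := by ring
      _ ≤ 2 * (1 / 2 ^ t) := mul_le_mul_of_nonneg_left h2V (by norm_num)
      _ ≤ _ := mul_le_mul_of_nonneg_left h2tU (by norm_num)
  -- e₁
  have hgρ : (g : ℝ) * rho R ≤ 2 * (1 / U ^ 5) := by
    have h5 : (g : ℝ) ^ 2 * U ^ 12 ≤ m := by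
      have : g ^ 2 * L ^ 12 ≤ m := by
        calc g ^ 2 * L ^ 12 = (g * L ^ 5) * (g * L ^ 5) * L ^ 2 := by ring
          _ ≤ s * s * L ^ 2 := Nat.mul_le_mul_right _ (Nat.mul_le_mul q6 q6)
          _ ≤ t * L ^ 2 := Nat.mul_le_mul_right _ q7
          _ ≤ m := q10
      rw [hU]; exact_mod_cast this
    have h6 : ((g : ℝ) * rho R) ^ 2 ≤ (2 * (1 / U ^ 5)) ^ 2 := by
      rw [mul_pow]
      calc (g : ℝ) ^ 2 * rho R ^ 2 ≤ (g : ℝ) ^ 2 * (4 * U / m) := mul_le_mul_of_nonneg_left hρ2 (by positivity)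
        _ ≤ 4 / U ^ 11 := by
          rw [← mul_div_assoc, div_le_div_iff₀ hmr0 (by positivity)]
          calc (g : ℝ) ^ 2 * (4 * U) * U ^ 11 = 4 * ((g : ℝ) ^ 2 * U ^ 12) := by ring
            _ ≤ 4 * (m : ℝ) := mul_le_mul_of_nonneg_left h5 (by norm_num)
        _ = 4 * (1 / U ^ 11) := by ring
        _ ≤ 4 * (1 / U ^ 10) := mul_le_mul_of_nonneg_left (ivm 10 11 (by norm_num)) (by norm_num)
        _ = (2 * (1 / U ^ 5)) ^ 2 := by rw [mul_pow, div_pow, ← pow_mul]; norm_num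
    exact le_of_sq_le_sq h6 (by positivity)
  have htB : (t : ℝ) / (B : ℝ) ^ 2 ≤ 4 * (1 / U ^ 5) := by
    have hsr : (0 : ℝ) < s := by exact_mod_cast (show 0 < s by omega)
    have h5 : (t : ℝ) ≤ 4 * (s * s) := by exact_mod_cast q8
    have h6 : (B : ℝ) = s * U ^ 3 := by rw [hBs, hU]; push_cast; rfl
    rw [h6, div_le_iff₀ (by positivity)]
    calc (t : ℝ) ≤ 4 * (s * s) := h5
      _ ≤ 4 * (s * s) * U := le_mul_of_one_le_right (by positivity) hU1
      _ = 4 * (1 / U ^ 5) * (s * U ^ 3) ^ 2 := by field_simp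
  have he1 : ∀ (a : Fin n) (V' : ℝ), 2 ^ (t + R) ≤ V' →
      av V' (fun y => |F a ⌊y⌋ - Ff (F a) (d a) t g B y|) ≤ (2 * C1 + 4) * (1 / U ^ 5) := by
    intro a V' hV'
    refine (h1 (d a) (hdd a) (F a) (hF a) t R g B hRn q4 (by omega) V' hV').trans ?_
    have h5 : C1 * g * rho R ≤ C1 * (2 * (1 / U ^ 5)) := by
      rw [mul_assoc]; exact mul_le_mul_of_nonneg_left hgρ hC1.le
    linarith
  -- e₂
  have htk : ((t : ℝ) + k) ^ 3 / (k : ℝ) ^ 4 ≤ 2 ^ 33 / (q : ℝ) ^ 2 := by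
    have h5 : (t : ℝ) + k ≤ 2 ^ 11 * (q : ℝ) ^ 10 := by
      have : t + k ≤ 2 ^ 11 * q ^ 10 := by
        calc t + k ≤ 2 * t := by omega
          _ ≤ 2 * (2 * q) ^ 10 := by omega
          _ = 2 ^ 11 * q ^ 10 := by ring
      exact_mod_cast this
    rw [div_le_div_iff₀ (by positivity) (by positivity), hkr]
    calc ((t : ℝ) + (q : ℝ) ^ 8) ^ 3 * (q : ℝ) ^ 2 ≤ (2 ^ 11 * (q : ℝ) ^ 10) ^ 3 * (q : ℝ) ^ 2 := by
          apply mul_le_mul_of_nonneg_right _ (by positivity)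
          apply pow_le_pow_left₀ (by positivity)
          rw [← hkr]; exact h5
      _ = 2 ^ 33 * ((q : ℝ) ^ 8) ^ 4 := by ring
  have htk0 : 0 ≤ ((t : ℝ) + k) ^ 3 / (k : ℝ) ^ 4 := by positivity
  -- e₃
  have hkm : (k : ℝ) ≤ (m : ℝ) ^ (0.9995 : ℝ) := by
    have h5 : (k : ℝ) ^ (10 : ℕ) ≤ (m : ℝ) ^ (8 : ℕ) := by
      have : k ^ 10 ≤ m ^ 8 := by
        calc k ^ 10 = (q ^ 10) ^ 8 := by rw [hk]; ring
          _ ≤ t ^ 8 := Nat.pow_le_pow_left q1 8
          _ ≤ m ^ 8 := Nat.pow_le_pow_left (by omega) 8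
      exact_mod_cast this
    have hk0 : (0 : ℝ) ≤ k := Nat.cast_nonneg _
    calc (k : ℝ) = ((k : ℝ) ^ (10 : ℕ)) ^ (0.1 : ℝ) := by
          rw [← Real.rpow_natCast, ← Real.rpow_mul hk0]; norm_num
      _ ≤ ((m : ℝ) ^ (8 : ℕ)) ^ (0.1 : ℝ) := Real.rpow_le_rpow (by positivity) h5 (by norm_num)
      _ = (m : ℝ) ^ (0.8 : ℝ) := by rw [← Real.rpow_natCast, ← Real.rpow_mul hmr0.le]; norm_num
      _ ≤ (m : ℝ) ^ (0.9995 : ℝ) := Real.rpow_le_rpow_of_exponent_le hmr (by norm_num)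
  have hsqn : ∀ a, √ (1 + ((51 * k + i a : ℕ) : ℝ)) * rho R ≤ 1 / U ^ P := by
    intro a
    have h5 : 1 + ((51 * k + i a : ℕ) : ℝ) ≤ 53 * (m : ℝ) ^ (0.9995 : ℝ) := by
      have : (1 : ℝ) ≤ (m : ℝ) ^ (0.9995 : ℝ) := Real.one_le_rpow hmr (by norm_num)
      have := hi2 a
      push_cast; linarith
    have h6 : (m : ℝ) = (m : ℝ) ^ (0.9995 : ℝ) * (m : ℝ) ^ (0.0005 : ℝ) := by
      rw [← Real.rpow_add hmr0]; norm_num
    have h7 : (√ (1 + ((51 * k + i a : ℕ) : ℝ)) * rho R) ^ 2 ≤ (1 / U ^ P) ^ 2 := by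
      rw [mul_pow, Real.sq_sqrt (by positivity)]
      calc (1 + ((51 * k + i a : ℕ) : ℝ)) * rho R ^ 2 ≤ (53 * (m : ℝ) ^ (0.9995 : ℝ)) * (4 * U / m) :=
            mul_le_mul h5 hρ2 (sq_nonneg _) (by positivity)
        _ ≤ 1 / U ^ (2 * P) := by
          rw [← mul_div_assoc, div_le_div_iff₀ hmr0 (by positivity), one_mul]
          calc 53 * (m : ℝ) ^ (0.9995 : ℝ) * (4 * U) * U ^ (2 * P) = (m : ℝ) ^ (0.9995 : ℝ) * (212 * U ^ (2 * P + 1)) := by
                rw [pow_succ]; ring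
            _ ≤ (m : ℝ) ^ (0.9995 : ℝ) * (m : ℝ) ^ (0.0005 : ℝ) := by
              apply mul_le_mul_of_nonneg_left _ (by positivity)
              have : 0 ≤ U ^ (2 * P + 1) := by positivity
              linarith
            _ = m := h6.symm
        _ = (1 / U ^ P) ^ 2 := by rw [div_pow, ← pow_mul, one_pow, mul_comm P 2]
    exact le_of_sq_le_sq h7 (by positivity)
  have he3 : ∀ a, ∀ c ∈ Cs t g B, ∀ w : ℝ, 0 ≤ w → w ≤ l * (A a * 3 ^ i a : ℕ) →
      av ((A a * 3 ^ i a : ℕ) * V) (fun y => |fc (F a) t c (y + w) - fc (F a) t c y|) ≤ C3 * (1 / U ^ P) := by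
    intro a c hc w hw0 hw
    have hcs : 2 * c ≤ t + 2 * B + 6 * g := by
      unfold Cs at hc; rw [mem_filter] at hc; exact hc.2.2
    have hwc : |w| * 3 ^ c ≤ 4 ^ (51 * k + i a) * 2 ^ t := by
      rw [abs_of_nonneg hw0]
      have h5 := shift_size hl3 hcs hgB hBk hB2
      have h6 : ((A a * 3 ^ i a : ℕ) : ℝ) ≤ 4 ^ (k + i a) := by
        have h7 : A a * 3 ^ i a ≤ 4 ^ (k + i a) := by
          rw [pow_add]
          apply Nat.mul_le_mul
          · exact (hα a).trans (Nat.pow_le_pow_right (by norm_num) (by omega))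
          · exact Nat.pow_le_pow_left (by norm_num) _
        exact_mod_cast h7
      calc w * 3 ^ c ≤ (l * (A a * 3 ^ i a : ℕ)) * 3 ^ c := mul_le_mul_of_nonneg_right hw (by positivity)
        _ = (A a * 3 ^ i a : ℕ) * (l * 3 ^ c) := by ring
        _ ≤ 4 ^ (k + i a) * (4 ^ (50 * k) * 2 ^ t) := mul_le_mul h6 h5 (by positivity) (by positivity)
        _ = _ := by rw [← mul_assoc, ← pow_add]; congr 2; ring
    refine (fc_shift (hF a) (h3 (d a) (hdd a)) hRn (hWR a) hwc).trans ?_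
    rw [mul_assoc]
    exact mul_le_mul_of_nonneg_left (hsqn a) hC3.le
  -- levels
  obtain ⟨E, hE'⟩ : ∃ E, E = univ.sup i := ⟨_, rfl⟩
  have hiE : ∀ a, i a ≤ E := fun a => by rw [hE']; exact le_sup (f := i) (mem_univ a)
  have him : ∀ a, i a ≤ m := by
    intro a
    have : (i a : ℝ) ≤ m := by
      refine (hi2 a).trans ?_
      calc (m : ℝ) ^ (0.9995 : ℝ) ≤ (m : ℝ) ^ (1 : ℝ) := Real.rpow_le_rpow_of_exponent_le hmr (by norm_num)
        _ = m := Real.rpow_one _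
    exact_mod_cast this
  have hEm : E ≤ m := by rw [hE']; exact Finset.sup_le fun a _ => him a
  obtain ⟨N, hN⟩ : ∃ N : ℕ, N = (∏ a, A a) * 3 ^ E := ⟨_, rfl⟩
  have hN1 : 1 ≤ N := by
    rw [hN]
    exact Nat.mul_pos (Finset.prod_pos fun a _ => hA1' a) (by positivity)
  set e : Fin n → ℕ := fun a => (∏ b ∈ univ.erase a, A b) * 3 ^ (E - i a) with he
  have hei : ∀ a, A a * 3 ^ i a * e a = N := fun a => by
    rw [he, hN]; simp only
    rw [← mul_prod_erase univ A (mem_univ a)]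
    have e3 : 3 ^ E = 3 ^ i a * 3 ^ (E - i a) := by rw [← pow_add]; congr 1; have := hiE a; omega
    rw [e3]; ring
  -- η
  have hNr : (0 : ℝ) < N := by exact_mod_cast hN1
  have hη : ∀ c : Fin n → ℕ, av (N * V) (fun y => ((∑ w ∈ range (l * N), ∏ a, ((g : ℝ) *
      psi (d a) t g (c a) ((⌊y⌋ + (w : ℕ)) / (e a : ℤ)))) / (l * N) - ∏ a, ((g : ℝ) * pc 1 t g (c a))) ^ 2)
      ≤ D0 * CetaN P / U ^ (P - 11) := by
    intro c
    have hW : (N : ℝ) * 2 ^ t ≤ N * V :=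
      mul_le_mul_of_nonneg_left (le_trans (pow_le_pow_right₀ (by norm_num) (by omega)) hV) hNr.le
    have h5 := hEta t k q g l N (hLt0.trans hLt) hD0k hq1' hqk hkt q4 hN1 hl2 (fun a => A a * 3 ^ i a) e d (admM_pow hAd i)
      hei (N * V) hW c
    refine h5.trans ?_
    rw [mul_div_assoc D0 (CetaN P)]
    apply mul_le_mul_of_nonneg_left _ hD0.le
    have hlogt1 : Real.log t ≤ 2 * U := by
      refine le_trans (Real.log_le_log ht00 ?_) p4
      linarith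
    have hlogt2 : 0.1 * U ≤ Real.log t := by
      have a1 : (m : ℝ) ≤ 2 * t * U ^ 2 := by
        have : m ≤ 2 * t * L ^ 2 := q11.le.trans (Nat.mul_le_mul_right _ (by omega))
        rw [hU]; exact_mod_cast this
      have a2 := Real.log_le_log hmr0 a1
      rw [Real.log_mul (by positivity) (by positivity), Real.log_mul (by norm_num) ht00.ne', Real.log_pow] at a2
      have a3 : (1202 : ℝ) * Real.log U ≤ Real.log m := by
        have b1 : U ^ (20 * P + 2) ≤ m := by rw [hU]; exact_mod_cast p2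
        have b2 := Real.log_le_log (by positivity) b1
        rw [Real.log_pow] at b2
        have b3 : 0 ≤ Real.log U := Real.log_nonneg hU1
        have b4 : (1202 : ℝ) ≤ ((20 * P + 2 : ℕ) : ℝ) := by exact_mod_cast (show 1202 ≤ 20 * P + 2 by omega)
        nlinarith
      have a4 := Real.log_two_lt_d9
      push_cast at a2
      linarith
    have hlogt0 : 0 < Real.log t := by linarith
    have hA1 : √ (1 / (q : ℝ) + ((t : ℝ) + k) ^ 3 / (k : ℝ) ^ 4) ≤ 2 ^ 17 * (1 / U ^ P) := by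
      rw [Real.sqrt_le_left (by positivity)]
      have b1 : 1 / (q : ℝ) + ((t : ℝ) + k) ^ 3 / (k : ℝ) ^ 4 ≤ 2 ^ 34 * (1 / q) := by
        have b2 : (2 : ℝ) ^ 33 / (q : ℝ) ^ 2 ≤ 2 ^ 33 * (1 / q) := by
          rw [div_eq_mul_one_div]
          apply mul_le_mul_of_nonneg_left _ (by norm_num)
          apply one_div_le_one_div_of_le hqr0
          nlinarith
        have b3 : 0 < 1 / (q : ℝ) := by positivity
        linarith
      refine b1.trans ?_
      calc 2 ^ 34 * (1 / (q : ℝ)) ≤ 2 ^ 34 * (1 / U ^ (2 * P)) :=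
            mul_le_mul_of_nonneg_left (one_div_le_one_div_of_le (by positivity) hqU) (by norm_num)
        _ = (2 ^ 17 * (1 / U ^ P)) ^ 2 := by
          rw [mul_pow, div_pow, ← pow_mul, ← pow_mul, one_pow, mul_comm P 2]
    have hA2 : √ (Real.log t / (q : ℝ)) ≤ 2 * (1 / U ^ (P - 1)) := by
      rw [Real.sqrt_le_left (by positivity)]
      calc Real.log t / (q : ℝ) ≤ 2 * U / U ^ (2 * P) := div_le_div₀ (by positivity) hlogt1 (by positivity) hqU
        _ = 2 * (U ^ 1 * (1 / U ^ (1 + (2 * P - 1)))) := by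
          rw [show 1 + (2 * P - 1) = 2 * P by omega]; ring
        _ = 2 * (1 / U ^ (2 * P - 1)) := by rw [ivk]
        _ ≤ 4 * (1 / U ^ (2 * P - 2)) := by
          have b1 := ivm (2 * P - 2) (2 * P - 1) (by omega)
          have b2 : 0 < 1 / U ^ (2 * P - 1) := by positivity
          linarith
        _ = (2 * (1 / U ^ (P - 1))) ^ 2 := by
          rw [mul_pow, div_pow, ← pow_mul, one_pow, show (P - 1) * 2 = 2 * P - 2 by omega]; norm_num
    have hA3 : 1 / Real.log t ^ P ≤ 10 ^ P * (1 / U ^ P) := by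
      calc 1 / Real.log t ^ P ≤ 1 / (0.1 * U) ^ P :=
            one_div_le_one_div_of_le (by positivity) (pow_le_pow_left₀ (by positivity) hlogt2 P)
        _ = 10 ^ P * (1 / U ^ P) := by
          rw [mul_pow, show (0.1 : ℝ) = 1 / 10 by norm_num, div_pow, one_pow]; field_simp
    have hX : N * 2 ^ t / (N * V) ≤ 1 / U ^ (P - 11) := by
      have : (N : ℝ) * 2 ^ t / (N * V) = 2 ^ t / V := by field_simp
      rw [this]
      exact h2V.trans (h2tU.trans (ivm _ _ (by omega)))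
    have hlast := eta_smallN (P := P) hP60 (U := U) (t := t) (g := g) (q := q) (A4 := 0) (by linarith) hgr0 hqU
      (by
        have : t ≤ 16 * g ^ 2 * L ^ 10 := by
          calc t ≤ 4 * (s * s) := q8
            _ ≤ 4 * ((2 * (g * L ^ 5)) * (2 * (g * L ^ 5))) := Nat.mul_le_mul_left _ (Nat.mul_le_mul q5 q5)
            _ = 16 * g ^ 2 * L ^ 10 := by ring
        rw [hU]; exact_mod_cast this)
      (by
        have : q ^ 5 ≤ 2 * (g * L ^ 5) := q9.trans q5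
        rw [hU]; exact_mod_cast this)
      ht00.le hA1 hA2 hA3 (by positivity) (by positivity) hX hgr
    rw [add_zero] at hlast
    exact hlast
  -- number of scales
  have hng : (#(Cs t g B) : ℝ) / g ≤ 12 * U ^ 8 := by
    have a1 := Cs_card t g B
    have a2 : #(Cs t g B) ≤ 6 * B := by omega
    have a3 : B ≤ 2 * g * L ^ 8 := by
      rw [hBs]
      calc s * L ^ 3 ≤ 2 * (g * L ^ 5) * L ^ 3 := Nat.mul_le_mul_right _ q5
        _ = 2 * g * L ^ 8 := by ring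
    rw [div_le_iff₀ hgr0]
    have a4 : #(Cs t g B) ≤ 12 * L ^ 8 * g := by
      calc #(Cs t g B) ≤ 6 * B := a2
        _ ≤ 6 * (2 * g * L ^ 8) := Nat.mul_le_mul_left _ a3
        _ = 12 * L ^ 8 * g := by ring
    rw [hU]; exact_mod_cast a4
  have hng0 : 0 ≤ (#(Cs t g B) : ℝ) / g := by positivity
  -- the abstract lemma
  have hlast := stage_absM (t := t) (g := g) (B := B) q4 (F := F) (d := d) hFb hV0 (N := N) (l := l) hN1 hl1 (A := A) (i := i)
    (e := e) hei (e₁ := (2 * C1 + 4) * (1 / U ^ 5)) (e₃ := C3 * (1 / U ^ P)) (η := D0 * CetaN P / U ^ (P - 11))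
    (fun a => he1 a _ (hWR a)) he3 hη
  refine hlast.trans ?_
  -- numeric
  obtain ⟨Q, hQ⟩ : ∃ Q, Q = 8 * n + 4 := ⟨_, rfl⟩
  have hsη : √ (D0 * CetaN P / U ^ (P - 11)) ≤ S * (1 / U ^ Q) := by
    rw [Real.sqrt_le_left (by positivity), mul_pow, hS, Real.sq_sqrt (mul_pos hD0 (CetaN_pos P)).le, div_pow, ← pow_mul,
      one_pow]
    rw [div_eq_mul_one_div]
    apply mul_le_mul_of_nonneg_left (ivm (Q * 2) (P - 11) (by omega)) (mul_pos hD0 (CetaN_pos P)).le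
  have hlV' : 2 * (l : ℝ) / V ≤ 4 * (1 / U ^ Q) := by
    calc 2 * (l : ℝ) / V = 2 * (l / V) := by ring
      _ ≤ 2 * (2 * (1 / U ^ (2 * P))) := mul_le_mul_of_nonneg_left hlV (by norm_num)
      _ = 4 * (1 / U ^ (2 * P)) := by ring
      _ ≤ _ := mul_le_mul_of_nonneg_left (ivm _ _ (by omega)) (by norm_num)
  have he3' : n * (C3 * (1 / U ^ P)) ≤ n * C3 * (1 / U ^ Q) := by
    rw [← mul_assoc]
    exact mul_le_mul_of_nonneg_left (ivm _ _ (by omega)) (by positivity)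
  have k2 : ((#(Cs t g B) : ℝ) / g) ^ n * (√ (D0 * CetaN P / U ^ (P - 11)) + n * (C3 * (1 / U ^ P)) + 2 * l / V)
      ≤ 12 ^ n * (S + n * C3 + 4) * (1 / U ^ 4) := by
    calc _ ≤ (12 * U ^ 8) ^ n * ((S + n * C3 + 4) * (1 / U ^ Q)) := by
          apply mul_le_mul (pow_le_pow_left₀ hng0 hng n) _ (by positivity) (by positivity)
          linarith
      _ = 12 ^ n * (S + n * C3 + 4) * (U ^ (8 * n) * (1 / U ^ (8 * n + 4))) := by
          rw [mul_pow, ← pow_mul, hQ]; ring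
      _ = _ := by rw [ivk]
  have k1 : n * ((2 * C1 + 4) * (1 / U ^ 5)) ≤ n * (2 * C1 + 4) * (1 / U ^ 4) := by
    rw [← mul_assoc]
    exact mul_le_mul_of_nonneg_left (ivm 4 5 (by norm_num)) (by positivity)
  have k4 : (n * (2 * C1 + 4) + 12 ^ n * (S + n * C3 + 4)) / U ^ 4
      = n * (2 * C1 + 4) * (1 / U ^ 4) + 12 ^ n * (S + n * C3 + 4) * (1 / U ^ 4) := by ring
  rw [k4]
  linarith

end Pool.Agent.KS6_24.ST
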