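import Mathlib
import Pool.Agent.KS6_24.LN.TW
import Pool.Agent.KS6_24.ST.Defs

/-! FOUR WALKERS: `S_4W d` (helper6). -/

set_option autoImplicit false

namespace Pool.Agent.KS6_24.ST

open Pool.Agent.H499R2.CO Pool.Agent.Y965.SI Finset Pool.Agent.KS6_24.LN Pool.Agent.KS6_24.LN.TW

namespace FW

theorem U_le {φ : ℕ → ℝ} (h : ∀ a, |φ a| ≤ 1) (n : ℕ) : ∀ a, |U n φ a| ≤ 1 := by
  induction n with
  | zero => intro a; exact h a
  | succ n ih =>
    intro a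
    rw [U_succ]
    have h1 := abs_le.1 (ih a)
    have h2 := abs_le.1 (ih (a + 1))
    rw [abs_le]; constructor <;> linarith [h1.1, h1.2, h2.1, h2.2]

theorem U_lip' {φ : ℕ → ℝ} {δ : ℝ} (h : ∀ a, |φ (a + 1) - φ a| ≤ δ) (n a i : ℕ) :
    |U n φ (a + i) - U n φ a| ≤ i * δ := by
  induction i with
  | zero => simp
  | succ i ih =>
    have h1 := Df_le h n (a + i)
    have h2 : U n φ (a + (i + 1)) - U n φ a = Df n φ (a + i) + (U n φ (a + i) - U n φ a) := by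
      rw [← add_assoc, Df]; ring
    rw [h2]
    refine (abs_add_le _ _).trans ?_
    push_cast; linarith

theorem U_time {φ : ℕ → ℝ} {δ : ℝ} (h : ∀ a, |φ (a + 1) - φ a| ≤ δ) (n a i : ℕ) :
    |U (n + i) φ a - U n φ a| ≤ i * δ / 2 := by
  induction i with
  | zero => simp
  | succ i ih =>
    have h1 := Df_le h (n + i) a
    have h2 : U (n + (i + 1)) φ a - U n φ a = Df (n + i) φ a / 2 + (U (n + i) φ a - U n φ a) := by
      rw [← add_assoc, U_succ, Df]; ring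
    rw [h2]
    refine (abs_add_le _ _).trans ?_
    rw [abs_div, abs_of_pos (show (0 : ℝ) < 2 by norm_num)]
    push_cast; linarith

theorem U_block {φ : ℕ → ℝ} {δ : ℝ} (h : ∀ a, |φ (a + 1) - φ a| ≤ δ) (n a a' i : ℕ)
    (h1 : a ≤ a') (h2 : a' ≤ a + i) : |U n φ a' - U (n + i) φ a| ≤ 3 / 2 * i * δ := by
  obtain ⟨r, rfl⟩ := Nat.exists_eq_add_of_le h1
  have hδ : 0 ≤ δ := (abs_nonneg _).trans (h 0)
  have hr : (r : ℝ) ≤ i := by exact_mod_cast (show r ≤ i by omega)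
  have e1 := U_lip' h n a r
  have e2 := U_time h n a i
  have e3 : U n φ (a + r) - U (n + i) φ a
      = (U n φ (a + r) - U n φ a) - (U (n + i) φ a - U n φ a) := by ring
  rw [e3]
  refine (abs_sub _ _).trans ?_
  nlinarith [mul_le_mul_of_nonneg_right hr hδ]

/-- one step of one walker -/
theorem fac {d : ℤ} (n j : ℕ) (φ : ℕ → ℝ) (x : ℤ) :
    U n φ (od d (j + 1) x) = U (n + 1) φ (od d j x) - sg ((Tz d)^[j] x) * Df n φ (od d j x) / 2 := by
  rw [od_succ', U_succ]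
  unfold sg Df
  split_ifs with h
  · ring
  · rw [add_zero]; ring

/-- one step of one walker, after the flip -/
theorem fac' {d : ℤ} (hd : d % 2 = 1) (n j : ℕ) (φ : ℕ → ℝ) (x : ℤ) {u : ℤ} (hu : u % 2 = 1) :
    U n φ (od d (j + 1) (x + u * 2 ^ j))
      = U (n + 1) φ (od d j x) + sg ((Tz d)^[j] x) * Df n φ (od d j x) / 2 := by
  have h3 : (3 ^ (od d j x) * u) % 2 = 1 := by
    rw [Int.mul_emod, three_pow_odd, hu]; norm_num
  rw [fac, od_per hd, iter_add' hd, sg_odd h3]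
  ring

theorem prod4 (M D s : Fin 4 → ℝ) :
    ((∏ a, (M a - s a * D a / 2)) + (∏ a, (M a + s a * D a / 2))) / 2
      = ∏ a, M a + (s 0 * s 1 * (D 0 * D 1 * (M 2 * M 3)) / 4 + s 0 * s 2 * (D 0 * D 2 * (M 1 * M 3)) / 4
        + s 0 * s 3 * (D 0 * D 3 * (M 1 * M 2)) / 4 + s 1 * s 2 * (D 1 * D 2 * (M 0 * M 3)) / 4
        + s 1 * s 3 * (D 1 * D 3 * (M 0 * M 2)) / 4 + s 2 * s 3 * (D 2 * D 3 * (M 0 * M 1)) / 4
        + (s 0 * s 1 * (s 2 * s 3)) * (D 0 * D 1 * (D 2 * D 3)) / 16) := by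
  simp only [Fin.prod_univ_four]; ring

variable (d : ℤ) (t : ℕ) (φ : Fin 4 → ℕ → ℝ) (A B : Fin 4 → ℤ)

/-- walker -/
def xx (a : Fin 4) (v : ℤ) : ℤ := A a * v + B a

/-- mean factor -/
noncomputable def MM (j : ℕ) (a : Fin 4) (v : ℤ) : ℝ := U (t - j) (φ a) (od d j (xx A B a v))

/-- difference factor -/
noncomputable def DD (j : ℕ) (a : Fin 4) (v : ℤ) : ℝ := Df (t - j - 1) (φ a) (od d j (xx A B a v))

/-- sign -/
noncomputable def ss (j : ℕ) (a : Fin 4) (v : ℤ) : ℝ := sg ((Tz d)^[j] (xx A B a v))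

/-- quadratic increment -/
noncomputable def QQ (j : ℕ) (a b c e : Fin 4) : ℝ :=
  pm t (fun v => ss d A B j a v * ss d A B j b v *
    (DD d t φ A B j a v * DD d t φ A B j b v * (MM d t φ A B j c v * MM d t φ A B j e v)) / 4)

/-- quartic increment -/
noncomputable def RR (j : ℕ) : ℝ :=
  pm t (fun v => (ss d A B j 0 v * ss d A B j 1 v * (ss d A B j 2 v * ss d A B j 3 v)) *
    (DD d t φ A B j 0 v * DD d t φ A B j 1 v * (DD d t φ A B j 2 v * DD d t φ A B j 3 v)) / 16)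

/-- all increments -/
noncomputable def II (j : ℕ) : ℝ :=
  QQ d t φ A B j 0 1 2 3 + QQ d t φ A B j 0 2 1 3 + QQ d t φ A B j 0 3 1 2 + QQ d t φ A B j 1 2 0 3
    + QQ d t φ A B j 1 3 0 2 + QQ d t φ A B j 2 3 0 1 + RR d t φ A B j

variable {d t φ A B}

theorem MM_per (hd : d % 2 = 1) {j : ℕ} (hj : j ≤ t) (a : Fin 4) : Per t (MM d t φ A B j a) := by
  intro v m
  unfold MM xx
  rw [show A a * (v + m * 2 ^ t) + B a = (A a * v + B a) + (A a * m) * 2 ^ t by ring, od_per_le hd hj]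

theorem step4 (hd : d % 2 = 1) (hA : ∀ a, A a % 2 = 1) {j : ℕ} (hj : j < t) :
    pm t (fun v => ∏ a, MM d t φ A B (j + 1) a v)
      = pm t (fun v => ∏ a, MM d t φ A B j a v) + II d t φ A B j := by
  have hP : Per t (fun v => ∏ a, MM d t φ A B (j + 1) a v) := by
    intro v m
    apply prod_congr rfl
    intro a _
    exact MM_per hd (by omega) a v m
  have h1 := pm_shift hP (2 ^ j)
  have h2 : pm t (fun v => ∏ a, MM d t φ A B (j + 1) a v)
      = pm t (fun v => ((∏ a, MM d t φ A B (j + 1) a v) + ∏ a, MM d t φ A B (j + 1) a (v + 2 ^ j)) / 2) := by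
    have h3 : pm t (fun v => ((∏ a, MM d t φ A B (j + 1) a v) + ∏ a, MM d t φ A B (j + 1) a (v + 2 ^ j)) / 2)
        = pm t (fun v => (1 / 2) * ((∏ a, MM d t φ A B (j + 1) a v) + ∏ a, MM d t φ A B (j + 1) a (v + 2 ^ j))) := by
      apply pm_congr; intro v; ring
    rw [h3, pm_mul, pm_add, h1]; ring
  rw [h2]
  unfold II QQ RR
  simp only [← pm_add]
  apply pm_congr
  intro v
  have e1 : ∀ a, MM d t φ A B (j + 1) a v = MM d t φ A B j a v - ss d A B j a v * DD d t φ A B j a v / 2 := by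
    intro a
    unfold MM ss DD
    rw [show t - (j + 1) = t - j - 1 by omega, fac, show t - j - 1 + 1 = t - j by omega]
  have e2 : ∀ a, MM d t φ A B (j + 1) a (v + 2 ^ j)
      = MM d t φ A B j a v + ss d A B j a v * DD d t φ A B j a v / 2 := by
    intro a
    unfold MM ss DD
    rw [show t - (j + 1) = t - j - 1 by omega, show xx A B a (v + 2 ^ j) = xx A B a v + A a * 2 ^ j by
      unfold xx; ring, fac' hd _ _ _ _ (hA a), show t - j - 1 + 1 = t - j by omega]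
  simp only [e1, e2]
  rw [prod4]

theorem tele4 (hd : d % 2 = 1) (hA : ∀ a, A a % 2 = 1) : ∀ j, j ≤ t →
    pm t (fun v => ∏ a, MM d t φ A B j a v) = (∏ a, U t (φ a) 0) + ∑ i ∈ range j, II d t φ A B i := by
  intro j
  induction j with
  | zero =>
    intro _
    simp only [MM, od_zero, Nat.sub_zero, range_zero, sum_empty, add_zero]
    exact pm_const _ _
  | succ j ih =>
    intro hj
    rw [step4 hd hA (by omega), ih (by omega), sum_range_succ]; ring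

variable {δ₁ δ₂ : ℝ}

theorem MM_le (h0 : ∀ a n, |φ a n| ≤ 1) (j : ℕ) (a : Fin 4) (v : ℤ) : |MM d t φ A B j a v| ≤ 1 := U_le (h0 a) _ _

theorem DD_le (h1 : ∀ a n, |φ a (n + 1) - φ a n| ≤ δ₁) (j : ℕ) (a : Fin 4) (v : ℤ) :
    |DD d t φ A B j a v| ≤ δ₁ := Df_le (h1 a) _ _

theorem abs_ss (j : ℕ) (a : Fin 4) (v : ℤ) : |ss d A B j a v| = 1 := abs_sg _

theorem MM_block (h1 : ∀ a n, |φ a (n + 1) - φ a n| ≤ δ₁) {m i : ℕ} (h : m + i ≤ t) (a : Fin 4) (v : ℤ) :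
    |MM d t φ A B (m + i) a v - MM d t φ A B m a v| ≤ 3 / 2 * i * δ₁ := by
  have o1 := od_mono_add d m i (xx A B a v)
  have b1 := U_block (h1 a) (t - (m + i)) (od d m (xx A B a v)) (od d (m + i) (xx A B a v)) i o1.1 o1.2
  rw [show t - (m + i) + i = t - m by omega] at b1
  exact b1

theorem DD_block (h2 : ∀ a n, |φ a (n + 2) - 2 * φ a (n + 1) + φ a n| ≤ δ₂) {m i : ℕ} (h : m + i < t)
    (a : Fin 4) (v : ℤ) :
    |DD d t φ A B (m + i) a v - DD d t φ A B m a v| ≤ 3 / 2 * i * δ₂ := by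
  have o1 := od_mono_add d m i (xx A B a v)
  have b1 := Df_block (h2 a) (t - (m + i) - 1) (od d m (xx A B a v)) (od d (m + i) (xx A B a v)) i o1.1 o1.2
  rw [show t - (m + i) - 1 + i = t - m - 1 by omega] at b1
  exact b1

/-- difference of products of four numbers -/
theorem prod_diff {x y z w x' y' z' w' δ e1 e2 : ℝ} (hδ : 0 ≤ δ) (he1 : 0 ≤ e1) (he2 : 0 ≤ e2)
    (hy' : |y'| ≤ δ) (hz : |z| ≤ 1) (hw : |w| ≤ 1) (hz' : |z'| ≤ 1) (hy : |y| ≤ δ) (hx' : |x'| ≤ δ)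
    (h1 : |x - x'| ≤ e1) (h2 : |y - y'| ≤ e1) (h3 : |z - z'| ≤ e2) (h4 : |w - w'| ≤ e2) :
    |x * y * (z * w) - x' * y' * (z' * w')| ≤ 2 * (e1 * δ) + 2 * (e2 * δ ^ 2) := by
  have e : x * y * (z * w) - x' * y' * (z' * w')
      = (x - x') * y * (z * w) + x' * (y - y') * (z * w) + x' * y' * ((z - z') * w) + x' * y' * (z' * (w - w')) := by
    ring
  rw [e]
  have a1 : |(x - x') * y * (z * w)| ≤ e1 * δ := by
    rw [abs_mul, abs_mul, abs_mul]
    have := mul_le_mul h1 hy (abs_nonneg _) he1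
    have h5 : |z| * |w| ≤ 1 := mul_le_one₀ hz (abs_nonneg _) hw
    exact (mul_le_mul this h5 (by positivity) (by positivity)).trans (le_of_eq (mul_one _))
  have a2 : |x' * (y - y') * (z * w)| ≤ e1 * δ := by
    rw [abs_mul, abs_mul, abs_mul]
    have := mul_le_mul hx' h2 (abs_nonneg _) hδ
    have h5 : |z| * |w| ≤ 1 := mul_le_one₀ hz (abs_nonneg _) hw
    exact (mul_le_mul this h5 (by positivity) (by positivity)).trans (le_of_eq (by ring))
  have a3 : |x' * y' * ((z - z') * w)| ≤ e2 * δ ^ 2 := by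
    rw [abs_mul, abs_mul, abs_mul]
    have h6 := mul_le_mul hx' hy' (abs_nonneg _) hδ
    have h5 : |z - z'| * |w| ≤ e2 := (mul_le_mul h3 hw (abs_nonneg _) he2).trans (le_of_eq (mul_one _))
    exact (mul_le_mul h6 h5 (by positivity) (by positivity)).trans (le_of_eq (by ring))
  have a4 : |x' * y' * (z' * (w - w'))| ≤ e2 * δ ^ 2 := by
    rw [abs_mul, abs_mul, abs_mul]
    have h6 := mul_le_mul hx' hy' (abs_nonneg _) hδ
    have h5 : |z'| * |w - w'| ≤ e2 := (mul_le_mul hz' h4 (abs_nonneg _) zero_le_one).trans (le_of_eq (one_mul _))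
    exact (mul_le_mul h6 h5 (by positivity) (by positivity)).trans (le_of_eq (by ring))
  refine (abs_add_le _ _).trans ?_
  refine (add_le_add (abs_add_le _ _) le_rfl).trans ?_
  refine (add_le_add (add_le_add (abs_add_le _ _) le_rfl) le_rfl).trans ?_
  linarith

/-- a block of quadratic increments -/
theorem block4 (h0 : ∀ a n, |φ a n| ≤ 1) (h1 : ∀ a n, |φ a (n + 1) - φ a n| ≤ δ₁)
    (h2 : ∀ a n, |φ a (n + 2) - 2 * φ a (n + 1) + φ a n| ≤ δ₂) (a b c e : Fin 4) {m Λ : ℕ} (hm : m + Λ ≤ t) :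
    |∑ i ∈ range Λ, QQ d t φ A B (m + i) a b c e|
      ≤ 3 / 4 * Λ * Λ * (δ₁ * δ₂ + δ₁ ^ 3)
        + δ₁ ^ 2 / 4 * pm t (fun v => |∑ i ∈ range Λ, ss d A B (m + i) a v * ss d A B (m + i) b v|) := by
  have hδ1 : 0 ≤ δ₁ := (abs_nonneg _).trans (h1 0 0)
  have hδ2 : 0 ≤ δ₂ := (abs_nonneg _).trans (h2 0 0)
  unfold QQ
  rw [← pm_sum]
  refine (abs_pm_le _ _).trans ?_
  rw [← pm_mul]
  rw [← pm_const t (3 / 4 * Λ * Λ * (δ₁ * δ₂ + δ₁ ^ 3)), ← pm_add]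
  apply pm_mono
  intro v
  set s : ℕ → ℝ := fun i => ss d A B (m + i) a v * ss d A B (m + i) b v with hs
  have hs1 : ∀ i, |s i| = 1 := by intro i; rw [hs]; simp only []; rw [abs_mul, abs_ss, abs_ss, one_mul]
  set P : ℕ → ℝ := fun i => DD d t φ A B (m + i) a v * DD d t φ A B (m + i) b v *
    (MM d t φ A B (m + i) c v * MM d t φ A B (m + i) e v) with hP
  have hsplit : ∑ i ∈ range Λ, ss d A B (m + i) a v * ss d A B (m + i) b v *
      (DD d t φ A B (m + i) a v * DD d t φ A B (m + i) b v *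
        (MM d t φ A B (m + i) c v * MM d t φ A B (m + i) e v)) / 4
      = P 0 / 4 * (∑ i ∈ range Λ, s i) + ∑ i ∈ range Λ, s i * (P i - P 0) / 4 := by
    rw [mul_sum, ← sum_add_distrib]
    apply sum_congr rfl; intro i _
    simp only [hs, hP]; ring
  rw [hsplit]
  refine (abs_add_le _ _).trans ?_
  have t1 : |P 0 / 4 * (∑ i ∈ range Λ, s i)| ≤ δ₁ ^ 2 / 4 * |∑ i ∈ range Λ, s i| := by
    rw [abs_mul, abs_div, abs_of_pos (show (0 : ℝ) < 4 by norm_num)]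
    apply mul_le_mul_of_nonneg_right _ (abs_nonneg _)
    simp only [hP]
    rw [abs_mul, abs_mul, abs_mul]
    have u1 := mul_le_mul (DD_le (d := d) (t := t) (A := A) (B := B) h1 (m + 0) a v)
      (DD_le (d := d) (t := t) (A := A) (B := B) h1 (m + 0) b v) (abs_nonneg _) hδ1
    have u2 : |MM d t φ A B (m + 0) c v| * |MM d t φ A B (m + 0) e v| ≤ 1 :=
      mul_le_one₀ (MM_le h0 _ _ _) (abs_nonneg _) (MM_le h0 _ _ _)
    have u3 := mul_le_mul u1 u2 (by positivity) (by positivity)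
    rw [sq]; linarith
  have t2 : |∑ i ∈ range Λ, s i * (P i - P 0) / 4| ≤ 3 / 4 * Λ * Λ * (δ₁ * δ₂ + δ₁ ^ 3) := by
    refine (abs_sum_le_sum_abs _ _).trans ?_
    have hterm : ∀ i ∈ range Λ, |s i * (P i - P 0) / 4| ≤ 3 / 4 * Λ * (δ₁ * δ₂ + δ₁ ^ 3) := by
      intro i hi
      rw [mem_range] at hi
      rw [abs_div, abs_mul, hs1, one_mul, abs_of_pos (show (0 : ℝ) < 4 by norm_num)]
      have hi2 : (i : ℝ) ≤ Λ := by exact_mod_cast (show i ≤ Λ by omega)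
      have w1 : 3 / 2 * (i : ℝ) * δ₂ ≤ 3 / 2 * Λ * δ₂ := by
        apply mul_le_mul_of_nonneg_right _ hδ2; linarith
      have w2 : 3 / 2 * (i : ℝ) * δ₁ ≤ 3 / 2 * Λ * δ₁ := by
        apply mul_le_mul_of_nonneg_right _ hδ1; linarith
      have b1 := (DD_block (d := d) (t := t) (A := A) (B := B) h2 (show m + i < t by omega) a v).trans w1
      have b2 := (DD_block (d := d) (t := t) (A := A) (B := B) h2 (show m + i < t by omega) b v).trans w1
      have b3 := (MM_block (d := d) (t := t) (A := A) (B := B) h1 (show m + i ≤ t by omega) c v).trans w2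
      have b4 := (MM_block (d := d) (t := t) (A := A) (B := B) h1 (show m + i ≤ t by omega) e v).trans w2
      have b5 := prod_diff hδ1 (by positivity) (by positivity) (DD_le h1 m b v)
        (MM_le h0 (m + i) c v) (MM_le h0 (m + i) e v) (MM_le h0 m c v) (DD_le h1 (m + i) b v) (DD_le h1 m a v)
        b1 b2 b3 b4
      simp only [hP, add_zero]
      nlinarith
    refine (sum_le_sum hterm).trans ?_
    rw [sum_const, card_range, nsmul_eq_mul]
    apply le_of_eq; ring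
  linarith

/-- trivial bound for one quadratic increment -/
theorem QQ_le (h0 : ∀ a n, |φ a n| ≤ 1) (h1 : ∀ a n, |φ a (n + 1) - φ a n| ≤ δ₁) (j : ℕ) (a b c e : Fin 4) :
    |QQ d t φ A B j a b c e| ≤ δ₁ ^ 2 / 4 := by
  have hδ1 : 0 ≤ δ₁ := (abs_nonneg _).trans (h1 0 0)
  apply pm_abs
  intro v
  rw [abs_div, abs_mul, abs_mul, abs_ss, abs_ss, abs_of_pos (show (0 : ℝ) < 4 by norm_num), abs_mul, abs_mul,
    abs_mul]
  have u1 := mul_le_mul (DD_le (d := d) (t := t) (A := A) (B := B) h1 j a v)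
    (DD_le (d := d) (t := t) (A := A) (B := B) h1 j b v) (abs_nonneg _) hδ1
  have u2 : |MM d t φ A B j c v| * |MM d t φ A B j e v| ≤ 1 :=
    mul_le_one₀ (MM_le h0 _ _ _) (abs_nonneg _) (MM_le h0 _ _ _)
  have u3 := mul_le_mul u1 u2 (by positivity) (by positivity)
  rw [sq]; linarith

theorem RR_le (h1 : ∀ a n, |φ a (n + 1) - φ a n| ≤ δ₁) (hδ : δ₁ ≤ 1) (j : ℕ) :
    |RR d t φ A B j| ≤ δ₁ ^ 3 / 16 := by
  have hδ1 : 0 ≤ δ₁ := (abs_nonneg _).trans (h1 0 0)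
  apply pm_abs
  intro v
  rw [abs_div, abs_mul, abs_mul, abs_mul, abs_mul, abs_ss, abs_ss, abs_ss, abs_ss,
    abs_of_pos (show (0 : ℝ) < 16 by norm_num), abs_mul, abs_mul, abs_mul]
  have u1 := mul_le_mul (DD_le (d := d) (t := t) (A := A) (B := B) h1 j 0 v)
    (DD_le (d := d) (t := t) (A := A) (B := B) h1 j 1 v) (abs_nonneg _) hδ1
  have u2 := mul_le_mul (DD_le (d := d) (t := t) (A := A) (B := B) h1 j 2 v)
    ((DD_le (d := d) (t := t) (A := A) (B := B) h1 j 3 v).trans hδ) (abs_nonneg _) hδ1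
  have u3 := mul_le_mul u1 u2 (by positivity) (by positivity)
  have e : δ₁ * δ₁ * (δ₁ * 1) = δ₁ ^ 3 := by ring
  rw [e] at u3
  linarith

/-- sum of all quadratic increments of a pair -/
theorem pair4 (h0 : ∀ a n, |φ a n| ≤ 1) (h1 : ∀ a n, |φ a (n + 1) - φ a n| ≤ δ₁)
    (h2 : ∀ a n, |φ a (n + 2) - 2 * φ a (n + 1) + φ a n| ≤ δ₂) (a b c e : Fin 4) {Λ : ℕ} (hΛ : 1 ≤ Λ) :
    |∑ j ∈ range t, QQ d t φ A B j a b c e|
      ≤ 3 / 4 * t * Λ * (δ₁ * δ₂ + δ₁ ^ 3) + Λ * δ₁ ^ 2 / 4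
        + δ₁ ^ 2 / 4 * ∑ q ∈ range (t / Λ), pm t (fun v => |∑ j ∈ range Λ,
            sg ((Tz d)^[q * Λ + j] (A a * v + B a)) * sg ((Tz d)^[q * Λ + j] (A b * v + B b))|) := by
  have hδ1 : 0 ≤ δ₁ := (abs_nonneg _).trans (h1 0 0)
  have hδ2 : 0 ≤ δ₂ := (abs_nonneg _).trans (h2 0 0)
  have hfull : ∀ q : ℕ, q * Λ ≤ t → |∑ j ∈ range (q * Λ), QQ d t φ A B j a b c e|
      ≤ 3 / 4 * ((q * Λ : ℕ) : ℝ) * Λ * (δ₁ * δ₂ + δ₁ ^ 3)
        + δ₁ ^ 2 / 4 * ∑ q ∈ range q, pm t (fun v => |∑ j ∈ range Λ,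
            sg ((Tz d)^[q * Λ + j] (A a * v + B a)) * sg ((Tz d)^[q * Λ + j] (A b * v + B b))|) := by
    intro q
    induction q with
    | zero => intro _; simp
    | succ q ih =>
      intro hq
      have hq' : q * Λ + Λ ≤ t := by rw [Nat.succ_mul] at hq; exact hq
      have i1 := ih (by omega)
      have i2 := block4 (d := d) (t := t) (A := A) (B := B) h0 h1 h2 a b c e hq'
      rw [Nat.succ_mul, sum_range_add, sum_range_succ]
      refine (abs_add_le _ _).trans ?_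
      have h3 : ((q * Λ + Λ : ℕ) : ℝ) = ((q * Λ : ℕ) : ℝ) + Λ := by push_cast; ring
      rw [h3]
      unfold ss xx at i2
      nlinarith
  set q := t / Λ with hq
  set r := t % Λ with hr
  have hqr : q * Λ + r = t := by rw [hq, hr]; exact Nat.div_add_mod' t Λ
  have hrΛ : r < Λ := Nat.mod_lt _ hΛ
  have i1 := hfull q (by omega)
  have i2 : |∑ i ∈ range r, QQ d t φ A B (q * Λ + i) a b c e| ≤ Λ * δ₁ ^ 2 / 4 := by
    refine (abs_sum_le_sum_abs _ _).trans ?_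
    refine (sum_le_sum fun i _ => QQ_le (d := d) (t := t) (A := A) (B := B) h0 h1 (q * Λ + i) a b c e).trans ?_
    rw [sum_const, card_range, nsmul_eq_mul]
    have h5 : (r : ℝ) ≤ Λ := by exact_mod_cast hrΛ.le
    have h6 : 0 ≤ δ₁ ^ 2 / 4 := by positivity
    nlinarith
  have e1 : ∑ j ∈ range t, QQ d t φ A B j a b c e
      = ∑ j ∈ range (q * Λ), QQ d t φ A B j a b c e + ∑ i ∈ range r, QQ d t φ A B (q * Λ + i) a b c e := by
    rw [← sum_range_add, hqr]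
  rw [e1]
  refine (abs_add_le _ _).trans ?_
  have hqt : ((q * Λ : ℕ) : ℝ) ≤ t := by exact_mod_cast (show q * Λ ≤ t by omega)
  have h7 : 3 / 4 * ((q * Λ : ℕ) : ℝ) * Λ * (δ₁ * δ₂ + δ₁ ^ 3) ≤ 3 / 4 * t * Λ * (δ₁ * δ₂ + δ₁ ^ 3) := by
    apply mul_le_mul_of_nonneg_right _ (by positivity)
    apply mul_le_mul_of_nonneg_right _ (by positivity)
    linarith
  linarith

end FW

/-- **FOUR WALKERS.** -/
theorem fw (d : ℤ) (hd : d % 2 = 1) : S_4W d := by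
  refine ⟨5, by norm_num, ?_⟩
  intro t Λ hΛ1 hΛ φ δ₁ δ₂ hδ h0 h1 h2 A B hA
  have hδ1 : 0 ≤ δ₁ := (abs_nonneg _).trans (h1 0 0)
  have hδ2 : 0 ≤ δ₂ := (abs_nonneg _).trans (h2 0 0)
  have hT := FW.tele4 (d := d) (t := t) (φ := φ) (A := A) (B := B) hd hA t le_rfl
  simp only [FW.MM, Nat.sub_self, U_zero, FW.xx] at hT
  rw [hT]
  simp only [pm_od hd]
  rw [add_sub_cancel_left]
  set W : Fin 4 → Fin 4 → ℝ := fun a b => ∑ q ∈ range (t / Λ), pm t (fun v => |∑ j ∈ range Λ,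
        sg ((Tz d)^[q * Λ + j] (A a * v + B a)) * sg ((Tz d)^[q * Λ + j] (A b * v + B b))|) with hW
  have hW0 : ∀ a b, 0 ≤ W a b := by
    intro a b
    simp only [hW]
    exact sum_nonneg fun q _ => pm_nonneg fun v => abs_nonneg _
  have hsum : (∑ a, ∑ b, if a < b then W a b else 0) = W 0 1 + W 0 2 + W 0 3 + W 1 2 + W 1 3 + W 2 3 := by
    simp only [Fin.sum_univ_four]
    simp [Fin.lt_def]
    ring
  have hp : ∀ a b c e : Fin 4, |∑ j ∈ range t, FW.QQ d t φ A B j a b c e|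
      ≤ 3 / 4 * t * Λ * (δ₁ * δ₂ + δ₁ ^ 3) + Λ * δ₁ ^ 2 / 4 + δ₁ ^ 2 / 4 * W a b := by
    intro a b c e
    exact FW.pair4 h0 h1 h2 a b c e hΛ1
  have hR : |∑ j ∈ range t, FW.RR d t φ A B j| ≤ t * (δ₁ ^ 3 / 16) := by
    refine (abs_sum_le_sum_abs _ _).trans ?_
    refine (sum_le_sum fun i _ => FW.RR_le (d := d) (t := t) (A := A) (B := B) h1 hδ i).trans ?_
    rw [sum_const, card_range, nsmul_eq_mul]
  have hR2 : (t : ℝ) * (δ₁ ^ 3 / 16) ≤ t * Λ * (δ₁ * δ₂ + δ₁ ^ 3) / 16 := by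
    have hΛ' : (1 : ℝ) ≤ Λ := by exact_mod_cast hΛ1
    have h5 : (t : ℝ) * δ₁ ^ 3 ≤ t * Λ * (δ₁ * δ₂ + δ₁ ^ 3) := by
      have h6 : (t : ℝ) * δ₁ ^ 3 * 1 ≤ (t * δ₁ ^ 3) * Λ := mul_le_mul_of_nonneg_left hΛ' (by positivity)
      have h7 : 0 ≤ (t : ℝ) * Λ * (δ₁ * δ₂) := by positivity
      nlinarith
    linarith
  have hsplit : ∑ j ∈ range t, FW.II d t φ A B j
      = ∑ j ∈ range t, FW.QQ d t φ A B j 0 1 2 3 + ∑ j ∈ range t, FW.QQ d t φ A B j 0 2 1 3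
        + ∑ j ∈ range t, FW.QQ d t φ A B j 0 3 1 2 + ∑ j ∈ range t, FW.QQ d t φ A B j 1 2 0 3
        + ∑ j ∈ range t, FW.QQ d t φ A B j 1 3 0 2 + ∑ j ∈ range t, FW.QQ d t φ A B j 2 3 0 1
        + ∑ j ∈ range t, FW.RR d t φ A B j := by
    unfold FW.II
    simp only [sum_add_distrib]
  have hsum' : (∑ a, ∑ b, if a < b then ∑ q ∈ range (t / Λ), pm t (fun v => |∑ j ∈ range Λ,
        sg ((Tz d)^[q * Λ + j] (A a * v + B a)) * sg ((Tz d)^[q * Λ + j] (A b * v + B b))|) else 0)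
      = W 0 1 + W 0 2 + W 0 3 + W 1 2 + W 1 3 + W 2 3 := hsum
  rw [hsum', hsplit]
  have g1 := abs_le.1 (hp 0 1 2 3)
  have g2 := abs_le.1 (hp 0 2 1 3)
  have g3 := abs_le.1 (hp 0 3 1 2)
  have g4 := abs_le.1 (hp 1 2 0 3)
  have g5 := abs_le.1 (hp 1 3 0 2)
  have g6 := abs_le.1 (hp 2 3 0 1)
  have g7 := abs_le.1 (hR.trans hR2)
  set WW := W 0 1 + W 0 2 + W 0 3 + W 1 2 + W 1 3 + W 2 3 with hWW
  have hWW0 : 0 ≤ WW := by
    rw [hWW]
    have := hW0 0 1; have := hW0 0 2; have := hW0 0 3; have := hW0 1 2; have := hW0 1 3; have := hW0 2 3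
    linarith
  have k1 : 0 ≤ (t : ℝ) * Λ * (δ₁ * δ₂ + δ₁ ^ 3) := by positivity
  have k2 : 0 ≤ (Λ : ℝ) * δ₁ ^ 2 := by positivity
  have k3 : 0 ≤ δ₁ ^ 2 * WW := by positivity
  set T := (t : ℝ) * Λ * (δ₁ * δ₂ + δ₁ ^ 3) with hTT
  have e1 : 3 / 4 * (t : ℝ) * Λ * (δ₁ * δ₂ + δ₁ ^ 3) = 3 / 4 * T := by rw [hTT]; ring
  rw [e1] at g1 g2 g3 g4 g5 g6
  have e2 : δ₁ ^ 2 / 4 * W 0 1 + δ₁ ^ 2 / 4 * W 0 2 + δ₁ ^ 2 / 4 * W 0 3 + δ₁ ^ 2 / 4 * W 1 2
      + δ₁ ^ 2 / 4 * W 1 3 + δ₁ ^ 2 / 4 * W 2 3 = δ₁ ^ 2 * WW / 4 := by rw [hWW]; ring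
  rw [abs_le]
  constructor
  · linarith [g1.1, g2.1, g3.1, g4.1, g5.1, g6.1, g7.1]
  · linarith [g1.2, g2.2, g3.2, g4.2, g5.2, g6.2, g7.2]

end Pool.Agent.KS6_24.ST
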