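import Mathlib
import Pool.Agent.KS6_24.ST.Defs
import Pool.Agent.KS6_24.LN.Co2
import Pool.Agent.KS6_24.LN.CI
import Pool.Agent.KS6_24.LN.FinA
import Pool.Agent.KS6_24.LN.Par

/-! J6 (helper56): the energy in the vertical clock `y, 3 y, 9 y, ...`. -/

set_option autoImplicit false

namespace Pool.Agent.KS6_24.ST

open Pool.Agent.H499R2.CO Pool.Agent.Y965.SI Finset Pool.Agent.KS6_24.LN MeasureTheory

/-! ### neighbouring powers of 3 -/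

theorem tele_le (F : ℕ → ℝ) {p q a b : ℕ} (ha : p ≤ a) (ha' : a ≤ q) (hb : p ≤ b) (hb' : b ≤ q) :
    |F a - F b| ≤ ∑ c ∈ Ico p q, |F (c + 1) - F c| := by
  have key : ∀ m n : ℕ, m ≤ n → p ≤ m → n ≤ q → |F n - F m| ≤ ∑ c ∈ Ico p q, |F (c + 1) - F c| := by
    intro m n hmn hpm hnq
    have h1 := dist_le_Ico_sum_dist F hmn
    rw [Real.dist_eq, abs_sub_comm] at h1
    refine h1.trans ?_
    have h2 : ∑ i ∈ Ico m n, dist (F i) (F (i + 1)) = ∑ i ∈ Ico m n, |F (i + 1) - F i| := by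
      apply sum_congr rfl; intro i _; rw [Real.dist_eq, abs_sub_comm]
    rw [h2]
    exact sum_le_sum_of_subset_of_nonneg (Ico_subset_Ico hpm hnq) fun _ _ _ => abs_nonneg _
  rcases le_total b a with h | h
  · exact key b a h hb ha'
  · rw [abs_sub_comm]; exact key a b h ha hb'

theorem three_step {d : ℤ} {C1 : ℝ}
    (hci : ∀ f : ℤ → ℝ, InvF d f → ∀ R : ℕ, 1 ≤ R → ∀ V : ℝ, 2 ^ R ≤ V →
      ∀ (i u : ℕ) (h : ℝ), |h| ≤ 4 ^ u → av V (fun y => |f ⌊y⌋ - f ⌊3 ^ i * y + h⌋|) ≤ C1 * √ (1 + (i : ℝ) ^ 2 + u) * rho R)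
    (hC1 : 0 < C1) {f : ℤ → ℝ} (hf : InvF d f) {R : ℕ} (hR : 1 ≤ R) {V : ℝ} (hV : 2 ^ R ≤ V) :
    av V (fun y => |f ⌊3 * y⌋ - f ⌊y⌋|) ≤ 2 * C1 * rho R := by
  have h := hci f hf R hR V hV 1 0 0 (by simp)
  have e : (fun y : ℝ => |f ⌊3 * y⌋ - f ⌊y⌋|) = fun y => |f ⌊y⌋ - f ⌊3 ^ 1 * y + 0⌋| := by
    funext y; rw [abs_sub_comm, pow_one, add_zero]
  rw [e]
  refine h.trans ?_
  have h2 : √ (1 + ((1 : ℕ) : ℝ) ^ 2 + ((0 : ℕ) : ℝ)) ≤ 2 := by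
    rw [Real.sqrt_le_left (by norm_num)]; norm_num
  calc C1 * √ (1 + ((1 : ℕ) : ℝ) ^ 2 + ((0 : ℕ) : ℝ)) * rho R ≤ C1 * 2 * rho R :=
        mul_le_mul_of_nonneg_right (mul_le_mul_of_nonneg_left h2 hC1.le) (rho_nonneg R)
    _ = _ := by ring

theorem three_step' {d : ℤ} {C1 : ℝ}
    (hci : ∀ f : ℤ → ℝ, InvF d f → ∀ R : ℕ, 1 ≤ R → ∀ V : ℝ, 2 ^ R ≤ V →
      ∀ (i u : ℕ) (h : ℝ), |h| ≤ 4 ^ u → av V (fun y => |f ⌊y⌋ - f ⌊3 ^ i * y + h⌋|) ≤ C1 * √ (1 + (i : ℝ) ^ 2 + u) * rho R)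
    (hC1 : 0 < C1) {f : ℤ → ℝ} (hf : InvF d f) {R τ : ℕ} (hR : 1 ≤ R) {V : ℝ} (hV : 2 ^ (τ + R) ≤ V) (c : ℕ) :
    av V (fun y => |f ⌊3 ^ (c + 1) * y / 2 ^ τ⌋ - f ⌊3 ^ c * y / 2 ^ τ⌋|) ≤ 2 * C1 * rho R := by
  have h2t : (0 : ℝ) < 2 ^ (τ + R) := by positivity
  have hV0 : 0 < V := by linarith
  have e : (fun y : ℝ => |f ⌊3 ^ (c + 1) * y / 2 ^ τ⌋ - f ⌊3 ^ c * y / 2 ^ τ⌋|)
      = fun y => (fun w => |f ⌊3 * w⌋ - f ⌊w⌋|) ((3 ^ c / 2 ^ τ) * y) := by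
    funext y
    simp only
    congr 3
    · congr 1; rw [pow_succ]; ring
    · congr 1; ring
  have hsc := av_scale hV0 (θ := 3 ^ c / 2 ^ τ) (by positivity) (fun w : ℝ => |f ⌊3 * w⌋ - f ⌊w⌋|)
  rw [e]
  refine le_of_eq_of_le hsc ?_
  apply three_step hci hC1 hf hR
  have h3 : (1 : ℝ) ≤ 3 ^ c := one_le_pow₀ (by norm_num)
  have h4 : (2 : ℝ) ^ R = 1 / 2 ^ τ * 2 ^ (τ + R) := by rw [pow_add]; field_simp
  rw [h4]
  calc 1 / (2 : ℝ) ^ τ * 2 ^ (τ + R) ≤ 1 / 2 ^ τ * V := mul_le_mul_of_nonneg_left hV (by positivity)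
    _ ≤ 3 ^ c / 2 ^ τ * V := by
        apply mul_le_mul_of_nonneg_right _ hV0.le
        exact div_le_div_of_nonneg_right h3 (by positivity)

/-- the value at `y` is close to the value at `3 ^ (τ / 2) y / 2 ^ τ` -/
theorem middle {d : ℤ} (hd : d = 1 ∨ d = -1) {C0 C1 : ℝ} (hC0 : 0 < C0) (hC1 : 0 < C1)
    (hco : ∀ f : ℤ → ℝ, InvF d f → ∀ t R e : ℕ, 1 ≤ R → ∀ V : ℝ,
      2 ^ (t + R) ≤ V →
        av V (fun y => |f ⌊y⌋ - f ⌊3 ^ (od d t ⌊y⌋ + e) * y / 2 ^ t⌋|) ≤ C0 * (1 + e) * rho R)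
    (hci : ∀ f : ℤ → ℝ, InvF d f → ∀ R : ℕ, 1 ≤ R → ∀ V : ℝ, 2 ^ R ≤ V →
      ∀ (i u : ℕ) (h : ℝ), |h| ≤ 4 ^ u → av V (fun y => |f ⌊y⌋ - f ⌊3 ^ i * y + h⌋|) ≤ C1 * √ (1 + (i : ℝ) ^ 2 + u) * rho R)
    {f : ℤ → ℝ} (hf : InvF d f) {τ R B : ℕ} (hR : 1 ≤ R) (hB : 1 ≤ B) {V : ℝ} (hV : 2 ^ (τ + R) ≤ V) :
    av V (fun y => |f ⌊y⌋ - f ⌊3 ^ (τ / 2) * y / 2 ^ τ⌋|) ≤ (C0 + 4 * C1) * B * rho R + 2 * τ / (B : ℝ) ^ 2 := by
  classical
  have hd2 : d % 2 = 1 := by rcases hd with rfl | rfl <;> decide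
  have hfb := hf.1
  have hB' : (0 : ℝ) < B := by exact_mod_cast hB
  have hB1 : (1 : ℝ) ≤ B := by exact_mod_cast hB
  have h2t : (1 : ℝ) ≤ 2 ^ (τ + R) := one_le_pow₀ (by norm_num)
  have hV0 : 0 < V := by linarith
  have hρ := rho_nonneg R
  have bf : Bd 1 (fun y : ℝ => f ⌊y⌋) := Bd.fl hfb
  have bg : ∀ c : ℕ, Bd 1 (fun y : ℝ => f ⌊3 ^ c * y / 2 ^ τ⌋) := fun c => Bd.flc hfb (by fun_prop)
  set X : ℤ → ℝ := fun x => if (B : ℝ) < |(od d τ x : ℝ) - τ / 2| then (1 : ℝ) else 0 with hX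
  have hX0 : ∀ x, 0 ≤ X x := fun x => by rw [hX]; simp only; split_ifs <;> norm_num
  have hX1 : ∀ x, |X x| ≤ 1 := fun x => by rw [hX]; simp only; split_ifs <;> norm_num
  have hXp : Per τ X := fun x m => by rw [hX]; simp only; rw [od_per hd2]
  have bX : Bd 1 (fun y : ℝ => X ⌊y⌋) := Bd.fl hX1
  set I : Finset ℕ := Ico (τ / 2 - B) (τ / 2 + B) with hI
  have hIc : (#I : ℝ) ≤ 2 * B := by
    have : #I ≤ 2 * B := by rw [hI, Nat.card_Ico]; omega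
    exact_mod_cast this
  set S : ℝ → ℝ := fun y => ∑ c ∈ I, |f ⌊3 ^ (c + 1) * y / 2 ^ τ⌋ - f ⌊3 ^ c * y / 2 ^ τ⌋| with hS
  have bS1 : ∀ c, Bd (1 + 1) (fun y : ℝ => |f ⌊3 ^ (c + 1) * y / 2 ^ τ⌋ - f ⌊3 ^ c * y / 2 ^ τ⌋|) :=
    fun c => ((bg (c + 1)).sub (bg c)).abs
  have bS : Bd (∑ c ∈ I, (1 + 1)) S := Bd.sum fun c _ => bS1 c
  have bY : Bd (1 + 1) (fun y : ℝ => |f ⌊y⌋ - f ⌊3 ^ (od d τ ⌊y⌋ + 0) * y / 2 ^ τ⌋|) := (bf.sub (foB hfb d τ 0)).abs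
  have hpt : ∀ y : ℝ, |f ⌊y⌋ - f ⌊3 ^ (τ / 2) * y / 2 ^ τ⌋|
      ≤ (|f ⌊y⌋ - f ⌊3 ^ (od d τ ⌊y⌋ + 0) * y / 2 ^ τ⌋| + S y) + 2 * X ⌊y⌋ := by
    intro y
    have h1 : |f ⌊3 ^ (od d τ ⌊y⌋ + 0) * y / 2 ^ τ⌋ - f ⌊3 ^ (τ / 2) * y / 2 ^ τ⌋| ≤ S y + 2 * X ⌊y⌋ := by
      have hS0 : 0 ≤ S y := sum_nonneg fun _ _ => abs_nonneg _
      rw [hX]
      simp only
      split_ifs with h
      · have a1 := abs_sub (f ⌊3 ^ (od d τ ⌊y⌋ + 0) * y / 2 ^ τ⌋) (f ⌊3 ^ (τ / 2) * y / 2 ^ τ⌋)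
        have a2 := hfb ⌊3 ^ (od d τ ⌊y⌋ + 0) * y / 2 ^ τ⌋
        have a3 := hfb ⌊3 ^ (τ / 2) * y / 2 ^ τ⌋
        linarith
      · push Not at h
        rw [abs_le] at h
        obtain ⟨h3, h4⟩ := h
        have h5 : (τ : ℝ) ≤ 2 * (od d τ ⌊y⌋ : ℝ) + 2 * B := by linarith
        have h6 : 2 * (od d τ ⌊y⌋ : ℝ) ≤ τ + 2 * B := by linarith
        have h5' : τ ≤ 2 * od d τ ⌊y⌋ + 2 * B := by exact_mod_cast h5
        have h6' : 2 * od d τ ⌊y⌋ ≤ τ + 2 * B := by exact_mod_cast h6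
        have := tele_le (fun c => f ⌊3 ^ c * y / 2 ^ τ⌋) (p := τ / 2 - B) (q := τ / 2 + B)
          (a := od d τ ⌊y⌋ + 0) (b := τ / 2) (by omega) (by omega) (by omega) (by omega)
        have h9 : |f ⌊3 ^ (od d τ ⌊y⌋ + 0) * y / 2 ^ τ⌋ - f ⌊3 ^ (τ / 2) * y / 2 ^ τ⌋| ≤ S y := this
        linarith
    have h2 := abs_sub_le (f ⌊y⌋) (f ⌊3 ^ (od d τ ⌊y⌋ + 0) * y / 2 ^ τ⌋) (f ⌊3 ^ (τ / 2) * y / 2 ^ τ⌋)
    linarith
  have h1 : av V (fun y => |f ⌊y⌋ - f ⌊3 ^ (τ / 2) * y / 2 ^ τ⌋|)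
      ≤ (av V (fun y => |f ⌊y⌋ - f ⌊3 ^ (od d τ ⌊y⌋ + 0) * y / 2 ^ τ⌋|) + av V S) + 2 * av V (fun y => X ⌊y⌋) := by
    rw [← av_add V bY bS, ← av_cmul, ← av_add V (bY.add bS) (bX.cmul 2)]
    exact av_mono hV0 (bf.sub (bg (τ / 2))).abs ((bY.add bS).add (bX.cmul 2)) fun y _ _ => hpt y
  have hXav : av V (fun y => X ⌊y⌋) ≤ τ / (B : ℝ) ^ 2 := by
    have h2 := av_per hXp hX0 hX1 (V := V) (le_trans (pow_le_pow_right₀ (by norm_num) (by omega)) hV)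
    have h3 := cheb hd2 τ hB'
    have h4 : 4 * ((τ : ℝ) / (4 * (B : ℝ) ^ 2)) = τ / (B : ℝ) ^ 2 := by field_simp
    linarith
  have hSav : av V S ≤ 4 * C1 * B * rho R := by
    rw [hS, av_sum V fun c _ => bS1 c]
    calc ∑ c ∈ I, av V (fun y => |f ⌊3 ^ (c + 1) * y / 2 ^ τ⌋ - f ⌊3 ^ c * y / 2 ^ τ⌋|)
        ≤ ∑ c ∈ I, 2 * C1 * rho R := sum_le_sum fun c _ => three_step' hci hC1 hf hR hV c
      _ = #I * (2 * C1 * rho R) := by rw [sum_const, nsmul_eq_mul]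
      _ ≤ (2 * B) * (2 * C1 * rho R) := mul_le_mul_of_nonneg_right hIc (by positivity)
      _ = _ := by ring
  have hYav := hco f hf τ R 0 hR V hV
  have h7 : C0 * (1 + ((0 : ℕ) : ℝ)) * rho R ≤ C0 * B * rho R := by
    apply mul_le_mul_of_nonneg_right _ hρ
    apply mul_le_mul_of_nonneg_left _ hC0.le
    push_cast; linarith
  have h8 : 2 * ((τ : ℝ) / (B : ℝ) ^ 2) = 2 * τ / (B : ℝ) ^ 2 := by ring
  have h9 : (C0 + 4 * C1) * B * rho R = C0 * B * rho R + 4 * C1 * B * rho R := by ring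
  rw [h9, ← h8]
  linarith [hYav.trans h7]

/-! ### change of the clock -/

theorem int_range (g : ℤ → ℝ) (hg : ∀ x, |g x| ≤ 1) (K : ℕ) :
    ∫ s in (0 : ℝ)..K, g ⌊s⌋ = ∑ i ∈ range K, g i := by
  have h := intervalIntegral.sum_integral_adjacent_intervals (a := fun k : ℕ => (k : ℝ)) (μ := volume)
    (f := fun y => g ⌊y⌋) (n := K) (fun k _ => (Bd.fl hg).ii _ _)
  rw [Nat.cast_zero] at h
  rw [← h]
  exact sum_congr rfl fun n _ => int_floor_step g n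

theorem reclock {F : ℕ → ℝ} (hF : ∀ i, |F i| ≤ 1) {κ : ℝ} (h0 : 0 < κ) (h1 : κ < 1) {j : ℕ → ℕ}
    (hj : ∀ e, κ * e ≤ j e ∧ (j e : ℝ) ≤ κ * e + 1) {K E : ℕ} (hE : (K : ℝ) ≤ κ * E) (hE' : κ * E ≤ K + 1) :
    |∑ i ∈ range K, F i| ≤ κ * (|∑ e ∈ range E, F (j e)| + ∑ e ∈ range E, |F (⌊κ * e⌋₊ + 1) - F ⌊κ * e⌋₊|) + 1 := by
  set g : ℤ → ℝ := fun x => F x.toNat with hg
  have hgb : ∀ x, |g x| ≤ 1 := fun x => hF _
  have bg : Bd 1 (fun s : ℝ => g ⌊s⌋) := Bd.fl hgb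
  have bg' : Bd 1 (fun u : ℝ => g ⌊κ * u⌋) := Bd.flc hgb (by fun_prop)
  have e1 : ∫ s in (0 : ℝ)..K, g ⌊s⌋ = ∑ i ∈ range K, F i := by
    rw [int_range g hgb K]; exact sum_congr rfl fun i _ => by rw [hg]; simp
  have e2 : ∫ u in (0 : ℝ)..E, g ⌊κ * u⌋ = κ⁻¹ * ∫ s in (0 : ℝ)..(κ * E), g ⌊s⌋ := by
    have := intervalIntegral.integral_comp_mul_left (a := 0) (b := (E : ℝ)) (fun s => g ⌊s⌋) h0.ne'
    rw [this, smul_eq_mul, mul_zero]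
  have e3 : (∫ s in (0 : ℝ)..(κ * E), g ⌊s⌋) = (∫ s in (0 : ℝ)..K, g ⌊s⌋) + ∫ s in (K : ℝ)..(κ * E), g ⌊s⌋ :=
    (intervalIntegral.integral_add_adjacent_intervals (bg.ii _ _) (bg.ii _ _)).symm
  have h3 : |∫ s in (K : ℝ)..(κ * E), g ⌊s⌋| ≤ 1 := by
    have := intervalIntegral.norm_integral_le_of_norm_le_const (a := (K : ℝ)) (b := κ * E)
      (f := fun s => g ⌊s⌋) (C := 1) fun x _ => by rw [Real.norm_eq_abs]; exact hgb _
    rw [Real.norm_eq_abs, abs_of_nonneg (by linarith : 0 ≤ κ * E - (K : ℝ))] at this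
    linarith
  have e4 : ∫ u in (0 : ℝ)..E, g ⌊κ * u⌋ = ∑ e ∈ range E, ∫ u in ((e : ℕ) : ℝ)..((e + 1 : ℕ) : ℝ), g ⌊κ * u⌋ := by
    have h := intervalIntegral.sum_integral_adjacent_intervals (a := fun k : ℕ => (k : ℝ)) (μ := volume)
      (f := fun y => g ⌊κ * y⌋) (n := E) (fun k _ => bg'.ii _ _)
    rw [Nat.cast_zero] at h
    rw [← h]
  have h5 : ∀ e : ℕ, |(∫ u in ((e : ℕ) : ℝ)..((e + 1 : ℕ) : ℝ), g ⌊κ * u⌋) - F (j e)|
      ≤ |F (⌊κ * e⌋₊ + 1) - F ⌊κ * e⌋₊| := by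
    intro e
    have hc : (∫ u in ((e : ℕ) : ℝ)..((e + 1 : ℕ) : ℝ), g ⌊κ * u⌋) - F (j e)
        = ∫ u in ((e : ℕ) : ℝ)..((e + 1 : ℕ) : ℝ), (g ⌊κ * u⌋ - F (j e)) := by
      rw [intervalIntegral.integral_sub (bg'.ii _ _) (by simp), intervalIntegral.integral_const, smul_eq_mul]
      push_cast; ring
    rw [hc]
    have := intervalIntegral.norm_integral_le_of_norm_le_const (a := ((e : ℕ) : ℝ)) (b := ((e + 1 : ℕ) : ℝ))
      (f := fun u => g ⌊κ * u⌋ - F (j e)) (C := |F (⌊κ * e⌋₊ + 1) - F ⌊κ * e⌋₊|) (by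
        intro u hu
        rw [Set.uIoc_of_le (by push_cast; linarith)] at hu
        obtain ⟨hu1, hu2⟩ := hu
        push_cast at hu2
        rw [Real.norm_eq_abs]
        set n := ⌊κ * (e : ℝ)⌋₊ with hn
        have he0 : (0 : ℝ) ≤ e := Nat.cast_nonneg _
        have hn1 : (n : ℝ) ≤ κ * e := Nat.floor_le (by positivity)
        have hn2 : κ * e < n + 1 := Nat.lt_floor_add_one _
        have hu3 : κ * e ≤ κ * u := mul_le_mul_of_nonneg_left hu1.le h0.le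
        have hu4 : κ * u < κ * e + 1 := by nlinarith
        have a1 : ⌊κ * u⌋.toNat = n ∨ ⌊κ * u⌋.toNat = n + 1 := by
          have b1 : (n : ℤ) ≤ ⌊κ * u⌋ := by rw [Int.le_floor]; push_cast; linarith
          have b2 : ⌊κ * u⌋ < (n : ℤ) + 2 := by rw [Int.floor_lt]; push_cast; linarith
          omega
        have a2 : j e = n ∨ j e = n + 1 := by
          obtain ⟨c1, c2⟩ := hj e
          have b1 : n ≤ j e := by
            have : (n : ℝ) ≤ j e := by linarith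
            exact_mod_cast this
          have b2 : j e < n + 2 := by
            have : (j e : ℝ) < n + 2 := by linarith
            exact_mod_cast this
          omega
        simp only [hg]
        rcases a1 with a1 | a1 <;> rcases a2 with a2 | a2 <;> rw [a1, a2]
        · rw [sub_self, abs_zero]; exact abs_nonneg _
        · rw [abs_sub_comm]
        · rw [sub_self, abs_zero]; exact abs_nonneg _)
    rw [Real.norm_eq_abs] at this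
    refine this.trans (le_of_eq ?_)
    push_cast
    rw [show (e : ℝ) + 1 - e = 1 by ring, abs_one, mul_one]
  have h6 : |(∫ u in (0 : ℝ)..E, g ⌊κ * u⌋) - ∑ e ∈ range E, F (j e)|
      ≤ ∑ e ∈ range E, |F (⌊κ * e⌋₊ + 1) - F ⌊κ * e⌋₊| := by
    rw [e4, ← sum_sub_distrib]
    exact (abs_sum_le_sum_abs _ _).trans (sum_le_sum fun e _ => h5 e)
  have h7 : |∫ u in (0 : ℝ)..E, g ⌊κ * u⌋| ≤ |∑ e ∈ range E, F (j e)| + ∑ e ∈ range E, |F (⌊κ * e⌋₊ + 1) - F ⌊κ * e⌋₊| := by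
    have := abs_sub_abs_le_abs_sub (∫ u in (0 : ℝ)..E, g ⌊κ * u⌋) (∑ e ∈ range E, F (j e))
    linarith
  have h8 : ∑ i ∈ range K, F i = κ * (∫ u in (0 : ℝ)..E, g ⌊κ * u⌋) - ∫ s in (K : ℝ)..(κ * E), g ⌊s⌋ := by
    rw [e2, ← mul_assoc, mul_inv_cancel₀ h0.ne', one_mul, e3, e1]; ring
  rw [h8]
  refine (abs_sub _ _).trans ?_
  rw [abs_mul, abs_of_pos h0]
  have := mul_le_mul_of_nonneg_left h7 h0.le
  linarith

/-- `j e = e - ⌊τ / 2⌋`, `τ = ⌊log₂ 3 ^ e⌋` -/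
def jj (e : ℕ) : ℕ := e - Nat.log 2 (3 ^ e) / 2

noncomputable def kap : ℝ := gm / Real.log 2

theorem kap_bounds : 0.2 < kap ∧ kap < 1 := by
  have h1 := gm_bounds
  have h2 := log3_lt
  have h3 := Real.log_two_gt_d9
  have h4 := Real.log_two_lt_d9
  unfold kap
  constructor
  · rw [lt_div_iff₀ (by linarith)]
    unfold gm
    norm_num at h2 h3 h4 ⊢
    linarith
  · rw [div_lt_one (by linarith)]
    norm_num at h1 h3 ⊢
    linarith [h1.2]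

theorem log_le_two (e : ℕ) : Nat.log 2 (3 ^ e) ≤ 2 * e := by
  have h : 2 ^ Nat.log 2 (3 ^ e) ≤ 3 ^ e := Nat.pow_log_le_self 2 (pow_ne_zero e (by norm_num))
  by_contra hc
  push Not at hc
  have h2 : 2 ^ (2 * e + 1) ≤ 2 ^ Nat.log 2 (3 ^ e) := Nat.pow_le_pow_right (by norm_num) hc
  have h3 : (3 : ℕ) ^ e ≤ 4 ^ e := Nat.pow_le_pow_left (by norm_num) e
  have h4 : (2 : ℕ) ^ (2 * e + 1) = 2 * 4 ^ e := by rw [pow_succ, pow_mul]; norm_num; ring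
  have h5 : 0 < (4 : ℕ) ^ e := by positivity
  omega

theorem jj_add (e : ℕ) : jj e + Nat.log 2 (3 ^ e) / 2 = e := by
  have := log_le_two e
  unfold jj; omega

theorem jj_bounds (e : ℕ) : kap * e ≤ jj e ∧ (jj e : ℝ) ≤ kap * e + 1 := by
  have h2 : 0 < Real.log 2 := Real.log_pos (by norm_num)
  set τ := Nat.log 2 (3 ^ e) with hτ
  have a1 : (τ : ℝ) * Real.log 2 ≤ e * Real.log 3 := by
    have := Real.log_le_log (by positivity) (log_pow_le e)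
    rwa [Real.log_pow, Real.log_pow] at this
  have a2 : (e : ℝ) * Real.log 3 < (τ + 1) * Real.log 2 := by
    have := Real.log_lt_log (by positivity) (lt_log_pow e)
    rw [Real.log_mul (by norm_num) (by positivity), Real.log_pow, Real.log_pow] at this
    linarith
  have a3 : (jj e : ℝ) + ((τ / 2 : ℕ) : ℝ) = e := by exact_mod_cast jj_add e
  have a4 : (2 : ℝ) * ((τ / 2 : ℕ) : ℝ) ≤ τ := by
    have : 2 * (τ / 2) ≤ τ := by omega
    exact_mod_cast this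
  have a5 : (τ : ℝ) ≤ 2 * ((τ / 2 : ℕ) : ℝ) + 1 := by
    have : τ ≤ 2 * (τ / 2) + 1 := by omega
    exact_mod_cast this
  have e1 : kap * e = (e * Real.log 2 - e * Real.log 3 / 2) / Real.log 2 := by
    unfold kap gm; field_simp
  constructor
  · rw [e1, div_le_iff₀ h2]
    nlinarith
  · have : (jj e : ℝ) - 1 ≤ kap * e := by
      rw [e1, le_div_iff₀ h2]
      nlinarith
    linarith

theorem comp_eq (e : ℕ) (y : ℝ) : 3 ^ (Nat.log 2 (3 ^ e) / 2) * (3 ^ jj e * y) / 2 ^ Nat.log 2 (3 ^ e) = lam e * y := by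
  unfold lam
  have : (3 : ℝ) ^ e = 3 ^ jj e * 3 ^ (Nat.log 2 (3 ^ e) / 2) := by rw [← pow_add, jj_add]
  rw [this]; ring

/-! ### parameters -/

open Filter

theorem ev_rho {δ : ℝ} (hδ : 0 < δ) : ∀ᶠ u : ℝ in atTop, (⌈u ^ (0.49975 : ℝ)⌉₊ : ℝ) * rho ⌊u / 2⌋₊ ≤ δ := by
  have h1 : ∀ᶠ u : ℝ in atTop, Real.log u ≤ u ^ (0.0001 : ℝ) := by
    have := (isLittleO_log_rpow_atTop (r := 0.0001) (by norm_num)).bound (c := 1) (by norm_num)
    filter_upwards [this, eventually_ge_atTop 1] with u hu hu1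
    rw [Real.norm_eq_abs, Real.norm_eq_abs, one_mul, abs_of_nonneg (Real.log_nonneg hu1),
      abs_of_nonneg (by positivity)] at hu
    exact hu
  have h2 : ∀ᶠ u : ℝ in atTop, 4 * u ^ (-(0.0002 : ℝ)) ≤ δ := by
    have h3 := (tendsto_rpow_neg_atTop (y := 0.0002) (by norm_num)).const_mul 4
    rw [mul_zero] at h3
    filter_upwards [h3.eventually (ge_mem_nhds hδ)] with u hu using hu
  filter_upwards [h1, h2, eventually_ge_atTop 4] with u hu1 hu2 hu4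
  have hu0 : 0 < u := by linarith
  have hR1 : (⌊u / 2⌋₊ : ℝ) ≤ u / 2 := Nat.floor_le (by positivity)
  have hR2 : u / 2 < ⌊u / 2⌋₊ + 1 := Nat.lt_floor_add_one _
  have hR3 : u / 4 ≤ (⌊u / 2⌋₊ : ℝ) := by linarith
  have hrho : rho ⌊u / 2⌋₊ ≤ 2 * u ^ (-(0.49995 : ℝ)) := by
    unfold rho
    rw [Real.sqrt_le_left (by positivity)]
    have e1 : (2 * u ^ (-(0.49995 : ℝ))) ^ 2 = u ^ (0.0001 : ℝ) / (u / 4) := by
      rw [mul_pow, ← Real.rpow_natCast, ← Real.rpow_natCast (u ^ (-(0.49995 : ℝ))), ← Real.rpow_mul hu0.le]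
      rw [div_div_eq_mul_div, mul_comm (u ^ (0.0001 : ℝ)), mul_div_assoc]
      have : u ^ (0.0001 : ℝ) / u = u ^ (-(0.9999 : ℝ)) := by
        rw [show (-(0.9999 : ℝ)) = 0.0001 - 1 by norm_num, Real.rpow_sub hu0, Real.rpow_one]
      rw [this]
      norm_num
    rw [e1]
    apply div_le_div₀ (by positivity) _ (by positivity) hR3
    refine le_trans ?_ hu1
    apply Real.log_le_log (by positivity)
    linarith
  have hB : (⌈u ^ (0.49975 : ℝ)⌉₊ : ℝ) ≤ 2 * u ^ (0.49975 : ℝ) := by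
    have h3 : 1 ≤ u ^ (0.49975 : ℝ) := Real.one_le_rpow (by linarith) (by norm_num)
    have h4 := (Nat.ceil_lt_add_one (show 0 ≤ u ^ (0.49975 : ℝ) by positivity)).le
    linarith
  calc (⌈u ^ (0.49975 : ℝ)⌉₊ : ℝ) * rho ⌊u / 2⌋₊
      ≤ (2 * u ^ (0.49975 : ℝ)) * (2 * u ^ (-(0.49995 : ℝ))) :=
        mul_le_mul hB hrho (rho_nonneg _) (by positivity)
    _ = 4 * u ^ (-(0.0002 : ℝ)) := by
        rw [show (-(0.0002 : ℝ)) = 0.49975 + (-(0.49995)) by norm_num, Real.rpow_add hu0]; ring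
    _ ≤ δ := hu2

theorem ev_small {a c δ : ℝ} (ha : 0 < a) (_hc : 0 < c) (hδ : 0 < δ) : ∀ᶠ u : ℝ in atTop, c * u ^ (-a) ≤ δ := by
  have h3 := (tendsto_rpow_neg_atTop (y := a) ha).const_mul c
  rw [mul_zero] at h3
  filter_upwards [h3.eventually (ge_mem_nhds hδ)] with u hu using hu

theorem ven (d : ℤ) (hd : d = 1 ∨ d = -1) (hE2 : S_EN2 d) : S_VEN d := by
  classical
  intro f hf hm ε hε
  obtain ⟨C0, hC0, hco⟩ := co d hd
  obtain ⟨C1, hC1, hci⟩ := ci d hd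
  have hfb := hf.1
  obtain ⟨k1, k2⟩ := kap_bounds
  have hk0 : 0 < kap := by linarith
  obtain ⟨Z1, hZ1, hen⟩ := hE2 f hf hm ((ε / 8) ^ 2) (by positivity)
  -- eventual bounds
  have hev : ∀ᶠ u : ℝ in atTop, 1 ≤ u ∧ (⌈u ^ (0.49975 : ℝ)⌉₊ : ℝ) * rho ⌊u / 2⌋₊ ≤ ε / (16 * (C0 + 4 * C1)) ∧
      40 * u ^ (-(0.0005 : ℝ)) ≤ ε / 16 ∧ 1 * u ^ (-(0.9985 : ℝ)) ≤ ε / 4 ∧ 24 * u ^ (-(0.001 : ℝ)) ≤ 1 ∧ 4 ≤ u := by
    filter_upwards [eventually_ge_atTop 1, ev_rho (δ := ε / (16 * (C0 + 4 * C1))) (by positivity),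
      ev_small (a := 0.0005) (c := 40) (δ := ε / 16) (by norm_num) (by norm_num) (by positivity),
      ev_small (a := 0.9985) (c := 1) (δ := ε / 4) (by norm_num) (by norm_num) (by positivity),
      ev_small (a := 0.001) (c := 24) (δ := 1) (by norm_num) (by norm_num) (by norm_num),
      eventually_ge_atTop 4] with u a b c d e g
    exact ⟨a, b, c, d, e, g⟩
  obtain ⟨Z2, hZ2⟩ := eventually_atTop.1 (Real.tendsto_log_atTop.eventually hev)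
  refine ⟨max (max Z1 Z2) 1, le_max_right _ _, ?_⟩
  intro Z hZ K hK1 hK2
  have hZa : Z1 ≤ Z := ((le_max_left _ _).trans (le_max_left _ _)).trans hZ
  have hZb : Z2 ≤ Z := ((le_max_right _ _).trans (le_max_left _ _)).trans hZ
  have hZ0 : 0 < Z := by linarith
  obtain ⟨u1, hu2, hu3, hu4, hu5, hu6⟩ := hZ2 Z hZb
  set u := Real.log Z with hu
  have hu0 : 0 < u := by linarith
  set R := ⌊u / 2⌋₊ with hR
  set B := ⌈u ^ (0.49975 : ℝ)⌉₊ with hB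
  have hR1 : 1 ≤ R := by
    rw [hR, Nat.one_le_floor_iff]; linarith
  have hBge : u ^ (0.49975 : ℝ) ≤ B := Nat.le_ceil _
  have hB1r : (1 : ℝ) ≤ B := le_trans (Real.one_le_rpow u1 (by norm_num)) hBge
  have hB1 : 1 ≤ B := by exact_mod_cast hB1r
  have hKr : (1 : ℝ) ≤ K := le_trans (Real.one_le_rpow u1 (by norm_num)) hK1
  have hK0 : (0 : ℝ) < K := by linarith
  -- the number of terms of the other clock
  set E := ⌈(K : ℝ) / kap⌉₊ with hE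
  have hE1 : (K : ℝ) ≤ kap * E := by
    have := Nat.le_ceil ((K : ℝ) / kap)
    rw [div_le_iff₀ hk0] at this
    rw [hE]; linarith
  have hE2' : kap * E ≤ K + 1 := by
    have := (Nat.ceil_lt_add_one (show 0 ≤ (K : ℝ) / kap by positivity)).le
    calc kap * (E : ℝ) ≤ kap * (K / kap + 1) := mul_le_mul_of_nonneg_left this hk0.le
      _ = K + kap := by field_simp
      _ ≤ K + 1 := by linarith
  have hEK : (K : ℝ) ≤ E := by nlinarith [Nat.cast_nonneg (α := ℝ) E]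
  have hE0 : (0 : ℝ) < E := by linarith
  have hE6 : (E : ℝ) ≤ 10 * K := by nlinarith
  have hE12 : (E : ℝ) ≤ 10 * u ^ (0.999 : ℝ) := by linarith
  have hEen : En f E Z ≤ (ε / 8) ^ 2 := by
    apply hen Z hZa
    refine le_trans ?_ (hK1.trans hEK)
    exact Real.rpow_le_rpow_of_exponent_le u1 (by norm_num)
  -- sizes
  have hτ : ∀ e < E, (Nat.log 2 (3 ^ e) : ℝ) ≤ 20 * u ^ (0.999 : ℝ) := by
    intro e he
    have h1 : (Nat.log 2 (3 ^ e) : ℝ) ≤ 2 * e := by exact_mod_cast log_le_two e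
    have h2 : (e : ℝ) ≤ E := by exact_mod_cast he.le
    linarith
  have hu999 : 24 * u ^ (0.999 : ℝ) ≤ u := by
    have e1 : u ^ (0.999 : ℝ) = u ^ (-(0.001 : ℝ)) * u := by
      rw [show (0.999 : ℝ) = -0.001 + 1 by norm_num, Real.rpow_add hu0, Real.rpow_one]
    rw [e1]
    nlinarith
  have hpow : ∀ e < E, (2 : ℝ) ^ (Nat.log 2 (3 ^ e) + R) ≤ Z := by
    intro e he
    have h1 := hτ e he
    have h2 : (R : ℝ) ≤ u / 2 := Nat.floor_le (by positivity)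
    have h3 := Real.log_two_lt_d9
    have h4 : ((Nat.log 2 (3 ^ e) + R : ℕ) : ℝ) ≤ (20 / 24 + 1 / 2) * u := by push_cast; linarith
    rw [← Real.exp_log hZ0, ← hu, ← Real.exp_log (show (0 : ℝ) < 2 ^ (Nat.log 2 (3 ^ e) + R) by positivity),
      Real.exp_le_exp, Real.log_pow]
    have h5 : (0 : ℝ) ≤ ((Nat.log 2 (3 ^ e) + R : ℕ) : ℝ) := Nat.cast_nonneg _
    norm_num at h3
    nlinarith
  -- the bounds in the mean
  set Δ : ℕ → ℝ → ℝ := fun n y => |f ⌊3 ^ (n + 1) * y⌋ - f ⌊3 ^ n * y⌋| with hΔ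
  set Γ : ℕ → ℝ → ℝ := fun e y => |f ⌊3 ^ jj e * y⌋ - f ⌊lam e * y⌋| with hΓ
  have b3 : ∀ n : ℕ, Bd 1 (fun y : ℝ => f ⌊3 ^ n * y⌋) := fun n => Bd.flc hfb (by fun_prop)
  have bl : ∀ e : ℕ, Bd 1 (fun y : ℝ => f ⌊lam e * y⌋) := fun e => Bd.flc hfb (by fun_prop)
  have bΔ : ∀ n, Bd (1 + 1) (Δ n) := fun n => ((b3 (n + 1)).sub (b3 n)).abs
  have bΓ : ∀ e, Bd (1 + 1) (Γ e) := fun e => ((b3 (jj e)).sub (bl e)).abs
  have hρ := rho_nonneg R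
  have hρ1 : rho R ≤ B * rho R := by nlinarith
  have hρ2 : (C0 + 4 * C1) * (B * rho R) ≤ ε / 16 := by
    calc (C0 + 4 * C1) * (B * rho R) ≤ (C0 + 4 * C1) * (ε / (16 * (C0 + 4 * C1))) :=
          mul_le_mul_of_nonneg_left hu2 (by positivity)
      _ = ε / 16 := by field_simp
  have hΔav : ∀ n, av Z (Δ n) ≤ ε / 16 := by
    intro n
    have h1 : av Z (Δ n) = av (3 ^ n * Z) (fun w => |f ⌊3 * w⌋ - f ⌊w⌋|) := by
      rw [← av_scale hZ0 (by positivity : (0 : ℝ) < 3 ^ n) (fun w : ℝ => |f ⌊3 * w⌋ - f ⌊w⌋|)]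
      congr 1
      funext y
      rw [hΔ]
      simp only
      rw [pow_succ, show (3 : ℝ) ^ n * 3 * y = 3 * (3 ^ n * y) by ring]
    rw [h1]
    have h2 : (2 : ℝ) ^ R ≤ 3 ^ n * Z := by
      have a1 : (2 : ℝ) ^ R ≤ Z := by
        by_cases h0 : 0 < E
        · refine le_trans (pow_le_pow_right₀ (by norm_num) (by omega)) (hpow 0 h0)
        · push Not at h0
          have : (E : ℝ) ≤ 0 := by exact_mod_cast h0
          linarith
      have a2 : (1 : ℝ) ≤ 3 ^ n := one_le_pow₀ (by norm_num)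
      nlinarith
    refine (three_step hci hC1 hf hR1 h2).trans ?_
    have h3 : 0 ≤ C0 * (B * rho R) := by positivity
    have h4 : C1 * rho R ≤ C1 * (B * rho R) := mul_le_mul_of_nonneg_left hρ1 hC1.le
    have h5 : 0 ≤ C1 * (B * rho R) := by positivity
    linarith
  have hΓav : ∀ e < E, av Z (Γ e) ≤ ε / 8 := by
    intro e he
    have h1 : av Z (Γ e) = av (3 ^ jj e * Z) (fun w => |f ⌊w⌋ - f ⌊3 ^ (Nat.log 2 (3 ^ e) / 2) * w / 2 ^ Nat.log 2 (3 ^ e)⌋|) := by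
      rw [← av_scale hZ0 (by positivity : (0 : ℝ) < 3 ^ jj e)
        (fun w : ℝ => |f ⌊w⌋ - f ⌊3 ^ (Nat.log 2 (3 ^ e) / 2) * w / 2 ^ Nat.log 2 (3 ^ e)⌋|)]
      congr 1
      funext y
      rw [hΓ]
      simp only
      rw [comp_eq]
    rw [h1]
    have h2 : (2 : ℝ) ^ (Nat.log 2 (3 ^ e) + R) ≤ 3 ^ jj e * Z := by
      have a1 := hpow e he
      have a2 : (1 : ℝ) ≤ 3 ^ jj e := one_le_pow₀ (by norm_num)
      nlinarith
    refine (middle hd hC0 hC1 hco hci hf hR1 hB1 h2).trans ?_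
    have h3 : 2 * (Nat.log 2 (3 ^ e) : ℝ) / (B : ℝ) ^ 2 ≤ ε / 16 := by
      have a1 := hτ e he
      have a2 : u ^ (0.9995 : ℝ) ≤ (B : ℝ) ^ 2 := by
        have := pow_le_pow_left₀ (by positivity) hBge 2
        rw [← Real.rpow_natCast (u ^ (0.49975 : ℝ)), ← Real.rpow_mul hu0.le] at this
        norm_num at this ⊢
        exact this
      rw [div_le_iff₀ (by positivity)]
      have a3 : 40 * u ^ (0.999 : ℝ) ≤ ε / 16 * u ^ (0.9995 : ℝ) := by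
        have e1 : u ^ (0.999 : ℝ) = u ^ (-(0.0005 : ℝ)) * u ^ (0.9995 : ℝ) := by
          rw [← Real.rpow_add hu0]; norm_num
        rw [e1]
        have : 0 < u ^ (0.9995 : ℝ) := by positivity
        nlinarith
      have a4 : ε / 16 * u ^ (0.9995 : ℝ) ≤ ε / 16 * (B : ℝ) ^ 2 := mul_le_mul_of_nonneg_left a2 (by positivity)
      linarith
    have h4 : (C0 + 4 * C1) * B * rho R = (C0 + 4 * C1) * (B * rho R) := by ring
    rw [h4]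
    linarith
  have hAKav : av Z (fun y => |AK f E y|) ≤ ε / 8 := by
    have bAK : Bd (∑ D ∈ range E, 1 / (E : ℝ)) (AK f E) := by
      have h := Bd.sum (s := range E) (M := fun _ => |1 / (E : ℝ)| * 1) (u := fun D y => (1 / (E : ℝ)) * f ⌊lam D * y⌋)
        (fun D _ => (bl D).cmul _)
      simp only [mul_one, abs_of_pos (show (0 : ℝ) < 1 / (E : ℝ) by positivity)] at h
      convert h using 1
      funext y
      unfold AK
      rw [← mul_sum]; ring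
    refine (av_abs_le_sqrt hZ0 bAK).trans ?_
    rw [show av Z (fun y => AK f E y ^ 2) = En f E Z from rfl, Real.sqrt_le_left (by positivity)]
    exact hEen
  -- pointwise
  have hpt : ∀ y : ℝ, |(∑ j ∈ range K, f ⌊3 ^ j * y⌋) / K|
      ≤ 2 * |AK f E y| + ((2 / (E : ℝ)) * ∑ e ∈ range E, Γ e y) + ((2 / (E : ℝ)) * ∑ e ∈ range E, Δ ⌊kap * e⌋₊ y)
        + ε / 4 := by
    intro y
    have h1 := reclock (F := fun i => f ⌊3 ^ i * y⌋) (fun i => hfb _) hk0 k2 jj_bounds hE1 hE2'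
    have h2 : |∑ e ∈ range E, f ⌊3 ^ jj e * y⌋| ≤ E * |AK f E y| + ∑ e ∈ range E, Γ e y := by
      have a1 : (∑ e ∈ range E, f ⌊3 ^ jj e * y⌋)
          = (∑ e ∈ range E, f ⌊lam e * y⌋) + ∑ e ∈ range E, (f ⌊3 ^ jj e * y⌋ - f ⌊lam e * y⌋) := by
        rw [← sum_add_distrib]; exact sum_congr rfl fun e _ => by ring
      have a2 : (∑ e ∈ range E, f ⌊lam e * y⌋) = E * AK f E y := by
        unfold AK; rw [mul_div_assoc', mul_div_cancel_left₀ _ hE0.ne']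
      rw [a1]
      refine (abs_add_le _ _).trans (add_le_add ?_ (abs_sum_le_sum_abs _ _))
      rw [a2, abs_mul, abs_of_pos hE0]
    rw [abs_div, abs_of_pos hK0, div_le_iff₀ hK0]
    refine h1.trans ?_
    have hs1 : 0 ≤ ∑ e ∈ range E, Γ e y := sum_nonneg fun e _ => abs_nonneg _
    have hs2 : 0 ≤ ∑ e ∈ range E, Δ ⌊kap * e⌋₊ y := sum_nonneg fun e _ => abs_nonneg _
    have h3 : kap ≤ 2 / E * K := by
      rw [div_mul_eq_mul_div, le_div_iff₀ hE0]; linarith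
    have h4 : 1 ≤ ε / 4 * K := by
      have a1 : 1 * u ^ (-(0.9985 : ℝ)) * u ^ (0.9985 : ℝ) ≤ ε / 4 * K :=
        mul_le_mul hu4 hK1 (by positivity) (by positivity)
      rw [one_mul, ← Real.rpow_add hu0] at a1
      norm_num at a1
      linarith
    have h5 : kap * (|∑ e ∈ range E, f ⌊3 ^ jj e * y⌋| + ∑ e ∈ range E, Δ ⌊kap * e⌋₊ y)
        ≤ (2 / E * K) * ((E * |AK f E y| + ∑ e ∈ range E, Γ e y) + ∑ e ∈ range E, Δ ⌊kap * e⌋₊ y) := by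
      apply mul_le_mul h3 (by linarith) (by positivity) (by positivity)
    have h6 : (2 / E * K) * ((E * |AK f E y| + ∑ e ∈ range E, Γ e y) + ∑ e ∈ range E, Δ ⌊kap * e⌋₊ y)
        = (2 * |AK f E y| + ((2 / (E : ℝ)) * ∑ e ∈ range E, Γ e y)
          + ((2 / (E : ℝ)) * ∑ e ∈ range E, Δ ⌊kap * e⌋₊ y)) * K := by
      field_simp
    rw [h6] at h5
    rw [hΔ] at h5 ⊢
    simp only at h5 h1 ⊢
    linarith
  have bG1 : Bd (|2 / (E : ℝ)| * ∑ e ∈ range E, (1 + 1)) (fun y => (2 / (E : ℝ)) * ∑ e ∈ range E, Γ e y) :=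
    (Bd.sum fun e _ => bΓ e).cmul _
  have bG2 : Bd (|2 / (E : ℝ)| * ∑ e ∈ range E, (1 + 1)) (fun y => (2 / (E : ℝ)) * ∑ e ∈ range E, Δ ⌊kap * e⌋₊ y) :=
    (Bd.sum fun e _ => bΔ _).cmul _
  have bAK : Bd (∑ D ∈ range E, 1 / (E : ℝ)) (AK f E) := by
    have h := Bd.sum (s := range E) (M := fun _ => |1 / (E : ℝ)| * 1) (u := fun D y => (1 / (E : ℝ)) * f ⌊lam D * y⌋)
      (fun D _ => (bl D).cmul _)
    simp only [mul_one, abs_of_pos (show (0 : ℝ) < 1 / (E : ℝ) by positivity)] at h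
    convert h using 1
    funext y
    unfold AK
    rw [← mul_sum]; ring
  have bA := bAK.abs.cmul 2
  have bT : Bd (∑ j ∈ range K, |1 / (K : ℝ)| * 1) (fun y => ∑ j ∈ range K, (1 / (K : ℝ)) * f ⌊3 ^ j * y⌋) :=
    Bd.sum fun j _ => (b3 j).cmul _
  have bT' : Bd (∑ j ∈ range K, |1 / (K : ℝ)| * 1) (fun y => |(∑ j ∈ range K, f ⌊3 ^ j * y⌋) / K|) := by
    convert bT.abs using 1
    funext y
    rw [← mul_sum]; ring_nf
  have hsum : av Z (fun y => |(∑ j ∈ range K, f ⌊3 ^ j * y⌋) / K|)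
      ≤ 2 * av Z (fun y => |AK f E y|) + ((2 / (E : ℝ)) * ∑ e ∈ range E, av Z (Γ e))
        + ((2 / (E : ℝ)) * ∑ e ∈ range E, av Z (Δ ⌊kap * e⌋₊)) + ε / 4 := by
    have h1 := av_mono hZ0 bT' (((bA.add bG1).add bG2).add (Bd.const (ε / 4))) fun y _ _ => hpt y
    rw [av_add Z ((bA.add bG1).add bG2) (Bd.const (ε / 4)), av_add Z (bA.add bG1) bG2, av_add Z bA bG1, av_const hZ0,
      av_cmul, av_cmul, av_cmul, av_sum Z (fun e _ => bΓ e), av_sum Z (fun e _ => bΔ _)] at h1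
    exact h1
  have hmean : ∀ (F : ℕ → ℝ) (A : ℝ), (∀ e < E, F e ≤ A) → (2 / (E : ℝ)) * ∑ e ∈ range E, F e ≤ 2 * A := by
    intro F A hF
    calc (2 / (E : ℝ)) * ∑ e ∈ range E, F e ≤ (2 / (E : ℝ)) * ∑ e ∈ range E, A :=
          mul_le_mul_of_nonneg_left (sum_le_sum fun i hi => hF i (mem_range.1 hi)) (by positivity)
      _ = 2 * A := by rw [sum_const, card_range, nsmul_eq_mul]; field_simp
  have h1 := hmean (fun e => av Z (Γ e)) (ε / 8) hΓav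
  have h2 := hmean (fun e => av Z (Δ ⌊kap * e⌋₊)) (ε / 16) (fun e _ => hΔav _)
  linarith

theorem ven_all (d : ℤ) (hd : d = 1 ∨ d = -1) (hTV : S_PAIR d) (hE : S_EXC) (hB : S_BASE) : S_VEN d :=
  ven d hd (en2 d (step2 d hTV hE) hB)

end Pool.Agent.KS6_24.ST
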