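import Mathlib
import Pool.Agent.KS6_24.LN.TW
import Pool.Agent.KS6_24.ST.Defs

/-! SIGNS IN A WINDOW: `S_WS d` (helper6). -/

set_option autoImplicit false

namespace Pool.Agent.KS6_24.ST

open Pool.Agent.H499R2.CO Pool.Agent.Y965.SI Finset Pool.Agent.KS6_24.LN Pool.Agent.KS6_24.LN.TW

/-- **SIGNS IN A WINDOW.** -/
theorem ws (d : ℤ) (hd : d % 2 = 1) (h : S_TV d) : S_WS d := by
  obtain ⟨C, hC, hTV⟩ := h
  refine ⟨1 + C, by linarith, ?_⟩
  intro t k Λ l m hk1 hΛ1 hΛ hm hl' c hcc x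
  have hk : C ≤ k := by linarith
  have hk0 : (0 : ℝ) < k := lt_of_lt_of_le hC hk
  have hΛ0 : (0 : ℝ) < Λ := by exact_mod_cast hΛ1
  have hl0 : 0 < l := by
    rcases Nat.eq_zero_or_pos l with h0 | h0
    · exfalso
      rw [h0] at hl'
      simp only [Nat.cast_zero, Real.log_zero] at hl'
      have := mul_nonneg gm_nonneg (Nat.cast_nonneg (α := ℝ) t)
      linarith
    · exact h0
  have hl1 : (0 : ℝ) < l := by exact_mod_cast hl0
  have hl : gm * m + 40 * k ≤ Real.log l := by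
    have hmt : (m : ℝ) ≤ t := by exact_mod_cast hm
    have := mul_le_mul_of_nonneg_left hmt gm_nonneg
    linarith
  have habs : ∀ i, |c i| = 1 := by
    intro i
    have h1 : |c i| * |c i| = 1 := by rw [← abs_mul, hcc, abs_one]
    nlinarith [abs_nonneg (c i)]
  set P : ℤ → ℝ := fun v => (∑ i ∈ range Λ, c i * sg ((Tz d)^[i] v)) ^ 2 / Λ ^ 2 with hP
  have hPper : Per Λ P := by
    intro v q
    simp only [hP]
    congr 2
    apply sum_congr rfl
    intro i hi
    rw [mem_range] at hi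
    rw [sg_per hd (by omega)]
  have hPle : ∀ v, |P v| ≤ 1 := by
    intro v
    simp only [hP]
    rw [abs_of_nonneg (by positivity), div_le_one (by positivity)]
    have h1 : |∑ i ∈ range Λ, c i * sg ((Tz d)^[i] v)| ≤ Λ := by
      refine (abs_sum_le_sum_abs _ _).trans ?_
      have : ∀ i ∈ range Λ, |c i * sg ((Tz d)^[i] v)| ≤ 1 := by
        intro i _; rw [abs_mul, habs, abs_sg]; norm_num
      refine (sum_le_sum this).trans ?_
      rw [sum_const, card_range, nsmul_eq_mul, mul_one]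
    rw [← sq_abs]
    exact pow_le_pow_left₀ (abs_nonneg _) h1 2
  have hV := hTV m k Λ hk hΛ (fun _ => P) (fun _ => hPle) (fun _ => hPper) x l hl
  rw [pm_iter hd m Λ hPper] at hV
  have hpm : pm Λ P = Λ / Λ ^ 2 := by
    have : pm Λ P = pm Λ (fun v => (1 / (Λ : ℝ) ^ 2) * (∑ i ∈ range Λ, c i * sg ((Tz d)^[i] v)) ^ 2) := by
      apply pm_congr; intro v; simp only [hP]; ring
    rw [this, pm_mul, pm_block hd le_rfl c hcc]; ring
  rw [hpm] at hV
  have herr : ((m : ℝ) + k) ^ 3 / (k : ℝ) ^ 4 ≤ (t + k : ℝ) ^ 3 / (k : ℝ) ^ 4 := by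
    apply div_le_div_of_nonneg_right _ (by positivity)
    apply pow_le_pow_left₀ (by positivity)
    have : (m : ℝ) ≤ t := by exact_mod_cast hm
    linarith
  set E := (t + k : ℝ) ^ 3 / (k : ℝ) ^ 4 with hE
  have hE0 : 0 ≤ E := by rw [hE]; positivity
  set Z : ℕ → ℝ := fun w => ∑ j ∈ range Λ, c j * sg ((Tz d)^[m + j] (x + (w : ℕ))) with hZ
  have hmom : (∑ w ∈ range l, Z w ^ 2) / l ≤ Λ ^ 2 * (1 / Λ + C * E) := by
    have h1 : ∀ w ∈ range l, Z w ^ 2 = Λ ^ 2 * P ((Tz d)^[m] (x + (w : ℕ))) := by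
      intro w _
      simp only [hP, hZ]
      have h2 : ∑ j ∈ range Λ, c j * sg ((Tz d)^[m + j] (x + (w : ℕ)))
          = ∑ i ∈ range Λ, c i * sg ((Tz d)^[i] ((Tz d)^[m] (x + (w : ℕ)))) := by
        apply sum_congr rfl; intro i _
        rw [← Function.iterate_add_apply, add_comm i m]
      rw [h2]
      field_simp
    rw [sum_congr rfl h1, ← mul_sum, mul_div_assoc]
    apply mul_le_mul_of_nonneg_left _ (by positivity)
    have h3 := (abs_le.1 hV).2
    have h4 : (Λ : ℝ) / Λ ^ 2 = 1 / Λ := by field_simp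
    have h5 : C * (((m : ℝ) + k) ^ 3 / (k : ℝ) ^ 4) ≤ C * E := mul_le_mul_of_nonneg_left herr hC.le
    rw [h4] at h3
    linarith
  have hCS : (∑ w ∈ range l, |Z w|) ^ 2 ≤ l * ∑ w ∈ range l, Z w ^ 2 := by
    have := sum_mul_sq_le_sq_mul_sq (range l) (fun _ => (1 : ℝ)) (fun w => |Z w|)
    simpa using this
  have hsq : ((∑ w ∈ range l, |Z w|) / l) ^ 2 ≤ (Λ * √ (1 / Λ + C * E)) ^ 2 := by
    rw [div_pow, mul_pow, Real.sq_sqrt (by positivity)]
    refine le_trans ?_ hmom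
    rw [div_le_div_iff₀ (by positivity) hl1]
    nlinarith
  have h6 := abs_le_of_sq_le_sq' hsq (by positivity)
  refine h6.2.trans ?_
  have h7 : √ (1 / Λ + C * E) ≤ √ ((1 + C) ^ 2 * (1 / Λ + E)) := by
    apply Real.sqrt_le_sqrt
    have h8 : 0 ≤ 1 / (Λ : ℝ) := by positivity
    have h9 : 1 ≤ (1 + C) ^ 2 := by nlinarith
    have h10 : C ≤ (1 + C) ^ 2 := by nlinarith
    nlinarith [mul_le_mul_of_nonneg_right h9 h8, mul_le_mul_of_nonneg_right h10 hE0]
  rw [Real.sqrt_mul (by positivity), Real.sqrt_sq (by positivity)] at h7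
  have h8 := mul_le_mul_of_nonneg_left h7 hΛ0.le
  refine h8.trans (le_of_eq ?_)
  ring

end Pool.Agent.KS6_24.ST
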