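import Mathlib
import Pool.Agent.KS6_24.ST.BA2
import Pool.Agent.KS6_24.ST.FW
import Pool.Agent.KS6_24.ST.WS
import Pool.Agent.KS6_24.ST.Eta
import Pool.Agent.KS6_24.ST.Stage
import Pool.Agent.KS6_24.ST.Ven
import Pool.Agent.KS6_24.ST.Cor
import Pool.Agent.KS6_24.ST.En3
import Pool.Agent.KS6_24.LN.U1Fin

/-! Assembly of the sharp energy bound from `S_BAL`. -/

set_option autoImplicit false

namespace Pool.Agent.KS6_24.ST

open Pool.Agent.KS6_24.LN

theorem en3_of_bal {d : ℤ} (hd : d = 1 ∨ d = -1) (hb : S_BAL d) : S_EN3 d := by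
  have hd2 : d % 2 = 1 := by rcases hd with rfl | rfl <;> decide
  have h1 : S_TV d := tv d hd
  have h2 : S_ETA d := eta d hd (fw d hd2) (ws d hd2 h1) hb
  have h3 : S_STAGE d := stage d hd h1 h2
  have h4 : S_VEN d := ven d hd (en2_all hd)
  exact en3 d hd (corr d hd h3 h4)

end Pool.Agent.KS6_24.ST
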