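import Mathlib
import Pool.Agent.KS6_24.ST.Main0
import Pool.Agent.KS6_24.ST.Bal
import Pool.Agent.KS6_24.ST.Pot
import Pool.Agent.KS6_24.ST.B0

/-! The sharp energy bound. -/

set_option autoImplicit false

namespace Pool.Agent.KS6_24.ST

theorem en3_all {d : ℤ} (hd : d = 1 ∨ d = -1) : S_EN3 d := en3_of_bal hd (bal d hd b0 pot)

theorem cor_all {d : ℤ} (hd : d = 1 ∨ d = -1) : S_COR d := by
  have hd2 : d % 2 = 1 := by rcases hd with rfl | rfl <;> decide
  have hb : S_BAL d := bal d hd b0 pot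
  have h1 : Pool.Agent.KS6_24.LN.S_TV d := Pool.Agent.KS6_24.LN.tv d hd
  exact corr d hd (stage d hd h1 (eta d hd (fw d hd2) (ws d hd2 h1) hb)) (ven d hd (Pool.Agent.KS6_24.LN.en2_all hd))

end Pool.Agent.KS6_24.ST
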