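import Mathlib
import Pool.Agent.KS6_24.LN.TW
import Pool.Agent.KS6_24.ST.FW
import Pool.Agent.KS6_24.ST.MXDefs

/-! MX1, `n` WALKERS: `S_NW d` (helper12). -/

set_option autoImplicit false

namespace Pool.Agent.KS6_24.ST

open Pool.Agent.H499R2.CO Pool.Agent.Y965.SI Finset Pool.Agent.KS6_24.LN Pool.Agent.KS6_24.LN.TW

namespace NW

/-! ### algebra -/

/-- product without the factor `a` -/
def Lp (n : ℕ) (M : ℕ → ℝ) (a : ℕ) : ℝ := ∏ c ∈ range n, if c = a then 1 else M c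

/-- product without the factors `a`, `b` -/
def Kp (n : ℕ) (M : ℕ → ℝ) (a b : ℕ) : ℝ := ∏ c ∈ range n, if c = a ∨ c = b then 1 else M c

/-- linear part -/
def ln (n : ℕ) (M h : ℕ → ℝ) : ℝ := ∑ a ∈ range n, h a * Lp n M a

/-- quadratic part -/
def qn (n : ℕ) (M h : ℕ → ℝ) : ℝ :=
  ∑ a ∈ range n, ∑ b ∈ range n, if a < b then h a * h b * Kp n M a b else 0

theorem ln_succ (n : ℕ) (M h : ℕ → ℝ) :
    ln (n + 1) M h = ln n M h * M n + (∏ c ∈ range n, M c) * h n := by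
  unfold ln
  rw [sum_range_succ, sum_mul]
  congr 1
  · apply sum_congr rfl
    intro a ha
    rw [mem_range] at ha
    unfold Lp
    rw [prod_range_succ, if_neg (by omega)]
    ring
  · unfold Lp
    rw [prod_range_succ, if_pos rfl, mul_one, mul_comm]
    congr 1
    apply prod_congr rfl
    intro c hc
    rw [mem_range] at hc
    rw [if_neg (by omega)]

theorem qn_succ (n : ℕ) (M h : ℕ → ℝ) :
    qn (n + 1) M h = qn n M h * M n + ln n M h * h n := by
  unfold qn ln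
  rw [sum_range_succ]
  have h0 : (∑ b ∈ range (n + 1), if n < b then h n * h b * Kp (n + 1) M n b else 0) = 0 := by
    apply sum_eq_zero
    intro b hb
    rw [mem_range] at hb
    rw [if_neg (by omega)]
  rw [h0, add_zero, sum_mul, sum_mul, ← sum_add_distrib]
  apply sum_congr rfl
  intro a ha
  rw [mem_range] at ha
  rw [sum_range_succ, if_pos ha, sum_mul]
  congr 1
  · apply sum_congr rfl
    intro b hb
    rw [mem_range] at hb
    split_ifs with hab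
    · unfold Kp
      rw [prod_range_succ, if_neg (by omega)]
      ring
    · ring
  · have h1 : Kp (n + 1) M a n = Lp n M a := by
      unfold Kp Lp
      rw [prod_range_succ, if_pos (Or.inr rfl), mul_one]
      apply prod_congr rfl
      intro c hc
      rw [mem_range] at hc
      by_cases hca : c = a
      · rw [if_pos (Or.inl hca), if_pos hca]
      · rw [if_neg (by omega), if_neg hca]
    rw [h1]; ring

theorem Kp_le {n : ℕ} {M : ℕ → ℝ} (hM : ∀ a, |M a| ≤ 1) (a b : ℕ) : |Kp n M a b| ≤ 1 := by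
  unfold Kp
  rw [abs_prod]
  apply prod_le_one (fun c _ => abs_nonneg _)
  intro c _
  split_ifs
  · simp
  · exact hM c

theorem qn_le {n : ℕ} {M h : ℕ → ℝ} {δ : ℝ} (hδ : 0 ≤ δ) (hM : ∀ a, |M a| ≤ 1) (hh : ∀ a, |h a| ≤ δ) :
    |qn n M h| ≤ n ^ 2 * δ ^ 2 := by
  unfold qn
  refine (abs_sum_le_sum_abs _ _).trans ?_
  have h1 : ∀ a ∈ range n, |∑ b ∈ range n, if a < b then h a * h b * Kp n M a b else 0| ≤ n * δ ^ 2 := by
    intro a _
    refine (abs_sum_le_sum_abs _ _).trans ?_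
    have h2 : ∀ b ∈ range n, |if a < b then h a * h b * Kp n M a b else 0| ≤ δ ^ 2 := by
      intro b _
      split_ifs
      · rw [abs_mul, abs_mul]
        have u1 := mul_le_mul (hh a) (hh b) (abs_nonneg _) hδ
        have u2 := mul_le_mul u1 (Kp_le (n := n) hM a b) (abs_nonneg _) (by positivity)
        rw [sq]; linarith
      · rw [abs_zero]; positivity
    refine (sum_le_sum h2).trans ?_
    rw [sum_const, card_range, nsmul_eq_mul]
  refine (sum_le_sum h1).trans ?_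
  rw [sum_const, card_range, nsmul_eq_mul]
  apply le_of_eq; ring

theorem sq_le_four (n : ℕ) : (n : ℝ) ^ 2 ≤ 2 * 4 ^ n := by
  have h : ∀ n : ℕ, n ^ 2 ≤ 2 * 4 ^ n := by
    intro n
    have h1 : n < 2 ^ n := Nat.lt_two_pow_self
    have h2 : n ^ 2 ≤ (2 ^ n) ^ 2 := Nat.pow_le_pow_left h1.le 2
    have h3 : (2 ^ n) ^ 2 = 4 ^ n := by rw [← pow_mul, mul_comm, pow_mul]; norm_num
    omega
  exact_mod_cast h n

/-- expansion of the mean of the two products up to third order -/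
theorem expand {δ : ℝ} (hδ : 0 ≤ δ) (hδ1 : δ ≤ 1) {M h : ℕ → ℝ} (hM : ∀ a, |M a| ≤ 1) (hh : ∀ a, |h a| ≤ δ) :
    ∀ n : ℕ, |((∏ a ∈ range n, (M a - h a)) + ∏ a ∈ range n, (M a + h a)) / 2
        - ((∏ a ∈ range n, M a) + qn n M h)| ≤ 4 ^ n * δ ^ 3 ∧
      |((∏ a ∈ range n, (M a + h a)) - ∏ a ∈ range n, (M a - h a)) / 2 - ln n M h| ≤ 4 ^ n * δ ^ 3 := by
  intro n
  induction n with
  | zero =>
    have : (0 : ℝ) ≤ δ ^ 3 := by positivity
    constructor
    · simp [qn]; exact this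
    · simp [ln]; exact this
  | succ n ih =>
    obtain ⟨i1, i2⟩ := ih
    have hq := qn_le (n := n) hδ hM hh
    rw [prod_range_succ, prod_range_succ, prod_range_succ, qn_succ, ln_succ]
    set Pm := ∏ a ∈ range n, (M a - h a) with hPm
    set Pp := ∏ a ∈ range n, (M a + h a) with hPp
    set P := ∏ a ∈ range n, M a with hP
    set q := qn n M h with hqq
    set l := ln n M h with hl
    set r := (Pm + Pp) / 2 - (P + q) with hr
    set r' := (Pp - Pm) / 2 - l with hr'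
    have e1 : (Pm * (M n - h n) + Pp * (M n + h n)) / 2 - (P * M n + (q * M n + l * h n))
        = r * M n + r' * h n := by rw [hr, hr']; ring
    have e2 : (Pp * (M n + h n) - Pm * (M n - h n)) / 2 - (l * M n + P * h n)
        = r' * M n + (r + q) * h n := by rw [hr, hr']; ring
    rw [e1, e2]
    have h4 : (0 : ℝ) < 4 ^ n := by positivity
    have hd3 : 0 ≤ δ ^ 3 := by positivity
    have hB : 0 ≤ 4 ^ n * δ ^ 3 := by positivity
    have m1 : |r * M n| ≤ 4 ^ n * δ ^ 3 := by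
      rw [abs_mul]
      exact (mul_le_mul i1 (hM n) (abs_nonneg _) hB).trans (le_of_eq (mul_one _))
    have m2 : |r' * M n| ≤ 4 ^ n * δ ^ 3 := by
      rw [abs_mul]
      exact (mul_le_mul i2 (hM n) (abs_nonneg _) hB).trans (le_of_eq (mul_one _))
    have m3 : |r' * h n| ≤ 4 ^ n * δ ^ 3 := by
      rw [abs_mul]
      exact (mul_le_mul i2 ((hh n).trans hδ1) (abs_nonneg _) hB).trans (le_of_eq (mul_one _))
    have m4 : |r * h n| ≤ 4 ^ n * δ ^ 3 := by
      rw [abs_mul]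
      exact (mul_le_mul i1 ((hh n).trans hδ1) (abs_nonneg _) hB).trans (le_of_eq (mul_one _))
    have m5 : |q * h n| ≤ 2 * 4 ^ n * δ ^ 3 := by
      rw [abs_mul]
      refine (mul_le_mul hq (hh n) (abs_nonneg _) (by positivity)).trans ?_
      have h5 := sq_le_four n
      have h6 := mul_le_mul_of_nonneg_right h5 hd3
      have e : (n : ℝ) ^ 2 * δ ^ 2 * δ = (n : ℝ) ^ 2 * δ ^ 3 := by ring
      rw [e]; linarith
    constructor
    · refine (abs_add_le _ _).trans ?_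
      rw [pow_succ]; linarith
    · have e3 : r' * M n + (r + q) * h n = r' * M n + (r * h n + q * h n) := by ring
      rw [e3]
      refine (abs_add_le _ _).trans ?_
      refine (add_le_add le_rfl (abs_add_le _ _)).trans ?_
      rw [pow_succ]; linarith

theorem prod_diff {ε : ℝ} (hε : 0 ≤ ε) {x y : ℕ → ℝ} (hx : ∀ a, |x a| ≤ 1) (hy : ∀ a, |y a| ≤ 1)
    (h : ∀ a, |x a - y a| ≤ ε) (n : ℕ) : |(∏ a ∈ range n, x a) - ∏ a ∈ range n, y a| ≤ n * ε := by
  induction n with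
  | zero => simp
  | succ n ih =>
    rw [prod_range_succ, prod_range_succ]
    have e : (∏ a ∈ range n, x a) * x n - (∏ a ∈ range n, y a) * y n
        = ((∏ a ∈ range n, x a) - ∏ a ∈ range n, y a) * x n + (∏ a ∈ range n, y a) * (x n - y n) := by ring
    rw [e]
    refine (abs_add_le _ _).trans ?_
    have hy1 : |∏ a ∈ range n, y a| ≤ 1 := by
      rw [abs_prod]
      exact prod_le_one (fun c _ => abs_nonneg _) fun c _ => hy c
    rw [abs_mul, abs_mul]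
    have u1 := mul_le_mul ih (hx n) (abs_nonneg _) (by positivity)
    have u2 := mul_le_mul hy1 (h n) (abs_nonneg _) zero_le_one
    push_cast
    linarith

theorem Kp_diff {ε : ℝ} (hε : 0 ≤ ε) {x y : ℕ → ℝ} (hx : ∀ a, |x a| ≤ 1) (hy : ∀ a, |y a| ≤ 1)
    (h : ∀ a, |x a - y a| ≤ ε) (n a b : ℕ) : |Kp n x a b - Kp n y a b| ≤ n * ε := by
  unfold Kp
  apply prod_diff hε
  · intro c; split_ifs
    · simp
    · exact hx c
  · intro c; split_ifs
    · simp
    · exact hy c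
  · intro c; split_ifs
    · simpa using hε
    · exact h c

/-! ### the walkers -/

variable (d : ℤ) (t : ℕ) (φ : ℕ → ℕ → ℝ) (A B : ℕ → ℤ)

/-- walker -/
def xx (a : ℕ) (v : ℤ) : ℤ := A a * v + B a

/-- mean factor -/
noncomputable def MM (j : ℕ) (v : ℤ) (a : ℕ) : ℝ := U (t - j) (φ a) (od d j (xx A B a v))

/-- difference factor -/
noncomputable def DD (j : ℕ) (v : ℤ) (a : ℕ) : ℝ := Df (t - j - 1) (φ a) (od d j (xx A B a v))

/-- sign -/
noncomputable def ss (j : ℕ) (v : ℤ) (a : ℕ) : ℝ := sg ((Tz d)^[j] (xx A B a v))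

/-- increment of one factor -/
noncomputable def hh (j : ℕ) (v : ℤ) (a : ℕ) : ℝ := ss d A B j v a * DD d t φ A B j v a / 2

/-- quadratic increment of a pair -/
noncomputable def QQ (n j a b : ℕ) : ℝ :=
  pm t (fun v => ss d A B j v a * ss d A B j v b *
    (DD d t φ A B j v a * DD d t φ A B j v b * Kp n (MM d t φ A B j v) a b) / 4)

variable {d t φ A B}

theorem MM_per (hd : d % 2 = 1) {j : ℕ} (hj : j ≤ t) (a : ℕ) : Per t (fun v => MM d t φ A B j v a) := by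
  intro v m
  beta_reduce
  unfold MM xx
  rw [show A a * (v + m * 2 ^ t) + B a = (A a * v + B a) + (A a * m) * 2 ^ t by ring, od_per_le hd hj]

theorem MM_le (h0 : ∀ a n, |φ a n| ≤ 1) (j : ℕ) (v : ℤ) (a : ℕ) : |MM d t φ A B j v a| ≤ 1 := FW.U_le (h0 a) _ _

variable {δ₁ δ₂ : ℝ}

theorem DD_le (h1 : ∀ a n, |φ a (n + 1) - φ a n| ≤ δ₁) (j : ℕ) (v : ℤ) (a : ℕ) :
    |DD d t φ A B j v a| ≤ δ₁ := Df_le (h1 a) _ _

theorem abs_ss (j : ℕ) (v : ℤ) (a : ℕ) : |ss d A B j v a| = 1 := abs_sg _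

theorem hh_le (h1 : ∀ a n, |φ a (n + 1) - φ a n| ≤ δ₁) (j : ℕ) (v : ℤ) (a : ℕ) :
    |hh d t φ A B j v a| ≤ δ₁ := by
  unfold hh
  rw [abs_div, abs_mul, abs_ss, one_mul, abs_of_pos (show (0 : ℝ) < 2 by norm_num)]
  have := DD_le (d := d) (t := t) (A := A) (B := B) h1 j v a
  have h2 := abs_nonneg (DD d t φ A B j v a)
  linarith

theorem MM_block (h1 : ∀ a n, |φ a (n + 1) - φ a n| ≤ δ₁) {m i : ℕ} (h : m + i ≤ t) (v : ℤ) (a : ℕ) :
    |MM d t φ A B (m + i) v a - MM d t φ A B m v a| ≤ 3 / 2 * i * δ₁ := by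
  have o1 := od_mono_add d m i (xx A B a v)
  have b1 := FW.U_block (h1 a) (t - (m + i)) (od d m (xx A B a v)) (od d (m + i) (xx A B a v)) i o1.1 o1.2
  rw [show t - (m + i) + i = t - m by omega] at b1
  exact b1

theorem DD_block (h2 : ∀ a n, |φ a (n + 2) - 2 * φ a (n + 1) + φ a n| ≤ δ₂) {m i : ℕ} (h : m + i < t)
    (v : ℤ) (a : ℕ) :
    |DD d t φ A B (m + i) v a - DD d t φ A B m v a| ≤ 3 / 2 * i * δ₂ := by
  have o1 := od_mono_add d m i (xx A B a v)
  have b1 := Df_block (h2 a) (t - (m + i) - 1) (od d m (xx A B a v)) (od d (m + i) (xx A B a v)) i o1.1 o1.2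
  rw [show t - (m + i) - 1 + i = t - m - 1 by omega] at b1
  exact b1

/-- the quadratic part is the sum over the pairs -/
theorem pm_qn (n j : ℕ) : pm t (fun v => qn n (MM d t φ A B j v) (hh d t φ A B j v))
    = ∑ a ∈ range n, ∑ b ∈ range n, if a < b then QQ d t φ A B n j a b else 0 := by
  unfold qn
  rw [pm_sum]
  apply sum_congr rfl
  intro a _
  rw [pm_sum]
  apply sum_congr rfl
  intro b _
  split_ifs with hab
  · unfold QQ
    apply pm_congr
    intro v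
    unfold hh
    ring
  · exact pm_const t 0

/-- one step -/
theorem stepn (hd : d % 2 = 1) (hA : ∀ a, A a % 2 = 1) (hδ : 0 ≤ δ₁) (hδ1 : δ₁ ≤ 1) (h0 : ∀ a n, |φ a n| ≤ 1)
    (h1 : ∀ a n, |φ a (n + 1) - φ a n| ≤ δ₁) (n : ℕ) {j : ℕ} (hj : j < t) :
    |pm t (fun v => ∏ a ∈ range n, MM d t φ A B (j + 1) v a)
      - (pm t (fun v => ∏ a ∈ range n, MM d t φ A B j v a)
        + ∑ a ∈ range n, ∑ b ∈ range n, if a < b then QQ d t φ A B n j a b else 0)| ≤ 4 ^ n * δ₁ ^ 3 := by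
  have hP : Per t (fun v => ∏ a ∈ range n, MM d t φ A B (j + 1) v a) := by
    intro v m
    apply prod_congr rfl
    intro a _
    exact MM_per hd (by omega) a v m
  have g1 := pm_shift hP (2 ^ j)
  have g2 : pm t (fun v => ∏ a ∈ range n, MM d t φ A B (j + 1) v a)
      = pm t (fun v => ((∏ a ∈ range n, MM d t φ A B (j + 1) v a)
        + ∏ a ∈ range n, MM d t φ A B (j + 1) (v + 2 ^ j) a) / 2) := by
    have g3 : pm t (fun v => ((∏ a ∈ range n, MM d t φ A B (j + 1) v a)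
        + ∏ a ∈ range n, MM d t φ A B (j + 1) (v + 2 ^ j) a) / 2)
        = pm t (fun v => (1 / 2) * ((∏ a ∈ range n, MM d t φ A B (j + 1) v a)
          + ∏ a ∈ range n, MM d t φ A B (j + 1) (v + 2 ^ j) a)) := by
      apply pm_congr; intro v; ring
    rw [g3, pm_mul, pm_add, g1]; ring
  rw [g2, ← pm_qn, ← pm_add]
  have e1 : ∀ v a, MM d t φ A B (j + 1) v a = MM d t φ A B j v a - hh d t φ A B j v a := by
    intro v a
    unfold MM hh ss DD
    rw [show t - (j + 1) = t - j - 1 by omega, FW.fac, show t - j - 1 + 1 = t - j by omega]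
  have e2 : ∀ v a, MM d t φ A B (j + 1) (v + 2 ^ j) a
      = MM d t φ A B j v a + hh d t φ A B j v a := by
    intro v a
    unfold MM hh ss DD
    rw [show t - (j + 1) = t - j - 1 by omega, show xx A B a (v + 2 ^ j) = xx A B a v + A a * 2 ^ j by
      unfold xx; ring, FW.fac' hd _ _ _ _ (hA a), show t - j - 1 + 1 = t - j by omega]
  simp only [e2]
  simp only [e1]
  have hsub : ∀ F G : ℤ → ℝ, pm t F - pm t G = pm t (fun v => F v - G v) := by
    intro F G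
    have h5 : (fun v => F v - G v) = fun v => F v + (-1) * G v := by funext v; ring
    rw [h5, pm_add, pm_mul]; ring
  rw [hsub]
  apply pm_abs
  intro v
  exact (expand hδ hδ1 (MM_le h0 j v) (hh_le h1 j v) n).1

theorem telen (hd : d % 2 = 1) (hA : ∀ a, A a % 2 = 1) (hδ : 0 ≤ δ₁) (hδ1 : δ₁ ≤ 1) (h0 : ∀ a n, |φ a n| ≤ 1)
    (h1 : ∀ a n, |φ a (n + 1) - φ a n| ≤ δ₁) (n : ℕ) : ∀ j, j ≤ t →
    |pm t (fun v => ∏ a ∈ range n, MM d t φ A B j v a) - ((∏ a ∈ range n, U t (φ a) 0)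
      + ∑ i ∈ range j, ∑ a ∈ range n, ∑ b ∈ range n, if a < b then QQ d t φ A B n i a b else 0)|
      ≤ j * (4 ^ n * δ₁ ^ 3) := by
  intro j
  induction j with
  | zero =>
    intro _
    simp only [MM, od_zero, Nat.sub_zero, range_zero, sum_empty, add_zero]
    rw [pm_const]
    simp
  | succ j ih =>
    intro hj
    have s := stepn (A := A) (B := B) hd hA hδ hδ1 h0 h1 n (show j < t by omega)
    have i := ih (by omega)
    rw [sum_range_succ]
    set X := pm t (fun v => ∏ a ∈ range n, MM d t φ A B (j + 1) v a) with hX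
    set Y := pm t (fun v => ∏ a ∈ range n, MM d t φ A B j v a) with hY
    set Z := ∑ a ∈ range n, ∑ b ∈ range n, (if a < b then QQ d t φ A B n j a b else 0) with hZ
    set S := ∑ i ∈ range j, ∑ a ∈ range n, ∑ b ∈ range n, (if a < b then QQ d t φ A B n i a b else 0) with hS
    set P := ∏ a ∈ range n, U t (φ a) 0 with hPP
    have e : X - (P + (S + Z)) = (X - (Y + Z)) + (Y - (P + S)) := by ring
    rw [e]
    refine (abs_add_le _ _).trans ?_
    push_cast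
    linarith

/-- a block of quadratic increments -/
theorem blockn (h0 : ∀ a n, |φ a n| ≤ 1) (h1 : ∀ a n, |φ a (n + 1) - φ a n| ≤ δ₁)
    (h2 : ∀ a n, |φ a (n + 2) - 2 * φ a (n + 1) + φ a n| ≤ δ₂) (n a b : ℕ) {m Λ : ℕ} (hm : m + Λ ≤ t) :
    |∑ i ∈ range Λ, QQ d t φ A B n (m + i) a b|
      ≤ (1 + n) * Λ * Λ * (δ₁ * δ₂ + δ₁ ^ 3)
        + δ₁ ^ 2 / 4 * pm t (fun v => |∑ i ∈ range Λ, ss d A B (m + i) v a * ss d A B (m + i) v b|) := by
  have hδ1 : 0 ≤ δ₁ := (abs_nonneg _).trans (h1 0 0)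
  have hδ2 : 0 ≤ δ₂ := (abs_nonneg _).trans (h2 0 0)
  unfold QQ
  rw [← pm_sum]
  refine (abs_pm_le _ _).trans ?_
  rw [← pm_mul]
  rw [← pm_const t ((1 + n) * Λ * Λ * (δ₁ * δ₂ + δ₁ ^ 3)), ← pm_add]
  apply pm_mono
  intro v
  set s : ℕ → ℝ := fun i => ss d A B (m + i) v a * ss d A B (m + i) v b with hs
  have hs1 : ∀ i, |s i| = 1 := by intro i; rw [hs]; simp only []; rw [abs_mul, abs_ss, abs_ss, one_mul]
  set P : ℕ → ℝ := fun i => DD d t φ A B (m + i) v a * DD d t φ A B (m + i) v b *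
    Kp n (MM d t φ A B (m + i) v) a b with hP
  have hsplit : ∑ i ∈ range Λ, ss d A B (m + i) v a * ss d A B (m + i) v b *
      (DD d t φ A B (m + i) v a * DD d t φ A B (m + i) v b * Kp n (MM d t φ A B (m + i) v) a b) / 4
      = P 0 / 4 * (∑ i ∈ range Λ, s i) + ∑ i ∈ range Λ, s i * (P i - P 0) / 4 := by
    rw [mul_sum, ← sum_add_distrib]
    apply sum_congr rfl; intro i _
    simp only [hs, hP]; ring
  rw [hsplit]
  refine (abs_add_le _ _).trans ?_
  have t1 : |P 0 / 4 * (∑ i ∈ range Λ, s i)| ≤ δ₁ ^ 2 / 4 * |∑ i ∈ range Λ, s i| := by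
    rw [abs_mul, abs_div, abs_of_pos (show (0 : ℝ) < 4 by norm_num)]
    apply mul_le_mul_of_nonneg_right _ (abs_nonneg _)
    simp only [hP]
    rw [abs_mul, abs_mul]
    have u1 := mul_le_mul (DD_le (d := d) (t := t) (A := A) (B := B) h1 (m + 0) v a)
      (DD_le (d := d) (t := t) (A := A) (B := B) h1 (m + 0) v b) (abs_nonneg _) hδ1
    have u2 : |Kp n (MM d t φ A B (m + 0) v) a b| ≤ 1 := Kp_le (MM_le h0 _ _) _ _
    have u3 := mul_le_mul u1 u2 (by positivity) (by positivity)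
    rw [sq]; linarith
  have t2 : |∑ i ∈ range Λ, s i * (P i - P 0) / 4| ≤ (1 + n) * Λ * Λ * (δ₁ * δ₂ + δ₁ ^ 3) := by
    refine (abs_sum_le_sum_abs _ _).trans ?_
    have hterm : ∀ i ∈ range Λ, |s i * (P i - P 0) / 4| ≤ (1 + n) * Λ * (δ₁ * δ₂ + δ₁ ^ 3) := by
      intro i hi
      rw [mem_range] at hi
      rw [abs_div, abs_mul, hs1, one_mul, abs_of_pos (show (0 : ℝ) < 4 by norm_num)]
      have hi2 : (i : ℝ) ≤ Λ := by exact_mod_cast (show i ≤ Λ by omega)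
      have w1 : 3 / 2 * (i : ℝ) * δ₂ ≤ 3 / 2 * Λ * δ₂ := by
        apply mul_le_mul_of_nonneg_right _ hδ2; linarith
      have w2 : 3 / 2 * (i : ℝ) * δ₁ ≤ 3 / 2 * Λ * δ₁ := by
        apply mul_le_mul_of_nonneg_right _ hδ1; linarith
      have b1 := (DD_block (d := d) (t := t) (A := A) (B := B) h2 (show m + i < t by omega) v a).trans w1
      have b2 := (DD_block (d := d) (t := t) (A := A) (B := B) h2 (show m + i < t by omega) v b).trans w1
      have b3 := Kp_diff (ε := 3 / 2 * Λ * δ₁) (by positivity)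
        (MM_le (d := d) (t := t) (A := A) (B := B) h0 (m + i) v)
        (MM_le (d := d) (t := t) (A := A) (B := B) h0 m v)
        (fun c => (MM_block (d := d) (t := t) (A := A) (B := B) h1 (show m + i ≤ t by omega) v c).trans w2) n a b
      have c1 := DD_le (d := d) (t := t) (A := A) (B := B) h1 m v a
      have c2 := DD_le (d := d) (t := t) (A := A) (B := B) h1 (m + i) v b
      have c3 := DD_le (d := d) (t := t) (A := A) (B := B) h1 m v b
      have c4 : |Kp n (MM d t φ A B (m + i) v) a b| ≤ 1 := Kp_le (MM_le h0 _ _) _ _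
      simp only [hP, add_zero]
      set x := DD d t φ A B (m + i) v a
      set x' := DD d t φ A B m v a
      set y := DD d t φ A B (m + i) v b
      set y' := DD d t φ A B m v b
      set z := Kp n (MM d t φ A B (m + i) v) a b
      set z' := Kp n (MM d t φ A B m v) a b
      have e : x * y * z - x' * y' * z' = (x - x') * y * z + x' * (y - y') * z + x' * y' * (z - z') := by ring
      rw [e]
      have a1 : |(x - x') * y * z| ≤ 3 / 2 * Λ * δ₂ * δ₁ := by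
        rw [abs_mul, abs_mul]
        have := mul_le_mul b1 c2 (abs_nonneg _) (by positivity)
        exact (mul_le_mul this c4 (abs_nonneg _) (by positivity)).trans (le_of_eq (mul_one _))
      have a2 : |x' * (y - y') * z| ≤ 3 / 2 * Λ * δ₂ * δ₁ := by
        rw [abs_mul, abs_mul]
        have := mul_le_mul c1 b2 (abs_nonneg _) hδ1
        exact (mul_le_mul this c4 (abs_nonneg _) (by positivity)).trans (le_of_eq (by ring))
      have a3 : |x' * y' * (z - z')| ≤ δ₁ * δ₁ * (n * (3 / 2 * Λ * δ₁)) := by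
        rw [abs_mul, abs_mul]
        have := mul_le_mul c1 c3 (abs_nonneg _) hδ1
        exact mul_le_mul this b3 (abs_nonneg _) (by positivity)
      have a4 : |(x - x') * y * z + x' * (y - y') * z + x' * y' * (z - z')|
          ≤ 3 / 2 * Λ * δ₂ * δ₁ + 3 / 2 * Λ * δ₂ * δ₁ + δ₁ * δ₁ * (n * (3 / 2 * Λ * δ₁)) := by
        refine (abs_add_le _ _).trans ?_
        exact add_le_add ((abs_add_le _ _).trans (add_le_add a1 a2)) a3
      have p1 : 0 ≤ (Λ : ℝ) * (δ₂ * δ₁) := by positivity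
      have p2 : 0 ≤ (Λ : ℝ) * δ₁ ^ 3 := by positivity
      have p3 : 0 ≤ (n : ℝ) * ((Λ : ℝ) * (δ₂ * δ₁)) := by positivity
      have p4 : 0 ≤ (n : ℝ) * ((Λ : ℝ) * δ₁ ^ 3) := by positivity
      have e4 : (1 + n) * (Λ : ℝ) * (δ₁ * δ₂ + δ₁ ^ 3)
        = (Λ : ℝ) * (δ₂ * δ₁) + (Λ : ℝ) * δ₁ ^ 3 + (n : ℝ) * ((Λ : ℝ) * (δ₂ * δ₁)) + (n : ℝ) * ((Λ : ℝ) * δ₁ ^ 3) := by
        ring
      have e5 : 3 / 2 * (Λ : ℝ) * δ₂ * δ₁ + 3 / 2 * Λ * δ₂ * δ₁ + δ₁ * δ₁ * (n * (3 / 2 * Λ * δ₁))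
        = 3 * ((Λ : ℝ) * (δ₂ * δ₁)) + 3 / 2 * ((n : ℝ) * ((Λ : ℝ) * δ₁ ^ 3)) := by ring
      rw [e5] at a4
      rw [e4]
      linarith
    refine (sum_le_sum hterm).trans ?_
    rw [sum_const, card_range, nsmul_eq_mul]
    apply le_of_eq; ring
  linarith

/-- trivial bound for one quadratic increment -/
theorem QQ_le (h0 : ∀ a n, |φ a n| ≤ 1) (h1 : ∀ a n, |φ a (n + 1) - φ a n| ≤ δ₁) (n j a b : ℕ) :
    |QQ d t φ A B n j a b| ≤ δ₁ ^ 2 / 4 := by
  have hδ1 : 0 ≤ δ₁ := (abs_nonneg _).trans (h1 0 0)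
  apply pm_abs
  intro v
  rw [abs_div, abs_mul, abs_mul, abs_ss, abs_ss, abs_of_pos (show (0 : ℝ) < 4 by norm_num), abs_mul, abs_mul]
  have u1 := mul_le_mul (DD_le (d := d) (t := t) (A := A) (B := B) h1 j v a)
    (DD_le (d := d) (t := t) (A := A) (B := B) h1 j v b) (abs_nonneg _) hδ1
  have u2 : |Kp n (MM d t φ A B j v) a b| ≤ 1 := Kp_le (MM_le h0 _ _) _ _
  have u3 := mul_le_mul u1 u2 (by positivity) (by positivity)
  rw [sq]; linarith

/-- sum of all quadratic increments of a pair -/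
theorem pairn (h0 : ∀ a n, |φ a n| ≤ 1) (h1 : ∀ a n, |φ a (n + 1) - φ a n| ≤ δ₁)
    (h2 : ∀ a n, |φ a (n + 2) - 2 * φ a (n + 1) + φ a n| ≤ δ₂) (n a b : ℕ) {Λ : ℕ} (hΛ : 1 ≤ Λ) :
    |∑ j ∈ range t, QQ d t φ A B n j a b|
      ≤ (1 + n) * t * Λ * (δ₁ * δ₂ + δ₁ ^ 3) + Λ * δ₁ ^ 2 / 4
        + δ₁ ^ 2 / 4 * ∑ q ∈ range (t / Λ), pm t (fun v => |∑ j ∈ range Λ,
            sg ((Tz d)^[q * Λ + j] (A a * v + B a)) * sg ((Tz d)^[q * Λ + j] (A b * v + B b))|) := by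
  have hδ1 : 0 ≤ δ₁ := (abs_nonneg _).trans (h1 0 0)
  have hδ2 : 0 ≤ δ₂ := (abs_nonneg _).trans (h2 0 0)
  have hfull : ∀ q : ℕ, q * Λ ≤ t → |∑ j ∈ range (q * Λ), QQ d t φ A B n j a b|
      ≤ (1 + n) * ((q * Λ : ℕ) : ℝ) * Λ * (δ₁ * δ₂ + δ₁ ^ 3)
        + δ₁ ^ 2 / 4 * ∑ q ∈ range q, pm t (fun v => |∑ j ∈ range Λ,
            sg ((Tz d)^[q * Λ + j] (A a * v + B a)) * sg ((Tz d)^[q * Λ + j] (A b * v + B b))|) := by
    intro q
    induction q with
    | zero => intro _; simp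
    | succ q ih =>
      intro hq
      have hq' : q * Λ + Λ ≤ t := by rw [Nat.succ_mul] at hq; exact hq
      have i1 := ih (by omega)
      have i2 := blockn (d := d) (t := t) (A := A) (B := B) h0 h1 h2 n a b hq'
      rw [Nat.succ_mul, sum_range_add, sum_range_succ]
      refine (abs_add_le _ _).trans ?_
      have h3 : ((q * Λ + Λ : ℕ) : ℝ) = ((q * Λ : ℕ) : ℝ) + Λ := by push_cast; ring
      rw [h3]
      unfold ss xx at i2
      nlinarith
  set q := t / Λ with hq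
  set r := t % Λ with hr
  have hqr : q * Λ + r = t := by rw [hq, hr]; exact Nat.div_add_mod' t Λ
  have hrΛ : r < Λ := Nat.mod_lt _ hΛ
  have i1 := hfull q (by omega)
  have i2 : |∑ i ∈ range r, QQ d t φ A B n (q * Λ + i) a b| ≤ Λ * δ₁ ^ 2 / 4 := by
    refine (abs_sum_le_sum_abs _ _).trans ?_
    refine (sum_le_sum fun i _ => QQ_le (d := d) (t := t) (A := A) (B := B) h0 h1 n (q * Λ + i) a b).trans ?_
    rw [sum_const, card_range, nsmul_eq_mul]
    have h5 : (r : ℝ) ≤ Λ := by exact_mod_cast hrΛ.le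
    have h6 : 0 ≤ δ₁ ^ 2 / 4 := by positivity
    nlinarith
  have e1 : ∑ j ∈ range t, QQ d t φ A B n j a b
      = ∑ j ∈ range (q * Λ), QQ d t φ A B n j a b + ∑ i ∈ range r, QQ d t φ A B n (q * Λ + i) a b := by
    rw [← sum_range_add, hqr]
  rw [e1]
  refine (abs_add_le _ _).trans ?_
  have hqt : ((q * Λ : ℕ) : ℝ) ≤ t := by exact_mod_cast (show q * Λ ≤ t by omega)
  have h7 : (1 + n) * ((q * Λ : ℕ) : ℝ) * Λ * (δ₁ * δ₂ + δ₁ ^ 3) ≤ (1 + n) * t * Λ * (δ₁ * δ₂ + δ₁ ^ 3) := by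
    apply mul_le_mul_of_nonneg_right _ (by positivity)
    apply mul_le_mul_of_nonneg_right _ (by positivity)
    apply mul_le_mul_of_nonneg_left hqt (by positivity)
  linarith

end NW

/-- **`n` WALKERS.** -/
theorem nw (d : ℤ) (hd : d % 2 = 1) : S_NW d := by
  intro n
  refine ⟨n ^ 2 * (2 + n) + 4 ^ n, by positivity, ?_⟩
  intro t Λ hΛ1 hΛ φ δ₁ δ₂ hδ1 hδ hδ2 h0 h1 h2 A B hA
  have hT := NW.telen (d := d) (t := t) (φ := φ) (A := A) (B := B) hd hA hδ1 hδ h0 h1 n t le_rfl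
  simp only [NW.MM, Nat.sub_self, U_zero, NW.xx] at hT
  simp only [pm_od hd]
  set W : ℕ → ℕ → ℝ := fun a b => ∑ q ∈ range (t / Λ), pm t (fun v => |∑ j ∈ range Λ,
        sg ((Tz d)^[q * Λ + j] (A a * v + B a)) * sg ((Tz d)^[q * Λ + j] (A b * v + B b))|) with hW
  have hW0 : ∀ a b, 0 ≤ W a b := by
    intro a b
    simp only [hW]
    exact sum_nonneg fun q _ => pm_nonneg fun v => abs_nonneg _
  set E0 : ℝ := (1 + n) * t * Λ * (δ₁ * δ₂ + δ₁ ^ 3) + Λ * δ₁ ^ 2 / 4 with hE0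
  have hE00 : 0 ≤ E0 := by rw [hE0]; positivity
  have hp : ∀ a b : ℕ, |∑ j ∈ range t, NW.QQ d t φ A B n j a b| ≤ E0 + δ₁ ^ 2 / 4 * W a b := by
    intro a b
    exact NW.pairn h0 h1 h2 n a b hΛ1
  have hswap : ∑ i ∈ range t, ∑ a ∈ range n, ∑ b ∈ range n, (if a < b then NW.QQ d t φ A B n i a b else 0)
      = ∑ a ∈ range n, ∑ b ∈ range n, if a < b then ∑ i ∈ range t, NW.QQ d t φ A B n i a b else 0 := by
    rw [sum_comm]
    apply sum_congr rfl; intro a _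
    rw [sum_comm]
    apply sum_congr rfl; intro b _
    split_ifs
    · rfl
    · simp
  have hS : |∑ i ∈ range t, ∑ a ∈ range n, ∑ b ∈ range n, (if a < b then NW.QQ d t φ A B n i a b else 0)|
      ≤ n ^ 2 * E0 + δ₁ ^ 2 / 4 * ∑ a ∈ range n, ∑ b ∈ range n, if a < b then W a b else 0 := by
    rw [hswap]
    refine (abs_sum_le_sum_abs _ _).trans ?_
    have h5 : ∀ a ∈ range n, |∑ b ∈ range n, if a < b then ∑ i ∈ range t, NW.QQ d t φ A B n i a b else 0|
        ≤ n * E0 + δ₁ ^ 2 / 4 * ∑ b ∈ range n, if a < b then W a b else 0 := by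
      intro a _
      refine (abs_sum_le_sum_abs _ _).trans ?_
      have h6 : ∀ b ∈ range n, |if a < b then ∑ i ∈ range t, NW.QQ d t φ A B n i a b else 0|
          ≤ E0 + δ₁ ^ 2 / 4 * (if a < b then W a b else 0) := by
        intro b _
        split_ifs
        · exact hp a b
        · rw [abs_zero]; linarith
      refine (sum_le_sum h6).trans ?_
      rw [sum_add_distrib, sum_const, card_range, nsmul_eq_mul, ← mul_sum]
    refine (sum_le_sum h5).trans ?_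
    rw [sum_add_distrib, sum_const, card_range, nsmul_eq_mul, ← mul_sum]
    apply le_of_eq; ring
  set WW := ∑ a ∈ range n, ∑ b ∈ range n, (if a < b then W a b else 0) with hWW
  have hWW0 : 0 ≤ WW := by
    rw [hWW]
    apply sum_nonneg; intro a _
    apply sum_nonneg; intro b _
    split_ifs
    · exact hW0 a b
    · exact le_rfl
  set S := ∑ i ∈ range t, ∑ a ∈ range n, ∑ b ∈ range n, (if a < b then NW.QQ d t φ A B n i a b else 0) with hSS
  set P := ∏ a ∈ range n, U t (φ a) 0 with hPP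
  set X := pm t (fun v => ∏ a ∈ range n, φ a (od d t (A a * v + B a))) with hX
  have e : X - P = (X - (P + S)) + S := by ring
  have hΛ' : (1 : ℝ) ≤ Λ := by exact_mod_cast hΛ1
  have k1 : 0 ≤ (t : ℝ) * Λ * (δ₁ * δ₂ + δ₁ ^ 3) := by positivity
  have k2 : 0 ≤ (Λ : ℝ) * δ₁ ^ 2 := by positivity
  have k3 : 0 ≤ δ₁ ^ 2 * WW := by positivity
  have k4 : (t : ℝ) * (4 ^ n * δ₁ ^ 3) ≤ 4 ^ n * (t * Λ * (δ₁ * δ₂ + δ₁ ^ 3)) := by
    have h6 : (t : ℝ) * δ₁ ^ 3 * 1 ≤ (t * δ₁ ^ 3) * Λ := mul_le_mul_of_nonneg_left hΛ' (by positivity)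
    have h7 : 0 ≤ (t : ℝ) * Λ * (δ₁ * δ₂) := by positivity
    have h8 : (t : ℝ) * δ₁ ^ 3 ≤ t * Λ * (δ₁ * δ₂ + δ₁ ^ 3) := by nlinarith
    have h9 := mul_le_mul_of_nonneg_left h8 (show (0 : ℝ) ≤ 4 ^ n by positivity)
    linarith
  have k5 : (n : ℝ) ^ 2 * E0 ≤ n ^ 2 * (2 + n) * (t * Λ * (δ₁ * δ₂ + δ₁ ^ 3) + Λ * δ₁ ^ 2) := by
    rw [hE0]
    have h5 : (1 + n) * (t : ℝ) * Λ * (δ₁ * δ₂ + δ₁ ^ 3) + Λ * δ₁ ^ 2 / 4
        ≤ (2 + n) * (t * Λ * (δ₁ * δ₂ + δ₁ ^ 3) + Λ * δ₁ ^ 2) := by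
      have e1 : (1 + n) * (t : ℝ) * Λ * (δ₁ * δ₂ + δ₁ ^ 3) = (1 + n) * (t * Λ * (δ₁ * δ₂ + δ₁ ^ 3)) := by ring
      rw [e1]
      have hn : (0 : ℝ) ≤ n := Nat.cast_nonneg n
      have h6 : 0 ≤ (n : ℝ) * ((Λ : ℝ) * δ₁ ^ 2) := by positivity
      linarith
    have h6 := mul_le_mul_of_nonneg_left h5 (show (0 : ℝ) ≤ (n : ℝ) ^ 2 by positivity)
    linarith
  have k6 : 0 ≤ (4 : ℝ) ^ n * ((Λ : ℝ) * δ₁ ^ 2) := by positivity
  rw [e]
  refine (abs_add_le _ _).trans ?_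
  have hT' : |X - (P + S)| ≤ t * (4 ^ n * δ₁ ^ 3) := hT
  have hfin : (n ^ 2 * (2 + n) + 4 ^ n : ℝ) * (t * Λ * (δ₁ * δ₂ + δ₁ ^ 3) + Λ * δ₁ ^ 2)
      = n ^ 2 * (2 + n) * (t * Λ * (δ₁ * δ₂ + δ₁ ^ 3) + Λ * δ₁ ^ 2)
        + 4 ^ n * (t * Λ * (δ₁ * δ₂ + δ₁ ^ 3)) + 4 ^ n * (Λ * δ₁ ^ 2) := by ring
  have hgoal : |X - (P + S)| + |S| ≤ δ₁ ^ 2 * WW
      + (n ^ 2 * (2 + n) + 4 ^ n : ℝ) * (t * Λ * (δ₁ * δ₂ + δ₁ ^ 3) + Λ * δ₁ ^ 2) := by
    rw [hfin]
    linarith
  exact hgoal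

end Pool.Agent.KS6_24.ST
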