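import Mathlib
import Pool.Agent.KS6_24.ST.Main
import Pool.Agent.KS6_24.ST.NW
import Pool.Agent.KS6_24.ST.EtaN
import Pool.Agent.KS6_24.ST.StageN
import Pool.Agent.KS6_24.ST.CorN

/-! Project MX: assembly (n functions). -/

set_option autoImplicit false

namespace Pool.Agent.KS6_24.ST

theorem stagen_all {d : ℤ} (hd : d = 1 ∨ d = -1) : S_STAGEN d := by
  have hd2 : d % 2 = 1 := by rcases hd with rfl | rfl <;> decide
  have hb : S_BAL d := bal d hd b0 pot
  have h1 : Pool.Agent.KS6_24.LN.S_TV d := Pool.Agent.KS6_24.LN.tv d hd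
  exact stagen d hd (etan d hd (nw d hd2) (ws d hd2 h1) hb)

/-- mixing of all orders -/
theorem cornl_all {d : ℤ} (hd : d = 1 ∨ d = -1) : S_CORNL d := cornl d hd (stagen_all hd) (en3_all hd)

end Pool.Agent.KS6_24.ST
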