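import Mathlib
import Pool.Agent.KS6_24.ST.MXMain
import Pool.Agent.KS6_24.ST.FM1
import Pool.Agent.KS6_24.ST.FM2
import Pool.Agent.KS6_24.ST.FM3
import Pool.Agent.KS6_24.ST.FM4
import Pool.Agent.KS6_24.ST.FM5

/-! Project FM: assembly. -/

set_option autoImplicit false

namespace Pool.Agent.KS6_24.ST

theorem ws_all {d : ℤ} (hd : d = 1 ∨ d = -1) : S_WS d := by
  have hd2 : d % 2 = 1 := by rcases hd with rfl | rfl <;> decide
  exact ws d hd2 (Pool.Agent.KS6_24.LN.tv d hd)

theorem etam_all : S_ETAM := etam (nw 1 (by norm_num)) (fun _ hd => ws_all hd) (balm b0m)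

/-- independence of mean zero functions along multiples whose quotients are `5, 7` modulo `8` -/
theorem corm_all : S_CORM := corm (stagem etam_all) fun _ hd => en3_all hd

end Pool.Agent.KS6_24.ST
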