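import Mathlib

/-! GL1: zeros modulo a power of two of an exponential polynomial (a 2-adic lemma of Schwarz in exact integers). -/

set_option autoImplicit false

namespace Pool.Agent.KS6_24.ST.GL

open Finset Polynomial

/-- exponential polynomial -/
def Ge (K L : ℕ) (p : ℕ → ℕ → ℤ) (x : ℕ) : ℤ :=
  ∑ k ∈ range K, ∑ l ∈ range L, p k l * (x : ℤ) ^ k * 9 ^ (x * l)

/-- product of the differences -/
def Wd : List ℤ → ℤ
  | [] => 1
  | y :: l => Wd l * (l.map (fun z => z - y)).prod

theorem Wd_ne : ∀ l : List ℤ, l.Nodup → Wd l ≠ 0 := by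
  intro l
  induction l with
  | nil => intro _; simp [Wd]
  | cons y l ih =>
    intro h
    rw [List.nodup_cons] at h
    rw [Wd]
    apply mul_ne_zero (ih h.2)
    apply List.prod_ne_zero
    intro h0
    rw [List.mem_map] at h0
    obtain ⟨z, hz, hz0⟩ := h0
    have : z = y := by linarith
    rw [this] at hz
    exact h.1 hz

theorem prod_abs_le {X : ℤ} (hX : 0 ≤ X) (y : ℤ) : ∀ l : List ℤ, (∀ z ∈ l, |z - y| ≤ X) →
    |(l.map (fun z => z - y)).prod| ≤ X ^ l.length := by
  intro l
  induction l with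
  | nil => intro _; simp
  | cons z l ih =>
    intro h
    rw [List.map_cons, List.prod_cons, abs_mul, List.length_cons, pow_succ']
    exact mul_le_mul (h z (by simp)) (ih fun z' hz' => h z' (by simp [hz'])) (abs_nonneg _) hX

theorem Wd_abs {w : ℕ} : ∀ l : List ℤ, (∀ z ∈ l, 0 ≤ z ∧ z ≤ 2 ^ w) → |Wd l| ≤ 2 ^ (w * l.length ^ 2) := by
  intro l
  induction l with
  | nil => intro _; simp [Wd]
  | cons y l ih =>
    intro h
    rw [Wd, abs_mul]
    have h1 := ih fun z hz => h z (by simp [hz])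
    have hy := h y (by simp)
    have h2 := prod_abs_le (X := 2 ^ w) (by positivity) y l fun z hz => by
      have := h z (by simp [hz])
      rw [abs_le]; constructor <;> linarith [this.1, this.2, hy.1, hy.2]
    calc |Wd l| * |(l.map (fun z => z - y)).prod| ≤ 2 ^ (w * l.length ^ 2) * (2 ^ w) ^ l.length :=
          mul_le_mul h1 h2 (abs_nonneg _) (by positivity)
      _ = 2 ^ (w * l.length ^ 2 + w * l.length) := by rw [← pow_mul, ← pow_add]
      _ ≤ 2 ^ (w * (y :: l).length ^ 2) := by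
          apply pow_le_pow_right₀ (by norm_num)
          rw [List.length_cons]
          nlinarith

theorem degC (c : ℤ) (B : ℤ[X]) : (C c * B).degree ≤ B.degree := by
  have h := degree_mul_le (C c) B
  have h2 : (C c : ℤ[X]).degree + B.degree ≤ 0 + B.degree := add_le_add degree_C_le le_rfl
  rw [zero_add] at h2
  exact h.trans h2

/-- interpolation -/
theorem newton {v : ℕ} : ∀ l : List ℤ, ∀ B : ℤ[X], B.degree < (l.length : ℕ) →
    (∀ y ∈ l, (2 : ℤ) ^ v ∣ B.eval y) → ∀ x : ℤ, (2 : ℤ) ^ v ∣ Wd l * B.eval x := by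
  intro l
  induction l with
  | nil =>
    intro B hB _ x
    have : B = 0 := by
      by_contra h
      rw [degree_eq_natDegree h] at hB
      simp at hB
    rw [this]; simp
  | cons y l ih =>
    intro B hB h x
    set B1 := B /ₘ (X - C y) with hB1
    have hm : Monic (X - C y) := monic_X_sub_C y
    have e : C (B.eval y) + (X - C y) * B1 = B := by
      have := modByMonic_add_div B (X - C y)
      rwa [modByMonic_X_sub_C_eq_C_eval] at this
    have ee : ∀ z : ℤ, B.eval z = B.eval y + (z - y) * B1.eval z := by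
      intro z
      conv_lhs => rw [← e]
      simp
    have hdeg : B1.degree < (l.length : ℕ) := by
      by_cases h0 : B1 = 0
      · rw [h0, degree_zero]; exact WithBot.bot_lt_coe _
      · have hn := natDegree_divByMonic B hm
        rw [natDegree_X_sub_C, ← hB1] at hn
        have hB0 : B ≠ 0 := by
          intro hz
          apply h0
          rw [hB1, hz]; simp
        rw [degree_eq_natDegree hB0] at hB
        have hB' : B.natDegree < l.length + 1 := by
          have := WithBot.coe_lt_coe.1 hB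
          simpa using this
        rw [degree_eq_natDegree h0]
        have : B1.natDegree < l.length := by
          have h1 : 1 ≤ B.natDegree := by
            by_contra hlt
            have hz : B.natDegree = 0 := by omega
            apply h0
            rw [hB1, divByMonic_eq_zero_iff hm, degree_X_sub_C, degree_eq_natDegree hB0, hz]
            norm_num
          omega
        exact_mod_cast this
    set c := (l.map (fun z => z - y)).prod with hc
    have h1 : ∀ z ∈ l, (2 : ℤ) ^ v ∣ (C c * B1).eval z := by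
      intro z hz
      have h2 : (z - y) ∣ c := List.dvd_prod (List.mem_map.2 ⟨z, hz, rfl⟩)
      obtain ⟨q, hq⟩ := h2
      have h3 : (C c * B1).eval z = q * (B.eval z - B.eval y) := by
        rw [eval_mul, eval_C, hq, ee z]; ring
      rw [h3]
      exact Dvd.dvd.mul_left (dvd_sub (h z (by simp [hz])) (h y (by simp))) q
    have h2 := ih (C c * B1) (lt_of_le_of_lt (degC c B1) hdeg) h1 x
    have h3 : Wd (y :: l) * B.eval x = (Wd l * c) * B.eval y + (x - y) * (Wd l * (C c * B1).eval x) := by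
      rw [Wd, ← hc, ee x, eval_mul, eval_C]; ring
    rw [h3]
    exact dvd_add (Dvd.dvd.mul_left (h y (by simp)) _) (Dvd.dvd.mul_left h2 _)

theorem pow_dvd_of_mul {v u : ℕ} {W z : ℤ} (hW : W ≠ 0) (hu : |W| ≤ 2 ^ u) (h : (2 : ℤ) ^ v ∣ W * z) :
    (2 : ℤ) ^ (v - u) ∣ z := by
  obtain ⟨f, m, hm, hf⟩ := Nat.exists_eq_two_pow_mul_odd (Int.natAbs_ne_zero.2 hW)
  have hfu : f ≤ u := by
    have h1 : 2 ^ f ≤ W.natAbs := by
      rw [hf]; exact Nat.le_mul_of_pos_right _ hm.pos
    have h2 : (W.natAbs : ℤ) ≤ 2 ^ u := by rw [Int.natCast_natAbs]; exact hu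
    have h3 : W.natAbs ≤ 2 ^ u := by exact_mod_cast h2
    exact (Nat.pow_le_pow_iff_right (by norm_num)).1 (h1.trans h3)
  have h1 : 2 ^ v ∣ W.natAbs * z.natAbs := by
    rw [← Int.natAbs_mul, ← Int.natCast_dvd]
    push_cast
    exact h
  rcases Nat.lt_or_ge v f with hvf | hvf
  · rw [show v - u = 0 by omega]; simp
  · have h2 : 2 ^ (v - f) ∣ m * z.natAbs := by
      rw [hf, mul_assoc, ← Nat.sub_add_cancel hvf, pow_add, mul_comm (2 ^ (v - f))] at h1
      exact (Nat.mul_dvd_mul_iff_left (by positivity)).1 h1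
    have h3 : 2 ^ (v - f) ∣ z.natAbs := by
      apply (Nat.Coprime.dvd_of_dvd_mul_left _ h2)
      exact Nat.Coprime.pow_left _ (Nat.coprime_two_left.2 hm)
    have h4 : 2 ^ (v - u) ∣ z.natAbs := (pow_dvd_pow 2 (by omega)).trans h3
    rw [← Int.natCast_dvd] at h4
    push_cast at h4
    exact h4

theorem fact_two (j : ℕ) : ∃ f o : ℕ, f ≤ j ∧ o % 2 = 1 ∧ j.factorial = 2 ^ f * o := by
  obtain ⟨f, m, hm, hf⟩ := Nat.exists_eq_two_pow_mul_odd (Nat.factorial_ne_zero j)
  refine ⟨f, m, ?_, Nat.odd_iff.1 hm, hf⟩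
  rcases Nat.eq_zero_or_pos j with rfl | hj
  · have h1 : 2 ^ f ≤ 1 := by
      rw [Nat.factorial_zero] at hf
      rw [hf]; exact Nat.le_mul_of_pos_right _ hm.pos
    by_contra h
    have : 2 ^ 1 ≤ 2 ^ f := Nat.pow_le_pow_right (by norm_num) (by omega)
    omega
  · have h1 := Nat.emultiplicity_two_factorial_lt (n := j) (by omega)
    have h2 : (f : ℕ∞) ≤ emultiplicity 2 j.factorial := le_emultiplicity_of_pow_dvd ⟨m, hf⟩
    have h3 : (f : ℕ∞) < j := lt_of_le_of_lt h2 h1
    exact (by exact_mod_cast h3.le)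

/-- expansion with coefficients `4 ^ j` -/
theorem expand (K L M : ℕ) (p : ℕ → ℕ → ℤ) : ∃ (D : ℤ) (Q : ℕ → ℤ[X]), D % 2 = 1 ∧
    (∀ j, (Q j).degree < ((K + j : ℕ) : WithBot ℕ)) ∧
    ∀ x : ℕ, x * L ≤ M → D * Ge K L p x = ∑ j ∈ range (M + 1), 4 ^ j * (Q j).eval (x : ℤ) := by
  choose f o hf ho hfo using fact_two
  set D : ℕ := ∏ j ∈ range (M + 1), o j with hD
  set c : ℕ → ℤ := fun j => if j ∈ range (M + 1) then 2 ^ (j - f j) * ((∏ i ∈ (range (M + 1)).erase j, o i : ℕ) : ℤ) else 0 with hc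
  have hDo : D % 2 = 1 := by
    rw [← Nat.odd_iff, hD]
    apply Finset.prod_induction _ Odd (fun a b ha hb => ha.mul hb) odd_one
    intro j _
    exact Nat.odd_iff.2 (ho j)
  have hcj : ∀ j ∈ range (M + 1), c j * (j.factorial : ℤ) = 2 ^ j * D := by
    intro j hj
    rw [hc]
    simp only
    rw [if_pos hj, hfo j, hD, ← mul_prod_erase (range (M + 1)) o hj]
    push_cast
    have : (2 : ℤ) ^ j = 2 ^ (j - f j) * 2 ^ f j := by rw [← pow_add]; congr 1; have := hf j; omega
    rw [this]; ring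
  refine ⟨D, fun j => ∑ k ∈ range K, ∑ l ∈ range L, C (p k l * c j) * (X ^ k * (descPochhammer ℤ j).comp (C (l : ℤ) * X)),
    by exact_mod_cast hDo, ?_, ?_⟩
  · intro j
    rw [← mem_degreeLT]
    apply Submodule.sum_mem
    intro k hk
    apply Submodule.sum_mem
    intro l _
    rw [mem_degreeLT]
    rw [mem_range] at hk
    refine lt_of_le_of_lt (degC _ _) ?_
    refine lt_of_le_of_lt (degree_le_natDegree) ?_
    have h1 : (X ^ k * (descPochhammer ℤ j).comp (C (l : ℤ) * X) : ℤ[X]).natDegree ≤ k + j := by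
      refine natDegree_mul_le.trans (add_le_add (natDegree_X_pow_le k) ?_)
      refine natDegree_comp_le.trans ?_
      rw [descPochhammer_natDegree]
      have : (C (l : ℤ) * X : ℤ[X]).natDegree ≤ 1 := (natDegree_C_mul_le _ _).trans natDegree_X_le
      nlinarith
    exact_mod_cast (show (X ^ k * (descPochhammer ℤ j).comp (C (l : ℤ) * X) : ℤ[X]).natDegree < K + j by omega)
  · intro x hx
    have h9 : ∀ l < L, (D : ℤ) * 9 ^ (x * l) = ∑ j ∈ range (M + 1), 4 ^ j * (c j * (descPochhammer ℤ j).eval ((x * l : ℕ) : ℤ)) := by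
      intro l hl
      have h1 : ((9 : ℕ) : ℤ) ^ (x * l) = ∑ j ∈ range (M + 1), (((x * l).choose j : ℕ) : ℤ) * 8 ^ j := by
        have h2 : (9 : ℕ) ^ (x * l) = ∑ j ∈ range (x * l + 1), (x * l).choose j * 8 ^ j := by
          rw [show (9 : ℕ) = 8 + 1 by norm_num, add_pow]
          apply sum_congr rfl
          intro j _
          rw [one_pow, mul_one, mul_comm]
          rfl
        have h3 : ∑ j ∈ range (x * l + 1), (x * l).choose j * 8 ^ j = ∑ j ∈ range (M + 1), (x * l).choose j * 8 ^ j := by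
          apply sum_subset
          · intro j hj
            rw [mem_range] at hj ⊢
            have : x * l ≤ x * L := Nat.mul_le_mul_left _ hl.le
            omega
          · intro j _ hj
            rw [mem_range] at hj
            rw [Nat.choose_eq_zero_of_lt (by omega), zero_mul]
        rw [h3] at h2
        exact_mod_cast h2
      push_cast at h1
      rw [h1, mul_sum]
      apply sum_congr rfl
      intro j hj
      rw [descPochhammer_eval_eq_descFactorial, Nat.descFactorial_eq_factorial_mul_choose]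
      have h2 := hcj j hj
      push_cast
      calc (D : ℤ) * ((((x * l).choose j : ℕ) : ℤ) * 8 ^ j) = 4 ^ j * (2 ^ j * D) * ((x * l).choose j : ℕ) := by
            rw [show (8 : ℤ) = 4 * 2 by norm_num, mul_pow]; ring
        _ = _ := by rw [← h2]; ring
    unfold Ge
    rw [mul_sum]
    have h4 : ∀ j ∈ range (M + 1), 4 ^ j * (∑ k ∈ range K, ∑ l ∈ range L,
        C (p k l * c j) * (X ^ k * (descPochhammer ℤ j).comp (C (l : ℤ) * X))).eval (x : ℤ)
        = ∑ k ∈ range K, ∑ l ∈ range L, p k l * (x : ℤ) ^ k * (4 ^ j * (c j * (descPochhammer ℤ j).eval ((x * l : ℕ) : ℤ))) := by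
      intro j _
      rw [eval_finsetSum, mul_sum]
      apply sum_congr rfl
      intro k _
      rw [eval_finsetSum, mul_sum]
      apply sum_congr rfl
      intro l _
      rw [eval_mul, eval_mul, eval_C, eval_pow, eval_X, eval_comp, eval_mul, eval_C, eval_X]
      push_cast
      rw [mul_comm (l : ℤ) (x : ℤ)]
      ring
    rw [sum_congr rfl h4, sum_comm]
    apply sum_congr rfl
    intro k _
    rw [mul_sum, sum_comm]
    apply sum_congr rfl
    intro l hl
    rw [mem_range] at hl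
    rw [← mul_sum, ← h9 l hl]
    ring

/-- zeros modulo `2 ^ v` give divisibility by a power of four everywhere -/
theorem schwarz (K L w v : ℕ) (p : ℕ → ℕ → ℤ) (s : Finset ℕ) (hs : ∀ x ∈ s, x ≤ 2 ^ w)
    (hG : ∀ x ∈ s, (2 : ℤ) ^ v ∣ Ge K L p x) {x : ℕ} (hx : x ≤ 2 ^ w) {μ : ℕ} (h1 : μ + 2 * K ≤ 2 * #s)
    (h2 : μ + w * #s ^ 2 ≤ v) : (2 : ℤ) ^ μ ∣ Ge K L p x := by
  obtain ⟨D, Q, hD, hQ, hexp⟩ := expand K L (2 ^ w * L) p
  set Pi : ℤ[X] := ∏ y ∈ s, (X - C (y : ℤ)) with hPi
  have hPim : Pi.Monic := monic_prod_of_monic _ _ fun y _ => monic_X_sub_C _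
  have hPid : Pi.natDegree = #s := by
    rw [hPi, natDegree_prod_of_monic _ _ fun y _ => monic_X_sub_C _]
    have : ∀ y ∈ s, (X - C ((y : ℕ) : ℤ) : ℤ[X]).natDegree = 1 := fun y _ => natDegree_X_sub_C _
    rw [Finset.sum_congr rfl this]
    simp
  set B : ℤ[X] := ∑ j ∈ range (2 ^ w * L + 1), C (4 ^ j : ℤ) * (Q j %ₘ Pi) with hB
  have hBd : B.degree < ((#s : ℕ) : WithBot ℕ) := by
    rw [← mem_degreeLT]
    apply Submodule.sum_mem
    intro j _
    rw [mem_degreeLT]
    refine lt_of_le_of_lt (degC _ _) ?_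
    have h3 := degree_modByMonic_lt (Q j) hPim
    rwa [degree_eq_natDegree hPim.ne_zero, hPid] at h3
  set R : ℤ → ℤ := fun z => ∑ j ∈ range (2 ^ w * L + 1), 4 ^ j * (Pi.eval z * (Q j /ₘ Pi).eval z) with hR
  have key : ∀ y : ℕ, y ≤ 2 ^ w → D * Ge K L p y = B.eval (y : ℤ) + R (y : ℤ) := by
    intro y hy
    rw [hexp y (Nat.mul_le_mul_right L hy), hB, hR, eval_finsetSum]
    simp only
    rw [← sum_add_distrib]
    apply sum_congr rfl
    intro j _
    rw [eval_mul, eval_C]
    have h3 := congrArg (fun P => P.eval (y : ℤ)) (modByMonic_add_div (Q j) Pi)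
    simp only [eval_add, eval_mul] at h3
    rw [← h3]; ring
  have hRdvd : ∀ z : ℤ, (2 : ℤ) ^ μ ∣ R z := by
    intro z
    rw [hR]
    apply dvd_sum
    intro j _
    rcases Nat.lt_or_ge (#s) (K + j) with hj | hj
    · have h4 : (2 : ℤ) ^ μ ∣ 4 ^ j := by
        rw [show (4 : ℤ) = 2 ^ 2 by norm_num, ← pow_mul]
        exact pow_dvd_pow 2 (by omega)
      exact Dvd.dvd.mul_right h4 _
    · have h4 : Q j /ₘ Pi = 0 := by
        rw [divByMonic_eq_zero_iff hPim, degree_eq_natDegree hPim.ne_zero, hPid]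
        exact lt_of_lt_of_le (hQ j) (by exact_mod_cast hj)
      rw [h4]; simp
  have hRz : ∀ y ∈ s, R (y : ℤ) = 0 := by
    intro y hy
    rw [hR]
    apply sum_eq_zero
    intro j _
    have h4 : Pi.eval (y : ℤ) = 0 := by
      rw [hPi, eval_prod]
      apply prod_eq_zero hy
      simp
    rw [h4]; ring
  -- the list of the points
  set l : List ℤ := s.toList.map (fun y : ℕ => (y : ℤ)) with hl
  have hlen : l.length = #s := by rw [hl]; simp
  have hnd : l.Nodup := by
    rw [hl]
    exact (Finset.nodup_toList s).map (fun a b h => by exact_mod_cast h)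
  have hlb : ∀ z ∈ l, 0 ≤ z ∧ z ≤ 2 ^ w := by
    intro z hz
    rw [hl, List.mem_map] at hz
    obtain ⟨y, hy, rfl⟩ := hz
    have := hs y (Finset.mem_toList.1 hy)
    exact ⟨by positivity, by exact_mod_cast this⟩
  have h5 : (2 : ℤ) ^ v ∣ Wd l * B.eval (x : ℤ) := by
    apply newton l B (by rw [hlen]; exact hBd)
    intro z hz
    rw [hl, List.mem_map] at hz
    obtain ⟨y, hy, rfl⟩ := hz
    have hy' := Finset.mem_toList.1 hy
    have h6 := key y (hs y hy')
    rw [hRz y hy', add_zero] at h6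
    rw [← h6]
    exact Dvd.dvd.mul_left (hG y hy') D
  have h6 : (2 : ℤ) ^ (v - w * l.length ^ 2) ∣ B.eval (x : ℤ) :=
    pow_dvd_of_mul (Wd_ne l hnd) (Wd_abs l hlb) h5
  rw [hlen] at h6
  have h7 : (2 : ℤ) ^ μ ∣ B.eval (x : ℤ) := (pow_dvd_pow 2 (by omega)).trans h6
  have h8 : (2 : ℤ) ^ μ ∣ D * Ge K L p x := by
    rw [key x hx]
    exact dvd_add h7 (hRdvd _)
  have hcop : IsCoprime ((2 : ℤ) ^ μ) D := by
    apply IsCoprime.pow_left
    rw [Int.isCoprime_iff_gcd_eq_one]
    have : D = 1 + 2 * (D / 2) := by omega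
    rw [this, Int.gcd_add_mul_left_right]
    norm_num
  exact hcop.dvd_of_dvd_mul_left h8

end Pool.Agent.KS6_24.ST.GL
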