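import Mathlib
import Pool.Agent.KS6_24.ST.GL1

/-! GL2: the auxiliary polynomial (Siegel's lemma) and the extrapolation. -/

set_option autoImplicit false

namespace Pool.Agent.KS6_24.ST.GL

open Finset

section siegel

attribute [local instance] Matrix.seminormedAddCommGroup

/-- Siegel's lemma, twice as many unknowns as equations -/
theorem siegel {α β : Type} [Fintype α] [Fintype β] [DecidableEq α] [DecidableEq β] (M : α → β → ℤ) (m0 : ℕ) (h0 : 1 ≤ m0)
    (hα : 0 < Fintype.card α) (hβ : Fintype.card β = 2 * Fintype.card α) (hM : ∀ i k, |M i k| ≤ m0) :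
    ∃ t : β → ℤ, t ≠ 0 ∧ (∀ i, ∑ k, M i k * t k = 0) ∧ ∀ k, |t k| ≤ (Fintype.card β * m0 : ℕ) := by
  obtain ⟨t, h1, h2, h3⟩ := Int.Matrix.exists_ne_zero_int_vec_norm_le (Matrix.of M) (by omega) hα
  refine ⟨t, h1, fun i => ?_, fun k => ?_⟩
  · have := congrFun h2 i
    simpa [Matrix.mulVec, dotProduct] using this
  · have hm : (0 : ℝ) < Fintype.card α := by exact_mod_cast hα
    have e1 : ((Fintype.card α : ℝ) / ((Fintype.card β : ℝ) - Fintype.card α)) = 1 := by
      rw [hβ]; push_cast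
      rw [show 2 * (Fintype.card α : ℝ) - Fintype.card α = Fintype.card α by ring]
      exact div_self hm.ne'
    rw [e1, Real.rpow_one] at h3
    have h4 : ‖Matrix.of M‖ ≤ m0 := by
      rw [Matrix.norm_le_iff (by positivity)]
      intro i j
      rw [Matrix.of_apply, Int.norm_eq_abs]
      exact_mod_cast hM i j
    have h5 : max 1 ‖Matrix.of M‖ ≤ (m0 : ℝ) := max_le (by exact_mod_cast h0) h4
    have h6 : ‖t k‖ ≤ ‖t‖ := norm_le_pi_norm t k
    have h7 : ‖t k‖ ≤ (Fintype.card β : ℝ) * m0 :=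
      h6.trans (h3.trans (mul_le_mul_of_nonneg_left h5 (by positivity)))
    rw [Int.norm_eq_abs] at h7
    exact_mod_cast h7

end siegel

/-- the auxiliary integer -/
def Ee (a b e K L : ℕ) (p : ℕ → ℕ → ℤ) (r s : ℕ) : ℤ :=
  ∑ k ∈ range K, ∑ l ∈ range L, p k l * ((((e * r + s) ^ k * ((b ^ r * 9 ^ s) ^ l * (a ^ r) ^ (L - 1 - l)) : ℕ)) : ℤ)

theorem Ee_zero (a b e K L : ℕ) (p : ℕ → ℕ → ℤ) (s : ℕ) : Ee a b e K L p 0 s = Ge K L p s := by
  unfold Ee Ge
  apply sum_congr rfl; intro k _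
  apply sum_congr rfl; intro l _
  push_cast
  rw [mul_zero, zero_add, pow_zero, pow_zero, one_mul, one_pow, mul_one, ← pow_mul]
  ring

theorem Ee_congr {a b e K L v : ℕ} (hv : (2 : ℤ) ^ v ∣ (a : ℤ) * 9 ^ e - b) (p : ℕ → ℕ → ℤ) (r s : ℕ) :
    (2 : ℤ) ^ v ∣ Ee a b e K L p r s - (a : ℤ) ^ (r * (L - 1)) * Ge K L p (e * r + s) := by
  have h0 : (b : ℤ) ≡ a * 9 ^ e [ZMOD 2 ^ v] := by
    rw [Int.modEq_iff_dvd]; exact hv
  unfold Ee Ge
  rw [mul_sum, ← sum_sub_distrib]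
  apply dvd_sum; intro k _
  rw [mul_sum, ← sum_sub_distrib]
  apply dvd_sum; intro l hl
  rw [mem_range] at hl
  have h1 : ((b : ℤ) ^ r * 9 ^ s) ^ l * ((a : ℤ) ^ r) ^ (L - 1 - l) ≡ a ^ (r * (L - 1)) * 9 ^ ((e * r + s) * l) [ZMOD 2 ^ v] := by
    have h2 : ((b : ℤ) ^ r * 9 ^ s) ^ l * ((a : ℤ) ^ r) ^ (L - 1 - l)
        ≡ (((a : ℤ) * 9 ^ e) ^ r * 9 ^ s) ^ l * ((a : ℤ) ^ r) ^ (L - 1 - l) [ZMOD 2 ^ v] :=
      (((h0.pow r).mul_right _).pow l).mul_right _
    have h3 : (((a : ℤ) * 9 ^ e) ^ r * 9 ^ s) ^ l * ((a : ℤ) ^ r) ^ (L - 1 - l) = a ^ (r * (L - 1)) * 9 ^ ((e * r + s) * l) := by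
      have e1 : (a : ℤ) ^ (r * (L - 1)) = ((a : ℤ) ^ r) ^ l * ((a : ℤ) ^ r) ^ (L - 1 - l) := by
        rw [← pow_add, pow_mul]; congr 1; omega
      rw [e1, mul_pow (a : ℤ), ← pow_mul 9 e r, mul_assoc ((a : ℤ) ^ r), ← pow_add, mul_pow, ← pow_mul 9]
      ring
    rw [h3] at h2
    exact h2
  have h4 := (h1.mul_left (p k l * ((e * r + s : ℕ) : ℤ) ^ k)).symm.dvd
  refine (Dvd.dvd.trans h4 (dvd_of_eq ?_))
  push_cast
  ring

theorem Ee_abs {a b c e K L w R P : ℕ} (ha : a ≤ 2 ^ c) (hb : b ≤ 2 ^ c) {p : ℕ → ℕ → ℤ} (hp : ∀ k l, |p k l| ≤ P) {r s : ℕ}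
    (hr : r ≤ R) (hx : e * r + s ≤ 2 ^ w) :
    |Ee a b e K L p r s| ≤ (K * L * (P * 2 ^ (w * K + c * R * L + 4 * s * L)) : ℕ) := by
  unfold Ee
  have key : ∀ k ∈ range K, ∀ l ∈ range L, |p k l * ((((e * r + s) ^ k * ((b ^ r * 9 ^ s) ^ l * (a ^ r) ^ (L - 1 - l)) : ℕ)) : ℤ)|
      ≤ ((P * 2 ^ (w * K + c * R * L + 4 * s * L) : ℕ) : ℤ) := by
    intro k hk l hl
    rw [mem_range] at hk hl
    rw [abs_mul, Nat.abs_cast, show ((P * 2 ^ (w * K + c * R * L + 4 * s * L) : ℕ) : ℤ)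
      = (P : ℤ) * ((2 ^ (w * K + c * R * L + 4 * s * L) : ℕ) : ℤ) by push_cast; ring]
    apply mul_le_mul (hp k l) _ (by positivity) (by positivity)
    have h1 : (e * r + s) ^ k ≤ 2 ^ (w * K) := by
      rw [pow_mul]
      exact (Nat.pow_le_pow_left hx k).trans (Nat.pow_le_pow_right (by positivity) hk.le)
    have h2 : b ^ r ≤ 2 ^ (c * R) := by
      calc b ^ r ≤ (2 ^ c) ^ r := Nat.pow_le_pow_left hb r
        _ = 2 ^ (c * r) := by rw [pow_mul]
        _ ≤ 2 ^ (c * R) := Nat.pow_le_pow_right (by norm_num) (Nat.mul_le_mul_left _ hr)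
    have h3 : a ^ r ≤ 2 ^ (c * R) := by
      calc a ^ r ≤ (2 ^ c) ^ r := Nat.pow_le_pow_left ha r
        _ = 2 ^ (c * r) := by rw [pow_mul]
        _ ≤ 2 ^ (c * R) := Nat.pow_le_pow_right (by norm_num) (Nat.mul_le_mul_left _ hr)
    have h4 : 9 ^ s ≤ 2 ^ (4 * s) := by
      rw [pow_mul]; exact Nat.pow_le_pow_left (by norm_num) s
    have h5 : (b ^ r * 9 ^ s) ^ l * (a ^ r) ^ (L - 1 - l) ≤ 2 ^ (c * R * L + 4 * s * L) := by
      calc (b ^ r * 9 ^ s) ^ l * (a ^ r) ^ (L - 1 - l) ≤ (2 ^ (c * R) * 2 ^ (4 * s)) ^ l * (2 ^ (c * R)) ^ (L - 1 - l) :=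
            Nat.mul_le_mul (Nat.pow_le_pow_left (Nat.mul_le_mul h2 h4) l) (Nat.pow_le_pow_left h3 _)
        _ ≤ (2 ^ (c * R) * 2 ^ (4 * s)) ^ l * (2 ^ (c * R) * 2 ^ (4 * s)) ^ (L - l) := by
            apply Nat.mul_le_mul_left
            calc (2 ^ (c * R)) ^ (L - 1 - l) ≤ (2 ^ (c * R) * 2 ^ (4 * s)) ^ (L - 1 - l) :=
                  Nat.pow_le_pow_left (Nat.le_mul_of_pos_right _ (by positivity)) _
              _ ≤ _ := Nat.pow_le_pow_right (by positivity) (by omega)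
        _ = (2 ^ (c * R + 4 * s)) ^ L := by rw [← pow_add, ← pow_add]; congr 1; omega
        _ = 2 ^ (c * R * L + 4 * s * L) := by rw [← pow_mul]; congr 1; ring
    have h6 : (e * r + s) ^ k * ((b ^ r * 9 ^ s) ^ l * (a ^ r) ^ (L - 1 - l)) ≤ 2 ^ (w * K + c * R * L + 4 * s * L) := by
      rw [add_assoc, pow_add]
      exact Nat.mul_le_mul h1 h5
    exact_mod_cast h6
  calc _ ≤ ∑ k ∈ range K, ∑ l ∈ range L, ((P * 2 ^ (w * K + c * R * L + 4 * s * L) : ℕ) : ℤ) := by
        refine (abs_sum_le_sum_abs _ _).trans (sum_le_sum fun k hk => ?_)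
        exact (abs_sum_le_sum_abs _ _).trans (sum_le_sum fun l hl => key k hk l hl)
    _ = _ := by
        simp only [sum_const, card_range, nsmul_eq_mul]
        push_cast; ring


theorem siegel_p (K L R S m0 : ℕ) (h0 : 1 ≤ m0) (hRS : 0 < R * S) (hKL : K * L = 2 * (R * S)) (M : ℕ → ℕ → ℕ → ℕ → ℤ)
    (hM : ∀ r < R, ∀ s < S, ∀ k < K, ∀ l < L, |M r s k l| ≤ m0) :
    ∃ p : ℕ → ℕ → ℤ, (∃ k < K, ∃ l < L, p k l ≠ 0) ∧
      (∀ r < R, ∀ s < S, ∑ k ∈ range K, ∑ l ∈ range L, p k l * M r s k l = 0) ∧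
      ∀ k l, |p k l| ≤ (K * L * m0 : ℕ) := by
  obtain ⟨t, h1, h2, h3⟩ := siegel (α := Fin R × Fin S) (β := Fin K × Fin L)
    (fun i j => M i.1 i.2 j.1 j.2) m0 h0 (by simpa using hRS) (by simpa using hKL)
    (fun i j => hM _ i.1.2 _ i.2.2 _ j.1.2 _ j.2.2)
  refine ⟨fun k l => if h : k < K ∧ l < L then t (⟨k, h.1⟩, ⟨l, h.2⟩) else 0, ?_, ?_, ?_⟩
  · by_contra hcon
    push Not at hcon
    apply h1
    funext j
    have := hcon j.1 j.1.2 j.2 j.2.2
    simpa using this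
  · intro r hr s hs
    have h4 := h2 (⟨r, hr⟩, ⟨s, hs⟩)
    rw [Fintype.sum_prod_type] at h4
    rw [Finset.sum_range]
    rw [← h4]
    apply sum_congr rfl; intro k _
    rw [Finset.sum_range]
    apply sum_congr rfl; intro l _
    simp [mul_comm]
  · intro k l
    have hcard : Fintype.card (Fin K × Fin L) = K * L := by simp
    rw [hcard] at h3
    dsimp only
    split_ifs with hkl
    · exact h3 _
    · rw [abs_zero]; positivity

theorem odd_dvd {v m : ℕ} {a : ℕ} (ha2 : a % 2 = 1) {z : ℤ} (h : (2 : ℤ) ^ v ∣ (a : ℤ) ^ m * z) : (2 : ℤ) ^ v ∣ z := by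
  have hcop : IsCoprime ((2 : ℤ) ^ v) ((a : ℤ) ^ m) := by
    apply IsCoprime.pow
    rw [Int.isCoprime_iff_gcd_eq_one]
    have : (a : ℤ) = 1 + 2 * ((a / 2 : ℕ) : ℤ) := by omega
    rw [this, Int.gcd_add_mul_left_right]
    norm_num
  exact hcop.dvd_of_dvd_mul_left h

theorem extrap {a b c e K L w v R P S0 S1 : ℕ} (ha2 : a % 2 = 1) (ha : a ≤ 2 ^ c) (hb : b ≤ 2 ^ c) {p : ℕ → ℕ → ℤ}
    (hp : ∀ k l, |p k l| ≤ P) (hv : (2 : ℤ) ^ v ∣ (a : ℤ) * 9 ^ e - b) (hS1 : S1 ≤ e) (hw : e * R ≤ 2 ^ w)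
    (h0 : ∀ r < R, ∀ s < S0, Ee a b e K L p r s = 0)
    (hnum : ∀ s, S0 ≤ s → s < S1 → K * L * (P * 2 ^ (w * K + c * R * L + 4 * s * L)) < 2 ^ (2 * (R * s) - 2 * K))
    (hKR : K ≤ R * S0) (hv2 : w * (R * S1) ^ 2 + 2 * (R * S1) ≤ v) :
    ∀ s < S1, ∀ r < R, Ee a b e K L p r s = 0 := by
  intro s
  induction s using Nat.strong_induction_on with
  | _ s ih =>
    intro hs r hr
    rcases Nat.lt_or_ge s S0 with hs0 | hs0
    · exact h0 r hr s hs0
    have hxle : ∀ r' < R, ∀ s' < S1, e * r' + s' ≤ 2 ^ w := by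
      intro r' hr' s' hs'
      calc e * r' + s' ≤ e * r' + e := by omega
        _ = e * (r' + 1) := by ring
        _ ≤ e * R := Nat.mul_le_mul_left _ hr'
        _ ≤ _ := hw
    set T : Finset ℕ := (range R ×ˢ range s).image (fun x => e * x.1 + x.2) with hT
    have hTc : #T = R * s := by
      rw [hT, card_image_of_injOn, card_product, card_range, card_range]
      rintro ⟨r1, s1⟩ h1 ⟨r2, s2⟩ h2 h12
      simp only [coe_product, Set.mem_prod, mem_coe, mem_range] at h1 h2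
      simp only at h12
      have e1 : s1 < e := by omega
      have e2 : s2 < e := by omega
      have h3 : (e * r1 + s1) / e = r1 := by
        rw [Nat.mul_add_div (by omega), Nat.div_eq_of_lt e1, add_zero]
      have h4 : (e * r2 + s2) / e = r2 := by
        rw [Nat.mul_add_div (by omega), Nat.div_eq_of_lt e2, add_zero]
      have h5 : r1 = r2 := by rw [← h3, ← h4, h12]
      subst h5
      have h6 : s1 = s2 := by omega
      rw [h6]
    have hTs : ∀ x ∈ T, x ≤ 2 ^ w := by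
      intro x hx
      rw [hT, mem_image] at hx
      obtain ⟨⟨r', s'⟩, hx1, rfl⟩ := hx
      rw [mem_product, mem_range, mem_range] at hx1
      exact hxle r' hx1.1 s' (by have := hx1.2; simp only at this; omega)
    have hTG : ∀ x ∈ T, (2 : ℤ) ^ v ∣ Ge K L p x := by
      intro x hx
      rw [hT, mem_image] at hx
      obtain ⟨⟨r', s'⟩, hx1, rfl⟩ := hx
      rw [mem_product, mem_range, mem_range] at hx1
      simp only at hx1 ⊢
      have h1 := ih s' hx1.2 (by omega) r' hx1.1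
      have h2 := Ee_congr (L := L) (K := K) hv p r' s'
      rw [h1, zero_sub, dvd_neg] at h2
      exact odd_dvd ha2 h2
    have hRs : R * s ≤ R * S1 := Nat.mul_le_mul_left _ hs.le
    have hRs0 : R * S0 ≤ R * s := Nat.mul_le_mul_left _ hs0
    have hμ := schwarz K L w v p T hTs hTG (x := e * r + s) (hxle r hr s hs) (μ := 2 * (R * s) - 2 * K)
      (by rw [hTc]; omega) (by
        rw [hTc]
        have : w * (R * s) ^ 2 ≤ w * (R * S1) ^ 2 := Nat.mul_le_mul_left _ (Nat.pow_le_pow_left hRs 2)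
        omega)
    have h2 := Ee_congr (L := L) (K := K) hv p r s
    have hμv : 2 * (R * s) - 2 * K ≤ v := by omega
    have h3 : (2 : ℤ) ^ (2 * (R * s) - 2 * K) ∣ Ee a b e K L p r s := by
      have h4 := (pow_dvd_pow (2 : ℤ) hμv).trans h2
      have h5 := dvd_add h4 (Dvd.dvd.mul_left hμ ((a : ℤ) ^ (r * (L - 1))))
      rwa [sub_add_cancel] at h5
    by_contra hne
    have h6 := Int.le_of_dvd (abs_pos.2 hne) ((dvd_abs _ _).2 h3)
    have h7 := Ee_abs (a := a) (b := b) (c := c) (e := e) (K := K) (L := L) (w := w) (R := R) ha hb hp hr.le (hxle r hr s hs)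
    have h8 := hnum s hs0 hs
    have h9 : ((K * L * (P * 2 ^ (w * K + c * R * L + 4 * s * L)) : ℕ) : ℤ) < ((2 ^ (2 * (R * s) - 2 * K) : ℕ) : ℤ) := by
      exact_mod_cast h8
    rw [Nat.cast_pow] at h9
    have h10 : ((2 : ℕ) : ℤ) = 2 := rfl
    rw [h10] at h9
    linarith

theorem final {K L P S1 s1 : ℕ} {p : ℕ → ℕ → ℤ} (hp : ∀ k l, |p k l| ≤ P) (h0 : ∀ s < S1, Ge K L p s = 0)
    (hs1 : s1 + K ≤ S1) (hs0 : 1 ≤ s1) (hnum : ∀ s, s1 ≤ s → s < s1 + K → K * (P * s ^ K) < 9 ^ s) :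
    ∀ l < L, ∀ k < K, p k l = 0 := by
  intro l
  induction l using Nat.strong_induction_on with
  | _ l ih =>
    intro hl k hk
    set Q : Polynomial ℤ := ∑ k ∈ range K, Polynomial.C (p k l) * Polynomial.X ^ k with hQ
    have hev : ∀ z : ℤ, Q.eval z = ∑ k ∈ range K, p k l * z ^ k := by
      intro z
      rw [hQ, Polynomial.eval_finsetSum]
      apply sum_congr rfl; intro k _
      simp
    have hroot : ∀ s, s1 ≤ s → s < s1 + K → Q.eval (s : ℤ) = 0 := by
      intro s hs hs'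
      have h1 : (9 : ℤ) ^ (s * (l + 1)) ∣ Ge K L p s - (∑ k ∈ range K, p k l * (s : ℤ) ^ k) * 9 ^ (s * l) := by
        unfold Ge
        rw [sum_mul, ← sum_sub_distrib]
        apply dvd_sum
        intro k hk
        rw [← sum_erase_eq_sub (f := fun l => p k l * (s : ℤ) ^ k * 9 ^ (s * l)) (mem_range.2 hl)]
        apply dvd_sum
        intro l' hl'
        rw [mem_erase, mem_range] at hl'
        rcases Nat.lt_or_gt_of_ne hl'.1 with h2 | h2
        · rw [ih l' h2 hl'.2 k (mem_range.1 hk)]; simp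
        · exact Dvd.dvd.mul_left (pow_dvd_pow 9 (Nat.mul_le_mul_left s h2)) _
      rw [h0 s (by omega), zero_sub, dvd_neg, mul_add, mul_one, pow_add, mul_comm ((9 : ℤ) ^ (s * l))] at h1
      have h2 : (9 : ℤ) ^ s ∣ ∑ k ∈ range K, p k l * (s : ℤ) ^ k :=
        (mul_dvd_mul_iff_right (by positivity)).1 h1
      rw [hev]
      by_contra hne
      have h3 := Int.le_of_dvd (abs_pos.2 hne) ((dvd_abs _ _).2 h2)
      have h4 : |∑ k ∈ range K, p k l * (s : ℤ) ^ k| ≤ ((K * (P * s ^ K) : ℕ) : ℤ) := by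
        refine (abs_sum_le_sum_abs _ _).trans ?_
        calc _ ≤ ∑ k ∈ range K, ((P * s ^ K : ℕ) : ℤ) := by
              apply sum_le_sum; intro k hk
              rw [abs_mul, Nat.cast_mul]
              apply mul_le_mul (hp k l) _ (abs_nonneg _) (by positivity)
              rw [abs_of_nonneg (by positivity), Nat.cast_pow]
              exact pow_le_pow_right₀ (by exact_mod_cast (show 1 ≤ s by omega)) (mem_range.1 hk).le
          _ = _ := by simp
      have h5 := hnum s hs hs'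
      have h6 : ((K * (P * s ^ K) : ℕ) : ℤ) < ((9 ^ s : ℕ) : ℤ) := by exact_mod_cast h5
      rw [Nat.cast_pow] at h6
      have h10 : ((9 : ℕ) : ℤ) = 9 := rfl
      rw [h10] at h6
      linarith
    have hQ0 : Q = 0 := by
      by_contra hne
      have hdeg : Q.degree < (K : ℕ) := by
        rw [← Polynomial.mem_degreeLT]
        apply Submodule.sum_mem
        intro j hj
        rw [Polynomial.mem_degreeLT]
        exact lt_of_le_of_lt (Polynomial.degree_C_mul_X_pow_le _ _) (by exact_mod_cast mem_range.1 hj)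
      have hcard : #((Ico s1 (s1 + K)).image (fun x : ℕ => (x : ℤ))) = K := by
        rw [card_image_of_injective _ Nat.cast_injective, Nat.card_Ico]; omega
      have h7 := Polynomial.card_le_degree_of_subset_roots (p := Q) (Z := (Ico s1 (s1 + K)).image (fun x : ℕ => (x : ℤ))) (by
        intro z hz
        rw [mem_val, mem_image] at hz
        obtain ⟨s, hs, rfl⟩ := hz
        rw [mem_Ico] at hs
        rw [Polynomial.mem_roots hne]
        exact hroot s hs.1 hs.2)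
      rw [hcard] at h7
      have h8 := (Polynomial.natDegree_lt_iff_degree_lt hne).2 hdeg
      omega
    have h9 : Q.coeff k = p k l := by
      rw [hQ, Polynomial.finsetSum_coeff]
      simp only [Polynomial.coeff_C_mul_X_pow]
      rw [sum_ite_eq]
      simp [hk]
    rw [← h9, hQ0]; simp


theorem gl0 {a b c e h v : ℕ} (ha2 : a % 2 = 1) (hc : 1 ≤ c) (hh : 11 ≤ h) (ha : a ≤ 2 ^ c) (hb : b ≤ 2 ^ c)
    (he : e ≤ 2 ^ h) (heS : 116 * h * (512 * h * c) ≤ e) (hv : (2 : ℤ) ^ v ∣ (a : ℤ) * 9 ^ e - b) :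
    v < 2 * h * (128 * (h + 1) * (116 * h * (512 * h * c))) ^ 2 + 2 * (128 * (h + 1) * (116 * h * (512 * h * c))) := by
  by_contra hcon
  push Not at hcon
  set S0 := 512 * h * c with hS0
  set L := 16 * (h + 1) with hL
  set R := 128 * (h + 1) with hR
  set K := 16 * S0 with hK
  set S1 := 116 * h * S0 with hS1
  set w := 2 * h with hw
  have hS0pos : 1 ≤ S0 := by
    rw [hS0]; exact Nat.one_le_iff_ne_zero.2 (by positivity)
  have hRpos : 1 ≤ R := by omega
  have hKL : K * L = 2 * (R * S0) := by rw [hK, hL, hR]; ring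
  have hS01 : S0 ≤ S1 := by rw [hS1]; exact Nat.le_mul_of_pos_left _ (by positivity)
  have hRh : R ≤ 2 ^ h := by
    rw [hR]
    clear * - hh
    induction h, hh using Nat.le_induction with
    | base => norm_num
    | succ n hn ih => rw [pow_succ]; omega
  have hew : e * R ≤ 2 ^ w := by
    rw [hw, two_mul, pow_add]
    exact Nat.mul_le_mul he hRh
  have hKL2 : K * L ≤ 2 ^ (2 * h + 1) := by
    rw [hKL, pow_succ', two_mul h, pow_add]
    exact Nat.mul_le_mul_left _ (Nat.mul_le_mul hRh ((hS01.trans heS).trans he))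
  set m0 := 2 ^ (w * K + c * R * L + 4 * S0 * L) with hm0
  have hm01 : 1 ≤ m0 := Nat.one_le_two_pow
  obtain ⟨p, hp1, hp2, hp3⟩ := siegel_p K L R S0 m0 hm01 (by positivity) hKL
    (fun r s k l => ((((e * r + s) ^ k * ((b ^ r * 9 ^ s) ^ l * (a ^ r) ^ (L - 1 - l)) : ℕ)) : ℤ)) (by
      intro r hr s hs k hk l hl
      rw [Nat.abs_cast]
      have hx : e * r + s ≤ 2 ^ w := by
        calc e * r + s ≤ e * r + e := by omega
          _ = e * (r + 1) := by ring
          _ ≤ e * R := Nat.mul_le_mul_left _ hr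
          _ ≤ _ := hew
      have h1 : (e * r + s) ^ k ≤ 2 ^ (w * K) := by
        rw [pow_mul]
        exact (Nat.pow_le_pow_left hx k).trans (Nat.pow_le_pow_right (by positivity) hk.le)
      have h2 : b ^ r ≤ 2 ^ (c * R) := by
        calc b ^ r ≤ (2 ^ c) ^ r := Nat.pow_le_pow_left hb r
          _ = 2 ^ (c * r) := by rw [pow_mul]
          _ ≤ 2 ^ (c * R) := Nat.pow_le_pow_right (by norm_num) (Nat.mul_le_mul_left _ hr.le)
      have h3 : a ^ r ≤ 2 ^ (c * R) := by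
        calc a ^ r ≤ (2 ^ c) ^ r := Nat.pow_le_pow_left ha r
          _ = 2 ^ (c * r) := by rw [pow_mul]
          _ ≤ 2 ^ (c * R) := Nat.pow_le_pow_right (by norm_num) (Nat.mul_le_mul_left _ hr.le)
      have h4 : 9 ^ s ≤ 2 ^ (4 * S0) := by
        calc 9 ^ s ≤ 16 ^ s := Nat.pow_le_pow_left (by norm_num) s
          _ = 2 ^ (4 * s) := by rw [pow_mul]; norm_num
          _ ≤ _ := Nat.pow_le_pow_right (by norm_num) (by omega)
      have h5 : (b ^ r * 9 ^ s) ^ l * (a ^ r) ^ (L - 1 - l) ≤ 2 ^ (c * R * L + 4 * S0 * L) := by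
        calc (b ^ r * 9 ^ s) ^ l * (a ^ r) ^ (L - 1 - l)
            ≤ (2 ^ (c * R) * 2 ^ (4 * S0)) ^ l * (2 ^ (c * R)) ^ (L - 1 - l) :=
              Nat.mul_le_mul (Nat.pow_le_pow_left (Nat.mul_le_mul h2 h4) l) (Nat.pow_le_pow_left h3 _)
          _ ≤ (2 ^ (c * R) * 2 ^ (4 * S0)) ^ l * (2 ^ (c * R) * 2 ^ (4 * S0)) ^ (L - l) := by
              apply Nat.mul_le_mul_left
              calc (2 ^ (c * R)) ^ (L - 1 - l) ≤ (2 ^ (c * R) * 2 ^ (4 * S0)) ^ (L - 1 - l) :=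
                    Nat.pow_le_pow_left (Nat.le_mul_of_pos_right _ (by positivity)) _
                _ ≤ _ := Nat.pow_le_pow_right (by positivity) (by omega)
          _ = (2 ^ (c * R + 4 * S0)) ^ L := by rw [← pow_add, ← pow_add]; congr 1; omega
          _ = 2 ^ (c * R * L + 4 * S0 * L) := by rw [← pow_mul]; congr 1; ring
      have h6 : (e * r + s) ^ k * ((b ^ r * 9 ^ s) ^ l * (a ^ r) ^ (L - 1 - l)) ≤ m0 := by
        rw [hm0, add_assoc, pow_add]
        exact Nat.mul_le_mul h1 h5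
      exact_mod_cast h6)
  have hc2 : c * (h + 1) ^ 2 * 4096 ≤ 16 * (h + 1) * S0 := by
    rw [hS0]; nlinarith [Nat.zero_le (c * h), Nat.zero_le c, mul_le_mul hh hc (by norm_num) (by omega)]
  have hcRL : c * R * L * 2 ≤ 16 * (h + 1) * S0 := by
    calc c * R * L * 2 = c * (h + 1) ^ 2 * 4096 := by rw [hR, hL]; ring
      _ ≤ _ := hc2
  have hSh : 512 * h ≤ S0 := by rw [hS0]; exact Nat.le_mul_of_pos_right _ (by omega)
  have hE := extrap (S0 := S0) (S1 := S1) ha2 ha hb hp3 hv heS hew hp2 (by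
    intro s hs hs'
    have hms : m0 ≤ 2 ^ (w * K + c * R * L + 4 * s * L) := Nat.pow_le_pow_right (by norm_num) (by
      have : 4 * S0 * L ≤ 4 * s * L := Nat.mul_le_mul_right _ (Nat.mul_le_mul_left _ hs)
      omega)
    calc K * L * (K * L * m0 * 2 ^ (w * K + c * R * L + 4 * s * L))
        ≤ 2 ^ (2 * h + 1) * (2 ^ (2 * h + 1) * 2 ^ (w * K + c * R * L + 4 * s * L) * 2 ^ (w * K + c * R * L + 4 * s * L)) :=
          Nat.mul_le_mul hKL2 (Nat.mul_le_mul_right _ (Nat.mul_le_mul hKL2 hms))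
      _ = 2 ^ ((2 * h + 1) + (2 * h + 1) + (w * K + c * R * L + 4 * s * L) + (w * K + c * R * L + 4 * s * L)) := by
          rw [← pow_add, ← pow_add, ← pow_add]; congr 1; ring
      _ < 2 ^ (2 * (R * s) - 2 * K) := by
          apply Nat.pow_lt_pow_right (by norm_num)
          have e1 : w * K = 32 * h * S0 := by rw [hw, hK]; ring
          have e2 : 4 * s * L = 64 * (h + 1) * s := by rw [hL]; ring
          have e3 : R * s = 128 * (h + 1) * s := by rw [hR]
          have e4 : (h + 1) * S0 ≤ (h + 1) * s := Nat.mul_le_mul_left _ hs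
          rw [e1, e2, e3, hK]
          have e5 : c * R * L * 2 ≤ 16 * ((h + 1) * S0) := by
            calc _ ≤ 16 * (h + 1) * S0 := hcRL
              _ = _ := by ring
          have e6 : 64 * (h + 1) * s = 64 * ((h + 1) * s) := by ring
          have e7 : 128 * (h + 1) * s = 128 * ((h + 1) * s) := by ring
          have e8 : 32 * h * S0 = 32 * (h * S0) := by ring
          have e9 : (h + 1) * S0 = h * S0 + S0 := by ring
          rw [e6, e7, e8]
          have e10 : 11 * S0 ≤ h * S0 := Nat.mul_le_mul_right _ hh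
          omega) (by
      rw [hK]
      exact Nat.mul_le_mul_right _ (by omega)) hcon
  have h0 : ∀ s < S1, Ge K L p s = 0 := by
    intro s hs
    rw [← Ee_zero a b e]
    exact hE s hs 0 (by omega)
  obtain ⟨k, hk, l, hl, hkl⟩ := hp1
  have hs1K : 100 * h * S0 + K ≤ S1 := by
    rw [hS1, hK]
    have e10 : 1 * S0 ≤ h * S0 := Nat.mul_le_mul_right _ (by omega)
    have e11 : 100 * h * S0 = 100 * (h * S0) := by ring
    have e12 : 116 * h * S0 = 116 * (h * S0) := by ring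
    omega
  apply hkl
  refine final (K := K) (L := L) (s1 := 100 * h * S0) hp3 h0 hs1K (Nat.one_le_iff_ne_zero.2 (by positivity)) ?_ l hl k hk
  intro s hs hs'
  have hse : s ≤ 2 ^ h := by omega
  have hK1 : K ≤ K * L := Nat.le_mul_of_pos_right _ (by omega)
  calc K * (K * L * m0 * s ^ K) ≤ 2 ^ (2 * h + 1) * (2 ^ (2 * h + 1) * m0 * (2 ^ h) ^ K) :=
        Nat.mul_le_mul (hK1.trans hKL2) (Nat.mul_le_mul (Nat.mul_le_mul_right _ hKL2) (Nat.pow_le_pow_left hse K))
    _ = 2 ^ ((2 * h + 1) + (2 * h + 1) + (w * K + c * R * L + 4 * S0 * L) + h * K) := by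
        rw [hm0, ← pow_mul, ← pow_add, ← pow_add, ← pow_add]; congr 1; ring
    _ < 2 ^ (3 * s) := by
        apply Nat.pow_lt_pow_right (by norm_num)
        have e1 : w * K = 32 * (h * S0) := by rw [hw, hK]; ring
        have e2 : 4 * S0 * L = 64 * (h * S0 + S0) := by rw [hL]; ring
        have e3 : h * K = 16 * (h * S0) := by rw [hK]; ring
        have e5 : c * R * L * 2 ≤ 16 * (h * S0 + S0) := by
          calc _ ≤ _ := hcRL
            _ = _ := by ring
        have e10 : 11 * S0 ≤ h * S0 := Nat.mul_le_mul_right _ hh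
        have e11 : 100 * h * S0 = 100 * (h * S0) := by ring
        rw [e1, e2, e3]
        omega
    _ = 8 ^ s := by rw [pow_mul]; norm_num
    _ ≤ 9 ^ s := Nat.pow_le_pow_left (by norm_num) s

end Pool.Agent.KS6_24.ST.GL
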