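import Mathlib
import Pool.Agent.KS6_24.ST.GL2
import Pool.Agent.KS6_24.ST.B0
import Pool.Agent.KS6_24.ST.FGDefs

/-! GL3: the powers of two which divide `A 3 ^ i - B 3 ^ j` are small. -/

set_option autoImplicit false

namespace Pool.Agent.KS6_24.ST

open Finset

theorem GL.trivb {A B : ℤ} {c e v : ℕ} (hA : |A| ≤ 2 ^ c) (hB : |B| ≤ 2 ^ c) (hne : A * 3 ^ e ≠ B)
    (hv : (2 : ℤ) ^ v ∣ A * 3 ^ e - B) : v ≤ c + 2 * e + 1 := by
  have h1 : A * 3 ^ e - B ≠ 0 := sub_ne_zero.2 hne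
  have h2 := Int.le_of_dvd (abs_pos.2 h1) ((dvd_abs _ _).2 hv)
  have h3 : |A * 3 ^ e - B| ≤ 2 ^ (c + 2 * e + 1) := by
    calc |A * 3 ^ e - B| ≤ |A * 3 ^ e| + |B| := abs_sub _ _
      _ = |A| * 3 ^ e + |B| := by rw [abs_mul, abs_of_nonneg (show (0 : ℤ) ≤ 3 ^ e by positivity)]
      _ ≤ 2 ^ c * 4 ^ e + 2 ^ c * 4 ^ e := by
          apply add_le_add
          · exact mul_le_mul hA (pow_le_pow_left₀ (by norm_num) (by norm_num) e) (by positivity) (by positivity)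
          · exact hB.trans (le_mul_of_one_le_right (by positivity) (one_le_pow₀ (by norm_num)))
      _ = 2 ^ (c + 2 * e + 1) := by
          rw [show (4 : ℤ) = 2 ^ 2 by norm_num, ← pow_mul, ← pow_add, pow_succ]; ring
  have h4 : (2 : ℤ) ^ v ≤ 2 ^ (c + 2 * e + 1) := h2.trans h3
  exact (pow_le_pow_iff_right₀ (by norm_num : (1 : ℤ) < 2)).1 h4

theorem GL.gl1 (A B : ℤ) (hA : A % 2 = 1) (hAB : ∀ i j : ℕ, A * 3 ^ i ≠ B * 3 ^ j) :
    ∃ C : ℕ, ∀ h e v : ℕ, 11 ≤ h → e ≤ 2 ^ h → (2 : ℤ) ^ v ∣ A * 3 ^ e - B → v ≤ C * h ^ 7 := by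
  set c : ℕ := A.natAbs ^ 2 + B.natAbs ^ 2 + 1 with hc
  have hlt : c < 2 ^ c := Nat.lt_two_pow_self
  have ha : A.natAbs ^ 2 ≤ 2 ^ c := by omega
  have hb : B.natAbs ^ 2 ≤ 2 ^ c := by omega
  refine ⟨4 * 15204352 ^ 2 * c ^ 2, fun h e v hh he hv => ?_⟩
  have h1h : 1 ≤ h := by omega
  have hc1 : 1 ≤ c := by omega
  have hp : ∀ n, n ≤ 7 → h ^ n ≤ h ^ 7 := fun n hn => Nat.pow_le_pow_right h1h hn
  rcases Nat.lt_or_ge e (116 * h * (512 * h * c)) with he1 | he1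
  · have hA' : |A| ≤ 2 ^ c := by
      have h1 : A.natAbs ≤ A.natAbs ^ 2 := Nat.le_self_pow (by norm_num) _
      have h2 : ((A.natAbs : ℕ) : ℤ) ≤ ((2 ^ c : ℕ) : ℤ) := by exact_mod_cast h1.trans ha
      rw [Int.natCast_natAbs] at h2
      exact_mod_cast h2
    have hB' : |B| ≤ 2 ^ c := by
      have h1 : B.natAbs ≤ B.natAbs ^ 2 := Nat.le_self_pow (by norm_num) _
      have h2 : ((B.natAbs : ℕ) : ℤ) ≤ ((2 ^ c : ℕ) : ℤ) := by exact_mod_cast h1.trans hb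
      rw [Int.natCast_natAbs] at h2
      exact_mod_cast h2
    have hne : A * 3 ^ e ≠ B := by
      have := hAB e 0
      simpa using this
    have h1 := GL.trivb hA' hB' hne hv
    have h2 : 116 * h * (512 * h * c) = 59392 * (h ^ 2 * c) := by ring
    rw [h2] at he1
    have h3 : h ^ 2 * c ≤ h ^ 7 * c ^ 2 := Nat.mul_le_mul (hp 2 (by norm_num)) (Nat.le_self_pow (by norm_num) _)
    have h4 : c ≤ h ^ 7 * c ^ 2 := by
      calc c ≤ c ^ 2 := Nat.le_self_pow (by norm_num) _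
        _ ≤ h ^ 7 * c ^ 2 := Nat.le_mul_of_pos_left _ (by positivity)
    have h5 : 4 * 15204352 ^ 2 * c ^ 2 * h ^ 7 = 4 * 15204352 ^ 2 * (h ^ 7 * c ^ 2) := by ring
    rw [h5]
    omega
  · have hv2 : (2 : ℤ) ^ v ∣ ((A.natAbs ^ 2 : ℕ) : ℤ) * 9 ^ e - ((B.natAbs ^ 2 : ℕ) : ℤ) := by
      have e1 : ((A.natAbs ^ 2 : ℕ) : ℤ) * 9 ^ e - ((B.natAbs ^ 2 : ℕ) : ℤ) = (A * 3 ^ e - B) * (A * 3 ^ e + B) := by
        push_cast
        rw [sq_abs, sq_abs, show (9 : ℤ) = 3 ^ 2 by norm_num, ← pow_mul]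
        ring
      rw [e1]
      exact Dvd.dvd.mul_right hv _
    have ha2 : A.natAbs ^ 2 % 2 = 1 := by
      rw [Nat.pow_mod]
      have : A.natAbs % 2 = 1 := by omega
      rw [this]
    have h1 := GL.gl0 ha2 hc1 hh ha hb he he1 hv2
    have h2 : 128 * (h + 1) * (116 * h * (512 * h * c)) ≤ 15204352 * (h ^ 3 * c) := by
      have h3 : 128 * (h + 1) ≤ 256 * h := by omega
      calc 128 * (h + 1) * (116 * h * (512 * h * c)) ≤ 256 * h * (116 * h * (512 * h * c)) := Nat.mul_le_mul_right _ h3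
        _ = _ := by ring
    have h4 : v ≤ 2 * h * (15204352 * (h ^ 3 * c)) ^ 2 + 2 * (15204352 * (h ^ 3 * c)) :=
      h1.le.trans (Nat.add_le_add (Nat.mul_le_mul_left _ (Nat.pow_le_pow_left h2 2)) (Nat.mul_le_mul_left _ h2))
    have h5 : 2 * h * (15204352 * (h ^ 3 * c)) ^ 2 = 2 * 15204352 ^ 2 * (h ^ 7 * c ^ 2) := by ring
    have h6 : h ^ 3 * c ≤ h ^ 7 * c ^ 2 := Nat.mul_le_mul (hp 3 (by norm_num)) (Nat.le_self_pow (by norm_num) _)
    have h7 : 4 * 15204352 ^ 2 * c ^ 2 * h ^ 7 = 4 * 15204352 ^ 2 * (h ^ 7 * c ^ 2) := by ring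
    rw [h5] at h4
    rw [h7]
    omega

theorem gl : S_GL := by
  intro A B hA hB hAB
  obtain ⟨C1, hC1⟩ := GL.gl1 A B hA hAB
  obtain ⟨C2, hC2⟩ := GL.gl1 B A hB (fun i j h => hAB j i h.symm)
  obtain ⟨k0, hk0⟩ := B0.pow_est (7 * 16) (((C1 + C2) * 12 ^ 7) ^ 16)
  refine ⟨2 ^ k0 + 2, fun t ht i j v hi hj hv => ?_⟩
  set k := Nat.log 2 t with hk
  have ht2 : 2 ≤ t := le_trans (Nat.le_add_left 2 _) ht
  have ht0 : t ≠ 0 := by omega
  have hkk : k0 ≤ k := Nat.le_log_of_pow_le (by norm_num) (le_trans (Nat.le_add_right _ _) ht)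
  have hkt : 2 ^ k ≤ t := Nat.pow_log_le_self 2 ht0
  set h := Nat.log 2 (t ^ 11) + 1 with hh
  have h11 : 11 ≤ h := by
    have : 11 ≤ Nat.log 2 (t ^ 11) := Nat.le_log_of_pow_le (by norm_num) (Nat.pow_le_pow_left ht2 11)
    omega
  have hth : t ^ 11 ≤ 2 ^ h := (Nat.lt_pow_succ_log_self (by norm_num) _).le
  have hhk : h ≤ 12 * (k + 1) := by
    have h1 : t < 2 ^ (k + 1) := Nat.lt_pow_succ_log_self (by norm_num) _
    have h2 : t ^ 11 < 2 ^ (11 * (k + 1)) := by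
      rw [mul_comm, pow_mul]
      exact Nat.pow_lt_pow_left h1 (by norm_num)
    have h3 : Nat.log 2 (t ^ 11) < 11 * (k + 1) := Nat.log_lt_of_lt_pow (by positivity) h2
    omega
  have key : v ≤ (C1 + C2) * h ^ 7 := by
    rcases Nat.le_total j i with hij | hij
    · have h1 : A * 3 ^ i - B * 3 ^ j = 3 ^ j * (A * 3 ^ (i - j) - B) := by
        have : (3 : ℤ) ^ i = 3 ^ j * 3 ^ (i - j) := by rw [← pow_add]; congr 1; omega
        rw [this]; ring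
      rw [h1] at hv
      have h2 : (2 : ℤ) ^ v ∣ A * 3 ^ (i - j) - B := GL.odd_dvd (a := 3) (by norm_num) (by exact_mod_cast hv)
      have h3 := hC1 h (i - j) v h11 (by omega) h2
      exact h3.trans (Nat.mul_le_mul_right _ (by omega))
    · have h1 : A * 3 ^ i - B * 3 ^ j = 3 ^ i * (-(B * 3 ^ (j - i) - A)) := by
        have : (3 : ℤ) ^ j = 3 ^ i * 3 ^ (j - i) := by rw [← pow_add]; congr 1; omega
        rw [this]; ring
      rw [h1] at hv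
      have h2 : (2 : ℤ) ^ v ∣ -(B * 3 ^ (j - i) - A) := GL.odd_dvd (a := 3) (by norm_num) (by exact_mod_cast hv)
      rw [dvd_neg] at h2
      have h3 := hC2 h (j - i) v h11 (by omega) h2
      exact h3.trans (Nat.mul_le_mul_right _ (by omega))
  calc v ^ 16 ≤ ((C1 + C2) * (12 * (k + 1)) ^ 7) ^ 16 :=
        Nat.pow_le_pow_left (key.trans (Nat.mul_le_mul_left _ (Nat.pow_le_pow_left hhk 7))) 16
    _ = ((C1 + C2) * 12 ^ 7) ^ 16 * (k + 1) ^ (7 * 16) := by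
        rw [mul_pow (12 : ℕ), ← mul_assoc, mul_pow ((C1 + C2) * 12 ^ 7), pow_mul (k + 1)]
    _ ≤ 2 ^ k := hk0 k hkk
    _ ≤ t := hkt

end Pool.Agent.KS6_24.ST
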