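import Mathlib
import Pool.Agent.KS6_24.ST.FMMain
import Pool.Agent.KS6_24.ST.GL3
import Pool.Agent.KS6_24.ST.FG2
import Pool.Agent.KS6_24.ST.FG3
import Pool.Agent.KS6_24.ST.FG4
import Pool.Agent.KS6_24.ST.FG5

/-! Project FG: assembly. -/

set_option autoImplicit false

namespace Pool.Agent.KS6_24.ST

theorem balg_all : S_BALG := balg (balm b0m) gl

theorem etag_all : S_ETAG := etag (nw 1 (by norm_num)) (fun _ hd => ws_all hd) balg_all

/-- independence of mean zero functions along multiples no two of which have a quotient `3 ^ y` -/
theorem corg_all : S_CORG := corg (stageg etag_all) fun _ hd => en3_all hd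

end Pool.Agent.KS6_24.ST
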