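import Mathlib

/-!
The definitions of the hand-in JointLaw (MP_d02c56_nt).
-/

set_option autoImplicit false

namespace Pool.Agent.Results.MP_d02c56_nt.JointLaw

open Filter Topology

/-- The Collatz map on the integers. -/
def C (x : ℤ) : ℤ := if x % 2 = 0 then x / 2 else 3 * x + 1

/-- `S` is invariant under the Collatz map and its inverse. -/
def Invariant (S : Set ℤ) : Prop := ∀ x : ℤ, x ∈ S ↔ C x ∈ S

/-- The trajectories of `x` and `y` meet. -/
def Meet (x y : ℤ) : Prop := ∃ k l : ℕ, C^[k] x = C^[l] y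

/-- The union of the five known cycles. -/
def Known : Finset ℤ := {1, 4, 2, -1, -2, -5, -14, -7, -20, -10, -17, -50, -25, -74, -37, -110,
  -55, -164, -82, -41, -122, -61, -182, -91, -272, -136, -68, -34, 0}

/-- The trajectory of `x` reaches one of the five known cycles. -/
def Reaches (x : ℤ) : Prop := ∃ k : ℕ, C^[k] x ∈ Known

/-- The proportion of the `n` with `P n` among `1, ..., N`. -/
noncomputable def prob (N : ℕ) (P : ℕ → Prop) : ℝ := ({n : ℕ | 1 ≤ n ∧ n ≤ N ∧ P n}.ncard : ℝ) / N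

/-- The mean of `g n` over `n = 1, ..., N`. -/
noncomputable def mean (N : ℕ) (g : ℕ → ℝ) : ℝ := (∑ n ∈ Finset.Icc 1 N, g n) / N

/-- `S` has density `δ` on the integers of sign `s`. -/
def HasDensity (s : ℤ) (S : Set ℤ) (δ : ℝ) : Prop := Tendsto (fun N : ℕ => prob N fun n => s * n ∈ S) atTop (𝓝 δ)

/-- `a` is the representative of its class: among the integers of sign `s` whose trajectory meets that of `a`, it has
the least absolute value. -/
def IsRep (s a : ℤ) : Prop := 0 < s * a ∧ ∀ b : ℤ, 0 < s * b → Meet a b → s * a ≤ s * b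

/-- The levels `i a` are at most `(log N) ^ 0.97`, the shifts `|r a|` are at most `3 ^ i a`. -/
def Low {k : ℕ} (N : ℕ) (i : Fin k → ℕ) (r : Fin k → ℤ) : Prop :=
  ∀ a, (i a : ℝ) ≤ Real.log N ^ (0.97 : ℝ) ∧ |r a| ≤ 3 ^ i a

/-! ### the law of the classes -/

/-- The number of steps of the walks. -/
noncomputable def steps (N : ℕ) : ℕ := ⌊2 * Real.log N / Real.log (4 / 3)⌋₊

/-- The mean of `G` over the positions after `t` steps of coalescing simple random walks which start at the positions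
`x a`: in each step all walkers at the same position make the same move, one up (`A` is the set of these positions) or
one down, with independent fair coins for the different positions. -/
noncomputable def coal {k : ℕ} (G : (Fin k → ℤ) → ℝ) : ℕ → (Fin k → ℤ) → ℝ
  | 0, x => G x
  | t + 1, x => (∑ A ∈ (Finset.univ.image x).powerset, coal G t fun a => if x a ∈ A then x a + 1 else x a - 1)
      / 2 ^ (Finset.univ.image x).card

open Classical in
/-- The probability that the walker `a` has the colour `c a`, for all `a`, if the walker `a` is at `x a` and the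
positions get independent colours of law `μ`. -/
noncomputable def colour {ι : Type*} {k : ℕ} (μ : ι → ℝ) (c : Fin k → ι) (x : Fin k → ℤ) : ℝ :=
  ∏ z ∈ Finset.univ.image x, ∑' v : ι, if ∀ a, x a = z → c a = v then μ v else 0

/-- The joint law of the classes of the `k` integers `s (3 ^ (i a) n + r a)`, in total variation: `R` is a set of
`k`-tuples that is determined by the classes of the entries. -/
def ClassLaw (s : ℤ) (μ : {a : ℤ // IsRep s a} → ℝ) (k : ℕ) : Prop :=
  ∀ ε : ℝ, 0 < ε → ∀ᶠ N : ℕ in atTop, ∀ (i : Fin k → ℕ) (r : Fin k → ℤ), Low N i r →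
    ∀ R : Set (Fin k → ℤ), (∀ x y, (∀ a, Meet (x a) (y a)) → (x ∈ R ↔ y ∈ R)) →
      |prob N (fun n => (fun a => s * (3 ^ i a * n + r a)) ∈ R)
        - ∑' c : Fin k → {a : ℤ // IsRep s a},
            R.indicator (fun _ => coal (colour μ c) (steps N) fun a => 2 * (i a : ℤ)) (fun a => (c a : ℤ))| ≤ ε

/-! ### the closed form for one invariant set -/

open Classical in
/-- `1` on `S`, `-1` off `S`. -/
noncomputable def spin (S : Set ℤ) (x : ℤ) : ℝ := if x ∈ S then 1 else -1

/-- The complementary error function. -/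
noncomputable def erfc (x : ℝ) : ℝ := 1 - 2 / √Real.pi * ∫ y in (0 : ℝ)..x, Real.exp (-y ^ 2)

/-- `erfc (i √(log (4/3) / (2 log N)))`. -/
noncomputable def tau (N i : ℕ) : ℝ := erfc (i * √ (Real.log (4 / 3) / (2 * Real.log N)))

/-- `c y₀ * P (l without y₀) - c y₁ * P (l without y₁) + c y₂ * P (l without y₂) - ...`, `l = [y₀, y₁, y₂, ...]`. -/
def alt {ι : Type*} (c : ι → ℝ) : List ι → (List ι → ℝ) → ℝ
  | [], _ => 0
  | y :: l, P => c y * P l - alt c l fun r => P (y :: r)

/-- The Pfaffian of the antisymmetric matrix of size `2 m` with the rows `x ∈ l` and the entries `a x y`, `x` before `y`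
in `l`, by expansion along the first row. -/
def pfaffian {ι : Type*} (a : ι → ι → ℝ) : ℕ → List ι → ℝ
  | 0, [] => 1
  | 0, _ :: _ => 0
  | _ + 1, [] => 0
  | m + 1, x :: l => alt (a x) l (pfaffian a m)

/-- The Pfaffian of the matrix with the rows `x ∈ l` and the entries `a x y`; if the number of rows is odd, it is bordered
by a first row of entries `m`. -/
def wick {ι : Type*} (m : ℝ) (a : ι → ι → ℝ) (l : List ι) : ℝ :=
  if l.length % 2 = 0 then pfaffian a (l.length / 2) l else alt (fun _ => m) l (pfaffian a (l.length / 2))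

/-- The `k`-point correlations of `S`, for all `k`. -/
def Correlations (s : ℤ) (S : Set ℤ) (δ : ℝ) : Prop :=
  ∀ (k : ℕ) (ε : ℝ), 0 < ε → ∀ᶠ N : ℕ in atTop, ∀ (i : Fin k → ℕ) (r : Fin k → ℤ), Low N i r → Monotone i →
    |mean N (fun n => ∏ a, spin S (s * (3 ^ i a * n + r a)))
      - wick (2 * δ - 1) (fun a b => 1 - 4 * δ * (1 - δ) * (1 - tau N (i b - i a))) (List.finRange k)| ≤ ε

/-- The pair law: the probability that `s n` and `s (3 ^ i n + r)` are both in `S`. -/
def Pairs (s : ℤ) (S : Set ℤ) (δ : ℝ) : Prop :=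
  ∀ ε : ℝ, 0 < ε → ∀ᶠ N : ℕ in atTop, ∀ i : ℕ, (i : ℝ) ≤ Real.log N ^ (0.97 : ℝ) → ∀ r : ℤ, |r| ≤ 3 ^ i →
    |prob N (fun n => s * n ∈ S ∧ s * (3 ^ i * n + r) ∈ S) - (δ ^ 2 + δ * (1 - δ) * tau N i)| ≤ ε

/-- The meeting law: the probability that the trajectories of `s n` and `s (3 ^ i n + r)` meet. -/
def Meetings (s : ℤ) (Θ : ℝ) : Prop :=
  ∀ ε : ℝ, 0 < ε → ∀ᶠ N : ℕ in atTop, ∀ i : ℕ, (i : ℝ) ≤ Real.log N ^ (0.97 : ℝ) → ∀ r : ℤ, |r| ≤ 3 ^ i →
    |prob N (fun n => Meet (s * n) (s * (3 ^ i * n + r))) - (Θ + (1 - Θ) * tau N i)| ≤ ε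

/-- The number of `i < K` for which `s 3 ^ i n` is in `S`. -/
noncomputable def multiples (s : ℤ) (S : Set ℤ) (n K : ℕ) : ℕ := {i : ℕ | i < K ∧ s * (3 ^ i * n) ∈ S}.ncard

/-- The law of large numbers for `s 3 ^ i n`, `i < K N`, `n ≤ N`. -/
def LLN (s : ℤ) (S : Set ℤ) (δ : ℝ) (K : ℕ → ℕ) : Prop :=
  ∀ ε : ℝ, 0 < ε → Tendsto (fun N : ℕ => prob N (fun n => ε < |(multiples s S n (K N) : ℝ) / K N - δ|)) atTop (𝓝 0)

end Pool.Agent.Results.MP_d02c56_nt.JointLaw
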