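import Pool.Agent.KS6_24.ST.Col
import Pool.Agent.KS6_24.ST.PL8

/-!
PROJECT KL: the joint law for sets; the pair law for all levels up to `(log N) ^ 0.97`.
-/

set_option autoImplicit false

namespace Pool.Agent.KS6_24.ST

open Pool.Agent.H499R2.CO Pool.Agent.Y965.SI Finset Filter Topology Pool.Agent.KS6_24.LN

open Pool.Agent.T6.H47.CL (Er Er_le_one Er_nonneg)

open Classical in
/-- THE JOINT LAW for sets: `M B` is the density of the intersection of the `S a`, `a ∈ B`. -/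
def S_JSET (d : ℤ) : Prop := ∀ (n : ℕ) (S : Fin n → Set ℤ), (∀ a x, Tz d x ∈ S a ↔ x ∈ S a) → ∀ M : Finset (Fin n) → ℝ,
  (∀ B, 0 ≤ M B ∧ M B ≤ 1) → (∀ B, MeanZero (fun x => {x | ∀ a ∈ B, x ∈ S a}.indicator (fun _ => (1 : ℝ)) x - M B)) →
  ∀ ε : ℝ, 0 < ε → ∃ N0 : ℕ, ∀ N : ℕ, N0 ≤ N → ∀ i : Fin n → ℕ, (∀ a, (i a : ℝ) ≤ Real.log N ^ (0.97 : ℝ)) →
    ∀ r : Fin n → ℤ, (∀ a, |r a| ≤ 3 ^ i a) →
      |(({m ∈ Icc 1 N | ∀ a, 3 ^ i a * ((m : ℕ) : ℤ) + r a ∈ S a}.card : ℕ) : ℝ)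
        - Cw (GM M) (kn N) (fun a => 2 * (i a : ℤ)) * N| ≤ ε * N

theorem jt_prod_ind {n : ℕ} (S : Fin n → Set ℤ) (B : Finset (Fin n)) (x : ℤ) :
    ∏ a ∈ B, (S a).indicator (fun _ => (1 : ℝ)) x = {x | ∀ a ∈ B, x ∈ S a}.indicator (fun _ => (1 : ℝ)) x := by
  classical
  by_cases h : ∀ a ∈ B, x ∈ S a
  · rw [Set.indicator_of_mem (show x ∈ {x | ∀ a ∈ B, x ∈ S a} from h)]
    apply prod_eq_one
    intro a ha
    exact Set.indicator_of_mem (h a ha) _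
  · rw [Set.indicator_of_notMem (show x ∉ {x | ∀ a ∈ B, x ∈ S a} from h)]
    push Not at h
    obtain ⟨a, ha, hx⟩ := h
    exact prod_eq_zero ha (Set.indicator_of_notMem hx _)

theorem jset (d : ℤ) (h : S_JOINT d) : S_JSET d := by
  classical
  intro n S hS M hM01 hM ε hε
  have hF : ∀ a, InvF d ((S a).indicator (fun _ => (1 : ℝ))) := by
    intro a
    have := invF_ind (hS a) (le_refl (0 : ℝ)) zero_le_one
    simp only [sub_zero] at this
    exact this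
  have hMn : Mn (fun a => (S a).indicator (fun _ => (1 : ℝ))) M := by
    refine ⟨fun B => ?_, fun B => ?_⟩
    · rw [abs_of_nonneg (hM01 B).1]; exact (hM01 B).2
    · have e : (fun x => ∏ a ∈ B, (S a).indicator (fun _ => (1 : ℝ)) x - M B)
          = fun x => {x | ∀ a ∈ B, x ∈ S a}.indicator (fun _ => (1 : ℝ)) x - M B := by
        funext x; rw [jt_prod_ind]
      rw [e]
      exact hM B
  obtain ⟨N0, hN0⟩ := h n (fun a => (S a).indicator (fun _ => (1 : ℝ))) hF M hMn ε hε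
  refine ⟨N0, fun N hN i hi r hr => ?_⟩
  have h1 := hN0 N hN i hi r hr
  have e : (((#{m ∈ Icc 1 N | ∀ a, 3 ^ i a * ((m : ℕ) : ℤ) + r a ∈ S a} : ℕ) : ℝ))
      = ∑ m ∈ Icc 1 N, ∏ a, (S a).indicator (fun _ => (1 : ℝ)) (3 ^ i a * ((m : ℕ) : ℤ) + r a) := by
    rw [card_filter]
    push_cast
    apply sum_congr rfl
    intro m _
    simp only [Set.indicator]
    rw [prod_ite_zero]
    simp
  rw [e]
  exact h1

open Classical in
/-- THE PAIR LAW, levels up to `(log N) ^ 0.97`. -/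
def S_PAIRLAW97 (d : ℤ) : Prop := ∀ S : Set ℤ, (∀ x, Tz d x ∈ S ↔ x ∈ S) → ∀ δ : ℝ, 0 ≤ δ → δ ≤ 1 →
  MeanZero (fun x => S.indicator (fun _ => (1 : ℝ)) x - δ) → ∀ ε : ℝ, 0 < ε → ∃ N0 : ℕ, ∀ N : ℕ, N0 ≤ N →
  ∀ i : ℕ, (i : ℝ) ≤ Real.log N ^ (0.97 : ℝ) → ∀ r : ℤ, |r| ≤ 3 ^ i →
    |(({n ∈ Icc 1 N | ((n : ℕ) : ℤ) ∈ S ∧ 3 ^ i * ((n : ℕ) : ℤ) + r ∈ S}.card : ℕ) : ℝ)
      - (δ ^ 2 + δ * (1 - δ) * (1 - Er (√2 * (i * √ (gm / Real.log N))))) * N| ≤ ε * N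

/-- the density of the intersections, for one set -/
theorem jt_mz_inter {n : ℕ} {S : Set ℤ} {δ : ℝ} (hm : MeanZero (fun x => S.indicator (fun _ => (1 : ℝ)) x - δ))
    (B : Finset (Fin n)) :
    MeanZero (fun x => {x | ∀ a ∈ B, x ∈ S}.indicator (fun _ => (1 : ℝ)) x - (if B = ∅ then 1 else δ)) := by
  by_cases hB : B = ∅
  · subst hB
    have e : (fun x : ℤ => {x | ∀ a ∈ (∅ : Finset (Fin n)), x ∈ S}.indicator (fun _ => (1 : ℝ)) x - (if (∅ : Finset (Fin n)) = ∅ then 1 else δ))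
        = fun _ => 0 := by
      funext x
      rw [if_pos rfl, Set.indicator_of_mem]
      · ring
      · intro a ha; exact absurd ha (notMem_empty a)
    rw [e]
    unfold MeanZero
    simp
  · have e : (fun x : ℤ => {x | ∀ a ∈ B, x ∈ S}.indicator (fun _ => (1 : ℝ)) x - (if B = ∅ then 1 else δ))
        = fun x => S.indicator (fun _ => (1 : ℝ)) x - δ := by
      funext x
      rw [if_neg hB]
      have : {x : ℤ | ∀ a ∈ B, x ∈ S} = S := by
        ext y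
        obtain ⟨b, hb⟩ := nonempty_iff_ne_empty.2 hB
        exact ⟨fun h => h b hb, fun h _ _ => h⟩
      rw [this]
    rw [e]
    exact hm

theorem jt_GM_one {n : ℕ} (δ : ℝ) (x : Fin n → ℤ) : GM (fun B => if B = ∅ then 1 else δ) x = δ ^ #(univ.image x) := by
  unfold GM
  rw [← Finset.prod_const]
  apply prod_congr rfl
  intro z hz
  show (if (univ.filter fun a => x a = z) = ∅ then (1 : ℝ) else δ) = δ
  rw [if_neg]
  intro h
  rw [mem_image] at hz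
  obtain ⟨a, _, ha⟩ := hz
  have : a ∈ univ.filter fun a => x a = z := by rw [mem_filter]; exact ⟨mem_univ _, ha⟩
  rw [h] at this
  exact absurd this (notMem_empty a)

theorem pairlaw97 (d : ℤ) (h : S_JSET d) : S_PAIRLAW97 d := by
  classical
  intro S hS δ h0 h1 hmz ε hε
  obtain ⟨N0, hN0⟩ := h 2 (fun _ => S) (fun _ => hS) (fun B => if B = ∅ then 1 else δ) (fun B => by
    split_ifs
    · exact ⟨zero_le_one, le_rfl⟩
    · exact ⟨h0, h1⟩) (fun B => jt_mz_inter hmz B) (ε / 2) (by positivity)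
  obtain ⟨V0, hV0, hU⟩ := UU_erf (show 0 < ε / 2 by positivity)
  obtain ⟨N1, hN1⟩ := eventually_atTop.1 ((tendsto_natCast_atTop_atTop (R := ℝ)).eventually_ge_atTop V0)
  refine ⟨max N0 N1, fun N hN i hi r hr => ?_⟩
  have h2 := hN0 N ((le_max_left _ _).trans hN) ![0, i] (by
    intro a
    fin_cases a
    · show (((0 : ℕ) : ℕ) : ℝ) ≤ _
      rw [Nat.cast_zero]
      exact Real.rpow_nonneg (Real.log_natCast_nonneg N) _
    · exact hi) ![0, r] (by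
    intro a
    fin_cases a
    · show |(0 : ℤ)| ≤ _
      rw [abs_zero]; positivity
    · exact hr)
  have h3 := hU N (hN1 N ((le_max_right _ _).trans hN)) i
  have e1 : Cw (GM fun B : Finset (Fin 2) => if B = ∅ then 1 else δ) (kn N) (fun a => 2 * ((![0, i] a : ℕ) : ℤ))
      = δ + (δ ^ 2 - δ) * UU (2 * kn N) (2 * i) := by
    have h4 := jt_Cw_two (G := GM fun B : Finset (Fin 2) => if B = ∅ then 1 else δ) (g0 := δ ^ 2) (g1 := δ) (by
      intro x hx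
      rw [jt_GM_one]
      congr 1
      rw [card_image_of_injective _ (by
        intro a b hab
        fin_cases a <;> fin_cases b
        · rfl
        · exact absurd hab hx
        · exact absurd hab.symm hx
        · rfl)]
      simp) (by
      intro x hx
      rw [jt_GM_one]
      have : univ.image x = {x 0} := by
        ext z
        simp only [mem_image, mem_univ, true_and, mem_singleton]
        constructor
        · rintro ⟨a, rfl⟩
          fin_cases a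
          · rfl
          · exact hx.symm
        · intro hz; exact ⟨0, hz.symm⟩
      rw [this, card_singleton, pow_one]) (kn N) (fun a => 2 * ((![0, i] a : ℕ) : ℤ)) (by
        show (2 * (((0 : ℕ) : ℕ) : ℤ) - 2 * ((i : ℕ) : ℤ)) % 2 = 0
        omega)
    rw [h4]
    have e2 : (2 * ((![0, i] 0 : ℕ) : ℤ)) - 2 * ((![0, i] 1 : ℕ) : ℤ) = -(2 * (i : ℤ)) := by
      show 2 * (((0 : ℕ) : ℕ) : ℤ) - 2 * ((i : ℕ) : ℤ) = _
      push_cast; ring
    rw [e2, PL1.odd, abs_neg, abs_of_nonneg (KL1.UU_nonneg _ (by positivity))]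
  rw [e1] at h2
  have hc : #{n ∈ Icc 1 N | ((n : ℕ) : ℤ) ∈ S ∧ 3 ^ i * ((n : ℕ) : ℤ) + r ∈ S}
      = #{m ∈ Icc 1 N | ∀ a : Fin 2, 3 ^ (![0, i] a) * ((m : ℕ) : ℤ) + ![0, r] a ∈ S} := by
    congr 1
    apply filter_congr
    intro n _
    rw [Fin.forall_fin_two]
    simp
  rw [hc]
  obtain ⟨U, hUdef⟩ : ∃ U, U = UU (2 * kn N) (2 * i) := ⟨_, rfl⟩
  obtain ⟨E, hE⟩ : ∃ E, E = Er (√2 * (i * √ (gm / Real.log N))) := ⟨_, rfl⟩
  rw [← hUdef] at h2 h3
  rw [← hE] at h3 ⊢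
  have hN0' : (0 : ℝ) ≤ N := Nat.cast_nonneg N
  have e3 : (((#{m ∈ Icc 1 N | ∀ a : Fin 2, 3 ^ (![0, i] a) * ((m : ℕ) : ℤ) + ![0, r] a ∈ S} : ℕ) : ℝ))
      - (δ ^ 2 + δ * (1 - δ) * (1 - E)) * N
      = ((((#{m ∈ Icc 1 N | ∀ a : Fin 2, 3 ^ (![0, i] a) * ((m : ℕ) : ℤ) + ![0, r] a ∈ S} : ℕ) : ℝ))
        - (δ + (δ ^ 2 - δ) * U) * N) - (δ * (1 - δ)) * (U - E) * N := by ring
  rw [e3]
  have h5 : |δ * (1 - δ) * (U - E) * N| ≤ ε / 2 * N := by
    rw [abs_mul, abs_mul, abs_of_nonneg hN0', abs_of_nonneg (mul_nonneg h0 (sub_nonneg.2 h1))]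
    have h6 : δ * (1 - δ) ≤ 1 := by nlinarith
    have h7 : 0 ≤ δ * (1 - δ) := mul_nonneg h0 (sub_nonneg.2 h1)
    have h8 : δ * (1 - δ) * |U - E| ≤ 1 * (ε / 2) := mul_le_mul h6 h3 (abs_nonneg _) (by norm_num)
    have h9 := mul_le_mul_of_nonneg_right h8 hN0'
    linarith
  have h6 := abs_sub ((((#{m ∈ Icc 1 N | ∀ a : Fin 2, 3 ^ (![0, i] a) * ((m : ℕ) : ℤ) + ![0, r] a ∈ S} : ℕ) : ℝ))
        - (δ + (δ ^ 2 - δ) * U) * N) (δ * (1 - δ) * (U - E) * N)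
  linarith

end Pool.Agent.KS6_24.ST
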