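import Pool.Agent.KS6_24.ST.PLDefs

/-!
PROJECT PL, job PL1: properties of `UU`, the mean of the sign of `j + S_k` for the simple random walk.
-/

set_option autoImplicit false

namespace Pool.Agent.KS6_24.ST

open Pool.Agent.T6.H47.CL (uu Er)

namespace PL1

/-- one step of the simple random walk -/
noncomputable def av1 (f : ℤ → ℝ) (j : ℤ) : ℝ := (f (j + 1) + f (j - 1)) / 2

theorem av1_mono {f g : ℤ → ℝ} (h : ∀ x, f x ≤ g x) (x : ℤ) : av1 f x ≤ av1 g x := by
  unfold av1
  linarith [h (x + 1), h (x - 1)]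

theorem iter_mono (n : ℕ) : ∀ {f g : ℤ → ℝ}, (∀ x, f x ≤ g x) → ∀ x, av1^[n] f x ≤ av1^[n] g x := by
  induction n with
  | zero => intro f g h x; exact h x
  | succ n ih =>
    intro f g h x
    rw [Function.iterate_succ_apply, Function.iterate_succ_apply]
    exact ih (fun y => av1_mono h y) x

theorem UU_succ (k : ℕ) : UU (k + 1) = av1 (UU k) := by
  funext j; rfl

theorem UU_add (k n : ℕ) : UU (k + n) = av1^[n] (UU k) := by
  induction n with
  | zero => rfl
  | succ n ih => rw [← add_assoc, UU_succ, ih, Function.iterate_succ_apply']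

theorem quad (n : ℕ) (j : ℤ) : ∀ (a b : ℝ) (y : ℤ),
    av1^[n] (fun x => a + b * ((x : ℝ) - j) ^ 2) y = a + b * (((y : ℝ) - j) ^ 2 + n) := by
  induction n with
  | zero => intro a b y; simp
  | succ n ih =>
    intro a b y
    rw [Function.iterate_succ_apply]
    have e : av1 (fun x : ℤ => a + b * ((x : ℝ) - j) ^ 2) = fun x : ℤ => (a + b) + b * ((x : ℝ) - j) ^ 2 := by
      funext x
      unfold av1
      push_cast
      ring
    rw [e, ih]
    push_cast
    ring

theorem odd (k : ℕ) : ∀ j, UU k (-j) = - UU k j := by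
  induction k with
  | zero =>
    intro j
    rcases lt_trichotomy j 0 with h | h | h
    · simp only [UU]
      rw [if_neg (by omega), if_pos (by omega), if_neg (by omega), if_neg (by omega)]
      norm_num
    · subst h; simp [UU]
    · simp only [UU]
      rw [if_neg (by omega), if_neg (by omega), if_neg (by omega), if_pos (by omega)]
  | succ k ih =>
    intro j
    simp only [UU]
    rw [show -j + 1 = -(j - 1) by ring, show -j - 1 = -(j + 1) by ring, ih, ih]
    ring

theorem abs_le_one (k : ℕ) : ∀ j, |UU k j| ≤ 1 := by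
  induction k with
  | zero =>
    intro j
    simp only [UU]
    split_ifs <;> norm_num
  | succ k ih =>
    intro j
    simp only [UU]
    have h1 := abs_le.1 (ih (j + 1))
    have h2 := abs_le.1 (ih (j - 1))
    rw [abs_le]
    constructor <;> linarith [h1.1, h1.2, h2.1, h2.2]

theorem mono (k : ℕ) : Monotone (UU k) := by
  induction k with
  | zero =>
    intro a b hab
    simp only [UU]
    split_ifs <;> first | (exfalso; omega) | norm_num
  | succ k ih =>
    intro a b hab
    simp only [UU]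
    have h1 := ih (show a + 1 ≤ b + 1 by omega)
    have h2 := ih (show a - 1 ≤ b - 1 by omega)
    linarith

/-- binomial coefficients with an integer below -/
def ch (k : ℕ) (z : ℤ) : ℕ := if 0 ≤ z then k.choose z.toNat else 0

theorem ch_succ (k : ℕ) (z : ℤ) : ch (k + 1) (z + 1) = ch k z + ch k (z + 1) := by
  unfold ch
  rcases lt_trichotomy z (-1) with h | h | h
  · rw [if_neg (by omega), if_neg (by omega), if_neg (by omega)]
  · subst h
    simp
  · rw [if_pos (by omega), if_pos (by omega), if_pos (by omega)]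
    obtain ⟨n, rfl⟩ := Int.eq_ofNat_of_zero_le (show 0 ≤ z by omega)
    have e1 : ((n : ℤ) + 1).toNat = n + 1 := by omega
    have e2 : ((n : ℤ)).toNat = n := by omega
    rw [e1, e2, Nat.choose_succ_succ]

theorem diff_eq (k : ℕ) : ∀ j, UU k (j + 1) - UU k j = (ch k ((k + j + 1) / 2) : ℝ) / 2 ^ k := by
  induction k with
  | zero =>
    intro j
    simp only [UU, ch]
    have key : (((0 : ℕ) : ℤ) + j + 1) / 2 = (j + 1) / 2 := by simp
    rw [key]
    rcases lt_trichotomy j (-1) with h | h | h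
    · rw [if_neg (by omega), if_neg (by omega), if_neg (by omega), if_neg (by omega), if_neg (by omega)]
      simp
    · subst h; simp
    · rcases eq_or_lt_of_le (show 0 ≤ j by omega) with h0 | h0
      · subst h0; simp
      · rw [if_neg (by omega), if_pos (by omega), if_neg (by omega), if_pos (by omega), if_pos (by omega)]
        rw [Nat.choose_eq_zero_of_lt (by omega)]
        simp
  | succ k ih =>
    intro j
    simp only [UU]
    have h1 := ih (j + 1)
    have h2 := ih (j - 1)
    rw [show j - 1 + 1 = j by ring] at h2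
    have e1 : ((k : ℤ) + (j + 1) + 1) / 2 = ((k : ℤ) + j) / 2 + 1 := by omega
    have e2 : ((k : ℤ) + (j - 1) + 1) / 2 = ((k : ℤ) + j) / 2 := by omega
    have e3 : (((k + 1 : ℕ) : ℤ) + j + 1) / 2 = ((k : ℤ) + j) / 2 + 1 := by push_cast; omega
    rw [e1] at h1
    rw [e2] at h2
    rw [e3, ch_succ, pow_succ]
    rw [show j + 1 - 1 = j by ring]
    have h3 : (UU k (j + 1 + 1) + UU k j) / 2 - (UU k (j + 1) + UU k (j - 1)) / 2
        = ((UU k (j + 1 + 1) - UU k (j + 1)) + (UU k j - UU k (j - 1))) / 2 := by ring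
    rw [h3, h1, h2]
    push_cast
    field_simp
    ring

theorem central_le (n : ℕ) : (Nat.centralBinom n : ℝ) / 4 ^ n ≤ 1 / √ (2 * n + 1) := by
  induction n with
  | zero => simp
  | succ n ih =>
    have h1 : ((n : ℝ) + 1) * Nat.centralBinom (n + 1) = 2 * (2 * n + 1) * Nat.centralBinom n := by
      exact_mod_cast Nat.succ_mul_centralBinom_succ n
    have h2 : (Nat.centralBinom (n + 1) : ℝ) / 4 ^ (n + 1) = (2 * n + 1) / (2 * n + 2) * (Nat.centralBinom n / 4 ^ n) := by
      have hn : ((n : ℝ) + 1) ≠ 0 := by positivity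
      have h3 : (Nat.centralBinom (n + 1) : ℝ) = 2 * (2 * n + 1) * Nat.centralBinom n / (n + 1) := by
        rw [eq_div_iff hn]; linarith
      rw [h3, pow_succ]
      field_simp
      ring
    rw [h2]
    refine (mul_le_mul_of_nonneg_left ih (by positivity)).trans ?_
    push_cast
    rw [mul_one_div, div_le_div_iff₀ (by positivity) (by positivity), one_mul]
    -- (2n+1)/(2n+2) * √(2n+3) ≤ √(2n+1)
    rw [div_mul_eq_mul_div, div_le_iff₀ (by positivity)]
    have e : (2 : ℝ) * (n + 1) + 1 = 2 * n + 3 := by ring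
    rw [e]
    have hs1 : 0 ≤ √ (2 * (n : ℝ) + 1) := Real.sqrt_nonneg _
    have hs3 : 0 ≤ √ (2 * (n : ℝ) + 3) := Real.sqrt_nonneg _
    have q1 : √ (2 * (n : ℝ) + 1) * √ (2 * (n : ℝ) + 1) = 2 * n + 1 := Real.mul_self_sqrt (by positivity)
    have q3 : √ (2 * (n : ℝ) + 3) * √ (2 * (n : ℝ) + 3) = 2 * n + 3 := Real.mul_self_sqrt (by positivity)
    apply abs_le_of_sq_le_sq' _ (by positivity) |>.2
    have e1 : ((2 * (n : ℝ) + 1) * √ (2 * (n : ℝ) + 3)) ^ 2 = (2 * n + 1) ^ 2 * (2 * n + 3) := by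
      rw [mul_pow, sq (√ (2 * (n : ℝ) + 3)), q3]
    have e2 : (√ (2 * (n : ℝ) + 1) * (2 * n + 2)) ^ 2 = (2 * n + 1) * (2 * n + 2) ^ 2 := by
      rw [mul_pow, sq (√ (2 * (n : ℝ) + 1)), q1]
    rw [e1, e2]
    have hn0 : (0 : ℝ) ≤ n := Nat.cast_nonneg n
    nlinarith

theorem choose_le (k i : ℕ) : (k.choose i : ℝ) / 2 ^ k ≤ 1 / √ ((k : ℝ) + 1) := by
  rcases Nat.even_or_odd' k with ⟨n, rfl | rfl⟩
  · have h1 : ((2 * n).choose i : ℝ) ≤ Nat.centralBinom n := by exact_mod_cast Nat.choose_le_centralBinom i n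
    have h2 := central_le n
    rw [pow_mul]
    push_cast
    norm_num at h2 ⊢
    refine le_trans ?_ h2
    gcongr
  · have h1 : ((2 * n + 1).choose i : ℝ) ≤ Nat.centralBinom (n + 1) / 2 := by
      have h3 : (2 * n + 1).choose i ≤ (2 * n + 1).choose n := by
        have := Nat.choose_le_middle i (2 * n + 1)
        rwa [show (2 * n + 1) / 2 = n by omega] at this
      have h4 : Nat.centralBinom (n + 1) = 2 * (2 * n + 1).choose n := by
        rw [Nat.centralBinom_eq_two_mul_choose, show 2 * (n + 1) = 2 * n + 1 + 1 by ring, Nat.choose_succ_succ']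
        have : (2 * n + 1).choose (n + 1) = (2 * n + 1).choose n := by
          rw [← Nat.choose_symm_of_eq_add (show 2 * n + 1 = n + (n + 1) by ring)]
        omega
      rw [h4]
      push_cast
      have : ((2 * n + 1).choose i : ℝ) ≤ (2 * n + 1).choose n := by exact_mod_cast h3
      linarith
    have h2 := central_le (n + 1)
    have e : (2 : ℝ) ^ (2 * n + 1) = 4 ^ (n + 1) / 2 := by
      rw [pow_succ, pow_mul, pow_succ]; norm_num
      ring
    rw [e]
    have h5 : ((2 * n + 1).choose i : ℝ) / (4 ^ (n + 1) / 2) ≤ (Nat.centralBinom (n + 1) : ℝ) / 4 ^ (n + 1) := by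
      rw [div_le_div_iff₀ (by positivity) (by positivity)]
      have h6 : (0 : ℝ) < 4 ^ (n + 1) := by positivity
      nlinarith
    refine h5.trans (h2.trans ?_)
    apply one_div_le_one_div_of_le (by positivity)
    apply Real.sqrt_le_sqrt
    push_cast
    linarith

theorem diff_le (k : ℕ) (j : ℤ) : UU k (j + 1) - UU k j ≤ 1 / √ ((k : ℝ) + 1) := by
  rw [diff_eq]
  unfold ch
  split_ifs
  · exact choose_le _ _
  · simp only [Nat.cast_zero, zero_div]; positivity

theorem lip_nat (k : ℕ) (j : ℤ) (s : ℕ) : UU k (j + s) - UU k j ≤ s * (1 / √ ((k : ℝ) + 1)) := by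
  induction s with
  | zero => simp
  | succ s ih =>
    have h := diff_le k (j + s)
    push_cast
    rw [← add_assoc]
    linarith

theorem lip (k : ℕ) (j x : ℤ) : |UU k x - UU k j| ≤ |(x : ℝ) - j| * (1 / √ ((k : ℝ) + 1)) := by
  rcases le_total j x with h | h
  · obtain ⟨s, hs⟩ := Int.eq_ofNat_of_zero_le (sub_nonneg.2 h)
    have e : x = j + s := by omega
    have h1 := lip_nat k j s
    have h2 := mono k (show j ≤ j + s by omega)
    rw [e]
    rw [abs_of_nonneg (by linarith)]
    push_cast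
    rw [add_sub_cancel_left, abs_of_nonneg (by positivity)]
    exact h1
  · obtain ⟨s, hs⟩ := Int.eq_ofNat_of_zero_le (sub_nonneg.2 h)
    have e : j = x + s := by omega
    have h1 := lip_nat k x s
    have h2 := mono k (show x ≤ x + s by omega)
    rw [e]
    rw [abs_sub_comm, abs_of_nonneg (by linarith), abs_sub_comm]
    push_cast
    rw [add_sub_cancel_left, abs_of_nonneg (by positivity)]
    exact h1

theorem time_diff (k n : ℕ) (j : ℤ) : |UU (k + n) j - UU k j| ≤ √ n / √ ((k : ℝ) + 1) := by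
  rcases Nat.eq_zero_or_pos n with rfl | hn
  · simp
  · rw [UU_add]
    set L : ℝ := 1 / √ ((k : ℝ) + 1) with hL
    have hL0 : 0 ≤ L := by positivity
    have hnr : (0 : ℝ) < n := by exact_mod_cast hn
    have hs : 0 < √ (n : ℝ) := Real.sqrt_pos.2 hnr
    have hss : √ (n : ℝ) * √ (n : ℝ) = n := Real.mul_self_sqrt hnr.le
    -- pointwise bound
    have hb : ∀ x : ℤ, |(x : ℝ) - j| ≤ √ n / 2 + 1 / (2 * √ n) * ((x : ℝ) - j) ^ 2 := by
      intro x
      have h0 : 0 ≤ (|(x : ℝ) - j| - √ n) ^ 2 := sq_nonneg _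
      have h1 : |(x : ℝ) - j| ^ 2 = ((x : ℝ) - j) ^ 2 := sq_abs _
      have h2 : √ (n : ℝ) / 2 + 1 / (2 * √ n) * ((x : ℝ) - j) ^ 2 - |(x : ℝ) - j|
          = 1 / (2 * √ n) * (|(x : ℝ) - j| - √ n) ^ 2 := by
        rw [← h1]
        field_simp
        ring
      have h3 : 0 ≤ 1 / (2 * √ (n : ℝ)) * (|(x : ℝ) - j| - √ n) ^ 2 := by positivity
      linarith
    have hup : ∀ x : ℤ, UU k x ≤ (UU k j + L * (√ n / 2)) + L * (1 / (2 * √ n)) * ((x : ℝ) - j) ^ 2 := by
      intro x
      have h1 := (abs_le.1 (lip k j x)).2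
      have h2 := mul_le_mul_of_nonneg_left (hb x) hL0
      linarith
    have hlo : ∀ x : ℤ, (UU k j - L * (√ n / 2)) + (-(L * (1 / (2 * √ n)))) * ((x : ℝ) - j) ^ 2 ≤ UU k x := by
      intro x
      have h1 := (abs_le.1 (lip k j x)).1
      have h2 := mul_le_mul_of_nonneg_left (hb x) hL0
      linarith
    have g1 := iter_mono n hup j
    have g2 := iter_mono n hlo j
    rw [quad] at g1 g2
    have e : L * (√ n / 2) + L * (1 / (2 * √ n)) * n = √ n / √ ((k : ℝ) + 1) := by
      have : L * (1 / (2 * √ n)) * n = L * (1 / (2 * √ n)) * (√ (n : ℝ) * √ (n : ℝ)) := by rw [hss]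
      rw [this, hL]
      field_simp
      ring
    rw [abs_le]
    constructor
    · have : (((j : ℝ) - j) ^ 2 + n) = n := by ring
      rw [this] at g2
      linarith
    · have : (((j : ℝ) - j) ^ 2 + n) = n := by ring
      rw [this] at g1
      linarith

theorem cheb (k : ℕ) (j : ℤ) (hj : 1 ≤ j) : 1 - 2 * k / (j : ℝ) ^ 2 ≤ UU k j := by
  have hjr : (1 : ℝ) ≤ j := by exact_mod_cast hj
  have hj2 : (0 : ℝ) < (j : ℝ) ^ 2 := by positivity
  have h0 : ∀ x : ℤ, 1 + (-(2 / (j : ℝ) ^ 2)) * ((x : ℝ) - j) ^ 2 ≤ UU 0 x := by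
    intro x
    simp only [UU]
    have hp : 0 ≤ 2 / (j : ℝ) ^ 2 * ((x : ℝ) - j) ^ 2 := by positivity
    rcases lt_trichotomy x 0 with h | h | h
    · rw [if_neg (by omega), if_neg (by omega)]
      have hx : (x : ℝ) < 0 := by exact_mod_cast h
      have h1 : (j : ℝ) ^ 2 ≤ ((x : ℝ) - j) ^ 2 := by nlinarith
      have h2 : 2 / (j : ℝ) ^ 2 * (j : ℝ) ^ 2 ≤ 2 / (j : ℝ) ^ 2 * ((x : ℝ) - j) ^ 2 :=
        mul_le_mul_of_nonneg_left h1 (by positivity)
      rw [div_mul_cancel₀ _ hj2.ne'] at h2
      linarith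
    · subst h
      rw [if_pos rfl]
      have h1 : (((0 : ℤ) : ℝ) - j) ^ 2 = (j : ℝ) ^ 2 := by push_cast; ring
      rw [h1]
      have : 2 / (j : ℝ) ^ 2 * (j : ℝ) ^ 2 = 2 := div_mul_cancel₀ _ hj2.ne'
      linarith
    · rw [if_neg (by omega), if_pos (by omega)]
      linarith
  have h1 := iter_mono k h0 j
  rw [quad] at h1
  have e : UU k = av1^[k] (UU 0) := by
    have := UU_add 0 k
    rwa [zero_add] at this
  rw [e]
  refine le_trans (le_of_eq ?_) h1
  ring

theorem eq_uu (k : ℕ) : ∀ i : ℕ, UU k i = uu k i := by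
  induction k with
  | zero =>
    intro i
    simp only [UU, uu]
    rcases Nat.eq_zero_or_pos i with rfl | h
    · simp
    · rw [if_neg (by omega), if_pos (by omega), if_neg (by omega)]
  | succ k ih =>
    intro i
    rcases Nat.eq_zero_or_pos i with rfl | h
    · have := odd (k + 1) 0
      simp only [neg_zero] at this
      have h0 : UU (k + 1) 0 = 0 := by linarith
      simp only [uu, if_true]
      exact_mod_cast h0
    · simp only [UU, uu]
      rw [if_neg (by omega)]
      rw [show (i : ℤ) + 1 = ((i + 1 : ℕ) : ℤ) by push_cast; rfl, show (i : ℤ) - 1 = ((i - 1 : ℕ) : ℤ) by omega, ih, ih]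

end PL1

/-- **Properties of `UU`.** -/
theorem uprop : S_U := by
  refine ⟨1, one_pos, PL1.odd, PL1.abs_le_one, PL1.mono, PL1.diff_le, ?_, PL1.cheb, PL1.eq_uu⟩
  intro k n j
  rw [one_mul]
  exact PL1.time_diff k n j

end Pool.Agent.KS6_24.ST
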