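import Pool.Agent.KS6_24.ST.KLDefs
import Pool.Agent.KS6_24.ST.EPf
import Pool.Agent.KS6_24.ST.PL1

/-!
PROJECT KL, job KL1: properties of the coalescing simple random walks.
-/

set_option autoImplicit false

namespace Pool.Agent.KS6_24.ST

open Finset

namespace KL1

variable {n : ℕ}

theorem mv_eq (A : Finset ℤ) (x : ℤ) : mv A x = x + sgn A x := by
  unfold mv sgn
  split_ifs
  · rfl
  · ring

theorem Cw_succ' (G : (Fin n → ℤ) → ℝ) (k : ℕ) (x : Fin n → ℤ) :
    Cw G (k + 1) x = EP (univ.image x) (fun σ => Cw G k (fun a => x a + σ (x a))) := by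
  show Ex (univ.image x) (fun A => Cw G k fun a => mv A (x a)) = _
  unfold Ex EP
  congr 1
  apply sum_congr rfl
  intro A _
  show Cw G k (fun a => mv A (x a)) = Cw G k (fun a => x a + sgn A (x a))
  congr 1
  funext a
  rw [mv_eq]

theorem Cw_succ (G : (Fin n → ℤ) → ℝ) (k : ℕ) (x : Fin n → ℤ) {P : Finset ℤ} (hP : univ.image x ⊆ P) :
    Cw G (k + 1) x = EP P (fun σ => Cw G k (fun a => x a + σ (x a))) := by
  rw [EP_eq hP]
  · exact Cw_succ' G k x
  · intro σ σ' h
    congr 1
    funext a
    rw [h (x a) (mem_image_of_mem x (mem_univ a))]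

theorem Cw_abs {G : (Fin n → ℤ) → ℝ} (hG : ∀ x, |G x| ≤ 1) (k : ℕ) (x : Fin n → ℤ) : |Cw G k x| ≤ 1 := by
  induction k generalizing x with
  | zero => exact hG x
  | succ k ih =>
    rw [Cw_succ']
    refine (EP_abs _).trans ?_
    rw [← EP_const (univ.image x) 1]
    exact EP_mono fun σ _ => ih _

theorem EP_shift (P : Finset ℤ) (s : ℤ) (f : (ℤ → ℤ) → ℝ) :
    EP (P.image (fun x => x + s)) f = EP P (fun σ => f (fun x => σ (x - s))) := by
  induction P using Finset.induction_on generalizing f with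
  | empty =>
    rw [image_empty, EP_empty, EP_empty]
    congr 1
  | insert x P hx ih =>
    have hx' : x + s ∉ P.image (fun x => x + s) := by
      intro h
      rw [mem_image] at h
      obtain ⟨y, hy, he⟩ := h
      have : y = x := by omega
      exact hx (this ▸ hy)
    rw [image_insert, EP_insert hx', EP_insert hx, ih, ih]
    have e : ∀ (σ : ℤ → ℤ) (c : ℤ), Function.update (fun x => σ (x - s)) (x + s) c = fun y => Function.update σ x c (y - s) := by
      intro σ c
      funext y
      by_cases hy : y = x + s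
      · subst hy
        rw [Function.update_self, add_sub_cancel_right, Function.update_self]
      · rw [Function.update_of_ne hy, Function.update_of_ne (by intro h; apply hy; omega)]
    simp only [e]

theorem Cw_trans {G : (Fin n → ℤ) → ℝ} (hG : ∀ (x : Fin n → ℤ) (s : ℤ), G (fun a => x a + s) = G x) (k : ℕ)
    (x : Fin n → ℤ) (s : ℤ) : Cw G k (fun a => x a + s) = Cw G k x := by
  induction k generalizing x with
  | zero => exact hG x s
  | succ k ih =>
    rw [Cw_succ', Cw_succ']
    have e1 : univ.image (fun a => x a + s) = (univ.image x).image (fun x => x + s) := by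
      rw [image_image]; rfl
    rw [e1, EP_shift]
    congr 1
    funext σ
    have e2 : (fun a => x a + s + σ (x a + s - s)) = fun a => (x a + σ (x a)) + s := by
      funext a
      rw [add_sub_cancel_right]; ring
    rw [e2]
    exact ih _

/-! ### two walks -/

theorem UU_zero (k : ℕ) : UU k 0 = 0 := by
  have := PL1.odd k 0
  rw [neg_zero] at this
  linarith

theorem UU_nonneg (k : ℕ) {D : ℤ} (hD : 0 ≤ D) : 0 ≤ UU k D := by
  rw [← UU_zero k]; exact PL1.mono k hD

theorem UU_abs_le (k : ℕ) (D : ℤ) : |UU k D| ≤ |(D : ℝ)| / √ ((k : ℝ) + 1) := by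
  have h := PL1.lip k 0 D
  rw [UU_zero, sub_zero, Int.cast_zero, sub_zero] at h
  rw [div_eq_mul_one_div]
  exact h

theorem UU_two (k : ℕ) (D : ℤ) : UU (k + 2) D = (UU k (D + 2) + 2 * UU k D + UU k (D - 2)) / 4 := by
  show (UU (k + 1) (D + 1) + UU (k + 1) (D - 1)) / 2 = _
  show ((UU k (D + 1 + 1) + UU k (D + 1 - 1)) / 2 + (UU k (D - 1 + 1) + UU k (D - 1 - 1)) / 2) / 2 = _
  rw [show D + 1 + 1 = D + 2 by ring, show D + 1 - 1 = D by ring, show D - 1 + 1 = D by ring, show D - 1 - 1 = D - 2 by ring]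
  ring

/-- mean of `|UU (2 k)|` of the difference of two walks, positions of the same parity -/
theorem EP_UU {P : Finset ℤ} {x y : ℤ} (hx : x ∈ P) (hy : y ∈ P) (hxy : (x - y) % 2 = 0) (k : ℕ) :
    EP P (fun σ => |UU (2 * k) (x + σ x - (y + σ y))|) = |UU (2 * (k + 1)) (x - y)| := by
  have h1 := PL1.odd
  have hpos : ∀ (k : ℕ) (D : ℤ), 0 ≤ D → 0 ≤ UU k D := fun k D hD => UU_nonneg k hD
  by_cases he : x = y
  · subst he
    simp only [sub_self, UU_zero, abs_zero]
    exact EP_const _ _
  · have e := EP_two hx hy he (fun u v => |UU (2 * k) (x + u - (y + v))|)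
    rw [e]
    obtain ⟨D, hD⟩ : ∃ D, D = x - y := ⟨_, rfl⟩
    have e1 : x + 1 - (y + 1) = D := by omega
    have e2 : x + 1 - (y + -1) = D + 2 := by omega
    have e3 : x + -1 - (y + 1) = D - 2 := by omega
    have e4 : x + -1 - (y + -1) = D := by omega
    rw [e1, e2, e3, e4, ← hD, show 2 * (k + 1) = 2 * k + 2 by ring, UU_two]
    have hD2 : D % 2 = 0 := by rw [hD]; exact hxy
    have hD0 : D ≠ 0 := by omega
    rcases lt_or_gt_of_ne hD0 with hneg | hpos'
    · have a1 : UU (2 * k) D ≤ 0 := by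
        have := hpos (2 * k) (-D) (by omega)
        rw [h1] at this; linarith
      have a2 : UU (2 * k) (D + 2) ≤ 0 := by
        have := hpos (2 * k) (-(D + 2)) (by omega)
        rw [h1] at this; linarith
      have a3 : UU (2 * k) (D - 2) ≤ 0 := by
        have := hpos (2 * k) (-(D - 2)) (by omega)
        rw [h1] at this; linarith
      rw [abs_of_nonpos a1, abs_of_nonpos a2, abs_of_nonpos a3, abs_of_nonpos (by linarith)]
      ring
    · have a1 := hpos (2 * k) D (by omega)
      have a2 := hpos (2 * k) (D + 2) (by omega)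
      have a3 := hpos (2 * k) (D - 2) (by omega)
      rw [abs_of_nonneg a1, abs_of_nonneg a2, abs_of_nonneg a3, abs_of_nonneg (by linarith)]
      ring

/-- moving one walk -/
theorem Cw_move {G : (Fin n → ℤ) → ℝ} (hG : ∀ x, |G x| ≤ 1) (k : ℕ) (x : Fin n → ℤ) (a : Fin n) (y : ℤ)
    (hy : (y - x a) % 2 = 0) :
    |Cw G k x - Cw G k (Function.update x a y)| ≤ 2 * |UU (2 * k) (y - x a)| := by
  classical
  induction k generalizing x y with
  | zero =>
    by_cases h : y = x a
    · rw [h, Function.update_eq_self, sub_self, abs_zero]; positivity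
    · have e1 : |UU (2 * 0) (y - x a)| = 1 := by
        rw [Nat.mul_zero]
        unfold UU
        have : y - x a ≠ 0 := sub_ne_zero.2 h
        rw [if_neg this]
        split_ifs <;> norm_num
      rw [e1]
      have a1 := Cw_abs hG 0 x
      have a2 := Cw_abs hG 0 (Function.update x a y)
      have a3 := abs_sub (Cw G 0 x) (Cw G 0 (Function.update x a y))
      linarith
  | succ k ih =>
    obtain ⟨P, hP⟩ : ∃ P : Finset ℤ, P = insert y (univ.image x) := ⟨_, rfl⟩
    have hj : univ.image x ⊆ P := by rw [hP]; exact subset_insert _ _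
    have hyP : y ∈ P := by rw [hP]; exact mem_insert_self _ _
    have hjaP : x a ∈ P := hj (mem_image_of_mem x (mem_univ a))
    have hu : univ.image (Function.update x a y) ⊆ P := by
      intro z hz
      rw [mem_image] at hz
      obtain ⟨b, _, rfl⟩ := hz
      by_cases hb : b = a
      · subst hb; rw [Function.update_self]; exact hyP
      · rw [Function.update_of_ne hb]; exact hj (mem_image_of_mem x (mem_univ b))
    rw [Cw_succ G k x hj, Cw_succ G k (Function.update x a y) hu, ← EP_sub]
    refine (EP_abs _).trans ?_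
    rw [← EP_UU hyP hjaP hy k, ← EP_mul]
    apply EP_mono
    intro σ hσ
    have e : (fun b => Function.update x a y b + σ (Function.update x a y b))
        = Function.update (fun b => x b + σ (x b)) a (y + σ y) := by
      funext b
      by_cases hb : b = a
      · subst hb; rw [Function.update_self, Function.update_self]
      · rw [Function.update_of_ne hb, Function.update_of_ne hb]
    rw [e]
    apply ih
    have s1 : σ y = 1 ∨ σ y = -1 := hσ y
    have s2 : σ (x a) = 1 ∨ σ (x a) = -1 := hσ (x a)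
    omega

/-- moving all the walks -/
theorem Cw_moves {G : (Fin n → ℤ) → ℝ} (hG : ∀ x, |G x| ≤ 1) (k : ℕ) (x x' : Fin n → ℤ)
    (hx : ∀ a, (x' a - x a) % 2 = 0) :
    |Cw G k x - Cw G k x'| ≤ 2 * ∑ a, |UU (2 * k) (x' a - x a)| := by
  classical
  have main : ∀ s : Finset (Fin n), |Cw G k x - Cw G k (fun a => if a ∈ s then x' a else x a)|
      ≤ 2 * ∑ a ∈ s, |UU (2 * k) (x' a - x a)| := by
    intro s
    induction s using Finset.induction_on with
    | empty => simp
    | insert a s ha ih =>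
      rw [sum_insert ha]
      have h4 := Cw_move hG k (fun b => if b ∈ s then x' b else x b) a (x' a) (by
        simp only [ha, if_false]; exact hx a)
      simp only [ha, if_false] at h4
      have e : Function.update (fun b => if b ∈ s then x' b else x b) a (x' a)
          = fun b => if b ∈ insert a s then x' b else x b := by
        funext b
        by_cases hb : b = a
        · subst hb; rw [Function.update_self, if_pos (mem_insert_self _ _)]
        · rw [Function.update_of_ne hb]
          simp only [mem_insert, hb, false_or]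
      rw [e] at h4
      have h5 := abs_add_le (Cw G k x - Cw G k (fun b => if b ∈ s then x' b else x b))
        (Cw G k (fun b => if b ∈ s then x' b else x b) - Cw G k (fun b => if b ∈ insert a s then x' b else x b))
      rw [sub_add_sub_cancel] at h5
      linarith
  have h := main univ
  simp only [mem_univ, if_true] at h
  exact h

theorem sqrt_le (k : ℕ) : √ ((k : ℝ) + 1) ≤ √ (((2 * k : ℕ) : ℝ) + 1) := by
  apply Real.sqrt_le_sqrt
  push_cast
  have : (0 : ℝ) ≤ k := Nat.cast_nonneg k
  linarith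

theorem Cw_lip {G : (Fin n → ℤ) → ℝ} (hG : ∀ x, |G x| ≤ 1) (k : ℕ) (x x' : Fin n → ℤ)
    (hx : ∀ a, (x' a - x a) % 2 = 0) :
    |Cw G k x - Cw G k x'| ≤ 2 / √ ((k : ℝ) + 1) * ∑ a, |(x a : ℝ) - x' a| := by
  refine (Cw_moves hG k x x' hx).trans ?_
  rw [mul_sum, mul_sum]
  apply sum_le_sum
  intro a _
  have h1 := UU_abs_le (2 * k) (x' a - x a)
  have h2 : |((x' a - x a : ℤ) : ℝ)| = |(x a : ℝ) - x' a| := by
    push_cast; exact abs_sub_comm _ _
  rw [h2] at h1
  have h3 : |(x a : ℝ) - x' a| / √ (((2 * k : ℕ) : ℝ) + 1) ≤ |(x a : ℝ) - x' a| / √ ((k : ℝ) + 1) :=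
    div_le_div_of_nonneg_left (abs_nonneg _) (by positivity) (sqrt_le k)
  have h4 : 2 / √ ((k : ℝ) + 1) * |(x a : ℝ) - x' a| = 2 * (|(x a : ℝ) - x' a| / √ ((k : ℝ) + 1)) := by ring
  rw [h4]
  linarith

theorem sqrt_avg (D l : ℝ) (hl : 0 ≤ l) : (√ ((D + 1) ^ 2 + l) + √ ((D - 1) ^ 2 + l)) / 2 ≤ √ (D ^ 2 + (l + 1)) := by
  apply Real.le_sqrt_of_sq_le
  have s1 : √ ((D + 1) ^ 2 + l) ^ 2 = (D + 1) ^ 2 + l := Real.sq_sqrt (by positivity)
  have s2 : √ ((D - 1) ^ 2 + l) ^ 2 = (D - 1) ^ 2 + l := Real.sq_sqrt (by positivity)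
  nlinarith [sq_nonneg (√ ((D + 1) ^ 2 + l) - √ ((D - 1) ^ 2 + l))]

theorem Cw_time {G : (Fin n → ℤ) → ℝ} (hG : ∀ x, |G x| ≤ 1) (k l : ℕ) (x x' : Fin n → ℤ)
    (hx : ∀ a, (x' a - x a - l) % 2 = 0) :
    |Cw G (k + l) x - Cw G k x'| ≤ 2 / √ ((k : ℝ) + 1) * ∑ a, √ (((x a : ℝ) - x' a) ^ 2 + l) := by
  induction l generalizing x with
  | zero =>
    refine (Cw_lip hG k x x' (fun a => by have := hx a; push_cast at this; omega)).trans ?_
    apply mul_le_mul_of_nonneg_left _ (by positivity)
    apply sum_le_sum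
    intro a _
    rw [Nat.cast_zero, add_zero, Real.sqrt_sq_eq_abs]
  | succ l ih =>
    rw [← add_assoc, Cw_succ' G (k + l) x]
    have e1 : EP (univ.image x) (fun σ => Cw G (k + l) (fun a => x a + σ (x a))) - Cw G k x'
        = EP (univ.image x) (fun σ => Cw G (k + l) (fun a => x a + σ (x a)) - Cw G k x') := by
      rw [EP_sub, EP_const]
    rw [e1]
    refine (EP_abs _).trans ?_
    have h1 : EP (univ.image x) (fun σ => |Cw G (k + l) (fun a => x a + σ (x a)) - Cw G k x'|)
        ≤ EP (univ.image x) (fun σ => 2 / √ ((k : ℝ) + 1) * ∑ a, √ ((((x a + σ (x a) : ℤ) : ℝ) - x' a) ^ 2 + l)) := by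
      apply EP_mono
      intro σ hσ
      apply ih
      intro a
      have s1 := hσ (x a)
      have s2 := hx a
      push_cast at s2 ⊢
      omega
    refine h1.trans ?_
    rw [EP_mul, EP_sum]
    apply mul_le_mul_of_nonneg_left _ (by positivity)
    apply sum_le_sum
    intro a _
    have h2 := EP_one (mem_image_of_mem x (mem_univ a)) (fun s => √ ((((x a + s : ℤ) : ℝ) - x' a) ^ 2 + l))
    rw [h2]
    have h3 := sqrt_avg ((x a : ℝ) - x' a) l (Nat.cast_nonneg l)
    push_cast
    have e2 : (x a : ℝ) + 1 - x' a = (x a : ℝ) - x' a + 1 := by ring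
    have e3 : (x a : ℝ) + -1 - x' a = (x a : ℝ) - x' a - 1 := by ring
    rw [e2, e3]
    exact h3

theorem Cw_time' {G : (Fin n → ℤ) → ℝ} (hG : Gok G) (k l : ℕ) (x : Fin n → ℤ) :
    |Cw G (k + l) x - Cw G k x| ≤ 2 * n * (√ l + 1) / √ ((k : ℝ) + 1) := by
  have key : ∀ s : ℤ, 0 ≤ s → s ≤ 1 → ((s : ℤ) - l) % 2 = 0 →
      |Cw G (k + l) x - Cw G k x| ≤ 2 * n * (√ l + 1) / √ ((k : ℝ) + 1) := by
    intro s hs0 hs1 hs
    have h1 := Cw_time hG.1 k l x (fun a => x a + s) (fun a => by
      rw [show x a + s - x a - (l : ℤ) = s - l by ring]; exact hs)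
    rw [Cw_trans hG.2] at h1
    refine h1.trans ?_
    have h2 : ∀ a : Fin n, √ (((x a : ℝ) - (x a + s : ℤ)) ^ 2 + l) ≤ √ l + 1 := by
      intro a
      push_cast
      rw [show (x a : ℝ) - (x a + s) = -s by ring]
      have h3 : √ ((-(s : ℝ)) ^ 2 + l) ≤ √ (1 + l) := by
        apply Real.sqrt_le_sqrt
        have hs0' : (0 : ℝ) ≤ s := by exact_mod_cast hs0
        have hs1' : (s : ℝ) ≤ 1 := by exact_mod_cast hs1
        nlinarith
      refine h3.trans ?_
      rw [Real.sqrt_le_iff]
      have hl : 0 ≤ √ (l : ℝ) := Real.sqrt_nonneg _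
      have hl2 : √ (l : ℝ) ^ 2 = l := Real.sq_sqrt (Nat.cast_nonneg l)
      constructor
      · positivity
      · nlinarith
    have h4 : ∑ a, √ (((x a : ℝ) - (x a + s : ℤ)) ^ 2 + l) ≤ n * (√ l + 1) := by
      have := sum_le_sum fun a (_ : a ∈ (univ : Finset (Fin n))) => h2 a
      rw [sum_const, card_univ, Fintype.card_fin, nsmul_eq_mul] at this
      exact this
    have h5 := mul_le_mul_of_nonneg_left h4 (show 0 ≤ 2 / √ ((k : ℝ) + 1) by positivity)
    refine h5.trans (le_of_eq ?_)
    ring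
  rcases Nat.even_or_odd' l with ⟨m, hm | hm⟩
  · exact key 0 le_rfl (by norm_num) (by rw [hm]; push_cast; omega)
  · exact key 1 (by norm_num) le_rfl (by rw [hm]; push_cast; omega)

/-! ### far walks -/

/-- probability that two walks meet -/
noncomputable def hit (k : ℕ) (x : Fin n → ℤ) : ℝ := ∑ a, ∑ b, if a < b then 1 - |UU (2 * k) (x a - x b)| else 0

theorem hit_term (k : ℕ) (x : Fin n → ℤ) (a b : Fin n) : 0 ≤ (if a < b then 1 - |UU (2 * k) (x a - x b)| else 0) := by
  split_ifs
  · have := PL1.abs_le_one (2 * k) (x a - x b); linarith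
  · exact le_rfl

theorem hit_nonneg (k : ℕ) (x : Fin n → ℤ) : 0 ≤ hit k x :=
  sum_nonneg fun a _ => sum_nonneg fun b _ => hit_term k x a b

theorem hit_one (k : ℕ) (x : Fin n → ℤ) (hx : ¬ Function.Injective x) : 1 ≤ hit k x := by
  unfold Function.Injective at hx
  push Not at hx
  obtain ⟨a, b, hab, hne⟩ := hx
  have main : ∀ a b : Fin n, a < b → x a = x b → 1 ≤ hit k x := by
    intro a b hlt hab
    have s1 : (if a < b then 1 - |UU (2 * k) (x a - x b)| else 0) ≤ ∑ b, if a < b then 1 - |UU (2 * k) (x a - x b)| else 0 :=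
      single_le_sum (f := fun b => if a < b then 1 - |UU (2 * k) (x a - x b)| else 0) (fun b _ => hit_term k x a b) (mem_univ b)
    have s2 : (∑ b, if a < b then 1 - |UU (2 * k) (x a - x b)| else 0) ≤ hit k x :=
      single_le_sum (f := fun a => ∑ b, if a < b then 1 - |UU (2 * k) (x a - x b)| else 0)
        (fun a _ => sum_nonneg fun b _ => hit_term k x a b) (mem_univ a)
    rw [if_pos hlt] at s1
    have s3 : 1 - |UU (2 * k) (x a - x b)| = 1 := by
      rw [hab, sub_self, UU_zero, abs_zero, sub_zero]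
    linarith
  rcases lt_or_gt_of_ne hne with h | h
  · exact main a b h hab
  · exact main b a h hab.symm

theorem EP_hit (k : ℕ) (x : Fin n → ℤ) (hpar : ∀ a b, (x a - x b) % 2 = 0) :
    EP (univ.image x) (fun σ => hit k (fun a => x a + σ (x a))) = hit (k + 1) x := by
  unfold hit
  rw [EP_sum]
  apply sum_congr rfl
  intro a _
  rw [EP_sum]
  apply sum_congr rfl
  intro b _
  by_cases hab : a < b
  · simp only [hab, if_true]
    rw [EP_sub, EP_const, EP_UU (mem_image_of_mem x (mem_univ a)) (mem_image_of_mem x (mem_univ b)) (hpar a b)]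
  · simp only [hab, if_false]
    rw [EP_const]

theorem par_step {x : Fin n → ℤ} (hpar : ∀ a b, (x a - x b) % 2 = 0) {σ : ℤ → ℤ} (hσ : ∀ y, σ y = 1 ∨ σ y = -1) (a b : Fin n) :
    (x a + σ (x a) - (x b + σ (x b))) % 2 = 0 := by
  have s1 := hσ (x a)
  have s2 := hσ (x b)
  have s3 := hpar a b
  omega

theorem Cw_far {G : (Fin n → ℤ) → ℝ} (hG : ∀ x, |G x| ≤ 1) {g0 : ℝ} (hg : ∀ x, Function.Injective x → G x = g0) (k : ℕ)
    (x : Fin n → ℤ) (hpar : ∀ a b, (x a - x b) % 2 = 0) : |Cw G k x - g0| ≤ 2 * hit k x := by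
  have hg0 : |g0| ≤ 1 := by
    rw [← hg (fun a => (a : ℤ)) (fun a b h => by
      have : ((a : ℕ) : ℤ) = (b : ℕ) := h
      exact Fin.ext (by exact_mod_cast this))]
    exact hG _
  induction k generalizing x with
  | zero =>
    by_cases hx : Function.Injective x
    · have e : Cw G 0 x = g0 := hg x hx
      rw [e, sub_self, abs_zero]
      have := hit_nonneg 0 x
      linarith
    · have a1 := hit_one 0 x hx
      have a2 := Cw_abs hG 0 x
      have a3 := abs_sub (Cw G 0 x) g0
      linarith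
  | succ k ih =>
    have e1 : Cw G (k + 1) x - g0 = EP (univ.image x) (fun σ => Cw G k (fun a => x a + σ (x a)) - g0) := by
      rw [EP_sub, EP_const, Cw_succ']
    rw [e1]
    refine (EP_abs _).trans ?_
    rw [← EP_hit k x hpar, ← EP_mul]
    apply EP_mono
    intro σ hσ
    exact ih _ (par_step hpar hσ)

theorem In_abs {H : (Fin n → ℤ) → ℝ} (hH : ∀ x, |H x| ≤ 1) (t : ℕ) (x : Fin n → ℤ) : |In H t x| ≤ 1 := by
  induction t generalizing x with
  | zero => exact hH x
  | succ t ih =>
    show |(∑ A ∈ (univ : Finset (Fin n)).powerset, In H t fun a => if a ∈ A then x a + 1 else x a - 1) / 2 ^ n| ≤ 1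
    rw [abs_div, abs_of_pos (show (0 : ℝ) < 2 ^ n by positivity), div_le_one (by positivity)]
    refine (abs_sum_le_sum_abs _ _).trans ?_
    have h1 : ∑ A ∈ (univ : Finset (Fin n)).powerset, |In H t fun a => if a ∈ A then x a + 1 else x a - 1|
        ≤ ∑ A ∈ (univ : Finset (Fin n)).powerset, (1 : ℝ) := sum_le_sum fun A _ => ih _
    refine h1.trans ?_
    rw [sum_const, card_powerset, card_univ, Fintype.card_fin, nsmul_eq_mul, mul_one]
    push_cast
    exact le_rfl

theorem In_inj (H : (Fin n → ℤ) → ℝ) (t : ℕ) (x : Fin n → ℤ) (hx : Function.Injective x) :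
    In H (t + 1) x = EP (univ.image x) (fun σ => In H t (fun a => x a + σ (x a))) := by
  show (∑ A ∈ (univ : Finset (Fin n)).powerset, In H t fun a => if a ∈ A then x a + 1 else x a - 1) / 2 ^ n = _
  unfold EP
  rw [card_image_of_injective _ hx, card_univ, Fintype.card_fin]
  congr 1
  apply sum_bij (fun A _ => A.image x)
  · intro A _
    rw [mem_powerset]
    exact image_subset_image (subset_univ A)
  · intro A _ B _ h
    exact image_injective hx h
  · intro B hB
    rw [mem_powerset] at hB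
    refine ⟨univ.filter fun a => x a ∈ B, mem_powerset.2 (subset_univ _), ?_⟩
    ext y
    simp only [mem_image, mem_filter, mem_univ, true_and]
    constructor
    · rintro ⟨a, ha, rfl⟩; exact ha
    · intro hy
      have := hB hy
      rw [mem_image] at this
      obtain ⟨a, _, rfl⟩ := this
      exact ⟨a, hy, rfl⟩
  · intro A _
    congr 1
    funext a
    unfold sgn
    have e : (x a ∈ A.image x) ↔ a ∈ A := by
      rw [mem_image]
      constructor
      · rintro ⟨b, hb, he⟩; exact hx he ▸ hb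
      · intro h; exact ⟨a, h, rfl⟩
    by_cases h : a ∈ A
    · rw [if_pos h, if_pos (e.2 h)]
    · rw [if_neg h, if_neg (fun h' => h (e.1 h'))]; ring

theorem Cw_In {G : (Fin n → ℤ) → ℝ} (hG : ∀ x, |G x| ≤ 1) (k t : ℕ) (x : Fin n → ℤ)
    (hpar : ∀ a b, (x a - x b) % 2 = 0) : |Cw G (t + k) x - In (Cw G k) t x| ≤ 2 * hit t x := by
  induction t generalizing x with
  | zero =>
    have e : Cw G (0 + k) x = In (Cw G k) 0 x := by rw [zero_add]; rfl
    rw [e, sub_self, abs_zero]
    have := hit_nonneg 0 x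
    linarith
  | succ t ih =>
    by_cases hx : Function.Injective x
    · rw [show t + 1 + k = t + k + 1 by ring, Cw_succ', In_inj _ _ _ hx, ← EP_sub]
      refine (EP_abs _).trans ?_
      rw [← EP_hit t x hpar, ← EP_mul]
      apply EP_mono
      intro σ hσ
      exact ih _ (par_step hpar hσ)
    · have a1 := hit_one (t + 1) x hx
      have a2 := Cw_abs hG (t + 1 + k) x
      have a4 := In_abs (Cw_abs hG k) (t + 1) x
      have a3 := abs_sub (Cw G (t + 1 + k) x) (In (Cw G k) (t + 1) x)
      linarith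

/-! ### the tail -/

theorem tail_aux (lam : ℝ) (hl : 0 ≤ lam) (k : ℕ) (j : ℤ) :
    1 - UU k j ≤ 2 * (Real.exp (-(lam * j)) * Real.cosh lam ^ k) := by
  induction k generalizing j with
  | zero =>
    rw [pow_zero, mul_one]
    unfold UU
    have hp := Real.exp_pos (-(lam * j))
    rcases lt_trichotomy j 0 with h | h | h
    · rw [if_neg (by omega), if_neg (by omega)]
      have hj : (j : ℝ) < 0 := by exact_mod_cast h
      have h1 : 1 ≤ Real.exp (-(lam * j)) := Real.one_le_exp (by nlinarith)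
      linarith
    · subst h
      rw [if_pos rfl]
      simp
    · rw [if_neg (by omega), if_pos h]
      linarith
  | succ k ih =>
    have h1 := ih (j + 1)
    have h2 := ih (j - 1)
    have e : 1 - UU (k + 1) j = ((1 - UU k (j + 1)) + (1 - UU k (j - 1))) / 2 := by
      show 1 - (UU k (j + 1) + UU k (j - 1)) / 2 = _
      ring
    rw [e, pow_succ]
    have e2 : Real.exp (-(lam * ((j + 1 : ℤ) : ℝ))) = Real.exp (-(lam * j)) * Real.exp (-lam) := by
      rw [← Real.exp_add]; congr 1; push_cast; ring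
    have e3 : Real.exp (-(lam * ((j - 1 : ℤ) : ℝ))) = Real.exp (-(lam * j)) * Real.exp lam := by
      rw [← Real.exp_add]; congr 1; push_cast; ring
    rw [e2] at h1
    rw [e3] at h2
    have e4 : Real.cosh lam = (Real.exp lam + Real.exp (-lam)) / 2 := Real.cosh_eq lam
    have e5 : 2 * (Real.exp (-(lam * j)) * (Real.cosh lam ^ k * Real.cosh lam))
        = (2 * (Real.exp (-(lam * j)) * Real.exp (-lam) * Real.cosh lam ^ k)
          + 2 * (Real.exp (-(lam * j)) * Real.exp lam * Real.cosh lam ^ k)) / 2 := by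
      rw [show Real.cosh lam ^ k * Real.cosh lam = Real.cosh lam ^ k * ((Real.exp lam + Real.exp (-lam)) / 2) by rw [← e4]]
      ring
    rw [e5]
    linarith

theorem tail_nonneg (k : ℕ) (j : ℤ) (hj : 0 ≤ j) : 1 - UU k j ≤ 2 * Real.exp (-(j : ℝ) ^ 2 / (2 * k)) := by
  rcases Nat.eq_zero_or_pos k with rfl | hk
  · rw [Nat.cast_zero, mul_zero, div_zero, Real.exp_zero]
    have := UU_nonneg 0 hj
    linarith
  · have hk' : (0 : ℝ) < k := by exact_mod_cast hk
    have hj' : (0 : ℝ) ≤ j := by exact_mod_cast hj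
    refine (tail_aux ((j : ℝ) / k) (by positivity) k j).trans ?_
    apply mul_le_mul_of_nonneg_left _ (by norm_num)
    have h1 : Real.cosh ((j : ℝ) / k) ^ k ≤ Real.exp (((j : ℝ) / k) ^ 2 / 2) ^ k :=
      pow_le_pow_left₀ (Real.cosh_pos _).le (Real.cosh_le_exp_half_sq _) k
    refine (mul_le_mul_of_nonneg_left h1 (Real.exp_pos _).le).trans (le_of_eq ?_)
    rw [← Real.exp_nat_mul, ← Real.exp_add]
    congr 1
    field_simp
    ring

theorem tail (t : ℕ) (D : ℤ) : 1 - |UU (2 * t) D| ≤ 2 * Real.exp (-(D : ℝ) ^ 2 / (4 * t)) := by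
  have e : (2 : ℝ) * ((2 * t : ℕ) : ℝ) = 4 * t := by push_cast; ring
  rcases le_total 0 D with h | h
  · rw [abs_of_nonneg (UU_nonneg _ h)]
    have := tail_nonneg (2 * t) D h
    rwa [e] at this
  · have h1 := UU_nonneg (2 * t) (show 0 ≤ -D by omega)
    have h2 := tail_nonneg (2 * t) (-D) (by omega)
    rw [e] at h2
    have h3 := PL1.odd (2 * t) D
    rw [← abs_neg, ← h3, abs_of_nonneg h1]
    refine h2.trans (le_of_eq ?_)
    push_cast
    rw [neg_sq]

theorem hit_le (t : ℕ) (x : Fin n → ℤ) : hit t x ≤ 2 * Ep t x := by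
  unfold hit Ep
  rw [mul_sum]
  apply sum_le_sum
  intro a _
  rw [mul_sum]
  apply sum_le_sum
  intro b _
  by_cases h : a < b
  · rw [if_pos h, if_neg h.ne]
    have := tail t (x a - x b)
    push_cast at this
    exact this
  · rw [if_neg h]
    split_ifs
    · simp
    · positivity

end KL1

/-- **Properties of the coalescing walks.** -/
theorem cw : S_CW := by
  refine ⟨4, by norm_num, fun n G hG => ⟨?_, ?_, ?_, ?_, ?_, ?_⟩⟩
  · exact fun k x => KL1.Cw_abs hG.1 k x
  · exact fun k x s => KL1.Cw_trans hG.2 k x s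
  · intro k x x' h
    have h1 := KL1.Cw_lip hG.1 k x x' (fun a => by have := h a; omega)
    refine h1.trans ?_
    rw [div_mul_eq_mul_div]
    apply div_le_div_of_nonneg_right _ (by positivity)
    have : 0 ≤ ∑ a, |(x a : ℝ) - x' a| := sum_nonneg fun a _ => abs_nonneg _
    linarith
  · intro k l x
    refine (KL1.Cw_time' hG k l x).trans ?_
    apply div_le_div_of_nonneg_right _ (by positivity)
    have : 0 ≤ (n : ℝ) * (√ l + 1) := by positivity
    linarith
  · intro k t x h
    have h1 := KL1.Cw_In hG.1 k t x h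
    have h2 := KL1.hit_le t x
    linarith
  · intro g0 hg k x h
    have h1 := KL1.Cw_far hG.1 hg k x h
    have h2 := KL1.hit_le k x
    linarith

end Pool.Agent.KS6_24.ST
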