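import Pool.Agent.KS6_24.ST.KL1
import Pool.Agent.KS6_24.ST.Stage0
import Pool.Agent.KS6_24.ST.MXF

/-!
PROJECT KL, job KL4: merging of two walkers.
-/

set_option autoImplicit false

namespace Pool.Agent.KS6_24.ST

open Pool.Agent.H499R2.CO Pool.Agent.Y965.SI Finset Pool.Agent.KS6_24.LN

namespace KL4

/-! ### the products over the blocks -/

variable {n : ℕ}

theorem GM_abs {M : Finset (Fin n) → ℝ} (hM : ∀ s, |M s| ≤ 1) (x : Fin n → ℤ) : |GM M x| ≤ 1 := by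
  unfold GM
  rw [abs_prod]
  exact prod_le_one (fun _ _ => abs_nonneg _) fun _ _ => hM _

theorem GM_trans (M : Finset (Fin n) → ℝ) (x : Fin n → ℤ) (s : ℤ) : GM M (fun a => x a + s) = GM M x := by
  unfold GM
  have e1 : univ.image (fun a => x a + s) = (univ.image x).image (fun x => x + s) := by
    rw [image_image]; rfl
  rw [e1, prod_image (fun x _ y _ h => by simpa using h)]
  apply prod_congr rfl
  intro v _
  congr 1
  ext a
  simp

theorem GM_inj (M : Finset (Fin n) → ℝ) (x : Fin n → ℤ) (hx : Function.Injective x) : GM M x = ∏ a, M {a} := by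
  unfold GM
  rw [prod_image (fun x _ y _ h => hx h)]
  apply prod_congr rfl
  intro a _
  congr 1
  ext b
  simp only [mem_filter, mem_univ, true_and, mem_singleton]
  exact ⟨fun h => hx h, fun h => by rw [h]⟩

theorem image_merge (x : Fin (n + 1) → ℤ) (b : Fin (n + 1)) (a : Fin n) (hx : x b = x (b.succAbove a)) :
    univ.image x = univ.image (fun c => x (b.succAbove c)) := by
  ext v
  simp only [mem_image, mem_univ, true_and]
  constructor
  · rintro ⟨c, rfl⟩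
    rcases Fin.eq_self_or_eq_succAbove b c with h | ⟨j, h⟩
    · exact ⟨a, by rw [h, hx]⟩
    · exact ⟨j, by rw [h]⟩
  · rintro ⟨c, rfl⟩; exact ⟨_, rfl⟩

theorem GM_merge (M : Finset (Fin (n + 1)) → ℝ) (b : Fin (n + 1)) (a : Fin n) (x : Fin (n + 1) → ℤ)
    (hx : x b = x (b.succAbove a)) : GM M x = GM (mgM M b a) (fun c => x (b.succAbove c)) := by
  unfold GM
  rw [image_merge x b a hx]
  apply prod_congr rfl
  intro z _
  unfold mgM
  by_cases h : x (b.succAbove a) = z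
  · rw [if_pos (by simp only [mem_filter, mem_univ, true_and]; exact h)]
    congr 1
    ext c
    simp only [mem_filter, mem_univ, true_and, mem_insert, mem_map, Fin.coe_succAboveEmb]
    constructor
    · intro hc
      rcases Fin.eq_self_or_eq_succAbove b c with h' | ⟨j, h'⟩
      · exact Or.inl h'
      · exact Or.inr ⟨j, by rw [← h']; exact hc, h'.symm⟩
    · rintro (rfl | ⟨j, hj, rfl⟩)
      · rw [hx]; exact h
      · exact hj
  · rw [if_neg (by simp only [mem_filter, mem_univ, true_and]; exact h)]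
    congr 1
    ext c
    simp only [mem_filter, mem_univ, true_and, mem_map, Fin.coe_succAboveEmb]
    constructor
    · intro hc
      rcases Fin.eq_self_or_eq_succAbove b c with h' | ⟨j, h'⟩
      · exact absurd (by rw [← hx, ← h']; exact hc) h
      · exact ⟨j, by rw [← h']; exact hc, h'.symm⟩
    · rintro ⟨j, hj, rfl⟩; exact hj

theorem Cw_merge {G : (Fin (n + 1) → ℤ) → ℝ} {G' : (Fin n → ℤ) → ℝ} {b : Fin (n + 1)} {a : Fin n}
    (hG : ∀ x : Fin (n + 1) → ℤ, x b = x (b.succAbove a) → G x = G' (fun c => x (b.succAbove c))) (k : ℕ)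
    (x : Fin (n + 1) → ℤ) (hx : x b = x (b.succAbove a)) : Cw G k x = Cw G' k (fun c => x (b.succAbove c)) := by
  induction k generalizing x with
  | zero => exact hG x hx
  | succ k ih =>
    rw [KL1.Cw_succ', KL1.Cw_succ', image_merge x b a hx]
    congr 1
    funext σ
    exact ih _ (by show x b + σ (x b) = _; rw [hx])

/-! ### the functions -/

theorem prod_mgF (F : Fin (n + 1) → ℤ → ℝ) (b : Fin (n + 1)) (a : Fin n) (s : Finset (Fin n)) (x : Fin n → ℤ) (y : ℤ)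
    (hy : a ∈ s → x a = y) :
    ∏ c ∈ s, mgF F b a c (x c) = (if a ∈ s then F b y else 1) * ∏ c ∈ s, F (b.succAbove c) (x c) := by
  have e : ∀ c ∈ s, mgF F b a c (x c) = (if c = a then F b y else 1) * F (b.succAbove c) (x c) := by
    intro c hc
    unfold mgF
    by_cases h : c = a
    · subst h
      rw [if_pos rfl, if_pos rfl, hy hc, mul_comm]
    · rw [if_neg h, if_neg h, one_mul]
  rw [prod_congr rfl e, prod_mul_distrib, prod_ite_eq']

theorem mgF_inv {d : ℤ} {F : Fin (n + 1) → ℤ → ℝ} (hF : ∀ a, InvF d (F a)) (b : Fin (n + 1)) (a : Fin n) (c : Fin n) :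
    InvF d (mgF F b a c) := by
  constructor
  · intro x
    unfold mgF
    split_ifs
    · rw [abs_mul]
      exact mul_le_one₀ ((hF _).1 x) (abs_nonneg _) ((hF _).1 x)
    · exact (hF _).1 x
  · intro x
    unfold mgF
    split_ifs
    · rw [(hF _).2, (hF _).2]
    · rw [(hF _).2]

theorem mgM_Mn {F : Fin (n + 1) → ℤ → ℝ} {M : Finset (Fin (n + 1)) → ℝ} (hM : Mn F M) (b : Fin (n + 1)) (a : Fin n) :
    Mn (mgF F b a) (mgM M b a) := by
  constructor
  · intro s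
    unfold mgM
    split_ifs
    · exact hM.1 _
    · exact hM.1 _
  · intro s
    by_cases h : a ∈ s
    · have h1 := hM.2 (insert b (s.map b.succAboveEmb))
      have e : (fun x => ∏ c ∈ s, mgF F b a c x - mgM M b a s)
          = fun x => ∏ c ∈ insert b (s.map b.succAboveEmb), F c x - M (insert b (s.map b.succAboveEmb)) := by
        funext x
        rw [prod_mgF F b a s (fun _ => x) x (fun _ => rfl), if_pos h, prod_insert, prod_map]
        · unfold mgM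
          rw [if_pos h]
          rfl
        · simp only [mem_map, Fin.coe_succAboveEmb]
          rintro ⟨c, _, hc⟩
          exact Fin.succAbove_ne b c hc
      rw [e]
      exact h1
    · have h1 := hM.2 (s.map b.succAboveEmb)
      have e : (fun x => ∏ c ∈ s, mgF F b a c x - mgM M b a s)
          = fun x => ∏ c ∈ s.map b.succAboveEmb, F c x - M (s.map b.succAboveEmb) := by
        funext x
        rw [prod_mgF F b a s (fun _ => x) x (fun _ => rfl), if_neg h, one_mul, prod_map]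
        unfold mgM
        rw [if_neg h]
        rfl
      rw [e]
      exact h1

/-! ### close levels -/

/-- close levels have the same value -/
theorem close (d : ℤ) (hd : d = 1 ∨ d = -1) : ∃ C : ℝ, 0 < C ∧ ∀ f : ℤ → ℝ, InvF d f → ∀ R : ℕ, 1 ≤ R → ∀ V : ℝ, 2 ^ R ≤ V →
    ∀ p q : ℕ, av V (fun y => |f ⌊(3 : ℝ) ^ p * y⌋ - f ⌊(3 : ℝ) ^ q * y⌋|) ≤ C * √ (1 + ((p : ℝ) - q) ^ 2) * rho R := by
  obtain ⟨C, hC, hci⟩ := ci d hd
  have key : ∀ f : ℤ → ℝ, InvF d f → ∀ R : ℕ, 1 ≤ R → ∀ V : ℝ, 2 ^ R ≤ V →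
      ∀ p j : ℕ, av V (fun y => |f ⌊(3 : ℝ) ^ p * y⌋ - f ⌊(3 : ℝ) ^ (p + j) * y⌋|) ≤ C * √ (1 + (j : ℝ) ^ 2) * rho R := by
    intro f hf R hR V hV p j
    have hV0 : 0 < V := lt_of_lt_of_le (by positivity) hV
    have h3 : (0 : ℝ) < 3 ^ p := by positivity
    have h1 := hci f hf R hR (3 ^ p * V) (by
      have : (1 : ℝ) ≤ 3 ^ p := one_le_pow₀ (by norm_num)
      nlinarith) j 0 0 (by norm_num)
    rw [← av_scale hV0 h3 (fun y => |f ⌊y⌋ - f ⌊3 ^ j * y + 0⌋|)] at h1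
    have e : (fun y : ℝ => |f ⌊(3 : ℝ) ^ p * y⌋ - f ⌊(3 : ℝ) ^ (p + j) * y⌋|)
        = fun y => |f ⌊(3 : ℝ) ^ p * y⌋ - f ⌊3 ^ j * (3 ^ p * y) + 0⌋| := by
      funext y
      rw [add_zero, pow_add]
      congr 4
      ring
    rw [e]
    refine h1.trans (le_of_eq ?_)
    rw [Nat.cast_zero, add_zero]
  refine ⟨C, hC, fun f hf R hR V hV p q => ?_⟩
  rcases le_total p q with h | h
  · obtain ⟨j, rfl⟩ := Nat.exists_eq_add_of_le h
    have h1 := key f hf R hR V hV p j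
    have e : ((p : ℝ) - ((p + j : ℕ) : ℝ)) ^ 2 = (j : ℝ) ^ 2 := by push_cast; ring
    rw [e]
    exact h1
  · obtain ⟨j, rfl⟩ := Nat.exists_eq_add_of_le h
    have h1 := key f hf R hR V hV q j
    have e : (((q + j : ℕ) : ℝ) - (q : ℝ)) ^ 2 = (j : ℝ) ^ 2 := by push_cast; ring
    rw [e]
    have e2 : (fun y : ℝ => |f ⌊(3 : ℝ) ^ (q + j) * y⌋ - f ⌊(3 : ℝ) ^ q * y⌋|)
        = fun y => |f ⌊(3 : ℝ) ^ q * y⌋ - f ⌊(3 : ℝ) ^ (q + j) * y⌋| := by
      funext y; rw [abs_sub_comm]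
    rw [e2]
    exact h1

/-- the parameters -/
theorem gap {η : ℝ} (hη0 : 0 < η) : ∃ m0 : ℕ, ∀ m L : ℕ, m0 ≤ m → Nat.log 2 m ≤ L → L ≤ 3 * Nat.log 2 m →
    1 ≤ m ∧ ∀ g : ℝ, 0 ≤ g → g ^ 4 * (L : ℝ) ^ 3 ≤ (m : ℝ) ^ 2 →
      g / √ (m : ℝ) ≤ η ∧ (1 + g ^ 2) * (Real.log (m + 1) / m) ≤ 4 * η := by
  obtain ⟨m0, -, hpar⟩ := params (max (max 2 ⌈1 / η ^ 4⌉₊) ⌈1 / η ^ 2⌉₊)
  refine ⟨m0, fun m L hm hL1 hL2 => ?_⟩
  obtain ⟨p1, p2, -, p4, -⟩ := hpar m L hm hL1 hL2
  have hL2' : 2 ≤ L := (le_max_left _ _).trans ((le_max_left _ _).trans p1)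
  have hLa : 1 / η ^ 4 ≤ L := (Nat.le_ceil _).trans (by
    exact_mod_cast (le_max_right _ _).trans ((le_max_left _ _).trans p1))
  have hLb : 1 / η ^ 2 ≤ L := (Nat.le_ceil _).trans (by
    exact_mod_cast (le_max_right _ _).trans p1)
  have hLr : (2 : ℝ) ≤ L := by exact_mod_cast hL2'
  have hL0 : (0 : ℝ) < L := by linarith
  have hLm : L ^ 2 ≤ m := by
    refine le_trans (Nat.pow_le_pow_right (by omega) (by norm_num)) p2
  have hLmr : (L : ℝ) ^ 2 ≤ m := by exact_mod_cast hLm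
  have hm1 : 1 ≤ m := by nlinarith
  have hmr : (1 : ℝ) ≤ m := by exact_mod_cast hm1
  have hm0' : (0 : ℝ) < m := by linarith
  refine ⟨hm1, fun g hg hgm => ?_⟩
  set a : ℝ := g / √ (m : ℝ) with ha
  have hsm : 0 < √ (m : ℝ) := Real.sqrt_pos.2 hm0'
  have hsm2 : √ (m : ℝ) ^ 2 = m := Real.sq_sqrt hm0'.le
  have ha0 : 0 ≤ a := by positivity
  have ha4 : a ^ 4 * (L : ℝ) ^ 3 ≤ 1 := by
    rw [ha, div_pow, div_mul_eq_mul_div, div_le_one (by positivity)]
    have h4 : √ (m : ℝ) ^ 4 = (m : ℝ) ^ 2 := by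
      calc √ (m : ℝ) ^ 4 = (√ (m : ℝ) ^ 2) ^ 2 := by ring
        _ = (m : ℝ) ^ 2 := by rw [hsm2]
    rw [h4]
    exact hgm
  have haη : a ≤ η := by
    by_contra hcon
    push Not at hcon
    have h1 : η ^ 4 < a ^ 4 := pow_lt_pow_left₀ hcon hη0.le (by norm_num)
    have h2 : 1 ≤ η ^ 4 * L := by
      rw [div_le_iff₀ (by positivity)] at hLa; linarith
    have h3 : (L : ℝ) ≤ (L : ℝ) ^ 3 := by nlinarith
    have h4 : η ^ 4 * L ≤ η ^ 4 * (L : ℝ) ^ 3 := mul_le_mul_of_nonneg_left h3 (by positivity)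
    have h5 : η ^ 4 * (L : ℝ) ^ 3 < a ^ 4 * (L : ℝ) ^ 3 := mul_lt_mul_of_pos_right h1 (by positivity)
    linarith
  have hbη : (L : ℝ) * a ^ 2 ≤ η := by
    by_contra hcon
    push Not at hcon
    have h1 : η ^ 2 < ((L : ℝ) * a ^ 2) ^ 2 := pow_lt_pow_left₀ hcon hη0.le (by norm_num)
    have h2 : 1 ≤ η ^ 2 * L := by
      rw [div_le_iff₀ (by positivity)] at hLb; linarith
    have h3 : η ^ 2 * L < ((L : ℝ) * a ^ 2) ^ 2 * L := mul_lt_mul_of_pos_right h1 hL0
    have h4 : ((L : ℝ) * a ^ 2) ^ 2 * L = a ^ 4 * (L : ℝ) ^ 3 := by ring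
    linarith
  refine ⟨haη, ?_⟩
  have h3 : (1 + g ^ 2) * (Real.log (m + 1) / m) = (1 / m + a ^ 2) * Real.log (m + 1) := by
    rw [ha, div_pow, hsm2]; field_simp
  rw [h3]
  have h4 : (1 / m + a ^ 2) * Real.log (m + 1) ≤ (1 / m + a ^ 2) * (2 * L) :=
    mul_le_mul_of_nonneg_left p4 (by positivity)
  have h5 : (L : ℝ) / m ≤ η := by
    have h6 : (L : ℝ) / m ≤ 1 / L := by
      rw [div_le_div_iff₀ hm0' hL0]; nlinarith
    have h7 : 1 / (L : ℝ) ≤ η := by
      rw [div_le_iff₀ hL0]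
      by_contra hcon
      push Not at hcon
      have h8 : 1 ≤ η ^ 4 * L := by
        rw [div_le_iff₀ (by positivity)] at hLa; linarith
      have h9 : 1 ≤ η ^ 2 * L := by
        rw [div_le_iff₀ (by positivity)] at hLb; linarith
      have h10 : η * (η * L) < η * 1 := mul_lt_mul_of_pos_left hcon hη0
      have h11 : 1 < η := by nlinarith
      nlinarith
    exact h6.trans h7
  have e : (1 / (m : ℝ) + a ^ 2) * (2 * L) = 2 * (L / m) + 2 * (L * a ^ 2) := by ring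
  linarith

/-- the correlations of `n + 1` functions at levels two of which are close -/
theorem cn_merge {d : ℤ} {F : Fin (n + 1) → ℤ → ℝ} (hF : ∀ a, InvF d (F a)) {V : ℝ} (hV : 0 < V) (i : Fin (n + 1) → ℕ)
    (b : Fin (n + 1)) (a : Fin n) :
    |cn F V (fun a => i a) - cn (mgF F b a) V (fun c => i (b.succAbove c))|
      ≤ av V (fun y => |F b ⌊(3 : ℝ) ^ i b * y⌋ - F b ⌊(3 : ℝ) ^ i (b.succAbove a) * y⌋|) := by
  set g : ℝ → ℝ := fun y => ∏ c, F (b.succAbove c) ⌊(3 : ℝ) ^ i (b.succAbove c) * y⌋ with hg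
  have hgb : Bd 1 g := Bd.prod (fun c _ => Bd.flc (hF _).1 (by fun_prop))
  have b1 : ∀ p : ℕ, Bd 1 (fun y => F b ⌊(3 : ℝ) ^ p * y⌋) := fun p => Bd.flc (hF b).1 (by fun_prop)
  have e1 : cn F V (fun a => i a) = av V (fun y => F b ⌊(3 : ℝ) ^ i b * y⌋ * g y) := by
    unfold cn
    congr 1
    funext y
    rw [Fin.prod_univ_succAbove _ b, hg]
    simp only [zpow_natCast]
  have e2 : cn (mgF F b a) V (fun c => i (b.succAbove c)) = av V (fun y => F b ⌊(3 : ℝ) ^ i (b.succAbove a) * y⌋ * g y) := by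
    unfold cn
    congr 1
    funext y
    rw [prod_mgF F b a univ (fun c => ⌊(3 : ℝ) ^ ((i (b.succAbove c) : ℕ) : ℤ) * y⌋)
      ⌊(3 : ℝ) ^ ((i (b.succAbove a) : ℕ) : ℤ) * y⌋ (fun _ => rfl), if_pos (mem_univ a), hg]
    simp only [zpow_natCast]
  rw [e1, e2, ← av_sub V ((b1 _).mul hgb) ((b1 _).mul hgb)]
  refine (abs_av_le hV (((b1 _).mul hgb).sub ((b1 _).mul hgb))).trans ?_
  apply av_mono hV (((b1 _).mul hgb).sub ((b1 _).mul hgb)).abs ((b1 _).sub (b1 _)).abs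
  intro y _ _
  rw [← sub_mul, abs_mul]
  have h1 := hgb.2 y
  have h2 := abs_nonneg (F b ⌊(3 : ℝ) ^ i b * y⌋ - F b ⌊(3 : ℝ) ^ i (b.succAbove a) * y⌋)
  nlinarith

end KL4

/-- **Merging of two walkers.** -/
theorem mg (d : ℤ) (hd : d = 1 ∨ d = -1) : S_MG d := by
  intro n F hF M hM
  have hG : Gok (GM M) := ⟨fun x => KL4.GM_abs hM.1 x, fun x s => KL4.GM_trans M x s⟩
  have hmerge : ∀ (b : Fin (n + 1)) (a : Fin n) (k : ℕ) (x : Fin (n + 1) → ℤ), x b = x (b.succAbove a) →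
      Cw (GM M) k x = Cw (GM (mgM M b a)) k (fun c => x (b.succAbove c)) :=
    fun b a k x hx => KL4.Cw_merge (fun x hx => KL4.GM_merge M b a x hx) k x hx
  refine ⟨hG, fun x hx => KL4.GM_inj M x hx, fun b a => ⟨fun c => KL4.mgF_inv hF b a c, KL4.mgM_Mn hM b a⟩, hmerge, ?_⟩
  intro ε hε
  obtain ⟨C, hC, hcl⟩ := KL4.close d hd
  set η : ℝ := min (ε / 4) (ε ^ 2 / (4 * C ^ 2)) with hη
  have hη0 : 0 < η := by positivity
  have hη1 : η ≤ ε / 4 := min_le_left _ _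
  have hη2 : η ≤ ε ^ 2 / (4 * C ^ 2) := min_le_right _ _
  obtain ⟨m0, hm0⟩ := KL4.gap hη0
  refine ⟨m0, fun m L hm hL1 hL2 V hV i b a hi => ?_⟩
  obtain ⟨hm1, hg⟩ := hm0 m L hm hL1 hL2
  have hV0 : 0 < V := lt_of_lt_of_le (by positivity) hV
  have hmr : (1 : ℝ) ≤ m := by exact_mod_cast hm1
  have hi' : |(i b : ℝ) - i (b.succAbove a)| ^ 4 * (L : ℝ) ^ 3 ≤ (m : ℝ) ^ 2 := by
    have : |(i b : ℝ) - i (b.succAbove a)| ^ 4 = ((i b : ℝ) - i (b.succAbove a)) ^ 4 := by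
      calc |(i b : ℝ) - i (b.succAbove a)| ^ 4 = (|(i b : ℝ) - i (b.succAbove a)| ^ 2) ^ 2 := by ring
        _ = (((i b : ℝ) - i (b.succAbove a)) ^ 2) ^ 2 := by rw [sq_abs]
        _ = _ := by ring
    rw [this]; exact hi
  obtain ⟨g1, g2⟩ := hg _ (abs_nonneg _) hi'
  constructor
  · refine (KL4.cn_merge hF hV0 i b a).trans ((hcl (F b) (hF b) m hm1 V hV _ _).trans ?_)
    unfold rho
    rw [sq_abs] at g2
    rw [mul_assoc, ← Real.sqrt_mul (by positivity)]
    have h1 : √ ((1 + ((i b : ℝ) - i (b.succAbove a)) ^ 2) * (Real.log (m + 1) / m)) ≤ ε / C := by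
      rw [show ε / C = √ ((ε / C) ^ 2) from (Real.sqrt_sq (by positivity)).symm]
      apply Real.sqrt_le_sqrt
      refine g2.trans ?_
      have : (ε / C) ^ 2 = 4 * (ε ^ 2 / (4 * C ^ 2)) := by
        rw [div_pow]; field_simp
      rw [this]
      linarith
    calc C * √ ((1 + ((i b : ℝ) - i (b.succAbove a)) ^ 2) * (Real.log (m + 1) / m)) ≤ C * (ε / C) :=
          mul_le_mul_of_nonneg_left h1 hC.le
      _ = ε := by field_simp
  · intro k hk
    have h1 := KL1.Cw_move hG.1 k (fun a => 2 * (i a : ℤ)) b (2 * (i (b.succAbove a) : ℤ)) (by omega)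
    have h2 := hmerge b a k (Function.update (fun a => 2 * (i a : ℤ)) b (2 * (i (b.succAbove a) : ℤ))) (by
      rw [Function.update_self, Function.update_of_ne (Fin.succAbove_ne b a)])
    have e : (fun c => Function.update (fun a => 2 * (i a : ℤ)) b (2 * (i (b.succAbove a) : ℤ)) (b.succAbove c))
        = fun c => 2 * (i (b.succAbove c) : ℤ) := by
      funext c
      rw [Function.update_of_ne (Fin.succAbove_ne b c)]
    rw [e] at h2
    rw [← h2]
    refine h1.trans ?_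
    have h3 := KL1.UU_abs_le (2 * k) (2 * (i (b.succAbove a) : ℤ) - 2 * (i b : ℤ))
    have e2 : |((2 * (i (b.succAbove a) : ℤ) - 2 * (i b : ℤ) : ℤ) : ℝ)| = 2 * |(i b : ℝ) - i (b.succAbove a)| := by
      push_cast
      rw [← mul_sub, abs_mul, abs_sub_comm, abs_two]
    rw [e2] at h3
    have h4 : √ (m : ℝ) ≤ √ (((2 * k : ℕ) : ℝ) + 1) := by
      apply Real.sqrt_le_sqrt
      push_cast
      have : (0 : ℝ) ≤ k := Nat.cast_nonneg k
      linarith
    have hsm : 0 < √ (m : ℝ) := Real.sqrt_pos.2 (by linarith)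
    have h5 : 2 * |(i b : ℝ) - i (b.succAbove a)| / √ (((2 * k : ℕ) : ℝ) + 1)
        ≤ 2 * |(i b : ℝ) - i (b.succAbove a)| / √ (m : ℝ) :=
      div_le_div_of_nonneg_left (by positivity) hsm h4
    have h6 : 2 * |(i b : ℝ) - i (b.succAbove a)| / √ (m : ℝ) = 2 * (|(i b : ℝ) - i (b.succAbove a)| / √ (m : ℝ)) := by ring
    have h7 : |UU (2 * k) (2 * (i (b.succAbove a) : ℤ) - 2 * (i b : ℤ))| ≤ 2 * η := by linarith
    show 2 * |UU (2 * k) (2 * (i (b.succAbove a) : ℤ) - 2 * (i b : ℤ))| ≤ ε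
    linarith

end Pool.Agent.KS6_24.ST
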