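import Mathlib
import Pool.Agent.KS6_24.ST.KL1
import Pool.Agent.KS6_24.ST.KL4

/-!
KL6: WICK FORMULA. For `M s = 1` (`#s` even), `μ` (`#s` odd) the mean of `GM M` over the coalescing walks is the Pfaffian
of the two-point functions `1 - (1 - μ ^ 2) UU (2 k) (x b - x a)`.
-/

set_option autoImplicit false

namespace Pool.Agent.KS6_24.ST

open Finset

/-! ### Pfaffians, by expansion along the first row -/

/-- the alternating sum of `c y * P (l without y)` over the elements `y` of `l` -/
def dl {ι : Type*} (c : ι → ℝ) : List ι → (List ι → ℝ) → ℝ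
  | [], _ => 0
  | y :: l, P => c y * P l - dl c l fun r => P (y :: r)

/-- THE PFAFFIAN of the upper triangular entries `a x y`, `x` before `y` in the list, of length `2 m` -/
def pf {ι : Type*} (a : ι → ι → ℝ) : ℕ → List ι → ℝ
  | 0, [] => 1
  | 0, _ :: _ => 0
  | _ + 1, [] => 0
  | m + 1, x :: l => dl (a x) l (pf a m)

section alg

variable {ι : Type*}

theorem dl_nil (c : ι → ℝ) (P : List ι → ℝ) : dl c [] P = 0 := rfl

theorem dl_cons (c : ι → ℝ) (y : ι) (l : List ι) (P : List ι → ℝ) :
    dl c (y :: l) P = c y * P l - dl c l fun r => P (y :: r) := rfl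

theorem dl_congr {c c' : ι → ℝ} {l : List ι} (hc : ∀ y ∈ l, c y = c' y) {P Q : List ι → ℝ} (hP : ∀ r, P r = Q r) :
    dl c l P = dl c' l Q := by
  induction l generalizing P Q with
  | nil => rfl
  | cons y l ih =>
    rw [dl_cons, dl_cons, hc y List.mem_cons_self, hP, ih (fun z hz => hc z (List.mem_cons_of_mem _ hz)) fun r => hP _]

theorem dl_sub (c : ι → ℝ) (l : List ι) (P Q : List ι → ℝ) :
    dl c l (fun r => P r - Q r) = dl c l P - dl c l Q := by
  induction l generalizing P Q with
  | nil => simp [dl_nil]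
  | cons y l ih =>
    rw [dl_cons, dl_cons, dl_cons, ih (fun r => P (y :: r)) (fun r => Q (y :: r))]; ring

theorem dl_mul (c : ι → ℝ) (l : List ι) (β : ℝ) (P : List ι → ℝ) :
    dl c l (fun r => β * P r) = β * dl c l P := by
  induction l generalizing P with
  | nil => simp [dl_nil]
  | cons y l ih => rw [dl_cons, dl_cons, ih (fun r => P (y :: r))]; ring

theorem dl_zero (c : ι → ℝ) (l : List ι) : dl c l (fun _ => 0) = 0 := by
  have := dl_mul c l 0 (fun _ => 0)
  simpa using this

/-- the contraction with the same covector twice -/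
theorem dl_dl (c : ι → ℝ) (l : List ι) (P : List ι → ℝ) : dl c l (fun r => dl c r P) = 0 := by
  induction l generalizing P with
  | nil => rfl
  | cons y l ih =>
    rw [dl_cons]
    have h1 : (fun r => dl c (y :: r) P) = fun r => c y * P r - dl c r fun s => P (y :: s) := by
      funext r; rw [dl_cons]
    rw [h1, dl_sub c l (fun r => c y * P r) (fun r => dl c r fun s => P (y :: s)), dl_mul,
      ih (fun s => P (y :: s))]
    ring

/-- removing a pair of equal neighbours -/
theorem dl_tie (c : ι → ℝ) {β : ℝ} (x : ι) (l₁ l₂ : List ι) {P Q : List ι → ℝ}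
    (h : ∀ u v : List ι, P (u ++ x :: x :: v) = β * Q (u ++ v)) :
    dl c (l₁ ++ x :: x :: l₂) P = β * dl c (l₁ ++ l₂) Q := by
  induction l₁ generalizing P Q with
  | nil =>
    rw [List.nil_append, List.nil_append, dl_cons, dl_cons, ← dl_mul]
    have h1 : (fun r => P (x :: x :: r)) = fun r => β * Q r := by
      funext r
      exact h [] r
    rw [h1]; ring
  | cons z l₁ ih =>
    rw [List.cons_append, List.cons_append, dl_cons, dl_cons, h l₁ l₂,
      ih (P := fun r => P (z :: r)) (Q := fun r => Q (z :: r)) fun u v => h (z :: u) v]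
    ring

theorem pf_succ_cons (a : ι → ι → ℝ) (m : ℕ) (x : ι) (l : List ι) : pf a (m + 1) (x :: l) = dl (a x) l (pf a m) := rfl

theorem pf_tie (a : ι → ι → ℝ) (x : ι) : ∀ (m : ℕ) (l₁ l₂ : List ι),
    pf a (m + 1) (l₁ ++ x :: x :: l₂) = a x x * pf a m (l₁ ++ l₂) := by
  intro m
  induction m with
  | zero =>
    intro l₁ l₂
    have hz : ∀ u v : List ι, pf a 0 (u ++ x :: x :: v) = 0 * (fun _ => (0 : ℝ)) (u ++ v) := by
      intro u v
      cases u <;> simp [pf]
    cases l₁ with
    | nil =>
      rw [List.nil_append, List.nil_append, pf_succ_cons, dl_cons]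
      have h1 : (fun r : List ι => pf a 0 (x :: r)) = fun _ => 0 := rfl
      rw [h1, dl_zero, sub_zero]
    | cons y l₁ =>
      rw [List.cons_append, List.cons_append, pf_succ_cons, dl_tie (β := 0) (a y) x l₁ l₂ (Q := fun _ => 0) hz]
      simp [pf]
  | succ m ih =>
    intro l₁ l₂
    cases l₁ with
    | nil =>
      rw [List.nil_append, List.nil_append, pf_succ_cons, dl_cons]
      have h1 : (fun r : List ι => pf a (m + 1) (x :: r)) = fun r => dl (a x) r (pf a m) := rfl
      rw [h1, dl_dl, sub_zero]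
    | cons y l₁ =>
      rw [List.cons_append, List.cons_append, pf_succ_cons, pf_succ_cons, dl_tie (a y) x l₁ l₂ ih]

/-- constant entries -/
theorem dl_const {c : ι → ℝ} {l : List ι} {γ κ : ℝ} (hc : ∀ y ∈ l, c y = γ) {P : List ι → ℝ}
    (hP : ∀ r : List ι, r.Sublist l → r.length + 1 = l.length → P r = κ) :
    dl c l P = if l.length % 2 = 1 then γ * κ else 0 := by
  induction l generalizing P with
  | nil => simp [dl_nil]
  | cons y l ih =>
    rw [dl_cons, hc y List.mem_cons_self, hP l (List.sublist_cons_self y l) (by simp),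
      ih (fun z hz => hc z (List.mem_cons_of_mem _ hz)) (P := fun r => P (y :: r))
        (fun r hr hl => hP (y :: r) (List.Sublist.cons_cons y hr) (by simpa using hl))]
    rw [List.length_cons]
    by_cases h : l.length % 2 = 1
    · rw [if_pos h, if_neg (by omega)]; ring
    · rw [if_neg h, if_pos (by omega)]; ring

theorem pf_const {a : ι → ι → ℝ} {γ : ℝ} : ∀ (m : ℕ) (l : List ι), l.Pairwise (fun x y => a x y = γ) →
    l.length = 2 * m → pf a m l = γ ^ m := by
  intro m
  induction m with
  | zero =>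
    intro l _ hl
    rw [mul_zero, List.length_eq_zero_iff] at hl
    subst hl
    simp [pf]
  | succ m ih =>
    intro l hp hl
    cases l with
    | nil => simp at hl
    | cons x l =>
      rw [List.pairwise_cons] at hp
      rw [List.length_cons] at hl
      rw [pf_succ_cons, dl_const (γ := γ) (κ := γ ^ m) hp.1 (fun r hr hr2 => ih r (hp.2.sublist hr) (by omega)),
        if_pos (by omega)]
      ring

theorem dl_map {κ : Type*} (f : κ → ι) (c : ι → ℝ) (l : List κ) (P : List ι → ℝ) :
    dl c (l.map f) P = dl (fun y => c (f y)) l (fun r => P (r.map f)) := by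
  induction l generalizing P with
  | nil => rfl
  | cons y l ih => rw [List.map_cons, dl_cons, dl_cons, ih]; rfl

theorem pf_map {κ : Type*} (f : κ → ι) (a : ι → ι → ℝ) : ∀ (m : ℕ) (l : List κ),
    pf a m (l.map f) = pf (fun i j => a (f i) (f j)) m l := by
  intro m
  induction m with
  | zero => intro l; cases l <;> simp [pf]
  | succ m ih =>
    intro l
    cases l with
    | nil => simp [pf]
    | cons x l =>
      rw [List.map_cons, pf_succ_cons, pf_succ_cons, dl_map]
      exact dl_congr (fun _ _ => rfl) ih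

end alg

/-! ### the mean over one step -/

/-- a function of two positions times a function of the others -/
theorem EP_indep {P Q : Finset ℤ} {x y : ℤ} (hx : x ∉ Q) (hy : y ∉ Q) (hxy : x ≠ y) (hQ : insert x (insert y Q) ⊆ P)
    (f : ℤ → ℤ → ℝ) {H : (ℤ → ℤ) → ℝ} (hH : ∀ σ σ' : ℤ → ℤ, (∀ z ∈ Q, σ z = σ' z) → H σ = H σ') :
    EP P (fun σ => f (σ x) (σ y) * H σ) = (f 1 1 + f 1 (-1) + f (-1) 1 + f (-1) (-1)) / 4 * EP P H := by
  have hQP : Q ⊆ P := fun z hz => hQ (mem_insert_of_mem (mem_insert_of_mem hz))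
  rw [EP_eq hQP hH, EP_eq hQ (fun σ σ' h => by
    rw [h x (mem_insert_self _ _), h y (mem_insert_of_mem (mem_insert_self _ _)),
      hH σ σ' fun z hz => h z (mem_insert_of_mem (mem_insert_of_mem hz))])]
  have hx' : x ∉ insert y Q := by
    rw [mem_insert, not_or]; exact ⟨hxy, hx⟩
  have hup : ∀ (σ : ℤ → ℤ) (u v : ℤ), H (Function.update (Function.update σ y v) x u) = H σ := by
    intro σ u v
    apply hH
    intro z hz
    rw [Function.update_of_ne (show z ≠ x from fun h => hx (h ▸ hz)),
      Function.update_of_ne (show z ≠ y from fun h => hy (h ▸ hz))]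
  rw [EP_insert hx', EP_insert hy, EP_insert hy]
  simp only [Function.update_self, Function.update_of_ne hxy.symm, hup, EP_mul]
  ring

/-- the step of the entries -/
noncomputable def stp (φ : ℤ → ℝ) (y : ℤ) : ℝ := (φ (y + 2) + 2 * φ y + φ (y - 2)) / 4

/-- the mean of the Pfaffian over a step of independent walkers -/
theorem EP_pf {P : Finset ℤ} (φ : ℤ → ℝ) : ∀ (m : ℕ) (l : List ℤ), l.Nodup → (∀ z ∈ l, z ∈ P) →
    EP P (fun σ => pf (fun x y => φ (y - x)) m (l.map fun z => z + σ z)) = pf (fun x y => stp φ (y - x)) m l := by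
  intro m
  induction m with
  | zero =>
    intro l _ _
    cases l with
    | nil => simp only [List.map_nil, pf]; exact EP_const _ _
    | cons x l => simp only [List.map_cons, pf]; exact EP_const _ _
  | succ m ihm =>
    -- inner claim
    have inner : ∀ (x : ℤ) (l pre : List ℤ), (x :: (pre ++ l)).Nodup → (∀ z ∈ x :: (pre ++ l), z ∈ P) →
        EP P (fun σ => dl (fun y => φ (y - (x + σ x))) (l.map fun z => z + σ z)
          (fun r => pf (fun x y => φ (y - x)) m ((pre.map fun z => z + σ z) ++ r)))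
          = dl (fun y => stp φ (y - x)) l (fun r => pf (fun x y => stp φ (y - x)) m (pre ++ r)) := by
      intro x l
      induction l with
      | nil =>
        intro pre _ _
        simp only [List.map_nil, dl_nil]
        exact EP_const _ _
      | cons y l ih =>
        intro pre hnd hP
        simp only [List.map_cons, dl_cons]
        rw [EP_sub]
        have hnd2 : (x :: ((pre ++ [y]) ++ l)).Nodup := by simpa using hnd
        have hP2 : ∀ z ∈ x :: ((pre ++ [y]) ++ l), z ∈ P := by simpa using hP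
        have h2 := ih (pre ++ [y]) hnd2 hP2
        simp only [List.map_append, List.map_cons, List.map_nil, List.append_assoc, List.cons_append, List.nil_append] at h2
        rw [h2]
        congr 1
        -- first term
        have hxl : x ∉ pre ++ y :: l := (List.nodup_cons.1 hnd).1
        have hnd3 : (pre ++ y :: l).Nodup := (List.nodup_cons.1 hnd).2
        have hnd4 : (y :: (pre ++ l)).Nodup := List.nodup_middle.1 hnd3
        have hyl : y ∉ pre ++ l := (List.nodup_cons.1 hnd4).1
        have hxy : x ≠ y := by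
          intro h
          apply hxl
          rw [h]; simp
        have hxQ : x ∉ (pre ++ l).toFinset := by
          rw [List.mem_toFinset]
          intro h
          apply hxl
          simp only [List.mem_append, List.mem_cons] at h ⊢
          tauto
        have hyQ : y ∉ (pre ++ l).toFinset := by rw [List.mem_toFinset]; exact hyl
        have hsub : insert x (insert y (pre ++ l).toFinset) ⊆ P := by
          intro z hz
          apply hP
          simp only [mem_insert, List.mem_toFinset, List.mem_append, List.mem_cons] at hz ⊢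
          tauto
        have h3 := EP_indep hxQ hyQ hxy hsub (fun u v => φ (y + v - (x + u)))
          (H := fun σ => pf (fun x y => φ (y - x)) m ((pre ++ l).map fun z => z + σ z)) (by
            intro σ σ' h
            rw [List.map_congr_left (l := pre ++ l) (f := fun z => z + σ z) (g := fun z => z + σ' z) (fun z hz => by
              rw [h z (List.mem_toFinset.2 hz)])])
        rw [ihm (pre ++ l) (List.nodup_cons.1 hnd4).2 (fun z hz => hP z (by
          simp only [List.mem_append, List.mem_cons] at hz ⊢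
          tauto))] at h3
        simp only [List.map_append] at h3
        rw [h3]
        unfold stp
        rw [show y + 1 - (x + 1) = y - x by ring, show y + -1 - (x + 1) = y - x - 2 by ring,
          show y + 1 - (x + -1) = y - x + 2 by ring, show y + -1 - (x + -1) = y - x by ring]
        ring
    intro l hnd hP
    cases l with
    | nil => simp only [List.map_nil, pf]; exact EP_const _ _
    | cons x l =>
      simp only [List.map_cons, pf_succ_cons]
      have := inner x l [] (by simpa using hnd) (by simpa using hP)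
      simpa using this

/-- the same for an odd number of walkers: the Pfaffian with a first row of entries `μ` -/
theorem EP_pfo {P : Finset ℤ} (φ : ℤ → ℝ) (μ : ℝ) (m : ℕ) : ∀ (l pre : List ℤ), (pre ++ l).Nodup →
    (∀ z ∈ pre ++ l, z ∈ P) →
    EP P (fun σ => dl (fun _ => μ) (l.map fun z => z + σ z)
      (fun r => pf (fun x y => φ (y - x)) m ((pre.map fun z => z + σ z) ++ r)))
      = dl (fun _ => μ) l (fun r => pf (fun x y => stp φ (y - x)) m (pre ++ r)) := by
  intro l
  induction l with
  | nil =>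
    intro pre _ _
    simp only [List.map_nil, dl_nil]
    exact EP_const _ _
  | cons y l ih =>
    intro pre hnd hP
    simp only [List.map_cons, dl_cons]
    rw [EP_sub]
    have h2 := ih (pre ++ [y]) (by simpa using hnd) (by simpa using hP)
    simp only [List.map_append, List.map_cons, List.map_nil, List.append_assoc, List.cons_append, List.nil_append] at h2
    rw [h2]
    congr 1
    rw [EP_mul]
    have hnd4 : (y :: (pre ++ l)).Nodup := List.nodup_middle.1 hnd
    have h3 := EP_pf (P := P) φ m (pre ++ l) (List.nodup_cons.1 hnd4).2 (fun z hz => hP z (by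
          simp only [List.mem_append, List.mem_cons] at hz ⊢
          tauto))
    simp only [List.map_append] at h3
    rw [h3]

/-! ### coalescing walks of a list of walkers -/

/-- the mean of `G` after `k` steps -/
noncomputable def CwL (G : List ℤ → ℝ) : ℕ → List ℤ → ℝ
  | 0, l => G l
  | k + 1, l => EP l.toFinset fun σ => CwL G k (l.map fun z => z + σ z)

theorem Cw_ofFn {n : ℕ} {G : (Fin n → ℤ) → ℝ} {G' : List ℤ → ℝ} (h : ∀ x, G x = G' (List.ofFn x)) : ∀ (k : ℕ) (x : Fin n → ℤ),
    Cw G k x = CwL G' k (List.ofFn x) := by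
  intro k
  induction k with
  | zero => exact h
  | succ k ih =>
    intro x
    rw [KL1.Cw_succ']
    have e1 : univ.image x = (List.ofFn x).toFinset := by
      ext z
      simp [List.mem_ofFn]
    rw [e1]
    show _ = EP (List.ofFn x).toFinset fun σ => CwL G' k ((List.ofFn x).map fun z => z + σ z)
    congr 1
    funext σ
    rw [ih, List.map_ofFn]
    rfl

theorem CwL_tie {G : List ℤ → ℝ} {α : ℝ} (hG : ∀ (l₁ l₂ : List ℤ) (z : ℤ), G (l₁ ++ z :: z :: l₂) = α * G (l₁ ++ l₂)) :
    ∀ (k : ℕ) (l₁ l₂ : List ℤ) (z : ℤ), CwL G k (l₁ ++ z :: z :: l₂) = α * CwL G k (l₁ ++ l₂) := by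
  intro k
  induction k with
  | zero => exact hG
  | succ k ih =>
    intro l₁ l₂ z
    show EP (l₁ ++ z :: z :: l₂).toFinset (fun σ => CwL G k ((l₁ ++ z :: z :: l₂).map fun z => z + σ z))
      = α * EP (l₁ ++ l₂).toFinset (fun σ => CwL G k ((l₁ ++ l₂).map fun z => z + σ z))
    rw [← EP_mul]
    have hsub : (l₁ ++ l₂).toFinset ⊆ (l₁ ++ z :: z :: l₂).toFinset := by
      intro w hw
      simp only [List.mem_toFinset, List.mem_append, List.mem_cons] at hw ⊢
      tauto
    rw [← EP_eq hsub (f := fun σ => α * CwL G k ((l₁ ++ l₂).map fun z => z + σ z)) (by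
      intro σ σ' h
      rw [List.map_congr_left (l := l₁ ++ l₂) (f := fun z => z + σ z) (g := fun z => z + σ' z) (fun w hw => by
        rw [h w (List.mem_toFinset.2 hw)])])]
    congr 1
    funext σ
    simp only [List.map_append, List.map_cons]
    exact ih _ _ _

theorem sorted_tie : ∀ l : List ℤ, l.Pairwise (· ≤ ·) → l.Pairwise (· < ·) ∨ ∃ l₁ z l₂, l = l₁ ++ z :: z :: l₂ := by
  intro l
  induction l with
  | nil => intro _; left; exact List.Pairwise.nil
  | cons x l ih =>
    intro h
    rw [List.pairwise_cons] at h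
    rcases ih h.2 with h1 | ⟨l₁, z, l₂, h1⟩
    · cases l with
      | nil => left; simp
      | cons y l =>
        rcases eq_or_lt_of_le (h.1 y List.mem_cons_self) with h2 | h2
        · right
          exact ⟨[], x, l, by rw [h2]; rfl⟩
        · left
          rw [List.pairwise_cons]
          refine ⟨fun z hz => ?_, h1⟩
          rcases List.mem_cons.1 hz with h3 | h3
          · rw [h3]; exact h2
          · exact h2.trans ((List.pairwise_cons.1 h1).1 z h3)
    · right
      exact ⟨x :: l₁, z, l₂, by rw [h1]; rfl⟩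

/-- even differences -/
def Evd (l : List ℤ) : Prop := ∀ x ∈ l, ∀ y ∈ l, (x - y) % 2 = 0

theorem step_sorted {l : List ℤ} (h : l.Pairwise (· < ·)) (he : Evd l) {σ : ℤ → ℤ} (hσ : ∀ x, σ x = 1 ∨ σ x = -1) :
    (l.map fun z => z + σ z).Pairwise (· ≤ ·) ∧ Evd (l.map fun z => z + σ z) := by
  constructor
  · rw [List.pairwise_map]
    refine (List.Pairwise.and_mem.1 h).imp ?_
    rintro x y ⟨hx, hy, hxy⟩
    have h1 := he y hy x hx
    rcases hσ x with h2 | h2 <;> rcases hσ y with h3 | h3 <;> rw [h2, h3] <;> omega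
  · intro x hx y hy
    rw [List.mem_map] at hx hy
    obtain ⟨x', hx', rfl⟩ := hx
    obtain ⟨y', hy', rfl⟩ := hy
    have h1 := he x' hx' y' hy'
    rcases hσ x' with h2 | h2 <;> rcases hσ y' with h3 | h3 <;> rw [h2, h3] <;> omega

theorem remove_sorted {l₁ l₂ : List ℤ} {z : ℤ} (h : (l₁ ++ z :: z :: l₂).Pairwise (· ≤ ·)) (he : Evd (l₁ ++ z :: z :: l₂)) :
    (l₁ ++ l₂).Pairwise (· ≤ ·) ∧ Evd (l₁ ++ l₂) := by
  have hs : (l₁ ++ l₂).Sublist (l₁ ++ z :: z :: l₂) :=
    List.Sublist.append_left ((List.sublist_cons_self z l₂).trans (List.sublist_cons_self z _)) l₁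
  exact ⟨h.sublist hs, fun x hx y hy => he x (hs.subset hx) y (hs.subset hy)⟩

theorem stp_UU (α γ : ℝ) (k : ℕ) : stp (fun y => α + (γ - α) * UU (2 * k) y) = fun y => α + (γ - α) * UU (2 * (k + 1)) y := by
  funext y
  unfold stp
  rw [show 2 * (k + 1) = 2 * k + 2 by ring, KL1.UU_two]
  ring

/-- WICK FORMULA, even number of walkers -/
theorem wick_even {G : List ℤ → ℝ} {α γ : ℝ} (hG : ∀ (l₁ l₂ : List ℤ) (z : ℤ), G (l₁ ++ z :: z :: l₂) = α * G (l₁ ++ l₂))
    (hG2 : ∀ (m : ℕ) (l : List ℤ), l.Pairwise (· < ·) → l.length = 2 * m → G l = γ ^ m) : ∀ (k m : ℕ) (l : List ℤ),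
    l.Pairwise (· ≤ ·) → Evd l → l.length = 2 * m →
    CwL G k l = pf (fun x y => α + (γ - α) * UU (2 * k) (y - x)) m l := by
  intro k
  have hdiag : ∀ (k : ℕ) (z : ℤ), α + (γ - α) * UU (2 * k) (z - z) = α := by
    intro k z; rw [sub_self, KL1.UU_zero]; ring
  induction k with
  | zero =>
    intro m
    induction m with
    | zero =>
      intro l _ _ hl
      rw [mul_zero, List.length_eq_zero_iff] at hl
      subst hl
      show G [] = _
      rw [hG2 0 [] List.Pairwise.nil rfl]
      simp [pf]
    | succ m ihm =>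
      intro l hs he hl
      rcases sorted_tie l hs with h1 | ⟨l₁, z, l₂, rfl⟩
      · show G l = _
        rw [hG2 (m + 1) l h1 hl, pf_const (γ := γ) (m + 1) l _ hl]
        refine h1.imp ?_
        intro x y hxy
        have h2 : UU 0 (y - x) = 1 := by
          show (if y - x = 0 then (0 : ℝ) else if 0 < y - x then 1 else -1) = 1
          rw [if_neg (by omega), if_pos (by omega)]
        rw [mul_zero, h2]; ring
      · obtain ⟨a1, a2⟩ := remove_sorted hs he
        rw [CwL_tie hG, pf_tie, hdiag, ihm (l₁ ++ l₂) a1 a2 (by simp at hl ⊢; omega)]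
  | succ k ihk =>
    intro m
    induction m with
    | zero =>
      intro l _ _ hl
      rw [mul_zero, List.length_eq_zero_iff] at hl
      subst hl
      show EP ([] : List ℤ).toFinset (fun σ => CwL G k ([].map fun z => z + σ z)) = _
      simp only [List.map_nil]
      rw [EP_const, ihk 0 [] List.Pairwise.nil (fun x hx => by simp at hx) rfl]
      simp [pf]
    | succ m ihm =>
      intro l hs he hl
      rcases sorted_tie l hs with h1 | ⟨l₁, z, l₂, rfl⟩
      · show EP l.toFinset (fun σ => CwL G k (l.map fun z => z + σ z)) = _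
        have e1 : EP l.toFinset (fun σ => CwL G k (l.map fun z => z + σ z))
            = EP l.toFinset (fun σ => pf (fun x y => α + (γ - α) * UU (2 * k) (y - x)) (m + 1) (l.map fun z => z + σ z)) := by
          apply EP_congr
          intro σ hσ
          obtain ⟨a1, a2⟩ := step_sorted h1 he hσ
          exact ihk (m + 1) _ a1 a2 (by simpa using hl)
        rw [e1, EP_pf (fun y => α + (γ - α) * UU (2 * k) y) (m + 1) l (h1.imp fun h => ne_of_lt h)
          (fun z hz => List.mem_toFinset.2 hz), stp_UU]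
      · obtain ⟨a1, a2⟩ := remove_sorted hs he
        rw [CwL_tie hG, pf_tie, hdiag, ihm (l₁ ++ l₂) a1 a2 (by simp at hl ⊢; omega)]

/-- WICK FORMULA, odd number of walkers -/
theorem wick_odd {G : List ℤ → ℝ} {α γ μ : ℝ} (hG : ∀ (l₁ l₂ : List ℤ) (z : ℤ), G (l₁ ++ z :: z :: l₂) = α * G (l₁ ++ l₂))
    (hG2 : ∀ (m : ℕ) (l : List ℤ), l.Pairwise (· < ·) → l.length = 2 * m + 1 → G l = μ * γ ^ m) : ∀ (k m : ℕ) (l : List ℤ),
    l.Pairwise (· ≤ ·) → Evd l → l.length = 2 * m + 1 →
    CwL G k l = dl (fun _ => μ) l (pf (fun x y => α + (γ - α) * UU (2 * k) (y - x)) m) := by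
  intro k
  have hdiag : ∀ (k : ℕ) (z : ℤ), α + (γ - α) * UU (2 * k) (z - z) = α := by
    intro k z; rw [sub_self, KL1.UU_zero]; ring
  have htie : ∀ (k m : ℕ) (l₁ l₂ : List ℤ) (z : ℤ),
      dl (fun _ => μ) (l₁ ++ z :: z :: l₂) (pf (fun x y => α + (γ - α) * UU (2 * k) (y - x)) (m + 1))
        = α * dl (fun _ => μ) (l₁ ++ l₂) (pf (fun x y => α + (γ - α) * UU (2 * k) (y - x)) m) := by
    intro k m l₁ l₂ z
    apply dl_tie
    intro u v
    rw [pf_tie, hdiag]
  have hlen1 : ∀ (l : List ℤ), l.length = 2 * 0 + 1 → ∃ z, l = [z] := by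
    intro l hl
    rw [mul_zero, zero_add, List.length_eq_one_iff] at hl
    exact hl
  have hstrict : ∀ (m : ℕ) (l : List ℤ), l.Pairwise (· < ·) → l.length = 2 * m + 1 →
      G l = dl (fun _ => μ) l (pf (fun x y => α + (γ - α) * UU (2 * 0) (y - x)) m) := by
    intro m l h1 hl
    rw [hG2 m l h1 hl, dl_const (γ := μ) (κ := γ ^ m) (fun _ _ => rfl) (fun r hr hr2 => ?_), if_pos (by omega)]
    apply pf_const (γ := γ) m r _ (by omega)
    refine (h1.sublist hr).imp ?_
    intro x y hxy
    have h2 : UU 0 (y - x) = 1 := by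
      show (if y - x = 0 then (0 : ℝ) else if 0 < y - x then 1 else -1) = 1
      rw [if_neg (by omega), if_pos (by omega)]
    rw [mul_zero, h2]; ring
  induction k with
  | zero =>
    intro m
    induction m with
    | zero =>
      intro l _ _ hl
      obtain ⟨z, rfl⟩ := hlen1 l hl
      exact hstrict 0 [z] (List.pairwise_singleton _ _) rfl
    | succ m ihm =>
      intro l hs he hl
      rcases sorted_tie l hs with h1 | ⟨l₁, z, l₂, rfl⟩
      · exact hstrict (m + 1) l h1 hl
      · obtain ⟨a1, a2⟩ := remove_sorted hs he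
        rw [CwL_tie hG, htie, ihm (l₁ ++ l₂) a1 a2 (by simp at hl ⊢; omega)]
  | succ k ihk =>
    have hstep : ∀ (m : ℕ) (l : List ℤ), l.Pairwise (· < ·) → Evd l → l.length = 2 * m + 1 →
        CwL G (k + 1) l = dl (fun _ => μ) l (pf (fun x y => α + (γ - α) * UU (2 * (k + 1)) (y - x)) m) := by
      intro m l h1 he hl
      show EP l.toFinset (fun σ => CwL G k (l.map fun z => z + σ z)) = _
      have e1 : EP l.toFinset (fun σ => CwL G k (l.map fun z => z + σ z))
          = EP l.toFinset (fun σ => dl (fun _ => μ) (l.map fun z => z + σ z)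
            (pf (fun x y => α + (γ - α) * UU (2 * k) (y - x)) m)) := by
        apply EP_congr
        intro σ hσ
        obtain ⟨a1, a2⟩ := step_sorted h1 he hσ
        exact ihk m _ a1 a2 (by simpa using hl)
      have e2 := EP_pfo (P := l.toFinset) (fun y => α + (γ - α) * UU (2 * k) y) μ m l [] (by
        rw [List.nil_append]; exact h1.imp fun h => ne_of_lt h) (fun z hz => List.mem_toFinset.2 (by simpa using hz))
      simp only [List.map_nil, List.nil_append] at e2
      rw [e1, e2, stp_UU]
    intro m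
    induction m with
    | zero =>
      intro l _ he hl
      obtain ⟨z, rfl⟩ := hlen1 l hl
      exact hstep 0 [z] (List.pairwise_singleton _ _) he rfl
    | succ m ihm =>
      intro l hs he hl
      rcases sorted_tie l hs with h1 | ⟨l₁, z, l₂, rfl⟩
      · exact hstep (m + 1) l h1 he hl
      · obtain ⟨a1, a2⟩ := remove_sorted hs he
        rw [CwL_tie hG, htie, ihm (l₁ ++ l₂) a1 a2 (by simp at hl ⊢; omega)]

/-! ### the formula for `GM` -/

/-- the product of `μ` over the positions with an odd number of walkers -/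
noncomputable def Gpr (μ : ℝ) (l : List ℤ) : ℝ := ∏ z ∈ l.toFinset, (if l.count z % 2 = 0 then 1 else μ)

theorem Gpr_eq (μ : ℝ) {l : List ℤ} {T : Finset ℤ} (hT : l.toFinset ⊆ T) :
    Gpr μ l = ∏ z ∈ T, (if l.count z % 2 = 0 then 1 else μ) := by
  unfold Gpr
  apply prod_subset hT
  intro z _ hz
  rw [List.mem_toFinset] at hz
  rw [List.count_eq_zero_of_not_mem hz]
  simp

theorem Gpr_tie (μ : ℝ) (l₁ l₂ : List ℤ) (z : ℤ) : Gpr μ (l₁ ++ z :: z :: l₂) = 1 * Gpr μ (l₁ ++ l₂) := by
  rw [one_mul, Gpr_eq μ (T := (l₁ ++ z :: z :: l₂).toFinset) (l := l₁ ++ l₂) (by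
    intro w hw
    simp only [List.mem_toFinset, List.mem_append, List.mem_cons] at hw ⊢
    tauto)]
  unfold Gpr
  apply prod_congr rfl
  intro w _
  have : (l₁ ++ z :: z :: l₂).count w % 2 = (l₁ ++ l₂).count w % 2 := by
    simp only [List.count_append, List.count_cons]
    split_ifs <;> omega
  rw [this]

theorem Gpr_strict (μ : ℝ) {l : List ℤ} (h : l.Pairwise (· < ·)) : Gpr μ l = μ ^ l.length := by
  have hn : l.Nodup := h.imp fun h => ne_of_lt h
  unfold Gpr
  have : ∀ z ∈ l.toFinset, (if l.count z % 2 = 0 then (1 : ℝ) else μ) = μ := by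
    intro z hz
    rw [List.mem_toFinset] at hz
    rw [List.count_eq_one_of_mem hn hz]
    simp
  rw [prod_congr rfl this, Finset.prod_const, List.toFinset_card_of_nodup hn]

/-- the means of the products of the function `f = ± 1` of mean `μ` -/
noncomputable def Mpm {n : ℕ} (μ : ℝ) (s : Finset (Fin n)) : ℝ := if #s % 2 = 0 then 1 else μ

theorem count_ofFn : ∀ {n : ℕ} (x : Fin n → ℤ) (z : ℤ), (List.ofFn x).count z = #(univ.filter fun a => x a = z) := by
  intro n
  induction n with
  | zero => intro x z; simp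
  | succ n ih =>
    intro x z
    rw [List.ofFn_succ, List.count_cons, ih, Fin.card_filter_univ_succ (fun a => x a = z)]
    by_cases h : x 0 = z
    · simp [h]
    · simp [h]

theorem GM_Gpr {n : ℕ} (μ : ℝ) (x : Fin n → ℤ) : GM (Mpm μ) x = Gpr μ (List.ofFn x) := by
  have e1 : univ.image x = (List.ofFn x).toFinset := by
    ext z
    simp [List.mem_ofFn]
  unfold GM Gpr Mpm
  rw [e1]
  apply prod_congr rfl
  intro z _
  rw [count_ofFn]

/-- the Pfaffian of `K` (even length), bordered by a first row of entries `μ` (odd length) -/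
noncomputable def wkp {ι : Type*} (μ : ℝ) (K : ι → ι → ℝ) (l : List ι) : ℝ :=
  if l.length % 2 = 0 then pf K (l.length / 2) l else dl (fun _ => μ) l (pf K (l.length / 2))

theorem wk_map {ι κ : Type*} (f : κ → ι) (μ : ℝ) (K : ι → ι → ℝ) (l : List κ) :
    wkp μ K (l.map f) = wkp μ (fun i j => K (f i) (f j)) l := by
  unfold wkp
  rw [List.length_map]
  split_ifs
  · exact pf_map f K _ l
  · rw [dl_map]
    exact dl_congr (fun _ _ => rfl) fun r => pf_map f K _ r

/-- WICK FORMULA for a list of walkers -/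
theorem wick_list (μ : ℝ) (k : ℕ) {l : List ℤ} (hs : l.Pairwise (· ≤ ·)) (he : Evd l) :
    CwL (Gpr μ) k l = wkp μ (fun x y => 1 - (1 - μ ^ 2) * UU (2 * k) (y - x)) l := by
  have e : (fun x y : ℤ => 1 - (1 - μ ^ 2) * UU (2 * k) (y - x)) = fun x y => 1 + (μ ^ 2 - 1) * UU (2 * k) (y - x) := by
    funext x y; ring
  rw [e]
  unfold wkp
  split_ifs with h
  · refine wick_even (α := 1) (γ := μ ^ 2) (Gpr_tie μ) (fun m l h1 hl => ?_) k (l.length / 2) l hs he (by omega)
    rw [Gpr_strict μ h1, hl, pow_mul]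
  · refine wick_odd (α := 1) (γ := μ ^ 2) (μ := μ) (Gpr_tie μ) (fun m l h1 hl => ?_) k (l.length / 2) l hs he (by omega)
    rw [Gpr_strict μ h1, hl, pow_succ, pow_mul]; ring

/-- WICK FORMULA -/
theorem wick {n : ℕ} (μ : ℝ) (k : ℕ) {x : Fin n → ℤ} (hx : Monotone x) (he : ∀ a b, (x a - x b) % 2 = 0) :
    Cw (GM (Mpm μ)) k x = wkp μ (fun a b => 1 - (1 - μ ^ 2) * UU (2 * k) (x b - x a)) (List.finRange n) := by
  rw [Cw_ofFn (fun x => GM_Gpr μ x) k x, wick_list μ k]
  · rw [List.ofFn_eq_map, wk_map]
  · rw [List.pairwise_ofFn]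
    intro i j hij
    exact hx hij.le
  · intro y hy z hz
    rw [List.mem_ofFn] at hy hz
    obtain ⟨a, rfl⟩ := hy
    obtain ⟨b, rfl⟩ := hz
    exact he a b

/-! ### the entries may be changed a little -/

theorem dl_abs {ι : Type*} {c : ι → ℝ} {l : List ι} {κ γ : ℝ} (hγ : 0 ≤ γ) (_hκ : 0 ≤ κ) (hc : ∀ y ∈ l, |c y| ≤ γ)
    {P : List ι → ℝ} (hP : ∀ r : List ι, r.Sublist l → r.length + 1 = l.length → |P r| ≤ κ) :
    |dl c l P| ≤ l.length * (γ * κ) := by
  induction l generalizing P with
  | nil => simp [dl_nil]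
  | cons y l ih =>
    rw [dl_cons]
    have h1 : |c y * P l| ≤ γ * κ := by
      rw [abs_mul]
      exact mul_le_mul (hc y List.mem_cons_self) (hP l (List.sublist_cons_self y l) (by simp)) (abs_nonneg _) hγ
    have h2 := ih (fun z hz => hc z (List.mem_cons_of_mem _ hz)) (P := fun r => P (y :: r))
        (fun r hr hl => hP (y :: r) (List.Sublist.cons_cons y hr) (by simpa using hl))
    refine (abs_sub _ _).trans ?_
    rw [List.length_cons]
    push_cast
    linarith

theorem pf_abs {ι : Type*} {a : ι → ι → ℝ} {N : ℕ} : ∀ (m : ℕ) (l : List ι), l.Pairwise (fun x y => |a x y| ≤ 1) →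
    l.length ≤ N → |pf a m l| ≤ (N : ℝ) ^ m := by
  intro m
  induction m with
  | zero => intro l _ _; cases l <;> simp [pf]
  | succ m ih =>
    intro l hp hl
    cases l with
    | nil => simp only [pf, abs_zero]; positivity
    | cons x l =>
      rw [List.pairwise_cons] at hp
      rw [List.length_cons] at hl
      rw [pf_succ_cons]
      refine (dl_abs (γ := 1) (κ := (N : ℝ) ^ m) (by norm_num) (by positivity) hp.1
        (fun r hr hr2 => ih r (hp.2.sublist hr) (by omega))).trans ?_
      rw [one_mul, pow_succ, mul_comm]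
      exact mul_le_mul_of_nonneg_left (by exact_mod_cast (show l.length ≤ N by omega)) (by positivity)

theorem dl_diff {ι : Type*} (c c' : ι → ℝ) (l : List ι) (P Q : List ι → ℝ) :
    dl c l P - dl c' l Q = dl (fun y => c y - c' y) l P + dl c' l (fun r => P r - Q r) := by
  induction l generalizing P Q with
  | nil => simp [dl_nil]
  | cons y l ih =>
    rw [dl_cons, dl_cons, dl_cons, dl_cons]
    have := ih (fun r => P (y :: r)) (fun r => Q (y :: r))
    linarith

theorem pf_lip {ι : Type*} {a b : ι → ι → ℝ} {N : ℕ} {ε : ℝ} (hε : 0 ≤ ε) : ∀ (m : ℕ) (l : List ι),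
    l.Pairwise (fun x y => |a x y| ≤ 1 ∧ |b x y| ≤ 1 ∧ |a x y - b x y| ≤ ε) → l.length ≤ N →
    |pf a m l - pf b m l| ≤ m * (N : ℝ) ^ m * ε := by
  intro m
  induction m with
  | zero => intro l _ _; cases l <;> simp [pf]
  | succ m ih =>
    intro l hp hl
    cases l with
    | nil => simp only [pf, sub_zero, abs_zero]; positivity
    | cons x l =>
      rw [List.pairwise_cons] at hp
      rw [List.length_cons] at hl
      rw [pf_succ_cons, pf_succ_cons, dl_diff]
      have hN : (l.length : ℝ) ≤ N := by exact_mod_cast (show l.length ≤ N by omega)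
      have h1 := dl_abs (c := fun y => a x y - b x y) (l := l) (γ := ε) (κ := (N : ℝ) ^ m) hε (by positivity)
        (fun y hy => (hp.1 y hy).2.2) (P := pf a m)
        (fun r hr hr2 => pf_abs m r ((hp.2.imp fun h => h.1).sublist hr) (by omega))
      have h2 := dl_abs (c := b x) (l := l) (γ := 1) (κ := m * (N : ℝ) ^ m * ε) (by norm_num) (by positivity)
        (fun y hy => (hp.1 y hy).2.1) (P := fun r => pf a m r - pf b m r)
        (fun r hr hr2 => ih r (hp.2.sublist hr) (by omega))
      refine (abs_add_le _ _).trans ((add_le_add h1 h2).trans ?_)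
      have h3 : (l.length : ℝ) * (ε * (N : ℝ) ^ m) ≤ N * (ε * (N : ℝ) ^ m) :=
        mul_le_mul_of_nonneg_right hN (by positivity)
      have h4 : (l.length : ℝ) * (1 * (m * (N : ℝ) ^ m * ε)) ≤ N * (1 * (m * (N : ℝ) ^ m * ε)) :=
        mul_le_mul_of_nonneg_right hN (by positivity)
      push_cast
      calc (l.length : ℝ) * (ε * (N : ℝ) ^ m) + l.length * (1 * (m * (N : ℝ) ^ m * ε))
          ≤ N * (ε * (N : ℝ) ^ m) + N * (1 * (m * (N : ℝ) ^ m * ε)) := add_le_add h3 h4
        _ = (m + 1) * (N : ℝ) ^ (m + 1) * ε := by ring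

/-- continuity of the Pfaffian in the entries -/
theorem wk_lip {ι : Type*} {a b : ι → ι → ℝ} {μ ε : ℝ} (hμ : |μ| ≤ 1) (hε : 0 ≤ ε) {l : List ι}
    (hl : l.Pairwise (fun x y => |a x y| ≤ 1 ∧ |b x y| ≤ 1 ∧ |a x y - b x y| ≤ ε)) :
    |wkp μ a l - wkp μ b l| ≤ (l.length : ℝ) ^ (l.length + 2) * ε := by
  set N := l.length with hN
  rcases Nat.eq_zero_or_pos N with h0 | h0
  · have : l = [] := by rw [← List.length_eq_zero_iff, ← hN, h0]
    subst this
    simp [wkp, pf]
  have hNr : (1 : ℝ) ≤ N := by exact_mod_cast h0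
  have hm : ((N / 2 : ℕ) : ℝ) ≤ N := by exact_mod_cast Nat.div_le_self N 2
  have hpow : (N : ℝ) ^ (N / 2) ≤ (N : ℝ) ^ N := pow_le_pow_right₀ hNr (Nat.div_le_self N 2)
  have key : ((N / 2 : ℕ) : ℝ) * (N : ℝ) ^ (N / 2) * ε ≤ (N : ℝ) ^ (N + 1) * ε := by
    apply mul_le_mul_of_nonneg_right _ hε
    calc ((N / 2 : ℕ) : ℝ) * (N : ℝ) ^ (N / 2) ≤ N * (N : ℝ) ^ N := mul_le_mul hm hpow (by positivity) (by positivity)
      _ = (N : ℝ) ^ (N + 1) := by ring
  unfold wkp
  rw [← hN]
  split_ifs
  · refine (pf_lip hε (N / 2) l hl hN.symm.le).trans (key.trans ?_)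
    apply mul_le_mul_of_nonneg_right _ hε
    exact pow_le_pow_right₀ hNr (by omega)
  · rw [← dl_sub]
    refine (dl_abs (γ := 1) (κ := (N : ℝ) ^ (N + 1) * ε) (by norm_num) (by positivity) (fun _ _ => hμ)
      (fun r hr hr2 => (pf_lip hε (N / 2) r (hl.sublist hr) (by omega)).trans key)).trans (le_of_eq ?_)
    rw [← hN]; ring

end Pool.Agent.KS6_24.ST
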