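import Mathlib
import Pool.Agent.KS6_24.ST.PLDefs
import Pool.Agent.KS6_24.ST.Stage0

/-! PL2: the stage acts on `UU`. -/

set_option autoImplicit false

namespace Pool.Agent.KS6_24.ST

open Pool.Agent.H499R2.CO Pool.Agent.Y965.SI Finset Pool.Agent.KS6_24.LN

/-! ### two independent numbers of odd steps -/

theorem pm_od_succ' {d : ℤ} (hd : d % 2 = 1) (t : ℕ) (G : ℕ → ℝ) :
    pm (t + 1) (fun x => G (od d (t + 1) x)) = pm t (fun x => (G (od d t x) + G (od d t x + 1)) / 2) := by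
  rw [pm_succ]
  apply pm_congr
  intro x
  rcases od_succ_pair hd t x with ⟨a, b⟩ | ⟨a, b⟩ <;> rw [a, b]
  ring

/-- `2 t` steps of the simple random walk -/
theorem pm_UU {d : ℤ} (hd : d % 2 = 1) : ∀ (t K : ℕ) (j : ℤ),
    pm t (fun x => pm t (fun y => UU K (j + 2 * ((od d t y : ℤ) - od d t x)))) = UU (K + 2 * t) j := by
  intro t
  induction t with
  | zero => intro K j; simp [pm, od]
  | succ t ih =>
    intro K j
    rw [show K + 2 * (t + 1) = (K + 2) + 2 * t by ring, ← ih (K + 2) j]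
    have h1 := pm_od_succ' hd t (fun n => pm (t + 1) (fun y => UU K (j + 2 * ((od d (t + 1) y : ℤ) - n))))
    rw [h1]
    apply pm_congr
    intro x
    have h2 := fun n : ℕ => pm_od_succ' hd t (fun k => UU K (j + 2 * ((k : ℤ) - n)))
    rw [h2, h2, ← pm_add, show ∀ a : ℝ, a / 2 = (1 / 2) * a by intro a; ring, ← pm_mul]
    apply pm_congr
    intro y
    have e : ∀ k, UU (K + 2) k = (UU K (k + 2) + 2 * UU K k + UU K (k - 2)) / 4 := by
      intro k
      rw [show K + 2 = (K + 1) + 1 by ring]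
      simp only [UU]
      rw [show k + 1 + 1 = k + 2 by ring, show k + 1 - 1 = k by ring, show k - 1 + 1 = k by ring,
        show k - 1 - 1 = k - 2 by ring]
      ring
    rw [e]
    push_cast
    rw [show j + 2 * ((od d t y : ℤ) + 1 - od d t x) = j + 2 * ((od d t y : ℤ) - od d t x) + 2 by ring,
      show j + 2 * ((od d t y : ℤ) - (od d t x + 1)) = j + 2 * ((od d t y : ℤ) - od d t x) - 2 by ring,
      show j + 2 * ((od d t y : ℤ) + 1 - (od d t x + 1)) = j + 2 * ((od d t y : ℤ) - od d t x) by ring]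
    ring

/-! ### the weights -/

open Classical in
/-- the residues whose number of odd steps is not typical -/
noncomputable def bad (d : ℤ) (t B : ℕ) (x : ℤ) : ℝ := if (B : ℝ) < |(od d t x : ℝ) - t / 2| then 1 else 0

theorem bad_nonneg (d : ℤ) (t B : ℕ) (x : ℤ) : 0 ≤ bad d t B x := by unfold bad; split_ifs <;> norm_num

theorem sum_psi_ge {d : ℤ} {t g B : ℕ} (hg : 1 ≤ g) (x : ℤ) : 1 - bad d t B x ≤ ∑ c ∈ Cs t g B, psi d t g c x := by
  unfold bad
  split_ifs with h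
  · rw [sub_self]
    exact sum_nonneg fun c _ => psi_nonneg c x
  · have h1 := W_sum_one (g := g) (N := t + 3 * g) (a := od d t x) (by have := od_le d t x; omega) hg
    rw [sub_zero, ← h1]
    apply le_of_eq
    symm
    unfold psi
    apply sum_subset Cs_sub
    intro c hc hc2
    by_contra h0
    obtain ⟨w1, w2⟩ := W_supp _ h0
    apply hc2
    unfold Cs
    rw [mem_filter]
    refine ⟨hc, ?_, ?_⟩
    · rw [not_lt, abs_le] at h
      have h3 : (od d t x : ℝ) ≤ c := by exact_mod_cast (show od d t x ≤ c by omega)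
      have h4 : (t : ℝ) ≤ 2 * c + 2 * B := by linarith [h.1]
      exact_mod_cast h4
    · rw [not_lt, abs_le] at h
      have h3 : (c : ℝ) ≤ od d t x + 3 * g := by exact_mod_cast (show c ≤ od d t x + 3 * g by push_cast at w2; omega)
      have h4 : 2 * (c : ℝ) ≤ t + 2 * B + 6 * g := by linarith [h.2]
      exact_mod_cast h4

theorem pm_bad {d : ℤ} (hd : d % 2 = 1) (t : ℕ) {B : ℕ} (hB : 1 ≤ B) : pm t (bad d t B) ≤ t / (4 * (B : ℝ) ^ 2) := by
  have := cheb hd t (B := (B : ℝ)) (by exact_mod_cast hB)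
  unfold bad
  convert this

/-- comparison with the exact law, for given residues -/
theorem wk_point {d : ℤ} {t g B : ℕ} (hg : 1 ≤ g) {F : ℤ → ℝ} (hF : ∀ n, |F n| ≤ 1) {δ : ℝ}
    (hL : ∀ n k : ℤ, |k| ≤ 3 * g → |F (n + 2 * k) - F n| ≤ δ) (x y : ℤ) :
    |∑ c ∈ Cs t g B, ∑ c' ∈ Cs t g B, psi d t g c x * psi d t g c' y * F (2 * ((c' : ℤ) - c))
      - F (2 * ((od d t y : ℤ) - od d t x))| ≤ δ + bad d t B x + bad d t B y := by
  set a := od d t x with ha
  set b := od d t y with hb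
  have hδ : 0 ≤ δ := (abs_nonneg _).trans (hL 0 0 (by simp))
  have e1 : ∑ c ∈ Cs t g B, ∑ c' ∈ Cs t g B, psi d t g c x * psi d t g c' y * F (2 * ((c' : ℤ) - c))
      - F (2 * ((b : ℤ) - a)) = ∑ c ∈ Cs t g B, ∑ c' ∈ Cs t g B, psi d t g c x * psi d t g c' y *
        (F (2 * ((c' : ℤ) - c)) - F (2 * ((b : ℤ) - a)))
      - F (2 * ((b : ℤ) - a)) * (1 - (∑ c ∈ Cs t g B, psi d t g c x) * (∑ c' ∈ Cs t g B, psi d t g c' y)) := by
    generalize F (2 * ((b : ℤ) - a)) = Z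
    rw [sum_mul_sum]
    have h1 : ∑ c ∈ Cs t g B, ∑ c' ∈ Cs t g B, psi d t g c x * psi d t g c' y * (F (2 * ((c' : ℤ) - c)) - Z)
        = ∑ c ∈ Cs t g B, ∑ c' ∈ Cs t g B, psi d t g c x * psi d t g c' y * F (2 * ((c' : ℤ) - c))
          - Z * ∑ c ∈ Cs t g B, ∑ c' ∈ Cs t g B, psi d t g c x * psi d t g c' y := by
      rw [mul_sum, ← sum_sub_distrib]
      apply sum_congr rfl; intro c _
      rw [mul_sum, ← sum_sub_distrib]
      apply sum_congr rfl; intro c' _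
      ring
    rw [h1]; ring
  rw [e1]
  have hx1 := sum_psi_le (d := d) (t := t) (B := B) hg x
  have hy1 := sum_psi_le (d := d) (t := t) (B := B) hg y
  have hx0 := sum_psi_ge (d := d) (t := t) (B := B) hg x
  have hy0 := sum_psi_ge (d := d) (t := t) (B := B) hg y
  have hx2 : 0 ≤ ∑ c ∈ Cs t g B, psi d t g c x := sum_nonneg fun c _ => psi_nonneg c x
  have hy2 : 0 ≤ ∑ c ∈ Cs t g B, psi d t g c y := sum_nonneg fun c _ => psi_nonneg c y
  have bx := bad_nonneg d t B x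
  have b_y := bad_nonneg d t B y
  have h1 : |∑ c ∈ Cs t g B, ∑ c' ∈ Cs t g B, psi d t g c x * psi d t g c' y *
        (F (2 * ((c' : ℤ) - c)) - F (2 * ((b : ℤ) - a)))| ≤ δ := by
    have h2 : |∑ c ∈ Cs t g B, ∑ c' ∈ Cs t g B, psi d t g c x * psi d t g c' y *
        (F (2 * ((c' : ℤ) - c)) - F (2 * ((b : ℤ) - a)))|
        ≤ ∑ c ∈ Cs t g B, ∑ c' ∈ Cs t g B, psi d t g c x * psi d t g c' y * δ := by
      refine (abs_sum_le_sum_abs _ _).trans (sum_le_sum fun c _ => ?_)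
      refine (abs_sum_le_sum_abs _ _).trans (sum_le_sum fun c' _ => ?_)
      rw [abs_mul, abs_of_nonneg (mul_nonneg (psi_nonneg c x) (psi_nonneg c' y))]
      by_cases h0 : psi d t g c x = 0
      · rw [h0]; simp
      by_cases h0' : psi d t g c' y = 0
      · rw [h0']; simp
      apply mul_le_mul_of_nonneg_left _ (mul_nonneg (psi_nonneg c x) (psi_nonneg c' y))
      obtain ⟨w1, w2⟩ := W_supp _ h0
      obtain ⟨w1', w2'⟩ := W_supp _ h0'
      have := hL (2 * ((b : ℤ) - a)) (((c' : ℤ) - b) - (c - a)) (by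
        rw [abs_le]; push_cast at w2 w2'; constructor <;> omega)
      rw [show 2 * ((b : ℤ) - a) + 2 * (((c' : ℤ) - b) - (c - a)) = 2 * ((c' : ℤ) - c) by ring] at this
      exact this
    refine h2.trans ?_
    have e2 : ∑ c ∈ Cs t g B, ∑ c' ∈ Cs t g B, psi d t g c x * psi d t g c' y * δ
        = (∑ c ∈ Cs t g B, psi d t g c x) * (∑ c' ∈ Cs t g B, psi d t g c' y) * δ := by
      rw [sum_mul_sum, sum_mul]
      apply sum_congr rfl; intro c _
      rw [sum_mul]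
    rw [e2]
    have : (∑ c ∈ Cs t g B, psi d t g c x) * (∑ c' ∈ Cs t g B, psi d t g c' y) ≤ 1 := by
      calc _ ≤ (1 : ℝ) * 1 := mul_le_mul hx1 hy1 hy2 (by norm_num)
        _ = 1 := by norm_num
    nlinarith
  have h3 : |F (2 * ((b : ℤ) - a)) * (1 - (∑ c ∈ Cs t g B, psi d t g c x) * (∑ c' ∈ Cs t g B, psi d t g c' y))|
      ≤ bad d t B x + bad d t B y := by
    rw [abs_mul]
    have h4 : (∑ c ∈ Cs t g B, psi d t g c x) * (∑ c' ∈ Cs t g B, psi d t g c' y) ≤ 1 := by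
      calc _ ≤ (1 : ℝ) * 1 := mul_le_mul hx1 hy1 hy2 (by norm_num)
        _ = 1 := by norm_num
    have h5 : |1 - (∑ c ∈ Cs t g B, psi d t g c x) * (∑ c' ∈ Cs t g B, psi d t g c' y)| ≤ bad d t B x + bad d t B y := by
      rw [abs_of_nonneg (by linarith)]
      set X := ∑ c ∈ Cs t g B, psi d t g c x
      set Y := ∑ c ∈ Cs t g B, psi d t g c y
      nlinarith [mul_nonneg (sub_nonneg.2 hx1) (sub_nonneg.2 hy1)]
    calc |F (2 * ((b : ℤ) - a))| * |1 - (∑ c ∈ Cs t g B, psi d t g c x) * (∑ c' ∈ Cs t g B, psi d t g c' y)|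
        ≤ 1 * (bad d t B x + bad d t B y) := mul_le_mul (hF _) h5 (abs_nonneg _) (by norm_num)
      _ = _ := one_mul _
  refine (abs_sub _ _).trans ?_
  linarith

/-- products of weights as double means -/
theorem pc_pc {d : ℤ} {t g B : ℕ} (G : ℕ → ℕ → ℝ) :
    ∑ c ∈ Cs t g B, ∑ c' ∈ Cs t g B, pc d t g c * pc d t g c' * G c c'
      = pm t (fun x => pm t (fun y => ∑ c ∈ Cs t g B, ∑ c' ∈ Cs t g B, psi d t g c x * psi d t g c' y * G c c')) := by
  have h : ∀ x, pm t (fun y => ∑ c ∈ Cs t g B, ∑ c' ∈ Cs t g B, psi d t g c x * psi d t g c' y * G c c')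
      = ∑ c ∈ Cs t g B, ∑ c' ∈ Cs t g B, (pc d t g c' * G c c') * psi d t g c x := by
    intro x
    rw [pm_sum]
    apply sum_congr rfl; intro c _
    rw [pm_sum]
    apply sum_congr rfl; intro c' _
    unfold pc
    have : (fun y => psi d t g c x * psi d t g c' y * G c c') = fun y => (psi d t g c x * G c c') * psi d t g c' y := by
      funext y; ring
    rw [this, pm_mul]; ring
  rw [pm_congr h, pm_sum]
  apply sum_congr rfl; intro c _
  rw [pm_sum]
  apply sum_congr rfl; intro c' _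
  rw [pm_mul]
  unfold pc; ring

/-- the exact law of the two numbers of odd steps -/
theorem wk_exact {d : ℤ} (hd : d % 2 = 1) {t g B K : ℕ} (hg : 1 ≤ g) (hB : 1 ≤ B) (hU : ∀ k j, |UU k j| ≤ 1) {δ : ℝ}
    (hL : ∀ n k : ℤ, |k| ≤ 3 * g → |UU K (n + 2 * k) - UU K n| ≤ δ) (j : ℤ) :
    |∑ c ∈ Cs t g B, ∑ c' ∈ Cs t g B, pc d t g c * pc d t g c' * UU K (j + 2 * ((c' : ℤ) - c)) - UU (K + 2 * t) j|
      ≤ δ + t / (2 * (B : ℝ) ^ 2) := by
  rw [pc_pc (fun c c' => UU K (j + 2 * ((c' : ℤ) - c))), ← pm_UU hd t K j, ← pm_sub]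
  have h1 : ∀ x, |pm t (fun y => ∑ c ∈ Cs t g B, ∑ c' ∈ Cs t g B, psi d t g c x * psi d t g c' y *
      UU K (j + 2 * ((c' : ℤ) - c))) - pm t (fun y => UU K (j + 2 * ((od d t y : ℤ) - od d t x)))|
      ≤ (δ + bad d t B x) + pm t (bad d t B) := by
    intro x
    rw [← pm_sub]
    refine (abs_pm_le _ _).trans ?_
    rw [← pm_const t (δ + bad d t B x), ← pm_add]
    apply pm_mono
    intro y
    exact wk_point (F := fun n => UU K (j + n)) hg (fun n => hU K _) (δ := δ)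
      (fun n k hk => by have := hL (j + n) k hk; rw [add_assoc] at this; exact this) x y
  have h2 := (abs_pm_le t (fun x => pm t (fun y => ∑ c ∈ Cs t g B, ∑ c' ∈ Cs t g B, psi d t g c x * psi d t g c' y *
      UU K (j + 2 * ((c' : ℤ) - c))) - pm t (fun y => UU K (j + 2 * ((od d t y : ℤ) - od d t x))))).trans
      (pm_mono h1)
  refine h2.trans ?_
  rw [pm_add, pm_add, pm_const, pm_const]
  have h3 := pm_bad hd t hB
  have h4 : (t : ℝ) / (2 * (B : ℝ) ^ 2) = t / (4 * (B : ℝ) ^ 2) + t / (4 * (B : ℝ) ^ 2) := by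
    have : (B : ℝ) ≠ 0 := by positivity
    field_simp; ring
  have e : pm t (fun x => bad d t B x) = pm t (bad d t B) := rfl
  rw [h4, e]
  linarith

/-- the total mass -/
theorem mass {d : ℤ} (hd : d % 2 = 1) {t g B : ℕ} (hg : 1 ≤ g) (hB : 1 ≤ B) :
    1 - t / (2 * (B : ℝ) ^ 2) ≤ ∑ c ∈ Cs t g B, ∑ c' ∈ Cs t g B, pc d t g c * pc d t g c' := by
  have h1 : 1 - t / (4 * (B : ℝ) ^ 2) ≤ ∑ c ∈ Cs t g B, pc d t g c := by
    unfold pc
    rw [← pm_sum]
    have h2 := pm_mono (t := t) (F := fun x => 1 - bad d t B x) (G := fun x => ∑ c ∈ Cs t g B, psi d t g c x)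
      fun x => sum_psi_ge hg x
    rw [pm_sub, pm_const] at h2
    have h3 := pm_bad hd t hB
    have e : pm t (fun x => bad d t B x) = pm t (bad d t B) := rfl
    rw [e] at h2
    linarith
  have h5 : ∑ c ∈ Cs t g B, ∑ c' ∈ Cs t g B, pc d t g c * pc d t g c'
      = (∑ c ∈ Cs t g B, pc d t g c) * (∑ c ∈ Cs t g B, pc d t g c) := by rw [sum_mul_sum]
  have h4 : (t : ℝ) / (2 * (B : ℝ) ^ 2) = t / (4 * (B : ℝ) ^ 2) + t / (4 * (B : ℝ) ^ 2) := by
    have : (B : ℝ) ≠ 0 := by positivity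
    field_simp; ring
  rw [h5, h4]
  have h6 := sum_pc_le (d := d) (t := t) (B := B) hg
  nlinarith [mul_nonneg (sub_nonneg.2 h6) (sub_nonneg.2 h6)]

/-! ### heights -/

/-- the number of steps drops by about `2 t` -/
theorem kk_drop {m t c B : ℕ} {V : ℝ} (hV : (2 : ℝ) ^ m ≤ V) (hB : 1 ≤ B) (h1 : t ≤ 2 * c + 2 * B)
    (h2 : 2 * c ≤ t + 2 * B + 6 * B) (hm : 3 * t + 100 * B ≤ m) :
    m ≤ kk (3 ^ c / 2 ^ t * V) ∧ m + 2 * t ≤ kk V ∧ kk (3 ^ c / 2 ^ t * V) ≤ kk V - 2 * t + 100 * B ∧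
      kk V - 2 * t ≤ kk (3 ^ c / 2 ^ t * V) + 100 * B := by
  obtain ⟨g0, g1⟩ := gm_bounds
  have l3 := log3_lt
  have l3' := log3_gt
  have l2 := Real.log_two_gt_d9
  have l2' := Real.log_two_lt_d9
  have g2 : (0.14 : ℝ) < gm := by unfold gm; linarith
  have hV0 : 0 < V := lt_of_lt_of_le (by positivity) hV
  have eV' : Real.log (3 ^ c / 2 ^ t * V) = Real.log V + c * Real.log 3 - t * Real.log 2 := by
    rw [Real.log_mul (by positivity) hV0.ne', Real.log_div (by positivity) (by positivity), Real.log_pow, Real.log_pow]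
    ring
  have e2 : Real.log (3 ^ c / 2 ^ t * V) = Real.log V - t * gm + (c - t / 2) * Real.log 3 := by
    rw [eV']; unfold gm; ring
  have hlV : m * Real.log 2 ≤ Real.log V := by
    have := Real.log_le_log (by positivity) hV
    rwa [Real.log_pow] at this
  set X := 2 * Real.log V / gm with hX
  set X' := 2 * Real.log (3 ^ c / 2 ^ t * V) / gm with hX'
  have e3 : X' = X - 2 * t + 2 * (c - t / 2) * Real.log 3 / gm := by
    rw [hX', hX, e2]; field_simp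
  have h1r : (t : ℝ) ≤ 2 * c + 2 * B := by exact_mod_cast h1
  have h2r : 2 * (c : ℝ) ≤ t + 8 * B := by exact_mod_cast (show 2 * c ≤ t + 8 * B by omega)
  have hBr : (1 : ℝ) ≤ B := by exact_mod_cast hB
  have hmr : 3 * (t : ℝ) + 100 * B ≤ m := by exact_mod_cast hm
  have ht0 : (0 : ℝ) ≤ t := Nat.cast_nonneg t
  have hm0 : (0 : ℝ) ≤ m := Nat.cast_nonneg m
  have hq : Real.log 3 / gm ≤ 8 := by rw [div_le_iff₀ g0]; linarith
  have hq0 : 0 ≤ Real.log 3 / gm := by positivity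
  have e4 : 2 * ((c : ℝ) - t / 2) * Real.log 3 / gm = (2 * (c : ℝ) - t) * (Real.log 3 / gm) := by ring
  have b1 : 2 * ((c : ℝ) - t / 2) * Real.log 3 / gm ≤ 64 * B := by
    rw [e4]
    calc (2 * (c : ℝ) - t) * (Real.log 3 / gm) ≤ (8 * B) * (Real.log 3 / gm) :=
          mul_le_mul_of_nonneg_right (by linarith) hq0
      _ ≤ (8 * B) * 8 := mul_le_mul_of_nonneg_left hq (by positivity)
      _ = 64 * B := by ring
  have b2 : -(64 * (B : ℝ)) ≤ 2 * ((c : ℝ) - t / 2) * Real.log 3 / gm := by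
    rw [e4]
    calc -(64 * (B : ℝ)) ≤ (-(2 * (B : ℝ))) * 8 := by linarith
      _ ≤ (-(2 * (B : ℝ))) * (Real.log 3 / gm) := by
          apply mul_le_mul_of_nonpos_left hq (by linarith)
      _ ≤ (2 * (c : ℝ) - t) * (Real.log 3 / gm) := mul_le_mul_of_nonneg_right (by linarith) hq0
  have hX9 : 9 * m ≤ X := by
    rw [hX, le_div_iff₀ g0]
    nlinarith
  have f1 := Nat.floor_le (show 0 ≤ X by linarith)
  have f2 := Nat.lt_floor_add_one X
  have hX'0 : (m : ℝ) ≤ X' := by rw [e3]; linarith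
  have f3 := Nat.floor_le (show 0 ≤ X' by linarith)
  have f4 := Nat.lt_floor_add_one X'
  have k1 : kk V = ⌊X⌋₊ := rfl
  have k2 : kk (3 ^ c / 2 ^ t * V) = ⌊X'⌋₊ := rfl
  rw [k1, k2]
  have r2 : m + 2 * t ≤ ⌊X⌋₊ := by
    rw [Nat.le_floor_iff (by linarith)]
    push_cast; linarith
  refine ⟨Nat.le_floor hX'0, r2, ?_, ?_⟩
  · have : ((⌊X'⌋₊ : ℕ) : ℝ) + 2 * t < ((⌊X⌋₊ + 100 * B : ℕ) : ℝ) := by
      push_cast
      linarith
    have h3 : ⌊X'⌋₊ + 2 * t < ⌊X⌋₊ + 100 * B := by exact_mod_cast this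
    omega
  · have : ((⌊X⌋₊ : ℕ) : ℝ) < ((⌊X'⌋₊ + 100 * B + 2 * t : ℕ) : ℝ) := by
      push_cast
      linarith
    have h3 : ⌊X⌋₊ < ⌊X'⌋₊ + 100 * B + 2 * t := by exact_mod_cast this
    omega

/-- Lipschitz in space -/
theorem UU_space {C : ℝ} (hmono : ∀ k, Monotone (UU k)) (hlip : ∀ k j, UU k (j + 1) - UU k j ≤ C / √ ((k : ℝ) + 1))
    (K : ℕ) (n k : ℤ) : |UU K (n + k) - UU K n| ≤ |(k : ℝ)| * (C / √ ((K : ℝ) + 1)) := by
  have h : ∀ (n : ℤ) (i : ℕ), |UU K (n + i) - UU K n| ≤ i * (C / √ ((K : ℝ) + 1)) := by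
    intro n i
    rw [abs_of_nonneg (sub_nonneg.2 (hmono K (by omega)))]
    induction i with
    | zero => simp
    | succ i ih =>
      have := hlip K (n + i)
      push_cast
      rw [show n + ((i : ℤ) + 1) = n + i + 1 by ring]
      linarith
  rcases le_total 0 k with h0 | h0
  · obtain ⟨i, rfl⟩ := Int.eq_ofNat_of_zero_le h0
    have := h n i
    simpa using this
  · obtain ⟨i, hi⟩ := Int.eq_ofNat_of_zero_le (show 0 ≤ -k by omega)
    have := h (n + k) i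
    rw [← hi, show n + k + -k = n by ring, abs_sub_comm] at this
    have e : |(k : ℝ)| = i := by
      have : (k : ℝ) = -(i : ℝ) := by
        have : k = -(i : ℤ) := by omega
        rw [this]; push_cast; ring
      rw [this, abs_neg, Nat.abs_cast]
    rw [e]; exact this

/-- Hölder in time -/
theorem UU_time {C : ℝ} (hC : 0 < C) (htime : ∀ (k n : ℕ) (j : ℤ), |UU (k + n) j - UU k j| ≤ C * √ n / √ ((k : ℝ) + 1))
    {m K K' D : ℕ} (hm : 1 ≤ m) (h1 : m ≤ K) (h2 : m ≤ K') (h3 : K ≤ K' + D) (h4 : K' ≤ K + D) (j : ℤ) :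
    |UU K' j - UU K j| ≤ C * √ D / √ m := by
  have key : ∀ k n : ℕ, m ≤ k → n ≤ D → |UU (k + n) j - UU k j| ≤ C * √ D / √ m := by
    intro k n hk hn
    refine (htime k n j).trans ?_
    have hm0 : (0 : ℝ) < m := by exact_mod_cast hm
    have a1 : √ (n : ℝ) ≤ √ D := Real.sqrt_le_sqrt (by exact_mod_cast hn)
    have a2 : √ (m : ℝ) ≤ √ ((k : ℝ) + 1) := Real.sqrt_le_sqrt (by
      have : (m : ℝ) ≤ k := by exact_mod_cast hk
      linarith)
    have a3 : 0 < √ (m : ℝ) := Real.sqrt_pos.2 hm0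
    exact div_le_div₀ (by positivity) (mul_le_mul_of_nonneg_left a1 hC.le) a3 a2
  rcases Nat.le_total K K' with h | h
  · obtain ⟨n, rfl⟩ := Nat.exists_eq_add_of_le h
    exact key K n h1 (by omega)
  · obtain ⟨n, rfl⟩ := Nat.exists_eq_add_of_le h
    rw [abs_sub_comm]
    exact key K' n h2 (by omega)

/-- STAGE ACTS ON `UU` -/
theorem wk (d : ℤ) (hd : d = 1 ∨ d = -1) (hU : S_U) : S_WK d := by
  have hd2 : d % 2 = 1 := by rcases hd with h | h <;> subst h <;> norm_num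
  obtain ⟨C, hC, _, hU1, hmono, hlip, htime, _, _⟩ := hU
  obtain ⟨m0, hm02, hpar⟩ := params 100
  refine ⟨10 * C + 6 * C + 2, m0, by positivity, fun m L hm hL1 hL2 => ?_⟩
  obtain ⟨hL100, hLm, _, _, _⟩ := hpar m L hm hL1 hL2
  obtain ⟨q, _, _, _, hg, _, hgs, hss, hts, _, htm, _⟩ := sizes (by omega) hLm
  set t := st m L with ht
  set g := sgw m L with hgdef
  have hBdef : sB m L = Nat.sqrt t * L ^ 3 := rfl
  set B := sB m L with hB
  set s := Nat.sqrt t with hs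
  have hL0 : (1 : ℝ) ≤ L := by exact_mod_cast (show 1 ≤ L by omega)
  have hL5 : 1 ≤ L ^ 5 := Nat.one_le_pow _ _ (by omega)
  have hs1 : 1 ≤ s := by nlinarith
  have hB1 : 1 ≤ B := by rw [hBdef]; exact Nat.one_le_iff_ne_zero.2 (by positivity)
  have hgs' : g ≤ s := by nlinarith
  have hgB : g ≤ B := by
    rw [hBdef]
    have h2 : 1 ≤ L ^ 3 := Nat.one_le_pow _ _ (by omega)
    nlinarith
  -- sizes
  have hsm : s * s * L ^ 2 ≤ m := (Nat.mul_le_mul_right _ hss).trans htm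
  have hBB : B * B ≤ m * L ^ 4 := by
    rw [hBdef]
    calc s * L ^ 3 * (s * L ^ 3) = (s * s * L ^ 2) * L ^ 4 := by ring
      _ ≤ m * L ^ 4 := Nat.mul_le_mul_right _ hsm
  have hL20 : L ^ 20 ≤ m := (Nat.pow_le_pow_right (by omega) (by norm_num)).trans hLm
  have hm1 : 1 ≤ m := (Nat.one_le_pow _ _ (by omega)).trans hL20
  have hBm : B * L ^ 8 ≤ m := by
    have : (B * L ^ 8) * (B * L ^ 8) ≤ m * m := by
      calc (B * L ^ 8) * (B * L ^ 8) = (B * B) * L ^ 16 := by ring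
        _ ≤ m * L ^ 4 * L ^ 16 := Nat.mul_le_mul_right _ hBB
        _ = m * L ^ 20 := by ring
        _ ≤ m * m := Nat.mul_le_mul_left _ hL20
    exact Nat.mul_self_le_mul_self_iff.1 this
  have hB200 : B * 200 ≤ m := by
    refine le_trans (Nat.mul_le_mul_left _ ?_) hBm
    calc 200 ≤ 100 ^ 8 := by norm_num
      _ ≤ L ^ 8 := Nat.pow_le_pow_left hL100 8
  have ht6 : t * 6 ≤ m := by
    refine le_trans (Nat.mul_le_mul_left _ ?_) htm
    calc 6 ≤ 100 ^ 2 := by norm_num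
      _ ≤ L ^ 2 := Nat.pow_le_pow_left hL100 2
  have hmm : 3 * t + 100 * B ≤ m := by omega
  have hm0 : (0 : ℝ) < m := by exact_mod_cast hm1
  have hsm0 : 0 < √ (m : ℝ) := Real.sqrt_pos.2 hm0
  have hL4 : (0 : ℝ) < (L : ℝ) ^ 4 := by positivity
  -- error of the Chebyshev bound
  have eCh : (t : ℝ) / (2 * (B : ℝ) ^ 2) ≤ 2 / (L : ℝ) ^ 4 := by
    have hs0 : (0 : ℝ) < s := by exact_mod_cast hs1
    have e1 : (B : ℝ) = s * (L : ℝ) ^ 3 := by rw [hBdef]; push_cast; ring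
    have e2 : (t : ℝ) ≤ 4 * (s * s) := by exact_mod_cast hts
    rw [e1, div_le_div_iff₀ (by positivity) hL4]
    have h1 : (1 : ℝ) ≤ (L : ℝ) ^ 2 := one_le_pow₀ hL0
    calc (t : ℝ) * (L : ℝ) ^ 4 ≤ 4 * (s * s) * (L : ℝ) ^ 4 := mul_le_mul_of_nonneg_right e2 hL4.le
      _ = 4 * (s * s) * (L : ℝ) ^ 4 * 1 := by ring
      _ ≤ 4 * (s * s) * (L : ℝ) ^ 4 * (L : ℝ) ^ 2 := mul_le_mul_of_nonneg_left h1 (by positivity)
      _ = 2 * (2 * (s * (L : ℝ) ^ 3) ^ 2) := by ring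
  have mass' := mass hd2 (t := t) (g := g) (B := B) hg hB1
  refine ⟨fun V hV1 hV2 j => ?_, ?_⟩
  swap
  · refine le_trans ?_ mass'
    have : 2 / (L : ℝ) ^ 4 ≤ (10 * C + 6 * C + 2) / (L : ℝ) ^ 4 :=
      div_le_div_of_nonneg_right (by linarith) hL4.le
    linarith
  -- the height
  set K := kk V - 2 * t with hK
  have hKm : m + 2 * t ≤ kk V := (kk_drop (t := t) (c := (t + 1) / 2) (B := B) hV1 hB1 (by omega) (by omega) hmm).2.1
  have hKm' : m ≤ K := by omega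
  have hKt : K + 2 * t = kk V := by omega
  -- replace the heights
  have eT : C * √ ((100 * B : ℕ) : ℝ) / √ (m : ℝ) ≤ 10 * C / (L : ℝ) ^ 4 := by
    rw [div_le_div_iff₀ hsm0 hL4]
    have h1 : √ ((100 * B : ℕ) : ℝ) * (L : ℝ) ^ 4 ≤ 10 * √ (m : ℝ) := by
      have e1 : (L : ℝ) ^ 4 = √ ((L : ℝ) ^ 8) := by
        rw [show (L : ℝ) ^ 8 = ((L : ℝ) ^ 4) ^ 2 by ring, Real.sqrt_sq (by positivity)]
      have e2 : (10 : ℝ) = √ 100 := by
        rw [show (100 : ℝ) = 10 ^ 2 by norm_num, Real.sqrt_sq (by norm_num)]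
      rw [e1, ← Real.sqrt_mul (by positivity)]
      calc √ (((100 * B : ℕ) : ℝ) * (L : ℝ) ^ 8) ≤ √ (100 * (m : ℝ)) := by
            apply Real.sqrt_le_sqrt
            have : ((B * L ^ 8 : ℕ) : ℝ) ≤ m := by exact_mod_cast hBm
            push_cast at this ⊢
            nlinarith
        _ = √ 100 * √ (m : ℝ) := Real.sqrt_mul (by norm_num) _
        _ = 10 * √ (m : ℝ) := by rw [← e2]
    calc C * √ ((100 * B : ℕ) : ℝ) * (L : ℝ) ^ 4 = C * (√ ((100 * B : ℕ) : ℝ) * (L : ℝ) ^ 4) := by ring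
      _ ≤ C * (10 * √ (m : ℝ)) := mul_le_mul_of_nonneg_left h1 hC.le
      _ = 10 * C * √ (m : ℝ) := by ring
  have s1 : |∑ c ∈ Cs t g B, ∑ c' ∈ Cs t g B, pc d t g c * pc d t g c' * UU (kk (3 ^ c / 2 ^ t * V)) (j + 2 * ((c' : ℤ) - c))
      - ∑ c ∈ Cs t g B, ∑ c' ∈ Cs t g B, pc d t g c * pc d t g c' * UU K (j + 2 * ((c' : ℤ) - c))| ≤ 10 * C / (L : ℝ) ^ 4 := by
    rw [← sum_sub_distrib]
    have h1 : |∑ c ∈ Cs t g B, (∑ c' ∈ Cs t g B, pc d t g c * pc d t g c' * UU (kk (3 ^ c / 2 ^ t * V)) (j + 2 * ((c' : ℤ) - c))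
        - ∑ c' ∈ Cs t g B, pc d t g c * pc d t g c' * UU K (j + 2 * ((c' : ℤ) - c)))|
        ≤ ∑ c ∈ Cs t g B, ∑ c' ∈ Cs t g B, pc d t g c * pc d t g c' * (10 * C / (L : ℝ) ^ 4) := by
      refine (abs_sum_le_sum_abs _ _).trans (sum_le_sum fun c hc => ?_)
      rw [← sum_sub_distrib]
      refine (abs_sum_le_sum_abs _ _).trans (sum_le_sum fun c' _ => ?_)
      rw [← mul_sub, abs_mul, abs_of_nonneg (mul_nonneg (pc_nonneg c) (pc_nonneg c'))]
      apply mul_le_mul_of_nonneg_left _ (mul_nonneg (pc_nonneg c) (pc_nonneg c'))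
      unfold Cs at hc
      rw [mem_filter] at hc
      obtain ⟨a1, a2, a3, a4⟩ := kk_drop (t := t) (c := c) (B := B) hV1 hB1 hc.2.1 (by have := hc.2.2; omega) hmm
      refine le_trans ?_ eT
      exact UU_time hC htime hm1 hKm' a1 a4 a3 _
    refine h1.trans ?_
    have e : ∑ c ∈ Cs t g B, ∑ c' ∈ Cs t g B, pc d t g c * pc d t g c' * (10 * C / (L : ℝ) ^ 4)
        = (∑ c ∈ Cs t g B, ∑ c' ∈ Cs t g B, pc d t g c * pc d t g c') * (10 * C / (L : ℝ) ^ 4) := by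
      rw [sum_mul]
      apply sum_congr rfl; intro c _
      rw [sum_mul]
    rw [e]
    have h2 := pp_one (d := d) (t := t) (B := B) hg
    have h3 : 0 ≤ 10 * C / (L : ℝ) ^ 4 := by positivity
    nlinarith
  -- the exact law
  have s2 := wk_exact hd2 (t := t) (g := g) (B := B) (K := K) hg hB1 hU1 (δ := 6 * C / (L : ℝ) ^ 4) (by
    intro n k hk
    refine (UU_space hmono hlip K n (2 * k)).trans ?_
    have h1 : |((2 * k : ℤ) : ℝ)| ≤ 6 * g := by
      have : |(k : ℝ)| ≤ 3 * g := by exact_mod_cast hk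
      push_cast
      rw [abs_mul, abs_of_pos (by norm_num : (0 : ℝ) < 2)]
      linarith
    have h2 : √ (m : ℝ) ≤ √ ((K : ℝ) + 1) := Real.sqrt_le_sqrt (by
      have : (m : ℝ) ≤ K := by exact_mod_cast hKm'
      linarith)
    have h3 : C / √ ((K : ℝ) + 1) ≤ C / √ (m : ℝ) := div_le_div_of_nonneg_left hC.le hsm0 h2
    have h4 : (g : ℝ) * (L : ℝ) ^ 4 ≤ √ (m : ℝ) := by
      apply Real.le_sqrt_of_sq_le
      have a1 : g * L ^ 4 ≤ s := by
        refine le_trans (Nat.mul_le_mul_left _ ?_) hgs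
        exact Nat.pow_le_pow_right (by omega) (by norm_num)
      have a2 : (g * L ^ 4) ^ 2 ≤ m := by
        calc (g * L ^ 4) ^ 2 ≤ s ^ 2 := Nat.pow_le_pow_left a1 2
          _ = s * s * 1 := by ring
          _ ≤ s * s * L ^ 2 := Nat.mul_le_mul_left _ (Nat.one_le_pow _ _ (by omega))
          _ ≤ m := hsm
      exact_mod_cast a2
    calc |((2 * k : ℤ) : ℝ)| * (C / √ ((K : ℝ) + 1)) ≤ (6 * g) * (C / √ (m : ℝ)) :=
          mul_le_mul h1 h3 (by positivity) (by positivity)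
      _ ≤ 6 * C / (L : ℝ) ^ 4 := by
        rw [mul_div_assoc', div_le_div_iff₀ hsm0 hL4]
        calc 6 * (g : ℝ) * C * (L : ℝ) ^ 4 = 6 * C * (g * (L : ℝ) ^ 4) := by ring
          _ ≤ 6 * C * √ (m : ℝ) := mul_le_mul_of_nonneg_left h4 (by positivity)) j
  rw [hKt] at s2
  have e3 : (10 * C + 6 * C + 2) / (L : ℝ) ^ 4 = 10 * C / (L : ℝ) ^ 4 + (6 * C / (L : ℝ) ^ 4 + 2 / (L : ℝ) ^ 4) := by
    rw [← add_div, ← add_div]; ring
  rw [e3]
  refine (abs_sub_le _ _ _).trans (add_le_add s1 ?_)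
  linarith

end Pool.Agent.KS6_24.ST
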