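import Mathlib
import Pool.Agent.KS6_24.ST.KLDefs
import Pool.Agent.KS6_24.ST.PL2
import Pool.Agent.KS6_24.ST.StAbsN

/-! KL2: the stage acts on `Cw`. -/

set_option autoImplicit false

namespace Pool.Agent.KS6_24.ST

open Pool.Agent.H499R2.CO Pool.Agent.Y965.SI Finset Pool.Agent.KS6_24.LN

/-! ### means over `n` residues -/

/-- mean over `n` residues modulo `2 ^ t` -/
noncomputable def pmN (n t : ℕ) (Φ : (Fin n → ℤ) → ℝ) : ℝ :=
  (∑ v ∈ Fintype.piFinset (fun _ : Fin n => range (2 ^ t)), Φ (fun a => ((v a : ℕ) : ℤ))) / (2 ^ t) ^ n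

theorem pmN_prod (n t : ℕ) (f : Fin n → ℤ → ℝ) : pmN n t (fun v => ∏ a, f a (v a)) = ∏ a, pm t (f a) := by
  unfold pmN pm
  rw [prod_div_distrib, Finset.prod_const, card_univ, Fintype.card_fin, prod_univ_sum]

theorem pmN_congr {n t : ℕ} {Φ Ψ : (Fin n → ℤ) → ℝ} (h : ∀ v, Φ v = Ψ v) : pmN n t Φ = pmN n t Ψ := by
  unfold pmN; simp only [h]

theorem pmN_sum {ι : Type*} (s : Finset ι) (n t : ℕ) (Φ : ι → (Fin n → ℤ) → ℝ) :
    pmN n t (fun v => ∑ i ∈ s, Φ i v) = ∑ i ∈ s, pmN n t (Φ i) := by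
  unfold pmN; rw [sum_comm, sum_div]

theorem pmN_mul (n t : ℕ) (c : ℝ) (Φ : (Fin n → ℤ) → ℝ) : pmN n t (fun v => c * Φ v) = c * pmN n t Φ := by
  unfold pmN; rw [← mul_sum, mul_div_assoc]

theorem pmN_add (n t : ℕ) (Φ Ψ : (Fin n → ℤ) → ℝ) : pmN n t (fun v => Φ v + Ψ v) = pmN n t Φ + pmN n t Ψ := by
  unfold pmN; rw [sum_add_distrib, add_div]

theorem pmN_sub (n t : ℕ) (Φ Ψ : (Fin n → ℤ) → ℝ) : pmN n t (fun v => Φ v - Ψ v) = pmN n t Φ - pmN n t Ψ := by
  unfold pmN; rw [sum_sub_distrib, sub_div]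

theorem pmN_const (n t : ℕ) (c : ℝ) : pmN n t (fun _ => c) = c := by
  unfold pmN
  rw [sum_const, Fintype.card_piFinset, Finset.prod_const, card_univ, Fintype.card_fin, card_range, nsmul_eq_mul]
  push_cast
  field_simp

theorem pmN_mono {n t : ℕ} {Φ Ψ : (Fin n → ℤ) → ℝ} (h : ∀ v, Φ v ≤ Ψ v) : pmN n t Φ ≤ pmN n t Ψ := by
  unfold pmN
  exact div_le_div_of_nonneg_right (sum_le_sum fun v _ => h _) (by positivity)

theorem abs_pmN_le {n t : ℕ} (Φ : (Fin n → ℤ) → ℝ) : |pmN n t Φ| ≤ pmN n t (fun v => |Φ v|) := by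
  unfold pmN
  rw [abs_div, abs_of_pos (by positivity : (0 : ℝ) < (2 ^ t) ^ n)]
  exact div_le_div_of_nonneg_right (abs_sum_le_sum_abs _ _) (by positivity)

theorem pmN_single (n t : ℕ) (a : Fin n) (f : ℤ → ℝ) : pmN n t (fun v => f (v a)) = pm t f := by
  have h := pmN_prod n t (fun b => if b = a then f else fun _ => 1)
  have e1 : ∀ v : Fin n → ℤ, ∏ b, (if b = a then f else fun _ => 1) (v b) = f (v a) := by
    intro v
    rw [prod_eq_single a]
    · simp
    · intro b _ hb; simp [hb]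
    · intro h; exact absurd (mem_univ a) h
  have e2 : ∏ b, pm t (if b = a then f else fun _ => 1) = pm t f := by
    rw [prod_eq_single a]
    · simp
    · intro b _ hb; rw [if_neg hb]; exact pm_const t 1
    · intro h; exact absurd (mem_univ a) h
  rw [e2] at h
  rw [← h]
  exact pmN_congr fun v => (e1 v).symm

/-- a function of bounded integers as a sum of products -/
theorem delta_sum {n N : ℕ} (Ψ : (Fin n → ℕ) → ℝ) {k : Fin n → ℕ} (hk : ∀ a, k a < N) :
    Ψ k = ∑ κ ∈ Fintype.piFinset (fun _ : Fin n => range N), Ψ κ * ∏ a, (if k a = κ a then (1 : ℝ) else 0) := by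
  classical
  rw [sum_eq_single k]
  · simp
  · intro κ _ hκ
    have : ∃ a, k a ≠ κ a := by
      by_contra h
      push Not at h
      exact hκ (funext fun a => (h a).symm)
    obtain ⟨a, ha⟩ := this
    rw [prod_eq_zero (mem_univ a) (by rw [if_neg ha]), mul_zero]
  · intro h
    exfalso
    apply h
    rw [Fintype.mem_piFinset]
    intro a
    rw [mem_range]
    exact hk a

theorem prod_mem_ite {n : ℕ} (A : Finset (Fin n)) (p q : Fin n → ℝ) :
    ∏ a, (if a ∈ A then q a else p a) = (∏ a ∈ A, q a) * ∏ a ∈ univ \ A, p a := by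
  classical
  rw [prod_ite]
  congr 1
  · apply prod_congr _ fun _ _ => rfl
    ext a; simp
  · apply prod_congr _ fun _ _ => rfl
    ext a; simp

/-- one more step of all the walkers -/
theorem pmN_succ {d : ℤ} (hd : d % 2 = 1) (n t : ℕ) (Ψ : (Fin n → ℕ) → ℝ) :
    pmN n (t + 1) (fun v => Ψ fun a => od d (t + 1) (v a))
      = (∑ A ∈ (univ : Finset (Fin n)).powerset,
          pmN n t (fun v => Ψ fun a => if a ∈ A then od d t (v a) + 1 else od d t (v a))) / 2 ^ n := by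
  classical
  have h1 : pmN n (t + 1) (fun v => Ψ fun a => od d (t + 1) (v a))
      = ∑ κ ∈ Fintype.piFinset (fun _ : Fin n => range (t + 2)), Ψ κ *
        ∏ a, pm (t + 1) (fun x => if od d (t + 1) x = κ a then (1 : ℝ) else 0) := by
    rw [pmN_congr (fun v => delta_sum (N := t + 2) Ψ (k := fun a => od d (t + 1) (v a))
      (fun a => by have := od_le d (t + 1) (v a); omega)), pmN_sum]
    apply sum_congr rfl
    intro κ _
    rw [pmN_mul, pmN_prod n (t + 1) (fun a x => if od d (t + 1) x = κ a then (1 : ℝ) else 0)]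
  have h2 : ∀ A : Finset (Fin n), pmN n t (fun v => Ψ fun a => if a ∈ A then od d t (v a) + 1 else od d t (v a))
      = ∑ κ ∈ Fintype.piFinset (fun _ : Fin n => range (t + 2)), Ψ κ *
        ((∏ a ∈ A, pm t (fun x => if od d t x + 1 = κ a then (1 : ℝ) else 0)) *
          ∏ a ∈ univ \ A, pm t (fun x => if od d t x = κ a then (1 : ℝ) else 0)) := by
    intro A
    rw [pmN_congr (fun v => delta_sum (N := t + 2) Ψ (k := fun a => if a ∈ A then od d t (v a) + 1 else od d t (v a))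
      (fun a => by have := od_le d t (v a); split_ifs <;> omega)), pmN_sum]
    apply sum_congr rfl
    intro κ _
    rw [pmN_mul]
    congr 1
    rw [pmN_prod n t (fun a x => if (if a ∈ A then od d t x + 1 else od d t x) = κ a then (1 : ℝ) else 0),
      ← prod_mem_ite]
    apply prod_congr rfl
    intro a _
    split_ifs with h <;> rfl
  rw [h1]
  simp only [h2]
  rw [sum_comm, sum_div]
  apply sum_congr rfl
  intro κ _
  rw [← mul_sum, ← prod_add, mul_div_assoc]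
  congr 1
  have e2 : (2 : ℝ) ^ n = ∏ _a : Fin n, (2 : ℝ) := by rw [Finset.prod_const, card_univ, Fintype.card_fin]
  rw [e2, ← prod_div_distrib]
  apply prod_congr rfl
  intro a _
  have h3 := pm_od_succ' hd t (fun k => if k = κ a then (1 : ℝ) else 0)
  rw [h3, show (fun x => ((if od d t x = κ a then (1 : ℝ) else 0) + (if od d t x + 1 = κ a then (1 : ℝ) else 0)) / 2)
    = fun x => (1 / 2) * ((if od d t x = κ a then (1 : ℝ) else 0) + (if od d t x + 1 = κ a then (1 : ℝ) else 0)) by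
      funext x; ring, pm_mul, pm_add]
  ring

/-- independent walks -/
theorem In_eq {d : ℤ} (hd : d % 2 = 1) {n : ℕ} (H : (Fin n → ℤ) → ℝ) : ∀ (t : ℕ) (x : Fin n → ℤ),
    In H t x = pmN n t (fun v => H fun a => x a + (2 * (od d t (v a) : ℤ) - t)) := by
  intro t
  induction t with
  | zero =>
    intro x
    have e : pmN n 0 (fun v => H fun a => x a + (2 * (od d 0 (v a) : ℤ) - (0 : ℕ))) = H x := by
      have : ∀ v : Fin n → ℤ, (H fun a => x a + (2 * (od d 0 (v a) : ℤ) - (0 : ℕ))) = H x := by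
        intro v
        congr 1
        funext a
        simp [od]
      rw [pmN_congr this, pmN_const]
    rw [e]; rfl
  | succ t ih =>
    intro x
    have h1 : In H (t + 1) x = (∑ A ∈ (univ : Finset (Fin n)).powerset,
        In H t fun a => if a ∈ A then x a + 1 else x a - 1) / 2 ^ n := rfl
    rw [h1, pmN_succ hd n t (fun k => H fun a => x a + (2 * (k a : ℤ) - (t + 1 : ℕ)))]
    congr 1
    apply sum_congr rfl
    intro A _
    rw [ih]
    apply pmN_congr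
    intro v
    congr 1
    funext a
    by_cases h : a ∈ A
    · simp only [if_pos h]
      push_cast
      ring
    · simp only [if_neg h]
      push_cast
      ring

variable {d : ℤ} {t g B : ℕ}

/-- products of weights as means -/
theorem pcN {n : ℕ} (F : (Fin n → ℕ) → ℝ) :
    ∑ c ∈ Fintype.piFinset (fun _ : Fin n => Cs t g B), (∏ a, pc d t g (c a)) * F c
      = pmN n t (fun v => ∑ c ∈ Fintype.piFinset (fun _ : Fin n => Cs t g B), (∏ a, psi d t g (c a) (v a)) * F c) := by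
  rw [pmN_sum]
  apply sum_congr rfl
  intro c _
  have e : ∀ v : Fin n → ℤ, (∏ a, psi d t g (c a) (v a)) * F c = F c * ∏ a, psi d t g (c a) (v a) := fun v => mul_comm _ _
  rw [pmN_congr e, pmN_mul, pmN_prod n t (fun a => psi d t g (c a)), mul_comm]
  rfl

/-- comparison with the exact law, for given residues -/
theorem wkn_point {n : ℕ} (hg : 1 ≤ g) {F : (Fin n → ℕ) → ℝ} (hF : ∀ k, |F k| ≤ 1) {δ : ℝ} (hδ : 0 ≤ δ)
    (hL : ∀ k k' : Fin n → ℕ, (∀ a, |((k a : ℕ) : ℤ) - k' a| ≤ 3 * g) → |F k - F k'| ≤ δ) (v : Fin n → ℤ) :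
    |∑ c ∈ Fintype.piFinset (fun _ : Fin n => Cs t g B), (∏ a, psi d t g (c a) (v a)) * F c
      - F (fun a => od d t (v a))| ≤ δ + ∑ a, bad d t B (v a) := by
  classical
  set T : ℝ := ∏ a : Fin n, ∑ c ∈ Cs t g B, psi d t g c (v a) with hT
  have hTs : ∑ c ∈ Fintype.piFinset (fun _ : Fin n => Cs t g B), (∏ a, psi d t g (c a) (v a)) = T := by
    rw [hT, prod_univ_sum]
  have hs0 : ∀ a : Fin n, 0 ≤ ∑ c ∈ Cs t g B, psi d t g c (v a) := fun a => sum_nonneg fun c _ => psi_nonneg c _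
  have hs1 : ∀ a : Fin n, ∑ c ∈ Cs t g B, psi d t g c (v a) ≤ 1 := fun a => sum_psi_le hg _
  have hT1 : T ≤ 1 := prod_le_one (fun a _ => hs0 a) (fun a _ => hs1 a)
  have hT0 : 1 - T ≤ ∑ a, bad d t B (v a) := by
    have h1 := prod_tele (univ : Finset (Fin n)) (u := fun _ => (1 : ℝ)) (v := fun a => ∑ c ∈ Cs t g B, psi d t g c (v a))
      (fun a _ => by simp) (fun a _ => by rw [abs_of_nonneg (hs0 a)]; exact hs1 a)
    rw [prod_const_one] at h1
    have h2 := le_abs_self (1 - T)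
    refine h2.trans (h1.trans ?_)
    apply sum_le_sum
    intro a _
    rw [abs_of_nonneg (by linarith [hs1 a])]
    have := sum_psi_ge (d := d) (t := t) (B := B) hg (v a)
    linarith
  set k0 : Fin n → ℕ := fun a => od d t (v a) with hk0
  have e1 : ∑ c ∈ Fintype.piFinset (fun _ : Fin n => Cs t g B), (∏ a, psi d t g (c a) (v a)) * F c - F k0
      = ∑ c ∈ Fintype.piFinset (fun _ : Fin n => Cs t g B), (∏ a, psi d t g (c a) (v a)) * (F c - F k0)
        - F k0 * (1 - T) := by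
    rw [← hTs]
    simp only [mul_sub, sum_sub_distrib]
    rw [← sum_mul]
    ring
  rw [e1]
  have h1 : |∑ c ∈ Fintype.piFinset (fun _ : Fin n => Cs t g B), (∏ a, psi d t g (c a) (v a)) * (F c - F k0)| ≤ δ := by
    have h2 : |∑ c ∈ Fintype.piFinset (fun _ : Fin n => Cs t g B), (∏ a, psi d t g (c a) (v a)) * (F c - F k0)|
        ≤ ∑ c ∈ Fintype.piFinset (fun _ : Fin n => Cs t g B), (∏ a, psi d t g (c a) (v a)) * δ := by
      refine (abs_sum_le_sum_abs _ _).trans (sum_le_sum fun c _ => ?_)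
      have hp : 0 ≤ ∏ a, psi d t g (c a) (v a) := prod_nonneg fun a _ => psi_nonneg _ _
      rw [abs_mul, abs_of_nonneg hp]
      by_cases h0 : ∏ a, psi d t g (c a) (v a) = 0
      · rw [h0, zero_mul, zero_mul]
      · apply mul_le_mul_of_nonneg_left _ hp
        apply hL
        intro a
        have h3 : psi d t g (c a) (v a) ≠ 0 := fun h => h0 (prod_eq_zero (mem_univ a) h)
        obtain ⟨w1, w2⟩ := W_supp _ h3
        rw [hk0, abs_le]
        simp only
        push_cast at w2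
        constructor <;> omega
    refine h2.trans ?_
    rw [← sum_mul, hTs]
    exact mul_le_of_le_one_left hδ hT1
  have h3 : |F k0 * (1 - T)| ≤ ∑ a, bad d t B (v a) := by
    rw [abs_mul, abs_of_nonneg (by linarith : 0 ≤ 1 - T)]
    refine le_trans ?_ hT0
    exact mul_le_of_le_one_left (by linarith) (hF _)
  refine (abs_sub _ _).trans ?_
  linarith

/-- the exact law of the numbers of odd steps -/
theorem wkn_exact (hd : d % 2 = 1) {n : ℕ} (hg : 1 ≤ g) (hB : 1 ≤ B) {F : (Fin n → ℕ) → ℝ} (hF : ∀ k, |F k| ≤ 1)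
    {δ : ℝ} (hδ : 0 ≤ δ)
    (hL : ∀ k k' : Fin n → ℕ, (∀ a, |((k a : ℕ) : ℤ) - k' a| ≤ 3 * g) → |F k - F k'| ≤ δ) :
    |∑ c ∈ Fintype.piFinset (fun _ : Fin n => Cs t g B), (∏ a, pc d t g (c a)) * F c
      - pmN n t (fun v => F fun a => od d t (v a))| ≤ δ + n * (t / (4 * (B : ℝ) ^ 2)) := by
  rw [pcN, ← pmN_sub]
  refine (abs_pmN_le _).trans ?_
  refine (pmN_mono fun v => wkn_point (B := B) hg hF hδ hL v).trans ?_
  rw [pmN_add, pmN_const, pmN_sum]
  have h1 : ∑ a : Fin n, pmN n t (fun v => bad d t B (v a)) ≤ ∑ _a : Fin n, (t : ℝ) / (4 * (B : ℝ) ^ 2) := by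
    apply sum_le_sum
    intro a _
    rw [pmN_single n t a (bad d t B)]
    exact pm_bad hd t hB
  rw [sum_const, card_univ, Fintype.card_fin, nsmul_eq_mul] at h1
  linarith

/-! ### heights -/

/-- the number of steps drops by about `t` -/
theorem kn_drop {m t c B : ℕ} {V : ℝ} (hV : (2 : ℝ) ^ m ≤ V) (hB : 1 ≤ B) (h1 : t ≤ 2 * c + 2 * B)
    (h2 : 2 * c ≤ t + 2 * B + 6 * B) (hm : 3 * t + 100 * B ≤ m) :
    m ≤ kn (3 ^ c / 2 ^ t * V) ∧ m + t ≤ kn V ∧ kn (3 ^ c / 2 ^ t * V) ≤ kn V - t + 100 * B ∧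
      kn V - t ≤ kn (3 ^ c / 2 ^ t * V) + 100 * B := by
  obtain ⟨g0, g1⟩ := gm_bounds
  have l3 := log3_lt
  have l3' := log3_gt
  have l2 := Real.log_two_gt_d9
  have l2' := Real.log_two_lt_d9
  have g2 : (0.14 : ℝ) < gm := by unfold gm; linarith
  have hV0 : 0 < V := lt_of_lt_of_le (by positivity) hV
  have eV' : Real.log (3 ^ c / 2 ^ t * V) = Real.log V + c * Real.log 3 - t * Real.log 2 := by
    rw [Real.log_mul (by positivity) hV0.ne', Real.log_div (by positivity) (by positivity), Real.log_pow, Real.log_pow]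
    ring
  have e2 : Real.log (3 ^ c / 2 ^ t * V) = Real.log V - t * gm + (c - t / 2) * Real.log 3 := by
    rw [eV']; unfold gm; ring
  have hlV : m * Real.log 2 ≤ Real.log V := by
    have := Real.log_le_log (by positivity) hV
    rwa [Real.log_pow] at this
  set X := Real.log V / gm with hX
  set X' := Real.log (3 ^ c / 2 ^ t * V) / gm with hX'
  have e3 : X' = X - t + (c - t / 2) * Real.log 3 / gm := by
    rw [hX', hX, e2]; field_simp
  have h1r : (t : ℝ) ≤ 2 * c + 2 * B := by exact_mod_cast h1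
  have h2r : 2 * (c : ℝ) ≤ t + 8 * B := by exact_mod_cast (show 2 * c ≤ t + 8 * B by omega)
  have hBr : (1 : ℝ) ≤ B := by exact_mod_cast hB
  have hmr : 3 * (t : ℝ) + 100 * B ≤ m := by exact_mod_cast hm
  have ht0 : (0 : ℝ) ≤ t := Nat.cast_nonneg t
  have hm0 : (0 : ℝ) ≤ m := Nat.cast_nonneg m
  have hq : Real.log 3 / gm ≤ 8 := by rw [div_le_iff₀ g0]; linarith
  have hq0 : 0 ≤ Real.log 3 / gm := by positivity
  have e4 : ((c : ℝ) - t / 2) * Real.log 3 / gm = ((c : ℝ) - t / 2) * (Real.log 3 / gm) := by ring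
  have b1 : ((c : ℝ) - t / 2) * Real.log 3 / gm ≤ 32 * B := by
    rw [e4]
    calc ((c : ℝ) - t / 2) * (Real.log 3 / gm) ≤ (4 * B) * (Real.log 3 / gm) :=
          mul_le_mul_of_nonneg_right (by linarith) hq0
      _ ≤ (4 * B) * 8 := mul_le_mul_of_nonneg_left hq (by positivity)
      _ = 32 * B := by ring
  have b2 : -(32 * (B : ℝ)) ≤ ((c : ℝ) - t / 2) * Real.log 3 / gm := by
    rw [e4]
    calc -(32 * (B : ℝ)) ≤ (-(B : ℝ)) * 8 := by linarith
      _ ≤ (-(B : ℝ)) * (Real.log 3 / gm) := by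
          apply mul_le_mul_of_nonpos_left hq (by linarith)
      _ ≤ ((c : ℝ) - t / 2) * (Real.log 3 / gm) := mul_le_mul_of_nonneg_right (by linarith) hq0
  have hX9 : 4 * m ≤ X := by
    rw [hX, le_div_iff₀ g0]
    nlinarith
  have f1 := Nat.floor_le (show 0 ≤ X by linarith)
  have f2 := Nat.lt_floor_add_one X
  have hX'0 : (m : ℝ) ≤ X' := by rw [e3]; linarith
  have f3 := Nat.floor_le (show 0 ≤ X' by linarith)
  have f4 := Nat.lt_floor_add_one X'
  have k1 : kn V = ⌊X⌋₊ := rfl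
  have k2 : kn (3 ^ c / 2 ^ t * V) = ⌊X'⌋₊ := rfl
  rw [k1, k2]
  have r2 : m + t ≤ ⌊X⌋₊ := by
    rw [Nat.le_floor_iff (by linarith)]
    push_cast; linarith
  refine ⟨Nat.le_floor hX'0, r2, ?_, ?_⟩
  · have : ((⌊X'⌋₊ : ℕ) : ℝ) + t < ((⌊X⌋₊ + 100 * B : ℕ) : ℝ) := by
      push_cast
      linarith
    have h3 : ⌊X'⌋₊ + t < ⌊X⌋₊ + 100 * B := by exact_mod_cast this
    omega
  · have : ((⌊X⌋₊ : ℕ) : ℝ) < ((⌊X'⌋₊ + 100 * B + t : ℕ) : ℝ) := by
      push_cast
      linarith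
    have h3 : ⌊X⌋₊ < ⌊X'⌋₊ + 100 * B + t := by exact_mod_cast this
    omega

/-- Hölder in time -/
theorem Cw_time {n : ℕ} {G : (Fin n → ℤ) → ℝ} {C : ℝ} (hC : 0 ≤ C)
    (htime : ∀ (k l : ℕ) (x : Fin n → ℤ), |Cw G (k + l) x - Cw G k x| ≤ C * n * (√ l + 1) / √ ((k : ℝ) + 1))
    {m K K' D : ℕ} (hm : 1 ≤ m) (h1 : m ≤ K) (h2 : m ≤ K') (h3 : K ≤ K' + D) (h4 : K' ≤ K + D) (x : Fin n → ℤ) :
    |Cw G K' x - Cw G K x| ≤ C * n * (√ D + 1) / √ m := by
  have key : ∀ k l : ℕ, m ≤ k → l ≤ D → |Cw G (k + l) x - Cw G k x| ≤ C * n * (√ D + 1) / √ m := by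
    intro k l hk hl
    refine (htime k l x).trans ?_
    have hm0 : (0 : ℝ) < m := by exact_mod_cast hm
    have a1 : √ (l : ℝ) ≤ √ D := Real.sqrt_le_sqrt (by exact_mod_cast hl)
    have a2 : √ (m : ℝ) ≤ √ ((k : ℝ) + 1) := Real.sqrt_le_sqrt (by
      have : (m : ℝ) ≤ k := by exact_mod_cast hk
      linarith)
    have a3 : 0 < √ (m : ℝ) := Real.sqrt_pos.2 hm0
    have a4 : (0 : ℝ) ≤ C * n := mul_nonneg hC (Nat.cast_nonneg _)
    exact div_le_div₀ (mul_nonneg a4 (by positivity)) (mul_le_mul_of_nonneg_left (by linarith) a4) a3 a2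
  rcases Nat.le_total K K' with h | h
  · obtain ⟨l, rfl⟩ := Nat.exists_eq_add_of_le h
    exact key K l h1 (by omega)
  · obtain ⟨l, rfl⟩ := Nat.exists_eq_add_of_le h
    rw [abs_sub_comm]
    exact key K' l h2 (by omega)

/-- the probability that two walkers meet during the stage -/
theorem Ep_le {n m L t : ℕ} (ht : 1 ≤ t) (hL : 1 ≤ L) (htm : t * L ^ 2 ≤ m) {i : Fin n → ℕ}
    (hi : ∀ a b, a ≠ b → (m : ℝ) ^ 2 ≤ ((i a : ℝ) - i b) ^ 4 * (L : ℝ) ^ 3) :
    Ep t (fun a => 2 * (i a : ℤ)) ≤ (n : ℝ) ^ 2 * (40320 / (L : ℝ) ^ 4) := by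
  have hL0 : (1 : ℝ) ≤ L := by exact_mod_cast hL
  have hLp : (0 : ℝ) < L := by linarith
  have hq : (0 : ℝ) ≤ 40320 / (L : ℝ) ^ 4 := by positivity
  unfold Ep
  have h1 : ∀ a b : Fin n, (if a = b then 0 else Real.exp (-((((2 * (i a : ℤ) : ℤ)) : ℝ) - ((2 * (i b : ℤ) : ℤ) : ℝ)) ^ 2
      / (4 * t))) ≤ 40320 / (L : ℝ) ^ 4 := by
    intro a b
    split_ifs with hab
    · exact hq
    · have h2 := hi a b hab
      set u : ℝ := (i a : ℝ) - i b with hu
      have e1 : ((((2 * (i a : ℤ) : ℤ)) : ℝ) - ((2 * (i b : ℤ) : ℤ) : ℝ)) ^ 2 = 4 * u ^ 2 := by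
        rw [hu]; push_cast; ring
      rw [e1]
      · have ht0 : (0 : ℝ) < t := by exact_mod_cast ht
        have e2 : -(4 * u ^ 2) / (4 * (t : ℝ)) = -(u ^ 2 / t) := by field_simp
        rw [e2]
        -- u ^ 2 / t ≥ √ L
        have h3 : (L : ℝ) ≤ (u ^ 2 / t) ^ 2 := by
          have h4 : (t : ℝ) * (L : ℝ) ^ 2 ≤ m := by exact_mod_cast htm
          have h5 : ((t : ℝ) * (L : ℝ) ^ 2) ^ 2 ≤ u ^ 4 * (L : ℝ) ^ 3 :=
            (pow_le_pow_left₀ (by positivity) h4 2).trans h2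
          have h6 : (t : ℝ) ^ 2 * L ≤ u ^ 4 := by
            have : ((t : ℝ) ^ 2 * L) * (L : ℝ) ^ 3 ≤ u ^ 4 * (L : ℝ) ^ 3 := by
              calc ((t : ℝ) ^ 2 * L) * (L : ℝ) ^ 3 = ((t : ℝ) * (L : ℝ) ^ 2) ^ 2 := by ring
                _ ≤ _ := h5
            exact le_of_mul_le_mul_right this (by positivity)
          rw [div_pow, le_div_iff₀ (by positivity)]
          calc (L : ℝ) * (t : ℝ) ^ 2 = (t : ℝ) ^ 2 * L := by ring
            _ ≤ u ^ 4 := h6
            _ = (u ^ 2) ^ 2 := by ring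
        set w : ℝ := u ^ 2 / t with hw
        have hw0 : 0 ≤ w := by positivity
        have h7 : (L : ℝ) ^ 4 ≤ w ^ 8 := by
          calc (L : ℝ) ^ 4 ≤ (w ^ 2) ^ 4 := pow_le_pow_left₀ hLp.le h3 4
            _ = w ^ 8 := by ring
        have h8 := Real.pow_div_factorial_le_exp w hw0 8
        have h9 : ((Nat.factorial 8 : ℕ) : ℝ) = 40320 := by norm_num [Nat.factorial]
        rw [h9] at h8
        rw [Real.exp_neg, inv_eq_one_div, div_le_div_iff₀ (Real.exp_pos _) (by positivity), one_mul]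
        rw [div_le_iff₀ (by norm_num)] at h8
        linarith
  calc ∑ a : Fin n, ∑ b : Fin n, (if a = b then 0 else Real.exp (-((((2 * (i a : ℤ) : ℤ)) : ℝ) - ((2 * (i b : ℤ) : ℤ) : ℝ)) ^ 2
      / (4 * t))) ≤ ∑ a : Fin n, ∑ b : Fin n, 40320 / (L : ℝ) ^ 4 := sum_le_sum fun a _ => sum_le_sum fun b _ => h1 a b
    _ = (n : ℝ) ^ 2 * (40320 / (L : ℝ) ^ 4) := by
      rw [sum_const, sum_const, card_univ, Fintype.card_fin, nsmul_eq_mul, nsmul_eq_mul]; ring

/-- THE STAGE ACTS ON `Cw` -/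
theorem wkn (d : ℤ) (hd : d = 1 ∨ d = -1) (hC : S_CW) : S_WKN d := by
  classical
  have hd2 : d % 2 = 1 := by rcases hd with h | h <;> subst h <;> norm_num
  obtain ⟨C, hC1, hCW⟩ := hC
  obtain ⟨m0, hm02, hpar⟩ := params 100
  intro n
  have hC0 : 0 < C := by linarith
  set N : ℝ := ((n + 1 : ℕ) : ℝ) with hN
  have hN0 : 0 < N := by rw [hN]; positivity
  refine ⟨40320 * C * N ^ 2 + 6 * C * N + N + 11 * C * N, m0, by positivity, fun G hG m L hm hL1 hL2 V hV i _ hi2 => ?_⟩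
  obtain ⟨c1, c2, c3, c4, c5, _⟩ := hCW (n + 1) G hG
  obtain ⟨hL100, hLm, _, _, _⟩ := hpar m L hm hL1 hL2
  obtain ⟨q, _, _, _, hg, _, hgs, hss, hts, _, htm, _⟩ := sizes (by omega) hLm
  set t := st m L with ht
  set g := sgw m L with hgdef
  have hBdef : sB m L = Nat.sqrt t * L ^ 3 := rfl
  set B := sB m L with hB
  set s := Nat.sqrt t with hs
  have hL0 : (1 : ℝ) ≤ L := by exact_mod_cast (show 1 ≤ L by omega)
  have hL5 : 1 ≤ L ^ 5 := Nat.one_le_pow _ _ (by omega)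
  have hs1 : 1 ≤ s := by nlinarith
  have ht1 : 1 ≤ t := by nlinarith
  have hB1 : 1 ≤ B := by rw [hBdef]; exact Nat.one_le_iff_ne_zero.2 (by positivity)
  have hgs' : g ≤ s := by nlinarith
  have hgB : g ≤ B := by
    rw [hBdef]
    have h2 : 1 ≤ L ^ 3 := Nat.one_le_pow _ _ (by omega)
    nlinarith
  -- sizes
  have hsm : s * s * L ^ 2 ≤ m := (Nat.mul_le_mul_right _ hss).trans htm
  have hBB : B * B ≤ m * L ^ 4 := by
    rw [hBdef]
    calc s * L ^ 3 * (s * L ^ 3) = (s * s * L ^ 2) * L ^ 4 := by ring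
      _ ≤ m * L ^ 4 := Nat.mul_le_mul_right _ hsm
  have hL20 : L ^ 20 ≤ m := (Nat.pow_le_pow_right (by omega) (by norm_num)).trans hLm
  have hm1 : 1 ≤ m := (Nat.one_le_pow _ _ (by omega)).trans hL20
  have hBm : B * L ^ 8 ≤ m := by
    have : (B * L ^ 8) * (B * L ^ 8) ≤ m * m := by
      calc (B * L ^ 8) * (B * L ^ 8) = (B * B) * L ^ 16 := by ring
        _ ≤ m * L ^ 4 * L ^ 16 := Nat.mul_le_mul_right _ hBB
        _ = m * L ^ 20 := by ring
        _ ≤ m * m := Nat.mul_le_mul_left _ hL20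
    exact Nat.mul_self_le_mul_self_iff.1 this
  have hB200 : B * 200 ≤ m := by
    refine le_trans (Nat.mul_le_mul_left _ ?_) hBm
    calc 200 ≤ 100 ^ 8 := by norm_num
      _ ≤ L ^ 8 := Nat.pow_le_pow_left hL100 8
  have ht6 : t * 6 ≤ m := by
    refine le_trans (Nat.mul_le_mul_left _ ?_) htm
    calc 6 ≤ 100 ^ 2 := by norm_num
      _ ≤ L ^ 2 := Nat.pow_le_pow_left hL100 2
  have hmm : 3 * t + 100 * B ≤ m := by omega
  have hm0 : (0 : ℝ) < m := by exact_mod_cast hm1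
  have hsm0 : 0 < √ (m : ℝ) := Real.sqrt_pos.2 hm0
  have hL4 : (0 : ℝ) < (L : ℝ) ^ 4 := by positivity
  -- error of the Chebyshev bound
  have eCh : (t : ℝ) / (4 * (B : ℝ) ^ 2) ≤ 1 / (L : ℝ) ^ 4 := by
    have hs0 : (0 : ℝ) < s := by exact_mod_cast hs1
    have e1 : (B : ℝ) = s * (L : ℝ) ^ 3 := by rw [hBdef]; push_cast; ring
    have e2 : (t : ℝ) ≤ 4 * (s * s) := by exact_mod_cast hts
    rw [e1, div_le_div_iff₀ (by positivity) hL4]
    have h1 : (1 : ℝ) ≤ (L : ℝ) ^ 2 := one_le_pow₀ hL0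
    calc (t : ℝ) * (L : ℝ) ^ 4 ≤ 4 * (s * s) * (L : ℝ) ^ 4 := mul_le_mul_of_nonneg_right e2 hL4.le
      _ = 4 * (s * s) * (L : ℝ) ^ 4 * 1 := by ring
      _ ≤ 4 * (s * s) * (L : ℝ) ^ 4 * (L : ℝ) ^ 2 := mul_le_mul_of_nonneg_left h1 (by positivity)
      _ = 1 * (4 * (s * (L : ℝ) ^ 3) ^ 2) := by ring
  -- the height
  set V1 : ℝ := 3 ^ i 0 * V with hV1
  have hV0 : 0 < V := lt_of_lt_of_le (by positivity) hV
  have hV1m : (2 : ℝ) ^ m ≤ V1 := hV.trans (le_mul_of_one_le_left hV0.le (one_le_pow₀ (by norm_num)))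
  set K := kn V1 - t with hK
  have hKm : m + t ≤ kn V1 := (kn_drop (t := t) (c := (t + 1) / 2) (B := B) hV1m hB1 (by omega) (by omega) hmm).2.1
  have hKm' : m ≤ K := by omega
  have hKt : t + K = kn V1 := by omega
  have ehe : ∀ c : Fin (n + 1) → ℕ, (3 : ℝ) ^ (i 0 + c 0) * (V / 2 ^ t) = 3 ^ c 0 / 2 ^ t * V1 := by
    intro c
    rw [hV1, pow_add]
    ring
  -- the function of the numbers of odd steps
  set x0 : Fin (n + 1) → ℤ := fun a => 2 * (i a : ℤ) with hx0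
  set F : (Fin (n + 1) → ℕ) → ℝ := fun k => Cw G K (fun a => 2 * ((i a : ℤ) + k a)) with hF
  -- step 1
  have s1 : |Cw G (kn V1) x0 - In (Cw G K) t x0| ≤ 40320 * C * N ^ 2 / (L : ℝ) ^ 4 := by
    rw [← hKt]
    refine (c5 K t x0 (fun a b => by rw [hx0]; simp only; omega)).trans ?_
    have h1 := Ep_le ht1 (show 1 ≤ L by omega) htm hi2
    calc C * Ep t x0 ≤ C * (((n + 1 : ℕ) : ℝ) ^ 2 * (40320 / (L : ℝ) ^ 4)) := mul_le_mul_of_nonneg_left h1 hC0.le
      _ = 40320 * C * N ^ 2 / (L : ℝ) ^ 4 := by rw [hN]; ring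
  have e2 : In (Cw G K) t x0 = pmN (n + 1) t (fun v => F fun a => od d t (v a)) := by
    rw [In_eq hd2]
    apply pmN_congr
    intro v
    rw [hF]
    simp only
    rw [← c2 K (fun a => 2 * ((i a : ℤ) + (od d t (v a) : ℕ))) (-(t : ℤ))]
    congr 1
    funext a
    rw [hx0]
    ring
  -- step 2
  have s2 : |∑ c ∈ Fintype.piFinset (fun _ : Fin (n + 1) => Cs t g B), (∏ a, pc d t g (c a)) * F c
      - pmN (n + 1) t (fun v => F fun a => od d t (v a))| ≤ (6 * C * N + N) / (L : ℝ) ^ 4 := by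
    have h1 := wkn_exact (t := t) (g := g) (B := B) hd2 (n := n + 1) hg hB1 (F := F) (fun k => c1 K _) (δ := 6 * C * N / (L : ℝ) ^ 4)
      (by positivity) (by
        intro k k' hk
        refine (c3 K _ _ (fun a => by omega)).trans ?_
        have h1 : ∑ a : Fin (n + 1), |((2 * ((i a : ℤ) + k a) : ℤ) : ℝ) - ((2 * ((i a : ℤ) + k' a) : ℤ) : ℝ)|
            ≤ N * (6 * g) := by
          have h2 : ∀ a : Fin (n + 1), |((2 * ((i a : ℤ) + k a) : ℤ) : ℝ) - ((2 * ((i a : ℤ) + k' a) : ℤ) : ℝ)| ≤ 6 * g := by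
            intro a
            have h3 : |((k a : ℕ) : ℝ) - k' a| ≤ 3 * g := by exact_mod_cast hk a
            have e : ((2 * ((i a : ℤ) + k a) : ℤ) : ℝ) - ((2 * ((i a : ℤ) + k' a) : ℤ) : ℝ) = 2 * (((k a : ℕ) : ℝ) - k' a) := by
              push_cast; ring
            rw [e, abs_mul, abs_of_pos (by norm_num : (0 : ℝ) < 2)]
            linarith
          calc _ ≤ ∑ _a : Fin (n + 1), (6 * g : ℝ) := sum_le_sum fun a _ => h2 a
            _ = N * (6 * g) := by rw [sum_const, card_univ, Fintype.card_fin, nsmul_eq_mul]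
        have h2 : √ (m : ℝ) ≤ √ ((K : ℝ) + 1) := Real.sqrt_le_sqrt (by
          have : (m : ℝ) ≤ K := by exact_mod_cast hKm'
          linarith)
        have h4 : (g : ℝ) * (L : ℝ) ^ 4 ≤ √ (m : ℝ) := by
          apply Real.le_sqrt_of_sq_le
          have a1 : g * L ^ 4 ≤ s := by
            refine le_trans (Nat.mul_le_mul_left _ ?_) hgs
            exact Nat.pow_le_pow_right (by omega) (by norm_num)
          have a2 : (g * L ^ 4) ^ 2 ≤ m := by
            calc (g * L ^ 4) ^ 2 ≤ s ^ 2 := Nat.pow_le_pow_left a1 2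
              _ = s * s * 1 := by ring
              _ ≤ s * s * L ^ 2 := Nat.mul_le_mul_left _ (Nat.one_le_pow _ _ (by omega))
              _ ≤ m := hsm
          exact_mod_cast a2
        calc C * (∑ a : Fin (n + 1), |((2 * ((i a : ℤ) + k a) : ℤ) : ℝ) - ((2 * ((i a : ℤ) + k' a) : ℤ) : ℝ)|) / √ ((K : ℝ) + 1)
            ≤ C * (N * (6 * g)) / √ (m : ℝ) :=
              div_le_div₀ (by positivity) (mul_le_mul_of_nonneg_left h1 hC0.le) hsm0 h2
          _ ≤ 6 * C * N / (L : ℝ) ^ 4 := by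
            rw [div_le_div_iff₀ hsm0 hL4]
            calc C * (N * (6 * g)) * (L : ℝ) ^ 4 = 6 * C * N * (g * (L : ℝ) ^ 4) := by ring
              _ ≤ 6 * C * N * √ (m : ℝ) := mul_le_mul_of_nonneg_left h4 (by positivity))
    refine h1.trans ?_
    rw [add_div]
    have h5 : ((n + 1 : ℕ) : ℝ) * ((t : ℝ) / (4 * (B : ℝ) ^ 2)) ≤ N / (L : ℝ) ^ 4 := by
      calc ((n + 1 : ℕ) : ℝ) * ((t : ℝ) / (4 * (B : ℝ) ^ 2)) ≤ N * (1 / (L : ℝ) ^ 4) :=
            mul_le_mul_of_nonneg_left eCh hN0.le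
        _ = N / (L : ℝ) ^ 4 := by ring
    linarith
  -- step 3: replace the heights
  have eT : C * N * (√ ((100 * B : ℕ) : ℝ) + 1) / √ (m : ℝ) ≤ 11 * C * N / (L : ℝ) ^ 4 := by
    rw [div_le_div_iff₀ hsm0 hL4]
    have e1 : (L : ℝ) ^ 4 = √ ((L : ℝ) ^ 8) := by
      rw [show (L : ℝ) ^ 8 = ((L : ℝ) ^ 4) ^ 2 by ring, Real.sqrt_sq (by positivity)]
    have h1 : √ ((100 * B : ℕ) : ℝ) * (L : ℝ) ^ 4 ≤ 10 * √ (m : ℝ) := by
      have e2 : (10 : ℝ) = √ 100 := by
        rw [show (100 : ℝ) = 10 ^ 2 by norm_num, Real.sqrt_sq (by norm_num)]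
      rw [e1, ← Real.sqrt_mul (by positivity)]
      calc √ (((100 * B : ℕ) : ℝ) * (L : ℝ) ^ 8) ≤ √ (100 * (m : ℝ)) := by
            apply Real.sqrt_le_sqrt
            have : ((B * L ^ 8 : ℕ) : ℝ) ≤ m := by exact_mod_cast hBm
            push_cast at this ⊢
            nlinarith
        _ = √ 100 * √ (m : ℝ) := Real.sqrt_mul (by norm_num) _
        _ = 10 * √ (m : ℝ) := by rw [← e2]
    have h2 : (L : ℝ) ^ 4 ≤ √ (m : ℝ) := by
      rw [e1]
      apply Real.sqrt_le_sqrt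
      have : L ^ 8 ≤ m := (Nat.pow_le_pow_right (by omega) (by norm_num)).trans hL20
      exact_mod_cast this
    calc C * N * (√ ((100 * B : ℕ) : ℝ) + 1) * (L : ℝ) ^ 4
        = C * N * (√ ((100 * B : ℕ) : ℝ) * (L : ℝ) ^ 4 + (L : ℝ) ^ 4) := by ring
      _ ≤ C * N * (10 * √ (m : ℝ) + √ (m : ℝ)) := mul_le_mul_of_nonneg_left (by linarith) (by positivity)
      _ = 11 * C * N * √ (m : ℝ) := by ring
  have s3 : |∑ c ∈ Fintype.piFinset (fun _ : Fin (n + 1) => Cs t g B), (∏ a, pc d t g (c a)) *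
        Cw G (kn (3 ^ (i 0 + c 0) * (V / 2 ^ t))) (fun a => 2 * ((i a : ℤ) + c a))
      - ∑ c ∈ Fintype.piFinset (fun _ : Fin (n + 1) => Cs t g B), (∏ a, pc d t g (c a)) * F c|
      ≤ 11 * C * N / (L : ℝ) ^ 4 := by
    rw [← sum_sub_distrib]
    have h1 : |∑ c ∈ Fintype.piFinset (fun _ : Fin (n + 1) => Cs t g B), ((∏ a, pc d t g (c a)) *
        Cw G (kn (3 ^ (i 0 + c 0) * (V / 2 ^ t))) (fun a => 2 * ((i a : ℤ) + c a)) - (∏ a, pc d t g (c a)) * F c)|
        ≤ ∑ c ∈ Fintype.piFinset (fun _ : Fin (n + 1) => Cs t g B), (∏ a, pc d t g (c a)) * (11 * C * N / (L : ℝ) ^ 4) := by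
      refine (abs_sum_le_sum_abs _ _).trans (sum_le_sum fun c hc => ?_)
      have hp : 0 ≤ ∏ a, pc d t g (c a) := prod_nonneg fun a _ => pc_nonneg _
      rw [← mul_sub, abs_mul, abs_of_nonneg hp]
      apply mul_le_mul_of_nonneg_left _ hp
      rw [Fintype.mem_piFinset] at hc
      have hc0 := hc 0
      unfold Cs at hc0
      rw [mem_filter] at hc0
      obtain ⟨a1, a2, a3, a4⟩ := kn_drop (t := t) (c := c 0) (B := B) hV1m hB1 hc0.2.1 (by have := hc0.2.2; omega) hmm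
      refine le_trans ?_ eT
      rw [ehe c, hF]
      exact Cw_time hC0.le c4 hm1 hKm' a1 a4 a3 _
    refine h1.trans ?_
    rw [← sum_mul]
    have h2 : ∑ c ∈ Fintype.piFinset (fun _ : Fin (n + 1) => Cs t g B), (∏ a, pc d t g (c a)) ≤ 1 := by
      rw [← prod_univ_sum]
      exact prod_le_one (fun a _ => sum_nonneg fun c _ => pc_nonneg c) (fun a _ => sum_pc_le hg)
    exact mul_le_of_le_one_left (by positivity) h2
  rw [e2] at s1
  have e3 : (40320 * C * N ^ 2 + 6 * C * N + N + 11 * C * N) / (L : ℝ) ^ 4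
      = 40320 * C * N ^ 2 / (L : ℝ) ^ 4 + (6 * C * N + N) / (L : ℝ) ^ 4 + 11 * C * N / (L : ℝ) ^ 4 := by ring
  rw [e3]
  have a1 := abs_le.1 s1
  have a2 := abs_le.1 s2
  have a3 := abs_le.1 s3
  rw [abs_le]
  constructor <;> linarith [a1.1, a1.2, a2.1, a2.2, a3.1, a3.2]

end Pool.Agent.KS6_24.ST
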