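import Mathlib
import Pool.Agent.KS6_24.ST.KLDefs
import Pool.Agent.KS6_24.ST.PL2

/-! KL3: the stage acts on `UU`, all heights at least `m`. -/

set_option autoImplicit false

namespace Pool.Agent.KS6_24.ST

open Pool.Agent.H499R2.CO Pool.Agent.Y965.SI Finset Pool.Agent.KS6_24.LN

/-- the stage acts on `UU`, all heights at least `m` -/
theorem wk2 (d : ℤ) (hd : d = 1 ∨ d = -1) (hU : S_U) : S_WK2 d := by
  have hd2 : d % 2 = 1 := by rcases hd with h | h <;> subst h <;> norm_num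
  obtain ⟨C, hC, _, hU1, hmono, hlip, htime, _, _⟩ := hU
  obtain ⟨m0, hm02, hpar⟩ := params 100
  refine ⟨10 * C + 6 * C + 2, m0, by positivity, fun m L hm hL1 hL2 V hV1 j => ?_⟩
  obtain ⟨hL100, hLm, _, _, _⟩ := hpar m L hm hL1 hL2
  obtain ⟨q, _, _, _, hg, _, hgs, hss, hts, _, htm, _⟩ := sizes (by omega) hLm
  set t := st m L with ht
  set g := sgw m L with hgdef
  have hBdef : sB m L = Nat.sqrt t * L ^ 3 := rfl
  set B := sB m L with hB
  set s := Nat.sqrt t with hs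
  have hL0 : (1 : ℝ) ≤ L := by exact_mod_cast (show 1 ≤ L by omega)
  have hL5 : 1 ≤ L ^ 5 := Nat.one_le_pow _ _ (by omega)
  have hs1 : 1 ≤ s := by nlinarith
  have hB1 : 1 ≤ B := by rw [hBdef]; exact Nat.one_le_iff_ne_zero.2 (by positivity)
  have hgs' : g ≤ s := by nlinarith
  have hgB : g ≤ B := by
    rw [hBdef]
    have h2 : 1 ≤ L ^ 3 := Nat.one_le_pow _ _ (by omega)
    nlinarith
  -- sizes
  have hsm : s * s * L ^ 2 ≤ m := (Nat.mul_le_mul_right _ hss).trans htm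
  have hBB : B * B ≤ m * L ^ 4 := by
    rw [hBdef]
    calc s * L ^ 3 * (s * L ^ 3) = (s * s * L ^ 2) * L ^ 4 := by ring
      _ ≤ m * L ^ 4 := Nat.mul_le_mul_right _ hsm
  have hL20 : L ^ 20 ≤ m := (Nat.pow_le_pow_right (by omega) (by norm_num)).trans hLm
  have hm1 : 1 ≤ m := (Nat.one_le_pow _ _ (by omega)).trans hL20
  have hBm : B * L ^ 8 ≤ m := by
    have : (B * L ^ 8) * (B * L ^ 8) ≤ m * m := by
      calc (B * L ^ 8) * (B * L ^ 8) = (B * B) * L ^ 16 := by ring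
        _ ≤ m * L ^ 4 * L ^ 16 := Nat.mul_le_mul_right _ hBB
        _ = m * L ^ 20 := by ring
        _ ≤ m * m := Nat.mul_le_mul_left _ hL20
    exact Nat.mul_self_le_mul_self_iff.1 this
  have hB200 : B * 200 ≤ m := by
    refine le_trans (Nat.mul_le_mul_left _ ?_) hBm
    calc 200 ≤ 100 ^ 8 := by norm_num
      _ ≤ L ^ 8 := Nat.pow_le_pow_left hL100 8
  have ht6 : t * 6 ≤ m := by
    refine le_trans (Nat.mul_le_mul_left _ ?_) htm
    calc 6 ≤ 100 ^ 2 := by norm_num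
      _ ≤ L ^ 2 := Nat.pow_le_pow_left hL100 2
  have hmm : 3 * t + 100 * B ≤ m := by omega
  have hm0 : (0 : ℝ) < m := by exact_mod_cast hm1
  have hsm0 : 0 < √ (m : ℝ) := Real.sqrt_pos.2 hm0
  have hL4 : (0 : ℝ) < (L : ℝ) ^ 4 := by positivity
  -- error of the Chebyshev bound
  have eCh : (t : ℝ) / (2 * (B : ℝ) ^ 2) ≤ 2 / (L : ℝ) ^ 4 := by
    have hs0 : (0 : ℝ) < s := by exact_mod_cast hs1
    have e1 : (B : ℝ) = s * (L : ℝ) ^ 3 := by rw [hBdef]; push_cast; ring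
    have e2 : (t : ℝ) ≤ 4 * (s * s) := by exact_mod_cast hts
    rw [e1, div_le_div_iff₀ (by positivity) hL4]
    have h1 : (1 : ℝ) ≤ (L : ℝ) ^ 2 := one_le_pow₀ hL0
    calc (t : ℝ) * (L : ℝ) ^ 4 ≤ 4 * (s * s) * (L : ℝ) ^ 4 := mul_le_mul_of_nonneg_right e2 hL4.le
      _ = 4 * (s * s) * (L : ℝ) ^ 4 * 1 := by ring
      _ ≤ 4 * (s * s) * (L : ℝ) ^ 4 * (L : ℝ) ^ 2 := mul_le_mul_of_nonneg_left h1 (by positivity)
      _ = 2 * (2 * (s * (L : ℝ) ^ 3) ^ 2) := by ring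
  -- the height
  set K := kk V - 2 * t with hK
  have hKm : m + 2 * t ≤ kk V := (kk_drop (t := t) (c := (t + 1) / 2) (B := B) hV1 hB1 (by omega) (by omega) hmm).2.1
  have hKm' : m ≤ K := by omega
  have hKt : K + 2 * t = kk V := by omega
  -- replace the heights
  have eT : C * √ ((100 * B : ℕ) : ℝ) / √ (m : ℝ) ≤ 10 * C / (L : ℝ) ^ 4 := by
    rw [div_le_div_iff₀ hsm0 hL4]
    have h1 : √ ((100 * B : ℕ) : ℝ) * (L : ℝ) ^ 4 ≤ 10 * √ (m : ℝ) := by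
      have e1 : (L : ℝ) ^ 4 = √ ((L : ℝ) ^ 8) := by
        rw [show (L : ℝ) ^ 8 = ((L : ℝ) ^ 4) ^ 2 by ring, Real.sqrt_sq (by positivity)]
      have e2 : (10 : ℝ) = √ 100 := by
        rw [show (100 : ℝ) = 10 ^ 2 by norm_num, Real.sqrt_sq (by norm_num)]
      rw [e1, ← Real.sqrt_mul (by positivity)]
      calc √ (((100 * B : ℕ) : ℝ) * (L : ℝ) ^ 8) ≤ √ (100 * (m : ℝ)) := by
            apply Real.sqrt_le_sqrt
            have : ((B * L ^ 8 : ℕ) : ℝ) ≤ m := by exact_mod_cast hBm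
            push_cast at this ⊢
            nlinarith
        _ = √ 100 * √ (m : ℝ) := Real.sqrt_mul (by norm_num) _
        _ = 10 * √ (m : ℝ) := by rw [← e2]
    calc C * √ ((100 * B : ℕ) : ℝ) * (L : ℝ) ^ 4 = C * (√ ((100 * B : ℕ) : ℝ) * (L : ℝ) ^ 4) := by ring
      _ ≤ C * (10 * √ (m : ℝ)) := mul_le_mul_of_nonneg_left h1 hC.le
      _ = 10 * C * √ (m : ℝ) := by ring
  have s1 : |∑ c ∈ Cs t g B, ∑ c' ∈ Cs t g B, pc d t g c * pc d t g c' * UU (kk (3 ^ c / 2 ^ t * V)) (j + 2 * ((c' : ℤ) - c))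
      - ∑ c ∈ Cs t g B, ∑ c' ∈ Cs t g B, pc d t g c * pc d t g c' * UU K (j + 2 * ((c' : ℤ) - c))| ≤ 10 * C / (L : ℝ) ^ 4 := by
    rw [← sum_sub_distrib]
    have h1 : |∑ c ∈ Cs t g B, (∑ c' ∈ Cs t g B, pc d t g c * pc d t g c' * UU (kk (3 ^ c / 2 ^ t * V)) (j + 2 * ((c' : ℤ) - c))
        - ∑ c' ∈ Cs t g B, pc d t g c * pc d t g c' * UU K (j + 2 * ((c' : ℤ) - c)))|
        ≤ ∑ c ∈ Cs t g B, ∑ c' ∈ Cs t g B, pc d t g c * pc d t g c' * (10 * C / (L : ℝ) ^ 4) := by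
      refine (abs_sum_le_sum_abs _ _).trans (sum_le_sum fun c hc => ?_)
      rw [← sum_sub_distrib]
      refine (abs_sum_le_sum_abs _ _).trans (sum_le_sum fun c' _ => ?_)
      rw [← mul_sub, abs_mul, abs_of_nonneg (mul_nonneg (pc_nonneg c) (pc_nonneg c'))]
      apply mul_le_mul_of_nonneg_left _ (mul_nonneg (pc_nonneg c) (pc_nonneg c'))
      unfold Cs at hc
      rw [mem_filter] at hc
      obtain ⟨a1, a2, a3, a4⟩ := kk_drop (t := t) (c := c) (B := B) hV1 hB1 hc.2.1 (by have := hc.2.2; omega) hmm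
      refine le_trans ?_ eT
      exact UU_time hC htime hm1 hKm' a1 a4 a3 _
    refine h1.trans ?_
    have e : ∑ c ∈ Cs t g B, ∑ c' ∈ Cs t g B, pc d t g c * pc d t g c' * (10 * C / (L : ℝ) ^ 4)
        = (∑ c ∈ Cs t g B, ∑ c' ∈ Cs t g B, pc d t g c * pc d t g c') * (10 * C / (L : ℝ) ^ 4) := by
      rw [sum_mul]
      apply sum_congr rfl; intro c _
      rw [sum_mul]
    rw [e]
    have h2 := pp_one (d := d) (t := t) (B := B) hg
    have h3 : 0 ≤ 10 * C / (L : ℝ) ^ 4 := by positivity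
    nlinarith
  -- the exact law
  have s2 := wk_exact hd2 (t := t) (g := g) (B := B) (K := K) hg hB1 hU1 (δ := 6 * C / (L : ℝ) ^ 4) (by
    intro n k hk
    refine (UU_space hmono hlip K n (2 * k)).trans ?_
    have h1 : |((2 * k : ℤ) : ℝ)| ≤ 6 * g := by
      have : |(k : ℝ)| ≤ 3 * g := by exact_mod_cast hk
      push_cast
      rw [abs_mul, abs_of_pos (by norm_num : (0 : ℝ) < 2)]
      linarith
    have h2 : √ (m : ℝ) ≤ √ ((K : ℝ) + 1) := Real.sqrt_le_sqrt (by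
      have : (m : ℝ) ≤ K := by exact_mod_cast hKm'
      linarith)
    have h3 : C / √ ((K : ℝ) + 1) ≤ C / √ (m : ℝ) := div_le_div_of_nonneg_left hC.le hsm0 h2
    have h4 : (g : ℝ) * (L : ℝ) ^ 4 ≤ √ (m : ℝ) := by
      apply Real.le_sqrt_of_sq_le
      have a1 : g * L ^ 4 ≤ s := by
        refine le_trans (Nat.mul_le_mul_left _ ?_) hgs
        exact Nat.pow_le_pow_right (by omega) (by norm_num)
      have a2 : (g * L ^ 4) ^ 2 ≤ m := by
        calc (g * L ^ 4) ^ 2 ≤ s ^ 2 := Nat.pow_le_pow_left a1 2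
          _ = s * s * 1 := by ring
          _ ≤ s * s * L ^ 2 := Nat.mul_le_mul_left _ (Nat.one_le_pow _ _ (by omega))
          _ ≤ m := hsm
      exact_mod_cast a2
    calc |((2 * k : ℤ) : ℝ)| * (C / √ ((K : ℝ) + 1)) ≤ (6 * g) * (C / √ (m : ℝ)) :=
          mul_le_mul h1 h3 (by positivity) (by positivity)
      _ ≤ 6 * C / (L : ℝ) ^ 4 := by
        rw [mul_div_assoc', div_le_div_iff₀ hsm0 hL4]
        calc 6 * (g : ℝ) * C * (L : ℝ) ^ 4 = 6 * C * (g * (L : ℝ) ^ 4) := by ring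
          _ ≤ 6 * C * √ (m : ℝ) := mul_le_mul_of_nonneg_left h4 (by positivity)) j
  rw [hKt] at s2
  have e3 : (10 * C + 6 * C + 2) / (L : ℝ) ^ 4 = 10 * C / (L : ℝ) ^ 4 + (6 * C / (L : ℝ) ^ 4 + 2 / (L : ℝ) ^ 4) := by
    rw [← add_div, ← add_div]; ring
  rw [e3]
  refine (abs_sub_le _ _ _).trans (add_le_add s1 ?_)
  linarith

end Pool.Agent.KS6_24.ST
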