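import Mathlib
import Pool.Agent.KS6_24.ST.PLDefs
import Pool.Agent.KS6_24.ST.Cor2

/-! PL6: the induction on the height for the pair law. -/

set_option autoImplicit false

namespace Pool.Agent.KS6_24.ST

open Pool.Agent.H499R2.CO Pool.Agent.Y965.SI Finset Pool.Agent.KS6_24.LN

/-- the body of `S_STAGE2` for one `f` -/
def Stg2 (f : ℤ → ℝ) (d : ℤ) (D : ℝ) (m0 : ℕ) : Prop := ∀ m L : ℕ, m0 ≤ m →
  Nat.log 2 m ≤ L → L ≤ 3 * Nat.log 2 m → ∀ V : ℝ, 2 ^ m ≤ V → ∀ i : ℕ, (m : ℝ) ^ 2 ≤ (i : ℝ) ^ 4 * (L : ℝ) ^ 3 →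
    (i : ℝ) ≤ (m : ℝ) ^ (0.9995 : ℝ) →
    |cor f V i - ∑ c ∈ Cs (st m L) (sgw m L) (sB m L), ∑ c' ∈ Cs (st m L) (sgw m L) (sB m L),
        pc d (st m L) (sgw m L) c * pc d (st m L) (sgw m L) c' * cor f (3 ^ c / 2 ^ (st m L) * V) ((i : ℤ) + c' - c)|
      ≤ D / (L : ℝ) ^ 4

/-- the body of `S_WK` -/
def Wk (d : ℤ) (C : ℝ) (m0 : ℕ) : Prop := ∀ m L : ℕ, m0 ≤ m → Nat.log 2 m ≤ L → L ≤ 3 * Nat.log 2 m →
  (∀ V : ℝ, 2 ^ m ≤ V → V < 2 ^ (m + 1) → ∀ j : ℤ,
    |∑ c ∈ Cs (st m L) (sgw m L) (sB m L), ∑ c' ∈ Cs (st m L) (sgw m L) (sB m L),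
        pc d (st m L) (sgw m L) c * pc d (st m L) (sgw m L) c' * UU (kk (3 ^ c / 2 ^ (st m L) * V)) (j + 2 * ((c' : ℤ) - c))
      - UU (kk V) j| ≤ C / (L : ℝ) ^ 4) ∧
  1 - C / (L : ℝ) ^ 4 ≤ ∑ c ∈ Cs (st m L) (sgw m L) (sB m L), ∑ c' ∈ Cs (st m L) (sgw m L) (sB m L),
        pc d (st m L) (sgw m L) c * pc d (st m L) (sgw m L) c'

/-- the body of `S_TL` -/
def Tl (d : ℤ) (C : ℝ) (m0 : ℕ) : Prop := ∀ m L : ℕ, m0 ≤ m → Nat.log 2 m ≤ L → L ≤ 3 * Nat.log 2 m →
  ∀ i : ℕ, (m : ℝ) ^ 2 ≤ (i : ℝ) ^ 4 * (L : ℝ) ^ 3 →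
    ∑ c ∈ Cs (st m L) (sgw m L) (sB m L), ∑ c' ∈ Cs (st m L) (sgw m L) (sB m L),
      pc d (st m L) (sgw m L) c * pc d (st m L) (sgw m L) c' * (if i + c' ≤ c then 1 else 0) ≤ C / (L : ℝ) ^ 4

/-- the error -/
noncomputable def ee (f : ℤ → ℝ) (q V : ℝ) (j : ℤ) : ℝ := cor f V j - q * (1 - UU (kk V) (2 * j))

/-- the barrier -/
noncomputable def Br (a : ℕ) (V : ℝ) (j : ℤ) : ℝ := (UU (kk V) (2 * j + a) - UU (kk V) (2 * j - a)) / 2

theorem Br_nonneg (hmono : ∀ k, Monotone (UU k)) (a : ℕ) (V : ℝ) (j : ℤ) : 0 ≤ Br a V j := by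
  unfold Br
  have := hmono (kk V) (show 2 * j - (a : ℤ) ≤ 2 * j + a by omega)
  linarith

theorem ee_abs {f : ℤ → ℝ} (hf : ∀ x, |f x| ≤ 1) (hU1 : ∀ k j, |UU k j| ≤ 1) (q : ℝ) {V : ℝ} (hV : 0 < V) (j : ℤ) :
    |ee f q V j| ≤ 1 + 2 * |q| := by
  unfold ee
  have h1 := cor_abs hf hV j
  have h2 := hU1 (kk V) (2 * j)
  have h3 : |1 - UU (kk V) (2 * j)| ≤ 2 := by
    rw [abs_le] at h2 ⊢; constructor <;> linarith
  have h4 : |q * (1 - UU (kk V) (2 * j))| ≤ |q| * 2 := by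
    rw [abs_mul]; exact mul_le_mul_of_nonneg_left h3 (abs_nonneg _)
  have h5 := abs_sub (cor f V j) (q * (1 - UU (kk V) (2 * j)))
  linarith

variable {d : ℤ} {f : ℤ → ℝ}

/-- one stage for the error -/
theorem ee_stage {q D CW : ℝ} {m0 : ℕ} (hS : Stg2 f d D m0) (hW : Wk d CW m0) {m L : ℕ} (hm : m0 ≤ m)
    (hL1 : Nat.log 2 m ≤ L) (hL2 : L ≤ 3 * Nat.log 2 m) (hg : 1 ≤ sgw m L) {V : ℝ} (hV : 2 ^ m ≤ V) (hV2 : V < 2 ^ (m + 1))
    (i : ℕ) (hi1 : (m : ℝ) ^ 2 ≤ (i : ℝ) ^ 4 * (L : ℝ) ^ 3) (hi2 : (i : ℝ) ≤ (m : ℝ) ^ (0.9995 : ℝ)) :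
    |ee f q V i - ∑ c ∈ Cs (st m L) (sgw m L) (sB m L), ∑ c' ∈ Cs (st m L) (sgw m L) (sB m L),
        pc d (st m L) (sgw m L) c * pc d (st m L) (sgw m L) c' * ee f q (3 ^ c / 2 ^ (st m L) * V) ((i : ℤ) + c' - c)|
      ≤ (D + 2 * |q| * CW) / (L : ℝ) ^ 4 := by
  have h1 := hS m L hm hL1 hL2 V hV i hi1 hi2
  obtain ⟨h2, h3⟩ := hW m L hm hL1 hL2
  have h2 := h2 V hV hV2 (2 * (i : ℤ))
  have h4 := pp_one (d := d) (t := st m L) (B := sB m L) hg
  set Sa := ∑ c ∈ Cs (st m L) (sgw m L) (sB m L), ∑ c' ∈ Cs (st m L) (sgw m L) (sB m L),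
        pc d (st m L) (sgw m L) c * pc d (st m L) (sgw m L) c' * cor f (3 ^ c / 2 ^ (st m L) * V) ((i : ℤ) + c' - c)
    with hSa
  set Sb := ∑ c ∈ Cs (st m L) (sgw m L) (sB m L), ∑ c' ∈ Cs (st m L) (sgw m L) (sB m L),
        pc d (st m L) (sgw m L) c * pc d (st m L) (sgw m L) c' *
          UU (kk (3 ^ c / 2 ^ (st m L) * V)) (2 * (i : ℤ) + 2 * ((c' : ℤ) - c)) with hSb
  set Sc := ∑ c ∈ Cs (st m L) (sgw m L) (sB m L), ∑ c' ∈ Cs (st m L) (sgw m L) (sB m L),
        pc d (st m L) (sgw m L) c * pc d (st m L) (sgw m L) c' with hSc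
  have e : ∑ c ∈ Cs (st m L) (sgw m L) (sB m L), ∑ c' ∈ Cs (st m L) (sgw m L) (sB m L),
        pc d (st m L) (sgw m L) c * pc d (st m L) (sgw m L) c' * ee f q (3 ^ c / 2 ^ (st m L) * V) ((i : ℤ) + c' - c)
      = Sa - q * (Sc - Sb) := by
    rw [hSa, hSb, hSc, mul_sub, mul_sum, mul_sum, ← sum_sub_distrib, ← sum_sub_distrib]
    apply sum_congr rfl; intro c _
    rw [mul_sum, mul_sum, ← sum_sub_distrib, ← sum_sub_distrib]
    apply sum_congr rfl; intro c' _
    unfold ee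
    have e1 : 2 * ((i : ℤ) + c' - c) = 2 * (i : ℤ) + 2 * ((c' : ℤ) - c) := by ring
    rw [e1]
    ring
  rw [e]
  have e2 : ee f q V i - (Sa - q * (Sc - Sb)) = (cor f V i - Sa) - (q * (1 - Sc) + q * (Sb - UU (kk V) (2 * (i : ℤ)))) := by
    unfold ee; ring
  rw [e2]
  have h5 : |q * (1 - Sc)| ≤ |q| * (CW / (L : ℝ) ^ 4) := by
    rw [abs_mul]
    apply mul_le_mul_of_nonneg_left _ (abs_nonneg _)
    rw [abs_le]; constructor <;> linarith
  have h6 : |q * (Sb - UU (kk V) (2 * (i : ℤ)))| ≤ |q| * (CW / (L : ℝ) ^ 4) := by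
    rw [abs_mul]
    exact mul_le_mul_of_nonneg_left h2 (abs_nonneg _)
  have h7 := abs_sub (cor f V i - Sa) (q * (1 - Sc) + q * (Sb - UU (kk V) (2 * (i : ℤ))))
  have h8 := abs_add_le (q * (1 - Sc)) (q * (Sb - UU (kk V) (2 * (i : ℤ))))
  have e3 : (D + 2 * |q| * CW) / (L : ℝ) ^ 4 = D / (L : ℝ) ^ 4 + |q| * (CW / (L : ℝ) ^ 4) + |q| * (CW / (L : ℝ) ^ 4) := by
    ring
  rw [e3]
  linarith

/-- the barrier under a stage -/
theorem Br_stage {CW : ℝ} {m0 : ℕ} (hW : Wk d CW m0) {m L : ℕ} (hm : m0 ≤ m)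
    (hL1 : Nat.log 2 m ≤ L) (hL2 : L ≤ 3 * Nat.log 2 m) {V : ℝ} (hV : 2 ^ m ≤ V) (hV2 : V < 2 ^ (m + 1)) (a : ℕ) (i : ℤ) :
    ∑ c ∈ Cs (st m L) (sgw m L) (sB m L), ∑ c' ∈ Cs (st m L) (sgw m L) (sB m L),
        pc d (st m L) (sgw m L) c * pc d (st m L) (sgw m L) c' * Br a (3 ^ c / 2 ^ (st m L) * V) (i + c' - c)
      ≤ Br a V i + CW / (L : ℝ) ^ 4 := by
  obtain ⟨h2, _⟩ := hW m L hm hL1 hL2
  have h1 := (abs_le.1 (h2 V hV hV2 (2 * i + a))).2
  have h3 := (abs_le.1 (h2 V hV hV2 (2 * i - a))).1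
  have e : ∑ c ∈ Cs (st m L) (sgw m L) (sB m L), ∑ c' ∈ Cs (st m L) (sgw m L) (sB m L),
        pc d (st m L) (sgw m L) c * pc d (st m L) (sgw m L) c' * Br a (3 ^ c / 2 ^ (st m L) * V) (i + c' - c)
      = (∑ c ∈ Cs (st m L) (sgw m L) (sB m L), ∑ c' ∈ Cs (st m L) (sgw m L) (sB m L),
        pc d (st m L) (sgw m L) c * pc d (st m L) (sgw m L) c' *
          UU (kk (3 ^ c / 2 ^ (st m L) * V)) (2 * i + a + 2 * ((c' : ℤ) - c))
        - ∑ c ∈ Cs (st m L) (sgw m L) (sB m L), ∑ c' ∈ Cs (st m L) (sgw m L) (sB m L),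
        pc d (st m L) (sgw m L) c * pc d (st m L) (sgw m L) c' *
          UU (kk (3 ^ c / 2 ^ (st m L) * V)) (2 * i - a + 2 * ((c' : ℤ) - c))) / 2 := by
    rw [← sum_sub_distrib, sum_div]
    apply sum_congr rfl; intro c _
    rw [← sum_sub_distrib, sum_div]
    apply sum_congr rfl; intro c' _
    unfold Br
    have e1 : 2 * (i + c' - c) + (a : ℤ) = 2 * i + a + 2 * ((c' : ℤ) - c) := by ring
    have e2 : 2 * (i + c' - c) - (a : ℤ) = 2 * i - a + 2 * ((c' : ℤ) - c) := by ring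
    rw [e1, e2]
    ring
  rw [e]
  unfold Br
  linarith

/-- THE INDUCTION -/
theorem core2 (hd : d % 2 = 1) (hf : ∀ x, |f x| ≤ 1) (hmono : ∀ k, Monotone (UU k)) (hU1 : ∀ k j, |UU k j| ≤ 1)
    {q D CW CT : ℝ} (hD : 0 ≤ D) (hCW : 0 ≤ CW) (hCT : 0 ≤ CT) {m0 : ℕ} (hS : Stg2 f d D m0) (hW : Wk d CW m0)
    (hT : Tl d CT m0)
    {m L h a : ℕ} {i0 γ Λ : ℝ} (hh : m0 ≤ h) (hh0 : 1 ≤ h)
    (hLL : ∀ m' : ℕ, h ≤ m' → m' ≤ m → Nat.log 2 m' ≤ L ∧ L ≤ 3 * Nat.log 2 m') (hL : 2 ≤ L)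
    (hh1 : 256 * (L ^ 3 + 1) ^ 2 ≤ h / L ^ 2) (hh2 : L ^ 10 ≤ h / L ^ 2) (hΛ : 0 < Λ)
    (hγ : 0 ≤ γ)
    (hmer : ∀ m' : ℕ, h ≤ m' → m' ≤ m → ∀ V : ℝ, 2 ^ m' ≤ V → V < 2 ^ (m' + 1) → ∀ j : ℕ,
      (j : ℝ) ^ 4 * (L : ℝ) ^ 3 ≤ (m' : ℝ) ^ 2 → |ee f q V j| ≤ γ)
    (hup : ∀ m' : ℕ, h ≤ m' → m' ≤ m → ∀ j : ℕ, ((j : ℝ) - i0) ^ 2 ≤ Λ → (j : ℝ) ≤ (m' : ℝ) ^ (0.9995 : ℝ))
    (hend : ∀ V : ℝ, 2 ^ h ≤ V → V < 2 ^ (2 * h) → ∀ j : ℕ, ((j : ℝ) - i0) ^ 2 ≤ Λ →
      |ee f q V j| ≤ γ ∨ 1 / 2 ≤ Br a V j) :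
    ∀ m' : ℕ, h ≤ m' → m' ≤ m → ∀ V : ℝ, 2 ^ m' ≤ V → V < 2 ^ (m' + 1) → ∀ j : ℕ,
      |ee f q V j| ≤ (1 + 2 * |q|) * ((j : ℝ) - i0) ^ 2 / Λ + 33 * (1 + 2 * |q|) * m' / Λ
        + 2 * (1 + 2 * |q|) * Br a V j
        + 12 * (D + 2 * |q| * CW + 2 * (1 + 2 * |q|) * CW + (1 + 2 * |q|) * CT) / (L : ℝ) ^ 2 * (Real.log m' - Real.log h)
        + γ := by
  have hLr : (0 : ℝ) < L := by exact_mod_cast (show 0 < L by omega)
  have hhr : (0 : ℝ) < h := by exact_mod_cast hh0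
  set M : ℝ := 1 + 2 * |q| with hM
  have hM0 : 0 < M := by rw [hM]; positivity
  set E : ℝ := D + 2 * |q| * CW + 2 * M * CW + M * CT with hE
  have hE0 : 0 ≤ E := by rw [hE]; positivity
  intro m'
  induction m' using Nat.strong_induction_on with
  | _ m' ih =>
    intro hm1 hm2 V hV1 hV2 n
    have hV0 : (0 : ℝ) < V := lt_of_lt_of_le (by positivity) hV1
    have hm'r : (0 : ℝ) < m' := lt_of_lt_of_le hhr (by exact_mod_cast hm1)
    have hlog : 0 ≤ Real.log m' - Real.log h := by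
      have := Real.log_le_log hhr (show (h : ℝ) ≤ m' by exact_mod_cast hm1)
      linarith
    have hlog2 : 0 ≤ 12 * E / (L : ℝ) ^ 2 * (Real.log m' - Real.log h) := mul_nonneg (by positivity) hlog
    have hm'0 : 0 ≤ 33 * M * (m' : ℝ) / Λ := by positivity
    have hsq : 0 ≤ M * ((n : ℝ) - i0) ^ 2 / Λ := by positivity
    have hBr : 0 ≤ 2 * M * Br a V n := mul_nonneg (by positivity) (Br_nonneg hmono a V n)
    have habs := ee_abs hf hU1 q hV0 (n : ℤ)
    rw [← hM] at habs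
    by_cases hj : ((n : ℝ) - i0) ^ 2 ≤ Λ
    · by_cases hmg : (n : ℝ) ^ 4 * (L : ℝ) ^ 3 ≤ (m' : ℝ) ^ 2
      · have := hmer m' hm1 hm2 V hV1 hV2 n hmg
        linarith
      · push Not at hmg
        by_cases hm3 : m' < 2 * h
        · -- end
          rcases hend V (le_trans (pow_le_pow_right₀ (by norm_num) hm1) hV1)
            (lt_of_lt_of_le hV2 (pow_le_pow_right₀ (by norm_num) (by omega))) n hj with h1 | h1
          · linarith
          · have : M ≤ 2 * M * Br a V n := by nlinarith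
            linarith
        · -- stage
          push Not at hm3
          obtain ⟨hl1, hl2⟩ := hLL m' hm1 hm2
          obtain ⟨hg1, ht1, ht2, hg2, hcs, hmt⟩ := stage_sizes hL hh1 hh2 hm1
          have hst := ee_stage (q := q) hS hW (hh.trans hm1) hl1 hl2 hg1 hV1 hV2 n hmg.le (hup m' hm1 hm2 n hj)
          have hbst := Br_stage hW (hh.trans hm1) hl1 hl2 hV1 hV2 a n
          have htl := hT m' L (hh.trans hm1) hl1 hl2 n hmg.le
          set t := st m' L with ht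
          set g := sgw m' L with hg
          set B := sB m' L with hB
          set s := t / 10 with hs
          set X := 33 * M * ((m' : ℝ) - s) / Λ + 12 * E / (L : ℝ) ^ 2 * (Real.log m' - s / m' - Real.log h) + γ with hX
          have hX0 : 0 ≤ X := by
            have h6 : (s : ℝ) ≤ m' := by exact_mod_cast (show s ≤ m' by omega)
            have h8 : 0 ≤ 33 * M * ((m' : ℝ) - s) / Λ := div_nonneg (mul_nonneg (by positivity) (by linarith)) hΛ.le
            have h9 : 0 ≤ Real.log m' - s / m' - Real.log h := by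
              have h10 : Real.log 2 ≤ Real.log m' - Real.log h := by
                have h11 : (2 : ℝ) * h ≤ m' := by exact_mod_cast hm3
                have h12 := Real.log_le_log (by positivity) h11
                rw [Real.log_mul (by norm_num) hhr.ne'] at h12
                linarith
              have h13 : (s : ℝ) / m' ≤ 1 / 4 := by
                rw [div_le_div_iff₀ hm'r (by norm_num)]
                have : 4 * (s : ℝ) ≤ m' := by exact_mod_cast (show 4 * s ≤ m' by omega)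
                linarith
              have := Real.log_two_gt_d9
              linarith
            have h14 := mul_nonneg (show 0 ≤ 12 * E / (L : ℝ) ^ 2 by positivity) h9
            linarith
          -- bound for each term
          have hterm : ∀ c ∈ Cs t g B, ∀ c' : ℕ, |ee f q (3 ^ c / 2 ^ t * V) ((n : ℤ) + c' - c)|
              ≤ M / Λ * (((n : ℝ) - i0) + c' - c) ^ 2 + X + 2 * M * Br a (3 ^ c / 2 ^ t * V) ((n : ℤ) + c' - c)
                + M * (if n + c' ≤ c then 1 else 0) := by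
            intro c hc c'
            have hbr' := mul_nonneg (show 0 ≤ 2 * M by positivity)
              (Br_nonneg hmono a (3 ^ c / 2 ^ t * V) ((n : ℤ) + c' - c))
            have hsq' : 0 ≤ M / Λ * (((n : ℝ) - i0) + c' - c) ^ 2 := by positivity
            by_cases hneg : n + c' ≤ c
            · rw [if_pos hneg]
              have h1 := ee_abs hf hU1 q (show (0 : ℝ) < 3 ^ c / 2 ^ t * V by positivity) ((n : ℤ) + c' - c)
              rw [← hM] at h1
              linarith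
            · rw [if_neg hneg, mul_zero, add_zero]
              push Not at hneg
              obtain ⟨n', hn1, hn2, hn3, hn4⟩ := height_drop (s := s) hV1 hV2 (by omega) (by omega) (hcs c hc)
              obtain ⟨j, hj'⟩ : ∃ j : ℕ, (j : ℤ) = (n : ℤ) + c' - c := ⟨n + c' - c, by omega⟩
              have h1 := ih n' (by omega) (by omega) (by omega) _ hn1 hn2 j
              rw [hj'] at h1
              have hjr : (j : ℝ) = (n : ℝ) + c' - c := by
                have : ((j : ℤ) : ℝ) = (((n : ℤ) + c' - c : ℤ) : ℝ) := by rw [hj']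
                push_cast at this
                exact this
              have hn4' : (n' : ℝ) ≤ m' - s := by
                have : (n' : ℝ) + s ≤ m' := by exact_mod_cast hn4
                linarith
              have hn'0 : (0 : ℝ) < n' := by exact_mod_cast (show 0 < n' by omega)
              have e1 : M * ((j : ℝ) - i0) ^ 2 / Λ = M / Λ * (((n : ℝ) - i0) + c' - c) ^ 2 := by rw [hjr]; ring
              rw [e1] at h1
              have e2 : 33 * M * (n' : ℝ) / Λ ≤ 33 * M * ((m' : ℝ) - s) / Λ :=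
                div_le_div_of_nonneg_right (mul_le_mul_of_nonneg_left hn4' (by positivity)) hΛ.le
              have e3 : Real.log n' ≤ Real.log m' - s / m' := by
                have h5 := Real.log_le_sub_one_of_pos (show (0 : ℝ) < n' / m' by positivity)
                rw [Real.log_div hn'0.ne' hm'r.ne'] at h5
                have h6 : (n' : ℝ) / m' ≤ 1 - s / m' := by
                  rw [div_le_iff₀ hm'r, sub_mul, div_mul_cancel₀ _ hm'r.ne']
                  linarith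
                linarith
              have e4 : 12 * E / (L : ℝ) ^ 2 * (Real.log n' - Real.log h)
                  ≤ 12 * E / (L : ℝ) ^ 2 * (Real.log m' - s / m' - Real.log h) :=
                mul_le_mul_of_nonneg_left (by linarith) (by positivity)
              linarith
          have hsum : |∑ c ∈ Cs t g B, ∑ c' ∈ Cs t g B, pc d t g c * pc d t g c' *
              ee f q (3 ^ c / 2 ^ t * V) ((n : ℤ) + c' - c)|
              ≤ M / Λ * (((n : ℝ) - i0) ^ 2 + (2 * t + 72 * (g : ℝ) ^ 2)) + X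
                + 2 * M * (Br a V n + CW / (L : ℝ) ^ 4) + M * (CT / (L : ℝ) ^ 4) := by
            have h1 : |∑ c ∈ Cs t g B, ∑ c' ∈ Cs t g B, pc d t g c * pc d t g c' *
                ee f q (3 ^ c / 2 ^ t * V) ((n : ℤ) + c' - c)|
                ≤ ∑ c ∈ Cs t g B, ∑ c' ∈ Cs t g B, pc d t g c * pc d t g c' *
                  (M / Λ * (((n : ℝ) - i0) + c' - c) ^ 2 + X + 2 * M * Br a (3 ^ c / 2 ^ t * V) ((n : ℤ) + c' - c)
                    + M * (if n + c' ≤ c then 1 else 0)) := by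
              refine (abs_sum_le_sum_abs _ _).trans (sum_le_sum fun c hc => ?_)
              refine (abs_sum_le_sum_abs _ _).trans (sum_le_sum fun c' _ => ?_)
              rw [abs_mul, abs_of_nonneg (mul_nonneg (pc_nonneg c) (pc_nonneg c'))]
              exact mul_le_mul_of_nonneg_left (hterm c hc c') (mul_nonneg (pc_nonneg c) (pc_nonneg c'))
            refine h1.trans ?_
            have h2 : ∑ c ∈ Cs t g B, ∑ c' ∈ Cs t g B, pc d t g c * pc d t g c' *
                  (M / Λ * (((n : ℝ) - i0) + c' - c) ^ 2 + X + 2 * M * Br a (3 ^ c / 2 ^ t * V) ((n : ℤ) + c' - c)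
                    + M * (if n + c' ≤ c then 1 else 0))
                = M / Λ * (∑ c ∈ Cs t g B, ∑ c' ∈ Cs t g B, pc d t g c * pc d t g c' * (((n : ℝ) - i0) + c' - c) ^ 2)
                  + X * (∑ c ∈ Cs t g B, ∑ c' ∈ Cs t g B, pc d t g c * pc d t g c')
                  + 2 * M * (∑ c ∈ Cs t g B, ∑ c' ∈ Cs t g B, pc d t g c * pc d t g c' *
                      Br a (3 ^ c / 2 ^ t * V) ((n : ℤ) + c' - c))
                  + M * (∑ c ∈ Cs t g B, ∑ c' ∈ Cs t g B, pc d t g c * pc d t g c' * (if n + c' ≤ c then 1 else 0)) := by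
              simp only [mul_sum]
              rw [← sum_add_distrib, ← sum_add_distrib, ← sum_add_distrib]
              apply sum_congr rfl; intro c _
              rw [← sum_add_distrib, ← sum_add_distrib, ← sum_add_distrib]
              apply sum_congr rfl; intro c' _
              ring
            rw [h2]
            have h3 := mul_le_mul_of_nonneg_left (pp_pot (d := d) (t := t) (B := B) hd hg1 ((n : ℝ) - i0))
              (show 0 ≤ M / Λ by positivity)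
            have h4 := mul_le_mul_of_nonneg_left (pp_one (d := d) (t := t) (B := B) hg1) hX0
            have h5 := mul_le_mul_of_nonneg_left hbst (show 0 ≤ 2 * M by positivity)
            have h6 := mul_le_mul_of_nonneg_left htl hM0.le
            linarith
          have h1 := abs_sub_abs_le_abs_sub (ee f q V n) (∑ c ∈ Cs t g B, ∑ c' ∈ Cs t g B, pc d t g c * pc d t g c' *
              ee f q (3 ^ c / 2 ^ t * V) ((n : ℤ) + c' - c))
          have h2 : |ee f q V n| ≤ (D + 2 * |q| * CW) / (L : ℝ) ^ 4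
              + (M / Λ * (((n : ℝ) - i0) ^ 2 + (2 * t + 72 * (g : ℝ) ^ 2)) + X
                + 2 * M * (Br a V n + CW / (L : ℝ) ^ 4) + M * (CT / (L : ℝ) ^ 4)) := by
            linarith
          refine h2.trans ?_
          -- numeric
          have e1 : (72 : ℝ) * (g : ℝ) ^ 2 ≤ t := by exact_mod_cast hg2
          have e2 : (t : ℝ) ≤ 10 * s + 9 := by exact_mod_cast (show t ≤ 10 * s + 9 by omega)
          have e3 : (100 : ℝ) ≤ s := by exact_mod_cast (show 100 ≤ s by omega)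
          have e4 : M / Λ * (2 * t + 72 * (g : ℝ) ^ 2) ≤ 33 * M * s / Λ := by
            rw [div_mul_eq_mul_div]
            apply div_le_div_of_nonneg_right _ hΛ.le
            have : 2 * (t : ℝ) + 72 * (g : ℝ) ^ 2 ≤ 33 * s := by linarith
            calc M * (2 * t + 72 * (g : ℝ) ^ 2) ≤ M * (33 * s) := mul_le_mul_of_nonneg_left this hM0.le
              _ = 33 * M * s := by ring
          have e5 : E / (L : ℝ) ^ 4 ≤ 12 * E / (L : ℝ) ^ 2 * (s / m') := by
            have h3 : 1 / (12 * (L : ℝ) ^ 2) ≤ s / m' := by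
              rw [div_le_div_iff₀ (by positivity) hm'r]
              linarith
            have h4 := mul_le_mul_of_nonneg_left h3 (show 0 ≤ 12 * E / (L : ℝ) ^ 2 by positivity)
            refine le_trans (le_of_eq ?_) h4
            field_simp
          have e6 : E / (L : ℝ) ^ 4 = (D + 2 * |q| * CW) / (L : ℝ) ^ 4 + 2 * M * (CW / (L : ℝ) ^ 4)
              + M * (CT / (L : ℝ) ^ 4) := by rw [hE]; ring
          rw [hX]
          have e7 : 33 * M * ((m' : ℝ) - s) / Λ = 33 * M * m' / Λ - 33 * M * s / Λ := by ring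
          have e8 : 12 * E / (L : ℝ) ^ 2 * (Real.log m' - s / m' - Real.log h)
              = 12 * E / (L : ℝ) ^ 2 * (Real.log m' - Real.log h) - 12 * E / (L : ℝ) ^ 2 * (s / m') := by ring
          have e9 : M / Λ * (((n : ℝ) - i0) ^ 2 + (2 * t + 72 * (g : ℝ) ^ 2))
              = M * ((n : ℝ) - i0) ^ 2 / Λ + M / Λ * (2 * t + 72 * (g : ℝ) ^ 2) := by ring
          rw [e7, e8, e9]
          linarith
    · -- far level
      push Not at hj
      have h2 : M ≤ M * ((n : ℝ) - i0) ^ 2 / Λ := by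
        rw [le_div_iff₀ hΛ]
        exact mul_le_mul_of_nonneg_left hj.le hM0.le
      linarith

end Pool.Agent.KS6_24.ST
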