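import Mathlib
import Pool.Agent.KS6_24.ST.KLDefs
import Pool.Agent.KS6_24.ST.CorN1
import Pool.Agent.KS6_24.ST.PL6a

/-! KL5: the induction on the height for the joint law. -/

set_option autoImplicit false

namespace Pool.Agent.KS6_24.ST

open Pool.Agent.H499R2.CO Pool.Agent.Y965.SI Finset Pool.Agent.KS6_24.LN

/-- the body of `S_WK2` -/
def Wk2 (d : ℤ) (C : ℝ) (m0 : ℕ) : Prop := ∀ m L : ℕ, m0 ≤ m → Nat.log 2 m ≤ L → L ≤ 3 * Nat.log 2 m →
  ∀ V : ℝ, 2 ^ m ≤ V → ∀ j : ℤ,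
    |∑ c ∈ Cs (st m L) (sgw m L) (sB m L), ∑ c' ∈ Cs (st m L) (sgw m L) (sB m L),
        pc d (st m L) (sgw m L) c * pc d (st m L) (sgw m L) c' * UU (kk (3 ^ c / 2 ^ (st m L) * V)) (j + 2 * ((c' : ℤ) - c))
      - UU (kk V) j| ≤ C / (L : ℝ) ^ 4

/-- the body of `S_WKN` -/
def WkN {n : ℕ} (G : (Fin (n + 1) → ℤ) → ℝ) (d : ℤ) (C : ℝ) (m0 : ℕ) : Prop :=
  ∀ m L : ℕ, m0 ≤ m → Nat.log 2 m ≤ L → L ≤ 3 * Nat.log 2 m → ∀ V : ℝ, 2 ^ m ≤ V →
  ∀ i : Fin (n + 1) → ℕ, (∀ a, (i a : ℝ) ≤ (m : ℝ) ^ (0.9995 : ℝ)) →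
    (∀ a b, a ≠ b → (m : ℝ) ^ 2 ≤ ((i a : ℝ) - i b) ^ 4 * (L : ℝ) ^ 3) →
    |Cw G (kn (3 ^ i 0 * V)) (fun a => 2 * (i a : ℤ))
      - ∑ c ∈ Fintype.piFinset (fun _ : Fin (n + 1) => Cs (st m L) (sgw m L) (sB m L)),
        (∏ a, pc d (st m L) (sgw m L) (c a)) *
          Cw G (kn (3 ^ (i 0 + c 0) * (V / 2 ^ (st m L)))) (fun a => 2 * ((i a : ℤ) + c a))|
      ≤ C / (L : ℝ) ^ 4

/-- the error -/
noncomputable def en {n : ℕ} (F : Fin (n + 1) → ℤ → ℝ) (G : (Fin (n + 1) → ℤ) → ℝ) (V : ℝ) (j : Fin (n + 1) → ℕ) : ℝ :=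
  cn F V (fun a => j a) - Cw G (kn (3 ^ j 0 * V)) (fun a => 2 * (j a : ℤ))

/-- the barrier -/
noncomputable def BrN {n : ℕ} (u : ℕ) (V : ℝ) (j : Fin (n + 1) → ℕ) : ℝ :=
  ∑ a, ∑ b, if a = b then 0 else Br u (3 ^ j a * V) ((j b : ℤ) - j a)

theorem BrN_nonneg (hmono : ∀ k, Monotone (UU k)) {n : ℕ} (u : ℕ) (V : ℝ) (j : Fin (n + 1) → ℕ) : 0 ≤ BrN u V j := by
  unfold BrN
  apply sum_nonneg; intro a _
  apply sum_nonneg; intro b _
  split_ifs
  · exact le_rfl
  · exact Br_nonneg hmono _ _ _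

variable {d : ℤ} {n : ℕ} {F : Fin (n + 1) → ℤ → ℝ} {G : (Fin (n + 1) → ℤ) → ℝ}

theorem en_abs (hF : ∀ a x, |F a x| ≤ 1) (hCa : ∀ k x, |Cw G k x| ≤ 1) {V : ℝ} (hV : 0 < V) (j : Fin (n + 1) → ℕ) :
    |en F G V j| ≤ 2 := by
  unfold en
  have h1 := cn_abs hF hV (fun a => (j a : ℤ))
  have h2 := hCa (kn (3 ^ j 0 * V)) (fun a => 2 * (j a : ℤ))
  have h3 := abs_sub (cn F V (fun a => j a)) (Cw G (kn (3 ^ j 0 * V)) (fun a => 2 * (j a : ℤ)))
  linarith

/-- one stage for the error -/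
theorem en_stage {D CW : ℝ} {m0 : ℕ} (hS : StgN F d D m0) (hW : WkN G d CW m0) {m L : ℕ} (hm : m0 ≤ m)
    (hL1 : Nat.log 2 m ≤ L) (hL2 : L ≤ 3 * Nat.log 2 m) {V : ℝ} (hV : 2 ^ m ≤ V)
    (i : Fin (n + 1) → ℕ) (hi2 : ∀ a, (i a : ℝ) ≤ (m : ℝ) ^ (0.9995 : ℝ))
    (hi1 : ∀ a b, a ≠ b → (m : ℝ) ^ 2 ≤ ((i a : ℝ) - i b) ^ 4 * (L : ℝ) ^ 3) :
    |en F G V i - ∑ c ∈ Fintype.piFinset (fun _ : Fin (n + 1) => Cs (st m L) (sgw m L) (sB m L)),
        (∏ a, pc d (st m L) (sgw m L) (c a)) * (cn F (V / 2 ^ (st m L)) (fun a => (i a : ℤ) + c a)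
          - Cw G (kn (3 ^ (i 0 + c 0) * (V / 2 ^ (st m L)))) (fun a => 2 * ((i a : ℤ) + c a)))|
      ≤ (D + CW) / (L : ℝ) ^ 4 := by
  have h1 := hS m L hm hL1 hL2 V hV i hi2 hi1
  have h2 := hW m L hm hL1 hL2 V hV i hi2 hi1
  have e : ∑ c ∈ Fintype.piFinset (fun _ : Fin (n + 1) => Cs (st m L) (sgw m L) (sB m L)),
        (∏ a, pc d (st m L) (sgw m L) (c a)) * (cn F (V / 2 ^ (st m L)) (fun a => (i a : ℤ) + c a)
          - Cw G (kn (3 ^ (i 0 + c 0) * (V / 2 ^ (st m L)))) (fun a => 2 * ((i a : ℤ) + c a)))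
      = ∑ c ∈ Fintype.piFinset (fun _ : Fin (n + 1) => Cs (st m L) (sgw m L) (sB m L)),
          (∏ a, pc d (st m L) (sgw m L) (c a)) * cn F (V / 2 ^ (st m L)) (fun a => (i a : ℤ) + c a)
        - ∑ c ∈ Fintype.piFinset (fun _ : Fin (n + 1) => Cs (st m L) (sgw m L) (sB m L)),
          (∏ a, pc d (st m L) (sgw m L) (c a)) *
            Cw G (kn (3 ^ (i 0 + c 0) * (V / 2 ^ (st m L)))) (fun a => 2 * ((i a : ℤ) + c a)) := by
    rw [← sum_sub_distrib]
    apply sum_congr rfl; intro c _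
    ring
  rw [e]
  unfold en
  set X1 := ∑ c ∈ Fintype.piFinset (fun _ : Fin (n + 1) => Cs (st m L) (sgw m L) (sB m L)),
          (∏ a, pc d (st m L) (sgw m L) (c a)) * cn F (V / 2 ^ (st m L)) (fun a => (i a : ℤ) + c a)
  set X2 := ∑ c ∈ Fintype.piFinset (fun _ : Fin (n + 1) => Cs (st m L) (sgw m L) (sB m L)),
          (∏ a, pc d (st m L) (sgw m L) (c a)) *
            Cw G (kn (3 ^ (i 0 + c 0) * (V / 2 ^ (st m L)))) (fun a => 2 * ((i a : ℤ) + c a))
  have e2 : cn F V (fun a => (i a : ℤ)) - Cw G (kn (3 ^ i 0 * V)) (fun a => 2 * (i a : ℤ)) - (X1 - X2)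
      = (cn F V (fun a => (i a : ℤ)) - X1) - (Cw G (kn (3 ^ i 0 * V)) (fun a => 2 * (i a : ℤ)) - X2) := by ring
  rw [e2, add_div]
  exact (abs_sub _ _).trans (add_le_add h1 h2)

/-- the barrier of a pair under a stage -/
theorem Br_stage2 {CB : ℝ} {m0 : ℕ} (hW : Wk2 d CB m0) {m L : ℕ} (hm : m0 ≤ m)
    (hL1 : Nat.log 2 m ≤ L) (hL2 : L ≤ 3 * Nat.log 2 m) {V : ℝ} (hV : 2 ^ m ≤ V) (u : ℕ) (i : ℤ) :
    ∑ c ∈ Cs (st m L) (sgw m L) (sB m L), ∑ c' ∈ Cs (st m L) (sgw m L) (sB m L),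
        pc d (st m L) (sgw m L) c * pc d (st m L) (sgw m L) c' * Br u (3 ^ c / 2 ^ (st m L) * V) (i + c' - c)
      ≤ Br u V i + CB / (L : ℝ) ^ 4 := by
  have h2 := hW m L hm hL1 hL2
  have h1 := (abs_le.1 (h2 V hV (2 * i + u))).2
  have h3 := (abs_le.1 (h2 V hV (2 * i - u))).1
  have e : ∑ c ∈ Cs (st m L) (sgw m L) (sB m L), ∑ c' ∈ Cs (st m L) (sgw m L) (sB m L),
        pc d (st m L) (sgw m L) c * pc d (st m L) (sgw m L) c' * Br u (3 ^ c / 2 ^ (st m L) * V) (i + c' - c)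
      = (∑ c ∈ Cs (st m L) (sgw m L) (sB m L), ∑ c' ∈ Cs (st m L) (sgw m L) (sB m L),
        pc d (st m L) (sgw m L) c * pc d (st m L) (sgw m L) c' *
          UU (kk (3 ^ c / 2 ^ (st m L) * V)) (2 * i + u + 2 * ((c' : ℤ) - c))
        - ∑ c ∈ Cs (st m L) (sgw m L) (sB m L), ∑ c' ∈ Cs (st m L) (sgw m L) (sB m L),
        pc d (st m L) (sgw m L) c * pc d (st m L) (sgw m L) c' *
          UU (kk (3 ^ c / 2 ^ (st m L) * V)) (2 * i - u + 2 * ((c' : ℤ) - c))) / 2 := by
    rw [← sum_sub_distrib, sum_div]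
    apply sum_congr rfl; intro c _
    rw [← sum_sub_distrib, sum_div]
    apply sum_congr rfl; intro c' _
    unfold Br
    have e1 : 2 * (i + c' - c) + (u : ℤ) = 2 * i + u + 2 * ((c' : ℤ) - c) := by ring
    have e2 : 2 * (i + c' - c) - (u : ℤ) = 2 * i - u + 2 * ((c' : ℤ) - c) := by ring
    rw [e1, e2]
    ring
  rw [e]
  unfold Br
  linarith

/-- the barrier under a stage (in terms of the levels after the stage, not normalized) -/
theorem BrN_stage (hmono : ∀ k, Monotone (UU k)) {CB : ℝ} (hCB : 0 ≤ CB) {m0 : ℕ} (hW : Wk2 d CB m0) {m L : ℕ} (hm : m0 ≤ m)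
    (hL1 : Nat.log 2 m ≤ L) (hL2 : L ≤ 3 * Nat.log 2 m) (hg : 1 ≤ sgw m L) {V : ℝ} (hV : 2 ^ m ≤ V) (u : ℕ)
    (j : Fin (n + 1) → ℕ) :
    ∑ c ∈ Fintype.piFinset (fun _ : Fin (n + 1) => Cs (st m L) (sgw m L) (sB m L)),
        (∏ a, pc d (st m L) (sgw m L) (c a)) * (∑ a, ∑ b, if a = b then 0 else
          Br u (3 ^ c a / 2 ^ (st m L) * (3 ^ j a * V)) (((j b : ℤ) - j a) + c b - c a))
      ≤ BrN u V j + (n + 1) ^ 2 * CB / (L : ℝ) ^ 4 := by
  have hVp : 0 < V := lt_of_lt_of_le (by positivity) hV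
  have h1 : ∑ c ∈ Fintype.piFinset (fun _ : Fin (n + 1) => Cs (st m L) (sgw m L) (sB m L)),
        (∏ a, pc d (st m L) (sgw m L) (c a)) * (∑ a, ∑ b, if a = b then 0 else
          Br u (3 ^ c a / 2 ^ (st m L) * (3 ^ j a * V)) (((j b : ℤ) - j a) + c b - c a))
      = ∑ a : Fin (n + 1), ∑ b : Fin (n + 1), ∑ c ∈ Fintype.piFinset (fun _ : Fin (n + 1) => Cs (st m L) (sgw m L) (sB m L)),
        (∏ a, pc d (st m L) (sgw m L) (c a)) * (if a = b then 0 else
          Br u (3 ^ c a / 2 ^ (st m L) * (3 ^ j a * V)) (((j b : ℤ) - j a) + c b - c a)) := by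
    simp only [mul_sum]
    rw [sum_comm]
    apply sum_congr rfl; intro a _
    rw [sum_comm]
  rw [h1]
  have h2 : ∀ a b : Fin (n + 1), ∑ c ∈ Fintype.piFinset (fun _ : Fin (n + 1) => Cs (st m L) (sgw m L) (sB m L)),
        (∏ a, pc d (st m L) (sgw m L) (c a)) * (if a = b then 0 else
          Br u (3 ^ c a / 2 ^ (st m L) * (3 ^ j a * V)) (((j b : ℤ) - j a) + c b - c a))
      ≤ (if a = b then 0 else Br u (3 ^ j a * V) ((j b : ℤ) - j a)) + CB / (L : ℝ) ^ 4 := by
    intro a b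
    by_cases hab : a = b
    · simp only [if_pos hab, mul_zero, sum_const_zero, zero_add]
      positivity
    · simp only [if_neg hab]
      have h3 := marg2 (T := Cs (st m L) (sgw m L) (sB m L)) (p := pc d (st m L) (sgw m L)) (fun c => pc_nonneg c)
        (sum_pc_le hg) hab (h := fun x y => Br u (3 ^ x / 2 ^ (st m L) * (3 ^ j a * V)) (((j b : ℤ) - j a) + y - x))
        (fun x _ y _ => Br_nonneg hmono _ _ _)
      refine h3.trans ?_
      exact Br_stage2 hW hm hL1 hL2 (V := 3 ^ j a * V)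
        (hV.trans (le_mul_of_one_le_left hVp.le (one_le_pow₀ (by norm_num)))) u ((j b : ℤ) - j a)
  refine (sum_le_sum fun a _ => sum_le_sum fun b _ => h2 a b).trans (le_of_eq ?_)
  unfold BrN
  simp only [sum_add_distrib, sum_const, card_univ, Fintype.card_fin, nsmul_eq_mul]
  push_cast
  ring

/-- THE INDUCTION -/
theorem coreK (hd : d % 2 = 1) (hF : ∀ a x, |F a x| ≤ 1) (hCa : ∀ k x, |Cw G k x| ≤ 1)
    (hCt : ∀ (k : ℕ) (x : Fin (n + 1) → ℤ) (s : ℤ), Cw G k (fun a => x a + s) = Cw G k x)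
    (hmono : ∀ k, Monotone (UU k))
    {D CW CB : ℝ} (hD : 0 ≤ D) (hCW : 0 ≤ CW) (hCB : 0 ≤ CB) {m0 : ℕ} (hS : StgN F d D m0) (hW : WkN G d CW m0)
    (hB : Wk2 d CB m0)
    {m L h u : ℕ} {γ Λ : ℝ} {δ : Fin (n + 1) → ℝ} (hδ : δ 0 = 0) (hh : m0 ≤ h) (hh0 : 1 ≤ h)
    (hLL : ∀ m' : ℕ, h ≤ m' → m' ≤ m → Nat.log 2 m' ≤ L ∧ L ≤ 3 * Nat.log 2 m') (hL : 2 ≤ L)
    (hh1 : 256 * (L ^ 3 + 1) ^ 2 ≤ h / L ^ 2) (hh2 : L ^ 10 ≤ h / L ^ 2) (hΛ : 0 < Λ)
    (hγ : 0 ≤ γ)
    (hmer : ∀ m' : ℕ, h ≤ m' → m' ≤ m → ∀ V : ℝ, 2 ^ m' ≤ V → V < 2 ^ (m' + 1) → ∀ j : Fin (n + 1) → ℕ, (∃ a, j a = 0) →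
      (∀ a, (((j a : ℝ) - j 0) - δ a) ^ 2 ≤ Λ) → (∃ a b, a ≠ b ∧ ((j a : ℝ) - j b) ^ 4 * (L : ℝ) ^ 3 ≤ (m' : ℝ) ^ 2) →
      |en F G V j| ≤ γ)
    (hup : ∀ m' : ℕ, h ≤ m' → m' ≤ m → ∀ j : Fin (n + 1) → ℕ, (∃ a, j a = 0) →
      (∀ a, (((j a : ℝ) - j 0) - δ a) ^ 2 ≤ Λ) → ∀ a, (j a : ℝ) ≤ (m' : ℝ) ^ (0.9995 : ℝ))
    (hend : ∀ V : ℝ, 2 ^ h ≤ V → V < 2 ^ (2 * h) → ∀ j : Fin (n + 1) → ℕ, (∃ a, j a = 0) →
      (∀ a, (((j a : ℝ) - j 0) - δ a) ^ 2 ≤ Λ) → |en F G V j| ≤ γ ∨ 1 / 2 ≤ BrN u V j) :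
    ∀ m' : ℕ, h ≤ m' → m' ≤ m → ∀ V : ℝ, 2 ^ m' ≤ V → V < 2 ^ (m' + 1) → ∀ j : Fin (n + 1) → ℕ, (∃ a, j a = 0) →
      |en F G V j| ≤ 2 / Λ * ∑ a, (((j a : ℝ) - j 0) - δ a) ^ 2 + 66 * (n + 1) * m' / Λ + 4 * BrN u V j
        + 12 * (D + CW + 4 * ((n + 1) ^ 2 * CB)) / (L : ℝ) ^ 2 * (Real.log m' - Real.log h) + γ := by
  have hLr : (0 : ℝ) < L := by exact_mod_cast (show 0 < L by omega)
  have hhr : (0 : ℝ) < h := by exact_mod_cast hh0
  set E : ℝ := D + CW + 4 * ((n + 1) ^ 2 * CB) with hE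
  have hE0 : 0 ≤ E := by rw [hE]; positivity
  intro m'
  induction m' using Nat.strong_induction_on with
  | _ m' ih =>
    intro hm1 hm2 V hV1 hV2 j hj0
    have hV0 : (0 : ℝ) < V := lt_of_lt_of_le (by positivity) hV1
    have hm'r : (0 : ℝ) < m' := lt_of_lt_of_le hhr (by exact_mod_cast hm1)
    have hlog : 0 ≤ Real.log m' - Real.log h := by
      have := Real.log_le_log hhr (show (h : ℝ) ≤ m' by exact_mod_cast hm1)
      linarith
    have hlog2 : 0 ≤ 12 * E / (L : ℝ) ^ 2 * (Real.log m' - Real.log h) := mul_nonneg (by positivity) hlog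
    have hm'0 : 0 ≤ 66 * (n + 1) * (m' : ℝ) / Λ := by positivity
    have hsq : 0 ≤ 2 / Λ * ∑ a, (((j a : ℝ) - j 0) - δ a) ^ 2 :=
      mul_nonneg (by positivity) (sum_nonneg fun _ _ => sq_nonneg _)
    have hBr : 0 ≤ 4 * BrN u V j := mul_nonneg (by norm_num) (BrN_nonneg hmono u V j)
    have habs := en_abs hF hCa hV0 j
    by_cases hj : ∀ a, (((j a : ℝ) - j 0) - δ a) ^ 2 ≤ Λ
    · by_cases hmg : ∃ a b, a ≠ b ∧ ((j a : ℝ) - j b) ^ 4 * (L : ℝ) ^ 3 ≤ (m' : ℝ) ^ 2
      · have := hmer m' hm1 hm2 V hV1 hV2 j hj0 hj hmg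
        linarith
      · have hmg' : ∀ a b, a ≠ b → (m' : ℝ) ^ 2 ≤ ((j a : ℝ) - j b) ^ 4 * (L : ℝ) ^ 3 := by
          intro a b hab
          by_contra hcon
          push Not at hcon
          exact hmg ⟨a, b, hab, hcon.le⟩
        by_cases hm3 : m' < 2 * h
        · -- end
          rcases hend V (le_trans (pow_le_pow_right₀ (by norm_num) hm1) hV1)
            (lt_of_lt_of_le hV2 (pow_le_pow_right₀ (by norm_num) (by omega))) j hj0 hj with h1 | h1
          · linarith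
          · linarith
        · -- stage
          push Not at hm3
          obtain ⟨hl1, hl2⟩ := hLL m' hm1 hm2
          obtain ⟨hg1, ht1, ht2, hg2, hcs, hmt⟩ := stage_sizes hL hh1 hh2 hm1
          have hst := en_stage hS hW (hh.trans hm1) hl1 hl2 hV1 j (hup m' hm1 hm2 j hj0 hj) hmg'
          have hbst := BrN_stage hmono hCB hB (hh.trans hm1) hl1 hl2 hg1 hV1 u j
          set t := st m' L with ht
          set g := sgw m' L with hg
          set B := sB m' L with hBdef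
          set s := t / 10 with hs
          set X := 66 * (n + 1) * ((m' : ℝ) - s) / Λ + 12 * E / (L : ℝ) ^ 2 * (Real.log m' - s / m' - Real.log h) + γ with hX
          have hX0 : 0 ≤ X := by
            have h6 : (s : ℝ) ≤ m' := by exact_mod_cast (show s ≤ m' by omega)
            have h8 : 0 ≤ 66 * (n + 1) * ((m' : ℝ) - s) / Λ := div_nonneg (mul_nonneg (by positivity) (by linarith)) hΛ.le
            have h9 : 0 ≤ Real.log m' - s / m' - Real.log h := by
              have h10 : Real.log 2 ≤ Real.log m' - Real.log h := by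
                have h11 : (2 : ℝ) * h ≤ m' := by exact_mod_cast hm3
                have h12 := Real.log_le_log (by positivity) h11
                rw [Real.log_mul (by norm_num) hhr.ne'] at h12
                linarith
              have h13 : (s : ℝ) / m' ≤ 1 / 4 := by
                rw [div_le_div_iff₀ hm'r (by norm_num)]
                have : 4 * (s : ℝ) ≤ m' := by exact_mod_cast (show 4 * s ≤ m' by omega)
                linarith
              have := Real.log_two_gt_d9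
              linarith
            have h14 := mul_nonneg (show 0 ≤ 12 * E / (L : ℝ) ^ 2 by positivity) h9
            linarith
          -- bound for each term
          have hterm : ∀ c ∈ Fintype.piFinset (fun _ : Fin (n + 1) => Cs t g B),
              |cn F (V / 2 ^ t) (fun a => (j a : ℤ) + c a)
                - Cw G (kn (3 ^ (j 0 + c 0) * (V / 2 ^ t))) (fun a => 2 * ((j a : ℤ) + c a))|
              ≤ 2 / Λ * ∑ a, ((((j a : ℝ) - j 0) - δ a) + c a - c 0) ^ 2 + X
                + 4 * (∑ a, ∑ b, if a = b then 0 else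
                    Br u (3 ^ c a / 2 ^ t * (3 ^ j a * V)) (((j b : ℤ) - j a) + c b - c a)) := by
            intro c hc
            rw [Fintype.mem_piFinset] at hc
            obtain ⟨a0, ha0⟩ := hj0
            obtain ⟨σ, ⟨a1, ha1⟩, hσle⟩ : ∃ σ, (∃ a, σ = j a + c a) ∧ ∀ a, σ ≤ j a + c a := by
              obtain ⟨a1, _, ha1⟩ := exists_mem_eq_inf' (s := (univ : Finset (Fin (n + 1)))) univ_nonempty (fun a => j a + c a)
              exact ⟨_, ⟨a1, ha1⟩, fun a => inf'_le _ (mem_univ a)⟩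
            have hσc : σ ≤ c a0 := by have := hσle a0; omega
            have h8 : 8 * σ ≤ 5 * (t - s) := (Nat.mul_le_mul_left 8 hσc).trans (hcs _ (hc a0))
            obtain ⟨n', hn1, hn2, hn3, hn4⟩ := height_drop (s := s) hV1 hV2 (by omega) (by omega) h8
            have h1 := ih n' (by omega) (by omega) (by omega) _ hn1 hn2 (fun a => j a + c a - σ)
              ⟨a1, by omega⟩
            have ez : ∀ a, ((j a + c a - σ : ℕ) : ℤ) = (j a : ℤ) + c a - σ := fun a => by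
              have := hσle a
              push_cast [Nat.cast_sub this]
              ring
            have e0 : cn F (V / 2 ^ t) (fun a => (j a : ℤ) + c a)
                - Cw G (kn (3 ^ (j 0 + c 0) * (V / 2 ^ t))) (fun a => 2 * ((j a : ℤ) + c a))
                = en F G (3 ^ σ / 2 ^ t * V) (fun a => j a + c a - σ) := by
              unfold en
              have e01 : (3 : ℝ) ^ σ / 2 ^ t * V = 3 ^ σ * (V / 2 ^ t) := by ring
              have e02 : (3 : ℝ) ^ (j 0 + c 0) * (V / 2 ^ t) = 3 ^ (j 0 + c 0 - σ) * (3 ^ σ * (V / 2 ^ t)) := by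
                rw [← mul_assoc, ← pow_add]
                congr 2
                have := hσle 0
                omega
              have e03 : cn F (V / 2 ^ t) (fun a => (j a : ℤ) + c a)
                  = cn F (3 ^ σ * (V / 2 ^ t)) (fun a => ((j a + c a - σ : ℕ) : ℤ)) := by
                rw [← cn_shift F (by positivity)]
                congr 1
                funext a
                rw [ez]; ring
              have e04 : Cw G (kn (3 ^ (j 0 + c 0 - σ) * (3 ^ σ * (V / 2 ^ t)))) (fun a => 2 * ((j a : ℤ) + c a))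
                  = Cw G (kn (3 ^ (j 0 + c 0 - σ) * (3 ^ σ * (V / 2 ^ t)))) (fun a => 2 * ((j a + c a - σ : ℕ) : ℤ)) := by
                rw [← hCt _ (fun a => 2 * ((j a + c a - σ : ℕ) : ℤ)) (2 * σ)]
                congr 1
                funext a
                rw [ez]; ring
              rw [e01, e02, e03, e04]
            rw [e0]
            refine h1.trans ?_
            have hcast : ∀ a, ((j a + c a - σ : ℕ) : ℝ) = (j a : ℝ) + c a - σ := fun a => by
              rw [Nat.cast_sub (hσle a)]; push_cast; ring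
            have hn4' : (n' : ℝ) ≤ m' - s := by
              have : (n' : ℝ) + s ≤ m' := by exact_mod_cast hn4
              linarith
            have hn'0 : (0 : ℝ) < n' := by exact_mod_cast (show 0 < n' by omega)
            have e1 : ∑ a, ((((j a + c a - σ : ℕ) : ℝ) - ((j 0 + c 0 - σ : ℕ) : ℝ)) - δ a) ^ 2
                = ∑ a, ((((j a : ℝ) - j 0) - δ a) + c a - c 0) ^ 2 := by
              apply sum_congr rfl
              intro a _
              rw [hcast, hcast]; ring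
            rw [e1]
            have e2 : 66 * (n + 1) * (n' : ℝ) / Λ ≤ 66 * (n + 1) * ((m' : ℝ) - s) / Λ :=
              div_le_div_of_nonneg_right (mul_le_mul_of_nonneg_left hn4' (by positivity)) hΛ.le
            have e3 : Real.log n' ≤ Real.log m' - s / m' := by
              have h5 := Real.log_le_sub_one_of_pos (show (0 : ℝ) < n' / m' by positivity)
              rw [Real.log_div hn'0.ne' hm'r.ne'] at h5
              have h6 : (n' : ℝ) / m' ≤ 1 - s / m' := by
                rw [div_le_iff₀ hm'r, sub_mul, div_mul_cancel₀ _ hm'r.ne']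
                linarith
              linarith
            have e4 : 12 * E / (L : ℝ) ^ 2 * (Real.log n' - Real.log h)
                ≤ 12 * E / (L : ℝ) ^ 2 * (Real.log m' - s / m' - Real.log h) :=
              mul_le_mul_of_nonneg_left (by linarith) (by positivity)
            have e5 : BrN u (3 ^ σ / 2 ^ t * V) (fun a => j a + c a - σ)
                = ∑ a, ∑ b, if a = b then 0 else
                    Br u (3 ^ c a / 2 ^ t * (3 ^ j a * V)) (((j b : ℤ) - j a) + c b - c a) := by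
              unfold BrN
              apply sum_congr rfl; intro a _
              apply sum_congr rfl; intro b _
              by_cases hab : a = b
              · rw [if_pos hab, if_pos hab]
              · rw [if_neg hab, if_neg hab, ez, ez]
                have e51 : (3 : ℝ) ^ (j a + c a - σ) * (3 ^ σ / 2 ^ t * V) = 3 ^ c a / 2 ^ t * (3 ^ j a * V) := by
                  have e52 : (3 : ℝ) ^ (j a + c a - σ) * 3 ^ σ = 3 ^ c a * 3 ^ j a := by
                    rw [← pow_add, ← pow_add]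
                    congr 1
                    have := hσle a
                    omega
                  calc (3 : ℝ) ^ (j a + c a - σ) * (3 ^ σ / 2 ^ t * V) = ((3 : ℝ) ^ (j a + c a - σ) * 3 ^ σ) / 2 ^ t * V := by ring
                    _ = (3 ^ c a * 3 ^ j a) / 2 ^ t * V := by rw [e52]
                    _ = _ := by ring
                rw [e51]
                congr 1
                ring
            rw [e5, hX]
            linarith
          have hsum : |∑ c ∈ Fintype.piFinset (fun _ : Fin (n + 1) => Cs t g B), (∏ a, pc d t g (c a)) *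
              (cn F (V / 2 ^ t) (fun a => (j a : ℤ) + c a)
                - Cw G (kn (3 ^ (j 0 + c 0) * (V / 2 ^ t))) (fun a => 2 * ((j a : ℤ) + c a)))|
              ≤ 2 / Λ * (∑ a, (((j a : ℝ) - j 0) - δ a) ^ 2 + (n + 1) * (2 * t + 72 * (g : ℝ) ^ 2)) + X
                + 4 * (BrN u V j + (n + 1) ^ 2 * CB / (L : ℝ) ^ 4) := by
            have h1 : |∑ c ∈ Fintype.piFinset (fun _ : Fin (n + 1) => Cs t g B), (∏ a, pc d t g (c a)) *
                (cn F (V / 2 ^ t) (fun a => (j a : ℤ) + c a)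
                  - Cw G (kn (3 ^ (j 0 + c 0) * (V / 2 ^ t))) (fun a => 2 * ((j a : ℤ) + c a)))|
                ≤ ∑ c ∈ Fintype.piFinset (fun _ : Fin (n + 1) => Cs t g B), (∏ a, pc d t g (c a)) *
                  (2 / Λ * ∑ a, ((((j a : ℝ) - j 0) - δ a) + c a - c 0) ^ 2 + X
                    + 4 * (∑ a, ∑ b, if a = b then 0 else
                      Br u (3 ^ c a / 2 ^ t * (3 ^ j a * V)) (((j b : ℤ) - j a) + c b - c a))) := by
              refine (abs_sum_le_sum_abs _ _).trans (sum_le_sum fun c hc => ?_)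
              rw [abs_mul, abs_of_nonneg (pn_nonneg c)]
              exact mul_le_mul_of_nonneg_left (hterm c hc) (pn_nonneg c)
            refine h1.trans ?_
            have h2 : ∑ c ∈ Fintype.piFinset (fun _ : Fin (n + 1) => Cs t g B), (∏ a, pc d t g (c a)) *
                  (2 / Λ * ∑ a, ((((j a : ℝ) - j 0) - δ a) + c a - c 0) ^ 2 + X
                    + 4 * (∑ a, ∑ b, if a = b then 0 else
                      Br u (3 ^ c a / 2 ^ t * (3 ^ j a * V)) (((j b : ℤ) - j a) + c b - c a)))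
                = 2 / Λ * (∑ a, ∑ c ∈ Fintype.piFinset (fun _ : Fin (n + 1) => Cs t g B), (∏ e, pc d t g (c e)) *
                    ((((j a : ℝ) - j 0) - δ a) + c a - c 0) ^ 2)
                  + X * (∑ c ∈ Fintype.piFinset (fun _ : Fin (n + 1) => Cs t g B), ∏ a, pc d t g (c a))
                  + 4 * ∑ c ∈ Fintype.piFinset (fun _ : Fin (n + 1) => Cs t g B), (∏ a, pc d t g (c a)) *
                    (∑ a, ∑ b, if a = b then 0 else
                      Br u (3 ^ c a / 2 ^ t * (3 ^ j a * V)) (((j b : ℤ) - j a) + c b - c a)) := by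
              rw [sum_comm, mul_sum, mul_sum, mul_sum, ← sum_add_distrib, ← sum_add_distrib]
              apply sum_congr rfl; intro c _
              rw [← mul_sum]
              ring
            rw [h2]
            have h3 : ∑ a, ∑ c ∈ Fintype.piFinset (fun _ : Fin (n + 1) => Cs t g B), (∏ e, pc d t g (c e)) *
                    ((((j a : ℝ) - j 0) - δ a) + c a - c 0) ^ 2
                ≤ ∑ a : Fin (n + 1), ((((j a : ℝ) - j 0) - δ a) ^ 2 + (2 * t + 72 * (g : ℝ) ^ 2)) := by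
              apply sum_le_sum
              intro a _
              apply pn_pot (d := d) (t := t) (B := B) hd hg1 a
              intro ha
              rw [ha, hδ]; ring
            have h3' : ∑ a : Fin (n + 1), ((((j a : ℝ) - j 0) - δ a) ^ 2 + (2 * t + 72 * (g : ℝ) ^ 2))
                = ∑ a, (((j a : ℝ) - j 0) - δ a) ^ 2 + (n + 1) * (2 * t + 72 * (g : ℝ) ^ 2) := by
              rw [sum_add_distrib, sum_const, card_univ, Fintype.card_fin, nsmul_eq_mul]
              push_cast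
              ring
            rw [h3'] at h3
            have h4 := mul_le_mul_of_nonneg_left (pn_one (d := d) (t := t) (B := B) hg1 (n + 1)) hX0
            have h5 := mul_le_mul_of_nonneg_left h3 (show 0 ≤ 2 / Λ by positivity)
            linarith
          have h1 := abs_sub_abs_le_abs_sub (en F G V j) (∑ c ∈ Fintype.piFinset (fun _ : Fin (n + 1) => Cs t g B),
            (∏ a, pc d t g (c a)) * (cn F (V / 2 ^ t) (fun a => (j a : ℤ) + c a)
                - Cw G (kn (3 ^ (j 0 + c 0) * (V / 2 ^ t))) (fun a => 2 * ((j a : ℤ) + c a))))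
          have h2 : |en F G V j| ≤ (D + CW) / (L : ℝ) ^ 4
              + (2 / Λ * (∑ a, (((j a : ℝ) - j 0) - δ a) ^ 2 + (n + 1) * (2 * t + 72 * (g : ℝ) ^ 2)) + X
                + 4 * (BrN u V j + (n + 1) ^ 2 * CB / (L : ℝ) ^ 4)) := by
            linarith
          refine h2.trans ?_
          -- numeric
          have e1 : (72 : ℝ) * (g : ℝ) ^ 2 ≤ t := by exact_mod_cast hg2
          have e2 : (t : ℝ) ≤ 10 * s + 9 := by exact_mod_cast (show t ≤ 10 * s + 9 by omega)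
          have e3 : (100 : ℝ) ≤ s := by exact_mod_cast (show 100 ≤ s by omega)
          have e4 : 2 / Λ * ((n + 1) * (2 * t + 72 * (g : ℝ) ^ 2)) ≤ 66 * (n + 1) * s / Λ := by
            rw [div_mul_eq_mul_div]
            apply div_le_div_of_nonneg_right _ hΛ.le
            have e41 : 2 * t + 72 * (g : ℝ) ^ 2 ≤ 33 * s := by linarith
            have := mul_le_mul_of_nonneg_left e41 (show (0 : ℝ) ≤ 2 * (n + 1) by positivity)
            linarith
          have e5 : E / (L : ℝ) ^ 4 ≤ 12 * E / (L : ℝ) ^ 2 * (s / m') := by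
            have h3 : 1 / (12 * (L : ℝ) ^ 2) ≤ s / m' := by
              rw [div_le_div_iff₀ (by positivity) hm'r]
              linarith
            have h4 := mul_le_mul_of_nonneg_left h3 (show 0 ≤ 12 * E / (L : ℝ) ^ 2 by positivity)
            refine le_trans (le_of_eq ?_) h4
            field_simp
          have e6 : E / (L : ℝ) ^ 4 = (D + CW) / (L : ℝ) ^ 4 + 4 * ((n + 1) ^ 2 * CB / (L : ℝ) ^ 4) := by
            rw [hE]; ring
          rw [hX]
          have e7 : 66 * (n + 1) * ((m' : ℝ) - s) / Λ = 66 * (n + 1) * m' / Λ - 66 * (n + 1) * s / Λ := by ring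
          have e8 : 12 * E / (L : ℝ) ^ 2 * (Real.log m' - s / m' - Real.log h)
              = 12 * E / (L : ℝ) ^ 2 * (Real.log m' - Real.log h) - 12 * E / (L : ℝ) ^ 2 * (s / m') := by ring
          have e9 : 2 / Λ * (∑ a, (((j a : ℝ) - j 0) - δ a) ^ 2 + (n + 1) * (2 * t + 72 * (g : ℝ) ^ 2))
              = 2 / Λ * ∑ a, (((j a : ℝ) - j 0) - δ a) ^ 2 + 2 / Λ * ((n + 1) * (2 * t + 72 * (g : ℝ) ^ 2)) := by ring
          rw [e7, e8, e9]
          linarith
    · -- far level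
      push Not at hj
      obtain ⟨a, ha⟩ := hj
      have h2 : 2 ≤ 2 / Λ * ∑ a, (((j a : ℝ) - j 0) - δ a) ^ 2 := by
        have h4 : (((j a : ℝ) - j 0) - δ a) ^ 2 ≤ ∑ a, (((j a : ℝ) - j 0) - δ a) ^ 2 :=
          single_le_sum (f := fun a => (((j a : ℝ) - j 0) - δ a) ^ 2) (fun _ _ => sq_nonneg _) (mem_univ a)
        have h5 : 2 = 2 / Λ * Λ := by field_simp
        calc (2 : ℝ) = 2 / Λ * Λ := h5
          _ ≤ _ := mul_le_mul_of_nonneg_left (ha.le.trans h4) (by positivity)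
      linarith

end Pool.Agent.KS6_24.ST
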