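import Mathlib
import Pool.Agent.KS6_24.ST.PL6a
import Pool.Agent.KS6_24.ST.Cor

/-! PL6: the pair law in terms of the simple random walk. -/

set_option autoImplicit false

namespace Pool.Agent.KS6_24.ST

open Pool.Agent.H499R2.CO Pool.Agent.Y965.SI Finset Pool.Agent.KS6_24.LN Filter

theorem gm_gt : 0.14 < gm := by
  unfold gm
  have h2 := Real.log_two_gt_d9
  have h3 := log3_lt
  linarith

theorem UU_sum {C : ℝ} (h : ∀ (k : ℕ) (j : ℤ), UU k (j + 1) - UU k j ≤ C / √ ((k : ℝ) + 1)) (k : ℕ) (j : ℤ) :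
    ∀ n : ℕ, UU k (j + n) - UU k j ≤ n * (C / √ ((k : ℝ) + 1)) := by
  intro n
  induction n with
  | zero => simp
  | succ n ih =>
    have h1 := h k (j + n)
    have e : j + ((n + 1 : ℕ) : ℤ) = j + n + 1 := by push_cast; ring
    rw [e]
    push_cast
    linarith

theorem kk_le {V : ℝ} (hV : 1 ≤ V) {x : ℝ} (h : Real.log V ≤ x) : (kk V : ℝ) ≤ 2 * x / 0.14 := by
  unfold kk
  have h0 : 0 ≤ Real.log V := Real.log_nonneg hV
  have hg := gm_gt
  have hg0 : 0 < gm := by linarith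
  refine (Nat.floor_le (by positivity)).trans ?_
  rw [div_le_div_iff₀ hg0 (by norm_num)]
  nlinarith

theorem kk_ge {V : ℝ} (hV : 1 ≤ V) {x : ℝ} (h : x ≤ Real.log V) (hx : 0 ≤ x) : 13 * x ≤ (kk V : ℝ) + 1 := by
  unfold kk
  have hg := gm_bounds
  have h1 : 2 * Real.log V / gm < (⌊2 * Real.log V / gm⌋₊ : ℝ) + 1 := Nat.lt_floor_add_one _
  refine le_trans ?_ h1.le
  rw [le_div_iff₀ hg.1]
  nlinarith

theorem far {f : ℤ → ℝ} (u2 : ∀ k j, |UU k j| ≤ 1)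
    (u6 : ∀ (k : ℕ) (j : ℤ), 1 ≤ j → 1 - 2 * k / (j : ℝ) ^ 2 ≤ UU k j) {q ε A A2 VC M : ℝ} (hε : 0 < ε) (hM0 : 0 < M)
    (hqM : |q| ≤ M) (hVC : 1 ≤ VC) (hA20 : 0 < A2) (hAA : A ≤ A2) (hA2sq : 49 * M / ε ≤ A2 ^ 2)
    (hC : ∀ V : ℝ, VC ≤ V → ∀ i : ℕ, A * √ (Real.log V) ≤ i → (i : ℝ) ≤ Real.log V ^ (0.5001 : ℝ) → |cor f V i| ≤ ε / 8)
    {m' : ℕ} (hm' : 101 ≤ m') {V' : ℝ} (hV1 : 2 ^ m' ≤ V') (hV2 : V' < 2 ^ (m' + 1)) (e2 : Real.log VC ≤ Real.log V')
    (j : ℕ) (hj1 : A2 * √ (m' : ℝ) ≤ j) (hj2 : (j : ℝ) ≤ Real.log V' ^ (0.5001 : ℝ)) : |ee f q V' j| ≤ ε / 4 := by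
  have l2 := Real.log_two_gt_d9
  have l2' := Real.log_two_lt_d9
  have hm'r : (101 : ℝ) ≤ m' := by exact_mod_cast hm'
  have hV'1 : 1 ≤ V' := le_trans (one_le_pow₀ (by norm_num)) hV1
  have hV'0 : 0 < V' := by linarith
  have e1 : Real.log V' ≤ 0.701 * m' := by
    have := Real.log_le_log hV'0 hV2.le
    rw [Real.log_pow] at this
    push_cast at this
    nlinarith
  have e1' : Real.log V' ≤ m' := by linarith
  have e3 : VC ≤ V' := by
    rwa [Real.log_le_log_iff (by linarith) hV'0] at e2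
  have hcor := hC V' e3 j (by
    have h5 : √ (Real.log V') ≤ √ (m' : ℝ) := Real.sqrt_le_sqrt e1'
    exact (mul_le_mul hAA h5 (Real.sqrt_nonneg _) hA20.le).trans hj1) hj2
  have hsm' : 0 < √ (m' : ℝ) := Real.sqrt_pos.2 (by linarith)
  have hj0 : (0 : ℝ) < j := lt_of_lt_of_le (by positivity) hj1
  have hjn : 1 ≤ j := by exact_mod_cast (Nat.cast_pos.1 hj0)
  have hu := u6 (kk V') (2 * (j : ℤ)) (by omega)
  have hu1 := (abs_le.1 (u2 (kk V') (2 * (j : ℤ)))).2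
  have hkk := kk_le hV'1 e1
  have e4 : 2 * (kk V' : ℝ) / (((2 * (j : ℤ) : ℤ)) : ℝ) ^ 2 ≤ ε / (8 * M) := by
    push_cast
    rw [div_le_div_iff₀ (by positivity) (by positivity)]
    have h7 : (A2 * √ (m' : ℝ)) ^ 2 ≤ (j : ℝ) ^ 2 := pow_le_pow_left₀ (by positivity) hj1 2
    rw [mul_pow, Real.sq_sqrt (by linarith)] at h7
    have h8 : 49 * M / ε * m' ≤ (j : ℝ) ^ 2 := le_trans (mul_le_mul_of_nonneg_right hA2sq (by linarith)) h7
    have h9 : 49 * M * m' ≤ ε * (j : ℝ) ^ 2 := by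
      have := mul_le_mul_of_nonneg_left h8 hε.le
      have e : ε * (49 * M / ε * m') = 49 * M * m' := by field_simp
      linarith
    have h10 : (kk V' : ℝ) ≤ 10.1 * m' := by
      have : 2 * (0.701 * (m' : ℝ)) / 0.14 ≤ 10.1 * m' := by
        rw [div_le_iff₀ (by norm_num)]; nlinarith
      linarith
    have h11 : 2 * (kk V' : ℝ) * (8 * M) ≤ 2 * (10.1 * m') * (8 * M) :=
      mul_le_mul_of_nonneg_right (by linarith) (by positivity)
    have h12 : 2 * (10.1 * (m' : ℝ)) * (8 * M) ≤ 4 * (49 * M * m') := by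
      nlinarith [mul_pos hM0 (show (0 : ℝ) < m' by linarith)]
    calc 2 * (kk V' : ℝ) * (8 * M) ≤ 4 * (49 * M * m') := h11.trans h12
      _ ≤ 4 * (ε * (j : ℝ) ^ 2) := by linarith
      _ = ε * (2 * (j : ℝ)) ^ 2 := by ring
  have e5 : |q * (1 - UU (kk V') (2 * (j : ℤ)))| ≤ ε / 8 := by
    rw [abs_mul]
    have h13 : |1 - UU (kk V') (2 * (j : ℤ))| ≤ ε / (8 * M) := by
      rw [abs_le]; constructor
      · have : 0 ≤ ε / (8 * M) := by positivity
        linarith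
      · linarith
    calc |q| * |1 - UU (kk V') (2 * (j : ℤ))| ≤ M * (ε / (8 * M)) :=
          mul_le_mul hqM h13 (abs_nonneg _) hM0.le
      _ = ε / 8 := by field_simp
  have h14 := abs_sub (cor f V' j) (q * (1 - UU (kk V') (2 * (j : ℤ))))
  unfold ee
  linarith

theorem bar_end (u1 : ∀ k j, UU k (-j) = - UU k j)
    (u6 : ∀ (k : ℕ) (j : ℤ), 1 ≤ j → 1 - 2 * k / (j : ℝ) ^ 2 ≤ UU k j) {h a j : ℕ} {A2 V' : ℝ} (hh : 1 ≤ h)
    (hA20 : 0 ≤ A2) (hV'1 : 1 ≤ V') (hV2 : V' < 2 ^ (2 * h)) (ha1 : (3 * A2 + 9) * √ (h : ℝ) ≤ a)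
    (h2j : 2 * (j : ℝ) ≤ 3 * A2 * √ (h : ℝ)) : 1 / 2 ≤ Br a V' j := by
  have l2 := Real.log_two_gt_d9
  have l2' := Real.log_two_lt_d9
  have hhr : (1 : ℝ) ≤ h := by exact_mod_cast hh
  have hsh1 : 1 ≤ √ (h : ℝ) := by rw [Real.one_le_sqrt]; exact hhr
  have hkk : (kk V' : ℝ) ≤ 20 * h := by
    have e1 : Real.log V' ≤ 1.3863 * h := by
      have := Real.log_le_log (by linarith) hV2.le
      rw [Real.log_pow] at this
      push_cast at this
      nlinarith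
    have := kk_le hV'1 e1
    have h3 : 2 * (1.3863 * (h : ℝ)) / 0.14 ≤ 20 * h := by
      rw [div_le_iff₀ (by norm_num)]; nlinarith
    linarith
  have hlow : ∀ x : ℤ, 9 * √ (h : ℝ) ≤ (x : ℝ) → 1 / 2 ≤ UU (kk V') x := by
    intro x hx
    have hx0 : (1 : ℝ) ≤ x := by linarith
    have hx1 : 1 ≤ x := by exact_mod_cast hx0
    have h3 := u6 (kk V') x hx1
    have h4 : 2 * (kk V' : ℝ) / (x : ℝ) ^ 2 ≤ 1 / 2 := by
      rw [div_le_div_iff₀ (by positivity) (by norm_num)]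
      have h5 : (9 * √ (h : ℝ)) ^ 2 ≤ (x : ℝ) ^ 2 := pow_le_pow_left₀ (by positivity) hx 2
      rw [mul_pow, Real.sq_sqrt (by linarith)] at h5
      linarith
    linarith
  have hA2h : 0 ≤ A2 * √ (h : ℝ) := by positivity
  have h3 := hlow (2 * (j : ℤ) + a) (by
    push_cast
    have : (0 : ℝ) ≤ j := Nat.cast_nonneg _
    linarith)
  have h4 := hlow ((a : ℤ) - 2 * j) (by
    push_cast
    linarith)
  have h5 : UU (kk V') (2 * (j : ℤ) - a) = - UU (kk V') ((a : ℤ) - 2 * j) := by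
    rw [← u1]; congr 1; ring
  unfold Br
  rw [h5]
  linarith

theorem bar_top {CU : ℝ} (hCU : 0 < CU) (u4 : ∀ (k : ℕ) (j : ℤ), UU k (j + 1) - UU k j ≤ CU / √ ((k : ℝ) + 1))
    {m h a : ℕ} {A2 κ ε M V : ℝ} (hmn : 1 ≤ m) (hA20 : 0 < A2) (hε : 0 < ε) (hM0 : 0 < M)
    (hκ : κ = ε / (16 * M * (3 * A2 + 10) * (CU + 1)))
    (hmV1 : 2 ^ m ≤ V) (hhκ : (h : ℝ) ≤ κ ^ 2 * m) (ha2 : (a : ℝ) ≤ (3 * A2 + 10) * √ (h : ℝ)) (i : ℤ) :
    2 * M * Br a V i ≤ ε / 8 := by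
  have l2 := Real.log_two_gt_d9
  have hm00 : (0 : ℝ) < m := by exact_mod_cast (show 0 < m by omega)
  have hκ0 : 0 < κ := by rw [hκ]; positivity
  have h1 : UU (kk V) (2 * i + a) - UU (kk V) (2 * i - a) ≤ ((2 * a : ℕ) : ℝ) * (CU / √ ((kk V : ℝ) + 1)) := by
    have := UU_sum u4 (kk V) (2 * i - a) (2 * a)
    have e : 2 * i - a + ((2 * a : ℕ) : ℤ) = 2 * i + a := by push_cast; ring
    rw [e] at this
    exact this
  have hV1 : 1 ≤ V := le_trans (one_le_pow₀ (by norm_num)) hmV1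
  have h2 : 13 * (0.69 * (m : ℝ)) ≤ (kk V : ℝ) + 1 := by
    apply kk_ge hV1 _ (by positivity)
    have := Real.log_le_log (by positivity) hmV1
    rw [Real.log_pow] at this
    nlinarith
  have hsm0 : 0 < √ (m : ℝ) := Real.sqrt_pos.2 hm00
  have h3 : √ (m : ℝ) ≤ √ ((kk V : ℝ) + 1) := Real.sqrt_le_sqrt (by linarith)
  have h4 : CU / √ ((kk V : ℝ) + 1) ≤ CU / √ (m : ℝ) := div_le_div_of_nonneg_left hCU.le hsm0 h3
  have h5 : √ (h : ℝ) ≤ κ * √ (m : ℝ) := by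
    rw [Real.sqrt_le_left (by positivity), mul_pow, Real.sq_sqrt hm00.le]
    exact hhκ
  have h6 : (a : ℝ) * (CU / √ (m : ℝ)) ≤ (3 * A2 + 10) * κ * CU := by
    have h7 : (a : ℝ) ≤ (3 * A2 + 10) * (κ * √ (m : ℝ)) :=
      ha2.trans (mul_le_mul_of_nonneg_left h5 (by positivity))
    calc (a : ℝ) * (CU / √ (m : ℝ)) ≤ (3 * A2 + 10) * (κ * √ (m : ℝ)) * (CU / √ (m : ℝ)) :=
          mul_le_mul_of_nonneg_right h7 (by positivity)
      _ = (3 * A2 + 10) * κ * CU := by field_simp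
  have h8 : (3 * A2 + 10) * κ * CU ≤ ε / (16 * M) := by
    rw [hκ]
    calc (3 * A2 + 10) * (ε / (16 * M * (3 * A2 + 10) * (CU + 1))) * CU
        ≤ (3 * A2 + 10) * (ε / (16 * M * (3 * A2 + 10) * (CU + 1))) * (CU + 1) :=
          mul_le_mul_of_nonneg_left (by linarith) (by positivity)
      _ = ε / (16 * M) := by field_simp
  have h9 : Br a V i ≤ ε / (16 * M) := by
    unfold Br
    have h10 : ((2 * a : ℕ) : ℝ) * (CU / √ ((kk V : ℝ) + 1)) ≤ 2 * (a * (CU / √ (m : ℝ))) := by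
      push_cast
      have := mul_le_mul_of_nonneg_left h4 (show (0 : ℝ) ≤ 2 * a by positivity)
      linarith
    linarith
  calc 2 * M * Br a V i ≤ 2 * M * (ε / (16 * M)) := mul_le_mul_of_nonneg_left h9 (by positivity)
    _ = ε / 8 := by field_simp; norm_num

theorem log_window {m m' L : ℕ} (hL : L = Nat.log 2 m) (hm : 1 ≤ m) (h1 : √ (m : ℝ) ≤ m') (h2 : m' ≤ m) (h3 : 4 ≤ m') :
    Nat.log 2 m' ≤ L ∧ L ≤ 3 * Nat.log 2 m' := by
  have e1 : Nat.log 2 m' ≤ L := by rw [hL]; exact Nat.log_mono_right h2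
  refine ⟨e1, ?_⟩
  have e2 : m ≤ m' ^ 2 := by
    have h3 : (m : ℝ) ≤ (m' : ℝ) ^ 2 := by
      calc (m : ℝ) = √ (m : ℝ) ^ 2 := (Real.sq_sqrt (Nat.cast_nonneg _)).symm
        _ ≤ (m' : ℝ) ^ 2 := pow_le_pow_left₀ (by positivity) h1 2
    exact_mod_cast h3
  have e3 : m' < 2 ^ (Nat.log 2 m' + 1) := Nat.lt_pow_succ_log_self (by norm_num) m'
  have e4 : 2 ^ L ≤ m := by rw [hL]; exact Nat.pow_log_le_self 2 (by omega)
  have e5 : 2 ^ L < 2 ^ (2 * (Nat.log 2 m' + 1)) := by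
    calc 2 ^ L ≤ m := e4
      _ ≤ m' ^ 2 := e2
      _ < (2 ^ (Nat.log 2 m' + 1)) ^ 2 := Nat.pow_lt_pow_left e3 (by norm_num)
      _ = 2 ^ (2 * (Nat.log 2 m' + 1)) := by rw [← pow_mul, mul_comm]
  have e6 := (Nat.pow_lt_pow_iff_right (show 1 < 2 by norm_num)).1 e5
  have e7 : 2 ≤ Nat.log 2 m' := Nat.le_log_of_pow_le (by norm_num) (by omega)
  omega

theorem pl6 (d : ℤ) (hd : d = 1 ∨ d = -1) (hU : S_U) (hS : S_STAGE2 d) (hW : S_WK d) (hT : S_TL d) (hB : S_BD d)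
    (hC : S_COR d) : S_PL d := by
  intro f hf hmz q hq ε hε
  have hd2 : d % 2 = 1 := by rcases hd with rfl | rfl <;> decide
  obtain ⟨CU, hCU, u1, u2, u3, u4, u5, u6, u7⟩ := hU
  obtain ⟨D, mS, hD, _, hS⟩ := hS
  obtain ⟨CW, mW, hCW, hW⟩ := hW
  obtain ⟨CT, mT, hCT, hT⟩ := hT
  have hfb := hf.1
  set M : ℝ := 1 + 2 * |q| with hM
  have hM1 : 1 ≤ M := by rw [hM]; have := abs_nonneg q; linarith
  have hM0 : 0 < M := by linarith
  have hqM : |q| ≤ M := by rw [hM]; have := abs_nonneg q; linarith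
  obtain ⟨mB, hB⟩ := hB f hf q hq (ε / (4 * M)) (by positivity)
  obtain ⟨A, VC, hA, hVC, hC⟩ := hC f hf hmz (ε / 8) (by positivity)
  set A2 : ℝ := A + 7 * √ (M / ε) with hA2
  have hA20 : 0 < A2 := by positivity
  have hAA : A ≤ A2 := by
    rw [hA2]; have : 0 ≤ 7 * √ (M / ε) := by positivity
    linarith
  have hA2sq : 49 * M / ε ≤ A2 ^ 2 := by
    have h1 : (7 * √ (M / ε)) ^ 2 = 49 * M / ε := by rw [mul_pow, Real.sq_sqrt (by positivity)]; ring
    rw [← h1]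
    apply pow_le_pow_left₀ (by positivity)
    rw [hA2]; linarith
  set κ : ℝ := ε / (16 * M * (3 * A2 + 10) * (CU + 1)) with hκ
  have hκ0 : 0 < κ := by positivity
  set η : ℝ := min (1 / 4) (κ ^ 2 / 2) with hη
  have hη0 : 0 < η := by rw [hη]; apply lt_min <;> positivity
  have hη4 : η ≤ 1 / 4 := min_le_left _ _
  have hηκ : 2 * η ≤ κ ^ 2 := by have := min_le_right (1 / 4) (κ ^ 2 / 2); rw [← hη] at this; linarith
  set Λc : ℝ := 528 * M / ε with hΛc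
  have hΛc0 : 0 < Λc := by positivity
  set E : ℝ := D + 2 * |q| * CW + 2 * (1 + 2 * |q|) * CW + (1 + 2 * |q|) * CT with hE
  have hE0 : 0 ≤ E := by rw [hE]; positivity
  set m0 := max (max mS mW) mT with hm0
  -- eventual facts
  have F1 : ∀ᶠ m : ℕ in atTop, ((max (max m0 mB) 101 : ℕ) / η) * (m : ℝ) ^ (0 : ℝ) ≤ (m : ℝ) ^ (0.5 : ℝ) := ev1 _ (by norm_num)
  have F2 := ev3
  have F3 := ev4 (max 2 (12 * E * (-Real.log η) * 16 / ε))
  have F4 : ∀ᶠ m : ℕ in atTop, ((A2 + √ Λc) / η) * (m : ℝ) ^ (0.5 : ℝ) ≤ (m : ℝ) ^ (0.9995 : ℝ) := ev1 _ (by norm_num)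
  have F5 : ∀ᶠ m : ℕ in atTop, ((A2 + √ Λc) / (0.69 * η)) * (m : ℝ) ^ (0.5 : ℝ) ≤ (m : ℝ) ^ (0.5001 : ℝ) := ev1 _ (by norm_num)
  have F6 : ∀ᶠ m : ℕ in atTop, (Real.log VC / (0.69 * η)) * (m : ℝ) ^ (0 : ℝ) ≤ (m : ℝ) ^ (1 : ℝ) := ev1 _ (by norm_num)
  have F7 : ∀ᶠ m : ℕ in atTop, (1 / η) * (m : ℝ) ^ (0.5 : ℝ) ≤ (m : ℝ) ^ (1 : ℝ) := ev1 _ (by norm_num)
  obtain ⟨m1, hm1⟩ := eventually_atTop.1 ((F1.and (F2.and (F3.and F4))).and (F5.and (F6.and F7)))
  refine ⟨2 ^ (max m1 1), one_le_pow₀ (by norm_num), ?_⟩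
  intro V hV i hi
  obtain ⟨m, hmV1, hmV2⟩ := height (show 1 ≤ V from le_trans (one_le_pow₀ (by norm_num)) hV)
  have hmm : max m1 1 ≤ m := by
    have : (2 : ℝ) ^ (max m1 1) < 2 ^ (m + 1) := lt_of_le_of_lt hV hmV2
    have := (pow_lt_pow_iff_right₀ (show (1 : ℝ) < 2 by norm_num)).1 this
    omega
  obtain ⟨⟨G1, G2, G3, G4⟩, G5, G6, G7⟩ := hm1 m ((le_max_left _ _).trans hmm)
  have hmn : 1 ≤ m := (le_max_right _ _).trans hmm
  have hm : (1 : ℝ) ≤ m := by exact_mod_cast hmn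
  have hm00 : (0 : ℝ) < m := by linarith
  have hV0 : 0 < V := lt_of_lt_of_le (by positivity) hmV1
  rw [Real.rpow_zero, mul_one] at G1 G6
  rw [Real.rpow_one] at G6 G7
  have l2 := Real.log_two_gt_d9
  have l2' := Real.log_two_lt_d9
  have hsm : (m : ℝ) ^ (0.5 : ℝ) = √ m := by rw [Real.sqrt_eq_rpow]; norm_num
  rw [hsm] at G1 G4 G5 G7
  set L := Nat.log 2 m with hL
  set h := ⌈η * m⌉₊ with hh
  have hh1 : η * m ≤ h := Nat.le_ceil _
  have hηm : √ (m : ℝ) ≤ η * m := by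
    have := mul_le_mul_of_nonneg_left G7 hη0.le
    rw [← mul_assoc, mul_one_div_cancel hη0.ne', one_mul] at this
    exact this
  have hsm1 : 1 ≤ √ (m : ℝ) := by rw [Real.one_le_sqrt]; exact hm
  have hh2 : (h : ℝ) ≤ 2 * (η * m) := by
    have h1 : (h : ℝ) < η * m + 1 := Nat.ceil_lt_add_one (by positivity)
    linarith
  have hbig : ((max (max m0 mB) 101 : ℕ) : ℝ) ≤ h := by
    rw [div_le_iff₀ hη0] at G1
    refine G1.trans (le_trans ?_ (hηm.trans hh1))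
    have : √ (m : ℝ) * η ≤ √ (m : ℝ) * 1 := mul_le_mul_of_nonneg_left (by linarith) (by positivity)
    linarith
  have hbign : max (max m0 mB) 101 ≤ h := by exact_mod_cast hbig
  have hm0h : m0 ≤ h := ((le_max_left _ _).trans (le_max_left _ _)).trans hbign
  have hmBh : mB ≤ h := ((le_max_right _ _).trans (le_max_left _ _)).trans hbign
  have h101 : 101 ≤ h := (le_max_right _ _).trans hbign
  have hmSh : mS ≤ h := ((le_max_left _ _).trans (le_max_left _ _)).trans hm0h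
  have hmWh : mW ≤ h := ((le_max_right _ _).trans (le_max_left _ _)).trans hm0h
  have hmTh : mT ≤ h := (le_max_right _ _).trans hm0h
  have hhr : (0 : ℝ) < h := by exact_mod_cast (show 0 < h by omega)
  have hhm : h ≤ m := by
    have : (h : ℝ) ≤ m := by
      have : 2 * (η * m) ≤ 2 * (1 / 4 * m) := by
        have := mul_le_mul_of_nonneg_right hη4 hm00.le
        linarith
      linarith
    exact_mod_cast this
  have hL2 : 2 ≤ L := by
    have := (le_max_left _ _).trans G3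
    exact_mod_cast this
  have hLr : (0 : ℝ) < L := by exact_mod_cast (show 0 < L by omega)
  have hLh : L ^ 20 ≤ h := by
    rw [hsm] at G2
    have : ((L : ℕ) : ℝ) ^ 20 ≤ h := G2.trans (hηm.trans hh1)
    exact_mod_cast this
  have hLdiv : L ^ 18 ≤ h / L ^ 2 := by
    rw [Nat.le_div_iff_mul_le (by positivity)]
    calc L ^ 18 * L ^ 2 = L ^ 20 := by ring
      _ ≤ h := hLh
  have hL10 : 1024 ≤ L ^ 10 := by
    calc 1024 = 2 ^ 10 := by norm_num
      _ ≤ L ^ 10 := Nat.pow_le_pow_left hL2 10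
  have hL31 : L ^ 3 + 1 ≤ 2 * L ^ 3 := by
    have : 1 ≤ L ^ 3 := Nat.one_le_pow _ _ (by omega)
    omega
  have hc1 : 256 * (L ^ 3 + 1) ^ 2 ≤ h / L ^ 2 := by
    refine le_trans ?_ hLdiv
    calc 256 * (L ^ 3 + 1) ^ 2 ≤ 256 * (2 * L ^ 3) ^ 2 := Nat.mul_le_mul_left _ (Nat.pow_le_pow_left hL31 2)
      _ = 1024 * L ^ 6 := by ring
      _ ≤ L ^ 10 * L ^ 6 := Nat.mul_le_mul_right _ hL10
      _ = L ^ 16 := by ring
      _ ≤ L ^ 18 := Nat.pow_le_pow_right (by omega) (by norm_num)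
  have hc2 : L ^ 10 ≤ h / L ^ 2 := le_trans (Nat.pow_le_pow_right (by omega) (by norm_num)) hLdiv
  -- far levels
  have hfar : ∀ m' : ℕ, h ≤ m' → ∀ V' : ℝ, 2 ^ m' ≤ V' → V' < 2 ^ (m' + 1) → ∀ j : ℕ, A2 * √ (m' : ℝ) ≤ j →
      (j : ℝ) ≤ Real.log V' ^ (0.5001 : ℝ) → |ee f q V' j| ≤ ε / 4 := by
    intro m' hm' V' hV1 hV2 j hj1 hj2
    refine far u2 u6 hε hM0 hqM hVC hA20 hAA hA2sq hC (h101.trans hm') hV1 hV2 ?_ j hj1 hj2
    have h3 : 0.69 * (m' : ℝ) ≤ Real.log V' := by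
      have := Real.log_le_log (by positivity) hV1
      rw [Real.log_pow] at this
      nlinarith
    rw [div_le_iff₀ (by positivity)] at G6
    have h4 : (h : ℝ) ≤ m' := by exact_mod_cast hm'
    linarith
  by_cases hnear : A2 * √ (m : ℝ) ≤ i
  · have := hfar m hhm V hmV1 hmV2 i hnear hi
    unfold ee at this
    linarith
  push Not at hnear
  -- the barrier
  set a := ⌈(3 * A2 + 9) * √ (h : ℝ)⌉₊ with ha
  have ha1 : (3 * A2 + 9) * √ (h : ℝ) ≤ a := Nat.le_ceil _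
  have hsh1 : 1 ≤ √ (h : ℝ) := by rw [Real.one_le_sqrt]; exact_mod_cast (show 1 ≤ h by omega)
  have ha2 : (a : ℝ) ≤ (3 * A2 + 10) * √ (h : ℝ) := by
    have h1 : (a : ℝ) < (3 * A2 + 9) * √ (h : ℝ) + 1 := Nat.ceil_lt_add_one (by positivity)
    nlinarith
  have hΛ0 : 0 < Λc * m := by positivity
  have hsΛ : √ (Λc * m) = √ Λc * √ m := Real.sqrt_mul hΛc0.le _
  have hjb : ∀ j : ℕ, ((j : ℝ) - i) ^ 2 ≤ Λc * m → (j : ℝ) ≤ (A2 + √ Λc) * √ m := by
    intro j hj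
    have h1 := (abs_le.1 (Real.abs_le_sqrt hj)).2
    rw [hsΛ] at h1
    nlinarith
  have hLL : ∀ m' : ℕ, h ≤ m' → m' ≤ m → Nat.log 2 m' ≤ L ∧ L ≤ 3 * Nat.log 2 m' := by
    intro m' h1 h2
    refine log_window hL hmn ?_ h2 (by omega)
    have h6 : (h : ℝ) ≤ m' := by exact_mod_cast h1
    linarith
  have hcore := core2 (f := f) (q := q) (D := D) (CW := CW) (CT := CT) (m0 := m0) (m := m) (L := L) (h := h) (a := a)
    (i0 := i) (γ := ε / 4) (Λ := Λc * m) hd2 hfb u3 u2 hD.le hCW.le hCT.le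
    (fun m L a b c V e i g k => hS f hf m L ((le_max_left _ _).trans ((le_max_left _ _).trans a)) b c V e i g k)
    (fun m L a b c => hW m L ((le_max_right _ _).trans ((le_max_left _ _).trans a)) b c)
    (fun m L a b c => hT m L ((le_max_right _ _).trans a) b c) hm0h (by omega) hLL hL2 hc1 hc2 hΛ0 (by positivity)
    (fun m' h1 h2 V' hV1 hV2 j hj => by
      obtain ⟨hl1, hl2⟩ := hLL m' h1 h2
      obtain ⟨b1, b2⟩ := hB m' L (hmBh.trans h1) hl1 hl2 V' hV1 hV2 j hj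
      have e : ee f q V' j = (cor f V' j - q) + q * UU (kk V') (2 * (j : ℤ)) := by unfold ee; ring
      rw [e]
      have h3 := abs_add_le (cor f V' j - q) (q * UU (kk V') (2 * (j : ℤ)))
      have h4 : |q * UU (kk V') (2 * (j : ℤ))| ≤ |q| * (ε / (4 * M)) := by
        rw [abs_mul]; exact mul_le_mul_of_nonneg_left b2 (abs_nonneg _)
      have h5 : (1 + |q|) * (ε / (4 * M)) ≤ M * (ε / (4 * M)) := by
        apply mul_le_mul_of_nonneg_right _ (by positivity)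
        rw [hM]; have := abs_nonneg q; linarith
      have h6 : M * (ε / (4 * M)) = ε / 4 := by field_simp
      linarith)
    (fun m' h1 h2 j hj => by
      have h3 := hjb j hj
      have h4 : (A2 + √ Λc) * √ m ≤ η * (m : ℝ) ^ (0.9995 : ℝ) := by
        have := mul_le_mul_of_nonneg_left G4 hη0.le
        calc (A2 + √ Λc) * √ (m : ℝ) = η * ((A2 + √ Λc) / η * √ (m : ℝ)) := by field_simp
          _ ≤ _ := this
      have h5 : η * (m : ℝ) ^ (0.9995 : ℝ) ≤ (η * m) ^ (0.9995 : ℝ) := by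
        rw [Real.mul_rpow hη0.le hm00.le]
        apply mul_le_mul_of_nonneg_right _ (by positivity)
        calc η = η ^ (1 : ℝ) := (Real.rpow_one η).symm
          _ ≤ η ^ (0.9995 : ℝ) := Real.rpow_le_rpow_of_exponent_ge hη0 (by linarith) (by norm_num)
      have h6 : (η * m) ^ (0.9995 : ℝ) ≤ (m' : ℝ) ^ (0.9995 : ℝ) :=
        Real.rpow_le_rpow (by positivity) (hh1.trans (by exact_mod_cast h1)) (by norm_num)
      linarith)
    (fun V' hV1 hV2 j hj => by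
      have hV'1 : 1 ≤ V' := le_trans (one_le_pow₀ (by norm_num)) hV1
      obtain ⟨m', hm'1, hm'2⟩ := height hV'1
      have h1 : h ≤ m' := by
        have : (2 : ℝ) ^ h < 2 ^ (m' + 1) := lt_of_le_of_lt hV1 hm'2
        have := (pow_lt_pow_iff_right₀ (show (1 : ℝ) < 2 by norm_num)).1 this
        omega
      have h2 : m' < 2 * h := by
        have : (2 : ℝ) ^ m' < 2 ^ (2 * h) := lt_of_le_of_lt hm'1 hV2
        exact (pow_lt_pow_iff_right₀ (show (1 : ℝ) < 2 by norm_num)).1 this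
      have hm'r : (m' : ℝ) ≤ 2 * h := by exact_mod_cast h2.le
      by_cases hj1 : A2 * √ (m' : ℝ) ≤ j
      · left
        apply hfar m' h1 V' hm'1 hm'2 j hj1
        have h3 := hjb j hj
        have e2 : 0.69 * (η * m) ≤ Real.log V' := by
          have := Real.log_le_log (by positivity) hV1
          rw [Real.log_pow] at this
          nlinarith
        have h4 : (A2 + √ Λc) * √ m ≤ (0.69 * η) * (m : ℝ) ^ (0.5001 : ℝ) := by
          have := mul_le_mul_of_nonneg_left G5 (show 0 ≤ 0.69 * η by positivity)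
          calc (A2 + √ Λc) * √ (m : ℝ) = (0.69 * η) * ((A2 + √ Λc) / (0.69 * η) * √ (m : ℝ)) := by field_simp
            _ ≤ _ := this
        have h5 : (0.69 * η) * (m : ℝ) ^ (0.5001 : ℝ) ≤ ((0.69 * η) * m) ^ (0.5001 : ℝ) := by
          rw [Real.mul_rpow (by positivity) hm00.le]
          apply mul_le_mul_of_nonneg_right _ (by positivity)
          calc (0.69 * η) = (0.69 * η) ^ (1 : ℝ) := (Real.rpow_one _).symm
            _ ≤ (0.69 * η) ^ (0.5001 : ℝ) :=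
              Real.rpow_le_rpow_of_exponent_ge (by positivity) (by linarith) (by norm_num)
        have h6 : ((0.69 * η) * m) ^ (0.5001 : ℝ) ≤ Real.log V' ^ (0.5001 : ℝ) :=
          Real.rpow_le_rpow (by positivity) (by linarith) (by norm_num)
        linarith
      · right
        push Not at hj1
        have hsq2 : √ (m' : ℝ) ≤ 1.5 * √ (h : ℝ) := by
          rw [Real.sqrt_le_left (by positivity), mul_pow, Real.sq_sqrt hhr.le]
          nlinarith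
        have h2j : 2 * (j : ℝ) ≤ 3 * A2 * √ (h : ℝ) := by
          have := mul_le_mul_of_nonneg_left hsq2 hA20.le
          nlinarith
        exact bar_end u1 u6 (by omega) hA20.le hV'1 hV2 ha1 h2j)
  have htop := hcore m hhm le_rfl V hmV1 hmV2 i
  -- numeric at the top
  have t0 : (1 + 2 * |q|) * (((i : ℕ) : ℝ) - i) ^ 2 / (Λc * m) = 0 := by rw [sub_self]; simp
  have t1 : 33 * (1 + 2 * |q|) * (m : ℝ) / (Λc * m) = ε / 16 := by
    rw [← hM, hΛc]; field_simp; norm_num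
  have t2 : 2 * (1 + 2 * |q|) * Br a V (i : ℤ) ≤ ε / 8 := by
    rw [← hM]
    refine bar_top hCU u4 hmn hA20 hε hM0 hκ hmV1 ?_ ha2 i
    calc (h : ℝ) ≤ 2 * (η * m) := hh2
      _ = (2 * η) * m := by ring
      _ ≤ κ ^ 2 * m := mul_le_mul_of_nonneg_right hηκ hm00.le
  have t3 : 12 * E / (L : ℝ) ^ 2 * (Real.log m - Real.log h) ≤ ε / 16 := by
    have h1 : Real.log m - Real.log h ≤ -Real.log η := by
      have := Real.log_le_log (by positivity) hh1
      rw [Real.log_mul hη0.ne' hm00.ne'] at this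
      linarith
    have h2 : 12 * E * (-Real.log η) * 16 / ε ≤ L := (le_max_right _ _).trans G3
    rw [div_le_iff₀ hε] at h2
    have hη1 : 0 ≤ -Real.log η := by
      have := Real.log_nonpos hη0.le (by linarith)
      linarith
    have hL1r : (1 : ℝ) ≤ L := by exact_mod_cast (show 1 ≤ L by omega)
    calc 12 * E / (L : ℝ) ^ 2 * (Real.log m - Real.log h) ≤ 12 * E / (L : ℝ) ^ 2 * (-Real.log η) :=
          mul_le_mul_of_nonneg_left h1 (by positivity)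
      _ = (12 * E * (-Real.log η)) / (L : ℝ) ^ 2 := by ring
      _ ≤ (ε / 16 * L) / (L : ℝ) ^ 2 := div_le_div_of_nonneg_right (by linarith) (by positivity)
      _ = ε / 16 / L := by field_simp
      _ ≤ ε / 16 := div_le_self (by positivity) hL1r
  rw [t0, t1] at htop
  have hfin : |ee f q V i| ≤ ε := by
    rw [← hE] at htop
    linarith
  unfold ee at hfin
  exact hfin

end Pool.Agent.KS6_24.ST
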