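import Mathlib
import Pool.Agent.KS6_24.ST.KL5a
import Pool.Agent.KS6_24.ST.CorN
import Pool.Agent.KS6_24.ST.PL6
import Pool.Agent.KS6_24.ST.KL4

/-! KL5: the joint law. -/

set_option autoImplicit false

namespace Pool.Agent.KS6_24.ST

open Pool.Agent.H499R2.CO Pool.Agent.Y965.SI Finset Pool.Agent.KS6_24.LN Filter

/-- levels with large gaps -/
def S_FARN (d : ℤ) : Prop := ∀ (n : ℕ) (F : Fin (n + 1) → ℤ → ℝ), (∀ a, InvF d (F a)) →
  ∀ M : Finset (Fin (n + 1)) → ℝ, Mn F M → ∀ ε : ℝ, 0 < ε → ∃ A V0 : ℝ, 0 < A ∧ 1 ≤ V0 ∧ ∀ V : ℝ, V0 ≤ V →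
  ∀ i : Fin (n + 1) → ℕ, (∀ a, (i a : ℝ) ≤ Real.log V ^ (0.99 : ℝ)) →
    (∀ a b, a ≠ b → A * √ (Real.log V) ≤ |(i a : ℝ) - i b|) →
    |cn F V (fun a => i a) - ∏ a, M {a}| ≤ ε ∧
    ∀ k : ℕ, (k : ℝ) ≤ 20 * Real.log V + 20 → |Cw (GM M) k (fun a => 2 * (i a : ℤ)) - ∏ a, M {a}| ≤ ε

/-- change of the number of steps -/
def S_KT : Prop := ∀ (n : ℕ) (ε : ℝ), 0 < ε → ∃ V0 : ℝ, 1 ≤ V0 ∧ ∀ G : (Fin n → ℤ) → ℝ, Gok G → ∀ V : ℝ, V0 ≤ V →
  ∀ i : ℕ, (i : ℝ) ≤ Real.log V ^ (0.99 : ℝ) → ∀ x, |Cw G (kn (3 ^ i * V)) x - Cw G (kn V) x| ≤ ε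

theorem bar_end2 (u1 : ∀ k j, UU k (-j) = - UU k j)
    (u6 : ∀ (k : ℕ) (j : ℤ), 1 ≤ j → 1 - 2 * k / (j : ℝ) ^ 2 ≤ UU k j) {h a j : ℕ} {A2 V' : ℝ} (hh : 1 ≤ h)
    (hA20 : 0 ≤ A2) (hV'1 : 1 ≤ V') (hV2 : Real.log V' ≤ 1.6 * h) (ha1 : (3 * A2 + 10) * √ (h : ℝ) ≤ a)
    (h2j : 2 * (j : ℝ) ≤ 3 * A2 * √ (h : ℝ)) : 1 / 2 ≤ Br a V' j := by
  have hhr : (1 : ℝ) ≤ h := by exact_mod_cast hh
  have hsh1 : 1 ≤ √ (h : ℝ) := by rw [Real.one_le_sqrt]; exact hhr
  have hkk : (kk V' : ℝ) ≤ 23 * h := by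
    have := kk_le hV'1 hV2
    have h3 : 2 * (1.6 * (h : ℝ)) / 0.14 ≤ 23 * h := by
      rw [div_le_iff₀ (by norm_num)]; nlinarith
    linarith
  have hlow : ∀ x : ℤ, 10 * √ (h : ℝ) ≤ (x : ℝ) → 1 / 2 ≤ UU (kk V') x := by
    intro x hx
    have hx0 : (1 : ℝ) ≤ x := by linarith
    have hx1 : 1 ≤ x := by exact_mod_cast hx0
    have h3 := u6 (kk V') x hx1
    have h4 : 2 * (kk V' : ℝ) / (x : ℝ) ^ 2 ≤ 1 / 2 := by
      rw [div_le_div_iff₀ (by positivity) (by norm_num)]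
      have h5 : (10 * √ (h : ℝ)) ^ 2 ≤ (x : ℝ) ^ 2 := pow_le_pow_left₀ (by positivity) hx 2
      rw [mul_pow, Real.sq_sqrt (by linarith)] at h5
      linarith
    linarith
  have hA2h : 0 ≤ A2 * √ (h : ℝ) := by positivity
  have h3 := hlow (2 * (j : ℤ) + a) (by
    push_cast
    have : (0 : ℝ) ≤ j := Nat.cast_nonneg _
    linarith)
  have h4 := hlow ((a : ℤ) - 2 * j) (by
    push_cast
    linarith)
  have h5 : UU (kk V') (2 * (j : ℤ) - a) = - UU (kk V') ((a : ℤ) - 2 * j) := by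
    rw [← u1]; congr 1; ring
  unfold Br
  rw [h5]
  linarith

theorem bar_top2 {CU : ℝ} (hCU : 0 < CU) (u4 : ∀ (k : ℕ) (j : ℤ), UU k (j + 1) - UU k j ≤ CU / √ ((k : ℝ) + 1))
    {m a : ℕ} {V : ℝ} (hmn : 1 ≤ m) (hmV1 : 2 ^ m ≤ V) (i : ℤ) : Br a V i ≤ a * (CU / √ (m : ℝ)) := by
  have l2 := Real.log_two_gt_d9
  have hm00 : (0 : ℝ) < m := by exact_mod_cast (show 0 < m by omega)
  have h1 : UU (kk V) (2 * i + a) - UU (kk V) (2 * i - a) ≤ ((2 * a : ℕ) : ℝ) * (CU / √ ((kk V : ℝ) + 1)) := by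
    have := UU_sum u4 (kk V) (2 * i - a) (2 * a)
    have e : 2 * i - a + ((2 * a : ℕ) : ℤ) = 2 * i + a := by push_cast; ring
    rw [e] at this
    exact this
  have hV1 : 1 ≤ V := le_trans (one_le_pow₀ (by norm_num)) hmV1
  have h2 : 13 * (0.69 * (m : ℝ)) ≤ (kk V : ℝ) + 1 := by
    apply kk_ge hV1 _ (by positivity)
    have := Real.log_le_log (by positivity) hmV1
    rw [Real.log_pow] at this
    nlinarith
  have hsm0 : 0 < √ (m : ℝ) := Real.sqrt_pos.2 hm00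
  have h3 : √ (m : ℝ) ≤ √ ((kk V : ℝ) + 1) := Real.sqrt_le_sqrt (by linarith)
  have h4 : CU / √ ((kk V : ℝ) + 1) ≤ CU / √ (m : ℝ) := div_le_div_of_nonneg_left hCU.le hsm0 h3
  have h10 : ((2 * a : ℕ) : ℝ) * (CU / √ ((kk V : ℝ) + 1)) ≤ 2 * (a * (CU / √ (m : ℝ))) := by
    push_cast
    have := mul_le_mul_of_nonneg_left h4 (show (0 : ℝ) ≤ 2 * a by positivity)
    linarith
  unfold Br
  linarith

/-- the joint law for `n` functions, with all exponents -/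
def KLn (d : ℤ) (n : ℕ) : Prop := ∀ θ : ℝ, 0.5 < θ → θ < 0.99 → ∀ F : Fin n → ℤ → ℝ, (∀ a, InvF d (F a)) →
  ∀ M : Finset (Fin n) → ℝ, Mn F M → ∀ ε : ℝ, 0 < ε → ∃ V0 : ℝ, 1 ≤ V0 ∧ ∀ V : ℝ, V0 ≤ V → ∀ i : Fin n → ℕ,
    (∀ a, (i a : ℝ) ≤ Real.log V ^ θ) → |cn F V (fun a => i a) - Cw (GM M) (kn V) (fun a => 2 * (i a : ℤ))| ≤ ε

theorem kln_zero (d : ℤ) (hC : S_CW) (hM : ∀ M : Finset (Fin 0) → ℝ, Gok (GM M)) : KLn d 0 := by
  intro θ _ _ F _ M _ ε hε
  obtain ⟨C, hC1, hC⟩ := hC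
  refine ⟨1, le_rfl, fun V hV i _ => ?_⟩
  obtain ⟨_, _, _, _, _, h6⟩ := hC 0 (GM M) (hM M)
  have h7 := h6 1 (fun x _ => by unfold GM; simp) (kn V) (fun a => 2 * (i a : ℤ)) (fun a => a.elim0)
  have h8 : Ep (kn V) (fun a : Fin 0 => 2 * (i a : ℤ)) = 0 := by unfold Ep; simp
  rw [h8, mul_zero] at h7
  have h9 : cn F V (fun a => (i a : ℤ)) = 1 := by
    unfold cn av
    simp only [univ_eq_empty, prod_empty]
    rw [intervalIntegral.integral_const]
    have : V ≠ 0 := by linarith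
    simp only [smul_eq_mul, mul_one]
    rw [show 2 * V - V = V by ring, div_self this]
  rw [h9, abs_sub_comm]
  linarith

theorem rpow_le_scaled {x κ θ : ℝ} (hx : 0 < x) (hκ0 : 0 < κ) (hκ1 : κ ≤ 1) (hθ0 : 0 ≤ θ) (hθ1 : θ ≤ 1) :
    κ * x ^ θ ≤ (κ * x) ^ θ := by
  rw [Real.mul_rpow hκ0.le hx.le]
  apply mul_le_mul_of_nonneg_right _ (by positivity)
  calc κ = κ ^ (1 : ℝ) := (Real.rpow_one κ).symm
    _ ≤ κ ^ θ := Real.rpow_le_rpow_of_exponent_ge hκ0 hκ1 hθ1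

theorem kln_succ (d : ℤ) (hd : d = 1 ∨ d = -1) (hU : S_U) (hC : S_CW) (hS : S_STAGEN d) (hW : S_WKN d) (hB : S_WK2 d)
    (hM : S_MG d) (hFar : S_FARN d) (hKT : S_KT) (n : ℕ) (ih : KLn d n) : KLn d (n + 1) := by
  intro θ hθ1 hθ2 F hF M hMn ε hε
  have hd2 : d % 2 = 1 := by rcases hd with rfl | rfl <;> decide
  obtain ⟨CU, hCU, u1, u2, u3, u4, u5, u6, u7⟩ := hU
  obtain ⟨D, mS, hD, _, hS⟩ := hS (n + 1)
  obtain ⟨CW, mW, hCW, hW⟩ := hW n
  obtain ⟨CB, mB, hCB, hB⟩ := hB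
  obtain ⟨hGok, hGinj, hmg1, hmg2, hmg3⟩ := hM n F hF M hMn
  obtain ⟨mM, hmg3⟩ := hmg3 (ε / 32) (by positivity)
  obtain ⟨C1, hC11, hCp⟩ := hC
  obtain ⟨hCa, hCt, _, _, _, _⟩ := hCp (n + 1) (GM M) hGok
  obtain ⟨A, VF, hA, hVF, hFar⟩ := hFar n F hF M hMn (ε / 16) (by positivity)
  obtain ⟨VT, hVT, hKT1⟩ := hKT (n + 1) (ε / 8) (by positivity)
  obtain ⟨VT', hVT', hKT2⟩ := hKT n (ε / 32) (by positivity)
  have hfb : ∀ a x, |F a x| ≤ 1 := fun a => (hF a).1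
  -- induction hypothesis for all merged pairs
  obtain ⟨θ', hθ'⟩ : ∃ θ', θ' = (θ + 0.99) / 2 := ⟨_, rfl⟩
  have hθ'1 : θ < θ' := by rw [hθ']; linarith
  have hθ'2 : θ' < 0.99 := by rw [hθ']; linarith
  have hI : ∃ VI : ℝ, 1 ≤ VI ∧ ∀ V, VI ≤ V → ∀ (b : Fin (n + 1)) (a : Fin n) (i : Fin n → ℕ),
      (∀ c, (i c : ℝ) ≤ Real.log V ^ θ') →
      |cn (mgF F b a) V (fun c => i c) - Cw (GM (mgM M b a)) (kn V) (fun c => 2 * (i c : ℤ))| ≤ ε / 32 := by
    have h1 : ∀ p : Fin (n + 1) × Fin n, ∃ V0 : ℝ, 1 ≤ V0 ∧ ∀ V, V0 ≤ V → ∀ i : Fin n → ℕ, (∀ c, (i c : ℝ) ≤ Real.log V ^ θ') →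
      |cn (mgF F p.1 p.2) V (fun c => i c) - Cw (GM (mgM M p.1 p.2)) (kn V) (fun c => 2 * (i c : ℤ))| ≤ ε / 32 := fun p =>
      ih θ' (by linarith) hθ'2 (mgF F p.1 p.2) (hmg1 p.1 p.2).1 (mgM M p.1 p.2) (hmg1 p.1 p.2).2 (ε / 32) (by positivity)
    choose V0 hV0 h2 using h1
    refine ⟨1 + ∑ p, V0 p, ?_, fun V hV b a i hi => ?_⟩
    · have : 0 ≤ ∑ p, V0 p := sum_nonneg fun p _ => by linarith [hV0 p]
      linarith
    · refine h2 (b, a) V (le_trans ?_ hV) i hi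
      have : V0 (b, a) ≤ ∑ p, V0 p := single_le_sum (f := V0) (fun p _ => by linarith [hV0 p]) (mem_univ (b, a))
      linarith
  obtain ⟨VI, hVI, hI⟩ := hI
  obtain ⟨VC, hVC⟩ : ∃ VC, VC = max (max VF VT') VI := ⟨_, rfl⟩
  -- constants
  obtain ⟨N, hN⟩ : ∃ N : ℝ, N = n + 1 := ⟨_, rfl⟩
  have hN1 : 1 ≤ N := by rw [hN]; have : (0 : ℝ) ≤ n := Nat.cast_nonneg _
                         linarith
  have hN0 : 0 < N := by linarith
  obtain ⟨κ, hκ⟩ : ∃ κ, κ = ε / (32 * N ^ 2 * (3 * A + 11) * (CU + 1)) := ⟨_, rfl⟩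
  have hκ0 : 0 < κ := by rw [hκ]; positivity
  obtain ⟨η, hη⟩ : ∃ η, η = min (1 / 4) (κ ^ 2 / 2) := ⟨_, rfl⟩
  have hη0 : 0 < η := by rw [hη]; apply lt_min <;> positivity
  have hη4 : η ≤ 1 / 4 := by rw [hη]; exact min_le_left _ _
  have hηκ : 2 * η ≤ κ ^ 2 := by have := min_le_right (1 / 4) (κ ^ 2 / 2); rw [← hη] at this; linarith
  obtain ⟨Λc, hΛc⟩ : ∃ Λc, Λc = 1056 * N / ε := ⟨_, rfl⟩
  have hΛc0 : 0 < Λc := by rw [hΛc]; positivity
  obtain ⟨E, hE⟩ : ∃ E, E = D + CW + 4 * (((n : ℝ) + 1) ^ 2 * CB) := ⟨_, rfl⟩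
  have hE0 : 0 ≤ E := by rw [hE]; positivity
  obtain ⟨m0, hm0⟩ : ∃ m0, m0 = max (max mS mW) mB := ⟨_, rfl⟩
  -- eventual facts
  have F1 : ∀ᶠ m : ℕ in atTop, ((max (max m0 mM) 101 : ℕ) / η) * (m : ℝ) ^ (0 : ℝ) ≤ (m : ℝ) ^ (0.5 : ℝ) := ev1 _ (by norm_num)
  have F2 := ev3
  have F3 := ev4 (max 2 (12 * E * (-Real.log η) * 16 / ε))
  have F4 : ∀ᶠ m : ℕ in atTop, (3 / η) * (m : ℝ) ^ θ ≤ (m : ℝ) ^ (0.9995 : ℝ) := ev1 _ (by linarith)
  have F5 : ∀ᶠ m : ℕ in atTop, (3 / (0.69 * η)) * (m : ℝ) ^ θ ≤ (m : ℝ) ^ θ' := ev1 _ hθ'1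
  have F6 : ∀ᶠ m : ℕ in atTop, (Real.log VC / (0.69 * η)) * (m : ℝ) ^ (0 : ℝ) ≤ (m : ℝ) ^ (1 : ℝ) := ev1 _ (by norm_num)
  have F7 : ∀ᶠ m : ℕ in atTop, (1 / η) * (m : ℝ) ^ (0.5 : ℝ) ≤ (m : ℝ) ^ (1 : ℝ) := ev1 _ (by norm_num)
  have F8 : ∀ᶠ m : ℕ in atTop, (2 * √ Λc) * (m : ℝ) ^ (0.5 : ℝ) ≤ (m : ℝ) ^ θ := ev1 _ hθ1
  have F9 : ∀ᶠ m : ℕ in atTop, (30 / η) * (m : ℝ) ^ θ ≤ (m : ℝ) ^ (1 : ℝ) := ev1 _ (by linarith)
  obtain ⟨m1, hm1⟩ := eventually_atTop.1 ((F1.and (F2.and (F3.and F4))).and ((F5.and (F6.and F7)).and (F8.and F9)))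
  refine ⟨max VT (2 ^ (max m1 2)), le_max_of_le_left hVT, ?_⟩
  intro V hVmax i hi
  have hVVT : VT ≤ V := (le_max_left _ _).trans hVmax
  have hV : (2 : ℝ) ^ (max m1 2) ≤ V := (le_max_right _ _).trans hVmax
  -- normalization
  obtain ⟨σ, ⟨a1, ha1⟩, hσle⟩ : ∃ σ, (∃ a, σ = i a) ∧ ∀ a, σ ≤ i a := by
    obtain ⟨a1, _, ha1⟩ := exists_mem_eq_inf' (s := (univ : Finset (Fin (n + 1)))) univ_nonempty i
    exact ⟨_, ⟨a1, ha1⟩, fun a => inf'_le _ (mem_univ a)⟩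
  have hV1 : 1 ≤ V := le_trans (one_le_pow₀ (by norm_num)) hV
  have hVpos : 0 < V := by linarith
  obtain ⟨W, hWdef⟩ : ∃ W : ℝ, W = 3 ^ σ * V := ⟨_, rfl⟩
  have hVW : V ≤ W := by rw [hWdef]; exact le_mul_of_one_le_left (by linarith) (one_le_pow₀ (by norm_num))
  obtain ⟨k, hk⟩ : ∃ k : Fin (n + 1) → ℕ, k = fun a => i a - σ := ⟨_, rfl⟩
  have hkz : ∀ a, (k a : ℤ) = (i a : ℤ) - σ := fun a => by rw [hk]; simp only; have := hσle a; omega
  have hkr : ∀ a, (k a : ℝ) = (i a : ℝ) - σ := fun a => by rw [hk]; simp only; rw [Nat.cast_sub (hσle a)]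
  have hk0 : ∃ a, k a = 0 := ⟨a1, by rw [hk]; simp only; omega⟩
  have hcnW : cn F V (fun a => (i a : ℤ)) = cn F W (fun a => (k a : ℤ)) := by
    rw [hWdef, ← cn_shift F hVpos]
    congr 1
    funext a
    rw [hkz]; ring
  have hCwW : ∀ K, Cw (GM M) K (fun a => 2 * (i a : ℤ)) = Cw (GM M) K (fun a => 2 * (k a : ℤ)) := by
    intro K
    rw [← hCt K (fun a => 2 * (k a : ℤ)) (2 * σ)]
    congr 1
    funext a
    rw [hkz]; ring
  have hk0W : (3 : ℝ) ^ k 0 * W = 3 ^ i 0 * V := by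
    rw [hWdef, ← mul_assoc, ← pow_add]
    congr 2
    rw [hk]; simp only; have := hσle 0; omega
  obtain ⟨m, hmV1, hmV2⟩ := height (show 1 ≤ W from hV1.trans hVW)
  have hmm : max m1 2 ≤ m := by
    have : (2 : ℝ) ^ (max m1 2) < 2 ^ (m + 1) := lt_of_le_of_lt (hV.trans hVW) hmV2
    have := (pow_lt_pow_iff_right₀ (show (1 : ℝ) < 2 by norm_num)).1 this
    omega
  obtain ⟨⟨G1, G2, G3, G4⟩, ⟨G5, G6, G7⟩, G8, G9⟩ := hm1 m ((le_max_left _ _).trans hmm)
  have hmn2 : 2 ≤ m := (le_max_right _ _).trans hmm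
  have hmn : 1 ≤ m := by omega
  have hm : (1 : ℝ) ≤ m := by exact_mod_cast hmn
  have hm00 : (0 : ℝ) < m := lt_of_lt_of_le one_pos hm
  have hW0 : 0 < W := lt_of_lt_of_le (by positivity) hmV1
  rw [Real.rpow_zero, mul_one] at G1 G6
  rw [Real.rpow_one] at G6 G7 G9
  have l2 := Real.log_two_gt_d9
  have l2' := Real.log_two_lt_d9
  have l3 := log3_lt
  have l30 : 0 < Real.log 3 := Real.log_pos (by norm_num)
  have hsm : (m : ℝ) ^ (0.5 : ℝ) = √ m := by rw [Real.sqrt_eq_rpow]; norm_num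
  rw [hsm] at G1 G7 G8
  have hlogV1 : 1 ≤ Real.log V := by
    have h1 : (2 : ℝ) ^ 2 ≤ V := le_trans (pow_le_pow_right₀ (by norm_num) (le_max_right _ _)) hV
    have := Real.log_le_log (by norm_num) h1
    rw [Real.log_pow] at this
    push_cast at this
    linarith only [this, l2]
  have hlogW2 : Real.log W ≤ 1.4 * m := by
    have := Real.log_le_log hW0 hmV2.le
    rw [Real.log_pow] at this
    push_cast at this
    nlinarith only [this, l2', l2, hm]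
  have hlogVW : Real.log V ≤ Real.log W := Real.log_le_log hVpos hVW
  obtain ⟨L, hL⟩ : ∃ L, L = Nat.log 2 m := ⟨_, rfl⟩
  rw [← hL] at G2 G3
  obtain ⟨h, hh⟩ : ∃ h, h = ⌈η * m⌉₊ := ⟨_, rfl⟩
  have hh1 : η * m ≤ h := by rw [hh]; exact Nat.le_ceil _
  have hηm : √ (m : ℝ) ≤ η * m := by
    have := mul_le_mul_of_nonneg_left G7 hη0.le
    rw [← mul_assoc, mul_one_div_cancel hη0.ne', one_mul] at this
    exact this
  have hsm1 : 1 ≤ √ (m : ℝ) := by rw [Real.one_le_sqrt]; exact hm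
  have hh2 : (h : ℝ) ≤ 2 * (η * m) := by
    have h1 : (h : ℝ) < η * m + 1 := by rw [hh]; exact Nat.ceil_lt_add_one (by positivity)
    linarith only [h1, hηm, hsm1]
  have hbig : ((max (max m0 mM) 101 : ℕ) : ℝ) ≤ h := by
    rw [div_le_iff₀ hη0] at G1
    refine G1.trans (le_trans ?_ (hηm.trans hh1))
    have : √ (m : ℝ) * η ≤ √ (m : ℝ) * 1 := mul_le_mul_of_nonneg_left (by linarith only [hη4]) (by positivity)
    linarith only [this]
  have hbign : max (max m0 mM) 101 ≤ h := by exact_mod_cast hbig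
  have hm0h : m0 ≤ h := ((le_max_left _ _).trans (le_max_left _ _)).trans hbign
  have hmMh : mM ≤ h := ((le_max_right _ _).trans (le_max_left _ _)).trans hbign
  have h101 : 101 ≤ h := (le_max_right _ _).trans hbign
  have hmSh : mS ≤ m0 := by rw [hm0]; exact (le_max_left _ _).trans (le_max_left _ _)
  have hmWh : mW ≤ m0 := by rw [hm0]; exact (le_max_right _ _).trans (le_max_left _ _)
  have hmBh : mB ≤ m0 := by rw [hm0]; exact le_max_right _ _
  have hhr : (0 : ℝ) < h := by exact_mod_cast (show 0 < h by omega)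
  have hhr1 : (1 : ℝ) ≤ h := by exact_mod_cast (show 1 ≤ h by omega)
  have hhm : h ≤ m := by
    have : (h : ℝ) ≤ m := by
      have : 2 * (η * m) ≤ 2 * (1 / 4 * m) := by
        have := mul_le_mul_of_nonneg_right hη4 hm00.le
        linarith only [this]
      linarith only [this, hh2, hm00]
    exact_mod_cast this
  have hL2 : 2 ≤ L := by
    have := (le_max_left _ _).trans G3
    exact_mod_cast this
  have hLr : (0 : ℝ) < L := by exact_mod_cast (show 0 < L by omega)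
  have hLh : L ^ 20 ≤ h := by
    rw [hsm] at G2
    have : ((L : ℕ) : ℝ) ^ 20 ≤ h := G2.trans (hηm.trans hh1)
    exact_mod_cast this
  have hLdiv : L ^ 18 ≤ h / L ^ 2 := by
    rw [Nat.le_div_iff_mul_le (by positivity)]
    calc L ^ 18 * L ^ 2 = L ^ 20 := by ring
      _ ≤ h := hLh
  have hL10 : 1024 ≤ L ^ 10 := by
    calc 1024 = 2 ^ 10 := by norm_num
      _ ≤ L ^ 10 := Nat.pow_le_pow_left hL2 10
  have hL31 : L ^ 3 + 1 ≤ 2 * L ^ 3 := by
    have : 1 ≤ L ^ 3 := Nat.one_le_pow _ _ (by omega)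
    omega
  have hc1 : 256 * (L ^ 3 + 1) ^ 2 ≤ h / L ^ 2 := by
    refine le_trans ?_ hLdiv
    calc 256 * (L ^ 3 + 1) ^ 2 ≤ 256 * (2 * L ^ 3) ^ 2 := Nat.mul_le_mul_left _ (Nat.pow_le_pow_left hL31 2)
      _ = 1024 * L ^ 6 := by ring
      _ ≤ L ^ 10 * L ^ 6 := Nat.mul_le_mul_right _ hL10
      _ = L ^ 16 := by ring
      _ ≤ L ^ 18 := Nat.pow_le_pow_right (by omega) (by norm_num)
  have hc2 : L ^ 10 ≤ h / L ^ 2 := le_trans (Nat.pow_le_pow_right (by omega) (by norm_num)) hLdiv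
  have hLL : ∀ m' : ℕ, h ≤ m' → m' ≤ m → Nat.log 2 m' ≤ L ∧ L ≤ 3 * Nat.log 2 m' := by
    intro m' h1 h2
    refine log_window hL hmn ?_ h2 (by omega)
    have h6 : (h : ℝ) ≤ m' := by exact_mod_cast h1
    exact (hηm.trans hh1).trans h6
  -- logarithms of heights
  have hlow : ∀ m' : ℕ, h ≤ m' → ∀ V' : ℝ, 2 ^ m' ≤ V' → 0.69 * (η * m) ≤ Real.log V' := by
    intro m' h1 V' hV'
    have h2 := Real.log_le_log (by positivity) hV'
    rw [Real.log_pow] at h2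
    have h3 : η * m ≤ m' := hh1.trans (by exact_mod_cast h1)
    have h4 : (0 : ℝ) ≤ m' := Nat.cast_nonneg _
    nlinarith only [h2, h3, h4, l2]
  have hVCle : ∀ V' : ℝ, 0 < V' → 0.69 * (η * m) ≤ Real.log V' → VC ≤ V' := by
    intro V' h1 h2
    have hVC0 : 0 < VC := lt_of_lt_of_le one_pos ((hVF.trans (le_max_left _ _)).trans (by rw [hVC]; exact le_max_left _ _))
    rw [← Real.log_le_log_iff hVC0 h1]
    rw [div_le_iff₀ (by positivity)] at G6
    linarith only [G6, h2]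
  -- near levels
  obtain ⟨Λ, hΛ⟩ : ∃ Λ, Λ = Λc * m := ⟨_, rfl⟩
  have hΛ0 : 0 < Λ := by rw [hΛ]; positivity
  have hsΛ : √ Λ = √ Λc * √ m := by rw [hΛ]; exact Real.sqrt_mul hΛc0.le _
  have hkle : ∀ a, (k a : ℝ) ≤ 2 * (m : ℝ) ^ θ := by
    intro a
    have h1 : (k a : ℝ) ≤ i a := by
      rw [hkr]
      have : (0 : ℝ) ≤ σ := Nat.cast_nonneg _
      linarith only [this]
    refine (h1.trans (hi a)).trans ?_
    calc Real.log V ^ θ ≤ (1.4 * m) ^ θ :=
          Real.rpow_le_rpow (by linarith only [hlogV1]) (hlogVW.trans hlogW2) (by linarith only [hθ1])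
      _ = 1.4 ^ θ * (m : ℝ) ^ θ := Real.mul_rpow (by norm_num) hm00.le
      _ ≤ 2 * (m : ℝ) ^ θ := by
        apply mul_le_mul_of_nonneg_right _ (by positivity)
        calc (1.4 : ℝ) ^ θ ≤ 1.4 ^ (1 : ℝ) := Real.rpow_le_rpow_of_exponent_le (by norm_num) (by linarith only [hθ2])
          _ ≤ 2 := by norm_num
  have hnear : ∀ j : Fin (n + 1) → ℕ, (∃ a, j a = 0) → (∀ a, (((j a : ℝ) - j 0) - ((k a : ℝ) - k 0)) ^ 2 ≤ Λ) →
      ∀ a, (j a : ℝ) ≤ 3 * (m : ℝ) ^ θ := by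
    intro j hj0 hj a
    obtain ⟨b, hb⟩ := hj0
    have h1 := (abs_le.1 (Real.abs_le_sqrt (hj a))).2
    have h2 := (abs_le.1 (Real.abs_le_sqrt (hj b))).1
    rw [hb] at h2
    push_cast at h2
    have h3 := hkle a
    have h4 : (0 : ℝ) ≤ k b := Nat.cast_nonneg _
    rw [hsΛ] at h1 h2
    linarith only [h1, h2, h3, h4, G8]
  have hup9995 : ∀ m' : ℕ, h ≤ m' → ∀ x : ℝ, x ≤ 3 * (m : ℝ) ^ θ → x ≤ (m' : ℝ) ^ (0.9995 : ℝ) := by
    intro m' h1 x hx
    have h4 : 3 * (m : ℝ) ^ θ ≤ η * (m : ℝ) ^ (0.9995 : ℝ) := by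
      have := mul_le_mul_of_nonneg_left G4 hη0.le
      calc 3 * (m : ℝ) ^ θ = η * (3 / η * (m : ℝ) ^ θ) := by field_simp
        _ ≤ _ := this
    have h5 := rpow_le_scaled (x := m) (κ := η) (θ := 0.9995) hm00 hη0 (by linarith only [hη4]) (by norm_num) (by norm_num)
    have h6 : (η * m) ^ (0.9995 : ℝ) ≤ (m' : ℝ) ^ (0.9995 : ℝ) :=
      Real.rpow_le_rpow (by positivity) (hh1.trans (by exact_mod_cast h1)) (by norm_num)
    linarith only [hx, h4, h5, h6]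
  have hupθ' : ∀ V' : ℝ, 0.69 * (η * m) ≤ Real.log V' → ∀ x : ℝ, x ≤ 3 * (m : ℝ) ^ θ → x ≤ Real.log V' ^ θ' := by
    intro V' h1 x hx
    have hk1 : 0.69 * η ≤ 1 := by linarith only [hη4]
    have h4 : 3 * (m : ℝ) ^ θ ≤ (0.69 * η) * (m : ℝ) ^ θ' := by
      have := mul_le_mul_of_nonneg_left G5 (show 0 ≤ 0.69 * η by positivity)
      calc 3 * (m : ℝ) ^ θ = (0.69 * η) * (3 / (0.69 * η) * (m : ℝ) ^ θ) := by field_simp
        _ ≤ _ := this
    have h5 := rpow_le_scaled (x := m) (κ := 0.69 * η) (θ := θ') hm00 (by positivity) hk1 (by linarith only [hθ1, hθ'1])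
      (by linarith only [hθ'2])
    have h6 : (0.69 * η * m) ^ θ' ≤ Real.log V' ^ θ' :=
      Real.rpow_le_rpow (by positivity) (by linarith only [h1]) (by linarith only [hθ1, hθ'1])
    linarith only [hx, h4, h5, h6]
  have hup99 : ∀ V' : ℝ, 0.69 * (η * m) ≤ Real.log V' → 1 ≤ Real.log V' → ∀ x : ℝ, x ≤ 3 * (m : ℝ) ^ θ →
      x ≤ Real.log V' ^ (0.99 : ℝ) := fun V' h1 h2 x hx =>
    (hupθ' V' h1 x hx).trans (Real.rpow_le_rpow_of_exponent_le h2 hθ'2.le)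
  have hlog1 : ∀ m' : ℕ, h ≤ m' → ∀ V' : ℝ, 2 ^ m' ≤ V' → 1 ≤ Real.log V' := by
    intro m' h1 V' hV'
    have h2 := Real.log_le_log (by positivity) hV'
    rw [Real.log_pow] at h2
    have h3 : (101 : ℝ) ≤ m' := by exact_mod_cast h101.trans h1
    nlinarith only [h2, h3, l2]
  -- the barrier
  obtain ⟨u, hu⟩ : ∃ u, u = ⌈(3 * A + 10) * √ (h : ℝ)⌉₊ := ⟨_, rfl⟩
  have ha1' : (3 * A + 10) * √ (h : ℝ) ≤ u := by rw [hu]; exact Nat.le_ceil _
  have hsh1 : 1 ≤ √ (h : ℝ) := by rw [Real.one_le_sqrt]; exact hhr1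
  have ha2 : (u : ℝ) ≤ (3 * A + 11) * √ (h : ℝ) := by
    have h1 : (u : ℝ) < (3 * A + 10) * √ (h : ℝ) + 1 := by rw [hu]; exact Nat.ceil_lt_add_one (by positivity)
    linarith only [h1, hsh1]
  have hcore := coreK (F := F) (G := GM M) (D := D) (CW := CW) (CB := CB) (m0 := m0) (m := m) (L := L) (h := h) (u := u)
    (γ := ε / 4) (Λ := Λ) (δ := fun a => (k a : ℝ) - k 0) hd2 hfb hCa hCt u3 hD.le hCW.le hCB.le
    (fun m L a b c V e i g k => hS F hF m L (hmSh.trans a) b c V e i g k)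
    (fun m L a b c V e i g k => hW (GM M) hGok m L (hmWh.trans a) b c V e i g k)
    (fun m L a b c V e j => hB m L (hmBh.trans a) b c V e j) (by simp) hm0h (by omega) hLL hL2 hc1 hc2 hΛ0 (by positivity)
    (fun m' h1 h2 V' hV1' hV2' j hj0 hj hz => by
      obtain ⟨hl1, hl2⟩ := hLL m' h1 h2
      obtain ⟨b, a, hab, hz⟩ := hz
      obtain ⟨a', ha'⟩ := Fin.exists_succAbove_eq hab.symm
      have hV'0 : 0 < V' := lt_of_lt_of_le (by positivity) hV1'
      have hlg := hlow m' h1 V' hV1'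
      have hlg1 := hlog1 m' h1 V' hV1'
      have hVC' := hVCle V' hV'0 hlg
      rw [hVC] at hVC'
      have hjn := hnear j hj0 hj
      obtain ⟨b1, b2⟩ := hmg3 m' L (hmMh.trans h1) hl1 hl2 V' hV1' j b a' (by rw [ha']; exact hz)
      have b3 := hI V' ((le_max_right _ _).trans hVC') b a' (fun c => j (b.succAbove c))
        (fun c => hupθ' V' hlg _ (hjn _))
      have b4 := hKT2 (GM (mgM M b a')) ⟨fun x => KL4.GM_abs (hmg1 b a').2.1 x, fun x s => KL4.GM_trans _ x s⟩ V'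
        (((le_max_right _ _).trans (le_max_left _ _)).trans hVC') (j 0) (hup99 V' hlg hlg1 _ (hjn 0))
        (fun c => 2 * (j (b.succAbove c) : ℤ))
      have b5 := b2 (kn (3 ^ j 0 * V')) (by
        unfold kn
        have hg := gm_bounds
        have hV3 : 2 ^ m' ≤ 3 ^ j 0 * V' := hV1'.trans (le_mul_of_one_le_left hV'0.le (one_le_pow₀ (by norm_num)))
        have h5 := Real.log_le_log (by positivity) hV3
        rw [Real.log_pow] at h5
        have h6 : Real.log (3 ^ j 0 * V') / gm < (⌊Real.log (3 ^ j 0 * V') / gm⌋₊ : ℝ) + 1 := Nat.lt_floor_add_one _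
        have h7 : (m' : ℝ) + 1 ≤ Real.log (3 ^ j 0 * V') / gm := by
          rw [le_div_iff₀ hg.1]
          have h8 : (101 : ℝ) ≤ m' := by exact_mod_cast h101.trans h1
          nlinarith only [h5, h8, l2, hg.2, hg.1]
        linarith only [h6, h7])
      unfold en
      have e1 := abs_le.1 b1
      have e3 := abs_le.1 b3
      have e4 := abs_le.1 b4
      have e5 := abs_le.1 b5
      rw [abs_le]
      constructor <;> linarith only [e1.1, e1.2, e3.1, e3.2, e4.1, e4.2, e5.1, e5.2, hε])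
    (fun m' h1 h2 j hj0 hj a => hup9995 m' h1 _ (hnear j hj0 hj a))
    (fun V' hV1' hV2' j hj0 hj => by
      have hV'0 : 0 < V' := lt_of_lt_of_le (by positivity) hV1'
      have hV'1 : 1 ≤ V' := le_trans (one_le_pow₀ (by norm_num)) hV1'
      have hlg := hlow h le_rfl V' hV1'
      have hlg1 := hlog1 h le_rfl V' hV1'
      have hVC' := hVCle V' hV'0 hlg
      rw [hVC] at hVC'
      have hjn := hnear j hj0 hj
      have hlgu : Real.log V' ≤ 1.4 * h := by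
        have := Real.log_le_log hV'0 hV2'.le
        rw [Real.log_pow] at this
        push_cast at this
        nlinarith only [this, l2', hhr1]
      have hj3 : ∀ a, Real.log (3 ^ j a * V') ≤ 1.6 * h := by
        intro a
        rw [Real.log_mul (by positivity) hV'0.ne', Real.log_pow]
        have h5 : (j a : ℝ) * Real.log 3 ≤ 3 * (m : ℝ) ^ θ * 1.1 := mul_le_mul (hjn a) l3.le l30.le (by positivity)
        have h6 : 30 * (m : ℝ) ^ θ ≤ η * m := by
          have := mul_le_mul_of_nonneg_left G9 hη0.le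
          calc 30 * (m : ℝ) ^ θ = η * (30 / η * (m : ℝ) ^ θ) := by field_simp
            _ ≤ _ := this
        linarith only [h5, h6, hh1, hlgu]
      by_cases hg : ∀ a b, a ≠ b → A * √ (Real.log V') ≤ |(j a : ℝ) - j b|
      · left
        obtain ⟨f1, f2⟩ := hFar V' (((le_max_left _ _).trans (le_max_left _ _)).trans hVC') j
          (fun a => hup99 V' hlg hlg1 _ (hjn a)) hg
        have f3 := f2 (kn (3 ^ j 0 * V')) (by
          unfold kn
          have hg := gm_bounds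
          have hgg := gm_gt
          have hV3 : 1 ≤ 3 ^ j 0 * V' := hV'1.trans (le_mul_of_one_le_left hV'0.le (one_le_pow₀ (by norm_num)))
          have h5 : 0 ≤ Real.log (3 ^ j 0 * V') := Real.log_nonneg hV3
          refine (Nat.floor_le (div_nonneg h5 hg.1.le)).trans ?_
          rw [div_le_iff₀ hg.1]
          have h6 := hj3 0
          have h7 : 0.69 * (h : ℝ) ≤ Real.log V' := by
            have := Real.log_le_log (by positivity) hV1'
            rw [Real.log_pow] at this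
            nlinarith only [this, l2, hhr1]
          nlinarith only [h6, h7, hgg, hhr1])
        unfold en
        have e1 := abs_le.1 f1
        have e2 := abs_le.1 f3
        rw [abs_le]
        constructor <;> linarith only [e1.1, e1.2, e2.1, e2.2, hε]
      · right
        push Not at hg
        obtain ⟨a, b, hab, hgab⟩ := hg
        -- order the pair
        obtain ⟨a, b, hab, hle, hgab⟩ : ∃ a b, a ≠ b ∧ j a ≤ j b ∧ (j b : ℝ) - j a < A * √ (Real.log V') := by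
          rcases le_total (j a) (j b) with h5 | h5
          · refine ⟨a, b, hab, h5, ?_⟩
            have : |(j a : ℝ) - j b| = (j b : ℝ) - j a := by
              rw [abs_sub_comm, abs_of_nonneg]
              have : (j a : ℝ) ≤ j b := by exact_mod_cast h5
              linarith only [this]
            rw [← this]; exact hgab
          · refine ⟨b, a, hab.symm, h5, ?_⟩
            have : |(j a : ℝ) - j b| = (j a : ℝ) - j b := by
              rw [abs_of_nonneg]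
              have : (j b : ℝ) ≤ j a := by exact_mod_cast h5
              linarith only [this]
            rw [← this]; exact hgab
        obtain ⟨e, he⟩ : ∃ e : ℕ, j b = j a + e := ⟨j b - j a, by omega⟩
        have her : (j b : ℝ) - j a = e := by rw [he]; push_cast; ring
        rw [her] at hgab
        have hsq : √ (Real.log V') ≤ 1.2 * √ (h : ℝ) := by
          rw [Real.sqrt_le_left (by positivity), mul_pow, Real.sq_sqrt hhr.le]
          norm_num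
          linarith only [hlgu, hhr]
        have h2e : 2 * (e : ℝ) ≤ 3 * A * √ (h : ℝ) := by
          have := mul_le_mul_of_nonneg_left hsq hA.le
          have h7 : 0 ≤ A * √ (h : ℝ) := by positivity
          linarith only [this, hgab, h7]
        have hV3 : 1 ≤ 3 ^ j a * V' := hV'1.trans (le_mul_of_one_le_left hV'0.le (one_le_pow₀ (by norm_num)))
        have h8 := bar_end2 (j := e) u1 u6 (show 1 ≤ h by omega) hA.le hV3 (hj3 a) ha1' h2e
        have h9 : ((j b : ℕ) : ℤ) - j a = (e : ℤ) := by rw [he]; push_cast; ring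
        refine h8.trans ?_
        rw [← h9]
        unfold BrN
        have h10 : Br u (3 ^ j a * V') ((j b : ℤ) - j a) ≤ ∑ b, if a = b then 0 else Br u (3 ^ j a * V') ((j b : ℤ) - j a) := by
          have := single_le_sum (f := fun b => if a = b then 0 else Br u (3 ^ j a * V') ((j b : ℤ) - j a)) (s := univ)
            (fun b _ => by
              by_cases hb : a = b
              · rw [if_pos hb]
              · rw [if_neg hb]; exact Br_nonneg u3 _ _ _) (mem_univ b)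
          simp only [if_neg hab] at this
          exact this
        refine h10.trans ?_
        exact single_le_sum (f := fun a => ∑ b, if a = b then 0 else Br u (3 ^ j a * V') ((j b : ℤ) - j a)) (s := univ)
          (fun a _ => sum_nonneg fun b _ => by
              by_cases hb : a = b
              · rw [if_pos hb]
              · rw [if_neg hb]; exact Br_nonneg u3 _ _ _) (mem_univ a))
  have htop := hcore m hhm le_rfl W hmV1 hmV2 k hk0
  -- numeric at the top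
  have e0 : ∑ a, (((k a : ℝ) - k 0) - ((k a : ℝ) - k 0)) ^ 2 = 0 := by simp
  rw [e0, mul_zero] at htop
  have t1 : 66 * ((n : ℝ) + 1) * (m : ℝ) / Λ = ε / 16 := by
    rw [hΛ, hΛc, ← hN]; field_simp; norm_num
  have hBr1 : BrN u W k ≤ N ^ 2 * (u * (CU / √ (m : ℝ))) := by
    unfold BrN
    have h1 : ∀ a b : Fin (n + 1), (if a = b then 0 else Br u (3 ^ k a * W) ((k b : ℤ) - k a)) ≤ u * (CU / √ (m : ℝ)) := by
      intro a b
      by_cases hab : a = b
      · rw [if_pos hab]; positivity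
      · rw [if_neg hab]
        exact bar_top2 hCU u4 hmn (hmV1.trans (le_mul_of_one_le_left hW0.le (one_le_pow₀ (by norm_num)))) _
    refine (sum_le_sum fun a _ => sum_le_sum fun b _ => h1 a b).trans (le_of_eq ?_)
    simp only [sum_const, card_univ, Fintype.card_fin, nsmul_eq_mul]
    rw [hN]; push_cast; ring
  have t2 : 4 * BrN u W k ≤ ε / 8 := by
    have hsm0 : 0 < √ (m : ℝ) := Real.sqrt_pos.2 hm00
    have h5 : √ (h : ℝ) ≤ κ * √ (m : ℝ) := by
      rw [Real.sqrt_le_left (by positivity), mul_pow, Real.sq_sqrt hm00.le]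
      calc (h : ℝ) ≤ 2 * (η * m) := hh2
        _ = (2 * η) * m := by ring
        _ ≤ κ ^ 2 * m := mul_le_mul_of_nonneg_right hηκ hm00.le
    have h6 : (u : ℝ) * (CU / √ (m : ℝ)) ≤ (3 * A + 11) * κ * CU := by
      have h7 : (u : ℝ) ≤ (3 * A + 11) * (κ * √ (m : ℝ)) :=
        ha2.trans (mul_le_mul_of_nonneg_left h5 (by positivity))
      calc (u : ℝ) * (CU / √ (m : ℝ)) ≤ (3 * A + 11) * (κ * √ (m : ℝ)) * (CU / √ (m : ℝ)) :=
            mul_le_mul_of_nonneg_right h7 (by positivity)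
        _ = (3 * A + 11) * κ * CU := by field_simp
    have h8 : (3 * A + 11) * κ * CU ≤ ε / (32 * N ^ 2) := by
      rw [hκ]
      calc (3 * A + 11) * (ε / (32 * N ^ 2 * (3 * A + 11) * (CU + 1))) * CU
          ≤ (3 * A + 11) * (ε / (32 * N ^ 2 * (3 * A + 11) * (CU + 1))) * (CU + 1) :=
            mul_le_mul_of_nonneg_left (by linarith only []) (by positivity)
        _ = ε / (32 * N ^ 2) := by field_simp
    calc 4 * BrN u W k ≤ 4 * (N ^ 2 * (ε / (32 * N ^ 2))) := by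
          apply mul_le_mul_of_nonneg_left _ (by norm_num)
          exact hBr1.trans (mul_le_mul_of_nonneg_left (h6.trans h8) (by positivity))
      _ = ε / 8 := by field_simp; norm_num
  have t3 : 12 * E / (L : ℝ) ^ 2 * (Real.log m - Real.log h) ≤ ε / 16 := by
    have h1 : Real.log m - Real.log h ≤ -Real.log η := by
      have := Real.log_le_log (by positivity) hh1
      rw [Real.log_mul hη0.ne' hm00.ne'] at this
      linarith only [this]
    have h2 : 12 * E * (-Real.log η) * 16 / ε ≤ L := (le_max_right _ _).trans G3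
    rw [div_le_iff₀ hε] at h2
    have hη1 : 0 ≤ -Real.log η := by
      have := Real.log_nonpos hη0.le (by linarith only [hη4])
      linarith only [this]
    have hL1r : (1 : ℝ) ≤ L := by exact_mod_cast (show 1 ≤ L by omega)
    calc 12 * E / (L : ℝ) ^ 2 * (Real.log m - Real.log h) ≤ 12 * E / (L : ℝ) ^ 2 * (-Real.log η) :=
          mul_le_mul_of_nonneg_left h1 (by positivity)
      _ = (12 * E * (-Real.log η)) / (L : ℝ) ^ 2 := by ring
      _ ≤ (ε / 16 * L) / (L : ℝ) ^ 2 := div_le_div_of_nonneg_right (by linarith only [h2]) (by positivity)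
      _ = ε / 16 / L := by field_simp
      _ ≤ ε / 16 := div_le_self (by positivity) hL1r
  rw [t1, ← hE] at htop
  have hfin : |en F (GM M) W k| ≤ ε / 2 := by linarith only [htop, t2, t3, hε]
  unfold en at hfin
  rw [hk0W] at hfin
  have hlast := hKT1 (GM M) hGok V hVVT (i 0) ((hi 0).trans (Real.rpow_le_rpow_of_exponent_le hlogV1 hθ2.le))
    (fun a => 2 * (k a : ℤ))
  rw [hcnW, hCwW]
  have e1 := abs_le.1 hfin
  have e2 := abs_le.1 hlast
  rw [abs_le]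
  constructor <;> linarith only [e1.1, e1.2, e2.1, e2.2, hε]

/-- THE JOINT LAW -/
theorem kl5 (d : ℤ) (hd : d = 1 ∨ d = -1) (hU : S_U) (hC : S_CW) (hS : S_STAGEN d) (hW : S_WKN d) (hB : S_WK2 d)
    (hM : S_MG d) (hFar : S_FARN d) (hKT : S_KT) : S_KL d := by
  have h : ∀ n, KLn d n := by
    intro n
    induction n with
    | zero => exact kln_zero d hC fun M => ⟨fun x => by unfold GM; simp, fun x s => by unfold GM; simp⟩
    | succ n ih => exact kln_succ d hd hU hC hS hW hB hM hFar hKT n ih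
  intro n F hF M hMn ε hε
  exact h n 0.98 (by norm_num) (by norm_num) F hF M hMn ε hε

end Pool.Agent.KS6_24.ST
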