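import Mathlib
import Pool.Agent.KS6_24.ST.KL4
import Pool.Agent.KS6_24.ST.PL6

/-! KL5b: the inputs of the induction for the joint law. -/

set_option autoImplicit false

namespace Pool.Agent.KS6_24.ST

open Pool.Agent.H499R2.CO Pool.Agent.Y965.SI Finset Filter Topology Pool.Agent.KS6_24.LN

/-! ### (A) far levels -/

/-- `S_CORNL` with the mean zero function at the place `b` -/
theorem cornl_at {d : ℤ} (h : S_CORNL d) {n : ℕ} (F : Fin n → ℤ → ℝ) (hF : ∀ a, InvF d (F a)) (b : Fin n)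
    (hm : MeanZero (F b)) {ε : ℝ} (hε : 0 < ε) : ∃ A V0 : ℝ, 0 < A ∧ 1 ≤ V0 ∧ ∀ V : ℝ, V0 ≤ V → ∀ i : Fin n → ℕ,
      (∀ a, (i a : ℝ) ≤ Real.log V ^ (0.99 : ℝ)) → (∀ a b, a ≠ b → A * √ (Real.log V) ≤ |(i a : ℝ) - i b|) →
      |cn F V (fun a => i a)| ≤ ε := by
  obtain ⟨n, rfl⟩ : ∃ n', n = n' + 1 := ⟨n - 1, by have := b.2; omega⟩
  obtain ⟨σ, hσ⟩ : ∃ σ : Equiv.Perm (Fin (n + 1)), σ = Equiv.swap 0 b := ⟨_, rfl⟩
  have hσ0 : σ 0 = b := by rw [hσ]; exact Equiv.swap_apply_left 0 b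
  obtain ⟨A, V0, hA, hV0, hc⟩ := h n (fun a => F (σ a)) (fun a => hF _) (by rw [hσ0]; exact hm) ε hε
  refine ⟨A, V0, hA, hV0, fun V hV i hi hgap => ?_⟩
  have h1 := hc V hV (fun a => i (σ a)) (fun a => hi _) (fun a b hab => hgap _ _ (σ.injective.ne hab))
  rwa [cn_perm F V (fun a => i a) σ] at h1

theorem mz_half {f : ℤ → ℝ} (h : MeanZero f) : MeanZero (fun x => (1 / 2) * f x) := by
  unfold MeanZero at h ⊢
  have h1 := h.const_mul (1 / 2)
  rw [mul_zero] at h1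
  refine h1.congr fun N => ?_
  rw [← mul_sum]; ring

theorem invF_half {d : ℤ} {f : ℤ → ℝ} (hf : InvF d f) {δ : ℝ} (hδ : |δ| ≤ 1) : InvF d (fun x => (1 / 2) * (f x - δ)) := by
  refine ⟨fun x => ?_, fun x => ?_⟩
  · have h1 := hf.1 x
    rw [abs_mul, abs_of_pos (by norm_num : (0 : ℝ) < 1 / 2)]
    have := abs_sub (f x) δ
    linarith
  · simp only
    rw [hf.2 x]

theorem prod_diff_half {ι : Type*} [Fintype ι] [DecidableEq ι] (b : ι) (u v w : ι → ℝ) (h1 : ∀ a, a ≠ b → u a = w a)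
    (h2 : ∀ a, a ≠ b → v a = w a) (h3 : 2 * w b = u b - v b) : ∏ a, u a - ∏ a, v a = 2 * ∏ a, w a := by
  rw [← mul_prod_erase univ u (mem_univ b), ← mul_prod_erase univ v (mem_univ b), ← mul_prod_erase univ w (mem_univ b)]
  have e1 : ∏ a ∈ univ.erase b, u a = ∏ a ∈ univ.erase b, w a := prod_congr rfl fun a ha => h1 a (ne_of_mem_erase ha)
  have e2 : ∏ a ∈ univ.erase b, v a = ∏ a ∈ univ.erase b, w a := prod_congr rfl fun a ha => h2 a (ne_of_mem_erase ha)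
  rw [e1, e2, ← mul_assoc, h3]; ring

/-- mixing for bounded invariant functions, levels up to `(log V) ^ 0.99` -/
theorem cn_mixL {d : ℤ} (h : S_CORNL d) {n : ℕ} {g : Fin n → ℤ → ℝ} {δ : Fin n → ℝ} (hg : ∀ a, InvF d (g a))
    (hδ : ∀ a, |δ a| ≤ 1) (hm : ∀ a, MeanZero (fun x => g a x - δ a))
    {ε : ℝ} (hε : 0 < ε) : ∃ A V0 : ℝ, 0 < A ∧ 1 ≤ V0 ∧ ∀ V : ℝ, V0 ≤ V → ∀ i : Fin n → ℕ,
      (∀ a, (i a : ℝ) ≤ Real.log V ^ (0.99 : ℝ)) → (∀ a b, a ≠ b → A * √ (Real.log V) ≤ |(i a : ℝ) - i b|) →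
      |cn g V (fun a => i a) - ∏ a, δ a| ≤ ε := by
  classical
  -- the hybrids
  obtain ⟨W, hW⟩ : ∃ W : Fin n → Fin n → ℤ → ℝ,
      W = fun b a => if a < b then (fun _ => δ a) else if a = b then (fun x => (1 / 2) * (g a x - δ a)) else g a := ⟨_, rfl⟩
  have hWinv : ∀ b a, InvF d (W b a) := by
    intro b a
    rw [hW]
    simp only
    split_ifs
    · exact invF_const (hδ a)
    · exact invF_half (hg a) (hδ a)
    · exact hg a
  have hWm : ∀ b, MeanZero (W b b) := by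
    intro b
    rw [hW]
    simp only [lt_irrefl, if_false, if_true]
    exact mz_half (hm b)
  have hε' : 0 < ε / (2 * (n + 1)) := by positivity
  choose A V0 hA hV0 hc using fun b => cornl_at h (W b) (hWinv b) b (hWm b) hε'
  refine ⟨1 + ∑ b, A b, 1 + ∑ b, V0 b, ?_, ?_, fun V hV i hi hgap => ?_⟩
  · have := sum_nonneg fun b (_ : b ∈ (univ : Finset (Fin n))) => (hA b).le
    linarith
  · have := sum_nonneg fun b (_ : b ∈ (univ : Finset (Fin n))) => (show 0 ≤ V0 b by linarith [hV0 b])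
    linarith
  have hV1 : 1 ≤ V := by
    have := sum_nonneg fun b (_ : b ∈ (univ : Finset (Fin n))) => (show 0 ≤ V0 b by linarith [hV0 b])
    linarith
  have hV : ∀ b, |cn (W b) V (fun a => i a)| ≤ ε / (2 * (n + 1)) := by
    intro b
    apply hc b V
    · have := single_le_sum (f := V0) (fun b _ => (show 0 ≤ V0 b by linarith [hV0 b])) (mem_univ b)
      linarith
    · exact hi
    · intro a b' hab
      refine le_trans ?_ (hgap a b' hab)
      apply mul_le_mul_of_nonneg_right _ (Real.sqrt_nonneg _)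
      have := single_le_sum (f := A) (fun b _ => (hA b).le) (mem_univ b)
      linarith
  -- telescoping
  obtain ⟨G, hG⟩ : ∃ G : ℕ → ℝ, G = fun b => cn (fun a : Fin n => if (a : ℕ) < b then (fun _ => δ a) else g a) V
      (fun a => i a) := ⟨_, rfl⟩
  have hG0 : G 0 = cn g V (fun a => i a) := by rw [hG]; simp only [Nat.not_lt_zero, if_false]
  have hGn : G n = ∏ a, δ a := by
    rw [hG]
    simp only [Fin.is_lt, if_true]
    unfold cn
    exact av_const (by linarith) _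
  have hGb : ∀ b : ℕ, ∀ hb : b < n, G b - G (b + 1) = 2 * cn (W ⟨b, hb⟩) V (fun a => i a) := by
    intro b hb
    rw [hG]
    simp only
    unfold cn
    have hbd : ∀ b : ℕ, Bd 1 (fun y => ∏ a : Fin n, (if (a : ℕ) < b then (fun _ => δ a) else g a) ⌊(3 : ℝ) ^ ((i a : ℕ) : ℤ) * y⌋) := by
      intro b
      apply cn_bd
      intro a x
      split_ifs
      · exact hδ a
      · exact (hg a).1 x
    rw [← av_sub V (hbd b) (hbd (b + 1)), ← av_cmul]
    congr 1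
    funext y
    apply prod_diff_half (⟨b, hb⟩ : Fin n)
    · intro a ha
      have ha' : (a : ℕ) ≠ b := fun h => ha (Fin.ext h)
      rw [hW]
      simp only [Fin.lt_def, ha, if_false]
    · intro a ha
      have ha' : (a : ℕ) ≠ b := fun h => ha (Fin.ext h)
      rw [hW]
      simp only [Fin.lt_def, ha, if_false]
      have : (a : ℕ) < b + 1 ↔ (a : ℕ) < b := by omega
      simp only [this]
    · rw [hW]
      simp only [lt_irrefl, if_false, if_true, Nat.lt_succ_self]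
      ring
  have hsum : G 0 - G n = ∑ b ∈ range n, (G b - G (b + 1)) := (sum_range_sub' G n).symm
  rw [← hG0, ← hGn, hsum]
  calc |∑ b ∈ range n, (G b - G (b + 1))| ≤ ∑ b ∈ range n, |G b - G (b + 1)| := abs_sum_le_sum_abs _ _
    _ ≤ ∑ b ∈ range n, 2 * (ε / (2 * (n + 1))) := by
        apply sum_le_sum
        intro b hb
        rw [hGb b (mem_range.1 hb), abs_mul, abs_of_pos (by norm_num : (0 : ℝ) < 2)]
        exact mul_le_mul_of_nonneg_left (hV _) (by norm_num)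
    _ = n * (ε / (n + 1)) := by rw [sum_const, card_range, nsmul_eq_mul]; field_simp
    _ ≤ ε := by
        rw [← mul_div_assoc, div_le_iff₀ (by positivity)]
        nlinarith

/-- far walkers do not meet -/
theorem walk_far (hC : S_CW) (n : ℕ) {ε : ℝ} (hε : 0 < ε) : ∃ A : ℝ, 0 < A ∧ ∀ G : (Fin n → ℤ) → ℝ, Gok G →
    ∀ g0 : ℝ, (∀ x, Function.Injective x → G x = g0) → ∀ X : ℝ, 1 ≤ X → ∀ i : Fin n → ℕ,
      (∀ a b, a ≠ b → A * √ X ≤ |(i a : ℝ) - i b|) → ∀ k : ℕ, (k : ℝ) ≤ 20 * X + 20 →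
      |Cw G k (fun a => 2 * (i a : ℤ)) - g0| ≤ ε := by
  obtain ⟨C, hC1, hC⟩ := hC
  have hC0 : 0 < C := by linarith
  set A : ℝ := 7 * √ (C * ((n : ℝ) ^ 2 + 1) / ε) with hA
  have hA0 : 0 < A := by rw [hA]; positivity
  have hA2 : A ^ 2 = 49 * (C * ((n : ℝ) ^ 2 + 1) / ε) := by
    rw [hA, mul_pow, Real.sq_sqrt (by positivity)]; norm_num
  refine ⟨A, hA0, fun G hG g0 hg0 X hX i hi k hk => ?_⟩
  have hX0 : 0 < X := by linarith
  have hsX : 0 < √ X := Real.sqrt_pos.2 hX0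
  obtain ⟨_, _, _, _, _, c6⟩ := hC n G hG
  have hne : ∀ a b, a ≠ b → i a ≠ i b := by
    intro a b hab h
    have := hi a b hab
    rw [h, sub_self, abs_zero] at this
    have h2 : 0 < A * √ X := by positivity
    linarith
  rcases Nat.eq_zero_or_pos k with hk0 | hk0
  · subst hk0
    have : Cw G 0 (fun a => 2 * (i a : ℤ)) = g0 := by
      apply hg0
      intro a b hab
      simp only at hab
      by_contra hne'
      exact hne a b hne' (by omega)
    rw [this, sub_self, abs_zero]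
    exact hε.le
  have hkr : (0 : ℝ) < k := by exact_mod_cast hk0
  refine (c6 g0 hg0 k (fun a => 2 * (i a : ℤ)) (fun a b => by omega)).trans ?_
  set y : ℝ := A ^ 2 / 40 with hy
  have hy0 : 0 < y := by positivity
  have h1 : ∀ a b : Fin n, (if a = b then 0 else Real.exp (-((((2 * (i a : ℤ) : ℤ)) : ℝ) - ((2 * (i b : ℤ) : ℤ) : ℝ)) ^ 2
      / (4 * k))) ≤ 1 / y := by
    intro a b
    split_ifs with hab
    · positivity
    · set u : ℝ := (i a : ℝ) - i b with hu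
      have e1 : ((((2 * (i a : ℤ) : ℤ)) : ℝ) - ((2 * (i b : ℤ) : ℤ) : ℝ)) ^ 2 = 4 * u ^ 2 := by
        rw [hu]; push_cast; ring
      rw [e1]
      have e2 : -(4 * u ^ 2) / (4 * (k : ℝ)) = -(u ^ 2 / k) := by field_simp
      rw [e2]
      have h2 : A ^ 2 * X ≤ u ^ 2 := by
        have h3 := pow_le_pow_left₀ (by positivity) (hi a b hab) 2
        rw [mul_pow, Real.sq_sqrt hX0.le, sq_abs] at h3
        exact h3
      have h4 : y ≤ u ^ 2 / k := by
        rw [le_div_iff₀ hkr, hy]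
        calc A ^ 2 / 40 * (k : ℝ) ≤ A ^ 2 / 40 * (40 * X) := mul_le_mul_of_nonneg_left (by linarith) (by positivity)
          _ = A ^ 2 * X := by ring
          _ ≤ u ^ 2 := h2
      have h5 : Real.exp (-(u ^ 2 / k)) ≤ Real.exp (-y) := Real.exp_le_exp.2 (by linarith)
      refine h5.trans ?_
      rw [Real.exp_neg, inv_eq_one_div]
      apply one_div_le_one_div_of_le hy0
      have := Real.add_one_le_exp y
      linarith
  have h2 : Ep k (fun a => 2 * (i a : ℤ)) ≤ (n : ℝ) ^ 2 * (1 / y) := by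
    unfold Ep
    calc _ ≤ ∑ a : Fin n, ∑ b : Fin n, 1 / y := sum_le_sum fun a _ => sum_le_sum fun b _ => h1 a b
      _ = (n : ℝ) ^ 2 * (1 / y) := by
        rw [sum_const, sum_const, card_univ, Fintype.card_fin, nsmul_eq_mul, nsmul_eq_mul]; ring
  calc C * Ep k (fun a => 2 * (i a : ℤ)) ≤ C * ((n : ℝ) ^ 2 * (1 / y)) := mul_le_mul_of_nonneg_left h2 hC0.le
    _ = C * (n : ℝ) ^ 2 / y := by ring
    _ ≤ ε := by
      rw [div_le_iff₀ hy0, hy, hA2]
      have e : ε * (49 * (C * ((n : ℝ) ^ 2 + 1) / ε) / 40) = 49 / 40 * (C * ((n : ℝ) ^ 2 + 1)) := by field_simp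
      rw [e]
      have : 0 ≤ C * (n : ℝ) ^ 2 := by positivity
      nlinarith

/-- (A): far levels, both sides are close to the product of the means -/
theorem farN {d : ℤ} (hL : S_CORNL d) (hC : S_CW) {n : ℕ} {F : Fin n → ℤ → ℝ} (hF : ∀ a, InvF d (F a))
    {M : Finset (Fin n) → ℝ} (hM : Mn F M) {ε : ℝ} (hε : 0 < ε) : ∃ A V0 : ℝ, 0 < A ∧ 1 ≤ V0 ∧ ∀ V : ℝ, V0 ≤ V →
      ∀ i : Fin n → ℕ, (∀ a, (i a : ℝ) ≤ Real.log V ^ (0.99 : ℝ)) →
        (∀ a b, a ≠ b → A * √ (Real.log V) ≤ |(i a : ℝ) - i b|) →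
        |cn F V (fun a => i a) - ∏ a, M {a}| ≤ ε ∧ ∀ k : ℕ, (k : ℝ) ≤ 20 * Real.log V + 20 →
          |Cw (GM M) k (fun a => 2 * (i a : ℤ)) - ∏ a, M {a}| ≤ ε := by
  obtain ⟨A1, V1, hA1, hV1, h1⟩ := cn_mixL hL (g := F) (δ := fun a => M {a}) hF (fun a => hM.1 _)
    (fun a => by simpa using hM.2 {a}) hε
  obtain ⟨A2, hA2, h2⟩ := walk_far hC n hε
  refine ⟨A1 + A2, max V1 (Real.exp 1), by linarith, hV1.trans (le_max_left _ _), fun V hV i hi hgap => ⟨?_, ?_⟩⟩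
  · apply h1 V ((le_max_left _ _).trans hV) i hi
    intro a b hab
    refine le_trans ?_ (hgap a b hab)
    exact mul_le_mul_of_nonneg_right (by linarith) (Real.sqrt_nonneg _)
  · intro k hk
    have hV' : Real.exp 1 ≤ V := (le_max_right _ _).trans hV
    have hlog : 1 ≤ Real.log V := by
      rw [Real.le_log_iff_exp_le (lt_of_lt_of_le (Real.exp_pos _) hV')]
      exact hV'
    apply h2 (GM M) ⟨fun x => KL4.GM_abs hM.1 x, fun x s => KL4.GM_trans M x s⟩ _ (fun x hx => KL4.GM_inj M x hx)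
      (Real.log V) hlog i _ k hk
    intro a b hab
    refine le_trans ?_ (hgap a b hab)
    exact mul_le_mul_of_nonneg_right (by linarith) (Real.sqrt_nonneg _)

/-! ### (B) the pair barrier -/

theorem UU_diff {CU : ℝ} (hCU : 0 < CU) (u4 : ∀ (k : ℕ) (j : ℤ), UU k (j + 1) - UU k j ≤ CU / √ ((k : ℝ) + 1))
    {m k : ℕ} (hm : 1 ≤ m) (hk : m ≤ k + 1) (a : ℕ) (j : ℤ) : UU k (j + a) - UU k (j - a) ≤ 2 * a * CU / √ (m : ℝ) := by
  have hm0 : (0 : ℝ) < m := by exact_mod_cast hm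
  have h1 := UU_sum u4 k (j - a) (2 * a)
  have e : j - a + ((2 * a : ℕ) : ℤ) = j + a := by push_cast; ring
  rw [e] at h1
  have h3 : √ (m : ℝ) ≤ √ ((k : ℝ) + 1) := Real.sqrt_le_sqrt (by exact_mod_cast hk)
  have hsm0 : 0 < √ (m : ℝ) := Real.sqrt_pos.2 hm0
  have h4 : CU / √ ((k : ℝ) + 1) ≤ CU / √ (m : ℝ) := div_le_div_of_nonneg_left hCU.le hsm0 h3
  refine h1.trans ?_
  push_cast
  calc 2 * (a : ℝ) * (CU / √ ((k : ℝ) + 1)) ≤ 2 * a * (CU / √ (m : ℝ)) := mul_le_mul_of_nonneg_left h4 (by positivity)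
    _ = 2 * a * CU / √ (m : ℝ) := by ring

/-- the barrier at the top -/
theorem Br_top {CU : ℝ} (hCU : 0 < CU) (u4 : ∀ (k : ℕ) (j : ℤ), UU k (j + 1) - UU k j ≤ CU / √ ((k : ℝ) + 1))
    {m : ℕ} {V : ℝ} (hm : 1 ≤ m) (hV : 2 ^ m ≤ V) (a i : ℕ) (j : ℤ) : Br a (3 ^ i * V) j ≤ a * CU / √ (m : ℝ) := by
  have l2 := Real.log_two_gt_d9
  have hV0 : 0 < V := lt_of_lt_of_le (by positivity) hV
  have hV' : 2 ^ m ≤ 3 ^ i * V := hV.trans (le_mul_of_one_le_left hV0.le (one_le_pow₀ (by norm_num)))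
  have hV1 : 1 ≤ 3 ^ i * V := le_trans (one_le_pow₀ (by norm_num)) hV'
  have hm0 : (0 : ℝ) < m := by exact_mod_cast hm
  have h2 : 13 * (0.69 * (m : ℝ)) ≤ (kk (3 ^ i * V) : ℝ) + 1 := by
    apply kk_ge hV1 _ (by positivity)
    have := Real.log_le_log (by positivity) hV'
    rw [Real.log_pow] at this
    nlinarith
  have h3 : m ≤ kk (3 ^ i * V) + 1 := by
    have : (m : ℝ) ≤ (kk (3 ^ i * V) : ℝ) + 1 := by linarith
    exact_mod_cast this
  have h4 := UU_diff hCU u4 hm h3 a (2 * j)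
  unfold Br
  have e : 2 * (a : ℝ) * CU / √ (m : ℝ) = 2 * (a * CU / √ (m : ℝ)) := by ring
  rw [e] at h4
  linarith

/-- the barrier at the end -/
theorem Br_end (u1 : ∀ k j, UU k (-j) = - UU k j)
    (u6 : ∀ (k : ℕ) (j : ℤ), 1 ≤ j → 1 - 2 * k / (j : ℝ) ^ 2 ≤ UU k j) {h a i : ℕ} {V : ℝ} (hh : 1 ≤ h)
    (hV1 : 1 ≤ V) (hV2 : V < 2 ^ (2 * h)) (hi : i ≤ h) {j : ℤ} (hj : 2 * |(j : ℝ)| + 13 * √ (h : ℝ) ≤ a) :
    1 / 2 ≤ Br a (3 ^ i * V) j := by
  have l2 := Real.log_two_gt_d9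
  have l2' := Real.log_two_lt_d9
  have l3 := log3_lt
  have l30 : 0 < Real.log 3 := Real.log_pos (by norm_num)
  have hhr : (1 : ℝ) ≤ h := by exact_mod_cast hh
  have hsh1 : 1 ≤ √ (h : ℝ) := by rw [Real.one_le_sqrt]; exact hhr
  have hV0 : 0 < V := by linarith
  have hir : (i : ℝ) ≤ h := by exact_mod_cast hi
  have hkk : (kk (3 ^ i * V) : ℝ) ≤ 36 * h := by
    have e0 : Real.log V ≤ 1.3863 * h := by
      have := Real.log_le_log hV0 hV2.le
      rw [Real.log_pow] at this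
      push_cast at this
      nlinarith
    have e1 : Real.log (3 ^ i * V) ≤ 2.4863 * h := by
      rw [Real.log_mul (by positivity) hV0.ne', Real.log_pow]
      have : (i : ℝ) * Real.log 3 ≤ h * 1.1 := mul_le_mul hir l3.le l30.le (by positivity)
      linarith
    have hV'1 : 1 ≤ 3 ^ i * V := one_le_mul_of_one_le_of_one_le (one_le_pow₀ (by norm_num)) hV1
    have := kk_le hV'1 e1
    have h3 : 2 * (2.4863 * (h : ℝ)) / 0.14 ≤ 36 * h := by
      rw [div_le_iff₀ (by norm_num)]; nlinarith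
    linarith
  have hlow : ∀ x : ℤ, 13 * √ (h : ℝ) ≤ (x : ℝ) → 1 / 2 ≤ UU (kk (3 ^ i * V)) x := by
    intro x hx
    have hx0 : (1 : ℝ) ≤ x := by linarith
    have hx1 : 1 ≤ x := by exact_mod_cast hx0
    have h3 := u6 (kk (3 ^ i * V)) x hx1
    have h4 : 2 * (kk (3 ^ i * V) : ℝ) / (x : ℝ) ^ 2 ≤ 1 / 2 := by
      rw [div_le_div_iff₀ (by positivity) (by norm_num)]
      have h5 : (13 * √ (h : ℝ)) ^ 2 ≤ (x : ℝ) ^ 2 := pow_le_pow_left₀ (by positivity) hx 2
      rw [mul_pow, Real.sq_sqrt (by linarith)] at h5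
      linarith
    linarith
  have hj1 := le_abs_self (j : ℝ)
  have hj2 := neg_abs_le (j : ℝ)
  have h3 := hlow (2 * j + a) (by push_cast; linarith)
  have h4 := hlow ((a : ℤ) - 2 * j) (by push_cast; linarith)
  have h5 : UU (kk (3 ^ i * V)) (2 * j - a) = - UU (kk (3 ^ i * V)) ((a : ℤ) - 2 * j) := by
    rw [← u1]; congr 1; ring
  unfold Br
  rw [h5]
  linarith

/-! ### (C) the number of steps -/

theorem kn_ge {m : ℕ} {V : ℝ} (hV : 2 ^ m ≤ V) (i : ℕ) : m ≤ kn (3 ^ i * V) := by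
  obtain ⟨g0, g1⟩ := gm_bounds
  have l2 := Real.log_two_gt_d9
  have hV0 : 0 < V := lt_of_lt_of_le (by positivity) hV
  have hV' : 2 ^ m ≤ 3 ^ i * V := hV.trans (le_mul_of_one_le_left hV0.le (one_le_pow₀ (by norm_num)))
  have hlV : m * Real.log 2 ≤ Real.log (3 ^ i * V) := by
    have := Real.log_le_log (by positivity) hV'
    rwa [Real.log_pow] at this
  unfold kn
  apply Nat.le_floor
  rw [le_div_iff₀ g0]
  have hm0 : (0 : ℝ) ≤ m := Nat.cast_nonneg m
  nlinarith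

/-- the change of the number of steps -/
theorem kn_diff {V : ℝ} (hV : 1 ≤ V) (i : ℕ) : kn V ≤ kn (3 ^ i * V) ∧ kn (3 ^ i * V) ≤ kn V + (8 * i + 1) := by
  obtain ⟨g0, g1⟩ := gm_bounds
  have g2 := gm_gt
  have l3 := log3_lt
  have l30 : 0 < Real.log 3 := Real.log_pos (by norm_num)
  have hV0 : 0 < V := by linarith
  have hl0 : 0 ≤ Real.log V := Real.log_nonneg hV
  have e : Real.log (3 ^ i * V) = i * Real.log 3 + Real.log V := by
    rw [Real.log_mul (by positivity) hV0.ne', Real.log_pow]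
  unfold kn
  constructor
  · apply Nat.floor_le_floor
    apply div_le_div_of_nonneg_right _ g0.le
    rw [e]
    have : 0 ≤ (i : ℝ) * Real.log 3 := by positivity
    linarith
  · have h1 : Real.log (3 ^ i * V) / gm ≤ Real.log V / gm + 8 * i := by
      rw [e, add_div, add_comm]
      apply add_le_add le_rfl
      rw [div_le_iff₀ g0]
      have : (i : ℝ) * Real.log 3 ≤ i * (8 * gm) := mul_le_mul_of_nonneg_left (by linarith) (Nat.cast_nonneg _)
      linarith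
    have h2 := Nat.floor_le (show 0 ≤ Real.log (3 ^ i * V) / gm from div_nonneg (by rw [e]; positivity) g0.le)
    have h3 := Nat.lt_floor_add_one (Real.log V / gm)
    have h4 : ((⌊Real.log (3 ^ i * V) / gm⌋₊ : ℕ) : ℝ) < ((⌊Real.log V / gm⌋₊ + (8 * i + 1) : ℕ) : ℝ) := by
      push_cast; linarith
    have h5 : ⌊Real.log (3 ^ i * V) / gm⌋₊ < ⌊Real.log V / gm⌋₊ + (8 * i + 1) := by exact_mod_cast h4
    exact h5.le

theorem kn_le20 {V : ℝ} (hV : 1 ≤ Real.log V) (hV0 : 0 < V) {i : ℕ} (hi : (i : ℝ) ≤ Real.log V ^ (0.99 : ℝ)) :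
    (kn (3 ^ i * V) : ℝ) ≤ 20 * Real.log V + 20 := by
  obtain ⟨g0, g1⟩ := gm_bounds
  have g2 := gm_gt
  have l3 := log3_lt
  have l30 : 0 < Real.log 3 := Real.log_pos (by norm_num)
  have e : Real.log (3 ^ i * V) = i * Real.log 3 + Real.log V := by
    rw [Real.log_mul (by positivity) hV0.ne', Real.log_pow]
  have h1 : (i : ℝ) ≤ Real.log V := by
    refine hi.trans ?_
    calc Real.log V ^ (0.99 : ℝ) ≤ Real.log V ^ (1 : ℝ) := Real.rpow_le_rpow_of_exponent_le hV (by norm_num)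
      _ = Real.log V := Real.rpow_one _
  have h2 : (i : ℝ) * Real.log 3 ≤ Real.log V * 1.1 := mul_le_mul h1 l3.le l30.le (by linarith)
  unfold kn
  refine (Nat.floor_le (div_nonneg (by rw [e]; positivity) g0.le)).trans ?_
  rw [div_le_iff₀ g0, e]
  nlinarith

/-- (C): the number of steps may be taken at the height of `V` -/
theorem kn_transfer (hC : S_CW) (n : ℕ) {ε : ℝ} (hε : 0 < ε) : ∃ V0 : ℝ, 1 ≤ V0 ∧ ∀ G : (Fin n → ℤ) → ℝ, Gok G →
    ∀ V : ℝ, V0 ≤ V → ∀ i : ℕ, (i : ℝ) ≤ Real.log V ^ (0.99 : ℝ) → ∀ x : Fin n → ℤ,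
      |Cw G (kn (3 ^ i * V)) x - Cw G (kn V) x| ≤ ε := by
  obtain ⟨C, hC1, hC⟩ := hC
  have hC0 : 0 < C := by linarith
  -- `C n (√(8 X^0.99 + 1) + 1) / √X → 0`
  have hlim : Tendsto (fun X : ℝ => C * n * (√ (8 * X ^ (0.99 : ℝ) + 1) + 1) / √ X) atTop (𝓝 0) := by
    have h1 : Tendsto (fun X : ℝ => 8 * X ^ (-(0.01 : ℝ)) + X⁻¹) atTop (𝓝 0) := by
      have := (tendsto_rpow_neg_atTop (show (0 : ℝ) < 0.01 by norm_num)).const_mul 8
      have h2 := this.add tendsto_inv_atTop_zero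
      simpa using h2
    have h2 : Tendsto (fun X : ℝ => C * n * (√ (8 * X ^ (-(0.01 : ℝ)) + X⁻¹) + √ (X⁻¹))) atTop (𝓝 0) := by
      have h3 := h1.sqrt.add (tendsto_inv_atTop_zero (𝕜 := ℝ)).sqrt
      have h4 := h3.const_mul (C * n)
      simpa using h4
    refine h2.congr' ?_
    filter_upwards [eventually_gt_atTop 0] with X hX
    have e1 : 8 * X ^ (-(0.01 : ℝ)) + X⁻¹ = (8 * X ^ (0.99 : ℝ) + 1) / X := by
      rw [add_div, mul_div_assoc]
      congr 1
      · congr 1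
        rw [show (-(0.01 : ℝ)) = 0.99 - 1 by norm_num, Real.rpow_sub_one hX.ne']
      · rw [one_div]
    rw [e1, Real.sqrt_div' _ hX.le, Real.sqrt_inv]
    have : √ X ≠ 0 := (Real.sqrt_pos.2 hX).ne'
    field_simp
  obtain ⟨X0, hX0⟩ := eventually_atTop.1 ((hlim.eventually (eventually_le_nhds hε)).and (eventually_ge_atTop 1))
  refine ⟨Real.exp (max X0 0), Real.one_le_exp (le_max_right _ _), fun G hG V hV i hi x => ?_⟩
  have hV0 : 0 < V := lt_of_lt_of_le (Real.exp_pos _) hV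
  have hlog : max X0 0 ≤ Real.log V := by rwa [Real.le_log_iff_exp_le hV0]
  obtain ⟨hl1, hl2⟩ := hX0 (Real.log V) ((le_max_left _ _).trans hlog)
  have hV1 : 1 ≤ V := by
    by_contra hcon
    push Not at hcon
    have := Real.log_neg hV0 hcon
    linarith
  obtain ⟨_, _, _, c4, _, _⟩ := hC n G hG
  obtain ⟨k1, k2⟩ := kn_diff hV1 i
  obtain ⟨l, hl⟩ := Nat.exists_eq_add_of_le k1
  rw [hl]
  refine (c4 (kn V) l x).trans (le_trans ?_ hl1)
  have hll : (l : ℝ) ≤ 8 * Real.log V ^ (0.99 : ℝ) + 1 := by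
    have : l ≤ 8 * i + 1 := by omega
    have : (l : ℝ) ≤ 8 * i + 1 := by exact_mod_cast this
    linarith
  have hkn : Real.log V ≤ (kn V : ℝ) + 1 := by
    obtain ⟨g0, g1⟩ := gm_bounds
    unfold kn
    have h1 := Nat.lt_floor_add_one (Real.log V / gm)
    refine le_trans ?_ h1.le
    rw [le_div_iff₀ g0]
    nlinarith
  have hl0 : 0 < Real.log V := by linarith
  exact div_le_div₀ (by positivity)
    (mul_le_mul_of_nonneg_left (by linarith [Real.sqrt_le_sqrt hll]) (by positivity))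
    (Real.sqrt_pos.2 hl0) (Real.sqrt_le_sqrt hkn)

end Pool.Agent.KS6_24.ST
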