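import Mathlib
import Pool.Agent.KS6_24.ST.MXMain
import Pool.Agent.KS6_24.ST.PL1
import Pool.Agent.KS6_24.ST.KL1
import Pool.Agent.KS6_24.ST.KL2
import Pool.Agent.KS6_24.ST.KL3
import Pool.Agent.KS6_24.ST.KL4
import Pool.Agent.KS6_24.ST.KL5
import Pool.Agent.KS6_24.ST.KL5b

/-! The joint law: assembly. -/

set_option autoImplicit false

namespace Pool.Agent.KS6_24.ST

theorem farn_all {d : ℤ} (hd : d = 1 ∨ d = -1) : S_FARN d :=
  fun _ _ hF _ hM _ hε => farN (cornl_all hd) cw hF hM hε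

theorem kt_all : S_KT := fun n _ hε => kn_transfer cw n hε

/-- the joint law at `n` levels -/
theorem kl_all {d : ℤ} (hd : d = 1 ∨ d = -1) : S_KL d :=
  kl5 d hd uprop cw (stagen_all hd) (wkn d hd cw) (wk2 d hd uprop) (mg d hd) (farn_all hd) kt_all

end Pool.Agent.KS6_24.ST
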