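import Mathlib
import Pool.Agent.KS6_24.ST.Stage0
import Pool.Agent.KS6_24.ST.PLDefs

/-! PL3: the tail of `c - c'`. -/

set_option autoImplicit false

namespace Pool.Agent.KS6_24.ST

open Pool.Agent.H499R2.CO Pool.Agent.Y965.SI Finset Pool.Agent.KS6_24.LN

/-- exponential moment of the number of odd steps -/
theorem exp_od {d : ℤ} (hd : d % 2 = 1) (θ : ℝ) (t : ℕ) :
    pm t (fun x => Real.exp (θ * ((od d t x : ℝ) - t / 2))) = Real.cosh (θ / 2) ^ t := by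
  induction t with
  | zero => simp [pm, od]
  | succ t ih =>
    rw [pm_succ]
    have : ∀ x : ℤ, (Real.exp (θ * ((od d (t + 1) x : ℝ) - ((t + 1 : ℕ) : ℝ) / 2))
        + Real.exp (θ * ((od d (t + 1) (x + 2 ^ t) : ℝ) - ((t + 1 : ℕ) : ℝ) / 2))) / 2
        = Real.cosh (θ / 2) * Real.exp (θ * ((od d t x : ℝ) - t / 2)) := by
      intro x
      have e1 : Real.exp (θ * (((od d t x + 1 : ℕ) : ℝ) - ((t + 1 : ℕ) : ℝ) / 2))
          = Real.exp (θ / 2) * Real.exp (θ * ((od d t x : ℝ) - t / 2)) := by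
        rw [← Real.exp_add]; congr 1; push_cast; ring
      have e2 : Real.exp (θ * ((od d t x : ℝ) - ((t + 1 : ℕ) : ℝ) / 2))
          = Real.exp (-(θ / 2)) * Real.exp (θ * ((od d t x : ℝ) - t / 2)) := by
        rw [← Real.exp_add]; congr 1; push_cast; ring
      rw [Real.cosh_eq]
      rcases od_succ_pair hd t x with ⟨a, b⟩ | ⟨a, b⟩ <;> rw [a, b, e1, e2] <;> ring
    rw [pm_congr this, pm_mul, ih, pow_succ]; ring

/-- a function against the weights `pc` -/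
theorem pc_sum_le {d : ℤ} {t g B : ℕ} (hg : 1 ≤ g) (F : ℕ → ℝ) (hF : ∀ c, 0 ≤ F c) (M : ℤ → ℝ)
    (hM : ∀ (x : ℤ) (c : ℕ), od d t x ≤ c → c ≤ od d t x + 3 * g → F c ≤ M x) :
    ∑ c ∈ Cs t g B, pc d t g c * F c ≤ pm t M := by
  have h1 : ∑ c ∈ Cs t g B, pc d t g c * F c ≤ ∑ c ∈ range (t + 3 * g), pc d t g c * F c := by
    apply sum_le_sum_of_subset_of_nonneg (filter_subset _ _)
    intro c _ _
    exact mul_nonneg (pm_nonneg fun x => W_nonneg _ _) (hF c)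
  have h2 : ∑ c ∈ range (t + 3 * g), pc d t g c * F c
      = pm t (fun x => ∑ c ∈ range (t + 3 * g), W g ((c : ℤ) - (od d t x : ℕ)) * F c) := by
    rw [pm_sum]
    apply sum_congr rfl; intro c _
    unfold pc psi
    rw [mul_comm, ← pm_mul]
    exact pm_congr fun x => mul_comm _ _
  rw [h2] at h1
  refine h1.trans (pm_mono fun x => ?_)
  have h3 : ∀ c ∈ range (t + 3 * g), W g ((c : ℤ) - (od d t x : ℕ)) * F c
      ≤ W g ((c : ℤ) - (od d t x : ℕ)) * M x := by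
    intro c _
    by_cases hW : W g ((c : ℤ) - (od d t x : ℕ)) = 0
    · rw [hW]; simp
    · have := W_supp _ hW
      exact mul_le_mul_of_nonneg_left (hM x c (by omega) (by omega)) (W_nonneg _ _)
  refine (sum_le_sum h3).trans (le_of_eq ?_)
  rw [← sum_mul, W_sum_one (by have := od_le d t x; omega) hg, one_mul]

/-- exponential moments of the weights -/
theorem pc_exp {d : ℤ} (hd : d % 2 = 1) {t g B : ℕ} (hg : 1 ≤ g) {θ : ℝ} (hθ : 0 ≤ θ) :
    ∑ c ∈ Cs t g B, pc d t g c * Real.exp (θ * ((c : ℝ) - t / 2)) ≤ Real.exp (3 * g * θ + t * θ ^ 2 / 8) ∧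
    ∑ c ∈ Cs t g B, pc d t g c * Real.exp (-θ * ((c : ℝ) - t / 2)) ≤ Real.exp (t * θ ^ 2 / 8) := by
  have hc : ∀ φ : ℝ, φ ^ 2 = θ ^ 2 → Real.cosh (φ / 2) ^ t ≤ Real.exp (t * θ ^ 2 / 8) := by
    intro φ hφ
    have h1 := Real.cosh_le_exp_half_sq (φ / 2)
    calc Real.cosh (φ / 2) ^ t ≤ Real.exp ((φ / 2) ^ 2 / 2) ^ t :=
          pow_le_pow_left₀ (Real.cosh_pos _).le h1 _
      _ = Real.exp (t * θ ^ 2 / 8) := by
          rw [← Real.exp_nat_mul]; congr 1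
          rw [div_pow, hφ]; ring
  constructor
  · refine (pc_sum_le hg _ (fun c => (Real.exp_pos _).le)
      (fun x => Real.exp (3 * g * θ) * Real.exp (θ * ((od d t x : ℝ) - t / 2))) ?_).trans ?_
    · intro x c h1 h2
      rw [← Real.exp_add]
      apply Real.exp_le_exp.2
      have h3 : (c : ℝ) ≤ od d t x + 3 * g := by exact_mod_cast h2
      nlinarith
    · rw [pm_mul, exp_od hd, Real.exp_add]
      exact mul_le_mul_of_nonneg_left (hc θ rfl) (Real.exp_pos _).le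
  · refine (pc_sum_le hg _ (fun c => (Real.exp_pos _).le)
      (fun x => Real.exp (-θ * ((od d t x : ℝ) - t / 2))) ?_).trans ?_
    · intro x c h1 h2
      apply Real.exp_le_exp.2
      have h3 : (od d t x : ℝ) ≤ c := by exact_mod_cast h1
      nlinarith
    · rw [exp_od hd]
      exact hc (-θ) (by ring)

theorem tl (d : ℤ) (hd : d = 1 ∨ d = -1) : S_TL d := by
  have hd2 : d % 2 = 1 := by rcases hd with rfl | rfl <;> decide
  obtain ⟨m0, hm02, hpar⟩ := params 2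
  refine ⟨Real.exp 4 * ((Nat.factorial 16 : ℕ) : ℝ), m0, by positivity, ?_⟩
  intro m L hm hL1 hL2 i hi
  obtain ⟨p1, p2, -, -, -⟩ := hpar m L hm hL1 hL2
  obtain ⟨q, q1, q2, q3, q4, q5, q6, q7, q8, q9, q10, q11⟩ := sizes p1 p2
  obtain ⟨t, ht⟩ : ∃ t, t = st m L := ⟨_, rfl⟩
  obtain ⟨g, hg⟩ : ∃ g, g = sgw m L := ⟨_, rfl⟩
  obtain ⟨B, hB⟩ : ∃ B, B = sB m L := ⟨_, rfl⟩
  rw [← ht] at q1 q2 q5 q6 q7 q8 q9 q10 q11
  rw [← hg] at q4 q5 q6
  rw [← ht, ← hg, ← hB]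
  have hq1 : 1 ≤ q := le_trans (Nat.one_le_pow _ _ (by omega)) q3
  have ht1 : 1 ≤ t := le_trans (Nat.one_le_pow _ _ (by omega)) q1
  have htr : (1 : ℝ) ≤ t := by exact_mod_cast ht1
  have hLr : (2 : ℝ) ≤ L := by exact_mod_cast p1
  set s : ℝ := √ (t : ℝ) with hs
  have hs2 : s ^ 2 = t := Real.sq_sqrt (by positivity)
  have hs0 : 0 < s := Real.sqrt_pos.2 (by positivity)
  have hgs : (g : ℝ) ≤ s := by
    have h1 : g ≤ Nat.sqrt t := by
      refine le_trans ?_ q6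
      exact Nat.le_mul_of_pos_right _ (by positivity)
    have h2 : (g : ℝ) ≤ (Nat.sqrt t : ℕ) := by exact_mod_cast h1
    exact h2.trans (Real.nat_sqrt_le_real_sqrt)
  obtain ⟨E1, E2⟩ := pc_exp hd2 (t := t) (g := g) (B := B) q4 (θ := 1 / s) (by positivity)
  have hpc0 : ∀ c, 0 ≤ pc d t g c := fun c => pm_nonneg fun x => W_nonneg _ _
  -- the exponential bound
  have key : ∑ c ∈ Cs t g B, ∑ c' ∈ Cs t g B, pc d t g c * pc d t g c' * (if i + c' ≤ c then 1 else 0)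
      ≤ Real.exp (-(i / s)) * ((∑ c ∈ Cs t g B, pc d t g c * Real.exp (1 / s * ((c : ℝ) - t / 2)))
        * ∑ c ∈ Cs t g B, pc d t g c * Real.exp (-(1 / s) * ((c : ℝ) - t / 2))) := by
    rw [sum_mul_sum, mul_sum]
    apply sum_le_sum; intro c _
    rw [mul_sum]
    apply sum_le_sum; intro c' _
    have e : Real.exp (-(i / s)) * (pc d t g c * Real.exp (1 / s * ((c : ℝ) - t / 2))
        * (pc d t g c' * Real.exp (-(1 / s) * ((c' : ℝ) - t / 2))))
        = pc d t g c * pc d t g c' * Real.exp (((c : ℝ) - c' - i) / s) := by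
      have : Real.exp (((c : ℝ) - c' - i) / s) = Real.exp (-(i / s)) *
          (Real.exp (1 / s * ((c : ℝ) - t / 2)) * Real.exp (-(1 / s) * ((c' : ℝ) - t / 2))) := by
        rw [← Real.exp_add, ← Real.exp_add]; congr 1; field_simp; ring
      rw [this]; ring
    rw [e]
    apply mul_le_mul_of_nonneg_left _ (mul_nonneg (hpc0 c) (hpc0 c'))
    split_ifs with h
    · apply Real.one_le_exp
      apply div_nonneg _ hs0.le
      have : (i : ℝ) + c' ≤ c := by exact_mod_cast h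
      linarith
    · exact (Real.exp_pos _).le
  have hE : (∑ c ∈ Cs t g B, pc d t g c * Real.exp (1 / s * ((c : ℝ) - t / 2)))
        * ∑ c ∈ Cs t g B, pc d t g c * Real.exp (-(1 / s) * ((c : ℝ) - t / 2)) ≤ Real.exp 4 := by
    have hn : 0 ≤ ∑ c ∈ Cs t g B, pc d t g c * Real.exp (-(1 / s) * ((c : ℝ) - t / 2)) :=
      sum_nonneg fun c _ => mul_nonneg (hpc0 c) (Real.exp_pos _).le
    refine (mul_le_mul E1 E2 hn (Real.exp_pos _).le).trans ?_
    rw [← Real.exp_add]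
    apply Real.exp_le_exp.2
    have h1 : (t : ℝ) * (1 / s) ^ 2 / 8 = 1 / 8 := by
      rw [← hs2]; field_simp
    have h2 : 3 * (g : ℝ) * (1 / s) ≤ 3 := by
      rw [mul_one_div, div_le_iff₀ hs0]; linarith
    linarith
  have hx : (L : ℝ) ≤ (i / s) ^ 4 := by
    rw [div_pow, le_div_iff₀ (by positivity)]
    have h1 : s ^ 4 = (t : ℝ) ^ 2 := by rw [← hs2]; ring
    rw [h1]
    have h2 : (t : ℝ) * (L : ℝ) ^ 2 ≤ m := by exact_mod_cast q10
    have h3 : ((t : ℝ) * (L : ℝ) ^ 2) ^ 2 ≤ (i : ℝ) ^ 4 * (L : ℝ) ^ 3 :=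
      (pow_le_pow_left₀ (by positivity) h2 2).trans hi
    have h4 : (L : ℝ) * (t : ℝ) ^ 2 * (L : ℝ) ^ 3 ≤ (i : ℝ) ^ 4 * (L : ℝ) ^ 3 := by
      refine le_trans (le_of_eq ?_) h3; ring
    exact le_of_mul_le_mul_right h4 (by positivity)
  have hx0 : 0 ≤ (i : ℝ) / s := by positivity
  have hexp : Real.exp (-(i / s)) ≤ ((Nat.factorial 16 : ℕ) : ℝ) / (L : ℝ) ^ 4 := by
    have h1 := Real.pow_div_factorial_le_exp (i / s) hx0 16
    have h2 : (L : ℝ) ^ 4 ≤ (i / s) ^ 16 := by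
      calc (L : ℝ) ^ 4 ≤ ((i / s) ^ 4) ^ 4 := pow_le_pow_left₀ (by positivity) hx 4
        _ = _ := by rw [← pow_mul]
    have h3 : (L : ℝ) ^ 4 / ((Nat.factorial 16 : ℕ) : ℝ) ≤ Real.exp (i / s) :=
      (div_le_div_of_nonneg_right h2 (by positivity)).trans h1
    rw [Real.exp_neg, ← inv_div ((L : ℝ) ^ 4)]
    exact inv_anti₀ (by positivity) h3
  refine key.trans ?_
  calc Real.exp (-(i / s)) * ((∑ c ∈ Cs t g B, pc d t g c * Real.exp (1 / s * ((c : ℝ) - t / 2)))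
        * ∑ c ∈ Cs t g B, pc d t g c * Real.exp (-(1 / s) * ((c : ℝ) - t / 2)))
      ≤ (((Nat.factorial 16 : ℕ) : ℝ) / (L : ℝ) ^ 4) * Real.exp 4 := by
        apply mul_le_mul hexp hE _ (by positivity)
        exact mul_nonneg (sum_nonneg fun c _ => mul_nonneg (hpc0 c) (Real.exp_pos _).le)
          (sum_nonneg fun c _ => mul_nonneg (hpc0 c) (Real.exp_pos _).le)
    _ = Real.exp 4 * ((Nat.factorial 16 : ℕ) : ℝ) / (L : ℝ) ^ 4 := by ring

end Pool.Agent.KS6_24.ST
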