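import Mathlib
import Pool.Agent.KS6_24.ST.Stage0
import Pool.Agent.KS6_24.ST.PL8

/-! PL4: merged pairs. -/

set_option autoImplicit false

namespace Pool.Agent.KS6_24.ST

open Pool.Agent.H499R2.CO Pool.Agent.Y965.SI Finset Pool.Agent.KS6_24.LN MeasureTheory

/-- the mean over `[V, 2 V]` and over `[⌊V⌋, 2 ⌊V⌋]` -/
theorem av_floor_real {u : ℝ → ℝ} (hu : Bd 1 u) {V : ℝ} (hV : 1 ≤ V) :
    |av V u - av (⌊V⌋₊ : ℝ) u| ≤ 4 / V := by
  set M : ℝ := (⌊V⌋₊ : ℝ) with hM
  have hV0 : 0 < V := by linarith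
  have h1 : M ≤ V := Nat.floor_le hV0.le
  have h2 : V < M + 1 := Nat.lt_floor_add_one V
  have hM1 : 1 ≤ M := by
    have : 1 ≤ ⌊V⌋₊ := by rw [Nat.one_le_floor_iff]; exact hV
    rw [hM]; exact_mod_cast this
  have hM0 : 0 < M := by linarith
  have a1 : ∫ y in V..2 * V, u y = (∫ y in M..2 * M, u y) + (∫ y in 2 * M..2 * V, u y) - ∫ y in M..V, u y := by
    have e1 := intervalIntegral.integral_add_adjacent_intervals (hu.ii M V) (hu.ii V (2 * V))
    have e2 := intervalIntegral.integral_add_adjacent_intervals (hu.ii M (2 * M)) (hu.ii (2 * M) (2 * V))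
    linarith
  have b1 : |∫ y in 2 * M..2 * V, u y| ≤ 2 := by
    have h := intervalIntegral.norm_integral_le_of_norm_le_const (a := 2 * M) (b := 2 * V) (f := u) (C := 1)
      (fun x _ => by rw [Real.norm_eq_abs]; exact hu.2 x)
    rw [Real.norm_eq_abs, abs_of_nonneg (show (0 : ℝ) ≤ 2 * V - 2 * M by linarith)] at h
    linarith
  have b2 : |∫ y in M..V, u y| ≤ 1 := by
    have h := intervalIntegral.norm_integral_le_of_norm_le_const (a := M) (b := V) (f := u) (C := 1)
      (fun x _ => by rw [Real.norm_eq_abs]; exact hu.2 x)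
    rw [Real.norm_eq_abs, abs_of_nonneg (show (0 : ℝ) ≤ V - M by linarith)] at h
    linarith
  have b3 : |av M u| ≤ 1 := av_abs hM0 hu
  have e : av V u - av M u = ((∫ y in 2 * M..2 * V, u y) - (∫ y in M..V, u y) - (V - M) * av M u) / V := by
    have e3 : ∫ y in M..2 * M, u y = M * av M u := by unfold av; field_simp
    unfold av at e3 ⊢
    rw [a1]
    field_simp
    ring
  rw [e, abs_div, abs_of_pos hV0]
  apply div_le_div_of_nonneg_right _ hV0.le
  have b4 : |(V - M) * av M u| ≤ 1 := by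
    rw [abs_mul, abs_of_nonneg (by linarith)]
    have := abs_nonneg (av M u)
    nlinarith
  rw [abs_le] at b1 b2 b4 ⊢
  constructor <;> linarith

theorem bd (d : ℤ) (hd : d = 1 ∨ d = -1) (hU : S_U) : S_BD d := by
  intro f hf q hq ε hε
  have hfb := hf.1
  obtain ⟨hq0, hq1⟩ := q_mem hfb hq
  obtain ⟨C, hC, hci⟩ := ci d hd
  obtain ⟨CU, hCU, u1, -, u3, u4, -, -, -⟩ := hU
  have hFb : ∀ x : ℤ, |f x ^ 2 - q| ≤ 1 := by
    intro x
    have h1 := hfb x
    have h2 : f x ^ 2 ≤ 1 := by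
      rw [← sq_abs]; have := abs_nonneg (f x); nlinarith
    have h3 : 0 ≤ f x ^ 2 := sq_nonneg _
    rw [abs_le]; constructor <;> linarith
  obtain ⟨M0, hM0⟩ := mz_av (f := fun x => f x ^ 2 - q) hFb hq (ε := ε / 4) (by positivity)
  -- the small parameter
  set η : ℝ := min (ε / (4 * CU)) (ε ^ 2 / (64 * C ^ 2)) with hη
  have hη0 : 0 < η := by positivity
  have hη1 : η ≤ ε / (4 * CU) := min_le_left _ _
  have hη2 : η ≤ ε ^ 2 / (64 * C ^ 2) := min_le_right _ _
  obtain ⟨m0, hm02, hpar⟩ := params (max (max 2 ⌈1 / η ^ 4⌉₊) (max ⌈1 / η ^ 2⌉₊ (max (M0 + 1) ⌈16 / ε⌉₊)))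
  refine ⟨m0, fun m L hm hL1 hL2 V hV1 hV2 i hi => ?_⟩
  obtain ⟨p1, p2, -, p4, -⟩ := hpar m L hm hL1 hL2
  have hL2' : 2 ≤ L := (le_max_left _ _).trans ((le_max_left _ _).trans p1)
  have hLa : 1 / η ^ 4 ≤ L := (Nat.le_ceil _).trans (by
    exact_mod_cast (le_max_right _ _).trans ((le_max_left _ _).trans p1))
  have hLb : 1 / η ^ 2 ≤ L := (Nat.le_ceil _).trans (by
    exact_mod_cast (le_max_left _ _).trans ((le_max_right _ _).trans p1))
  have hLc : M0 + 1 ≤ L := (le_max_left _ _).trans ((le_max_right _ _).trans ((le_max_right _ _).trans p1))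
  have hLd : 16 / ε ≤ L := (Nat.le_ceil _).trans (by
    exact_mod_cast (le_max_right _ _).trans ((le_max_right _ _).trans ((le_max_right _ _).trans p1)))
  have hLr : (2 : ℝ) ≤ L := by exact_mod_cast hL2'
  have hL0 : (0 : ℝ) < L := by linarith
  have hLm : L ^ 2 ≤ m := by
    refine le_trans (Nat.pow_le_pow_right (by omega) (by norm_num)) p2
  have hLmr : (L : ℝ) ^ 2 ≤ m := by exact_mod_cast hLm
  have hm1 : 1 ≤ m := by nlinarith
  have hmr : (1 : ℝ) ≤ m := by exact_mod_cast hm1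
  have hm0' : (0 : ℝ) < m := by linarith
  have hV0 : 0 < V := lt_of_lt_of_le (by positivity) hV1
  have hmV : (m : ℝ) ≤ V := by
    refine le_trans ?_ hV1
    exact_mod_cast (Nat.lt_two_pow_self (n := m)).le
  -- `a = i / √ m`
  set a : ℝ := (i : ℝ) / √ (m : ℝ) with ha
  have hsm : 0 < √ (m : ℝ) := Real.sqrt_pos.2 hm0'
  have hsm2 : √ (m : ℝ) ^ 2 = m := Real.sq_sqrt hm0'.le
  have ha0 : 0 ≤ a := by positivity
  have ha4 : a ^ 4 * (L : ℝ) ^ 3 ≤ 1 := by
    rw [ha, div_pow, div_mul_eq_mul_div, div_le_one (by positivity)]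
    have h4 : √ (m : ℝ) ^ 4 = (m : ℝ) ^ 2 := by
      calc √ (m : ℝ) ^ 4 = (√ (m : ℝ) ^ 2) ^ 2 := by ring
        _ = (m : ℝ) ^ 2 := by rw [hsm2]
    rw [h4]
    exact hi
  have haη : a ≤ η := by
    by_contra hcon
    push Not at hcon
    have h1 : η ^ 4 < a ^ 4 := pow_lt_pow_left₀ hcon hη0.le (by norm_num)
    have h2 : 1 ≤ η ^ 4 * L := by
      rw [div_le_iff₀ (by positivity)] at hLa; linarith
    have h3 : (L : ℝ) ≤ (L : ℝ) ^ 3 := by nlinarith
    have h4 : η ^ 4 * L ≤ η ^ 4 * (L : ℝ) ^ 3 := mul_le_mul_of_nonneg_left h3 (by positivity)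
    have h5 : η ^ 4 * (L : ℝ) ^ 3 < a ^ 4 * (L : ℝ) ^ 3 := mul_lt_mul_of_pos_right h1 (by positivity)
    linarith
  have hbη : (L : ℝ) * a ^ 2 ≤ η := by
    by_contra hcon
    push Not at hcon
    have h1 : η ^ 2 < ((L : ℝ) * a ^ 2) ^ 2 := pow_lt_pow_left₀ hcon hη0.le (by norm_num)
    have h2 : 1 ≤ η ^ 2 * L := by
      rw [div_le_iff₀ (by positivity)] at hLb; linarith
    have h3 : η ^ 2 * L < ((L : ℝ) * a ^ 2) ^ 2 * L := mul_lt_mul_of_pos_right h1 hL0
    have h4 : ((L : ℝ) * a ^ 2) ^ 2 * L = a ^ 4 * (L : ℝ) ^ 3 := by ring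
    linarith
  constructor
  · -- the correlation
    have hc1 := hci f hf m hm1 V hV1 i 0 0 (by norm_num)
    have b1 : Bd 1 (fun y => f ⌊y⌋) := Bd.fl hfb
    have b2 : Bd 1 (fun y => f ⌊3 ^ i * y + 0⌋) := Bd.flc hfb (by fun_prop)
    have e1 : cor f V i - q = av V (fun y => (f ⌊y⌋ ^ 2 - q)) - av V (fun y => f ⌊y⌋ * (f ⌊y⌋ - f ⌊3 ^ i * y + 0⌋)) := by
      rw [← av_sub V (Bd.fl hFb) (b1.mul (b1.sub b2))]
      unfold cor
      have e0 : (fun y : ℝ => f ⌊y⌋ ^ 2 - q - f ⌊y⌋ * (f ⌊y⌋ - f ⌊3 ^ i * y + 0⌋))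
          = fun y => f ⌊y⌋ * f ⌊(3 : ℝ) ^ ((i : ℕ) : ℤ) * y⌋ - q := by
        funext y
        rw [add_zero, zpow_natCast]; ring
      rw [e0, av_sub V (b1.mul (Bd.flc hfb (by fun_prop))) (Bd.const q), av_const hV0]
    have e2 : |av V (fun y => (f ⌊y⌋ ^ 2 - q))| ≤ ε / 2 := by
      have h1 := av_floor_real (u := fun y => f ⌊y⌋ ^ 2 - q) (Bd.fl hFb) (V := V) (by linarith)
      have hM : M0 ≤ ⌊V⌋₊ := by
        apply Nat.le_floor
        have h2 : (M0 : ℝ) + 1 ≤ L := by exact_mod_cast hLc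
        have : (L : ℝ) ≤ (L : ℝ) ^ 2 := by nlinarith
        linarith
      have h2 := hM0 _ hM
      have h3 : 4 / V ≤ ε / 4 := by
        rw [div_le_div_iff₀ hV0 (by norm_num)]
        have h4 : 16 ≤ L * ε := by
          rw [div_le_iff₀ hε] at hLd; exact hLd
        have h5 : (L : ℝ) ≤ V := by
          have : (L : ℝ) ≤ (L : ℝ) ^ 2 := by nlinarith
          linarith
        nlinarith
      rw [abs_le] at h1 h2 ⊢
      constructor <;> linarith
    have e3 : |av V (fun y => f ⌊y⌋ * (f ⌊y⌋ - f ⌊3 ^ i * y + 0⌋))| ≤ ε / 2 := by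
      have h1 : |av V (fun y => f ⌊y⌋ * (f ⌊y⌋ - f ⌊3 ^ i * y + 0⌋))| ≤ av V (fun y => |f ⌊y⌋ - f ⌊3 ^ i * y + 0⌋|) := by
        refine (abs_av_le hV0 (b1.mul (b1.sub b2))).trans ?_
        apply av_mono hV0 (b1.mul (b1.sub b2)).abs (b1.sub b2).abs
        intro y _ _
        rw [abs_mul]
        have := hfb ⌊y⌋
        have h2 := abs_nonneg (f ⌊y⌋ - f ⌊3 ^ i * y + 0⌋)
        nlinarith
      refine h1.trans (hc1.trans ?_)
      unfold rho
      have h2 : √ (1 + (i : ℝ) ^ 2 + ((0 : ℕ) : ℝ)) * √ (Real.log (m + 1) / m) ≤ √ (4 * η) := by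
        rw [← Real.sqrt_mul (by positivity)]
        apply Real.sqrt_le_sqrt
        have h3 : (1 + (i : ℝ) ^ 2 + ((0 : ℕ) : ℝ)) * (Real.log (m + 1) / m) = (1 / m + a ^ 2) * Real.log (m + 1) := by
          rw [ha, div_pow, hsm2]; push_cast; field_simp; ring
        rw [h3]
        have h4 : (1 / m + a ^ 2) * Real.log (m + 1) ≤ (1 / m + a ^ 2) * (2 * L) :=
          mul_le_mul_of_nonneg_left p4 (by positivity)
        have h5 : (L : ℝ) / m ≤ η := by
          have h6 : (L : ℝ) / m ≤ 1 / L := by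
            rw [div_le_div_iff₀ hm0' hL0]; nlinarith
          have h7 : 1 / (L : ℝ) ≤ η := by
            rw [div_le_iff₀ hL0]
            by_contra hcon
            push Not at hcon
            have h8 : 1 ≤ η ^ 4 * L := by
              rw [div_le_iff₀ (by positivity)] at hLa; linarith
            have h9 : 1 ≤ η ^ 2 * L := by
              rw [div_le_iff₀ (by positivity)] at hLb; linarith
            -- η L < 1 and η^2 L ≥ 1 give η > 1, then η L > 1
            have h10 : η * (η * L) < η * 1 := mul_lt_mul_of_pos_left hcon hη0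
            have h11 : 1 < η := by nlinarith
            nlinarith
          exact h6.trans h7
        have e : (1 / (m : ℝ) + a ^ 2) * (2 * L) = 2 * (L / m) + 2 * (L * a ^ 2) := by ring
        linarith
      have h3 : √ (4 * η) ≤ ε / (4 * C) := by
        rw [show ε / (4 * C) = √ ((ε / (4 * C)) ^ 2) from (Real.sqrt_sq (by positivity)).symm]
        apply Real.sqrt_le_sqrt
        have : (ε / (4 * C)) ^ 2 = 4 * (ε ^ 2 / (64 * C ^ 2)) := by
          rw [div_pow]; field_simp; ring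
        rw [this]
        linarith
      calc C * √ (1 + (i : ℝ) ^ 2 + ((0 : ℕ) : ℝ)) * √ (Real.log (m + 1) / m)
          = C * (√ (1 + (i : ℝ) ^ 2 + ((0 : ℕ) : ℝ)) * √ (Real.log (m + 1) / m)) := by ring
        _ ≤ C * (ε / (4 * C)) := mul_le_mul_of_nonneg_left (h2.trans h3) hC.le
        _ = ε / 4 := by field_simp
        _ ≤ ε / 2 := by linarith
    rw [e1]
    rw [abs_le] at e2 e3 ⊢
    constructor <;> linarith
  · -- the walk
    have hlin : ∀ (k j : ℕ), |UU k (j : ℤ)| ≤ j * (CU / √ ((k : ℝ) + 1)) := by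
      intro k j
      have h0 : UU k 0 = 0 := by
        have := u1 k 0
        simp only [neg_zero] at this
        linarith
      have h1 : 0 ≤ UU k (j : ℤ) := by
        rw [← h0]; exact u3 k (by positivity)
      rw [abs_of_nonneg h1]
      clear h1
      induction j with
      | zero => simp [h0]
      | succ j ih =>
        have := u4 k j
        push_cast
        linarith
    have h1 := hlin (kk V) (2 * i)
    have h2 : (m : ℝ) ≤ (kk V : ℝ) + 1 := by
      unfold kk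
      have h3 := Nat.lt_floor_add_one (2 * Real.log V / gm)
      have h4 : (m : ℝ) ≤ 2 * Real.log V / gm := by
        have hg := pl_gm_pos
        rw [le_div_iff₀ hg]
        have h5 : (m : ℝ) * Real.log 2 ≤ Real.log V := by
          rw [← Real.log_pow]; exact Real.log_le_log (by positivity) hV1
        have h6 : gm ≤ Real.log 2 := by
          unfold gm
          have : 0 < Real.log 3 := Real.log_pos (by norm_num)
          linarith
        have h7 : (m : ℝ) * gm ≤ m * Real.log 2 := mul_le_mul_of_nonneg_left h6 hm0'.le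
        have h8 : 0 ≤ (m : ℝ) * Real.log 2 := by
          have := Real.log_pos (show (1 : ℝ) < 2 by norm_num)
          positivity
        linarith
      linarith
    have h3 : CU / √ ((kk V : ℝ) + 1) ≤ CU / √ (m : ℝ) :=
      div_le_div_of_nonneg_left hCU.le hsm (Real.sqrt_le_sqrt h2)
    have e : ((2 * i : ℕ) : ℤ) = 2 * (i : ℤ) := by push_cast; ring
    rw [e] at h1
    refine h1.trans ?_
    calc (((2 * i : ℕ) : ℕ) : ℝ) * (CU / √ ((kk V : ℝ) + 1)) ≤ ((2 * i : ℕ) : ℝ) * (CU / √ (m : ℝ)) :=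
          mul_le_mul_of_nonneg_left h3 (Nat.cast_nonneg _)
      _ = 2 * CU * a := by rw [ha]; push_cast; ring
      _ ≤ 2 * CU * (ε / (4 * CU)) := mul_le_mul_of_nonneg_left (haη.trans hη1) (by positivity)
      _ = ε / 2 := by field_simp; ring
      _ ≤ ε := by linarith

end Pool.Agent.KS6_24.ST
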