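import Mathlib
import Pool.Agent.KS6_24.ST.Main
import Pool.Agent.KS6_24.ST.Stage2
import Pool.Agent.KS6_24.ST.PL1
import Pool.Agent.KS6_24.ST.PL2
import Pool.Agent.KS6_24.ST.PL3
import Pool.Agent.KS6_24.ST.PL4
import Pool.Agent.KS6_24.ST.PL6
import Pool.Agent.KS6_24.ST.PL7
import Pool.Agent.KS6_24.ST.PL8

/-! The exact pair law. -/

set_option autoImplicit false

namespace Pool.Agent.KS6_24.ST

theorem eta_all {d : ℤ} (hd : d = 1 ∨ d = -1) : S_ETA d := by
  have hd2 : d % 2 = 1 := by rcases hd with rfl | rfl <;> decide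
  have hb : S_BAL d := bal d hd b0 pot
  have h1 : Pool.Agent.KS6_24.LN.S_TV d := Pool.Agent.KS6_24.LN.tv d hd
  exact eta d hd (fw d hd2) (ws d hd2 h1) hb

theorem pl_all {d : ℤ} (hd : d = 1 ∨ d = -1) : S_PL d :=
  pl6 d hd uprop (stage2 d hd (Pool.Agent.KS6_24.LN.tv d hd) (eta_all hd)) (wk d hd uprop) (tl d hd) (bd d hd uprop)
    (cor_all hd)

theorem pairlaw_all {d : ℤ} (hd : d = 1 ∨ d = -1) : S_PAIRLAW d := pairlaw d hd (ple d uprop (pl_all hd))

end Pool.Agent.KS6_24.ST
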