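import Mathlib
import Pool.Agent.KS6_24.LN.Dens
import Pool.Agent.KS6_24.ST.JT3
import Pool.Agent.KS6_24.ST.KL6
import Pool.Agent.KS6_24.ST.KLMain
import Pool.Agent.KS6_24.ST.PLMain
import Pool.Agent.KS6_24.ST.JLDefs

/-!
The proofs of the parts of the hand-in JointLaw (MP_d02c56_nt).
-/

set_option autoImplicit false

namespace Pool.Agent.Results.MP_d02c56_nt.JointLaw

open Filter Topology

open Pool.Agent.KS6_24.LN Pool.Agent.H499R2.CO Pool.Agent.Y965.SI Finset Pool.Agent.KS6_24.ST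
open Pool.Agent.T6.H47.CL (Er Er_eq Er_le_one Er_nonneg Er_mono)
open Pool.Agent.H499R2.ND (Ci Kc Kc_self Kc_symm Kc_trans structure_full)

/-! ### transfer to the accelerated map -/

theorem Tz1_mem {S : Set ℤ} (hS : Invariant S) (y : ℤ) : Tz 1 y ∈ S ↔ y ∈ S := by
  unfold Tz
  by_cases h : y % 2 = 0
  · rw [if_pos h, hS y]
    unfold C
    rw [if_pos h]
  · rw [if_neg h, hS y, hS (C y)]
    have h1 : C (C y) = (3 * y + 1) / 2 := by
      unfold C
      rw [if_neg h, if_pos (by omega)]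
    rw [h1]

/-- the conjugated set -/
def conj (s : ℤ) (S : Set ℤ) : Set ℤ := {x | s * x ∈ S}

theorem conj_inv {s : ℤ} (hs : s = 1 ∨ s = -1) {S : Set ℤ} (hS : Invariant S) (x : ℤ) :
    Tz s x ∈ conj s S ↔ x ∈ conj s S := by
  have hss : ∀ x : ℤ, s * (s * x) = x := by intro x; rcases hs with rfl | rfl <;> ring
  have h1 : s * Tz s x = Tz 1 (s * x) := by
    have := dens_Tz_mul hs (s * x)
    rw [hss] at this
    rw [this, hss]
  show s * Tz s x ∈ S ↔ s * x ∈ S
  rw [h1]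
  exact Tz1_mem hS _

theorem sign_of_pos {s : ℤ} (hs : s = 1 ∨ s = -1) {S : Set ℤ} (h : ∃ x ∈ S, 0 < s * x) :
    ∃ x ∈ conj s S, 0 < x := by
  have hss : ∀ x : ℤ, s * (s * x) = x := by intro x; rcases hs with rfl | rfl <;> ring
  obtain ⟨x, hx, h0⟩ := h
  exact ⟨s * x, by show s * (s * x) ∈ S; rw [hss]; exact hx, h0⟩

/-! ### proportions -/

theorem prob_eq (N : ℕ) (P : ℕ → Prop) [DecidablePred P] : prob N P = (#{n ∈ Icc 1 N | P n} : ℝ) / N := by
  unfold prob
  rw [← Set.ncard_coe_finset]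
  congr 3
  ext x
  simp only [Set.mem_ofPred_eq, coe_filter, mem_Icc, and_assoc]

theorem prob_nonneg (N : ℕ) (P : ℕ → Prop) : 0 ≤ prob N P := by unfold prob; positivity

theorem prob_mono {N : ℕ} {P Q : ℕ → Prop} (h : ∀ n, 1 ≤ n → n ≤ N → P n → Q n) : prob N P ≤ prob N Q := by
  classical
  rw [prob_eq, prob_eq]
  apply div_le_div_of_nonneg_right _ (Nat.cast_nonneg _)
  have : #{n ∈ Icc 1 N | P n} ≤ #{n ∈ Icc 1 N | Q n} := by
    apply card_le_card
    intro n hn
    rw [mem_filter, mem_Icc] at hn ⊢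
    exact ⟨hn.1, h n hn.1.1 hn.1.2 hn.2⟩
  exact_mod_cast this

theorem prob_congr {N : ℕ} {P Q : ℕ → Prop} (h : ∀ n, 1 ≤ n → n ≤ N → (P n ↔ Q n)) : prob N P = prob N Q :=
  le_antisymm (prob_mono fun n h1 h2 => (h n h1 h2).1) (prob_mono fun n h1 h2 => (h n h1 h2).2)

theorem prob_le_one (N : ℕ) (P : ℕ → Prop) : prob N P ≤ 1 := by
  classical
  rw [prob_eq]
  apply div_le_one_of_le₀ _ (Nat.cast_nonneg _)
  have : #{n ∈ Icc 1 N | P n} ≤ N := by
    refine (card_filter_le _ _).trans ?_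
    rw [Nat.card_Icc]; omega
  exact_mod_cast this

theorem prob_split (N : ℕ) (P Q : ℕ → Prop) : prob N P = prob N (fun n => P n ∧ Q n) + prob N (fun n => P n ∧ ¬ Q n) := by
  classical
  rw [prob_eq, prob_eq, prob_eq, ← add_div]
  congr 1
  have := card_filter_add_card_filter_not (s := (Icc 1 N).filter P) Q
  rw [filter_filter, filter_filter] at this
  exact_mod_cast this.symm

theorem prob_not {N : ℕ} (hN : 1 ≤ N) (P : ℕ → Prop) : prob N (fun n => ¬ P n) = 1 - prob N P := by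
  have h1 := prob_split N (fun _ => True) P
  have h2 : prob N (fun _ => True) = 1 := by
    classical
    rw [prob_eq, filter_true_of_mem (fun _ _ => trivial), Nat.card_Icc, Nat.add_sub_cancel]
    have : (0 : ℝ) < N := by exact_mod_cast hN
    field_simp
  simp only [true_and] at h1
  linarith

/-- finitely many disjoint events -/
theorem prob_sum {ι : Type*} (A : Finset ι) (N : ℕ) (P : ι → ℕ → Prop)
    (hd : ∀ a ∈ A, ∀ b ∈ A, a ≠ b → ∀ n, P a n → ¬ P b n) :
    prob N (fun n => ∃ a ∈ A, P a n) = ∑ a ∈ A, prob N (P a) := by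
  classical
  simp only [prob_eq]
  rw [← sum_div]
  congr 1
  have e : (Icc 1 N).filter (fun n => ∃ a ∈ A, P a n) = A.biUnion fun a => (Icc 1 N).filter (P a) := by
    ext n
    simp only [mem_filter, mem_biUnion]
    tauto
  rw [e, card_biUnion]
  · push_cast; rfl
  · intro a ha b hb hab
    show Disjoint _ _
    rw [disjoint_left]
    intro n hn hn'
    exact hd a ha b hb hab n (mem_filter.1 hn).2 (mem_filter.1 hn').2

/-! ### the density -/

theorem density_of_mz {s : ℤ} {S : Set ℤ} {δ : ℝ}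
    (h : MeanZero (fun x => (conj s S).indicator (fun _ => (1 : ℝ)) x - δ)) :
    HasDensity s S δ := by
  classical
  unfold HasDensity
  set ind : ℤ → ℝ := (conj s S).indicator (fun _ => (1 : ℝ)) with hind
  have hind01 : ∀ x, 0 ≤ ind x ∧ ind x ≤ 1 := by
    intro x
    simp only [hind, Set.indicator]
    split_ifs <;> norm_num
  have hc : ∀ N : ℕ, ({n : ℕ | 1 ≤ n ∧ n ≤ N ∧ s * n ∈ S}.ncard : ℝ) = ∑ n ∈ range N, ind ((n + 1 : ℕ)) := by
    intro N
    have e1 : {n : ℕ | 1 ≤ n ∧ n ≤ N ∧ s * n ∈ S}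
        = (((range N).filter fun n : ℕ => ((n + 1 : ℕ) : ℤ) ∈ conj s S).image fun n : ℕ => n + 1 : Finset ℕ) := by
      ext n
      simp only [Set.mem_ofPred_eq, coe_image, coe_filter, mem_range, Set.mem_image]
      constructor
      · rintro ⟨ha, hb, hc⟩
        refine ⟨n - 1, ⟨by omega, ?_⟩, by omega⟩
        rw [Nat.sub_add_cancel ha]; exact hc
      · rintro ⟨m, ⟨hm, hmS⟩, rfl⟩
        exact ⟨by omega, by omega, hmS⟩
    rw [e1, Set.ncard_coe_finset, card_image_of_injective _ (fun a b h => Nat.succ_injective h), card_filter]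
    push_cast
    apply sum_congr rfl
    intro n _
    simp only [hind, Set.indicator]
    try push_cast
    try rfl
  have hs : ∀ N : ℕ, ∑ n ∈ range N, (ind (n : ℕ) - δ)
      = ∑ n ∈ range N, ind ((n + 1 : ℕ)) + (ind 0 - ind N) - N * δ := by
    intro N
    have e1 := sum_range_succ (fun n : ℕ => ind (n : ℕ)) N
    have e2 := sum_range_succ' (fun n : ℕ => ind (n : ℕ)) N
    rw [sum_sub_distrib, sum_const, card_range, nsmul_eq_mul]
    simp only [Nat.cast_zero] at e2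
    linarith
  unfold MeanZero at h
  have h5 : Tendsto (fun N : ℕ => (ind 0 - ind N) / N) atTop (𝓝 0) := by
    apply squeeze_zero_norm (a := fun N : ℕ => 1 / (N : ℝ))
    · intro N
      rw [Real.norm_eq_abs, abs_div, Nat.abs_cast]
      gcongr
      rw [abs_le]
      constructor <;> linarith [(hind01 0).1, (hind01 0).2, (hind01 N).1, (hind01 N).2]
    · exact tendsto_one_div_atTop_nhds_zero_nat
  have h6 := (h.sub h5).add_const δ
  rw [sub_zero, zero_add] at h6
  unfold prob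
  apply h6.congr'
  filter_upwards [eventually_gt_atTop 0] with N hN
  have hN' : (N : ℝ) ≠ 0 := by positivity
  rw [hc]
  have := hs N
  show (∑ n ∈ range N, (ind (n : ℕ) - δ)) / N - (ind 0 - ind N) / N + δ = _
  rw [this]
  field_simp
  ring

/-! ### invariant sets -/

theorem compl_inv {S : Set ℤ} (hS : Invariant S) : Invariant Sᶜ := fun x => not_congr (hS x)

theorem meet_inv (a : ℤ) : Invariant {x | Meet x a} := by
  intro x
  constructor
  · rintro ⟨k, l, h⟩
    refine ⟨k, l + 1, ?_⟩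
    rw [← Function.iterate_succ_apply, Function.iterate_succ_apply', h, Function.iterate_succ_apply']
  · rintro ⟨k, l, h⟩
    exact ⟨k + 1, l, by rw [Function.iterate_succ_apply]; exact h⟩

theorem known_closed : ∀ x ∈ Known, C x ∈ Known := by decide

theorem reaches_inv : Invariant {x | Reaches x} := by
  intro x
  constructor
  · rintro ⟨k, h⟩
    refine ⟨k, ?_⟩
    rw [← Function.iterate_succ_apply, Function.iterate_succ_apply']
    exact known_closed _ h
  · rintro ⟨k, h⟩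
    exact ⟨k + 1, by rw [Function.iterate_succ_apply]; exact h⟩


theorem meet_iff_Kc (x y : ℤ) : Meet x y ↔ x ∈ Kc y := Iff.rfl

theorem Meet.symm {x y : ℤ} (h : Meet x y) : Meet y x := Kc_symm h

theorem Meet.trans {x y z : ℤ} (h : Meet x y) (h' : Meet y z) : Meet x z := Kc_trans h h'

/-! ### classes -/

theorem mz_class {s : ℤ} (hs : s = 1 ∨ s = -1) {δ : ℤ → ℝ} {a : ℤ} (ha : 0 < s * a)
    (h : Tendsto (fun N : ℕ => ({n : ℤ | 0 < s * n ∧ s * n ≤ N ∧
        ∃ i j : ℕ, Ci^[i] n = Ci^[j] a}.ncard : ℝ) / N) atTop (𝓝 (δ a))) :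
    0 < δ a ∧ δ a ≤ 1 ∧ MeanZero (fun x => (conj s {x | Meet x a}).indicator (fun _ => (1 : ℝ)) x - δ a) := by
  obtain ⟨δ', h1, h2, h3⟩ := dens hs (conj s {x | Meet x a}) (conj_inv hs (meet_inv a))
    (sign_of_pos hs ⟨a, ⟨0, 0, rfl⟩, ha⟩)
  have h4 := density_of_mz h3
  have hss : ∀ x : ℤ, s * (s * x) = x := by intro x; rcases hs with rfl | rfl <;> ring
  have h5 : ∀ N : ℕ, ({n : ℤ | 0 < s * n ∧ s * n ≤ N ∧ ∃ i j : ℕ, Ci^[i] n = Ci^[j] a}.ncard : ℝ) / N
      = prob N fun n => s * n ∈ {x | Meet x a} := by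
    intro N
    unfold prob
    congr 2
    rw [← Set.ncard_image_of_injective (f := fun n : ℕ => s * (n : ℤ))]
    · congr 1
      ext x
      simp only [Set.mem_ofPred_eq, Set.mem_image]
      constructor
      · rintro ⟨hx1, hx2, hx3⟩
        refine ⟨(s * x).toNat, ⟨by omega, by omega, ?_⟩, ?_⟩
        · have : s * (((s * x).toNat : ℕ) : ℤ) = x := by
            rw [Int.toNat_of_nonneg hx1.le, hss]
          rw [this]; exact hx3
        · rw [Int.toNat_of_nonneg hx1.le, hss]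
      · rintro ⟨n, ⟨hn1, hn2, hn3⟩, rfl⟩
        rw [hss]
        exact ⟨by exact_mod_cast hn1, by exact_mod_cast hn2, hn3⟩
    · intro a b hab
      simp only at hab
      have : s * (s * (a : ℤ)) = s * (s * (b : ℤ)) := by rw [hab]
      rw [hss, hss] at this
      exact_mod_cast this
  have h6 : δ' = δ a := by
    refine tendsto_nhds_unique h4 (h.congr h5)
  rw [← h6]
  exact ⟨h1, h2, h3⟩

/-- every integer of sign `s` meets a representative -/
theorem exists_rep {s : ℤ} (hs : s = 1 ∨ s = -1) {x : ℤ} (hx : 0 < s * x) : ∃ a : ℤ, IsRep s a ∧ Meet x a := by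
  classical
  have hss : ∀ x : ℤ, s * (s * x) = x := by intro x; rcases hs with rfl | rfl <;> ring
  have hne : ∃ n : ℕ, 0 < n ∧ Meet x (s * n) := by
    refine ⟨(s * x).toNat, by omega, 0, 0, ?_⟩
    simp only [Function.iterate_zero, id]
    rw [Int.toNat_of_nonneg hx.le, hss]
  obtain ⟨hn0, hm⟩ := Nat.find_spec hne
  refine ⟨s * (Nat.find hne : ℕ), ⟨by rw [hss]; exact_mod_cast hn0, ?_⟩, hm⟩
  intro b hb hmb
  rw [hss]
  have h1 : ((s * b).toNat : ℤ) = s * b := Int.toNat_of_nonneg hb.le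
  have h2 : Nat.find hne ≤ (s * b).toNat := by
    apply Nat.find_min' hne
    refine ⟨by omega, ?_⟩
    rw [h1, hss]
    exact hm.trans hmb
  have h3 : ((Nat.find hne : ℕ) : ℤ) ≤ ((s * b).toNat : ℤ) := by exact_mod_cast h2
  rwa [h1] at h3

theorem rep_unique {s : ℤ} (hs : s = 1 ∨ s = -1) {a b : ℤ} (ha : IsRep s a) (hb : IsRep s b) (h : Meet a b) : a = b := by
  have h1 := ha.2 b hb.1 h
  have h2 := hb.2 a ha.1 h.symm
  rcases hs with rfl | rfl <;> omega

/-- the classes: densities `δ a` of the classes of the representatives, summing to 1 -/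
theorem classes {s : ℤ} (hs : s = 1 ∨ s = -1) : ∃ δ : {a : ℤ // IsRep s a} → ℝ, HasSum δ 1 ∧
    ∀ a, 0 < δ a ∧ δ a ≤ 1 ∧ MeanZero (fun x => (conj s {x | Meet x a}).indicator (fun _ => (1 : ℝ)) x - δ a) := by
  obtain ⟨δ, h1, _, h3⟩ := structure_full hs
  exact ⟨fun a => δ a, h3, fun a => mz_class hs a.2.1 (h1 a a.2.1).2⟩


/-- every invariant set has a density -/
theorem mz_all {s : ℤ} (hs : s = 1 ∨ s = -1) {S : Set ℤ} (hS : Invariant S) :
    ∃ δ : ℝ, 0 ≤ δ ∧ δ ≤ 1 ∧ ((∃ x ∈ S, 0 < s * x) → 0 < δ) ∧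
      MeanZero (fun x => (conj s S).indicator (fun _ => (1 : ℝ)) x - δ) := by
  classical
  by_cases hex : ∃ x ∈ S, 0 < s * x
  · obtain ⟨δ, h1, h2, h3⟩ := dens hs (conj s S) (conj_inv hs hS) (sign_of_pos hs hex)
    exact ⟨δ, h1.le, h2, fun _ => h1, h3⟩
  · refine ⟨0, le_rfl, zero_le_one, fun h => absurd h hex, ?_⟩
    have hss : ∀ x : ℤ, s * (s * x) = x := by intro x; rcases hs with rfl | rfl <;> ring
    unfold MeanZero
    have h1 : ∀ n : ℕ, 1 ≤ n → (conj s S).indicator (fun _ => (1 : ℝ)) (n : ℤ) = 0 := by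
      intro n hn
      apply Set.indicator_of_notMem
      intro h
      exact hex ⟨s * n, h, by rw [hss]; exact_mod_cast hn⟩
    have h2 : ∀ N : ℕ, |(∑ n ∈ range N, ((conj s S).indicator (fun _ => (1 : ℝ)) ((n : ℕ) : ℤ) - 0)) / N| ≤ 1 / (N : ℝ) := by
      intro N
      rw [abs_div, Nat.abs_cast]
      apply div_le_div_of_nonneg_right _ (Nat.cast_nonneg N)
      have h3 : ∀ n ∈ range N, ((conj s S).indicator (fun _ => (1 : ℝ)) ((n : ℕ) : ℤ) - 0)
          ≤ if n = 0 then (1 : ℝ) else 0 := by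
        intro n _
        split_ifs with h
        · simp only [Set.indicator]; split_ifs <;> norm_num
        · rw [h1 n (by omega)]; norm_num
      have h4 : 0 ≤ ∑ n ∈ range N, ((conj s S).indicator (fun _ => (1 : ℝ)) ((n : ℕ) : ℤ) - 0) := by
        apply sum_nonneg
        intro n _
        simp only [Set.indicator]; split_ifs <;> norm_num
      rw [abs_of_nonneg h4]
      refine (sum_le_sum h3).trans ?_
      rw [sum_ite_eq']
      split_ifs <;> norm_num
    exact squeeze_zero_norm (fun N => h2 N) tendsto_one_div_atTop_nhds_zero_nat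

theorem tau_eq (N i : ℕ) : tau N i = 1 - Er (√2 * (i * √ (gm / Real.log N))) := by
  unfold tau erfc
  rw [Er_eq]
  have e : Real.log (4 / 3) / (2 * Real.log N) = gm / Real.log N := by
    unfold gm
    rw [Real.log_div (by norm_num) (by norm_num), show (4 : ℝ) = 2 ^ 2 by norm_num, Real.log_pow]
    push_cast
    rw [div_mul_eq_div_div]
    congr 1
    ring
  rw [e]

theorem tau_nonneg (N i : ℕ) : 0 ≤ tau N i := by
  rw [tau_eq]; have := Er_le_one (√2 * (i * √ (gm / Real.log N))); linarith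

theorem tau_le_one (N i : ℕ) : tau N i ≤ 1 := by
  rw [tau_eq]; have := Er_nonneg (x := √2 * (i * √ (gm / Real.log N))) (by positivity); linarith

theorem pair_law {s : ℤ} (hs : s = 1 ∨ s = -1) (h : S_PAIRLAW97 s) {S : Set ℤ} (hS : Invariant S) {δ : ℝ} (h0 : 0 ≤ δ)
    (h1 : δ ≤ 1) (hm : MeanZero (fun x => (conj s S).indicator (fun _ => (1 : ℝ)) x - δ)) : Pairs s S δ := by
  classical
  intro ε hε
  obtain ⟨N0, hN0⟩ := h (conj s S) (conj_inv hs hS) δ h0 h1 hm ε hε
  filter_upwards [eventually_ge_atTop (max N0 1)] with N hN i hi r hr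
  have hN1 : 1 ≤ N := (le_max_right _ _).trans hN
  have hN' : (0 : ℝ) < N := by exact_mod_cast hN1
  have h2 := hN0 N ((le_max_left _ _).trans hN) i hi r hr
  rw [prob_eq, tau_eq]
  have e : (#{n ∈ Icc 1 N | s * ((n : ℕ) : ℤ) ∈ S ∧ s * (3 ^ i * ((n : ℕ) : ℤ) + r) ∈ S} : ℝ) / N
      - (δ ^ 2 + δ * (1 - δ) * (1 - Er (√2 * (i * √ (gm / Real.log N)))))
      = ((#{n ∈ Icc 1 N | s * ((n : ℕ) : ℤ) ∈ S ∧ s * (3 ^ i * ((n : ℕ) : ℤ) + r) ∈ S} : ℝ)
      - (δ ^ 2 + δ * (1 - δ) * (1 - Er (√2 * (i * √ (gm / Real.log N))))) * N) / N := by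
    field_simp
  have hc : #{n ∈ Icc 1 N | s * ((n : ℕ) : ℤ) ∈ S ∧ s * (3 ^ i * ((n : ℕ) : ℤ) + r) ∈ S}
      = #{n ∈ Icc 1 N | ((n : ℕ) : ℤ) ∈ conj s S ∧ 3 ^ i * ((n : ℕ) : ℤ) + r ∈ conj s S} := by
    congr 1
  rw [e, abs_div, abs_of_pos hN', div_le_iff₀ hN', hc]
  exact h2

/-! ### the meeting law -/

/-- finitely many classes and the meeting probability -/
theorem meet_finite {s : ℤ} (N : ℕ) (hN : 1 ≤ N) (A : Finset {a : ℤ // IsRep s a}) (hs : s = 1 ∨ s = -1) (g : ℕ → ℤ) :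
    |prob N (fun n => Meet (s * n) (g n)) - ∑ a ∈ A, prob N (fun n => s * n ∈ {x | Meet x a} ∧ g n ∈ {x | Meet x a})|
      ≤ 1 - ∑ a ∈ A, prob N (fun n => s * n ∈ {x | Meet x a}) := by
  have hdis : ∀ a ∈ A, ∀ b ∈ A, a ≠ b → ∀ x : ℤ, Meet x a → ¬ Meet x b := by
    intro a _ b _ hab x hxa hxb
    apply hab
    exact Subtype.ext (rep_unique hs a.2 b.2 (hxa.symm.trans hxb))
  have h1 := prob_sum A N (fun a n => s * (n : ℤ) ∈ {x | Meet x a} ∧ g n ∈ {x | Meet x a})
    (fun a ha b hb hab n hn hn' => hdis a ha b hb hab _ hn.1 hn'.1)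
  have h2 := prob_sum A N (fun a n => s * (n : ℤ) ∈ {x | Meet x a})
    (fun a ha b hb hab n hn hn' => hdis a ha b hb hab _ hn hn')
  have h3 := prob_split N (fun n => Meet (s * n) (g n)) (fun n => ∃ a ∈ A, s * (n : ℤ) ∈ {x | Meet x a})
  have h4 : prob N (fun n => Meet (s * n) (g n) ∧ ∃ a ∈ A, s * (n : ℤ) ∈ {x | Meet x a})
      = prob N (fun n => ∃ a ∈ A, s * (n : ℤ) ∈ {x | Meet x a} ∧ g n ∈ {x | Meet x a}) := by
    apply prob_congr
    intro n _ _
    constructor
    · rintro ⟨hm, a, ha, hn⟩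
      exact ⟨a, ha, hn, Meet.trans (Meet.symm hm) hn⟩
    · rintro ⟨a, ha, hn, hn'⟩
      exact ⟨Meet.trans hn (Meet.symm hn'), a, ha, hn⟩
  have h5 : prob N (fun n => Meet (s * n) (g n) ∧ ¬ ∃ a ∈ A, s * (n : ℤ) ∈ {x | Meet x a})
      ≤ prob N (fun n => ¬ ∃ a ∈ A, s * (n : ℤ) ∈ {x | Meet x a}) := prob_mono fun n _ _ h => h.2
  rw [prob_not hN] at h5
  have h6 := prob_nonneg N (fun n => Meet (s * n) (g n) ∧ ¬ ∃ a ∈ A, s * (n : ℤ) ∈ {x | Meet x a})
  rw [h3, h4, h1]
  rw [h2] at h5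
  rw [abs_le]
  constructor <;> linarith

theorem meeting_law {s : ℤ} (hs : s = 1 ∨ s = -1) (h : S_PAIRLAW97 s) :
    ∃ Θ : ℝ, 0 < Θ ∧ Θ ≤ 1 ∧ (Θ = 1 ↔ ∀ x y : ℤ, 0 < s * x → 0 < s * y → Meet x y) ∧ Meetings s Θ := by
  classical
  obtain ⟨δ, hsum, hδ⟩ := classes hs
  have hsq_le : ∀ a, δ a ^ 2 ≤ δ a := fun a => by
    have := hδ a; nlinarith [this.1, this.2.1]
  have hsq : Summable (fun a => δ a ^ 2) :=
    Summable.of_nonneg_of_le (fun a => sq_nonneg _) hsq_le hsum.summable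
  have hle : ∑' a, δ a ^ 2 ≤ 1 := by
    rw [← hsum.tsum_eq]
    exact hsq.tsum_le_tsum hsq_le hsum.summable
  have hs1 : 0 < s * s := by rcases hs with rfl | rfl <;> norm_num
  obtain ⟨a0, ha0, _⟩ := exists_rep hs hs1
  refine ⟨∑' a, δ a ^ 2, ?_, hle, ?_, ?_⟩
  · exact hsq.tsum_pos (fun a => sq_nonneg _) ⟨a0, ha0⟩ (pow_pos (hδ _).1 2)
  · constructor
    · intro h1 x y hx hy
      -- all terms with `δ a (1 - δ a) = 0`
      have h2 : HasSum (fun a => δ a - δ a ^ 2) 0 := by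
        have := hsum.sub hsq.hasSum
        rwa [h1, sub_self] at this
      have h3 := (hasSum_zero_iff_of_nonneg (fun a => by have := hsq_le a; show 0 ≤ δ a - δ a ^ 2; linarith)).1 h2
      have h4 : ∀ a, δ a = 1 := by
        intro a
        have h5 := congrFun h3 a
        simp only [Pi.zero_apply] at h5
        have h6 := (hδ a).1
        have h7 : δ a * (1 - δ a) = 0 := by linarith
        rcases mul_eq_zero.1 h7 with h8 | h8 <;> linarith
      have h5 : ∀ a b : {a : ℤ // IsRep s a}, a = b := by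
        intro a b
        by_contra hab
        have h6 := sum_le_hasSum {a, b} (fun c _ => (hδ c).1.le) hsum
        rw [sum_pair hab, h4, h4] at h6
        norm_num at h6
      obtain ⟨a, ha, hxa⟩ := exists_rep hs hx
      obtain ⟨b, hb, hyb⟩ := exists_rep hs hy
      have h6 : a = b := congrArg Subtype.val (h5 ⟨a, ha⟩ ⟨b, hb⟩)
      rw [← h6] at hyb
      exact hxa.trans hyb.symm
    · intro hall
      have h5 : ∀ b : {a : ℤ // IsRep s a}, b = ⟨a0, ha0⟩ := fun b =>
        Subtype.ext (rep_unique hs b.2 ha0 (hall _ _ b.2.1 ha0.1))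
      have h6 : ∑' a, δ a = δ ⟨a0, ha0⟩ := tsum_eq_single _ fun b hb => absurd (h5 b) hb
      have h7 : ∑' a, δ a ^ 2 = δ ⟨a0, ha0⟩ ^ 2 := tsum_eq_single _ fun b hb => absurd (h5 b) hb
      rw [hsum.tsum_eq] at h6
      rw [h7, ← h6]; norm_num
  · intro ε hε
    -- a finite set of classes
    have hfin : ∃ A : Finset {a : ℤ // IsRep s a}, 1 - ε / 8 ≤ ∑ a ∈ A, δ a := by
      have h1 := hsum.eventually (eventually_ge_nhds (show 1 - ε / 8 < 1 by linarith))
      obtain ⟨A, hA⟩ := h1.exists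
      exact ⟨A, hA⟩
    obtain ⟨A, hA⟩ := hfin
    have hA1 : ∑ a ∈ A, δ a ≤ 1 := sum_le_hasSum A (fun c _ => (hδ c).1.le) hsum
    have hA2 : ∑' a, δ a ^ 2 - ε / 8 ≤ ∑ a ∈ A, δ a ^ 2 := by
      have h1 := hsq.sum_add_tsum_compl (s := A)
      have h2 := hsum.summable.sum_add_tsum_compl (s := A)
      have h3 : ∑' a : {x // x ∉ A}, δ a ^ 2 ≤ ∑' a : {x // x ∉ A}, δ a :=
        (hsq.subtype _).tsum_le_tsum (fun a => hsq_le a) (hsum.summable.subtype _)
      rw [hsum.tsum_eq] at h2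
      linarith!
    have hA3 : ∑ a ∈ A, δ a ^ 2 ≤ ∑' a, δ a ^ 2 := hsq.sum_le_tsum A (fun a _ => sq_nonneg _)
    set Θ := ∑' a, δ a ^ 2 with hΘ
    -- the pair laws for the classes
    have hcard : (0 : ℝ) < #A + 1 := by positivity
    have hev1 : ∀ᶠ N : ℕ in atTop, ∀ a ∈ A, ∀ i : ℕ, (i : ℝ) ≤ Real.log N ^ (0.97 : ℝ) → ∀ r : ℤ, |r| ≤ 3 ^ i →
        |prob N (fun n => s * n ∈ {x | Meet x a} ∧ s * (3 ^ i * n + r) ∈ {x | Meet x a})
          - (δ a ^ 2 + δ a * (1 - δ a) * tau N i)| ≤ ε / 8 / (#A + 1) := by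
      rw [eventually_all_finset]
      intro a _
      exact pair_law hs h (meet_inv a) (hδ a).1.le (hδ a).2.1 (hδ a).2.2 (ε / 8 / (#A + 1)) (by positivity)
    have hev2 : ∀ᶠ N : ℕ in atTop, ∀ a ∈ A, |prob N (fun n => s * n ∈ {x | Meet x a}) - δ a| ≤ ε / 8 / (#A + 1) := by
      rw [eventually_all_finset]
      intro a _
      have h1 := density_of_mz (hδ a).2.2
      have h2 := h1.eventually (Metric.closedBall_mem_nhds (δ a) (show 0 < ε / 8 / (#A + 1) by positivity))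
      filter_upwards [h2] with N hN
      rw [Real.dist_eq] at hN
      exact hN
    filter_upwards [hev1, hev2, eventually_ge_atTop 1] with N h1 h2 hN i hi r hr
    have h3 := meet_finite N hN A hs (fun n => s * (3 ^ i * n + r))
    have h4 : |∑ a ∈ A, prob N (fun n => s * n ∈ {x | Meet x a} ∧ s * (3 ^ i * n + r) ∈ {x | Meet x a})
        - ∑ a ∈ A, (δ a ^ 2 + δ a * (1 - δ a) * tau N i)| ≤ ε / 8 := by
      rw [← sum_sub_distrib]
      refine (abs_sum_le_sum_abs _ _).trans ?_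
      refine (sum_le_sum fun a ha => h1 a ha i hi r hr).trans ?_
      rw [sum_const, nsmul_eq_mul, ← mul_div_assoc, div_le_iff₀ hcard]
      nlinarith
    have h5 : |∑ a ∈ A, prob N (fun n => s * n ∈ {x | Meet x a}) - ∑ a ∈ A, δ a| ≤ ε / 8 := by
      rw [← sum_sub_distrib]
      refine (abs_sum_le_sum_abs _ _).trans ?_
      refine (sum_le_sum fun a ha => h2 a ha).trans ?_
      rw [sum_const, nsmul_eq_mul, ← mul_div_assoc, div_le_iff₀ hcard]
      nlinarith
    have h6 : ∑ a ∈ A, (δ a ^ 2 + δ a * (1 - δ a) * tau N i)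
        = ∑ a ∈ A, δ a ^ 2 + (∑ a ∈ A, δ a - ∑ a ∈ A, δ a ^ 2) * tau N i := by
      rw [sum_add_distrib, ← sum_sub_distrib, sum_mul]
      congr 1
      apply sum_congr rfl
      intro a _
      ring
    rw [h6] at h4
    have t0 := tau_nonneg N i
    have t1 := tau_le_one N i
    obtain ⟨D1, hD1⟩ : ∃ D1, D1 = ∑ a ∈ A, δ a := ⟨_, rfl⟩
    obtain ⟨D2, hD2⟩ : ∃ D2, D2 = ∑ a ∈ A, δ a ^ 2 := ⟨_, rfl⟩
    rw [← hD1] at h4 h5 hA hA1
    rw [← hD2] at h4 hA2 hA3
    have e : (D2 + (D1 - D2) * tau N i) - (Θ + (1 - Θ) * tau N i) = (D2 - Θ) + ((D1 - 1) - (D2 - Θ)) * tau N i := by ring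
    have h7 : |(D2 + (D1 - D2) * tau N i) - (Θ + (1 - Θ) * tau N i)| ≤ ε / 4 := by
      rw [e, abs_le]
      have g1 : -(ε / 8) ≤ D2 - Θ := by linarith
      have g2 : D2 - Θ ≤ 0 := by linarith
      have g3 : -(ε / 8) ≤ D1 - 1 := by linarith
      have g4 : D1 - 1 ≤ 0 := by linarith
      constructor <;> nlinarith
    rw [abs_le] at h3 h4 h5 h7 ⊢
    constructor <;> linarith [h3.1, h3.2, h4.1, h4.2, h5.1, h5.2, h7.1, h7.2]

/-! ### the function `tau` -/

theorem erfc_pos (x : ℝ) : 0 < erfc x := by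
  have h1 : erfc (x + 1) < erfc x := by
    unfold erfc
    have hc : Continuous (fun y : ℝ => Real.exp (-y ^ 2)) := by fun_prop
    have h2 : ∫ y in (0 : ℝ)..(x + 1), Real.exp (-y ^ 2) = (∫ y in (0 : ℝ)..x, Real.exp (-y ^ 2))
        + ∫ y in x..(x + 1), Real.exp (-y ^ 2) :=
      (intervalIntegral.integral_add_adjacent_intervals (hc.intervalIntegrable _ _) (hc.intervalIntegrable _ _)).symm
    have h3 : 0 < ∫ y in x..(x + 1), Real.exp (-y ^ 2) :=
      intervalIntegral.intervalIntegral_pos_of_pos (hc.intervalIntegrable _ _) (fun y => Real.exp_pos _) (by linarith)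
    have h4 : 0 < 2 / √Real.pi := by positivity
    rw [h2]
    nlinarith
  have h5 : 0 ≤ erfc (x + 1) := by
    unfold erfc
    rw [← Er_eq]
    have := Er_le_one (√2 * (x + 1))
    linarith
  linarith

theorem erfc_anti {x y : ℝ} (h : x ≤ y) : erfc y ≤ erfc x := by
  unfold erfc
  rw [← Er_eq, ← Er_eq]
  have := Er_mono (mul_le_mul_of_nonneg_left h (show (0 : ℝ) ≤ √2 by positivity))
  linarith

theorem erfc_lt_one {x : ℝ} (h : 0 < x) : erfc x < 1 := by
  unfold erfc
  have hc : Continuous (fun y : ℝ => Real.exp (-y ^ 2)) := by fun_prop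
  have h3 : 0 < ∫ y in (0 : ℝ)..x, Real.exp (-y ^ 2) :=
    intervalIntegral.intervalIntegral_pos_of_pos (hc.intervalIntegrable _ _) (fun y => Real.exp_pos _) h
  have h4 : 0 < 2 / √Real.pi := by positivity
  nlinarith [mul_pos h4 h3]

theorem log43 : 0 < Real.log (4 / 3) := Real.log_pos (by norm_num)

/-- `i ≤ A √(log N)` -/
theorem tau_ge {A : ℝ} {N i : ℕ} (hN : 0 < Real.log N) (hi : (i : ℝ) ≤ A * √ (Real.log N)) :
    erfc (A * √ (Real.log (4 / 3) / 2)) ≤ tau N i := by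
  unfold tau
  apply erfc_anti
  have e : Real.log (4 / 3) / (2 * Real.log N) = (Real.log (4 / 3) / 2) / Real.log N := by
    rw [div_div]
  rw [e, Real.sqrt_div (by have := log43; positivity)]
  have hs : 0 < √ (Real.log N) := Real.sqrt_pos.2 hN
  rw [← mul_div_assoc, div_le_iff₀ hs]
  have h1 := mul_le_mul_of_nonneg_right hi (Real.sqrt_nonneg (Real.log (4 / 3) / 2))
  linarith

/-- `c √(log N) ≤ i` -/
theorem tau_le {c : ℝ} {N i : ℕ} (hN : 0 < Real.log N) (hi : c * √ (Real.log N) ≤ i) :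
    tau N i ≤ erfc (c * √ (Real.log (4 / 3) / 2)) := by
  unfold tau
  apply erfc_anti
  have e : Real.log (4 / 3) / (2 * Real.log N) = (Real.log (4 / 3) / 2) / Real.log N := by
    rw [div_div]
  have e4 : √ (Real.log (4 / 3) / 2 / Real.log N) = √ (Real.log (4 / 3) / 2) / √ (Real.log N) :=
    Real.sqrt_div (by have := log43; positivity) _
  rw [e, e4]
  have hs : 0 < √ (Real.log N) := Real.sqrt_pos.2 hN
  rw [← mul_div_assoc, le_div_iff₀ hs]
  have h1 := mul_le_mul_of_nonneg_right hi (Real.sqrt_nonneg (Real.log (4 / 3) / 2))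
  linarith

/-! ### the sharp law of large numbers -/

theorem multiples_eq (s : ℤ) (S : Set ℤ) (n K : ℕ) [DecidablePred fun i : ℕ => s * (3 ^ i * (n : ℤ)) ∈ S] :
    multiples s S n K = #{i ∈ range K | s * (3 ^ i * (n : ℤ)) ∈ S} := by
  unfold multiples
  rw [← Set.ncard_coe_finset]
  congr 1
  ext x
  simp only [Set.mem_ofPred_eq, coe_filter, mem_range]

theorem multiples_le (s : ℤ) (S : Set ℤ) (n K : ℕ) : multiples s S n K ≤ K := by
  classical
  rw [multiples_eq]
  refine (card_filter_le _ _).trans ?_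
  rw [card_range]

/-- pairs on average -/
theorem sum_pairs {s : ℤ} {S : Set ℤ} {N K : ℕ} (hN : 1 ≤ N) (hK : 1 ≤ K) {δ ε : ℝ} (hε : 0 ≤ ε) (hδ : 0 ≤ δ) :
    (∑ i ∈ range K, prob N (fun n => s * n ∈ S ∧ s * (3 ^ i * n + ((0 : ℤ) : ℤ)) ∈ S)) / K
      ≤ (δ + ε) * prob N (fun n => s * n ∈ S) + prob N (fun n => ε < |(multiples s S n K : ℝ) / K - δ|) := by
  classical
  have hN' : (0 : ℝ) < N := by exact_mod_cast hN
  have hK' : (0 : ℝ) < K := by exact_mod_cast hK
  have e1 : (∑ i ∈ range K, prob N (fun n => s * n ∈ S ∧ s * (3 ^ i * n + ((0 : ℤ) : ℤ)) ∈ S)) / K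
      = (∑ n ∈ Icc 1 N, (if s * (n : ℤ) ∈ S then (1 : ℝ) else 0) * ((multiples s S n K : ℝ) / K)) / N := by
    simp only [prob_eq]
    rw [← sum_div, div_div, mul_comm (N : ℝ) K, ← div_div]
    congr 1
    rw [sum_div]
    simp only [card_filter]
    push_cast
    have e2 : ∀ n ∈ Icc 1 N, (if s * (n : ℤ) ∈ S then (1 : ℝ) else 0) * ((multiples s S n K : ℝ) / K)
        = ∑ i ∈ range K, (if s * (n : ℤ) ∈ S ∧ s * (3 ^ i * (n : ℤ) + 0) ∈ S then (1 : ℝ) else 0) / K := by
      intro n _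
      rw [multiples_eq, card_filter]
      push_cast
      rw [← sum_div, ← mul_div_assoc, mul_sum]
      congr 1
      apply sum_congr rfl
      intro i _
      rw [add_zero]
      split_ifs <;> first | (exfalso; tauto) | norm_num
    rw [sum_congr rfl e2, sum_comm]
    apply sum_congr rfl
    intro i _
    rw [sum_div]
  have e3 : (δ + ε) * prob N (fun n => s * n ∈ S) + prob N (fun n => ε < |(multiples s S n K : ℝ) / K - δ|)
      = (∑ n ∈ Icc 1 N, ((δ + ε) * (if s * (n : ℤ) ∈ S then (1 : ℝ) else 0)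
        + (if ε < |(multiples s S n K : ℝ) / K - δ| then (1 : ℝ) else 0))) / N := by
    rw [prob_eq, prob_eq, sum_add_distrib, ← mul_sum, add_div, card_filter, card_filter]
    push_cast
    ring
  rw [e1, e3]
  apply div_le_div_of_nonneg_right _ hN'.le
  apply sum_le_sum
  intro n _
  have h1 : (multiples s S n K : ℝ) / K ≤ 1 := by
    rw [div_le_one hK']
    exact_mod_cast multiples_le s S n K
  have h2 : 0 ≤ (multiples s S n K : ℝ) / K := by positivity
  by_cases hb : ε < |(multiples s S n K : ℝ) / K - δ|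
  · rw [if_pos hb]
    split_ifs
    · nlinarith
    · norm_num
  · rw [if_neg hb]
    push Not at hb
    have h3 := (abs_le.1 hb).2
    split_ifs
    · linarith
    · norm_num

theorem lln_only {s : ℤ} {S : Set ℤ} {δ : ℝ} (h0 : 0 < δ) (h1 : δ < 1)
    (hd : Tendsto (fun N : ℕ => prob N fun n => s * n ∈ S) atTop (𝓝 δ)) (hp : Pairs s S δ) {K : ℕ → ℕ}
    (hl : LLN s S δ K) : Tendsto (fun N : ℕ => (K N : ℝ) / √ (Real.log N)) atTop atTop := by
  rw [tendsto_atTop]
  by_contra hcon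
  push Not at hcon
  obtain ⟨A0, hA0⟩ := hcon
  obtain ⟨A, hA⟩ : ∃ A, A = max A0 1 := ⟨_, rfl⟩
  have hA1 : 1 ≤ A := by rw [hA]; exact le_max_right _ _
  have hfr : ∃ᶠ N : ℕ in atTop, (K N : ℝ) / √ (Real.log N) < A := by
    refine hA0.mono fun N hN => ?_
    rw [hA]; exact hN.trans_le (le_max_left _ _)
  obtain ⟨κ, hκ⟩ : ∃ κ, κ = δ * (1 - δ) * erfc (A * √ (Real.log (4 / 3) / 2)) := ⟨_, rfl⟩
  have hκ0 : 0 < κ := by
    rw [hκ]
    exact mul_pos (mul_pos h0 (by linarith)) (erfc_pos _)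
  obtain ⟨ε, hε⟩ : ∃ ε, ε = min (min (κ / 8) (δ / 2)) (1 / 2) := ⟨_, rfl⟩
  have hε0 : 0 < ε := by rw [hε]; positivity
  have hε1 : ε ≤ κ / 8 := by rw [hε]; exact (min_le_left _ _).trans (min_le_left _ _)
  have hε2 : ε ≤ δ / 2 := by rw [hε]; exact (min_le_left _ _).trans (min_le_right _ _)
  have hε3 : ε ≤ 1 / 2 := by rw [hε]; exact min_le_right _ _
  have hlogt : Tendsto (fun N : ℕ => Real.log N) atTop atTop :=
    Real.tendsto_log_atTop.comp tendsto_natCast_atTop_atTop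
  have hg : Tendsto (fun N : ℕ => Real.log N ^ (0.47 : ℝ)) atTop atTop :=
    (tendsto_rpow_atTop (by norm_num)).comp hlogt
  have e1 := (hl ε hε0).eventually (eventually_le_nhds hε0)
  have e2 := hd.eventually (eventually_le_nhds (show δ < δ + ε by linarith))
  obtain ⟨N, hfN, hN1, hN2, hN3, hN4, hN5, hN6⟩ := (hfr.and_eventually (e1.and (e2.and ((hp ε hε0).and
    ((hlogt.eventually_ge_atTop 1).and ((hg.eventually_ge_atTop A).and (eventually_ge_atTop 1))))))).exists
  have hsq : 0 < √ (Real.log N) := Real.sqrt_pos.2 (by linarith)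
  rw [div_lt_iff₀ hsq] at hfN
  -- `K N ≥ 1`
  have hK : 1 ≤ K N := by
    by_contra hK0
    have hK0' : K N = 0 := by omega
    rw [hK0'] at hN1
    have h2 : prob N (fun n => ε < |(multiples s S n 0 : ℝ) / ((0 : ℕ) : ℝ) - δ|) = 1 := by
      have h3 := prob_not hN6 (fun _ => False)
      have h4 : prob N (fun _ => False) = 0 := by
        classical
        rw [prob_eq, filter_false_of_mem (fun _ _ h => h)]; simp
      rw [h4, sub_zero] at h3
      rw [← h3]
      apply prob_congr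
      intro n _ _
      simp only [Nat.cast_zero, div_zero, zero_sub, abs_neg, not_false_iff, iff_true]
      rw [abs_of_pos h0]
      linarith
    linarith
  have hK' : (0 : ℝ) < K N := by exact_mod_cast hK
  have h4 : ∀ i ∈ range (K N), δ ^ 2 + κ - ε ≤ prob N (fun n => s * n ∈ S ∧ s * (3 ^ i * n + ((0 : ℤ) : ℤ)) ∈ S) := by
    intro i hi
    rw [mem_range] at hi
    have hi' : (i : ℝ) ≤ A * √ (Real.log N) := by
      have : (i : ℝ) ≤ K N := by exact_mod_cast hi.le
      linarith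
    have h5 : (i : ℝ) ≤ Real.log N ^ (0.97 : ℝ) := by
      refine hi'.trans ?_
      have h6 : Real.log N ^ (0.97 : ℝ) = Real.log N ^ (0.47 : ℝ) * √ (Real.log N) := by
        rw [Real.sqrt_eq_rpow, ← Real.rpow_add (by linarith)]; norm_num
      rw [h6]
      exact mul_le_mul_of_nonneg_right hN5 hsq.le
    have h7 := hN3 i h5 0 (by simp)
    have h8 := tau_ge (A := A) (by linarith) hi'
    have h9 : κ ≤ δ * (1 - δ) * tau N i := by
      rw [hκ]
      exact mul_le_mul_of_nonneg_left h8 (mul_nonneg h0.le (by linarith))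
    have h10 := (abs_le.1 h7).1
    linarith
  have h5 := sum_le_sum h4
  rw [sum_const, card_range, nsmul_eq_mul] at h5
  have h6 := sum_pairs (s := s) (S := S) hN6 hK hε0.le h0.le
  have h7 : δ ^ 2 + κ - ε ≤ (∑ i ∈ range (K N), prob N (fun n => s * n ∈ S ∧ s * (3 ^ i * n + ((0 : ℤ) : ℤ)) ∈ S)) / K N := by
    rw [le_div_iff₀ hK']
    linarith
  have h8 : (δ + ε) * prob N (fun n => s * n ∈ S) ≤ (δ + ε) * (δ + ε) :=
    mul_le_mul_of_nonneg_left hN2 (by linarith)
  nlinarith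

theorem lln_if {s : ℤ} (hs : s = 1 ∨ s = -1) (h3 : S_LLN3b s) {S : Set ℤ} (hS : Invariant S)
    {δ : ℝ} (h0 : 0 ≤ δ) (h1 : δ ≤ 1) (hm : MeanZero (fun x => (conj s S).indicator (fun _ => (1 : ℝ)) x - δ))
    {K : ℕ → ℕ} (hK : Tendsto (fun N : ℕ => (K N : ℝ) / √ (Real.log N)) atTop atTop)
    (hK2 : ∀ᶠ N : ℕ in atTop, (K N : ℝ) ≤ Real.log N ^ (0.99 : ℝ)) : LLN s S δ K := by
  classical
  intro ε hε
  rw [Metric.tendsto_atTop]
  intro η hη
  obtain ⟨A, N0, hA, hN0⟩ := h3 (conj s S) (conj_inv hs hS) δ h0 h1 hm (min ε (η / 2)) (by positivity)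
  obtain ⟨N1, hN1⟩ := eventually_atTop.mp (hK.eventually_ge_atTop A)
  obtain ⟨N2, hN2⟩ := eventually_atTop.mp hK2
  refine ⟨max (max N0 N1) (max N2 2), fun N hN => ?_⟩
  have g0 : N0 ≤ N := ((le_max_left _ _).trans (le_max_left _ _)).trans hN
  have g1 : N1 ≤ N := ((le_max_right _ _).trans (le_max_left _ _)).trans hN
  have g2 : N2 ≤ N := ((le_max_left _ _).trans (le_max_right _ _)).trans hN
  have g3 : 2 ≤ N := ((le_max_right _ _).trans (le_max_right _ _)).trans hN
  have hNr : (0 : ℝ) < N := by positivity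
  have hNl : 0 < Real.log N := Real.log_pos (by exact_mod_cast g3)
  have k1 : A * √ (Real.log N) ≤ K N := by
    have := hN1 N g1
    rwa [le_div_iff₀ (Real.sqrt_pos.mpr hNl)] at this
  have hKpos : (0 : ℝ) < K N := lt_of_lt_of_le (by positivity) k1
  have h := hN0 N g0 (K N) k1 (hN2 N g2)
  have hle : prob N (fun n => ε < |(multiples s S n (K N) : ℝ) / K N - δ|) ≤ η / 2 := by
    rw [prob_eq, div_le_iff₀ hNr]
    have hmono : (#{n ∈ Icc 1 N | ε < |(multiples s S n (K N) : ℝ) / K N - δ|} : ℝ) ≤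
        (#{n ∈ Icc 1 N | min ε (η / 2) * (K N : ℕ) < |(#{i ∈ range (K N) | ((3 ^ i * n : ℕ) : ℤ) ∈ conj s S} : ℝ)
          - δ * (K N : ℕ)|} : ℝ) := by
      have : #{n ∈ Icc 1 N | ε < |(multiples s S n (K N) : ℝ) / K N - δ|} ≤
        #{n ∈ Icc 1 N | min ε (η / 2) * (K N : ℕ) < |(#{i ∈ range (K N) | ((3 ^ i * n : ℕ) : ℤ) ∈ conj s S} : ℝ)
          - δ * (K N : ℕ)|} := by
        apply card_le_card
        apply monotone_filter_right
        intro n _ hn
        have e0 : multiples s S n (K N) = #{i ∈ range (K N) | ((3 ^ i * n : ℕ) : ℤ) ∈ conj s S} := by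
          rw [multiples_eq]
          congr 1
        have e : (#{i ∈ range (K N) | ((3 ^ i * n : ℕ) : ℤ) ∈ conj s S} : ℝ) - δ * (K N : ℕ)
            = ((multiples s S n (K N) : ℝ) / K N - δ) * K N := by
          rw [e0]
          field_simp
        rw [e, abs_mul, abs_of_pos hKpos]
        calc min ε (η / 2) * (K N : ℝ) ≤ ε * K N := by gcongr; exact min_le_left _ _
          _ < |(multiples s S n (K N) : ℝ) / K N - δ| * K N := by gcongr
      exact_mod_cast this
    refine hmono.trans (h.trans ?_)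
    gcongr
    exact min_le_right _ _
  rw [dist_zero_right, Real.norm_eq_abs, abs_of_nonneg (prob_nonneg _ _)]
  linarith

/-! ### assembly -/

/-- density, pair law and law of large numbers of an invariant set -/
theorem law {s : ℤ} (hs : s = 1 ∨ s = -1) (h : S_PAIRLAW97 s) (hen : S_EN3 s) {S : Set ℤ} (hS : Invariant S)
    (hex : ∃ x ∈ S, 0 < s * x) : ∃ δ : ℝ, 0 < δ ∧ δ ≤ 1 ∧ (δ = 1 ↔ ∀ x : ℤ, 0 < s * x → x ∈ S) ∧
      Tendsto (fun N : ℕ => prob N fun n => s * n ∈ S) atTop (𝓝 δ) ∧ Pairs s S δ ∧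
      ∀ K : ℕ → ℕ, (∀ᶠ N : ℕ in atTop, (K N : ℝ) ≤ Real.log N ^ (0.99 : ℝ)) → (∃ x : ℤ, 0 < s * x ∧ x ∉ S) →
        (LLN s S δ K ↔ Tendsto (fun N : ℕ => (K N : ℝ) / √ (Real.log N)) atTop atTop) := by
  obtain ⟨δ, h1, h2, h3⟩ := dens hs (conj s S) (conj_inv hs hS) (sign_of_pos hs hex)
  have hd := density_of_mz h3
  have hlt : (∃ x : ℤ, 0 < s * x ∧ x ∉ S) → δ < 1 := by
    rintro ⟨x, hx, hxS⟩
    obtain ⟨δ', h1', h2', h3'⟩ := dens hs (conj s Sᶜ) (conj_inv hs (compl_inv hS))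
      (sign_of_pos hs ⟨x, hxS, hx⟩)
    have hd' := density_of_mz h3'
    have h5 : Tendsto (fun N : ℕ => prob N fun n => s * n ∈ Sᶜ) atTop (𝓝 (1 - δ)) := by
      refine (hd.const_sub 1).congr' ?_
      filter_upwards [eventually_ge_atTop 1] with N hN
      exact (prob_not hN fun n => s * n ∈ S).symm
    have h6 := tendsto_nhds_unique hd' h5
    linarith
  refine ⟨δ, h1, h2, ⟨fun hδ x hx => ?_, fun hall => ?_⟩, hd, pair_law hs h hS h1.le h2 h3, fun K hK hex' =>
    ⟨lln_only h1 (hlt hex') hd (pair_law hs h hS h1.le h2 h3), fun hK' => lln_if hs (lln3 s hs hen) hS h1.le h2 h3 hK' hK⟩⟩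
  · by_contra hxS
    have := hlt ⟨x, hx, hxS⟩
    linarith
  · have h5 : Tendsto (fun N : ℕ => prob N fun n => s * n ∈ S) atTop (𝓝 1) := by
      refine tendsto_const_nhds.congr' ?_
      filter_upwards [eventually_ge_atTop 1] with N hN
      have h6 := prob_not hN (fun _ => False)
      have h7 : prob N (fun _ => False) = 0 := by
        classical
        rw [prob_eq, filter_false_of_mem (fun _ _ h => h)]; simp
      rw [h7, sub_zero] at h6
      rw [← h6]
      apply prob_congr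
      intro n hn _
      simp only [not_false_iff, true_iff]
      apply hall
      rcases hs with rfl | rfl <;> nlinarith
    exact tendsto_nhds_unique hd h5

/-- the criterion for Q1 -/
theorem q1_sign {s : ℤ} (hs : s = 1 ∨ s = -1) (h : S_PAIRLAW97 s) (hen : S_EN3 s) {i : ℕ → ℕ} {c : ℝ} (hc : 0 < c)
    (hi1 : ∀ᶠ N : ℕ in atTop, c * √ (Real.log N) ≤ i N)
    (hi2 : ∀ᶠ N : ℕ in atTop, (i N : ℝ) ≤ Real.log N ^ (0.97 : ℝ)) :
    (∀ x : ℤ, 0 < s * x → Reaches x) ↔
      Tendsto (fun N : ℕ => prob N fun n => Reaches (s * n) ∧ ¬ Reaches (s * (3 ^ i N * n))) atTop (𝓝 0) := by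
  have hs1 : ∃ x ∈ {x | Reaches x}, 0 < s * x := by
    rcases hs with rfl | rfl
    · exact ⟨1, ⟨0, by decide⟩, by norm_num⟩
    · exact ⟨-1, ⟨0, by decide⟩, by norm_num⟩
  constructor
  · intro hall
    refine tendsto_const_nhds.congr fun N => ?_
    have h1 : prob N (fun n => Reaches (s * n) ∧ ¬ Reaches (s * (3 ^ i N * n))) ≤ prob N (fun _ => False) := by
      apply prob_mono
      intro n hn _ h2
      apply h2.2
      apply hall
      have h3 : (0 : ℤ) < 3 ^ i N * n := by positivity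
      rcases hs with rfl | rfl <;> nlinarith
    have h7 : prob N (fun _ => False) = 0 := by
      classical
      rw [prob_eq, filter_false_of_mem (fun _ _ h => h)]; simp
    have h8 := prob_nonneg N (fun n => Reaches (s * n) ∧ ¬ Reaches (s * (3 ^ i N * n)))
    linarith
  · intro ht
    obtain ⟨δ, h1, h2, h3, hd, hp, _⟩ := law hs h hen reaches_inv hs1
    rw [← (show (δ = 1 ↔ ∀ x : ℤ, 0 < s * x → Reaches x) from h3)]
    by_contra hδ
    have hδ1 : δ < 1 := lt_of_le_of_ne h2 hδ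
    obtain ⟨κ, hκ⟩ : ∃ κ, κ = δ * (1 - δ) * (1 - erfc (c * √ (Real.log (4 / 3) / 2))) := ⟨_, rfl⟩
    have hκ0 : 0 < κ := by
      rw [hκ]
      have h4 : 0 < c * √ (Real.log (4 / 3) / 2) := mul_pos hc (Real.sqrt_pos.2 (by have := log43; positivity))
      have := erfc_lt_one h4
      exact mul_pos (mul_pos h1 (by linarith)) (by linarith)
    have hlogt : Tendsto (fun N : ℕ => Real.log N) atTop atTop :=
      Real.tendsto_log_atTop.comp tendsto_natCast_atTop_atTop
    have e1 := ht.eventually (eventually_le_nhds (show 0 < κ / 4 by positivity))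
    have e2 := hd.eventually (eventually_ge_nhds (show δ - κ / 4 < δ by linarith))
    obtain ⟨N, hN1, hN2, hN3, hN4, hN5, hN6⟩ := (e1.and (e2.and ((hp (κ / 4) (by positivity)).and
      ((hlogt.eventually_ge_atTop 1).and (hi1.and hi2))))).exists
    have h5 := hN3 (i N) hN6 0 (by simp)
    have h6 := tau_le (c := c) (by linarith) hN5
    have h7 := prob_split N (fun n => s * (n : ℤ) ∈ {x | Reaches x}) (fun n => s * (3 ^ i N * (n : ℤ) + 0) ∈ {x | Reaches x})
    have h8 : prob N (fun n => s * (n : ℤ) ∈ {x | Reaches x} ∧ ¬ s * (3 ^ i N * (n : ℤ) + 0) ∈ {x | Reaches x})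
        = prob N (fun n => Reaches (s * n) ∧ ¬ Reaches (s * (3 ^ i N * n))) := by
      apply prob_congr
      intro n _ _
      simp only [add_zero]
      rfl
    rw [h8] at h7
    have h9 : δ * (1 - δ) * tau N (i N) ≤ δ * (1 - δ) - κ := by
      rw [hκ]
      have h10 : 0 ≤ δ * (1 - δ) := mul_nonneg h1.le (by linarith)
      have h11 := mul_le_mul_of_nonneg_left h6 h10
      linarith
    have h10 := (abs_le.1 h5).2
    nlinarith

/-! ### the law of the classes -/

theorem coal_eq {k : ℕ} (G : (Fin k → ℤ) → ℝ) (t : ℕ) (x : Fin k → ℤ) : coal G t x = Cw G t x := by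
  induction t generalizing x with
  | zero => rfl
  | succ t ih =>
    show (∑ A ∈ (univ.image x).powerset, coal G t fun a => if x a ∈ A then x a + 1 else x a - 1) / 2 ^ #(univ.image x)
      = (∑ A ∈ (univ.image x).powerset, Cw G t fun a => mv A (x a)) / 2 ^ #(univ.image x)
    congr 1
    apply sum_congr rfl
    intro A _
    exact ih _

theorem colour_eq {ι : Type*} {k : ℕ} (μ : ι → ℝ) (c : Fin k → ι) : colour μ c = Col.colour μ c := rfl

theorem steps_eq (N : ℕ) : steps N = kn N := by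
  unfold steps kn
  congr 1
  unfold gm
  rw [Real.log_div (by norm_num) (by norm_num), show (4 : ℝ) = 2 ^ 2 by norm_num, Real.log_pow]
  push_cast
  have h1 : 2 * Real.log 2 - Real.log 3 = 2 * (Real.log 2 - Real.log 3 / 2) := by ring
  rw [h1, mul_div_mul_left _ _ (by norm_num : (2 : ℝ) ≠ 0)]

open Classical in
/-- the density of the intersection of the classes `c a`, `a ∈ B` -/
noncomputable def cM {ι : Type*} {k : ℕ} (μ : ι → ℝ) (c : Fin k → ι) (B : Finset (Fin k)) : ℝ :=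
  if B = ∅ then 1 else ∑' v : ι, if ∀ a ∈ B, c a = v then μ v else 0

open Classical in
theorem cM_val {ι : Type*} {k : ℕ} (μ : ι → ℝ) (c : Fin k → ι) {B : Finset (Fin k)} {b : Fin k} (hb : b ∈ B) :
    cM μ c B = if ∀ a ∈ B, c a = c b then μ (c b) else 0 := by
  unfold cM
  rw [if_neg (ne_empty_of_mem hb), tsum_eq_single (c b)]
  intro v hv
  rw [if_neg]
  intro h
  exact hv (h b hb).symm

theorem GM_cM {ι : Type*} {k : ℕ} (μ : ι → ℝ) (c : Fin k → ι) : GM (cM μ c) = colour μ c := by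
  classical
  funext x
  unfold GM colour
  apply prod_congr rfl
  intro z hz
  rw [mem_image] at hz
  obtain ⟨a, _, ha⟩ := hz
  unfold cM
  rw [if_neg (ne_empty_of_mem (show a ∈ univ.filter fun a => x a = z by rw [mem_filter]; exact ⟨mem_univ _, ha⟩))]
  congr 1
  funext v
  congr 1
  simp

theorem cM_mem {s : ℤ} {μ : {a : ℤ // IsRep s a} → ℝ} (h0 : ∀ a, 0 ≤ μ a ∧ μ a ≤ 1) {k : ℕ}
    (c : Fin k → {a : ℤ // IsRep s a}) (B : Finset (Fin k)) : 0 ≤ cM μ c B ∧ cM μ c B ≤ 1 := by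
  classical
  rcases B.eq_empty_or_nonempty with h | ⟨b, hb⟩
  · unfold cM; rw [if_pos h]; exact ⟨zero_le_one, le_rfl⟩
  · rw [cM_val μ c hb]
    split_ifs
    · exact h0 _
    · exact ⟨le_rfl, zero_le_one⟩

theorem mz_zero : MeanZero (fun _ : ℤ => (0 : ℝ)) := by unfold MeanZero; simp

theorem cM_mz {s : ℤ} (hs : s = 1 ∨ s = -1) {μ : {a : ℤ // IsRep s a} → ℝ}
    (hμ : ∀ a : {a : ℤ // IsRep s a}, MeanZero (fun x => (conj s {x | Meet x a}).indicator (fun _ => (1 : ℝ)) x - μ a))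
    {k : ℕ} (c : Fin k → {a : ℤ // IsRep s a}) (B : Finset (Fin k)) :
    MeanZero (fun x => {x | ∀ a ∈ B, x ∈ conj s {x | Meet x (c a)}}.indicator (fun _ => (1 : ℝ)) x - cM μ c B) := by
  classical
  rcases B.eq_empty_or_nonempty with h | ⟨b, hb⟩
  · have e : (fun x => {x | ∀ a ∈ B, x ∈ conj s {x | Meet x (c a)}}.indicator (fun _ => (1 : ℝ)) x - cM μ c B)
        = fun _ => 0 := by
      funext x
      unfold cM
      rw [if_pos h, Set.indicator_of_mem]
      · ring
      · intro a ha; rw [h] at ha; exact absurd ha (notMem_empty a)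
    rw [e]
    exact mz_zero
  · by_cases hc : ∀ a ∈ B, c a = c b
    · have e : (fun x => {x | ∀ a ∈ B, x ∈ conj s {x | Meet x (c a)}}.indicator (fun _ => (1 : ℝ)) x - cM μ c B)
          = fun x => (conj s {x | Meet x (c b)}).indicator (fun _ => (1 : ℝ)) x - μ (c b) := by
        funext x
        rw [cM_val μ c hb, if_pos hc]
        have : {x | ∀ a ∈ B, x ∈ conj s {x | Meet x (c a)}} = conj s {x | Meet x (c b)} := by
          ext y
          constructor
          · intro h; exact h b hb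
          · intro h a ha
            rw [hc a ha]; exact h
        rw [this]
      rw [e]
      exact hμ _
    · have e : (fun x => {x | ∀ a ∈ B, x ∈ conj s {x | Meet x (c a)}}.indicator (fun _ => (1 : ℝ)) x - cM μ c B)
          = fun _ => 0 := by
        funext x
        rw [cM_val μ c hb, if_neg hc, Set.indicator_of_notMem]
        · ring
        · intro h
          push Not at hc
          obtain ⟨a, ha, hne⟩ := hc
          have h1 : Meet (s * x) (c a) := h a ha
          have h2 : Meet (s * x) (c b) := h b hb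
          exact hne (Subtype.ext (rep_unique hs (c a).2 (c b).2 (h1.symm.trans h2)))
      rw [e]
      exact mz_zero

/-- the joint law for invariant sets with given densities of the intersections -/
theorem joint_sets {s : ℤ} (hs : s = 1 ∨ s = -1) (h : S_JSET s) {k : ℕ} {S : Fin k → Set ℤ} (hS : ∀ a, Invariant (S a))
    {M : Finset (Fin k) → ℝ} (hM01 : ∀ B, 0 ≤ M B ∧ M B ≤ 1)
    (hM : ∀ B, MeanZero (fun x => {x | ∀ a ∈ B, x ∈ conj s (S a)}.indicator (fun _ => (1 : ℝ)) x - M B)) {ε : ℝ}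
    (hε : 0 < ε) : ∀ᶠ N : ℕ in atTop, ∀ (i : Fin k → ℕ) (r : Fin k → ℤ), Low N i r →
      |prob N (fun n => ∀ a, s * (3 ^ i a * n + r a) ∈ S a) - coal (GM M) (steps N) (fun a => 2 * (i a : ℤ))| ≤ ε := by
  classical
  obtain ⟨N0, hN0⟩ := h k (fun a => conj s (S a)) (fun a => conj_inv hs (hS a)) M hM01 hM ε hε
  filter_upwards [eventually_ge_atTop (max N0 1)] with N hN i r hir
  have hN1 : 1 ≤ N := (le_max_right _ _).trans hN
  have hN' : (0 : ℝ) < N := by exact_mod_cast hN1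
  have h2 := hN0 N ((le_max_left _ _).trans hN) i (fun a => (hir a).1) r (fun a => (hir a).2)
  rw [prob_eq, coal_eq, steps_eq]
  have e : (#{n ∈ Icc 1 N | ∀ a, s * (3 ^ i a * ((n : ℕ) : ℤ) + r a) ∈ S a} : ℝ) / N
      - Cw (GM M) (kn N) (fun a => 2 * (i a : ℤ))
      = ((#{n ∈ Icc 1 N | ∀ a, s * (3 ^ i a * ((n : ℕ) : ℤ) + r a) ∈ S a} : ℝ)
        - Cw (GM M) (kn N) (fun a => 2 * (i a : ℤ)) * N) / N := by
    field_simp
  rw [e, abs_div, abs_of_pos hN', div_le_iff₀ hN']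
  have hc : #{n ∈ Icc 1 N | ∀ a, s * (3 ^ i a * ((n : ℕ) : ℤ) + r a) ∈ S a}
      = #{m ∈ Icc 1 N | ∀ a, 3 ^ i a * ((m : ℕ) : ℤ) + r a ∈ conj s (S a)} := by
    congr 1
  rw [hc]
  exact h2

theorem joint_law {s : ℤ} (hs : s = 1 ∨ s = -1) (h : S_JSET s) {μ : {a : ℤ // IsRep s a} → ℝ} (hsum : HasSum μ 1)
    (hμ : ∀ a : {a : ℤ // IsRep s a}, 0 < μ a ∧ μ a ≤ 1 ∧
      MeanZero (fun x => (conj s {x | Meet x a}).indicator (fun _ => (1 : ℝ)) x - μ a))
    (k : ℕ) : ClassLaw s μ k := by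
  classical
  intro ε hε
  have hμ0 : ∀ a, 0 ≤ μ a := fun a => (hμ a).1.le
  -- a finite set of classes
  obtain ⟨F, hF⟩ : ∃ F : Finset {a : ℤ // IsRep s a}, 1 - ε / (4 * (k + 1)) ≤ ∑ a ∈ F, μ a :=
    (hsum.eventually (eventually_ge_nhds (show 1 - ε / (4 * (k + 1)) < 1 by
      have : 0 < ε / (4 * (k + 1)) := by positivity
      linarith))).exists
  have hF1 : ∑ a ∈ F, μ a ≤ 1 := sum_le_hasSum F (fun c _ => hμ0 c) hsum
  have hF0 : 0 ≤ ∑ a ∈ F, μ a := sum_nonneg fun a _ => hμ0 a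
  have hFk : 1 - ε / 4 ≤ (∑ a ∈ F, μ a) ^ k := by
    have h1 := one_add_mul_le_pow (a := (∑ a ∈ F, μ a) - 1) (by linarith) k
    rw [add_sub_cancel] at h1
    refine le_trans ?_ h1
    have h2 : -(ε / (4 * (k + 1))) ≤ (∑ a ∈ F, μ a) - 1 := by linarith
    have h3 : (k : ℝ) * (-(ε / (4 * (k + 1)))) ≤ k * ((∑ a ∈ F, μ a) - 1) := mul_le_mul_of_nonneg_left h2 (Nat.cast_nonneg k)
    have h4 : (k : ℝ) * (ε / (4 * (k + 1))) ≤ ε / 4 := by
      rw [← mul_div_assoc, div_le_div_iff₀ (by positivity) (by norm_num)]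
      nlinarith [Nat.cast_nonneg (α := ℝ) k]
    linarith
  obtain ⟨T, hT⟩ : ∃ T : Finset (Fin k → {a : ℤ // IsRep s a}), T = Fintype.piFinset (fun _ : Fin k => F) := ⟨_, rfl⟩
  have hε' : 0 < ε / 4 / (#T + 1) := by positivity
  have hall : ∀ᶠ N : ℕ in atTop, ∀ c ∈ T, ∀ (i : Fin k → ℕ) (r : Fin k → ℤ), Low N i r →
      |prob N (fun n => ∀ a, s * (3 ^ i a * n + r a) ∈ {x | Meet x (c a)})
        - coal (colour μ c) (steps N) (fun a => 2 * (i a : ℤ))| ≤ ε / 4 / (#T + 1) := by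
    rw [eventually_all_finset]
    intro c _
    have h1 := joint_sets hs h (S := fun a => {x | Meet x (c a)}) (fun a => meet_inv _) (M := cM μ c)
      (cM_mem (fun a => ⟨hμ0 a, (hμ a).2.1⟩) c) (cM_mz hs (fun a => (hμ a).2.2) c) hε'
    rw [GM_cM] at h1
    exact h1
  filter_upwards [hall, eventually_ge_atTop 1] with N hN hN1 i r hir R hR
  obtain ⟨X, hX⟩ : ∃ X : ℕ → Fin k → ℤ, X = fun (n : ℕ) (a : Fin k) => s * (3 ^ i a * (n : ℤ) + r a) := ⟨_, rfl⟩
  obtain ⟨E, hE⟩ : ∃ E : (Fin k → {a : ℤ // IsRep s a}) → ℕ → Prop, E = fun (c : Fin k → {a : ℤ // IsRep s a}) (n : ℕ) => ∀ a, Meet (X n a) (c a) := ⟨_, rfl⟩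
  obtain ⟨W, hW⟩ : ∃ W : (Fin k → {a : ℤ // IsRep s a}) → ℝ, W = fun c => coal (colour μ c) (steps N) (fun a => 2 * (i a : ℤ)) :=
    ⟨_, rfl⟩
  have hW' : W = fun c => Cw (Col.colour μ c) (steps N) (fun a => 2 * (i a : ℤ)) := by
    rw [hW]; funext c; rw [coal_eq]; rfl
  have hpi : HasSum W 1 := by rw [hW']; exact Col.law_hasSum hμ0 hsum _ _
  have hP0 : ∀ c, 0 ≤ W c := fun c => by
    rw [hW']; exact Col.Cw_nonneg (fun x => Col.colour_nonneg hμ0 c x) _ _
  have hTge : 1 - ε / 4 ≤ ∑ c ∈ T, W c := by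
    refine hFk.trans ?_
    rw [hT, hW']
    exact Col.law_sum_ge hμ0 F hF1 _ _
  have hT1 : ∑ c ∈ T, W c ≤ 1 := sum_le_hasSum T (fun c _ => hP0 c) hpi
  have hEc : ∀ c ∈ T, |prob N (E c) - W c| ≤ ε / 4 / (#T + 1) := by
    intro c hc
    rw [hE, hX, hW]
    exact hN c hc i r hir
  have hdis : ∀ c ∈ T, ∀ c' ∈ T, c ≠ c' → ∀ n, E c n → ¬ E c' n := by
    intro c _ c' _ hcc n hn hn'
    apply hcc
    rw [hE] at hn hn'
    funext a
    exact Subtype.ext (rep_unique hs (c a).2 (c' a).2 ((hn a).symm.trans (hn' a)))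
  -- the decomposition
  have h1 := prob_split N (fun n => X n ∈ R) (fun n => ∃ c ∈ T, E c n)
  have h2 : prob N (fun n => X n ∈ R ∧ ∃ c ∈ T, E c n)
      = ∑ c ∈ T, R.indicator (fun _ => prob N (E c)) (fun a => (c a : ℤ)) := by
    have h3 : prob N (fun n => X n ∈ R ∧ ∃ c ∈ T, E c n)
        = prob N (fun n => ∃ c ∈ T, (E c n ∧ (fun a => (c a : ℤ)) ∈ R)) := by
      apply prob_congr
      intro n _ _
      have h4 : ∀ c, E c n → (X n ∈ R ↔ (fun a => (c a : ℤ)) ∈ R) := by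
        intro c hc
        rw [hE] at hc
        exact hR _ _ hc
      constructor
      · rintro ⟨hx, c, hc, hcn⟩
        exact ⟨c, hc, hcn, (h4 c hcn).1 hx⟩
      · rintro ⟨c, hc, hcn, hcR⟩
        exact ⟨(h4 c hcn).2 hcR, c, hc, hcn⟩
    rw [h3, prob_sum T N (fun c n => E c n ∧ (fun a => (c a : ℤ)) ∈ R)
      (fun c hc c' hc' hcc n hn hn' => hdis c hc c' hc' hcc n hn.1 hn'.1)]
    apply sum_congr rfl
    intro c _
    by_cases hcR : (fun a => (c a : ℤ)) ∈ R
    · rw [Set.indicator_of_mem hcR]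
      apply prob_congr
      intro n _ _
      simp only [hcR, and_true]
    · rw [Set.indicator_of_notMem hcR]
      rw [prob_eq, filter_false_of_mem (fun n _ h => hcR h.2)]
      simp
  have h3 : prob N (fun n => X n ∈ R ∧ ¬ ∃ c ∈ T, E c n) ≤ 1 - ∑ c ∈ T, prob N (E c) := by
    rw [← prob_sum T N E hdis, ← prob_not hN1]
    exact prob_mono fun n _ _ h => h.2
  have h3' := prob_nonneg N (fun n => X n ∈ R ∧ ¬ ∃ c ∈ T, E c n)
  -- the limit
  have hind : ∀ (c : Fin k → {a : ℤ // IsRep s a}) (v : ℝ), 0 ≤ v → 0 ≤ R.indicator (fun _ => v) (fun a => (c a : ℤ)) ∧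
      R.indicator (fun _ => v) (fun a => (c a : ℤ)) ≤ v := by
    intro c v hv
    simp only [Set.indicator]
    split_ifs <;> simp [hv]
  have hsR : Summable (fun c : Fin k → {a : ℤ // IsRep s a} => R.indicator (fun _ => W c) (fun a => (c a : ℤ))) :=
    Summable.of_nonneg_of_le (fun c => (hind c _ (hP0 c)).1) (fun c => (hind c _ (hP0 c)).2) hpi.summable
  have h4 := hsR.sum_add_tsum_compl (s := T)
  have h5 := hpi.summable.sum_add_tsum_compl (s := T)
  rw [hpi.tsum_eq] at h5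
  have h6 : ∑' c : ((T : Set (Fin k → {a : ℤ // IsRep s a}))ᶜ : Set (Fin k → {a : ℤ // IsRep s a})), R.indicator (fun _ => W (c : Fin k → {a : ℤ // IsRep s a}))
      (fun a => ((c : Fin k → {a : ℤ // IsRep s a}) a : ℤ))
      ≤ ∑' c : ((T : Set (Fin k → {a : ℤ // IsRep s a}))ᶜ : Set (Fin k → {a : ℤ // IsRep s a})), W (c : Fin k → {a : ℤ // IsRep s a}) :=
    (hsR.subtype _).tsum_le_tsum (fun c => (hind _ _ (hP0 _)).2) (hpi.summable.subtype _)
  have h7 : 0 ≤ ∑' c : ((T : Set (Fin k → {a : ℤ // IsRep s a}))ᶜ : Set (Fin k → {a : ℤ // IsRep s a})), R.indicator (fun _ => W (c : Fin k → {a : ℤ // IsRep s a}))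
      (fun a => ((c : Fin k → {a : ℤ // IsRep s a}) a : ℤ)) := tsum_nonneg fun c => (hind _ _ (hP0 _)).1
  have h8 : |∑ c ∈ T, R.indicator (fun _ => prob N (E c)) (fun a => (c a : ℤ))
      - ∑ c ∈ T, R.indicator (fun _ => W c) (fun a => (c a : ℤ))| ≤ ε / 4 := by
    rw [← sum_sub_distrib]
    refine (abs_sum_le_sum_abs _ _).trans ?_
    have h9 : ∀ c ∈ T, |R.indicator (fun _ => prob N (E c)) (fun a => (c a : ℤ))
        - R.indicator (fun _ => W c) (fun a => (c a : ℤ))| ≤ ε / 4 / (#T + 1) := by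
      intro c hc
      by_cases hcR : (fun a => (c a : ℤ)) ∈ R
      · rw [Set.indicator_of_mem hcR, Set.indicator_of_mem hcR]; exact hEc c hc
      · rw [Set.indicator_of_notMem hcR, Set.indicator_of_notMem hcR, sub_self, abs_zero]; exact hε'.le
    refine (sum_le_sum h9).trans ?_
    rw [sum_const, nsmul_eq_mul, ← mul_div_assoc, div_le_iff₀ (by positivity)]
    nlinarith
  have h9 : ∑ c ∈ T, W c - ε / 4 ≤ ∑ c ∈ T, prob N (E c) := by
    have h10 : |∑ c ∈ T, prob N (E c) - ∑ c ∈ T, W c| ≤ ε / 4 := by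
      rw [← sum_sub_distrib]
      refine (abs_sum_le_sum_abs _ _).trans ?_
      refine (sum_le_sum hEc).trans ?_
      rw [sum_const, nsmul_eq_mul, ← mul_div_assoc, div_le_iff₀ (by positivity)]
      nlinarith
    have := (abs_le.1 h10).1
    linarith
  have hgoal : prob N (fun n => (fun a => s * (3 ^ i a * (n : ℤ) + r a)) ∈ R) = prob N (fun n => X n ∈ R) := by rw [hX]
  have hgoal2 : ∑' c : Fin k → {a : ℤ // IsRep s a},
      R.indicator (fun _ => coal (colour μ c) (steps N) fun a => 2 * (i a : ℤ)) (fun a => (c a : ℤ))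
      = ∑' c : Fin k → {a : ℤ // IsRep s a}, R.indicator (fun _ => W c) (fun a => (c a : ℤ)) := by rw [hW]
  rw [hgoal, hgoal2, h1, h2, ← h4]
  rw [abs_le] at h8 ⊢
  constructor <;> linarith [h8.1, h8.2]

/-! ### the correlations of one set -/

theorem alt_eq {ι : Type*} (c : ι → ℝ) (l : List ι) (P : List ι → ℝ) : alt c l P = dl c l P := by
  induction l generalizing P with
  | nil => rfl
  | cons y l ih => show c y * P l - alt c l _ = c y * P l - dl c l _; rw [ih]

theorem pfaffian_eq {ι : Type*} (a : ι → ι → ℝ) : ∀ (m : ℕ) (l : List ι), pfaffian a m l = pf a m l := by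
  intro m
  induction m with
  | zero => intro l; cases l <;> rfl
  | succ m ih =>
    intro l
    cases l with
    | nil => rfl
    | cons x l =>
      show alt (a x) l (pfaffian a m) = dl (a x) l (pf a m)
      rw [alt_eq]
      exact dl_congr (fun _ _ => rfl) ih

theorem wick_eq {ι : Type*} (m : ℝ) (a : ι → ι → ℝ) (l : List ι) : wick m a l = wkp m a l := by
  unfold wick wkp
  split_ifs
  · exact pfaffian_eq a _ l
  · rw [alt_eq]
    exact dl_congr (fun _ _ => rfl) (pfaffian_eq a _)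

theorem spin_inv {s : ℤ} (hs : s = 1 ∨ s = -1) {S : Set ℤ} (hS : Invariant S) : InvF s (fun x => spin (conj s S) x) := by
  classical
  constructor
  · intro x
    show |spin (conj s S) x| ≤ 1
    unfold spin
    split_ifs <;> norm_num
  · intro x
    show spin (conj s S) (Tz s x) = spin (conj s S) x
    unfold spin
    simp only [conj_inv hs hS x]

theorem spin_pow (S : Set ℤ) (x : ℤ) (m : ℕ) : spin S x ^ m = if m % 2 = 0 then 1 else spin S x := by
  classical
  have h1 : spin S x * spin S x = 1 := by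
    unfold spin; split_ifs <;> norm_num
  rcases Nat.even_or_odd' m with ⟨q, hq | hq⟩
  · rw [if_pos (by omega), hq, pow_mul, pow_two, h1, one_pow]
  · rw [if_neg (by omega), hq, pow_succ, pow_mul, pow_two, h1, one_pow, one_mul]

theorem correlations {s : ℤ} (hs : s = 1 ∨ s = -1) (h : S_JOINT s) {S : Set ℤ} (hS : Invariant S)
    {δ : ℝ} (h0 : 0 ≤ δ) (h1 : δ ≤ 1) (hm : MeanZero (fun x => (conj s S).indicator (fun _ => (1 : ℝ)) x - δ)) :
    Correlations s S δ := by
  classical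
  intro k ε hε
  have hmm : MeanZero (fun x => spin (conj s S) x - (2 * δ - 1)) := by
    have e : (fun x => spin (conj s S) x - (2 * δ - 1))
        = fun x => 2 * ((conj s S).indicator (fun _ => (1 : ℝ)) x - δ) := by
      funext x
      unfold spin
      by_cases hx : x ∈ conj s S
      · rw [if_pos hx, Set.indicator_of_mem hx]; ring
      · rw [if_neg hx, Set.indicator_of_notMem hx]; ring
    rw [e]
    unfold MeanZero at hm ⊢
    have h2 := hm.const_mul 2
    rw [mul_zero] at h2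
    refine h2.congr fun N => ?_
    rw [← mul_sum, mul_div_assoc]
  have hμ1 : |2 * δ - 1| ≤ 1 := by rw [abs_le]; constructor <;> linarith
  have hMn : Mn (fun _ : Fin k => fun x => spin (conj s S) x) (Mpm (2 * δ - 1)) := by
    constructor
    · intro B
      unfold Mpm
      split_ifs
      · norm_num
      · exact hμ1
    · intro B
      by_cases hB : #B % 2 = 0
      · have e : (fun x => ∏ a ∈ B, (fun _ : Fin k => fun x => spin (conj s S) x) a x - Mpm (2 * δ - 1) B) = fun _ => 0 := by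
          funext x
          rw [Finset.prod_const, spin_pow, if_pos hB]
          unfold Mpm
          rw [if_pos hB, sub_self]
        rw [e]
        exact mz_zero
      · have e : (fun x => ∏ a ∈ B, (fun _ : Fin k => fun x => spin (conj s S) x) a x - Mpm (2 * δ - 1) B)
            = fun x => spin (conj s S) x - (2 * δ - 1) := by
          funext x
          rw [Finset.prod_const, spin_pow, if_neg hB]
          unfold Mpm
          rw [if_neg hB]
        rw [e]
        exact hmm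
  obtain ⟨N0, hN0⟩ := h k (fun _ => fun x => spin (conj s S) x) (fun _ => spin_inv hs hS) (Mpm (2 * δ - 1)) hMn
    (ε / 2) (by positivity)
  obtain ⟨η, hη⟩ : ∃ η : ℝ, η = ε / (2 * ((k : ℝ) ^ (k + 2) + 1)) := ⟨_, rfl⟩
  have hη0 : 0 < η := by rw [hη]; positivity
  obtain ⟨V0, hV0, hU⟩ := UU_erf hη0
  filter_upwards [eventually_ge_atTop (max N0 1), (tendsto_natCast_atTop_atTop (R := ℝ)).eventually_ge_atTop V0]
    with N hN hNV i r hir hmon
  have hN1 : 1 ≤ N := (le_max_right _ _).trans hN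
  have hN' : (0 : ℝ) < N := by exact_mod_cast hN1
  have h2 := hN0 N ((le_max_left _ _).trans hN) i (fun a => (hir a).1) r (fun a => (hir a).2)
  have h3 := Pool.Agent.KS6_24.ST.wick (2 * δ - 1) (kn N) (x := fun a => 2 * (i a : ℤ)) (fun a b hab => by
      have := hmon hab
      show 2 * (i a : ℤ) ≤ 2 * (i b : ℤ)
      omega) (fun a b => by omega)
  have e1 : mean N (fun n => ∏ a, spin S (s * (3 ^ i a * n + r a)))
      = (∑ m ∈ Icc 1 N, ∏ a : Fin k, spin (conj s S) (3 ^ i a * ((m : ℕ) : ℤ) + r a)) / N := rfl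
  have h4 : |mean N (fun n => ∏ a, spin S (s * (3 ^ i a * n + r a))) - Cw (GM (Mpm (2 * δ - 1))) (kn N) (fun a => 2 * (i a : ℤ))|
      ≤ ε / 2 := by
    rw [e1]
    have e2 : (∑ m ∈ Icc 1 N, ∏ a : Fin k, spin (conj s S) (3 ^ i a * ((m : ℕ) : ℤ) + r a)) / N
        - Cw (GM (Mpm (2 * δ - 1))) (kn N) (fun a => 2 * (i a : ℤ))
        = (∑ m ∈ Icc 1 N, ∏ a : Fin k, spin (conj s S) (3 ^ i a * ((m : ℕ) : ℤ) + r a)
          - Cw (GM (Mpm (2 * δ - 1))) (kn N) (fun a => 2 * (i a : ℤ)) * N) / N := by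
      field_simp
    rw [e2, abs_div, abs_of_pos hN', div_le_iff₀ hN']
    exact h2
  have hq : 4 * δ * (1 - δ) = 1 - (2 * δ - 1) ^ 2 := by ring
  have hq0 : 0 ≤ 4 * δ * (1 - δ) := mul_nonneg (by linarith) (by linarith)
  have hq1 : 4 * δ * (1 - δ) ≤ 1 := by rw [hq]; nlinarith [sq_nonneg (2 * δ - 1)]
  have h5 : |wkp (2 * δ - 1) (fun a b : Fin k => 1 - (1 - (2 * δ - 1) ^ 2) * UU (2 * kn N) (2 * (i b : ℤ) - 2 * (i a : ℤ))) (List.finRange k)
      - wkp (2 * δ - 1) (fun a b => 1 - 4 * δ * (1 - δ) * (1 - tau N (i b - i a))) (List.finRange k)|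
      ≤ ((List.finRange k).length : ℝ) ^ ((List.finRange k).length + 2) * η := by
    apply wk_lip hμ1 hη0.le
    have hlt : (List.finRange k).Pairwise (· < ·) := List.pairwise_lt_finRange k
    refine hlt.imp ?_
    intro a b hab
    have hab' := hmon hab.le
    obtain ⟨l, hl⟩ := Nat.exists_eq_add_of_le hab'
    have e3 : 2 * (i b : ℤ) - 2 * (i a : ℤ) = 2 * (l : ℤ) := by rw [hl]; push_cast; ring
    have e4 : i b - i a = l := by omega
    rw [e3, e4, ← hq, tau_eq]
    have h6 := hU N hNV l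
    obtain ⟨U, hUd⟩ : ∃ U, U = UU (2 * kn N) (2 * (l : ℤ)) := ⟨_, rfl⟩
    obtain ⟨E, hEd⟩ : ∃ E, E = Er (√2 * (l * √ (gm / Real.log N))) := ⟨_, rfl⟩
    have hU0 : 0 ≤ U := by rw [hUd]; exact KL1.UU_nonneg _ (by positivity)
    have hU1 : U ≤ 1 := by rw [hUd]; exact (abs_le.1 (PL1.abs_le_one _ _)).2
    have hE0 : 0 ≤ E := by rw [hEd]; exact Er_nonneg (by positivity)
    have hE1 : E ≤ 1 := by rw [hEd]; exact Er_le_one _
    rw [← hUd, ← hEd] at h6
    rw [← hUd, ← hEd]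
    refine ⟨?_, ?_, ?_⟩
    · rw [abs_le]; constructor <;> nlinarith
    · rw [abs_le]; constructor <;> nlinarith
    · have e5 : 1 - 4 * δ * (1 - δ) * U - (1 - 4 * δ * (1 - δ) * (1 - (1 - E))) = -(4 * δ * (1 - δ) * (U - E)) := by ring
      rw [e5, abs_neg, abs_mul, abs_of_nonneg hq0]
      calc 4 * δ * (1 - δ) * |U - E| ≤ 1 * η := mul_le_mul hq1 h6 (abs_nonneg _) (by norm_num)
        _ = η := one_mul _
  rw [List.length_finRange] at h5
  have h6 : (k : ℝ) ^ (k + 2) * η ≤ ε / 2 := by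
    rw [hη, ← mul_div_assoc, div_le_div_iff₀ (by positivity) (by norm_num)]
    have : 0 ≤ (k : ℝ) ^ (k + 2) := by positivity
    nlinarith
  rw [wick_eq]
  rw [h3] at h4
  have h7 := h5.trans h6
  rw [abs_le] at h4 h7 ⊢
  constructor <;> linarith [h4.1, h4.2, h7.1, h7.2]

end Pool.Agent.Results.MP_d02c56_nt.JointLaw
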