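import Pool.Agent.KS6_24.ST.JT
import Pool.Agent.KS6_24.ST.PL1

/-!
PROJECT KL: explicit laws for one and two walkers; the error function.
-/

set_option autoImplicit false

namespace Pool.Agent.KS6_24.ST

open Pool.Agent.H499R2.CO Pool.Agent.Y965.SI Finset Filter Topology Pool.Agent.KS6_24.LN

open Pool.Agent.T6.H47.CL (uu Er uu_lim Er_mono Er_lip Er_zero Er_top Er_le_one Er_nonneg)

/-- `UU (2 t)`, `t` the number of steps, and the error function, uniformly -/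
theorem UU_erf {ε : ℝ} (hε : 0 < ε) : ∃ V0 : ℝ, 1 ≤ V0 ∧ ∀ V : ℝ, V0 ≤ V → ∀ i : ℕ,
    |UU (2 * kn V) (2 * i) - Er (√2 * (i * √ (gm / Real.log V)))| ≤ ε := by
  obtain ⟨K0, hK0⟩ := uu_lim (show 0 < ε / 2 by positivity)
  obtain ⟨κ, hκ, hEr⟩ := Er_ratio (show 0 < ε / 2 by positivity)
  have hg := pl_gm_pos
  have hlim : Tendsto (fun V : ℝ => Real.log V / gm) atTop atTop :=
    Tendsto.atTop_div_const hg Real.tendsto_log_atTop
  obtain ⟨V2, hV2⟩ := eventually_atTop.1 ((hlim.eventually_ge_atTop ((K0 : ℝ) + 1)).and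
    ((hlim.eventually_ge_atTop (1 / κ + 1)).and ((hlim.eventually_ge_atTop 2).and
      (Real.tendsto_log_atTop.eventually_ge_atTop 1))))
  refine ⟨max 1 V2, le_max_left _ _, fun V hV i => ?_⟩
  obtain ⟨hy1, hy2, hy3, hl1⟩ := hV2 V ((le_max_right _ _).trans hV)
  obtain ⟨y, hy⟩ : ∃ y, y = 2 * Real.log V / gm := ⟨_, rfl⟩
  obtain ⟨t, ht⟩ : ∃ t, t = kn V := ⟨_, rfl⟩
  have hz0 : 0 ≤ Real.log V / gm := by linarith
  have ht1 : (t : ℝ) ≤ Real.log V / gm := by rw [ht]; exact Nat.floor_le hz0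
  have ht2 : Real.log V / gm < t + 1 := by rw [ht]; exact Nat.lt_floor_add_one _
  have hyz : y = 2 * (Real.log V / gm) := by rw [hy]; ring
  obtain ⟨k, hk⟩ : ∃ k, k = 2 * t := ⟨_, rfl⟩
  have hkr : (k : ℝ) = 2 * t := by rw [hk]; push_cast; ring
  have hk1 : (k : ℝ) ≤ y := by linarith
  have hk2 : y < k + 2 := by linarith
  have hk0 : K0 ≤ k := by
    have : (K0 : ℝ) ≤ t := by linarith
    have h2 : K0 ≤ t := by exact_mod_cast this
    omega
  have hkp : (2 : ℝ) ≤ k := by linarith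
  have hkp' : (0 : ℝ) < k := by linarith
  have h2 := hK0 k hk0 (2 * i)
  have h3 : UU (2 * kn V) (2 * i) = uu k (2 * i) := by
    have := PL1.eq_uu k (2 * i)
    rw [← ht, ← hk, ← this]
    push_cast; rfl
  -- the two arguments
  obtain ⟨x, hx⟩ : ∃ x, x = √2 * (i * √ (gm / Real.log V)) := ⟨_, rfl⟩
  obtain ⟨x', hx'⟩ : ∃ x', x' = ((2 * i : ℕ) : ℝ) / √k := ⟨_, rfl⟩
  have hxy : x = ((2 * i : ℕ) : ℝ) / √y := by
    rw [hx, hy]
    have e1 : gm / Real.log V = 2 / (2 * Real.log V / gm) := by field_simp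
    have e2 : √ (gm / Real.log V) = √2 / √ (2 * Real.log V / gm) := by
      rw [e1, Real.sqrt_div (by norm_num)]
    rw [e2]
    have e3 : √2 * √2 = 2 := Real.mul_self_sqrt (by norm_num)
    push_cast
    calc √2 * (i * (√2 / √ (2 * Real.log V / gm))) = (√2 * √2) * i / √ (2 * Real.log V / gm) := by ring
      _ = 2 * i / √ (2 * Real.log V / gm) := by rw [e3]
  have hx0 : 0 ≤ x := by rw [hx]; positivity
  have hsk : 0 < √ (k : ℝ) := Real.sqrt_pos.2 hkp'
  have hsy : 0 < √ y := Real.sqrt_pos.2 (by linarith)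
  have hsky : √ (k : ℝ) ≤ √ y := Real.sqrt_le_sqrt hk1
  have hxx' : x ≤ x' := by
    rw [hxy, hx']
    exact div_le_div_of_nonneg_left (Nat.cast_nonneg _) hsk hsky
  have hxx2 : x' ≤ (1 + κ) * x := by
    rw [hxy, hx', div_eq_mul_inv, div_eq_mul_inv, ← mul_assoc, mul_comm (1 + κ), mul_assoc]
    apply mul_le_mul_of_nonneg_left _ (Nat.cast_nonneg _)
    rw [← div_eq_mul_inv, inv_eq_one_div, div_le_div_iff₀ hsk hsy, one_mul]
    have e1 : √ y ≤ √ ((1 + κ) ^ 2 * k) := by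
      apply Real.sqrt_le_sqrt
      have e2 : 1 ≤ κ * t := by
        have : 1 / κ ≤ t := by linarith
        rw [div_le_iff₀ hκ] at this
        linarith
      nlinarith
    rw [Real.sqrt_mul (by positivity), Real.sqrt_sq (by positivity)] at e1
    exact e1
  have h4 := hEr x x' hx0 hxx' hxx2
  rw [← hx'] at h2
  rw [h3, ← hx]
  have e : uu k (2 * i) - Er x = (uu k (2 * i) - Er x') + (Er x' - Er x) := by ring
  rw [e]
  refine (abs_add_le _ _).trans ?_
  linarith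

/-- the same for differences of levels -/
theorem UU_erf' {ε : ℝ} (hε : 0 < ε) : ∃ V0 : ℝ, 1 ≤ V0 ∧ ∀ V : ℝ, V0 ≤ V → ∀ i j : ℕ,
    |(|UU (2 * kn V) (2 * (i : ℤ) - 2 * (j : ℤ))|) - Er (√2 * (|(i : ℝ) - j| * √ (gm / Real.log V)))| ≤ ε := by
  obtain ⟨V0, hV0, h⟩ := UU_erf hε
  refine ⟨V0, hV0, fun V hV i j => ?_⟩
  rcases le_total j i with hij | hij
  · obtain ⟨l, rfl⟩ := Nat.exists_eq_add_of_le hij
    have h1 := h V hV l
    have e1 : 2 * ((j + l : ℕ) : ℤ) - 2 * (j : ℤ) = 2 * (l : ℤ) := by push_cast; ring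
    have e2 : |((j + l : ℕ) : ℝ) - (j : ℝ)| = l := by
      push_cast; rw [add_sub_cancel_left, abs_of_nonneg (Nat.cast_nonneg _)]
    rw [e1, e2, abs_of_nonneg (KL1.UU_nonneg _ (by positivity))]
    exact h1
  · obtain ⟨l, rfl⟩ := Nat.exists_eq_add_of_le hij
    have h1 := h V hV l
    have e1 : 2 * (i : ℤ) - 2 * ((i + l : ℕ) : ℤ) = -(2 * (l : ℤ)) := by push_cast; ring
    have e2 : |(i : ℝ) - ((i + l : ℕ) : ℝ)| = l := by
      push_cast; rw [sub_add_cancel_left, abs_neg, abs_of_nonneg (Nat.cast_nonneg _)]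
    rw [e1, e2, PL1.odd, abs_neg, abs_of_nonneg (KL1.UU_nonneg _ (by positivity))]
    exact h1

/-! ### one walker, two walkers -/

theorem jt_Cw_const {n : ℕ} {G : (Fin n → ℤ) → ℝ} {c : ℝ} (hG : ∀ x, G x = c) (k : ℕ) (x : Fin n → ℤ) : Cw G k x = c := by
  induction k generalizing x with
  | zero => exact hG x
  | succ k ih =>
    rw [KL1.Cw_succ']
    simp only [ih]
    exact EP_const _ _

theorem jt_Cw_two {G : (Fin 2 → ℤ) → ℝ} {g0 g1 : ℝ} (h0 : ∀ x : Fin 2 → ℤ, x 0 ≠ x 1 → G x = g0) (h1 : ∀ x : Fin 2 → ℤ, x 0 = x 1 → G x = g1)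
    (k : ℕ) (x : Fin 2 → ℤ) (hx : (x 0 - x 1) % 2 = 0) : Cw G k x = g1 + (g0 - g1) * |UU (2 * k) (x 0 - x 1)| := by
  induction k generalizing x with
  | zero =>
    show G x = _
    by_cases h : x 0 = x 1
    · rw [h1 x h, h, sub_self, KL1.UU_zero, abs_zero]; ring
    · rw [h0 x h]
      have e : |UU (2 * 0) (x 0 - x 1)| = 1 := by
        rw [Nat.mul_zero]
        unfold UU
        rw [if_neg (sub_ne_zero.2 h)]
        split_ifs <;> norm_num
      rw [e]; ring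
  | succ k ih =>
    rw [KL1.Cw_succ']
    have e1 : EP (univ.image x) (fun σ => Cw G k (fun a => x a + σ (x a)))
        = EP (univ.image x) (fun σ => g1 + (g0 - g1) * |UU (2 * k) (x 0 + σ (x 0) - (x 1 + σ (x 1)))|) := by
      apply EP_congr
      intro σ hσ
      apply ih
      have s1 := hσ (x 0)
      have s2 := hσ (x 1)
      show (x 0 + σ (x 0) - (x 1 + σ (x 1))) % 2 = 0
      omega
    rw [e1, EP_add, EP_const, EP_mul, KL1.EP_UU (mem_image_of_mem x (mem_univ 0)) (mem_image_of_mem x (mem_univ 1)) hx]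

end Pool.Agent.KS6_24.ST
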