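import Mathlib

/-!
The definitions of the hand-in LinearPatterns (MP_d02c56_nt).
-/

set_option autoImplicit false

namespace Pool.Agent.Results.MP_d02c56_nt.LinearPatterns

open Filter Topology

/-- The Collatz map on the integers. -/
def C (x : ℤ) : ℤ := if x % 2 = 0 then x / 2 else 3 * x + 1

/-- `S` is invariant under the Collatz map and its inverse. -/
def Invariant (S : Set ℤ) : Prop := ∀ x : ℤ, x ∈ S ↔ C x ∈ S

/-- The trajectories of `x` and `y` meet. -/
def Meet (x y : ℤ) : Prop := ∃ k l : ℕ, C^[k] x = C^[l] y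

/-- The union of the five known cycles. -/
def Known : Finset ℤ := {1, 4, 2, -1, -2, -5, -14, -7, -20, -10, -17, -50, -25, -74, -37, -110,
  -55, -164, -82, -41, -122, -61, -182, -91, -272, -136, -68, -34, 0}

/-- The trajectory of `x` reaches one of the five known cycles. -/
def Reaches (x : ℤ) : Prop := ∃ k : ℕ, C^[k] x ∈ Known

/-- `S` has density `δ` on the integers of sign `s`. -/
def HasDensity (s : ℤ) (S : Set ℤ) (δ : ℝ) : Prop :=
  Tendsto (fun N : ℕ => ({n : ℕ | 1 ≤ n ∧ n ≤ N ∧ s * n ∈ S}.ncard : ℝ) / N) atTop (𝓝 δ)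

/-- `a` is the representative of its class: among the integers of sign `s` whose trajectory meets that of `a`, it has
the least absolute value. -/
def IsRep (s a : ℤ) : Prop := 0 < s * a ∧ ∀ b : ℤ, 0 < s * b → Meet a b → s * a ≤ s * b

/-- `μ s` is the law of the class of a random integer of sign `s`: `μ s a` is the density of the class of `a` on the
integers of sign `s` if `a` is the representative of its class, and `0` otherwise. -/
def ClassLaws (μ : ℤ → ℤ → ℝ) : Prop :=
  ∀ s : ℤ, s = 1 ∨ s = -1 → HasSum (μ s) 1 ∧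
    ∀ a : ℤ, (IsRep s a → 0 < μ s a ∧ HasDensity s {x | Meet x a} (μ s a)) ∧ (¬ IsRep s a → μ s a = 0)

/-- The linear form with the coefficients `A`. -/
def lin {r : ℕ} (A n : Fin r → ℤ) : ℤ := ∑ j, A j * n j

/-- The number of the points `n` of the box `[1, N] ^ r` with `P n`, divided by `N ^ r`. -/
noncomputable def prob {r : ℕ} (N : ℕ) (P : (Fin r → ℤ) → Prop) : ℝ :=
  ({n : Fin r → ℤ | (∀ j, 1 ≤ n j ∧ n j ≤ N) ∧ P n}.ncard : ℝ) / N ^ r

/-- `P n` holds for almost all points `n` with positive coordinates. -/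
def AlmostAll {r : ℕ} (P : (Fin r → ℤ) → Prop) : Prop := Tendsto (fun N : ℕ => prob N fun n => ¬ P n) atTop (𝓝 0)

/-- The linear form `A` is a product of the linear form `B` and a number `2 ^ x 3 ^ y`, `x` and `y` integers. -/
def Related {r : ℕ} (A B : Fin r → ℤ) : Prop := ∃ w x y z : ℕ, ∀ j, A j * (2 ^ w * 3 ^ x) = B j * (2 ^ y * 3 ^ z)

/-- The `B b` are nonzero and pairwise unrelated, and `A a` is related to `B (g a)`. -/
def Splits {r m k : ℕ} (B : Fin m → Fin r → ℤ) (g : Fin k → Fin m) (A : Fin k → Fin r → ℤ) : Prop :=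
  (∀ b, B b ≠ 0) ∧ (∀ b b', b ≠ b' → ¬ Related (B b) (B b')) ∧ ∀ a, Related (A a) (B (g a))

/-- The integer point `n` is in the set `K` of real points. -/
def Mem {r : ℕ} (K : Set (Fin r → ℝ)) (n : Fin r → ℤ) : Prop := (fun j => (n j : ℝ)) ∈ K

/-- `K` is convex, and on `K` the affine form `B b · x + q b` has the sign `s b`. -/
def Region {r m : ℕ} (B : Fin m → Fin r → ℤ) (q s : Fin m → ℤ) (K : Set (Fin r → ℝ)) : Prop :=
  Convex ℝ K ∧ ∀ x ∈ K, ∀ b, 0 < (s b : ℝ) * (∑ j, (B b j : ℝ) * x j + q b)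

/-- The classes of the `k` integers `A a · n + q a` are asymptotically independent and have the laws `μ (s a)`, in total
variation, uniformly for all constants `|q a| ≤ H N` and all convex sets `K` on which these affine forms have the signs
`s a`. `R` is a set of `k`-tuples that is determined by the classes of the entries. -/
def AffineLaw (μ : ℤ → ℤ → ℝ) {r k : ℕ} (A : Fin k → Fin r → ℤ) (s : Fin k → ℤ) : Prop :=
  ∀ ε : ℝ, 0 < ε → ∀ H : ℕ, ∀ᶠ N : ℕ in atTop, ∀ q : Fin k → ℤ, (∀ a, |q a| ≤ H * N) →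
    ∀ K : Set (Fin r → ℝ), Region A q s K →
    ∀ R : Set (Fin k → ℤ), (∀ x y, (∀ a, Meet (x a) (y a)) → (x ∈ R ↔ y ∈ R)) →
      |prob N (fun n => Mem K n ∧ (fun a => lin (A a) n + q a) ∈ R)
        - prob N (fun n => Mem K n) * ∑' c : Fin k → ℤ, R.indicator (fun c => ∏ a, μ (s a) (c a)) c| ≤ ε

/-- The joint law of the classes of the `k` integers `A a · n + q a`, in total variation, uniformly for the convex sets
`K` on which the forms `B b` have the signs `s b`: it is the law of the `c (g a)`, where the `c b`, `b : Fin m`, are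
independent and `c b` has the law `μ (s b)`. -/
def JointLaw (μ : ℤ → ℤ → ℝ) {r m k : ℕ} (B : Fin m → Fin r → ℤ) (g : Fin k → Fin m) (A : Fin k → Fin r → ℤ)
    (q : Fin k → ℤ) (s : Fin m → ℤ) : Prop :=
  ∀ ε : ℝ, 0 < ε → ∀ᶠ N : ℕ in atTop, ∀ K : Set (Fin r → ℝ), Region B 0 s K →
    ∀ R : Set (Fin k → ℤ), (∀ x y, (∀ a, Meet (x a) (y a)) → (x ∈ R ↔ y ∈ R)) →
      |prob N (fun n => Mem K n ∧ (fun a => lin (A a) n + q a) ∈ R)
        - prob N (fun n => Mem K n) * ∑' c : Fin m → ℤ, {c : Fin m → ℤ | (fun a => c (g a)) ∈ R}.indicator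
            (fun c => ∏ b, μ (s b) (c b)) c| ≤ ε

end Pool.Agent.Results.MP_d02c56_nt.LinearPatterns
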