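import Mathlib
import Pool.Agent.KS6_24.ST.FGDefs

/-!
PROJECT SH: independence along linear forms with LARGE shifts: `A a (y + ρ a)`, `0 ≤ ρ a ≤ H V`, `y ∈ [V, 2 V]`, uniformly in
the shifts. It gives linear forms in SEVERAL variables (for instance arithmetic progressions `n, n + m, n + 2 m, ...` and all
cubes `n + ω h`, so the Gowers norms of all orders) by cutting the box into lines.
-/

set_option autoImplicit false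

namespace Pool.Agent.KS6_24.ST

open Pool.Agent.H499R2.CO Pool.Agent.Y965.SI Finset Pool.Agent.KS6_24.LN Pool.Agent.KS6_24.LN.TW

/-- correlation of `n` functions at the multiples `A a * 3 ^ i a` of `y + ρ a` -/
noncomputable def cs {n : ℕ} (F : Fin n → ℤ → ℝ) (A : Fin n → ℕ) (ρ : Fin n → ℝ) (V : ℝ) (i : Fin n → ℤ) : ℝ :=
  av V (fun y => ∏ a, F a ⌊(A a : ℝ) * ((3 : ℝ) ^ i a * (y + ρ a))⌋)

/-- SH1 (helper7): as `S_ETAG` with integer shifts `h a` (in the proof of FG3: `o a z = d a * ((z + h a) / e a)`). -/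
def S_ETAS : Prop := ∀ (n : ℕ) (A : Fin n → ℕ) (d : Fin n → ℤ), GoodF A d → ∀ C : ℕ,
  ∃ (D : ℝ) (t0 : ℕ), 0 < D ∧ 2 ≤ t0 ∧ ∀ t k Λ g l N : ℕ, t0 ≤ t → D ≤ k →
  1 ≤ Λ → Λ ≤ k → k ≤ t → 1 ≤ g → 1 ≤ N → gm * t + 40 * k ≤ Real.log l → ∀ i e : Fin n → ℕ, (∀ a, i a ≤ t ^ 10) →
  (∀ a, A a * 3 ^ i a * e a = N) → ∀ h : Fin n → ℤ, ∀ W : ℝ, N * 2 ^ t ≤ W → ∀ c : Fin n → ℕ,
    av W (fun y => ((∑ w ∈ range (l * N), ∏ a, ((g : ℝ) * psi (d a) t g (c a) ((⌊y⌋ + h a + (w : ℕ)) / (e a : ℤ)))) / (l * N)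
        - ∏ a, ((g : ℝ) * pc 1 t g (c a))) ^ 2)
      ≤ D * (t / (g : ℝ) ^ 2 * (√ (1 / Λ + (t + k : ℝ) ^ 3 / (k : ℝ) ^ 4) + √ (Real.log t / Λ) + 1 / Real.log t ^ C)
          + t * Λ / (g : ℝ) ^ 3 + Λ / (g : ℝ) ^ 2 + N * 2 ^ t / W)

/-- SH2 (helper24): STAGE LEMMA with shifts. -/
def S_STAGES : Prop := ∀ (n : ℕ) (A : Fin n → ℕ) (d : Fin n → ℤ), GoodF A d → ∀ H : ℝ, 0 ≤ H →
  ∃ (D : ℝ) (m0 : ℕ), 0 < D ∧ 2 ≤ m0 ∧
  ∀ F : Fin n → ℤ → ℝ, (∀ a, InvF (d a) (F a)) → ∀ m L : ℕ, m0 ≤ m → Nat.log 2 m ≤ L → L ≤ 3 * Nat.log 2 m →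
  ∀ V : ℝ, 2 ^ m ≤ V → ∀ ρ : Fin n → ℝ, (∀ a, 0 ≤ ρ a) → (∀ a, ρ a ≤ H * V) →
  ∀ i : Fin n → ℕ, (∀ a, (i a : ℝ) ≤ (m : ℝ) ^ (0.9995 : ℝ)) →
    |cs F A ρ V (fun a => i a) - ∑ c ∈ Fintype.piFinset (fun _ : Fin n => Cs (st m L) (sgw m L) (sB m L)),
        (∏ a, pc 1 (st m L) (sgw m L) (c a)) * cs F A (fun a => ρ a / 2 ^ (st m L)) (V / 2 ^ (st m L)) (fun a => (i a : ℤ) + c a)|
      ≤ D / (L : ℝ) ^ 4

/-- SH3 (helper12): INDEPENDENCE for mean zero functions, uniformly in the shifts, from `S_STAGES`, `S_EN3` (as `coreM` in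
FM5a.lean and `corg` in FG5.lean; the ratio `ρ a / V` is the same after a stage and after a change of the level). -/
def S_CORS : Prop := ∀ (n : ℕ) (A : Fin (n + 1) → ℕ) (d : Fin (n + 1) → ℤ), GoodF A d → ∀ F : Fin (n + 1) → ℤ → ℝ,
  (∀ a, InvF (d a) (F a)) → MeanZero (F 0) → ∀ H : ℝ, 0 ≤ H → ∀ ε : ℝ, 0 < ε → ∃ V0 : ℝ, 1 ≤ V0 ∧ ∀ V : ℝ, V0 ≤ V →
    ∀ ρ : Fin (n + 1) → ℝ, (∀ a, 0 ≤ ρ a) → (∀ a, ρ a ≤ H * V) → |cs F A ρ V (fun _ => 0)| ≤ ε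

/-- SH4: the same for sums over `s < M` of forms `2 ^ k A s + r` with `M ≤ r ≤ H M`, uniformly in `r` (as FM6.lean). -/
def S_SUMS : Prop := ∀ (n : ℕ) (A : Fin (n + 1) → ℕ) (d : Fin (n + 1) → ℤ), GoodF A d → ∀ k : Fin (n + 1) → ℕ,
  ∀ F : Fin (n + 1) → ℤ → ℝ, (∀ a, InvF (d a) (F a)) → MeanZero (F 0) → ∀ (H : ℕ) (ε : ℝ), 0 < ε → ∃ M0 : ℕ, 1 ≤ M0 ∧
  ∀ M : ℕ, M0 ≤ M → ∀ r : Fin (n + 1) → ℤ, (∀ a, (M : ℤ) ≤ r a) → (∀ a, r a ≤ H * M) →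
    |∑ s ∈ range M, ∏ a, F a (2 ^ k a * A a * ((s : ℕ) : ℤ) + r a)| ≤ ε * M

/-- SH5: a direction in a given open cone at which the forms have quotients which are not `2 ^ x 3 ^ y`: pairs of forms which are
not proportional get a prime `p ≥ 5` that divides the value of only one of them. -/
def S_DIR : Prop := ∀ (k r : ℕ) (L : Fin k → Fin r → ℤ), (∀ a, L a ≠ 0) →
  (∀ a b, a ≠ b → ∀ x y u v : ℕ, (fun j => 2 ^ x * 3 ^ y * L a j) ≠ fun j => 2 ^ u * 3 ^ v * L b j) →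
  ∀ (σ : Fin k → ℤ) (w : Fin r → ℤ), (∀ a, σ a = 1 ∨ σ a = -1) → (∀ a, 0 < σ a * ∑ j, L a j * w j) →
  ∃ v : Fin r → ℤ, (∀ a, 0 < σ a * ∑ j, L a j * v j) ∧
    ∀ a b, a ≠ b → ∀ x y u z : ℕ, 2 ^ x * 3 ^ y * (∑ j, L a j * v j) ≠ 2 ^ u * 3 ^ z * (∑ j, L b j * v j)

/-- averages with a shift -/
theorem av_shift_le {G : ℝ → ℝ} {M : ℝ} (hG : Bd M G) (hG0 : ∀ y, 0 ≤ G y) {V σ H e : ℝ} (hV : 0 < V) (hσ0 : 0 ≤ σ)
    (hσ : σ ≤ H * V) (h : ∀ V', V ≤ V' → av V' G ≤ e) : av V (fun y => G (y + σ)) ≤ (1 + H) * e := by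
  have hV' : V ≤ V + σ := by linarith
  have h1 := h (V + σ) hV'
  have hV'0 : 0 < V + σ := by linarith
  have e1 : ∫ y in V..2 * V, G (y + σ) = ∫ y in (V + σ)..(2 * V + σ), G y :=
    intervalIntegral.integral_comp_add_right (fun y => G y) σ
  have hint : ∀ a b : ℝ, IntervalIntegrable G MeasureTheory.volume a b := fun a b => hG.ii a b
  have h2 : ∫ y in (V + σ)..(2 * V + σ), G y ≤ ∫ y in (V + σ)..(2 * (V + σ)), G y := by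
    rw [← intervalIntegral.integral_add_adjacent_intervals (hint (V + σ) (2 * V + σ)) (hint (2 * V + σ) (2 * (V + σ)))]
    have : 0 ≤ ∫ y in (2 * V + σ)..(2 * (V + σ)), G y :=
      intervalIntegral.integral_nonneg (by linarith) fun y _ => hG0 y
    linarith
  have e0 : 0 ≤ e := le_trans (div_nonneg (intervalIntegral.integral_nonneg (by linarith) fun y _ => hG0 y) hV'0.le) h1
  unfold av at h1 ⊢
  rw [div_le_iff₀ hV'0] at h1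
  rw [e1, div_le_iff₀ hV]
  have h3 : e * (V + σ) ≤ (1 + H) * e * V := by
    have := mul_le_mul_of_nonneg_left hσ e0
    nlinarith
  linarith

end Pool.Agent.KS6_24.ST
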