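import Mathlib
import Pool.Agent.KS6_24.ST.SHDefs

/-! SH6: slicing the box into lines. -/

set_option autoImplicit false

namespace Pool.Agent.KS6_24.ST

open Finset Filter Topology Pool.Agent.H499R2.CO Pool.Agent.Y965.SI Pool.Agent.KS6_24.LN Pool.Agent.KS6_24.LN.TW

namespace SH6

/-- the box -/
noncomputable def Bx (r N : ℕ) : Finset (Fin r → ℤ) := Fintype.piFinset (fun _ : Fin r => Icc (1 : ℤ) N)

/-- a linear form -/
def lf {r : ℕ} (L : Fin r → ℤ) (n : Fin r → ℤ) : ℤ := ∑ j, L j * n j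

theorem mem_Bx {r N : ℕ} {n : Fin r → ℤ} : n ∈ Bx r N ↔ ∀ j, n j ∈ Icc (1 : ℤ) N := by
  unfold Bx; rw [Fintype.mem_piFinset]

theorem card_Bx (r N : ℕ) : #(Bx r N) = N ^ r := by
  unfold Bx
  rw [Fintype.card_piFinset, Finset.prod_const, card_univ, Fintype.card_fin, Int.card_Icc]
  congr 1
  omega

theorem card_coord (r N : ℕ) (j : Fin r) (J : Finset ℤ) : #{n ∈ Bx r N | n j ∈ J} ≤ #(Icc (1 : ℤ) N ∩ J) * N ^ (r - 1) := by
  have h1 : {n ∈ Bx r N | n j ∈ J} ⊆ Fintype.piFinset (Function.update (fun _ : Fin r => Icc (1 : ℤ) N) j (Icc (1 : ℤ) N ∩ J)) := by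
    intro n hn
    rw [mem_filter, mem_Bx] at hn
    rw [Fintype.mem_piFinset]
    intro i
    by_cases hi : i = j
    · subst hi
      rw [Function.update_self, mem_inter]
      exact ⟨hn.1 i, hn.2⟩
    · rw [Function.update_of_ne hi]
      exact hn.1 i
  refine (card_le_card h1).trans (le_of_eq ?_)
  rw [Fintype.card_piFinset, ← Finset.mul_prod_erase univ _ (mem_univ j), Function.update_self]
  congr 1
  have h2 : ∀ i ∈ univ.erase j, #(Function.update (fun _ : Fin r => Icc (1 : ℤ) N) j (Icc (1 : ℤ) N ∩ J) i) = N := by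
    intro i hi
    rw [Function.update_of_ne (ne_of_mem_erase hi), Int.card_Icc]
    omega
  rw [prod_congr rfl h2, Finset.prod_const, card_erase_of_mem (mem_univ j), card_univ, Fintype.card_fin]

theorem out_one (N : ℕ) (c : ℤ) : #(Icc (1 : ℤ) N ∩ {x ∈ Icc (1 : ℤ) N | x + c ∉ Icc (1 : ℤ) N}) ≤ c.natAbs := by
  rcases le_or_gt 0 c with hc | hc
  · have : Icc (1 : ℤ) N ∩ {x ∈ Icc (1 : ℤ) N | x + c ∉ Icc (1 : ℤ) N} ⊆ Ioc ((N : ℤ) - c) N := by
      intro x hx
      rw [mem_inter, mem_filter, mem_Icc, mem_Icc] at hx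
      rw [mem_Ioc]
      obtain ⟨h1, _, h2⟩ := hx
      constructor <;> omega
    refine (card_le_card this).trans ?_
    rw [Int.card_Ioc]; omega
  · have : Icc (1 : ℤ) N ∩ {x ∈ Icc (1 : ℤ) N | x + c ∉ Icc (1 : ℤ) N} ⊆ Icc (1 : ℤ) (-c) := by
      intro x hx
      rw [mem_inter, mem_filter, mem_Icc, mem_Icc] at hx
      rw [mem_Icc]
      obtain ⟨h1, _, h2⟩ := hx
      constructor <;> omega
    refine (card_le_card this).trans ?_
    rw [Int.card_Icc]; omega

theorem out_card (r N : ℕ) (u : Fin r → ℤ) : #{n ∈ Bx r N | n + u ∉ Bx r N} ≤ (∑ j, (u j).natAbs) * N ^ (r - 1) := by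
  classical
  have h1 : {n ∈ Bx r N | n + u ∉ Bx r N} ⊆ univ.biUnion fun j : Fin r =>
      {n ∈ Bx r N | n j ∈ ({x ∈ Icc (1 : ℤ) N | x + u j ∉ Icc (1 : ℤ) N} : Finset ℤ)} := by
    intro n hn
    rw [mem_filter] at hn
    obtain ⟨hn1, hn2⟩ := hn
    rw [mem_Bx] at hn2
    push Not at hn2
    obtain ⟨j, hj⟩ := hn2
    rw [mem_biUnion]
    refine ⟨j, mem_univ j, ?_⟩
    rw [mem_filter, mem_filter]
    exact ⟨hn1, mem_Bx.1 hn1 j, hj⟩
  refine (card_le_card h1).trans (card_biUnion_le.trans ?_)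
  rw [sum_mul]
  apply sum_le_sum
  intro j _
  exact (card_coord r N j _).trans (Nat.mul_le_mul_right _ (out_one N (u j)))

theorem shift_sum {r N : ℕ} {Φ : (Fin r → ℤ) → ℝ} (hΦ : ∀ n, |Φ n| ≤ 1) (u : Fin r → ℤ) :
    |∑ n ∈ Bx r N, Φ n - ∑ n ∈ Bx r N, Φ (n + u)| ≤ 2 * ((∑ j, (u j).natAbs : ℕ) : ℝ) * (N : ℝ) ^ (r - 1) := by
  classical
  have e1 : ∑ n ∈ Bx r N, Φ (n + u) = ∑ n ∈ (Bx r N).map (addRightEmbedding u), Φ n := by
    rw [sum_map]; rfl
  rw [e1, ← Finset.sum_sdiff_sub_sum_sdiff]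
  have h0 : ∀ s : Finset (Fin r → ℤ), |∑ n ∈ s, Φ n| ≤ #s := by
    intro s
    refine (abs_sum_le_sum_abs _ _).trans ?_
    calc ∑ n ∈ s, |Φ n| ≤ ∑ n ∈ s, (1 : ℝ) := sum_le_sum fun n _ => hΦ n
      _ = #s := by simp
  have h1 : #(Bx r N \ (Bx r N).map (addRightEmbedding u)) ≤ (∑ j, (u j).natAbs) * N ^ (r - 1) := by
    have h2 : Bx r N \ (Bx r N).map (addRightEmbedding u) ⊆ {n ∈ Bx r N | n + (-u) ∉ Bx r N} := by
      intro n hn
      rw [Finset.mem_sdiff, Finset.mem_map] at hn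
      rw [mem_filter]
      refine ⟨hn.1, fun h => hn.2 ⟨n + (-u), h, ?_⟩⟩
      show n + (-u) + u = n
      abel
    refine (card_le_card h2).trans ((out_card r N (-u)).trans (le_of_eq ?_))
    congr 1
    apply sum_congr rfl
    intro j _
    rw [Pi.neg_apply, Int.natAbs_neg]
  have h2 : #((Bx r N).map (addRightEmbedding u) \ Bx r N) ≤ (∑ j, (u j).natAbs) * N ^ (r - 1) := by
    have h3 : (Bx r N).map (addRightEmbedding u) \ Bx r N ⊆ {n ∈ Bx r N | n + u ∉ Bx r N}.map (addRightEmbedding u) := by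
      intro n hn
      rw [Finset.mem_sdiff, Finset.mem_map] at hn
      obtain ⟨⟨m, hm, rfl⟩, hn2⟩ := hn
      rw [Finset.mem_map]
      refine ⟨m, ?_, rfl⟩
      rw [mem_filter]
      exact ⟨hm, hn2⟩
    refine (card_le_card h3).trans ?_
    rw [card_map]
    exact out_card r N u
  have h3 := h0 (Bx r N \ (Bx r N).map (addRightEmbedding u))
  have h4 := h0 ((Bx r N).map (addRightEmbedding u) \ Bx r N)
  have h5 : ((#(Bx r N \ (Bx r N).map (addRightEmbedding u)) : ℕ) : ℝ) ≤ ((∑ j, (u j).natAbs : ℕ) : ℝ) * (N : ℝ) ^ (r - 1) := by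
    exact_mod_cast h1
  have h6 : ((#((Bx r N).map (addRightEmbedding u) \ Bx r N) : ℕ) : ℝ) ≤ ((∑ j, (u j).natAbs : ℕ) : ℝ) * (N : ℝ) ^ (r - 1) := by
    exact_mod_cast h2
  rw [abs_le] at h3 h4 ⊢
  constructor <;> linarith [h3.1, h3.2, h4.1, h4.2]

/-- few points near a hyperplane -/
theorem near_card {r N : ℕ} {L : Fin r → ℤ} (hL : L ≠ 0) (b : ℤ) (T : ℕ) :
    #{n ∈ Bx r N | |lf L n + b| ≤ T} ≤ (2 * T + 1) * N ^ (r - 1) := by
  classical
  obtain ⟨j, hj⟩ : ∃ j, L j ≠ 0 := by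
    by_contra h
    push Not at h
    exact hL (funext h)
  rcases Nat.eq_zero_or_pos N with hN | hN
  · subst hN
    have : Bx r 0 = ∅ := by
      rw [← card_eq_zero, card_Bx]
      exact zero_pow (fun h => by subst h; exact j.elim0)
    rw [this]; simp
  set s := {n ∈ Bx r N | |lf L n + b| ≤ T} with hs
  have hkey : ∀ n n' : Fin r → ℤ, Function.update n j 1 = Function.update n' j 1 → lf L n - lf L n' = L j * (n j - n' j) := by
    intro n n' h
    have h1 : ∀ i, i ≠ j → n i = n' i := by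
      intro i hi
      have := congrFun h i
      rwa [Function.update_of_ne hi, Function.update_of_ne hi] at this
    unfold lf
    rw [← sum_sub_distrib, ← Finset.add_sum_erase univ _ (mem_univ j)]
    have h2 : ∑ i ∈ univ.erase j, (L i * n i - L i * n' i) = 0 := by
      apply sum_eq_zero
      intro i hi
      rw [h1 i (ne_of_mem_erase hi)]; ring
    rw [h2]; ring
  have h1 : #s ≤ (2 * T + 1) * #(s.image fun n => Function.update n j 1) := by
    apply card_le_mul_card_image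
    intro a _
    have h2 : #{x ∈ s | Function.update x j 1 = a} ≤ #(Icc (-(T : ℤ)) T) := by
      apply card_le_card_of_injOn (fun n => lf L n + b)
      · intro n hn
        rw [mem_coe, mem_filter, hs, mem_filter] at hn
        rw [mem_coe, mem_Icc]
        exact abs_le.1 hn.1.2
      · intro n hn n' hn' h
        rw [mem_coe, mem_filter] at hn hn'
        have h3 := hkey n n' (hn.2.trans hn'.2.symm)
        simp only at h
        have h4 : L j * (n j - n' j) = 0 := by rw [← h3]; linarith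
        have h5 : n j = n' j := by
          rcases mul_eq_zero.1 h4 with h | h
          · exact absurd h hj
          · linarith
        have h6 := hn.2.trans hn'.2.symm
        funext i
        by_cases hi : i = j
        · rw [hi]; exact h5
        · have := congrFun h6 i
          rwa [Function.update_of_ne hi, Function.update_of_ne hi] at this
    refine h2.trans ?_
    rw [Int.card_Icc]; omega
  refine h1.trans (Nat.mul_le_mul_left _ ?_)
  have h3 : (s.image fun n => Function.update n j 1) ⊆ {n ∈ Bx r N | n j ∈ ({1} : Finset ℤ)} := by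
    intro m hm
    rw [mem_image] at hm
    obtain ⟨n, hn, rfl⟩ := hm
    rw [hs, mem_filter] at hn
    rw [mem_filter, Function.update_self, mem_Bx]
    refine ⟨fun i => ?_, mem_singleton_self 1⟩
    by_cases hi : i = j
    · subst hi; rw [Function.update_self, mem_Icc]; constructor <;> omega
    · rw [Function.update_of_ne hi]; exact mem_Bx.1 hn.1 i
  refine (card_le_card h3).trans ((card_coord r N j {1}).trans ?_)
  have h4 : #(Icc (1 : ℤ) N ∩ {1}) ≤ 1 := (card_le_card inter_subset_right).trans (by simp)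
  calc #(Icc (1 : ℤ) N ∩ {1}) * N ^ (r - 1) ≤ 1 * N ^ (r - 1) := Nat.mul_le_mul_right _ h4
    _ = N ^ (r - 1) := one_mul _

/-- size of a form on the box -/
theorem lf_abs {r N : ℕ} (L : Fin r → ℤ) (b : ℤ) {n : Fin r → ℤ} (hn : n ∈ Bx r N) (hN : 1 ≤ N) :
    |lf L n + b| ≤ ((∑ j, (L j).natAbs + b.natAbs : ℕ) : ℤ) * N := by
  have h1 : |lf L n| ≤ ((∑ j, (L j).natAbs : ℕ) : ℤ) * N := by
    unfold lf
    refine (abs_sum_le_sum_abs _ _).trans ?_
    rw [Nat.cast_sum, sum_mul]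
    apply sum_le_sum
    intro j _
    have h2 := mem_Icc.1 (mem_Bx.1 hn j)
    rw [abs_mul, abs_of_nonneg (show 0 ≤ n j by omega), Int.natCast_natAbs]
    exact mul_le_mul_of_nonneg_left h2.2 (abs_nonneg _)
  have h2 : |b| ≤ ((b.natAbs : ℕ) : ℤ) * N := by
    rw [Int.natCast_natAbs]
    exact le_mul_of_one_le_right (abs_nonneg _) (by exact_mod_cast hN)
  have h3 := abs_add_le (lf L n) b
  push_cast at h1 h2 ⊢
  linarith

theorem lf_add {r : ℕ} (L n u : Fin r → ℤ) : lf L (n + u) = lf L n + lf L u := by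
  unfold lf
  rw [← sum_add_distrib]
  apply sum_congr rfl; intro j _
  rw [Pi.add_apply]; ring

theorem lf_smul {r : ℕ} (L u : Fin r → ℤ) (s : ℤ) : lf L (s • u) = s * lf L u := by
  unfold lf
  rw [mul_sum]
  apply sum_congr rfl; intro j _
  rw [Pi.smul_apply, smul_eq_mul]; ring

end SH6

end Pool.Agent.KS6_24.ST
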