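import Mathlib
import Pool.Agent.KS6_24.ST.SH6

/-! SH7: the slicing lemma. -/

set_option autoImplicit false

namespace Pool.Agent.KS6_24.ST

open Finset Filter Topology Pool.Agent.H499R2.CO Pool.Agent.Y965.SI Pool.Agent.KS6_24.LN Pool.Agent.KS6_24.LN.TW

namespace SH6

/-- the summand -/
noncomputable def ph {k r : ℕ} (L : Fin k → Fin r → ℤ) (b σ : Fin k → ℤ) (f : Fin k → ℤ → ℝ) (n : Fin r → ℤ) : ℝ :=
  ∏ a, (f a (lf (L a) n + b a) * if 0 < σ a * (lf (L a) n + b a) then 1 else 0)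

/-- `S_SUMS` with the mean zero function at any place -/
theorem sums_at (hS : S_SUMS) {k : ℕ} {A : Fin k → ℕ} {d : Fin k → ℤ} (hG : GoodF A d) (κ : Fin k → ℕ)
    {F : Fin k → ℤ → ℝ} (hF : ∀ a, InvF (d a) (F a)) (a0 : Fin k) (hm : MeanZero (F a0)) (H : ℕ) {ε : ℝ} (hε : 0 < ε) :
    ∃ M0 : ℕ, 1 ≤ M0 ∧ ∀ M : ℕ, M0 ≤ M → ∀ r : Fin k → ℤ, (∀ a, (M : ℤ) ≤ r a) → (∀ a, r a ≤ H * M) →
      |∑ s ∈ range M, ∏ a, F a (2 ^ κ a * A a * ((s : ℕ) : ℤ) + r a)| ≤ ε * M := by
  obtain ⟨n, rfl⟩ : ∃ n, k = n + 1 := ⟨k - 1, by have := a0.2; omega⟩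
  obtain ⟨π, hπ⟩ : ∃ π : Equiv.Perm (Fin (n + 1)), π = Equiv.swap 0 a0 := ⟨_, rfl⟩
  have hπ0 : π 0 = a0 := by rw [hπ, Equiv.swap_apply_left]
  obtain ⟨M0, h1, h2⟩ := hS n (fun a => A (π a)) (fun a => d (π a))
    ⟨fun a => hG.1 _, fun a => hG.2.1 _, fun a b hab => hG.2.2 _ _ (fun h => hab (π.injective h))⟩
    (fun a => κ (π a)) (fun a => F (π a)) (fun a => hF _) (by rw [hπ0]; exact hm) H ε hε
  refine ⟨M0, h1, fun M hM r hr1 hr2 => ?_⟩
  have h3 := h2 M hM (fun a => r (π a)) (fun a => hr1 _) (fun a => hr2 _)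
  have e : ∀ s : ℕ, ∏ a, F (π a) (2 ^ κ (π a) * A (π a) * ((s : ℕ) : ℤ) + r (π a))
      = ∏ a, F a (2 ^ κ a * A a * ((s : ℕ) : ℤ) + r a) := fun s =>
    Equiv.prod_comp π (fun a => F a (2 ^ κ a * A a * ((s : ℕ) : ℤ) + r a))
  simp only [e] at h3
  exact h3

theorem ph_abs {k r : ℕ} {L : Fin k → Fin r → ℤ} {b σ : Fin k → ℤ} {f : Fin k → ℤ → ℝ} (hf : ∀ a x, |f a x| ≤ 1)
    (n : Fin r → ℤ) : |ph L b σ f n| ≤ 1 := by
  unfold ph
  rw [abs_prod]
  apply prod_le_one (fun a _ => abs_nonneg _)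
  intro a _
  rw [abs_mul]
  apply mul_le_one₀ (hf a _) (abs_nonneg _)
  split_ifs <;> norm_num

theorem ph_zero {k r : ℕ} {L : Fin k → Fin r → ℤ} {b σ : Fin k → ℤ} {f : Fin k → ℤ → ℝ} {n : Fin r → ℤ} {a : Fin k}
    (h : ¬ 0 < σ a * (lf (L a) n + b a)) : ph L b σ f n = 0 := by
  unfold ph
  apply prod_eq_zero (mem_univ a)
  rw [if_neg h, mul_zero]

/-- **The slicing lemma.** -/
theorem slice (hS : S_SUMS) (hD : S_DIR) {k r : ℕ} {L : Fin k → Fin r → ℤ} (hL : ∀ a, L a ≠ 0)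
    (hrel : ∀ a b, a ≠ b → ∀ x y u v : ℕ, (fun j => 2 ^ x * 3 ^ y * L a j) ≠ fun j => 2 ^ u * 3 ^ v * L b j)
    (b : Fin k → ℤ) {σ : Fin k → ℤ} (hσ : ∀ a, σ a = 1 ∨ σ a = -1) {f : Fin k → ℤ → ℝ}
    (hf : ∀ a, InvF (σ a) (fun x => f a (σ a * x))) (a0 : Fin k) (hm : MeanZero (fun x => f a0 (σ a0 * x))) :
    Tendsto (fun N : ℕ => (∑ n ∈ Bx r N, ph L b σ f n) / (N : ℝ) ^ r) atTop (𝓝 0) := by
  classical
  have hσσ : ∀ (a : Fin k) (x : ℤ), σ a * (σ a * x) = x := by
    intro a x; rcases hσ a with h | h <;> rw [h] <;> ring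
  have hf1 : ∀ a x, |f a x| ≤ 1 := by
    intro a x
    have := (hf a).1 (σ a * x)
    simp only [hσσ] at this
    exact this
  have hr1 : 1 ≤ r := by
    by_contra h
    have h0 : r = 0 := by omega
    subst h0
    exact hL a0 (funext fun j => j.elim0)
  have hpr : ∀ N : ℕ, (N : ℝ) ^ r = N * (N : ℝ) ^ (r - 1) := by
    intro N
    rw [← pow_succ']; congr 1; omega
  have habs : ∀ s : Finset (Fin r → ℤ), ∀ g : (Fin r → ℤ) → ℝ, (∀ n, |g n| ≤ 1) → |∑ n ∈ s, g n| ≤ #s := by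
    intro s g hg
    refine (abs_sum_le_sum_abs _ _).trans ?_
    calc ∑ n ∈ s, |g n| ≤ ∑ n ∈ s, (1 : ℝ) := sum_le_sum fun n _ => hg n
      _ = #s := by simp
  -- it is enough to have a bound for large `N`
  suffices h : ∀ ε : ℝ, 0 < ε → ∃ N0 : ℕ, ∀ N : ℕ, N0 ≤ N → |∑ n ∈ Bx r N, ph L b σ f n| ≤ ε * (N : ℝ) ^ r by
    rw [Metric.tendsto_atTop]
    intro ε hε
    obtain ⟨N0, hN0⟩ := h (ε / 2) (by positivity)
    refine ⟨max N0 1, fun N hN => ?_⟩
    have h1 := hN0 N ((le_max_left _ _).trans hN)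
    have hN1 : (0 : ℝ) < N := by exact_mod_cast (show 0 < N from lt_of_lt_of_le one_pos ((le_max_right _ _).trans hN))
    rw [Real.dist_eq, sub_zero, abs_div, abs_of_pos (show 0 < (N : ℝ) ^ r by positivity), div_lt_iff₀ (by positivity)]
    refine lt_of_le_of_lt h1 ?_
    have : 0 < (N : ℝ) ^ r := by positivity
    nlinarith
  intro ε hε
  by_cases hw : ∃ w : Fin r → ℤ, ∀ a, 0 < σ a * ∑ j, L a j * w j
  · -- a good direction
    obtain ⟨w, hw⟩ := hw
    obtain ⟨v, hv1, hv2⟩ := hD k r L hL hrel σ w hσ hw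
    have hv1' : ∀ a, 0 < σ a * lf (L a) v := hv1
    have hex : ∀ a, ∃ κ A : ℕ, A % 2 = 1 ∧ σ a * lf (L a) v = 2 ^ κ * A := by
      intro a
      obtain ⟨κ, A, hA, h⟩ := Nat.exists_eq_two_pow_mul_odd (n := (σ a * lf (L a) v).toNat) (by have := hv1' a; omega)
      refine ⟨κ, A, Nat.odd_iff.1 hA, ?_⟩
      have h1 : (((σ a * lf (L a) v).toNat : ℕ) : ℤ) = σ a * lf (L a) v := Int.toNat_of_nonneg (hv1' a).le
      rw [← h1, h]; push_cast; rfl
    choose κ A hA hc using hex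
    have hG : GoodF A σ := by
      refine ⟨hA, hσ, fun a b' hab i j h => ?_⟩
      apply hv2 a b' hab (κ b') i (κ a) j
      have e1 : ∑ j, L a j * v j = σ a * (2 ^ κ a * A a) := by rw [← hc a, hσσ]; rfl
      have e2 : ∑ j, L b' j * v j = σ b' * (2 ^ κ b' * A b') := by rw [← hc b', hσσ]; rfl
      rw [e1, e2]
      calc 2 ^ κ b' * 3 ^ i * (σ a * (2 ^ κ a * (A a : ℤ))) = 2 ^ κ b' * 2 ^ κ a * (σ a * A a * 3 ^ i) := by ring
        _ = 2 ^ κ b' * 2 ^ κ a * (σ b' * A b' * 3 ^ j) := by rw [h]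
        _ = _ := by ring
    -- constants
    obtain ⟨C0, hC0⟩ : ∃ C0 : ℕ, C0 = ∑ a, (∑ j, (L a j).natAbs + (b a).natAbs) := ⟨_, rfl⟩
    obtain ⟨Kc, hKc⟩ : ∃ Kc : ℕ, Kc = ∑ a, 2 ^ κ a * A a := ⟨_, rfl⟩
    obtain ⟨Vv, hVv⟩ : ∃ Vv : ℕ, Vv = ∑ j, (v j).natAbs := ⟨_, rfl⟩
    have hC0a : ∀ a, ∑ j, (L a j).natAbs + (b a).natAbs ≤ C0 := fun a => by
      rw [hC0]
      exact single_le_sum (f := fun a => ∑ j, (L a j).natAbs + (b a).natAbs) (fun _ _ => Nat.zero_le _) (mem_univ a)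
    have hKca : ∀ a, 2 ^ κ a * A a ≤ Kc := fun a => by
      rw [hKc]
      exact single_le_sum (f := fun a => 2 ^ κ a * A a) (fun _ _ => Nat.zero_le _) (mem_univ a)
    have hKc1 : 1 ≤ Kc := by
      refine le_trans ?_ (hKca a0)
      have := hA a0
      exact Nat.mul_pos (by positivity) (by omega)
    obtain ⟨q, hq⟩ : ∃ q : ℕ, (2 * k * Kc + 2 * Vv : ℕ) / (ε / 4) + 1 ≤ (q : ℝ) := exists_nat_ge _
    have hq1 : 1 ≤ q := by
      have h1 : (0 : ℝ) ≤ (2 * k * Kc + 2 * Vv : ℕ) / (ε / 4) := by positivity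
      have : (1 : ℝ) ≤ q := by linarith
      exact_mod_cast this
    have hq0 : (0 : ℝ) < q := by exact_mod_cast hq1
    obtain ⟨M0, hM0, hSum⟩ := sums_at hS hG κ hf a0 hm (2 * q * C0) (ε := ε / 4) (by positivity)
    obtain ⟨N1, hN1⟩ : ∃ N1 : ℕ, (k : ℝ) / (ε / 4) ≤ (N1 : ℝ) := exists_nat_ge _
    refine ⟨max (q * M0) (max N1 1), fun N hN => ?_⟩
    have hNq : q * M0 ≤ N := (le_max_left _ _).trans hN
    have hNN1 : N1 ≤ N := (le_max_left _ _).trans ((le_max_right _ _).trans hN)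
    have hN1' : 1 ≤ N := (le_max_right _ _).trans ((le_max_right _ _).trans hN)
    obtain ⟨M, hM⟩ : ∃ M, M = N / q := ⟨_, rfl⟩
    have hMM0 : M0 ≤ M := by
      rw [hM, Nat.le_div_iff_mul_le (by omega), mul_comm]; exact hNq
    have hM1 : 1 ≤ M := hM0.trans hMM0
    have hMq : q * M ≤ N := by rw [hM]; exact Nat.mul_div_le N q
    have hMN : N ≤ 2 * q * M := by
      have h1 : N < q * (M + 1) := by rw [hM]; exact Nat.lt_mul_div_succ N (by omega)
      nlinarith
    have hM0r : (0 : ℝ) < M := by exact_mod_cast hM1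
    have hN0r : (0 : ℝ) < N := by exact_mod_cast hN1'
    set Φ := ph L b σ f with hΦ
    have hΦ1 : ∀ n, |Φ n| ≤ 1 := ph_abs hf1
    -- one line
    have hline : ∀ n ∈ Bx r N, |∑ s ∈ range M, Φ (n + ((s : ℕ) : ℤ) • v)|
        ≤ ε / 4 * M + M * ∑ a, (if |lf (L a) n + b a| ≤ ((Kc * M : ℕ) : ℤ) then (1 : ℝ) else 0) := by
      intro n hn
      have hval : ∀ (a : Fin k) (s : ℕ), σ a * (lf (L a) (n + ((s : ℕ) : ℤ) • v) + b a)
          = 2 ^ κ a * A a * ((s : ℕ) : ℤ) + σ a * (lf (L a) n + b a) := by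
        intro a s
        rw [lf_add, lf_smul, ← hc a]; ring
      have hsum0 : 0 ≤ ∑ a, (if |lf (L a) n + b a| ≤ ((Kc * M : ℕ) : ℤ) then (1 : ℝ) else 0) :=
        sum_nonneg fun a _ => by split_ifs <;> norm_num
      by_cases h1 : ∀ a, (M : ℤ) ≤ σ a * (lf (L a) n + b a)
      · -- all values are large
        have h2 := hSum M hMM0 (fun a => σ a * (lf (L a) n + b a)) h1 (fun a => by
          have h3 := lf_abs (L a) (b a) hn hN1'
          have h4 : σ a * (lf (L a) n + b a) ≤ |lf (L a) n + b a| := by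
            rcases hσ a with h | h <;> rw [h]
            · rw [one_mul]; exact le_abs_self _
            · rw [neg_one_mul]; exact neg_le_abs _
          have h5 : ((∑ j, (L a j).natAbs + (b a).natAbs : ℕ) : ℤ) * N ≤ (C0 : ℤ) * (2 * q * M) := by
            apply mul_le_mul
            · exact_mod_cast hC0a a
            · exact_mod_cast hMN
            · positivity
            · positivity
          calc σ a * (lf (L a) n + b a) ≤ (C0 : ℤ) * (2 * q * M) := h4.trans (h3.trans h5)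
            _ = ((2 * q * C0 : ℕ) : ℤ) * M := by push_cast; ring)
        have h3 : ∑ s ∈ range M, Φ (n + ((s : ℕ) : ℤ) • v)
            = ∑ s ∈ range M, ∏ a, f a (σ a * (2 ^ κ a * A a * ((s : ℕ) : ℤ) + σ a * (lf (L a) n + b a))) := by
          apply sum_congr rfl
          intro s _
          rw [hΦ]
          unfold ph
          apply prod_congr rfl
          intro a _
          rw [← hval a s, hσσ, if_pos, mul_one]
          rw [hval a s]
          have := h1 a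
          have h4 : (0 : ℤ) ≤ 2 ^ κ a * A a * ((s : ℕ) : ℤ) := by positivity
          have h5 : (1 : ℤ) ≤ M := by exact_mod_cast hM1
          omega
        rw [h3]
        refine h2.trans ?_
        have : 0 ≤ (M : ℝ) * ∑ a, (if |lf (L a) n + b a| ≤ ((Kc * M : ℕ) : ℤ) then (1 : ℝ) else 0) := by positivity
        linarith
      · push Not at h1
        obtain ⟨a, ha⟩ := h1
        by_cases h2 : σ a * (lf (L a) n + b a) < -((Kc * M : ℕ) : ℤ)
        · -- the sign is wrong on the whole line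
          have h3 : ∑ s ∈ range M, Φ (n + ((s : ℕ) : ℤ) • v) = 0 := by
            apply sum_eq_zero
            intro s hs
            rw [mem_range] at hs
            rw [hΦ]
            apply ph_zero (a := a)
            rw [hval a s]
            have h4 : 2 ^ κ a * (A a : ℤ) * ((s : ℕ) : ℤ) ≤ ((Kc * M : ℕ) : ℤ) := by
              have : 2 ^ κ a * A a * s ≤ Kc * M := Nat.mul_le_mul (hKca a) hs.le
              exact_mod_cast this
            omega
          rw [h3, abs_zero]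
          positivity
        · -- near a hyperplane
          push Not at h2
          have h3 : |lf (L a) n + b a| ≤ ((Kc * M : ℕ) : ℤ) := by
            have h4 : (M : ℤ) ≤ ((Kc * M : ℕ) : ℤ) := by exact_mod_cast Nat.le_mul_of_pos_left M hKc1
            rw [abs_le]
            rcases hσ a with h | h <;> rw [h] at ha h2 <;> constructor <;> omega
          have h4 : (1 : ℝ) ≤ ∑ a, (if |lf (L a) n + b a| ≤ ((Kc * M : ℕ) : ℤ) then (1 : ℝ) else 0) := by
            have := single_le_sum (f := fun a => (if |lf (L a) n + b a| ≤ ((Kc * M : ℕ) : ℤ) then (1 : ℝ) else 0))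
              (fun a _ => by split_ifs <;> norm_num) (mem_univ a)
            simp only [if_pos h3] at this
            exact this
          have h5 : |∑ s ∈ range M, Φ (n + ((s : ℕ) : ℤ) • v)| ≤ M := by
            refine (abs_sum_le_sum_abs _ _).trans ?_
            calc _ ≤ ∑ s ∈ range M, (1 : ℝ) := sum_le_sum fun s _ => hΦ1 _
              _ = M := by simp
          have h6 := mul_le_mul_of_nonneg_left h4 hM0r.le
          have h7 : 0 ≤ ε / 4 * (M : ℝ) := by positivity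
          linarith
    -- sum over the lines
    have hnear : ∀ a, ∑ n ∈ Bx r N, (if |lf (L a) n + b a| ≤ ((Kc * M : ℕ) : ℤ) then (1 : ℝ) else 0)
        ≤ (2 * (Kc * M) + 1) * (N : ℝ) ^ (r - 1) := by
      intro a
      rw [← sum_filter, sum_const, nsmul_eq_mul, mul_one]
      have := near_card (N := N) (hL a) (b a) (Kc * M)
      exact_mod_cast this
    have h1 : |∑ n ∈ Bx r N, ∑ s ∈ range M, Φ (n + ((s : ℕ) : ℤ) • v)|
        ≤ ε / 4 * M * (N : ℝ) ^ r + M * (k * ((2 * (Kc * M) + 1) * (N : ℝ) ^ (r - 1))) := by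
      refine (abs_sum_le_sum_abs _ _).trans ((sum_le_sum hline).trans ?_)
      rw [sum_add_distrib, sum_const, card_Bx, nsmul_eq_mul, ← mul_sum, sum_comm]
      have h2 := sum_le_sum fun a (_ : a ∈ (univ : Finset (Fin k))) => hnear a
      rw [sum_const, card_univ, Fintype.card_fin, nsmul_eq_mul] at h2
      have h3 := mul_le_mul_of_nonneg_left h2 hM0r.le
      rw [Nat.cast_pow]
      linarith
    -- shifts
    have h2 : |M * ∑ n ∈ Bx r N, Φ n - ∑ n ∈ Bx r N, ∑ s ∈ range M, Φ (n + ((s : ℕ) : ℤ) • v)|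
        ≤ M * (2 * (M * Vv) * (N : ℝ) ^ (r - 1)) := by
      rw [sum_comm]
      have e1 : (M : ℝ) * ∑ n ∈ Bx r N, Φ n - ∑ s ∈ range M, ∑ n ∈ Bx r N, Φ (n + ((s : ℕ) : ℤ) • v)
          = ∑ s ∈ range M, (∑ n ∈ Bx r N, Φ n - ∑ n ∈ Bx r N, Φ (n + ((s : ℕ) : ℤ) • v)) := by
        rw [sum_sub_distrib, sum_const, card_range, nsmul_eq_mul]
      rw [e1]
      refine (abs_sum_le_sum_abs _ _).trans ?_
      calc _ ≤ ∑ s ∈ range M, (2 * (M * Vv) * (N : ℝ) ^ (r - 1)) := by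
            apply sum_le_sum
            intro s hs
            rw [mem_range] at hs
            refine (shift_sum hΦ1 (((s : ℕ) : ℤ) • v)).trans ?_
            apply mul_le_mul_of_nonneg_right _ (by positivity)
            apply mul_le_mul_of_nonneg_left _ (by norm_num)
            have h3 : ∑ j, ((((s : ℕ) : ℤ) • v) j).natAbs = s * Vv := by
              rw [hVv, mul_sum]
              apply sum_congr rfl; intro j _
              rw [Pi.smul_apply, smul_eq_mul, Int.natAbs_mul, Int.natAbs_natCast]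
            rw [h3]
            push_cast
            exact mul_le_mul_of_nonneg_right (by exact_mod_cast hs.le) (Nat.cast_nonneg _)
        _ = _ := by rw [sum_const, card_range, nsmul_eq_mul]
    -- conclusion
    have h3 : (M : ℝ) * |∑ n ∈ Bx r N, Φ n| ≤ M * (ε / 4 * (N : ℝ) ^ r + k * ((2 * (Kc * M) + 1) * (N : ℝ) ^ (r - 1))
        + 2 * (M * Vv) * (N : ℝ) ^ (r - 1)) := by
      have e1 : (M : ℝ) * |∑ n ∈ Bx r N, Φ n| = |M * ∑ n ∈ Bx r N, Φ n| := by rw [abs_mul, abs_of_pos hM0r]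
      rw [e1]
      have h4 := abs_sub_abs_le_abs_sub (M * ∑ n ∈ Bx r N, Φ n) (∑ n ∈ Bx r N, ∑ s ∈ range M, Φ (n + ((s : ℕ) : ℤ) • v))
      linarith
    have h4 := le_of_mul_le_mul_left h3 hM0r
    refine h4.trans ?_
    have hNr : (0 : ℝ) ≤ (N : ℝ) ^ (r - 1) := by positivity
    have h5 : (M : ℝ) * q ≤ N := by
      have : q * M ≤ N := hMq
      have h6 : ((q * M : ℕ) : ℝ) ≤ N := by exact_mod_cast this
      push_cast at h6
      linarith
    have h6 : (2 * k * Kc + 2 * Vv : ℕ) * (M : ℝ) ≤ ε / 4 * N := by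
      have h7 : ((2 * k * Kc + 2 * Vv : ℕ) : ℝ) ≤ ε / 4 * q := by
        have h8 : ((2 * k * Kc + 2 * Vv : ℕ) : ℝ) / (ε / 4) ≤ q := by linarith
        rw [div_le_iff₀ (by positivity)] at h8
        linarith
      calc ((2 * k * Kc + 2 * Vv : ℕ) : ℝ) * M ≤ (ε / 4 * q) * M := mul_le_mul_of_nonneg_right h7 hM0r.le
        _ = ε / 4 * (M * q) := by ring
        _ ≤ ε / 4 * N := mul_le_mul_of_nonneg_left h5 (by positivity)
    have h7 : (k : ℝ) ≤ ε / 4 * N := by
      have h8 : (k : ℝ) / (ε / 4) ≤ N := hN1.trans (by exact_mod_cast hNN1)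
      rw [div_le_iff₀ (by positivity)] at h8
      linarith
    push_cast at h6
    have h8 := mul_le_mul_of_nonneg_right (add_le_add h6 h7) hNr
    rw [hpr]
    have h9 : 0 ≤ ε / 4 * (N * (N : ℝ) ^ (r - 1)) := by positivity
    linarith
  · -- the region is thin
    push Not at hw
    obtain ⟨N1, hN1⟩ : ∃ N1 : ℕ, ((∑ a, (2 * (b a).natAbs + 1) : ℕ) : ℝ) / ε ≤ (N1 : ℝ) := exists_nat_ge _
    refine ⟨N1, fun N hN => ?_⟩
    have h1 : |∑ n ∈ Bx r N, ph L b σ f n| ≤ ∑ n ∈ Bx r N, ∑ a, (if |lf (L a) n + b a| ≤ (((b a).natAbs : ℕ) : ℤ) then (1 : ℝ) else 0) := by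
      refine (abs_sum_le_sum_abs _ _).trans (sum_le_sum fun n _ => ?_)
      by_cases h2 : ∃ a, ¬ 0 < σ a * (lf (L a) n + b a)
      · obtain ⟨a, ha⟩ := h2
        rw [ph_zero ha, abs_zero]
        exact sum_nonneg fun a _ => by split_ifs <;> norm_num
      · push Not at h2
        obtain ⟨a, ha⟩ := hw n
        have ha' : σ a * lf (L a) n ≤ 0 := ha
        have h3 := h2 a
        have h4 : |lf (L a) n + b a| ≤ (((b a).natAbs : ℕ) : ℤ) := by
          rw [abs_le]
          rcases hσ a with h | h <;> rw [h] at ha' h3 <;> constructor <;> omega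
        refine (ph_abs hf1 n).trans ?_
        have := single_le_sum (f := fun a => (if |lf (L a) n + b a| ≤ (((b a).natAbs : ℕ) : ℤ) then (1 : ℝ) else 0))
          (fun a _ => by split_ifs <;> norm_num) (mem_univ a)
        simp only [if_pos h4] at this
        exact this
    refine h1.trans ?_
    rw [sum_comm]
    have h2 : ∀ a ∈ (univ : Finset (Fin k)), ∑ n ∈ Bx r N, (if |lf (L a) n + b a| ≤ (((b a).natAbs : ℕ) : ℤ) then (1 : ℝ) else 0)
        ≤ ((2 * (b a).natAbs + 1 : ℕ) : ℝ) * (N : ℝ) ^ (r - 1) := by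
      intro a _
      rw [← sum_filter, sum_const, nsmul_eq_mul, mul_one]
      have := near_card (N := N) (hL a) (b a) ((b a).natAbs)
      exact_mod_cast this
    refine (sum_le_sum h2).trans ?_
    rw [← sum_mul, hpr, ← mul_assoc]
    apply mul_le_mul_of_nonneg_right _ (by positivity)
    have h3 : ((∑ a, (2 * (b a).natAbs + 1) : ℕ) : ℝ) / ε ≤ N := hN1.trans (by exact_mod_cast hN)
    rw [div_le_iff₀ hε] at h3
    push_cast at h3 ⊢
    linarith

end SH6

end Pool.Agent.KS6_24.ST
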