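import Mathlib
import Pool.Agent.KS6_24.ST.SH7

/-! SH10a: the slicing lemma uniformly in convex regions. -/

set_option autoImplicit false

namespace Pool.Agent.KS6_24.ST

open Finset Filter Topology Pool.Agent.H499R2.CO Pool.Agent.Y965.SI Pool.Agent.KS6_24.LN Pool.Agent.KS6_24.LN.TW

open Classical in
/-- Independence along linear forms, uniformly in the convex regions of the box. -/
def S_CONV : Prop := ∀ (k r : ℕ) (L : Fin k → Fin r → ℤ), (∀ a, L a ≠ 0) →
  (∀ a b, a ≠ b → ∀ x y u v : ℕ, (fun j => 2 ^ x * 3 ^ y * L a j) ≠ fun j => 2 ^ u * 3 ^ v * L b j) →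
  ∀ (b σ : Fin k → ℤ), (∀ a, σ a = 1 ∨ σ a = -1) → ∀ f : Fin k → ℤ → ℝ, (∀ a, InvF (σ a) (fun x => f a (σ a * x))) →
  ∀ a0, MeanZero (fun x => f a0 (σ a0 * x)) → ∀ ε : ℝ, 0 < ε → ∃ N0 : ℕ, ∀ N, N0 ≤ N → ∀ Q : Set (Fin r → ℝ), Convex ℝ Q →
    |∑ n ∈ SH6.Bx r N, (if (fun j => (n j : ℝ)) ∈ Q then SH6.ph L b σ f n else 0)| ≤ ε * (N : ℝ) ^ r

namespace SH6

open Classical in
/-- few points leave a convex set -/
theorem exit_card {r N : ℕ} {Q : Set (Fin r → ℝ)} (hQ : Convex ℝ Q) (u : Fin r → ℤ) :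
    #{n ∈ Bx r N | (fun j => (n j : ℝ)) ∈ Q ∧ (fun j => ((n + u) j : ℝ)) ∉ Q} ≤ (∑ j, (u j).natAbs) * N ^ (r - 1) := by
  by_cases hu : u = 0
  · have : {n ∈ Bx r N | (fun j => (n j : ℝ)) ∈ Q ∧ (fun j => ((n + u) j : ℝ)) ∉ Q} = ∅ := by
      rw [filter_eq_empty_iff]
      rintro n _ ⟨h1, h2⟩
      rw [hu, add_zero] at h2
      exact h2 h1
    rw [this]; simp
  obtain ⟨j0, hj0⟩ := Function.ne_iff.1 hu
  have hj0' : u j0 ≠ 0 := hj0
  have hex : ∀ n : Fin r → ℤ, ∃ t : ℕ, n + ((t + 1 : ℕ) : ℤ) • u ∉ Bx r N := by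
    intro n
    refine ⟨(|n j0| + N).toNat, fun h => ?_⟩
    have h1 := mem_Icc.1 (mem_Bx.1 h j0)
    rw [Pi.add_apply, Pi.smul_apply, smul_eq_mul] at h1
    have h2 : ((((|n j0| + N).toNat + 1 : ℕ)) : ℤ) = |n j0| + N + 1 := by
      push_cast
      rw [Int.toNat_of_nonneg (by positivity)]
    rw [h2] at h1
    have h3 := neg_abs_le (n j0)
    have h4 := le_abs_self (n j0)
    rcases lt_or_gt_of_ne hj0' with h | h
    · have : (|n j0| + N + 1) * u j0 ≤ (|n j0| + N + 1) * (-1) := mul_le_mul_of_nonneg_left (by omega) (by positivity)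
      omega
    · have : (|n j0| + N + 1) * 1 ≤ (|n j0| + N + 1) * u j0 := mul_le_mul_of_nonneg_left (by omega) (by positivity)
      omega
  obtain ⟨τ, hτ1, hτ2⟩ : ∃ τ : (Fin r → ℤ) → ℕ, (∀ n, n + ((τ n : ℕ) : ℤ) • u + u ∉ Bx r N) ∧
      ∀ n ∈ Bx r N, n + ((τ n : ℕ) : ℤ) • u ∈ Bx r N := by
    refine ⟨fun n => Nat.find (hex n), fun n => ?_, fun n hn => ?_⟩
    · have h1 := Nat.find_spec (hex n)
      have h2 : n + ((Nat.find (hex n) + 1 : ℕ) : ℤ) • u = n + ((Nat.find (hex n) : ℕ) : ℤ) • u + u := by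
        push_cast
        rw [add_smul, one_smul, add_assoc]
      rw [h2] at h1
      exact h1
    · rcases Nat.eq_zero_or_pos (Nat.find (hex n)) with h | h
      · simp only [h, Nat.cast_zero, zero_smul, add_zero]; exact hn
      · have h1 := Nat.find_min (hex n) (m := Nat.find (hex n) - 1) (by omega)
        rw [not_not, Nat.sub_add_cancel h] at h1
        exact h1
  refine le_trans ?_ (out_card r N u)
  apply card_le_card_of_injOn (fun n => n + ((τ n : ℕ) : ℤ) • u)
  · intro n hn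
    rw [mem_coe, mem_filter] at hn
    rw [mem_coe, mem_filter]
    exact ⟨hτ2 n hn.1, hτ1 n⟩
  · -- injectivity
    have key : ∀ n n' : Fin r → ℤ, ∀ m : ℕ, (fun j => (n j : ℝ)) ∈ Q → (fun j => ((n + u) j : ℝ)) ∉ Q →
        (fun j => (n' j : ℝ)) ∈ Q → n' = n + ((m : ℕ) : ℤ) • u → n' = n := by
      intro n n' m h1 h2 h3 h4
      rcases Nat.eq_zero_or_pos m with hm | hm
      · rw [hm] at h4; simpa using h4
      · exfalso
        apply h2
        have hm' : (0 : ℝ) < m := by exact_mod_cast hm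
        have h5 := hQ h1 h3 (a := 1 - 1 / (m : ℝ)) (b := 1 / (m : ℝ)) (by
          rw [sub_nonneg, div_le_one hm']; exact_mod_cast hm) (by positivity) (by ring)
        convert h5 using 1
        funext j
        rw [h4]
        simp only [Pi.add_apply, Pi.smul_apply, smul_eq_mul, Int.cast_add, Int.cast_mul, Int.cast_natCast]
        field_simp
        ring
    intro n hn n' hn' h
    rw [mem_coe, mem_filter] at hn hn'
    simp only at h
    have h' : n - n' = (((τ n' : ℕ) : ℤ) - ((τ n : ℕ) : ℤ)) • u := by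
      rw [sub_smul, sub_eq_sub_iff_add_eq_add, h, add_comm]
    rcases le_total (τ n) (τ n') with hle | hle
    · have : n = n' + (((τ n' - τ n : ℕ) : ℕ) : ℤ) • u := by
        rw [Nat.cast_sub hle, ← h']; abel
      exact key n' n _ hn'.2.1 hn'.2.2 hn.2.1 this
    · have : n' = n + (((τ n - τ n' : ℕ) : ℕ) : ℤ) • u := by
        rw [Nat.cast_sub hle, ← neg_sub ((τ n' : ℕ) : ℤ), neg_smul, ← h']; abel
      exact (key n n' _ hn.2.1 hn.2.2 hn'.2.1 this).symm

open Classical in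
/-- few points change sides of a convex set -/
theorem change_card {r N : ℕ} {Q : Set (Fin r → ℝ)} (hQ : Convex ℝ Q) (u : Fin r → ℤ) :
    #{n ∈ Bx r N | ¬ (((fun j => (n j : ℝ)) ∈ Q) ↔ (fun j => ((n + u) j : ℝ)) ∈ Q)} ≤ 3 * (∑ j, (u j).natAbs) * N ^ (r - 1) := by
  have h1 : {n ∈ Bx r N | ¬ (((fun j => (n j : ℝ)) ∈ Q) ↔ (fun j => ((n + u) j : ℝ)) ∈ Q)} ⊆
      {n ∈ Bx r N | (fun j => (n j : ℝ)) ∈ Q ∧ (fun j => ((n + u) j : ℝ)) ∉ Q} ∪
      ({n ∈ Bx r N | n + u ∉ Bx r N} ∪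
      {p ∈ Bx r N | (fun j => (p j : ℝ)) ∈ Q ∧ (fun j => ((p + (-u)) j : ℝ)) ∉ Q}.map (addRightEmbedding (-u))) := by
    intro n hn
    rw [mem_filter] at hn
    obtain ⟨hn1, hn2⟩ := hn
    rw [mem_union, mem_union, mem_filter, mem_filter, Finset.mem_map]
    by_cases g1 : (fun j => (n j : ℝ)) ∈ Q
    · left
      exact ⟨hn1, g1, fun g2 => hn2 ⟨fun _ => g2, fun _ => g1⟩⟩
    · right
      have g2 : (fun j => ((n + u) j : ℝ)) ∈ Q := by
        by_contra g2
        exact hn2 ⟨fun h => absurd h g1, fun h => absurd h g2⟩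
      by_cases g3 : n + u ∈ Bx r N
      · right
        refine ⟨n + u, ?_, ?_⟩
        · rw [mem_filter]
          refine ⟨g3, g2, ?_⟩
          rw [add_neg_cancel_right]
          exact g1
        · show n + u + -u = n
          abel
      · left; exact ⟨hn1, g3⟩
  refine (card_le_card h1).trans ((card_union_le _ _).trans ?_)
  have h2 := exit_card (N := N) hQ u
  have h3 := exit_card (N := N) hQ (-u)
  have h4 := out_card r N u
  have h5 := card_union_le {n ∈ Bx r N | n + u ∉ Bx r N} ({p ∈ Bx r N | (fun j => (p j : ℝ)) ∈ Q ∧ (fun j => ((p + (-u)) j : ℝ)) ∉ Q}.map (addRightEmbedding (-u)))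
  rw [card_map] at h5
  have h6 : ∑ j, ((-u) j).natAbs = ∑ j, (u j).natAbs := by
    apply sum_congr rfl
    intro j _
    rw [Pi.neg_apply, Int.natAbs_neg]
  rw [h6] at h3
  calc _ ≤ (∑ j, (u j).natAbs) * N ^ (r - 1) + ((∑ j, (u j).natAbs) * N ^ (r - 1) + (∑ j, (u j).natAbs) * N ^ (r - 1)) :=
        add_le_add h2 (h5.trans (add_le_add h4 h3))
    _ = 3 * (∑ j, (u j).natAbs) * N ^ (r - 1) := by ring

/-- **The slicing lemma, uniformly in convex regions.** -/
theorem slice_conv_of (hS : S_SUMS) (hD : S_DIR) : S_CONV := by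
  classical
  intro k r L hL hrel b σ hσ f hf a0 hm
  have hσσ : ∀ (a : Fin k) (x : ℤ), σ a * (σ a * x) = x := by
    intro a x; rcases hσ a with h | h <;> rw [h] <;> ring
  have hf1 : ∀ a x, |f a x| ≤ 1 := by
    intro a x
    have := (hf a).1 (σ a * x)
    simp only [hσσ] at this
    exact this
  have hr1 : 1 ≤ r := by
    by_contra h
    have h0 : r = 0 := by omega
    subst h0
    exact hL a0 (funext fun j => j.elim0)
  have hpr : ∀ N : ℕ, (N : ℝ) ^ r = N * (N : ℝ) ^ (r - 1) := by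
    intro N
    rw [← pow_succ']; congr 1; omega
  have habs : ∀ s : Finset (Fin r → ℤ), ∀ g : (Fin r → ℤ) → ℝ, (∀ n, |g n| ≤ 1) → |∑ n ∈ s, g n| ≤ #s := by
    intro s g hg
    refine (abs_sum_le_sum_abs _ _).trans ?_
    calc ∑ n ∈ s, |g n| ≤ ∑ n ∈ s, (1 : ℝ) := sum_le_sum fun n _ => hg n
      _ = #s := by simp
  intro ε hε
  by_cases hw : ∃ w : Fin r → ℤ, ∀ a, 0 < σ a * ∑ j, L a j * w j
  · -- a good direction
    obtain ⟨w, hw⟩ := hw
    obtain ⟨v, hv1, hv2⟩ := hD k r L hL hrel σ w hσ hw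
    have hv1' : ∀ a, 0 < σ a * lf (L a) v := hv1
    have hex : ∀ a, ∃ κ A : ℕ, A % 2 = 1 ∧ σ a * lf (L a) v = 2 ^ κ * A := by
      intro a
      obtain ⟨κ, A, hA, h⟩ := Nat.exists_eq_two_pow_mul_odd (n := (σ a * lf (L a) v).toNat) (by have := hv1' a; omega)
      refine ⟨κ, A, Nat.odd_iff.1 hA, ?_⟩
      have h1 : (((σ a * lf (L a) v).toNat : ℕ) : ℤ) = σ a * lf (L a) v := Int.toNat_of_nonneg (hv1' a).le
      rw [← h1, h]; push_cast; rfl
    choose κ A hA hc using hex
    have hG : GoodF A σ := by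
      refine ⟨hA, hσ, fun a b' hab i j h => ?_⟩
      apply hv2 a b' hab (κ b') i (κ a) j
      have e1 : ∑ j, L a j * v j = σ a * (2 ^ κ a * A a) := by rw [← hc a, hσσ]; rfl
      have e2 : ∑ j, L b' j * v j = σ b' * (2 ^ κ b' * A b') := by rw [← hc b', hσσ]; rfl
      rw [e1, e2]
      calc 2 ^ κ b' * 3 ^ i * (σ a * (2 ^ κ a * (A a : ℤ))) = 2 ^ κ b' * 2 ^ κ a * (σ a * A a * 3 ^ i) := by ring
        _ = 2 ^ κ b' * 2 ^ κ a * (σ b' * A b' * 3 ^ j) := by rw [h]
        _ = _ := by ring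
    -- constants
    obtain ⟨C0, hC0⟩ : ∃ C0 : ℕ, C0 = ∑ a, (∑ j, (L a j).natAbs + (b a).natAbs) := ⟨_, rfl⟩
    obtain ⟨Kc, hKc⟩ : ∃ Kc : ℕ, Kc = ∑ a, 2 ^ κ a * A a := ⟨_, rfl⟩
    obtain ⟨Vv, hVv⟩ : ∃ Vv : ℕ, Vv = ∑ j, (v j).natAbs := ⟨_, rfl⟩
    have hC0a : ∀ a, ∑ j, (L a j).natAbs + (b a).natAbs ≤ C0 := fun a => by
      rw [hC0]
      exact single_le_sum (f := fun a => ∑ j, (L a j).natAbs + (b a).natAbs) (fun _ _ => Nat.zero_le _) (mem_univ a)
    have hKca : ∀ a, 2 ^ κ a * A a ≤ Kc := fun a => by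
      rw [hKc]
      exact single_le_sum (f := fun a => 2 ^ κ a * A a) (fun _ _ => Nat.zero_le _) (mem_univ a)
    have hKc1 : 1 ≤ Kc := by
      refine le_trans ?_ (hKca a0)
      have := hA a0
      exact Nat.mul_pos (by positivity) (by omega)
    obtain ⟨q, hq⟩ : ∃ q : ℕ, (2 * k * Kc + 5 * Vv : ℕ) / (ε / 4) + 1 ≤ (q : ℝ) := exists_nat_ge _
    have hq1 : 1 ≤ q := by
      have h1 : (0 : ℝ) ≤ (2 * k * Kc + 5 * Vv : ℕ) / (ε / 4) := by positivity
      have : (1 : ℝ) ≤ q := by linarith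
      exact_mod_cast this
    have hq0 : (0 : ℝ) < q := by exact_mod_cast hq1
    obtain ⟨M0, hM0, hSum⟩ := sums_at hS hG κ hf a0 hm (2 * q * C0) (ε := ε / 4) (by positivity)
    obtain ⟨N1, hN1⟩ : ∃ N1 : ℕ, (k : ℝ) / (ε / 4) ≤ (N1 : ℝ) := exists_nat_ge _
    refine ⟨max (q * M0) (max N1 1), fun N hN Q hQ => ?_⟩
    have hNq : q * M0 ≤ N := (le_max_left _ _).trans hN
    have hNN1 : N1 ≤ N := (le_max_left _ _).trans ((le_max_right _ _).trans hN)
    have hN1' : 1 ≤ N := (le_max_right _ _).trans ((le_max_right _ _).trans hN)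
    obtain ⟨M, hM⟩ : ∃ M, M = N / q := ⟨_, rfl⟩
    have hMM0 : M0 ≤ M := by
      rw [hM, Nat.le_div_iff_mul_le (by omega), mul_comm]; exact hNq
    have hM1 : 1 ≤ M := hM0.trans hMM0
    have hMq : q * M ≤ N := by rw [hM]; exact Nat.mul_div_le N q
    have hMN : N ≤ 2 * q * M := by
      have h1 : N < q * (M + 1) := by rw [hM]; exact Nat.lt_mul_div_succ N (by omega)
      nlinarith
    have hM0r : (0 : ℝ) < M := by exact_mod_cast hM1
    have hN0r : (0 : ℝ) < N := by exact_mod_cast hN1'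
    set Φ := ph L b σ f with hΦ
    have hΦ1 : ∀ n, |Φ n| ≤ 1 := ph_abs hf1
    obtain ⟨Ψ, hΨ⟩ : ∃ Ψ : (Fin r → ℤ) → ℝ, Ψ = fun n => if (fun j => (n j : ℝ)) ∈ Q then Φ n else 0 := ⟨_, rfl⟩
    have hΨ1 : ∀ n, |Ψ n| ≤ 1 := by
      intro n
      rw [hΨ]
      simp only
      split_ifs
      · exact hΦ1 n
      · norm_num
    have hgoal : ∑ n ∈ Bx r N, (if (fun j => (n j : ℝ)) ∈ Q then ph L b σ f n else 0) = ∑ n ∈ Bx r N, Ψ n := by rw [hΨ]
    rw [hgoal]
    -- one line
    have hline : ∀ n ∈ Bx r N, |∑ s ∈ range M, Φ (n + ((s : ℕ) : ℤ) • v)|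
        ≤ ε / 4 * M + M * ∑ a, (if |lf (L a) n + b a| ≤ ((Kc * M : ℕ) : ℤ) then (1 : ℝ) else 0) := by
      intro n hn
      have hval : ∀ (a : Fin k) (s : ℕ), σ a * (lf (L a) (n + ((s : ℕ) : ℤ) • v) + b a)
          = 2 ^ κ a * A a * ((s : ℕ) : ℤ) + σ a * (lf (L a) n + b a) := by
        intro a s
        rw [lf_add, lf_smul, ← hc a]; ring
      have hsum0 : 0 ≤ ∑ a, (if |lf (L a) n + b a| ≤ ((Kc * M : ℕ) : ℤ) then (1 : ℝ) else 0) :=
        sum_nonneg fun a _ => by split_ifs <;> norm_num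
      by_cases h1 : ∀ a, (M : ℤ) ≤ σ a * (lf (L a) n + b a)
      · -- all values are large
        have h2 := hSum M hMM0 (fun a => σ a * (lf (L a) n + b a)) h1 (fun a => by
          have h3 := lf_abs (L a) (b a) hn hN1'
          have h4 : σ a * (lf (L a) n + b a) ≤ |lf (L a) n + b a| := by
            rcases hσ a with h | h <;> rw [h]
            · rw [one_mul]; exact le_abs_self _
            · rw [neg_one_mul]; exact neg_le_abs _
          have h5 : ((∑ j, (L a j).natAbs + (b a).natAbs : ℕ) : ℤ) * N ≤ (C0 : ℤ) * (2 * q * M) := by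
            apply mul_le_mul
            · exact_mod_cast hC0a a
            · exact_mod_cast hMN
            · positivity
            · positivity
          calc σ a * (lf (L a) n + b a) ≤ (C0 : ℤ) * (2 * q * M) := h4.trans (h3.trans h5)
            _ = ((2 * q * C0 : ℕ) : ℤ) * M := by push_cast; ring)
        have h3 : ∑ s ∈ range M, Φ (n + ((s : ℕ) : ℤ) • v)
            = ∑ s ∈ range M, ∏ a, f a (σ a * (2 ^ κ a * A a * ((s : ℕ) : ℤ) + σ a * (lf (L a) n + b a))) := by
          apply sum_congr rfl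
          intro s _
          rw [hΦ]
          unfold ph
          apply prod_congr rfl
          intro a _
          rw [← hval a s, hσσ, if_pos, mul_one]
          rw [hval a s]
          have := h1 a
          have h4 : (0 : ℤ) ≤ 2 ^ κ a * A a * ((s : ℕ) : ℤ) := by positivity
          have h5 : (1 : ℤ) ≤ M := by exact_mod_cast hM1
          omega
        rw [h3]
        refine h2.trans ?_
        have : 0 ≤ (M : ℝ) * ∑ a, (if |lf (L a) n + b a| ≤ ((Kc * M : ℕ) : ℤ) then (1 : ℝ) else 0) := by positivity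
        linarith
      · push Not at h1
        obtain ⟨a, ha⟩ := h1
        by_cases h2 : σ a * (lf (L a) n + b a) < -((Kc * M : ℕ) : ℤ)
        · -- the sign is wrong on the whole line
          have h3 : ∑ s ∈ range M, Φ (n + ((s : ℕ) : ℤ) • v) = 0 := by
            apply sum_eq_zero
            intro s hs
            rw [mem_range] at hs
            rw [hΦ]
            apply ph_zero (a := a)
            rw [hval a s]
            have h4 : 2 ^ κ a * (A a : ℤ) * ((s : ℕ) : ℤ) ≤ ((Kc * M : ℕ) : ℤ) := by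
              have : 2 ^ κ a * A a * s ≤ Kc * M := Nat.mul_le_mul (hKca a) hs.le
              exact_mod_cast this
            omega
          rw [h3, abs_zero]
          positivity
        · -- near a hyperplane
          push Not at h2
          have h3 : |lf (L a) n + b a| ≤ ((Kc * M : ℕ) : ℤ) := by
            have h4 : (M : ℤ) ≤ ((Kc * M : ℕ) : ℤ) := by exact_mod_cast Nat.le_mul_of_pos_left M hKc1
            rw [abs_le]
            rcases hσ a with h | h <;> rw [h] at ha h2 <;> constructor <;> omega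
          have h4 : (1 : ℝ) ≤ ∑ a, (if |lf (L a) n + b a| ≤ ((Kc * M : ℕ) : ℤ) then (1 : ℝ) else 0) := by
            have := single_le_sum (f := fun a => (if |lf (L a) n + b a| ≤ ((Kc * M : ℕ) : ℤ) then (1 : ℝ) else 0))
              (fun a _ => by split_ifs <;> norm_num) (mem_univ a)
            simp only [if_pos h3] at this
            exact this
          have h5 : |∑ s ∈ range M, Φ (n + ((s : ℕ) : ℤ) • v)| ≤ M := by
            refine (abs_sum_le_sum_abs _ _).trans ?_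
            calc _ ≤ ∑ s ∈ range M, (1 : ℝ) := sum_le_sum fun s _ => hΦ1 _
              _ = M := by simp
          have h6 := mul_le_mul_of_nonneg_left h4 hM0r.le
          have h7 : 0 ≤ ε / 4 * (M : ℝ) := by positivity
          linarith
    -- sum over the lines
    have hnear : ∀ a, ∑ n ∈ Bx r N, (if |lf (L a) n + b a| ≤ ((Kc * M : ℕ) : ℤ) then (1 : ℝ) else 0)
        ≤ (2 * (Kc * M) + 1) * (N : ℝ) ^ (r - 1) := by
      intro a
      rw [← sum_filter, sum_const, nsmul_eq_mul, mul_one]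
      have := near_card (N := N) (hL a) (b a) (Kc * M)
      exact_mod_cast this
    have h1 : |∑ n ∈ Bx r N, (if (fun j => (n j : ℝ)) ∈ Q then ∑ s ∈ range M, Φ (n + ((s : ℕ) : ℤ) • v) else 0)|
        ≤ ε / 4 * M * (N : ℝ) ^ r + M * (k * ((2 * (Kc * M) + 1) * (N : ℝ) ^ (r - 1))) := by
      refine (abs_sum_le_sum_abs _ _).trans ((sum_le_sum fun n hn => (?_ : _ ≤ |∑ s ∈ range M, Φ (n + ((s : ℕ) : ℤ) • v)|)).trans
        ((sum_le_sum hline).trans ?_))
      · split_ifs
        · exact le_rfl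
        · rw [abs_zero]; exact abs_nonneg _
      rw [sum_add_distrib, sum_const, card_Bx, nsmul_eq_mul, ← mul_sum, sum_comm]
      have h2 := sum_le_sum fun a (_ : a ∈ (univ : Finset (Fin k))) => hnear a
      rw [sum_const, card_univ, Fintype.card_fin, nsmul_eq_mul] at h2
      have h3 := mul_le_mul_of_nonneg_left h2 hM0r.le
      rw [Nat.cast_pow]
      linarith
    -- shifts
    have h2 : |M * ∑ n ∈ Bx r N, Ψ n - ∑ n ∈ Bx r N, ∑ s ∈ range M, Ψ (n + ((s : ℕ) : ℤ) • v)|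
        ≤ M * (2 * (M * Vv) * (N : ℝ) ^ (r - 1)) := by
      rw [sum_comm]
      have e1 : (M : ℝ) * ∑ n ∈ Bx r N, Ψ n - ∑ s ∈ range M, ∑ n ∈ Bx r N, Ψ (n + ((s : ℕ) : ℤ) • v)
          = ∑ s ∈ range M, (∑ n ∈ Bx r N, Ψ n - ∑ n ∈ Bx r N, Ψ (n + ((s : ℕ) : ℤ) • v)) := by
        rw [sum_sub_distrib, sum_const, card_range, nsmul_eq_mul]
      rw [e1]
      refine (abs_sum_le_sum_abs _ _).trans ?_
      calc _ ≤ ∑ s ∈ range M, (2 * (M * Vv) * (N : ℝ) ^ (r - 1)) := by
            apply sum_le_sum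
            intro s hs
            rw [mem_range] at hs
            refine (shift_sum hΨ1 (((s : ℕ) : ℤ) • v)).trans ?_
            apply mul_le_mul_of_nonneg_right _ (by positivity)
            apply mul_le_mul_of_nonneg_left _ (by norm_num)
            have h3 : ∑ j, ((((s : ℕ) : ℤ) • v) j).natAbs = s * Vv := by
              rw [hVv, mul_sum]
              apply sum_congr rfl; intro j _
              rw [Pi.smul_apply, smul_eq_mul, Int.natAbs_mul, Int.natAbs_natCast]
            rw [h3]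
            push_cast
            exact mul_le_mul_of_nonneg_right (by exact_mod_cast hs.le) (Nat.cast_nonneg _)
        _ = _ := by rw [sum_const, card_range, nsmul_eq_mul]
    have h2' : |∑ n ∈ Bx r N, ∑ s ∈ range M, Ψ (n + ((s : ℕ) : ℤ) • v)
        - ∑ n ∈ Bx r N, (if (fun j => (n j : ℝ)) ∈ Q then ∑ s ∈ range M, Φ (n + ((s : ℕ) : ℤ) • v) else 0)|
        ≤ M * (3 * (M * Vv) * (N : ℝ) ^ (r - 1)) := by
      have e2 : ∑ n ∈ Bx r N, (if (fun j => (n j : ℝ)) ∈ Q then ∑ s ∈ range M, Φ (n + ((s : ℕ) : ℤ) • v) else 0)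
          = ∑ n ∈ Bx r N, ∑ s ∈ range M, (if (fun j => (n j : ℝ)) ∈ Q then Φ (n + ((s : ℕ) : ℤ) • v) else 0) := by
        apply sum_congr rfl
        intro n _
        split_ifs
        · rfl
        · rw [sum_const_zero]
      rw [e2, ← sum_sub_distrib]
      simp only [← sum_sub_distrib]
      rw [sum_comm]
      refine (abs_sum_le_sum_abs _ _).trans ?_
      calc _ ≤ ∑ s ∈ range M, (3 * (M * Vv) * (N : ℝ) ^ (r - 1)) := by
            apply sum_le_sum
            intro s hs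
            rw [mem_range] at hs
            refine (abs_sum_le_sum_abs _ _).trans ?_
            have h4 : ∑ n ∈ Bx r N, |Ψ (n + ((s : ℕ) : ℤ) • v) - (if (fun j => (n j : ℝ)) ∈ Q then Φ (n + ((s : ℕ) : ℤ) • v) else 0)|
                ≤ (#{n ∈ Bx r N | ¬ (((fun j => (n j : ℝ)) ∈ Q) ↔ (fun j => ((n + ((s : ℕ) : ℤ) • v) j : ℝ)) ∈ Q)} : ℝ) := by
              rw [card_filter]
              push_cast
              apply sum_le_sum
              intro n _
              rw [hΨ]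
              simp only
              by_cases g1 : (fun j => (n j : ℝ)) ∈ Q
              · by_cases g2 : (fun j => ((n + ((s : ℕ) : ℤ) • v) j : ℝ)) ∈ Q
                · rw [if_pos g1, if_pos g2, sub_self, abs_zero]; split_ifs <;> norm_num
                · rw [if_pos g1, if_neg g2, if_pos (fun h => g2 (h.1 g1)), zero_sub, abs_neg]; exact hΦ1 _
              · by_cases g2 : (fun j => ((n + ((s : ℕ) : ℤ) • v) j : ℝ)) ∈ Q
                · rw [if_neg g1, if_pos g2, if_pos (fun h => g1 (h.2 g2)), sub_zero]; exact hΦ1 _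
                · rw [if_neg g1, if_neg g2, sub_self, abs_zero]; split_ifs <;> norm_num
            refine h4.trans ?_
            have h5 := change_card (N := N) hQ (((s : ℕ) : ℤ) • v)
            have h3 : ∑ j, ((((s : ℕ) : ℤ) • v) j).natAbs = s * Vv := by
              rw [hVv, mul_sum]
              apply sum_congr rfl; intro j _
              rw [Pi.smul_apply, smul_eq_mul, Int.natAbs_mul, Int.natAbs_natCast]
            rw [h3] at h5
            have h6 : 3 * (s * Vv) * N ^ (r - 1) ≤ 3 * (M * Vv) * N ^ (r - 1) :=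
              Nat.mul_le_mul_right _ (Nat.mul_le_mul_left _ (Nat.mul_le_mul_right _ hs.le))
            have h7 := h5.trans h6
            exact_mod_cast h7
        _ = _ := by rw [sum_const, card_range, nsmul_eq_mul]
    -- conclusion
    have h3 : (M : ℝ) * |∑ n ∈ Bx r N, Ψ n| ≤ M * (ε / 4 * (N : ℝ) ^ r + k * ((2 * (Kc * M) + 1) * (N : ℝ) ^ (r - 1))
        + 5 * (M * Vv) * (N : ℝ) ^ (r - 1)) := by
      have e1 : (M : ℝ) * |∑ n ∈ Bx r N, Ψ n| = |M * ∑ n ∈ Bx r N, Ψ n| := by rw [abs_mul, abs_of_pos hM0r]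
      rw [e1]
      have h4 := abs_sub_abs_le_abs_sub (M * ∑ n ∈ Bx r N, Ψ n) (∑ n ∈ Bx r N, ∑ s ∈ range M, Ψ (n + ((s : ℕ) : ℤ) • v))
      have h5 := abs_sub_abs_le_abs_sub (∑ n ∈ Bx r N, ∑ s ∈ range M, Ψ (n + ((s : ℕ) : ℤ) • v))
        (∑ n ∈ Bx r N, (if (fun j => (n j : ℝ)) ∈ Q then ∑ s ∈ range M, Φ (n + ((s : ℕ) : ℤ) • v) else 0))
      linarith
    have h4 := le_of_mul_le_mul_left h3 hM0r
    refine h4.trans ?_
    have hNr : (0 : ℝ) ≤ (N : ℝ) ^ (r - 1) := by positivity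
    have h5 : (M : ℝ) * q ≤ N := by
      have : q * M ≤ N := hMq
      have h6 : ((q * M : ℕ) : ℝ) ≤ N := by exact_mod_cast this
      push_cast at h6
      linarith
    have h6 : (2 * k * Kc + 5 * Vv : ℕ) * (M : ℝ) ≤ ε / 4 * N := by
      have h7 : ((2 * k * Kc + 5 * Vv : ℕ) : ℝ) ≤ ε / 4 * q := by
        have h8 : ((2 * k * Kc + 5 * Vv : ℕ) : ℝ) / (ε / 4) ≤ q := by linarith
        rw [div_le_iff₀ (by positivity)] at h8
        linarith
      calc ((2 * k * Kc + 5 * Vv : ℕ) : ℝ) * M ≤ (ε / 4 * q) * M := mul_le_mul_of_nonneg_right h7 hM0r.le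
        _ = ε / 4 * (M * q) := by ring
        _ ≤ ε / 4 * N := mul_le_mul_of_nonneg_left h5 (by positivity)
    have h7 : (k : ℝ) ≤ ε / 4 * N := by
      have h8 : (k : ℝ) / (ε / 4) ≤ N := hN1.trans (by exact_mod_cast hNN1)
      rw [div_le_iff₀ (by positivity)] at h8
      linarith
    push_cast at h6
    have h8 := mul_le_mul_of_nonneg_right (add_le_add h6 h7) hNr
    rw [hpr]
    have h9 : 0 ≤ ε / 4 * (N * (N : ℝ) ^ (r - 1)) := by positivity
    linarith
  · -- the region is thin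
    push Not at hw
    obtain ⟨N1, hN1⟩ : ∃ N1 : ℕ, ((∑ a, (2 * (b a).natAbs + 1) : ℕ) : ℝ) / ε ≤ (N1 : ℝ) := exists_nat_ge _
    refine ⟨N1, fun N hN Q _ => ?_⟩
    have h1 : |∑ n ∈ Bx r N, (if (fun j => (n j : ℝ)) ∈ Q then ph L b σ f n else 0)| ≤ ∑ n ∈ Bx r N, ∑ a, (if |lf (L a) n + b a| ≤ (((b a).natAbs : ℕ) : ℤ) then (1 : ℝ) else 0) := by
      refine (abs_sum_le_sum_abs _ _).trans (sum_le_sum fun n _ => ?_)
      refine (show |(if (fun j => (n j : ℝ)) ∈ Q then ph L b σ f n else 0)| ≤ |ph L b σ f n| by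
        split_ifs
        · exact le_rfl
        · rw [abs_zero]; exact abs_nonneg _).trans ?_
      by_cases h2 : ∃ a, ¬ 0 < σ a * (lf (L a) n + b a)
      · obtain ⟨a, ha⟩ := h2
        rw [ph_zero ha, abs_zero]
        exact sum_nonneg fun a _ => by split_ifs <;> norm_num
      · push Not at h2
        obtain ⟨a, ha⟩ := hw n
        have ha' : σ a * lf (L a) n ≤ 0 := ha
        have h3 := h2 a
        have h4 : |lf (L a) n + b a| ≤ (((b a).natAbs : ℕ) : ℤ) := by
          rw [abs_le]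
          rcases hσ a with h | h <;> rw [h] at ha' h3 <;> constructor <;> omega
        refine (ph_abs hf1 n).trans ?_
        have := single_le_sum (f := fun a => (if |lf (L a) n + b a| ≤ (((b a).natAbs : ℕ) : ℤ) then (1 : ℝ) else 0))
          (fun a _ => by split_ifs <;> norm_num) (mem_univ a)
        simp only [if_pos h4] at this
        exact this
    refine h1.trans ?_
    rw [sum_comm]
    have h2 : ∀ a ∈ (univ : Finset (Fin k)), ∑ n ∈ Bx r N, (if |lf (L a) n + b a| ≤ (((b a).natAbs : ℕ) : ℤ) then (1 : ℝ) else 0)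
        ≤ ((2 * (b a).natAbs + 1 : ℕ) : ℝ) * (N : ℝ) ^ (r - 1) := by
      intro a _
      rw [← sum_filter, sum_const, nsmul_eq_mul, mul_one]
      have := near_card (N := N) (hL a) (b a) ((b a).natAbs)
      exact_mod_cast this
    refine (sum_le_sum h2).trans ?_
    rw [← sum_mul, hpr, ← mul_assoc]
    apply mul_le_mul_of_nonneg_right _ (by positivity)
    have h3 : ((∑ a, (2 * (b a).natAbs + 1) : ℕ) : ℝ) / ε ≤ N := hN1.trans (by exact_mod_cast hN)
    rw [div_le_iff₀ hε] at h3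
    push_cast at h3 ⊢
    linarith

end SH6

end Pool.Agent.KS6_24.ST
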