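import Mathlib
import Pool.Agent.KS6_24.ST.FM3
import Pool.Agent.KS6_24.ST.SHDefs

/-! SH1: the averages over windows of the product of the weights at `(y + h a) / e a` for a good family, in mean square
(after FG3.lean by helper7). -/

set_option autoImplicit false

namespace Pool.Agent.KS6_24.ST

open Pool.Agent.H499R2.CO Pool.Agent.Y965.SI Finset Pool.Agent.KS6_24.LN Pool.Agent.KS6_24.LN.TW

open EtaN FM3 in
/-- **SH1.** -/
theorem etas (h4 : S_NW 1) (hw : ∀ d, d = 1 ∨ d = -1 → S_WS d) (hb : S_BALG) : S_ETAS := by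
  have hd2 : (1 : ℤ) % 2 = 1 := by norm_num
  intro n A d hGood C
  obtain ⟨hA2, hd, hM8⟩ := hGood
  have hdA : ∀ a, (d a * A a) % 2 = 1 := by
    intro a
    have h1 : ((A a : ℕ) : ℤ) % 2 = 1 := by have := hA2 a; omega
    rcases hd a with h | h <;> rw [h] <;> omega
  obtain ⟨Ca, hCa, ha⟩ := nw_ft h4 n
  obtain ⟨Cb, hCb, hb2⟩ := nw_ft h4 (n + n)
  obtain ⟨Cw, hCw, hw⟩ : ∃ Cw : ℝ, 0 < Cw ∧ ∀ d, d = 1 ∨ d = -1 → ∀ t k Λ l m : ℕ, Cw ≤ k → 1 ≤ Λ → Λ ≤ k → m ≤ t →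
      gm * t + 40 * k ≤ Real.log l → ∀ c : ℕ → ℝ, (∀ i, c i * c i = 1) → ∀ x : ℤ,
        (∑ w ∈ range l, |∑ j ∈ range Λ, c j * sg ((Tz d)^[m + j] (x + (w : ℕ)))|) / l
          ≤ Cw * (Λ * √ (1 / Λ + (t + k : ℝ) ^ 3 / (k : ℝ) ^ 4)) := by
    obtain ⟨C1, hC1, h1⟩ := hw 1 (Or.inl rfl)
    obtain ⟨C2, hC2, h2⟩ := hw (-1) (Or.inr rfl)
    refine ⟨C1 + C2, by positivity, ?_⟩
    intro d hd t k Λ l m hk hΛ hΛk hm hl c hc x
    have hS : 0 ≤ (Λ : ℝ) * √ (1 / Λ + (t + k : ℝ) ^ 3 / (k : ℝ) ^ 4) := by positivity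
    rcases hd with h | h
    · rw [h]
      refine (h1 t k Λ l m (by linarith) hΛ hΛk hm hl c hc x).trans ?_
      exact mul_le_mul_of_nonneg_right (by linarith) hS
    · rw [h]
      refine (h2 t k Λ l m (by linarith) hΛ hΛk hm hl c hc x).trans ?_
      exact mul_le_mul_of_nonneg_right (by linarith) hS
  have hb' : ∀ a b : Fin n, ∃ (D : ℝ) (t0 : ℕ), 0 < D ∧ (a ≠ b → ∀ t Λ i j : ℕ, t0 ≤ t → 1 ≤ Λ → Λ ≤ t →
      i ≤ t ^ 10 → j ≤ t ^ 10 → ∀ c c' : ℤ,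
      ∑ q ∈ range (t / Λ), pm t (fun v => |∑ k ∈ range Λ, sg ((Tz 1)^[q * Λ + k] (d a * A a * 3 ^ i * v + c)) *
        sg ((Tz 1)^[q * Λ + k] (d b * A b * 3 ^ j * v + c'))|) ≤ t * (D * √ (Real.log t / Λ) + 1 / Real.log t ^ C)) := by
    intro a b
    by_cases hab : a = b
    · exact ⟨1, 0, one_pos, fun h => absurd hab h⟩
    · obtain ⟨D, t0, hD, _, h⟩ := hb (d a * A a) (d b * A b) (hdA a) (hdA b) (hM8 a b hab) C
      exact ⟨D, t0, hD, fun _ => h⟩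
  choose DB' T0 hDB' hb' using hb'
  obtain ⟨DB, hDBdef⟩ : ∃ DB : ℝ, DB = 1 + ∑ a, ∑ b, DB' a b := ⟨_, rfl⟩
  have hDB : 0 < DB := by
    have : 0 ≤ ∑ a, ∑ b, DB' a b := sum_nonneg fun a _ => sum_nonneg fun b _ => (hDB' a b).le
    rw [hDBdef]; linarith
  have hDBle : ∀ a b, DB' a b ≤ DB := by
    intro a b
    have h1 : DB' a b ≤ ∑ b, DB' a b := single_le_sum (f := fun b => DB' a b) (fun b _ => (hDB' a b).le) (mem_univ b)
    have h2 : ∑ b, DB' a b ≤ ∑ a, ∑ b, DB' a b :=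
      single_le_sum (f := fun a => ∑ b, DB' a b) (fun a _ => sum_nonneg fun b _ => (hDB' a b).le) (mem_univ a)
    rw [hDBdef]; linarith
  obtain ⟨t0, ht0def⟩ : ∃ t0 : ℕ, t0 = 2 + ∑ a, ∑ b, T0 a b := ⟨_, rfl⟩
  have ht0 : 2 ≤ t0 := by omega
  have ht0le : ∀ a b, T0 a b ≤ t0 := by
    intro a b
    have h1 : T0 a b ≤ ∑ b, T0 a b := single_le_sum (f := fun b => T0 a b) (fun b _ => Nat.zero_le _) (mem_univ b)
    have h2 : ∑ b, T0 a b ≤ ∑ a, ∑ b, T0 a b :=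
      single_le_sum (f := fun a => ∑ b, T0 a b) (fun a _ => Nat.zero_le _) (mem_univ a)
    omega
  refine ⟨4 * (n : ℝ) ^ 2 * (Cw + DB + 3) + 3 * (Cb + 2 * Ca) + 6 + Cw, t0, by positivity, ht0, ?_⟩
  intro t k Λ g l N ht hk hΛ1 hΛk hkt hg hN1 hl i e hi hAe hsh W hW c
  have hg' : (0 : ℝ) < g := by exact_mod_cast hg
  have hΛt : Λ ≤ t := hΛk.trans hkt
  have hn0 : (0 : ℝ) ≤ (n : ℝ) ^ 2 := by positivity
  have hk' : Cw ≤ k := by
    refine le_trans ?_ hk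
    have : 0 ≤ 4 * (n : ℝ) ^ 2 * (Cw + DB + 3) := by positivity
    linarith
  have hk0 : (0 : ℝ) < k := lt_of_lt_of_le hCw hk'
  have hl0 : 0 < l := by
    rcases Nat.eq_zero_or_pos l with h0 | h0
    · exfalso
      rw [h0] at hl
      simp only [Nat.cast_zero, Real.log_zero] at hl
      have := mul_nonneg gm_nonneg (Nat.cast_nonneg (α := ℝ) t)
      linarith
    · exact h0
  have hl1 : (1 : ℝ) ≤ l := by exact_mod_cast hl0
  have hN0 : (0 : ℝ) < N := by exact_mod_cast hN1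
  have hW0 : 0 < W := lt_of_lt_of_le (by positivity) hW
  have he1 : ∀ a, 1 ≤ e a := fun a => by
    rcases Nat.eq_zero_or_pos (e a) with h | h
    · exfalso; have := hAe a; rw [h] at this; omega
    · exact h
  obtain ⟨M, hM⟩ : ∃ M : Fin n → ℤ, M = fun a => d a * A a * 3 ^ i a := ⟨_, rfl⟩
  have hM2 : ∀ a, M a % 2 = 1 := by
    intro a
    rw [hM]; simp only
    rw [Int.mul_emod, hdA a, three_pow_odd]; norm_num
  obtain ⟨o, ho⟩ : ∃ o : Fin n → ℤ → ℤ, o = fun a z => d a * ((z + hsh a) / (e a : ℤ)) := ⟨_, rfl⟩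
  have hdiv : ∀ (a : Fin n) (v s : ℤ), o a (N * v + s) = M a * v + o a s := by
    intro a v s
    have h1 : (N : ℤ) = e a * (A a * 3 ^ i a) := by rw [← hAe a]; push_cast; ring
    have h2 : ((e a : ℕ) : ℤ) ≠ 0 := by have := he1 a; omega
    rw [ho, hM]; simp only
    rw [h1, show (e a : ℤ) * (A a * 3 ^ i a) * v + s + hsh a = (s + hsh a) + e a * (A a * 3 ^ i a * v) by ring,
      Int.add_mul_ediv_left _ _ h2]
    ring
  obtain ⟨S, hS⟩ : ∃ S, S = √ (1 / Λ + (t + k : ℝ) ^ 3 / (k : ℝ) ^ 4) := ⟨_, rfl⟩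
  have hS0 : 0 ≤ S := by rw [hS]; exact Real.sqrt_nonneg _
  obtain ⟨K1, hK1⟩ : ∃ K1 : ℝ, K1 = t * (Cw * S) := ⟨_, rfl⟩
  have hK10 : 0 ≤ K1 := by rw [hK1]; positivity
  obtain ⟨bal, hbal⟩ : ∃ bal : ℝ, bal = t * (DB * √ (Real.log t / Λ) + 1 / Real.log t ^ C) := ⟨_, rfl⟩
  have hlogt0 : 0 ≤ Real.log t := Real.log_natCast_nonneg t
  have hbal0 : 0 ≤ bal := by rw [hbal]; positivity
  -- balance
  have hpb : ∀ a b : Fin n, a ≠ b → ∀ s s' : ℤ,
      pm t (fun v => Eta.Bk 1 t Λ (M a * v + s) (M b * v + s')) ≤ bal := by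
    intro a b hab s s'
    have h1 := hb' a b hab t Λ (i a) (i b) ((ht0le a b).trans ht) hΛ1 hΛt (hi a) (hi b) s s'
    rw [hM]
    refine le_trans (le_of_eq (pm_sum _ _ _)) (h1.trans ?_)
    rw [hbal]
    apply mul_le_mul_of_nonneg_left _ (Nat.cast_nonneg _)
    have h2 := mul_le_mul_of_nonneg_right (hDBle a b) (Real.sqrt_nonneg (Real.log t / Λ))
    linarith
  -- windows
  have hwin : ∀ (b : Fin n) (l' : ℕ), l ≤ l' → ∀ x X : ℤ, ∑ w ∈ range l', Eta.Bk 1 t Λ x (d b * (X + (w : ℕ))) ≤ l' * K1 := by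
    intro b l' hl' x X
    have hl'0 : (0 : ℝ) < l' := by exact_mod_cast lt_of_lt_of_le hl0 hl'
    have hlog : gm * t + 40 * k ≤ Real.log l' := by
      refine hl.trans (Real.log_le_log (by positivity) ?_)
      exact_mod_cast hl'
    unfold Eta.Bk
    rw [sum_comm]
    have h1 : ∀ q ∈ range (t / Λ), ∑ w ∈ range l', |∑ j ∈ range Λ, sg ((Tz 1)^[q * Λ + j] x) *
        sg ((Tz 1)^[q * Λ + j] (d b * (X + (w : ℕ))))| ≤ l' * (Cw * (Λ * S)) := by
      intro q hq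
      rw [mem_range] at hq
      have hqt : q * Λ ≤ t := by
        have h1 : q * Λ ≤ (t / Λ) * Λ := Nat.mul_le_mul_right Λ hq.le
        exact h1.trans (Nat.div_mul_le_self t Λ)
      have h2 := hw (d b) (hd b) t k Λ l' (q * Λ) hk' hΛ1 hΛk hqt hlog (fun j => sg ((Tz 1)^[q * Λ + j] x))
        (fun j => sg_sq _) X
      rw [div_le_iff₀ hl'0, ← hS] at h2
      simp only [sg_iter (hd b)] at h2
      linarith
    refine (sum_le_sum h1).trans ?_
    rw [sum_const, card_range, nsmul_eq_mul]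
    have h3 : (((t / Λ : ℕ) : ℝ)) * Λ ≤ t := by exact_mod_cast Nat.div_mul_le_self t Λ
    have h4 : (((t / Λ : ℕ) : ℝ)) * (l' * (Cw * (Λ * S))) = ((((t / Λ : ℕ) : ℝ)) * Λ) * (l' * (Cw * S)) := by ring
    rw [h4, hK1]
    have h5 := mul_le_mul_of_nonneg_right h3 (show 0 ≤ l' * (Cw * S) by positivity)
    refine h5.trans (le_of_eq (by ring))
  obtain ⟨LN, hLN⟩ : ∃ LN : ℝ, LN = ((l * N : ℕ) : ℝ) := ⟨_, rfl⟩
  have hLN0 : 0 < LN := by rw [hLN]; exact_mod_cast Nat.mul_pos hl0 hN1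
  have hwin2 : ∀ (b : Fin n) (x X : ℤ), ∑ w ∈ range (l * N), Eta.Bk 1 t Λ x (o b (X + (w : ℕ))) ≤ 2 * (LN * K1) := by
    intro b x X
    rw [ho]; simp only
    obtain ⟨Nb, hNb⟩ : ∃ Nb : ℕ, Nb = e b := ⟨_, rfl⟩
    obtain ⟨l', hl'⟩ : ∃ l' : ℕ, l' = l * (A b * 3 ^ i b) := ⟨_, rfl⟩
    have hNb1 : 1 ≤ Nb := by rw [hNb]; exact he1 b
    have hAb : 0 < A b := by have := hA2 b; omega
    have hll' : l ≤ l' := by rw [hl']; exact Nat.le_mul_of_pos_right l (by positivity)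
    have hln : l * N = l' * Nb := by
      rw [hl', hNb, mul_assoc, hAe]
    have h1 := Eta.fib_sum (G := fun z => Eta.Bk 1 t Λ x (d b * z)) (fun z => Eta.Bk_nonneg _ _ _ _ _) hNb1 l' (X + hsh b)
    have e1 : ((Nb : ℕ) : ℤ) = (e b : ℕ) := by rw [hNb]
    rw [e1, ← hln] at h1
    have e0 : ∀ w : ℕ, X + (w : ℕ) + hsh b = X + hsh b + (w : ℕ) := fun w => by ring
    simp only [e0]
    refine h1.trans ?_
    have h2 := hwin b (l' + 1) (by omega) x ((X + hsh b) / (e b : ℕ))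
    have hl'1 : (1 : ℝ) ≤ l' := hl1.trans (by exact_mod_cast hll')
    have h3 : ((l' + 1 : ℕ) : ℝ) ≤ 2 * l' := by push_cast; linarith
    have hNb0 : (0 : ℝ) ≤ Nb := Nat.cast_nonneg _
    have h4 : (Nb : ℝ) * ∑ h ∈ range (l' + 1), Eta.Bk 1 t Λ x (d b * ((X + hsh b) / (e b : ℕ) + (h : ℕ))) ≤ Nb * (((l' + 1 : ℕ) : ℝ) * K1) :=
      mul_le_mul_of_nonneg_left h2 hNb0
    have h5 : (Nb : ℝ) * (((l' + 1 : ℕ) : ℝ) * K1) ≤ Nb * ((2 * l') * K1) := by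
      apply mul_le_mul_of_nonneg_left _ hNb0
      exact mul_le_mul_of_nonneg_right h3 hK10
    refine (h4.trans h5).trans (le_of_eq ?_)
    rw [hLN, hln]; push_cast; ring
  -- the factors
  obtain ⟨Q, hQ⟩ : ∃ Q : ℕ → ℤ → ℝ, Q = fun w U => ∏ a : Fin n, ze g (c a) (od 1 t (o a (U + (w : ℕ)))) := ⟨_, rfl⟩
  obtain ⟨m, hm⟩ : ∃ m : ℝ, m = ∏ a : Fin n, ((g : ℝ) * pc 1 t g (c a)) := ⟨_, rfl⟩
  have hQ1 : ∀ w U, |Q w U| ≤ 1 := by
    intro w U
    rw [hQ]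
    simp only
    rw [abs_prod]
    exact prod_le_one (fun a _ => abs_nonneg _) (fun a _ => ze_abs hg _ _)
  have hm1 : |m| ≤ 1 := by
    rw [hm, abs_prod]
    apply prod_le_one (fun a _ => abs_nonneg _)
    intro a _
    rw [← ze_mean]
    exact pm_abs fun v => ze_abs hg _ _
  have hQP : ∀ w U, Q w (U + (2 ^ t * N : ℕ)) = Q w U := by
    intro w U
    rw [hQ]
    simp only
    apply prod_congr rfl
    intro a _
    have e1 : U + ((2 ^ t * N : ℕ) : ℤ) + (w : ℕ) = N * 2 ^ t + (U + (w : ℕ)) := by push_cast; ring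
    rw [e1, hdiv, add_comm, od_per hd2]
  -- the walkers
  have hwalk : ∀ (r : ℕ) (w w' : ℕ) (v : ℤ) (a : Fin n), o a (-(w : ℤ) + (N * v + (r : ℕ)) + (w' : ℕ))
      = M a * v + o a ((r : ℤ) - w + w') := by
    intro r w w' v a
    rw [← hdiv]
    congr 1
    ring
  obtain ⟨E4, hE4⟩ : ∃ E4 : ℝ, E4 = 3 * (t * Λ / (g : ℝ) ^ 3) + Λ / (g : ℝ) ^ 2 := ⟨_, rfl⟩
  have hE40 : 0 ≤ E4 := by rw [hE4]; positivity
  have herr : ∀ C : ℝ, C * (t * Λ * ((1 / (g : ℝ)) * (2 / (g : ℝ) ^ 2) + (1 / (g : ℝ)) ^ 3) + Λ * (1 / (g : ℝ)) ^ 2) = C * E4 := by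
    intro C; rw [hE4]; field_simp; ring
  have hδ1 : 1 / (g : ℝ) ≤ 1 := by rw [div_le_one hg']; exact_mod_cast hg
  -- one factor
  have hone : ∀ w : ℕ, |av W (fun y => Q w ⌊y⌋) - m| ≤ 1 / (g : ℝ) ^ 2 * (n ^ 2 * bal) + Ca * E4 + 2 * (N * 2 ^ t / W) := by
    intro w
    have h1 := av_block (hQ1 w) hN1 (hQP w) hW0 (w : ℤ) (m := m)
      (B := fun _ => 1 / (g : ℝ) ^ 2 * (n ^ 2 * bal) + Ca * E4) (by
        intro r _
        have h2 := ha (Fin n) (Fintype.card_fin n) t Λ hΛ1 hΛt (fun a => ze g (c a)) (1 / g) (2 / (g : ℝ) ^ 2)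
          (by positivity) hδ1 (by positivity) (fun a k => ze_abs hg _ _) (fun a k => ze_d1 1 t hg _ _)
          (fun a k => ze_d2 1 t hg _ _) M (fun a => o a ((r : ℕ) : ℤ))
          hM2
        simp only [ze_mean] at h2
        rw [← hm, herr] at h2
        have e1 : pm t (fun v => Q w (-(w : ℤ) + (N * v + (r : ℕ))))
            = pm t (fun v => ∏ a, ze g (c a) (od 1 t (M a * v + o a ((r : ℕ) : ℤ)))) := by
          apply pm_congr; intro v
          rw [hQ]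
          simp only
          apply prod_congr rfl
          intro a _
          rw [hwalk r w w v a]
          congr 4
          ring
        rw [e1]
        refine h2.trans ?_
        have h3 : (∑ a : Fin n, ∑ b : Fin n, if a ≠ b then pm t (fun v => Eta.Bk 1 t Λ (M a * v + o a ((r : ℕ) : ℤ))
            (M b * v + o b ((r : ℕ) : ℤ))) else 0) ≤ n ^ 2 * bal := by
          have h4 : ∀ a b : Fin n, (if a ≠ b then pm t (fun v => Eta.Bk 1 t Λ (M a * v + o a ((r : ℕ) : ℤ))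
            (M b * v + o b ((r : ℕ) : ℤ))) else 0) ≤ bal := by
            intro a b
            split_ifs with hab
            · exact hpb a b hab _ _
            · exact hbal0
          refine (sum_le_sum fun a _ => sum_le_sum fun b _ => h4 a b).trans (le_of_eq ?_)
          simp only [sum_const, card_univ, Fintype.card_fin, nsmul_eq_mul]
          ring
        have e2 : (1 / (g : ℝ)) ^ 2 = 1 / (g : ℝ) ^ 2 := by rw [div_pow, one_pow]
        rw [e2]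
        have h5 := mul_le_mul_of_nonneg_left h3 (show 0 ≤ 1 / (g : ℝ) ^ 2 by positivity)
        linarith)
    refine h1.trans (le_of_eq ?_)
    rw [sum_const, card_range, nsmul_eq_mul]
    field_simp
  -- two factors
  obtain ⟨T2, hT2⟩ : ∃ T2 : ℕ → ℕ → ℕ → Fin n → Fin n → ℝ, T2 = fun r w w' a b =>
      pm t (fun v => Eta.Bk 1 t Λ (M a * v + o a ((r : ℕ) : ℤ))
        (M b * v + o b (((r : ℕ) : ℤ) - (w : ℕ) + (w' : ℕ)))) := ⟨_, rfl⟩
  have htwo : ∀ w w' : ℕ, |av W (fun y => Q w ⌊y⌋ * Q w' ⌊y⌋) - m * m|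
      ≤ (∑ r ∈ range N, (1 / (g : ℝ) ^ 2 * (2 * (n ^ 2 * bal) + 2 * ∑ a, ∑ b, T2 r w w' a b) + Cb * E4)) / N
        + 2 * (N * 2 ^ t / W) := by
    intro w w'
    apply av_block (F := fun U => Q w U * Q w' U) (fun U => by
      rw [abs_mul]; exact mul_le_one₀ (hQ1 w U) (abs_nonneg _) (hQ1 w' U)) hN1
      (fun U => by simp only [hQP]) hW0 (w : ℤ)
    intro r _
    obtain ⟨s, hs⟩ : ∃ s : ℤ, s = ((r : ℕ) : ℤ) - (w : ℕ) + (w' : ℕ) := ⟨_, rfl⟩
    have h2 := hb2 (Fin n ⊕ Fin n) (by rw [Fintype.card_sum, Fintype.card_fin]) t Λ hΛ1 hΛt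
      (Sum.elim (fun a => ze g (c a)) (fun a => ze g (c a))) (1 / g) (2 / (g : ℝ) ^ 2)
      (by positivity) hδ1 (by positivity)
      (by rintro (a | a) k <;> simpa using ze_abs hg _ _)
      (by rintro (a | a) k <;> simpa using ze_d1 1 t hg _ _)
      (by rintro (a | a) k <;> simpa using ze_d2 1 t hg _ _)
      (Sum.elim M M)
      (Sum.elim (fun a => o a ((r : ℕ) : ℤ)) (fun a => o a s))
      (by rintro (a | a) <;> exact hM2 _)
    simp only [Fintype.prod_sum_type, Fintype.sum_sum_type, Sum.elim_inl, Sum.elim_inr, ze_mean] at h2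
    rw [← hm, herr] at h2
    have e1 : pm t (fun v => Q w (-(w : ℤ) + (N * v + (r : ℕ))) * Q w' (-(w : ℤ) + (N * v + (r : ℕ))))
        = pm t (fun v => (∏ a, ze g (c a) (od 1 t (M a * v + o a ((r : ℕ) : ℤ)))) *
            ∏ a, ze g (c a) (od 1 t (M a * v + o a s))) := by
      apply pm_congr; intro v
      rw [hQ]
      simp only
      congr 1
      · apply prod_congr rfl
        intro a _
        rw [hwalk r w w v a]
        congr 4
        ring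
      · apply prod_congr rfl
        intro a _
        rw [hwalk r w w' v a, hs]
    rw [e1]
    refine h2.trans ?_
    have h4 : ∀ (z : ℤ) (P : Prop) [Decidable P] (a b : Fin n), (P → a ≠ b) →
        (if P then pm t (fun v => Eta.Bk 1 t Λ (M a * v + o a z)
          (M b * v + o b z)) else 0) ≤ bal := by
      intro z P _ a b hP
      split_ifs with h
      · exact hpb a b (hP h) _ _
      · exact hbal0
    have hT0 : ∀ a b, 0 ≤ T2 r w w' a b := by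
      intro a b; rw [hT2]; exact pm_nonneg fun v => Eta.Bk_nonneg _ _ _ _ _
    have h5 : ∀ (P : Prop) [Decidable P] (a b : Fin n),
        (if P then pm t (fun v => Eta.Bk 1 t Λ (M a * v + o a ((r : ℕ) : ℤ))
          (M b * v + o b s)) else 0) ≤ T2 r w w' a b := by
      intro P _ a b
      split_ifs
      · rw [hT2, hs]
      · exact hT0 a b
    have h6 : ∀ (P : Prop) [Decidable P] (a b : Fin n),
        (if P then pm t (fun v => Eta.Bk 1 t Λ (M a * v + o a s)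
          (M b * v + o b ((r : ℕ) : ℤ))) else 0) ≤ T2 r w w' b a := by
      intro P _ a b
      split_ifs
      · rw [hT2, hs]
        apply le_of_eq
        apply pm_congr; intro v; exact Eta.Bk_comm _ _ _ _ _
      · exact hT0 b a
    have h7 : ∀ F : Fin n → Fin n → ℝ, (∀ a b, F a b ≤ bal) → ∑ a, ∑ b, F a b ≤ n ^ 2 * bal := by
      intro F hF
      refine (sum_le_sum fun a _ => sum_le_sum fun b _ => hF a b).trans (le_of_eq ?_)
      simp only [sum_const, card_univ, Fintype.card_fin, nsmul_eq_mul]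
      ring
    have h8 := h7 _ fun a b => h4 ((r : ℕ) : ℤ) ((Sum.inl a : Fin n ⊕ Fin n) ≠ Sum.inl b) a b
      (fun h hab => h (by rw [hab]))
    have h9 := h7 _ fun a b => h4 s ((Sum.inr a : Fin n ⊕ Fin n) ≠ Sum.inr b) a b
      (fun h hab => h (by rw [hab]))
    have h10 := sum_le_sum fun a (_ : a ∈ (univ : Finset (Fin n))) => sum_le_sum fun b (_ : b ∈ (univ : Finset (Fin n))) =>
      h5 ((Sum.inl a : Fin n ⊕ Fin n) ≠ Sum.inr b) a b
    have h11 := sum_le_sum fun a (_ : a ∈ (univ : Finset (Fin n))) => sum_le_sum fun b (_ : b ∈ (univ : Finset (Fin n))) =>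
      h6 ((Sum.inr a : Fin n ⊕ Fin n) ≠ Sum.inl b) a b
    rw [sum_comm (f := fun a b => T2 r w w' b a)] at h11
    have e2 : (1 / (g : ℝ)) ^ 2 = 1 / (g : ℝ) ^ 2 := by rw [div_pow, one_pow]
    rw [e2]
    have hg2 : 0 ≤ 1 / (g : ℝ) ^ 2 := by positivity
    rw [sum_add_distrib, sum_add_distrib]
    have h12 := mul_le_mul_of_nonneg_left (add_le_add (add_le_add h8 h10) (add_le_add h11 h9)) hg2
    linarith
  -- sum over the second factor
  have hT2sum : ∀ (r w : ℕ) (a b : Fin n), ∑ w' ∈ range (l * N), T2 r w w' a b ≤ 2 * (LN * K1) := by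
    intro r w a b
    rw [hT2]
    simp only
    rw [← pm_sum, ← pm_const t (2 * (LN * K1))]
    apply pm_mono; intro v
    have h1 := hwin2 b (M a * v + o a ((r : ℕ) : ℤ)) (N * v + (((r : ℕ) : ℤ) - (w : ℕ)))
    refine le_trans (le_of_eq ?_) h1
    apply sum_congr rfl; intro w' _
    have e1 : (N : ℤ) * v + (((r : ℕ) : ℤ) - (w : ℕ)) + (w' : ℕ) = N * v + (((r : ℕ) : ℤ) - (w : ℕ) + (w' : ℕ)) := by
      ring
    rw [e1, hdiv]
  obtain ⟨R2, hR2⟩ : ∃ R2 : ℝ, R2 = 1 / (g : ℝ) ^ 2 * (2 * (n ^ 2 * bal) + 4 * (n ^ 2 * K1)) + Cb * E4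
      + 2 * (N * 2 ^ t / W) := ⟨_, rfl⟩
  have hsum2 : ∀ w : ℕ, ∑ w' ∈ range (l * N), |av W (fun y => Q w ⌊y⌋ * Q w' ⌊y⌋) - m * m| ≤ LN * R2 := by
    intro w
    refine (sum_le_sum fun w' _ => htwo w w').trans ?_
    rw [sum_add_distrib, sum_const, card_range, nsmul_eq_mul, ← hLN, ← sum_div, sum_comm]
    have h1 : ∀ r ∈ range N, ∑ w' ∈ range (l * N), (1 / (g : ℝ) ^ 2 * (2 * (n ^ 2 * bal) + 2 * ∑ a, ∑ b, T2 r w w' a b)
        + Cb * E4) ≤ LN * (1 / (g : ℝ) ^ 2 * (2 * (n ^ 2 * bal) + 4 * (n ^ 2 * K1)) + Cb * E4) := by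
      intro r _
      rw [sum_add_distrib, sum_const, card_range, nsmul_eq_mul, ← hLN, ← mul_sum, sum_add_distrib, sum_const, card_range,
        nsmul_eq_mul, ← hLN, ← mul_sum]
      have h2 : ∑ w' ∈ range (l * N), ∑ a, ∑ b, T2 r w w' a b ≤ n ^ 2 * (2 * (LN * K1)) := by
        rw [sum_comm]
        have h3 : ∀ a : Fin n, ∑ w' ∈ range (l * N), ∑ b, T2 r w w' a b ≤ n * (2 * (LN * K1)) := by
          intro a
          rw [sum_comm]
          refine (sum_le_sum fun b _ => hT2sum r w a b).trans (le_of_eq ?_)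
          rw [sum_const, card_univ, Fintype.card_fin, nsmul_eq_mul]
        refine (sum_le_sum fun a _ => h3 a).trans (le_of_eq ?_)
        rw [sum_const, card_univ, Fintype.card_fin, nsmul_eq_mul]
        ring
      have hg2 : 0 ≤ 1 / (g : ℝ) ^ 2 := by positivity
      have h4 := mul_le_mul_of_nonneg_left h2 hg2
      linarith
    have h2 := sum_le_sum h1
    rw [sum_const, card_range, nsmul_eq_mul] at h2
    have h3 : (∑ r ∈ range N, ∑ w' ∈ range (l * N), (1 / (g : ℝ) ^ 2 * (2 * (n ^ 2 * bal) + 2 * ∑ a, ∑ b, T2 r w w' a b)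
        + Cb * E4)) / N ≤ LN * (1 / (g : ℝ) ^ 2 * (2 * (n ^ 2 * bal) + 4 * (n ^ 2 * K1)) + Cb * E4) := by
      rw [div_le_iff₀ hN0]; linarith
    rw [hR2]
    linarith
  obtain ⟨R1, hR1⟩ : ∃ R1 : ℝ, R1 = 1 / (g : ℝ) ^ 2 * (n ^ 2 * bal) + Ca * E4 + 2 * (N * 2 ^ t / W) := ⟨_, rfl⟩
  -- expansion of the square
  have hQB : ∀ w, Bd 1 (fun y => Q w ⌊y⌋) := fun w => Bd.fl (hQ1 w)
  have hQB2 : ∀ w w', Bd (1 * 1) (fun y => Q w ⌊y⌋ * Q w' ⌊y⌋) := fun w w' => (hQB w).mul (hQB w')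
  have hmain : av W (fun y => ((∑ w ∈ range (l * N), Q w ⌊y⌋) / LN - m) ^ 2)
      = 1 / LN ^ 2 * ∑ w ∈ range (l * N), ∑ w' ∈ range (l * N), (av W (fun y => Q w ⌊y⌋ * Q w' ⌊y⌋) - m * m)
        - 2 * m / LN * ∑ w ∈ range (l * N), (av W (fun y => Q w ⌊y⌋) - m) := by
    have hB1 : ∀ w w', Bd (1 * 1 + |m * m|) (fun y => Q w ⌊y⌋ * Q w' ⌊y⌋ - m * m) := fun w w' =>
      (hQB2 w w').sub (Bd.const _)
    have hB2 : ∀ w, Bd (∑ w' ∈ range (l * N), (1 * 1 + |m * m|)) (fun y => ∑ w' ∈ range (l * N), (Q w ⌊y⌋ * Q w' ⌊y⌋ - m * m)) :=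
      fun w => Bd.sum fun w' _ => hB1 w w'
    have hB3 : Bd (∑ w ∈ range (l * N), ∑ w' ∈ range (l * N), (1 * 1 + |m * m|))
        (fun y => ∑ w ∈ range (l * N), ∑ w' ∈ range (l * N), (Q w ⌊y⌋ * Q w' ⌊y⌋ - m * m)) := Bd.sum fun w _ => hB2 w
    have hB4 : ∀ w, Bd (1 + |m|) (fun y => Q w ⌊y⌋ - m) := fun w => (hQB w).sub (Bd.const _)
    have hB5 : Bd (∑ w ∈ range (l * N), (1 + |m|)) (fun y => ∑ w ∈ range (l * N), (Q w ⌊y⌋ - m)) := Bd.sum fun w _ => hB4 w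
    have e1 : (fun y : ℝ => ((∑ w ∈ range (l * N), Q w ⌊y⌋) / LN - m) ^ 2)
        = fun y => 1 / LN ^ 2 * ∑ w ∈ range (l * N), ∑ w' ∈ range (l * N), (Q w ⌊y⌋ * Q w' ⌊y⌋ - m * m)
          - 2 * m / LN * ∑ w ∈ range (l * N), (Q w ⌊y⌋ - m) := by
      funext y
      have e2 : ∑ w ∈ range (l * N), ∑ w' ∈ range (l * N), (Q w ⌊y⌋ * Q w' ⌊y⌋ - m * m)
          = (∑ w ∈ range (l * N), Q w ⌊y⌋) * (∑ w ∈ range (l * N), Q w ⌊y⌋) - LN * (LN * (m * m)) := by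
        rw [sum_mul_sum]
        simp only [sum_sub_distrib, sum_const, card_range, nsmul_eq_mul, ← hLN]
      have e3 : ∑ w ∈ range (l * N), (Q w ⌊y⌋ - m) = ∑ w ∈ range (l * N), Q w ⌊y⌋ - LN * m := by
        rw [sum_sub_distrib, sum_const, card_range, nsmul_eq_mul, ← hLN]
      rw [e2, e3]
      field_simp
      ring
    rw [e1, av_sub W (hB3.cmul _) (hB5.cmul _), av_cmul, av_cmul, av_sum W (fun w _ => hB2 w), av_sum W (fun w _ => hB4 w)]
    congr 2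
    · apply sum_congr rfl; intro w _
      rw [av_sum W (fun w' _ => hB1 w w')]
      apply sum_congr rfl; intro w' _
      rw [av_sub W (hQB2 w w') (Bd.const _), av_const hW0]
    · apply sum_congr rfl; intro w _
      rw [av_sub W (hQB w) (Bd.const _), av_const hW0]
  have hbound : av W (fun y => ((∑ w ∈ range (l * N), Q w ⌊y⌋) / LN - m) ^ 2) ≤ R2 + 2 * R1 := by
    rw [hmain]
    have h1 : 1 / LN ^ 2 * ∑ w ∈ range (l * N), ∑ w' ∈ range (l * N), (av W (fun y => Q w ⌊y⌋ * Q w' ⌊y⌋) - m * m) ≤ R2 := by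
      have h2 : ∑ w ∈ range (l * N), ∑ w' ∈ range (l * N), (av W (fun y => Q w ⌊y⌋ * Q w' ⌊y⌋) - m * m) ≤ LN * (LN * R2) := by
        have h3 : ∀ w ∈ range (l * N), ∑ w' ∈ range (l * N), (av W (fun y => Q w ⌊y⌋ * Q w' ⌊y⌋) - m * m) ≤ LN * R2 :=
          fun w _ => (sum_le_sum fun w' _ => le_abs_self _).trans (hsum2 w)
        refine (sum_le_sum h3).trans (le_of_eq ?_)
        rw [sum_const, card_range, nsmul_eq_mul, ← hLN]
      have h4 : 0 ≤ 1 / LN ^ 2 := by positivity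
      have h5 := mul_le_mul_of_nonneg_left h2 h4
      have e1 : 1 / LN ^ 2 * (LN * (LN * R2)) = R2 := by field_simp
      rw [e1] at h5
      exact h5
    have h2 : |2 * m / LN * ∑ w ∈ range (l * N), (av W (fun y => Q w ⌊y⌋) - m)| ≤ 2 * R1 := by
      rw [abs_mul, abs_div, abs_mul, abs_of_pos hLN0, abs_of_pos (show (0 : ℝ) < 2 by norm_num)]
      have h3 : |∑ w ∈ range (l * N), (av W (fun y => Q w ⌊y⌋) - m)| ≤ LN * R1 := by
        refine (abs_sum_le_sum_abs _ _).trans ?_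
        refine (sum_le_sum fun w _ => hone w).trans (le_of_eq ?_)
        rw [sum_const, card_range, nsmul_eq_mul, ← hLN, hR1]
      have hR10 : 0 ≤ LN * R1 := (abs_nonneg _).trans h3
      have h4 : 2 * |m| / LN ≤ 2 / LN := by
        apply div_le_div_of_nonneg_right _ hLN0.le
        linarith
      calc 2 * |m| / LN * |∑ w ∈ range (l * N), (av W (fun y => Q w ⌊y⌋) - m)| ≤ 2 / LN * (LN * R1) :=
            mul_le_mul h4 h3 (abs_nonneg _) (by positivity)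
        _ = 2 * R1 := by field_simp
    have h3 := (abs_le.1 h2).1
    linarith
  -- the statement
  have hstat : av W (fun y => ((∑ w ∈ range (l * N), ∏ a, ((g : ℝ) * psi (d a) t g (c a) ((⌊y⌋ + hsh a + (w : ℕ)) / (e a : ℤ))))
        / (l * N) - ∏ a, ((g : ℝ) * pc 1 t g (c a))) ^ 2)
      = av W (fun y => ((∑ w ∈ range (l * N), Q w ⌊y⌋) / LN - m) ^ 2) := by
    have e1 : (l : ℝ) * N = LN := by rw [hLN]; push_cast; rfl
    have e2 : ∀ (a : Fin n) (z : ℤ) (w : ℕ), psi (d a) t g (c a) ((z + hsh a + (w : ℕ)) / (e a : ℤ))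
        = Pool.Agent.KS6_24.LN.W g ((c a : ℤ) - (od 1 t (o a (z + (w : ℕ))) : ℕ)) := by
      intro a z w
      unfold psi
      rw [od_sign (hd a), ho]
      simp only
      rw [show z + hsh a + (w : ℕ) = z + (w : ℕ) + hsh a by ring]
    rw [e1, ← hm, hQ]
    simp only [e2]
    rfl
  rw [hstat]
  refine hbound.trans ?_
  rw [← hS, hR2, hR1, hE4]
  have q1 : 0 ≤ (t : ℝ) / (g : ℝ) ^ 2 := by positivity
  obtain ⟨s2, hs2⟩ : ∃ s2, s2 = √ (Real.log t / Λ) := ⟨_, rfl⟩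
  obtain ⟨s3, hs3⟩ : ∃ s3, s3 = 1 / Real.log t ^ C := ⟨_, rfl⟩
  obtain ⟨s5, hs5⟩ : ∃ s5, s5 = (t : ℝ) * Λ / (g : ℝ) ^ 3 := ⟨_, rfl⟩
  obtain ⟨s6, hs6⟩ : ∃ s6, s6 = (Λ : ℝ) / (g : ℝ) ^ 2 := ⟨_, rfl⟩
  obtain ⟨s7, hs7⟩ : ∃ s7, s7 = (N : ℝ) * 2 ^ t / W := ⟨_, rfl⟩
  obtain ⟨T, hT⟩ : ∃ T, T = (t : ℝ) / (g : ℝ) ^ 2 := ⟨_, rfl⟩
  have q2 : 0 ≤ s2 := by rw [hs2]; exact Real.sqrt_nonneg _
  have q3 : 0 ≤ s3 := by rw [hs3]; positivity
  have q5 : 0 ≤ s5 := by rw [hs5]; positivity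
  have q6 : 0 ≤ s6 := by rw [hs6]; positivity
  have q7 : 0 ≤ s7 := by rw [hs7]; positivity
  rw [← hT] at q1
  have e1 : 1 / (g : ℝ) ^ 2 * (2 * (n ^ 2 * bal) + 4 * (n ^ 2 * K1))
      = T * (n ^ 2 * (2 * (DB * s2 + s3) + 4 * (Cw * S))) := by
    rw [hK1, hbal, hT, hs2, hs3]; ring
  have e2 : 1 / (g : ℝ) ^ 2 * (n ^ 2 * bal) = T * (n ^ 2 * (DB * s2 + s3)) := by
    rw [hbal, hT, hs2, hs3]; ring
  rw [e1, e2, ← hs2, ← hs3, ← hs5, ← hs6, ← hs7, ← hT]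
  have i1 : n ^ 2 * (2 * (DB * s2 + s3) + 4 * (Cw * S)) + 2 * (n ^ 2 * (DB * s2 + s3))
      ≤ (4 * (n : ℝ) ^ 2 * (Cw + DB + 3) + 3 * (Cb + 2 * Ca) + 6 + Cw) * (S + s2 + s3) := by
    have h1 : (4 * (DB * s2 + s3) + 4 * (Cw * S)) ≤ 4 * (Cw + DB + 3) * (S + s2 + s3) := by
      have : 4 * (Cw + DB + 3) * (S + s2 + s3) - (4 * (DB * s2 + s3) + 4 * (Cw * S))
          = 4 * ((DB + 3) * S + (Cw + 3) * s2 + (Cw + DB + 2) * s3) := by ring
      have h2 : 0 ≤ 4 * ((DB + 3) * S + (Cw + 3) * s2 + (Cw + DB + 2) * s3) := by positivity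
      linarith
    have h2 := mul_le_mul_of_nonneg_left h1 hn0
    have h3 : 0 ≤ (3 * (Cb + 2 * Ca) + 6 + Cw) * (S + s2 + s3) := by positivity
    linarith
  have i2 := mul_le_mul_of_nonneg_left i1 q1
  have i3 : Cb * (3 * s5 + s6) + 2 * (Ca * (3 * s5 + s6))
      ≤ (4 * (n : ℝ) ^ 2 * (Cw + DB + 3) + 3 * (Cb + 2 * Ca) + 6 + Cw) * (s5 + s6) := by
    have : (4 * (n : ℝ) ^ 2 * (Cw + DB + 3) + 3 * (Cb + 2 * Ca) + 6 + Cw) * (s5 + s6)
        - (Cb * (3 * s5 + s6) + 2 * (Ca * (3 * s5 + s6)))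
        = (4 * (n : ℝ) ^ 2 * (Cw + DB + 3) + 6 + Cw) * (s5 + s6) + 2 * (Cb + 2 * Ca) * s6 := by ring
    have h2 : 0 ≤ (4 * (n : ℝ) ^ 2 * (Cw + DB + 3) + 6 + Cw) * (s5 + s6) + 2 * (Cb + 2 * Ca) * s6 := by positivity
    linarith
  have i4 : 2 * s7 + 2 * (2 * s7) ≤ (4 * (n : ℝ) ^ 2 * (Cw + DB + 3) + 3 * (Cb + 2 * Ca) + 6 + Cw) * s7 := by
    have h1 : 0 ≤ (4 * (n : ℝ) ^ 2 * (Cw + DB + 3) + 3 * (Cb + 2 * Ca) + Cw) * s7 := by positivity
    linarith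
  linarith

end Pool.Agent.KS6_24.ST
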