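import Mathlib
import Pool.Agent.KS6_24.ST.SHDefs
import Pool.Agent.KS6_24.ST.FM5

/-! SH3: `S_CORS` (the induction on the height for functions at multiples with large shifts; after FM5a, FG5). -/

set_option autoImplicit false

namespace Pool.Agent.KS6_24.ST

open Pool.Agent.H499R2.CO Pool.Agent.Y965.SI Finset Pool.Agent.KS6_24.LN

variable {t g B n : ℕ} {F : Fin (n + 1) → ℤ → ℝ} {A : Fin (n + 1) → ℕ} {ρ : Fin (n + 1) → ℝ}

/-- averages with a shift -/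
theorem av_shift {G : ℝ → ℝ} {M : ℝ} (hG : Bd M G) (hG0 : ∀ y, 0 ≤ G y) {V σ H : ℝ} (hV : 0 < V) (hσ0 : 0 ≤ σ)
    (hσ : σ ≤ H * V) : av V (fun y => G (y + σ)) ≤ (1 + H) * av (V + σ) G := by
  have hV'0 : 0 < V + σ := by linarith
  have e1 : ∫ y in V..2 * V, G (y + σ) = ∫ y in (V + σ)..(2 * V + σ), G y :=
    intervalIntegral.integral_comp_add_right (fun y => G y) σ
  have hint : ∀ a b : ℝ, IntervalIntegrable G MeasureTheory.volume a b := fun a b => hG.ii a b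
  have h2 : ∫ y in (V + σ)..(2 * V + σ), G y ≤ ∫ y in (V + σ)..(2 * (V + σ)), G y := by
    rw [← intervalIntegral.integral_add_adjacent_intervals (hint (V + σ) (2 * V + σ)) (hint (2 * V + σ) (2 * (V + σ)))]
    have : 0 ≤ ∫ y in (2 * V + σ)..(2 * (V + σ)), G y :=
      intervalIntegral.integral_nonneg (by linarith) fun y _ => hG0 y
    linarith
  have e0 : 0 ≤ av (V + σ) G := div_nonneg (intervalIntegral.integral_nonneg (by linarith) fun y _ => hG0 y) hV'0.le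
  have h1 : av (V + σ) G * (V + σ) = ∫ y in (V + σ)..(2 * (V + σ)), G y := by
    unfold av; field_simp
  have h3 : av V (fun y => G (y + σ)) * V = ∫ y in (V + σ)..(2 * V + σ), G y := by
    unfold av; rw [e1]; field_simp
  have h4 : av V (fun y => G (y + σ)) * V ≤ (1 + H) * av (V + σ) G * V := by
    rw [h3]
    refine h2.trans ?_
    rw [← h1]
    have := mul_le_mul_of_nonneg_left hσ e0
    nlinarith
  exact le_of_mul_le_mul_right h4 hV

/-! ### blocks -/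

/-- block average over the level of the function `0` -/
noncomputable def blS (F : Fin (n + 1) → ℤ → ℝ) (A : Fin (n + 1) → ℕ) (ρ : Fin (n + 1) → ℝ) (K : ℕ) (V : ℝ)
    (j : Fin (n + 1) → ℤ) : ℝ :=
  (∑ x ∈ range K, cs F A ρ V (fun a => j a + if a = 0 then ((x : ℕ) : ℤ) else 0)) / K

theorem csB {n : ℕ} {F : Fin n → ℤ → ℝ} (hF : ∀ a x, |F a x| ≤ 1) (A : Fin n → ℕ) (ρ : Fin n → ℝ) (i : Fin n → ℤ) :
    Bd 1 (fun y => ∏ a, F a ⌊(A a : ℝ) * ((3 : ℝ) ^ i a * (y + ρ a))⌋) :=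
  Bd.fprod univ fun a _ => Bd.flc (F := F a) (hF a) (g := fun y : ℝ => (A a : ℝ) * ((3 : ℝ) ^ i a * (y + ρ a))) (by fun_prop)

theorem cs_abs {n : ℕ} {F : Fin n → ℤ → ℝ} (hF : ∀ a x, |F a x| ≤ 1) (A : Fin n → ℕ) (ρ : Fin n → ℝ) {V : ℝ} (hV : 0 < V)
    (i : Fin n → ℤ) : |cs F A ρ V i| ≤ 1 := av_abs hV (csB hF A ρ i)

theorem cs_shift {n : ℕ} (F : Fin n → ℤ → ℝ) (A : Fin n → ℕ) (ρ : Fin n → ℝ) {V : ℝ} (hV : 0 < V) (i : Fin n → ℤ) (s : ℕ) :
    cs F A ρ V (fun a => i a + s) = cs F A (fun a => 3 ^ s * ρ a) (3 ^ s * V) i := by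
  unfold cs
  rw [← av_scale hV (show (0 : ℝ) < 3 ^ s by positivity) (fun y => ∏ a, F a ⌊(A a : ℝ) * ((3 : ℝ) ^ i a * (y + 3 ^ s * ρ a))⌋)]
  congr 1
  funext y
  apply prod_congr rfl
  intro a _
  rw [zpow_add₀ (by norm_num), zpow_natCast, mul_assoc ((3 : ℝ) ^ i a), mul_add ((3 : ℝ) ^ s)]

theorem blS_abs (hF : ∀ a x, |F a x| ≤ 1) {K : ℕ} (hK : 1 ≤ K) {V : ℝ} (hV : 0 < V) (j : Fin (n + 1) → ℤ) :
    |blS F A ρ K V j| ≤ 1 := by
  unfold blS
  have hK' : (0 : ℝ) < K := by exact_mod_cast hK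
  rw [abs_div, abs_of_pos hK', div_le_one hK']
  refine (abs_sum_le_sum_abs _ _).trans ?_
  calc _ ≤ ∑ x ∈ range K, (1 : ℝ) := sum_le_sum fun x _ => cs_abs hF A ρ hV _
    _ = K := by simp

theorem blS_shift {K : ℕ} {V : ℝ} (hV : 0 < V) (j : Fin (n + 1) → ℤ) (s : ℕ) :
    blS F A ρ K V (fun a => j a + s) = blS F A (fun a => 3 ^ s * ρ a) K (3 ^ s * V) j := by
  unfold blS
  congr 1
  apply sum_congr rfl
  intro x _
  rw [← cs_shift F A ρ hV]
  congr 1
  funext a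
  ring

/-- blocks are controlled by the energy of `F 0` -/
theorem blS_end (hF : ∀ a x, |F a x| ≤ 1) (hA : 1 ≤ A 0) {K : ℕ} (hK : 1 ≤ K) {V : ℝ} (hV : 0 < V) (j : Fin (n + 1) → ℕ) :
    |blS F A ρ K V (fun a => j a)| ≤ av ((A 0 * 3 ^ j 0 : ℕ) * V)
      (fun y => |(∑ x ∈ range K, F 0 ⌊3 ^ x * (y + (A 0 * 3 ^ j 0 : ℕ) * ρ 0)⌋) / K|) := by
  have hK' : (0 : ℝ) < K := by exact_mod_cast hK
  have hAr : (0 : ℝ) < (A 0 * 3 ^ j 0 : ℕ) := by
    have : 0 < A 0 * 3 ^ j 0 := Nat.mul_pos hA (by positivity)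
    exact_mod_cast this
  have b1 : ∀ x : ℕ, Bd 1 (fun y : ℝ => F 0 ⌊3 ^ x * y⌋) := fun x =>
    Bd.flc (F := F 0) (hF 0) (g := fun y : ℝ => (3 : ℝ) ^ x * y) (by fun_prop)
  have b2 : Bd (|1 / (K : ℝ)| * ∑ x ∈ range K, (1 : ℝ)) (fun y : ℝ => (1 / (K : ℝ)) * ∑ x ∈ range K, F 0 ⌊3 ^ x * y⌋) :=
    (Bd.sum fun x _ => b1 x).cmul _
  have b3 : Bd (|1 / (K : ℝ)| * ∑ x ∈ range K, (1 : ℝ))
      (fun y : ℝ => (1 / (K : ℝ)) * ∑ x ∈ range K, F 0 ⌊3 ^ x * ((A 0 * 3 ^ j 0 : ℕ) * y + (A 0 * 3 ^ j 0 : ℕ) * ρ 0)⌋) :=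
    b2.comp (g := fun y : ℝ => ((A 0 * 3 ^ j 0 : ℕ) : ℝ) * y + (A 0 * 3 ^ j 0 : ℕ) * ρ 0) (by fun_prop)
  have b4 : Bd 1 (fun y : ℝ => ∏ a : Fin n, F a.succ ⌊(A a.succ : ℝ) * ((3 : ℝ) ^ j a.succ * (y + ρ a.succ))⌋) :=
    Bd.fprod univ fun a _ => Bd.flc (F := F a.succ) (hF a.succ)
      (g := fun y : ℝ => (A a.succ : ℝ) * ((3 : ℝ) ^ j a.succ * (y + ρ a.succ))) (by fun_prop)
  have e : blS F A ρ K V (fun a => j a) = av V (fun y => (∏ a : Fin n, F a.succ ⌊(A a.succ : ℝ) * ((3 : ℝ) ^ j a.succ * (y + ρ a.succ))⌋) *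
      ((1 / (K : ℝ)) * ∑ x ∈ range K, F 0 ⌊3 ^ x * ((A 0 * 3 ^ j 0 : ℕ) * y + (A 0 * 3 ^ j 0 : ℕ) * ρ 0)⌋)) := by
    unfold blS cs
    have h1 : ∀ x ∈ range K, Bd 1 (fun y : ℝ => ∏ a, F a ⌊(A a : ℝ) * ((3 : ℝ) ^ ((j a : ℤ) + if a = 0 then ((x : ℕ) : ℤ) else 0) * (y + ρ a))⌋) :=
      fun x _ => csB hF A ρ _
    rw [← av_sum V h1, div_eq_mul_one_div, mul_comm, ← av_cmul]
    congr 1
    funext y
    rw [mul_left_comm, mul_sum (a := ∏ a : Fin n, F a.succ ⌊(A a.succ : ℝ) * ((3 : ℝ) ^ j a.succ * (y + ρ a.succ))⌋)]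
    congr 1
    apply sum_congr rfl; intro x _
    rw [Fin.prod_univ_succ]
    have e5 : (A 0 : ℝ) * ((3 : ℝ) ^ (((j 0 : ℕ) : ℤ) + if (0 : Fin (n + 1)) = 0 then ((x : ℕ) : ℤ) else 0) * (y + ρ 0))
        = 3 ^ x * ((A 0 * 3 ^ j 0 : ℕ) * y + (A 0 * 3 ^ j 0 : ℕ) * ρ 0) := by
      rw [if_pos rfl, show (((j 0 : ℕ) : ℤ) + ((x : ℕ) : ℤ)) = ((j 0 + x : ℕ) : ℤ) by push_cast; ring, zpow_natCast, pow_add]
      push_cast
      ring
    rw [e5, mul_comm]
    congr 1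
  rw [e]
  have hb := b4.mul b3
  refine (abs_av_le hV hb).trans ?_
  have h2 := av_scale hV hAr (fun y => |(∑ x ∈ range K, F 0 ⌊3 ^ x * (y + (A 0 * 3 ^ j 0 : ℕ) * ρ 0)⌋) / K|)
  rw [← h2]
  have e6 : (fun y : ℝ => |(∑ x ∈ range K, F 0 ⌊3 ^ x * ((A 0 * 3 ^ j 0 : ℕ) * y + (A 0 * 3 ^ j 0 : ℕ) * ρ 0)⌋) / K|)
      = fun y : ℝ => |(1 / (K : ℝ)) * ∑ x ∈ range K, F 0 ⌊3 ^ x * ((A 0 * 3 ^ j 0 : ℕ) * y + (A 0 * 3 ^ j 0 : ℕ) * ρ 0)⌋| := by
    funext y; congr 1; ring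
  rw [e6]
  apply av_mono hV hb.abs b3.abs
  intro y _ _
  rw [abs_mul]
  exact mul_le_of_le_one_left (abs_nonneg _) (b4.2 y)

/-- the body of `S_STAGES` for one `F` -/
def StgS {n : ℕ} (F : Fin n → ℤ → ℝ) (A : Fin n → ℕ) (D : ℝ) (m0 : ℕ) (H : ℝ) : Prop := ∀ m L : ℕ, m0 ≤ m →
  Nat.log 2 m ≤ L → L ≤ 3 * Nat.log 2 m → ∀ V : ℝ, 2 ^ m ≤ V → ∀ ρ : Fin n → ℝ, (∀ a, 0 ≤ ρ a) → (∀ a, ρ a ≤ H * V) →
  ∀ i : Fin n → ℕ, (∀ a, (i a : ℝ) ≤ (m : ℝ) ^ (0.9995 : ℝ)) →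
    |cs F A ρ V (fun a => i a) - ∑ c ∈ Fintype.piFinset (fun _ : Fin n => Cs (st m L) (sgw m L) (sB m L)),
        (∏ a, pc 1 (st m L) (sgw m L) (c a)) * cs F A (fun a => ρ a / 2 ^ (st m L)) (V / 2 ^ (st m L)) (fun a => (i a : ℤ) + c a)|
      ≤ D / (L : ℝ) ^ 4

theorem blS_stage {D H : ℝ} {m0 : ℕ} (hS : StgS F A D m0 H) {m L K : ℕ} (hm : m0 ≤ m) (hL1 : Nat.log 2 m ≤ L)
    (hL2 : L ≤ 3 * Nat.log 2 m) {V : ℝ} (hV : 2 ^ m ≤ V) (hρ0 : ∀ a, 0 ≤ ρ a) (hρ : ∀ a, ρ a ≤ H * V)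
    (hK : 1 ≤ K) (j : Fin (n + 1) → ℕ) (hj : AdmL n K m j) :
    |blS F A ρ K V (fun a => j a) - ∑ c ∈ Fintype.piFinset (fun _ : Fin (n + 1) => Cs (st m L) (sgw m L) (sB m L)),
        (∏ a, pc 1 (st m L) (sgw m L) (c a)) * blS F A (fun a => ρ a / 2 ^ (st m L)) K (V / 2 ^ (st m L)) (fun a => (j a : ℤ) + c a)|
      ≤ D / (L : ℝ) ^ 4 := by
  have hK' : (0 : ℝ) < K := by exact_mod_cast hK
  set E : ℕ → ℝ := fun x => cs F A ρ V (fun a => (j a : ℤ) + if a = 0 then ((x : ℕ) : ℤ) else 0)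
    - ∑ c ∈ Fintype.piFinset (fun _ : Fin (n + 1) => Cs (st m L) (sgw m L) (sB m L)),
      (∏ a, pc 1 (st m L) (sgw m L) (c a)) *
        cs F A (fun a => ρ a / 2 ^ (st m L)) (V / 2 ^ (st m L)) (fun a => ((j a : ℤ) + c a) + if a = 0 then ((x : ℕ) : ℤ) else 0) with hE
  have h1 : ∀ x ∈ range K, |E x| ≤ D / (L : ℝ) ^ 4 := by
    intro x hx
    rw [mem_range] at hx
    have a1 := hj x hx
    have hcast : ∀ a : Fin (n + 1), ((j a + (if a = 0 then x else 0) : ℕ) : ℝ) = (j a : ℝ) + (if a = 0 then ((x : ℕ) : ℝ) else 0) := by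
      intro a; split_ifs <;> push_cast <;> ring
    have h2 := hS m L hm hL1 hL2 V hV ρ hρ0 hρ (fun a => j a + (if a = 0 then x else 0)) (fun a => by rw [hcast]; exact a1 a)
    rw [hE]
    simp only
    have e1 : (fun a : Fin (n + 1) => ((j a : ℤ) + if a = 0 then ((x : ℕ) : ℤ) else 0))
        = fun a => ((j a + (if a = 0 then x else 0) : ℕ) : ℤ) := by
      funext a; split_ifs <;> push_cast <;> ring
    have e2 : ∀ c : Fin (n + 1) → ℕ, (fun a : Fin (n + 1) => ((j a : ℤ) + c a) + if a = 0 then ((x : ℕ) : ℤ) else 0)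
        = fun a => ((j a + (if a = 0 then x else 0) : ℕ) : ℤ) + c a := by
      intro c; funext a; split_ifs <;> push_cast <;> ring
    rw [e1]
    simp only [e2]
    exact h2
  have h2 : blS F A ρ K V (fun a => j a) - ∑ c ∈ Fintype.piFinset (fun _ : Fin (n + 1) => Cs (st m L) (sgw m L) (sB m L)),
        (∏ a, pc 1 (st m L) (sgw m L) (c a)) * blS F A (fun a => ρ a / 2 ^ (st m L)) K (V / 2 ^ (st m L)) (fun a => (j a : ℤ) + c a)
      = (∑ x ∈ range K, E x) / K := by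
    rw [hE, sum_sub_distrib, sub_div]
    unfold blS
    congr 1
    symm
    rw [sum_comm, sum_div]
    apply sum_congr rfl; intro c _
    rw [← mul_sum]
    ring
  rw [h2, abs_div, abs_of_pos hK', div_le_iff₀ hK']
  refine (abs_sum_le_sum_abs _ _).trans ?_
  calc ∑ x ∈ range K, |E x| ≤ ∑ x ∈ range K, D / (L : ℝ) ^ 4 := sum_le_sum h1
    _ = D / (L : ℝ) ^ 4 * K := by rw [sum_const, card_range, nsmul_eq_mul, mul_comm]

/-- THE INDUCTION -/
theorem coreS (hF : ∀ a x, |F a x| ≤ 1) (hA : 1 ≤ A 0) {D H : ℝ} (hD : 0 < D) {m0 : ℕ} (hS : StgS F A D m0 H)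
    {m L h K : ℕ} {G γ : ℝ} {δ : Fin (n + 1) → ℝ} (hδ : δ 0 = 0) (hK : 1 ≤ K) (hh : m0 ≤ h) (hh0 : 1 ≤ h)
    (hLL : ∀ m' : ℕ, h ≤ m' → m' ≤ m → Nat.log 2 m' ≤ L ∧ L ≤ 3 * Nat.log 2 m') (hL : 2 ≤ L)
    (hh1 : 256 * (L ^ 3 + 1) ^ 2 ≤ h / L ^ 2) (hh2 : L ^ 10 ≤ h / L ^ 2) (hG : 0 < G)
    (hγ : 0 ≤ γ)
    (hgood : ∀ m' : ℕ, h ≤ m' → m' ≤ m → ∀ j : Fin (n + 1) → ℕ, (∃ a, j a = 0) →
      (∀ a, |((j a : ℝ) - j 0) - δ a| ≤ G / 4) → AdmL n K m' j)
    (hend : ∀ V : ℝ, 2 ^ h ≤ V → V < 2 ^ (2 * h) → ∀ j : Fin (n + 1) → ℕ, (∃ a, j a = 0) →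
      (∀ a, |((j a : ℝ) - j 0) - δ a| ≤ G / 4) →
      ∀ σ : ℝ, 0 ≤ σ → σ ≤ H * ((A 0 * 3 ^ j 0 : ℕ) * V) →
      av ((A 0 * 3 ^ j 0 : ℕ) * V) (fun y => |(∑ x ∈ range K, F 0 ⌊3 ^ x * (y + σ)⌋) / K|) ≤ γ) :
    ∀ m' : ℕ, h ≤ m' → m' ≤ m → ∀ V : ℝ, 2 ^ m' ≤ V → V < 2 ^ (m' + 1) → ∀ ρ : Fin (n + 1) → ℝ, (∀ a, 0 ≤ ρ a) →
      (∀ a, ρ a ≤ H * V) → ∀ j : Fin (n + 1) → ℕ, (∃ a, j a = 0) →
      |blS F A ρ K V (fun a => j a)| ≤ 16 / G ^ 2 * ∑ a, (((j a : ℝ) - j 0) - δ a) ^ 2 + 528 * (n + 1) * m' / G ^ 2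
        + 12 * D / (L : ℝ) ^ 2 * (Real.log m' - Real.log h) + γ := by
  have hLr : (0 : ℝ) < L := by exact_mod_cast (show 0 < L by omega)
  have hG2 : 0 < G ^ 2 := by positivity
  have hhr : (0 : ℝ) < h := by exact_mod_cast hh0
  intro m'
  induction m' using Nat.strong_induction_on with
  | _ m' ih =>
    intro hm1 hm2 V hV1 hV2 ρ hρ0 hρ j hj0
    have hV0 : (0 : ℝ) < V := lt_of_lt_of_le (by positivity) hV1
    have hm'r : (0 : ℝ) < m' := lt_of_lt_of_le hhr (by exact_mod_cast hm1)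
    have hlog : 0 ≤ Real.log m' - Real.log h := by
      have := Real.log_le_log hhr (show (h : ℝ) ≤ m' by exact_mod_cast hm1)
      linarith
    have hlog2 : 0 ≤ 12 * D / (L : ℝ) ^ 2 * (Real.log m' - Real.log h) := mul_nonneg (by positivity) hlog
    have hm'0 : 0 ≤ 528 * (n + 1) * (m' : ℝ) / G ^ 2 := by positivity
    have hsq : 0 ≤ 16 / G ^ 2 * ∑ a, (((j a : ℝ) - j 0) - δ a) ^ 2 :=
      mul_nonneg (by positivity) (sum_nonneg fun _ _ => sq_nonneg _)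
    by_cases hj : ∀ a, |((j a : ℝ) - j 0) - δ a| ≤ G / 4
    · by_cases hm3 : m' < 2 * h
      · -- end
        have h1 := blS_end (ρ := ρ) hF hA hK hV0 j
        have hAr : (0 : ℝ) ≤ (A 0 * 3 ^ j 0 : ℕ) := Nat.cast_nonneg _
        have h2 := hend V (le_trans (pow_le_pow_right₀ (by norm_num) hm1) hV1)
          (lt_of_lt_of_le hV2 (pow_le_pow_right₀ (by norm_num) (by omega))) j hj0 hj
          ((A 0 * 3 ^ j 0 : ℕ) * ρ 0) (mul_nonneg hAr (hρ0 0)) (by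
            have := mul_le_mul_of_nonneg_left (hρ 0) hAr
            linarith)
        linarith
      · -- stage
        push Not at hm3
        obtain ⟨hl1, hl2⟩ := hLL m' hm1 hm2
        obtain ⟨hg1, ht1, ht2, hg2, hcs, hmt⟩ := stage_sizes hL hh1 hh2 hm1
        have hst := blS_stage hS (hh.trans hm1) hl1 hl2 hV1 hρ0 hρ hK j (hgood m' hm1 hm2 j hj0 hj)
        set t := st m' L with ht
        set g := sgw m' L with hg
        set B := sB m' L with hB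
        set s := t / 10 with hs
        set X := 528 * (n + 1) * ((m' : ℝ) - s) / G ^ 2 + 12 * D / (L : ℝ) ^ 2 * (Real.log m' - s / m' - Real.log h) + γ with hX
        -- bound for each term
        have hterm : ∀ c ∈ Fintype.piFinset (fun _ : Fin (n + 1) => Cs t g B),
            |blS F A (fun a => ρ a / 2 ^ t) K (V / 2 ^ t) (fun a => (j a : ℤ) + c a)|
            ≤ 16 / G ^ 2 * ∑ a, ((((j a : ℝ) - j 0) - δ a) + c a - c 0) ^ 2 + X := by
          intro c hc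
          rw [Fintype.mem_piFinset] at hc
          obtain ⟨a0, ha0⟩ := hj0
          obtain ⟨a1, _, ha1⟩ := exists_mem_eq_inf' (s := (univ : Finset (Fin (n + 1)))) univ_nonempty (fun a => j a + c a)
          obtain ⟨σ, hσ⟩ : ∃ σ, σ = (univ : Finset (Fin (n + 1))).inf' univ_nonempty (fun a => j a + c a) := ⟨_, rfl⟩
          rw [← hσ] at ha1
          have hσle : ∀ a, σ ≤ j a + c a := fun a => by rw [hσ]; exact inf'_le _ (mem_univ a)
          have hσc : σ ≤ c a0 := by have := hσle a0; omega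
          have h8 : 8 * σ ≤ 5 * (t - s) := (Nat.mul_le_mul_left 8 hσc).trans (hcs _ (hc a0))
          obtain ⟨n', hn1, hn2, hn3, hn4⟩ := height_drop (s := s) hV1 hV2 (by omega) (by omega) h8
          have h1 := ih n' (by omega) (by omega) (by omega) _ hn1 hn2 (fun a => 3 ^ σ * (ρ a / 2 ^ t))
            (fun a => mul_nonneg (by positivity) (div_nonneg (hρ0 a) (by positivity)))
            (fun a => by
              have := mul_le_mul_of_nonneg_left (hρ a) (show (0 : ℝ) ≤ 3 ^ σ / 2 ^ t by positivity)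
              calc (3 : ℝ) ^ σ * (ρ a / 2 ^ t) = 3 ^ σ / 2 ^ t * ρ a := by ring
                _ ≤ 3 ^ σ / 2 ^ t * (H * V) := this
                _ = H * (3 ^ σ / 2 ^ t * V) := by ring)
            (fun a => j a + c a - σ) ⟨a1, by omega⟩
          have e0 : blS F A (fun a => ρ a / 2 ^ t) K (V / 2 ^ t) (fun a => (j a : ℤ) + c a)
              = blS F A (fun a => 3 ^ σ * (ρ a / 2 ^ t)) K (3 ^ σ / 2 ^ t * V) (fun a => ((j a + c a - σ : ℕ) : ℤ)) := by
            have e01 : (3 : ℝ) ^ σ / 2 ^ t * V = 3 ^ σ * (V / 2 ^ t) := by ring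
            rw [e01, ← blS_shift (ρ := fun a => ρ a / 2 ^ t) (by positivity)]
            congr 1
            funext a
            have := hσle a
            push_cast [Nat.cast_sub this]
            ring
          rw [e0]
          refine h1.trans ?_
          have hcast : ∀ a, ((j a + c a - σ : ℕ) : ℝ) = (j a : ℝ) + c a - σ := fun a => by
            rw [Nat.cast_sub (hσle a)]; push_cast; ring
          have hn4' : (n' : ℝ) ≤ m' - s := by
            have : (n' : ℝ) + s ≤ m' := by exact_mod_cast hn4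
            linarith
          have hn'0 : (0 : ℝ) < n' := by exact_mod_cast (show 0 < n' by omega)
          have e1 : ∑ a, ((((j a + c a - σ : ℕ) : ℝ) - ((j 0 + c 0 - σ : ℕ) : ℝ)) - δ a) ^ 2
              = ∑ a, ((((j a : ℝ) - j 0) - δ a) + c a - c 0) ^ 2 := by
            apply sum_congr rfl
            intro a _
            rw [hcast, hcast]; ring
          rw [e1]
          have e2 : 528 * (n + 1) * (n' : ℝ) / G ^ 2 ≤ 528 * (n + 1) * ((m' : ℝ) - s) / G ^ 2 :=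
            div_le_div_of_nonneg_right (mul_le_mul_of_nonneg_left hn4' (by positivity)) hG2.le
          have e3 : Real.log n' ≤ Real.log m' - s / m' := by
            have h5 := Real.log_le_sub_one_of_pos (show (0 : ℝ) < n' / m' by positivity)
            rw [Real.log_div hn'0.ne' hm'r.ne'] at h5
            have h6 : (n' : ℝ) / m' ≤ 1 - s / m' := by
              rw [div_le_iff₀ hm'r, sub_mul, div_mul_cancel₀ _ hm'r.ne']
              linarith
            linarith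
          have e4 : 12 * D / (L : ℝ) ^ 2 * (Real.log n' - Real.log h)
              ≤ 12 * D / (L : ℝ) ^ 2 * (Real.log m' - s / m' - Real.log h) :=
            mul_le_mul_of_nonneg_left (by linarith) (by positivity)
          rw [hX]
          linarith
        have hX0 : 0 ≤ X := by
          have h6 : (s : ℝ) ≤ m' := by exact_mod_cast (show s ≤ m' by omega)
          have h8 : 0 ≤ 528 * (n + 1) * ((m' : ℝ) - s) / G ^ 2 :=
            div_nonneg (mul_nonneg (by positivity) (by linarith)) hG2.le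
          have h9 : 0 ≤ Real.log m' - s / m' - Real.log h := by
            have h10 : Real.log 2 ≤ Real.log m' - Real.log h := by
              have h11 : (2 : ℝ) * h ≤ m' := by exact_mod_cast hm3
              have h12 := Real.log_le_log (by positivity) h11
              rw [Real.log_mul (by norm_num) hhr.ne'] at h12
              linarith
            have h13 : (s : ℝ) / m' ≤ 1 / 4 := by
              rw [div_le_div_iff₀ hm'r (by norm_num)]
              have : 4 * (s : ℝ) ≤ m' := by exact_mod_cast (show 4 * s ≤ m' by omega)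
              linarith
            have := Real.log_two_gt_d9
            linarith
          have h14 := mul_nonneg (show 0 ≤ 12 * D / (L : ℝ) ^ 2 by positivity) h9
          linarith
        have hsum : |∑ c ∈ Fintype.piFinset (fun _ : Fin (n + 1) => Cs t g B), (∏ a, pc 1 t g (c a)) *
            blS F A (fun a => ρ a / 2 ^ t) K (V / 2 ^ t) (fun a => (j a : ℤ) + c a)|
            ≤ 16 / G ^ 2 * (∑ a, (((j a : ℝ) - j 0) - δ a) ^ 2 + (n + 1) * (2 * t + 72 * (g : ℝ) ^ 2)) + X := by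
          have h1 : |∑ c ∈ Fintype.piFinset (fun _ : Fin (n + 1) => Cs t g B), (∏ a, pc 1 t g (c a)) *
              blS F A (fun a => ρ a / 2 ^ t) K (V / 2 ^ t) (fun a => (j a : ℤ) + c a)|
              ≤ ∑ c ∈ Fintype.piFinset (fun _ : Fin (n + 1) => Cs t g B), (∏ a, pc 1 t g (c a)) *
                (16 / G ^ 2 * ∑ a, ((((j a : ℝ) - j 0) - δ a) + c a - c 0) ^ 2 + X) := by
            refine (abs_sum_le_sum_abs _ _).trans (sum_le_sum fun c hc => ?_)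
            rw [abs_mul, abs_of_nonneg (pn_nonneg c)]
            exact mul_le_mul_of_nonneg_left (hterm c hc) (pn_nonneg c)
          refine h1.trans ?_
          have h2 : ∑ c ∈ Fintype.piFinset (fun _ : Fin (n + 1) => Cs t g B), (∏ a, pc 1 t g (c a)) *
                (16 / G ^ 2 * ∑ a, ((((j a : ℝ) - j 0) - δ a) + c a - c 0) ^ 2 + X)
              = 16 / G ^ 2 * (∑ a, ∑ c ∈ Fintype.piFinset (fun _ : Fin (n + 1) => Cs t g B), (∏ e, pc 1 t g (c e)) *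
                  ((((j a : ℝ) - j 0) - δ a) + c a - c 0) ^ 2)
                + X * (∑ c ∈ Fintype.piFinset (fun _ : Fin (n + 1) => Cs t g B), ∏ a, pc 1 t g (c a)) := by
            rw [sum_comm, mul_sum, mul_sum, ← sum_add_distrib]
            apply sum_congr rfl; intro c _
            rw [← mul_sum]
            ring
          rw [h2]
          have h3 : ∑ a, ∑ c ∈ Fintype.piFinset (fun _ : Fin (n + 1) => Cs t g B), (∏ e, pc 1 t g (c e)) *
                  ((((j a : ℝ) - j 0) - δ a) + c a - c 0) ^ 2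
              ≤ ∑ a : Fin (n + 1), ((((j a : ℝ) - j 0) - δ a) ^ 2 + (2 * t + 72 * (g : ℝ) ^ 2)) := by
            apply sum_le_sum
            intro a _
            apply pn_pot (d := 1) (t := t) (B := B) (by norm_num) hg1 a
            intro ha
            rw [ha, hδ]; ring
          have h3' : ∑ a : Fin (n + 1), ((((j a : ℝ) - j 0) - δ a) ^ 2 + (2 * t + 72 * (g : ℝ) ^ 2))
              = ∑ a, (((j a : ℝ) - j 0) - δ a) ^ 2 + (n + 1) * (2 * t + 72 * (g : ℝ) ^ 2) := by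
            rw [sum_add_distrib, sum_const, card_univ, Fintype.card_fin, nsmul_eq_mul]
            push_cast
            ring
          rw [h3'] at h3
          have h4 := mul_le_mul_of_nonneg_left (pn_one (d := 1) (t := t) (B := B) hg1 (n + 1)) hX0
          have h5 := mul_le_mul_of_nonneg_left h3 (show 0 ≤ 16 / G ^ 2 by positivity)
          linarith
        have h1 := abs_sub_abs_le_abs_sub (blS F A ρ K V (fun a => j a)) (∑ c ∈ Fintype.piFinset (fun _ : Fin (n + 1) => Cs t g B),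
          (∏ a, pc 1 t g (c a)) * blS F A (fun a => ρ a / 2 ^ t) K (V / 2 ^ t) (fun a => (j a : ℤ) + c a))
        have h2 : |blS F A ρ K V (fun a => j a)| ≤ D / (L : ℝ) ^ 4
            + (16 / G ^ 2 * (∑ a, (((j a : ℝ) - j 0) - δ a) ^ 2 + (n + 1) * (2 * t + 72 * (g : ℝ) ^ 2)) + X) := by
          linarith
        refine h2.trans ?_
        -- numeric
        have e1 : (72 : ℝ) * (g : ℝ) ^ 2 ≤ t := by exact_mod_cast hg2
        have e2 : (t : ℝ) ≤ 10 * s + 9 := by exact_mod_cast (show t ≤ 10 * s + 9 by omega)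
        have e3 : (100 : ℝ) ≤ s := by exact_mod_cast (show 100 ≤ s by omega)
        have e4 : 16 / G ^ 2 * ((n + 1) * (2 * t + 72 * (g : ℝ) ^ 2)) ≤ 528 * (n + 1) * s / G ^ 2 := by
          rw [div_mul_eq_mul_div]
          apply div_le_div_of_nonneg_right _ hG2.le
          have e41 : 2 * t + 72 * (g : ℝ) ^ 2 ≤ 33 * s := by linarith
          have := mul_le_mul_of_nonneg_left e41 (show (0 : ℝ) ≤ 16 * (n + 1) by positivity)
          linarith
        have e5 : D / (L : ℝ) ^ 4 ≤ 12 * D / (L : ℝ) ^ 2 * (s / m') := by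
          have h3 : 1 / (12 * (L : ℝ) ^ 2) ≤ s / m' := by
            rw [div_le_div_iff₀ (by positivity) hm'r]
            linarith
          have h4 := mul_le_mul_of_nonneg_left h3 (show 0 ≤ 12 * D / (L : ℝ) ^ 2 by positivity)
          refine le_trans (le_of_eq ?_) h4
          field_simp
        rw [hX]
        have e7 : 528 * (n + 1) * ((m' : ℝ) - s) / G ^ 2 = 528 * (n + 1) * m' / G ^ 2 - 528 * (n + 1) * s / G ^ 2 := by ring
        have e8 : 12 * D / (L : ℝ) ^ 2 * (Real.log m' - s / m' - Real.log h)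
            = 12 * D / (L : ℝ) ^ 2 * (Real.log m' - Real.log h) - 12 * D / (L : ℝ) ^ 2 * (s / m') := by ring
        have e9 : 16 / G ^ 2 * (∑ a, (((j a : ℝ) - j 0) - δ a) ^ 2 + (n + 1) * (2 * t + 72 * (g : ℝ) ^ 2))
            = 16 / G ^ 2 * ∑ a, (((j a : ℝ) - j 0) - δ a) ^ 2 + 16 / G ^ 2 * ((n + 1) * (2 * t + 72 * (g : ℝ) ^ 2)) := by ring
        rw [e7, e8, e9]
        linarith
    · -- bad level
      push Not at hj
      obtain ⟨a, ha⟩ := hj
      have h1 := blS_abs (A := A) (ρ := ρ) hF hK hV0 (fun a => (j a : ℤ))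
      have h2 : 1 ≤ 16 / G ^ 2 * ∑ a, (((j a : ℝ) - j 0) - δ a) ^ 2 := by
        have h3 : (G / 4) ^ 2 ≤ (((j a : ℝ) - j 0) - δ a) ^ 2 := by
          rw [← sq_abs (((j a : ℝ) - j 0) - δ a)]
          exact pow_le_pow_left₀ (by positivity) ha.le 2
        have h4 : (((j a : ℝ) - j 0) - δ a) ^ 2 ≤ ∑ a, (((j a : ℝ) - j 0) - δ a) ^ 2 :=
          single_le_sum (f := fun a => (((j a : ℝ) - j 0) - δ a) ^ 2) (fun _ _ => sq_nonneg _) (mem_univ a)
        have h5 : 1 = 16 / G ^ 2 * (G / 4) ^ 2 := by field_simp; norm_num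
        rw [h5]
        exact mul_le_mul_of_nonneg_left (h3.trans h4) (by positivity)
      linarith

end Pool.Agent.KS6_24.ST
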