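import Mathlib
import Pool.Agent.KS6_24.ST.SHDefs
import Pool.Agent.KS6_24.ST.FM6

/-! SH4: from averages over `[V, 2 V]` with large shifts to sums over `s < M`. -/

set_option autoImplicit false

namespace Pool.Agent.KS6_24.ST

open Pool.Agent.H499R2.CO Pool.Agent.Y965.SI Finset Filter Topology MeasureTheory Pool.Agent.KS6_24.LN

namespace SH4

/-- `2 ^ k A ⌊y⌋ + R` and `⌊A (y + R / (2 ^ k A))⌋`, uniformly in `0 ≤ R ≤ H V` -/
theorem form_unif {d : ℤ} (hd : d = 1 ∨ d = -1) {f : ℤ → ℝ} (hf : InvF d f) {A : ℕ} (hA : 1 ≤ A) (k : ℕ) {H : ℝ} (hH : 0 ≤ H)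
    {ε : ℝ} (hε : 0 < ε) : ∃ V0 : ℝ, 1 ≤ V0 ∧ ∀ V : ℝ, V0 ≤ V → ∀ R : ℤ, 0 ≤ R → (R : ℝ) ≤ H * V →
      av V (fun y => |f (2 ^ k * A * ⌊y⌋ + R) - f ⌊(A : ℝ) * (y + R / (2 ^ k * A))⌋|) ≤ ε := by
  have hA0 : (0 : ℝ) < A := by exact_mod_cast hA
  have hA1 : (1 : ℝ) ≤ A := by exact_mod_cast hA
  have h2k : (0 : ℝ) < 2 ^ k := by positivity
  have h2k1 : (1 : ℝ) ≤ 2 ^ k := one_le_pow₀ (by norm_num)
  obtain ⟨Q, hQ⟩ : ∃ Q : ℤ, Q = 2 ^ k * A := ⟨_, rfl⟩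
  have hQ1 : (2 : ℤ) ^ k ≤ Q := by
    rw [hQ]; exact le_mul_of_one_le_right (by positivity) (by exact_mod_cast hA)
  obtain ⟨G, hG⟩ : ∃ G : ℝ → ℝ, G = fun x : ℝ => ∑ s ∈ Finset.Icc (-Q) 0, |f ⌊x⌋ - f ⌊x + s⌋| := ⟨_, rfl⟩
  have hbs : ∀ s ∈ Finset.Icc (-Q) 0, Bd (1 + 1) (fun y : ℝ => |f ⌊y⌋ - f ⌊y + s⌋|) := fun s _ => FM6.bd_shift hf.1 (s : ℝ)
  have hbG : Bd (∑ s ∈ Finset.Icc (-Q) 0, ((1 : ℝ) + 1)) G := by rw [hG]; exact Bd.sum hbs
  have hG0 : ∀ y, 0 ≤ G y := fun y => by rw [hG]; exact sum_nonneg fun _ _ => abs_nonneg _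
  have h1 : Tendsto (fun V : ℝ => av V G) atTop (𝓝 0) := by
    have h2 := tendsto_finsetSum (Finset.Icc (-Q) 0) fun s (_ : s ∈ Finset.Icc (-Q) 0) => FM6.shift_small hd hf (s : ℝ)
    rw [sum_const_zero] at h2
    refine h2.congr fun V => ?_
    rw [hG, av_sum V hbs]
  obtain ⟨ε', hε'⟩ : ∃ ε' : ℝ, ε' = ε / (2 * (1 + H)) := ⟨_, rfl⟩
  have hε'0 : 0 < ε' := by rw [hε']; positivity
  obtain ⟨V1, hV1⟩ := eventually_atTop.1 (h1.eventually (gt_mem_nhds hε'0))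
  refine ⟨max V1 1, le_max_right _ _, fun V hV R hR0 hRH => ?_⟩
  have hV1V : V1 ≤ V := (le_max_left _ _).trans hV
  have hV1' : 1 ≤ V := (le_max_right _ _).trans hV
  have hV0 : 0 < V := by linarith
  obtain ⟨θ, hθ⟩ : ∃ θ : ℝ, θ = 2 ^ k * A := ⟨_, rfl⟩
  have hθ0 : 0 < θ := by rw [hθ]; positivity
  have hθ1 : 1 ≤ θ := by rw [hθ]; exact one_le_mul_of_one_le_of_one_le h2k1 hA1
  have hVθ : V ≤ θ * V := le_mul_of_one_le_left hV0.le hθ1
  have h3 : av (θ * V) (fun y => G (y + R)) ≤ (1 + H) * ε' :=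
    av_shift_le hbG hG0 (by positivity) (by exact_mod_cast hR0) (hRH.trans (mul_le_mul_of_nonneg_left hVθ hH))
      (fun V' hV' => (hV1 V' (hV1V.trans (hVθ.trans hV'))).le)
  rw [← av_scale hV0 hθ0 (fun y => G (y + R))] at h3
  have hb1 : Bd 1 (fun y : ℝ => f (2 ^ k * A * ⌊y⌋ + R)) := Bd.fl (F := fun x => f (2 ^ k * A * x + R)) fun x => hf.1 _
  have hb2 : Bd 1 (fun y : ℝ => f ⌊(A : ℝ) * (y + R / (2 ^ k * A))⌋) :=
    Bd.flc hf.1 (g := fun y => (A : ℝ) * (y + R / (2 ^ k * A))) (by fun_prop)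
  have hb3 : Bd (|(2 : ℝ)| * ∑ s ∈ Finset.Icc (-Q) 0, ((1 : ℝ) + 1)) (fun y : ℝ => 2 * G (θ * y + R)) :=
    (hbG.comp (g := fun y => θ * y + R) (by fun_prop)).cmul 2
  have h4 : av V (fun y => |f (2 ^ k * A * ⌊y⌋ + R) - f ⌊(A : ℝ) * (y + R / (2 ^ k * A))⌋|) ≤ av V (fun y => 2 * G (θ * y + R)) := by
    apply av_mono hV0 (hb1.sub hb2).abs hb3
    intro y _ _
    obtain ⟨z, hz⟩ : ∃ z : ℝ, z = (A : ℝ) * (y + R / (2 ^ k * A)) := ⟨_, rfl⟩
    obtain ⟨x, hx⟩ : ∃ x : ℝ, x = θ * y + R := ⟨_, rfl⟩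
    have hxz : x = 2 ^ k * z := by rw [hx, hz, hθ]; field_simp
    have hQr : (Q : ℝ) = θ := by rw [hQ, hθ]; push_cast; rfl
    -- the two integers near `x`
    obtain ⟨s1, hs1⟩ : ∃ s1 : ℤ, s1 = (2 ^ k * A * ⌊y⌋ + R) - ⌊x⌋ := ⟨_, rfl⟩
    obtain ⟨s2, hs2⟩ : ∃ s2 : ℤ, s2 = 2 ^ k * ⌊z⌋ - ⌊x⌋ := ⟨_, rfl⟩
    have m1 : s1 ∈ Finset.Icc (-Q) 0 := by
      have u1 : (2 ^ k * A * ⌊y⌋ + R : ℤ) ≤ ⌊x⌋ := by
        rw [Int.le_floor, hx, hθ]
        push_cast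
        have := mul_le_mul_of_nonneg_left (Int.floor_le y) (show (0 : ℝ) ≤ 2 ^ k * A by positivity)
        linarith
      have u2 : ⌊x⌋ < 2 ^ k * A * ⌊y⌋ + R + Q := by
        rw [Int.floor_lt, hx, hθ, hQ]
        push_cast
        have := mul_lt_mul_of_pos_left (Int.lt_floor_add_one y) (show (0 : ℝ) < 2 ^ k * A by positivity)
        linarith
      rw [Finset.mem_Icc]; constructor <;> omega
    have m2 : s2 ∈ Finset.Icc (-Q) 0 := by
      have u1 : 2 ^ k * ⌊z⌋ ≤ ⌊x⌋ := by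
        rw [Int.le_floor, hxz]
        push_cast
        exact mul_le_mul_of_nonneg_left (Int.floor_le z) h2k.le
      have u2 : ⌊x⌋ < 2 ^ k * ⌊z⌋ + 2 ^ k := by
        rw [Int.floor_lt, hxz]
        push_cast
        have := mul_lt_mul_of_pos_left (Int.lt_floor_add_one z) h2k
        linarith
      rw [Finset.mem_Icc]; constructor <;> omega
    have v1 : |f ⌊x⌋ - f (2 ^ k * A * ⌊y⌋ + R)| ≤ G x := by
      have e1 : f (2 ^ k * A * ⌊y⌋ + R) = f ⌊x + s1⌋ := by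
        rw [Int.floor_add_intCast, hs1]; congr 1; ring
      rw [e1, hG]
      exact single_le_sum (f := fun s : ℤ => |f ⌊x⌋ - f ⌊x + s⌋|) (fun s _ => abs_nonneg _) m1
    have v2 : |f ⌊x⌋ - f ⌊z⌋| ≤ G x := by
      have e0 : f ⌊z⌋ = f (2 ^ k * ⌊z⌋) := by
        have := hf.iter k (2 ^ k * ⌊z⌋)
        rw [FM6.Tz_two_pow] at this
        exact this
      have e1 : f (2 ^ k * ⌊z⌋) = f ⌊x + s2⌋ := by
        rw [Int.floor_add_intCast, hs2]; congr 1; ring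
      rw [e0, e1, hG]
      exact single_le_sum (f := fun s : ℤ => |f ⌊x⌋ - f ⌊x + s⌋|) (fun s _ => abs_nonneg _) m2
    rw [← hz, ← hx]
    have v3 := abs_sub_le (f (2 ^ k * A * ⌊y⌋ + R)) (f ⌊x⌋) (f ⌊z⌋)
    rw [abs_sub_comm (f (2 ^ k * A * ⌊y⌋ + R)) (f ⌊x⌋)] at v3
    linarith
  refine h4.trans ?_
  rw [av_cmul]
  have h5 : 2 * ((1 + H) * ε') = ε := by rw [hε']; field_simp
  linarith

theorem sum_blocks (g : ℕ → ℝ) (P V : ℕ) : ∑ s ∈ range (P * V), g s = ∑ j ∈ range P, ∑ s ∈ range V, g (j * V + s) := by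
  induction P with
  | zero => simp
  | succ P ih =>
    rw [Nat.succ_mul, sum_range_add, ih, sum_range_succ]

/-- **SH4.** -/
theorem sums (h : S_CORS) : S_SUMS := by
  intro n A d hG k F hF hm H ε hε
  have hA1 : ∀ a, 1 ≤ A a := fun a => by have := hG.1 a; omega
  have hfb : ∀ a x, |F a x| ≤ 1 := fun a => (hF a).1
  obtain ⟨P, hP⟩ : ∃ P : ℕ, P = ∑ a, 2 ^ k a * A a := ⟨_, rfl⟩
  have hPa : ∀ a, 2 ^ k a * A a ≤ P := fun a => by
    rw [hP]
    exact single_le_sum (f := fun a => 2 ^ k a * A a) (fun _ _ => Nat.zero_le _) (mem_univ a)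
  have hP1 : 1 ≤ P := le_trans (Nat.mul_pos (by positivity) (hA1 0)) (hPa 0)
  obtain ⟨H', hH'⟩ : ∃ H' : ℝ, H' = 2 * H * P + P * P := ⟨_, rfl⟩
  have hH'0 : 0 ≤ H' := by rw [hH']; positivity
  obtain ⟨V1, hV11, hV1⟩ := h n A d hG F hF hm H' hH'0 (ε / 4) (by positivity)
  have h2 : ∀ a, ∃ V0 : ℝ, 1 ≤ V0 ∧ ∀ V : ℝ, V0 ≤ V → ∀ R : ℤ, 0 ≤ R → (R : ℝ) ≤ H' * V →
      av V (fun y => |F a (2 ^ k a * A a * ⌊y⌋ + R) - F a ⌊(A a : ℝ) * (y + R / (2 ^ k a * A a))⌋|) ≤ ε / 4 / (n + 1) :=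
    fun a => form_unif (hG.2.1 a) (hF a) (hA1 a) (k a) hH'0 (by positivity)
  choose V2 hV21 hV2 using h2
  obtain ⟨V3, hV3⟩ : ∃ V3 : ℕ, V1 + ∑ a, V2 a ≤ (V3 : ℝ) := exists_nat_ge _
  have hV3a : ∀ a, V2 a ≤ V3 := fun a => by
    have h3 : V2 a ≤ ∑ a, V2 a := single_le_sum (f := fun a => V2 a) (fun a _ => by have := hV21 a; linarith) (mem_univ a)
    linarith
  have hV31 : V1 ≤ V3 := by
    have : 0 ≤ ∑ a, V2 a := sum_nonneg fun a _ => by have := hV21 a; linarith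
    linarith
  have hV3r : (1 : ℝ) ≤ V3 := hV11.trans hV31
  have hV3n : 1 ≤ V3 := by exact_mod_cast hV3r
  obtain ⟨M1, hM1⟩ : ∃ M1 : ℕ, (P : ℝ) / (ε / 2) ≤ (M1 : ℝ) := exists_nat_ge _
  refine ⟨max (P * V3) (max M1 1), (le_max_right _ _).trans (le_max_right _ _), ?_⟩
  intro M hM r hr1 hr2
  have hMV : P * V3 ≤ M := (le_max_left _ _).trans hM
  have hMM1 : M1 ≤ M := (le_max_left _ _).trans ((le_max_right _ _).trans hM)
  obtain ⟨V, hV⟩ : ∃ V, V = M / P := ⟨_, rfl⟩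
  have hVV3 : V3 ≤ V := by
    rw [hV, Nat.le_div_iff_mul_le (by omega), mul_comm]; exact hMV
  have hV1n : 1 ≤ V := hV3n.trans hVV3
  have hPV : P * V ≤ M := by rw [hV]; exact Nat.mul_div_le M P
  have hMlt : M < P * (V + 1) := by rw [hV]; exact Nat.lt_mul_div_succ M (by omega)
  have hV0r : (0 : ℝ) < V := by exact_mod_cast hV1n
  have hV3V : (V3 : ℝ) ≤ V := by exact_mod_cast hVV3
  set g : ℕ → ℝ := fun s => ∏ a, F a (2 ^ k a * A a * ((s : ℕ) : ℤ) + r a) with hg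
  have hg1 : ∀ s, |g s| ≤ 1 := fun s => abs_prod_le_one fun a _ => hfb a _
  -- one block
  have hblock : ∀ j ∈ range P, |∑ s ∈ range V, g (j * V + s)| ≤ V * (ε / 2) := by
    intro j hj
    rw [mem_range] at hj
    obtain ⟨R, hR⟩ : ∃ R : Fin (n + 1) → ℤ, R = fun a => r a + 2 ^ k a * A a * (((j : ℕ) : ℤ) - 1) * V := ⟨_, rfl⟩
    have hPaz : ∀ a, (2 : ℤ) ^ k a * A a ≤ P := fun a => by exact_mod_cast hPa a
    have hPa0 : ∀ a, (0 : ℤ) ≤ 2 ^ k a * A a := fun a => by positivity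
    have hR0 : ∀ a, 0 ≤ R a := by
      intro a
      rw [hR]; simp only
      have e1 : (2 : ℤ) ^ k a * A a * V ≤ P * V := mul_le_mul_of_nonneg_right (hPaz a) (by positivity)
      have e2 : ((P * V : ℕ) : ℤ) ≤ M := by exact_mod_cast hPV
      push_cast at e2
      have e3 := hr1 a
      have e4 : 0 ≤ (2 : ℤ) ^ k a * A a * ((j : ℕ) : ℤ) * V := by positivity
      have e5 : (2 : ℤ) ^ k a * A a * (((j : ℕ) : ℤ) - 1) * V = 2 ^ k a * A a * ((j : ℕ) : ℤ) * V - 2 ^ k a * A a * V := by ring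
      rw [e5]
      linarith
    have hRH : ∀ a, ((R a : ℤ) : ℝ) ≤ H' * V := by
      intro a
      have e1 : (r a : ℝ) ≤ H * M := by exact_mod_cast hr2 a
      have e2 : (M : ℝ) ≤ 2 * P * V := by
        have : M ≤ 2 * P * V := by nlinarith
        exact_mod_cast this
      have e3 : ((2 : ℝ) ^ k a * A a) ≤ P := by exact_mod_cast hPa a
      have e4 : ((j : ℕ) : ℝ) - 1 ≤ P := by
        have : (j : ℝ) ≤ P := by exact_mod_cast hj.le
        linarith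
      have e5 : ((2 : ℝ) ^ k a * A a) * (((j : ℕ) : ℝ) - 1) ≤ P * P := by
        rcases le_or_gt 0 (((j : ℕ) : ℝ) - 1) with h0 | h0
        · exact mul_le_mul e3 e4 h0 (by positivity)
        · have q1 : ((2 : ℝ) ^ k a * A a) * (((j : ℕ) : ℝ) - 1) ≤ 0 := mul_nonpos_of_nonneg_of_nonpos (by positivity) h0.le
          have q2 : (0 : ℝ) ≤ P * P := by positivity
          linarith
      rw [hR, hH']; push_cast
      have e6 : (H : ℝ) * M ≤ H * (2 * P * V) := mul_le_mul_of_nonneg_left e2 (Nat.cast_nonneg _)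
      have e7 := mul_le_mul_of_nonneg_right e5 hV0r.le
      linarith
    have e1 : ∑ s ∈ range V, g (j * V + s) = V * av V (fun y => ∏ a, F a (2 ^ k a * A a * ⌊y⌋ + R a)) := by
      rw [av_floor (g := fun x => ∏ a, F a (2 ^ k a * A a * x + R a)) (M := 1)
        (fun x => abs_prod_le_one fun a _ => hfb a _) hV1n]
      rw [mul_div_cancel₀ _ hV0r.ne', sum_Ico_eq_sum_range]
      have e2 : 2 * V - V = V := by omega
      rw [e2]
      apply sum_congr rfl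
      intro s _
      rw [hg]; simp only
      apply prod_congr rfl
      intro a _
      rw [hR]; simp only
      congr 1
      push_cast
      ring
    rw [e1, abs_mul, abs_of_pos hV0r]
    apply mul_le_mul_of_nonneg_left _ hV0r.le
    -- comparison with `cs`
    have h3 := hV1 V (hV31.trans hV3V) (fun a => (R a : ℝ) / (2 ^ k a * A a)) (fun a => by
        have := hR0 a
        have h4 : (0 : ℝ) ≤ R a := by exact_mod_cast this
        positivity) (fun a => by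
        have h4 : (1 : ℝ) ≤ 2 ^ k a * A a := by
          have : 1 ≤ 2 ^ k a * A a := Nat.mul_pos (by positivity) (hA1 a)
          exact_mod_cast this
        have h5 : (0 : ℝ) ≤ R a := by exact_mod_cast hR0 a
        exact (div_le_self h5 h4).trans (hRH a))
    have hb1 : ∀ a, Bd 1 (fun y : ℝ => F a (2 ^ k a * A a * ⌊y⌋ + R a)) := fun a =>
      Bd.fl (F := fun x => F a (2 ^ k a * A a * x + R a)) fun x => hfb a _
    have hb2 : ∀ a, Bd 1 (fun y : ℝ => F a ⌊(A a : ℝ) * (y + R a / (2 ^ k a * A a))⌋) := fun a =>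
      Bd.flc (hfb a) (g := fun y => (A a : ℝ) * (y + R a / (2 ^ k a * A a))) (by fun_prop)
    have hp1 : Bd 1 (fun y : ℝ => ∏ a, F a (2 ^ k a * A a * ⌊y⌋ + R a)) := Bd.prod fun a _ => hb1 a
    have hp2 : Bd 1 (fun y : ℝ => ∏ a, F a ⌊(A a : ℝ) * (y + R a / (2 ^ k a * A a))⌋) := Bd.prod fun a _ => hb2 a
    have e3 : cs F A (fun a => (R a : ℝ) / (2 ^ k a * A a)) V (fun _ => 0)
        = av V (fun y => ∏ a, F a ⌊(A a : ℝ) * (y + R a / (2 ^ k a * A a))⌋) := by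
      unfold cs; simp only [zpow_zero, one_mul]
    rw [e3] at h3
    have h4 : |av V (fun y => ∏ a, F a (2 ^ k a * A a * ⌊y⌋ + R a)) - av V (fun y => ∏ a, F a ⌊(A a : ℝ) * (y + R a / (2 ^ k a * A a))⌋)|
        ≤ ε / 4 := by
      rw [← av_sub _ hp1 hp2]
      refine (abs_av_le hV0r (hp1.sub hp2)).trans ?_
      have h5 : av V (fun y => |(∏ a, F a (2 ^ k a * A a * ⌊y⌋ + R a)) - ∏ a, F a ⌊(A a : ℝ) * (y + R a / (2 ^ k a * A a))⌋|)
          ≤ av V (fun y => ∑ a, |F a (2 ^ k a * A a * ⌊y⌋ + R a) - F a ⌊(A a : ℝ) * (y + R a / (2 ^ k a * A a))⌋|) := by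
        apply av_mono hV0r (hp1.sub hp2).abs (Bd.sum fun a _ => ((hb1 a).sub (hb2 a)).abs)
        intro y _ _
        exact abs_prod_sub_prod (fun a _ => hfb a _) (fun a _ => hfb a _)
      refine h5.trans ?_
      rw [av_sum _ (fun a _ => ((hb1 a).sub (hb2 a)).abs)]
      have h6 : ∀ a ∈ (univ : Finset (Fin (n + 1))), av V (fun y => |F a (2 ^ k a * A a * ⌊y⌋ + R a)
          - F a ⌊(A a : ℝ) * (y + R a / (2 ^ k a * A a))⌋|) ≤ ε / 4 / (n + 1) := fun a _ =>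
        hV2 a V ((hV3a a).trans hV3V) (R a) (hR0 a) (hRH a)
      refine (sum_le_sum h6).trans (le_of_eq ?_)
      rw [sum_const, card_univ, Fintype.card_fin, nsmul_eq_mul]
      push_cast
      field_simp
    rw [abs_le] at h3 h4 ⊢
    constructor <;> linarith [h3.1, h3.2, h4.1, h4.2]
  -- all blocks
  have e1 : ∑ s ∈ range M, g s = ∑ s ∈ range (P * V), g s + ∑ s ∈ range (M - P * V), g (P * V + s) := by
    rw [← sum_range_add]; congr 2; omega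
  have h3 : |∑ s ∈ range (P * V), g s| ≤ P * (V * (ε / 2)) := by
    rw [sum_blocks]
    refine (abs_sum_le_sum_abs _ _).trans ((sum_le_sum hblock).trans (le_of_eq ?_))
    rw [sum_const, card_range, nsmul_eq_mul]
  have h4 : |∑ s ∈ range (M - P * V), g (P * V + s)| ≤ P := by
    refine (abs_sum_le_sum_abs _ _).trans ?_
    calc _ ≤ ∑ s ∈ range (M - P * V), (1 : ℝ) := sum_le_sum fun s _ => hg1 _
      _ = ((M - P * V : ℕ) : ℝ) := by simp
      _ ≤ P := by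
        have : M - P * V ≤ P := by
          have : P * (V + 1) = P * V + P := by ring
          omega
        exact_mod_cast this
  rw [e1]
  have h5 : (P : ℝ) * (V * (ε / 2)) ≤ ε / 2 * M := by
    have : ((P * V : ℕ) : ℝ) ≤ M := by exact_mod_cast hPV
    push_cast at this
    calc (P : ℝ) * (V * (ε / 2)) = (P * V) * (ε / 2) := by ring
      _ ≤ M * (ε / 2) := mul_le_mul_of_nonneg_right this (by positivity)
      _ = _ := by ring
  have h6 : (P : ℝ) ≤ ε / 2 * M := by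
    have h7 : (P : ℝ) / (ε / 2) ≤ M := hM1.trans (by exact_mod_cast hMM1)
    rw [div_le_iff₀ (by positivity)] at h7
    linarith
  have h7 := abs_add_le (∑ s ∈ range (P * V), g s) (∑ s ∈ range (M - P * V), g (P * V + s))
  linarith

end SH4

end Pool.Agent.KS6_24.ST
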