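import Mathlib
import Pool.Agent.KS6_24.ST.SHDefs

/-!
SH5 (helper6): a direction in an open cone at which the values of finitely many pairwise unrelated integer forms are pairwise
unrelated (no two have a quotient `2 ^ x * 3 ^ y`).
-/

set_option autoImplicit false

namespace Pool.Agent.KS6_24.ST

/-- a point where finitely many nonzero integer forms do not vanish -/
theorem sh5_exists_generic {ι : Type*} (s : Finset ι) {r : ℕ} (M : ι → Fin r → ℤ) (hM : ∀ i ∈ s, M i ≠ 0) :
    ∃ u : Fin r → ℤ, ∀ i ∈ s, ∑ j, M i j * u j ≠ 0 := by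
  classical
  let P : ι → Polynomial ℤ := fun i => ∑ j : Fin r, Polynomial.C (M i j) * Polynomial.X ^ (j : ℕ)
  have hP : ∀ i ∈ s, P i ≠ 0 := by
    intro i hi h0
    apply hM i hi
    funext j
    have h1 : (P i).coeff (j : ℕ) = 0 := by rw [h0]; simp
    have h2 : (P i).coeff (j : ℕ) = M i j := by
      simp only [P, Polynomial.finsetSum_coeff, Polynomial.coeff_C_mul, Polynomial.coeff_X_pow]
      rw [Finset.sum_eq_single j]
      · simp
      · intro b _ hb
        have : (j : ℕ) ≠ (b : ℕ) := fun h => hb (Fin.ext h.symm)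
        simp [this]
      · simp
    simpa [h1] using h2.symm
  have hQ : ∏ i ∈ s, P i ≠ 0 := Finset.prod_ne_zero_iff.mpr hP
  obtain ⟨t, ht⟩ : ∃ t : ℤ, ¬ (∏ i ∈ s, P i).IsRoot t := by
    by_contra h
    push Not at h
    exact hQ (Polynomial.eq_zero_of_infinite_isRoot _ (by
      have : {x : ℤ | (∏ i ∈ s, P i).IsRoot x} = Set.univ := by
        ext x; simpa using h x
      rw [this]; exact Set.infinite_univ))
  refine ⟨fun j => t ^ (j : ℕ), fun i hi => ?_⟩
  intro h0
  apply ht
  rw [Polynomial.IsRoot.def, Polynomial.eval_prod]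
  apply Finset.prod_eq_zero hi
  simp only [P, Polynomial.eval_finsetSum, Polynomial.eval_mul, Polynomial.eval_C, Polynomial.eval_pow,
    Polynomial.eval_X]
  exact h0

theorem dir : S_DIR := by
  classical
  intro k r L hL hLL σ w hσ hw
  set α : Fin k → ℤ := fun a => ∑ j, L a j * w j with hα
  have hα0 : ∀ a, α a ≠ 0 := fun a h => by
    have := hw a
    change 0 < σ a * α a at this
    rw [h] at this; simp at this
  -- the forms that `u` must avoid
  let M : (Fin k ⊕ Fin k × Fin k) → Fin r → ℤ := fun i => match i with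
    | Sum.inl a => L a
    | Sum.inr (a, b) => fun j => α a * L b j - α b * L a j
  obtain ⟨u, hu⟩ := sh5_exists_generic (Finset.univ.filter fun i => M i ≠ 0) M (fun i hi => (Finset.mem_filter.mp hi).2)
  set β : Fin k → ℤ := fun a => ∑ j, L a j * u j with hβ
  have hβ0 : ∀ a, β a ≠ 0 := fun a => hu (Sum.inl a) (by simpa [M] using hL a)
  have hD : ∀ a b, (α a * β b - α b * β a = 0) → ∀ j, α a * L b j = α b * L a j := by
    intro a b h0 j
    by_contra hne
    have h1 : M (Sum.inr (a, b)) ≠ 0 := by
      intro h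
      apply hne
      have := congrFun h j
      simp only [M, Pi.zero_apply] at this
      linarith
    apply hu (Sum.inr (a, b)) (by simpa using h1)
    rw [← h0]
    simp only [M, hβ, Finset.mul_sum, ← Finset.sum_sub_distrib]
    exact Finset.sum_congr rfl fun j _ => by ring
  -- the constants
  set P : ℤ := ∏ a, β a ^ 2 with hP
  have hP1 : 0 < P := Finset.prod_pos fun a _ => by have := hβ0 a; positivity
  have hPd : ∀ a, ∃ c : ℤ, P = β a * c ∧ c ≠ 0 := by
    intro a
    refine ⟨β a * ∏ b ∈ Finset.univ.erase a, β b ^ 2, ?_, ?_⟩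
    · rw [hP, ← Finset.mul_prod_erase Finset.univ _ (Finset.mem_univ a)]; ring
    · exact mul_ne_zero (hβ0 a) (Finset.prod_ne_zero_iff.mpr fun b _ => pow_ne_zero 2 (hβ0 b))
  set S : ℤ := 1 + ∑ a, ∑ b, |α a * β b - α b * β a| with hS
  have hS1 : 1 ≤ S := by
    have : 0 ≤ ∑ a, ∑ b, |α a * β b - α b * β a| := Finset.sum_nonneg fun a _ => Finset.sum_nonneg fun b _ => abs_nonneg _
    linarith
  have hSab : ∀ a b, |α a * β b - α b * β a| < S := by
    intro a b
    have h1 : |α a * β b - α b * β a| ≤ ∑ b, |α a * β b - α b * β a| :=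
      Finset.single_le_sum (f := fun b => |α a * β b - α b * β a|) (fun b _ => abs_nonneg _) (Finset.mem_univ b)
    have h2 : ∑ b, |α a * β b - α b * β a| ≤ ∑ a, ∑ b, |α a * β b - α b * β a| :=
      Finset.single_le_sum (f := fun a => ∑ b, |α a * β b - α b * β a|)
        (fun a _ => Finset.sum_nonneg fun b _ => abs_nonneg _) (Finset.mem_univ a)
    linarith
  set T : ℤ := 6 * S * P with hT
  have hval : ∀ a, ∑ j, L a j * (T * w j + u j) = T * α a + β a := by
    intro a
    simp only [hα, hβ, Finset.mul_sum, ← Finset.sum_add_distrib]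
    exact Finset.sum_congr rfl fun j _ => by ring
  -- the factor
  have hK : ∀ a, ∃ K : ℤ, T * α a + β a = β a * (6 * K + 1) ∧ S ≤ |K| := by
    intro a
    obtain ⟨c, hc, hc0⟩ := hPd a
    refine ⟨S * c * α a, ?_, ?_⟩
    · rw [hT, hc]; ring
    · rw [abs_mul, abs_mul, abs_of_pos (by linarith : 0 < S), mul_assoc]
      have h1 : 1 ≤ |c| * |α a| := by
        have := Int.one_le_abs hc0
        have := Int.one_le_abs (hα0 a)
        nlinarith
      nlinarith
  refine ⟨fun j => T * w j + u j, ?_, ?_⟩
  · intro a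
    rw [hval]
    have h1 : 1 ≤ σ a * α a := by have := hw a; exact this
    have h2 : |β a| ≤ P := by
      obtain ⟨c, hc, hc0⟩ := hPd a
      have h3 : P = |β a| * |c| := by rw [← abs_mul, ← hc, abs_of_pos hP1]
      have := Int.one_le_abs hc0
      have := abs_nonneg (β a)
      nlinarith
    have h3 : -|β a| ≤ σ a * β a := by
      rcases hσ a with h | h <;> rw [h]
      · simpa using neg_abs_le (β a)
      · simpa using le_abs_self (β a)
    have h4 : 6 * P ≤ T := by rw [hT]; nlinarith
    have h5 : T * 1 ≤ T * (σ a * α a) := mul_le_mul_of_nonneg_left h1 (by linarith)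
    have h6 : σ a * (T * α a + β a) = T * (σ a * α a) + σ a * β a := by ring
    rw [h6]
    linarith
  · intro a b hab x y p q hxy
    rw [hval, hval] at hxy
    have hva : T * α a + β a ≠ 0 := by
      obtain ⟨K, hK1, hK2⟩ := hK a
      rw [hK1]
      refine mul_ne_zero (hβ0 a) ?_
      omega
    by_cases h0 : α a * β b - α b * β a = 0
    · have hj := hD a b h0
      have h1 : α a * (T * α b + β b) = α b * (T * α a + β a) := by linear_combination h0
      have h2 : (2 : ℤ) ^ x * 3 ^ y * α a = 2 ^ p * 3 ^ q * α b := by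
        apply mul_right_cancel₀ hva
        linear_combination α a * hxy + 2 ^ p * 3 ^ q * h1
      apply hLL a b hab x y p q
      funext j
      apply mul_left_cancel₀ (hα0 a)
      linear_combination L a j * h2 - 2 ^ p * 3 ^ q * hj j
    · obtain ⟨K, hK1, hK2⟩ := hK a
      have hcop : IsCoprime (6 * K + 1) ((2 : ℤ) ^ p * 3 ^ q) := by
        have h2 : IsCoprime (6 * K + 1) (2 : ℤ) := ⟨1, -3 * K, by ring⟩
        have h3 : IsCoprime (6 * K + 1) (3 : ℤ) := ⟨1, -2 * K, by ring⟩
        exact (h2.pow_right).mul_right h3.pow_right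
      have hd1 : (6 * K + 1) ∣ T * α b + β b := by
        apply hcop.dvd_of_dvd_mul_left
        rw [← hxy, hK1]
        exact ⟨2 ^ x * 3 ^ y * β a, by ring⟩
      have hd2 : (6 * K + 1) ∣ T * α a + β a := ⟨β a, by rw [hK1]; ring⟩
      have hd3 : (6 * K + 1) ∣ α a * β b - α b * β a := by
        have h1 : α a * β b - α b * β a = α a * (T * α b + β b) - α b * (T * α a + β a) := by ring
        rw [h1]
        exact dvd_sub (Dvd.dvd.mul_left hd1 _) (Dvd.dvd.mul_left hd2 _)
      have h4 := Int.le_of_dvd (abs_pos.mpr h0) ((abs_dvd_abs _ _).mpr hd3)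
      have h5 := hSab a b
      have h6 : 6 * |K| - 1 ≤ |6 * K + 1| := by
        have := abs_sub_abs_le_abs_sub (6 * K) (-1)
        rw [abs_mul] at this
        simpa using this
      linarith

end Pool.Agent.KS6_24.ST
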