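import Mathlib
import Pool.Agent.KS6_24.ST.SH6
import Pool.Agent.KS6_24.ST.FG7

/-! SH8: two forms in several variables with quotient `2 ^ x 3 ^ y` have the same fate on average. -/

set_option autoImplicit false

namespace Pool.Agent.KS6_24.ST

open Finset Filter Topology Pool.Agent.H499R2.CO Pool.Agent.Y965.SI Pool.Agent.KS6_24.LN Pool.Agent.KS6_24.LN.TW

namespace SH6

theorem exists_common {r : ℕ} {L L' : Fin r → ℤ} {x y u v : ℕ}
    (h : (fun j => 2 ^ x * 3 ^ y * L j) = fun j => 2 ^ u * 3 ^ v * L' j) :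
    ∃ (K : Fin r → ℤ) (x1 y1 u1 v1 : ℕ), (∀ j, L j = 2 ^ u1 * 3 ^ v1 * K j) ∧ ∀ j, L' j = 2 ^ x1 * 3 ^ y1 * K j := by
  obtain ⟨x1, hx1⟩ : ∃ x1, x1 = x - min x u := ⟨_, rfl⟩
  obtain ⟨u1, hu1⟩ : ∃ u1, u1 = u - min x u := ⟨_, rfl⟩
  obtain ⟨y1, hy1⟩ : ∃ y1, y1 = y - min y v := ⟨_, rfl⟩
  obtain ⟨v1, hv1⟩ : ∃ v1, v1 = v - min y v := ⟨_, rfl⟩
  have hxu : x1 = 0 ∨ u1 = 0 := by omega
  have hyv : y1 = 0 ∨ v1 = 0 := by omega
  have h1 : ∀ j, 2 ^ x1 * 3 ^ y1 * L j = 2 ^ u1 * 3 ^ v1 * L' j := by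
    intro j
    have h2 : 2 ^ x * 3 ^ y * L j = 2 ^ u * 3 ^ v * L' j := congrFun h j
    have e1 : (2 : ℤ) ^ x = 2 ^ (min x u) * 2 ^ x1 := by rw [← pow_add]; congr 1; omega
    have e2 : (2 : ℤ) ^ u = 2 ^ (min x u) * 2 ^ u1 := by rw [← pow_add]; congr 1; omega
    have e3 : (3 : ℤ) ^ y = 3 ^ (min y v) * 3 ^ y1 := by rw [← pow_add]; congr 1; omega
    have e4 : (3 : ℤ) ^ v = 3 ^ (min y v) * 3 ^ v1 := by rw [← pow_add]; congr 1; omega
    rw [e1, e2, e3, e4] at h2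
    have h3 : (2 : ℤ) ^ (min x u) * 3 ^ (min y v) * (2 ^ x1 * 3 ^ y1 * L j)
        = 2 ^ (min x u) * 3 ^ (min y v) * (2 ^ u1 * 3 ^ v1 * L' j) := by
      calc _ = 2 ^ (min x u) * 2 ^ x1 * (3 ^ (min y v) * 3 ^ y1) * L j := by ring
        _ = _ := h2
        _ = _ := by ring
    exact mul_left_cancel₀ (by positivity) h3
  have hcop : IsCoprime ((2 : ℤ) ^ u1 * 3 ^ v1) (2 ^ x1 * 3 ^ y1) := by
    have h23 : IsCoprime (2 : ℤ) 3 := by norm_num
    rcases hxu with h | h <;> rcases hyv with h' | h' <;> rw [h, h']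
    · simp only [pow_zero, mul_one]; exact isCoprime_one_right
    · simp only [pow_zero, mul_one, one_mul]; exact h23.pow
    · simp only [pow_zero, mul_one, one_mul]; exact h23.symm.pow
    · simp only [pow_zero, mul_one]; exact isCoprime_one_left
  have hd : ∀ j, (2 : ℤ) ^ u1 * 3 ^ v1 ∣ L j := fun j =>
    hcop.dvd_of_dvd_mul_left (Dvd.intro _ (h1 j).symm)
  choose K hK using hd
  refine ⟨K, x1, y1, u1, v1, hK, fun j => ?_⟩
  have h2 := h1 j
  rw [hK j] at h2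
  have h3 : (2 : ℤ) ^ u1 * 3 ^ v1 * L' j = 2 ^ u1 * 3 ^ v1 * (2 ^ x1 * 3 ^ y1 * K j) := by
    rw [← h2]; ring
  exact mul_left_cancel₀ (by positivity) h3

/-- few points on a hyperplane -/
theorem on_card {r N : ℕ} {K : Fin r → ℤ} (hK : K ≠ 0) (m : ℤ) : #{n ∈ Bx r N | lf K n = m} ≤ N ^ (r - 1) := by
  have h := near_card (N := N) hK (-m) 0
  rw [mul_zero, zero_add, one_mul] at h
  refine le_trans (card_le_card ?_) h
  intro n hn
  rw [mem_filter] at hn ⊢
  refine ⟨hn.1, ?_⟩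
  rw [hn.2]; simp

/-- **Related forms in several variables.** -/
theorem slice_same {r : ℕ} {L L' : Fin r → ℤ} (hL : L ≠ 0) {x y u v : ℕ}
    (h : (fun j => 2 ^ x * 3 ^ y * L j) = fun j => 2 ^ u * 3 ^ v * L' j) (b b' : ℤ) {σ : ℤ} (hσ : σ = 1 ∨ σ = -1) {f : ℤ → ℝ}
    (hf : InvF σ (fun x => f (σ * x))) :
    Tendsto (fun N : ℕ => (∑ n ∈ Bx r N, |f (lf L n + b) - f (lf L' n + b')| * if 0 < σ * (lf L n + b) then 1 else 0)
      / (N : ℝ) ^ r) atTop (𝓝 0) := by
  classical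
  obtain ⟨K, x1, y1, u1, v1, hK1, hK2⟩ := exists_common h
  have hσσ : ∀ x : ℤ, σ * (σ * x) = x := by intro x; rcases hσ with h | h <;> rw [h] <;> ring
  have hf1 : ∀ x, |f x| ≤ 1 := by
    intro x
    have := hf.1 (σ * x)
    simp only [hσσ] at this
    exact this
  have hK0 : K ≠ 0 := by
    rintro rfl
    apply hL
    funext j
    rw [hK1 j]; simp
  have hr1 : 1 ≤ r := by
    by_contra h
    have h0 : r = 0 := by omega
    subst h0
    exact hL (funext fun j => j.elim0)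
  have hpr : ∀ N : ℕ, (N : ℝ) ^ r = N * (N : ℝ) ^ (r - 1) := by
    intro N
    rw [← pow_succ']; congr 1; omega
  obtain ⟨C0, hC0⟩ : ∃ C0 : ℕ, C0 = ∑ j, (K j).natAbs + 1 := ⟨_, rfl⟩
  set G : ℕ → ℝ := fun m => |f (σ * (2 ^ u1 * ((3 ^ v1 : ℕ) : ℤ) * ((m : ℕ) : ℤ) + σ * b))
    - f (σ * (2 ^ x1 * ((3 ^ y1 : ℕ) : ℤ) * ((m : ℕ) : ℤ) + σ * b'))| with hG
  have h1 : Tendsto (fun N : ℕ => (∑ m ∈ Icc 1 N, G m) / (N : ℝ)) atTop (𝓝 0) := by
    have := FG7.same_forms hσ hf (A := 3 ^ v1) (B := 3 ^ y1) (Nat.one_le_pow _ _ (by norm_num)) (Nat.one_le_pow _ _ (by norm_num))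
      (i := y1) (j := v1) (by rw [← pow_add, ← pow_add, add_comm]) u1 x1 (σ * b) (σ * b')
    exact this
  have hC0N : Tendsto (fun N : ℕ => C0 * N) atTop atTop :=
    tendsto_id.const_mul_atTop' (by omega)
  have h2 := (h1.comp hC0N).const_mul (C0 : ℝ)
  rw [mul_zero] at h2
  have h3 : Tendsto (fun N : ℕ => (2 * (2 * b.natAbs + 1) : ℝ) / (N : ℝ)) atTop (𝓝 0) :=
    tendsto_const_div_atTop_nhds_zero_nat _
  have h4 := h3.add h2
  rw [add_zero] at h4
  refine squeeze_zero' ?_ ?_ h4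
  · filter_upwards [] with N
    apply div_nonneg _ (by positivity)
    apply sum_nonneg; intro n _
    split_ifs <;> simp
  filter_upwards [eventually_ge_atTop 1] with N hN
  have hN0 : (0 : ℝ) < N := by exact_mod_cast hN
  have hval1 : ∀ n, lf L n = 2 ^ u1 * 3 ^ v1 * lf K n := by
    intro n
    unfold lf
    rw [mul_sum]
    apply sum_congr rfl; intro j _
    rw [hK1 j]; ring
  have hval2 : ∀ n, lf L' n = 2 ^ x1 * 3 ^ y1 * lf K n := by
    intro n
    unfold lf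
    rw [mul_sum]
    apply sum_congr rfl; intro j _
    rw [hK2 j]; ring
  -- pointwise bound
  have hpt : ∀ n ∈ Bx r N, |f (lf L n + b) - f (lf L' n + b')| * (if 0 < σ * (lf L n + b) then 1 else 0)
      ≤ (if |lf K n| ≤ (b.natAbs : ℤ) then (2 : ℝ) else 0) + ∑ m ∈ Icc 1 (C0 * N), (if lf K n = σ * ((m : ℕ) : ℤ) then G m else 0) := by
    intro n hn
    have hG0 : ∀ m, 0 ≤ G m := fun m => abs_nonneg _
    have hs0 : 0 ≤ ∑ m ∈ Icc 1 (C0 * N), (if lf K n = σ * ((m : ℕ) : ℤ) then G m else 0) :=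
      sum_nonneg fun m _ => by split_ifs; exacts [hG0 m, le_rfl]
    have hi0 : 0 ≤ (if |lf K n| ≤ (b.natAbs : ℤ) then (2 : ℝ) else 0) := by split_ifs <;> norm_num
    by_cases hpos : 0 < σ * (lf L n + b)
    · rw [if_pos hpos, mul_one]
      by_cases hm : 0 < σ * lf K n
      · -- the generic case
        have h5 : |lf K n| ≤ ((∑ j, (K j).natAbs + (0 : ℤ).natAbs : ℕ) : ℤ) * N := by
          have := lf_abs K 0 hn hN
          rwa [add_zero] at this
        have h6 : σ * lf K n ≤ |lf K n| := by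
          rcases hσ with h | h <;> rw [h]
          · rw [one_mul]; exact le_abs_self _
          · rw [neg_one_mul]; exact neg_le_abs _
        obtain ⟨m, hm'⟩ : ∃ m : ℕ, m = (σ * lf K n).toNat := ⟨_, rfl⟩
        have hmz : ((m : ℕ) : ℤ) = σ * lf K n := by rw [hm']; exact Int.toNat_of_nonneg hm.le
        have hmem : m ∈ Icc 1 (C0 * N) := by
          rw [Finset.mem_Icc]
          refine ⟨by omega, ?_⟩
          have h7 : ((m : ℕ) : ℤ) ≤ ((C0 * N : ℕ) : ℤ) := by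
            rw [hmz, hC0]
            refine h6.trans (h5.trans ?_)
            rw [Int.natAbs_zero, add_zero, ← Nat.cast_mul]
            exact_mod_cast Nat.mul_le_mul_right N (Nat.le_succ _)
          exact_mod_cast h7
        have heq : lf K n = σ * ((m : ℕ) : ℤ) := by rw [hmz, hσσ]
        have h8 : G m ≤ ∑ m ∈ Icc 1 (C0 * N), (if lf K n = σ * ((m : ℕ) : ℤ) then G m else 0) := by
          have := single_le_sum (f := fun m : ℕ => (if lf K n = σ * ((m : ℕ) : ℤ) then G m else 0))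
            (fun m _ => by split_ifs; exacts [hG0 m, le_rfl]) hmem
          simp only [if_pos heq] at this
          exact this
        have h9 : |f (lf L n + b) - f (lf L' n + b')| = G m := by
          rw [hG]; simp only
          have e1 : σ * (2 ^ u1 * ((3 ^ v1 : ℕ) : ℤ) * ((m : ℕ) : ℤ) + σ * b) = lf L n + b := by
            rw [mul_add, hσσ, hval1, hmz]
            push_cast
            calc σ * (2 ^ u1 * 3 ^ v1 * (σ * lf K n)) + b = 2 ^ u1 * 3 ^ v1 * (σ * (σ * lf K n)) + b := by ring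
              _ = _ := by rw [hσσ]
          have e2 : σ * (2 ^ x1 * ((3 ^ y1 : ℕ) : ℤ) * ((m : ℕ) : ℤ) + σ * b') = lf L' n + b' := by
            rw [mul_add, hσσ, hval2, hmz]
            push_cast
            calc σ * (2 ^ x1 * 3 ^ y1 * (σ * lf K n)) + b' = 2 ^ x1 * 3 ^ y1 * (σ * (σ * lf K n)) + b' := by ring
              _ = _ := by rw [hσσ]
          rw [e1, e2]
        rw [h9]
        linarith
      · -- few points
        have h5 : |lf K n| ≤ (b.natAbs : ℤ) := by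
          push Not at hm
          have h6 : 0 < σ * lf L n + σ * b := by rw [← mul_add]; exact hpos
          have h7 : σ * lf L n = 2 ^ u1 * 3 ^ v1 * (σ * lf K n) := by rw [hval1]; ring
          have h8 : (2 : ℤ) ^ u1 * 3 ^ v1 * (σ * lf K n) ≤ σ * lf K n := by
            have h9 : (1 : ℤ) ≤ 2 ^ u1 * 3 ^ v1 := one_le_mul_of_one_le_of_one_le (one_le_pow₀ (by norm_num)) (one_le_pow₀ (by norm_num))
            nlinarith
          have h10 : -(σ * lf K n) < σ * b := by linarith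
          have h11 : σ * b ≤ (b.natAbs : ℤ) := by
            rw [Int.natCast_natAbs]
            rcases hσ with h | h <;> rw [h]
            · rw [one_mul]; exact le_abs_self _
            · rw [neg_one_mul]; exact neg_le_abs _
          rw [abs_le]
          rcases hσ with h | h <;> rw [h] at hm h10 h11 <;> constructor <;> linarith
        rw [if_pos h5]
        have h6 := abs_sub (f (lf L n + b)) (f (lf L' n + b'))
        have h7 := hf1 (lf L n + b)
        have h8 := hf1 (lf L' n + b')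
        linarith
    · rw [if_neg hpos, mul_zero]
      linarith
  have hsum := sum_le_sum hpt
  rw [sum_add_distrib, sum_comm (s := Bx r N) (t := Icc 1 (C0 * N))] at hsum
  have k1 : ∑ n ∈ Bx r N, (if |lf K n| ≤ (b.natAbs : ℤ) then (2 : ℝ) else 0) ≤ 2 * ((2 * b.natAbs + 1) * (N : ℝ) ^ (r - 1)) := by
    rw [← sum_filter, sum_const, nsmul_eq_mul]
    have := near_card (N := N) hK0 0 b.natAbs
    simp only [add_zero] at this
    have h5 : ((#{n ∈ Bx r N | |lf K n| ≤ (b.natAbs : ℤ)} : ℕ) : ℝ) ≤ (2 * b.natAbs + 1) * (N : ℝ) ^ (r - 1) := by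
      exact_mod_cast this
    linarith
  have k2 : ∑ m ∈ Icc 1 (C0 * N), ∑ n ∈ Bx r N, (if lf K n = σ * ((m : ℕ) : ℤ) then G m else 0)
      ≤ (N : ℝ) ^ (r - 1) * ∑ m ∈ Icc 1 (C0 * N), G m := by
    rw [mul_sum]
    apply sum_le_sum
    intro m _
    rw [← sum_filter, sum_const, nsmul_eq_mul]
    apply mul_le_mul_of_nonneg_right _ (abs_nonneg _)
    exact_mod_cast on_card hK0 (σ * ((m : ℕ) : ℤ))
  rw [div_le_iff₀ (by positivity), hpr]
  have hNr : 0 < (N : ℝ) ^ (r - 1) := by positivity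
  have e1 : ((2 * (2 * b.natAbs + 1) : ℝ) / N + C0 * ((fun N : ℕ => (∑ m ∈ Icc 1 N, G m) / (N : ℝ)) ∘ fun N => C0 * N) N)
      * (N * (N : ℝ) ^ (r - 1)) = (2 * (2 * b.natAbs + 1) + ∑ m ∈ Icc 1 (C0 * N), G m) * (N : ℝ) ^ (r - 1) := by
    have hC00 : (C0 : ℝ) ≠ 0 := by
      have : C0 ≠ 0 := by omega
      exact_mod_cast this
    simp only [Function.comp]
    push_cast
    field_simp
  have e2 : (2 * (2 * b.natAbs + 1) : ℝ) / N + (C0 : ℝ) * ((fun N : ℕ => (∑ m ∈ Icc 1 N, G m) / (N : ℝ)) ∘ fun N => C0 * N) N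
      = (2 * (2 * b.natAbs + 1) : ℝ) / N + C0 * ((fun N : ℕ => (∑ m ∈ Icc 1 N, G m) / (N : ℝ)) ∘ fun N => C0 * N) N := rfl
  refine hsum.trans ?_
  refine le_trans (add_le_add k1 k2) ?_
  refine le_trans (le_of_eq ?_) (le_of_eq e1.symm)
  ring

end SH6

end Pool.Agent.KS6_24.ST
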