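import Mathlib
import Pool.Agent.KS6_24.ST.FGMain
import Pool.Agent.KS6_24.ST.SH1
import Pool.Agent.KS6_24.ST.SH2
import Pool.Agent.KS6_24.ST.SH3
import Pool.Agent.KS6_24.ST.SH4
import Pool.Agent.KS6_24.ST.SH5
import Pool.Agent.KS6_24.ST.SH7
import Pool.Agent.KS6_24.ST.SH8

/-! Project SH: assembly. -/

set_option autoImplicit false

namespace Pool.Agent.KS6_24.ST

theorem etas_all : S_ETAS := etas (nw 1 (by norm_num)) (fun _ hd => ws_all hd) balg_all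

theorem cors_all : S_CORS := cors (stages etas_all) fun _ hd => en3_all hd

theorem sums_all : S_SUMS := SH4.sums cors_all

open Finset Filter Topology Pool.Agent.H499R2.CO Pool.Agent.Y965.SI Pool.Agent.KS6_24.LN in
/-- **Linear patterns.** -/
theorem slice_all {k r : ℕ} {L : Fin k → Fin r → ℤ} (hL : ∀ a, L a ≠ 0)
    (hrel : ∀ a b, a ≠ b → ∀ x y u v : ℕ, (fun j => 2 ^ x * 3 ^ y * L a j) ≠ fun j => 2 ^ u * 3 ^ v * L b j)
    (b : Fin k → ℤ) {σ : Fin k → ℤ} (hσ : ∀ a, σ a = 1 ∨ σ a = -1) {f : Fin k → ℤ → ℝ}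
    (hf : ∀ a, InvF (σ a) (fun x => f a (σ a * x))) (a0 : Fin k) (hm : MeanZero (fun x => f a0 (σ a0 * x))) :
    Tendsto (fun N : ℕ => (∑ n ∈ SH6.Bx r N, SH6.ph L b σ f n) / (N : ℝ) ^ r) atTop (𝓝 0) :=
  SH6.slice sums_all dir hL hrel b hσ hf a0 hm

end Pool.Agent.KS6_24.ST
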