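import Mathlib
import Pool.Agent.KS6_24.ST.SHMain
import Pool.Agent.KS6_24.ST.SH10a

/-! SH10: the slicing lemma uniformly in convex regions. -/

set_option autoImplicit false

namespace Pool.Agent.KS6_24.ST

/-- **Linear patterns in convex regions.** -/
theorem slice_conv : S_CONV := SH6.slice_conv_of sums_all dir

end Pool.Agent.KS6_24.ST
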