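import Mathlib
import Pool.Agent.KS6_24.ST.SH7

/-!
SH9 (helper6): the slicing lemma with constant terms up to `B N` and over the part of the box cut out by finitely many
inequalities `lf (Cc i) n ≤ t i`, uniformly in the constant terms and in the `t i`.
-/

set_option autoImplicit false

namespace Pool.Agent.KS6_24.ST

open Finset Filter Topology Pool.Agent.H499R2.CO Pool.Agent.Y965.SI Pool.Agent.KS6_24.LN Pool.Agent.KS6_24.LN.TW

namespace SH6

/-- the summand on a region -/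
noncomputable def phr {k r m : ℕ} (L : Fin k → Fin r → ℤ) (b σ : Fin k → ℤ) (f : Fin k → ℤ → ℝ) (Cc : Fin m → Fin r → ℤ)
    (t : Fin m → ℤ) (n : Fin r → ℤ) : ℝ :=
  if ∀ i, lf (Cc i) n ≤ t i then ph L b σ f n else 0

theorem phr_abs {k r m : ℕ} {L : Fin k → Fin r → ℤ} {b σ : Fin k → ℤ} {f : Fin k → ℤ → ℝ} (hf : ∀ a x, |f a x| ≤ 1)
    (Cc : Fin m → Fin r → ℤ) (t : Fin m → ℤ) (n : Fin r → ℤ) : |phr L b σ f Cc t n| ≤ 1 := by
  unfold phr
  split_ifs
  · exact ph_abs hf n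
  · simp

/-- size of a form on the box, large constant term -/
theorem lf_abs' {r N B : ℕ} (L : Fin r → ℤ) (b : ℤ) (hb : |b| ≤ B * N) {n : Fin r → ℤ} (hn : n ∈ Bx r N) (hN : 1 ≤ N) :
    |lf L n + b| ≤ ((∑ j, (L j).natAbs + B : ℕ) : ℤ) * N := by
  have h1 := lf_abs L 0 hn hN
  rw [add_zero, Int.natAbs_zero, add_zero] at h1
  have h3 := abs_add_le (lf L n) b
  rw [Nat.cast_add, add_mul]
  linarith

/-- **The slicing lemma, uniform version.** -/
theorem slice_unif (hS : S_SUMS) (hD : S_DIR) {k r : ℕ} {L : Fin k → Fin r → ℤ} (hL : ∀ a, L a ≠ 0)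
    (hrel : ∀ a b, a ≠ b → ∀ x y u v : ℕ, (fun j => 2 ^ x * 3 ^ y * L a j) ≠ fun j => 2 ^ u * 3 ^ v * L b j)
    {σ : Fin k → ℤ} (hσ : ∀ a, σ a = 1 ∨ σ a = -1) (hw : ∃ w : Fin r → ℤ, ∀ a, 0 < σ a * ∑ j, L a j * w j)
    {f : Fin k → ℤ → ℝ} (hf : ∀ a, InvF (σ a) (fun x => f a (σ a * x))) (a0 : Fin k)
    (hm : MeanZero (fun x => f a0 (σ a0 * x))) {m : ℕ} {Cc : Fin m → Fin r → ℤ} (hCc : ∀ i, Cc i ≠ 0) (B : ℕ)
    {ε : ℝ} (hε : 0 < ε) :
    ∃ N0 : ℕ, ∀ N : ℕ, N0 ≤ N → ∀ b : Fin k → ℤ, (∀ a, |b a| ≤ B * N) → ∀ t : Fin m → ℤ,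
      |∑ n ∈ Bx r N, phr L b σ f Cc t n| ≤ ε * (N : ℝ) ^ r := by
  classical
  obtain ⟨w, hw⟩ := hw
  have hσσ : ∀ (a : Fin k) (x : ℤ), σ a * (σ a * x) = x := by
    intro a x; rcases hσ a with h | h <;> rw [h] <;> ring
  have hf1 : ∀ a x, |f a x| ≤ 1 := by
    intro a x
    have := (hf a).1 (σ a * x)
    simp only [hσσ] at this
    exact this
  have hr1 : 1 ≤ r := by
    by_contra h
    have h0 : r = 0 := by omega
    subst h0
    exact hL a0 (funext fun j => j.elim0)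
  have hpr : ∀ N : ℕ, (N : ℝ) ^ r = N * (N : ℝ) ^ (r - 1) := by
    intro N
    rw [← pow_succ']; congr 1; omega
  obtain ⟨v, hv1, hv2⟩ := hD k r L hL hrel σ w hσ hw
  have hv1' : ∀ a, 0 < σ a * lf (L a) v := hv1
  have hex : ∀ a, ∃ κ A : ℕ, A % 2 = 1 ∧ σ a * lf (L a) v = 2 ^ κ * A := by
    intro a
    obtain ⟨κ, A, hA, h⟩ := Nat.exists_eq_two_pow_mul_odd (n := (σ a * lf (L a) v).toNat) (by have := hv1' a; omega)
    refine ⟨κ, A, Nat.odd_iff.1 hA, ?_⟩
    have h1 : (((σ a * lf (L a) v).toNat : ℕ) : ℤ) = σ a * lf (L a) v := Int.toNat_of_nonneg (hv1' a).le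
    rw [← h1, h]; push_cast; rfl
  choose κ A hA hc using hex
  have hG : GoodF A σ := by
    refine ⟨hA, hσ, fun a b' hab i j h => ?_⟩
    apply hv2 a b' hab (κ b') i (κ a) j
    have e1 : ∑ j, L a j * v j = σ a * (2 ^ κ a * A a) := by rw [← hc a, hσσ]; rfl
    have e2 : ∑ j, L b' j * v j = σ b' * (2 ^ κ b' * A b') := by rw [← hc b', hσσ]; rfl
    rw [e1, e2]
    calc 2 ^ κ b' * 3 ^ i * (σ a * (2 ^ κ a * (A a : ℤ))) = 2 ^ κ b' * 2 ^ κ a * (σ a * A a * 3 ^ i) := by ring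
      _ = 2 ^ κ b' * 2 ^ κ a * (σ b' * A b' * 3 ^ j) := by rw [h]
      _ = _ := by ring
  -- constants
  obtain ⟨C0, hC0⟩ : ∃ C0 : ℕ, C0 = ∑ a, (∑ j, (L a j).natAbs + B) := ⟨_, rfl⟩
  obtain ⟨K1, hK1⟩ : ∃ K1 : ℕ, K1 = ∑ a, 2 ^ κ a * A a := ⟨_, rfl⟩
  obtain ⟨K2, hK2⟩ : ∃ K2 : ℕ, K2 = ∑ i, (lf (Cc i) v).natAbs := ⟨_, rfl⟩
  obtain ⟨Kc, hKc⟩ : ∃ Kc : ℕ, Kc = K1 + K2 := ⟨_, rfl⟩
  obtain ⟨Vv, hVv⟩ : ∃ Vv : ℕ, Vv = ∑ j, (v j).natAbs := ⟨_, rfl⟩
  have hC0a : ∀ a, ∑ j, (L a j).natAbs + B ≤ C0 := fun a => by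
    rw [hC0]
    exact single_le_sum (f := fun a => ∑ j, (L a j).natAbs + B) (fun _ _ => Nat.zero_le _) (mem_univ a)
  have hKca : ∀ a, 2 ^ κ a * A a ≤ Kc := fun a => by
    have h : 2 ^ κ a * A a ≤ K1 := by
      rw [hK1]
      exact single_le_sum (f := fun a => 2 ^ κ a * A a) (fun _ _ => Nat.zero_le _) (mem_univ a)
    omega
  have hKci : ∀ i, (lf (Cc i) v).natAbs ≤ Kc := fun i => by
    have h : (lf (Cc i) v).natAbs ≤ K2 := by
      rw [hK2]
      exact single_le_sum (f := fun i => (lf (Cc i) v).natAbs) (fun _ _ => Nat.zero_le _) (mem_univ i)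
    omega
  have hKc1 : 1 ≤ Kc := by
    refine le_trans ?_ (hKca a0)
    have := hA a0
    exact Nat.mul_pos (by positivity) (by omega)
  obtain ⟨q, hq⟩ : ∃ q : ℕ, (2 * (k + m) * Kc + 2 * Vv : ℕ) / (ε / 4) + 1 ≤ (q : ℝ) := exists_nat_ge _
  have hq1 : 1 ≤ q := by
    have h1 : (0 : ℝ) ≤ (2 * (k + m) * Kc + 2 * Vv : ℕ) / (ε / 4) := by positivity
    have : (1 : ℝ) ≤ q := by linarith
    exact_mod_cast this
  have hq0 : (0 : ℝ) < q := by exact_mod_cast hq1
  obtain ⟨M0, hM0, hSum⟩ := sums_at hS hG κ hf a0 hm (2 * q * C0) (ε := ε / 4) (by positivity)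
  obtain ⟨N1, hN1⟩ : ∃ N1 : ℕ, ((k + m : ℕ) : ℝ) / (ε / 4) ≤ (N1 : ℝ) := exists_nat_ge _
  refine ⟨max (q * M0) (max N1 1), fun N hN b hb t => ?_⟩
  have hNq : q * M0 ≤ N := (le_max_left _ _).trans hN
  have hNN1 : N1 ≤ N := (le_max_left _ _).trans ((le_max_right _ _).trans hN)
  have hN1' : 1 ≤ N := (le_max_right _ _).trans ((le_max_right _ _).trans hN)
  obtain ⟨M, hM⟩ : ∃ M, M = N / q := ⟨_, rfl⟩
  have hMM0 : M0 ≤ M := by
    rw [hM, Nat.le_div_iff_mul_le (by omega), mul_comm]; exact hNq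
  have hM1 : 1 ≤ M := hM0.trans hMM0
  have hMq : q * M ≤ N := by rw [hM]; exact Nat.mul_div_le N q
  have hMN : N ≤ 2 * q * M := by
    have h1 : N < q * (M + 1) := by rw [hM]; exact Nat.lt_mul_div_succ N (by omega)
    nlinarith
  have hM0r : (0 : ℝ) < M := by exact_mod_cast hM1
  have hN0r : (0 : ℝ) < N := by exact_mod_cast hN1'
  set Φ := phr L b σ f Cc t with hΦ
  have hΦ1 : ∀ n, |Φ n| ≤ 1 := phr_abs hf1 Cc t
  have htriv : ∀ n, |∑ s ∈ range M, Φ (n + ((s : ℕ) : ℤ) • v)| ≤ M := by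
    intro n
    refine (abs_sum_le_sum_abs _ _).trans ?_
    calc _ ≤ ∑ s ∈ range M, (1 : ℝ) := sum_le_sum fun s _ => hΦ1 _
      _ = M := by simp
  -- one line
  have hline : ∀ n ∈ Bx r N, |∑ s ∈ range M, Φ (n + ((s : ℕ) : ℤ) • v)|
      ≤ ε / 4 * M + M * (∑ a, (if |lf (L a) n + b a| ≤ ((Kc * M : ℕ) : ℤ) then (1 : ℝ) else 0)
        + ∑ i, (if |lf (Cc i) n + -t i| ≤ ((Kc * M : ℕ) : ℤ) then (1 : ℝ) else 0)) := by
    intro n hn
    have hval : ∀ (a : Fin k) (s : ℕ), σ a * (lf (L a) (n + ((s : ℕ) : ℤ) • v) + b a)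
        = 2 ^ κ a * A a * ((s : ℕ) : ℤ) + σ a * (lf (L a) n + b a) := by
      intro a s
      rw [lf_add, lf_smul, ← hc a]; ring
    have hsum0 : 0 ≤ ∑ a, (if |lf (L a) n + b a| ≤ ((Kc * M : ℕ) : ℤ) then (1 : ℝ) else 0) :=
      sum_nonneg fun a _ => by split_ifs <;> norm_num
    have hsum1 : 0 ≤ ∑ i, (if |lf (Cc i) n + -t i| ≤ ((Kc * M : ℕ) : ℤ) then (1 : ℝ) else 0) :=
      sum_nonneg fun a _ => by split_ifs <;> norm_num
    by_cases hnear : ∃ i, |lf (Cc i) n + -t i| ≤ ((Kc * M : ℕ) : ℤ)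
    · obtain ⟨i, hi⟩ := hnear
      have h4 : (1 : ℝ) ≤ ∑ i, (if |lf (Cc i) n + -t i| ≤ ((Kc * M : ℕ) : ℤ) then (1 : ℝ) else 0) := by
        have := single_le_sum (f := fun i => (if |lf (Cc i) n + -t i| ≤ ((Kc * M : ℕ) : ℤ) then (1 : ℝ) else 0))
          (fun a _ => by split_ifs <;> norm_num) (mem_univ i)
        simp only [if_pos hi] at this
        exact this
      have h6 := mul_le_mul_of_nonneg_left h4 hM0r.le
      have h7 : 0 ≤ ε / 4 * (M : ℝ) := by positivity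
      have h8 := mul_nonneg hM0r.le hsum0
      have h9 := htriv n
      rw [mul_add]
      linarith
    push Not at hnear
    -- the region condition is constant on the line
    have hreg : ∀ s < M, ((∀ i, lf (Cc i) (n + ((s : ℕ) : ℤ) • v) ≤ t i) ↔ ∀ i, lf (Cc i) n ≤ t i) := by
      intro s hs
      apply forall_congr'
      intro i
      rw [lf_add, lf_smul]
      have h1 := hnear i
      have h2 : |((s : ℕ) : ℤ) * lf (Cc i) v| ≤ ((Kc * M : ℕ) : ℤ) := by
        rw [abs_mul, Nat.abs_cast, ← Int.natCast_natAbs (lf (Cc i) v)]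
        have : s * (lf (Cc i) v).natAbs ≤ Kc * M := by
          rw [mul_comm]; exact Nat.mul_le_mul (hKci i) hs.le
        exact_mod_cast this
      rw [abs_le] at h2
      rcases lt_abs.1 h1 with h | h
      · constructor <;> intro h' <;> omega
      · constructor <;> intro h' <;> omega
    by_cases hin : ∀ i, lf (Cc i) n ≤ t i
    swap
    · have h3 : ∑ s ∈ range M, Φ (n + ((s : ℕ) : ℤ) • v) = 0 := by
        apply sum_eq_zero
        intro s hs
        rw [mem_range] at hs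
        rw [hΦ]
        unfold phr
        rw [if_neg]
        rw [hreg s hs]; exact hin
      rw [h3, abs_zero]
      positivity
    have hΦph : ∀ s < M, Φ (n + ((s : ℕ) : ℤ) • v) = ph L b σ f (n + ((s : ℕ) : ℤ) • v) := by
      intro s hs
      rw [hΦ]
      unfold phr
      rw [if_pos]
      rw [hreg s hs]; exact hin
    by_cases h1 : ∀ a, (M : ℤ) ≤ σ a * (lf (L a) n + b a)
    · -- all values are large
      have h2 := hSum M hMM0 (fun a => σ a * (lf (L a) n + b a)) h1 (fun a => by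
        have h3 := lf_abs' (L a) (b a) (hb a) hn hN1'
        have h4 : σ a * (lf (L a) n + b a) ≤ |lf (L a) n + b a| := by
          rcases hσ a with h | h <;> rw [h]
          · rw [one_mul]; exact le_abs_self _
          · rw [neg_one_mul]; exact neg_le_abs _
        have h5 : ((∑ j, (L a j).natAbs + B : ℕ) : ℤ) * N ≤ (C0 : ℤ) * (2 * q * M) := by
          apply mul_le_mul
          · exact_mod_cast hC0a a
          · exact_mod_cast hMN
          · positivity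
          · positivity
        calc σ a * (lf (L a) n + b a) ≤ (C0 : ℤ) * (2 * q * M) := h4.trans (h3.trans h5)
          _ = ((2 * q * C0 : ℕ) : ℤ) * M := by push_cast; ring)
      have h3 : ∑ s ∈ range M, Φ (n + ((s : ℕ) : ℤ) • v)
          = ∑ s ∈ range M, ∏ a, f a (σ a * (2 ^ κ a * A a * ((s : ℕ) : ℤ) + σ a * (lf (L a) n + b a))) := by
        apply sum_congr rfl
        intro s hs
        rw [mem_range] at hs
        rw [hΦph s hs]
        unfold ph
        apply prod_congr rfl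
        intro a _
        rw [← hval a s, hσσ, if_pos, mul_one]
        rw [hval a s]
        have := h1 a
        have h4 : (0 : ℤ) ≤ 2 ^ κ a * A a * ((s : ℕ) : ℤ) := by positivity
        have h5 : (1 : ℤ) ≤ M := by exact_mod_cast hM1
        omega
      rw [h3]
      refine h2.trans ?_
      have : 0 ≤ (M : ℝ) * (∑ a, (if |lf (L a) n + b a| ≤ ((Kc * M : ℕ) : ℤ) then (1 : ℝ) else 0)
        + ∑ i, (if |lf (Cc i) n + -t i| ≤ ((Kc * M : ℕ) : ℤ) then (1 : ℝ) else 0)) := by positivity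
      linarith
    · push Not at h1
      obtain ⟨a, ha⟩ := h1
      by_cases h2 : σ a * (lf (L a) n + b a) < -((Kc * M : ℕ) : ℤ)
      · -- the sign is wrong on the whole line
        have h3 : ∑ s ∈ range M, Φ (n + ((s : ℕ) : ℤ) • v) = 0 := by
          apply sum_eq_zero
          intro s hs
          rw [mem_range] at hs
          rw [hΦph s hs]
          apply ph_zero (a := a)
          rw [hval a s]
          have h4 : 2 ^ κ a * (A a : ℤ) * ((s : ℕ) : ℤ) ≤ ((Kc * M : ℕ) : ℤ) := by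
            have : 2 ^ κ a * A a * s ≤ Kc * M := Nat.mul_le_mul (hKca a) hs.le
            exact_mod_cast this
          omega
        rw [h3, abs_zero]
        positivity
      · -- near a hyperplane
        push Not at h2
        have h3 : |lf (L a) n + b a| ≤ ((Kc * M : ℕ) : ℤ) := by
          have h4 : (M : ℤ) ≤ ((Kc * M : ℕ) : ℤ) := by exact_mod_cast Nat.le_mul_of_pos_left M hKc1
          rw [abs_le]
          rcases hσ a with h | h <;> rw [h] at ha h2 <;> constructor <;> omega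
        have h4 : (1 : ℝ) ≤ ∑ a, (if |lf (L a) n + b a| ≤ ((Kc * M : ℕ) : ℤ) then (1 : ℝ) else 0) := by
          have := single_le_sum (f := fun a => (if |lf (L a) n + b a| ≤ ((Kc * M : ℕ) : ℤ) then (1 : ℝ) else 0))
            (fun a _ => by split_ifs <;> norm_num) (mem_univ a)
          simp only [if_pos h3] at this
          exact this
        have h5 := htriv n
        have h6 := mul_le_mul_of_nonneg_left h4 hM0r.le
        have h7 : 0 ≤ ε / 4 * (M : ℝ) := by positivity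
        have h8 := mul_nonneg hM0r.le hsum1
        rw [mul_add]
        linarith
  -- sum over the lines
  have hnear : ∀ a, ∑ n ∈ Bx r N, (if |lf (L a) n + b a| ≤ ((Kc * M : ℕ) : ℤ) then (1 : ℝ) else 0)
      ≤ (2 * (Kc * M) + 1) * (N : ℝ) ^ (r - 1) := by
    intro a
    rw [← sum_filter, sum_const, nsmul_eq_mul, mul_one]
    have := near_card (N := N) (hL a) (b a) (Kc * M)
    exact_mod_cast this
  have hnear' : ∀ i, ∑ n ∈ Bx r N, (if |lf (Cc i) n + -t i| ≤ ((Kc * M : ℕ) : ℤ) then (1 : ℝ) else 0)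
      ≤ (2 * (Kc * M) + 1) * (N : ℝ) ^ (r - 1) := by
    intro i
    rw [← sum_filter, sum_const, nsmul_eq_mul, mul_one]
    have := near_card (N := N) (hCc i) (-t i) (Kc * M)
    exact_mod_cast this
  have h1 : |∑ n ∈ Bx r N, ∑ s ∈ range M, Φ (n + ((s : ℕ) : ℤ) • v)|
      ≤ ε / 4 * M * (N : ℝ) ^ r + M * ((k + m : ℕ) * ((2 * (Kc * M) + 1) * (N : ℝ) ^ (r - 1))) := by
    refine (abs_sum_le_sum_abs _ _).trans ((sum_le_sum hline).trans ?_)
    rw [sum_add_distrib, sum_const, card_Bx, nsmul_eq_mul, ← mul_sum, sum_add_distrib, sum_comm,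
      sum_comm (s := Bx r N) (t := (univ : Finset (Fin m)))]
    have h2 := sum_le_sum fun a (_ : a ∈ (univ : Finset (Fin k))) => hnear a
    rw [sum_const, card_univ, Fintype.card_fin, nsmul_eq_mul] at h2
    have h2' := sum_le_sum fun a (_ : a ∈ (univ : Finset (Fin m))) => hnear' a
    rw [sum_const, card_univ, Fintype.card_fin, nsmul_eq_mul] at h2'
    have h3 := mul_le_mul_of_nonneg_left (add_le_add h2 h2') hM0r.le
    rw [Nat.cast_pow, Nat.cast_add k m, add_mul (k : ℝ)]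
    linarith
  -- shifts
  have h2 : |M * ∑ n ∈ Bx r N, Φ n - ∑ n ∈ Bx r N, ∑ s ∈ range M, Φ (n + ((s : ℕ) : ℤ) • v)|
      ≤ M * (2 * (M * Vv) * (N : ℝ) ^ (r - 1)) := by
    rw [sum_comm]
    have e1 : (M : ℝ) * ∑ n ∈ Bx r N, Φ n - ∑ s ∈ range M, ∑ n ∈ Bx r N, Φ (n + ((s : ℕ) : ℤ) • v)
        = ∑ s ∈ range M, (∑ n ∈ Bx r N, Φ n - ∑ n ∈ Bx r N, Φ (n + ((s : ℕ) : ℤ) • v)) := by
      rw [sum_sub_distrib, sum_const, card_range, nsmul_eq_mul]
    rw [e1]
    refine (abs_sum_le_sum_abs _ _).trans ?_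
    calc _ ≤ ∑ s ∈ range M, (2 * (M * Vv) * (N : ℝ) ^ (r - 1)) := by
          apply sum_le_sum
          intro s hs
          rw [mem_range] at hs
          refine (shift_sum hΦ1 (((s : ℕ) : ℤ) • v)).trans ?_
          apply mul_le_mul_of_nonneg_right _ (by positivity)
          apply mul_le_mul_of_nonneg_left _ (by norm_num)
          have h3 : ∑ j, ((((s : ℕ) : ℤ) • v) j).natAbs = s * Vv := by
            rw [hVv, mul_sum]
            apply sum_congr rfl; intro j _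
            rw [Pi.smul_apply, smul_eq_mul, Int.natAbs_mul, Int.natAbs_natCast]
          rw [h3]
          push_cast
          exact mul_le_mul_of_nonneg_right (by exact_mod_cast hs.le) (Nat.cast_nonneg _)
      _ = _ := by rw [sum_const, card_range, nsmul_eq_mul]
  -- conclusion
  have h3 : (M : ℝ) * |∑ n ∈ Bx r N, Φ n| ≤ M * (ε / 4 * (N : ℝ) ^ r + (k + m : ℕ) * ((2 * (Kc * M) + 1) * (N : ℝ) ^ (r - 1))
      + 2 * (M * Vv) * (N : ℝ) ^ (r - 1)) := by
    have e1 : (M : ℝ) * |∑ n ∈ Bx r N, Φ n| = |M * ∑ n ∈ Bx r N, Φ n| := by rw [abs_mul, abs_of_pos hM0r]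
    rw [e1]
    have h4 := abs_sub_abs_le_abs_sub (M * ∑ n ∈ Bx r N, Φ n) (∑ n ∈ Bx r N, ∑ s ∈ range M, Φ (n + ((s : ℕ) : ℤ) • v))
    linarith
  have h4 := le_of_mul_le_mul_left h3 hM0r
  refine h4.trans ?_
  have hNr : (0 : ℝ) ≤ (N : ℝ) ^ (r - 1) := by positivity
  have h5 : (M : ℝ) * q ≤ N := by
    have : q * M ≤ N := hMq
    have h6 : ((q * M : ℕ) : ℝ) ≤ N := by exact_mod_cast this
    push_cast at h6
    linarith
  have h6 : (2 * (k + m) * Kc + 2 * Vv : ℕ) * (M : ℝ) ≤ ε / 4 * N := by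
    have h7 : ((2 * (k + m) * Kc + 2 * Vv : ℕ) : ℝ) ≤ ε / 4 * q := by
      have h8 : ((2 * (k + m) * Kc + 2 * Vv : ℕ) : ℝ) / (ε / 4) ≤ q := by linarith
      rw [div_le_iff₀ (by positivity)] at h8
      linarith
    calc ((2 * (k + m) * Kc + 2 * Vv : ℕ) : ℝ) * M ≤ (ε / 4 * q) * M := mul_le_mul_of_nonneg_right h7 hM0r.le
      _ = ε / 4 * (M * q) := by ring
      _ ≤ ε / 4 * N := mul_le_mul_of_nonneg_left h5 (by positivity)
  have h7 : ((k + m : ℕ) : ℝ) ≤ ε / 4 * N := by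
    have h8 : ((k + m : ℕ) : ℝ) / (ε / 4) ≤ N := hN1.trans (by exact_mod_cast hNN1)
    rw [div_le_iff₀ (by positivity)] at h8
    linarith
  push_cast at h6 h7 ⊢
  have h8 := mul_le_mul_of_nonneg_right (add_le_add h6 h7) hNr
  rw [hpr]
  have h9 : 0 ≤ ε / 4 * (N * (N : ℝ) ^ (r - 1)) := by positivity
  linarith

end SH6

end Pool.Agent.KS6_24.ST
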