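import Mathlib
import Pool.Agent.KS6_24.ST.SH9

/-!
SH11 (helper6): product law on regions and the law of affine configurations `x + c_a · h` (arithmetic progressions, cubes).
-/

set_option autoImplicit false

namespace Pool.Agent.KS6_24.ST

open Finset Filter Topology Pool.Agent.H499R2.CO Pool.Agent.Y965.SI Pool.Agent.KS6_24.LN Pool.Agent.KS6_24.LN.TW

namespace SH6

theorem half_inv6 {d : ℤ} {F : ℤ → ℝ} (hF : InvF d F) {μ : ℝ} (hμ : |μ| ≤ 1) : InvF d (fun x => (F x - μ) / 2) := by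
  refine ⟨fun x => ?_, fun x => ?_⟩
  · rw [abs_div, abs_of_pos (show (0 : ℝ) < 2 by norm_num), div_le_one (by norm_num)]
    have := abs_sub (F x) μ
    have := hF.1 x
    linarith
  · simp only [hF.2]

theorem half_mz6 {F : ℤ → ℝ} {μ : ℝ} (h : MeanZero (fun x => F x - μ)) : MeanZero (fun x => (F x - μ) / 2) := by
  unfold MeanZero at h ⊢
  have h2 := h.const_mul (1 / 2)
  rw [mul_zero] at h2
  refine h2.congr fun N => ?_
  rw [← sum_div]; ring

/-- **Product law on regions.** -/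
theorem prod_region (hS : S_SUMS) (hD : S_DIR) {k r : ℕ} {L : Fin k → Fin r → ℤ} (hL : ∀ a, L a ≠ 0)
    (hrel : ∀ a b, a ≠ b → ∀ x y u v : ℕ, (fun j => 2 ^ x * 3 ^ y * L a j) ≠ fun j => 2 ^ u * 3 ^ v * L b j)
    {σ : Fin k → ℤ} (hσ : ∀ a, σ a = 1 ∨ σ a = -1) (hw : ∃ w : Fin r → ℤ, ∀ a, 0 < σ a * ∑ j, L a j * w j)
    {f : Fin k → ℤ → ℝ} (hf : ∀ a, InvF (σ a) (fun x => f a (σ a * x))) {μ : Fin k → ℝ} (hμ : ∀ a, |μ a| ≤ 1)
    (hm : ∀ a, MeanZero (fun x => f a (σ a * x) - μ a)) {m : ℕ} {Cc : Fin m → Fin r → ℤ} (hCc : ∀ i, Cc i ≠ 0) (B : ℕ)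
    {ε : ℝ} (hε : 0 < ε) :
    ∃ N0 : ℕ, ∀ N : ℕ, N0 ≤ N → ∀ b : Fin k → ℤ, (∀ a, |b a| ≤ B * N) → ∀ t : Fin m → ℤ,
      |∑ n ∈ Bx r N, phr L b σ f Cc t n - (∏ a, μ a) * ∑ n ∈ Bx r N, phr L b σ (fun _ _ => 1) Cc t n| ≤ ε * (N : ℝ) ^ r := by
  classical
  suffices h : ∀ T : Finset (Fin k), ∀ ε : ℝ, 0 < ε → ∃ N0 : ℕ, ∀ N : ℕ, N0 ≤ N → ∀ b : Fin k → ℤ, (∀ a, |b a| ≤ B * N) →
      ∀ t : Fin m → ℤ, |∑ n ∈ Bx r N, phr L b σ (fun a => if a ∈ T then f a else fun _ => 1) Cc t n
        - (∏ a ∈ T, μ a) * ∑ n ∈ Bx r N, phr L b σ (fun _ _ => 1) Cc t n| ≤ ε * (N : ℝ) ^ r by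
    have h1 := h univ ε hε
    simp only [mem_univ, if_true] at h1
    exact h1
  intro T
  induction T using Finset.induction_on with
  | empty =>
    intro ε hε
    refine ⟨0, fun N _ b hb t => ?_⟩
    simp only [Finset.notMem_empty, if_false, Finset.prod_empty, one_mul, sub_self, abs_zero]
    positivity
  | insert a T ha ih =>
    intro ε hε
    obtain ⟨N1, h1⟩ := ih (ε / 2) (by positivity)
    set g : Fin k → ℤ → ℝ := fun c => if c ∈ T then f c else if c = a then fun x => (f a x - μ a) / 2 else fun _ => 1 with hg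
    have hginv : ∀ c, InvF (σ c) (fun x => g c (σ c * x)) := by
      intro c
      rw [hg]
      simp only
      split_ifs with h h'
      · exact hf c
      · subst h'
        exact half_inv6 (hf c) (hμ c)
      · exact ⟨fun _ => by simp, fun _ => rfl⟩
    have hgm : MeanZero (fun x => g a (σ a * x)) := by
      rw [hg]
      simp only [if_neg ha, if_true]
      exact half_mz6 (hm a)
    obtain ⟨N2, h2⟩ := slice_unif hS hD hL hrel hσ hw hginv a hgm hCc B (ε := ε / 4) (by positivity)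
    refine ⟨max N1 N2, fun N hN b hb t => ?_⟩
    have h1' := h1 N ((le_max_left _ _).trans hN) b hb t
    have h2' := h2 N ((le_max_right _ _).trans hN) b hb t
    have e : ∀ n, phr L b σ (fun c => if c ∈ insert a T then f c else fun _ => 1) Cc t n
        = 2 * phr L b σ g Cc t n + μ a * phr L b σ (fun c => if c ∈ T then f c else fun _ => 1) Cc t n := by
      intro n
      unfold phr
      split_ifs with h
      · unfold ph
        rw [← Finset.mul_prod_erase univ _ (mem_univ a),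
          ← Finset.mul_prod_erase univ (fun c => g c (lf (L c) n + b c) * if 0 < σ c * (lf (L c) n + b c) then 1 else 0)
            (mem_univ a),
          ← Finset.mul_prod_erase univ (fun c => (if c ∈ T then f c else fun _ => 1) (lf (L c) n + b c)
            * if 0 < σ c * (lf (L c) n + b c) then 1 else 0) (mem_univ a)]
        have e1 : ∏ c ∈ univ.erase a, ((if c ∈ insert a T then f c else fun _ => 1) (lf (L c) n + b c)
              * if 0 < σ c * (lf (L c) n + b c) then 1 else 0)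
            = ∏ c ∈ univ.erase a, ((if c ∈ T then f c else fun _ => 1) (lf (L c) n + b c)
              * if 0 < σ c * (lf (L c) n + b c) then 1 else 0) := by
          apply prod_congr rfl
          intro c hc
          have hca : c ≠ a := ne_of_mem_erase hc
          simp only [mem_insert, hca, false_or]
        have e2 : ∏ c ∈ univ.erase a, (g c (lf (L c) n + b c) * if 0 < σ c * (lf (L c) n + b c) then 1 else 0)
            = ∏ c ∈ univ.erase a, ((if c ∈ T then f c else fun _ => 1) (lf (L c) n + b c)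
              * if 0 < σ c * (lf (L c) n + b c) then 1 else 0) := by
          apply prod_congr rfl
          intro c hc
          have hca : c ≠ a := ne_of_mem_erase hc
          rw [hg]
          simp only [if_neg hca]
        rw [e1, e2]
        have e3 : g a (lf (L a) n + b a) = (f a (lf (L a) n + b a) - μ a) / 2 := by
          rw [hg]
          simp only [if_neg ha, if_true]
        rw [e3]
        simp only [mem_insert_self, if_true, if_neg ha]
        ring
      · simp
    rw [Finset.prod_insert ha, sum_congr rfl (fun n _ => e n), sum_add_distrib, ← mul_sum, ← mul_sum]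
    have e4 : 2 * ∑ n ∈ Bx r N, phr L b σ g Cc t n
          + μ a * ∑ n ∈ Bx r N, phr L b σ (fun c => if c ∈ T then f c else fun _ => 1) Cc t n
          - μ a * (∏ a ∈ T, μ a) * ∑ n ∈ Bx r N, phr L b σ (fun _ _ => 1) Cc t n
        = 2 * ∑ n ∈ Bx r N, phr L b σ g Cc t n
          + μ a * (∑ n ∈ Bx r N, phr L b σ (fun c => if c ∈ T then f c else fun _ => 1) Cc t n
          - (∏ a ∈ T, μ a) * ∑ n ∈ Bx r N, phr L b σ (fun _ _ => 1) Cc t n) := by ring
    rw [e4]
    refine (abs_add_le _ _).trans ?_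
    rw [abs_mul, abs_mul, abs_of_pos (show (0 : ℝ) < 2 by norm_num)]
    have h3 : |μ a| * |∑ n ∈ Bx r N, phr L b σ (fun c => if c ∈ T then f c else fun _ => 1) Cc t n
          - (∏ a ∈ T, μ a) * ∑ n ∈ Bx r N, phr L b σ (fun _ _ => 1) Cc t n| ≤ 1 * (ε / 2 * (N : ℝ) ^ r) :=
      mul_le_mul (hμ a) h1' (abs_nonneg _) zero_le_one
    linarith

/-- the configurations `(x + c_a · h)_a` inside `[1, N]`, with `|x|, |h_i| ≤ N` -/
noncomputable def Pat {ι : Type*} [Fintype ι] {j : ℕ} (c : ι → Fin j → ℤ) (N : ℕ) : Finset (ℤ × (Fin j → ℤ)) :=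
  {p ∈ Icc (-(N : ℤ)) N ×ˢ Fintype.piFinset (fun _ : Fin j => Icc (-(N : ℤ)) N) |
    ∀ a, 1 ≤ p.1 + ∑ i, c a i * p.2 i ∧ p.1 + ∑ i, c a i * p.2 i ≤ N}

/-- the sum over the configurations as a sum over a box -/
theorem pat_sum {ι : Type*} [Fintype ι] [DecidableEq ι] {k j : ℕ} (e : Fin k ≃ ι) (c : ι → Fin j → ℤ) {s : ℤ}
    (hs : s = 1 ∨ s = -1) (N : ℕ) (f : ι → ℤ → ℝ) :
    ∑ n ∈ Bx (j + 1) (2 * N + 1), phr (fun a => (Fin.cons s (fun i => s * c (e a) i) : Fin (j + 1) → ℤ))
        (fun a => -(s * ((N + 1) * (1 + ∑ i, c (e a) i)))) (fun _ => s) (fun a => f (e a))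
        (fun a => (Fin.cons 1 (c (e a)) : Fin (j + 1) → ℤ)) (fun a => N + (N + 1) * (1 + ∑ i, c (e a) i)) n
      = ∑ p ∈ Pat c N, ∏ a, f a (s * (p.1 + ∑ i, c a i * p.2 i)) := by
  classical
  have hss : s * s = 1 := by rcases hs with h | h <;> rw [h] <;> norm_num
  unfold Pat
  rw [sum_filter]
  refine Finset.sum_nbij' (fun n => (n 0 - (N + 1), fun i => n i.succ - (N + 1)))
    (fun p => (Fin.cons (p.1 + (N + 1)) (fun i => p.2 i + (N + 1)) : Fin (j + 1) → ℤ)) ?_ ?_ ?_ ?_ ?_
  · intro n hn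
    rw [mem_Bx] at hn
    rw [mem_product, mem_Icc, Fintype.mem_piFinset]
    have h0 := mem_Icc.1 (hn 0)
    push_cast at h0
    refine ⟨⟨by simp only; linarith, by simp only; linarith⟩, fun i => ?_⟩
    have h1 := mem_Icc.1 (hn i.succ)
    push_cast at h1
    rw [mem_Icc]
    constructor <;> simp only <;> linarith
  · intro p hp
    rw [mem_product, mem_Icc, Fintype.mem_piFinset] at hp
    rw [mem_Bx]
    intro i
    rw [mem_Icc]
    refine Fin.cases ?_ (fun i => ?_) i
    · rw [Fin.cons_zero]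
      push_cast
      constructor <;> linarith [hp.1.1, hp.1.2]
    · rw [Fin.cons_succ]
      have := mem_Icc.1 (hp.2 i)
      push_cast
      constructor <;> linarith [this.1, this.2]
  · intro n _
    funext i
    refine Fin.cases ?_ (fun i => ?_) i
    · rw [Fin.cons_zero]; simp
    · rw [Fin.cons_succ]; simp
  · intro p _
    ext
    · simp
    · simp
  · intro n _
    simp only
    set x : ℤ := n 0 - (N + 1) with hx
    set h : Fin j → ℤ := fun i => n i.succ - (N + 1) with hh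
    have hval : ∀ a, n 0 + ∑ i, c a i * n i.succ = x + ∑ i, c a i * h i + (N + 1) * (1 + ∑ i, c a i) := by
      intro a
      have : ∑ i, c a i * n i.succ = ∑ i, c a i * h i + (N + 1) * ∑ i, c a i := by
        rw [mul_sum, ← sum_add_distrib]
        apply sum_congr rfl
        intro i _
        rw [hh]; ring
      rw [this, hx]; ring
    have hl1 : ∀ a, lf (Fin.cons 1 (c a) : Fin (j + 1) → ℤ) n = n 0 + ∑ i, c a i * n i.succ := by
      intro a
      unfold lf
      rw [Fin.sum_univ_succ]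
      simp only [Fin.cons_zero, Fin.cons_succ, one_mul]
    have hl2 : ∀ a, lf (Fin.cons s (fun i => s * c a i) : Fin (j + 1) → ℤ) n = s * (n 0 + ∑ i, c a i * n i.succ) := by
      intro a
      unfold lf
      rw [Fin.sum_univ_succ]
      simp only [Fin.cons_zero, Fin.cons_succ]
      rw [mul_add, mul_sum]
      congr 1
      apply sum_congr rfl
      intro i _
      ring
    have hv2 : ∀ a, lf (Fin.cons s (fun i => s * c a i) : Fin (j + 1) → ℤ) n + -(s * ((N + 1) * (1 + ∑ i, c a i)))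
        = s * (x + ∑ i, c a i * h i) := by
      intro a
      rw [hl2, hval]; ring
    have hv1 : ∀ a, (lf (Fin.cons 1 (c a) : Fin (j + 1) → ℤ) n ≤ N + (N + 1) * (1 + ∑ i, c a i))
        ↔ x + ∑ i, c a i * h i ≤ N := by
      intro a
      rw [hl1, hval]
      constructor <;> intro h' <;> linarith
    unfold phr
    by_cases hin : ∀ a, 1 ≤ x + ∑ i, c a i * h i ∧ x + ∑ i, c a i * h i ≤ N
    · rw [if_pos (fun a => (hv1 (e a)).2 (hin (e a)).2), if_pos hin]
      unfold ph
      rw [← Equiv.prod_comp e]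
      apply prod_congr rfl
      intro a _
      rw [hv2 (e a), ← mul_assoc, hss, one_mul, if_pos (by have := (hin (e a)).1; linarith), mul_one]
    · rw [if_neg hin]
      split_ifs with hr
      · have hex : ∃ a, ¬ (1 ≤ x + ∑ i, c (e a) i * h i) := by
          by_contra hcon
          push Not at hcon
          apply hin
          intro a
          have h1 := hcon (e.symm a)
          have h2 := (hv1 _).1 (hr (e.symm a))
          rw [Equiv.apply_symm_apply] at h1 h2
          exact ⟨h1, h2⟩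
        obtain ⟨a, ha⟩ := hex
        apply ph_zero (a := a)
        rw [hv2 (e a), ← mul_assoc, hss, one_mul]
        omega
      · rfl

/-- there are many configurations -/
theorem card_pat {ι : Type*} [Fintype ι] {j : ℕ} (c : ι → Fin j → ℤ) (N : ℕ) :
    (N / (2 * (∑ a, ∑ i, (c a i).natAbs) + 1)) ^ (j + 1) ≤ #(Pat c N) := by
  classical
  obtain ⟨D, hD⟩ : ∃ D : ℕ, D = ∑ a, ∑ i, (c a i).natAbs := ⟨_, rfl⟩
  obtain ⟨q, hq⟩ : ∃ q : ℕ, q = N / (2 * D + 1) := ⟨_, rfl⟩
  have hqN : (2 * D + 1) * q ≤ N := by rw [hq]; exact Nat.mul_div_le N _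
  have hqNz : (2 * (D : ℤ) + 1) * q ≤ N := by exact_mod_cast hqN
  have hDa : ∀ a, ∑ i, (c a i).natAbs ≤ D := by
    intro a
    rw [hD]
    exact single_le_sum (f := fun a => ∑ i, (c a i).natAbs) (fun _ _ => Nat.zero_le _) (mem_univ a)
  rw [← hD, ← hq]
  have hsub : Icc ((D : ℤ) * q + 1) (D * q + q) ×ˢ Fintype.piFinset (fun _ : Fin j => Icc (1 : ℤ) q) ⊆ Pat c N := by
    intro p hp
    rw [mem_product, mem_Icc, Fintype.mem_piFinset] at hp
    obtain ⟨hp1, hp2⟩ := hp
    have hp2' : ∀ i, 1 ≤ p.2 i ∧ p.2 i ≤ q := fun i => mem_Icc.1 (hp2 i)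
    have hq0 : (0 : ℤ) ≤ D * q := by positivity
    have hq0' : (0 : ℤ) ≤ q := by positivity
    have hb : ∀ a, |∑ i, c a i * p.2 i| ≤ D * q := by
      intro a
      refine (abs_sum_le_sum_abs _ _).trans ?_
      have h1 : ∑ i, |c a i * p.2 i| ≤ ∑ i, ((c a i).natAbs : ℤ) * q := by
        apply sum_le_sum
        intro i _
        rw [abs_mul, Int.natCast_natAbs, abs_of_nonneg (show 0 ≤ p.2 i by have := (hp2' i).1; omega)]
        exact mul_le_mul_of_nonneg_left (hp2' i).2 (abs_nonneg _)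
      refine h1.trans ?_
      rw [← sum_mul]
      apply mul_le_mul_of_nonneg_right _ (by positivity)
      exact_mod_cast hDa a
    unfold Pat
    rw [mem_filter, mem_product, mem_Icc, Fintype.mem_piFinset]
    refine ⟨⟨⟨by linarith, by linarith⟩, fun i => ?_⟩, fun a => ?_⟩
    · rw [mem_Icc]
      have h1 := hp2' i
      exact ⟨by linarith, by linarith⟩
    · have h1 := abs_le.1 (hb a)
      exact ⟨by linarith, by linarith⟩
  refine le_trans (le_of_eq ?_) (card_le_card hsub)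
  rw [card_product, Int.card_Icc, Fintype.card_piFinset]
  simp only [Int.card_Icc, Finset.prod_const, card_univ, Fintype.card_fin]
  have e1 : ((D : ℤ) * q + q + 1 - (D * q + 1)).toNat = q := by
    have : ((D : ℤ) * q + q + 1 - (D * q + 1)) = q := by ring
    rw [this]; exact Int.toNat_natCast q
  have e2 : ((q : ℤ) + 1 - 1).toNat = q := by
    have : ((q : ℤ) + 1 - 1) = q := by ring
    rw [this]; exact Int.toNat_natCast q
  rw [e1, e2, pow_succ']

/-- **The law of affine configurations.** -/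
theorem pattern_law (hS : S_SUMS) (hD : S_DIR) {ι : Type*} [Fintype ι] {j : ℕ} {c : ι → Fin j → ℤ}
    (hc : Function.Injective c) {s : ℤ} (hs : s = 1 ∨ s = -1) {f : ι → ℤ → ℝ} (hf : ∀ a, InvF s (fun x => f a (s * x)))
    {μ : ι → ℝ} (hμ : ∀ a, |μ a| ≤ 1) (hm : ∀ a, MeanZero (fun x => f a (s * x) - μ a)) :
    Tendsto (fun N : ℕ => (∑ p ∈ Pat c N, ∏ a, f a (s * (p.1 + ∑ i, c a i * p.2 i))) / (#(Pat c N) : ℝ)) atTop
      (𝓝 (∏ a, μ a)) := by
  classical
  have hss : s * s = 1 := by rcases hs with h | h <;> rw [h] <;> norm_num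
  have hs0 : s ≠ 0 := by rcases hs with h | h <;> rw [h] <;> norm_num
  obtain ⟨k, hk⟩ : ∃ k, k = Fintype.card ι := ⟨_, rfl⟩
  have e : Fin k ≃ ι := (Fintype.equivFinOfCardEq hk.symm).symm
  obtain ⟨D, hDD⟩ : ∃ D : ℕ, D = ∑ a, ∑ i, (c a i).natAbs := ⟨_, rfl⟩
  have hDa : ∀ a, ∑ i, (c a i).natAbs ≤ D := by
    intro a
    rw [hDD]
    exact single_le_sum (f := fun a => ∑ i, (c a i).natAbs) (fun _ _ => Nat.zero_le _) (mem_univ a)
  have hprod := fun (ε : ℝ) (hε : 0 < ε) => prod_region hS hD (k := k) (r := j + 1)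
    (L := fun a => (Fin.cons s (fun i => s * c (e a) i) : Fin (j + 1) → ℤ))
    (fun a h => hs0 (by have := congrFun h 0; simpa using this))
    (fun a b hab x y u v h => by
      have h0 : 2 ^ x * 3 ^ y * s = 2 ^ u * 3 ^ v * s := by
        have := congrFun h 0
        simpa using this
      have h1 : (2 : ℤ) ^ x * 3 ^ y = 2 ^ u * 3 ^ v := mul_right_cancel₀ hs0 h0
      apply hab
      apply e.injective
      apply hc
      funext i
      have h2 : 2 ^ x * 3 ^ y * (s * c (e a) i) = 2 ^ u * 3 ^ v * (s * c (e b) i) := by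
        have := congrFun h i.succ
        simpa using this
      rw [h1] at h2
      have h3 := mul_left_cancel₀ (show (2 : ℤ) ^ u * 3 ^ v ≠ 0 by positivity) h2
      exact mul_left_cancel₀ hs0 h3)
    (σ := fun _ => s) (fun _ => hs)
    ⟨Fin.cons 1 (fun _ => 0), fun a => by
      rw [Fin.sum_univ_succ]
      simp [hss]⟩
    (f := fun a => f (e a)) (fun a => hf (e a)) (μ := fun a => μ (e a)) (fun a => hμ _) (fun a => hm _)
    (Cc := fun a => (Fin.cons 1 (c (e a)) : Fin (j + 1) → ℤ))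
    (fun a h => by have := congrFun h 0; simp at this) (D + 1) hε
  rw [Metric.tendsto_atTop]
  intro ε hε
  obtain ⟨Z, hZ⟩ : ∃ Z : ℝ, Z = (3 * (2 * (2 * D + 1))) ^ (j + 1) := ⟨_, rfl⟩
  have hZ0 : 0 < Z := by rw [hZ]; positivity
  obtain ⟨N0, hN0⟩ := hprod (ε / (2 * Z)) (by positivity)
  refine ⟨max N0 (2 * D + 1), fun N hN => ?_⟩
  have hN1 : N0 ≤ 2 * N + 1 := by have := (le_max_left _ _).trans hN; omega
  have hN2 : 2 * D + 1 ≤ N := (le_max_right _ _).trans hN
  have h1 := hN0 (2 * N + 1) hN1 (fun a => -(s * ((N + 1) * (1 + ∑ i, c (e a) i)))) (fun a => by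
    rw [abs_neg, abs_mul, abs_mul]
    have h2 : |s| = 1 := by rcases hs with h | h <;> rw [h] <;> norm_num
    have h3 : |1 + ∑ i, c (e a) i| ≤ (D : ℤ) + 1 := by
      refine (abs_add_le _ _).trans ?_
      have h4 : |∑ i, c (e a) i| ≤ (D : ℤ) := by
        refine (abs_sum_le_sum_abs _ _).trans ?_
        have h5 : ∑ i, |c (e a) i| = ((∑ i, (c (e a) i).natAbs : ℕ) : ℤ) := by
          rw [Nat.cast_sum]
          apply sum_congr rfl
          intro i _
          rw [Int.natCast_natAbs]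
        rw [h5]
        exact_mod_cast hDa (e a)
      rw [abs_one]; linarith
    rw [h2, one_mul, abs_of_pos (show (0 : ℤ) < (N : ℤ) + 1 by positivity), mul_comm]
    push_cast
    apply mul_le_mul h3 _ (by positivity) (by positivity)
    linarith) (fun a => N + (N + 1) * (1 + ∑ i, c (e a) i))
  rw [pat_sum e c hs N f, pat_sum e c hs N (fun _ _ => 1), Equiv.prod_comp e μ] at h1
  simp only [Finset.prod_const_one, sum_const, nsmul_eq_mul, mul_one] at h1
  -- the number of configurations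
  have hcard := card_pat c N
  rw [← hDD] at hcard
  obtain ⟨q, hq⟩ : ∃ q : ℕ, q = N / (2 * D + 1) := ⟨_, rfl⟩
  rw [← hq] at hcard
  have hq1 : 1 ≤ q := by rw [hq]; exact (Nat.one_le_div_iff (by omega)).2 hN2
  have hqN : N ≤ 2 * (2 * D + 1) * q := by
    have h2 : N < (2 * D + 1) * (q + 1) := by rw [hq]; exact Nat.lt_mul_div_succ N (by omega)
    nlinarith
  have hP0 : (0 : ℝ) < #(Pat c N) := by
    have : 0 < #(Pat c N) := lt_of_lt_of_le (by positivity) hcard
    exact_mod_cast this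
  have hbig : ((2 * N + 1 : ℕ) : ℝ) ^ (j + 1) ≤ Z * #(Pat c N) := by
    have h2 : ((2 * N + 1 : ℕ) : ℝ) ≤ 3 * (2 * (2 * D + 1)) * q := by
      have h3 : 2 * N + 1 ≤ 3 * (2 * (2 * D + 1)) * q := by nlinarith
      exact_mod_cast h3
    calc ((2 * N + 1 : ℕ) : ℝ) ^ (j + 1) ≤ (3 * (2 * (2 * D + 1)) * q) ^ (j + 1) := pow_le_pow_left₀ (by positivity) h2 _
      _ = Z * (q : ℝ) ^ (j + 1) := by rw [hZ, mul_pow]
      _ ≤ Z * #(Pat c N) := mul_le_mul_of_nonneg_left (by exact_mod_cast hcard) hZ0.le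
  rw [Real.dist_eq]
  have e5 : (∑ p ∈ Pat c N, ∏ a, f a (s * (p.1 + ∑ i, c a i * p.2 i))) / (#(Pat c N) : ℝ) - ∏ a, μ a
      = (∑ p ∈ Pat c N, ∏ a, f a (s * (p.1 + ∑ i, c a i * p.2 i)) - (∏ a, μ a) * #(Pat c N)) / #(Pat c N) := by
    field_simp
  rw [e5, abs_div, abs_of_pos hP0, div_lt_iff₀ hP0]
  refine lt_of_le_of_lt h1 ?_
  have h2 : ε / (2 * Z) * ((2 * N + 1 : ℕ) : ℝ) ^ (j + 1) ≤ ε / (2 * Z) * (Z * #(Pat c N)) :=
    mul_le_mul_of_nonneg_left hbig (by positivity)
  have h3 : ε / (2 * Z) * (Z * #(Pat c N)) = ε / 2 * #(Pat c N) := by field_simp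
  have h4 : 0 < ε * #(Pat c N) := by positivity
  linarith

end SH6

end Pool.Agent.KS6_24.ST
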