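import Mathlib
import Pool.Agent.KS6_24.ST.SH11

/-!
SH12 (helper6): Gowers norms of all orders, arithmetic progressions of all lengths.
-/

set_option autoImplicit false

namespace Pool.Agent.KS6_24.ST

open Finset Filter Topology Pool.Agent.H499R2.CO Pool.Agent.Y965.SI Pool.Agent.KS6_24.LN Pool.Agent.KS6_24.LN.TW

namespace SH6

/-- the pairs `(x, h)` such that all vertices `x + ∑_{i ∈ ω} h i` of the cube are in `[1, N]` (`h i` may be negative or zero) -/
noncomputable def cubes (j N : ℕ) : Finset (ℤ × (Fin j → ℤ)) :=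
  {p ∈ Icc (-(N : ℤ)) N ×ˢ Fintype.piFinset (fun _ : Fin j => Icc (-(N : ℤ)) N) |
    ∀ ω : Finset (Fin j), p.1 + ∑ i ∈ ω, p.2 i ∈ Icc (1 : ℤ) N}

/-- the truncation `|x|, |h i| ≤ N` is no restriction -/
theorem mem_cubes {j N : ℕ} {p : ℤ × (Fin j → ℤ)} : p ∈ cubes j N ↔ ∀ ω : Finset (Fin j), p.1 + ∑ i ∈ ω, p.2 i ∈ Icc (1 : ℤ) N := by
  unfold cubes
  rw [mem_filter, mem_product, mem_Icc, Fintype.mem_piFinset]
  constructor
  · exact fun h => h.2
  · intro h
    have h0 := mem_Icc.1 (h ∅)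
    rw [Finset.sum_empty, add_zero] at h0
    refine ⟨⟨⟨by linarith, by linarith⟩, fun i => ?_⟩, h⟩
    have h1 := mem_Icc.1 (h {i})
    rw [Finset.sum_singleton] at h1
    rw [mem_Icc]
    constructor <;> linarith

theorem sum_ind {j : ℕ} (ω : Finset (Fin j)) (h : Fin j → ℤ) : ∑ i, (if i ∈ ω then (1 : ℤ) else 0) * h i = ∑ i ∈ ω, h i := by
  simp only [ite_mul, one_mul, zero_mul]
  rw [Finset.sum_ite_mem, Finset.univ_inter]

/-- **Counting cubes.** -/
theorem cube_law (hS : S_SUMS) (hD : S_DIR) (j : ℕ) {s : ℤ} (hs : s = 1 ∨ s = -1) {f : Finset (Fin j) → ℤ → ℝ}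
    (hf : ∀ ω, InvF s (fun x => f ω (s * x))) {μ : Finset (Fin j) → ℝ} (hμ : ∀ ω, |μ ω| ≤ 1)
    (hm : ∀ ω, MeanZero (fun x => f ω (s * x) - μ ω)) :
    Tendsto (fun N : ℕ => (∑ p ∈ cubes j N, ∏ ω : Finset (Fin j), f ω (s * (p.1 + ∑ i ∈ ω, p.2 i))) / (#(cubes j N) : ℝ)) atTop
      (𝓝 (∏ ω, μ ω)) := by
  classical
  have hinj : Function.Injective (fun (ω : Finset (Fin j)) (i : Fin j) => (if i ∈ ω then (1 : ℤ) else 0)) := by
    intro ω ω' h
    ext i
    have h1 : (if i ∈ ω then (1 : ℤ) else 0) = if i ∈ ω' then (1 : ℤ) else 0 := congrFun h i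
    by_cases h2 : i ∈ ω <;> by_cases h3 : i ∈ ω' <;> simp [h2, h3] at h1 ⊢
  have h1 := pattern_law hS hD hinj hs hf hμ hm
  have h2 : ∀ N, Pat (fun (ω : Finset (Fin j)) (i : Fin j) => (if i ∈ ω then (1 : ℤ) else 0)) N = cubes j N := by
    intro N
    unfold Pat cubes
    apply filter_congr
    intro p _
    simp only [sum_ind, mem_Icc]
  simp only [h2, sum_ind] at h1
  exact h1

/-- **All Gowers norms tend to zero.** -/
theorem gowers (hS : S_SUMS) (hD : S_DIR) (j : ℕ) {s : ℤ} (hs : s = 1 ∨ s = -1) {f : ℤ → ℝ} (hf : InvF s (fun x => f (s * x)))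
    (hm : MeanZero (fun x => f (s * x))) :
    Tendsto (fun N : ℕ => (∑ p ∈ cubes j N, ∏ ω : Finset (Fin j), f (s * (p.1 + ∑ i ∈ ω, p.2 i))) / (#(cubes j N) : ℝ)) atTop
      (𝓝 0) := by
  have h := cube_law hS hD j hs (f := fun _ => f) (fun _ => hf) (μ := fun _ => 0) (fun _ => by simp)
    (fun _ => by simpa using hm)
  rw [Finset.prod_const, card_univ, Fintype.card_finset, Fintype.card_fin, zero_pow (by positivity)] at h
  exact h

/-! ### arithmetic progressions -/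

/-- the progressions `n, n + m, ..., n + K m` with `n, m ≥ 1` inside `[1, N]` -/
noncomputable def AP (K N : ℕ) : Finset (ℤ × ℤ) := {p ∈ Icc (1 : ℤ) N ×ˢ Icc (1 : ℤ) N | p.1 + K * p.2 ≤ N}

theorem card_AP {K : ℕ} (hK : 1 ≤ K) (N : ℕ) : #(AP K N) = ∑ m ∈ range (N / K), (N - K * (m + 1)) := by
  classical
  have h1 : #(AP K N) = ∑ m ∈ range N, (N - K * (m + 1)) := by
    rw [card_eq_sum_card_fiberwise (f := fun p : ℤ × ℤ => (p.2 - 1).toNat) (t := range N)]
    · apply sum_congr rfl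
      intro m hm
      rw [mem_range] at hm
      have h2 : {p ∈ AP K N | (p.2 - 1).toNat = m} = (Icc (1 : ℤ) ((N : ℤ) - K * (m + 1))).image
          (fun x : ℤ => (x, (m : ℤ) + 1)) := by
        ext ⟨p1, p2⟩
        unfold AP
        simp only [mem_filter, mem_product, mem_Icc, Finset.mem_image, Prod.mk.injEq]
        constructor
        · rintro ⟨⟨⟨⟨h3, h4⟩, h5, h6⟩, h7⟩, h8⟩
          have h9 : p2 = m + 1 := by omega
          refine ⟨p1, ⟨h3, ?_⟩, rfl, h9.symm⟩
          rw [h9] at h7; linarith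
        · rintro ⟨x, ⟨h3, h4⟩, rfl, rfl⟩
          have h5 : (0 : ℤ) ≤ K * ((m : ℤ) + 1) := by positivity
          exact ⟨⟨⟨⟨h3, by linarith⟩, by omega, by omega⟩, by linarith⟩, by omega⟩
      rw [h2, card_image_of_injective _ (fun x y h => (Prod.mk.inj h).1), Int.card_Icc]
      have h3 : ((K * (m + 1) : ℕ) : ℤ) = K * ((m : ℤ) + 1) := by push_cast; rfl
      rw [← h3]
      omega
    · intro p hp
      unfold AP at hp
      simp only [coe_filter, mem_product, mem_Icc, Set.mem_ofPred_eq] at hp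
      simp only [coe_range, Set.mem_Iio]
      omega
  rw [h1]
  symm
  apply sum_subset
  · intro m hm
    rw [mem_range] at hm ⊢
    exact lt_of_lt_of_le hm (Nat.div_le_self _ _)
  · intro m _ hm
    rw [mem_range] at hm
    push Not at hm
    have : N < K * (m + 1) := by
      have h2 := Nat.lt_mul_div_succ N (show 0 < K by omega)
      calc N < K * (N / K + 1) := h2
        _ ≤ K * (m + 1) := Nat.mul_le_mul_left _ (by omega)
    omega

theorem card_AP_real {K : ℕ} (hK : 1 ≤ K) (N : ℕ) :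
    (#(AP K N) : ℝ) = N * ((N / K : ℕ) : ℝ) - K * (((N / K : ℕ) : ℝ) * (((N / K : ℕ) : ℝ) + 1) / 2) := by
  rw [card_AP hK]
  obtain ⟨q, hq⟩ : ∃ q, q = N / K := ⟨_, rfl⟩
  rw [← hq]
  have hqN : K * q ≤ N := by rw [hq]; exact Nat.mul_div_le N K
  have h : ∀ p : ℕ, K * p ≤ N → ((∑ m ∈ range p, (N - K * (m + 1)) : ℕ) : ℝ) = N * p - K * (p * (p + 1) / 2) := by
    intro p
    induction p with
    | zero => intro _; simp
    | succ p ih =>
      intro hp
      have h1 := ih (le_trans (Nat.mul_le_mul_left _ (Nat.le_succ _)) hp)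
      rw [sum_range_succ, Nat.cast_add, h1, Nat.cast_sub hp]
      push_cast
      ring
  exact h q hqN

theorem card_AP_lim {K : ℕ} (hK : 1 ≤ K) :
    Tendsto (fun N : ℕ => (#(AP K N) : ℝ) / (N : ℝ) ^ 2) atTop (𝓝 (1 / (2 * K))) := by
  have hK0 : (0 : ℝ) < K := by exact_mod_cast hK
  have h1 : Tendsto (fun N : ℕ => ((N / K : ℕ) : ℝ) / (N : ℝ)) atTop (𝓝 (1 / K)) := by
    have h2 : Tendsto (fun N : ℕ => (1 : ℝ) / (N : ℝ)) atTop (𝓝 0) := tendsto_const_div_atTop_nhds_zero_nat _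
    have h3 : Tendsto (fun N : ℕ => (1 : ℝ) / K - 1 / (N : ℝ)) atTop (𝓝 (1 / K)) := by
      simpa using (tendsto_const_nhds (x := (1 : ℝ) / K)).sub h2
    refine tendsto_of_tendsto_of_tendsto_of_le_of_le' h3 tendsto_const_nhds ?_ ?_
    · filter_upwards [eventually_ge_atTop 1] with N hN
      have hN0 : (0 : ℝ) < N := by exact_mod_cast hN
      have h4 : N < K * (N / K + 1) := Nat.lt_mul_div_succ N (by omega)
      have h5 : (N : ℝ) < K * ((N / K : ℕ) + 1) := by exact_mod_cast h4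
      rw [div_sub_div _ _ hK0.ne' hN0.ne', div_le_div_iff₀ (by positivity) hN0]
      nlinarith
    · filter_upwards [eventually_ge_atTop 1] with N hN
      have hN0 : (0 : ℝ) < N := by exact_mod_cast hN
      have h4 : K * (N / K) ≤ N := Nat.mul_div_le N K
      have h5 : (K : ℝ) * (N / K : ℕ) ≤ N := by exact_mod_cast h4
      rw [div_le_div_iff₀ hN0 hK0]
      linarith
  have h2 : Tendsto (fun N : ℕ => (1 : ℝ) / (N : ℝ)) atTop (𝓝 0) := tendsto_const_div_atTop_nhds_zero_nat _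
  have h3 := h1.sub (((h1.mul (h1.add h2)).const_mul (K : ℝ)).div_const 2)
  have e : (1 : ℝ) / K - K * (1 / K * (1 / K + 0)) / 2 = 1 / (2 * K) := by field_simp; ring
  rw [e] at h3
  refine h3.congr' ?_
  filter_upwards [eventually_ge_atTop 1] with N hN
  have hN0 : (0 : ℝ) < N := by exact_mod_cast hN
  rw [card_AP_real hK]
  field_simp

/-- the sum over progressions as a sum over the box -/
theorem ap_sum {K : ℕ} (N : ℕ) {s : ℤ} (hs : s = 1 ∨ s = -1) (f : Fin (K + 1) → ℤ → ℝ) :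
    ∑ n ∈ Bx 2 N, phr (fun a : Fin (K + 1) => (![s, s * (a : ℕ)] : Fin 2 → ℤ)) (fun _ => 0) (fun _ => s) f
        (fun _ : Fin 1 => (![1, (K : ℤ)] : Fin 2 → ℤ)) (fun _ => N) n
      = ∑ p ∈ AP K N, ∏ a, f a (s * (p.1 + ((a : ℕ) : ℤ) * p.2)) := by
  classical
  have hss : s * s = 1 := by rcases hs with h | h <;> rw [h] <;> norm_num
  unfold AP
  rw [sum_filter]
  refine Finset.sum_nbij' (fun n => (n 0, n 1)) (fun p => ![p.1, p.2]) ?_ ?_ ?_ ?_ ?_
  · intro n hn
    rw [mem_Bx] at hn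
    rw [mem_product]
    exact ⟨hn 0, hn 1⟩
  · intro p hp
    rw [mem_product] at hp
    rw [mem_Bx]
    intro i
    fin_cases i
    · exact hp.1
    · exact hp.2
  · intro n _
    funext i
    fin_cases i <;> rfl
  · intro p _
    rfl
  · intro n hn
    rw [mem_Bx] at hn
    have h0 := mem_Icc.1 (hn 0)
    have h1 := mem_Icc.1 (hn 1)
    have hv1 : lf (![1, (K : ℤ)] : Fin 2 → ℤ) n = n 0 + K * n 1 := by
      unfold lf; rw [Fin.sum_univ_two]; simp
    have hv2 : ∀ a : Fin (K + 1), lf (![s, s * (a : ℕ)] : Fin 2 → ℤ) n + 0 = s * (n 0 + ((a : ℕ) : ℤ) * n 1) := by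
      intro a
      unfold lf; rw [Fin.sum_univ_two]
      simp only [Matrix.cons_val_zero, Matrix.cons_val_one, Matrix.cons_val_fin_one]
      ring
    unfold phr
    simp only [hv1, forall_const]
    split_ifs with h
    · unfold ph
      apply prod_congr rfl
      intro a _
      rw [hv2 a, if_pos, mul_one]
      rw [← mul_assoc, hss, one_mul]
      have : 0 ≤ ((a : ℕ) : ℤ) * n 1 := by
        apply mul_nonneg (by positivity); omega
      omega
    · rfl

/-- **Progressions.** -/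
theorem ap_law (hS : S_SUMS) (hD : S_DIR) {K : ℕ} (hK : 1 ≤ K) {s : ℤ} (hs : s = 1 ∨ s = -1) {f : Fin (K + 1) → ℤ → ℝ}
    (hf : ∀ a, InvF s (fun x => f a (s * x))) {μ : Fin (K + 1) → ℝ} (hμ : ∀ a, |μ a| ≤ 1)
    (hm : ∀ a, MeanZero (fun x => f a (s * x) - μ a)) :
    Tendsto (fun N : ℕ => (∑ p ∈ AP K N, ∏ a, f a (s * (p.1 + ((a : ℕ) : ℤ) * p.2))) / (N : ℝ) ^ 2) atTop
      (𝓝 ((∏ a, μ a) / (2 * K))) := by
  classical
  have hss : s * s = 1 := by rcases hs with h | h <;> rw [h] <;> norm_num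
  have hs0 : s ≠ 0 := by rcases hs with h | h <;> rw [h] <;> norm_num
  have hprod := fun (ε : ℝ) (hε : 0 < ε) => prod_region hS hD (k := K + 1) (r := 2)
    (L := fun a : Fin (K + 1) => (![s, s * (a : ℕ)] : Fin 2 → ℤ))
    (fun a h => hs0 (by have := congrFun h 0; simpa using this))
    (fun a b hab x y u v h => by
      have h0 : 2 ^ x * 3 ^ y * s = 2 ^ u * 3 ^ v * s := by
        have := congrFun h 0
        simpa using this
      have h1 : (2 : ℤ) ^ x * 3 ^ y = 2 ^ u * 3 ^ v := mul_right_cancel₀ hs0 h0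
      apply hab
      have h2 : 2 ^ x * 3 ^ y * (s * ((a : ℕ) : ℤ)) = 2 ^ u * 3 ^ v * (s * ((b : ℕ) : ℤ)) := by
        have := congrFun h 1
        simpa using this
      rw [h1] at h2
      have h3 := mul_left_cancel₀ (show (2 : ℤ) ^ u * 3 ^ v ≠ 0 by positivity) h2
      have h4 := mul_left_cancel₀ hs0 h3
      exact Fin.ext (by exact_mod_cast h4))
    (σ := fun _ => s) (fun _ => hs)
    ⟨![1, 0], fun a => by
      rw [Fin.sum_univ_two]
      simp [hss]⟩
    (f := f) hf (μ := μ) hμ hm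
    (Cc := fun _ : Fin 1 => (![1, (K : ℤ)] : Fin 2 → ℤ))
    (fun a h => by have := congrFun h 0; simp at this) 0 hε
  have hkey : Tendsto (fun N : ℕ => (∑ p ∈ AP K N, ∏ a, f a (s * (p.1 + ((a : ℕ) : ℤ) * p.2)) - (∏ a, μ a) * #(AP K N))
      / (N : ℝ) ^ 2) atTop (𝓝 0) := by
    rw [Metric.tendsto_atTop]
    intro ε hε
    obtain ⟨N0, hN0⟩ := hprod (ε / 2) (by positivity)
    refine ⟨max N0 1, fun N hN => ?_⟩
    have h1 := hN0 N ((le_max_left _ _).trans hN) (fun _ => 0) (fun a => by simp) (fun _ => N)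
    rw [ap_sum N hs f, ap_sum N hs (fun _ _ => 1)] at h1
    simp only [Finset.prod_const_one, sum_const, nsmul_eq_mul, mul_one] at h1
    have hN1 : (0 : ℝ) < N := by
      have : 1 ≤ N := (le_max_right _ _).trans hN
      exact_mod_cast this
    rw [Real.dist_eq, sub_zero, abs_div, abs_of_pos (show 0 < (N : ℝ) ^ 2 by positivity), div_lt_iff₀ (by positivity)]
    refine lt_of_le_of_lt h1 ?_
    have : 0 < ε * (N : ℝ) ^ 2 := by positivity
    linarith
  have h2 := hkey.add ((card_AP_lim hK).const_mul (∏ a, μ a))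
  rw [zero_add] at h2
  have e : (∏ a, μ a) * (1 / (2 * (K : ℝ))) = (∏ a, μ a) / (2 * K) := by ring
  rw [e] at h2
  refine h2.congr fun N => ?_
  ring

end SH6

end Pool.Agent.KS6_24.ST
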