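import Mathlib
import Pool.Agent.KS6_24.ST.SH6

/-! SH13 (helper6): a cone with an interior integer point has many points in the box. -/

set_option autoImplicit false

namespace Pool.Agent.KS6_24.ST

open Finset Filter Topology Pool.Agent.H499R2.CO Pool.Agent.Y965.SI Pool.Agent.KS6_24.LN Pool.Agent.KS6_24.LN.TW

namespace SH6

theorem cone_card {k r : ℕ} {L : Fin k → Fin r → ℤ} {σ : Fin k → ℤ} {w : Fin r → ℤ} (hw0 : ∀ j, 0 < w j)
    (hw : ∀ a, 0 < σ a * lf (L a) w) (hσ : ∀ a, σ a = 1 ∨ σ a = -1) :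
    ∃ c : ℝ, 0 < c ∧ ∀ᶠ N : ℕ in atTop, c * (N : ℝ) ^ r ≤ #{n ∈ Bx r N | ∀ a, 0 < σ a * lf (L a) n} := by
  classical
  obtain ⟨D, hD⟩ : ∃ D : ℕ, D = 1 + ∑ a, ∑ j, (L a j).natAbs := ⟨_, rfl⟩
  obtain ⟨W, hW⟩ : ∃ W : ℕ, W = ∑ j, (w j).natAbs := ⟨_, rfl⟩
  have hDa : ∀ a, ∑ j, (L a j).natAbs + 1 ≤ D := by
    intro a
    have := single_le_sum (f := fun a => ∑ j, (L a j).natAbs) (fun _ _ => Nat.zero_le _) (mem_univ a)
    omega
  have hWj : ∀ j, w j ≤ W := by
    intro j
    have h1 : (w j).natAbs ≤ W := by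
      rw [hW]
      exact single_le_sum (f := fun j => (w j).natAbs) (fun _ _ => Nat.zero_le _) (mem_univ j)
    have := hw0 j
    omega
  refine ⟨(1 / (2 * (D * W + 1))) ^ r, by positivity, ?_⟩
  filter_upwards [eventually_ge_atTop (D * W + 1)] with N hN
  obtain ⟨t, ht⟩ : ∃ t : ℕ, t = N / (D * W + 1) := ⟨_, rfl⟩
  have ht1 : 1 ≤ t := by rw [ht]; exact (Nat.one_le_div_iff (by omega)).2 hN
  have htN : (D * W + 1) * t ≤ N := by rw [ht]; exact Nat.mul_div_le N _
  have hNt : N ≤ 2 * (D * W + 1) * t := by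
    have h2 : N < (D * W + 1) * (t + 1) := by rw [ht]; exact Nat.lt_mul_div_succ N (by omega)
    nlinarith
  have htz : (0 : ℤ) < t := by exact_mod_cast ht1
  have hcard : t ^ r ≤ #{n ∈ Bx r N | ∀ a, 0 < σ a * lf (L a) n} := by
    have h1 : (Bx r t).map (addRightEmbedding (((t : ℤ) * D) • w)) ⊆ {n ∈ Bx r N | ∀ a, 0 < σ a * lf (L a) n} := by
      intro n hn
      rw [Finset.mem_map] at hn
      obtain ⟨z, hz, rfl⟩ := hn
      have hz' : ∀ j, 1 ≤ z j ∧ z j ≤ t := fun j => mem_Icc.1 (mem_Bx.1 hz j)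
      show z + ((t : ℤ) * D) • w ∈ _
      rw [mem_filter, mem_Bx]
      constructor
      · intro j
        rw [Pi.add_apply, Pi.smul_apply, smul_eq_mul, mem_Icc]
        have h2 := hz' j
        have h3 := hw0 j
        have h4 := hWj j
        have h5 : (0 : ℤ) ≤ t * D * w j := by positivity
        have h6 : (t : ℤ) * D * w j ≤ t * D * W := mul_le_mul_of_nonneg_left h4 (by positivity)
        have h7 : ((D : ℤ) * W + 1) * t ≤ N := by exact_mod_cast htN
        constructor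
        · linarith
        · have h8 : ((D : ℤ) * W + 1) * t = t * D * W + t := by ring
          linarith
      · intro a
        rw [lf_add, lf_smul]
        have h2 : |lf (L a) z| ≤ ((∑ j, (L a j).natAbs : ℕ) : ℤ) * t := by
          have := lf_abs (L a) 0 hz ht1
          rwa [add_zero, Int.natAbs_zero, add_zero] at this
        have h3 : -|lf (L a) z| ≤ σ a * lf (L a) z := by
          rcases hσ a with h | h <;> rw [h]
          · rw [one_mul]; exact neg_abs_le _
          · rw [neg_one_mul]; exact neg_le_neg (le_abs_self _)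
        have h4 : (t : ℤ) * D * 1 ≤ t * D * (σ a * lf (L a) w) :=
          mul_le_mul_of_nonneg_left (hw a) (by positivity)
        have h5 : ((∑ j, (L a j).natAbs : ℕ) : ℤ) + 1 ≤ D := by exact_mod_cast hDa a
        have h6 : (((∑ j, (L a j).natAbs : ℕ) : ℤ) + 1) * t ≤ D * t := mul_le_mul_of_nonneg_right h5 htz.le
        have h7 : σ a * (lf (L a) z + (t : ℤ) * D * lf (L a) w) = σ a * lf (L a) z + t * D * (σ a * lf (L a) w) := by ring
        rw [h7]
        linarith
    refine le_trans (le_of_eq ?_) (card_le_card h1)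
    rw [card_map, card_Bx]
  have h2 : (N : ℝ) / (2 * (D * W + 1)) ≤ t := by
    rw [div_le_iff₀ (by positivity)]
    have : (N : ℝ) ≤ 2 * (D * W + 1) * t := by exact_mod_cast hNt
    linarith
  calc (1 / (2 * ((D : ℝ) * W + 1))) ^ r * (N : ℝ) ^ r = ((N : ℝ) / (2 * (D * W + 1))) ^ r := by
        rw [← mul_pow]; congr 1; ring
    _ ≤ (t : ℝ) ^ r := pow_le_pow_left₀ (by positivity) h2 _
    _ ≤ _ := by exact_mod_cast hcard

end SH6

end Pool.Agent.KS6_24.ST
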