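import Mathlib
import Pool.Agent.KS6_24.ST.SHDefs
import Pool.Agent.KS6_24.ST.SH7

/-!
PROJECT SHR: as SH, but the real shifts `ρ a` may be negative with `y + ρ a ≤ -V` (`y ∈ [V, 2 V]`): forms that decrease in
absolute value along the line (`f (r - A s)` is `G (A s - r)` with `G x = f (-x)`). It gives ALL systems of affine forms with
pairwise unrelated linear parts, with constant terms up to `B N` (for instance `n` and `N - n`).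
-/

set_option autoImplicit false

namespace Pool.Agent.KS6_24.ST

open Pool.Agent.H499R2.CO Pool.Agent.Y965.SI Finset Pool.Agent.KS6_24.LN Pool.Agent.KS6_24.LN.TW

/-- admissible shifts: `y + ρ ≥ V` or `y + ρ ≤ -V` for all `y ∈ [V, 2 V]`, and `|ρ| ≤ H V` -/
def okS (H V ρ : ℝ) : Prop := (0 ≤ ρ ∧ ρ ≤ H * V) ∨ (3 * V ≤ -ρ ∧ -ρ ≤ H * V)

/-- SH2R: STAGE LEMMA with admissible shifts. -/
def S_STAGER : Prop := ∀ (n : ℕ) (A : Fin n → ℕ) (d : Fin n → ℤ), GoodF A d → ∀ H : ℝ, 0 ≤ H →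
  ∃ (D : ℝ) (m0 : ℕ), 0 < D ∧ 2 ≤ m0 ∧
  ∀ F : Fin n → ℤ → ℝ, (∀ a, InvF (d a) (F a)) → ∀ m L : ℕ, m0 ≤ m → Nat.log 2 m ≤ L → L ≤ 3 * Nat.log 2 m →
  ∀ V : ℝ, 2 ^ m ≤ V → ∀ ρ : Fin n → ℝ, (∀ a, okS H V (ρ a)) →
  ∀ i : Fin n → ℕ, (∀ a, (i a : ℝ) ≤ (m : ℝ) ^ (0.9995 : ℝ)) →
    |cs F A ρ V (fun a => i a) - ∑ c ∈ Fintype.piFinset (fun _ : Fin n => Cs (st m L) (sgw m L) (sB m L)),
        (∏ a, pc 1 (st m L) (sgw m L) (c a)) * cs F A (fun a => ρ a / 2 ^ (st m L)) (V / 2 ^ (st m L)) (fun a => (i a : ℤ) + c a)|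
      ≤ D / (L : ℝ) ^ 4

/-- SH3R: INDEPENDENCE, uniformly in the admissible shifts (the mean zero function has a shift `≥ 0`). -/
def S_CORR : Prop := ∀ (n : ℕ) (A : Fin (n + 1) → ℕ) (d : Fin (n + 1) → ℤ), GoodF A d → ∀ F : Fin (n + 1) → ℤ → ℝ,
  (∀ a, InvF (d a) (F a)) → MeanZero (F 0) → ∀ H : ℝ, 0 ≤ H → ∀ ε : ℝ, 0 < ε → ∃ V0 : ℝ, 1 ≤ V0 ∧ ∀ V : ℝ, V0 ≤ V →
    ∀ ρ : Fin (n + 1) → ℝ, 0 ≤ ρ 0 → (∀ a, okS H V (ρ a)) → |cs F A ρ V (fun _ => 0)| ≤ ε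

/-- SH4R: the same for sums over `s < M` of forms `2 ^ k A s + r` which stay `≥ M` or stay `≤ -M`, uniformly in `r`. -/
def S_SUMR : Prop := ∀ (n : ℕ) (A : Fin (n + 1) → ℕ) (d : Fin (n + 1) → ℤ), GoodF A d → ∀ k : Fin (n + 1) → ℕ,
  ∀ F : Fin (n + 1) → ℤ → ℝ, (∀ a, InvF (d a) (F a)) → MeanZero (F 0) → ∀ (H : ℕ) (ε : ℝ), 0 < ε → ∃ M0 : ℕ, 1 ≤ M0 ∧
  ∀ M : ℕ, M0 ≤ M → ∀ r : Fin (n + 1) → ℤ, (M : ℤ) ≤ r 0 → (∀ a, (M : ℤ) ≤ r a ∨ r a + 2 ^ k a * A a * M ≤ -(M : ℤ)) →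
    (∀ a, |r a| ≤ H * M) → |∑ s ∈ range M, ∏ a, F a (2 ^ k a * A a * ((s : ℕ) : ℤ) + r a)| ≤ ε * M

open Classical in
/-- SH10R: ALL systems of affine forms with pairwise unrelated linear parts, uniformly in the constant terms up to `B N` and in
the convex region. -/
def S_CONVU : Prop := ∀ (k r : ℕ) (L : Fin k → Fin r → ℤ), (∀ a, L a ≠ 0) →
  (∀ a b, a ≠ b → ∀ x y u v : ℕ, (fun j => 2 ^ x * 3 ^ y * L a j) ≠ fun j => 2 ^ u * 3 ^ v * L b j) →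
  ∀ (σ : Fin k → ℤ), (∀ a, σ a = 1 ∨ σ a = -1) → ∀ f : Fin k → ℤ → ℝ, (∀ a, InvF (σ a) (fun x => f a (σ a * x))) →
  ∀ a0, MeanZero (fun x => f a0 (σ a0 * x)) → ∀ (B : ℕ) (ε : ℝ), 0 < ε → ∃ N0 : ℕ, ∀ N, N0 ≤ N →
  ∀ b : Fin k → ℤ, (∀ a, |b a| ≤ B * N) → ∀ Q : Set (Fin r → ℝ), Convex ℝ Q →
    |∑ n ∈ SH6.Bx r N, (if (fun j => (n j : ℝ)) ∈ Q then SH6.ph L b σ f n else 0)| ≤ ε * (N : ℝ) ^ r

end Pool.Agent.KS6_24.ST
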