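import Mathlib
import Pool.Agent.KS6_24.ST.SHRDefs

/-!
SH14R (helper6): product law and sums of two (or more) members, from `S_CONVU`.
-/

set_option autoImplicit false

namespace Pool.Agent.KS6_24.ST

open Finset Filter Topology Pool.Agent.H499R2.CO Pool.Agent.Y965.SI Pool.Agent.KS6_24.LN Pool.Agent.KS6_24.LN.TW

namespace SH6

theorem half_inv14 {d : ℤ} {F : ℤ → ℝ} (hF : InvF d F) {μ : ℝ} (hμ : |μ| ≤ 1) : InvF d (fun x => (F x - μ) / 2) := by
  refine ⟨fun x => ?_, fun x => ?_⟩
  · rw [abs_div, abs_of_pos (show (0 : ℝ) < 2 by norm_num), div_le_one (by norm_num)]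
    have := abs_sub (F x) μ
    have := hF.1 x
    linarith
  · simp only [hF.2]

theorem half_mz14 {F : ℤ → ℝ} {μ : ℝ} (h : MeanZero (fun x => F x - μ)) : MeanZero (fun x => (F x - μ) / 2) := by
  unfold MeanZero at h ⊢
  have h2 := h.const_mul (1 / 2)
  rw [mul_zero] at h2
  refine h2.congr fun N => ?_
  rw [← sum_div]; ring

open Classical in
/-- the summand on a region -/
noncomputable def phQ {k r : ℕ} (L : Fin k → Fin r → ℤ) (b σ : Fin k → ℤ) (f : Fin k → ℤ → ℝ) (Q : Set (Fin r → ℝ))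
    (n : Fin r → ℤ) : ℝ :=
  if (fun j => (n j : ℝ)) ∈ Q then ph L b σ f n else 0

/-- **Product law for all affine systems on convex regions.** -/
theorem prod_convu (hC : S_CONVU) {k r : ℕ} {L : Fin k → Fin r → ℤ} (hL : ∀ a, L a ≠ 0)
    (hrel : ∀ a b, a ≠ b → ∀ x y u v : ℕ, (fun j => 2 ^ x * 3 ^ y * L a j) ≠ fun j => 2 ^ u * 3 ^ v * L b j)
    {σ : Fin k → ℤ} (hσ : ∀ a, σ a = 1 ∨ σ a = -1)
    {f : Fin k → ℤ → ℝ} (hf : ∀ a, InvF (σ a) (fun x => f a (σ a * x))) {μ : Fin k → ℝ} (hμ : ∀ a, |μ a| ≤ 1)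
    (hm : ∀ a, MeanZero (fun x => f a (σ a * x) - μ a)) (B : ℕ) {ε : ℝ} (hε : 0 < ε) :
    ∃ N0 : ℕ, ∀ N : ℕ, N0 ≤ N → ∀ b : Fin k → ℤ, (∀ a, |b a| ≤ B * N) → ∀ Q : Set (Fin r → ℝ), Convex ℝ Q →
      |∑ n ∈ Bx r N, phQ L b σ f Q n - (∏ a, μ a) * ∑ n ∈ Bx r N, phQ L b σ (fun _ _ => 1) Q n| ≤ ε * (N : ℝ) ^ r := by
  classical
  suffices h : ∀ T : Finset (Fin k), ∀ ε : ℝ, 0 < ε → ∃ N0 : ℕ, ∀ N : ℕ, N0 ≤ N → ∀ b : Fin k → ℤ, (∀ a, |b a| ≤ B * N) →
      ∀ Q : Set (Fin r → ℝ), Convex ℝ Q → |∑ n ∈ Bx r N, phQ L b σ (fun a => if a ∈ T then f a else fun _ => 1) Q n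
        - (∏ a ∈ T, μ a) * ∑ n ∈ Bx r N, phQ L b σ (fun _ _ => 1) Q n| ≤ ε * (N : ℝ) ^ r by
    have h1 := h univ ε hε
    simp only [mem_univ, if_true] at h1
    exact h1
  intro T
  induction T using Finset.induction_on with
  | empty =>
    intro ε hε
    refine ⟨0, fun N _ b hb Q _ => ?_⟩
    simp only [Finset.notMem_empty, if_false, Finset.prod_empty, one_mul, sub_self, abs_zero]
    positivity
  | insert a T ha ih =>
    intro ε hε
    obtain ⟨N1, h1⟩ := ih (ε / 2) (by positivity)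
    set g : Fin k → ℤ → ℝ := fun c => if c ∈ T then f c else if c = a then fun x => (f a x - μ a) / 2 else fun _ => 1 with hg
    have hginv : ∀ c, InvF (σ c) (fun x => g c (σ c * x)) := by
      intro c
      rw [hg]
      simp only
      split_ifs with h h'
      · exact hf c
      · subst h'
        exact half_inv14 (hf c) (hμ c)
      · exact ⟨fun _ => by simp, fun _ => rfl⟩
    have hgm : MeanZero (fun x => g a (σ a * x)) := by
      rw [hg]
      simp only [if_neg ha, if_true]
      exact half_mz14 (hm a)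
    obtain ⟨N2, h2⟩ := hC k r L hL hrel σ hσ g hginv a hgm B (ε / 4) (by positivity)
    refine ⟨max N1 N2, fun N hN b hb Q hQ => ?_⟩
    have h1' := h1 N ((le_max_left _ _).trans hN) b hb Q hQ
    have h2' : |∑ n ∈ Bx r N, phQ L b σ g Q n| ≤ ε / 4 * (N : ℝ) ^ r := by
      have h3 := h2 N ((le_max_right _ _).trans hN) b hb Q hQ
      unfold phQ
      convert h3 using 3
    have e : ∀ n, phQ L b σ (fun c => if c ∈ insert a T then f c else fun _ => 1) Q n
        = 2 * phQ L b σ g Q n + μ a * phQ L b σ (fun c => if c ∈ T then f c else fun _ => 1) Q n := by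
      intro n
      unfold phQ
      split_ifs with h
      · unfold ph
        rw [← Finset.mul_prod_erase univ _ (mem_univ a),
          ← Finset.mul_prod_erase univ (fun c => g c (lf (L c) n + b c) * if 0 < σ c * (lf (L c) n + b c) then 1 else 0)
            (mem_univ a),
          ← Finset.mul_prod_erase univ (fun c => (if c ∈ T then f c else fun _ => 1) (lf (L c) n + b c)
            * if 0 < σ c * (lf (L c) n + b c) then 1 else 0) (mem_univ a)]
        have e1 : ∏ c ∈ univ.erase a, ((if c ∈ insert a T then f c else fun _ => 1) (lf (L c) n + b c)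
              * if 0 < σ c * (lf (L c) n + b c) then 1 else 0)
            = ∏ c ∈ univ.erase a, ((if c ∈ T then f c else fun _ => 1) (lf (L c) n + b c)
              * if 0 < σ c * (lf (L c) n + b c) then 1 else 0) := by
          apply prod_congr rfl
          intro c hc
          have hca : c ≠ a := ne_of_mem_erase hc
          simp only [mem_insert, hca, false_or]
        have e2 : ∏ c ∈ univ.erase a, (g c (lf (L c) n + b c) * if 0 < σ c * (lf (L c) n + b c) then 1 else 0)
            = ∏ c ∈ univ.erase a, ((if c ∈ T then f c else fun _ => 1) (lf (L c) n + b c)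
              * if 0 < σ c * (lf (L c) n + b c) then 1 else 0) := by
          apply prod_congr rfl
          intro c hc
          have hca : c ≠ a := ne_of_mem_erase hc
          rw [hg]
          simp only [if_neg hca]
        rw [e1, e2]
        have e3 : g a (lf (L a) n + b a) = (f a (lf (L a) n + b a) - μ a) / 2 := by
          rw [hg]
          simp only [if_neg ha, if_true]
        rw [e3]
        simp only [mem_insert_self, if_true, if_neg ha]
        ring
      · simp
    rw [Finset.prod_insert ha, sum_congr rfl (fun n _ => e n), sum_add_distrib, ← mul_sum, ← mul_sum]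
    have e4 : 2 * ∑ n ∈ Bx r N, phQ L b σ g Q n
          + μ a * ∑ n ∈ Bx r N, phQ L b σ (fun c => if c ∈ T then f c else fun _ => 1) Q n
          - μ a * (∏ a ∈ T, μ a) * ∑ n ∈ Bx r N, phQ L b σ (fun _ _ => 1) Q n
        = 2 * ∑ n ∈ Bx r N, phQ L b σ g Q n
          + μ a * (∑ n ∈ Bx r N, phQ L b σ (fun c => if c ∈ T then f c else fun _ => 1) Q n
          - (∏ a ∈ T, μ a) * ∑ n ∈ Bx r N, phQ L b σ (fun _ _ => 1) Q n) := by ring
    rw [e4]
    refine (abs_add_le _ _).trans ?_
    rw [abs_mul, abs_mul, abs_of_pos (show (0 : ℝ) < 2 by norm_num)]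
    have h3 : |μ a| * |∑ n ∈ Bx r N, phQ L b σ (fun c => if c ∈ T then f c else fun _ => 1) Q n
          - (∏ a ∈ T, μ a) * ∑ n ∈ Bx r N, phQ L b σ (fun _ _ => 1) Q n| ≤ 1 * (ε / 2 * (N : ℝ) ^ r) :=
      mul_le_mul (hμ a) h1' (abs_nonneg _) zero_le_one
    linarith


end SH6

end Pool.Agent.KS6_24.ST
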