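import Mathlib
import Pool.Agent.KS6_24.ST.SH14R

/-!
SH16R (helper6): linear equations `a_0 x_0 + ... + a_j x_j = N` with members of given invariant sets as unknowns.
-/

set_option autoImplicit false

namespace Pool.Agent.KS6_24.ST

open Finset Filter Topology Pool.Agent.H499R2.CO Pool.Agent.Y965.SI Pool.Agent.KS6_24.LN Pool.Agent.KS6_24.LN.TW

namespace SH6

/-- the solutions of `a_0 x_0 + ... + a_j x_j = N` in positive integers -/
noncomputable def Sols {j : ℕ} (a : Fin (j + 1) → ℕ) (N : ℕ) : Finset (Fin (j + 1) → ℤ) :=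
  {x ∈ Bx (j + 1) N | ∑ i, (a i : ℤ) * x i = N}

theorem mem_Sols {j N : ℕ} {a : Fin (j + 1) → ℕ} (ha : ∀ i, 1 ≤ a i) {x : Fin (j + 1) → ℤ} :
    x ∈ Sols a N ↔ (∀ i, 1 ≤ x i) ∧ ∑ i, (a i : ℤ) * x i = N := by
  unfold Sols
  rw [mem_filter, mem_Bx]
  constructor
  · exact fun h => ⟨fun i => (mem_Icc.1 (h.1 i)).1, h.2⟩
  · intro h
    refine ⟨fun i => mem_Icc.2 ⟨h.1 i, ?_⟩, h.2⟩
    have h1 : (a i : ℤ) * x i ≤ ∑ i, (a i : ℤ) * x i :=
      single_le_sum (f := fun i => (a i : ℤ) * x i) (fun i _ => by have := h.1 i; positivity) (mem_univ i)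
    have h2 : (1 : ℤ) ≤ a i := by exact_mod_cast ha i
    have h3 := h.1 i
    rw [h.2] at h1
    nlinarith

/-- the forms -/
def La {j : ℕ} (a : Fin (j + 1) → ℕ) (s : ℤ) : Fin (j + 1) → Fin j → ℤ :=
  Fin.snoc (α := fun _ => Fin j → ℤ) (fun i => Pi.single i (s * a (Fin.last j))) (fun i => -(s * a i.castSucc))

/-- the constant terms -/
def ba {j : ℕ} (s : ℤ) (ρ : Fin j → ℤ) (t : ℤ) : Fin (j + 1) → ℤ :=
  Fin.snoc (α := fun _ => ℤ) (fun i => -(s * ρ i)) (s * t)

/-- the point of the solution set -/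
def Xa {j : ℕ} (a : Fin (j + 1) → ℕ) (ρ : Fin j → ℤ) (t : ℤ) (n : Fin j → ℤ) : Fin (j + 1) → ℤ :=
  Fin.snoc (α := fun _ => ℤ) (fun i => a (Fin.last j) * n i - ρ i) (t - ∑ i, (a i.castSucc : ℤ) * n i)

theorem val_a {j : ℕ} (a : Fin (j + 1) → ℕ) (s : ℤ) (ρ : Fin j → ℤ) (t : ℤ) (n : Fin j → ℤ) (i : Fin (j + 1)) :
    lf (La a s i) n + ba s ρ t i = s * Xa a ρ t n i := by
  refine Fin.lastCases ?_ (fun i => ?_) i
  · unfold lf La ba Xa
    rw [Fin.snoc_last, Fin.snoc_last, Fin.snoc_last, mul_sub, mul_sum]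
    have : ∑ i, -(s * (a i.castSucc : ℤ)) * n i = -∑ i, s * ((a i.castSucc : ℤ) * n i) := by
      rw [← sum_neg_distrib]
      apply sum_congr rfl; intro i _; ring
    rw [this]; ring
  · unfold lf La ba Xa
    rw [Fin.snoc_castSucc, Fin.snoc_castSucc, Fin.snoc_castSucc, sum_eq_single i]
    · rw [Pi.single_eq_same]; ring
    · intro b _ hb
      rw [Pi.single_eq_of_ne hb, zero_mul]
    · simp

/-- one residue class -/
theorem class_sum {j N : ℕ} {a : Fin (j + 1) → ℕ} (ha : ∀ i, 1 ≤ a i) {s : ℤ} (hs : s = 1 ∨ s = -1)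
    (f : Fin (j + 1) → ℤ → ℝ) {ρ : Fin j → ℤ} (hρ : ∀ i, 0 ≤ ρ i ∧ ρ i < a (Fin.last j)) {t : ℤ}
    (ht : (a (Fin.last j) : ℤ) * t = N + ∑ i, (a i.castSucc : ℤ) * ρ i) :
    ∑ n ∈ Bx j N, phQ (La a s) (ba s ρ t) (fun _ => s) f Set.univ n
      = ∑ x ∈ Sols a N with (fun i : Fin j => (-x i.castSucc) % (a (Fin.last j) : ℤ)) = ρ, ∏ i, f i (s * x i) := by
  classical
  have hss : s * s = 1 := by rcases hs with h | h <;> rw [h] <;> norm_num
  obtain ⟨c, hc⟩ : ∃ c : ℤ, c = a (Fin.last j) := ⟨_, rfl⟩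
  have hc1 : 1 ≤ c := by rw [hc]; exact_mod_cast ha _
  rw [← hc] at ht
  have hρ' : ∀ i, 0 ≤ ρ i ∧ ρ i < c := fun i => by rw [hc]; exact hρ i
  have hph : ∀ n : Fin j → ℤ, phQ (La a s) (ba s ρ t) (fun _ => s) f Set.univ n
      = ∏ i, (f i (s * Xa a ρ t n i) * if 0 < Xa a ρ t n i then 1 else 0) := by
    intro n
    unfold phQ
    rw [if_pos (Set.mem_univ _)]
    unfold ph
    apply prod_congr rfl
    intro i _
    rw [val_a, ← mul_assoc, hss, one_mul]
  have hXl : ∀ n, Xa a ρ t n (Fin.last j) = t - ∑ i, (a i.castSucc : ℤ) * n i := fun n => by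
    unfold Xa; rw [Fin.snoc_last]
  have hXc : ∀ n i, Xa a ρ t n (Fin.castSucc i) = c * n i - ρ i := fun n i => by
    unfold Xa; rw [Fin.snoc_castSucc, hc]
  have h1 : ∑ n ∈ Bx j N, phQ (La a s) (ba s ρ t) (fun _ => s) f Set.univ n
      = ∑ n ∈ Bx j N with 0 < Xa a ρ t n (Fin.last j), phQ (La a s) (ba s ρ t) (fun _ => s) f Set.univ n := by
    rw [sum_filter]
    apply sum_congr rfl
    intro n _
    split_ifs with h
    · rfl
    · rw [hph n]
      apply prod_eq_zero (mem_univ (Fin.last j))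
      rw [if_neg h, mul_zero]
  rw [h1]
  -- the sum of the coordinates
  have hsumX : ∀ n, ∑ i, (a i : ℤ) * Xa a ρ t n i = N := by
    intro n
    rw [Fin.sum_univ_castSucc, hXl, ← hc, mul_sub, ht]
    have : ∑ i : Fin j, (a i.castSucc : ℤ) * Xa a ρ t n i.castSucc
        = c * ∑ i, (a i.castSucc : ℤ) * n i - ∑ i, (a i.castSucc : ℤ) * ρ i := by
      rw [mul_sum, ← sum_sub_distrib]
      apply sum_congr rfl; intro i _
      rw [hXc]; ring
    rw [this]; ring
  refine Finset.sum_nbij' (fun n => Xa a ρ t n) (fun x i => (x i.castSucc + ρ i) / c) ?_ ?_ ?_ ?_ ?_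
  · intro n hn
    rw [mem_filter, mem_Bx] at hn
    rw [mem_filter, mem_Sols ha]
    refine ⟨⟨fun i => ?_, hsumX n⟩, ?_⟩
    · refine Fin.lastCases ?_ (fun i => ?_) i
      · exact hn.2
      · rw [hXc]
        have h2 := (mem_Icc.1 (hn.1 i)).1
        have h3 := (hρ' i).2
        nlinarith
    · funext i
      rw [hXc, ← hc]
      have : -(c * n i - ρ i) = ρ i + c * (-n i) := by ring
      rw [this, Int.add_mul_emod_self_left]
      exact Int.emod_eq_of_lt (hρ' i).1 (hρ' i).2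
  · intro x hx
    rw [mem_filter, mem_Sols ha] at hx
    obtain ⟨⟨hx1, hx2⟩, hx3⟩ := hx
    have hdv : ∀ i : Fin j, c * ((x i.castSucc + ρ i) / c) = x i.castSucc + ρ i := by
      intro i
      apply Int.mul_ediv_cancel'
      have h2 := congrFun hx3 i
      rw [← hc] at h2
      rw [← h2]
      have h3 := Int.emod_add_mul_ediv (-x i.castSucc) c
      exact ⟨-((-x i.castSucc) / c), by linarith⟩
    have hxN : ∀ i, x i ≤ N := by
      intro i
      have h2 : x ∈ Sols a N := (mem_Sols ha).2 ⟨hx1, hx2⟩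
      unfold Sols at h2
      rw [mem_filter, mem_Bx] at h2
      exact (mem_Icc.1 (h2.1 i)).2
    rw [mem_filter, mem_Bx]
    constructor
    · intro i
      rw [mem_Icc]
      have h2 := hdv i
      have h3 := hx1 i.castSucc
      have h4 := hρ' i
      have h5 := hxN i.castSucc
      constructor
      · by_contra hcon
        push Not at hcon
        have : (x i.castSucc + ρ i) / c ≤ 0 := by omega
        nlinarith
      · by_contra hcon
        push Not at hcon
        have : x i.castSucc + 1 ≤ (x i.castSucc + ρ i) / c := by omega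
        nlinarith
    · rw [hXl]
      rw [Fin.sum_univ_castSucc, ← hc] at hx2
      have h2 : c * ∑ i, (a i.castSucc : ℤ) * ((x i.castSucc + ρ i) / c)
          = ∑ i : Fin j, (a i.castSucc : ℤ) * x i.castSucc + ∑ i, (a i.castSucc : ℤ) * ρ i := by
        rw [mul_sum, ← sum_add_distrib]
        apply sum_congr rfl; intro i _
        have := hdv i
        linear_combination (a i.castSucc : ℤ) * this
      have h3 : c * (t - ∑ i, (a i.castSucc : ℤ) * ((x i.castSucc + ρ i) / c)) = c * x (Fin.last j) := by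
        rw [mul_sub, ht, h2]; linarith
      have h4 := mul_left_cancel₀ (show c ≠ 0 by omega) h3
      rw [h4]
      exact hx1 _
  · intro n _
    funext i
    rw [hXc, sub_add_cancel]
    exact Int.mul_ediv_cancel_left _ (by omega)
  · intro x hx
    rw [mem_filter, mem_Sols ha] at hx
    obtain ⟨⟨hx1, hx2⟩, hx3⟩ := hx
    have hdv : ∀ i : Fin j, c * ((x i.castSucc + ρ i) / c) = x i.castSucc + ρ i := by
      intro i
      apply Int.mul_ediv_cancel'
      have h2 := congrFun hx3 i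
      rw [← hc] at h2
      rw [← h2]
      have h3 := Int.emod_add_mul_ediv (-x i.castSucc) c
      exact ⟨-((-x i.castSucc) / c), by linarith⟩
    funext i
    refine Fin.lastCases ?_ (fun i => ?_) i
    · rw [hXl]
      rw [Fin.sum_univ_castSucc, ← hc] at hx2
      have h2 : c * ∑ i, (a i.castSucc : ℤ) * ((x i.castSucc + ρ i) / c)
          = ∑ i : Fin j, (a i.castSucc : ℤ) * x i.castSucc + ∑ i, (a i.castSucc : ℤ) * ρ i := by
        rw [mul_sum, ← sum_add_distrib]
        apply sum_congr rfl; intro i _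
        have := hdv i
        linear_combination (a i.castSucc : ℤ) * this
      have h3 : c * (t - ∑ i, (a i.castSucc : ℤ) * ((x i.castSucc + ρ i) / c)) = c * x (Fin.last j) := by
        rw [mul_sub, ht, h2]; linarith
      exact mul_left_cancel₀ (show c ≠ 0 by omega) h3
    · rw [hXc, hdv]; ring
  · intro n hn
    rw [mem_filter, mem_Bx] at hn
    rw [hph n]
    apply prod_congr rfl
    intro i _
    rw [if_pos, mul_one]
    refine Fin.lastCases ?_ (fun i => ?_) i
    · exact hn.2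
    · rw [hXc]
      have h2 := (mem_Icc.1 (hn.1 i)).1
      have h3 := (hρ' i).2
      nlinarith

theorem sum_X {j N : ℕ} (a : Fin (j + 1) → ℕ) {ρ : Fin j → ℤ} {t : ℤ}
    (ht : (a (Fin.last j) : ℤ) * t = N + ∑ i, (a i.castSucc : ℤ) * ρ i) (n : Fin j → ℤ) :
    ∑ i, (a i : ℤ) * Xa a ρ t n i = N := by
  unfold Xa
  rw [Fin.sum_univ_castSucc, Fin.snoc_last, mul_sub, ht]
  have : ∑ i : Fin j, (a i.castSucc : ℤ) * (Fin.snoc (α := fun _ => ℤ) (fun i => a (Fin.last j) * n i - ρ i)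
      (t - ∑ i, (a i.castSucc : ℤ) * n i) : Fin (j + 1) → ℤ) i.castSucc
      = (a (Fin.last j) : ℤ) * ∑ i, (a i.castSucc : ℤ) * n i - ∑ i, (a i.castSucc : ℤ) * ρ i := by
    rw [mul_sum, ← sum_sub_distrib]
    apply sum_congr rfl; intro i _
    rw [Fin.snoc_castSucc]; ring
  rw [this]; ring

theorem La_ne_zero {j : ℕ} (hj : 1 ≤ j) {a : Fin (j + 1) → ℕ} (ha : ∀ i, 1 ≤ a i) {s : ℤ} (hs0 : s ≠ 0)
    (i : Fin (j + 1)) : La a s i ≠ 0 := by
  have ha0 : ∀ i, (a i : ℤ) ≠ 0 := fun i => by have := ha i; omega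
  intro h
  refine Fin.lastCases (motive := fun i => La a s i = 0 → False) ?_ (fun i => ?_) i h
  · intro h
    have h1 := congrFun h ⟨0, hj⟩
    unfold La at h1
    rw [Fin.snoc_last] at h1
    simp only [Pi.zero_apply, neg_eq_zero, mul_eq_zero] at h1
    rcases h1 with h1 | h1
    · exact hs0 h1
    · exact ha0 _ h1
  · intro h
    have h1 := congrFun h i
    unfold La at h1
    rw [Fin.snoc_castSucc, Pi.single_eq_same] at h1
    rcases mul_eq_zero.1 h1 with h1 | h1
    · exact hs0 h1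
    · exact ha0 _ h1

theorem La_rel {j : ℕ} {a : Fin (j + 1) → ℕ} (ha : ∀ i, 1 ≤ a i) {s : ℤ} (hs0 : s ≠ 0) (p q : Fin (j + 1)) (hpq : p ≠ q)
    (x y u v : ℕ) : (fun i => 2 ^ x * 3 ^ y * La a s p i) ≠ fun i => 2 ^ u * 3 ^ v * La a s q i := by
  have hc1 : (0 : ℤ) < 2 ^ x * 3 ^ y := by positivity
  have hc2 : (0 : ℤ) < 2 ^ u * 3 ^ v := by positivity
  have ha0 : ∀ i, (0 : ℤ) < a i := fun i => by have := ha i; omega
  intro h
  revert hpq h
  refine Fin.lastCases ?_ (fun i => ?_) p <;> refine Fin.lastCases ?_ (fun i' => ?_) q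
  · intro hab _; exact hab rfl
  · intro _ h
    have h1 := congrFun h i'
    unfold La at h1
    simp only [Fin.snoc_last, Fin.snoc_castSucc, Pi.single_eq_same] at h1
    have h2 : (2 ^ x * 3 ^ y * a i'.castSucc + 2 ^ u * 3 ^ v * a (Fin.last j)) * s = 0 := by linarith
    have h3 := mul_pos hc1 (ha0 i'.castSucc)
    have h4 := mul_pos hc2 (ha0 (Fin.last j))
    rcases mul_eq_zero.1 h2 with h5 | h5
    · linarith
    · exact hs0 h5
  · intro _ h
    have h1 := congrFun h i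
    unfold La at h1
    simp only [Fin.snoc_last, Fin.snoc_castSucc, Pi.single_eq_same] at h1
    have h2 : (2 ^ x * 3 ^ y * a (Fin.last j) + 2 ^ u * 3 ^ v * a i.castSucc) * s = 0 := by linarith
    have h3 := mul_pos hc1 (ha0 (Fin.last j))
    have h4 := mul_pos hc2 (ha0 i.castSucc)
    rcases mul_eq_zero.1 h2 with h5 | h5
    · linarith
    · exact hs0 h5
  · intro hab h
    have hii : i ≠ i' := fun hi => hab (by rw [hi])
    have h1 := congrFun h i
    unfold La at h1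
    simp only [Fin.snoc_castSucc, Pi.single_eq_same, Pi.single_eq_of_ne hii] at h1
    rw [mul_zero] at h1
    have h2 : (2 ^ x * 3 ^ y * a (Fin.last j)) * s = 0 := by linarith
    rcases mul_eq_zero.1 h2 with h5 | h5
    · have := mul_pos hc1 (ha0 (Fin.last j)); linarith
    · exact hs0 h5

/-- Bezout -/
theorem bezout_fin {k : ℕ} {a : Fin k → ℕ} (hg : Finset.univ.gcd a = 1) : ∃ z : Fin k → ℤ, ∑ i, (a i : ℤ) * z i = 1 := by
  classical
  obtain ⟨g, hgen⟩ := (IsPrincipalIdealRing.principal (Ideal.span (Set.range fun i => (a i : ℤ)))).principal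
  have hdvd : ∀ i, g.natAbs ∣ a i := by
    intro i
    have h1 : (a i : ℤ) ∈ Ideal.span (Set.range fun i => (a i : ℤ)) := Ideal.subset_span ⟨i, rfl⟩
    rw [hgen] at h1
    have h2 : g ∣ (a i : ℤ) := Ideal.mem_span_singleton.1 h1
    have h3 := Int.natAbs_dvd_natAbs.2 h2
    simpa using h3
  have h1 : g.natAbs ∣ 1 := by
    rw [← hg]
    exact Finset.dvd_gcd fun i _ => hdvd i
  have h2 : g.natAbs = 1 := Nat.dvd_one.1 h1
  have h3 : (1 : ℤ) ∈ Ideal.span (Set.range fun i => (a i : ℤ)) := by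
    rw [hgen]
    apply Ideal.mem_span_singleton.2
    rcases Int.natAbs_eq g with h | h
    · rw [h, h2]; norm_num
    · rw [h, h2]; norm_num
  rw [Ideal.mem_span_range_iff_exists_fun] at h3
  obtain ⟨z, hz⟩ := h3
  refine ⟨z, ?_⟩
  rw [← hz]
  apply sum_congr rfl
  intro i _
  ring

/-- there are many solutions -/
theorem card_Sols {j : ℕ} {a : Fin (j + 1) → ℕ} (ha : ∀ i, 1 ≤ a i) (hg : Finset.univ.gcd a = 1) :
    ∃ E : ℕ, 1 ≤ E ∧ ∀ N : ℕ, E ≤ N → (N / E) ^ j ≤ #(Sols a N) := by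
  classical
  obtain ⟨z, hz⟩ := bezout_fin hg
  obtain ⟨A, hA⟩ : ∃ A : ℕ, A = ∑ i : Fin j, a i.castSucc := ⟨_, rfl⟩
  obtain ⟨c, hc⟩ : ∃ c : ℕ, c = a (Fin.last j) := ⟨_, rfl⟩
  have hc1 : 1 ≤ c := by rw [hc]; exact ha _
  have hcz : (1 : ℤ) ≤ c := by exact_mod_cast hc1
  refine ⟨c * A + 1, by omega, fun N hN => ?_⟩
  obtain ⟨q, hq⟩ : ∃ q, q = N / (c * A + 1) := ⟨_, rfl⟩
  have hqN : (c * A + 1) * q ≤ N := by rw [hq]; exact Nat.mul_div_le N _
  have hq1 : 1 ≤ q := by rw [hq]; exact (Nat.one_le_div_iff (by omega)).2 hN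
  obtain ⟨ρ, hρ⟩ : ∃ ρ : Fin j → ℤ, ρ = fun i => (-(z i.castSucc * N)) % c := ⟨_, rfl⟩
  have hρ1 : ∀ i, 0 ≤ ρ i ∧ ρ i < c := fun i => by
    rw [hρ]; exact ⟨Int.emod_nonneg _ (by omega), Int.emod_lt_of_pos _ (by omega)⟩
  have hρ2 : ∀ i, ρ i = -(z i.castSucc * N) - c * ((-(z i.castSucc * N)) / c) := fun i => by
    have := Int.emod_add_mul_ediv (-(z i.castSucc * N)) c
    rw [hρ]; simp only; linarith
  have hdvd : (c : ℤ) ∣ N + ∑ i, (a i.castSucc : ℤ) * ρ i := by
    have h1 : ∑ i, (a i.castSucc : ℤ) * ρ i = -(N * ∑ i : Fin j, (a i.castSucc : ℤ) * z i.castSucc)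
        - c * ∑ i : Fin j, (a i.castSucc : ℤ) * ((-(z i.castSucc * N)) / c) := by
      rw [mul_sum, mul_sum, ← sum_neg_distrib, ← sum_sub_distrib]
      apply sum_congr rfl; intro i _
      conv_lhs => rw [hρ2 i]
      ring
    rw [Fin.sum_univ_castSucc, ← hc] at hz
    refine ⟨N * z (Fin.last j) - ∑ i : Fin j, (a i.castSucc : ℤ) * ((-(z i.castSucc * N)) / c), ?_⟩
    rw [h1]
    linear_combination (-(N : ℤ)) * hz
  obtain ⟨t, ht⟩ := hdvd
  have ht' : (a (Fin.last j) : ℤ) * t = N + ∑ i, (a i.castSucc : ℤ) * ρ i := by rw [← hc]; exact ht.symm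
  rw [← hq, ← card_Bx j q]
  apply card_le_card_of_injOn (fun n => Xa a ρ t n)
  · intro n hn
    rw [mem_coe, mem_Bx] at hn
    rw [mem_coe, mem_Sols ha]
    refine ⟨fun i => ?_, sum_X a ht' n⟩
    refine Fin.lastCases ?_ (fun i => ?_) i
    · simp only [Xa, Fin.snoc_last]
      have h1 : ∑ i, (a i.castSucc : ℤ) * n i ≤ A * q := by
        rw [hA, Nat.cast_sum, sum_mul]
        exact sum_le_sum fun i _ => mul_le_mul_of_nonneg_left (mem_Icc.1 (hn i)).2 (by positivity)
      have h2 : 0 ≤ ∑ i, (a i.castSucc : ℤ) * ρ i := sum_nonneg fun i _ => mul_nonneg (by positivity) (hρ1 i).1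
      have h3 : ((c : ℤ) * A + 1) * q ≤ N := by exact_mod_cast hqN
      have h4 : (1 : ℤ) ≤ q := by exact_mod_cast hq1
      have h5 : (c : ℤ) * (A * q) < c * t := by
        rw [← ht]
        nlinarith
      have h6 := lt_of_mul_lt_mul_left h5 (by omega)
      linarith
    · simp only [Xa, Fin.snoc_castSucc]
      rw [← hc]
      have h2 := (mem_Icc.1 (hn i)).1
      have h3 := (hρ1 i).2
      nlinarith
  · intro n _ n' _ h
    funext i
    have h1 := congrFun h i.castSucc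
    simp only at h1
    unfold Xa at h1
    rw [Fin.snoc_castSucc, Fin.snoc_castSucc, ← hc] at h1
    have h2 : (c : ℤ) * n i = c * n' i := by linarith
    exact mul_left_cancel₀ (by omega) h2

/-- **Linear equations in invariant sets.** -/
theorem lin_law (hC : S_CONVU) {j : ℕ} (hj : 1 ≤ j) {a : Fin (j + 1) → ℕ} (ha : ∀ i, 1 ≤ a i) (hg : Finset.univ.gcd a = 1)
    {s : ℤ} (hs : s = 1 ∨ s = -1) {f : Fin (j + 1) → ℤ → ℝ}
    (hf : ∀ i, InvF s (fun x => f i (s * x))) {μ : Fin (j + 1) → ℝ} (hμ : ∀ i, |μ i| ≤ 1)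
    (hm : ∀ i, MeanZero (fun x => f i (s * x) - μ i)) :
    Tendsto (fun N : ℕ => (∑ x ∈ Sols a N, ∏ i, f i (s * x i)) / (#(Sols a N) : ℝ)) atTop (𝓝 (∏ i, μ i)) := by
  classical
  have hs0 : s ≠ 0 := by rcases hs with h | h <;> rw [h] <;> norm_num
  obtain ⟨A, hA⟩ : ∃ A : ℕ, A = ∑ i : Fin j, a i.castSucc := ⟨_, rfl⟩
  obtain ⟨c, hc⟩ : ∃ c : ℕ, c = a (Fin.last j) := ⟨_, rfl⟩
  have hc1 : 1 ≤ c := by rw [hc]; exact ha _
  have hprod := fun (ε : ℝ) (hε : 0 < ε) => prod_convu hC (L := La a s) (fun i => La_ne_zero hj ha hs0 i)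
    (fun p q hpq x y u v => La_rel ha hs0 p q hpq x y u v) (σ := fun _ => s) (fun _ => hs) (f := f) hf (μ := μ) hμ hm
    (1 + c * A + c) hε
  obtain ⟨E, hE1, hE2⟩ := card_Sols ha hg
  rw [Metric.tendsto_atTop]
  intro ε hε
  obtain ⟨Z, hZ⟩ : ∃ Z : ℝ, Z = (c : ℝ) ^ j * (2 * E) ^ j := ⟨_, rfl⟩
  have hZ0 : 0 < Z := by rw [hZ]; positivity
  obtain ⟨N0, hN0⟩ := hprod (ε / (2 * Z)) (by positivity)
  refine ⟨max N0 E, fun N hN => ?_⟩
  have hNE : E ≤ N := (le_max_right _ _).trans hN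
  have hN1 : 1 ≤ N := hE1.trans hNE
  obtain ⟨R, hR⟩ : ∃ R : Finset (Fin j → ℤ), R = Fintype.piFinset (fun _ : Fin j => Ico (0 : ℤ) c) := ⟨_, rfl⟩
  have hRcard : #R = c ^ j := by
    rw [hR, Fintype.card_piFinset]
    simp
  obtain ⟨res, hres⟩ : ∃ res : (Fin (j + 1) → ℤ) → Fin j → ℤ, res = fun x i => (-x i.castSucc) % (c : ℤ) := ⟨_, rfl⟩
  have hmaps : ∀ x ∈ Sols a N, res x ∈ R := by
    intro x _
    rw [hR, hres, Fintype.mem_piFinset]
    intro i
    rw [mem_Ico]
    exact ⟨Int.emod_nonneg _ (by omega), Int.emod_lt_of_pos _ (by omega)⟩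
  -- one class
  have hclass : ∀ ρ ∈ R, |∑ x ∈ Sols a N with res x = ρ, ∏ i, f i (s * x i)
      - (∏ i, μ i) * ∑ x ∈ Sols a N with res x = ρ, (1 : ℝ)| ≤ ε / (2 * Z) * (N : ℝ) ^ j := by
    intro ρ hρR
    have hρ : ∀ i, 0 ≤ ρ i ∧ ρ i < c := by
      intro i
      rw [hR, Fintype.mem_piFinset] at hρR
      exact mem_Ico.1 (hρR i)
    by_cases hd : (c : ℤ) ∣ N + ∑ i, (a i.castSucc : ℤ) * ρ i
    · obtain ⟨t, ht⟩ := hd
      have ht' : (a (Fin.last j) : ℤ) * t = N + ∑ i, (a i.castSucc : ℤ) * ρ i := by rw [← hc]; exact ht.symm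
      have h1 := hN0 N ((le_max_left _ _).trans hN) (ba s ρ t) (fun i => by
        have hs1 : |s| = 1 := by rcases hs with h | h <;> rw [h] <;> norm_num
        have hNz : (1 : ℤ) ≤ N := by exact_mod_cast hN1
        refine Fin.lastCases ?_ (fun i => ?_) i
        · unfold ba
          rw [Fin.snoc_last, abs_mul, hs1, one_mul]
          have h2 : ∑ i, (a i.castSucc : ℤ) * ρ i ≤ A * c := by
            rw [hA, Nat.cast_sum, sum_mul]
            exact sum_le_sum fun i _ => mul_le_mul_of_nonneg_left (hρ i).2.le (by positivity)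
          have h3 : 0 ≤ ∑ i, (a i.castSucc : ℤ) * ρ i := sum_nonneg fun i _ => mul_nonneg (by positivity) (hρ i).1
          have hcz : (1 : ℤ) ≤ c := by exact_mod_cast hc1
          have h4 : 0 ≤ t := by
            by_contra hcon
            push Not at hcon
            nlinarith
          have h5 : t ≤ c * t := by nlinarith
          rw [abs_of_nonneg h4]
          push_cast
          have h6 : (0 : ℤ) ≤ c * A * N := by positivity
          have h7 : (0 : ℤ) ≤ c * N := by positivity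
          have h8 : (A : ℤ) * c ≤ c * A * N := by
            have : (A : ℤ) * c * 1 ≤ A * c * N := mul_le_mul_of_nonneg_left hNz (by positivity)
            linarith
          have h9 : (1 + (c : ℤ) * A + c) * N = N + c * A * N + c * N := by ring
          rw [h9]
          linarith
        · unfold ba
          rw [Fin.snoc_castSucc, abs_neg, abs_mul, hs1, one_mul, abs_of_nonneg (hρ i).1]
          push_cast
          have h6 : (0 : ℤ) ≤ c * A * N := by positivity
          have h7 : (c : ℤ) * 1 ≤ c * N := mul_le_mul_of_nonneg_left hNz (by positivity)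
          have h8 := (hρ i).2
          have h9 : (1 + (c : ℤ) * A + c) * N = N + c * A * N + c * N := by ring
          rw [h9]
          linarith) Set.univ convex_univ
      rw [class_sum ha hs f (fun i => by rw [← hc]; exact hρ i) ht',
        class_sum ha hs (fun _ _ => 1) (fun i => by rw [← hc]; exact hρ i) ht'] at h1
      simp only [Finset.prod_const_one] at h1
      rw [hres, hc]
      exact h1
    · have hem : {x ∈ Sols a N | res x = ρ} = ∅ := by
        rw [filter_eq_empty_iff]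
        intro x hx hxρ
        apply hd
        rw [mem_Sols ha] at hx
        have hx2 := hx.2
        rw [Fin.sum_univ_castSucc, ← hc] at hx2
        have h2 : ∀ i : Fin j, ρ i = -x i.castSucc - c * ((-x i.castSucc) / c) := by
          intro i
          have h3 := congrFun hxρ i
          rw [hres] at h3
          have h4 := Int.emod_add_mul_ediv (-x i.castSucc) c
          simp only at h3
          rw [← h3]
          linarith
        have h3 : ∑ i, (a i.castSucc : ℤ) * ρ i = -∑ i : Fin j, (a i.castSucc : ℤ) * x i.castSucc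
            - c * ∑ i : Fin j, (a i.castSucc : ℤ) * ((-x i.castSucc) / c) := by
          rw [mul_sum, ← sum_neg_distrib, ← sum_sub_distrib]
          apply sum_congr rfl; intro i _
          conv_lhs => rw [h2 i]
          ring
        exact ⟨x (Fin.last j) - ∑ i : Fin j, (a i.castSucc : ℤ) * ((-x i.castSucc) / c), by rw [h3]; linarith⟩
      rw [hem]
      simp only [sum_empty, mul_zero, sub_zero, abs_zero]
      positivity
  -- all classes
  have htot : |∑ x ∈ Sols a N, ∏ i, f i (s * x i) - (∏ i, μ i) * #(Sols a N)| ≤ (c : ℝ) ^ j * (ε / (2 * Z) * (N : ℝ) ^ j) := by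
    have e1 : ∑ x ∈ Sols a N, ∏ i, f i (s * x i) = ∑ ρ ∈ R, ∑ x ∈ Sols a N with res x = ρ, ∏ i, f i (s * x i) :=
      (sum_fiberwise_of_maps_to hmaps _).symm
    have e2 : (#(Sols a N) : ℝ) = ∑ ρ ∈ R, ∑ x ∈ Sols a N with res x = ρ, (1 : ℝ) := by
      rw [sum_fiberwise_of_maps_to hmaps]; simp
    rw [e1, e2, mul_sum, ← sum_sub_distrib]
    refine (abs_sum_le_sum_abs _ _).trans ((sum_le_sum hclass).trans (le_of_eq ?_))
    rw [sum_const, nsmul_eq_mul, hRcard, Nat.cast_pow]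
  have hcard := hE2 N hNE
  obtain ⟨q, hq⟩ : ∃ q : ℕ, q = N / E := ⟨_, rfl⟩
  rw [← hq] at hcard
  have hq1 : 1 ≤ q := by rw [hq]; exact (Nat.one_le_div_iff (by omega)).2 hNE
  have hqN : N ≤ 2 * E * q := by
    have h2 : N < E * (q + 1) := by rw [hq]; exact Nat.lt_mul_div_succ N (by omega)
    nlinarith
  have hP0 : (0 : ℝ) < #(Sols a N) := by
    have : 0 < #(Sols a N) := lt_of_lt_of_le (by positivity) hcard
    exact_mod_cast this
  have hbig : (c : ℝ) ^ j * (N : ℝ) ^ j ≤ Z * #(Sols a N) := by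
    have h2 : (N : ℝ) ≤ 2 * E * q := by exact_mod_cast hqN
    calc (c : ℝ) ^ j * (N : ℝ) ^ j ≤ (c : ℝ) ^ j * (2 * E * q) ^ j :=
          mul_le_mul_of_nonneg_left (pow_le_pow_left₀ (by positivity) h2 _) (by positivity)
      _ = Z * (q : ℝ) ^ j := by rw [hZ, mul_pow (2 * (E : ℝ))]; ring
      _ ≤ Z * #(Sols a N) := mul_le_mul_of_nonneg_left (by exact_mod_cast hcard) hZ0.le
  rw [Real.dist_eq]
  have e5 : (∑ x ∈ Sols a N, ∏ i, f i (s * x i)) / (#(Sols a N) : ℝ) - ∏ a, μ a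
      = (∑ x ∈ Sols a N, ∏ i, f i (s * x i) - (∏ a, μ a) * #(Sols a N)) / #(Sols a N) := by
    field_simp
  rw [e5, abs_div, abs_of_pos hP0, div_lt_iff₀ hP0]
  refine lt_of_le_of_lt htot ?_
  have h2 : ε / (2 * Z) * ((c : ℝ) ^ j * (N : ℝ) ^ j) ≤ ε / (2 * Z) * (Z * #(Sols a N)) :=
    mul_le_mul_of_nonneg_left hbig (by positivity)
  have h3 : ε / (2 * Z) * (Z * #(Sols a N)) = ε / 2 * #(Sols a N) := by field_simp
  have h4 : 0 < ε * #(Sols a N) := by positivity
  have h5 : (c : ℝ) ^ j * (ε / (2 * Z) * (N : ℝ) ^ j) = ε / (2 * Z) * ((c : ℝ) ^ j * (N : ℝ) ^ j) := by ring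
  rw [h5]
  linarith

end SH6

end Pool.Agent.KS6_24.ST
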