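import Mathlib
import Pool.Agent.KS6_24.ST.SH14R

/-!
SH18R (helper6): all linear equations `a_0 x_0 + ... + a_j x_j = C` with members of given invariant sets as unknowns,
coefficients of any signs, uniformly in `C` and in a convex set.
-/

set_option autoImplicit false

namespace Pool.Agent.KS6_24.ST

open Finset Filter Topology Pool.Agent.H499R2.CO Pool.Agent.Y965.SI Pool.Agent.KS6_24.LN Pool.Agent.KS6_24.LN.TW

namespace SH6

open Classical in
/-- the solutions of `a_0 x_0 + ... + a_j x_j = C` in the box `[1, N] ^ (j + 1)` and the set `Q` -/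
noncomputable def SolQ {j : ℕ} (a : Fin (j + 1) → ℤ) (C : ℤ) (N : ℕ) (Q : Set (Fin (j + 1) → ℝ)) : Finset (Fin (j + 1) → ℤ) :=
  {x ∈ Bx (j + 1) N | ∑ i, a i * x i = C ∧ (fun i => (x i : ℝ)) ∈ Q}

theorem mem_SolQ {j N : ℕ} {a : Fin (j + 1) → ℤ} {C : ℤ} {Q : Set (Fin (j + 1) → ℝ)} {x : Fin (j + 1) → ℤ} :
    x ∈ SolQ a C N Q ↔ (∀ i, 1 ≤ x i ∧ x i ≤ N) ∧ ∑ i, a i * x i = C ∧ (fun i => (x i : ℝ)) ∈ Q := by
  classical
  unfold SolQ
  rw [mem_filter, mem_Bx]
  simp only [mem_Icc]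

/-- the forms -/
def Lg {j : ℕ} (a s : Fin (j + 1) → ℤ) : Fin (j + 1) → Fin j → ℤ :=
  Fin.snoc (α := fun _ => Fin j → ℤ) (fun i => Pi.single i (s i.castSucc * a (Fin.last j)))
    (fun i => -(s (Fin.last j) * a i.castSucc))

/-- the constant terms -/
def bg {j : ℕ} (s : Fin (j + 1) → ℤ) (ρ : Fin j → ℤ) (t : ℤ) : Fin (j + 1) → ℤ :=
  Fin.snoc (α := fun _ => ℤ) (fun i => -(s i.castSucc * ρ i)) (s (Fin.last j) * t)

/-- the point of the solution set -/
def Xg {j : ℕ} (a : Fin (j + 1) → ℤ) (ρ : Fin j → ℤ) (t : ℤ) (n : Fin j → ℤ) : Fin (j + 1) → ℤ :=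
  Fin.snoc (α := fun _ => ℤ) (fun i => a (Fin.last j) * n i - ρ i) (t - ∑ i, a i.castSucc * n i)

/-- the same for real points -/
noncomputable def XR {j : ℕ} (a : Fin (j + 1) → ℤ) (ρ : Fin j → ℤ) (t : ℤ) (n : Fin j → ℝ) : Fin (j + 1) → ℝ :=
  Fin.snoc (α := fun _ => ℝ) (fun i => (a (Fin.last j) : ℝ) * n i - ρ i) (t - ∑ i, (a i.castSucc : ℝ) * n i)

theorem XR_cast {j : ℕ} (a : Fin (j + 1) → ℤ) (ρ : Fin j → ℤ) (t : ℤ) (n : Fin j → ℤ) :
    XR a ρ t (fun i => (n i : ℝ)) = fun i => (Xg a ρ t n i : ℝ) := by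
  funext i
  refine Fin.lastCases ?_ (fun i => ?_) i
  · unfold XR Xg
    rw [Fin.snoc_last, Fin.snoc_last]
    push_cast
    rfl
  · unfold XR Xg
    rw [Fin.snoc_castSucc, Fin.snoc_castSucc]
    push_cast
    rfl

/-- the region in the parameter space -/
def Rg {j : ℕ} (a : Fin (j + 1) → ℤ) (ρ : Fin j → ℤ) (t : ℤ) (N : ℕ) (Q : Set (Fin (j + 1) → ℝ)) : Set (Fin j → ℝ) :=
  {n | XR a ρ t n ∈ Q ∧ ∀ i, XR a ρ t n i ≤ N}

theorem XR_comb {j : ℕ} (a : Fin (j + 1) → ℤ) (ρ : Fin j → ℤ) (t : ℤ) (y z : Fin j → ℝ) {α β : ℝ} (h : α + β = 1) :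
    XR a ρ t (α • y + β • z) = α • XR a ρ t y + β • XR a ρ t z := by
  funext i
  refine Fin.lastCases ?_ (fun i => ?_) i
  · simp only [Pi.add_apply, Pi.smul_apply, smul_eq_mul]
    unfold XR
    rw [Fin.snoc_last, Fin.snoc_last, Fin.snoc_last]
    have : ∑ i : Fin j, (a i.castSucc : ℝ) * (α • y + β • z) i
        = α * ∑ i : Fin j, (a i.castSucc : ℝ) * y i + β * ∑ i : Fin j, (a i.castSucc : ℝ) * z i := by
      rw [mul_sum, mul_sum, ← sum_add_distrib]
      apply sum_congr rfl; intro i _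
      simp only [Pi.add_apply, Pi.smul_apply, smul_eq_mul]
      ring
    rw [this]
    have ht : (t : ℝ) = (α + β) * t := by rw [h, one_mul]
    linear_combination ht
  · simp only [Pi.add_apply, Pi.smul_apply, smul_eq_mul]
    unfold XR
    rw [Fin.snoc_castSucc, Fin.snoc_castSucc, Fin.snoc_castSucc]
    simp only [Pi.add_apply, Pi.smul_apply, smul_eq_mul]
    have ht : (ρ i : ℝ) = (α + β) * ρ i := by rw [h, one_mul]
    linear_combination -ht

theorem convex_Rg {j : ℕ} (a : Fin (j + 1) → ℤ) (ρ : Fin j → ℤ) (t : ℤ) (N : ℕ) {Q : Set (Fin (j + 1) → ℝ)}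
    (hQ : Convex ℝ Q) : Convex ℝ (Rg a ρ t N Q) := by
  intro y hy z hz α β hα hβ h
  refine ⟨?_, fun i => ?_⟩
  · rw [XR_comb a ρ t y z h]
    exact hQ hy.1 hz.1 hα hβ h
  · rw [XR_comb a ρ t y z h]
    simp only [Pi.add_apply, Pi.smul_apply, smul_eq_mul]
    have h1 := mul_le_mul_of_nonneg_left (hy.2 i) hα
    have h2 := mul_le_mul_of_nonneg_left (hz.2 i) hβ
    have h3 : (N : ℝ) = α * N + β * N := by rw [← add_mul, h, one_mul]
    linarith

theorem val_g {j : ℕ} (a s : Fin (j + 1) → ℤ) (ρ : Fin j → ℤ) (t : ℤ) (n : Fin j → ℤ) (i : Fin (j + 1)) :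
    lf (Lg a s i) n + bg s ρ t i = s i * Xg a ρ t n i := by
  refine Fin.lastCases ?_ (fun i => ?_) i
  · unfold lf Lg bg Xg
    rw [Fin.snoc_last, Fin.snoc_last, Fin.snoc_last, mul_sub, mul_sum]
    have : ∑ i : Fin j, -(s (Fin.last j) * a i.castSucc) * n i = -∑ i : Fin j, s (Fin.last j) * (a i.castSucc * n i) := by
      rw [← sum_neg_distrib]
      apply sum_congr rfl; intro i _; ring
    rw [this]; ring
  · unfold lf Lg bg Xg
    rw [Fin.snoc_castSucc, Fin.snoc_castSucc, Fin.snoc_castSucc, sum_eq_single i]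
    · rw [Pi.single_eq_same]; ring
    · intro b _ hb
      rw [Pi.single_eq_of_ne hb, zero_mul]
    · simp

theorem sum_Xg {j : ℕ} (a : Fin (j + 1) → ℤ) {ρ : Fin j → ℤ} {t C : ℤ}
    (ht : a (Fin.last j) * t = C + ∑ i : Fin j, a i.castSucc * ρ i) (n : Fin j → ℤ) :
    ∑ i, a i * Xg a ρ t n i = C := by
  unfold Xg
  rw [Fin.sum_univ_castSucc, Fin.snoc_last, mul_sub, ht]
  have : ∑ i : Fin j, a i.castSucc * (Fin.snoc (α := fun _ => ℤ) (fun i => a (Fin.last j) * n i - ρ i)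
      (t - ∑ i : Fin j, a i.castSucc * n i) : Fin (j + 1) → ℤ) i.castSucc
      = a (Fin.last j) * ∑ i : Fin j, a i.castSucc * n i - ∑ i : Fin j, a i.castSucc * ρ i := by
    rw [mul_sum, ← sum_sub_distrib]
    apply sum_congr rfl; intro i _
    rw [Fin.snoc_castSucc]; ring
  rw [this]; ring

/-- one residue class -/
theorem class_sumg {j N : ℕ} {a : Fin (j + 1) → ℤ} (hc1 : 1 ≤ a (Fin.last j)) {s : Fin (j + 1) → ℤ} (hs : ∀ i, s i = 1 ∨ s i = -1)
    (f : Fin (j + 1) → ℤ → ℝ) {ρ : Fin j → ℤ} (hρ : ∀ i, 0 ≤ ρ i ∧ ρ i < a (Fin.last j)) {t C : ℤ}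
    (ht : a (Fin.last j) * t = C + ∑ i : Fin j, a i.castSucc * ρ i) (Q : Set (Fin (j + 1) → ℝ)) :
    ∑ n ∈ Bx j N, phQ (Lg a s) (bg s ρ t) s f (Rg a ρ t N Q) n
      = ∑ x ∈ SolQ a C N Q with (fun i : Fin j => (-x i.castSucc) % a (Fin.last j)) = ρ, ∏ i, f i (s i * x i) := by
  classical
  obtain ⟨c, hc⟩ : ∃ c : ℤ, c = a (Fin.last j) := ⟨_, rfl⟩
  rw [← hc] at ht hc1
  have hρ' : ∀ i, 0 ≤ ρ i ∧ ρ i < c := fun i => by rw [hc]; exact hρ i
  have hss : ∀ i, s i * s i = 1 := fun i => by rcases hs i with h | h <;> rw [h] <;> norm_num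
  have hph : ∀ n : Fin j → ℤ, phQ (Lg a s) (bg s ρ t) s f (Rg a ρ t N Q) n
      = if (∀ i, 1 ≤ Xg a ρ t n i ∧ Xg a ρ t n i ≤ N) ∧ (fun i => (Xg a ρ t n i : ℝ)) ∈ Q
        then ∏ i, f i (s i * Xg a ρ t n i) else 0 := by
    intro n
    unfold phQ Rg
    simp only [Set.mem_ofPred_eq, XR_cast]
    by_cases h1 : (fun i => (Xg a ρ t n i : ℝ)) ∈ Q ∧ ∀ i, (Xg a ρ t n i : ℝ) ≤ N
    · rw [if_pos h1]
      unfold ph
      by_cases h2 : ∀ i, 1 ≤ Xg a ρ t n i
      · rw [if_pos ⟨fun i => ⟨h2 i, by exact_mod_cast h1.2 i⟩, h1.1⟩]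
        apply prod_congr rfl
        intro i _
        rw [val_g, ← mul_assoc, hss, one_mul, if_pos (by have := h2 i; omega), mul_one]
      · rw [if_neg (fun h => h2 fun i => (h.1 i).1)]
        push Not at h2
        obtain ⟨i, hi⟩ := h2
        apply prod_eq_zero (mem_univ i)
        rw [val_g, ← mul_assoc, hss, one_mul, if_neg (by omega), mul_zero]
    · rw [if_neg h1, if_neg]
      intro h
      exact h1 ⟨h.2, fun i => by exact_mod_cast (h.1 i).2⟩
  have hXc : ∀ n i, Xg a ρ t n (Fin.castSucc i) = c * n i - ρ i := fun n i => by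
    unfold Xg; rw [Fin.snoc_castSucc, hc]
  have hXl : ∀ n, Xg a ρ t n (Fin.last j) = t - ∑ i : Fin j, a i.castSucc * n i := fun n => by
    unfold Xg; rw [Fin.snoc_last]
  rw [sum_congr rfl fun n _ => hph n, ← sum_filter]
  have hdv : ∀ x : Fin (j + 1) → ℤ, (fun i : Fin j => (-x i.castSucc) % a (Fin.last j)) = ρ →
      ∀ i : Fin j, c * ((x i.castSucc + ρ i) / c) = x i.castSucc + ρ i := by
    intro x hx3 i
    apply Int.mul_ediv_cancel'
    have h2 := congrFun hx3 i
    rw [← hc] at h2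
    rw [← h2]
    have h3 := Int.emod_add_mul_ediv (-x i.castSucc) c
    exact ⟨-((-x i.castSucc) / c), by linarith⟩
  have hback : ∀ x ∈ SolQ a C N Q, (fun i : Fin j => (-x i.castSucc) % a (Fin.last j)) = ρ →
      Xg a ρ t (fun i => (x i.castSucc + ρ i) / c) = x := by
    intro x hx hx3
    rw [mem_SolQ] at hx
    funext i
    refine Fin.lastCases ?_ (fun i => ?_) i
    · rw [hXl]
      have hx2 := hx.2.1
      rw [Fin.sum_univ_castSucc, ← hc] at hx2
      have h2 : c * ∑ i : Fin j, a i.castSucc * ((x i.castSucc + ρ i) / c)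
          = ∑ i : Fin j, a i.castSucc * x i.castSucc + ∑ i : Fin j, a i.castSucc * ρ i := by
        rw [mul_sum, ← sum_add_distrib]
        apply sum_congr rfl; intro i _
        have := hdv x hx3 i
        linear_combination a i.castSucc * this
      have h3 : c * (t - ∑ i : Fin j, a i.castSucc * ((x i.castSucc + ρ i) / c)) = c * x (Fin.last j) := by
        rw [mul_sub, ht, h2]; linarith
      exact mul_left_cancel₀ (show c ≠ 0 by omega) h3
    · rw [hXc, hdv x hx3]; ring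
  refine Finset.sum_nbij' (fun n => Xg a ρ t n) (fun x i => (x i.castSucc + ρ i) / c) ?_ ?_ ?_ ?_ ?_
  · intro n hn
    rw [mem_filter] at hn
    rw [mem_filter, mem_SolQ]
    refine ⟨⟨hn.2.1, sum_Xg a (by rw [← hc]; exact ht) n, hn.2.2⟩, ?_⟩
    funext i
    rw [hXc, ← hc]
    have : -(c * n i - ρ i) = ρ i + c * (-n i) := by ring
    rw [this, Int.add_mul_emod_self_left]
    exact Int.emod_eq_of_lt (hρ' i).1 (hρ' i).2
  · intro x hx
    rw [mem_filter] at hx
    have hb := hback x hx.1 hx.2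
    have hx1 := mem_SolQ.1 hx.1
    rw [mem_filter, mem_Bx]
    simp only [hb]
    refine ⟨fun i => ?_, hx1.1, hx1.2.2⟩
    rw [mem_Icc]
    have h2 := hdv x hx.2 i
    have h3 := hx1.1 i.castSucc
    have h4 := hρ' i
    constructor
    · by_contra hcon
      push Not at hcon
      have : (x i.castSucc + ρ i) / c ≤ 0 := by omega
      nlinarith
    · by_contra hcon
      push Not at hcon
      have : x i.castSucc + 1 ≤ (x i.castSucc + ρ i) / c := by omega
      nlinarith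
  · intro n _
    funext i
    rw [hXc, sub_add_cancel]
    exact Int.mul_ediv_cancel_left _ (by omega)
  · intro x hx
    rw [mem_filter] at hx
    exact hback x hx.1 hx.2
  · intro n _
    rfl

theorem Lg_ne_zero {j : ℕ} (hj : 1 ≤ j) {a : Fin (j + 1) → ℤ} (ha : ∀ i, a i ≠ 0) {s : Fin (j + 1) → ℤ}
    (hs : ∀ i, s i ≠ 0) (i : Fin (j + 1)) : Lg a s i ≠ 0 := by
  intro h
  refine Fin.lastCases (motive := fun i => Lg a s i = 0 → False) ?_ (fun i => ?_) i h
  · intro h
    have h1 := congrFun h ⟨0, hj⟩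
    unfold Lg at h1
    rw [Fin.snoc_last] at h1
    simp only [Pi.zero_apply, neg_eq_zero, mul_eq_zero] at h1
    rcases h1 with h1 | h1
    · exact hs _ h1
    · exact ha _ h1
  · intro h
    have h1 := congrFun h i
    unfold Lg at h1
    rw [Fin.snoc_castSucc, Pi.single_eq_same] at h1
    rcases mul_eq_zero.1 h1 with h1 | h1
    · exact hs _ h1
    · exact ha _ h1

theorem Lg_rel {j : ℕ} (hj : 1 ≤ j) {a : Fin (j + 1) → ℤ} (ha : ∀ i, a i ≠ 0) {s : Fin (j + 1) → ℤ}
    (hs : ∀ i, s i = 1 ∨ s i = -1)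
    (hr : 2 ≤ j ∨ ∀ x y u v : ℕ, 2 ^ x * 3 ^ y * (s 0 * a 0) + 2 ^ u * 3 ^ v * (s (Fin.last j) * a (Fin.last j)) ≠ 0)
    (p q : Fin (j + 1)) (hpq : p ≠ q)
    (x y u v : ℕ) : (fun i => 2 ^ x * 3 ^ y * Lg a s p i) ≠ fun i => 2 ^ u * 3 ^ v * Lg a s q i := by
  have hs0 : ∀ i, s i ≠ 0 := fun i => by rcases hs i with h | h <;> rw [h] <;> norm_num
  have hss : ∀ i, s i * s i = 1 := fun i => by rcases hs i with h | h <;> rw [h] <;> norm_num
  -- a coordinate form and the last form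
  have key : ∀ (i : Fin j) (x y u v : ℕ),
      (fun i' => 2 ^ x * 3 ^ y * Lg a s i.castSucc i') ≠ fun i' => 2 ^ u * 3 ^ v * Lg a s (Fin.last j) i' := by
    intro i x y u v h
    rcases hr with hr | hr
    · obtain ⟨i', hi'⟩ : ∃ i' : Fin j, i' ≠ i := by
        by_cases h0 : i.1 = 0
        · exact ⟨⟨1, by omega⟩, fun h => by rw [← h] at h0; simp at h0⟩
        · exact ⟨⟨0, by omega⟩, fun h => h0 (by rw [← h])⟩
      have h1 := congrFun h i'
      unfold Lg at h1
      simp only [Fin.snoc_last, Fin.snoc_castSucc, Pi.single_eq_of_ne hi', mul_zero] at h1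
      have h2 : (2 ^ u * 3 ^ v : ℤ) ≠ 0 := by positivity
      have h3 : (2 ^ u * 3 ^ v * -(s (Fin.last j) * a i'.castSucc) : ℤ) ≠ 0 :=
        mul_ne_zero h2 (neg_ne_zero.2 (mul_ne_zero (hs0 _) (ha _)))
      exact h3 h1.symm
    · by_cases hj2 : 2 ≤ j
      · obtain ⟨i', hi'⟩ : ∃ i' : Fin j, i' ≠ i := by
          by_cases h0 : i.1 = 0
          · exact ⟨⟨1, by omega⟩, fun h => by rw [← h] at h0; simp at h0⟩
          · exact ⟨⟨0, by omega⟩, fun h => h0 (by rw [← h])⟩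
        have h1 := congrFun h i'
        unfold Lg at h1
        simp only [Fin.snoc_last, Fin.snoc_castSucc, Pi.single_eq_of_ne hi', mul_zero] at h1
        have h2 : (2 ^ u * 3 ^ v : ℤ) ≠ 0 := by positivity
        have h3 : (2 ^ u * 3 ^ v * -(s (Fin.last j) * a i'.castSucc) : ℤ) ≠ 0 :=
          mul_ne_zero h2 (neg_ne_zero.2 (mul_ne_zero (hs0 _) (ha _)))
        exact h3 h1.symm
      · have hi0 : (i.castSucc : Fin (j + 1)) = 0 := by
          apply Fin.ext
          have := i.2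
          simp only [Fin.val_castSucc, Fin.val_zero]
          omega
        have h1 := congrFun h i
        unfold Lg at h1
        simp only [Fin.snoc_last, Fin.snoc_castSucc, Pi.single_eq_same] at h1
        rw [hi0] at h1
        apply hr u v x y
        have e0 := hss 0
        have e1 := hss (Fin.last j)
        have h2 : s 0 * s (Fin.last j) * (2 ^ x * 3 ^ y * (s 0 * a (Fin.last j)))
            = s 0 * s (Fin.last j) * (2 ^ u * 3 ^ v * -(s (Fin.last j) * a 0)) := by rw [h1]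
        have h3 : s 0 * s (Fin.last j) * (2 ^ x * 3 ^ y * (s 0 * a (Fin.last j)))
            = 2 ^ x * 3 ^ y * (s (Fin.last j) * a (Fin.last j)) * (s 0 * s 0) := by ring
        have h4 : s 0 * s (Fin.last j) * (2 ^ u * 3 ^ v * -(s (Fin.last j) * a 0))
            = -(2 ^ u * 3 ^ v * (s 0 * a 0)) * (s (Fin.last j) * s (Fin.last j)) := by ring
        rw [h3, h4, e0, e1, mul_one, mul_one] at h2
        linarith
  intro h
  revert hpq h
  refine Fin.lastCases ?_ (fun i => ?_) p <;> refine Fin.lastCases ?_ (fun i' => ?_) q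
  · intro hab _; exact hab rfl
  · intro _ h
    exact key i' u v x y h.symm
  · intro _ h
    exact key i x y u v h
  · intro hab h
    have hii : i ≠ i' := fun hi => hab (by rw [hi])
    have h1 := congrFun h i
    unfold Lg at h1
    simp only [Fin.snoc_castSucc, Pi.single_eq_same, Pi.single_eq_of_ne hii] at h1
    rw [mul_zero] at h1
    have h2 : (2 ^ x * 3 ^ y : ℤ) ≠ 0 := by positivity
    exact (mul_ne_zero h2 (mul_ne_zero (hs0 _) (ha _))) h1

/-- linear equations, last coefficient positive -/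
theorem gen_lin_pos (hC : S_CONVU) {j : ℕ} (hj : 1 ≤ j) {a : Fin (j + 1) → ℤ} (ha : ∀ i, a i ≠ 0) (hc1 : 1 ≤ a (Fin.last j))
    {s : Fin (j + 1) → ℤ} (hs : ∀ i, s i = 1 ∨ s i = -1)
    (hr : 2 ≤ j ∨ ∀ x y u v : ℕ, 2 ^ x * 3 ^ y * (s 0 * a 0) + 2 ^ u * 3 ^ v * (s (Fin.last j) * a (Fin.last j)) ≠ 0)
    {f : Fin (j + 1) → ℤ → ℝ} (hf : ∀ i, InvF (s i) (fun x => f i (s i * x))) {μ : Fin (j + 1) → ℝ} (hμ : ∀ i, |μ i| ≤ 1)
    (hm : ∀ i, MeanZero (fun x => f i (s i * x) - μ i)) {ε : ℝ} (hε : 0 < ε) :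
    ∃ N0 : ℕ, ∀ N : ℕ, N0 ≤ N → ∀ C : ℤ, ∀ Q : Set (Fin (j + 1) → ℝ), Convex ℝ Q →
      |∑ x ∈ SolQ a C N Q, ∏ i, f i (s i * x i) - (∏ i, μ i) * #(SolQ a C N Q)| ≤ ε * (N : ℝ) ^ j := by
  classical
  have hs0 : ∀ i, s i ≠ 0 := fun i => by rcases hs i with h | h <;> rw [h] <;> norm_num
  obtain ⟨c, hc⟩ : ∃ c : ℕ, (c : ℤ) = a (Fin.last j) := ⟨(a (Fin.last j)).toNat, Int.toNat_of_nonneg (by omega)⟩
  have hcz : (1 : ℤ) ≤ c := by rw [hc]; exact hc1
  have hc0 : 1 ≤ c := by exact_mod_cast hcz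
  obtain ⟨A, hA⟩ : ∃ A : ℕ, A = ∑ i : Fin (j + 1), (a i).natAbs := ⟨_, rfl⟩
  have hAz : (A : ℤ) = ∑ i, |a i| := by
    rw [hA]; push_cast; rfl
  have hprod := prod_convu hC (L := Lg a s) (fun i => Lg_ne_zero hj ha hs0 i)
    (fun p q hpq x y u v => Lg_rel hj ha hs hr p q hpq x y u v) (σ := s) hs (f := f) hf (μ := μ) hμ hm
    (A + c * A + c) (ε := ε / (c : ℝ) ^ j) (by positivity)
  obtain ⟨N0, hN0⟩ := hprod
  refine ⟨max N0 1, fun N hN C Q hQ => ?_⟩
  have hN1 : 1 ≤ N := (le_max_right _ _).trans hN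
  have hNz : (1 : ℤ) ≤ N := by exact_mod_cast hN1
  by_cases hCA : |C| ≤ A * N
  swap
  · have hem : SolQ a C N Q = ∅ := by
      rw [Finset.eq_empty_iff_forall_notMem]
      intro x hx
      rw [mem_SolQ] at hx
      apply hCA
      rw [← hx.2.1, hAz, sum_mul]
      refine (abs_sum_le_sum_abs _ _).trans (sum_le_sum fun i _ => ?_)
      rw [abs_mul]
      apply mul_le_mul_of_nonneg_left _ (abs_nonneg _)
      have := hx.1 i
      rw [abs_of_nonneg (by omega)]
      exact this.2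
    rw [hem]
    simp only [sum_empty, card_empty, Nat.cast_zero, mul_zero, sub_zero, abs_zero]
    positivity
  obtain ⟨R, hR⟩ : ∃ R : Finset (Fin j → ℤ), R = Fintype.piFinset (fun _ : Fin j => Ico (0 : ℤ) c) := ⟨_, rfl⟩
  have hRcard : #R = c ^ j := by
    rw [hR, Fintype.card_piFinset]
    simp
  obtain ⟨res, hres⟩ : ∃ res : (Fin (j + 1) → ℤ) → Fin j → ℤ, res = fun x i => (-x i.castSucc) % a (Fin.last j) := ⟨_, rfl⟩
  have hmaps : ∀ x ∈ SolQ a C N Q, res x ∈ R := by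
    intro x _
    rw [hR, hres, Fintype.mem_piFinset]
    intro i
    rw [mem_Ico, hc]
    exact ⟨Int.emod_nonneg _ (by omega), Int.emod_lt_of_pos _ (by omega)⟩
  -- one class
  have hclass : ∀ ρ ∈ R, |∑ x ∈ SolQ a C N Q with res x = ρ, ∏ i, f i (s i * x i)
      - (∏ i, μ i) * ∑ x ∈ SolQ a C N Q with res x = ρ, (1 : ℝ)| ≤ ε / (c : ℝ) ^ j * (N : ℝ) ^ j := by
    intro ρ hρR
    have hρ : ∀ i, 0 ≤ ρ i ∧ ρ i < a (Fin.last j) := by
      intro i
      rw [hR, Fintype.mem_piFinset] at hρR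
      rw [← hc]
      exact mem_Ico.1 (hρR i)
    by_cases hd : a (Fin.last j) ∣ C + ∑ i : Fin j, a i.castSucc * ρ i
    · obtain ⟨t, ht⟩ := hd
      have ht' : a (Fin.last j) * t = C + ∑ i : Fin j, a i.castSucc * ρ i := ht.symm
      have h1 := hN0 N ((le_max_left _ _).trans hN) (bg s ρ t) (fun i => by
        have hs1 : ∀ i, |s i| = 1 := fun i => by rcases hs i with h | h <;> rw [h] <;> norm_num
        have h6 : (0 : ℤ) ≤ c * A * N := by positivity
        have h7 : (0 : ℤ) ≤ c * N := by positivity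
        have h10 : (0 : ℤ) ≤ A * N := by positivity
        have h9 : ((A + c * A + c : ℕ) : ℤ) * N = A * N + c * A * N + c * N := by push_cast; ring
        rw [h9]
        refine Fin.lastCases ?_ (fun i => ?_) i
        · unfold bg
          rw [Fin.snoc_last, abs_mul, hs1, one_mul]
          have h2 : |∑ i : Fin j, a i.castSucc * ρ i| ≤ A * c := by
            have h11 : ∑ i : Fin j, |a i.castSucc| ≤ A := by
              rw [hAz, Fin.sum_univ_castSucc]
              have := abs_nonneg (a (Fin.last j))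
              linarith
            calc |∑ i : Fin j, a i.castSucc * ρ i| ≤ ∑ i : Fin j, |a i.castSucc * ρ i| := abs_sum_le_sum_abs _ _
              _ ≤ ∑ i : Fin j, |a i.castSucc| * c := by
                  apply sum_le_sum
                  intro i _
                  rw [abs_mul]
                  apply mul_le_mul_of_nonneg_left _ (abs_nonneg _)
                  rw [abs_of_nonneg (hρ i).1, hc]
                  exact (hρ i).2.le
              _ = (∑ i : Fin j, |a i.castSucc|) * c := by rw [sum_mul]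
              _ ≤ A * c := mul_le_mul_of_nonneg_right h11 (by positivity)
          have h5 : |t| ≤ |a (Fin.last j) * t| := by
            rw [abs_mul, abs_of_pos (show 0 < a (Fin.last j) by omega)]
            have := abs_nonneg t
            nlinarith
          rw [ht'] at h5
          have h8 : (A : ℤ) * c ≤ c * A * N := by
            have : (A : ℤ) * c * 1 ≤ A * c * N := mul_le_mul_of_nonneg_left hNz (by positivity)
            linarith
          have h12 := abs_add_le C (∑ i : Fin j, a i.castSucc * ρ i)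
          linarith
        · unfold bg
          rw [Fin.snoc_castSucc, abs_neg, abs_mul, hs1, one_mul, abs_of_nonneg (hρ i).1]
          have h7 : (c : ℤ) * 1 ≤ c * N := mul_le_mul_of_nonneg_left hNz (by positivity)
          have h8 := (hρ i).2
          rw [← hc] at h8
          linarith) (Rg a ρ t N Q) (convex_Rg a ρ t N hQ)
      rw [class_sumg hc1 hs f hρ ht' Q, class_sumg hc1 hs (fun _ _ => 1) hρ ht' Q] at h1
      simp only [Finset.prod_const_one] at h1
      rw [hres]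
      exact h1
    · have hem : {x ∈ SolQ a C N Q | res x = ρ} = ∅ := by
        rw [filter_eq_empty_iff]
        intro x hx hxρ
        apply hd
        rw [mem_SolQ] at hx
        have hx2 := hx.2.1
        rw [Fin.sum_univ_castSucc] at hx2
        have h2 : ∀ i : Fin j, ρ i = -x i.castSucc - a (Fin.last j) * ((-x i.castSucc) / a (Fin.last j)) := by
          intro i
          have h3 := congrFun hxρ i
          rw [hres] at h3
          have h4 := Int.emod_add_mul_ediv (-x i.castSucc) (a (Fin.last j))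
          simp only at h3
          rw [← h3]
          linarith
        have h3 : ∑ i : Fin j, a i.castSucc * ρ i = -∑ i : Fin j, a i.castSucc * x i.castSucc
            - a (Fin.last j) * ∑ i : Fin j, a i.castSucc * ((-x i.castSucc) / a (Fin.last j)) := by
          rw [mul_sum, ← sum_neg_distrib, ← sum_sub_distrib]
          apply sum_congr rfl; intro i _
          conv_lhs => rw [h2 i]
          ring
        exact ⟨x (Fin.last j) - ∑ i : Fin j, a i.castSucc * ((-x i.castSucc) / a (Fin.last j)), by rw [h3]; linarith⟩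
      rw [hem]
      simp only [sum_empty, mul_zero, sub_zero, abs_zero]
      positivity
  -- all classes
  have e1 : ∑ x ∈ SolQ a C N Q, ∏ i, f i (s i * x i) = ∑ ρ ∈ R, ∑ x ∈ SolQ a C N Q with res x = ρ, ∏ i, f i (s i * x i) :=
    (sum_fiberwise_of_maps_to hmaps _).symm
  have e2 : (#(SolQ a C N Q) : ℝ) = ∑ ρ ∈ R, ∑ x ∈ SolQ a C N Q with res x = ρ, (1 : ℝ) := by
    rw [sum_fiberwise_of_maps_to hmaps]; simp
  rw [e1, e2, mul_sum, ← sum_sub_distrib]
  refine (abs_sum_le_sum_abs _ _).trans ((sum_le_sum hclass).trans (le_of_eq ?_))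
  rw [sum_const, nsmul_eq_mul, hRcard, Nat.cast_pow]
  have : (c : ℝ) ^ j ≠ 0 := by positivity
  field_simp

/-- **All linear equations in invariant sets**: coefficients of any signs, members of prescribed signs, uniformly in the
constant and in a convex set. -/
theorem gen_lin (hC : S_CONVU) {j : ℕ} (hj : 1 ≤ j) {a : Fin (j + 1) → ℤ} (ha : ∀ i, a i ≠ 0)
    {s : Fin (j + 1) → ℤ} (hs : ∀ i, s i = 1 ∨ s i = -1)
    (hr : 2 ≤ j ∨ ∀ x y u v : ℕ, 2 ^ x * 3 ^ y * (s 0 * a 0) + 2 ^ u * 3 ^ v * (s (Fin.last j) * a (Fin.last j)) ≠ 0)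
    {f : Fin (j + 1) → ℤ → ℝ} (hf : ∀ i, InvF (s i) (fun x => f i (s i * x))) {μ : Fin (j + 1) → ℝ} (hμ : ∀ i, |μ i| ≤ 1)
    (hm : ∀ i, MeanZero (fun x => f i (s i * x) - μ i)) {ε : ℝ} (hε : 0 < ε) :
    ∃ N0 : ℕ, ∀ N : ℕ, N0 ≤ N → ∀ C : ℤ, ∀ Q : Set (Fin (j + 1) → ℝ), Convex ℝ Q →
      |∑ x ∈ SolQ a C N Q, ∏ i, f i (s i * x i) - (∏ i, μ i) * #(SolQ a C N Q)| ≤ ε * (N : ℝ) ^ j := by
  classical
  rcases lt_or_gt_of_ne (ha (Fin.last j)) with h | h
  · obtain ⟨N0, h0⟩ := gen_lin_pos hC hj (a := fun i => -a i) (fun i => neg_ne_zero.2 (ha i)) (by omega) hs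
      (hr.imp id fun hr x y u v h => hr x y u v (by linarith)) hf hμ hm hε
    refine ⟨N0, fun N hN C Q hQ => ?_⟩
    have h1 := h0 N hN (-C) Q hQ
    have h2 : SolQ (fun i => -a i) (-C) N Q = SolQ a C N Q := by
      ext x
      rw [mem_SolQ, mem_SolQ]
      simp only [neg_mul, sum_neg_distrib, neg_inj]
    rwa [h2] at h1
  · exact gen_lin_pos hC hj ha (by omega) hs hr hf hμ hm hε

end SH6

end Pool.Agent.KS6_24.ST
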