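import Mathlib
import Pool.Agent.KS6_24.ST.SH10a
import Pool.Agent.KS6_24.ST.SH5
import Pool.Agent.KS6_24.ST.SHRDefs

/-!
SH10R (helper6): the slicing lemma for all systems of affine forms with pairwise unrelated linear parts, uniformly in the
constant terms up to `B N` and in the convex regions, from `S_SUMR`.
-/

set_option autoImplicit false

namespace Pool.Agent.KS6_24.ST

open Finset Filter Topology Pool.Agent.H499R2.CO Pool.Agent.Y965.SI Pool.Agent.KS6_24.LN Pool.Agent.KS6_24.LN.TW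

namespace SH6

theorem Tz_neg6 {d : ℤ} (hd : d = 1 ∨ d = -1) (x : ℤ) : Tz (-d) x = -Tz d (-x) := by
  unfold Tz
  rcases hd with h | h <;> subst h <;> split_ifs <;> omega

theorem inv_neg6 {d : ℤ} (hd : d = 1 ∨ d = -1) {G : ℤ → ℝ} (hG : InvF d G) : InvF (-d) (fun x => G (-x)) := by
  refine ⟨fun x => hG.1 _, fun x => ?_⟩
  show G (-Tz (-d) x) = G (-x)
  rw [Tz_neg6 hd, neg_neg]
  exact hG.2 _

/-- `S_SUMR` with the mean zero function at any place -/
theorem sumr_at (hS : S_SUMR) {k : ℕ} {A : Fin k → ℕ} {d : Fin k → ℤ} (hG : GoodF A d) (κ : Fin k → ℕ)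
    {F : Fin k → ℤ → ℝ} (hF : ∀ a, InvF (d a) (F a)) (a0 : Fin k) (hm : MeanZero (F a0)) (H : ℕ) {ε : ℝ} (hε : 0 < ε) :
    ∃ M0 : ℕ, 1 ≤ M0 ∧ ∀ M : ℕ, M0 ≤ M → ∀ r : Fin k → ℤ, (M : ℤ) ≤ r a0 →
      (∀ a, (M : ℤ) ≤ r a ∨ r a + 2 ^ κ a * A a * M ≤ -(M : ℤ)) → (∀ a, |r a| ≤ H * M) →
      |∑ s ∈ range M, ∏ a, F a (2 ^ κ a * A a * ((s : ℕ) : ℤ) + r a)| ≤ ε * M := by
  obtain ⟨n, rfl⟩ : ∃ n, k = n + 1 := ⟨k - 1, by have := a0.2; omega⟩
  obtain ⟨π, hπ⟩ : ∃ π : Equiv.Perm (Fin (n + 1)), π = Equiv.swap 0 a0 := ⟨_, rfl⟩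
  have hπ0 : π 0 = a0 := by rw [hπ, Equiv.swap_apply_left]
  obtain ⟨M0, h1, h2⟩ := hS n (fun a => A (π a)) (fun a => d (π a))
    ⟨fun a => hG.1 _, fun a => hG.2.1 _, fun a b hab => hG.2.2 _ _ (fun h => hab (π.injective h))⟩
    (fun a => κ (π a)) (fun a => F (π a)) (fun a => hF _) (by rw [hπ0]; exact hm) H ε hε
  refine ⟨M0, h1, fun M hM r hr0 hr1 hr2 => ?_⟩
  have h3 := h2 M hM (fun a => r (π a)) (by rw [hπ0]; exact hr0) (fun a => hr1 _) (fun a => hr2 _)
  have e : ∀ s : ℕ, ∏ a, F (π a) (2 ^ κ (π a) * A (π a) * ((s : ℕ) : ℤ) + r (π a))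
      = ∏ a, F a (2 ^ κ a * A a * ((s : ℕ) : ℤ) + r a) := fun s =>
    Equiv.prod_comp π (fun a => F a (2 ^ κ a * A a * ((s : ℕ) : ℤ) + r a))
  simp only [e] at h3
  exact h3

/-- size of a form on the box, large constant term -/
theorem lf_abs6 {r N B : ℕ} (L : Fin r → ℤ) (b : ℤ) (hb : |b| ≤ B * N) {n : Fin r → ℤ} (hn : n ∈ Bx r N) (hN : 1 ≤ N) :
    |lf L n + b| ≤ ((∑ j, (L j).natAbs + B : ℕ) : ℤ) * N := by
  have h1 := lf_abs L 0 hn hN
  rw [add_zero, Int.natAbs_zero, add_zero] at h1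
  have h3 := abs_add_le (lf L n) b
  rw [Nat.cast_add, add_mul]
  linarith

/-- **The slicing lemma, general version.** -/
theorem slice_convu (hS : S_SUMR) (hD : S_DIR) : S_CONVU := by
  classical
  intro k r L hL hrel σ hσ f hf a0 hm B ε hε
  have hσσ : ∀ (a : Fin k) (x : ℤ), σ a * (σ a * x) = x := by
    intro a x; rcases hσ a with h | h <;> rw [h] <;> ring
  have hf1 : ∀ a x, |f a x| ≤ 1 := by
    intro a x
    have := (hf a).1 (σ a * x)
    simp only [hσσ] at this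
    exact this
  have hr1 : 1 ≤ r := by
    by_contra h
    have h0 : r = 0 := by omega
    subst h0
    exact hL a0 (funext fun j => j.elim0)
  have hpr : ∀ N : ℕ, (N : ℝ) ^ r = N * (N : ℝ) ^ (r - 1) := by
    intro N
    rw [← pow_succ']; congr 1; omega
  -- a direction at which no form vanishes, increasing for the mean zero function
  obtain ⟨w, hw, hwa⟩ : ∃ w : Fin r → ℤ, (∀ a, lf (L a) w ≠ 0) ∧ 0 < σ a0 * lf (L a0) w := by
    obtain ⟨u, hu⟩ := sh5_exists_generic (Finset.univ : Finset (Fin k)) L (fun i _ => hL i)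
    have hu' : ∀ a, lf (L a) u ≠ 0 := fun a => hu a (mem_univ a)
    rcases lt_or_gt_of_ne (hu' a0) with h | h
    · rcases hσ a0 with h' | h'
      · refine ⟨(-1 : ℤ) • u, fun a => ?_, ?_⟩
        · rw [lf_smul]; simpa using hu' a
        · rw [lf_smul, h']; linarith
      · exact ⟨u, hu', by rw [h']; linarith⟩
    · rcases hσ a0 with h' | h'
      · exact ⟨u, hu', by rw [h']; linarith⟩
      · refine ⟨(-1 : ℤ) • u, fun a => ?_, ?_⟩
        · rw [lf_smul]; simpa using hu' a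
        · rw [lf_smul, h']; linarith
  obtain ⟨ς, hς, hςw⟩ : ∃ ς : Fin k → ℤ, (∀ a, ς a = 1 ∨ ς a = -1) ∧ ∀ a, 0 < ς a * lf (L a) w := by
    refine ⟨fun a => if 0 < lf (L a) w then 1 else -1, fun a => ?_, fun a => ?_⟩
    · simp only; split_ifs
      · left; rfl
      · right; rfl
    · simp only; split_ifs with h
      · linarith
      · have := hw a
        have : lf (L a) w < 0 := lt_of_le_of_ne (not_lt.1 h) this
        linarith
  have hς0 : ς a0 = σ a0 := by
    have h1 := hςw a0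
    rcases hς a0 with h | h <;> rcases hσ a0 with h' | h' <;> rw [h] at h1 <;> rw [h'] at hwa <;> rw [h, h'] <;> linarith
  have hςς : ∀ (a : Fin k) (x : ℤ), ς a * (ς a * x) = x := by
    intro a x; rcases hς a with h | h <;> rw [h] <;> ring
  have hF : ∀ a, InvF (ς a) (fun x => f a (ς a * x)) := by
    intro a
    by_cases h : ς a = σ a
    · rw [h]; exact hf a
    · have h1 : ς a = -σ a := by
        rcases hς a with h' | h' <;> rcases hσ a with h'' | h'' <;> rw [h', h''] at h ⊢ <;> first | exact absurd rfl h | norm_num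
      have h2 := inv_neg6 (hσ a) (hf a)
      rw [h1]
      have h3 : (fun x => f a (-σ a * x)) = fun x => f a (σ a * -x) := by
        funext x; congr 1; ring
      rw [h3]
      exact h2
  have hm' : MeanZero (fun x => f a0 (ς a0 * x)) := by rw [hς0]; exact hm
  obtain ⟨v, hv1, hv2⟩ := hD k r L hL hrel ς w hς hςw
  have hv1' : ∀ a, 0 < ς a * lf (L a) v := hv1
  have hex : ∀ a, ∃ κ A : ℕ, A % 2 = 1 ∧ ς a * lf (L a) v = 2 ^ κ * A := by
    intro a
    obtain ⟨κ, A, hA, h⟩ := Nat.exists_eq_two_pow_mul_odd (n := (ς a * lf (L a) v).toNat) (by have := hv1' a; omega)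
    refine ⟨κ, A, Nat.odd_iff.1 hA, ?_⟩
    have h1 : (((ς a * lf (L a) v).toNat : ℕ) : ℤ) = ς a * lf (L a) v := Int.toNat_of_nonneg (hv1' a).le
    rw [← h1, h]; push_cast; rfl
  choose κ A hA hc using hex
  have hG : GoodF A ς := by
    refine ⟨hA, hς, fun a b' hab i j h => ?_⟩
    apply hv2 a b' hab (κ b') i (κ a) j
    have e1 : ∑ j, L a j * v j = ς a * (2 ^ κ a * A a) := by rw [← hc a, hςς]; rfl
    have e2 : ∑ j, L b' j * v j = ς b' * (2 ^ κ b' * A b') := by rw [← hc b', hςς]; rfl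
    rw [e1, e2]
    calc 2 ^ κ b' * 3 ^ i * (ς a * (2 ^ κ a * (A a : ℤ))) = 2 ^ κ b' * 2 ^ κ a * (ς a * A a * 3 ^ i) := by ring
      _ = 2 ^ κ b' * 2 ^ κ a * (ς b' * A b' * 3 ^ j) := by rw [h]
      _ = _ := by ring
  -- constants
  obtain ⟨C0, hC0⟩ : ∃ C0 : ℕ, C0 = ∑ a, (∑ j, (L a j).natAbs + B) := ⟨_, rfl⟩
  obtain ⟨Kc, hKc⟩ : ∃ Kc : ℕ, Kc = 1 + ∑ a, 2 ^ κ a * A a := ⟨_, rfl⟩
  obtain ⟨Vv, hVv⟩ : ∃ Vv : ℕ, Vv = ∑ j, (v j).natAbs := ⟨_, rfl⟩
  have hC0a : ∀ a, ∑ j, (L a j).natAbs + B ≤ C0 := fun a => by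
    rw [hC0]
    exact single_le_sum (f := fun a => ∑ j, (L a j).natAbs + B) (fun _ _ => Nat.zero_le _) (mem_univ a)
  have hKca : ∀ a, 1 + 2 ^ κ a * A a ≤ Kc := fun a => by
    rw [hKc]
    have := single_le_sum (f := fun a => 2 ^ κ a * A a) (fun _ _ => Nat.zero_le _) (mem_univ a)
    omega
  have hKc1 : 1 ≤ Kc := by omega
  obtain ⟨q, hq⟩ : ∃ q : ℕ, (2 * k * Kc + 5 * Vv : ℕ) / (ε / 4) + 1 ≤ (q : ℝ) := exists_nat_ge _
  have hq1 : 1 ≤ q := by
    have h1 : (0 : ℝ) ≤ (2 * k * Kc + 5 * Vv : ℕ) / (ε / 4) := by positivity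
    have : (1 : ℝ) ≤ q := by linarith
    exact_mod_cast this
  have hq0 : (0 : ℝ) < q := by exact_mod_cast hq1
  obtain ⟨M0, hM0, hSum⟩ := sumr_at hS hG κ hF a0 hm' (2 * q * C0) (ε := ε / 4) (by positivity)
  obtain ⟨N1, hN1⟩ : ∃ N1 : ℕ, (k : ℝ) / (ε / 4) ≤ (N1 : ℝ) := exists_nat_ge _
  refine ⟨max (q * M0) (max N1 1), fun N hN b hb Q hQ => ?_⟩
  have hNq : q * M0 ≤ N := (le_max_left _ _).trans hN
  have hNN1 : N1 ≤ N := (le_max_left _ _).trans ((le_max_right _ _).trans hN)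
  have hN1' : 1 ≤ N := (le_max_right _ _).trans ((le_max_right _ _).trans hN)
  obtain ⟨M, hM⟩ : ∃ M, M = N / q := ⟨_, rfl⟩
  have hMM0 : M0 ≤ M := by
    rw [hM, Nat.le_div_iff_mul_le (by omega), mul_comm]; exact hNq
  have hM1 : 1 ≤ M := hM0.trans hMM0
  have hMq : q * M ≤ N := by rw [hM]; exact Nat.mul_div_le N q
  have hMN : N ≤ 2 * q * M := by
    have h1 : N < q * (M + 1) := by rw [hM]; exact Nat.lt_mul_div_succ N (by omega)
    nlinarith
  have hM0r : (0 : ℝ) < M := by exact_mod_cast hM1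
  have hN0r : (0 : ℝ) < N := by exact_mod_cast hN1'
  set Φ := ph L b σ f with hΦ
  have hΦ1 : ∀ n, |Φ n| ≤ 1 := ph_abs hf1
  obtain ⟨Ψ, hΨ⟩ : ∃ Ψ : (Fin r → ℤ) → ℝ, Ψ = fun n => if (fun j => (n j : ℝ)) ∈ Q then Φ n else 0 := ⟨_, rfl⟩
  have hΨ1 : ∀ n, |Ψ n| ≤ 1 := by
    intro n
    rw [hΨ]
    simp only
    split_ifs
    · exact hΦ1 n
    · norm_num
  have hgoal : ∑ n ∈ Bx r N, (if (fun j => (n j : ℝ)) ∈ Q then ph L b σ f n else 0) = ∑ n ∈ Bx r N, Ψ n := by rw [hΨ]
  rw [hgoal]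
  -- one line
  have hline : ∀ n ∈ Bx r N, |∑ s ∈ range M, Φ (n + ((s : ℕ) : ℤ) • v)|
      ≤ ε / 4 * M + M * ∑ a, (if |lf (L a) n + b a| ≤ ((Kc * M : ℕ) : ℤ) then (1 : ℝ) else 0) := by
    intro n hn
    have hval : ∀ (a : Fin k) (s : ℕ), ς a * (lf (L a) (n + ((s : ℕ) : ℤ) • v) + b a)
        = 2 ^ κ a * A a * ((s : ℕ) : ℤ) + ς a * (lf (L a) n + b a) := by
      intro a s
      rw [lf_add, lf_smul, ← hc a]; ring
    have hbd : ∀ (a : Fin k) (s : ℕ), s < M → 2 ^ κ a * (A a : ℤ) * ((s : ℕ) : ℤ) + M ≤ ((Kc * M : ℕ) : ℤ) := by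
      intro a s hs
      have h1 : 2 ^ κ a * A a * s + M ≤ Kc * M := by
        calc 2 ^ κ a * A a * s + M ≤ 2 ^ κ a * A a * M + M := Nat.add_le_add_right (Nat.mul_le_mul_left _ hs.le) _
          _ = (1 + 2 ^ κ a * A a) * M := by ring
          _ ≤ Kc * M := Nat.mul_le_mul_right _ (hKca a)
      exact_mod_cast h1
    have hbd0 : ∀ (a : Fin k) (s : ℕ), 0 ≤ 2 ^ κ a * (A a : ℤ) * ((s : ℕ) : ℤ) := fun a s => by positivity
    -- the value at another point of the line
    have hval' : ∀ (a : Fin k) (s : ℕ), σ a * (lf (L a) (n + ((s : ℕ) : ℤ) • v) + b a)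
        = σ a * (lf (L a) n + b a) + 2 ^ κ a * A a * ((s : ℕ) : ℤ) ∨
        σ a * (lf (L a) (n + ((s : ℕ) : ℤ) • v) + b a)
        = σ a * (lf (L a) n + b a) - 2 ^ κ a * A a * ((s : ℕ) : ℤ) := by
      intro a s
      have h1 := hval a s
      rcases hς a with h | h <;> rcases hσ a with h' | h' <;> rw [h] at h1 <;> rw [h']
      · left; linarith
      · right; linarith
      · right; linarith
      · left; linarith
    have hM1z : (1 : ℤ) ≤ M := by exact_mod_cast hM1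
    by_cases hnr : ∃ a, |lf (L a) n + b a| ≤ ((Kc * M : ℕ) : ℤ)
    · -- near a hyperplane
      obtain ⟨a, h3⟩ := hnr
      have h4 : (1 : ℝ) ≤ ∑ a, (if |lf (L a) n + b a| ≤ ((Kc * M : ℕ) : ℤ) then (1 : ℝ) else 0) := by
        have := single_le_sum (f := fun a => (if |lf (L a) n + b a| ≤ ((Kc * M : ℕ) : ℤ) then (1 : ℝ) else 0))
          (fun a _ => by split_ifs <;> norm_num) (mem_univ a)
        simp only [if_pos h3] at this
        exact this
      have h5 : |∑ s ∈ range M, Φ (n + ((s : ℕ) : ℤ) • v)| ≤ M := by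
        refine (abs_sum_le_sum_abs _ _).trans ?_
        calc _ ≤ ∑ s ∈ range M, (1 : ℝ) := sum_le_sum fun s _ => hΦ1 _
          _ = M := by simp
      have h6 := mul_le_mul_of_nonneg_left h4 hM0r.le
      have h7 : 0 ≤ ε / 4 * (M : ℝ) := by positivity
      linarith
    push Not at hnr
    have hσabs : ∀ a, σ a * (lf (L a) n + b a) = |lf (L a) n + b a| ∨ σ a * (lf (L a) n + b a) = -|lf (L a) n + b a| := by
      intro a
      rcases hσ a with h | h <;> rw [h] <;> rcases abs_choice (lf (L a) n + b a) with h' | h' <;> rw [h']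
      · left; ring
      · right; ring
      · right; ring
      · left; ring
    by_cases hsg : ∀ a, σ a * (lf (L a) n + b a) = |lf (L a) n + b a|
    · -- all signs are right
      have hςabs : ∀ a, ς a * (lf (L a) n + b a) = |lf (L a) n + b a| ∨ ς a * (lf (L a) n + b a) = -|lf (L a) n + b a| := by
        intro a
        rcases hς a with h | h <;> rw [h] <;> rcases abs_choice (lf (L a) n + b a) with h' | h' <;> rw [h']
        · left; ring
        · right; ring
        · right; ring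
        · left; ring
      have h2 := hSum M hMM0 (fun a => ς a * (lf (L a) n + b a))
        (by
          rw [hς0, hsg a0]
          have h1 := hnr a0
          have h2 := hbd a0 0 (by omega)
          have h3 := hbd0 a0 0
          linarith)
        (fun a => by
          have h1 := hnr a
          have h3 := hbd0 a M
          have h2 : 2 ^ κ a * (A a : ℤ) * ((M : ℕ) : ℤ) + M ≤ ((Kc * M : ℕ) : ℤ) := by
            have h4 : 2 ^ κ a * A a * M + M ≤ Kc * M := by
              calc 2 ^ κ a * A a * M + M = (1 + 2 ^ κ a * A a) * M := by ring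
                _ ≤ Kc * M := Nat.mul_le_mul_right _ (hKca a)
            exact_mod_cast h4
          rcases hςabs a with h | h <;> rw [h]
          · left; linarith
          · right; linarith)
        (fun a => by
          have h3 := lf_abs6 (L a) (b a) (hb a) hn hN1'
          have h4 : |ς a * (lf (L a) n + b a)| = |lf (L a) n + b a| := by
            rcases hς a with h | h <;> rw [h]
            · rw [one_mul]
            · rw [neg_one_mul, abs_neg]
          have h5 : ((∑ j, (L a j).natAbs + B : ℕ) : ℤ) * N ≤ (C0 : ℤ) * (2 * q * M) := by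
            apply mul_le_mul
            · exact_mod_cast hC0a a
            · exact_mod_cast hMN
            · positivity
            · positivity
          calc |ς a * (lf (L a) n + b a)| ≤ (C0 : ℤ) * (2 * q * M) := by rw [h4]; exact h3.trans h5
            _ = ((2 * q * C0 : ℕ) : ℤ) * M := by push_cast; ring)
      have h3 : ∑ s ∈ range M, Φ (n + ((s : ℕ) : ℤ) • v)
          = ∑ s ∈ range M, ∏ a, f a (ς a * (2 ^ κ a * A a * ((s : ℕ) : ℤ) + ς a * (lf (L a) n + b a))) := by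
        apply sum_congr rfl
        intro s hs
        rw [mem_range] at hs
        rw [hΦ]
        unfold ph
        apply prod_congr rfl
        intro a _
        rw [← hval a s, hςς, if_pos, mul_one]
        have h4 := hnr a
        have h5 := hbd a s hs
        have h6 := hbd0 a s
        have h7 := hsg a
        rcases hval' a s with h | h <;> rw [h] <;> linarith
      rw [h3]
      refine h2.trans ?_
      have : 0 ≤ (M : ℝ) * ∑ a, (if |lf (L a) n + b a| ≤ ((Kc * M : ℕ) : ℤ) then (1 : ℝ) else 0) := by positivity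
      linarith
    · -- a sign is wrong on the whole line
      push Not at hsg
      obtain ⟨a, ha⟩ := hsg
      have ha' := (hσabs a).resolve_left ha
      have h3 : ∑ s ∈ range M, Φ (n + ((s : ℕ) : ℤ) • v) = 0 := by
        apply sum_eq_zero
        intro s hs
        rw [mem_range] at hs
        rw [hΦ]
        apply ph_zero (a := a)
        have h4 := hnr a
        have h5 := hbd a s hs
        have h6 := hbd0 a s
        rw [not_lt]
        rcases hval' a s with h | h <;> rw [h] <;> linarith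
      rw [h3, abs_zero]
      positivity
  -- sum over the lines
  have hnear : ∀ a, ∑ n ∈ Bx r N, (if |lf (L a) n + b a| ≤ ((Kc * M : ℕ) : ℤ) then (1 : ℝ) else 0)
      ≤ (2 * (Kc * M) + 1) * (N : ℝ) ^ (r - 1) := by
    intro a
    rw [← sum_filter, sum_const, nsmul_eq_mul, mul_one]
    have := near_card (N := N) (hL a) (b a) (Kc * M)
    exact_mod_cast this
  have h1 : |∑ n ∈ Bx r N, (if (fun j => (n j : ℝ)) ∈ Q then ∑ s ∈ range M, Φ (n + ((s : ℕ) : ℤ) • v) else 0)|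
      ≤ ε / 4 * M * (N : ℝ) ^ r + M * (k * ((2 * (Kc * M) + 1) * (N : ℝ) ^ (r - 1))) := by
    refine (abs_sum_le_sum_abs _ _).trans ((sum_le_sum fun n hn => (?_ : _ ≤ |∑ s ∈ range M, Φ (n + ((s : ℕ) : ℤ) • v)|)).trans
      ((sum_le_sum hline).trans ?_))
    · split_ifs
      · exact le_rfl
      · rw [abs_zero]; exact abs_nonneg _
    rw [sum_add_distrib, sum_const, card_Bx, nsmul_eq_mul, ← mul_sum, sum_comm]
    have h2 := sum_le_sum fun a (_ : a ∈ (univ : Finset (Fin k))) => hnear a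
    rw [sum_const, card_univ, Fintype.card_fin, nsmul_eq_mul] at h2
    have h3 := mul_le_mul_of_nonneg_left h2 hM0r.le
    rw [Nat.cast_pow]
    linarith
  -- shifts
  have h2 : |M * ∑ n ∈ Bx r N, Ψ n - ∑ n ∈ Bx r N, ∑ s ∈ range M, Ψ (n + ((s : ℕ) : ℤ) • v)|
      ≤ M * (2 * (M * Vv) * (N : ℝ) ^ (r - 1)) := by
    rw [sum_comm]
    have e1 : (M : ℝ) * ∑ n ∈ Bx r N, Ψ n - ∑ s ∈ range M, ∑ n ∈ Bx r N, Ψ (n + ((s : ℕ) : ℤ) • v)
        = ∑ s ∈ range M, (∑ n ∈ Bx r N, Ψ n - ∑ n ∈ Bx r N, Ψ (n + ((s : ℕ) : ℤ) • v)) := by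
      rw [sum_sub_distrib, sum_const, card_range, nsmul_eq_mul]
    rw [e1]
    refine (abs_sum_le_sum_abs _ _).trans ?_
    calc _ ≤ ∑ s ∈ range M, (2 * (M * Vv) * (N : ℝ) ^ (r - 1)) := by
          apply sum_le_sum
          intro s hs
          rw [mem_range] at hs
          refine (shift_sum hΨ1 (((s : ℕ) : ℤ) • v)).trans ?_
          apply mul_le_mul_of_nonneg_right _ (by positivity)
          apply mul_le_mul_of_nonneg_left _ (by norm_num)
          have h3 : ∑ j, ((((s : ℕ) : ℤ) • v) j).natAbs = s * Vv := by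
            rw [hVv, mul_sum]
            apply sum_congr rfl; intro j _
            rw [Pi.smul_apply, smul_eq_mul, Int.natAbs_mul, Int.natAbs_natCast]
          rw [h3]
          push_cast
          exact mul_le_mul_of_nonneg_right (by exact_mod_cast hs.le) (Nat.cast_nonneg _)
      _ = _ := by rw [sum_const, card_range, nsmul_eq_mul]
  have h2' : |∑ n ∈ Bx r N, ∑ s ∈ range M, Ψ (n + ((s : ℕ) : ℤ) • v)
      - ∑ n ∈ Bx r N, (if (fun j => (n j : ℝ)) ∈ Q then ∑ s ∈ range M, Φ (n + ((s : ℕ) : ℤ) • v) else 0)|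
      ≤ M * (3 * (M * Vv) * (N : ℝ) ^ (r - 1)) := by
    have e2 : ∑ n ∈ Bx r N, (if (fun j => (n j : ℝ)) ∈ Q then ∑ s ∈ range M, Φ (n + ((s : ℕ) : ℤ) • v) else 0)
        = ∑ n ∈ Bx r N, ∑ s ∈ range M, (if (fun j => (n j : ℝ)) ∈ Q then Φ (n + ((s : ℕ) : ℤ) • v) else 0) := by
      apply sum_congr rfl
      intro n _
      split_ifs
      · rfl
      · rw [sum_const_zero]
    rw [e2, ← sum_sub_distrib]
    simp only [← sum_sub_distrib]
    rw [sum_comm]
    refine (abs_sum_le_sum_abs _ _).trans ?_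
    calc _ ≤ ∑ s ∈ range M, (3 * (M * Vv) * (N : ℝ) ^ (r - 1)) := by
          apply sum_le_sum
          intro s hs
          rw [mem_range] at hs
          refine (abs_sum_le_sum_abs _ _).trans ?_
          have h4 : ∑ n ∈ Bx r N, |Ψ (n + ((s : ℕ) : ℤ) • v) - (if (fun j => (n j : ℝ)) ∈ Q then Φ (n + ((s : ℕ) : ℤ) • v) else 0)|
              ≤ (#{n ∈ Bx r N | ¬ (((fun j => (n j : ℝ)) ∈ Q) ↔ (fun j => ((n + ((s : ℕ) : ℤ) • v) j : ℝ)) ∈ Q)} : ℝ) := by
            rw [card_filter]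
            push_cast
            apply sum_le_sum
            intro n _
            rw [hΨ]
            simp only
            by_cases g1 : (fun j => (n j : ℝ)) ∈ Q
            · by_cases g2 : (fun j => ((n + ((s : ℕ) : ℤ) • v) j : ℝ)) ∈ Q
              · rw [if_pos g1, if_pos g2, sub_self, abs_zero]; split_ifs <;> norm_num
              · rw [if_pos g1, if_neg g2, if_pos (fun h => g2 (h.1 g1)), zero_sub, abs_neg]; exact hΦ1 _
            · by_cases g2 : (fun j => ((n + ((s : ℕ) : ℤ) • v) j : ℝ)) ∈ Q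
              · rw [if_neg g1, if_pos g2, if_pos (fun h => g1 (h.2 g2)), sub_zero]; exact hΦ1 _
              · rw [if_neg g1, if_neg g2, sub_self, abs_zero]; split_ifs <;> norm_num
          refine h4.trans ?_
          have h5 := change_card (N := N) hQ (((s : ℕ) : ℤ) • v)
          have h3 : ∑ j, ((((s : ℕ) : ℤ) • v) j).natAbs = s * Vv := by
            rw [hVv, mul_sum]
            apply sum_congr rfl; intro j _
            rw [Pi.smul_apply, smul_eq_mul, Int.natAbs_mul, Int.natAbs_natCast]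
          rw [h3] at h5
          have h6 : 3 * (s * Vv) * N ^ (r - 1) ≤ 3 * (M * Vv) * N ^ (r - 1) :=
            Nat.mul_le_mul_right _ (Nat.mul_le_mul_left _ (Nat.mul_le_mul_right _ hs.le))
          have h7 := h5.trans h6
          exact_mod_cast h7
      _ = _ := by rw [sum_const, card_range, nsmul_eq_mul]
  -- conclusion
  have h3 : (M : ℝ) * |∑ n ∈ Bx r N, Ψ n| ≤ M * (ε / 4 * (N : ℝ) ^ r + k * ((2 * (Kc * M) + 1) * (N : ℝ) ^ (r - 1))
      + 5 * (M * Vv) * (N : ℝ) ^ (r - 1)) := by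
    have e1 : (M : ℝ) * |∑ n ∈ Bx r N, Ψ n| = |M * ∑ n ∈ Bx r N, Ψ n| := by rw [abs_mul, abs_of_pos hM0r]
    rw [e1]
    have h4 := abs_sub_abs_le_abs_sub (M * ∑ n ∈ Bx r N, Ψ n) (∑ n ∈ Bx r N, ∑ s ∈ range M, Ψ (n + ((s : ℕ) : ℤ) • v))
    have h5 := abs_sub_abs_le_abs_sub (∑ n ∈ Bx r N, ∑ s ∈ range M, Ψ (n + ((s : ℕ) : ℤ) • v))
      (∑ n ∈ Bx r N, (if (fun j => (n j : ℝ)) ∈ Q then ∑ s ∈ range M, Φ (n + ((s : ℕ) : ℤ) • v) else 0))
    linarith
  have h4 := le_of_mul_le_mul_left h3 hM0r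
  refine h4.trans ?_
  have hNr : (0 : ℝ) ≤ (N : ℝ) ^ (r - 1) := by positivity
  have h5 : (M : ℝ) * q ≤ N := by
    have : q * M ≤ N := hMq
    have h6 : ((q * M : ℕ) : ℝ) ≤ N := by exact_mod_cast this
    push_cast at h6
    linarith
  have h6 : (2 * k * Kc + 5 * Vv : ℕ) * (M : ℝ) ≤ ε / 4 * N := by
    have h7 : ((2 * k * Kc + 5 * Vv : ℕ) : ℝ) ≤ ε / 4 * q := by
      have h8 : ((2 * k * Kc + 5 * Vv : ℕ) : ℝ) / (ε / 4) ≤ q := by linarith
      rw [div_le_iff₀ (by positivity)] at h8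
      linarith
    calc ((2 * k * Kc + 5 * Vv : ℕ) : ℝ) * M ≤ (ε / 4 * q) * M := mul_le_mul_of_nonneg_right h7 hM0r.le
      _ = ε / 4 * (M * q) := by ring
      _ ≤ ε / 4 * N := mul_le_mul_of_nonneg_left h5 (by positivity)
  have h7 : (k : ℝ) ≤ ε / 4 * N := by
    have h8 : (k : ℝ) / (ε / 4) ≤ N := hN1.trans (by exact_mod_cast hNN1)
    rw [div_le_iff₀ (by positivity)] at h8
    linarith
  push_cast at h6
  have h8 := mul_le_mul_of_nonneg_right (add_le_add h6 h7) hNr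
  rw [hpr]
  have h9 : 0 ≤ ε / 4 * (N * (N : ℝ) ^ (r - 1)) := by positivity
  linarith

end SH6

end Pool.Agent.KS6_24.ST
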