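import Mathlib
import Pool.Agent.KS6_24.ST.SHRDefs
import Pool.Agent.KS6_24.ST.FM4a

/-! SH2aR: the stage lemma for `n` functions at shifted multiples (shifts of both signs), with abstract error terms (after SH2a). -/

set_option autoImplicit false

namespace Pool.Agent.KS6_24.ST

open Pool.Agent.H499R2.CO Pool.Agent.Y965.SI Finset Pool.Agent.KS6_24.LN

variable {t g B : ℕ}

/-- the shifts after the change of variable -/
def okT (H X s : ℝ) : Prop := (0 ≤ s ∧ s ≤ H * X) ∨ (3 * X ≤ -s ∧ -s ≤ (H + 1) * X)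

/-- STAGE LEMMA for `n` functions at shifted multiples, abstract form, shifts of both signs. -/
theorem stage_absR (hg : 1 ≤ g) {n : ℕ} {F : Fin n → ℤ → ℝ} {d : Fin n → ℤ} (hF : ∀ a x, |F a x| ≤ 1) {V : ℝ} (hV : 0 < V)
    {N l : ℕ} (hN : 1 ≤ N) (hl : 1 ≤ l) {A i e : Fin n → ℕ} (hA : ∀ a, A a * 3 ^ i a * e a = N) {H : ℝ} {ρ : Fin n → ℝ}
    (hV1 : 1 ≤ V) (hρ : ∀ a, okS H V (ρ a)) {e₀ e₁ e₃ η : ℝ}
    (h0 : ∀ a, ∀ s : ℝ, okT H ((A a * 3 ^ i a : ℕ) * V) s → ∀ u : ℝ, 0 ≤ u → u ≤ 1 →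
      av ((A a * 3 ^ i a : ℕ) * V) (fun y => |F a ⌊y + s + u⌋ - F a ⌊y + s⌋|) ≤ e₀)
    (h1 : ∀ a, ∀ s : ℝ, okT H ((A a * 3 ^ i a : ℕ) * V) s →
      av ((A a * 3 ^ i a : ℕ) * V) (fun y => |F a ⌊y + s⌋ - Ff (F a) (d a) t g B (y + s)|) ≤ e₁)
    (h3 : ∀ a, ∀ s : ℝ, okT H ((A a * 3 ^ i a : ℕ) * V) s → ∀ c ∈ Cs t g B, ∀ u : ℝ, 0 ≤ u → u ≤ l * (A a * 3 ^ i a : ℕ) →
      av ((A a * 3 ^ i a : ℕ) * V) (fun y => |fc (F a) t c (y + s + u) - fc (F a) t c (y + s)|) ≤ e₃)
    (h4 : ∀ (h : Fin n → ℤ) (c : Fin n → ℕ), av (N * V) (fun y => ((∑ w ∈ range (l * N), ∏ a, ((g : ℝ) *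
      psi (d a) t g (c a) ((⌊y⌋ + h a + (w : ℕ)) / (e a : ℤ)))) / (l * N) - ∏ a, ((g : ℝ) * pc 1 t g (c a))) ^ 2) ≤ η) :
    |cs F A ρ V (fun a => i a) - ∑ c ∈ Fintype.piFinset (fun _ : Fin n => Cs t g B),
        (∏ a, pc 1 t g (c a)) * cs F A (fun a => ρ a / 2 ^ t) (V / 2 ^ t) (fun a => (i a : ℤ) + c a)|
      ≤ n * e₀ + n * e₁ + ((#(Cs t g B) : ℝ) / g) ^ n * (√ η + n * e₃ + 2 * l / V + n * e₃) := by
  have hg' : (0 : ℝ) < g := by exact_mod_cast hg
  have hl' : (0 : ℝ) < l := by exact_mod_cast hl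
  have h3E : (0 : ℝ) < N := by exact_mod_cast hN
  have hW : 0 < (N : ℝ) * V := by positivity
  set W : ℝ := N * V with hWdef
  have he1 : ∀ a, 1 ≤ e a := fun a => by
    rcases Nat.eq_zero_or_pos (e a) with h | h
    · exfalso; have := hA a; rw [h] at this; omega
    · exact h
  have he1r : ∀ a, (1 : ℝ) ≤ e a := fun a => by exact_mod_cast he1 a
  set lam : Fin n → ℝ := fun a => (e a : ℝ)⁻¹ with hlam
  have hlam0 : ∀ a, 0 < lam a := fun a => by
    have : (0 : ℝ) < e a := by exact_mod_cast he1 a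
    rw [hlam]; positivity
  have hlam1 : ∀ a, lam a ≤ 1 := fun a => by
    rw [hlam]; exact inv_le_one_of_one_le₀ (he1r a)
  have hlamE : ∀ a, lam a * N = (A a * 3 ^ i a : ℕ) := fun a => by
    have h0 : (0 : ℝ) < e a := by exact_mod_cast he1 a
    rw [hlam]; simp only
    rw [← hA a]; push_cast; field_simp
  have hlamW : ∀ a, lam a * W = (A a * 3 ^ i a : ℕ) * V := fun a => by rw [hWdef, ← mul_assoc, hlamE]
  -- the shifts
  obtain ⟨h, hh⟩ : ∃ h : Fin n → ℤ, h = fun a => ⌊(N : ℝ) * ρ a⌋ := ⟨_, rfl⟩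
  obtain ⟨s, hs⟩ : ∃ s : Fin n → ℝ, s = fun a => lam a * h a := ⟨_, rfl⟩
  obtain ⟨θ, hθ⟩ : ∃ θ : Fin n → ℝ, θ = fun a => lam a * (N * ρ a - h a) := ⟨_, rfl⟩
  have hAi1 : ∀ a, (1 : ℝ) ≤ (A a * 3 ^ i a : ℕ) := fun a => by
    have : 1 ≤ A a * 3 ^ i a := by
      rcases Nat.eq_zero_or_pos (A a * 3 ^ i a) with h | h
      · exfalso; have := hA a; rw [h] at this; omega
      · exact h
    exact_mod_cast this
  have hsT : ∀ a, okT H ((A a * 3 ^ i a : ℕ) * V) (s a) := fun a => by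
    have e1 : (h a : ℝ) ≤ N * ρ a := by rw [hh]; exact Int.floor_le _
    have e2 : (N : ℝ) * ρ a < h a + 1 := by rw [hh]; exact Int.lt_floor_add_one _
    have e3 : s a = lam a * h a := by rw [hs]
    have e4 : (lam a * N) * V = (A a * 3 ^ i a : ℕ) * V := by rw [hlamE]
    have e5 : (1 : ℝ) ≤ (A a * 3 ^ i a : ℕ) * V := one_le_mul_of_one_le_of_one_le (hAi1 a) hV1
    have e6 : 0 ≤ lam a * N := mul_nonneg (hlam0 a).le h3E.le
    rcases hρ a with ⟨p0, p1⟩ | ⟨p0, p1⟩
    · left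
      have hh0 : 0 ≤ h a := by
        rw [hh]; exact Int.floor_nonneg.2 (mul_nonneg h3E.le p0)
      refine ⟨by rw [e3]; exact mul_nonneg (hlam0 a).le (by exact_mod_cast hh0), ?_⟩
      calc s a = lam a * h a := e3
        _ ≤ lam a * (N * ρ a) := mul_le_mul_of_nonneg_left e1 (hlam0 a).le
        _ = (lam a * N) * ρ a := by ring
        _ ≤ (lam a * N) * (H * V) := mul_le_mul_of_nonneg_left p1 e6
        _ = H * ((A a * 3 ^ i a : ℕ) * V) := by rw [hlamE]; ring
    · right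
      constructor
      · have q1 : (lam a * N) * (3 * V) ≤ (lam a * N) * (-ρ a) := mul_le_mul_of_nonneg_left p0 e6
        have q2 : lam a * (h a : ℝ) ≤ lam a * (N * ρ a) := mul_le_mul_of_nonneg_left e1 (hlam0 a).le
        rw [e3, ← e4]
        nlinarith
      · have q1 : (lam a * N) * (-ρ a) ≤ (lam a * N) * (H * V) := mul_le_mul_of_nonneg_left p1 e6
        have q2 : lam a * (N * ρ a - 1) ≤ lam a * (h a : ℝ) := mul_le_mul_of_nonneg_left (by linarith) (hlam0 a).le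
        have q3 := hlam1 a
        rw [e3]
        have q4 : (H + 1) * ((A a * 3 ^ i a : ℕ) * V) = (lam a * N) * (H * V) + (A a * 3 ^ i a : ℕ) * V := by
          rw [hlamE]; ring
        rw [q4]
        nlinarith
  have hθ0 : ∀ a, 0 ≤ θ a := fun a => by
    have e1 : (h a : ℝ) ≤ N * ρ a := by rw [hh]; exact Int.floor_le _
    rw [hθ]; exact mul_nonneg (hlam0 a).le (by linarith)
  have hθ1 : ∀ a, θ a ≤ 1 := fun a => by
    have e1 : (N : ℝ) * ρ a < h a + 1 := by rw [hh]; exact Int.lt_floor_add_one _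
    rw [hθ]
    calc lam a * (N * ρ a - h a) ≤ 1 * 1 := mul_le_mul (hlam1 a) (by linarith) (by
          have e2 : (h a : ℝ) ≤ N * ρ a := by rw [hh]; exact Int.floor_le _
          linarith) (by norm_num)
      _ = 1 := one_mul 1
  have hx : ∀ (a : Fin n) (z : ℝ), lam a * (z + N * ρ a) = lam a * z + s a + θ a := fun a z => by rw [hs, hθ]; ring
  have hx' : ∀ (a : Fin n) (z : ℝ), lam a * (z + h a) = lam a * z + s a := fun a z => by rw [hs]; ring
  -- the functions
  have bF : ∀ a, Bd 1 (fun y : ℝ => F a ⌊y⌋) := fun a => Bd.fl (hF a)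
  have bFf : ∀ a, Bd 1 (Ff (F a) (d a) t g B) := fun a => FfB (hF a) hg
  have bFl0 : ∀ a, Bd 1 (fun z : ℝ => F a ⌊lam a * z + s a + θ a⌋) :=
    fun a => (bF a).comp (g := fun z => lam a * z + s a + θ a) (by fun_prop)
  have bFl : ∀ a, Bd 1 (fun z : ℝ => F a ⌊lam a * z + s a⌋) := fun a => (bF a).comp (g := fun z => lam a * z + s a) (by fun_prop)
  have bFfl : ∀ a, Bd 1 (fun z : ℝ => Ff (F a) (d a) t g B (lam a * z + s a)) :=
    fun a => (bFf a).comp (g := fun z => lam a * z + s a) (by fun_prop)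
  have bfcl : ∀ a c, Bd 1 (fun z : ℝ => fc (F a) t c (lam a * z + s a)) :=
    fun a c => (fcB (hF a) t c).comp (g := fun z => lam a * z + s a) (by fun_prop)
  have bfcl0 : ∀ a c, Bd 1 (fun z : ℝ => fc (F a) t c (lam a * z + s a + θ a)) :=
    fun a c => (fcB (hF a) t c).comp (g := fun z => lam a * z + s a + θ a) (by fun_prop)
  -- step 0: change of variable
  have ecn : cs F A ρ V (fun a => i a) = av W (fun z => ∏ a, F a ⌊lam a * z + s a + θ a⌋) := by
    rw [hWdef, ← av_scale hV h3E (fun z => ∏ a, F a ⌊lam a * z + s a + θ a⌋)]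
    unfold cs
    congr 1
    funext y
    apply prod_congr rfl
    intro a _
    rw [← hx, ← mul_add, ← mul_assoc (lam a), hlamE, zpow_natCast]
    congr 2
    push_cast
    ring
  -- step 0.5
  have k0 : |av W (fun z => ∏ a, F a ⌊lam a * z + s a + θ a⌋) - av W (fun z => ∏ a, F a ⌊lam a * z + s a⌋)| ≤ n * e₀ := by
    have b1 : Bd 1 (fun z => ∏ a, F a ⌊lam a * z + s a + θ a⌋) := Bd.fprod univ fun a _ => bFl0 a
    have b2 : Bd 1 (fun z => ∏ a, F a ⌊lam a * z + s a⌋) := Bd.fprod univ fun a _ => bFl a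
    rw [← av_sub W b1 b2]
    refine (abs_av_le hW (b1.sub b2)).trans ?_
    have := av_prod_tele univ hW (u := fun a z => F a ⌊lam a * z + s a + θ a⌋) (v := fun a z => F a ⌊lam a * z + s a⌋)
      (fun a _ => bFl0 a) (fun a _ => bFl a) (e := e₀) (fun a _ => by
        have e1 := av_scale hW (hlam0 a) (fun y => |F a ⌊y + s a + θ a⌋ - F a ⌊y + s a⌋|)
        rw [e1, hlamW]
        exact h0 a (s a) (hsT a) (θ a) (hθ0 a) (hθ1 a))
    simpa using this
  -- step 1
  have k1 : |av W (fun z => ∏ a, F a ⌊lam a * z + s a⌋) - av W (fun z => ∏ a, Ff (F a) (d a) t g B (lam a * z + s a))| ≤ n * e₁ := by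
    have b1 : Bd 1 (fun z => ∏ a, F a ⌊lam a * z + s a⌋) := Bd.fprod univ fun a _ => bFl a
    have b2 : Bd 1 (fun z => ∏ a, Ff (F a) (d a) t g B (lam a * z + s a)) := Bd.fprod univ fun a _ => bFfl a
    rw [← av_sub W b1 b2]
    refine (abs_av_le hW (b1.sub b2)).trans ?_
    have := av_prod_tele univ hW (u := fun a z => F a ⌊lam a * z + s a⌋) (v := fun a z => Ff (F a) (d a) t g B (lam a * z + s a))
      (fun a _ => bFl a) (fun a _ => bFfl a) (e := e₁) (fun a _ => by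
        have e1 := av_scale hW (hlam0 a) (fun y => |F a ⌊y + s a⌋ - Ff (F a) (d a) t g B (y + s a)|)
        rw [e1, hlamW]
        exact h1 a (s a) (hsT a))
    simpa using this
  -- step 2: expansion
  set Ψ : (Fin n → ℕ) → ℕ → ℝ → ℝ := fun c w z => ∏ a, ((g : ℝ) * psi (d a) t g (c a) ((⌊z⌋ + h a + (w : ℕ)) / (e a : ℤ))) with hΨ
  set Φ : (Fin n → ℕ) → ℝ → ℝ := fun c z => ∏ a, fc (F a) t (c a) (lam a * z + s a) with hΦ
  have bΦ : ∀ c, Bd 1 (Φ c) := fun c => Bd.fprod univ fun a _ => bfcl a (c a)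
  have hps : ∀ (a : Fin n) (c : ℕ) (x : ℤ), |(g : ℝ) * psi (d a) t g c x| ≤ 1 := fun a c x => by
    rw [abs_of_nonneg (mul_nonneg hg'.le (psi_nonneg c x))]
    calc (g : ℝ) * psi (d a) t g c x ≤ g * (1 / g) := mul_le_mul_of_nonneg_left (psi_le hg c x) hg'.le
      _ = 1 := by field_simp
  have bΨ : ∀ c w, Bd 1 (Ψ c w) := fun c w => Bd.fprod univ fun a _ =>
    Bd.fl (F := fun x : ℤ => (g : ℝ) * psi (d a) t g (c a) ((x + h a + (w : ℕ)) / (e a : ℤ))) fun x => hps _ _ _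
  have hfl0 : ∀ (a : Fin n) (z : ℝ), ⌊lam a * z + s a⌋ = (⌊z⌋ + h a + (0 : ℕ)) / (e a : ℤ) := fun a z => by
    rw [← hx', hlam]
    have := floor_inv (e a) (z + h a)
    rw [this, Int.floor_add_intCast, Nat.cast_zero, add_zero]
  have eFf : ∀ z, ∏ a, Ff (F a) (d a) t g B (lam a * z + s a)
      = ∑ c ∈ Fintype.piFinset (fun _ : Fin n => Cs t g B), (1 / (g : ℝ) ^ n) * (Ψ c 0 z * Φ c z) := by
    intro z
    unfold Ff
    rw [prod_univ_sum]
    apply sum_congr rfl
    intro c _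
    rw [hΨ, hΦ]
    simp only
    rw [← prod_mul_distrib]
    have e1 : (1 / (g : ℝ) ^ n) = ∏ _a : Fin n, (1 / (g : ℝ)) := by
      rw [Finset.prod_const, card_univ, Fintype.card_fin, div_pow, one_pow]
    rw [e1, ← prod_mul_distrib]
    apply prod_congr rfl
    intro a _
    rw [hfl0 a z]
    field_simp
  have eav : av W (fun z => ∏ a, Ff (F a) (d a) t g B (lam a * z + s a))
      = ∑ c ∈ Fintype.piFinset (fun _ : Fin n => Cs t g B), (1 / (g : ℝ) ^ n) * av W (fun z => Ψ c 0 z * Φ c z) := by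
    simp only [eFf]
    rw [av_sum W (M := fun _ => |1 / (g : ℝ) ^ n| * (1 * 1)) (fun c _ => ((bΨ c 0).mul (bΦ c)).cmul _)]
    apply sum_congr rfl
    intro c _
    rw [av_cmul]
  -- step 3
  have k3 : ∀ c ∈ Fintype.piFinset (fun _ : Fin n => Cs t g B),
      |av W (fun z => Ψ c 0 z * Φ c z) - (∏ a, ((g : ℝ) * pc 1 t g (c a))) * av W (Φ c)|
        ≤ √ η + n * e₃ + 2 * l / V := by
    intro c hc
    rw [Fintype.mem_piFinset] at hc
    have hℓ : 1 ≤ l * N := Nat.mul_pos hl hN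
    have h5 := qN (Ψ := Ψ c) (bΨ c) (bΦ c) hW (l := l * N) hℓ (e₃ := n * e₃) (η := η)
      (p := ∏ a, ((g : ℝ) * pc 1 t g (c a)))
      (fun w y => by
        rw [hΨ]
        simp only
        apply prod_congr rfl
        intro a _
        rw [Int.floor_add_natCast]
        congr 3
        push_cast
        ring)
      (fun w hw => by
        have h6 := av_prod_tele univ hW (u := fun a z => fc (F a) t (c a) (lam a * (z + (w : ℕ)) + s a))
          (v := fun a z => fc (F a) t (c a) (lam a * z + s a))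
          (fun a _ => (bfcl a (c a)).comp (g := fun z => z + (w : ℕ)) (by fun_prop)) (fun a _ => bfcl a (c a)) (e := e₃)
          (fun a _ => by
            have e2 : (fun z => |fc (F a) t (c a) (lam a * (z + (w : ℕ)) + s a) - fc (F a) t (c a) (lam a * z + s a)|)
                = fun z => |fc (F a) t (c a) (lam a * z + s a + lam a * (w : ℕ)) - fc (F a) t (c a) (lam a * z + s a)| := by
              funext z
              have : lam a * (z + (w : ℕ)) + s a = lam a * z + s a + lam a * (w : ℕ) := by ring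
              rw [this]
            have e1 := av_scale hW (hlam0 a) (fun y => |fc (F a) t (c a) (y + s a + lam a * (w : ℕ)) - fc (F a) t (c a) (y + s a)|)
            rw [e2, e1, hlamW]
            refine h3 a (s a) (hsT a) (c a) (hc a) _ (mul_nonneg (hlam0 a).le (Nat.cast_nonneg _)) ?_
            have hw' : (w : ℝ) ≤ l * N := by exact_mod_cast hw.le
            calc lam a * (w : ℝ) ≤ lam a * (l * N) := mul_le_mul_of_nonneg_left hw' (hlam0 a).le
              _ = l * (lam a * N) := by ring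
              _ = l * (A a * 3 ^ i a : ℕ) := by rw [hlamE])
        simpa using h6)
      (by
        have := h4 h c
        rw [hΨ]
        simp only
        push_cast
        exact this)
    have e6 : 2 * ((l * N : ℕ) : ℝ) / W = 2 * l / V := by rw [hWdef]; push_cast; field_simp
    rw [e6] at h5
    exact h5
  -- step 4: identify the main term
  have hpg : ∀ c : Fin n → ℕ, 0 ≤ ∏ a, ((g : ℝ) * pc 1 t g (c a)) ∧ ∏ a, ((g : ℝ) * pc 1 t g (c a)) ≤ 1 := by
    intro c
    have hp0 : ∀ a, 0 ≤ (g : ℝ) * pc 1 t g (c a) := fun a => mul_nonneg hg'.le (pc_nonneg _)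
    refine ⟨prod_nonneg fun a _ => hp0 a, prod_le_one (fun a _ => hp0 a) fun a _ => ?_⟩
    have h5 := pc_le (d := 1) (t := t) hg (c a)
    calc (g : ℝ) * pc 1 t g (c a) ≤ g * (1 / g) := mul_le_mul_of_nonneg_left h5 hg'.le
      _ = 1 := by field_simp
  have e4 : ∀ c ∈ Fintype.piFinset (fun _ : Fin n => Cs t g B),
      |av W (Φ c) - cs F A (fun a => ρ a / 2 ^ t) (V / 2 ^ t) (fun a => (i a : ℤ) + c a)| ≤ n * e₃ := by
    intro c hc
    rw [Fintype.mem_piFinset] at hc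
    have h2t : (0 : ℝ) < 1 / 2 ^ t := by positivity
    have b2 : Bd 1 (fun z => ∏ a, fc (F a) t (c a) (lam a * z + s a + θ a)) := Bd.fprod univ fun a _ => bfcl0 a (c a)
    have e7 : cs F A (fun a => ρ a / 2 ^ t) (V / 2 ^ t) (fun a => (i a : ℤ) + c a)
        = av W (fun z => ∏ a, fc (F a) t (c a) (lam a * z + s a + θ a)) := by
      rw [hWdef, ← av_scale hV h3E (fun z => ∏ a, fc (F a) t (c a) (lam a * z + s a + θ a))]
      unfold cs
      have e5 : V / 2 ^ t = 1 / 2 ^ t * V := by ring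
      rw [e5, ← av_scale hV h2t (fun y => ∏ a, F a ⌊(A a : ℝ) * ((3 : ℝ) ^ ((i a : ℤ) + c a) * (y + ρ a / 2 ^ t))⌋)]
      congr 1
      funext y
      apply prod_congr rfl
      intro a _
      unfold fc
      have e6 : (3 : ℝ) ^ c a * (lam a * (N * y) + s a + θ a) / 2 ^ t
          = (A a : ℝ) * ((3 : ℝ) ^ ((i a : ℤ) + c a) * (1 / 2 ^ t * y + ρ a / 2 ^ t)) := by
        rw [← hx, ← mul_add, ← mul_assoc (lam a), hlamE, zpow_add₀ (by norm_num)]
        simp only [zpow_natCast]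
        push_cast
        ring
      rw [e6]
    rw [e7, ← av_sub W (bΦ c) b2]
    refine (abs_av_le hW ((bΦ c).sub b2)).trans ?_
    have h6 := av_prod_tele univ hW (u := fun a z => fc (F a) t (c a) (lam a * z + s a))
      (v := fun a z => fc (F a) t (c a) (lam a * z + s a + θ a))
      (fun a _ => bfcl a (c a)) (fun a _ => bfcl0 a (c a)) (e := e₃)
      (fun a _ => by
        have e2 : (fun z => |fc (F a) t (c a) (lam a * z + s a) - fc (F a) t (c a) (lam a * z + s a + θ a)|)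
            = fun z => |fc (F a) t (c a) (lam a * z + s a + θ a) - fc (F a) t (c a) (lam a * z + s a)| := by
          funext z; rw [abs_sub_comm]
        have e1 := av_scale hW (hlam0 a) (fun y => |fc (F a) t (c a) (y + s a + θ a) - fc (F a) t (c a) (y + s a)|)
        rw [e2, e1, hlamW]
        refine h3 a (s a) (hsT a) (c a) (hc a) _ (hθ0 a) ?_
        have hl1 : (1 : ℝ) ≤ l := by exact_mod_cast hl
        exact (hθ1 a).trans (one_le_mul_of_one_le_of_one_le hl1 (hAi1 a)))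
    simpa using h6
  have eM : ∑ c ∈ Fintype.piFinset (fun _ : Fin n => Cs t g B),
        (∏ a, pc 1 t g (c a)) * cs F A (fun a => ρ a / 2 ^ t) (V / 2 ^ t) (fun a => (i a : ℤ) + c a)
      = ∑ c ∈ Fintype.piFinset (fun _ : Fin n => Cs t g B),
        (1 / (g : ℝ) ^ n) * ((∏ a, ((g : ℝ) * pc 1 t g (c a))) *
          cs F A (fun a => ρ a / 2 ^ t) (V / 2 ^ t) (fun a => (i a : ℤ) + c a)) := by
    apply sum_congr rfl
    intro c _
    rw [prod_mul_distrib, Finset.prod_const, card_univ, Fintype.card_fin]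
    field_simp
  have k5 : |av W (fun z => ∏ a, Ff (F a) (d a) t g B (lam a * z + s a)) - ∑ c ∈ Fintype.piFinset (fun _ : Fin n => Cs t g B),
        (∏ a, pc 1 t g (c a)) * cs F A (fun a => ρ a / 2 ^ t) (V / 2 ^ t) (fun a => (i a : ℤ) + c a)|
      ≤ ((#(Cs t g B) : ℝ) / g) ^ n * (√ η + n * e₃ + 2 * l / V + n * e₃) := by
    rw [eav, eM, ← sum_sub_distrib]
    refine (abs_sum_le_sum_abs _ _).trans ?_
    have h7 : ∀ c ∈ Fintype.piFinset (fun _ : Fin n => Cs t g B),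
        |1 / (g : ℝ) ^ n * av W (fun z => Ψ c 0 z * Φ c z)
          - 1 / (g : ℝ) ^ n * ((∏ a, ((g : ℝ) * pc 1 t g (c a))) *
            cs F A (fun a => ρ a / 2 ^ t) (V / 2 ^ t) (fun a => (i a : ℤ) + c a))|
          ≤ 1 / (g : ℝ) ^ n * (√ η + n * e₃ + 2 * l / V + n * e₃) := by
      intro c hc
      rw [← mul_sub, abs_mul, abs_of_pos (by positivity : (0 : ℝ) < 1 / (g : ℝ) ^ n)]
      apply mul_le_mul_of_nonneg_left _ (by positivity)
      have q1 := k3 c hc
      have q2 := e4 c hc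
      obtain ⟨p0, p1⟩ := hpg c
      have q3 : |(∏ a, ((g : ℝ) * pc 1 t g (c a))) * av W (Φ c) - (∏ a, ((g : ℝ) * pc 1 t g (c a))) *
          cs F A (fun a => ρ a / 2 ^ t) (V / 2 ^ t) (fun a => (i a : ℤ) + c a)| ≤ n * e₃ := by
        rw [← mul_sub, abs_mul, abs_of_nonneg p0]
        exact (mul_le_of_le_one_left (abs_nonneg _) p1).trans q2
      have q4 := abs_sub_le (av W (fun z => Ψ c 0 z * Φ c z)) ((∏ a, ((g : ℝ) * pc 1 t g (c a))) * av W (Φ c))
        ((∏ a, ((g : ℝ) * pc 1 t g (c a))) * cs F A (fun a => ρ a / 2 ^ t) (V / 2 ^ t) (fun a => (i a : ℤ) + c a))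
      linarith
    refine (sum_le_sum h7).trans (le_of_eq ?_)
    rw [sum_const, Fintype.card_piFinset, Finset.prod_const, card_univ, Fintype.card_fin, nsmul_eq_mul, div_pow]
    push_cast
    ring
  rw [ecn]
  have a0 := abs_le.1 k0
  have a1 := abs_le.1 k1
  have a5 := abs_le.1 k5
  rw [abs_le]
  constructor <;> linarith [a0.1, a0.2, a1.1, a1.2, a5.1, a5.2]

end Pool.Agent.KS6_24.ST
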