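import Mathlib
import Pool.Agent.KS6_24.ST.SH2aR
import Pool.Agent.KS6_24.ST.Stage
import Pool.Agent.KS6_24.ST.FM3

/-! SH2Ra: reflections, for shifts of both signs. -/

set_option autoImplicit false

namespace Pool.Agent.KS6_24.ST

open Pool.Agent.H499R2.CO Pool.Agent.Y965.SI Finset Pool.Agent.KS6_24.LN

namespace SHR

/-- averages after a reflection -/
theorem av_refl_le {G : ℝ → ℝ} {M : ℝ} (hG : Bd M G) (hG0 : ∀ y, 0 ≤ G y) {X s H e : ℝ} (hX : 0 < X)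
    (hs0 : 3 * X ≤ -s) (hs1 : -s ≤ (H + 1) * X) (h : ∀ V', X ≤ V' → av V' G ≤ e) :
    av X (fun y => G (-(y + s))) ≤ (1 + H) * e := by
  have hV' : X ≤ -s - 2 * X := by linarith
  have h1 := h (-s - 2 * X) hV'
  have hV'0 : 0 < -s - 2 * X := by linarith
  have e1 : ∫ y in X..2 * X, G (-(y + s)) = ∫ y in (-s - 2 * X)..(-s - X), G y := by
    rw [← intervalIntegral.integral_comp_sub_left (fun y => G y) (-s)]
    congr 1
    funext y
    congr 1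
    ring
  have hint : ∀ a b : ℝ, IntervalIntegrable G MeasureTheory.volume a b := fun a b => hG.ii a b
  have h2 : ∫ y in (-s - 2 * X)..(-s - X), G y ≤ ∫ y in (-s - 2 * X)..(2 * (-s - 2 * X)), G y := by
    rw [← intervalIntegral.integral_add_adjacent_intervals (hint (-s - 2 * X) (-s - X)) (hint (-s - X) (2 * (-s - 2 * X)))]
    have : 0 ≤ ∫ y in (-s - X)..(2 * (-s - 2 * X)), G y :=
      intervalIntegral.integral_nonneg (by linarith) fun y _ => hG0 y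
    linarith
  have e0 : 0 ≤ e := le_trans (div_nonneg (intervalIntegral.integral_nonneg (by linarith) fun y _ => hG0 y) hV'0.le) h1
  unfold av at h1 ⊢
  rw [div_le_iff₀ hV'0] at h1
  rw [e1, div_le_iff₀ hX]
  have h3 : e * (-s - 2 * X) ≤ (1 + H) * e * X := by
    have q1 : -s - 2 * X ≤ (1 + H) * X := by linarith
    have := mul_le_mul_of_nonneg_left q1 e0
    nlinarith
  linarith

/-- the reflected function -/
def rf (F : ℤ → ℝ) (x : ℤ) : ℝ := F (-x)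

theorem Tz_refl (d x : ℤ) (hd : d = 1 ∨ d = -1) : Tz d (-x) = -Tz (-d) x := by
  unfold Tz
  by_cases h : x % 2 = 0
  · rw [if_pos h, if_pos (by omega)]; omega
  · rw [if_neg h, if_neg (by omega)]
    rcases hd with rfl | rfl <;> omega

theorem rf_inv {d : ℤ} (hd : d = 1 ∨ d = -1) {F : ℤ → ℝ} (h : InvF d F) : InvF (-d) (rf F) := by
  refine ⟨fun x => h.1 _, fun x => ?_⟩
  unfold rf
  rw [← Tz_refl d x hd]
  exact h.2 _

theorem psi_refl {d : ℤ} (hd : d = 1 ∨ d = -1) (t g c : ℕ) (x : ℤ) : psi d t g c (-x) = psi (-d) t g c x := by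
  unfold psi
  have h1 := FM3.od_sign hd t (-x)
  have h2 := FM3.od_sign (d := -d) (by rcases hd with rfl | rfl <;> simp) t x
  rw [h1, h2, show d * -x = -d * x by ring]

theorem ceil_cases (z : ℝ) : ⌈z⌉ = ⌊z⌋ ∨ ⌈z⌉ = ⌊z⌋ + 1 := by
  have h1 := Int.floor_le_ceil z
  have h2 := Int.ceil_le_floor_add_one z
  omega

theorem ceil_le (f : ℤ → ℝ) (z : ℝ) : |f ⌈z⌉ - f ⌊z⌋| ≤ |f ⌊z + 1⌋ - f ⌊z⌋| := by
  rw [Int.floor_add_one]
  rcases ceil_cases z with h | h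
  · rw [h, sub_self, abs_zero]; exact abs_nonneg _
  · rw [h]

/-- `fc` at a reflected point -/
theorem fc_neg (F : ℤ → ℝ) (t c : ℕ) (z : ℝ) : fc F t c (-z) = rf F ⌈3 ^ c * z / 2 ^ t⌉ := by
  unfold fc rf
  rw [show (3 : ℝ) ^ c * -z / 2 ^ t = -(3 ^ c * z / 2 ^ t) by ring, Int.floor_neg]

/-- `2 ^ t / 3 ^ c` -/
noncomputable def tau (t c : ℕ) : ℝ := 2 ^ t / 3 ^ c

theorem tau_pos (t c : ℕ) : 0 < tau t c := by unfold tau; positivity

theorem fc_tau (f : ℤ → ℝ) (t c : ℕ) (z : ℝ) : fc f t c (z + tau t c) = f ⌊3 ^ c * z / 2 ^ t + 1⌋ := by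
  unfold fc tau
  congr 2
  field_simp

theorem fc_ceil (F : ℤ → ℝ) (t c : ℕ) (z : ℝ) :
    |fc F t c (-z) - fc (rf F) t c z| ≤ |fc (rf F) t c (z + tau t c) - fc (rf F) t c z| := by
  rw [fc_neg, fc_tau]
  unfold fc
  exact ceil_le _ _

/-- h3-type bound after reflection, pointwise -/
theorem fc_pt (F : ℤ → ℝ) (t c : ℕ) (z w : ℝ) :
    |fc F t c (-z + w) - fc F t c (-z)| ≤ |fc (rf F) t c (z + (tau t c - w)) - fc (rf F) t c z|
      + 2 * |fc (rf F) t c (z + -w) - fc (rf F) t c z| + |fc (rf F) t c (z + tau t c) - fc (rf F) t c z| := by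
  have e1 : -z + w = -(z + -w) := by ring
  have h1 := fc_ceil F t c (z + -w)
  have h2 := fc_ceil F t c z
  rw [e1]
  have e2 : z + -w + tau t c = z + (tau t c - w) := by ring
  rw [e2] at h1
  have h3 := abs_sub_le (fc F t c (-(z + -w))) (fc (rf F) t c (z + -w)) (fc F t c (-z))
  have h4 := abs_sub_le (fc (rf F) t c (z + -w)) (fc (rf F) t c z) (fc F t c (-z))
  have h5 := abs_sub_le (fc (rf F) t c (z + (tau t c - w))) (fc (rf F) t c z) (fc (rf F) t c (z + -w))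
  rw [abs_sub_comm (fc (rf F) t c z) (fc F t c (-z))] at h4
  rw [abs_sub_comm (fc (rf F) t c z) (fc (rf F) t c (z + -w))] at h5
  linarith

/-- h3-type bound after reflection, in mean -/
theorem fc_shift_neg {d : ℤ} (hd : d = 1 ∨ d = -1) {F : ℤ → ℝ} (hF : InvF d F) {C : ℝ}
    (hci : ∀ f : ℤ → ℝ, InvF (-d) f → ∀ R : ℕ, 1 ≤ R → ∀ V : ℝ, 2 ^ R ≤ V →
      ∀ (i u : ℕ) (h : ℝ), |h| ≤ 4 ^ u →
        av V (fun y => |f ⌊y⌋ - f ⌊3 ^ i * y + h⌋|) ≤ C * √ (1 + (i : ℝ) ^ 2 + u) * rho R)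
    {t R c n : ℕ} (hR : 1 ≤ R) {V : ℝ} (hV : 2 ^ (t + R) ≤ V) {w : ℝ} (hw : |w| * 3 ^ c ≤ 4 ^ n * 2 ^ t) :
    av V (fun z => |fc F t c (-z + w) - fc F t c (-z)|) ≤ 4 * (C * √ (1 + (n + 1 : ℕ)) * rho R) := by
  have hG := rf_inv hd hF
  have hV0 : 0 < V := lt_of_lt_of_le (by positivity) hV
  have h2t : (0 : ℝ) < 2 ^ t := by positivity
  have h3c : (0 : ℝ) < 3 ^ c := by positivity
  have h4n : (1 : ℝ) ≤ 4 ^ n := one_le_pow₀ (by norm_num)
  have b : ∀ u : ℝ, Bd 2 (fun y => fc (rf F) t c (y + u) - fc (rf F) t c y) := fun u =>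
    (((fcB hG.1 t c).comp (g := fun y => y + u) (by fun_prop)).sub (fcB hG.1 t c)).mono (by norm_num)
  have key : ∀ u : ℝ, |u| * 3 ^ c ≤ 4 ^ (n + 1) * 2 ^ t →
      av V (fun y => |fc (rf F) t c (y + u) - fc (rf F) t c y|) ≤ C * √ (1 + (n + 1 : ℕ)) * rho R :=
    fun u hu => fc_shift hG hci hR hV hu
  have htau : |tau t c| * 3 ^ c = 2 ^ t := by
    rw [abs_of_pos (tau_pos t c)]; unfold tau; field_simp
  have k1 := key (tau t c - w) (by
    have q1 : |tau t c - w| ≤ |tau t c| + |w| := abs_sub _ _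
    calc |tau t c - w| * 3 ^ c ≤ (|tau t c| + |w|) * 3 ^ c := mul_le_mul_of_nonneg_right q1 h3c.le
      _ = 2 ^ t + |w| * 3 ^ c := by rw [add_mul, htau]
      _ ≤ 2 ^ t + 4 ^ n * 2 ^ t := by linarith
      _ ≤ 4 ^ (n + 1) * 2 ^ t := by rw [pow_succ]; nlinarith)
  have k2 := key (-w) (by
    rw [abs_neg]
    refine hw.trans ?_
    rw [pow_succ]; nlinarith)
  have k3 := key (tau t c) (by
    rw [htau, pow_succ]; nlinarith)
  have bL : Bd 2 (fun z => fc F t c (-z + w) - fc F t c (-z)) := by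
    have b1 : Bd 1 (fun z : ℝ => fc F t c (-z + w)) := (fcB hF.1 t c).comp (g := fun z => -z + w) (by fun_prop)
    have b2 : Bd 1 (fun z : ℝ => fc F t c (-z)) := (fcB hF.1 t c).comp (g := fun z => -z) (by fun_prop)
    exact (b1.sub b2).mono (by norm_num)
  have b1 := (b (tau t c - w)).abs
  have b2 := (b (-w)).abs
  have b3 := (b (tau t c)).abs
  have bR := (b1.add (b2.cmul 2)).add b3
  have h5 := av_mono hV0 bL.abs bR fun z _ _ => fc_pt F t c z w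
  rw [av_add V (b1.add (b2.cmul 2)) b3, av_add V b1 (b2.cmul 2), av_cmul] at h5
  linarith

/-- h1-type bound after reflection, pointwise -/
theorem Ff_pt {d : ℤ} (hd : d = 1 ∨ d = -1) (F : ℤ → ℝ) {t g B : ℕ} (hg : 1 ≤ g) (z : ℝ) :
    |F ⌊-z⌋ - Ff F d t g B (-z)| ≤ |rf F ⌊z⌋ - Ff (rf F) (-d) t g B z| + |rf F ⌊z + 1⌋ - Ff (rf F) (-d) t g B (z + 1)|
      + ∑ c ∈ Cs t g B, 1 / (g : ℝ) * (|fc (rf F) t c (z + tau t c) - fc (rf F) t c z|
        + |fc (rf F) t c (z + 1) - fc (rf F) t c z|) := by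
  have e1 : F ⌊-z⌋ = rf F ⌈z⌉ := by unfold rf; rw [Int.floor_neg]
  have e2 : Ff F d t g B (-z) = ∑ c ∈ Cs t g B, psi (-d) t g c ⌈z⌉ * fc F t c (-z) := by
    unfold Ff
    apply sum_congr rfl
    intro c _
    rw [Int.floor_neg, psi_refl hd]
  have key : ∀ z' : ℝ, ⌈z⌉ = ⌊z'⌋ → (∀ c, |fc F t c (-z) - fc (rf F) t c z'| ≤
      |fc (rf F) t c (z + tau t c) - fc (rf F) t c z| + |fc (rf F) t c (z + 1) - fc (rf F) t c z|) →
      |F ⌊-z⌋ - Ff F d t g B (-z)| ≤ |rf F ⌊z'⌋ - Ff (rf F) (-d) t g B z'|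
        + ∑ c ∈ Cs t g B, 1 / (g : ℝ) * (|fc (rf F) t c (z + tau t c) - fc (rf F) t c z|
          + |fc (rf F) t c (z + 1) - fc (rf F) t c z|) := by
    intro z' hz h
    rw [e1, e2, hz]
    have h1 : |(∑ c ∈ Cs t g B, psi (-d) t g c ⌊z'⌋ * fc F t c (-z)) - Ff (rf F) (-d) t g B z'| ≤
        ∑ c ∈ Cs t g B, 1 / (g : ℝ) * (|fc (rf F) t c (z + tau t c) - fc (rf F) t c z|
          + |fc (rf F) t c (z + 1) - fc (rf F) t c z|) := by
      unfold Ff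
      rw [← sum_sub_distrib]
      refine (abs_sum_le_sum_abs _ _).trans (sum_le_sum fun c _ => ?_)
      rw [← mul_sub, abs_mul, abs_of_nonneg (psi_nonneg c _)]
      exact mul_le_mul (psi_le hg c _) (h c) (abs_nonneg _) (by positivity)
    have h2 := abs_sub_le (rf F ⌊z'⌋) (Ff (rf F) (-d) t g B z') (∑ c ∈ Cs t g B, psi (-d) t g c ⌊z'⌋ * fc F t c (-z))
    rw [abs_sub_comm (Ff (rf F) (-d) t g B z')] at h2
    linarith
  rcases ceil_cases z with h | h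
  · have h1 := key z h fun c => (fc_ceil F t c z).trans (le_add_of_nonneg_right (abs_nonneg _))
    have h2 := abs_nonneg (rf F ⌊z + 1⌋ - Ff (rf F) (-d) t g B (z + 1))
    linarith
  · have h1 := key (z + 1) (by rw [h, Int.floor_add_one]) fun c => by
      have q1 := fc_ceil F t c z
      have q2 := abs_sub_le (fc F t c (-z)) (fc (rf F) t c z) (fc (rf F) t c (z + 1))
      rw [abs_sub_comm (fc (rf F) t c z)] at q2
      linarith
    have h2 := abs_nonneg (rf F ⌊z⌋ - Ff (rf F) (-d) t g B z)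
    linarith

/-- h1-type bound after reflection, in mean -/
theorem Ff_neg {d : ℤ} (hd : d = 1 ∨ d = -1) {F : ℤ → ℝ} (hF : InvF d F) {C : ℝ}
    (hci : ∀ f : ℤ → ℝ, InvF (-d) f → ∀ R : ℕ, 1 ≤ R → ∀ V : ℝ, 2 ^ R ≤ V →
      ∀ (i u : ℕ) (h : ℝ), |h| ≤ 4 ^ u →
        av V (fun y => |f ⌊y⌋ - f ⌊3 ^ i * y + h⌋|) ≤ C * √ (1 + (i : ℝ) ^ 2 + u) * rho R)
    {t g B R n : ℕ} (hg : 1 ≤ g) (hR : 1 ≤ R) {V : ℝ} (hV : 2 ^ (t + R) ≤ V) (hV1 : 1 ≤ V)
    (hn : ∀ c ∈ Cs t g B, (3 : ℝ) ^ c ≤ 4 ^ n * 2 ^ t) {e₁ : ℝ}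
    (h1 : ∀ V', V ≤ V' → av V' (fun y => |rf F ⌊y⌋ - Ff (rf F) (-d) t g B y|) ≤ e₁) :
    av V (fun z => |F ⌊-z⌋ - Ff F d t g B (-z)|) ≤ 3 * e₁ + (#(Cs t g B) : ℝ) / g * (2 * (C * √ (1 + n) * rho R)) := by
  have hG := rf_inv hd hF
  have hV0 : 0 < V := by linarith
  have hg' : (0 : ℝ) < g := by exact_mod_cast hg
  have bK0 : Bd 2 (fun y : ℝ => rf F ⌊y⌋ - Ff (rf F) (-d) t g B y) := ((Bd.fl hG.1).sub (FfB hG.1 hg)).mono (by norm_num)
  have bK := bK0.abs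
  have bK1 : Bd 2 (fun y : ℝ => |rf F ⌊y + 1⌋ - Ff (rf F) (-d) t g B (y + 1)|) := bK.comp (g := fun y => y + 1) (by fun_prop)
  have b : ∀ (c : ℕ) (u : ℝ), Bd 2 (fun y => |fc (rf F) t c (y + u) - fc (rf F) t c y|) := fun c u =>
    ((((fcB hG.1 t c).comp (g := fun y => y + u) (by fun_prop)).sub (fcB hG.1 t c)).mono (by norm_num)).abs
  have bS : ∀ c ∈ Cs t g B, Bd (|1 / (g : ℝ)| * (2 + 2)) (fun z => 1 / (g : ℝ) * (|fc (rf F) t c (z + tau t c) - fc (rf F) t c z|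
        + |fc (rf F) t c (z + 1) - fc (rf F) t c z|)) := fun c _ => ((b c _).add (b c 1)).cmul _
  have bL : Bd 2 (fun z : ℝ => |F ⌊-z⌋ - Ff F d t g B (-z)|) :=
    ((((Bd.fl hF.1).sub (FfB hF.1 hg)).mono (by norm_num : (1 : ℝ) + 1 ≤ 2)).abs).comp (g := fun z => -z) (by fun_prop)
  have h5 := av_mono hV0 bL ((bK.add bK1).add (Bd.sum bS)) fun z _ _ => Ff_pt hd F hg z
  rw [av_add V (bK.add bK1) (Bd.sum bS), av_add V bK bK1, av_sum V bS] at h5
  have k1 := h1 V le_rfl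
  have k2 : av V (fun y => |rf F ⌊y + 1⌋ - Ff (rf F) (-d) t g B (y + 1)|) ≤ (1 + 1) * e₁ :=
    av_shift_le (G := fun y => |rf F ⌊y⌋ - Ff (rf F) (-d) t g B y|) bK (fun y => abs_nonneg _) hV0 (by norm_num)
      (by linarith) h1
  have k3 : ∑ c ∈ Cs t g B, av V (fun z => 1 / (g : ℝ) * (|fc (rf F) t c (z + tau t c) - fc (rf F) t c z|
        + |fc (rf F) t c (z + 1) - fc (rf F) t c z|)) ≤ ∑ c ∈ Cs t g B, 1 / (g : ℝ) * (2 * (C * √ (1 + n) * rho R)) := by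
    apply sum_le_sum
    intro c hc
    rw [av_cmul, av_add V (b c _) (b c 1)]
    apply mul_le_mul_of_nonneg_left _ (by positivity)
    have h4n : (1 : ℝ) ≤ 4 ^ n := one_le_pow₀ (by norm_num)
    have h2t : (0 : ℝ) < 2 ^ t := by positivity
    have htau : |tau t c| * 3 ^ c = 2 ^ t := by
      rw [abs_of_pos (tau_pos t c)]; unfold tau; field_simp
    have q1 := fc_shift hG hci hR hV (t := t) (c := c) (n := n) (w := tau t c) (by rw [htau]; nlinarith)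
    have q2 := fc_shift hG hci hR hV (t := t) (c := c) (n := n) (w := 1) (by rw [abs_one, one_mul]; exact hn c hc)
    linarith
  have k4 : ∑ c ∈ Cs t g B, 1 / (g : ℝ) * (2 * (C * √ (1 + n) * rho R))
      = (#(Cs t g B) : ℝ) / g * (2 * (C * √ (1 + n) * rho R)) := by
    rw [sum_const, nsmul_eq_mul]; ring
  rw [k4] at k3
  linarith

end SHR

end Pool.Agent.KS6_24.ST
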