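import Mathlib
import Pool.Agent.KS6_24.ST.SHMain
import Pool.Agent.KS6_24.ST.SHRDefs
import Pool.Agent.KS6_24.ST.SH2R
import Pool.Agent.KS6_24.ST.SH3R
import Pool.Agent.KS6_24.ST.SH4R
import Pool.Agent.KS6_24.ST.SH10R

/-! Project SHR: assembly. -/

set_option autoImplicit false

namespace Pool.Agent.KS6_24.ST

theorem corsR_all : S_CORR := corsR (stager etas_all) fun _ hd => en3_all hd

theorem sumr_all : S_SUMR := SH4.sumr corsR_all

/-- **All affine systems.** -/
theorem convu_all : S_CONVU := SH6.slice_convu sumr_all dir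

end Pool.Agent.KS6_24.ST
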