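import Mathlib
import Pool.Agent.KS6_24.LN.Dens
import Pool.Agent.KS6_24.ST.SH10
import Pool.Agent.KS6_24.ST.SHRMain
import Pool.Agent.KS6_24.ST.SH12
import Pool.Agent.KS6_24.ST.SH13
import Pool.Agent.KS6_24.ST.SH16R
import Pool.Agent.KS6_24.ST.SH18R
import Pool.Agent.KS6_24.ST.LPDefs2

/-!
The proofs of the parts of the hand-in LinearPatterns (MP_d02c56_nt).
-/

set_option autoImplicit false

namespace Pool.Agent.Results.MP_d02c56_nt.LinearPatterns

open Filter Topology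


open Pool.Agent.KS6_24.LN Pool.Agent.H499R2.CO Pool.Agent.Y965.SI Finset Pool.Agent.KS6_24.ST
open Pool.Agent.H499R2.ND (Ci Kc Kc_self Kc_symm Kc_trans structure_full)

/-! ### transfer to the accelerated map -/

theorem Tz1_mem {S : Set ℤ} (hS : Invariant S) (y : ℤ) : Tz 1 y ∈ S ↔ y ∈ S := by
  unfold Tz
  by_cases h : y % 2 = 0
  · rw [if_pos h, hS y]
    unfold C
    rw [if_pos h]
  · rw [if_neg h, hS y, hS (C y)]
    have h1 : C (C y) = (3 * y + 1) / 2 := by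
      unfold C
      rw [if_neg h, if_pos (by omega)]
    rw [h1]

/-- the conjugated set -/
def conj (s : ℤ) (S : Set ℤ) : Set ℤ := {x | s * x ∈ S}

theorem conj_inv {s : ℤ} (hs : s = 1 ∨ s = -1) {S : Set ℤ} (hS : Invariant S) (x : ℤ) :
    Tz s x ∈ conj s S ↔ x ∈ conj s S := by
  have hss : ∀ x : ℤ, s * (s * x) = x := by intro x; rcases hs with rfl | rfl <;> ring
  have h1 : s * Tz s x = Tz 1 (s * x) := by
    have := dens_Tz_mul hs (s * x)
    rw [hss] at this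
    rw [this, hss]
  show s * Tz s x ∈ S ↔ s * x ∈ S
  rw [h1]
  exact Tz1_mem hS _

theorem sign_of_pos {s : ℤ} (hs : s = 1 ∨ s = -1) {S : Set ℤ} (h : ∃ x ∈ S, 0 < s * x) :
    ∃ x ∈ conj s S, 0 < x := by
  have hss : ∀ x : ℤ, s * (s * x) = x := by intro x; rcases hs with rfl | rfl <;> ring
  obtain ⟨x, hx, h0⟩ := h
  exact ⟨s * x, by show s * (s * x) ∈ S; rw [hss]; exact hx, h0⟩

/-! ### proportions, one variable -/

/-- The proportion of the `n` with `P n` among `1, ..., N`. -/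
noncomputable def prob1 (N : ℕ) (P : ℕ → Prop) : ℝ := ({n : ℕ | 1 ≤ n ∧ n ≤ N ∧ P n}.ncard : ℝ) / N

theorem prob1_eq (N : ℕ) (P : ℕ → Prop) [DecidablePred P] : prob1 N P = (#{n ∈ Icc 1 N | P n} : ℝ) / N := by
  unfold prob1
  rw [← Set.ncard_coe_finset]
  congr 3
  ext x
  simp only [Set.mem_ofPred_eq, coe_filter, mem_Icc, and_assoc]

theorem prob1_not {N : ℕ} (hN : 1 ≤ N) (P : ℕ → Prop) : prob1 N (fun n => ¬ P n) = 1 - prob1 N P := by
  classical
  rw [prob1_eq, prob1_eq]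
  have h1 := card_filter_add_card_filter_not (s := Icc 1 N) P
  rw [Nat.card_Icc, Nat.add_sub_cancel] at h1
  have h2 : (N : ℝ) ≠ 0 := by
    have : N ≠ 0 := by omega
    exact_mod_cast this
  rw [eq_sub_iff_add_eq, ← add_div, div_eq_one_iff_eq h2]
  have h3 : #{n ∈ Icc 1 N | ¬ P n} + #{n ∈ Icc 1 N | P n} = N := by rw [add_comm]; exact h1
  exact_mod_cast h3

/-! ### proportions, several variables -/

theorem prob_eq {r : ℕ} (N : ℕ) (P : (Fin r → ℤ) → Prop) [DecidablePred P] :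
    prob N P = (#{n ∈ SH6.Bx r N | P n} : ℝ) / (N : ℝ) ^ r := by
  unfold prob
  rw [← Set.ncard_coe_finset]
  congr 3
  ext x
  simp only [Set.mem_ofPred_eq, coe_filter, SH6.mem_Bx, mem_Icc]

theorem prob_nonneg {r : ℕ} (N : ℕ) (P : (Fin r → ℤ) → Prop) : 0 ≤ prob N P := by unfold prob; positivity

theorem prob_mono {r N : ℕ} {P Q : (Fin r → ℤ) → Prop} (h : ∀ n ∈ SH6.Bx r N, P n → Q n) : prob N P ≤ prob N Q := by
  classical
  rw [prob_eq, prob_eq]
  apply div_le_div_of_nonneg_right _ (by positivity)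
  have : #{n ∈ SH6.Bx r N | P n} ≤ #{n ∈ SH6.Bx r N | Q n} := by
    apply card_le_card
    intro n hn
    rw [mem_filter] at hn ⊢
    exact ⟨hn.1, h n hn.1 hn.2⟩
  exact_mod_cast this

theorem prob_congr {r N : ℕ} {P Q : (Fin r → ℤ) → Prop} (h : ∀ n ∈ SH6.Bx r N, (P n ↔ Q n)) : prob N P = prob N Q :=
  le_antisymm (prob_mono fun n hn => (h n hn).1) (prob_mono fun n hn => (h n hn).2)

theorem prob_split {r : ℕ} (N : ℕ) (P Q : (Fin r → ℤ) → Prop) :
    prob N P = prob N (fun n => P n ∧ Q n) + prob N (fun n => P n ∧ ¬ Q n) := by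
  classical
  rw [prob_eq, prob_eq, prob_eq, ← add_div]
  congr 1
  have := card_filter_add_card_filter_not (s := (SH6.Bx r N).filter P) Q
  rw [filter_filter, filter_filter] at this
  exact_mod_cast this.symm

theorem prob_true {r N : ℕ} (hN : 1 ≤ N) : prob (r := r) N (fun _ => True) = 1 := by
  classical
  rw [prob_eq, filter_true_of_mem (fun _ _ => trivial), SH6.card_Bx]
  have : (0 : ℝ) < (N : ℝ) ^ r := by
    have : (0 : ℝ) < N := by exact_mod_cast hN
    positivity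
  push_cast
  field_simp

theorem prob_le_one {r : ℕ} (N : ℕ) (P : (Fin r → ℤ) → Prop) : prob N P ≤ 1 := by
  classical
  rw [prob_eq]
  apply div_le_one_of_le₀ _ (by positivity)
  have : #{n ∈ SH6.Bx r N | P n} ≤ N ^ r := by
    refine (card_filter_le _ _).trans ?_
    rw [SH6.card_Bx]
  exact_mod_cast this

theorem prob_not {r N : ℕ} (hN : 1 ≤ N) (P : (Fin r → ℤ) → Prop) : prob N (fun n => ¬ P n) = 1 - prob N P := by
  have h1 := prob_split N (fun _ => True) P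
  have h2 := prob_true (r := r) hN
  simp only [true_and] at h1
  linarith

theorem prob_false {r : ℕ} (N : ℕ) : prob (r := r) N (fun _ => False) = 0 := by
  classical
  rw [prob_eq, filter_false_of_mem (fun _ _ h => h)]; simp

/-- finitely many disjoint events -/
theorem prob_sum {ι : Type*} {r : ℕ} (A : Finset ι) (N : ℕ) (P : ι → (Fin r → ℤ) → Prop)
    (hd : ∀ a ∈ A, ∀ b ∈ A, a ≠ b → ∀ n, P a n → ¬ P b n) :
    prob N (fun n => ∃ a ∈ A, P a n) = ∑ a ∈ A, prob N (P a) := by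
  classical
  simp only [prob_eq]
  rw [← sum_div]
  congr 1
  have e : (SH6.Bx r N).filter (fun n => ∃ a ∈ A, P a n) = A.biUnion fun a => (SH6.Bx r N).filter (P a) := by
    ext n
    simp only [mem_filter, mem_biUnion]
    tauto
  rw [e, card_biUnion]
  · push_cast; rfl
  · intro a ha b hb hab
    show Disjoint _ _
    rw [disjoint_left]
    intro n hn hn'
    exact hd a ha b hb hab n (mem_filter.1 hn).2 (mem_filter.1 hn').2

theorem prob_or {r : ℕ} (N : ℕ) (P Q : (Fin r → ℤ) → Prop) : prob N (fun n => P n ∨ Q n) ≤ prob N P + prob N Q := by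
  have h1 := prob_split N (fun n => P n ∨ Q n) P
  have h2 : prob N (fun n => (P n ∨ Q n) ∧ P n) ≤ prob N P := prob_mono fun n _ h => h.2
  have h3 : prob N (fun n => (P n ∨ Q n) ∧ ¬ P n) ≤ prob N Q := prob_mono fun n _ h => by
    rcases h.1 with h4 | h4
    · exact absurd h4 h.2
    · exact h4
  linarith

theorem prob_union {ι : Type*} {r : ℕ} (F : Finset ι) (N : ℕ) (P : ι → (Fin r → ℤ) → Prop) :
    prob N (fun n => ∃ a ∈ F, P a n) ≤ ∑ a ∈ F, prob N (P a) := by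
  classical
  induction F using Finset.induction_on with
  | empty => simp [prob_false]
  | insert a F ha ih =>
    rw [sum_insert ha]
    have h1 := prob_or N (P a) (fun n => ∃ a ∈ F, P a n)
    have h2 : prob N (fun n => ∃ b ∈ insert a F, P b n) = prob N (fun n => P a n ∨ ∃ a ∈ F, P a n) := by
      apply prob_congr
      intro n _
      simp
    rw [h2]
    linarith

theorem almost_of_eps {r : ℕ} {P : (Fin r → ℤ) → Prop}
    (h : ∀ ε : ℝ, 0 < ε → ∀ᶠ N : ℕ in atTop, prob N (fun n => ¬ P n) ≤ ε) : AlmostAll P := by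
  unfold AlmostAll
  rw [Metric.tendsto_atTop]
  intro ε hε
  obtain ⟨N0, hN0⟩ := eventually_atTop.1 (h (ε / 2) (by positivity))
  refine ⟨N0, fun N hN => ?_⟩
  rw [Real.dist_eq, sub_zero, abs_of_nonneg (prob_nonneg _ _)]
  exact lt_of_le_of_lt (hN0 N hN) (by linarith)

theorem AlmostAll.and {r : ℕ} {P Q : (Fin r → ℤ) → Prop} (hP : AlmostAll P) (hQ : AlmostAll Q) :
    AlmostAll fun n => P n ∧ Q n := by
  unfold AlmostAll at *
  have h1 := hP.add hQ
  rw [add_zero] at h1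
  refine squeeze_zero (fun N => prob_nonneg _ _) (fun N => ?_) h1
  refine le_trans (prob_mono fun n _ h => ?_) (prob_or N _ _)
  tauto

theorem AlmostAll.mono {r : ℕ} {P Q : (Fin r → ℤ) → Prop} (hP : AlmostAll P) (h : ∀ n, P n → Q n) : AlmostAll Q := by
  unfold AlmostAll at *
  exact squeeze_zero (fun N => prob_nonneg _ _) (fun N => prob_mono fun n _ h1 h2 => h1 (h n h2)) hP

theorem almost_iff {r : ℕ} {P : (Fin r → ℤ) → Prop} : AlmostAll P ↔ Tendsto (fun N : ℕ => prob N P) atTop (𝓝 1) := by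
  unfold AlmostAll
  constructor
  · intro h
    have h1 := h.const_sub 1
    rw [sub_zero] at h1
    refine h1.congr' ?_
    filter_upwards [eventually_ge_atTop 1] with N hN
    rw [prob_not hN]; ring
  · intro h
    have h1 := h.const_sub 1
    rw [sub_self] at h1
    refine h1.congr' ?_
    filter_upwards [eventually_ge_atTop 1] with N hN
    rw [prob_not hN]

/-- few points near a hyperplane -/
theorem prob_near {r : ℕ} {L : Fin r → ℤ} (hL : L ≠ 0) (b : ℤ) :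
    Tendsto (fun N : ℕ => prob N fun n => |lin L n| ≤ |b|) atTop (𝓝 0) := by
  classical
  have hr1 : 1 ≤ r := by
    by_contra h
    have h0 : r = 0 := by omega
    subst h0
    exact hL (funext fun j => j.elim0)
  have h1 : Tendsto (fun N : ℕ => ((2 * b.natAbs + 1 : ℕ) : ℝ) / (N : ℝ)) atTop (𝓝 0) :=
    tendsto_const_div_atTop_nhds_zero_nat _
  refine squeeze_zero' (Eventually.of_forall fun N => prob_nonneg _ _) ?_ h1
  filter_upwards [eventually_ge_atTop 1] with N hN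
  have hN0 : (0 : ℝ) < N := by exact_mod_cast hN
  rw [prob_eq, div_le_div_iff₀ (by positivity) hN0]
  have h2 := SH6.near_card (N := N) hL 0 b.natAbs
  have h3 : #{n ∈ SH6.Bx r N | |lin L n| ≤ |b|} ≤ (2 * b.natAbs + 1) * N ^ (r - 1) := by
    refine le_trans (card_le_card ?_) h2
    intro n hn
    rw [mem_filter] at hn ⊢
    refine ⟨hn.1, ?_⟩
    rw [add_zero, Int.natCast_natAbs]
    exact hn.2
  have h4 : (#{n ∈ SH6.Bx r N | |lin L n| ≤ |b|} : ℝ) ≤ ((2 * b.natAbs + 1 : ℕ) : ℝ) * (N : ℝ) ^ (r - 1) := by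
    exact_mod_cast h3
  have h5 : (N : ℝ) ^ r = N ^ (r - 1) * N := by rw [← pow_succ]; congr 1; omega
  calc (#{n ∈ SH6.Bx r N | |lin L n| ≤ |b|} : ℝ) * N ≤ (((2 * b.natAbs + 1 : ℕ) : ℝ) * (N : ℝ) ^ (r - 1)) * N :=
        mul_le_mul_of_nonneg_right h4 hN0.le
    _ = _ := by rw [h5]; ring

/-! ### the density -/

theorem density_of_mz {s : ℤ} {S : Set ℤ} {δ : ℝ}
    (h : MeanZero (fun x => (conj s S).indicator (fun _ => (1 : ℝ)) x - δ)) :
    HasDensity s S δ := by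
  classical
  unfold HasDensity
  set ind : ℤ → ℝ := (conj s S).indicator (fun _ => (1 : ℝ)) with hind
  have hind01 : ∀ x, 0 ≤ ind x ∧ ind x ≤ 1 := by
    intro x
    simp only [hind, Set.indicator]
    split_ifs <;> norm_num
  have hc : ∀ N : ℕ, ({n : ℕ | 1 ≤ n ∧ n ≤ N ∧ s * n ∈ S}.ncard : ℝ) = ∑ n ∈ range N, ind ((n + 1 : ℕ)) := by
    intro N
    have e1 : {n : ℕ | 1 ≤ n ∧ n ≤ N ∧ s * n ∈ S}
        = (((range N).filter fun n : ℕ => ((n + 1 : ℕ) : ℤ) ∈ conj s S).image fun n : ℕ => n + 1 : Finset ℕ) := by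
      ext n
      simp only [Set.mem_ofPred_eq, coe_image, coe_filter, mem_range, Set.mem_image]
      constructor
      · rintro ⟨ha, hb, hc⟩
        refine ⟨n - 1, ⟨by omega, ?_⟩, by omega⟩
        rw [Nat.sub_add_cancel ha]; exact hc
      · rintro ⟨m, ⟨hm, hmS⟩, rfl⟩
        exact ⟨by omega, by omega, hmS⟩
    rw [e1, Set.ncard_coe_finset, card_image_of_injective _ (fun a b h => Nat.succ_injective h), card_filter]
    push_cast
    apply sum_congr rfl
    intro n _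
    simp only [hind, Set.indicator]
    try push_cast
    try rfl
  have hs : ∀ N : ℕ, ∑ n ∈ range N, (ind (n : ℕ) - δ)
      = ∑ n ∈ range N, ind ((n + 1 : ℕ)) + (ind 0 - ind N) - N * δ := by
    intro N
    have e1 := sum_range_succ (fun n : ℕ => ind (n : ℕ)) N
    have e2 := sum_range_succ' (fun n : ℕ => ind (n : ℕ)) N
    rw [sum_sub_distrib, sum_const, card_range, nsmul_eq_mul]
    simp only [Nat.cast_zero] at e2
    linarith
  unfold MeanZero at h
  have h5 : Tendsto (fun N : ℕ => (ind 0 - ind N) / N) atTop (𝓝 0) := by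
    apply squeeze_zero_norm (a := fun N : ℕ => 1 / (N : ℝ))
    · intro N
      rw [Real.norm_eq_abs, abs_div, Nat.abs_cast]
      gcongr
      rw [abs_le]
      constructor <;> linarith [(hind01 0).1, (hind01 0).2, (hind01 N).1, (hind01 N).2]
    · exact tendsto_one_div_atTop_nhds_zero_nat
  have h6 := (h.sub h5).add_const δ
  rw [sub_zero, zero_add] at h6
  apply h6.congr'
  filter_upwards [eventually_gt_atTop 0] with N hN
  have hN' : (N : ℝ) ≠ 0 := by positivity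
  rw [hc]
  have := hs N
  show (∑ n ∈ range N, (ind (n : ℕ) - δ)) / N - (ind 0 - ind N) / N + δ = _
  rw [this]
  field_simp
  ring

/-! ### invariant sets -/

theorem compl_inv {S : Set ℤ} (hS : Invariant S) : Invariant Sᶜ := fun x => not_congr (hS x)

theorem meet_inv (a : ℤ) : Invariant {x | Meet x a} := by
  intro x
  constructor
  · rintro ⟨k, l, h⟩
    refine ⟨k, l + 1, ?_⟩
    rw [← Function.iterate_succ_apply, Function.iterate_succ_apply', h, Function.iterate_succ_apply']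
  · rintro ⟨k, l, h⟩
    exact ⟨k + 1, l, by rw [Function.iterate_succ_apply]; exact h⟩

theorem known_closed : ∀ x ∈ Known, C x ∈ Known := by decide

theorem reaches_inv : Invariant {x | Reaches x} := by
  intro x
  constructor
  · rintro ⟨k, h⟩
    refine ⟨k, ?_⟩
    rw [← Function.iterate_succ_apply, Function.iterate_succ_apply']
    exact known_closed _ h
  · rintro ⟨k, h⟩
    exact ⟨k + 1, by rw [Function.iterate_succ_apply]; exact h⟩


theorem meet_iff_Kc (x y : ℤ) : Meet x y ↔ x ∈ Kc y := Iff.rfl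

theorem Meet.symm {x y : ℤ} (h : Meet x y) : Meet y x := Kc_symm h

theorem Meet.trans {x y z : ℤ} (h : Meet x y) (h' : Meet y z) : Meet x z := Kc_trans h h'

/-! ### classes -/

theorem mz_class {s : ℤ} (hs : s = 1 ∨ s = -1) {δ : ℤ → ℝ} {a : ℤ} (ha : 0 < s * a)
    (h : Tendsto (fun N : ℕ => ({n : ℤ | 0 < s * n ∧ s * n ≤ N ∧
        ∃ i j : ℕ, Ci^[i] n = Ci^[j] a}.ncard : ℝ) / N) atTop (𝓝 (δ a))) :
    0 < δ a ∧ δ a ≤ 1 ∧ MeanZero (fun x => (conj s {x | Meet x a}).indicator (fun _ => (1 : ℝ)) x - δ a) := by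
  obtain ⟨δ', h1, h2, h3⟩ := dens hs (conj s {x | Meet x a}) (conj_inv hs (meet_inv a))
    (sign_of_pos hs ⟨a, ⟨0, 0, rfl⟩, ha⟩)
  have h4 := density_of_mz h3
  have hss : ∀ x : ℤ, s * (s * x) = x := by intro x; rcases hs with rfl | rfl <;> ring
  have h5 : ∀ N : ℕ, ({n : ℤ | 0 < s * n ∧ s * n ≤ N ∧ ∃ i j : ℕ, Ci^[i] n = Ci^[j] a}.ncard : ℝ) / N
      = prob1 N fun n => s * n ∈ {x | Meet x a} := by
    intro N
    unfold prob1
    congr 2
    rw [← Set.ncard_image_of_injective (f := fun n : ℕ => s * (n : ℤ))]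
    · congr 1
      ext x
      simp only [Set.mem_ofPred_eq, Set.mem_image]
      constructor
      · rintro ⟨hx1, hx2, hx3⟩
        refine ⟨(s * x).toNat, ⟨by omega, by omega, ?_⟩, ?_⟩
        · have : s * (((s * x).toNat : ℕ) : ℤ) = x := by
            rw [Int.toNat_of_nonneg hx1.le, hss]
          rw [this]; exact hx3
        · rw [Int.toNat_of_nonneg hx1.le, hss]
      · rintro ⟨n, ⟨hn1, hn2, hn3⟩, rfl⟩
        rw [hss]
        exact ⟨by exact_mod_cast hn1, by exact_mod_cast hn2, hn3⟩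
    · intro a b hab
      simp only at hab
      have : s * (s * (a : ℤ)) = s * (s * (b : ℤ)) := by rw [hab]
      rw [hss, hss] at this
      exact_mod_cast this
  have h6 : δ' = δ a := by
    refine tendsto_nhds_unique h4 (h.congr h5)
  rw [← h6]
  exact ⟨h1, h2, h3⟩

/-- every integer of sign `s` meets a representative -/
theorem exists_rep {s : ℤ} (hs : s = 1 ∨ s = -1) {x : ℤ} (hx : 0 < s * x) : ∃ a : ℤ, IsRep s a ∧ Meet x a := by
  classical
  have hss : ∀ x : ℤ, s * (s * x) = x := by intro x; rcases hs with rfl | rfl <;> ring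
  have hne : ∃ n : ℕ, 0 < n ∧ Meet x (s * n) := by
    refine ⟨(s * x).toNat, by omega, 0, 0, ?_⟩
    simp only [Function.iterate_zero, id]
    rw [Int.toNat_of_nonneg hx.le, hss]
  obtain ⟨hn0, hm⟩ := Nat.find_spec hne
  refine ⟨s * (Nat.find hne : ℕ), ⟨by rw [hss]; exact_mod_cast hn0, ?_⟩, hm⟩
  intro b hb hmb
  rw [hss]
  have h1 : ((s * b).toNat : ℤ) = s * b := Int.toNat_of_nonneg hb.le
  have h2 : Nat.find hne ≤ (s * b).toNat := by
    apply Nat.find_min' hne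
    refine ⟨by omega, ?_⟩
    rw [h1, hss]
    exact hm.trans hmb
  have h3 : ((Nat.find hne : ℕ) : ℤ) ≤ ((s * b).toNat : ℤ) := by exact_mod_cast h2
  rwa [h1] at h3

theorem rep_unique {s : ℤ} (hs : s = 1 ∨ s = -1) {a b : ℤ} (ha : IsRep s a) (hb : IsRep s b) (h : Meet a b) : a = b := by
  have h1 := ha.2 b hb.1 h
  have h2 := hb.2 a ha.1 h.symm
  rcases hs with rfl | rfl <;> omega

/-- the classes: densities `δ a` of the classes of the representatives, summing to 1 -/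
theorem classes {s : ℤ} (hs : s = 1 ∨ s = -1) : ∃ δ : {a : ℤ // IsRep s a} → ℝ, HasSum δ 1 ∧
    ∀ a, 0 < δ a ∧ δ a ≤ 1 ∧ MeanZero (fun x => (conj s {x | Meet x a}).indicator (fun _ => (1 : ℝ)) x - δ a) := by
  obtain ⟨δ, h1, _, h3⟩ := structure_full hs
  exact ⟨fun a => δ a, h3, fun a => mz_class hs a.2.1 (h1 a a.2.1).2⟩


/-- every invariant set has a density -/
theorem mz_all {s : ℤ} (hs : s = 1 ∨ s = -1) {S : Set ℤ} (hS : Invariant S) :
    ∃ δ : ℝ, 0 ≤ δ ∧ δ ≤ 1 ∧ ((∃ x ∈ S, 0 < s * x) → 0 < δ) ∧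
      MeanZero (fun x => (conj s S).indicator (fun _ => (1 : ℝ)) x - δ) := by
  classical
  by_cases hex : ∃ x ∈ S, 0 < s * x
  · obtain ⟨δ, h1, h2, h3⟩ := dens hs (conj s S) (conj_inv hs hS) (sign_of_pos hs hex)
    exact ⟨δ, h1.le, h2, fun _ => h1, h3⟩
  · refine ⟨0, le_rfl, zero_le_one, fun h => absurd h hex, ?_⟩
    have hss : ∀ x : ℤ, s * (s * x) = x := by intro x; rcases hs with rfl | rfl <;> ring
    unfold MeanZero
    have h1 : ∀ n : ℕ, 1 ≤ n → (conj s S).indicator (fun _ => (1 : ℝ)) (n : ℤ) = 0 := by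
      intro n hn
      apply Set.indicator_of_notMem
      intro h
      exact hex ⟨s * n, h, by rw [hss]; exact_mod_cast hn⟩
    have h2 : ∀ N : ℕ, |(∑ n ∈ range N, ((conj s S).indicator (fun _ => (1 : ℝ)) ((n : ℕ) : ℤ) - 0)) / N| ≤ 1 / (N : ℝ) := by
      intro N
      rw [abs_div, Nat.abs_cast]
      apply div_le_div_of_nonneg_right _ (Nat.cast_nonneg N)
      have h3 : ∀ n ∈ range N, ((conj s S).indicator (fun _ => (1 : ℝ)) ((n : ℕ) : ℤ) - 0)
          ≤ if n = 0 then (1 : ℝ) else 0 := by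
        intro n _
        split_ifs with h
        · simp only [Set.indicator]; split_ifs <;> norm_num
        · rw [h1 n (by omega)]; norm_num
      have h4 : 0 ≤ ∑ n ∈ range N, ((conj s S).indicator (fun _ => (1 : ℝ)) ((n : ℕ) : ℤ) - 0) := by
        apply sum_nonneg
        intro n _
        simp only [Set.indicator]; split_ifs <;> norm_num
      rw [abs_of_nonneg h4]
      refine (sum_le_sum h3).trans ?_
      rw [sum_ite_eq']
      split_ifs <;> norm_num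
    exact squeeze_zero_norm (fun N => h2 N) tendsto_one_div_atTop_nhds_zero_nat

theorem conj_ind_inv {s : ℤ} (hs : s = 1 ∨ s = -1) {S : Set ℤ} (hS : Invariant S) :
    InvF s (fun x => (conj s S).indicator (fun _ => (1 : ℝ)) x) := by
  classical
  constructor
  · intro x
    show |(conj s S).indicator (fun _ => (1 : ℝ)) x| ≤ 1
    simp only [Set.indicator]
    split_ifs <;> norm_num
  · intro x
    show (conj s S).indicator (fun _ => (1 : ℝ)) (Tz s x) = (conj s S).indicator (fun _ => (1 : ℝ)) x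
    simp only [Set.indicator, conj_inv hs hS x]

/-! ### the forms -/

theorem lin_eq {r : ℕ} (A n : Fin r → ℤ) : SH6.lf A n = lin A n := rfl

theorem rel_symm {r : ℕ} {A B : Fin r → ℤ} (h : Related A B) : Related B A := by
  obtain ⟨w, x, y, z, e⟩ := h
  exact ⟨y, z, w, x, fun j => (e j).symm⟩

theorem rel_refl {r : ℕ} (A : Fin r → ℤ) : Related A A := ⟨0, 0, 0, 0, fun _ => rfl⟩

theorem rel_trans {r : ℕ} {A B D : Fin r → ℤ} (h : Related A B) (h' : Related B D) : Related A D := by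
  obtain ⟨w, x, y, z, e⟩ := h
  obtain ⟨w', x', y', z', e'⟩ := h'
  refine ⟨w + w', x + x', y + y', z + z', fun j => ?_⟩
  calc A j * (2 ^ (w + w') * 3 ^ (x + x')) = A j * (2 ^ w * 3 ^ x) * (2 ^ w' * 3 ^ x') := by rw [pow_add, pow_add]; ring
    _ = B j * (2 ^ w' * 3 ^ x') * (2 ^ y * 3 ^ z) := by rw [e]; ring
    _ = _ := by rw [e', pow_add, pow_add]; ring

theorem unrel {r : ℕ} {A B : Fin r → ℤ} (h : ¬ Related A B) (x y u v : ℕ) :
    (fun j => 2 ^ x * 3 ^ y * A j) ≠ fun j => 2 ^ u * 3 ^ v * B j := by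
  intro e
  apply h
  refine ⟨x, y, u, v, fun j => ?_⟩
  have : 2 ^ x * 3 ^ y * A j = 2 ^ u * 3 ^ v * B j := congrFun e j
  rw [mul_comm, this, mul_comm]

theorem sgn_sgn {s : ℤ} (hs : s = 1 ∨ s = -1) (x : ℤ) : s * (s * x) = x := by rcases hs with rfl | rfl <;> ring

theorem ite_any {P Q : Prop} (i : Decidable P) (j : Decidable Q) (h : P ↔ Q) : @ite ℝ P i 1 0 = @ite ℝ Q j 1 0 := by
  split_ifs <;> first | rfl | (exfalso; tauto)

/-- the product law for sets, with the signs, on convex sets -/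
theorem k_sets (h : S_CONVU) {k r : ℕ} {A : Fin k → Fin r → ℤ} (hA : ∀ a, A a ≠ 0)
    (hrel : ∀ a b, a ≠ b → ¬ Related (A a) (A b)) {s : Fin k → ℤ} (hs : ∀ a, s a = 1 ∨ s a = -1)
    {S : Fin k → Set ℤ} (hS : ∀ a, Invariant (S a)) {δ : Fin k → ℝ} (h01 : ∀ a, 0 ≤ δ a ∧ δ a ≤ 1)
    (hm : ∀ a, MeanZero (fun x => (conj (s a) (S a)).indicator (fun _ => (1 : ℝ)) x - δ a)) (H : ℕ) {ε : ℝ} (hε : 0 < ε) :
    ∃ N0 : ℕ, ∀ N, N0 ≤ N → ∀ q : Fin k → ℤ, (∀ a, |q a| ≤ H * N) → ∀ K : Set (Fin r → ℝ), Convex ℝ K →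
      |prob N (fun n => Mem K n ∧ (∀ a, 0 < s a * (lin (A a) n + q a)) ∧ ∀ a, lin (A a) n + q a ∈ S a)
        - (∏ a, δ a) * prob N (fun n => Mem K n ∧ ∀ a, 0 < s a * (lin (A a) n + q a))| ≤ ε := by
  classical
  -- the functions
  obtain ⟨G, hG⟩ : ∃ G : Finset (Fin k) → Fin k → ℤ → ℝ,
      G = fun T a x => if a ∈ T then (S a).indicator (fun _ => (1 : ℝ)) x - δ a else δ a := ⟨_, rfl⟩
  have hind : ∀ (a : Fin k) (x : ℤ), (S a).indicator (fun _ => (1 : ℝ)) (s a * x)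
      = (conj (s a) (S a)).indicator (fun _ => (1 : ℝ)) x := by
    intro a x
    by_cases h1 : s a * x ∈ S a
    · rw [Set.indicator_of_mem h1, Set.indicator_of_mem (show x ∈ conj (s a) (S a) from h1)]
    · rw [Set.indicator_of_notMem h1, Set.indicator_of_notMem (show x ∉ conj (s a) (S a) from h1)]
  have hinv : ∀ T a, InvF (s a) (fun x => G T a (s a * x)) := by
    intro T a
    have h1 := conj_ind_inv (hs a) (hS a)
    obtain ⟨h0, h1'⟩ := h01 a
    constructor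
    · intro x
      show |G T a (s a * x)| ≤ 1
      rw [hG]
      simp only
      split_ifs
      · simp only [Set.indicator]
        rw [abs_le]
        split_ifs <;> constructor <;> linarith
      · rw [abs_le]; constructor <;> linarith
    · intro x
      show G T a (s a * Tz (s a) x) = G T a (s a * x)
      rw [hG]
      simp only
      split_ifs
      · rw [hind, hind]
        have := h1.2 x
        simp only at this
        rw [this]
      · rfl
  have hall : ∀ T : Finset (Fin k), ∃ N0 : ℕ, T.Nonempty → ∀ N, N0 ≤ N → ∀ q : Fin k → ℤ, (∀ a, |q a| ≤ H * N) →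
      ∀ K : Set (Fin r → ℝ), Convex ℝ K →
      |∑ n ∈ SH6.Bx r N, (if (fun j => (n j : ℝ)) ∈ K then SH6.ph A q s (G T) n else 0)| ≤ ε / 2 ^ k * (N : ℝ) ^ r := by
    intro T
    by_cases hT : T.Nonempty
    · obtain ⟨a0, ha0⟩ := hT
      obtain ⟨N0, hN0⟩ := h k r A hA (fun a b hab => unrel (hrel a b hab)) s hs (G T) (hinv T) a0 (by
        rw [hG]
        simp only [if_pos ha0, hind]
        exact hm a0) H (ε / 2 ^ k) (by positivity)
      refine ⟨N0, fun _ N hN q hq K hK => ?_⟩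
      have := hN0 N hN q hq K hK
      convert this using 2
    · exact ⟨0, fun h => absurd h hT⟩
  choose N0 hN0 using hall
  refine ⟨max 1 (univ.sup N0), fun N hN q hq K hK => ?_⟩
  have hN1 : 1 ≤ N := (le_max_left _ _).trans hN
  have hNr : (0 : ℝ) < (N : ℝ) ^ r := by
    have : (0 : ℝ) < N := by exact_mod_cast hN1
    positivity
  -- the expansion
  have hexp : ∀ n : Fin r → ℤ, (if Mem K n ∧ (∀ a, 0 < s a * (lin (A a) n + q a)) ∧ ∀ a, lin (A a) n + q a ∈ S a then (1 : ℝ) else 0)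
      = ∑ T ∈ (univ : Finset (Fin k)).powerset, (if (fun j => (n j : ℝ)) ∈ K then SH6.ph A q s (G T) n else 0) := by
    intro n
    have e1 : ∀ T : Finset (Fin k), SH6.ph A q s (G T) n
        = (if ∀ a, 0 < s a * (lin (A a) n + q a) then (1 : ℝ) else 0) *
          ((∏ a ∈ T, ((S a).indicator (fun _ => (1 : ℝ)) (lin (A a) n + q a) - δ a)) * ∏ a ∈ univ \ T, δ a) := by
      intro T
      unfold SH6.ph
      rw [prod_mul_distrib, Fintype.prod_ite_zero, Finset.prod_const_one, mul_comm]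
      congr 1
      · exact ite_any _ _ Iff.rfl
      rw [← prod_sdiff (subset_univ T), mul_comm]
      congr 1
      · apply prod_congr rfl
        intro a ha
        rw [hG]; simp only [if_pos ha]; rfl
      · apply prod_congr rfl
        intro a ha
        rw [hG]; simp only [if_neg (mem_sdiff.1 ha).2]
    have e2 : ∏ a, (S a).indicator (fun _ => (1 : ℝ)) (lin (A a) n + q a)
        = ∑ T ∈ (univ : Finset (Fin k)).powerset,
          (∏ a ∈ T, ((S a).indicator (fun _ => (1 : ℝ)) (lin (A a) n + q a) - δ a)) * ∏ a ∈ univ \ T, δ a := by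
      rw [← prod_add]
      apply prod_congr rfl
      intro a _
      ring
    have e3 : ∏ a, (S a).indicator (fun _ => (1 : ℝ)) (lin (A a) n + q a)
        = if ∀ a, lin (A a) n + q a ∈ S a then (1 : ℝ) else 0 := by
      simp only [Set.indicator]
      rw [Fintype.prod_ite_zero, Finset.prod_const_one]
      exact ite_any _ _ Iff.rfl
    simp only [e1]
    by_cases hK' : Mem K n
    · have hK2 : (fun j => (n j : ℝ)) ∈ K := hK'
      simp only [if_pos hK2]
      rw [← mul_sum, ← e2, e3]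
      by_cases h1 : ∀ a, 0 < s a * (lin (A a) n + q a)
      · rw [if_pos h1, one_mul]
        by_cases h2 : ∀ a, lin (A a) n + q a ∈ S a
        · rw [if_pos h2, if_pos ⟨hK', h1, h2⟩]
        · rw [if_neg h2, if_neg (fun h => h2 h.2.2)]
      · rw [if_neg h1, zero_mul, if_neg (fun h => h1 h.2.1)]
    · have hK2 : ¬ (fun j => (n j : ℝ)) ∈ K := hK'
      simp only [if_neg hK2, sum_const_zero]
      rw [if_neg (fun h => hK' h.1)]
  have hempty : ∀ n : Fin r → ℤ, (if (fun j => (n j : ℝ)) ∈ K then SH6.ph A q s (G ∅) n else 0)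
      = (∏ a, δ a) * (if Mem K n ∧ ∀ a, 0 < s a * (lin (A a) n + q a) then (1 : ℝ) else 0) := by
    intro n
    have e1 : SH6.ph A q s (G ∅) n = (∏ a, δ a) * (if ∀ a, 0 < s a * (lin (A a) n + q a) then (1 : ℝ) else 0) := by
      unfold SH6.ph
      rw [prod_mul_distrib, Fintype.prod_ite_zero, Finset.prod_const_one]
      congr 1
      · apply prod_congr rfl
        intro a _
        rw [hG]; simp only [if_neg (notMem_empty a)]
      · exact ite_any _ _ Iff.rfl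
    by_cases hK' : Mem K n
    · have hK2 : (fun j => (n j : ℝ)) ∈ K := hK'
      rw [if_pos hK2, e1]
      congr 1
      simp only [hK', true_and]
    · have hK2 : ¬ (fun j => (n j : ℝ)) ∈ K := hK'
      rw [if_neg hK2, if_neg (fun h => hK' h.1), mul_zero]
  rw [prob_eq, prob_eq, ← mul_div_assoc, ← sub_div, abs_div, abs_of_pos hNr, div_le_iff₀ hNr]
  have h1 : ((#{n ∈ SH6.Bx r N | Mem K n ∧ (∀ a, 0 < s a * (lin (A a) n + q a)) ∧ ∀ a, lin (A a) n + q a ∈ S a} : ℕ) : ℝ)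
      = ∑ T ∈ (univ : Finset (Fin k)).powerset, ∑ n ∈ SH6.Bx r N, (if (fun j => (n j : ℝ)) ∈ K then SH6.ph A q s (G T) n else 0) := by
    rw [sum_comm, ← sum_congr rfl fun n _ => hexp n, card_filter]
    push_cast
    rfl
  have h2 : (∏ a, δ a) * ((#{n ∈ SH6.Bx r N | Mem K n ∧ ∀ a, 0 < s a * (lin (A a) n + q a)} : ℕ) : ℝ)
      = ∑ n ∈ SH6.Bx r N, (if (fun j => (n j : ℝ)) ∈ K then SH6.ph A q s (G ∅) n else 0) := by
    rw [sum_congr rfl fun n _ => hempty n, ← mul_sum, card_filter]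
    push_cast
    rfl
  rw [h1, h2, ← Finset.add_sum_erase _ _ (empty_mem_powerset (univ : Finset (Fin k))), add_sub_cancel_left]
  refine (abs_sum_le_sum_abs _ _).trans ?_
  have h3 : ∀ T ∈ (univ : Finset (Fin k)).powerset.erase ∅,
      |∑ n ∈ SH6.Bx r N, (if (fun j => (n j : ℝ)) ∈ K then SH6.ph A q s (G T) n else 0)| ≤ ε / 2 ^ k * (N : ℝ) ^ r := by
    intro T hT
    apply hN0 T (nonempty_iff_ne_empty.2 (ne_of_mem_erase hT)) N _ q hq K hK
    exact (Finset.le_sup (mem_univ T)).trans ((le_max_right _ _).trans hN)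
  refine (sum_le_sum h3).trans ?_
  rw [sum_const, nsmul_eq_mul]
  have h4 : ((#((univ : Finset (Fin k)).powerset.erase ∅) : ℕ) : ℝ) ≤ 2 ^ k := by
    have : #((univ : Finset (Fin k)).powerset.erase ∅) ≤ 2 ^ k := by
      refine (card_le_card (erase_subset _ _)).trans ?_
      rw [card_powerset, card_univ, Fintype.card_fin]
    exact_mod_cast this
  calc _ ≤ 2 ^ k * (ε / 2 ^ k * (N : ℝ) ^ r) := mul_le_mul_of_nonneg_right h4 (by positivity)
    _ = ε * (N : ℝ) ^ r := by field_simp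

theorem reg_posU {r m : ℕ} {B : Fin m → Fin r → ℤ} {q s : Fin m → ℤ} {K : Set (Fin r → ℝ)} (hK : Region B q s K)
    {n : Fin r → ℤ} (hn : Mem K n) (b : Fin m) : 0 < s b * (lin (B b) n + q b) := by
  have h1 := hK.2 _ hn b
  have h2 : (s b : ℝ) * (∑ j, (B b j : ℝ) * (n j : ℝ) + q b) = ((s b * (lin (B b) n + q b) : ℤ) : ℝ) := by
    unfold lin
    push_cast
    rfl
  rw [h2] at h1
  exact_mod_cast h1

theorem reg_pos {r m : ℕ} {B : Fin m → Fin r → ℤ} {s : Fin m → ℤ} {K : Set (Fin r → ℝ)} (hK : Region B 0 s K) {n : Fin r → ℤ}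
    (hn : Mem K n) (b : Fin m) : 0 < s b * lin (B b) n := by
  have := reg_posU hK hn b
  rwa [Pi.zero_apply, add_zero] at this

/-- the product law for sets on regions, uniformly in the constants -/
theorem reg_setsU (h : S_CONVU) {k r : ℕ} {A : Fin k → Fin r → ℤ} (hA : ∀ a, A a ≠ 0)
    (hrel : ∀ a b, a ≠ b → ¬ Related (A a) (A b)) {s : Fin k → ℤ} (hs : ∀ a, s a = 1 ∨ s a = -1)
    {S : Fin k → Set ℤ} (hS : ∀ a, Invariant (S a)) {δ : Fin k → ℝ} (h01 : ∀ a, 0 ≤ δ a ∧ δ a ≤ 1)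
    (hm : ∀ a, MeanZero (fun x => (conj (s a) (S a)).indicator (fun _ => (1 : ℝ)) x - δ a)) (H : ℕ) {ε : ℝ} (hε : 0 < ε) :
    ∀ᶠ N : ℕ in atTop, ∀ q : Fin k → ℤ, (∀ a, |q a| ≤ H * N) → ∀ K : Set (Fin r → ℝ), Region A q s K →
      |prob N (fun n => Mem K n ∧ ∀ a, lin (A a) n + q a ∈ S a) - (∏ a, δ a) * prob N (fun n => Mem K n)| ≤ ε := by
  obtain ⟨N0, hN0⟩ := k_sets h hA hrel hs hS h01 hm H hε
  filter_upwards [eventually_ge_atTop N0] with N hN q hq K hK
  have h2 := hN0 N hN q hq K hK.1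
  have e1 : prob N (fun n => Mem K n ∧ (∀ a, 0 < s a * (lin (A a) n + q a)) ∧ ∀ a, lin (A a) n + q a ∈ S a)
      = prob N (fun n => Mem K n ∧ ∀ a, lin (A a) n + q a ∈ S a) := by
    apply prob_congr
    intro n _
    exact ⟨fun h => ⟨h.1, h.2.2⟩, fun h => ⟨h.1, fun a => reg_posU hK h.1 a, h.2⟩⟩
  have e2 : prob N (fun n => Mem K n ∧ ∀ a, 0 < s a * (lin (A a) n + q a)) = prob N (fun n => Mem K n) := by
    apply prob_congr
    intro n _
    exact ⟨fun h => h.1, fun h => ⟨h, fun a => reg_posU hK h a⟩⟩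
  rw [e1, e2] at h2
  exact h2

theorem exists_bound {k : ℕ} (q : Fin k → ℤ) : ∃ H : ℕ, ∀ N : ℕ, 1 ≤ N → ∀ a, |q a| ≤ H * N := by
  refine ⟨∑ a, (q a).natAbs, fun N hN a => ?_⟩
  have h1 : (q a).natAbs ≤ ∑ a, (q a).natAbs := single_le_sum (f := fun a => (q a).natAbs) (fun _ _ => Nat.zero_le _) (mem_univ a)
  have h2 : (q a).natAbs ≤ (∑ a, (q a).natAbs) * N := h1.trans (Nat.le_mul_of_pos_right _ hN)
  have h3 : (((q a).natAbs : ℕ) : ℤ) ≤ (((∑ a, (q a).natAbs) * N : ℕ) : ℤ) := by exact_mod_cast h2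
  rw [Int.natCast_natAbs] at h3
  rw [Nat.cast_mul] at h3
  exact h3

theorem near_of {s : ℤ} (hs : s = 1 ∨ s = -1) {x q : ℤ} (h1 : 0 < s * x) (h2 : ¬ 0 < s * (x + q)) : |x| ≤ |q| := by
  rcases hs with rfl | rfl
  · rw [abs_of_pos (by linarith)]
    have := neg_abs_le q
    linarith
  · rw [abs_of_neg (by linarith)]
    have := le_abs_self q
    linarith

/-- the product law for sets on regions -/
theorem reg_sets (h : S_CONVU) {k r : ℕ} {A : Fin k → Fin r → ℤ} (hA : ∀ a, A a ≠ 0)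
    (hrel : ∀ a b, a ≠ b → ¬ Related (A a) (A b)) (q : Fin k → ℤ) {s : Fin k → ℤ} (hs : ∀ a, s a = 1 ∨ s a = -1)
    {S : Fin k → Set ℤ} (hS : ∀ a, Invariant (S a)) {δ : Fin k → ℝ} (h01 : ∀ a, 0 ≤ δ a ∧ δ a ≤ 1)
    (hm : ∀ a, MeanZero (fun x => (conj (s a) (S a)).indicator (fun _ => (1 : ℝ)) x - δ a)) {ε : ℝ} (hε : 0 < ε) :
    ∀ᶠ N : ℕ in atTop, ∀ K : Set (Fin r → ℝ), Region A 0 s K →
      |prob N (fun n => Mem K n ∧ ∀ a, lin (A a) n + q a ∈ S a) - (∏ a, δ a) * prob N (fun n => Mem K n)| ≤ ε := by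
  obtain ⟨H, hH⟩ := exists_bound q
  obtain ⟨N0, hN0⟩ := k_sets h hA hrel hs hS h01 hm H (show 0 < ε / 2 by positivity)
  have h1 : Tendsto (fun N : ℕ => ∑ a, prob N fun n => |lin (A a) n| ≤ |q a|) atTop (𝓝 0) := by
    have := tendsto_finsetSum (univ : Finset (Fin k)) fun a _ => prob_near (hA a) (q a)
    simpa using this
  filter_upwards [eventually_ge_atTop N0, h1.eventually (eventually_le_nhds (show 0 < ε / 2 by positivity)),
    eventually_ge_atTop 1] with N hN hN2 hN3 K hK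
  have h2 := hN0 N hN q (hH N hN3) K hK.1
  have h3 : prob N (fun n => ∃ a ∈ (univ : Finset (Fin k)), |lin (A a) n| ≤ |q a|) ≤ ε / 2 := (prob_union _ N _).trans hN2
  have h4 : ∀ P : (Fin r → ℤ) → Prop, prob N (fun n => (Mem K n ∧ P n) ∧ ¬ ∀ a, 0 < s a * (lin (A a) n + q a)) ≤
      prob N (fun n => ∃ a ∈ (univ : Finset (Fin k)), |lin (A a) n| ≤ |q a|) := by
    intro P
    apply prob_mono
    rintro n _ ⟨⟨hn1, _⟩, hn2⟩
    push Not at hn2
    obtain ⟨a, ha⟩ := hn2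
    exact ⟨a, mem_univ a, near_of (hs a) (reg_pos hK hn1 a) (not_lt.2 ha)⟩
  have h5 := prob_split N (fun n => Mem K n ∧ ∀ a, lin (A a) n + q a ∈ S a) (fun n => ∀ a, 0 < s a * (lin (A a) n + q a))
  have h6 := prob_split N (fun n => Mem K n ∧ True) (fun n => ∀ a, 0 < s a * (lin (A a) n + q a))
  have h7 := h4 (fun n => ∀ a, lin (A a) n + q a ∈ S a)
  have h8 := h4 (fun _ => True)
  simp only [and_true] at h6 h8
  have e1 : prob N (fun n => (Mem K n ∧ ∀ a, lin (A a) n + q a ∈ S a) ∧ ∀ a, 0 < s a * (lin (A a) n + q a))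
      = prob N (fun n => Mem K n ∧ (∀ a, 0 < s a * (lin (A a) n + q a)) ∧ ∀ a, lin (A a) n + q a ∈ S a) := by
    apply prob_congr; intro n _; tauto
  rw [e1] at h5
  have h9 := prob_nonneg N (fun n => (Mem K n ∧ ∀ a, lin (A a) n + q a ∈ S a) ∧ ¬ ∀ a, 0 < s a * (lin (A a) n + q a))
  have h10 := prob_nonneg N (fun n => Mem K n ∧ ¬ ∀ a, 0 < s a * (lin (A a) n + q a))
  have h11 : 0 ≤ ∏ a, δ a := prod_nonneg fun a _ => (h01 a).1
  have h12 : ∏ a, δ a ≤ 1 := prod_le_one (fun a _ => (h01 a).1) fun a _ => (h01 a).2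
  rw [h5, h6]
  have h13 : (∏ a, δ a) * prob N (fun n => Mem K n ∧ ¬ ∀ a, 0 < s a * (lin (A a) n + q a)) ≤ ε / 2 := by
    have := mul_le_mul_of_nonneg_right h12 h10
    linarith
  have h14 : 0 ≤ (∏ a, δ a) * prob N (fun n => Mem K n ∧ ¬ ∀ a, 0 < s a * (lin (A a) n + q a)) := mul_nonneg h11 h10
  rw [abs_le] at h2 ⊢
  constructor <;> nlinarith [h2.1, h2.2]

/-! ### the laws of the classes -/

/-- products of distributions -/
theorem hasSum_pi {ι : Type*} : ∀ {k : ℕ} {μ : Fin k → ι → ℝ}, (∀ a x, 0 ≤ μ a x) → (∀ a, HasSum (μ a) 1) →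
    HasSum (fun c : Fin k → ι => ∏ a, μ a (c a)) 1 := by
  intro k
  induction k with
  | zero =>
    intro μ _ _
    have : (fun c : Fin 0 → ι => ∏ a, μ a (c a)) = fun _ => (1 : ℝ) := by funext c; simp
    rw [this]
    exact hasSum_unique (fun _ : Fin 0 → ι => (1 : ℝ))
  | succ k ih =>
    intro μ h0 h1
    have ih' := ih (μ := fun a => μ a.succ) (fun a x => h0 _ _) (fun a => h1 _)
    obtain ⟨G, hG⟩ : ∃ G : (Fin k → ι) → ℝ, G = fun c => ∏ a, μ a.succ (c a) := ⟨_, rfl⟩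
    rw [← hG] at ih'
    have hG0 : 0 ≤ G := by
      intro c
      rw [hG]
      exact Finset.prod_nonneg fun a _ => h0 _ _
    have h2 : Summable (fun x : ι × (Fin k → ι) => μ 0 x.1 * G x.2) :=
      Summable.mul_of_nonneg (h1 0).summable ih'.summable (h0 0) hG0
    have h3 : HasSum (fun x : ι × (Fin k → ι) => μ 0 x.1 * G x.2) (1 * 1) := HasSum.mul (h1 0) ih' h2
    rw [mul_one] at h3
    rw [← (Fin.consEquiv (fun _ : Fin (k + 1) => ι)).hasSum_iff]
    convert h3 using 1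
    funext x
    simp only [Function.comp, Fin.consEquiv, Equiv.coe_fn_mk, Fin.prod_univ_succ, Fin.cons_zero, Fin.cons_succ, hG]

/-- the laws of the classes, with the facts for the proofs -/
structure Laws (μ : ℤ → ℤ → ℝ) : Prop where
  sum : ∀ s : ℤ, s = 1 ∨ s = -1 → HasSum (μ s) 1
  rep : ∀ s : ℤ, s = 1 ∨ s = -1 → ∀ a, IsRep s a → 0 < μ s a ∧ μ s a ≤ 1 ∧
    MeanZero (fun x => (conj s {x | Meet x a}).indicator (fun _ => (1 : ℝ)) x - μ s a)
  non : ∀ s a, ¬ IsRep s a → μ s a = 0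

theorem Laws.nonneg {μ : ℤ → ℤ → ℝ} (h : Laws μ) {s : ℤ} (hs : s = 1 ∨ s = -1) (a : ℤ) : 0 ≤ μ s a := by
  by_cases ha : IsRep s a
  · exact (h.rep s hs a ha).1.le
  · exact (h.non s a ha).ge

theorem exists_laws : ∃ μ, Laws μ := by
  classical
  have hcl : ∀ s : ℤ, ∃ δ : {a : ℤ // IsRep s a} → ℝ, s = 1 ∨ s = -1 → HasSum δ 1 ∧
      ∀ a, 0 < δ a ∧ δ a ≤ 1 ∧ MeanZero (fun x => (conj s {x | Meet x a}).indicator (fun _ => (1 : ℝ)) x - δ a) := by
    intro s
    by_cases hs : s = 1 ∨ s = -1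
    · obtain ⟨μ, h1, h2⟩ := classes hs
      exact ⟨μ, fun _ => ⟨h1, h2⟩⟩
    · exact ⟨fun _ => 0, fun h => absurd h hs⟩
  choose δ hδ using hcl
  obtain ⟨μ, hμ⟩ : ∃ μ : ℤ → ℤ → ℝ, μ = fun s a => if h : IsRep s a then δ s ⟨a, h⟩ else 0 := ⟨_, rfl⟩
  have hv : ∀ s (a : {a : ℤ // IsRep s a}), μ s a = δ s a := by
    intro s a
    rw [hμ]
    simp only
    rw [dif_pos a.2]
  refine ⟨μ, ⟨fun s hs => ?_, fun s hs a ha => ?_, fun s a ha => ?_⟩⟩
  · have h1 : HasSum (fun a : {a : ℤ | IsRep s a} => μ s a) 1 := by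
      have : (fun a : {a : ℤ | IsRep s a} => μ s a) = δ s := by funext a; exact hv s a
      rw [this]
      exact (hδ s hs).1
    have h2 : HasSum ({a : ℤ | IsRep s a}.indicator (μ s)) 1 := hasSum_subtype_iff_indicator.1 h1
    have h3 : {a : ℤ | IsRep s a}.indicator (μ s) = μ s := by
      funext a
      by_cases ha : IsRep s a
      · exact Set.indicator_of_mem (s := {a : ℤ | IsRep s a}) (a := a) ha (μ s)
      · rw [Set.indicator_of_notMem (s := {a : ℤ | IsRep s a}) (a := a) ha (μ s), hμ]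
        simp only
        rw [dif_neg ha]
    rwa [h3] at h2
  · have h1 := (hδ s hs).2 ⟨a, ha⟩
    have h2 := hv s ⟨a, ha⟩
    rw [← h2] at h1
    exact h1
  · rw [hμ]
    simp only
    rw [dif_neg ha]

/-- from finitely many tuples of classes to the joint law -/
theorem law_core {μ : ℤ → ℤ → ℝ} (hμ : Laws μ) {m : ℕ} {s : Fin m → ℤ} (hs : ∀ b, s b = 1 ∨ s b = -1)
    {ε : ℝ} (hε : 0 < ε) : ∃ (T : Finset (Fin m → ℤ)) (η : ℝ), 0 < η ∧ (∀ c ∈ T, ∀ b, IsRep (s b) (c b)) ∧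
    ∀ (r N : ℕ) (M : (Fin r → ℤ) → Prop) (X : (Fin r → ℤ) → Fin m → ℤ),
      (∀ c ∈ T, |prob N (fun n => M n ∧ ∀ b, Meet (X n b) (c b)) - (∏ b, μ (s b) (c b)) * prob N (fun n => M n)| ≤ η) →
      ∀ R : Set (Fin m → ℤ), (∀ x y, (∀ a, Meet (x a) (y a)) → (x ∈ R ↔ y ∈ R)) →
      |prob N (fun n => M n ∧ X n ∈ R)
        - prob N (fun n => M n) * ∑' c : Fin m → ℤ, R.indicator (fun c => ∏ b, μ (s b) (c b)) c| ≤ ε := by
  classical
  obtain ⟨W, hW⟩ : ∃ W : (Fin m → ℤ) → ℝ, W = fun c => ∏ b, μ (s b) (c b) := ⟨_, rfl⟩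
  have hP0 : ∀ c, 0 ≤ W c := fun c => by rw [hW]; exact prod_nonneg fun b _ => hμ.nonneg (hs b) _
  have hpi : HasSum W 1 := by
    rw [hW]
    exact hasSum_pi (μ := fun b => μ (s b)) (fun b x => hμ.nonneg (hs b) x) (fun b => hμ.sum _ (hs b))
  -- a finite set of tuples of classes
  obtain ⟨T₀, hT₀⟩ : ∃ T : Finset (Fin m → ℤ), 1 - ε / 4 ≤ ∑ c ∈ T, W c :=
    (hpi.eventually (eventually_ge_nhds (show 1 - ε / 4 < 1 by linarith))).exists
  obtain ⟨T, hT⟩ : ∃ T : Finset (Fin m → ℤ), T = T₀.filter fun c => ∀ b, IsRep (s b) (c b) := ⟨_, rfl⟩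
  have hTrep : ∀ c ∈ T, ∀ b, IsRep (s b) (c b) := fun c hc => by rw [hT, mem_filter] at hc; exact hc.2
  have hTge : 1 - ε / 4 ≤ ∑ c ∈ T, W c := by
    refine hT₀.trans (le_of_eq ?_)
    rw [hT, sum_filter]
    apply sum_congr rfl
    intro c _
    split_ifs with hc
    · rfl
    · push Not at hc
      obtain ⟨b, hb⟩ := hc
      rw [hW]
      exact prod_eq_zero (mem_univ b) (hμ.non _ _ hb)
  have hT1 : ∑ c ∈ T, W c ≤ 1 := sum_le_hasSum T (fun c _ => hP0 c) hpi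
  refine ⟨T, ε / 4 / (#T + 1), by positivity, hTrep, ?_⟩
  intro r N M X hEc0 R hR
  obtain ⟨E, hE⟩ : ∃ E : (Fin m → ℤ) → (Fin r → ℤ) → Prop, E = fun c n => ∀ b, Meet (X n b) (c b) := ⟨_, rfl⟩
  have hEc : ∀ c ∈ T, |prob N (fun n => M n ∧ E c n) - W c * prob N (fun n => M n)| ≤ ε / 4 / (#T + 1) := by
    rw [hE, hW]; exact hEc0
  obtain ⟨p, hp⟩ : ∃ p : ℝ, p = prob N (fun n => M n) := ⟨_, rfl⟩
  have hp0 : 0 ≤ p := by rw [hp]; exact prob_nonneg _ _
  have hp1 : p ≤ 1 := by rw [hp]; exact prob_le_one _ _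
  obtain ⟨EK, hEK⟩ : ∃ EK : (Fin m → ℤ) → (Fin r → ℤ) → Prop, EK = fun c n => M n ∧ E c n := ⟨_, rfl⟩
  have hEc2 : ∀ c ∈ T, |prob N (EK c) - W c * p| ≤ ε / 4 / (#T + 1) := by rw [hEK, hp]; exact hEc
  have hdis : ∀ c ∈ T, ∀ c' ∈ T, c ≠ c' → ∀ n, EK c n → ¬ EK c' n := by
    intro c hc c' hc' hcc n hn hn'
    apply hcc
    rw [hEK, hE] at hn hn'
    funext b
    exact rep_unique (hs b) (hTrep c hc b) (hTrep c' hc' b) ((hn.2 b).symm.trans (hn'.2 b))
  -- the decomposition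
  have h1 := prob_split N (fun n => M n ∧ X n ∈ R) (fun n => ∃ c ∈ T, E c n)
  have h2 : prob N (fun n => (M n ∧ X n ∈ R) ∧ ∃ c ∈ T, E c n) = ∑ c ∈ T, R.indicator (fun c => prob N (EK c)) c := by
    have h3 : prob N (fun n => (M n ∧ X n ∈ R) ∧ ∃ c ∈ T, E c n) = prob N (fun n => ∃ c ∈ T, (EK c n ∧ c ∈ R)) := by
      apply prob_congr
      intro n _
      have h4 : ∀ c, E c n → (X n ∈ R ↔ c ∈ R) := by
        intro c hc
        rw [hE] at hc
        exact hR _ _ hc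
      rw [hEK]
      constructor
      · rintro ⟨⟨hk, hx⟩, c, hc, hcn⟩
        exact ⟨c, hc, ⟨hk, hcn⟩, (h4 c hcn).1 hx⟩
      · rintro ⟨c, hc, ⟨hk, hcn⟩, hcR⟩
        exact ⟨⟨hk, (h4 c hcn).2 hcR⟩, c, hc, hcn⟩
    rw [h3, prob_sum T N (fun c n => EK c n ∧ c ∈ R)
      (fun c hc c' hc' hcc n hn hn' => hdis c hc c' hc' hcc n hn.1 hn'.1)]
    apply sum_congr rfl
    intro c _
    by_cases hcR : c ∈ R
    · rw [Set.indicator_of_mem hcR]
      apply prob_congr
      intro n _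
      simp only [hcR, and_true]
    · rw [Set.indicator_of_notMem hcR]
      rw [prob_eq, filter_false_of_mem (fun n _ h => hcR h.2)]
      simp
  have h3 : prob N (fun n => (M n ∧ X n ∈ R) ∧ ¬ ∃ c ∈ T, E c n) ≤ p - ∑ c ∈ T, prob N (EK c) := by
    have h4 := prob_split N (fun n => M n) (fun n => ∃ c ∈ T, E c n)
    have h5 : prob N (fun n => M n ∧ ∃ c ∈ T, E c n) = prob N (fun n => ∃ c ∈ T, EK c n) := by
      apply prob_congr
      intro n _
      rw [hEK]
      constructor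
      · rintro ⟨h6, c, hc, h7⟩; exact ⟨c, hc, h6, h7⟩
      · rintro ⟨c, hc, h6, h7⟩; exact ⟨h6, c, hc, h7⟩
    rw [h5, prob_sum T N EK hdis, ← hp] at h4
    have h6 : prob N (fun n => (M n ∧ X n ∈ R) ∧ ¬ ∃ c ∈ T, E c n) ≤ prob N (fun n => M n ∧ ¬ ∃ c ∈ T, E c n) :=
      prob_mono fun n _ h => ⟨h.1.1, h.2⟩
    linarith
  have h3' := prob_nonneg N (fun n => (M n ∧ X n ∈ R) ∧ ¬ ∃ c ∈ T, E c n)
  -- the limit
  have hind : ∀ c : Fin m → ℤ, 0 ≤ R.indicator W c ∧ R.indicator W c ≤ W c := by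
    intro c
    by_cases hc : c ∈ R
    · rw [Set.indicator_of_mem hc]; exact ⟨hP0 c, le_rfl⟩
    · rw [Set.indicator_of_notMem hc]; exact ⟨le_rfl, hP0 c⟩
  have hsR : Summable (fun c : Fin m → ℤ => R.indicator W c) :=
    Summable.of_nonneg_of_le (fun c => (hind c).1) (fun c => (hind c).2) hpi.summable
  have h4 := hsR.sum_add_tsum_compl (s := T)
  have h5 := hpi.summable.sum_add_tsum_compl (s := T)
  rw [hpi.tsum_eq] at h5
  have h6 : ∑' c : ((T : Set (Fin m → ℤ))ᶜ : Set (Fin m → ℤ)), R.indicator W (c : Fin m → ℤ)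
      ≤ ∑' c : ((T : Set (Fin m → ℤ))ᶜ : Set (Fin m → ℤ)), W (c : Fin m → ℤ) :=
    (hsR.subtype _).tsum_le_tsum (fun c => (hind _).2) (hpi.summable.subtype _)
  have h7 : 0 ≤ ∑' c : ((T : Set (Fin m → ℤ))ᶜ : Set (Fin m → ℤ)), R.indicator W (c : Fin m → ℤ) :=
    tsum_nonneg fun c => (hind _).1
  have hε' : 0 < ε / 4 / (#T + 1) := by positivity
  have h8 : |∑ c ∈ T, R.indicator (fun c => prob N (EK c)) c - p * ∑ c ∈ T, R.indicator W c| ≤ ε / 4 := by
    rw [mul_sum, ← sum_sub_distrib]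
    refine (abs_sum_le_sum_abs _ _).trans ?_
    have h9 : ∀ c ∈ T, |R.indicator (fun c => prob N (EK c)) c - p * R.indicator W c| ≤ ε / 4 / (#T + 1) := by
      intro c hc
      by_cases hcR : c ∈ R
      · rw [Set.indicator_of_mem hcR, Set.indicator_of_mem hcR, mul_comm p]; exact hEc2 c hc
      · rw [Set.indicator_of_notMem hcR, Set.indicator_of_notMem hcR, mul_zero, sub_self, abs_zero]; exact hε'.le
    refine (sum_le_sum h9).trans ?_
    rw [sum_const, nsmul_eq_mul, ← mul_div_assoc, div_le_iff₀ (by positivity)]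
    nlinarith
  have h9 : p * ∑ c ∈ T, W c - ε / 4 ≤ ∑ c ∈ T, prob N (EK c) := by
    have h10 : |∑ c ∈ T, prob N (EK c) - p * ∑ c ∈ T, W c| ≤ ε / 4 := by
      rw [mul_sum, ← sum_sub_distrib]
      refine (abs_sum_le_sum_abs _ _).trans ?_
      refine (sum_le_sum fun c hc => (by rw [mul_comm p]; exact hEc2 c hc :
        |prob N (EK c) - p * W c| ≤ ε / 4 / (#T + 1))).trans ?_
      rw [sum_const, nsmul_eq_mul, ← mul_div_assoc, div_le_iff₀ (by positivity)]
      nlinarith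
    have := (abs_le.1 h10).1
    linarith
  rw [← hW, h1, h2, ← h4, ← hp, mul_add]
  have h10 : p * ∑' c : ((T : Set (Fin m → ℤ))ᶜ : Set (Fin m → ℤ)), R.indicator W (c : Fin m → ℤ) ≤ ε / 4 := by
    have h11 := mul_le_mul hp1 (h6.trans (by linarith :
      ∑' c : ((T : Set (Fin m → ℤ))ᶜ : Set (Fin m → ℤ)), W (c : Fin m → ℤ) ≤ ε / 4)) h7 zero_le_one
    linarith
  have h11 : 0 ≤ p * ∑' c : ((T : Set (Fin m → ℤ))ᶜ : Set (Fin m → ℤ)), R.indicator W (c : Fin m → ℤ) := mul_nonneg hp0 h7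
  have h12 : p - p * ∑ c ∈ T, W c ≤ ε / 4 := by
    have h13 : p * (1 - ∑ c ∈ T, W c) ≤ 1 * (ε / 4) := mul_le_mul hp1 (by linarith) (by linarith) zero_le_one
    linarith
  rw [abs_le] at h8 ⊢
  constructor <;> linarith [h8.1, h8.2]

/-- the joint law for pairwise unrelated forms, uniformly in the constants -/
theorem law_unrelatedU (h : S_CONVU) {μ : ℤ → ℤ → ℝ} (hμ : Laws μ) {m r : ℕ} {B : Fin m → Fin r → ℤ} (hB : ∀ b, B b ≠ 0)
    (hrel : ∀ a b, a ≠ b → ¬ Related (B a) (B b)) {s : Fin m → ℤ} (hs : ∀ b, s b = 1 ∨ s b = -1) : AffineLaw μ B s := by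
  intro ε hε H
  obtain ⟨T, η, hη, hTrep, hcore⟩ := law_core hμ hs hε
  have hall : ∀ᶠ N : ℕ in atTop, ∀ c ∈ T, ∀ q : Fin m → ℤ, (∀ a, |q a| ≤ H * N) → ∀ K : Set (Fin r → ℝ), Region B q s K →
      |prob N (fun n => Mem K n ∧ ∀ b, lin (B b) n + q b ∈ {x | Meet x (c b)}) - (∏ b, μ (s b) (c b)) * prob N (fun n => Mem K n)| ≤ η := by
    rw [eventually_all_finset]
    intro c hc
    exact reg_setsU h hB hrel hs (S := fun b => {x | Meet x (c b)}) (fun b => meet_inv _) (δ := fun b => μ (s b) (c b))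
      (fun b => ⟨hμ.nonneg (hs b) _, (hμ.rep _ (hs b) _ (hTrep c hc b)).2.1⟩)
      (fun b => (hμ.rep _ (hs b) _ (hTrep c hc b)).2.2) H hη
  filter_upwards [hall] with N hN q hq K hK R hR
  exact hcore r N (fun n => Mem K n) (fun n b => lin (B b) n + q b) (fun c hc => hN c hc q hq K hK) R hR

/-- the joint law for pairwise unrelated forms -/
theorem law_unrelated (h : S_CONVU) {μ : ℤ → ℤ → ℝ} (hμ : Laws μ) {m r : ℕ} {B : Fin m → Fin r → ℤ} (hB : ∀ b, B b ≠ 0)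
    (hrel : ∀ a b, a ≠ b → ¬ Related (B a) (B b)) (q : Fin m → ℤ) {s : Fin m → ℤ} (hs : ∀ b, s b = 1 ∨ s b = -1)
    {ε : ℝ} (hε : 0 < ε) :
    ∀ᶠ N : ℕ in atTop, ∀ K : Set (Fin r → ℝ), Region B 0 s K →
      ∀ R : Set (Fin m → ℤ), (∀ x y, (∀ a, Meet (x a) (y a)) → (x ∈ R ↔ y ∈ R)) →
      |prob N (fun n => Mem K n ∧ (fun b => lin (B b) n + q b) ∈ R)
        - prob N (fun n => Mem K n) * ∑' c : Fin m → ℤ, R.indicator (fun c => ∏ b, μ (s b) (c b)) c| ≤ ε := by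
  obtain ⟨T, η, hη, hTrep, hcore⟩ := law_core hμ hs hε
  have hall : ∀ᶠ N : ℕ in atTop, ∀ c ∈ T, ∀ K : Set (Fin r → ℝ), Region B 0 s K →
      |prob N (fun n => Mem K n ∧ ∀ b, lin (B b) n + q b ∈ {x | Meet x (c b)}) - (∏ b, μ (s b) (c b)) * prob N (fun n => Mem K n)| ≤ η := by
    rw [eventually_all_finset]
    intro c hc
    exact reg_sets h hB hrel q hs (S := fun b => {x | Meet x (c b)}) (fun b => meet_inv _) (δ := fun b => μ (s b) (c b))
      (fun b => ⟨hμ.nonneg (hs b) _, (hμ.rep _ (hs b) _ (hTrep c hc b)).2.1⟩)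
      (fun b => (hμ.rep _ (hs b) _ (hTrep c hc b)).2.2) hη
  filter_upwards [hall] with N hN K hK R hR
  exact hcore r N (fun n => Mem K n) (fun n b => lin (B b) n + q b) (fun c hc => hN c hc K hK) R hR

/-! ### related forms -/

/-- the trajectories along related forms meet -/
theorem merge (h : S_CONVU) {r : ℕ} {A B : Fin r → ℤ} (hA : A ≠ 0) (hAB : Related A B) (q q' : ℤ) :
    AlmostAll fun n => Meet (lin A n + q) (lin B n + q') := by
  classical
  -- the integers of sign `s`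
  have key : ∀ s : ℤ, s = 1 ∨ s = -1 → ∀ ε : ℝ, 0 < ε → ∀ᶠ N : ℕ in atTop,
      prob N (fun n => 0 < s * (lin A n + q) ∧ ¬ Meet (lin A n + q) (lin B n + q')) ≤ ε := by
    intro s hs ε hε
    obtain ⟨δ, hsum, hδ⟩ := classes hs
    obtain ⟨F, hF⟩ : ∃ F : Finset {a : ℤ // IsRep s a}, 1 - ε / 3 ≤ ∑ a ∈ F, δ a :=
      (hsum.eventually (eventually_ge_nhds (show 1 - ε / 3 < 1 by linarith))).exists
    -- the class of the first number
    have h1 : ∀ᶠ N : ℕ in atTop, ∀ a ∈ F, |prob N (fun n => 0 < s * (lin A n + q) ∧ Meet (lin A n + q) a)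
        - δ a * prob N (fun n => 0 < s * (lin A n + q))| ≤ ε / 3 / (#F + 1) := by
      rw [eventually_all_finset]
      intro a _
      obtain ⟨H, hH⟩ := exists_bound (fun _ : Fin 1 => q)
      obtain ⟨N0, hN0⟩ := k_sets h (k := 1) (A := fun _ => A) (fun _ => hA) (fun a b hab => absurd (Subsingleton.elim a b) hab)
        (s := fun _ => s) (fun _ => hs) (S := fun _ => {x | Meet x a}) (fun _ => meet_inv _) (δ := fun _ => δ a)
        (fun _ => ⟨(hδ a).1.le, (hδ a).2.1⟩) (fun _ => (hδ a).2.2) H (show 0 < ε / 3 / (#F + 1) by positivity)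
      filter_upwards [eventually_ge_atTop N0, eventually_ge_atTop 1] with N hN hN1
      have h2 := hN0 N hN (fun _ => q) (hH N hN1) Set.univ convex_univ
      simp only [Finset.prod_const, card_univ, Fintype.card_fin, pow_one] at h2
      have e1 : prob N (fun n => Mem (Set.univ : Set (Fin r → ℝ)) n ∧ (∀ _ : Fin 1, 0 < s * (lin A n + q)) ∧ ∀ _ : Fin 1, lin A n + q ∈ {x | Meet x (a : ℤ)})
          = prob N (fun n => 0 < s * (lin A n + q) ∧ Meet (lin A n + q) a) := by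
        apply prob_congr
        intro n _
        exact ⟨fun h => ⟨h.2.1 0, h.2.2 0⟩, fun h => ⟨trivial, fun _ => h.1, fun _ => h.2⟩⟩
      have e2 : prob N (fun n => Mem (Set.univ : Set (Fin r → ℝ)) n ∧ (∀ _ : Fin 1, 0 < s * (lin A n + q)))
          = prob N (fun n => 0 < s * (lin A n + q)) := by
        apply prob_congr
        intro n _
        exact ⟨fun h => h.2 0, fun h => ⟨trivial, fun _ => h⟩⟩
      rw [e1, e2] at h2
      exact h2
    -- different classes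
    have h2 : Tendsto (fun N : ℕ => ∑ a ∈ F, prob N (fun n => 0 < s * (lin A n + q) ∧ Meet (lin A n + q) a
        ∧ ¬ Meet (lin B n + q') a)) atTop (𝓝 0) := by
      have h3 : ∀ a ∈ F, Tendsto (fun N : ℕ => prob N (fun n => 0 < s * (lin A n + q) ∧ Meet (lin A n + q) a
          ∧ ¬ Meet (lin B n + q') a)) atTop (𝓝 0) := by
        intro a _
        obtain ⟨w, x, y, z, e⟩ := hAB
        have hinv : InvF s (fun x => ({x | Meet x (a : ℤ)} : Set ℤ).indicator (fun _ => (1 : ℝ)) (s * x)) := by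
          have h4 := conj_ind_inv hs (meet_inv (a : ℤ))
          have e4 : (fun x => (conj s {x | Meet x (a : ℤ)}).indicator (fun _ => (1 : ℝ)) x)
              = fun x => ({x | Meet x (a : ℤ)} : Set ℤ).indicator (fun _ => (1 : ℝ)) (s * x) := by
            funext x
            by_cases h5 : s * x ∈ ({x | Meet x (a : ℤ)} : Set ℤ)
            · rw [Set.indicator_of_mem h5, Set.indicator_of_mem (show x ∈ conj s {x | Meet x (a : ℤ)} from h5)]
            · rw [Set.indicator_of_notMem h5, Set.indicator_of_notMem (show x ∉ conj s {x | Meet x (a : ℤ)} from h5)]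
          rwa [e4] at h4
        have h4 := SH6.slice_same (L := A) (L' := B) hA (x := w) (y := x) (u := y) (v := z)
          (by funext j; rw [mul_comm, e j, mul_comm]) q q' hs hinv
        refine squeeze_zero (fun N => prob_nonneg _ _) (fun N => ?_) h4
        rw [prob_eq]
        apply div_le_div_of_nonneg_right _ (by positivity)
        rw [card_filter]
        push_cast
        apply sum_le_sum
        intro n _
        have e1 : (SH6.lf A n + q ∈ ({x | Meet x (a : ℤ)} : Set ℤ)) ↔ Meet (lin A n + q) a := Iff.rfl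
        have e2 : (SH6.lf B n + q' ∈ ({x | Meet x (a : ℤ)} : Set ℤ)) ↔ Meet (lin B n + q') a := Iff.rfl
        have e3 : (0 < s * (SH6.lf A n + q)) ↔ 0 < s * (lin A n + q) := Iff.rfl
        simp only [Set.indicator, e1, e2, e3]
        split_ifs <;> first | (exfalso; tauto) | norm_num
      have h4 := tendsto_finsetSum F h3
      simpa using h4
    filter_upwards [h1, h2.eventually (eventually_le_nhds (show 0 < ε / 3 - ε / 3 * (#F / (#F + 1)) by
      have : (#F : ℝ) / (#F + 1) < 1 := by rw [div_lt_one (by positivity)]; linarith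
      nlinarith))] with N hN1 hN2
    obtain ⟨p, hp⟩ : ∃ p : ℝ, p = prob N (fun n => 0 < s * (lin A n + q)) := ⟨_, rfl⟩
    have hp0 : 0 ≤ p := by rw [hp]; exact prob_nonneg _ _
    have hp1 : p ≤ 1 := by rw [hp]; exact prob_le_one _ _
    rw [← hp] at hN1
    have hdis : ∀ a ∈ F, ∀ b ∈ F, a ≠ b → ∀ n : Fin r → ℤ, (0 < s * (lin A n + q) ∧ Meet (lin A n + q) (a : ℤ)) →
        ¬ (0 < s * (lin A n + q) ∧ Meet (lin A n + q) (b : ℤ)) := by
      intro a _ b _ hab n hn hn'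
      exact hab (Subtype.ext (rep_unique hs a.2 b.2 (Meet.trans (Meet.symm hn.2) hn'.2)))
    have h3 := prob_split N (fun n => 0 < s * (lin A n + q)) (fun n => ∃ a ∈ F, Meet (lin A n + q) (a : ℤ))
    have h4 : prob N (fun n => 0 < s * (lin A n + q) ∧ ∃ a ∈ F, Meet (lin A n + q) (a : ℤ))
        = ∑ a ∈ F, prob N (fun n => 0 < s * (lin A n + q) ∧ Meet (lin A n + q) (a : ℤ)) := by
      rw [← prob_sum F N (fun a n => 0 < s * (lin A n + q) ∧ Meet (lin A n + q) (a : ℤ)) hdis]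
      apply prob_congr
      intro n _
      constructor
      · rintro ⟨h5, a, ha, h6⟩; exact ⟨a, ha, h5, h6⟩
      · rintro ⟨a, ha, h5, h6⟩; exact ⟨h5, a, ha, h6⟩
    have h5 : prob N (fun n => 0 < s * (lin A n + q) ∧ ¬ Meet (lin A n + q) (lin B n + q'))
        ≤ prob N (fun n => 0 < s * (lin A n + q) ∧ ¬ ∃ a ∈ F, Meet (lin A n + q) (a : ℤ))
          + ∑ a ∈ F, prob N (fun n => 0 < s * (lin A n + q) ∧ Meet (lin A n + q) a ∧ ¬ Meet (lin B n + q') a) := by
      refine le_trans ?_ (add_le_add le_rfl (prob_union F N (fun (a : {a : ℤ // IsRep s a}) n =>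
        0 < s * (lin A n + q) ∧ Meet (lin A n + q) a ∧ ¬ Meet (lin B n + q') a)))
      refine le_trans (prob_mono fun n _ hn => ?_) (prob_or N _ _)
      by_cases hc : ∃ a ∈ F, Meet (lin A n + q) (a : ℤ)
      · right
        obtain ⟨a, ha, hna⟩ := hc
        refine ⟨a, ha, hn.1, hna, fun h5 => hn.2 ?_⟩
        exact Meet.trans hna (Meet.symm h5)
      · exact Or.inl ⟨hn.1, hc⟩
    have h6 : |∑ a ∈ F, prob N (fun n => 0 < s * (lin A n + q) ∧ Meet (lin A n + q) a) - p * ∑ a ∈ F, δ a|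
        ≤ ε / 3 * (#F / (#F + 1)) := by
      rw [mul_sum, ← sum_sub_distrib]
      refine (abs_sum_le_sum_abs _ _).trans ?_
      have h7 : ∀ a ∈ F, |prob N (fun n => 0 < s * (lin A n + q) ∧ Meet (lin A n + q) a) - p * δ a|
          ≤ ε / 3 / (#F + 1) := fun a ha => by rw [mul_comm p]; exact hN1 a ha
      refine (sum_le_sum h7).trans ?_
      rw [sum_const, nsmul_eq_mul]
      apply le_of_eq
      field_simp
    have h7 := (abs_le.1 h6).1
    rw [h4, ← hp] at h3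
    have h8 : p * (1 - ∑ a ∈ F, δ a) ≤ 1 * (ε / 3) := by
      have h9 : ∑ a ∈ F, δ a ≤ 1 := sum_le_hasSum F (fun a _ => (hδ a).1.le) hsum
      exact mul_le_mul hp1 (by linarith) (by linarith) zero_le_one
    linarith
  apply almost_of_eps
  intro ε hε
  have h0 := (prob_near hA q).eventually (eventually_le_nhds (show 0 < ε / 3 by positivity))
  filter_upwards [key 1 (Or.inl rfl) (ε / 3) (by positivity), key (-1) (Or.inr rfl) (ε / 3) (by positivity), h0]
    with N h1 h2 h3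
  have h4 := prob_or N (fun n => 0 < (1 : ℤ) * (lin A n + q) ∧ ¬ Meet (lin A n + q) (lin B n + q'))
    (fun n => 0 < (-1 : ℤ) * (lin A n + q) ∧ ¬ Meet (lin A n + q) (lin B n + q'))
  have h5 := prob_or N (fun n => (0 < (1 : ℤ) * (lin A n + q) ∧ ¬ Meet (lin A n + q) (lin B n + q'))
    ∨ (0 < (-1 : ℤ) * (lin A n + q) ∧ ¬ Meet (lin A n + q) (lin B n + q'))) (fun n => |lin A n| ≤ |q|)
  refine le_trans (prob_mono fun n _ hn => ?_) (h5.trans (by linarith))
  rcases lt_trichotomy (lin A n + q) 0 with h6 | h6 | h6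
  · exact Or.inl (Or.inr ⟨by linarith, hn⟩)
  · right
    have : lin A n = -q := by linarith
    rw [this, abs_neg]
  · exact Or.inl (Or.inl ⟨by linarith, hn⟩)

/-- the joint law for arbitrary forms -/
theorem joint_law (h : S_CONVU) {μ : ℤ → ℤ → ℝ} (hμ : Laws μ) {m k r : ℕ} {B : Fin m → Fin r → ℤ} (g : Fin k → Fin m)
    {A : Fin k → Fin r → ℤ} (q : Fin k → ℤ) (hB : ∀ b, B b ≠ 0) (hrel : ∀ a b, a ≠ b → ¬ Related (B a) (B b))
    (hAB : ∀ a, Related (A a) (B (g a))) {s : Fin m → ℤ} (hs : ∀ b, s b = 1 ∨ s b = -1) : JointLaw μ B g A q s := by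
  classical
  intro ε hε
  have hA : ∀ a, A a ≠ 0 := by
    intro a h0
    obtain ⟨w, x, y, z, e⟩ := hAB a
    apply hB (g a)
    funext j
    have h1 := e j
    rw [h0, Pi.zero_apply, zero_mul] at h1
    have h2 : ((2 : ℤ) ^ y * 3 ^ z) ≠ 0 := by positivity
    rcases mul_eq_zero.1 h1.symm with h3 | h3
    · exact h3
    · exact absurd h3 h2
  have h1 : AlmostAll fun n => ∀ a, Meet (lin (A a) n + q a) (lin (B (g a)) n + 0) := by
    have h2 : ∀ F : Finset (Fin k), AlmostAll fun n => ∀ a ∈ F, Meet (lin (A a) n + q a) (lin (B (g a)) n + 0) := by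
      intro F
      induction F using Finset.induction_on with
      | empty =>
        unfold AlmostAll
        refine tendsto_const_nhds.congr fun N => ?_
        rw [← prob_false (r := r) N]
        apply prob_congr
        intro n _
        simp
      | insert a F ha ih =>
        refine ((merge h (hA a) (hAB a) (q a) 0).and ih).mono fun n hn => ?_
        intro b hb
        rw [mem_insert] at hb
        rcases hb with rfl | hb
        · exact hn.1
        · exact hn.2 b hb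
    exact (h2 univ).mono fun n hn a => hn a (mem_univ a)
  have h2 := h1.eventually (eventually_le_nhds (show 0 < ε / 2 by positivity))
  filter_upwards [h2, law_unrelated h hμ hB hrel (fun _ => 0) hs (show 0 < ε / 2 by positivity)] with N hN1 hN2 K hK R hR
  obtain ⟨R', hR'⟩ : ∃ R' : Set (Fin m → ℤ), R' = {c : Fin m → ℤ | (fun a => c (g a)) ∈ R} := ⟨_, rfl⟩
  have h3 := hN2 K hK R' (by
    intro x y hxy
    rw [hR']
    exact hR _ _ fun a => hxy (g a))
  rw [← hR']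
  -- the two events
  have h4 := prob_split N (fun n => Mem K n ∧ (fun a => lin (A a) n + q a) ∈ R)
    (fun n => ∀ a, Meet (lin (A a) n + q a) (lin (B (g a)) n + 0))
  have h5 := prob_split N (fun n => Mem K n ∧ (fun b => lin (B b) n + 0) ∈ R')
    (fun n => ∀ a, Meet (lin (A a) n + q a) (lin (B (g a)) n + 0))
  have h6 : prob N (fun n => (Mem K n ∧ (fun a => lin (A a) n + q a) ∈ R) ∧ ∀ a, Meet (lin (A a) n + q a) (lin (B (g a)) n + 0))
      = prob N (fun n => (Mem K n ∧ (fun b => lin (B b) n + 0) ∈ R') ∧ ∀ a, Meet (lin (A a) n + q a) (lin (B (g a)) n + 0)) := by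
    apply prob_congr
    intro n _
    rw [hR']
    constructor
    · rintro ⟨⟨hk, h7⟩, h8⟩
      exact ⟨⟨hk, (hR _ _ h8).1 h7⟩, h8⟩
    · rintro ⟨⟨hk, h7⟩, h8⟩
      exact ⟨⟨hk, (hR _ _ h8).2 h7⟩, h8⟩
  have h7 : prob N (fun n => (Mem K n ∧ (fun a => lin (A a) n + q a) ∈ R) ∧ ¬ ∀ a, Meet (lin (A a) n + q a) (lin (B (g a)) n + 0)) ≤ ε / 2 :=
    (prob_mono fun n _ h => h.2).trans hN1
  have h8 : prob N (fun n => (Mem K n ∧ (fun b => lin (B b) n + 0) ∈ R') ∧ ¬ ∀ a, Meet (lin (A a) n + q a) (lin (B (g a)) n + 0)) ≤ ε / 2 :=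
    (prob_mono fun n _ h => h.2).trans hN1
  have h9 := prob_nonneg N (fun n => (Mem K n ∧ (fun a => lin (A a) n + q a) ∈ R) ∧ ¬ ∀ a, Meet (lin (A a) n + q a) (lin (B (g a)) n + 0))
  have h10 := prob_nonneg N (fun n => (Mem K n ∧ (fun b => lin (B b) n + 0) ∈ R') ∧ ¬ ∀ a, Meet (lin (A a) n + q a) (lin (B (g a)) n + 0))
  rw [abs_le] at h3 ⊢
  constructor <;> linarith [h3.1, h3.2]

theorem dens_unique {s : ℤ} {S : Set ℤ} {δ δ' : ℝ} (h : HasDensity s S δ) (h' : HasDensity s S δ') : δ = δ' :=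
  tendsto_nhds_unique h h'

theorem dens_compl {s : ℤ} {S : Set ℤ} {δ : ℝ} (hd : HasDensity s S δ) : HasDensity s Sᶜ (1 - δ) := by
  refine (hd.const_sub 1).congr' ?_
  filter_upwards [eventually_ge_atTop 1] with N hN
  exact (prob1_not hN fun n => s * n ∈ S).symm

/-- the density of an invariant set: existence, when it is `0`, when it is `1` -/
theorem dens_all {s : ℤ} (hs : s = 1 ∨ s = -1) {S : Set ℤ} (hS : Invariant S) :
    ∃ δ : ℝ, HasDensity s S δ ∧ 0 ≤ δ ∧ δ ≤ 1 ∧ (0 < δ ↔ ∃ x ∈ S, 0 < s * x) ∧ (δ = 1 ↔ ∀ x : ℤ, 0 < s * x → x ∈ S) := by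
  have hss : ∀ x : ℤ, s * (s * x) = x := by intro x; rcases hs with rfl | rfl <;> ring
  have key : ∀ {S : Set ℤ}, Invariant S → ∀ {δ : ℝ}, HasDensity s S δ → (∀ x ∈ S, ¬ 0 < s * x) → δ = 0 := by
    intro S hS δ hd hno
    have h1 : Tendsto (fun _ : ℕ => (0 : ℝ)) atTop (𝓝 δ) := by
      refine hd.congr fun N => ?_
      classical
      show prob1 N (fun n => s * n ∈ S) = 0
      rw [prob1_eq, filter_false_of_mem]
      · simp
      · intro n hn hnS
        rw [mem_Icc] at hn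
        exact hno _ hnS (by rw [hss]; exact_mod_cast hn.1)
    exact (tendsto_nhds_unique h1 tendsto_const_nhds)
  obtain ⟨δ, h0, h1, hpos, hm⟩ := mz_all hs hS
  obtain ⟨δ', h0', h1', hpos', hm'⟩ := mz_all hs (compl_inv hS)
  have hd := density_of_mz hm
  have hd' := density_of_mz hm'
  have e : 1 - δ = δ' := dens_unique (dens_compl hd) hd'
  refine ⟨δ, hd, h0, h1, ⟨fun h => ?_, hpos⟩, ⟨fun h x hx => ?_, fun h => ?_⟩⟩
  · by_contra hno
    push Not at hno
    have := key hS hd (fun x hx => not_lt.2 (hno x hx))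
    linarith
  · by_contra hxS
    have := hpos' ⟨x, hxS, hx⟩
    linarith
  · have := key (compl_inv hS) hd' (fun x hx hx' => hx (h x hx'))
    linarith


theorem dens_facts {s : ℤ} (hs : s = 1 ∨ s = -1) {S : Set ℤ} (hS : Invariant S) {δ : ℝ} (hd : HasDensity s S δ) :
    0 ≤ δ ∧ δ ≤ 1 ∧ MeanZero (fun x => (conj s S).indicator (fun _ => (1 : ℝ)) x - δ) := by
  obtain ⟨c, h0, h1, -, hm⟩ := mz_all hs hS
  rw [dens_unique hd (density_of_mz hm)]
  exact ⟨h0, h1, hm⟩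

/-- the product law for sets with given densities -/
theorem sets_law (h : S_CONVU) {k r : ℕ} {A : Fin k → Fin r → ℤ} (hA : ∀ a, A a ≠ 0)
    (hrel : ∀ a b, a ≠ b → ¬ Related (A a) (A b)) (q : Fin k → ℤ) {s : Fin k → ℤ} (hs : ∀ a, s a = 1 ∨ s a = -1)
    {S : Fin k → Set ℤ} (hS : ∀ a, Invariant (S a)) {δ : Fin k → ℝ} (hd : ∀ a, HasDensity (s a) (S a) (δ a)) {ε : ℝ} (hε : 0 < ε) :
    ∀ᶠ N : ℕ in atTop, ∀ K : Set (Fin r → ℝ), Region A 0 s K →
      |prob N (fun n => Mem K n ∧ ∀ a, lin (A a) n + q a ∈ S a) - prob N (fun n => Mem K n) * ∏ a, δ a| ≤ ε := by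
  have h1 := fun a => dens_facts (hs a) (hS a) (hd a)
  filter_upwards [reg_sets h hA hrel q hs hS (fun a => ⟨(h1 a).1, (h1 a).2.1⟩) (fun a => (h1 a).2.2) hε] with N hN K hK
  rw [mul_comm (prob N fun n => Mem K n)]
  exact hN K hK

/-- the same uniformly in the constants -/
theorem sets_lawU (h : S_CONVU) {k r : ℕ} {A : Fin k → Fin r → ℤ} (hA : ∀ a, A a ≠ 0)
    (hrel : ∀ a b, a ≠ b → ¬ Related (A a) (A b)) {s : Fin k → ℤ} (hs : ∀ a, s a = 1 ∨ s a = -1)
    {S : Fin k → Set ℤ} (hS : ∀ a, Invariant (S a)) {δ : Fin k → ℝ} (hd : ∀ a, HasDensity (s a) (S a) (δ a)) {ε : ℝ} (hε : 0 < ε)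
    (H : ℕ) : ∀ᶠ N : ℕ in atTop, ∀ q : Fin k → ℤ, (∀ a, |q a| ≤ H * N) → ∀ K : Set (Fin r → ℝ), Region A q s K →
      |prob N (fun n => Mem K n ∧ ∀ a, lin (A a) n + q a ∈ S a) - prob N (fun n => Mem K n) * ∏ a, δ a| ≤ ε := by
  have h1 := fun a => dens_facts (hs a) (hS a) (hd a)
  filter_upwards [reg_setsU h hA hrel hs hS (fun a => ⟨(h1 a).1, (h1 a).2.1⟩) (fun a => (h1 a).2.2) H hε] with N hN q hq K hK
  rw [mul_comm (prob N fun n => Mem K n)]
  exact hN q hq K hK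

/-- the region where both forms have the given signs -/
def cone {r : ℕ} (A B : Fin r → ℤ) (s t : ℤ) : Set (Fin r → ℝ) :=
  {x | 0 < (s : ℝ) * ∑ j, (A j : ℝ) * x j ∧ 0 < (t : ℝ) * ∑ j, (B j : ℝ) * x j}

theorem half_convex {r : ℕ} (A : Fin r → ℤ) (s : ℤ) : Convex ℝ {x : Fin r → ℝ | 0 < (s : ℝ) * ∑ j, (A j : ℝ) * x j} := by
  intro x hx y hy a b ha hb hab
  have hx' : 0 < (s : ℝ) * ∑ j, (A j : ℝ) * x j := hx
  have hy' : 0 < (s : ℝ) * ∑ j, (A j : ℝ) * y j := hy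
  show 0 < (s : ℝ) * ∑ j, (A j : ℝ) * (a • x + b • y) j
  have e : (s : ℝ) * ∑ j, (A j : ℝ) * (a • x + b • y) j
      = a * ((s : ℝ) * ∑ j, (A j : ℝ) * x j) + b * ((s : ℝ) * ∑ j, (A j : ℝ) * y j) := by
    simp only [mul_sum, ← sum_add_distrib]
    apply sum_congr rfl
    intro j _
    simp only [Pi.add_apply, Pi.smul_apply, smul_eq_mul]
    ring
  rw [e]
  rcases ha.eq_or_lt with h | h
  · rw [← h, zero_mul, zero_add]
    rw [← h, zero_add] at hab
    rw [hab, one_mul]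
    exact hy'
  · have := mul_pos h hx'
    have := mul_nonneg hb hy'.le
    linarith

theorem cone_region {r : ℕ} (A B : Fin r → ℤ) (s t : ℤ) : Region ![A, B] 0 ![s, t] (cone A B s t) := by
  refine ⟨(half_convex A s).inter (half_convex B t), fun x hx b => ?_⟩
  rw [Pi.zero_apply, Int.cast_zero, add_zero]
  fin_cases b
  · exact hx.1
  · exact hx.2

theorem cone_mem {r : ℕ} {A B : Fin r → ℤ} {s t : ℤ} (n : Fin r → ℤ) :
    Mem (cone A B s t) n ↔ 0 < s * lin A n ∧ 0 < t * lin B n := by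
  have h2 : ∀ (A : Fin r → ℤ) (s : ℤ), (s : ℝ) * ∑ j, (A j : ℝ) * (n j : ℝ) = ((s * lin A n : ℤ) : ℝ) := by
    intro A s
    unfold lin
    push_cast
    rfl
  show (0 < (s : ℝ) * ∑ j, (A j : ℝ) * (n j : ℝ) ∧ 0 < (t : ℝ) * ∑ j, (B j : ℝ) * (n j : ℝ)) ↔ _
  rw [h2, h2, Int.cast_pos, Int.cast_pos]

theorem diag_sum {μ : ℤ → ℤ → ℝ} (hμ : Laws μ) {s : ℤ} (hs : s = 1 ∨ s = -1) :
    ∑' c : Fin 2 → ℤ, {p : Fin 2 → ℤ | Meet (p 0) (p 1)}.indicator (fun c => ∏ b, μ (![s, s] b) (c b)) c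
      = ∑' a, μ s a ^ 2 := by
  classical
  have hinj : Function.Injective (fun a : ℤ => (fun _ : Fin 2 => a)) := fun a b hab => congrFun hab 0
  rw [← hinj.tsum_eq]
  · apply tsum_congr
    intro a
    rw [Set.indicator_of_mem (show (fun _ : Fin 2 => a) ∈ {p : Fin 2 → ℤ | Meet (p 0) (p 1)} from ⟨0, 0, rfl⟩)]
    rw [Fin.prod_univ_two]
    show μ s a * μ s a = _
    ring
  · intro c hc
    rw [Function.mem_support] at hc
    have h1 : Meet (c 0) (c 1) := by
      by_contra h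
      exact hc (Set.indicator_of_notMem (s := {p : Fin 2 → ℤ | Meet (p 0) (p 1)}) (a := c) h _)
    rw [Set.indicator_of_mem (s := {p : Fin 2 → ℤ | Meet (p 0) (p 1)}) (a := c) h1, Fin.prod_univ_two] at hc
    have h2 : μ s (c 0) ≠ 0 := fun h => hc (by show μ s (c 0) * μ s (c 1) = 0; rw [h, zero_mul])
    have h3 : μ s (c 1) ≠ 0 := fun h => hc (by show μ s (c 0) * μ s (c 1) = 0; rw [h, mul_zero])
    have h4 : IsRep s (c 0) := by by_contra h; exact h2 (hμ.non _ _ h)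
    have h5 : IsRep s (c 1) := by by_contra h; exact h3 (hμ.non _ _ h)
    refine ⟨c 0, ?_⟩
    funext i
    fin_cases i
    · rfl
    · exact rep_unique hs h4 h5 h1

theorem pair_rel {r : ℕ} {A B : Fin r → ℤ} (hAB : ¬ Related A B) :
    ∀ a b, a ≠ b → ¬ Related ((![A, B] : Fin 2 → Fin r → ℤ) a) ((![A, B] : Fin 2 → Fin r → ℤ) b) := by
  intro a b hab
  fin_cases a <;> fin_cases b
  · exact absurd rfl hab
  · exact hAB
  · exact fun h => hAB (rel_symm h)
  · exact absurd rfl hab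

theorem pair_ne {r : ℕ} {A B : Fin r → ℤ} (hA : A ≠ 0) (hB : B ≠ 0) : ∀ a, (![A, B] : Fin 2 → Fin r → ℤ) a ≠ 0 := by
  intro a; fin_cases a
  · exact hA
  · exact hB

theorem pair_sgn {s t : ℤ} (hs : s = 1 ∨ s = -1) (ht : t = 1 ∨ t = -1) : ∀ a, (![s, t] : Fin 2 → ℤ) a = 1 ∨ (![s, t] : Fin 2 → ℤ) a = -1 := by
  intro a; fin_cases a
  · exact hs
  · exact ht

/-- meetings of unrelated forms -/
theorem meet_lim (h : S_CONVU) {μ : ℤ → ℤ → ℝ} (hμ : Laws μ) {r : ℕ} {A B : Fin r → ℤ} (hA : A ≠ 0) (hB : B ≠ 0)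
    (hAB : ¬ Related A B) {s : ℤ} (hs : s = 1 ∨ s = -1) (q q' : ℤ) {ε : ℝ} (hε : 0 < ε) :
    ∀ᶠ N : ℕ in atTop, ∀ K : Set (Fin r → ℝ), Region ![A, B] 0 ![s, s] K →
      |prob N (fun n => Mem K n ∧ Meet (lin A n + q) (lin B n + q')) - prob N (fun n => Mem K n) * ∑' a, μ s a ^ 2| ≤ ε := by
  filter_upwards [law_unrelated h hμ (B := ![A, B]) (pair_ne hA hB) (pair_rel hAB) ![q, q'] (s := ![s, s]) (pair_sgn hs hs) hε]
    with N hN K hK
  have h1 := hN K hK {p : Fin 2 → ℤ | Meet (p 0) (p 1)} (by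
    intro x y hxy
    exact ⟨fun h => ((hxy 0).symm.trans h).trans (hxy 1), fun h => ((hxy 0).trans h).trans (hxy 1).symm⟩)
  rw [diag_sum hμ hs] at h1
  exact h1

/-- meetings of unrelated forms, uniformly in the constants -/
theorem meet_limU (h : S_CONVU) {μ : ℤ → ℤ → ℝ} (hμ : Laws μ) {r : ℕ} {A B : Fin r → ℤ} (hA : A ≠ 0) (hB : B ≠ 0)
    (hAB : ¬ Related A B) {s : ℤ} (hs : s = 1 ∨ s = -1) {ε : ℝ} (hε : 0 < ε) (H : ℕ) :
    ∀ᶠ N : ℕ in atTop, ∀ q q' : ℤ, |q| ≤ H * N → |q'| ≤ H * N → ∀ K : Set (Fin r → ℝ), Region ![A, B] ![q, q'] ![s, s] K →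
      |prob N (fun n => Mem K n ∧ Meet (lin A n + q) (lin B n + q')) - prob N (fun n => Mem K n) * ∑' a, μ s a ^ 2| ≤ ε := by
  filter_upwards [law_unrelatedU h hμ (B := ![A, B]) (pair_ne hA hB) (pair_rel hAB) (s := ![s, s]) (pair_sgn hs hs) ε hε H]
    with N hN q q' hq hq' K hK
  have h1 := hN ![q, q'] (by intro a; fin_cases a; exacts [hq, hq']) K hK {p : Fin 2 → ℤ | Meet (p 0) (p 1)} (by
    intro x y hxy
    exact ⟨fun h => ((hxy 0).symm.trans h).trans (hxy 1), fun h => ((hxy 0).trans h).trans (hxy 1).symm⟩)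
  rw [diag_sum hμ hs] at h1
  exact h1

/-- the product law for two sets on the cone -/
theorem pair_law (h : S_CONVU) {r : ℕ} {A B : Fin r → ℤ} (hA : A ≠ 0) (hB : B ≠ 0) (hAB : ¬ Related A B) (q q' : ℤ)
    {s t : ℤ} (hs : s = 1 ∨ s = -1) (ht : t = 1 ∨ t = -1) {S T : Set ℤ}
    (hS : Invariant S) (hT : Invariant T) {δ δ' : ℝ} (hd : HasDensity s S δ) (hd' : HasDensity t T δ') {ε : ℝ} (hε : 0 < ε) :
    ∀ᶠ N : ℕ in atTop, |prob N (fun n => (0 < s * lin A n ∧ 0 < t * lin B n) ∧ lin A n + q ∈ S ∧ lin B n + q' ∈ T)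
      - prob N (fun n => 0 < s * lin A n ∧ 0 < t * lin B n) * (δ * δ')| ≤ ε := by
  filter_upwards [sets_law h (A := ![A, B]) (pair_ne hA hB) (pair_rel hAB) ![q, q'] (s := ![s, t]) (pair_sgn hs ht)
    (S := ![S, T]) (by intro a; fin_cases a; exacts [hS, hT]) (δ := ![δ, δ']) (by intro a; fin_cases a; exacts [hd, hd']) hε]
    with N hN
  have h1 := hN _ (cone_region A B s t)
  rw [Fin.prod_univ_two] at h1
  have e1 : prob N (fun n => Mem (cone A B s t) n ∧ ∀ a, lin ((![A, B] : Fin 2 → Fin r → ℤ) a) n + (![q, q'] : Fin 2 → ℤ) a ∈ (![S, T] : Fin 2 → Set ℤ) a)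
      = prob N (fun n => (0 < s * lin A n ∧ 0 < t * lin B n) ∧ lin A n + q ∈ S ∧ lin B n + q' ∈ T) := by
    apply prob_congr
    intro n _
    rw [cone_mem, Fin.forall_fin_two]
    exact Iff.rfl
  have e2 : prob N (fun n => Mem (cone A B s t) n) = prob N (fun n => 0 < s * lin A n ∧ 0 < t * lin B n) := by
    apply prob_congr
    intro n _
    exact cone_mem n
  rw [e1, e2] at h1
  exact h1

theorem theta_facts {μ : ℤ → ℤ → ℝ} (hμ : Laws μ) {s : ℤ} (hs : s = 1 ∨ s = -1) :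
    Summable (fun a => μ s a ^ 2) ∧ 0 < ∑' a, μ s a ^ 2 ∧ ∑' a, μ s a ^ 2 ≤ 1 ∧
      (∑' a, μ s a ^ 2 = 1 ↔ ∀ x y : ℤ, 0 < s * x → 0 < s * y → Meet x y) := by
  classical
  have hsum := hμ.sum s hs
  have hsq_le : ∀ a, μ s a ^ 2 ≤ μ s a := fun a => by
    by_cases ha : IsRep s a
    · have := hμ.rep s hs a ha; nlinarith [this.1, this.2.1]
    · rw [hμ.non s a ha]; norm_num
  have hsq : Summable (fun a => μ s a ^ 2) :=
    Summable.of_nonneg_of_le (fun a => sq_nonneg _) hsq_le hsum.summable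
  have hle : ∑' a, μ s a ^ 2 ≤ 1 := by
    rw [← hsum.tsum_eq]
    exact hsq.tsum_le_tsum hsq_le hsum.summable
  have hs1 : 0 < s * s := by rcases hs with rfl | rfl <;> norm_num
  obtain ⟨a0, ha0, _⟩ := exists_rep hs hs1
  refine ⟨hsq, hsq.tsum_pos (fun a => sq_nonneg _) a0 (pow_pos (hμ.rep s hs a0 ha0).1 2), hle, ?_⟩
  constructor
  · intro h1 x y hx hy
    have h2 : HasSum (fun a => μ s a - μ s a ^ 2) 0 := by
      have := hsum.sub hsq.hasSum
      rwa [h1, sub_self] at this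
    have h3 := (hasSum_zero_iff_of_nonneg (fun a => by have := hsq_le a; show 0 ≤ μ s a - μ s a ^ 2; linarith)).1 h2
    have h4 : ∀ a, IsRep s a → μ s a = 1 := by
      intro a ha
      have h5 := congrFun h3 a
      simp only [Pi.zero_apply] at h5
      have h6 := (hμ.rep s hs a ha).1
      have h7 : μ s a * (1 - μ s a) = 0 := by linarith
      rcases mul_eq_zero.1 h7 with h8 | h8 <;> linarith
    have h5 : ∀ a b : ℤ, IsRep s a → IsRep s b → a = b := by
      intro a b ha hb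
      by_contra hab
      have h6 := sum_le_hasSum {a, b} (fun c _ => hμ.nonneg hs c) hsum
      rw [sum_pair hab, h4 a ha, h4 b hb] at h6
      norm_num at h6
    obtain ⟨a, ha, hxa⟩ := exists_rep hs hx
    obtain ⟨b, hb, hyb⟩ := exists_rep hs hy
    rw [← h5 a b ha hb] at hyb
    exact hxa.trans hyb.symm
  · intro hall
    have h5 : ∀ b : ℤ, b ≠ a0 → μ s b = 0 := fun b hb => by
      apply hμ.non
      intro hb'
      exact hb (rep_unique hs hb' ha0 (hall _ _ hb'.1 ha0.1))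
    have h6 : ∑' a, μ s a = μ s a0 := tsum_eq_single _ fun b hb => h5 b hb
    have h7 : ∑' a, μ s a ^ 2 = μ s a0 ^ 2 := tsum_eq_single _ fun b hb => by rw [h5 b hb]; norm_num
    rw [hsum.tsum_eq] at h6
    rw [h7, ← h6]; norm_num

/-! ### the conjecture of Collatz -/

theorem C3_one (l : ℕ) : C^[3 * l] 1 = 1 := by
  induction l with
  | zero => rfl
  | succ l ih => rw [Nat.mul_succ, Function.iterate_add_apply]; exact ih

theorem meet_one (x : ℤ) : Meet x 1 ↔ ∃ k : ℕ, C^[k] x = 1 := by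
  constructor
  · rintro ⟨k, l, h⟩
    refine ⟨2 * l + k, ?_⟩
    rw [Function.iterate_add_apply, h, ← Function.iterate_add_apply, show 2 * l + l = 3 * l by ring, C3_one]
  · rintro ⟨k, h⟩
    exact ⟨k, 0, h⟩

theorem all_meet_iff : (∀ x y : ℤ, 0 < (1 : ℤ) * x → 0 < (1 : ℤ) * y → Meet x y) ↔ ∀ x : ℤ, 0 < x → ∃ k : ℕ, C^[k] x = 1 := by
  simp only [one_mul]
  constructor
  · intro h x hx
    exact (meet_one x).1 (h x 1 hx one_pos)
  · intro h x y hx hy
    exact ((meet_one x).2 (h x hx)).trans ((meet_one y).2 (h y hy)).symm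

theorem not_all_meet : ¬ ∀ x y : ℤ, 0 < (-1 : ℤ) * x → 0 < (-1 : ℤ) * y → Meet x y := by
  intro h
  obtain ⟨k, l, hkl⟩ := h (-1) (-5) (by norm_num) (by norm_num)
  have h1 : ∀ k : ℕ, C^[k] (-1) ∈ ({-1, -2} : Finset ℤ) := by
    intro k
    induction k with
    | zero => decide
    | succ k ih =>
      rw [Function.iterate_succ_apply']
      have : ∀ x ∈ ({-1, -2} : Finset ℤ), C x ∈ ({-1, -2} : Finset ℤ) := by decide
      exact this _ ih
  have h2 : ∀ k : ℕ, C^[k] (-5) ∈ ({-5, -14, -7, -20, -10} : Finset ℤ) := by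
    intro k
    induction k with
    | zero => decide
    | succ k ih =>
      rw [Function.iterate_succ_apply']
      have : ∀ x ∈ ({-5, -14, -7, -20, -10} : Finset ℤ), C x ∈ ({-5, -14, -7, -20, -10} : Finset ℤ) := by decide
      exact this _ ih
  have h3 := h1 k
  rw [hkl] at h3
  have h4 : Disjoint ({-1, -2} : Finset ℤ) ({-5, -14, -7, -20, -10} : Finset ℤ) := by decide
  exact disjoint_left.1 h4 h3 (h2 l)

/-! ### equivalences -/

/-- there are many points in the cone -/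
def S_CONE : Prop := ∀ (k r : ℕ) (L : Fin k → Fin r → ℤ) (σ : Fin k → ℤ) (w : Fin r → ℤ), (∀ j, 0 < w j) →
  (∀ a, 0 < σ a * SH6.lf (L a) w) → (∀ a, σ a = 1 ∨ σ a = -1) →
  ∃ c : ℝ, 0 < c ∧ ∀ᶠ N : ℕ in atTop, c * (N : ℝ) ^ r ≤ #{n ∈ SH6.Bx r N | ∀ a, 0 < σ a * SH6.lf (L a) n}

theorem cone_prob (hc : S_CONE) {r : ℕ} {A B : Fin r → ℤ} {s t : ℤ} (hs : s = 1 ∨ s = -1) (ht : t = 1 ∨ t = -1)
    {w : Fin r → ℤ} (hw : ∀ j, 0 < w j) (hA : 0 < s * lin A w) (hB : 0 < t * lin B w) :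
    ∃ c : ℝ, 0 < c ∧ ∀ᶠ N : ℕ in atTop, c ≤ prob N (fun n => 0 < s * lin A n ∧ 0 < t * lin B n) := by
  classical
  obtain ⟨c, hc0, h1⟩ := hc 2 r ![A, B] ![s, t] w hw (by intro a; fin_cases a; exacts [hA, hB]) (pair_sgn hs ht)
  refine ⟨c, hc0, ?_⟩
  filter_upwards [h1, eventually_ge_atTop 1] with N hN hN1
  have hNr : (0 : ℝ) < (N : ℝ) ^ r := by
    have : (0 : ℝ) < N := by exact_mod_cast hN1
    positivity
  rw [prob_eq, le_div_iff₀ hNr]
  refine hN.trans ?_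
  have : #{n ∈ SH6.Bx r N | ∀ a, 0 < (![s, t] : Fin 2 → ℤ) a * SH6.lf ((![A, B] : Fin 2 → Fin r → ℤ) a) n}
      ≤ #{n ∈ SH6.Bx r N | 0 < s * lin A n ∧ 0 < t * lin B n} := by
    apply card_le_card
    intro n hn
    rw [mem_filter] at hn ⊢
    exact ⟨hn.1, hn.2 0, hn.2 1⟩
  exact_mod_cast this

theorem lim_iff {P p : ℕ → ℝ} {x c : ℝ} (h : ∀ ε : ℝ, 0 < ε → ∀ᶠ N : ℕ in atTop, |P N - p N * x| ≤ ε) (hc : 0 < c)
    (hpc : ∀ᶠ N : ℕ in atTop, c ≤ p N) (hx : 0 ≤ x) : Tendsto P atTop (𝓝 0) ↔ x = 0 := by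
  constructor
  · intro h1
    by_contra hne
    have hx' : 0 < x := lt_of_le_of_ne hx (Ne.symm hne)
    have hcx : 0 < c * x := mul_pos hc hx'
    have h2 := h1.eventually (eventually_le_nhds (show 0 < c * x / 3 by positivity))
    obtain ⟨N, hN1, hN2, hN3⟩ := ((h (c * x / 3) (by positivity)).and (h2.and hpc)).exists
    have h3 := (abs_le.1 hN1).1
    have h4 := mul_le_mul_of_nonneg_right hN3 hx
    linarith
  · rintro rfl
    rw [Metric.tendsto_atTop]
    intro ε hε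
    obtain ⟨N0, hN0⟩ := eventually_atTop.1 (h (ε / 2) (by positivity))
    refine ⟨N0, fun N hN => ?_⟩
    have h1 := hN0 N hN
    rw [mul_zero, sub_zero] at h1
    rw [Real.dist_eq, sub_zero]
    linarith

theorem imp_law (h : S_CONVU) (hc : S_CONE) {r : ℕ} {A B : Fin r → ℤ} (hA : A ≠ 0) (hB : B ≠ 0) (hAB : ¬ Related A B)
    (q q' : ℤ) {s t : ℤ} (hs : s = 1 ∨ s = -1) (ht : t = 1 ∨ t = -1) {w : Fin r → ℤ} (hw : ∀ j, 0 < w j)
    (hwA : 0 < s * lin A w) (hwB : 0 < t * lin B w) {S : Set ℤ} (hS : Invariant S) (hex : ∃ x ∈ S, 0 < s * x) :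
    (∀ x : ℤ, 0 < t * x → x ∈ S) ↔
      AlmostAll fun n => 0 < s * lin A n → 0 < t * lin B n → lin A n + q ∈ S → lin B n + q' ∈ S := by
  obtain ⟨c, hc0, hcp⟩ := cone_prob hc hs ht hw hwA hwB
  obtain ⟨δ, hd, h0, h1, hp, _⟩ := dens_all hs hS
  obtain ⟨δ', hd', h0', h1', _, hf'⟩ := dens_all ht hS
  have hδ := hp.2 hex
  have h2 : ∀ ε : ℝ, 0 < ε → ∀ᶠ N : ℕ in atTop,
      |prob N (fun n => ¬ (0 < s * lin A n → 0 < t * lin B n → lin A n + q ∈ S → lin B n + q' ∈ S))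
        - prob N (fun n => 0 < s * lin A n ∧ 0 < t * lin B n) * (δ * (1 - δ'))| ≤ ε := by
    intro ε hε
    filter_upwards [pair_law h hA hB hAB q q' hs ht hS (compl_inv hS) hd (dens_compl hd') hε] with N hN
    have e : prob N (fun n => ¬ (0 < s * lin A n → 0 < t * lin B n → lin A n + q ∈ S → lin B n + q' ∈ S))
        = prob N (fun n => (0 < s * lin A n ∧ 0 < t * lin B n) ∧ lin A n + q ∈ S ∧ lin B n + q' ∈ Sᶜ) := by
      apply prob_congr
      intro n _
      rw [Set.mem_compl_iff]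
      tauto
    rw [e]
    exact hN
  unfold AlmostAll
  rw [lim_iff h2 hc0 hcp (mul_nonneg h0 (by linarith)), ← hf']
  constructor
  · intro h3; rw [h3]; ring
  · intro h3
    rcases mul_eq_zero.1 h3 with h4 | h4 <;> linarith

theorem iff_law (h : S_CONVU) (hc : S_CONE) {r : ℕ} {A B : Fin r → ℤ} (hA : A ≠ 0) (hB : B ≠ 0) (hAB : ¬ Related A B)
    (q q' : ℤ) {s t : ℤ} (hs : s = 1 ∨ s = -1) (ht : t = 1 ∨ t = -1) {w : Fin r → ℤ} (hw : ∀ j, 0 < w j)
    (hwA : 0 < s * lin A w) (hwB : 0 < t * lin B w) {S : Set ℤ} (hS : Invariant S) (hex : ∃ x ∈ S, 0 < s * x)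
    (hex' : ∃ x ∈ S, 0 < t * x) :
    (∀ x : ℤ, 0 < s * x ∨ 0 < t * x → x ∈ S) ↔
      AlmostAll fun n => 0 < s * lin A n → 0 < t * lin B n → (lin A n + q ∈ S ↔ lin B n + q' ∈ S) := by
  constructor
  · intro hall
    have h1 := (imp_law h hc hA hB hAB q q' hs ht hw hwA hwB hS hex).1 fun x hx => hall x (Or.inr hx)
    have h2 := (imp_law h hc hB hA (fun h => hAB (rel_symm h)) q' q ht hs hw hwB hwA hS hex').1 fun x hx => hall x (Or.inl hx)
    exact (h1.and h2).mono fun n hn hn1 hn2 => ⟨hn.1 hn1 hn2, hn.2 hn2 hn1⟩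
  · intro hall x hx
    rcases hx with hx | hx
    · exact (imp_law h hc hB hA (fun h => hAB (rel_symm h)) q' q ht hs hw hwB hwA hS hex').2
        (hall.mono fun n hn hn1 hn2 => (hn hn2 hn1).2) x hx
    · exact (imp_law h hc hA hB hAB q q' hs ht hw hwA hwB hS hex).2 (hall.mono fun n hn hn1 hn2 => (hn hn1 hn2).1) x hx

theorem collatz_law (h : S_CONVU) (hc : S_CONE) {μ : ℤ → ℤ → ℝ} (hμ : Laws μ) {r : ℕ} {A B : Fin r → ℤ} (hA : A ≠ 0)
    (hB : B ≠ 0) (hAB : ¬ Related A B) (q q' : ℤ) {w : Fin r → ℤ} (hw : ∀ j, 0 < w j) (hwA : 0 < lin A w) (hwB : 0 < lin B w) :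
    (∀ x : ℤ, 0 < x → ∃ k : ℕ, C^[k] x = 1) ↔
      AlmostAll fun n => 0 < lin A n → 0 < lin B n → Meet (lin A n + q) (lin B n + q') := by
  have h1' : (1 : ℤ) = 1 ∨ (1 : ℤ) = -1 := Or.inl rfl
  obtain ⟨c, hc0, hcp⟩ := cone_prob hc (A := A) (B := B) h1' h1' hw (by rwa [one_mul]) (by rwa [one_mul])
  have hle := (theta_facts hμ h1').2.2.1
  have h2 : ∀ ε : ℝ, 0 < ε → ∀ᶠ N : ℕ in atTop,
      |prob N (fun n => ¬ (0 < lin A n → 0 < lin B n → Meet (lin A n + q) (lin B n + q')))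
        - prob N (fun n => 0 < (1 : ℤ) * lin A n ∧ 0 < (1 : ℤ) * lin B n) * (1 - ∑' a, μ 1 a ^ 2)| ≤ ε := by
    intro ε hε
    filter_upwards [meet_lim h hμ hA hB hAB h1' q q' hε] with N hN
    have h3 := hN _ (cone_region A B 1 1)
    have e1 : prob N (fun n => Mem (cone A B 1 1) n) = prob N (fun n => 0 < (1 : ℤ) * lin A n ∧ 0 < (1 : ℤ) * lin B n) :=
      prob_congr fun n _ => cone_mem n
    have e2 := prob_split N (fun n => Mem (cone A B 1 1) n) (fun n => Meet (lin A n + q) (lin B n + q'))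
    have e3 : prob N (fun n => ¬ (0 < lin A n → 0 < lin B n → Meet (lin A n + q) (lin B n + q')))
        = prob N (fun n => Mem (cone A B 1 1) n ∧ ¬ Meet (lin A n + q) (lin B n + q')) := by
      apply prob_congr
      intro n _
      rw [cone_mem, one_mul, one_mul]
      tauto
    rw [e3, ← e1]
    rw [abs_le] at h3 ⊢
    constructor <;> linarith [h3.1, h3.2]
  unfold AlmostAll
  rw [lim_iff h2 hc0 hcp (by linarith), ← all_meet_iff, ← (theta_facts hμ h1').2.2.2]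
  constructor
  · intro h3; rw [h3]; ring
  · intro h3; linarith

theorem q1_law (h : S_CONVU) (hc : S_CONE) {r : ℕ} {A B : Fin r → ℤ} (hA : A ≠ 0) (hB : B ≠ 0) (hAB : ¬ Related A B)
    (q q' : ℤ) {w : Fin r → ℤ} (hw : ∀ j, 0 < w j) (hwAB : lin A w * lin B w < 0) :
    (∀ x : ℤ, Reaches x) ↔
      AlmostAll fun n => lin A n * lin B n < 0 → (Reaches (lin A n + q) ↔ Reaches (lin B n + q')) := by
  constructor
  · intro hall
    unfold AlmostAll
    refine tendsto_const_nhds.congr fun N => ?_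
    rw [← prob_false (r := r) N]
    apply prob_congr
    intro n _
    have := hall (lin A n + q)
    have := hall (lin B n + q')
    tauto
  · intro hall
    have hm : ∀ u : ℤ, u = 1 ∨ u = -1 → ∃ x ∈ {x | Reaches x}, 0 < u * x := by
      intro u hu
      rcases hu with rfl | rfl
      · exact ⟨1, ⟨0, by decide⟩, by norm_num⟩
      · exact ⟨-1, ⟨0, by decide⟩, by norm_num⟩
    obtain ⟨s, hs, hsA, hsB⟩ : ∃ s : ℤ, (s = 1 ∨ s = -1) ∧ 0 < s * lin A w ∧ 0 < (-s) * lin B w := by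
      rcases mul_neg_iff.1 hwAB with ⟨h1, h2⟩ | ⟨h1, h2⟩
      · exact ⟨1, Or.inl rfl, by linarith, by linarith⟩
      · exact ⟨-1, Or.inr rfl, by linarith, by linarith⟩
    have hs' : -s = 1 ∨ -s = -1 := by rcases hs with rfl | rfl <;> norm_num
    have h1 := (iff_law h hc hA hB hAB q q' hs hs' hw hsA hsB reaches_inv (hm _ hs) (hm _ hs')).2
      (hall.mono fun n hn h2 h3 => hn (by
        rcases hs with rfl | rfl
        · exact mul_neg_of_pos_of_neg (by linarith) (by linarith)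
        · exact mul_neg_of_neg_of_pos (by linarith) (by linarith)))
    intro x
    by_cases hx : x = 0
    · rw [hx]; exact ⟨0, by decide⟩
    · apply h1
      rcases hs with rfl | rfl <;> omega

/-! ### sums -/

theorem sum_rel {s : ℤ} (hs : s = 1 ∨ s = -1) : ¬ Related (![s] : Fin 1 → ℤ) ![-s] := by
  rintro ⟨w, x, y, z, h⟩
  have h1 := h 0
  simp only [Matrix.cons_val_fin_one] at h1
  have h2 : (0 : ℤ) < 2 ^ w * 3 ^ x := by positivity
  have h3 : (0 : ℤ) < 2 ^ y * 3 ^ z := by positivity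
  rcases hs with rfl | rfl <;> linarith

theorem sum_ne {s : ℤ} (hs : s = 1 ∨ s = -1) : (![s] : Fin 1 → ℤ) ≠ 0 ∧ (![-s] : Fin 1 → ℤ) ≠ 0 := by
  constructor <;> intro h <;> have h1 := congrFun h 0 <;>
    simp only [Matrix.cons_val_fin_one, Pi.zero_apply] at h1 <;> rcases hs with rfl | rfl <;> omega

/-- the interval `(0, N)` -/
def openN (N : ℕ) : Set (Fin 1 → ℝ) := {x | 0 < x 0 ∧ x 0 < N}

theorem openN_region {s : ℤ} (hs : s = 1 ∨ s = -1) (N : ℕ) :
    Region ![(![s] : Fin 1 → ℤ), ![-s]] ![0, s * (N : ℤ)] ![s, s] (openN N) := by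
  constructor
  · intro x hx y hy a b ha hb hab
    obtain ⟨hx1, hx2⟩ := hx
    obtain ⟨hy1, hy2⟩ := hy
    show 0 < a * x 0 + b * y 0 ∧ a * x 0 + b * y 0 < N
    constructor
    · rcases ha.eq_or_lt with h | h
      · rw [← h, zero_add] at hab
        rw [← h, hab]; linarith
      · have := mul_pos h hx1
        have := mul_nonneg hb hy1.le
        linarith
    · rcases ha.eq_or_lt with h | h
      · rw [← h, zero_add] at hab
        rw [← h, hab]; linarith
      · have h1 := mul_lt_mul_of_pos_left hx2 h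
        have h2 := mul_le_mul_of_nonneg_left hy2.le hb
        have h3 : a * (N : ℝ) + b * N = N := by rw [← add_mul, hab, one_mul]
        linarith
  · intro x hx b
    obtain ⟨hx1, hx2⟩ := hx
    have hss : (s : ℝ) * s = 1 := by rcases hs with rfl | rfl <;> norm_num
    fin_cases b
    · have e : ((![s, s] : Fin 2 → ℤ) 0 : ℝ) * (∑ j, (((![(![s] : Fin 1 → ℤ), ![-s]] : Fin 2 → Fin 1 → ℤ) 0 j : ℤ) : ℝ) * x j
          + ((![0, s * (N : ℤ)] : Fin 2 → ℤ) 0 : ℤ)) = (s * s : ℝ) * x 0 := by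
        simp [Finset.univ_unique]; ring
      show 0 < ((![s, s] : Fin 2 → ℤ) 0 : ℝ) * (∑ j, (((![(![s] : Fin 1 → ℤ), ![-s]] : Fin 2 → Fin 1 → ℤ) 0 j : ℤ) : ℝ) * x j
          + ((![0, s * (N : ℤ)] : Fin 2 → ℤ) 0 : ℤ))
      rw [e, hss, one_mul]
      exact hx1
    · have e : ((![s, s] : Fin 2 → ℤ) 1 : ℝ) * (∑ j, (((![(![s] : Fin 1 → ℤ), ![-s]] : Fin 2 → Fin 1 → ℤ) 1 j : ℤ) : ℝ) * x j
          + ((![0, s * (N : ℤ)] : Fin 2 → ℤ) 1 : ℤ)) = (s * s : ℝ) * (N - x 0) := by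
        simp [Finset.univ_unique]; ring
      show 0 < ((![s, s] : Fin 2 → ℤ) 1 : ℝ) * (∑ j, (((![(![s] : Fin 1 → ℤ), ![-s]] : Fin 2 → Fin 1 → ℤ) 1 j : ℤ) : ℝ) * x j
          + ((![0, s * (N : ℤ)] : Fin 2 → ℤ) 1 : ℤ))
      rw [e, hss, one_mul]
      linarith

/-- a count over `1 ≤ n < N` -/
theorem prob_openN {N : ℕ} (P : ℤ → Prop) :
    prob N (fun n : Fin 1 → ℤ => Mem (openN N) n ∧ P (n 0)) = ({n : ℤ | 0 < n ∧ n < N ∧ P n}.ncard : ℝ) / N := by
  unfold prob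
  rw [pow_one]
  congr 2
  rw [← Set.ncard_image_of_injective (f := fun n : Fin 1 → ℤ => n 0)]
  · congr 1
    ext x
    simp only [Set.mem_image, Set.mem_ofPred_eq]
    constructor
    · rintro ⟨n, ⟨h1, ⟨h2, h3⟩, h4⟩, rfl⟩
      have h2' : (0 : ℝ) < (n 0 : ℝ) := h2
      have h3' : (n 0 : ℝ) < (N : ℝ) := h3
      exact ⟨by exact_mod_cast h2', by exact_mod_cast h3', h4⟩
    · rintro ⟨h1, h2, h3⟩
      refine ⟨fun _ => x, ⟨fun _ => ⟨?_, h2.le⟩, ⟨?_, ?_⟩, h3⟩, rfl⟩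
      · show 1 ≤ x
        omega
      · show (0 : ℝ) < (x : ℝ)
        exact_mod_cast h1
      · show (x : ℝ) < (N : ℝ)
        exact_mod_cast h2
  · intro n m hnm
    funext i
    rw [Subsingleton.elim i 0]
    exact hnm

theorem prob_openN_lim : Tendsto (fun N : ℕ => prob N (fun n : Fin 1 → ℤ => Mem (openN N) n)) atTop (𝓝 1) := by
  have h1 : Tendsto (fun N : ℕ => (1 : ℝ) - 1 / (N : ℝ)) atTop (𝓝 1) := by
    have := (tendsto_one_div_atTop_nhds_zero_nat (𝕜 := ℝ)).const_sub 1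
    simpa using this
  refine h1.congr' ?_
  filter_upwards [eventually_ge_atTop 1] with N hN
  have e := prob_openN (N := N) (fun _ => True)
  simp only [and_true] at e
  rw [e]
  have e2 : {n : ℤ | 0 < n ∧ n < N} = (Ioo (0 : ℤ) N : Finset ℤ) := by
    ext n; simp
  rw [e2, Set.ncard_coe_finset, Int.card_Ioo]
  have e3 : ((N : ℤ) - 0 - 1).toNat = N - 1 := by omega
  have hN0 : (0 : ℝ) < N := by exact_mod_cast hN
  rw [e3, Nat.cast_sub hN]
  push_cast
  field_simp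

theorem abs_sN {s : ℤ} (hs : s = 1 ∨ s = -1) (N : ℕ) : |s * (N : ℤ)| ≤ ((1 : ℕ) : ℤ) * N := by
  rcases hs with rfl | rfl <;> simp

theorem sum_lin (s : ℤ) (N : ℕ) (n : Fin 1 → ℤ) :
    lin (![s] : Fin 1 → ℤ) n + 0 = s * n 0 ∧ lin (![-s] : Fin 1 → ℤ) n + s * N = s * (N - n 0) := by
  unfold lin
  constructor
  · simp
  · simp; ring

/-- **Sums of two members of invariant sets.** -/
theorem sum_law (h : S_CONVU) {s : ℤ} (hs : s = 1 ∨ s = -1) {S T : Set ℤ} (hS : Invariant S) (hT : Invariant T) {δ δ' : ℝ}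
    (hd : HasDensity s S δ) (hd' : HasDensity s T δ') :
    Tendsto (fun N : ℕ => ({n : ℤ | 0 < n ∧ n < N ∧ s * n ∈ S ∧ s * (N - n) ∈ T}.ncard : ℝ) / N) atTop (𝓝 (δ * δ')) := by
  have key : Tendsto (fun N : ℕ => ({n : ℤ | 0 < n ∧ n < N ∧ s * n ∈ S ∧ s * (N - n) ∈ T}.ncard : ℝ) / N
      - prob N (fun n : Fin 1 → ℤ => Mem (openN N) n) * (δ * δ')) atTop (𝓝 0) := by
    rw [Metric.tendsto_atTop]
    intro ε hε
    obtain ⟨N0, hN0⟩ := eventually_atTop.1 (sets_lawU h (A := ![(![s] : Fin 1 → ℤ), ![-s]])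
      (pair_ne (sum_ne hs).1 (sum_ne hs).2)
      (pair_rel (sum_rel hs)) (s := ![s, s]) (pair_sgn hs hs)
      (S := ![S, T]) (by intro a; fin_cases a; exacts [hS, hT]) (δ := ![δ, δ']) (by intro a; fin_cases a; exacts [hd, hd'])
      (show 0 < ε / 2 by positivity) 1)
    refine ⟨N0, fun N hN => ?_⟩
    have h2 := hN0 N hN ![0, s * (N : ℤ)] (by
      intro a; fin_cases a
      · simp
      · exact abs_sN hs N) (openN N) (openN_region hs N)
    rw [Fin.prod_univ_two] at h2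
    have e1 : prob N (fun n => Mem (openN N) n ∧ ∀ a, lin ((![(![s] : Fin 1 → ℤ), ![-s]] : Fin 2 → Fin 1 → ℤ) a) n
          + (![0, s * (N : ℤ)] : Fin 2 → ℤ) a ∈ (![S, T] : Fin 2 → Set ℤ) a)
        = ({n : ℤ | 0 < n ∧ n < N ∧ s * n ∈ S ∧ s * (N - n) ∈ T}.ncard : ℝ) / N := by
      rw [← prob_openN]
      apply prob_congr
      intro n _
      rw [Fin.forall_fin_two]
      have e3 : lin (![s] : Fin 1 → ℤ) n + 0 = s * n 0 := (sum_lin s N n).1
      have e4 : lin (![-s] : Fin 1 → ℤ) n + s * N = s * (N - n 0) := (sum_lin s N n).2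
      simp only [Matrix.cons_val_zero, Matrix.cons_val_one, e3, e4]
    rw [e1] at h2
    rw [Real.dist_eq, sub_zero]
    exact lt_of_le_of_lt h2 (by linarith)
  have h3 := key.add (prob_openN_lim.mul_const (δ * δ'))
  rw [zero_add, one_mul] at h3
  refine h3.congr fun N => ?_
  ring

/-- the trajectories of `s n` and `s (N - n)` -/
theorem sum_meet (h : S_CONVU) {μ : ℤ → ℤ → ℝ} (hμ : Laws μ) {s : ℤ} (hs : s = 1 ∨ s = -1) :
    Tendsto (fun N : ℕ => ({n : ℤ | 0 < n ∧ n < N ∧ Meet (s * n) (s * (N - n))}.ncard : ℝ) / N) atTop (𝓝 (∑' a, μ s a ^ 2)) := by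
  have key : Tendsto (fun N : ℕ => ({n : ℤ | 0 < n ∧ n < N ∧ Meet (s * n) (s * (N - n))}.ncard : ℝ) / N
      - prob N (fun n : Fin 1 → ℤ => Mem (openN N) n) * ∑' a, μ s a ^ 2) atTop (𝓝 0) := by
    rw [Metric.tendsto_atTop]
    intro ε hε
    obtain ⟨N0, hN0⟩ := eventually_atTop.1 (meet_limU h hμ (A := (![s] : Fin 1 → ℤ)) (B := ![-s])
      (sum_ne hs).1 (sum_ne hs).2 (sum_rel hs) hs (show 0 < ε / 2 by positivity) 1)
    refine ⟨N0, fun N hN => ?_⟩
    have h2 := hN0 N hN 0 (s * N) (by simp) (abs_sN hs N) (openN N) (openN_region hs N)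
    have e1 : prob N (fun n => Mem (openN N) n ∧ Meet (lin (![s] : Fin 1 → ℤ) n + 0) (lin (![-s] : Fin 1 → ℤ) n + s * N))
        = ({n : ℤ | 0 < n ∧ n < N ∧ Meet (s * n) (s * (N - n))}.ncard : ℝ) / N := by
      rw [← prob_openN]
      apply prob_congr
      intro n _
      rw [(sum_lin s N n).1, (sum_lin s N n).2]
    rw [e1] at h2
    rw [Real.dist_eq, sub_zero]
    exact lt_of_le_of_lt h2 (by linarith)
  have h3 := key.add (prob_openN_lim.mul_const (∑' a, μ s a ^ 2))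
  rw [zero_add, one_mul] at h3
  refine h3.congr fun N => ?_
  ring

/-- every large integer of sign `s` is the sum of a member of `S` and a member of `T` -/
theorem sum_ex (h : S_CONVU) {s : ℤ} (hs : s = 1 ∨ s = -1) {S T : Set ℤ} (hS : Invariant S) (hT : Invariant T)
    (hex : ∃ x ∈ S, 0 < s * x) (hex' : ∃ x ∈ T, 0 < s * x) :
    ∀ᶠ N : ℕ in atTop, ∃ x ∈ S, ∃ y ∈ T, 0 < s * x ∧ 0 < s * y ∧ x + y = s * N := by
  obtain ⟨δ, hd, h0, h1, hp, _⟩ := dens_all hs hS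
  obtain ⟨δ', hd', h0', h1', hp', _⟩ := dens_all hs hT
  have hδ : 0 < δ := hp.2 hex
  have hδ' : 0 < δ' := hp'.2 hex'
  have h2 := (sum_law h hs hS hT hd hd').eventually (lt_mem_nhds (show 0 < δ * δ' by positivity))
  filter_upwards [h2] with N hN
  obtain ⟨n, hn1, hn2, hn3, hn4⟩ : {n : ℤ | 0 < n ∧ n < N ∧ s * n ∈ S ∧ s * (N - n) ∈ T}.Nonempty := by
    by_contra hne
    rw [Set.not_nonempty_iff_eq_empty] at hne
    rw [hne, Set.ncard_empty, Nat.cast_zero, zero_div] at hN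
    exact lt_irrefl _ hN
  refine ⟨s * n, hn3, s * (N - n), hn4, ?_, ?_, by ring⟩
  · rw [sgn_sgn hs]; exact hn1
  · rw [sgn_sgn hs]; linarith

/-- every large integer is a sum of two integers which reach `1` -/
theorem sum_one (h : S_CONVU) : ∀ᶠ N : ℕ in atTop, ∃ x y : ℤ, 0 < x ∧ 0 < y ∧ x + y = N ∧
    (∃ k : ℕ, C^[k] x = 1) ∧ ∃ k : ℕ, C^[k] y = 1 := by
  have hex : ∃ x ∈ {x | Meet x 1}, 0 < (1 : ℤ) * x := ⟨1, ⟨0, 0, rfl⟩, by norm_num⟩
  filter_upwards [sum_ex h (Or.inl rfl) (meet_inv 1) (meet_inv 1) hex hex] with N hN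
  obtain ⟨x, hx, y, hy, hx0, hy0, hxy⟩ := hN
  rw [one_mul] at hx0 hy0 hxy
  exact ⟨x, y, hx0, hy0, hxy, (meet_one x).1 hx, (meet_one y).1 hy⟩

theorem sum_collatz (h : S_CONVU) : (∀ x : ℤ, 0 < x → ∃ k : ℕ, C^[k] x = 1) ↔
    Tendsto (fun N : ℕ => ({n : ℤ | 0 < n ∧ n < N ∧ Meet n (N - n)}.ncard : ℝ) / N) atTop (𝓝 1) := by
  obtain ⟨μ, hμ⟩ := exists_laws
  have h1 := sum_meet h hμ (Or.inl rfl : (1 : ℤ) = 1 ∨ (1 : ℤ) = -1)
  simp only [one_mul] at h1
  rw [← all_meet_iff, ← (theta_facts hμ (Or.inl rfl : (1 : ℤ) = 1 ∨ (1 : ℤ) = -1)).2.2.2]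
  constructor
  · intro h2; rw [h2] at h1; exact h1
  · intro h2; exact tendsto_nhds_unique h1 h2

/-! ### linear equations -/

theorem ind_conj (s : ℤ) (S : Set ℤ) : (fun x => S.indicator (fun _ => (1 : ℝ)) (s * x))
    = fun x => (conj s S).indicator (fun _ => (1 : ℝ)) x := by
  funext x
  by_cases h1 : s * x ∈ S
  · rw [Set.indicator_of_mem h1, Set.indicator_of_mem (show x ∈ conj s S from h1)]
  · rw [Set.indicator_of_notMem h1, Set.indicator_of_notMem (show x ∉ conj s S from h1)]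

theorem ind_facts {s : ℤ} (hs : s = 1 ∨ s = -1) {S : Set ℤ} (hS : Invariant S) {δ : ℝ} (hd : HasDensity s S δ) :
    InvF s (fun x => S.indicator (fun _ => (1 : ℝ)) (s * x)) ∧ 0 ≤ δ ∧ δ ≤ 1 ∧
      MeanZero (fun x => S.indicator (fun _ => (1 : ℝ)) (s * x) - δ) := by
  obtain ⟨h0, h1, hm⟩ := dens_facts hs hS hd
  refine ⟨?_, h0, h1, ?_⟩
  · rw [ind_conj]; exact conj_ind_inv hs hS
  · have e : (fun x => S.indicator (fun _ => (1 : ℝ)) (s * x) - δ) = fun x => (conj s S).indicator (fun _ => (1 : ℝ)) x - δ := by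
      funext x
      rw [congrFun (ind_conj s S) x]
    rw [e]; exact hm

/-- **All linear equations.** -/
theorem gen_lin_law (h : S_CONVU) {j : ℕ} (hj : 1 ≤ j) {a s : Fin (j + 1) → ℤ} (ha : ∀ i, a i ≠ 0)
    (hs : ∀ i, s i = 1 ∨ s i = -1)
    (hr : 2 ≤ j ∨ ∀ x y u v : ℕ, 2 ^ x * 3 ^ y * (s 0 * a 0) + 2 ^ u * 3 ^ v * (s (Fin.last j) * a (Fin.last j)) ≠ 0)
    {S : Fin (j + 1) → Set ℤ} (hS : ∀ i, Invariant (S i)) {δ : Fin (j + 1) → ℝ} (hd : ∀ i, HasDensity (s i) (S i) (δ i))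
    {ε : ℝ} (hε : 0 < ε) :
    ∀ᶠ N : ℕ in atTop, ∀ c : ℤ, ∀ K : Set (Fin (j + 1) → ℝ), Convex ℝ K →
      |({x : Fin (j + 1) → ℤ | (∀ i, 1 ≤ x i ∧ x i ≤ N) ∧ ∑ i, a i * x i = c ∧ Mem K x ∧ ∀ i, s i * x i ∈ S i}.ncard : ℝ)
        - (∏ i, δ i) * {x : Fin (j + 1) → ℤ | (∀ i, 1 ≤ x i ∧ x i ≤ N) ∧ ∑ i, a i * x i = c ∧ Mem K x}.ncard|
        ≤ ε * (N : ℝ) ^ j := by
  classical
  have h1 := fun i => ind_facts (hs i) (hS i) (hd i)
  obtain ⟨N0, h2⟩ := SH6.gen_lin h hj ha hs hr (f := fun i => (S i).indicator (fun _ => (1 : ℝ))) (fun i => (h1 i).1)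
    (μ := δ) (fun i => by rw [abs_of_nonneg (h1 i).2.1]; exact (h1 i).2.2.1) (fun i => (h1 i).2.2.2) hε
  filter_upwards [eventually_ge_atTop N0] with N hN c K hK
  have e0 : {x : Fin (j + 1) → ℤ | (∀ i, 1 ≤ x i ∧ x i ≤ N) ∧ ∑ i, a i * x i = c ∧ Mem K x}
      = (SH6.SolQ a c N K : Set (Fin (j + 1) → ℤ)) := by
    ext x
    rw [mem_coe, SH6.mem_SolQ]
    rfl
  have e1 : {x : Fin (j + 1) → ℤ | (∀ i, 1 ≤ x i ∧ x i ≤ N) ∧ ∑ i, a i * x i = c ∧ Mem K x ∧ ∀ i, s i * x i ∈ S i}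
      = ((SH6.SolQ a c N K).filter (fun x => ∀ i, s i * x i ∈ S i) : Finset (Fin (j + 1) → ℤ)) := by
    ext x
    rw [coe_filter, Set.mem_ofPred_eq, Set.mem_ofPred_eq, SH6.mem_SolQ]
    unfold Mem
    tauto
  have h3 := h2 N hN c K hK
  rw [e0, e1, Set.ncard_coe_finset, Set.ncard_coe_finset, card_filter]
  have e3 : ∑ x ∈ SH6.SolQ a c N K, ∏ i, (S i).indicator (fun _ => (1 : ℝ)) (s i * x i)
      = ((∑ x ∈ SH6.SolQ a c N K, if ∀ i, s i * x i ∈ S i then 1 else 0 : ℕ) : ℝ) := by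
    push_cast
    apply sum_congr rfl
    intro x _
    have e2 : ∀ i, (S i).indicator (fun _ => (1 : ℝ)) (s i * x i) = if s i * x i ∈ S i then (1 : ℝ) else 0 := fun i => rfl
    simp only [e2]
    rw [Fintype.prod_ite_zero, Finset.prod_const_one]
    exact ite_any _ _ Iff.rfl
  rw [e3] at h3
  exact h3

/-- every family of nonzero forms splits -/
theorem exists_splits {k r : ℕ} {A : Fin k → Fin r → ℤ} (hA : ∀ a, A a ≠ 0) :
    ∃ (m : ℕ) (B : Fin m → Fin r → ℤ) (g : Fin k → Fin m), Splits B g A := by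
  classical
  obtain ⟨S, hS⟩ : ∃ S : Setoid (Fin k), ∀ a b, S.r a b ↔ Related (A a) (A b) :=
    ⟨⟨fun a b => Related (A a) (A b), ⟨fun a => rel_refl _, fun h => rel_symm h, fun h h' => rel_trans h h'⟩⟩, fun a b => Iff.rfl⟩
  obtain ⟨m, ⟨e⟩⟩ : ∃ m : ℕ, Nonempty (Quotient S ≃ Fin m) := by
    obtain ⟨m, ⟨e⟩⟩ := Finite.exists_equiv_fin (Quotient S)
    exact ⟨m, ⟨e⟩⟩
  refine ⟨m, fun b => A (e.symm b).out, fun a => e (Quotient.mk S a), fun b => hA _, ?_, ?_⟩
  · intro b b' hbb h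
    apply hbb
    have h1 : S.r (e.symm b).out (e.symm b').out := (hS _ _).2 h
    have h2 : Quotient.mk S (e.symm b).out = Quotient.mk S (e.symm b').out := Quotient.sound h1
    rw [Quotient.out_eq, Quotient.out_eq] at h2
    exact e.symm.injective h2
  · intro a
    show Related (A a) (A (e.symm (e (Quotient.mk S a))).out)
    rw [e.symm_apply_apply]
    exact (hS _ _).1 (Quotient.exact (Quotient.out_eq (Quotient.mk S a)).symm)

theorem cone_all : S_CONE := fun _ _ _ _ _ hw0 hw hσ => SH6.cone_card hw0 hw hσ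


end Pool.Agent.Results.MP_d02c56_nt.LinearPatterns
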