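import Mathlib
import Pool.Agent.KS6_24.LN.Dens
import Pool.Agent.KS6_24.ST.MXF

set_option autoImplicit false

/-!
# Mixing of all orders for the invariant sets of the Collatz map
-/

namespace Pool.Agent.Results.MP_d02c56_nt.Mixing

open Filter Topology

/-- The Collatz map on the integers. -/
def C (x : ℤ) : ℤ := if x % 2 = 0 then x / 2 else 3 * x + 1

/-- `S` is invariant under the Collatz map and its inverse. -/
def Invariant (S : Set ℤ) : Prop := ∀ x : ℤ, x ∈ S ↔ C x ∈ S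

/-- The trajectories of `x` and `y` meet. -/
def Meet (x y : ℤ) : Prop := ∃ k l : ℕ, C^[k] x = C^[l] y

/-- The union of the five known cycles. -/
def Known : Finset ℤ := {1, 4, 2, -1, -2, -5, -14, -7, -20, -10, -17, -50, -25, -74, -37, -110,
  -55, -164, -82, -41, -122, -61, -182, -91, -272, -136, -68, -34, 0}

/-- The trajectory of `x` reaches one of the five known cycles. -/
def Reaches (x : ℤ) : Prop := ∃ k : ℕ, C^[k] x ∈ Known

/-- The proportion of the `n` with `P n` among `1, ..., N`. -/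
noncomputable def prob (N : ℕ) (P : ℕ → Prop) : ℝ := ({n : ℕ | 1 ≤ n ∧ n ≤ N ∧ P n}.ncard : ℝ) / N

/-- `S` has density `δ` on the integers of sign `s`. -/
def HasDensity (s : ℤ) (S : Set ℤ) (δ : ℝ) : Prop := Tendsto (fun N : ℕ => prob N fun n => s * n ∈ S) atTop (𝓝 δ)

/-- The levels `i` are at most `(log N) ^ 0.50005` and differ by at least `A √(log N)`. -/
def Spread {k : ℕ} (A : ℝ) (N : ℕ) (i : Fin k → ℕ) : Prop :=
  (∀ a, (i a : ℝ) ≤ Real.log N ^ (0.50005 : ℝ)) ∧ ∀ a b, a ≠ b → A * √ (Real.log N) ≤ |(i a : ℝ) - i b|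

/-- The number of `a < k` with `s 3 ^ (g a) n` in `S`. -/
noncomputable def hits (s : ℤ) (S : Set ℤ) (k g n : ℕ) : ℕ := {a : ℕ | a < k ∧ s * (3 ^ (g * a) * n) ∈ S}.ncard

/-- `a` is the representative of its class: among the integers of sign `s` whose trajectory meets that of `a`, it has
the least absolute value. -/
def IsRep (s a : ℤ) : Prop := 0 < s * a ∧ ∀ b : ℤ, 0 < s * b → Meet a b → s * a ≤ s * b

open Pool.Agent.KS6_24.LN Pool.Agent.H499R2.CO Pool.Agent.Y965.SI Finset Pool.Agent.KS6_24.ST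
open Pool.Agent.H499R2.ND (Ci Kc Kc_self Kc_symm Kc_trans structure_full)

/-! ### transfer to the accelerated map -/

theorem Tz1_mem {S : Set ℤ} (hS : Invariant S) (y : ℤ) : Tz 1 y ∈ S ↔ y ∈ S := by
  unfold Tz
  by_cases h : y % 2 = 0
  · rw [if_pos h, hS y]
    unfold C
    rw [if_pos h]
  · rw [if_neg h, hS y, hS (C y)]
    have h1 : C (C y) = (3 * y + 1) / 2 := by
      unfold C
      rw [if_neg h, if_pos (by omega)]
    rw [h1]

/-- the conjugated set -/
def conj (s : ℤ) (S : Set ℤ) : Set ℤ := {x | s * x ∈ S}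

theorem conj_inv {s : ℤ} (hs : s = 1 ∨ s = -1) {S : Set ℤ} (hS : Invariant S) (x : ℤ) :
    Tz s x ∈ conj s S ↔ x ∈ conj s S := by
  have hss : ∀ x : ℤ, s * (s * x) = x := by intro x; rcases hs with rfl | rfl <;> ring
  have h1 : s * Tz s x = Tz 1 (s * x) := by
    have := dens_Tz_mul hs (s * x)
    rw [hss] at this
    rw [this, hss]
  show s * Tz s x ∈ S ↔ s * x ∈ S
  rw [h1]
  exact Tz1_mem hS _

theorem sign_of_pos {s : ℤ} (hs : s = 1 ∨ s = -1) {S : Set ℤ} (h : ∃ x ∈ S, 0 < s * x) :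
    ∃ x ∈ conj s S, 0 < x := by
  have hss : ∀ x : ℤ, s * (s * x) = x := by intro x; rcases hs with rfl | rfl <;> ring
  obtain ⟨x, hx, h0⟩ := h
  exact ⟨s * x, by show s * (s * x) ∈ S; rw [hss]; exact hx, h0⟩

/-! ### proportions -/

theorem prob_eq (N : ℕ) (P : ℕ → Prop) [DecidablePred P] : prob N P = (#{n ∈ Icc 1 N | P n} : ℝ) / N := by
  unfold prob
  rw [← Set.ncard_coe_finset]
  congr 3
  ext x
  simp only [Set.mem_ofPred_eq, coe_filter, mem_Icc, and_assoc]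

theorem prob_nonneg (N : ℕ) (P : ℕ → Prop) : 0 ≤ prob N P := by unfold prob; positivity

theorem prob_mono {N : ℕ} {P Q : ℕ → Prop} (h : ∀ n, 1 ≤ n → n ≤ N → P n → Q n) : prob N P ≤ prob N Q := by
  classical
  rw [prob_eq, prob_eq]
  apply div_le_div_of_nonneg_right _ (Nat.cast_nonneg _)
  have : #{n ∈ Icc 1 N | P n} ≤ #{n ∈ Icc 1 N | Q n} := by
    apply card_le_card
    intro n hn
    rw [mem_filter, mem_Icc] at hn ⊢
    exact ⟨hn.1, h n hn.1.1 hn.1.2 hn.2⟩
  exact_mod_cast this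

theorem prob_congr {N : ℕ} {P Q : ℕ → Prop} (h : ∀ n, 1 ≤ n → n ≤ N → (P n ↔ Q n)) : prob N P = prob N Q :=
  le_antisymm (prob_mono fun n h1 h2 => (h n h1 h2).1) (prob_mono fun n h1 h2 => (h n h1 h2).2)

theorem prob_le_one (N : ℕ) (P : ℕ → Prop) : prob N P ≤ 1 := by
  classical
  rw [prob_eq]
  apply div_le_one_of_le₀ _ (Nat.cast_nonneg _)
  have : #{n ∈ Icc 1 N | P n} ≤ N := by
    refine (card_filter_le _ _).trans ?_
    rw [Nat.card_Icc]; omega
  exact_mod_cast this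

theorem prob_split (N : ℕ) (P Q : ℕ → Prop) : prob N P = prob N (fun n => P n ∧ Q n) + prob N (fun n => P n ∧ ¬ Q n) := by
  classical
  rw [prob_eq, prob_eq, prob_eq, ← add_div]
  congr 1
  have := card_filter_add_card_filter_not (s := (Icc 1 N).filter P) Q
  rw [filter_filter, filter_filter] at this
  exact_mod_cast this.symm

theorem prob_not {N : ℕ} (hN : 1 ≤ N) (P : ℕ → Prop) : prob N (fun n => ¬ P n) = 1 - prob N P := by
  have h1 := prob_split N (fun _ => True) P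
  have h2 : prob N (fun _ => True) = 1 := by
    classical
    rw [prob_eq, filter_true_of_mem (fun _ _ => trivial), Nat.card_Icc, Nat.add_sub_cancel]
    have : (0 : ℝ) < N := by exact_mod_cast hN
    field_simp
  simp only [true_and] at h1
  linarith

/-- finitely many disjoint events -/
theorem prob_sum {ι : Type*} (A : Finset ι) (N : ℕ) (P : ι → ℕ → Prop)
    (hd : ∀ a ∈ A, ∀ b ∈ A, a ≠ b → ∀ n, P a n → ¬ P b n) :
    prob N (fun n => ∃ a ∈ A, P a n) = ∑ a ∈ A, prob N (P a) := by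
  classical
  simp only [prob_eq]
  rw [← sum_div]
  congr 1
  have e : (Icc 1 N).filter (fun n => ∃ a ∈ A, P a n) = A.biUnion fun a => (Icc 1 N).filter (P a) := by
    ext n
    simp only [mem_filter, mem_biUnion]
    tauto
  rw [e, card_biUnion]
  · push_cast; rfl
  · intro a ha b hb hab
    show Disjoint _ _
    rw [disjoint_left]
    intro n hn hn'
    exact hd a ha b hb hab n (mem_filter.1 hn).2 (mem_filter.1 hn').2

/-! ### the density -/

theorem density_of_mz {s : ℤ} {S : Set ℤ} {δ : ℝ}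
    (h : MeanZero (fun x => (conj s S).indicator (fun _ => (1 : ℝ)) x - δ)) :
    HasDensity s S δ := by
  classical
  unfold HasDensity
  set ind : ℤ → ℝ := (conj s S).indicator (fun _ => (1 : ℝ)) with hind
  have hind01 : ∀ x, 0 ≤ ind x ∧ ind x ≤ 1 := by
    intro x
    simp only [hind, Set.indicator]
    split_ifs <;> norm_num
  have hc : ∀ N : ℕ, ({n : ℕ | 1 ≤ n ∧ n ≤ N ∧ s * n ∈ S}.ncard : ℝ) = ∑ n ∈ range N, ind ((n + 1 : ℕ)) := by
    intro N
    have e1 : {n : ℕ | 1 ≤ n ∧ n ≤ N ∧ s * n ∈ S}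
        = (((range N).filter fun n : ℕ => ((n + 1 : ℕ) : ℤ) ∈ conj s S).image fun n : ℕ => n + 1 : Finset ℕ) := by
      ext n
      simp only [Set.mem_ofPred_eq, coe_image, coe_filter, mem_range, Set.mem_image]
      constructor
      · rintro ⟨ha, hb, hc⟩
        refine ⟨n - 1, ⟨by omega, ?_⟩, by omega⟩
        rw [Nat.sub_add_cancel ha]; exact hc
      · rintro ⟨m, ⟨hm, hmS⟩, rfl⟩
        exact ⟨by omega, by omega, hmS⟩
    rw [e1, Set.ncard_coe_finset, card_image_of_injective _ (fun a b h => Nat.succ_injective h), card_filter]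
    push_cast
    apply sum_congr rfl
    intro n _
    simp only [hind, Set.indicator]
    try push_cast
    try rfl
  have hs : ∀ N : ℕ, ∑ n ∈ range N, (ind (n : ℕ) - δ)
      = ∑ n ∈ range N, ind ((n + 1 : ℕ)) + (ind 0 - ind N) - N * δ := by
    intro N
    have e1 := sum_range_succ (fun n : ℕ => ind (n : ℕ)) N
    have e2 := sum_range_succ' (fun n : ℕ => ind (n : ℕ)) N
    rw [sum_sub_distrib, sum_const, card_range, nsmul_eq_mul]
    simp only [Nat.cast_zero] at e2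
    linarith
  unfold MeanZero at h
  have h5 : Tendsto (fun N : ℕ => (ind 0 - ind N) / N) atTop (𝓝 0) := by
    apply squeeze_zero_norm (a := fun N : ℕ => 1 / (N : ℝ))
    · intro N
      rw [Real.norm_eq_abs, abs_div, Nat.abs_cast]
      gcongr
      rw [abs_le]
      constructor <;> linarith [(hind01 0).1, (hind01 0).2, (hind01 N).1, (hind01 N).2]
    · exact tendsto_one_div_atTop_nhds_zero_nat
  have h6 := (h.sub h5).add_const δ
  rw [sub_zero, zero_add] at h6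
  unfold prob
  apply h6.congr'
  filter_upwards [eventually_gt_atTop 0] with N hN
  have hN' : (N : ℝ) ≠ 0 := by positivity
  rw [hc]
  have := hs N
  show (∑ n ∈ range N, (ind (n : ℕ) - δ)) / N - (ind 0 - ind N) / N + δ = _
  rw [this]
  field_simp
  ring

/-! ### invariant sets -/

theorem compl_inv {S : Set ℤ} (hS : Invariant S) : Invariant Sᶜ := fun x => not_congr (hS x)

theorem meet_inv (a : ℤ) : Invariant {x | Meet x a} := by
  intro x
  constructor
  · rintro ⟨k, l, h⟩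
    refine ⟨k, l + 1, ?_⟩
    rw [← Function.iterate_succ_apply, Function.iterate_succ_apply', h, Function.iterate_succ_apply']
  · rintro ⟨k, l, h⟩
    exact ⟨k + 1, l, by rw [Function.iterate_succ_apply]; exact h⟩

theorem known_closed : ∀ x ∈ Known, C x ∈ Known := by decide

theorem reaches_inv : Invariant {x | Reaches x} := by
  intro x
  constructor
  · rintro ⟨k, h⟩
    refine ⟨k, ?_⟩
    rw [← Function.iterate_succ_apply, Function.iterate_succ_apply']
    exact known_closed _ h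
  · rintro ⟨k, h⟩
    exact ⟨k + 1, by rw [Function.iterate_succ_apply]; exact h⟩


theorem meet_iff_Kc (x y : ℤ) : Meet x y ↔ x ∈ Kc y := Iff.rfl

theorem Meet.symm {x y : ℤ} (h : Meet x y) : Meet y x := Kc_symm h

theorem Meet.trans {x y z : ℤ} (h : Meet x y) (h' : Meet y z) : Meet x z := Kc_trans h h'

/-! ### classes -/

theorem mz_class {s : ℤ} (hs : s = 1 ∨ s = -1) {δ : ℤ → ℝ} {a : ℤ} (ha : 0 < s * a)
    (h : Tendsto (fun N : ℕ => ({n : ℤ | 0 < s * n ∧ s * n ≤ N ∧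
        ∃ i j : ℕ, Ci^[i] n = Ci^[j] a}.ncard : ℝ) / N) atTop (𝓝 (δ a))) :
    0 < δ a ∧ δ a ≤ 1 ∧ MeanZero (fun x => (conj s {x | Meet x a}).indicator (fun _ => (1 : ℝ)) x - δ a) := by
  obtain ⟨δ', h1, h2, h3⟩ := dens hs (conj s {x | Meet x a}) (conj_inv hs (meet_inv a))
    (sign_of_pos hs ⟨a, ⟨0, 0, rfl⟩, ha⟩)
  have h4 := density_of_mz h3
  have hss : ∀ x : ℤ, s * (s * x) = x := by intro x; rcases hs with rfl | rfl <;> ring
  have h5 : ∀ N : ℕ, ({n : ℤ | 0 < s * n ∧ s * n ≤ N ∧ ∃ i j : ℕ, Ci^[i] n = Ci^[j] a}.ncard : ℝ) / N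
      = prob N fun n => s * n ∈ {x | Meet x a} := by
    intro N
    unfold prob
    congr 2
    rw [← Set.ncard_image_of_injective (f := fun n : ℕ => s * (n : ℤ))]
    · congr 1
      ext x
      simp only [Set.mem_ofPred_eq, Set.mem_image]
      constructor
      · rintro ⟨hx1, hx2, hx3⟩
        refine ⟨(s * x).toNat, ⟨by omega, by omega, ?_⟩, ?_⟩
        · have : s * (((s * x).toNat : ℕ) : ℤ) = x := by
            rw [Int.toNat_of_nonneg hx1.le, hss]
          rw [this]; exact hx3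
        · rw [Int.toNat_of_nonneg hx1.le, hss]
      · rintro ⟨n, ⟨hn1, hn2, hn3⟩, rfl⟩
        rw [hss]
        exact ⟨by exact_mod_cast hn1, by exact_mod_cast hn2, hn3⟩
    · intro a b hab
      simp only at hab
      have : s * (s * (a : ℤ)) = s * (s * (b : ℤ)) := by rw [hab]
      rw [hss, hss] at this
      exact_mod_cast this
  have h6 : δ' = δ a := by
    refine tendsto_nhds_unique h4 (h.congr h5)
  rw [← h6]
  exact ⟨h1, h2, h3⟩

/-- every integer of sign `s` meets a representative -/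
theorem exists_rep {s : ℤ} (hs : s = 1 ∨ s = -1) {x : ℤ} (hx : 0 < s * x) : ∃ a : ℤ, IsRep s a ∧ Meet x a := by
  classical
  have hss : ∀ x : ℤ, s * (s * x) = x := by intro x; rcases hs with rfl | rfl <;> ring
  have hne : ∃ n : ℕ, 0 < n ∧ Meet x (s * n) := by
    refine ⟨(s * x).toNat, by omega, 0, 0, ?_⟩
    simp only [Function.iterate_zero, id]
    rw [Int.toNat_of_nonneg hx.le, hss]
  obtain ⟨hn0, hm⟩ := Nat.find_spec hne
  refine ⟨s * (Nat.find hne : ℕ), ⟨by rw [hss]; exact_mod_cast hn0, ?_⟩, hm⟩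
  intro b hb hmb
  rw [hss]
  have h1 : ((s * b).toNat : ℤ) = s * b := Int.toNat_of_nonneg hb.le
  have h2 : Nat.find hne ≤ (s * b).toNat := by
    apply Nat.find_min' hne
    refine ⟨by omega, ?_⟩
    rw [h1, hss]
    exact hm.trans hmb
  have h3 : ((Nat.find hne : ℕ) : ℤ) ≤ ((s * b).toNat : ℤ) := by exact_mod_cast h2
  rwa [h1] at h3

theorem rep_unique {s : ℤ} (hs : s = 1 ∨ s = -1) {a b : ℤ} (ha : IsRep s a) (hb : IsRep s b) (h : Meet a b) : a = b := by
  have h1 := ha.2 b hb.1 h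
  have h2 := hb.2 a ha.1 h.symm
  rcases hs with rfl | rfl <;> omega

/-- the classes: densities `δ a` of the classes of the representatives, summing to 1 -/
theorem classes {s : ℤ} (hs : s = 1 ∨ s = -1) : ∃ δ : {a : ℤ // IsRep s a} → ℝ, HasSum δ 1 ∧
    ∀ a, 0 < δ a ∧ δ a ≤ 1 ∧ MeanZero (fun x => (conj s {x | Meet x a}).indicator (fun _ => (1 : ℝ)) x - δ a) := by
  obtain ⟨δ, h1, _, h3⟩ := structure_full hs
  exact ⟨fun a => δ a, h3, fun a => mz_class hs a.2.1 (h1 a a.2.1).2⟩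


/-- every invariant set has a density -/
theorem mz_all {s : ℤ} (hs : s = 1 ∨ s = -1) {S : Set ℤ} (hS : Invariant S) :
    ∃ δ : ℝ, 0 ≤ δ ∧ δ ≤ 1 ∧ ((∃ x ∈ S, 0 < s * x) → 0 < δ) ∧
      MeanZero (fun x => (conj s S).indicator (fun _ => (1 : ℝ)) x - δ) := by
  classical
  by_cases hex : ∃ x ∈ S, 0 < s * x
  · obtain ⟨δ, h1, h2, h3⟩ := dens hs (conj s S) (conj_inv hs hS) (sign_of_pos hs hex)
    exact ⟨δ, h1.le, h2, fun _ => h1, h3⟩
  · refine ⟨0, le_rfl, zero_le_one, fun h => absurd h hex, ?_⟩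
    have hss : ∀ x : ℤ, s * (s * x) = x := by intro x; rcases hs with rfl | rfl <;> ring
    unfold MeanZero
    have h1 : ∀ n : ℕ, 1 ≤ n → (conj s S).indicator (fun _ => (1 : ℝ)) (n : ℤ) = 0 := by
      intro n hn
      apply Set.indicator_of_notMem
      intro h
      exact hex ⟨s * n, h, by rw [hss]; exact_mod_cast hn⟩
    have h2 : ∀ N : ℕ, |(∑ n ∈ range N, ((conj s S).indicator (fun _ => (1 : ℝ)) ((n : ℕ) : ℤ) - 0)) / N| ≤ 1 / (N : ℝ) := by
      intro N
      rw [abs_div, Nat.abs_cast]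
      apply div_le_div_of_nonneg_right _ (Nat.cast_nonneg N)
      have h3 : ∀ n ∈ range N, ((conj s S).indicator (fun _ => (1 : ℝ)) ((n : ℕ) : ℤ) - 0)
          ≤ if n = 0 then (1 : ℝ) else 0 := by
        intro n _
        split_ifs with h
        · simp only [Set.indicator]; split_ifs <;> norm_num
        · rw [h1 n (by omega)]; norm_num
      have h4 : 0 ≤ ∑ n ∈ range N, ((conj s S).indicator (fun _ => (1 : ℝ)) ((n : ℕ) : ℤ) - 0) := by
        apply sum_nonneg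
        intro n _
        simp only [Set.indicator]; split_ifs <;> norm_num
      rw [abs_of_nonneg h4]
      refine (sum_le_sum h3).trans ?_
      rw [sum_ite_eq']
      split_ifs <;> norm_num
    exact squeeze_zero_norm (fun N => h2 N) tendsto_one_div_atTop_nhds_zero_nat

/-- products of a probability distribution -/
theorem hasSum_pi {ι : Type*} {μ : ι → ℝ} (h0 : ∀ a, 0 ≤ μ a) (h1 : HasSum μ 1) (k : ℕ) :
    HasSum (fun c : Fin k → ι => ∏ a, μ (c a)) 1 := by
  induction k with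
  | zero =>
    have : (fun c : Fin 0 → ι => ∏ a, μ (c a)) = fun _ => (1 : ℝ) := by funext c; simp
    rw [this]
    exact hasSum_unique (fun _ : Fin 0 → ι => (1 : ℝ))
  | succ k ih =>
    obtain ⟨G, hG⟩ : ∃ G : (Fin k → ι) → ℝ, G = fun c => ∏ a, μ (c a) := ⟨_, rfl⟩
    rw [← hG] at ih
    have hG0 : 0 ≤ G := by
      intro c
      rw [hG]
      exact Finset.prod_nonneg fun a _ => h0 _
    have h2 : Summable (fun x : ι × (Fin k → ι) => μ x.1 * G x.2) :=
      Summable.mul_of_nonneg h1.summable ih.summable h0 hG0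
    have h3 : HasSum (fun x : ι × (Fin k → ι) => μ x.1 * G x.2) (1 * 1) := HasSum.mul h1 ih h2
    rw [one_mul] at h3
    rw [← (Fin.consEquiv (fun _ : Fin (k + 1) => ι)).hasSum_iff]
    convert h3 using 1
    funext x
    simp only [Function.comp, Fin.consEquiv, Equiv.coe_fn_mk, Fin.prod_univ_succ, Fin.cons_zero, Fin.cons_succ, hG]

theorem sq_le_one {s : ℤ} (hs : s = 1 ∨ s = -1) : ∃ x ∈ {x | Reaches x}, 0 < s * x := by
  rcases hs with rfl | rfl
  · exact ⟨1, ⟨0, by decide⟩, by norm_num⟩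
  · exact ⟨-1, ⟨0, by decide⟩, by norm_num⟩

/-- mixing, for given densities -/
theorem mixing {s : ℤ} (hs : s = 1 ∨ s = -1) (h : S_MIXALL s) {k : ℕ} {S : Fin k → Set ℤ} (hS : ∀ a, Invariant (S a))
    {δ : Fin k → ℝ} (h0 : ∀ a, 0 ≤ δ a) (h1 : ∀ a, δ a ≤ 1)
    (hm : ∀ a, MeanZero (fun x => (conj s (S a)).indicator (fun _ => (1 : ℝ)) x - δ a)) {ε : ℝ} (hε : 0 < ε) :
    ∃ A : ℝ, 0 < A ∧ ∀ᶠ N : ℕ in atTop, ∀ i : Fin k → ℕ, Spread A N i → ∀ r : Fin k → ℤ, (∀ a, |r a| ≤ 3 ^ i a) →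
      |prob N (fun n => ∀ a, s * (3 ^ i a * n + r a) ∈ S a) - ∏ a, δ a| ≤ ε := by
  classical
  obtain ⟨A, N0, hA, hN0⟩ := h k (fun a => conj s (S a)) (fun a => conj_inv hs (hS a)) δ h0 h1 hm ε hε
  refine ⟨A, hA, ?_⟩
  filter_upwards [eventually_ge_atTop (max N0 1)] with N hN i hi r hr
  have hN1 : 1 ≤ N := (le_max_right _ _).trans hN
  have hN' : (0 : ℝ) < N := by exact_mod_cast hN1
  have h2 := hN0 N ((le_max_left _ _).trans hN) i hi.1 hi.2 r hr
  rw [prob_eq]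
  have e : (#{n ∈ Icc 1 N | ∀ a, s * (3 ^ i a * ((n : ℕ) : ℤ) + r a) ∈ S a} : ℝ) / N - ∏ a, δ a
      = ((#{n ∈ Icc 1 N | ∀ a, s * (3 ^ i a * ((n : ℕ) : ℤ) + r a) ∈ S a} : ℝ) - (∏ a, δ a) * N) / N := by
    field_simp
  rw [e, abs_div, abs_of_pos hN', div_le_iff₀ hN']
  have hc : #{n ∈ Icc 1 N | ∀ a, s * (3 ^ i a * ((n : ℕ) : ℤ) + r a) ∈ S a}
      = #{m ∈ Icc 1 N | ∀ a, 3 ^ i a * ((m : ℕ) : ℤ) + r a ∈ conj s (S a)} := by
    congr 1
  rw [hc]
  exact h2

/-- Independence of the classes, for a given distribution -/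
def Independent (s : ℤ) (μ : {a : ℤ // IsRep s a} → ℝ) (k : ℕ) : Prop :=
  ∀ ε : ℝ, 0 < ε → ∃ A : ℝ, 0 < A ∧ ∀ᶠ N : ℕ in atTop, ∀ i : Fin k → ℕ, Spread A N i →
    ∀ r : Fin k → ℤ, (∀ a, |r a| ≤ 3 ^ i a) → ∀ R : Set (Fin k → ℤ), (∀ x y, (∀ a, Meet (x a) (y a)) → (x ∈ R ↔ y ∈ R)) →
      |prob N (fun n => (fun a => s * (3 ^ i a * n + r a)) ∈ R)
        - ∑' c : Fin k → {a : ℤ // IsRep s a}, R.indicator (fun _ => ∏ a, μ (c a)) (fun a => (c a : ℤ))| ≤ ε

theorem indep {s : ℤ} (hs : s = 1 ∨ s = -1) (h : S_MIXALL s) {μ : {a : ℤ // IsRep s a} → ℝ} (hsum : HasSum μ 1)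
    (hμ : ∀ a, 0 < μ a ∧ μ a ≤ 1 ∧ MeanZero (fun x => (conj s {x | Meet x a}).indicator (fun _ => (1 : ℝ)) x - μ a))
    (k : ℕ) : Independent s μ k := by
  classical
  intro ε hε
  have hpi := hasSum_pi (fun a => (hμ a).1.le) hsum k
  have hP0 : ∀ c : Fin k → {a : ℤ // IsRep s a}, 0 ≤ ∏ a, μ (c a) := fun c => prod_nonneg fun a _ => (hμ _).1.le
  obtain ⟨T, hT⟩ : ∃ T : Finset (Fin k → {a : ℤ // IsRep s a}), 1 - ε / 4 ≤ ∑ c ∈ T, ∏ a, μ (c a) :=
    (hpi.eventually (eventually_ge_nhds (show 1 - ε / 4 < 1 by linarith))).exists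
  have hT1 : ∑ c ∈ T, ∏ a, μ (c a) ≤ 1 := sum_le_hasSum T (fun c _ => hP0 c) hpi
  have hε' : 0 < ε / 4 / (#T + 1) := by positivity
  choose A hA hev using fun c : Fin k → {a : ℤ // IsRep s a} => mixing hs h (S := fun a => {x | Meet x (c a)})
    (fun a => meet_inv _) (δ := fun a => μ (c a)) (fun a => (hμ _).1.le) (fun a => (hμ _).2.1) (fun a => (hμ _).2.2) hε'
  refine ⟨1 + ∑ c ∈ T, A c, ?_, ?_⟩
  · have := sum_nonneg fun c (_ : c ∈ T) => (hA c).le
    linarith
  have hall : ∀ᶠ N : ℕ in atTop, ∀ c ∈ T, ∀ i : Fin k → ℕ, Spread (A c) N i → ∀ r : Fin k → ℤ,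
      (∀ a, |r a| ≤ 3 ^ i a) → |prob N (fun n => ∀ a, s * (3 ^ i a * n + r a) ∈ {x | Meet x (c a)})
        - ∏ a, μ (c a)| ≤ ε / 4 / (#T + 1) := (eventually_all_finset T).2 fun c _ => hev c
  filter_upwards [hall, eventually_ge_atTop 1] with N hN hN1 i hi r hr R hR
  obtain ⟨X, hX⟩ : ∃ X : ℕ → Fin k → ℤ, X = fun (n : ℕ) (a : Fin k) => s * (3 ^ i a * (n : ℤ) + r a) := ⟨_, rfl⟩
  obtain ⟨E, hE⟩ : ∃ E : (Fin k → {a : ℤ // IsRep s a}) → ℕ → Prop, E = fun (c : Fin k → {a : ℤ // IsRep s a}) (n : ℕ) => ∀ a, Meet (X n a) (c a) := ⟨_, rfl⟩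
  have hEc : ∀ c ∈ T, |prob N (E c) - ∏ a, μ (c a)| ≤ ε / 4 / (#T + 1) := by
    intro c hc
    rw [hE, hX]
    refine hN c hc i ⟨hi.1, fun a b hab => le_trans ?_ (hi.2 a b hab)⟩ r hr
    apply mul_le_mul_of_nonneg_right _ (Real.sqrt_nonneg _)
    have := single_le_sum (f := A) (fun c (_ : c ∈ T) => (hA c).le) hc
    linarith
  have hdis : ∀ c ∈ T, ∀ c' ∈ T, c ≠ c' → ∀ n, E c n → ¬ E c' n := by
    intro c _ c' _ hcc n hn hn'
    apply hcc
    rw [hE] at hn hn'
    funext a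
    exact Subtype.ext (rep_unique hs (c a).2 (c' a).2 ((hn a).symm.trans (hn' a)))
  -- the decomposition
  have h1 := prob_split N (fun n => X n ∈ R) (fun n => ∃ c ∈ T, E c n)
  have h2 : prob N (fun n => X n ∈ R ∧ ∃ c ∈ T, E c n)
      = ∑ c ∈ T, R.indicator (fun _ => prob N (E c)) (fun a => (c a : ℤ)) := by
    have h3 : prob N (fun n => X n ∈ R ∧ ∃ c ∈ T, E c n)
        = prob N (fun n => ∃ c ∈ T, (E c n ∧ (fun a => (c a : ℤ)) ∈ R)) := by
      apply prob_congr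
      intro n _ _
      have h4 : ∀ c, E c n → (X n ∈ R ↔ (fun a => (c a : ℤ)) ∈ R) := by
        intro c hc
        rw [hE] at hc
        exact hR _ _ hc
      constructor
      · rintro ⟨hx, c, hc, hcn⟩
        exact ⟨c, hc, hcn, (h4 c hcn).1 hx⟩
      · rintro ⟨c, hc, hcn, hcR⟩
        exact ⟨(h4 c hcn).2 hcR, c, hc, hcn⟩
    rw [h3, prob_sum T N (fun c n => E c n ∧ (fun a => (c a : ℤ)) ∈ R)
      (fun c hc c' hc' hcc n hn hn' => hdis c hc c' hc' hcc n hn.1 hn'.1)]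
    apply sum_congr rfl
    intro c _
    by_cases hcR : (fun a => (c a : ℤ)) ∈ R
    · rw [Set.indicator_of_mem hcR]
      apply prob_congr
      intro n _ _
      simp only [hcR, and_true]
    · rw [Set.indicator_of_notMem hcR]
      rw [prob_eq, filter_false_of_mem (fun n _ h => hcR h.2)]
      simp
  have h3 : prob N (fun n => X n ∈ R ∧ ¬ ∃ c ∈ T, E c n) ≤ 1 - ∑ c ∈ T, prob N (E c) := by
    rw [← prob_sum T N E hdis, ← prob_not hN1]
    exact prob_mono fun n _ _ h => h.2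
  have h3' := prob_nonneg N (fun n => X n ∈ R ∧ ¬ ∃ c ∈ T, E c n)
  -- the limit
  have hind : ∀ (c : Fin k → {a : ℤ // IsRep s a}) (v : ℝ), 0 ≤ v → 0 ≤ R.indicator (fun _ => v) (fun a => (c a : ℤ)) ∧
      R.indicator (fun _ => v) (fun a => (c a : ℤ)) ≤ v := by
    intro c v hv
    simp only [Set.indicator]
    split_ifs <;> simp [hv]
  have hsR : Summable (fun c : Fin k → {a : ℤ // IsRep s a} => R.indicator (fun _ => ∏ a, μ (c a)) (fun a => (c a : ℤ))) :=
    Summable.of_nonneg_of_le (fun c => (hind c _ (hP0 c)).1) (fun c => (hind c _ (hP0 c)).2) hpi.summable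
  have h4 := hsR.sum_add_tsum_compl (s := T)
  have h5 := hpi.summable.sum_add_tsum_compl (s := T)
  rw [hpi.tsum_eq] at h5
  have h6 : ∑' c : ((T : Set (Fin k → {a : ℤ // IsRep s a}))ᶜ : Set (Fin k → {a : ℤ // IsRep s a})), R.indicator (fun _ => ∏ a, μ ((c : Fin k → {a : ℤ // IsRep s a}) a))
      (fun a => ((c : Fin k → {a : ℤ // IsRep s a}) a : ℤ))
      ≤ ∑' c : ((T : Set (Fin k → {a : ℤ // IsRep s a}))ᶜ : Set (Fin k → {a : ℤ // IsRep s a})), ∏ a, μ ((c : Fin k → {a : ℤ // IsRep s a}) a) :=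
    (hsR.subtype _).tsum_le_tsum (fun c => (hind _ _ (hP0 _)).2) (hpi.summable.subtype _)
  have h7 : 0 ≤ ∑' c : ((T : Set (Fin k → {a : ℤ // IsRep s a}))ᶜ : Set (Fin k → {a : ℤ // IsRep s a})), R.indicator (fun _ => ∏ a, μ ((c : Fin k → {a : ℤ // IsRep s a}) a))
      (fun a => ((c : Fin k → {a : ℤ // IsRep s a}) a : ℤ)) := tsum_nonneg fun c => (hind _ _ (hP0 _)).1
  have h8 : |∑ c ∈ T, R.indicator (fun _ => prob N (E c)) (fun a => (c a : ℤ))
      - ∑ c ∈ T, R.indicator (fun _ => ∏ a, μ (c a)) (fun a => (c a : ℤ))| ≤ ε / 4 := by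
    rw [← sum_sub_distrib]
    refine (abs_sum_le_sum_abs _ _).trans ?_
    have h9 : ∀ c ∈ T, |R.indicator (fun _ => prob N (E c)) (fun a => (c a : ℤ))
        - R.indicator (fun _ => ∏ a, μ (c a)) (fun a => (c a : ℤ))| ≤ ε / 4 / (#T + 1) := by
      intro c hc
      by_cases hcR : (fun a => (c a : ℤ)) ∈ R
      · rw [Set.indicator_of_mem hcR, Set.indicator_of_mem hcR]; exact hEc c hc
      · rw [Set.indicator_of_notMem hcR, Set.indicator_of_notMem hcR, sub_self, abs_zero]; exact hε'.le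
    refine (sum_le_sum h9).trans ?_
    rw [sum_const, nsmul_eq_mul, ← mul_div_assoc, div_le_iff₀ (by positivity)]
    nlinarith
  have h9 : ∑ c ∈ T, ∏ a, μ (c a) - ε / 4 ≤ ∑ c ∈ T, prob N (E c) := by
    have h10 : |∑ c ∈ T, prob N (E c) - ∑ c ∈ T, ∏ a, μ (c a)| ≤ ε / 4 := by
      rw [← sum_sub_distrib]
      refine (abs_sum_le_sum_abs _ _).trans ?_
      refine (sum_le_sum hEc).trans ?_
      rw [sum_const, nsmul_eq_mul, ← mul_div_assoc, div_le_iff₀ (by positivity)]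
      nlinarith
    have := (abs_le.1 h10).1
    linarith
  have hgoal : prob N (fun n => (fun a => s * (3 ^ i a * (n : ℤ) + r a)) ∈ R) = prob N (fun n => X n ∈ R) := by rw [hX]
  rw [hgoal, h1, h2, ← h4]
  rw [abs_le] at h8 ⊢
  constructor <;> linarith [h8.1, h8.2]

/-- patterns of one set -/
theorem patterns {s : ℤ} (hs : s = 1 ∨ s = -1) (h : S_MIXALL s) {S : Set ℤ} (hS : Invariant S)
    {δ : ℝ} (h0 : 0 ≤ δ) (h1 : δ ≤ 1) (hm : MeanZero (fun x => (conj s S).indicator (fun _ => (1 : ℝ)) x - δ))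
    (k : ℕ) (p : Finset (Fin k)) {ε : ℝ} (hε : 0 < ε) :
    ∃ A : ℝ, 0 < A ∧ ∀ᶠ N : ℕ in atTop, ∀ i : Fin k → ℕ, Spread A N i → ∀ r : Fin k → ℤ, (∀ a, |r a| ≤ 3 ^ i a) →
      |prob N (fun n => ∀ a, s * (3 ^ i a * n + r a) ∈ S ↔ a ∈ p) - δ ^ #p * (1 - δ) ^ (k - #p)| ≤ ε := by
  classical
  have hmc : MeanZero (fun x => (conj s Sᶜ).indicator (fun _ => (1 : ℝ)) x - (1 - δ)) := by
    unfold MeanZero at hm ⊢
    have h2 := hm.neg
    rw [neg_zero] at h2
    refine h2.congr fun N => ?_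
    rw [← neg_div, ← sum_neg_distrib]
    congr 1
    apply sum_congr rfl
    intro n _
    show -((conj s S).indicator (fun _ => (1 : ℝ)) ((n : ℕ) : ℤ) - δ)
      = (conj s S)ᶜ.indicator (fun _ => (1 : ℝ)) ((n : ℕ) : ℤ) - (1 - δ)
    by_cases hx : ((n : ℕ) : ℤ) ∈ conj s S
    · rw [Set.indicator_of_mem hx, Set.indicator_of_notMem (show ((n : ℕ) : ℤ) ∉ (conj s S)ᶜ from fun h' => h' hx)]; ring
    · rw [Set.indicator_of_notMem hx, Set.indicator_of_mem (show ((n : ℕ) : ℤ) ∈ (conj s S)ᶜ from hx)]; ring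
  obtain ⟨A, hA, hev⟩ := mixing hs h (S := fun a : Fin k => if a ∈ p then S else Sᶜ)
    (fun a => by split_ifs; exacts [hS, compl_inv hS])
    (δ := fun a : Fin k => if a ∈ p then δ else 1 - δ)
    (fun a => by split_ifs <;> linarith) (fun a => by split_ifs <;> linarith)
    (fun a => by split_ifs; exacts [hm, hmc]) hε
  refine ⟨A, hA, ?_⟩
  filter_upwards [hev] with N hN i hi r hr
  have h2 := hN i hi r hr
  have e1 : ∏ a : Fin k, (if a ∈ p then δ else 1 - δ) = δ ^ #p * (1 - δ) ^ (k - #p) := by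
    rw [prod_ite, Finset.prod_const, Finset.prod_const]
    have e2 : (univ.filter fun a => a ∈ p) = p := by ext a; simp
    have e3 : (univ.filter fun a => a ∉ p) = pᶜ := by ext a; simp
    rw [e2, e3, card_compl, Fintype.card_fin]
  have e4 : prob N (fun n => ∀ a, s * (3 ^ i a * n + r a) ∈ S ↔ a ∈ p)
      = prob N (fun n => ∀ a, s * (3 ^ i a * n + r a) ∈ (if a ∈ p then S else Sᶜ)) := by
    apply prob_congr
    intro n _ _
    apply forall_congr'
    intro a
    split_ifs with ha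
    · simp only [ha, iff_true]
    · simp only [ha, iff_false]; rfl
  rw [e1] at h2
  rw [e4]
  exact h2

/-- the number of hits is asymptotically binomial -/
theorem binomial {s : ℤ} (hs : s = 1 ∨ s = -1) (h : S_MIXALL s) {S : Set ℤ} (hS : Invariant S)
    {δ : ℝ} (h0 : 0 ≤ δ) (h1 : δ ≤ 1) (hm : MeanZero (fun x => (conj s S).indicator (fun _ => (1 : ℝ)) x - δ))
    (k j : ℕ) {g : ℕ → ℕ} (hg1 : Tendsto (fun N : ℕ => (g N : ℝ) / √ (Real.log N)) atTop atTop)
    (hg2 : ∀ᶠ N : ℕ in atTop, (g N : ℝ) * k ≤ Real.log N ^ (0.50005 : ℝ)) :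
    Tendsto (fun N : ℕ => prob N fun n => hits s S k (g N) n = j) atTop
      (𝓝 (k.choose j * (δ ^ j * (1 - δ) ^ (k - j)))) := by
  classical
  rw [Metric.tendsto_atTop]
  intro ε hε
  obtain ⟨c, hc⟩ : ∃ c : ℝ, c = (2 : ℝ) ^ k := ⟨_, rfl⟩
  have hc0 : 0 < c := by rw [hc]; positivity
  choose A hA hev using fun p : Finset (Fin k) => patterns hs h hS h0 h1 hm k p (show 0 < ε / (2 * c) by positivity)
  have hlogt : Tendsto (fun N : ℕ => Real.log N) atTop atTop :=
    Real.tendsto_log_atTop.comp tendsto_natCast_atTop_atTop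
  have hall : ∀ᶠ N : ℕ in atTop, ∀ p : Finset (Fin k), ∀ i : Fin k → ℕ, Spread (A p) N i → ∀ r : Fin k → ℤ,
      (∀ a, |r a| ≤ 3 ^ i a) → |prob N (fun n => ∀ a, s * (3 ^ i a * n + r a) ∈ S ↔ a ∈ p)
        - δ ^ #p * (1 - δ) ^ (k - #p)| ≤ ε / (2 * c) := eventually_all.2 hev
  obtain ⟨N0, hN0⟩ := eventually_atTop.1 (hall.and ((hg1.eventually_ge_atTop (∑ p, A p)).and
    ((hlogt.eventually_ge_atTop 1).and (hg2.and (eventually_ge_atTop 1)))))
  refine ⟨N0, fun N hN => ?_⟩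
  obtain ⟨e1, e2, e3, e4, e5⟩ := hN0 N hN
  have hsq : 0 < √ (Real.log N) := Real.sqrt_pos.2 (by linarith)
  rw [le_div_iff₀ hsq] at e2
  obtain ⟨i, hi⟩ : ∃ i : Fin k → ℕ, i = fun a : Fin k => g N * (a : ℕ) := ⟨_, rfl⟩
  have hspread : ∀ p, Spread (A p) N i := by
    intro p
    refine ⟨fun a => ?_, fun a b hab => ?_⟩
    · rw [hi]
      push_cast
      refine le_trans ?_ e4
      apply mul_le_mul_of_nonneg_left _ (Nat.cast_nonneg _)
      exact_mod_cast a.2.le
    · rw [hi]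
      push_cast
      rw [← mul_sub, abs_mul, Nat.abs_cast]
      have h2 : (1 : ℝ) ≤ |((a : ℕ) : ℝ) - (b : ℕ)| := by
        have h3 : ((a : ℕ) : ℤ) - (b : ℕ) ≠ 0 := by
          intro h4
          apply hab
          apply Fin.ext
          omega
        have h5 : (1 : ℤ) ≤ |((a : ℕ) : ℤ) - (b : ℕ)| := Int.one_le_abs h3
        exact_mod_cast h5
      have h6 : A p * √ (Real.log N) ≤ g N := by
        refine le_trans (mul_le_mul_of_nonneg_right ?_ hsq.le) e2
        exact single_le_sum (f := A) (fun p _ => (hA p).le) (mem_univ p)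
      nlinarith [Nat.cast_nonneg (α := ℝ) (g N)]
  -- the patterns
  obtain ⟨Q, hQ⟩ : ∃ Q : Finset (Fin k) → ℕ → Prop,
      Q = fun (p : Finset (Fin k)) (n : ℕ) => ∀ a, s * (3 ^ i a * (n : ℤ) + (0 : ℤ)) ∈ S ↔ a ∈ p := ⟨_, rfl⟩
  have hQp : ∀ p, |prob N (Q p) - δ ^ #p * (1 - δ) ^ (k - #p)| ≤ ε / (2 * c) := by
    intro p
    rw [hQ]
    exact e1 p i (hspread p) (fun _ => 0) (fun a => by simp)
  have hsum := prob_sum (univ.filter fun p : Finset (Fin k) => #p = j) N Q (by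
    intro p _ p' _ hpp n hn hn'
    apply hpp
    rw [hQ] at hn hn'
    ext a
    exact (hn a).symm.trans (hn' a))
  have hev' : prob N (fun n => hits s S k (g N) n = j)
      = prob N (fun n => ∃ p ∈ (univ.filter fun p : Finset (Fin k) => #p = j), Q p n) := by
    apply prob_congr
    intro n _ _
    have h2 : hits s S k (g N) n = #(univ.filter fun a : Fin k => s * (3 ^ i a * (n : ℤ) + (0 : ℤ)) ∈ S) := by
      unfold hits
      have h3 : {a : ℕ | a < k ∧ s * (3 ^ (g N * a) * (n : ℤ)) ∈ S}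
          = (((univ.filter fun a : Fin k => s * (3 ^ i a * (n : ℤ) + (0 : ℤ)) ∈ S).map Fin.valEmbedding : Finset ℕ) : Set ℕ) := by
        ext a
        simp only [Set.mem_ofPred_eq, coe_map, Set.mem_image, mem_coe, mem_filter, mem_univ, true_and, hi, add_zero]
        constructor
        · rintro ⟨ha, hb⟩
          exact ⟨⟨a, ha⟩, hb, rfl⟩
        · rintro ⟨b, hb, rfl⟩
          exact ⟨b.2, hb⟩
      rw [h3, Set.ncard_coe_finset, card_map]
    rw [h2]
    constructor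
    · intro h3
      refine ⟨_, mem_filter.2 ⟨mem_univ _, h3⟩, ?_⟩
      rw [hQ]
      intro a
      simp
    · rintro ⟨p, hp, hqp⟩
      rw [hQ] at hqp
      have h4 : (univ.filter fun a : Fin k => s * (3 ^ i a * (n : ℤ) + (0 : ℤ)) ∈ S) = p := by
        ext a
        rw [mem_filter]
        simp only [mem_univ, true_and]
        exact hqp a
      rw [h4]
      exact (mem_filter.1 hp).2
  have hcard : #(univ.filter fun p : Finset (Fin k) => #p = j) = k.choose j := by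
    have : (univ.filter fun p : Finset (Fin k) => #p = j) = powersetCard j univ := by
      ext p; simp [mem_powersetCard]
    rw [this, card_powersetCard, card_univ, Fintype.card_fin]
  rw [hev', hsum, Real.dist_eq]
  have h5 : (k.choose j : ℝ) * (δ ^ j * (1 - δ) ^ (k - j))
      = ∑ p ∈ (univ.filter fun p : Finset (Fin k) => #p = j), δ ^ #p * (1 - δ) ^ (k - #p) := by
    rw [← hcard, ← nsmul_eq_mul, ← sum_const]
    apply sum_congr rfl
    intro p hp
    rw [(mem_filter.1 hp).2]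
  rw [h5, ← sum_sub_distrib]
  refine lt_of_le_of_lt (abs_sum_le_sum_abs _ _) ?_
  refine lt_of_le_of_lt (sum_le_sum fun p _ => hQp p) ?_
  rw [sum_const, nsmul_eq_mul]
  have h6 : (#(univ.filter fun p : Finset (Fin k) => #p = j) : ℝ) ≤ c := by
    rw [hc]
    have h7 := card_filter_le (univ : Finset (Finset (Fin k))) (fun p => #p = j)
    rw [card_univ, Fintype.card_finset, Fintype.card_fin] at h7
    exact_mod_cast h7
  calc (#(univ.filter fun p : Finset (Fin k) => #p = j) : ℝ) * (ε / (2 * c)) ≤ c * (ε / (2 * c)) :=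
        mul_le_mul_of_nonneg_right h6 (by positivity)
    _ = ε / 2 := by field_simp
    _ < ε := by linarith

/-- **Mixing of all orders for the invariant sets of the Collatz map.** -/
theorem result (h : ∀ s : ℤ, s = 1 ∨ s = -1 → S_MIXALL s) :
    -- the classes of integers whose trajectories meet: densities, asymptotic independence
    (∀ s : ℤ, s = 1 ∨ s = -1 → ∃ μ : {a : ℤ // IsRep s a} → ℝ, HasSum μ 1 ∧
      (∀ a, 0 < μ a ∧ HasDensity s {x | Meet x a} (μ a)) ∧ ∀ k : ℕ, Independent s μ k) ∧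
    -- invariant sets
    (∀ s : ℤ, s = 1 ∨ s = -1 → ∀ (k : ℕ) (S : Fin k → Set ℤ), (∀ a, Invariant (S a)) →
      ∃ δ : Fin k → ℝ, (∀ a, HasDensity s (S a) (δ a)) ∧ ∀ ε : ℝ, 0 < ε → ∃ A : ℝ, 0 < A ∧ ∀ᶠ N : ℕ in atTop,
        ∀ i : Fin k → ℕ, Spread A N i → ∀ r : Fin k → ℤ, (∀ a, |r a| ≤ 3 ^ i a) →
          |prob N (fun n => ∀ a, s * (3 ^ i a * n + r a) ∈ S a) - ∏ a, δ a| ≤ ε) ∧
    -- the binomial law
    (∀ s : ℤ, s = 1 ∨ s = -1 → ∀ S : Set ℤ, Invariant S → ∃ δ : ℝ, HasDensity s S δ ∧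
      ∀ (k j : ℕ) (g : ℕ → ℕ), Tendsto (fun N : ℕ => (g N : ℝ) / √ (Real.log N)) atTop atTop →
        (∀ᶠ N : ℕ in atTop, (g N : ℝ) * k ≤ Real.log N ^ (0.50005 : ℝ)) →
        Tendsto (fun N : ℕ => prob N fun n => hits s S k (g N) n = j) atTop
          (𝓝 (k.choose j * (δ ^ j * (1 - δ) ^ (k - j))))) ∧
    -- all or every pattern: Q1 for the integers of sign `s`
    (∀ s : ℤ, s = 1 ∨ s = -1 → (∀ x : ℤ, 0 < s * x → Reaches x) ∨
      ∃ δ : ℝ, 0 < δ ∧ δ < 1 ∧ ∀ (k : ℕ) (p : Finset (Fin k)) (ε : ℝ), 0 < ε → ∃ A : ℝ, 0 < A ∧ ∀ᶠ N : ℕ in atTop,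
        ∀ i : Fin k → ℕ, Spread A N i → ∀ r : Fin k → ℤ, (∀ a, |r a| ≤ 3 ^ i a) →
          |prob N (fun n => ∀ a, Reaches (s * (3 ^ i a * n + r a)) ↔ a ∈ p) - δ ^ #p * (1 - δ) ^ (k - #p)| ≤ ε) := by
  refine ⟨fun s hs => ?_, fun s hs k S hS => ?_, fun s hs S hS => ?_, fun s hs => ?_⟩
  · obtain ⟨μ, hsum, hμ⟩ := classes hs
    exact ⟨μ, hsum, fun a => ⟨(hμ a).1, density_of_mz (hμ a).2.2⟩, fun k => indep hs (h s hs) hsum hμ k⟩
  · choose δ h0 h1 _ hm using fun a => mz_all hs (hS a)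
    exact ⟨δ, fun a => density_of_mz (hm a), fun ε hε => mixing hs (h s hs) hS h0 h1 hm hε⟩
  · obtain ⟨δ, h0, h1, _, hm⟩ := mz_all hs hS
    exact ⟨δ, density_of_mz hm, fun k j g hg1 hg2 => binomial hs (h s hs) hS h0 h1 hm k j hg1 hg2⟩
  · by_cases hall : ∀ x : ℤ, 0 < s * x → Reaches x
    · exact Or.inl hall
    · right
      push Not at hall
      obtain ⟨x, hx, hxR⟩ := hall
      obtain ⟨δ, h0, h1, h2, hm⟩ := mz_all hs reaches_inv
      obtain ⟨δ', h0', h1', h2', hm'⟩ := mz_all hs (compl_inv reaches_inv)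
      have hd := density_of_mz hm
      have hd' := density_of_mz hm'
      have h5 : HasDensity s {x | Reaches x}ᶜ (1 - δ) := by
        unfold HasDensity at hd ⊢
        refine (hd.const_sub 1).congr' ?_
        filter_upwards [eventually_ge_atTop 1] with N hN
        exact (prob_not hN fun n => s * n ∈ {x | Reaches x}).symm
      have h6 : δ' = 1 - δ := tendsto_nhds_unique hd' h5
      have h7 := h2' ⟨x, hxR, hx⟩
      refine ⟨δ, h2 (sq_le_one hs), by linarith, fun k p ε hε => ?_⟩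
      exact patterns hs (h s hs) reaches_inv h0 h1 hm k p hε

end Pool.Agent.Results.MP_d02c56_nt.Mixing
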