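import Mathlib
import Pool.Agent.KS6_24.ST.KLDefs

/-!
PROJECT PF: the law of coalescing simple random walks in closed form (Pfaffians). Statement of the job.

For ordered walkers of the same parity the blocks are intervals, and the probability that the walkers `l 0, l 1` are merged
and `l 2, l 3` are merged, ... (after `t` steps) is the Pfaffian of `K (l b - l a)`, `a < b`, `K D = 1 - UU (2 t) D`.

Proof. State = list `l` of positions, sorted, one parity; a step is `l.map (fun z => z + σ z)`, `σ` a field of signs
(`EP` in `EPf.lean`; it keeps the order and the parity). `Wl t l` = probability that the pairs are merged.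
(a) distinct positions: the steps are independent, each term of the Pfaffian is a product over disjoint pairs, and
`E K_t (difference) = K_(t+1)` (`UU_two`), so `E pf K_t = pf K_(t+1)`.
(b) two neighbours of the list at the same place: both sides do not change if the two are removed (`K 0 = 1`; the other terms
of the Pfaffian cancel).
Time 0: if all are distinct, `K_0 = 0` there.
Then `δ ^ #(image x) = δ Π_j (δ + (1 - δ) [x_j = x_(j+1)])` for ordered `x`.
-/

set_option autoImplicit false

namespace Pool.Agent.KS6_24.ST

open Finset

/-- The Pfaffian of the antisymmetric matrix of size `2 m` with the entries `K (l b - l a)`, `a < b`, by expansion along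
the first row. -/
noncomputable def pfm (K : ℤ → ℝ) : ℕ → List ℤ → ℝ
  | 0, _ => 1
  | _ + 1, [] => 0
  | m + 1, x :: l => ∑ j ∈ range l.length, (-1) ^ j * K (l.getD j 0 - x) * pfm K m (l.eraseIdx j)

/-- The points `y j, y (j + 1)`, `j ∈ A`. -/
def pts (y : ℕ → ℤ) (A : Finset ℕ) : List ℤ := (A.sort (· ≤ ·)).flatMap fun j => [y j, y (j + 1)]

/-- PF (helper12): the mean of `δ ^ (number of blocks)` for coalescing walks. -/
def S_PF : Prop := ∀ (k : ℕ) (δ : ℝ) (y : ℕ → ℤ), 1 ≤ k → Monotone y → (∀ a b, (y a - y b) % 2 = 0) → ∀ t : ℕ,
  Cw (fun x : Fin k → ℤ => δ ^ #(univ.image x)) t (fun a => y a)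
    = ∑ A ∈ (range (k - 1)).powerset, δ ^ (k - #A) * (1 - δ) ^ #A * pfm (fun D => 1 - UU (2 * t) D) #A (pts y A)

end Pool.Agent.KS6_24.ST
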