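import Mathlib
import Pool.Agent.KS6_24.LN.Dens
import Pool.Agent.KS6_24.ST.PL8
import Pool.Agent.KS6_24.ST.Main

set_option autoImplicit false

/-!
# The pair law for the invariant sets of the Collatz map

Let `S` be a set of integers that is invariant under the Collatz map (`x ∈ S` iff `C x ∈ S`) and contains an
integer of sign `s`; for example the integers whose trajectory meets the trajectory of a given integer, or the
integers that do not reach the known cycles, if there are any. It has a density `δ > 0` on the integers of sign `s`.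

* Pair law: for `i ≤ (log N) ^ 0.50005` and `|r| ≤ 3 ^ i` the probability that `s n` and `s (3 ^ i n + r)`, `n ≤ N`, are
  both in `S` is `δ² + δ (1 - δ) erfc (i √(log (4/3) / (2 log N))) + o(1)`, uniformly in `i` and `r`.
* Law of large numbers: the proportion of members of `S` among the `K N` integers `s 3 ^ i n`, `i < K N`, tends to `δ`
  in probability if and only if `K N / √(log N)` tends to infinity.
* Meeting law: there is a `Θ ∈ (0, 1]` such that the trajectories of `s n` and `s (3 ^ i n + r)`, `n ≤ N`, meet with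
  probability `Θ + (1 - Θ) erfc (i √(log (4/3) / (2 log N))) + o(1)`, and `Θ = 1` iff all trajectories of integers of
  sign `s` meet.
* Q1: if `c √(log N) ≤ i N ≤ (log N) ^ 0.50005`, then all integers of sign `s` reach the known cycles if and only if
  `s 3 ^ (i N) n` reaches them whenever `s n` does, with the exception of `o(N)` of the `n ≤ N`.

`log (4/3) / 2` is the mean decrease of `log n` in a step of the accelerated map; the difference of the numbers of
odd steps of the trajectories of `n` and `3 ^ i n` is a random walk, and the two trajectories meet when it hits `i`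
before they come down (`erfc`), and behave as if they were independent otherwise.
-/

namespace Pool.Agent.Results.MP_d02c56_nt.PairLaw

open Filter Topology

/-- The Collatz map on the integers. -/
def C (x : ℤ) : ℤ := if x % 2 = 0 then x / 2 else 3 * x + 1

/-- `S` is invariant under the Collatz map and its inverse. -/
def Invariant (S : Set ℤ) : Prop := ∀ x : ℤ, x ∈ S ↔ C x ∈ S

/-- The trajectories of `x` and `y` meet. -/
def Meet (x y : ℤ) : Prop := ∃ k l : ℕ, C^[k] x = C^[l] y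

/-- The union of the five known cycles. -/
def Known : Finset ℤ := {1, 4, 2, -1, -2, -5, -14, -7, -20, -10, -17, -50, -25, -74, -37, -110,
  -55, -164, -82, -41, -122, -61, -182, -91, -272, -136, -68, -34, 0}

/-- The trajectory of `x` reaches one of the five known cycles. -/
def Reaches (x : ℤ) : Prop := ∃ k : ℕ, C^[k] x ∈ Known

/-- The proportion of the `n` with `P n` among `1, ..., N`. -/
noncomputable def prob (N : ℕ) (P : ℕ → Prop) : ℝ := ({n : ℕ | 1 ≤ n ∧ n ≤ N ∧ P n}.ncard : ℝ) / N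

/-- The complementary error function. -/
noncomputable def erfc (x : ℝ) : ℝ := 1 - 2 / √Real.pi * ∫ y in (0 : ℝ)..x, Real.exp (-y ^ 2)

/-- `erfc (i √(log (4/3) / (2 log N)))`. -/
noncomputable def tau (N i : ℕ) : ℝ := erfc (i * √ (Real.log (4 / 3) / (2 * Real.log N)))

/-- The pair law: the probability that `s n` and `s (3 ^ i n + r)` are both in `S`. -/
def Pairs (s : ℤ) (S : Set ℤ) (δ : ℝ) : Prop :=
  ∀ ε : ℝ, 0 < ε → ∀ᶠ N : ℕ in atTop, ∀ i : ℕ, (i : ℝ) ≤ Real.log N ^ (0.50005 : ℝ) → ∀ r : ℤ, |r| ≤ 3 ^ i →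
    |prob N (fun n => s * n ∈ S ∧ s * (3 ^ i * n + r) ∈ S) - (δ ^ 2 + δ * (1 - δ) * tau N i)| ≤ ε

/-- The meeting law: the probability that the trajectories of `s n` and `s (3 ^ i n + r)` meet. -/
def Meetings (s : ℤ) (Θ : ℝ) : Prop :=
  ∀ ε : ℝ, 0 < ε → ∀ᶠ N : ℕ in atTop, ∀ i : ℕ, (i : ℝ) ≤ Real.log N ^ (0.50005 : ℝ) → ∀ r : ℤ, |r| ≤ 3 ^ i →
    |prob N (fun n => Meet (s * n) (s * (3 ^ i * n + r))) - (Θ + (1 - Θ) * tau N i)| ≤ ε

/-- The number of `i < K` for which `s 3 ^ i n` is in `S`. -/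
noncomputable def multiples (s : ℤ) (S : Set ℤ) (n K : ℕ) : ℕ := {i : ℕ | i < K ∧ s * (3 ^ i * n) ∈ S}.ncard

/-- The law of large numbers for `s 3 ^ i n`, `i < K N`, `n ≤ N`. -/
def LLN (s : ℤ) (S : Set ℤ) (δ : ℝ) (K : ℕ → ℕ) : Prop :=
  ∀ ε : ℝ, 0 < ε → Tendsto (fun N : ℕ => prob N (fun n => ε < |(multiples s S n (K N) : ℝ) / K N - δ|)) atTop (𝓝 0)

open Pool.Agent.KS6_24.LN Pool.Agent.H499R2.CO Pool.Agent.Y965.SI Finset Pool.Agent.KS6_24.ST
open Pool.Agent.T6.H47.CL (Er Er_eq Er_le_one Er_nonneg Er_mono)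
open Pool.Agent.H499R2.ND (Ci Kc IsRep Kc_self Kc_symm Kc_trans structure_full)

/-! ### transfer to the accelerated map -/

theorem Tz1_mem {S : Set ℤ} (hS : Invariant S) (y : ℤ) : Tz 1 y ∈ S ↔ y ∈ S := by
  unfold Tz
  by_cases h : y % 2 = 0
  · rw [if_pos h, hS y]
    unfold C
    rw [if_pos h]
  · rw [if_neg h, hS y, hS (C y)]
    have h1 : C (C y) = (3 * y + 1) / 2 := by
      unfold C
      rw [if_neg h, if_pos (by omega)]
    rw [h1]

/-- the conjugated set -/
def conj (s : ℤ) (S : Set ℤ) : Set ℤ := {x | s * x ∈ S}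

theorem conj_inv {s : ℤ} (hs : s = 1 ∨ s = -1) {S : Set ℤ} (hS : Invariant S) (x : ℤ) :
    Tz s x ∈ conj s S ↔ x ∈ conj s S := by
  have hss : ∀ x : ℤ, s * (s * x) = x := by intro x; rcases hs with rfl | rfl <;> ring
  have h1 : s * Tz s x = Tz 1 (s * x) := by
    have := dens_Tz_mul hs (s * x)
    rw [hss] at this
    rw [this, hss]
  show s * Tz s x ∈ S ↔ s * x ∈ S
  rw [h1]
  exact Tz1_mem hS _

theorem sign_of_pos {s : ℤ} (hs : s = 1 ∨ s = -1) {S : Set ℤ} (h : ∃ x ∈ S, 0 < s * x) :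
    ∃ x ∈ conj s S, 0 < x := by
  have hss : ∀ x : ℤ, s * (s * x) = x := by intro x; rcases hs with rfl | rfl <;> ring
  obtain ⟨x, hx, h0⟩ := h
  exact ⟨s * x, by show s * (s * x) ∈ S; rw [hss]; exact hx, h0⟩

/-! ### proportions -/

theorem prob_eq (N : ℕ) (P : ℕ → Prop) [DecidablePred P] : prob N P = (#{n ∈ Icc 1 N | P n} : ℝ) / N := by
  unfold prob
  rw [← Set.ncard_coe_finset]
  congr 3
  ext x
  simp only [Set.mem_ofPred_eq, coe_filter, mem_Icc, and_assoc]

theorem prob_nonneg (N : ℕ) (P : ℕ → Prop) : 0 ≤ prob N P := by unfold prob; positivity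

theorem prob_mono {N : ℕ} {P Q : ℕ → Prop} (h : ∀ n, 1 ≤ n → n ≤ N → P n → Q n) : prob N P ≤ prob N Q := by
  classical
  rw [prob_eq, prob_eq]
  apply div_le_div_of_nonneg_right _ (Nat.cast_nonneg _)
  have : #{n ∈ Icc 1 N | P n} ≤ #{n ∈ Icc 1 N | Q n} := by
    apply card_le_card
    intro n hn
    rw [mem_filter, mem_Icc] at hn ⊢
    exact ⟨hn.1, h n hn.1.1 hn.1.2 hn.2⟩
  exact_mod_cast this

theorem prob_congr {N : ℕ} {P Q : ℕ → Prop} (h : ∀ n, 1 ≤ n → n ≤ N → (P n ↔ Q n)) : prob N P = prob N Q :=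
  le_antisymm (prob_mono fun n h1 h2 => (h n h1 h2).1) (prob_mono fun n h1 h2 => (h n h1 h2).2)

theorem prob_le_one (N : ℕ) (P : ℕ → Prop) : prob N P ≤ 1 := by
  classical
  rw [prob_eq]
  apply div_le_one_of_le₀ _ (Nat.cast_nonneg _)
  have : #{n ∈ Icc 1 N | P n} ≤ N := by
    refine (card_filter_le _ _).trans ?_
    rw [Nat.card_Icc]; omega
  exact_mod_cast this

theorem prob_split (N : ℕ) (P Q : ℕ → Prop) : prob N P = prob N (fun n => P n ∧ Q n) + prob N (fun n => P n ∧ ¬ Q n) := by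
  classical
  rw [prob_eq, prob_eq, prob_eq, ← add_div]
  congr 1
  have := card_filter_add_card_filter_not (s := (Icc 1 N).filter P) Q
  rw [filter_filter, filter_filter] at this
  exact_mod_cast this.symm

theorem prob_not {N : ℕ} (hN : 1 ≤ N) (P : ℕ → Prop) : prob N (fun n => ¬ P n) = 1 - prob N P := by
  have h1 := prob_split N (fun _ => True) P
  have h2 : prob N (fun _ => True) = 1 := by
    classical
    rw [prob_eq, filter_true_of_mem (fun _ _ => trivial), Nat.card_Icc, Nat.add_sub_cancel]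
    have : (0 : ℝ) < N := by exact_mod_cast hN
    field_simp
  simp only [true_and] at h1
  linarith

/-- finitely many disjoint events -/
theorem prob_sum {ι : Type*} (A : Finset ι) (N : ℕ) (P : ι → ℕ → Prop)
    (hd : ∀ a ∈ A, ∀ b ∈ A, a ≠ b → ∀ n, P a n → ¬ P b n) :
    prob N (fun n => ∃ a ∈ A, P a n) = ∑ a ∈ A, prob N (P a) := by
  classical
  simp only [prob_eq]
  rw [← sum_div]
  congr 1
  have e : (Icc 1 N).filter (fun n => ∃ a ∈ A, P a n) = A.biUnion fun a => (Icc 1 N).filter (P a) := by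
    ext n
    simp only [mem_filter, mem_biUnion]
    tauto
  rw [e, card_biUnion]
  · push_cast; rfl
  · intro a ha b hb hab
    show Disjoint _ _
    rw [disjoint_left]
    intro n hn hn'
    exact hd a ha b hb hab n (mem_filter.1 hn).2 (mem_filter.1 hn').2

/-! ### the density -/

theorem density_of_mz {s : ℤ} {S : Set ℤ} {δ : ℝ}
    (h : MeanZero (fun x => (conj s S).indicator (fun _ => (1 : ℝ)) x - δ)) :
    Tendsto (fun N : ℕ => prob N fun n => s * n ∈ S) atTop (𝓝 δ) := by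
  classical
  set ind : ℤ → ℝ := (conj s S).indicator (fun _ => (1 : ℝ)) with hind
  have hind01 : ∀ x, 0 ≤ ind x ∧ ind x ≤ 1 := by
    intro x
    simp only [hind, Set.indicator]
    split_ifs <;> norm_num
  have hc : ∀ N : ℕ, ({n : ℕ | 1 ≤ n ∧ n ≤ N ∧ s * n ∈ S}.ncard : ℝ) = ∑ n ∈ range N, ind ((n + 1 : ℕ)) := by
    intro N
    have e1 : {n : ℕ | 1 ≤ n ∧ n ≤ N ∧ s * n ∈ S}
        = (((range N).filter fun n : ℕ => ((n + 1 : ℕ) : ℤ) ∈ conj s S).image fun n : ℕ => n + 1 : Finset ℕ) := by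
      ext n
      simp only [Set.mem_ofPred_eq, coe_image, coe_filter, mem_range, Set.mem_image]
      constructor
      · rintro ⟨ha, hb, hc⟩
        refine ⟨n - 1, ⟨by omega, ?_⟩, by omega⟩
        rw [Nat.sub_add_cancel ha]; exact hc
      · rintro ⟨m, ⟨hm, hmS⟩, rfl⟩
        exact ⟨by omega, by omega, hmS⟩
    rw [e1, Set.ncard_coe_finset, card_image_of_injective _ (fun a b h => Nat.succ_injective h), card_filter]
    push_cast
    apply sum_congr rfl
    intro n _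
    simp only [hind, Set.indicator]
    try push_cast
    try rfl
  have hs : ∀ N : ℕ, ∑ n ∈ range N, (ind (n : ℕ) - δ)
      = ∑ n ∈ range N, ind ((n + 1 : ℕ)) + (ind 0 - ind N) - N * δ := by
    intro N
    have e1 := sum_range_succ (fun n : ℕ => ind (n : ℕ)) N
    have e2 := sum_range_succ' (fun n : ℕ => ind (n : ℕ)) N
    rw [sum_sub_distrib, sum_const, card_range, nsmul_eq_mul]
    simp only [Nat.cast_zero] at e2
    linarith
  unfold MeanZero at h
  have h5 : Tendsto (fun N : ℕ => (ind 0 - ind N) / N) atTop (𝓝 0) := by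
    apply squeeze_zero_norm (a := fun N : ℕ => 1 / (N : ℝ))
    · intro N
      rw [Real.norm_eq_abs, abs_div, Nat.abs_cast]
      gcongr
      rw [abs_le]
      constructor <;> linarith [(hind01 0).1, (hind01 0).2, (hind01 N).1, (hind01 N).2]
    · exact tendsto_one_div_atTop_nhds_zero_nat
  have h6 := (h.sub h5).add_const δ
  rw [sub_zero, zero_add] at h6
  unfold prob
  apply h6.congr'
  filter_upwards [eventually_gt_atTop 0] with N hN
  have hN' : (N : ℝ) ≠ 0 := by positivity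
  rw [hc]
  have := hs N
  show (∑ n ∈ range N, (ind (n : ℕ) - δ)) / N - (ind 0 - ind N) / N + δ = _
  rw [this]
  field_simp
  ring

/-! ### invariant sets -/

theorem compl_inv {S : Set ℤ} (hS : Invariant S) : Invariant Sᶜ := fun x => not_congr (hS x)

theorem meet_inv (a : ℤ) : Invariant {x | Meet x a} := by
  intro x
  constructor
  · rintro ⟨k, l, h⟩
    refine ⟨k, l + 1, ?_⟩
    rw [← Function.iterate_succ_apply, Function.iterate_succ_apply', h, Function.iterate_succ_apply']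
  · rintro ⟨k, l, h⟩
    exact ⟨k + 1, l, by rw [Function.iterate_succ_apply]; exact h⟩

theorem known_closed : ∀ x ∈ Known, C x ∈ Known := by decide

theorem reaches_inv : Invariant {x | Reaches x} := by
  intro x
  constructor
  · rintro ⟨k, h⟩
    refine ⟨k, ?_⟩
    rw [← Function.iterate_succ_apply, Function.iterate_succ_apply']
    exact known_closed _ h
  · rintro ⟨k, h⟩
    exact ⟨k + 1, by rw [Function.iterate_succ_apply]; exact h⟩

theorem meet_iff_Kc (x y : ℤ) : Meet x y ↔ x ∈ Kc y := Iff.rfl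

theorem Meet.symm {x y : ℤ} (h : Meet x y) : Meet y x := Kc_symm h

theorem Meet.trans {x y z : ℤ} (h : Meet x y) (h' : Meet y z) : Meet x z := Kc_trans h h'

/-! ### the pair law -/

theorem tau_eq (N i : ℕ) : tau N i = 1 - Er (√2 * (i * √ (gm / Real.log N))) := by
  unfold tau erfc
  rw [Er_eq]
  have e : Real.log (4 / 3) / (2 * Real.log N) = gm / Real.log N := by
    unfold gm
    rw [Real.log_div (by norm_num) (by norm_num), show (4 : ℝ) = 2 ^ 2 by norm_num, Real.log_pow]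
    push_cast
    rw [div_mul_eq_div_div]
    congr 1
    ring
  rw [e]

theorem tau_nonneg (N i : ℕ) : 0 ≤ tau N i := by
  rw [tau_eq]; have := Er_le_one (√2 * (i * √ (gm / Real.log N))); linarith

theorem tau_le_one (N i : ℕ) : tau N i ≤ 1 := by
  rw [tau_eq]; have := Er_nonneg (x := √2 * (i * √ (gm / Real.log N))) (by positivity); linarith

theorem pair_law {s : ℤ} (hs : s = 1 ∨ s = -1) (h : S_PAIRLAW s) {S : Set ℤ} (hS : Invariant S) {δ : ℝ} (h0 : 0 ≤ δ)
    (h1 : δ ≤ 1) (hm : MeanZero (fun x => (conj s S).indicator (fun _ => (1 : ℝ)) x - δ)) : Pairs s S δ := by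
  classical
  intro ε hε
  obtain ⟨N0, hN0⟩ := h (conj s S) (conj_inv hs hS) δ h0 h1 hm ε hε
  filter_upwards [eventually_ge_atTop (max N0 1)] with N hN i hi r hr
  have hN1 : 1 ≤ N := (le_max_right _ _).trans hN
  have hN' : (0 : ℝ) < N := by exact_mod_cast hN1
  have h2 := hN0 N ((le_max_left _ _).trans hN) i hi r hr
  rw [prob_eq, tau_eq]
  have e : (#{n ∈ Icc 1 N | s * ((n : ℕ) : ℤ) ∈ S ∧ s * (3 ^ i * ((n : ℕ) : ℤ) + r) ∈ S} : ℝ) / N
      - (δ ^ 2 + δ * (1 - δ) * (1 - Er (√2 * (i * √ (gm / Real.log N)))))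
      = ((#{n ∈ Icc 1 N | s * ((n : ℕ) : ℤ) ∈ S ∧ s * (3 ^ i * ((n : ℕ) : ℤ) + r) ∈ S} : ℝ)
      - (δ ^ 2 + δ * (1 - δ) * (1 - Er (√2 * (i * √ (gm / Real.log N))))) * N) / N := by
    field_simp
  have hc : #{n ∈ Icc 1 N | s * ((n : ℕ) : ℤ) ∈ S ∧ s * (3 ^ i * ((n : ℕ) : ℤ) + r) ∈ S}
      = #{n ∈ Icc 1 N | ((n : ℕ) : ℤ) ∈ conj s S ∧ 3 ^ i * ((n : ℕ) : ℤ) + r ∈ conj s S} := by
    congr 1
  rw [e, abs_div, abs_of_pos hN', div_le_iff₀ hN', hc]
  exact h2

/-! ### the meeting law -/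

theorem mz_class {s : ℤ} (hs : s = 1 ∨ s = -1) {δ : ℤ → ℝ} {a : ℤ} (ha : 0 < s * a)
    (h : Tendsto (fun N : ℕ => ({n : ℤ | 0 < s * n ∧ s * n ≤ N ∧
        ∃ i j : ℕ, Ci^[i] n = Ci^[j] a}.ncard : ℝ) / N) atTop (𝓝 (δ a))) :
    0 < δ a ∧ δ a ≤ 1 ∧ MeanZero (fun x => (conj s {x | Meet x a}).indicator (fun _ => (1 : ℝ)) x - δ a) := by
  obtain ⟨δ', h1, h2, h3⟩ := dens hs (conj s {x | Meet x a}) (conj_inv hs (meet_inv a))
    (sign_of_pos hs ⟨a, ⟨0, 0, rfl⟩, ha⟩)
  have h4 := density_of_mz h3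
  have hss : ∀ x : ℤ, s * (s * x) = x := by intro x; rcases hs with rfl | rfl <;> ring
  have h5 : ∀ N : ℕ, ({n : ℤ | 0 < s * n ∧ s * n ≤ N ∧ ∃ i j : ℕ, Ci^[i] n = Ci^[j] a}.ncard : ℝ) / N
      = prob N fun n => s * n ∈ {x | Meet x a} := by
    intro N
    unfold prob
    congr 2
    rw [← Set.ncard_image_of_injective (f := fun n : ℕ => s * (n : ℤ))]
    · congr 1
      ext x
      simp only [Set.mem_ofPred_eq, Set.mem_image]
      constructor
      · rintro ⟨hx1, hx2, hx3⟩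
        refine ⟨(s * x).toNat, ⟨by omega, by omega, ?_⟩, ?_⟩
        · have : s * (((s * x).toNat : ℕ) : ℤ) = x := by
            rw [Int.toNat_of_nonneg hx1.le, hss]
          rw [this]; exact hx3
        · rw [Int.toNat_of_nonneg hx1.le, hss]
      · rintro ⟨n, ⟨hn1, hn2, hn3⟩, rfl⟩
        rw [hss]
        exact ⟨by exact_mod_cast hn1, by exact_mod_cast hn2, hn3⟩
    · intro a b hab
      simp only at hab
      have : s * (s * (a : ℤ)) = s * (s * (b : ℤ)) := by rw [hab]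
      rw [hss, hss] at this
      exact_mod_cast this
  have h6 : δ' = δ a := by
    refine tendsto_nhds_unique h4 (h.congr h5)
  rw [← h6]
  exact ⟨h1, h2, h3⟩

/-- every integer of sign `s` meets a representative -/
theorem exists_rep {s : ℤ} (hs : s = 1 ∨ s = -1) {x : ℤ} (hx : 0 < s * x) : ∃ a : ℤ, IsRep s a ∧ Meet x a := by
  classical
  have hss : ∀ x : ℤ, s * (s * x) = x := by intro x; rcases hs with rfl | rfl <;> ring
  have hne : ∃ n : ℕ, 0 < n ∧ Meet x (s * n) := by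
    refine ⟨(s * x).toNat, by omega, 0, 0, ?_⟩
    simp only [Function.iterate_zero, id]
    rw [Int.toNat_of_nonneg hx.le, hss]
  obtain ⟨hn0, hm⟩ := Nat.find_spec hne
  refine ⟨s * (Nat.find hne : ℕ), ⟨by rw [hss]; exact_mod_cast hn0, ?_⟩, hm⟩
  intro b hb hmb
  rw [hss]
  have h1 : ((s * b).toNat : ℤ) = s * b := Int.toNat_of_nonneg hb.le
  have h2 : Nat.find hne ≤ (s * b).toNat := by
    apply Nat.find_min' hne
    refine ⟨by omega, ?_⟩
    rw [h1, hss]
    exact hm.trans hmb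
  have h3 : ((Nat.find hne : ℕ) : ℤ) ≤ ((s * b).toNat : ℤ) := by exact_mod_cast h2
  rwa [h1] at h3

theorem rep_unique {s : ℤ} (hs : s = 1 ∨ s = -1) {a b : ℤ} (ha : IsRep s a) (hb : IsRep s b) (h : Meet a b) : a = b := by
  have h1 := ha.2 b hb.1 h
  have h2 := hb.2 a ha.1 h.symm
  rcases hs with rfl | rfl <;> omega

/-- the classes: densities `δ a` of the classes of the representatives, summing to 1 -/
theorem classes {s : ℤ} (hs : s = 1 ∨ s = -1) : ∃ δ : {a : ℤ // IsRep s a} → ℝ, HasSum δ 1 ∧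
    ∀ a, 0 < δ a ∧ δ a ≤ 1 ∧ MeanZero (fun x => (conj s {x | Meet x a}).indicator (fun _ => (1 : ℝ)) x - δ a) := by
  obtain ⟨δ, h1, _, h3⟩ := structure_full hs
  exact ⟨fun a => δ a, h3, fun a => mz_class hs a.2.1 (h1 a a.2.1).2⟩

/-- finitely many classes and the meeting probability -/
theorem meet_finite {s : ℤ} (N : ℕ) (hN : 1 ≤ N) (A : Finset {a : ℤ // IsRep s a}) (hs : s = 1 ∨ s = -1) (g : ℕ → ℤ) :
    |prob N (fun n => Meet (s * n) (g n)) - ∑ a ∈ A, prob N (fun n => s * n ∈ {x | Meet x a} ∧ g n ∈ {x | Meet x a})|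
      ≤ 1 - ∑ a ∈ A, prob N (fun n => s * n ∈ {x | Meet x a}) := by
  have hdis : ∀ a ∈ A, ∀ b ∈ A, a ≠ b → ∀ x : ℤ, Meet x a → ¬ Meet x b := by
    intro a _ b _ hab x hxa hxb
    apply hab
    exact Subtype.ext (rep_unique hs a.2 b.2 (hxa.symm.trans hxb))
  have h1 := prob_sum A N (fun a n => s * (n : ℤ) ∈ {x | Meet x a} ∧ g n ∈ {x | Meet x a})
    (fun a ha b hb hab n hn hn' => hdis a ha b hb hab _ hn.1 hn'.1)
  have h2 := prob_sum A N (fun a n => s * (n : ℤ) ∈ {x | Meet x a})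
    (fun a ha b hb hab n hn hn' => hdis a ha b hb hab _ hn hn')
  have h3 := prob_split N (fun n => Meet (s * n) (g n)) (fun n => ∃ a ∈ A, s * (n : ℤ) ∈ {x | Meet x a})
  have h4 : prob N (fun n => Meet (s * n) (g n) ∧ ∃ a ∈ A, s * (n : ℤ) ∈ {x | Meet x a})
      = prob N (fun n => ∃ a ∈ A, s * (n : ℤ) ∈ {x | Meet x a} ∧ g n ∈ {x | Meet x a}) := by
    apply prob_congr
    intro n _ _
    constructor
    · rintro ⟨hm, a, ha, hn⟩
      exact ⟨a, ha, hn, Meet.trans (Meet.symm hm) hn⟩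
    · rintro ⟨a, ha, hn, hn'⟩
      exact ⟨Meet.trans hn (Meet.symm hn'), a, ha, hn⟩
  have h5 : prob N (fun n => Meet (s * n) (g n) ∧ ¬ ∃ a ∈ A, s * (n : ℤ) ∈ {x | Meet x a})
      ≤ prob N (fun n => ¬ ∃ a ∈ A, s * (n : ℤ) ∈ {x | Meet x a}) := prob_mono fun n _ _ h => h.2
  rw [prob_not hN] at h5
  have h6 := prob_nonneg N (fun n => Meet (s * n) (g n) ∧ ¬ ∃ a ∈ A, s * (n : ℤ) ∈ {x | Meet x a})
  rw [h3, h4, h1]
  rw [h2] at h5
  rw [abs_le]
  constructor <;> linarith

theorem meeting_law {s : ℤ} (hs : s = 1 ∨ s = -1) (h : S_PAIRLAW s) :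
    ∃ Θ : ℝ, 0 < Θ ∧ Θ ≤ 1 ∧ (Θ = 1 ↔ ∀ x y : ℤ, 0 < s * x → 0 < s * y → Meet x y) ∧ Meetings s Θ := by
  classical
  obtain ⟨δ, hsum, hδ⟩ := classes hs
  have hsq_le : ∀ a, δ a ^ 2 ≤ δ a := fun a => by
    have := hδ a; nlinarith [this.1, this.2.1]
  have hsq : Summable (fun a => δ a ^ 2) :=
    Summable.of_nonneg_of_le (fun a => sq_nonneg _) hsq_le hsum.summable
  have hle : ∑' a, δ a ^ 2 ≤ 1 := by
    rw [← hsum.tsum_eq]
    exact hsq.tsum_le_tsum hsq_le hsum.summable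
  have hs1 : 0 < s * s := by rcases hs with rfl | rfl <;> norm_num
  obtain ⟨a0, ha0, _⟩ := exists_rep hs hs1
  refine ⟨∑' a, δ a ^ 2, ?_, hle, ?_, ?_⟩
  · exact hsq.tsum_pos (fun a => sq_nonneg _) ⟨a0, ha0⟩ (pow_pos (hδ _).1 2)
  · constructor
    · intro h1 x y hx hy
      -- all terms with `δ a (1 - δ a) = 0`
      have h2 : HasSum (fun a => δ a - δ a ^ 2) 0 := by
        have := hsum.sub hsq.hasSum
        rwa [h1, sub_self] at this
      have h3 := (hasSum_zero_iff_of_nonneg (fun a => by have := hsq_le a; show 0 ≤ δ a - δ a ^ 2; linarith)).1 h2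
      have h4 : ∀ a, δ a = 1 := by
        intro a
        have h5 := congrFun h3 a
        simp only [Pi.zero_apply] at h5
        have h6 := (hδ a).1
        have h7 : δ a * (1 - δ a) = 0 := by linarith
        rcases mul_eq_zero.1 h7 with h8 | h8 <;> linarith
      have h5 : ∀ a b : {a : ℤ // IsRep s a}, a = b := by
        intro a b
        by_contra hab
        have h6 := sum_le_hasSum {a, b} (fun c _ => (hδ c).1.le) hsum
        rw [sum_pair hab, h4, h4] at h6
        norm_num at h6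
      obtain ⟨a, ha, hxa⟩ := exists_rep hs hx
      obtain ⟨b, hb, hyb⟩ := exists_rep hs hy
      have h6 : a = b := congrArg Subtype.val (h5 ⟨a, ha⟩ ⟨b, hb⟩)
      rw [← h6] at hyb
      exact hxa.trans hyb.symm
    · intro hall
      have h5 : ∀ b : {a : ℤ // IsRep s a}, b = ⟨a0, ha0⟩ := fun b =>
        Subtype.ext (rep_unique hs b.2 ha0 (hall _ _ b.2.1 ha0.1))
      have h6 : ∑' a, δ a = δ ⟨a0, ha0⟩ := tsum_eq_single _ fun b hb => absurd (h5 b) hb
      have h7 : ∑' a, δ a ^ 2 = δ ⟨a0, ha0⟩ ^ 2 := tsum_eq_single _ fun b hb => absurd (h5 b) hb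
      rw [hsum.tsum_eq] at h6
      rw [h7, ← h6]; norm_num
  · intro ε hε
    -- a finite set of classes
    have hfin : ∃ A : Finset {a : ℤ // IsRep s a}, 1 - ε / 8 ≤ ∑ a ∈ A, δ a := by
      have h1 := hsum.eventually (eventually_ge_nhds (show 1 - ε / 8 < 1 by linarith))
      obtain ⟨A, hA⟩ := h1.exists
      exact ⟨A, hA⟩
    obtain ⟨A, hA⟩ := hfin
    have hA1 : ∑ a ∈ A, δ a ≤ 1 := sum_le_hasSum A (fun c _ => (hδ c).1.le) hsum
    have hA2 : ∑' a, δ a ^ 2 - ε / 8 ≤ ∑ a ∈ A, δ a ^ 2 := by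
      have h1 := hsq.sum_add_tsum_compl (s := A)
      have h2 := hsum.summable.sum_add_tsum_compl (s := A)
      have h3 : ∑' a : {x // x ∉ A}, δ a ^ 2 ≤ ∑' a : {x // x ∉ A}, δ a :=
        (hsq.subtype _).tsum_le_tsum (fun a => hsq_le a) (hsum.summable.subtype _)
      rw [hsum.tsum_eq] at h2
      linarith!
    have hA3 : ∑ a ∈ A, δ a ^ 2 ≤ ∑' a, δ a ^ 2 := hsq.sum_le_tsum A (fun a _ => sq_nonneg _)
    set Θ := ∑' a, δ a ^ 2 with hΘ
    -- the pair laws for the classes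
    have hcard : (0 : ℝ) < #A + 1 := by positivity
    have hev1 : ∀ᶠ N : ℕ in atTop, ∀ a ∈ A, ∀ i : ℕ, (i : ℝ) ≤ Real.log N ^ (0.50005 : ℝ) → ∀ r : ℤ, |r| ≤ 3 ^ i →
        |prob N (fun n => s * n ∈ {x | Meet x a} ∧ s * (3 ^ i * n + r) ∈ {x | Meet x a})
          - (δ a ^ 2 + δ a * (1 - δ a) * tau N i)| ≤ ε / 8 / (#A + 1) := by
      rw [eventually_all_finset]
      intro a _
      exact pair_law hs h (meet_inv a) (hδ a).1.le (hδ a).2.1 (hδ a).2.2 (ε / 8 / (#A + 1)) (by positivity)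
    have hev2 : ∀ᶠ N : ℕ in atTop, ∀ a ∈ A, |prob N (fun n => s * n ∈ {x | Meet x a}) - δ a| ≤ ε / 8 / (#A + 1) := by
      rw [eventually_all_finset]
      intro a _
      have h1 := density_of_mz (hδ a).2.2
      have h2 := h1.eventually (Metric.closedBall_mem_nhds (δ a) (show 0 < ε / 8 / (#A + 1) by positivity))
      filter_upwards [h2] with N hN
      rw [Real.dist_eq] at hN
      exact hN
    filter_upwards [hev1, hev2, eventually_ge_atTop 1] with N h1 h2 hN i hi r hr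
    have h3 := meet_finite N hN A hs (fun n => s * (3 ^ i * n + r))
    have h4 : |∑ a ∈ A, prob N (fun n => s * n ∈ {x | Meet x a} ∧ s * (3 ^ i * n + r) ∈ {x | Meet x a})
        - ∑ a ∈ A, (δ a ^ 2 + δ a * (1 - δ a) * tau N i)| ≤ ε / 8 := by
      rw [← sum_sub_distrib]
      refine (abs_sum_le_sum_abs _ _).trans ?_
      refine (sum_le_sum fun a ha => h1 a ha i hi r hr).trans ?_
      rw [sum_const, nsmul_eq_mul, ← mul_div_assoc, div_le_iff₀ hcard]
      nlinarith
    have h5 : |∑ a ∈ A, prob N (fun n => s * n ∈ {x | Meet x a}) - ∑ a ∈ A, δ a| ≤ ε / 8 := by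
      rw [← sum_sub_distrib]
      refine (abs_sum_le_sum_abs _ _).trans ?_
      refine (sum_le_sum fun a ha => h2 a ha).trans ?_
      rw [sum_const, nsmul_eq_mul, ← mul_div_assoc, div_le_iff₀ hcard]
      nlinarith
    have h6 : ∑ a ∈ A, (δ a ^ 2 + δ a * (1 - δ a) * tau N i)
        = ∑ a ∈ A, δ a ^ 2 + (∑ a ∈ A, δ a - ∑ a ∈ A, δ a ^ 2) * tau N i := by
      rw [sum_add_distrib, ← sum_sub_distrib, sum_mul]
      congr 1
      apply sum_congr rfl
      intro a _
      ring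
    rw [h6] at h4
    have t0 := tau_nonneg N i
    have t1 := tau_le_one N i
    obtain ⟨D1, hD1⟩ : ∃ D1, D1 = ∑ a ∈ A, δ a := ⟨_, rfl⟩
    obtain ⟨D2, hD2⟩ : ∃ D2, D2 = ∑ a ∈ A, δ a ^ 2 := ⟨_, rfl⟩
    rw [← hD1] at h4 h5 hA hA1
    rw [← hD2] at h4 hA2 hA3
    have e : (D2 + (D1 - D2) * tau N i) - (Θ + (1 - Θ) * tau N i) = (D2 - Θ) + ((D1 - 1) - (D2 - Θ)) * tau N i := by ring
    have h7 : |(D2 + (D1 - D2) * tau N i) - (Θ + (1 - Θ) * tau N i)| ≤ ε / 4 := by
      rw [e, abs_le]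
      have g1 : -(ε / 8) ≤ D2 - Θ := by linarith
      have g2 : D2 - Θ ≤ 0 := by linarith
      have g3 : -(ε / 8) ≤ D1 - 1 := by linarith
      have g4 : D1 - 1 ≤ 0 := by linarith
      constructor <;> nlinarith
    rw [abs_le] at h3 h4 h5 h7 ⊢
    constructor <;> linarith [h3.1, h3.2, h4.1, h4.2, h5.1, h5.2, h7.1, h7.2]

/-! ### the function `tau` -/

theorem erfc_pos (x : ℝ) : 0 < erfc x := by
  have h1 : erfc (x + 1) < erfc x := by
    unfold erfc
    have hc : Continuous (fun y : ℝ => Real.exp (-y ^ 2)) := by fun_prop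
    have h2 : ∫ y in (0 : ℝ)..(x + 1), Real.exp (-y ^ 2) = (∫ y in (0 : ℝ)..x, Real.exp (-y ^ 2))
        + ∫ y in x..(x + 1), Real.exp (-y ^ 2) :=
      (intervalIntegral.integral_add_adjacent_intervals (hc.intervalIntegrable _ _) (hc.intervalIntegrable _ _)).symm
    have h3 : 0 < ∫ y in x..(x + 1), Real.exp (-y ^ 2) :=
      intervalIntegral.intervalIntegral_pos_of_pos (hc.intervalIntegrable _ _) (fun y => Real.exp_pos _) (by linarith)
    have h4 : 0 < 2 / √Real.pi := by positivity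
    rw [h2]
    nlinarith
  have h5 : 0 ≤ erfc (x + 1) := by
    unfold erfc
    rw [← Er_eq]
    have := Er_le_one (√2 * (x + 1))
    linarith
  linarith

theorem erfc_anti {x y : ℝ} (h : x ≤ y) : erfc y ≤ erfc x := by
  unfold erfc
  rw [← Er_eq, ← Er_eq]
  have := Er_mono (mul_le_mul_of_nonneg_left h (show (0 : ℝ) ≤ √2 by positivity))
  linarith

theorem erfc_lt_one {x : ℝ} (h : 0 < x) : erfc x < 1 := by
  unfold erfc
  have hc : Continuous (fun y : ℝ => Real.exp (-y ^ 2)) := by fun_prop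
  have h3 : 0 < ∫ y in (0 : ℝ)..x, Real.exp (-y ^ 2) :=
    intervalIntegral.intervalIntegral_pos_of_pos (hc.intervalIntegrable _ _) (fun y => Real.exp_pos _) h
  have h4 : 0 < 2 / √Real.pi := by positivity
  nlinarith [mul_pos h4 h3]

theorem log43 : 0 < Real.log (4 / 3) := Real.log_pos (by norm_num)

/-- `i ≤ A √(log N)` -/
theorem tau_ge {A : ℝ} {N i : ℕ} (hN : 0 < Real.log N) (hi : (i : ℝ) ≤ A * √ (Real.log N)) :
    erfc (A * √ (Real.log (4 / 3) / 2)) ≤ tau N i := by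
  unfold tau
  apply erfc_anti
  have e : Real.log (4 / 3) / (2 * Real.log N) = (Real.log (4 / 3) / 2) / Real.log N := by
    rw [div_div]
  rw [e, Real.sqrt_div (by have := log43; positivity)]
  have hs : 0 < √ (Real.log N) := Real.sqrt_pos.2 hN
  rw [← mul_div_assoc, div_le_iff₀ hs]
  have h1 := mul_le_mul_of_nonneg_right hi (Real.sqrt_nonneg (Real.log (4 / 3) / 2))
  linarith

/-- `c √(log N) ≤ i` -/
theorem tau_le {c : ℝ} {N i : ℕ} (hN : 0 < Real.log N) (hi : c * √ (Real.log N) ≤ i) :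
    tau N i ≤ erfc (c * √ (Real.log (4 / 3) / 2)) := by
  unfold tau
  apply erfc_anti
  have e : Real.log (4 / 3) / (2 * Real.log N) = (Real.log (4 / 3) / 2) / Real.log N := by
    rw [div_div]
  have e4 : √ (Real.log (4 / 3) / 2 / Real.log N) = √ (Real.log (4 / 3) / 2) / √ (Real.log N) :=
    Real.sqrt_div (by have := log43; positivity) _
  rw [e, e4]
  have hs : 0 < √ (Real.log N) := Real.sqrt_pos.2 hN
  rw [← mul_div_assoc, le_div_iff₀ hs]
  have h1 := mul_le_mul_of_nonneg_right hi (Real.sqrt_nonneg (Real.log (4 / 3) / 2))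
  linarith

/-! ### the sharp law of large numbers -/

theorem multiples_eq (s : ℤ) (S : Set ℤ) (n K : ℕ) [DecidablePred fun i : ℕ => s * (3 ^ i * (n : ℤ)) ∈ S] :
    multiples s S n K = #{i ∈ range K | s * (3 ^ i * (n : ℤ)) ∈ S} := by
  unfold multiples
  rw [← Set.ncard_coe_finset]
  congr 1
  ext x
  simp only [Set.mem_ofPred_eq, coe_filter, mem_range]

theorem multiples_le (s : ℤ) (S : Set ℤ) (n K : ℕ) : multiples s S n K ≤ K := by
  classical
  rw [multiples_eq]
  refine (card_filter_le _ _).trans ?_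
  rw [card_range]

/-- pairs on average -/
theorem sum_pairs {s : ℤ} {S : Set ℤ} {N K : ℕ} (hN : 1 ≤ N) (hK : 1 ≤ K) {δ ε : ℝ} (hε : 0 ≤ ε) (hδ : 0 ≤ δ) :
    (∑ i ∈ range K, prob N (fun n => s * n ∈ S ∧ s * (3 ^ i * n + ((0 : ℤ) : ℤ)) ∈ S)) / K
      ≤ (δ + ε) * prob N (fun n => s * n ∈ S) + prob N (fun n => ε < |(multiples s S n K : ℝ) / K - δ|) := by
  classical
  have hN' : (0 : ℝ) < N := by exact_mod_cast hN
  have hK' : (0 : ℝ) < K := by exact_mod_cast hK
  have e1 : (∑ i ∈ range K, prob N (fun n => s * n ∈ S ∧ s * (3 ^ i * n + ((0 : ℤ) : ℤ)) ∈ S)) / K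
      = (∑ n ∈ Icc 1 N, (if s * (n : ℤ) ∈ S then (1 : ℝ) else 0) * ((multiples s S n K : ℝ) / K)) / N := by
    simp only [prob_eq]
    rw [← sum_div, div_div, mul_comm (N : ℝ) K, ← div_div]
    congr 1
    rw [sum_div]
    simp only [card_filter]
    push_cast
    have e2 : ∀ n ∈ Icc 1 N, (if s * (n : ℤ) ∈ S then (1 : ℝ) else 0) * ((multiples s S n K : ℝ) / K)
        = ∑ i ∈ range K, (if s * (n : ℤ) ∈ S ∧ s * (3 ^ i * (n : ℤ) + 0) ∈ S then (1 : ℝ) else 0) / K := by
      intro n _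
      rw [multiples_eq, card_filter]
      push_cast
      rw [← sum_div, ← mul_div_assoc, mul_sum]
      congr 1
      apply sum_congr rfl
      intro i _
      rw [add_zero]
      split_ifs <;> first | (exfalso; tauto) | norm_num
    rw [sum_congr rfl e2, sum_comm]
    apply sum_congr rfl
    intro i _
    rw [sum_div]
  have e3 : (δ + ε) * prob N (fun n => s * n ∈ S) + prob N (fun n => ε < |(multiples s S n K : ℝ) / K - δ|)
      = (∑ n ∈ Icc 1 N, ((δ + ε) * (if s * (n : ℤ) ∈ S then (1 : ℝ) else 0)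
        + (if ε < |(multiples s S n K : ℝ) / K - δ| then (1 : ℝ) else 0))) / N := by
    rw [prob_eq, prob_eq, sum_add_distrib, ← mul_sum, add_div, card_filter, card_filter]
    push_cast
    ring
  rw [e1, e3]
  apply div_le_div_of_nonneg_right _ hN'.le
  apply sum_le_sum
  intro n _
  have h1 : (multiples s S n K : ℝ) / K ≤ 1 := by
    rw [div_le_one hK']
    exact_mod_cast multiples_le s S n K
  have h2 : 0 ≤ (multiples s S n K : ℝ) / K := by positivity
  by_cases hb : ε < |(multiples s S n K : ℝ) / K - δ|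
  · rw [if_pos hb]
    split_ifs
    · nlinarith
    · norm_num
  · rw [if_neg hb]
    push Not at hb
    have h3 := (abs_le.1 hb).2
    split_ifs
    · linarith
    · norm_num

theorem lln_only {s : ℤ} {S : Set ℤ} {δ : ℝ} (h0 : 0 < δ) (h1 : δ < 1)
    (hd : Tendsto (fun N : ℕ => prob N fun n => s * n ∈ S) atTop (𝓝 δ)) (hp : Pairs s S δ) {K : ℕ → ℕ}
    (hl : LLN s S δ K) : Tendsto (fun N : ℕ => (K N : ℝ) / √ (Real.log N)) atTop atTop := by
  rw [tendsto_atTop]
  by_contra hcon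
  push Not at hcon
  obtain ⟨A0, hA0⟩ := hcon
  obtain ⟨A, hA⟩ : ∃ A, A = max A0 1 := ⟨_, rfl⟩
  have hA1 : 1 ≤ A := by rw [hA]; exact le_max_right _ _
  have hfr : ∃ᶠ N : ℕ in atTop, (K N : ℝ) / √ (Real.log N) < A := by
    refine hA0.mono fun N hN => ?_
    rw [hA]; exact hN.trans_le (le_max_left _ _)
  obtain ⟨κ, hκ⟩ : ∃ κ, κ = δ * (1 - δ) * erfc (A * √ (Real.log (4 / 3) / 2)) := ⟨_, rfl⟩
  have hκ0 : 0 < κ := by
    rw [hκ]
    exact mul_pos (mul_pos h0 (by linarith)) (erfc_pos _)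
  obtain ⟨ε, hε⟩ : ∃ ε, ε = min (min (κ / 8) (δ / 2)) (1 / 2) := ⟨_, rfl⟩
  have hε0 : 0 < ε := by rw [hε]; positivity
  have hε1 : ε ≤ κ / 8 := by rw [hε]; exact (min_le_left _ _).trans (min_le_left _ _)
  have hε2 : ε ≤ δ / 2 := by rw [hε]; exact (min_le_left _ _).trans (min_le_right _ _)
  have hε3 : ε ≤ 1 / 2 := by rw [hε]; exact min_le_right _ _
  have hlogt : Tendsto (fun N : ℕ => Real.log N) atTop atTop :=
    Real.tendsto_log_atTop.comp tendsto_natCast_atTop_atTop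
  have hg : Tendsto (fun N : ℕ => Real.log N ^ (0.00005 : ℝ)) atTop atTop :=
    (tendsto_rpow_atTop (by norm_num)).comp hlogt
  have e1 := (hl ε hε0).eventually (eventually_le_nhds hε0)
  have e2 := hd.eventually (eventually_le_nhds (show δ < δ + ε by linarith))
  obtain ⟨N, hfN, hN1, hN2, hN3, hN4, hN5, hN6⟩ := (hfr.and_eventually (e1.and (e2.and ((hp ε hε0).and
    ((hlogt.eventually_ge_atTop 1).and ((hg.eventually_ge_atTop A).and (eventually_ge_atTop 1))))))).exists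
  have hsq : 0 < √ (Real.log N) := Real.sqrt_pos.2 (by linarith)
  rw [div_lt_iff₀ hsq] at hfN
  -- `K N ≥ 1`
  have hK : 1 ≤ K N := by
    by_contra hK0
    have hK0' : K N = 0 := by omega
    rw [hK0'] at hN1
    have h2 : prob N (fun n => ε < |(multiples s S n 0 : ℝ) / ((0 : ℕ) : ℝ) - δ|) = 1 := by
      have h3 := prob_not hN6 (fun _ => False)
      have h4 : prob N (fun _ => False) = 0 := by
        classical
        rw [prob_eq, filter_false_of_mem (fun _ _ h => h)]; simp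
      rw [h4, sub_zero] at h3
      rw [← h3]
      apply prob_congr
      intro n _ _
      simp only [Nat.cast_zero, div_zero, zero_sub, abs_neg, not_false_iff, iff_true]
      rw [abs_of_pos h0]
      linarith
    linarith
  have hK' : (0 : ℝ) < K N := by exact_mod_cast hK
  have h4 : ∀ i ∈ range (K N), δ ^ 2 + κ - ε ≤ prob N (fun n => s * n ∈ S ∧ s * (3 ^ i * n + ((0 : ℤ) : ℤ)) ∈ S) := by
    intro i hi
    rw [mem_range] at hi
    have hi' : (i : ℝ) ≤ A * √ (Real.log N) := by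
      have : (i : ℝ) ≤ K N := by exact_mod_cast hi.le
      linarith
    have h5 : (i : ℝ) ≤ Real.log N ^ (0.50005 : ℝ) := by
      refine hi'.trans ?_
      have h6 : Real.log N ^ (0.50005 : ℝ) = Real.log N ^ (0.00005 : ℝ) * √ (Real.log N) := by
        rw [Real.sqrt_eq_rpow, ← Real.rpow_add (by linarith)]; norm_num
      rw [h6]
      exact mul_le_mul_of_nonneg_right hN5 hsq.le
    have h7 := hN3 i h5 0 (by simp)
    have h8 := tau_ge (A := A) (by linarith) hi'
    have h9 : κ ≤ δ * (1 - δ) * tau N i := by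
      rw [hκ]
      exact mul_le_mul_of_nonneg_left h8 (mul_nonneg h0.le (by linarith))
    have h10 := (abs_le.1 h7).1
    linarith
  have h5 := sum_le_sum h4
  rw [sum_const, card_range, nsmul_eq_mul] at h5
  have h6 := sum_pairs (s := s) (S := S) hN6 hK hε0.le h0.le
  have h7 : δ ^ 2 + κ - ε ≤ (∑ i ∈ range (K N), prob N (fun n => s * n ∈ S ∧ s * (3 ^ i * n + ((0 : ℤ) : ℤ)) ∈ S)) / K N := by
    rw [le_div_iff₀ hK']
    linarith
  have h8 : (δ + ε) * prob N (fun n => s * n ∈ S) ≤ (δ + ε) * (δ + ε) :=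
    mul_le_mul_of_nonneg_left hN2 (by linarith)
  nlinarith

theorem lln_if {s : ℤ} (hs : s = 1 ∨ s = -1) (h3 : S_LLN3b s) {S : Set ℤ} (hS : Invariant S)
    {δ : ℝ} (h0 : 0 ≤ δ) (h1 : δ ≤ 1) (hm : MeanZero (fun x => (conj s S).indicator (fun _ => (1 : ℝ)) x - δ))
    {K : ℕ → ℕ} (hK : Tendsto (fun N : ℕ => (K N : ℝ) / √ (Real.log N)) atTop atTop)
    (hK2 : ∀ᶠ N : ℕ in atTop, (K N : ℝ) ≤ Real.log N ^ (0.99 : ℝ)) : LLN s S δ K := by
  classical
  intro ε hε
  rw [Metric.tendsto_atTop]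
  intro η hη
  obtain ⟨A, N0, hA, hN0⟩ := h3 (conj s S) (conj_inv hs hS) δ h0 h1 hm (min ε (η / 2)) (by positivity)
  obtain ⟨N1, hN1⟩ := eventually_atTop.mp (hK.eventually_ge_atTop A)
  obtain ⟨N2, hN2⟩ := eventually_atTop.mp hK2
  refine ⟨max (max N0 N1) (max N2 2), fun N hN => ?_⟩
  have g0 : N0 ≤ N := ((le_max_left _ _).trans (le_max_left _ _)).trans hN
  have g1 : N1 ≤ N := ((le_max_right _ _).trans (le_max_left _ _)).trans hN
  have g2 : N2 ≤ N := ((le_max_left _ _).trans (le_max_right _ _)).trans hN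
  have g3 : 2 ≤ N := ((le_max_right _ _).trans (le_max_right _ _)).trans hN
  have hNr : (0 : ℝ) < N := by positivity
  have hNl : 0 < Real.log N := Real.log_pos (by exact_mod_cast g3)
  have k1 : A * √ (Real.log N) ≤ K N := by
    have := hN1 N g1
    rwa [le_div_iff₀ (Real.sqrt_pos.mpr hNl)] at this
  have hKpos : (0 : ℝ) < K N := lt_of_lt_of_le (by positivity) k1
  have h := hN0 N g0 (K N) k1 (hN2 N g2)
  have hle : prob N (fun n => ε < |(multiples s S n (K N) : ℝ) / K N - δ|) ≤ η / 2 := by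
    rw [prob_eq, div_le_iff₀ hNr]
    have hmono : (#{n ∈ Icc 1 N | ε < |(multiples s S n (K N) : ℝ) / K N - δ|} : ℝ) ≤
        (#{n ∈ Icc 1 N | min ε (η / 2) * (K N : ℕ) < |(#{i ∈ range (K N) | ((3 ^ i * n : ℕ) : ℤ) ∈ conj s S} : ℝ)
          - δ * (K N : ℕ)|} : ℝ) := by
      have : #{n ∈ Icc 1 N | ε < |(multiples s S n (K N) : ℝ) / K N - δ|} ≤
        #{n ∈ Icc 1 N | min ε (η / 2) * (K N : ℕ) < |(#{i ∈ range (K N) | ((3 ^ i * n : ℕ) : ℤ) ∈ conj s S} : ℝ)
          - δ * (K N : ℕ)|} := by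
        apply card_le_card
        apply monotone_filter_right
        intro n _ hn
        have e0 : multiples s S n (K N) = #{i ∈ range (K N) | ((3 ^ i * n : ℕ) : ℤ) ∈ conj s S} := by
          rw [multiples_eq]
          congr 1
        have e : (#{i ∈ range (K N) | ((3 ^ i * n : ℕ) : ℤ) ∈ conj s S} : ℝ) - δ * (K N : ℕ)
            = ((multiples s S n (K N) : ℝ) / K N - δ) * K N := by
          rw [e0]
          field_simp
        rw [e, abs_mul, abs_of_pos hKpos]
        calc min ε (η / 2) * (K N : ℝ) ≤ ε * K N := by gcongr; exact min_le_left _ _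
          _ < |(multiples s S n (K N) : ℝ) / K N - δ| * K N := by gcongr
      exact_mod_cast this
    refine hmono.trans (h.trans ?_)
    gcongr
    exact min_le_right _ _
  rw [dist_zero_right, Real.norm_eq_abs, abs_of_nonneg (prob_nonneg _ _)]
  linarith

/-! ### assembly -/

/-- density, pair law and law of large numbers of an invariant set -/
theorem law {s : ℤ} (hs : s = 1 ∨ s = -1) (h : S_PAIRLAW s) (hen : S_EN3 s) {S : Set ℤ} (hS : Invariant S)
    (hex : ∃ x ∈ S, 0 < s * x) : ∃ δ : ℝ, 0 < δ ∧ δ ≤ 1 ∧ (δ = 1 ↔ ∀ x : ℤ, 0 < s * x → x ∈ S) ∧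
      Tendsto (fun N : ℕ => prob N fun n => s * n ∈ S) atTop (𝓝 δ) ∧ Pairs s S δ ∧
      ∀ K : ℕ → ℕ, (∀ᶠ N : ℕ in atTop, (K N : ℝ) ≤ Real.log N ^ (0.99 : ℝ)) → (∃ x : ℤ, 0 < s * x ∧ x ∉ S) →
        (LLN s S δ K ↔ Tendsto (fun N : ℕ => (K N : ℝ) / √ (Real.log N)) atTop atTop) := by
  obtain ⟨δ, h1, h2, h3⟩ := dens hs (conj s S) (conj_inv hs hS) (sign_of_pos hs hex)
  have hd := density_of_mz h3
  have hlt : (∃ x : ℤ, 0 < s * x ∧ x ∉ S) → δ < 1 := by
    rintro ⟨x, hx, hxS⟩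
    obtain ⟨δ', h1', h2', h3'⟩ := dens hs (conj s Sᶜ) (conj_inv hs (compl_inv hS))
      (sign_of_pos hs ⟨x, hxS, hx⟩)
    have hd' := density_of_mz h3'
    have h5 : Tendsto (fun N : ℕ => prob N fun n => s * n ∈ Sᶜ) atTop (𝓝 (1 - δ)) := by
      refine (hd.const_sub 1).congr' ?_
      filter_upwards [eventually_ge_atTop 1] with N hN
      exact (prob_not hN fun n => s * n ∈ S).symm
    have h6 := tendsto_nhds_unique hd' h5
    linarith
  refine ⟨δ, h1, h2, ⟨fun hδ x hx => ?_, fun hall => ?_⟩, hd, pair_law hs h hS h1.le h2 h3, fun K hK hex' =>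
    ⟨lln_only h1 (hlt hex') hd (pair_law hs h hS h1.le h2 h3), fun hK' => lln_if hs (lln3 s hs hen) hS h1.le h2 h3 hK' hK⟩⟩
  · by_contra hxS
    have := hlt ⟨x, hx, hxS⟩
    linarith
  · have h5 : Tendsto (fun N : ℕ => prob N fun n => s * n ∈ S) atTop (𝓝 1) := by
      refine tendsto_const_nhds.congr' ?_
      filter_upwards [eventually_ge_atTop 1] with N hN
      have h6 := prob_not hN (fun _ => False)
      have h7 : prob N (fun _ => False) = 0 := by
        classical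
        rw [prob_eq, filter_false_of_mem (fun _ _ h => h)]; simp
      rw [h7, sub_zero] at h6
      rw [← h6]
      apply prob_congr
      intro n hn _
      simp only [not_false_iff, true_iff]
      apply hall
      rcases hs with rfl | rfl <;> nlinarith
    exact tendsto_nhds_unique hd h5

/-- the criterion for Q1 -/
theorem q1_sign {s : ℤ} (hs : s = 1 ∨ s = -1) (h : S_PAIRLAW s) (hen : S_EN3 s) {i : ℕ → ℕ} {c : ℝ} (hc : 0 < c)
    (hi1 : ∀ᶠ N : ℕ in atTop, c * √ (Real.log N) ≤ i N)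
    (hi2 : ∀ᶠ N : ℕ in atTop, (i N : ℝ) ≤ Real.log N ^ (0.50005 : ℝ)) :
    (∀ x : ℤ, 0 < s * x → Reaches x) ↔
      Tendsto (fun N : ℕ => prob N fun n => Reaches (s * n) ∧ ¬ Reaches (s * (3 ^ i N * n))) atTop (𝓝 0) := by
  have hs1 : ∃ x ∈ {x | Reaches x}, 0 < s * x := by
    rcases hs with rfl | rfl
    · exact ⟨1, ⟨0, by decide⟩, by norm_num⟩
    · exact ⟨-1, ⟨0, by decide⟩, by norm_num⟩
  constructor
  · intro hall
    refine tendsto_const_nhds.congr fun N => ?_
    have h1 : prob N (fun n => Reaches (s * n) ∧ ¬ Reaches (s * (3 ^ i N * n))) ≤ prob N (fun _ => False) := by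
      apply prob_mono
      intro n hn _ h2
      apply h2.2
      apply hall
      have h3 : (0 : ℤ) < 3 ^ i N * n := by positivity
      rcases hs with rfl | rfl <;> nlinarith
    have h7 : prob N (fun _ => False) = 0 := by
      classical
      rw [prob_eq, filter_false_of_mem (fun _ _ h => h)]; simp
    have h8 := prob_nonneg N (fun n => Reaches (s * n) ∧ ¬ Reaches (s * (3 ^ i N * n)))
    linarith
  · intro ht
    obtain ⟨δ, h1, h2, h3, hd, hp, _⟩ := law hs h hen reaches_inv hs1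
    rw [← (show (δ = 1 ↔ ∀ x : ℤ, 0 < s * x → Reaches x) from h3)]
    by_contra hδ
    have hδ1 : δ < 1 := lt_of_le_of_ne h2 hδ
    obtain ⟨κ, hκ⟩ : ∃ κ, κ = δ * (1 - δ) * (1 - erfc (c * √ (Real.log (4 / 3) / 2))) := ⟨_, rfl⟩
    have hκ0 : 0 < κ := by
      rw [hκ]
      have h4 : 0 < c * √ (Real.log (4 / 3) / 2) := mul_pos hc (Real.sqrt_pos.2 (by have := log43; positivity))
      have := erfc_lt_one h4
      exact mul_pos (mul_pos h1 (by linarith)) (by linarith)
    have hlogt : Tendsto (fun N : ℕ => Real.log N) atTop atTop :=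
      Real.tendsto_log_atTop.comp tendsto_natCast_atTop_atTop
    have e1 := ht.eventually (eventually_le_nhds (show 0 < κ / 4 by positivity))
    have e2 := hd.eventually (eventually_ge_nhds (show δ - κ / 4 < δ by linarith))
    obtain ⟨N, hN1, hN2, hN3, hN4, hN5, hN6⟩ := (e1.and (e2.and ((hp (κ / 4) (by positivity)).and
      ((hlogt.eventually_ge_atTop 1).and (hi1.and hi2))))).exists
    have h5 := hN3 (i N) hN6 0 (by simp)
    have h6 := tau_le (c := c) (by linarith) hN5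
    have h7 := prob_split N (fun n => s * (n : ℤ) ∈ {x | Reaches x}) (fun n => s * (3 ^ i N * (n : ℤ) + 0) ∈ {x | Reaches x})
    have h8 : prob N (fun n => s * (n : ℤ) ∈ {x | Reaches x} ∧ ¬ s * (3 ^ i N * (n : ℤ) + 0) ∈ {x | Reaches x})
        = prob N (fun n => Reaches (s * n) ∧ ¬ Reaches (s * (3 ^ i N * n))) := by
      apply prob_congr
      intro n _ _
      simp only [add_zero]
      rfl
    rw [h8] at h7
    have h9 : δ * (1 - δ) * tau N (i N) ≤ δ * (1 - δ) - κ := by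
      rw [hκ]
      have h10 : 0 ≤ δ * (1 - δ) := mul_nonneg h1.le (by linarith)
      have h11 := mul_le_mul_of_nonneg_left h6 h10
      linarith
    have h10 := (abs_le.1 h5).2
    nlinarith

/-- **The pair law for the invariant sets of the Collatz map.** -/
theorem result (h : ∀ s : ℤ, s = 1 ∨ s = -1 → S_PAIRLAW s) :
    -- every invariant set with an integer of sign `s`: density, pair law, law of large numbers
    (∀ s : ℤ, s = 1 ∨ s = -1 → ∀ S : Set ℤ, Invariant S → (∃ x ∈ S, 0 < s * x) →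
      ∃ δ : ℝ, 0 < δ ∧ δ ≤ 1 ∧ (δ = 1 ↔ ∀ x : ℤ, 0 < s * x → x ∈ S) ∧
        Tendsto (fun N : ℕ => prob N fun n => s * n ∈ S) atTop (𝓝 δ) ∧ Pairs s S δ ∧
        ∀ K : ℕ → ℕ, (∀ᶠ N : ℕ in atTop, (K N : ℝ) ≤ Real.log N ^ (0.99 : ℝ)) → (∃ x : ℤ, 0 < s * x ∧ x ∉ S) →
          (LLN s S δ K ↔ Tendsto (fun N : ℕ => (K N : ℝ) / √ (Real.log N)) atTop atTop)) ∧
    -- the meeting law
    (∀ s : ℤ, s = 1 ∨ s = -1 → ∃ Θ : ℝ, 0 < Θ ∧ Θ ≤ 1 ∧ (Θ = 1 ↔ ∀ x y : ℤ, 0 < s * x → 0 < s * y → Meet x y) ∧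
      Meetings s Θ) ∧
    -- Q1 for the integers of sign `s`
    (∀ s : ℤ, s = 1 ∨ s = -1 → ∀ (i : ℕ → ℕ) (c : ℝ), 0 < c → (∀ᶠ N : ℕ in atTop, c * √ (Real.log N) ≤ i N) →
      (∀ᶠ N : ℕ in atTop, (i N : ℝ) ≤ Real.log N ^ (0.50005 : ℝ)) →
      ((∀ x : ℤ, 0 < s * x → Reaches x) ↔
        Tendsto (fun N : ℕ => prob N fun n => Reaches (s * n) ∧ ¬ Reaches (s * (3 ^ i N * n))) atTop (𝓝 0))) := by
  have hen : ∀ s : ℤ, s = 1 ∨ s = -1 → S_EN3 s := fun s hs => en3_all hs
  exact ⟨fun s hs _ hS hex => law hs (h s hs) (hen s hs) hS hex, fun s hs => meeting_law hs (h s hs),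
    fun s hs _ _ hc h1 h2 => q1_sign hs (h s hs) (hen s hs) hc h1 h2⟩

end Pool.Agent.Results.MP_d02c56_nt.PairLaw
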