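import Mathlib
import Pool.Agent.KS6_24.ST.SH14R

/-!
SH15R (helper6): the number of ways to write `N` as a sum of members of given invariant sets (Goldbach type).
-/

set_option autoImplicit false

namespace Pool.Agent.KS6_24.ST

open Finset Filter Topology Pool.Agent.H499R2.CO Pool.Agent.Y965.SI Pool.Agent.KS6_24.LN Pool.Agent.KS6_24.LN.TW

namespace SH6

/-- the `j + 1`-tuples of positive integers with sum `N` -/
noncomputable def Comps (j N : ℕ) : Finset (Fin (j + 1) → ℤ) := {x ∈ Bx (j + 1) N | ∑ i, x i = N}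

theorem mem_Comps {j N : ℕ} {x : Fin (j + 1) → ℤ} : x ∈ Comps j N ↔ (∀ i, 1 ≤ x i) ∧ ∑ i, x i = N := by
  unfold Comps
  rw [mem_filter, mem_Bx]
  constructor
  · exact fun h => ⟨fun i => (mem_Icc.1 (h.1 i)).1, h.2⟩
  · intro h
    refine ⟨fun i => mem_Icc.2 ⟨h.1 i, ?_⟩, h.2⟩
    rw [← h.2]
    exact single_le_sum (f := x) (fun i _ => by have := h.1 i; omega) (mem_univ i)

/-- the forms -/
def Lc (j : ℕ) (s : ℤ) : Fin (j + 1) → Fin j → ℤ :=
  Fin.snoc (α := fun _ => Fin j → ℤ) (fun i => Pi.single i s) (fun _ => -s)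

/-- the constant terms -/
def bc (j : ℕ) (c : ℤ) : Fin (j + 1) → ℤ := Fin.snoc (α := fun _ => ℤ) (fun _ => 0) c

theorem lf_Lc_castSucc {j : ℕ} (s : ℤ) (i : Fin j) (n : Fin j → ℤ) : lf (Lc j s i.castSucc) n = s * n i := by
  unfold lf Lc
  rw [Fin.snoc_castSucc]
  rw [sum_eq_single i]
  · rw [Pi.single_eq_same]
  · intro b _ hb
    rw [Pi.single_eq_of_ne hb, zero_mul]
  · simp

theorem lf_Lc_last {j : ℕ} (s : ℤ) (n : Fin j → ℤ) : lf (Lc j s (Fin.last j)) n = -(s * ∑ i, n i) := by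
  unfold lf Lc
  rw [Fin.snoc_last, mul_sum, ← sum_neg_distrib]
  apply sum_congr rfl
  intro i _
  ring

theorem comps_sum {j N : ℕ} {s : ℤ} (hs : s = 1 ∨ s = -1) (f : Fin (j + 1) → ℤ → ℝ) :
    ∑ n ∈ Bx j N, phQ (Lc j s) (bc j (s * N)) (fun _ => s) f Set.univ n = ∑ x ∈ Comps j N, ∏ i, f i (s * x i) := by
  classical
  have hss : s * s = 1 := by rcases hs with h | h <;> rw [h] <;> norm_num
  have hval : ∀ n : Fin j → ℤ, ∀ a, lf (Lc j s a) n + bc j (s * N) a
      = s * (Fin.snoc (α := fun _ => ℤ) n (N - ∑ i, n i) : Fin (j + 1) → ℤ) a := by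
    intro n a
    refine Fin.lastCases ?_ (fun i => ?_) a
    · rw [lf_Lc_last]
      unfold bc
      rw [Fin.snoc_last, Fin.snoc_last]; ring
    · rw [lf_Lc_castSucc]
      unfold bc
      rw [Fin.snoc_castSucc, Fin.snoc_castSucc]; ring
  have hph : ∀ n : Fin j → ℤ, phQ (Lc j s) (bc j (s * N)) (fun _ => s) f Set.univ n
      = ∏ a, (f a (s * (Fin.snoc (α := fun _ => ℤ) n (N - ∑ i, n i) : Fin (j + 1) → ℤ) a)
        * if 0 < (Fin.snoc (α := fun _ => ℤ) n (N - ∑ i, n i) : Fin (j + 1) → ℤ) a then 1 else 0) := by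
    intro n
    unfold phQ
    rw [if_pos (Set.mem_univ _)]
    unfold ph
    apply prod_congr rfl
    intro a _
    rw [hval n a, ← mul_assoc, hss, one_mul]
  -- only the points with a positive last coordinate count
  have h1 : ∑ n ∈ Bx j N, phQ (Lc j s) (bc j (s * N)) (fun _ => s) f Set.univ n
      = ∑ n ∈ Bx j N with 0 < (N : ℤ) - ∑ i, n i, phQ (Lc j s) (bc j (s * N)) (fun _ => s) f Set.univ n := by
    rw [sum_filter]
    apply sum_congr rfl
    intro n _
    split_ifs with h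
    · rfl
    · rw [hph n]
      apply prod_eq_zero (mem_univ (Fin.last j))
      rw [Fin.snoc_last, if_neg h, mul_zero]
  rw [h1]
  refine Finset.sum_nbij' (fun n => (Fin.snoc (α := fun _ => ℤ) n (N - ∑ i, n i) : Fin (j + 1) → ℤ))
    (fun x => Fin.init x) ?_ ?_ ?_ ?_ ?_
  · intro n hn
    rw [mem_filter, mem_Bx] at hn
    rw [mem_Comps]
    constructor
    · intro i
      refine Fin.lastCases ?_ (fun i => ?_) i
      · rw [Fin.snoc_last]; exact hn.2
      · rw [Fin.snoc_castSucc]; exact (mem_Icc.1 (hn.1 i)).1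
    · rw [Fin.sum_univ_castSucc]
      simp only [Fin.snoc_castSucc, Fin.snoc_last]
      ring
  · intro x hx
    have hx' := hx
    unfold Comps at hx'
    rw [mem_filter, mem_Bx] at hx'
    rw [mem_filter, mem_Bx]
    refine ⟨fun i => hx'.1 _, ?_⟩
    have h2 := hx'.2
    rw [Fin.sum_univ_castSucc] at h2
    have h3 := (mem_Icc.1 (hx'.1 (Fin.last j))).1
    have h4 : ∑ i, Fin.init x i = ∑ i : Fin j, x i.castSucc := rfl
    rw [h4]
    omega
  · intro n _
    exact Fin.init_snoc (α := fun _ => ℤ) _ _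
  · intro x hx
    rw [mem_Comps] at hx
    have h2 := hx.2
    rw [Fin.sum_univ_castSucc] at h2
    have h3 : (N : ℤ) - ∑ i, Fin.init x i = x (Fin.last j) := by
      have h4 : ∑ i, Fin.init x i = ∑ i : Fin j, x i.castSucc := rfl
      rw [h4]; omega
    rw [h3]
    exact Fin.snoc_init_self x
  · intro n hn
    rw [mem_filter, mem_Bx] at hn
    rw [hph n]
    apply prod_congr rfl
    intro a _
    rw [if_pos, mul_one]
    refine Fin.lastCases ?_ (fun i => ?_) a
    · rw [Fin.snoc_last]; exact hn.2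
    · rw [Fin.snoc_castSucc]
      have := (mem_Icc.1 (hn.1 i)).1
      omega

theorem card_Comps (j N : ℕ) (hN : j + 1 ≤ N) : (N / (j + 1)) ^ j ≤ #(Comps j N) := by
  classical
  obtain ⟨q, hq⟩ : ∃ q, q = N / (j + 1) := ⟨_, rfl⟩
  have hqN : (j + 1) * q ≤ N := by rw [hq]; exact Nat.mul_div_le N _
  have hq1 : 1 ≤ q := by rw [hq]; exact (Nat.one_le_div_iff (by omega)).2 hN
  rw [← hq, ← card_Bx j q]
  apply card_le_card_of_injOn (fun n => (Fin.snoc (α := fun _ => ℤ) n (N - ∑ i, n i) : Fin (j + 1) → ℤ))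
  · intro n hn
    rw [mem_coe, mem_Bx] at hn
    rw [mem_coe, mem_Comps]
    have h1 : ∑ i, n i ≤ j * q := by
      calc ∑ i, n i ≤ ∑ i : Fin j, (q : ℤ) := sum_le_sum fun i _ => (mem_Icc.1 (hn i)).2
        _ = j * q := by simp
    have h2 : ((j : ℤ) + 1) * q ≤ N := by exact_mod_cast hqN
    have h3 : (1 : ℤ) ≤ q := by exact_mod_cast hq1
    constructor
    · intro i
      refine Fin.lastCases ?_ (fun i => ?_) i
      · simp only [Fin.snoc_last]; linarith
      · simp only [Fin.snoc_castSucc]; exact (mem_Icc.1 (hn i)).1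
    · rw [Fin.sum_univ_castSucc]
      simp only [Fin.snoc_castSucc, Fin.snoc_last]
      ring
  · intro n _ n' _ h
    have h1 := congrArg (fun x : Fin (j + 1) → ℤ => (Fin.init x : Fin j → ℤ)) h
    simp only at h1
    rwa [Fin.init_snoc, Fin.init_snoc] at h1

theorem Lc_ne_zero {j : ℕ} (hj : 1 ≤ j) {s : ℤ} (hs0 : s ≠ 0) (a : Fin (j + 1)) : Lc j s a ≠ 0 := by
  intro h
  refine Fin.lastCases (motive := fun a => Lc j s a = 0 → False) ?_ (fun i => ?_) a h
  · intro h
    have h1 := congrFun h ⟨0, hj⟩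
    unfold Lc at h1
    rw [Fin.snoc_last] at h1
    simp at h1
    exact hs0 h1
  · intro h
    have h1 := congrFun h i
    unfold Lc at h1
    rw [Fin.snoc_castSucc, Pi.single_eq_same] at h1
    exact hs0 h1

theorem Lc_rel {j : ℕ} {s : ℤ} (hs0 : s ≠ 0) (a b : Fin (j + 1)) (hab : a ≠ b) (x y u v : ℕ) :
    (fun i => 2 ^ x * 3 ^ y * Lc j s a i) ≠ fun i => 2 ^ u * 3 ^ v * Lc j s b i := by
  have hc1 : (0 : ℤ) < 2 ^ x * 3 ^ y := by positivity
  have hc2 : (0 : ℤ) < 2 ^ u * 3 ^ v := by positivity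
  intro h
  revert hab h
  refine Fin.lastCases ?_ (fun i => ?_) a <;> refine Fin.lastCases ?_ (fun i' => ?_) b
  · intro hab _; exact hab rfl
  · intro _ h
    have h1 := congrFun h i'
    unfold Lc at h1
    simp only [Fin.snoc_last, Fin.snoc_castSucc, Pi.single_eq_same] at h1
    have h2 : (2 ^ x * 3 ^ y + 2 ^ u * 3 ^ v) * s = 0 := by linarith
    rcases mul_eq_zero.1 h2 with h3 | h3
    · linarith
    · exact hs0 h3
  · intro _ h
    have h1 := congrFun h i
    unfold Lc at h1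
    simp only [Fin.snoc_last, Fin.snoc_castSucc, Pi.single_eq_same] at h1
    have h2 : (2 ^ x * 3 ^ y + 2 ^ u * 3 ^ v) * s = 0 := by linarith
    rcases mul_eq_zero.1 h2 with h3 | h3
    · linarith
    · exact hs0 h3
  · intro hab h
    have hii : i ≠ i' := fun hi => hab (by rw [hi])
    have h1 := congrFun h i
    unfold Lc at h1
    simp only [Fin.snoc_castSucc, Pi.single_eq_same, Pi.single_eq_of_ne hii] at h1
    rw [mul_zero] at h1
    rcases mul_eq_zero.1 h1 with h3 | h3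
    · linarith
    · exact hs0 h3

/-- **Sums of `j + 1` members.** -/
theorem comps_law (hC : S_CONVU) {j : ℕ} (hj : 1 ≤ j) {s : ℤ} (hs : s = 1 ∨ s = -1) {f : Fin (j + 1) → ℤ → ℝ}
    (hf : ∀ a, InvF s (fun x => f a (s * x))) {μ : Fin (j + 1) → ℝ} (hμ : ∀ a, |μ a| ≤ 1)
    (hm : ∀ a, MeanZero (fun x => f a (s * x) - μ a)) :
    Tendsto (fun N : ℕ => (∑ x ∈ Comps j N, ∏ i, f i (s * x i)) / (#(Comps j N) : ℝ)) atTop (𝓝 (∏ a, μ a)) := by
  classical
  have hs0 : s ≠ 0 := by rcases hs with h | h <;> rw [h] <;> norm_num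
  have hprod := fun (ε : ℝ) (hε : 0 < ε) => prod_convu hC (L := Lc j s) (fun a => Lc_ne_zero hj hs0 a)
    (fun a b hab x y u v => Lc_rel hs0 a b hab x y u v) (σ := fun _ => s) (fun _ => hs) (f := f) hf (μ := μ) hμ hm 1 hε
  rw [Metric.tendsto_atTop]
  intro ε hε
  obtain ⟨Z, hZ⟩ : ∃ Z : ℝ, Z = (2 * (j + 1)) ^ j := ⟨_, rfl⟩
  have hZ0 : 0 < Z := by rw [hZ]; positivity
  obtain ⟨N0, hN0⟩ := hprod (ε / (2 * Z)) (by positivity)
  refine ⟨max N0 (j + 1), fun N hN => ?_⟩
  have hN2 : j + 1 ≤ N := (le_max_right _ _).trans hN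
  have h1 := hN0 N ((le_max_left _ _).trans hN) (bc j (s * N)) (fun a => by
    refine Fin.lastCases ?_ (fun i => ?_) a
    · unfold bc
      rw [Fin.snoc_last, abs_mul]
      have h2 : |s| = 1 := by rcases hs with h | h <;> rw [h] <;> norm_num
      rw [h2]; simp
    · unfold bc
      rw [Fin.snoc_castSucc]; simp) Set.univ convex_univ
  rw [comps_sum hs f, comps_sum hs (fun _ _ => 1)] at h1
  simp only [Finset.prod_const_one, sum_const, nsmul_eq_mul, mul_one] at h1
  have hcard := card_Comps j N hN2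
  obtain ⟨q, hq⟩ : ∃ q : ℕ, q = N / (j + 1) := ⟨_, rfl⟩
  rw [← hq] at hcard
  have hq1 : 1 ≤ q := by rw [hq]; exact (Nat.one_le_div_iff (by omega)).2 hN2
  have hqN : N ≤ 2 * (j + 1) * q := by
    have h2 : N < (j + 1) * (q + 1) := by rw [hq]; exact Nat.lt_mul_div_succ N (by omega)
    nlinarith
  have hP0 : (0 : ℝ) < #(Comps j N) := by
    have : 0 < #(Comps j N) := lt_of_lt_of_le (by positivity) hcard
    exact_mod_cast this
  have hbig : (N : ℝ) ^ j ≤ Z * #(Comps j N) := by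
    have h2 : (N : ℝ) ≤ 2 * (j + 1) * q := by exact_mod_cast hqN
    calc (N : ℝ) ^ j ≤ (2 * (j + 1) * q) ^ j := pow_le_pow_left₀ (by positivity) h2 _
      _ = Z * (q : ℝ) ^ j := by rw [hZ, mul_pow]
      _ ≤ Z * #(Comps j N) := mul_le_mul_of_nonneg_left (by exact_mod_cast hcard) hZ0.le
  rw [Real.dist_eq]
  have e5 : (∑ x ∈ Comps j N, ∏ i, f i (s * x i)) / (#(Comps j N) : ℝ) - ∏ a, μ a
      = (∑ x ∈ Comps j N, ∏ i, f i (s * x i) - (∏ a, μ a) * #(Comps j N)) / #(Comps j N) := by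
    field_simp
  rw [e5, abs_div, abs_of_pos hP0, div_lt_iff₀ hP0]
  refine lt_of_le_of_lt h1 ?_
  have h2 : ε / (2 * Z) * (N : ℝ) ^ j ≤ ε / (2 * Z) * (Z * #(Comps j N)) :=
    mul_le_mul_of_nonneg_left hbig (by positivity)
  have h3 : ε / (2 * Z) * (Z * #(Comps j N)) = ε / 2 * #(Comps j N) := by field_simp
  have h4 : 0 < ε * #(Comps j N) := by positivity
  linarith

end SH6

end Pool.Agent.KS6_24.ST
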