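import Mathlib
import Pool.Agent.KS6_24.ST.SH7

/-!
SH17R (helper12): ALMOST ALL SHIFTS. For almost all `h` in the box `[1, N]^j` the numbers `n + c_a · h` (`c_a` different vectors with
coefficients `≥ 0`) are independent, `n ≤ N`. Examples: `(n, n + h)`, `(n, n + h_1, ..., n + h_j)`, `(n, n + h, ..., n + k h)`.
-/

set_option autoImplicit false

namespace Pool.Agent.KS6_24.ST

open Finset Filter Topology Pool.Agent.H499R2.CO Pool.Agent.Y965.SI Pool.Agent.KS6_24.LN Pool.Agent.KS6_24.LN.TW

namespace SH17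

open SH6

theorem half_inv17 {d : ℤ} {F : ℤ → ℝ} (hF : InvF d F) {μ : ℝ} (hμ : |μ| ≤ 1) : InvF d (fun x => (F x - μ) / 2) := by
  refine ⟨fun x => ?_, fun x => ?_⟩
  · rw [abs_div, abs_of_pos (show (0 : ℝ) < 2 by norm_num), div_le_one (by norm_num)]
    have := abs_sub (F x) μ
    have := hF.1 x
    linarith
  · simp only [hF.2]

theorem half_mz17 {F : ℤ → ℝ} {μ : ℝ} (h : MeanZero (fun x => F x - μ)) : MeanZero (fun x => (F x - μ) / 2) := by
  unfold MeanZero at h ⊢
  have h2 := h.const_mul (1 / 2)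
  rw [mul_zero] at h2
  refine h2.congr fun N => ?_
  rw [← sum_div]; ring

/-- the first coordinate of a box -/
theorem sum_Bx_succ (r N : ℕ) (G : (Fin (r + 1) → ℤ) → ℝ) :
    ∑ m ∈ Bx (r + 1) N, G m = ∑ n ∈ Icc (1 : ℤ) N, ∑ m ∈ Bx r N, G (Fin.cons n m) := by
  rw [← sum_product']
  refine Finset.sum_nbij' (fun m => (m 0, Fin.tail m)) (fun p => Fin.cons p.1 p.2) ?_ ?_ ?_ ?_ ?_
  · intro m hm
    rw [mem_Bx] at hm
    rw [mem_product, mem_Bx]
    exact ⟨hm 0, fun i => hm i.succ⟩
  · intro p hp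
    rw [mem_product, mem_Bx] at hp
    rw [mem_Bx]
    intro i
    refine Fin.cases ?_ (fun i => ?_) i
    · rw [Fin.cons_zero]; exact hp.1
    · rw [Fin.cons_succ]; exact hp.2 i
  · intro m _
    exact Fin.cons_self_tail m
  · intro p _
    simp
  · intro m _
    rw [Fin.cons_self_tail]

/-- the value of the form `n + c · h` -/
def lv {j : ℕ} (c : Fin j → ℕ) (n : ℤ) (h : Fin j → ℤ) : ℤ := n + ∑ i, (c i : ℤ) * h i

/-- the product of the functions at the forms -/
noncomputable def Pn {k j : ℕ} (c : Fin k → Fin j → ℕ) (s : ℤ) (f : Fin k → ℤ → ℝ) (h : Fin j → ℤ) (n : ℤ) : ℝ :=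
  ∏ a, f a (s * lv (c a) n h)

/-- the sum over `n` -/
noncomputable def Sn {k j : ℕ} (c : Fin k → Fin j → ℕ) (s : ℤ) (f : Fin k → ℤ → ℝ) (N : ℕ) (h : Fin j → ℤ) : ℝ :=
  ∑ n ∈ Icc (1 : ℤ) N, Pn c s f h n

/-- the forms in the variables `n, n', h` -/
def LL {k j : ℕ} (c : Fin k → Fin j → ℕ) (s : ℤ) : Fin k ⊕ Fin k → Fin (j + 2) → ℤ
  | .inl a => Fin.cons s (Fin.cons 0 fun i => s * c a i)
  | .inr a => Fin.cons 0 (Fin.cons s fun i => s * c a i)

theorem lf_inl {k j : ℕ} (c : Fin k → Fin j → ℕ) (s n n' : ℤ) (h : Fin j → ℤ) (a : Fin k) :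
    lf (LL c s (.inl a)) (Fin.cons n (Fin.cons n' h)) = s * lv (c a) n h := by
  unfold lf LL lv
  rw [Fin.sum_univ_succ, Fin.sum_univ_succ]
  simp only [Fin.cons_zero, Fin.cons_succ, zero_mul, zero_add]
  rw [mul_add, mul_sum]
  congr 1
  apply sum_congr rfl
  intro i _
  ring

theorem lf_inr {k j : ℕ} (c : Fin k → Fin j → ℕ) (s n n' : ℤ) (h : Fin j → ℤ) (a : Fin k) :
    lf (LL c s (.inr a)) (Fin.cons n (Fin.cons n' h)) = s * lv (c a) n' h := by
  unfold lf LL lv
  rw [Fin.sum_univ_succ, Fin.sum_univ_succ]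
  simp only [Fin.cons_zero, Fin.cons_succ, zero_mul, zero_add]
  rw [mul_add, mul_sum]
  congr 1
  apply sum_congr rfl
  intro i _
  ring

theorem lv_pos {j : ℕ} (c : Fin j → ℕ) {n : ℤ} (hn : 1 ≤ n) {h : Fin j → ℤ} (hh : ∀ i, 1 ≤ h i) : 0 < lv c n h := by
  unfold lv
  have : 0 ≤ ∑ i, (c i : ℤ) * h i := sum_nonneg fun i _ => mul_nonneg (Nat.cast_nonneg _) (by linarith [hh i])
  linarith

/-- the sum of the squares -/
theorem sum_sq {k j : ℕ} (c : Fin k → Fin j → ℕ) {s : ℤ} (hs : s = 1 ∨ s = -1) (f : Fin k → ℤ → ℝ) (N : ℕ) :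
    ∑ m ∈ Bx (j + 2) N, ph (fun q : Fin (k + k) => LL c s (finSumFinEquiv.symm q)) (fun _ => 0) (fun _ => s)
      (fun q => Sum.elim f f (finSumFinEquiv.symm q)) m = ∑ h ∈ Bx j N, (Sn c s f N h) ^ 2 := by
  classical
  have hss : s * s = 1 := by rcases hs with h | h <;> rw [h] <;> norm_num
  rw [sum_Bx_succ]
  simp only [sum_Bx_succ]
  have e1 : ∀ n ∈ Icc (1 : ℤ) N, ∀ n' ∈ Icc (1 : ℤ) N, ∀ h ∈ Bx j N,
      ph (fun q : Fin (k + k) => LL c s (finSumFinEquiv.symm q)) (fun _ => 0) (fun _ => s)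
      (fun q => Sum.elim f f (finSumFinEquiv.symm q)) (Fin.cons n (Fin.cons n' h)) = Pn c s f h n * Pn c s f h n' := by
    intro n hn n' hn' h hh
    rw [mem_Icc] at hn hn'
    rw [mem_Bx] at hh
    have hh' : ∀ i, 1 ≤ h i := fun i => (mem_Icc.1 (hh i)).1
    unfold SH6.ph
    rw [← Equiv.prod_comp finSumFinEquiv]
    simp only [Equiv.symm_apply_apply, Fintype.prod_sum_type, Sum.elim_inl, Sum.elim_inr, lf_inl, lf_inr, add_zero]
    unfold Pn
    congr 1
    · apply prod_congr rfl
      intro a _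
      rw [if_pos (by rw [← mul_assoc, hss, one_mul]; exact lv_pos _ hn.1 hh'), mul_one]
    · apply prod_congr rfl
      intro a _
      rw [if_pos (by rw [← mul_assoc, hss, one_mul]; exact lv_pos _ hn'.1 hh'), mul_one]
  rw [sum_congr rfl fun n hn => sum_congr rfl fun n' hn' => sum_congr rfl fun h hh => e1 n hn n' hn' h hh]
  have e2 : ∀ h, (Sn c s f N h) ^ 2 = ∑ n ∈ Icc (1 : ℤ) N, ∑ n' ∈ Icc (1 : ℤ) N, Pn c s f h n * Pn c s f h n' := by
    intro h
    unfold Sn
    rw [sq, sum_mul_sum]
  simp only [e2]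
  rw [sum_comm' (s := Bx j N) (t := fun _ => Icc (1 : ℤ) N) (t' := Icc (1 : ℤ) N) (s' := fun _ => Bx j N)
    (fun x y => by tauto)]
  apply sum_congr rfl
  intro n _
  rw [sum_comm]

/-- **Mean zero: for almost all `h` the sum over `n` is small.** -/
theorem shift_zero (hS : S_SUMS) (hD : S_DIR) {k j : ℕ} {c : Fin k → Fin j → ℕ} (hc : Function.Injective c) {s : ℤ}
    (hs : s = 1 ∨ s = -1) {f : Fin k → ℤ → ℝ} (hf : ∀ a, InvF s (fun x => f a (s * x))) (a0 : Fin k)
    (hm : MeanZero (fun x => f a0 (s * x))) :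
    Tendsto (fun N : ℕ => (∑ h ∈ Bx j N, |Sn c s f N h / N|) / (N : ℝ) ^ j) atTop (𝓝 0) := by
  classical
  have hs0 : s ≠ 0 := by rcases hs with h | h <;> rw [h] <;> norm_num
  have h23 : ∀ x y : ℕ, (2 : ℤ) ^ x * 3 ^ y ≠ 0 := fun x y => by positivity
  have key := slice hS hD (k := k + k) (r := j + 2) (L := fun q => LL c s (finSumFinEquiv.symm q))
    (fun q h => by
      rcases hq : finSumFinEquiv.symm q with a | a
      · have h1 := congrFun h 0
        simp only [hq] at h1
        exact hs0 (by simpa [LL] using h1)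
      · have h1 := congrFun h 1
        simp only [hq] at h1
        exact hs0 (by simpa [LL] using h1))
    (fun q q' hqq x y u v h => by
      have h0 := congrFun h 0
      have h1 := congrFun h 1
      have h2 : ∀ i : Fin j, _ := fun i => congrFun h i.succ.succ
      rcases hq : finSumFinEquiv.symm q with a | a <;> rcases hq' : finSumFinEquiv.symm q' with b | b
      · simp only [hq, hq', LL, Fin.cons_zero] at h0
        have h3 := mul_right_cancel₀ hs0 h0
        apply hqq
        apply finSumFinEquiv.symm.injective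
        rw [hq, hq']
        congr 1
        apply hc
        funext i
        have h4 := h2 i
        simp only [hq, hq', LL, Fin.cons_succ] at h4
        rw [h3] at h4
        exact_mod_cast mul_left_cancel₀ hs0 (mul_left_cancel₀ (h23 u v) h4)
      · simp only [hq, hq', LL, Fin.cons_zero] at h0
        rw [mul_zero] at h0
        exact mul_ne_zero (h23 x y) hs0 h0
      · simp only [hq, hq', LL, Fin.cons_zero] at h0
        rw [mul_zero] at h0
        exact mul_ne_zero (h23 u v) hs0 h0.symm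
      · have h1' : 2 ^ x * 3 ^ y * s = 2 ^ u * 3 ^ v * s := by
          have e : (1 : Fin (j + 2)) = Fin.succ 0 := rfl
          rw [e] at h1
          simpa only [hq, hq', LL, Fin.cons_succ, Fin.cons_zero] using h1
        have h3 := mul_right_cancel₀ hs0 h1'
        apply hqq
        apply finSumFinEquiv.symm.injective
        rw [hq, hq']
        congr 1
        apply hc
        funext i
        have h4 := h2 i
        simp only [hq, hq', LL, Fin.cons_succ] at h4
        rw [h3] at h4
        exact_mod_cast mul_left_cancel₀ hs0 (mul_left_cancel₀ (h23 u v) h4))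
    (fun _ => 0) (σ := fun _ => s) (fun _ => hs) (f := fun q => Sum.elim f f (finSumFinEquiv.symm q))
    (fun q => by
      rcases hq : finSumFinEquiv.symm q with a | a
      · simp only [Sum.elim_inl]; exact hf a
      · simp only [Sum.elim_inr]; exact hf a)
    (finSumFinEquiv (.inl a0)) (by simpa using hm)
  simp only [sum_sq c hs] at key
  have k2 := (Real.continuous_sqrt.tendsto 0).comp key
  rw [Real.sqrt_zero] at k2
  refine squeeze_zero (fun N => by positivity) (fun N => ?_) k2
  simp only [Function.comp_apply]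
  apply Real.le_sqrt_of_sq_le
  rcases Nat.eq_zero_or_pos N with hN | hN
  · subst hN
    simp
  · have hN0 : (0 : ℝ) < N := by exact_mod_cast hN
    have hcs := sq_sum_le_card_mul_sum_sq (s := Bx j N) (f := fun h => |Sn c s f N h / N|)
    rw [card_Bx] at hcs
    have e1 : ∀ h, |Sn c s f N h / N| ^ 2 = (Sn c s f N h) ^ 2 / (N : ℝ) ^ 2 := fun h => by rw [sq_abs, div_pow]
    simp only [e1] at hcs
    rw [← sum_div] at hcs
    rw [div_pow, div_le_div_iff₀ (by positivity) (by positivity)]
    push_cast at hcs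
    calc (∑ h ∈ Bx j N, |Sn c s f N h / N|) ^ 2 * (N : ℝ) ^ (j + 2)
        ≤ ((N : ℝ) ^ j * ((∑ h ∈ Bx j N, Sn c s f N h ^ 2) / (N : ℝ) ^ 2)) * (N : ℝ) ^ (j + 2) :=
          mul_le_mul_of_nonneg_right hcs (by positivity)
      _ = (∑ h ∈ Bx j N, Sn c s f N h ^ 2) * ((N : ℝ) ^ j) ^ 2 := by
          rw [pow_add]; field_simp

/-- **The law for almost all shifts.** -/
theorem shift_law (hS : S_SUMS) (hD : S_DIR) {k j : ℕ} {c : Fin k → Fin j → ℕ} (hc : Function.Injective c) {s : ℤ}
    (hs : s = 1 ∨ s = -1) {f : Fin k → ℤ → ℝ} (hf : ∀ a, InvF s (fun x => f a (s * x))) {μ : Fin k → ℝ}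
    (hμ : ∀ a, |μ a| ≤ 1) (hm : ∀ a, MeanZero (fun x => f a (s * x) - μ a)) :
    Tendsto (fun N : ℕ => (∑ h ∈ Bx j N, |Sn c s f N h / N - ∏ a, μ a|) / (N : ℝ) ^ j) atTop (𝓝 0) := by
  classical
  suffices h : ∀ T : Finset (Fin k), Tendsto (fun N : ℕ => (∑ h ∈ Bx j N,
      |Sn c s (fun a => if a ∈ T then f a else fun _ => 1) N h / N - ∏ a ∈ T, μ a|) / (N : ℝ) ^ j) atTop (𝓝 0) by
    have h1 := h univ
    simp only [mem_univ, if_true] at h1
    exact h1
  intro T
  induction T using Finset.induction_on with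
  | empty =>
    refine (tendsto_congr' ?_).2 tendsto_const_nhds
    filter_upwards [eventually_ge_atTop 1] with N hN
    have hN0 : (0 : ℝ) < N := by exact_mod_cast hN
    have e1 : ∀ h ∈ Bx j N, |Sn c s (fun a => if a ∈ (∅ : Finset (Fin k)) then f a else fun _ => 1) N h / N
        - ∏ a ∈ (∅ : Finset (Fin k)), μ a| = 0 := by
      intro h _
      unfold Sn Pn
      simp only [Finset.notMem_empty, if_false, Finset.prod_const_one, Finset.prod_empty, sum_const, Int.card_Icc]
      rw [show ((N : ℤ) + 1 - 1).toNat = N by omega, nsmul_eq_mul, mul_one, div_self hN0.ne', sub_self, abs_zero]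
    rw [sum_congr rfl e1, sum_const_zero, zero_div]
  | insert a T ha ih =>
    obtain ⟨g, hg⟩ : ∃ g : Fin k → ℤ → ℝ, g = fun b => if b ∈ T then f b else if b = a then fun x => (f a x - μ a) / 2
      else fun _ => 1 := ⟨_, rfl⟩
    have hginv : ∀ b, InvF s (fun x => g b (s * x)) := by
      intro b
      rw [hg]
      simp only
      split_ifs with h h'
      · exact hf b
      · exact half_inv17 (hf a) (hμ a)
      · exact ⟨fun _ => by simp, fun _ => rfl⟩
    have hgm : MeanZero (fun x => g a (s * x)) := by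
      rw [hg]
      simp only [if_neg ha, if_true]
      exact half_mz17 (hm a)
    have h0 := shift_zero hS hD hc hs hginv a hgm
    have h1 := (h0.const_mul 2).add (ih.const_mul |μ a|)
    rw [mul_zero, mul_zero, add_zero] at h1
    refine squeeze_zero (fun N => by positivity) (fun N => ?_) h1
    rw [mul_div_assoc', mul_div_assoc', ← add_div]
    apply div_le_div_of_nonneg_right _ (by positivity)
    rw [mul_sum, mul_sum, ← sum_add_distrib]
    apply sum_le_sum
    intro h _
    have e : ∀ n, Pn c s (fun b => if b ∈ insert a T then f b else fun _ => 1) h n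
        = 2 * Pn c s g h n + μ a * Pn c s (fun b => if b ∈ T then f b else fun _ => 1) h n := by
      intro n
      unfold Pn
      rw [← Finset.mul_prod_erase univ _ (mem_univ a), ← Finset.mul_prod_erase univ (fun b => g b (s * lv (c b) n h)) (mem_univ a),
        ← Finset.mul_prod_erase univ (fun b => (if b ∈ T then f b else fun _ => 1) (s * lv (c b) n h)) (mem_univ a)]
      have e1 : ∏ b ∈ univ.erase a, (if b ∈ insert a T then f b else fun _ => 1) (s * lv (c b) n h)
          = ∏ b ∈ univ.erase a, (if b ∈ T then f b else fun _ => 1) (s * lv (c b) n h) := by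
        apply prod_congr rfl
        intro b hb
        have hba : b ≠ a := ne_of_mem_erase hb
        simp only [mem_insert, hba, false_or]
      have e2 : ∏ b ∈ univ.erase a, g b (s * lv (c b) n h)
          = ∏ b ∈ univ.erase a, (if b ∈ T then f b else fun _ => 1) (s * lv (c b) n h) := by
        apply prod_congr rfl
        intro b hb
        have hba : b ≠ a := ne_of_mem_erase hb
        rw [hg]
        simp only [if_neg hba]
      rw [e1, e2]
      have e3 : g a (s * lv (c a) n h) = (f a (s * lv (c a) n h) - μ a) / 2 := by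
        rw [hg]
        simp only [if_neg ha, if_true]
      rw [e3]
      simp only [mem_insert_self, if_true, if_neg ha]
      ring
    have e4 : Sn c s (fun b => if b ∈ insert a T then f b else fun _ => 1) N h
        = 2 * Sn c s g N h + μ a * Sn c s (fun b => if b ∈ T then f b else fun _ => 1) N h := by
      unfold Sn
      rw [sum_congr rfl (fun n _ => e n), sum_add_distrib, ← mul_sum, ← mul_sum]
    rw [e4, Finset.prod_insert ha]
    have e5 : (2 * Sn c s g N h + μ a * Sn c s (fun b => if b ∈ T then f b else fun _ => 1) N h) / N - μ a * ∏ b ∈ T, μ b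
        = 2 * (Sn c s g N h / N) + μ a * (Sn c s (fun b => if b ∈ T then f b else fun _ => 1) N h / N - ∏ b ∈ T, μ b) := by
      ring
    rw [e5]
    refine (abs_add_le _ _).trans (le_of_eq ?_)
    rw [abs_mul, abs_mul, abs_of_pos (show (0 : ℝ) < 2 by norm_num)]

/-- **Almost all shifts, two functions.** -/
theorem shift_two (hS : S_SUMS) (hD : S_DIR) {s : ℤ} (hs : s = 1 ∨ s = -1) {f g : ℤ → ℝ} (hf : InvF s (fun x => f (s * x)))
    (hg : InvF s (fun x => g (s * x))) {μ ν : ℝ} (hμ : |μ| ≤ 1) (hν : |ν| ≤ 1) (hmf : MeanZero (fun x => f (s * x) - μ))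
    (hmg : MeanZero (fun x => g (s * x) - ν)) :
    Tendsto (fun N : ℕ => (∑ h ∈ Icc (1 : ℤ) N, |(∑ n ∈ Icc (1 : ℤ) N, f (s * n) * g (s * (n + h))) / N - μ * ν|) / N) atTop
      (𝓝 0) := by
  have key := shift_law hS hD (k := 2) (j := 1) (c := fun a _ => (a : ℕ))
    (fun a b hab => by have := congrFun hab 0; exact Fin.ext this) hs (f := ![f, g])
    (fun a => by fin_cases a <;> [exact hf; exact hg]) (μ := ![μ, ν]) (fun a => by fin_cases a <;> [exact hμ; exact hν])
    (fun a => by fin_cases a <;> [exact hmf; exact hmg])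
  refine key.congr fun N => ?_
  rw [pow_one, sum_Bx_succ]
  congr 1
  apply sum_congr rfl
  intro h _
  have e0 : Bx 0 N = {fun i => i.elim0} := by
    ext m
    rw [mem_Bx, mem_singleton]
    constructor
    · intro _; funext i; exact i.elim0
    · intro _ i; exact i.elim0
  rw [e0, sum_singleton]
  congr 1
  unfold Sn Pn lv
  simp [Fin.prod_univ_two]

end SH17

end Pool.Agent.KS6_24.ST
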