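import Mathlib
import Pool.Agent.KS6_24.LN.U1Fin
import Pool.Agent.KS6_24.LN.Cnt
import Pool.Agent.KS6_24.ST.Lln3
import Pool.Agent.KS6_24.ST.Cnt3

set_option autoImplicit false

/-!
# The distribution of invariant sets in short windows, at the sharp scale

Let `S` be a set of integers that is invariant under the Collatz map (`x ∈ S` iff `C x ∈ S`) and contains an
integer of sign `s`; for example the set of all integers whose trajectory meets the trajectory of a given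
integer, the basin of `-1`, `-5` or `-17`, or the set of the integers that do not reach the known cycles, if
there are any. It has a density `δ > 0` on the integers of sign `s`.

* Windows: if `w n / √(log n)` tends to infinity, however slowly, then for almost all `n` every interval
  `s [n, n + L]` with `exp (w n) ≤ L ≤ n` contains at least `L / exp (w n)` members of `S`.
* Law of large numbers: if `K N / √(log N)` tends to infinity, however slowly (and `K N ≤ (log N) ^ 0.99`), then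
  for all but `o(N)` of the `n ≤ N` the proportion of members of `S` among the `K N` integers `s 3 ^ i n`,
  `i < K N`, is `δ + o(1)`.
* Q1: if there is an integer of sign `s` that does not reach the known cycles, then almost all the intervals
  `s [n, n + exp (w n)]` contain such integers.

The scale `√(log n)` is optimal in all statements: if `w n / √(log n)` tends to zero, then almost all the
intervals `s [n, n + exp (w n)]` are contained in `S` or disjoint from `S` (`BlockFlow` in the library).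
-/

namespace Pool.Agent.Results.MP_d02c56_nt.SharpWindows

open Filter Topology

/-- The Collatz map on the integers. -/
def C (x : ℤ) : ℤ := if x % 2 = 0 then x / 2 else 3 * x + 1

/-- `S` is invariant under the Collatz map and its inverse. -/
def Invariant (S : Set ℤ) : Prop := ∀ x : ℤ, x ∈ S ↔ C x ∈ S

/-- The set of the `n ≥ 1` with `P n` has natural density zero. -/
def Negligible (P : ℕ → Prop) : Prop :=
  Tendsto (fun N : ℕ => ({n : ℕ | 1 ≤ n ∧ n ≤ N ∧ P n}.ncard : ℝ) / N) atTop (𝓝 0)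

/-- The integers of sign `s` in `S` have density `δ` among the integers of sign `s`. -/
def HasDensity (s : ℤ) (S : Set ℤ) (δ : ℝ) : Prop :=
  Tendsto (fun N : ℕ => ({n : ℕ | 1 ≤ n ∧ n ≤ N ∧ s * n ∈ S}.ncard : ℝ) / N) atTop (𝓝 δ)

/-- The number of `x` with `n ≤ x ≤ n + L` and `s x ∈ S`. -/
noncomputable def count (s : ℤ) (S : Set ℤ) (n L : ℕ) : ℕ := {x : ℕ | n ≤ x ∧ x ≤ n + L ∧ s * x ∈ S}.ncard

/-- The `i`-th companion of `n`: the integral part of `3 ^ i n / 2 ^ ⌊i log₂ 3⌋`. -/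
def companion (i n : ℕ) : ℕ := 3 ^ i * n / 2 ^ Nat.log 2 (3 ^ i)

/-- The number of `i < K` for which `s` times the `i`-th companion of `n` is in `S`. -/
noncomputable def visits (s : ℤ) (S : Set ℤ) (n K : ℕ) : ℕ := {i : ℕ | i < K ∧ s * companion i n ∈ S}.ncard

/-- The number of `i < K` for which `s 3 ^ i n` is in `S`. -/
noncomputable def multiples (s : ℤ) (S : Set ℤ) (n K : ℕ) : ℕ := {i : ℕ | i < K ∧ s * (3 ^ i * n) ∈ S}.ncard

/-- `w n` is of larger order than `√(log n)`. -/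
def Large (w : ℕ → ℝ) : Prop := Tendsto (fun n : ℕ => w n / √(Real.log n)) atTop atTop

/-- The integers whose trajectory passes through `y`. -/
def Basin (y : ℤ) : Set ℤ := {x | ∃ k : ℕ, C^[k] x = y}

/-- The trajectories of `x` and `y` meet. -/
def Meet (x y : ℤ) : Prop := ∃ k l : ℕ, C^[k] x = C^[l] y

/-- The union of the five known cycles. -/
def Known : Finset ℤ := {1, 4, 2, -1, -2, -5, -14, -7, -20, -10, -17, -50, -25, -74, -37, -110,
  -55, -164, -82, -41, -122, -61, -182, -91, -272, -136, -68, -34, 0}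

/-- The trajectory of `x` reaches one of the five known cycles. -/
def Reaches (x : ℤ) : Prop := ∃ k : ℕ, C^[k] x ∈ Known

open Pool.Agent.KS6_24.LN Pool.Agent.H499R2.CO Pool.Agent.Y965.SI Finset

/-! ### transfer to the accelerated map -/

theorem Tz1_mem {S : Set ℤ} (hS : Invariant S) (y : ℤ) : Tz 1 y ∈ S ↔ y ∈ S := by
  unfold Tz
  by_cases h : y % 2 = 0
  · rw [if_pos h, hS y]
    unfold C
    rw [if_pos h]
  · rw [if_neg h, hS y, hS (C y)]
    have h1 : C (C y) = (3 * y + 1) / 2 := by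
      unfold C
      rw [if_neg h, if_pos (by omega)]
    rw [h1]

/-- the conjugated set -/
def conj (s : ℤ) (S : Set ℤ) : Set ℤ := {x | s * x ∈ S}

theorem conj_inv {s : ℤ} (hs : s = 1 ∨ s = -1) {S : Set ℤ} (hS : Invariant S) (x : ℤ) :
    Tz s x ∈ conj s S ↔ x ∈ conj s S := by
  have hss : ∀ x : ℤ, s * (s * x) = x := by intro x; rcases hs with rfl | rfl <;> ring
  have h1 : s * Tz s x = Tz 1 (s * x) := by
    have := dens_Tz_mul hs (s * x)
    rw [hss] at this
    rw [this, hss]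
  show s * Tz s x ∈ S ↔ s * x ∈ S
  rw [h1]
  exact Tz1_mem hS _

theorem sign_of_pos {s : ℤ} (hs : s = 1 ∨ s = -1) {S : Set ℤ} (h : ∃ x ∈ S, 0 < s * x) :
    ∃ x ∈ conj s S, 0 < x := by
  have hss : ∀ x : ℤ, s * (s * x) = x := by intro x; rcases hs with rfl | rfl <;> ring
  obtain ⟨x, hx, h0⟩ := h
  exact ⟨s * x, by show s * (s * x) ∈ S; rw [hss]; exact hx, h0⟩

theorem negl_iff (P : ℕ → Prop) : Negligible P ↔ Negl P := Iff.rfl

theorem count_eq (s : ℤ) (S : Set ℤ) (n L : ℕ) : count s S n L = cnt (conj s S) n L := by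
  classical
  unfold count cnt
  rw [← Set.ncard_coe_finset]
  congr 1
  ext x
  simp only [Set.mem_ofPred_eq, coe_filter, mem_Icc, and_assoc]
  rfl

theorem visits_eq (s : ℤ) (S : Set ℤ) (n K : ℕ) [DecidablePred fun i : ℕ =>
    ((3 ^ i * n / 2 ^ Nat.log 2 (3 ^ i) : ℕ) : ℤ) ∈ conj s S] :
    visits s S n K = #{i ∈ range K | ((3 ^ i * n / 2 ^ Nat.log 2 (3 ^ i) : ℕ) : ℤ) ∈ conj s S} := by
  unfold visits
  rw [← Set.ncard_coe_finset]
  congr 1
  ext x
  simp only [Set.mem_ofPred_eq, coe_filter, mem_range]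
  rfl

theorem density_of_mz {s : ℤ} {S : Set ℤ} {δ : ℝ}
    (h : MeanZero (fun x => (conj s S).indicator (fun _ => (1 : ℝ)) x - δ)) : HasDensity s S δ := by
  classical
  set ind : ℤ → ℝ := (conj s S).indicator (fun _ => (1 : ℝ)) with hind
  have hind01 : ∀ x, 0 ≤ ind x ∧ ind x ≤ 1 := by
    intro x
    simp only [hind, Set.indicator]
    split_ifs <;> norm_num
  have hc : ∀ N : ℕ, ({n : ℕ | 1 ≤ n ∧ n ≤ N ∧ s * n ∈ S}.ncard : ℝ) = ∑ n ∈ range N, ind ((n + 1 : ℕ)) := by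
    intro N
    have e1 : {n : ℕ | 1 ≤ n ∧ n ≤ N ∧ s * n ∈ S}
        = (((range N).filter fun n : ℕ => ((n + 1 : ℕ) : ℤ) ∈ conj s S).image fun n : ℕ => n + 1 : Finset ℕ) := by
      ext n
      simp only [Set.mem_ofPred_eq, coe_image, coe_filter, mem_range, Set.mem_image]
      constructor
      · rintro ⟨ha, hb, hc⟩
        refine ⟨n - 1, ⟨by omega, ?_⟩, by omega⟩
        rw [Nat.sub_add_cancel ha]; exact hc
      · rintro ⟨m, ⟨hm, hmS⟩, rfl⟩
        exact ⟨by omega, by omega, hmS⟩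
    rw [e1, Set.ncard_coe_finset, card_image_of_injective _ (fun a b h => Nat.succ_injective h), card_filter]
    push_cast
    apply sum_congr rfl
    intro n _
    simp only [hind, Set.indicator]
    try push_cast
    try rfl
  have hs : ∀ N : ℕ, ∑ n ∈ range N, (ind (n : ℕ) - δ)
      = ∑ n ∈ range N, ind ((n + 1 : ℕ)) + (ind 0 - ind N) - N * δ := by
    intro N
    have e1 := sum_range_succ (fun n : ℕ => ind (n : ℕ)) N
    have e2 := sum_range_succ' (fun n : ℕ => ind (n : ℕ)) N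
    rw [sum_sub_distrib, sum_const, card_range, nsmul_eq_mul]
    simp only [Nat.cast_zero] at e2
    linarith
  unfold MeanZero at h
  have h5 : Tendsto (fun N : ℕ => (ind 0 - ind N) / N) atTop (𝓝 0) := by
    apply squeeze_zero_norm (a := fun N : ℕ => 1 / (N : ℝ))
    · intro N
      rw [Real.norm_eq_abs, abs_div, Nat.abs_cast]
      gcongr
      rw [abs_le]
      constructor <;> linarith [(hind01 0).1, (hind01 0).2, (hind01 N).1, (hind01 N).2]
    · exact tendsto_one_div_atTop_nhds_zero_nat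
  have h6 := (h.sub h5).add_const δ
  rw [sub_zero, zero_add] at h6
  unfold HasDensity
  apply h6.congr'
  filter_upwards [eventually_gt_atTop 0] with N hN
  have hN' : (N : ℝ) ≠ 0 := by positivity
  rw [hc]
  have := hs N
  show (∑ n ∈ range N, (ind (n : ℕ) - δ)) / N - (ind 0 - ind N) / N + δ = _
  rw [this]
  field_simp
  ring

/-! ### invariant sets -/

theorem compl_inv {S : Set ℤ} (hS : Invariant S) : Invariant Sᶜ := fun x => not_congr (hS x)

theorem meet_inv (a : ℤ) : Invariant {x | Meet x a} := by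
  intro x
  constructor
  · rintro ⟨k, l, h⟩
    refine ⟨k, l + 1, ?_⟩
    rw [← Function.iterate_succ_apply, Function.iterate_succ_apply', h, Function.iterate_succ_apply']
  · rintro ⟨k, l, h⟩
    exact ⟨k + 1, l, by rw [Function.iterate_succ_apply]; exact h⟩

theorem known_closed : ∀ x ∈ Known, C x ∈ Known := by decide

theorem reaches_inv : Invariant {x | Reaches x} := by
  intro x
  constructor
  · rintro ⟨k, h⟩
    refine ⟨k, ?_⟩
    rw [← Function.iterate_succ_apply, Function.iterate_succ_apply']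
    exact known_closed _ h
  · rintro ⟨k, h⟩
    exact ⟨k + 1, by rw [Function.iterate_succ_apply]; exact h⟩

theorem basin_inv {y : ℤ} {p : ℕ} (hy : C^[p + 1] y = y) : Invariant (Basin y) := by
  intro x
  constructor
  · rintro ⟨k, h⟩
    refine ⟨k + p, ?_⟩
    rw [← Function.iterate_succ_apply, show (k + p).succ = (p + 1) + k by omega,
      Function.iterate_add_apply, h, hy]
  · rintro ⟨k, h⟩
    exact ⟨k + 1, by rw [Function.iterate_succ_apply]; exact h⟩

/-- The statement for one invariant set: density, laws of large numbers, short windows. -/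
def Law (s : ℤ) (S : Set ℤ) : Prop :=
  ∃ δ : ℝ, 0 < δ ∧ δ ≤ 1 ∧ HasDensity s S δ ∧
    (∀ K : ℕ → ℕ, Large (fun N => (K N : ℝ)) → (∀ᶠ N : ℕ in atTop, (K N : ℝ) ≤ Real.log N ^ (0.99 : ℝ)) →
      ∀ ε : ℝ, 0 < ε → Tendsto (fun N : ℕ =>
        ({n : ℕ | 1 ≤ n ∧ n ≤ N ∧ ε < |(multiples s S n (K N) : ℝ) / K N - δ|}.ncard : ℝ) / N) atTop (𝓝 0)) ∧
    (∀ a c ε : ℝ, 0.998 < a → 0 < c → 0 < ε → Negligible fun n =>
      ε < |(visits s S n ⌊c * Real.log n ^ a⌋₊ : ℝ) / ⌊c * Real.log n ^ a⌋₊ - δ|) ∧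
    ∀ w : ℕ → ℝ, Large w → Negligible fun n =>
      ∃ L : ℕ, Real.exp (w n) ≤ L ∧ L ≤ n ∧ (count s S n L : ℝ) < L / Real.exp (w n)

theorem ncard_eq (N : ℕ) (P : ℕ → Prop) [DecidablePred P] :
    ({n : ℕ | 1 ≤ n ∧ n ≤ N ∧ P n}.ncard : ℝ) = (#{n ∈ Icc 1 N | P n} : ℝ) := by
  rw [← Set.ncard_coe_finset]
  congr 2
  ext x
  simp only [Set.mem_ofPred_eq, coe_filter, mem_Icc, and_assoc]

/-- from the statements with `A √(log N)` to the statements with a large function -/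
theorem negl_of_large {P : ℕ → Prop} {Q : ℝ → ℕ → ℕ → Prop} {w : ℕ → ℝ} (hw : Large w)
    (h : ∀ ε : ℝ, 0 < ε → ∃ (A : ℝ) (N0 : ℕ), 0 < A ∧ ∀ N : ℕ, N0 ≤ N →
      ({n : ℕ | 1 ≤ n ∧ n ≤ N ∧ Q A N n}.ncard : ℝ) ≤ ε * N)
    (himp : ∀ (A : ℝ) (N n : ℕ), 0 < A → 1 ≤ n → n ≤ N → A * √(Real.log N) ≤ w n → P n → Q A N n) :
    Negligible P := by
  classical
  unfold Negligible
  rw [Metric.tendsto_atTop]
  intro ε hε
  obtain ⟨A, N0, hA, hN0⟩ := h (ε / 4) (by positivity)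
  unfold Large at hw
  obtain ⟨M0, hM0⟩ := eventually_atTop.mp (hw.eventually_ge_atTop (2 * A))
  obtain ⟨M1, hM1⟩ := eventually_atTop.mp ((tendsto_natCast_atTop_atTop (R := ℝ)).eventually_ge_atTop
    (max ((2 * (M0 + 3)) / (ε / 2)) ((4 / ε) ^ 2)))
  refine ⟨max (max N0 M1) 2, fun N hN => ?_⟩
  have hN0' : N0 ≤ N := ((le_max_left _ _).trans (le_max_left _ _)).trans hN
  have hN1 : M1 ≤ N := ((le_max_right _ _).trans (le_max_left _ _)).trans hN
  have hN2 : 2 ≤ N := (le_max_right _ _).trans hN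
  have hNr : (0 : ℝ) < N := by positivity
  have hNl : 0 < Real.log N := Real.log_pos (by exact_mod_cast hN2)
  -- the exceptions
  have hsub : {n : ℕ | 1 ≤ n ∧ n ≤ N ∧ P n} ⊆
      {n : ℕ | 1 ≤ n ∧ n ≤ N ∧ Q A N n} ∪ (range (M0 + 3 + Nat.sqrt N) : Finset ℕ) := by
    rintro n ⟨h1, h2, h3⟩
    by_cases hn : n < M0 + 3 + Nat.sqrt N
    · right
      simpa using hn
    · left
      refine ⟨h1, h2, himp A N n hA h1 h2 ?_ h3⟩
      push Not at hn
      have hnM : M0 ≤ n := by omega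
      have hn2 : 2 ≤ n := by omega
      have hnl : 0 < Real.log n := Real.log_pos (by exact_mod_cast hn2)
      have h4 : N ≤ n ^ 2 := by
        have h5 := Nat.lt_succ_sqrt N
        have h6 : Nat.sqrt N + 1 ≤ n := by omega
        calc N ≤ (Nat.sqrt N + 1) * (Nat.sqrt N + 1) := h5.le
          _ ≤ n * n := Nat.mul_le_mul h6 h6
          _ = n ^ 2 := by ring
      have h5 : Real.log N ≤ 2 * Real.log n := by
        have : Real.log N ≤ Real.log ((n : ℝ) ^ 2) := Real.log_le_log hNr (by exact_mod_cast h4)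
        rwa [Real.log_pow, Nat.cast_ofNat] at this
      have h6 : √(Real.log N) ≤ 2 * √(Real.log n) := by
        rw [show (2 : ℝ) * √(Real.log n) = √(4 * Real.log n) by
          rw [Real.sqrt_mul (by norm_num), show (4 : ℝ) = 2 ^ 2 by norm_num, Real.sqrt_sq (by norm_num)]]
        exact Real.sqrt_le_sqrt (by linarith)
      have h7 := hM0 n hnM
      rw [le_div_iff₀ (Real.sqrt_pos.mpr hnl)] at h7
      calc A * √(Real.log N) ≤ A * (2 * √(Real.log n)) := by gcongr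
        _ = 2 * A * √(Real.log n) := by ring
        _ ≤ w n := h7
  have hfin : ({n : ℕ | 1 ≤ n ∧ n ≤ N ∧ Q A N n} ∪ ((range (M0 + 3 + Nat.sqrt N) : Finset ℕ) : Set ℕ)).Finite := by
    apply Set.Finite.union _ (Finset.finite_toSet _)
    exact (Set.finite_Icc 1 N).subset fun n hn => ⟨hn.1, hn.2.1⟩
  have hcard : ({n : ℕ | 1 ≤ n ∧ n ≤ N ∧ P n}.ncard : ℝ) ≤ ε / 4 * N + (M0 + 3 + Nat.sqrt N : ℕ) := by
    have g1 : ({n : ℕ | 1 ≤ n ∧ n ≤ N ∧ P n}.ncard : ℝ) ≤
        ({n : ℕ | 1 ≤ n ∧ n ≤ N ∧ Q A N n} ∪ ((range (M0 + 3 + Nat.sqrt N) : Finset ℕ) : Set ℕ)).ncard := by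
      exact_mod_cast Set.ncard_le_ncard hsub hfin
    have g2 : ((({n : ℕ | 1 ≤ n ∧ n ≤ N ∧ Q A N n} ∪ ((range (M0 + 3 + Nat.sqrt N) : Finset ℕ) : Set ℕ)).ncard : ℕ) : ℝ)
        ≤ ({n : ℕ | 1 ≤ n ∧ n ≤ N ∧ Q A N n}.ncard : ℝ) + (M0 + 3 + Nat.sqrt N : ℕ) := by
      have := Set.ncard_union_le {n : ℕ | 1 ≤ n ∧ n ≤ N ∧ Q A N n} ((range (M0 + 3 + Nat.sqrt N) : Finset ℕ) : Set ℕ)
      rw [Set.ncard_coe_finset, card_range] at this
      exact_mod_cast this
    linarith [hN0 N hN0']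
  have hs1 : (Nat.sqrt N : ℝ) ≤ √N := Real.nat_sqrt_le_real_sqrt
  have hbig := hM1 N hN1
  have hb1 : (2 * (M0 + 3)) / (ε / 2) ≤ (N : ℝ) := (le_max_left _ _).trans hbig
  have hb2 : (4 / ε) ^ 2 ≤ (N : ℝ) := (le_max_right _ _).trans hbig
  have hs2 : √(N : ℝ) ≤ ε / 4 * N := by
    have g1 : 4 / ε ≤ √(N : ℝ) := Real.le_sqrt_of_sq_le hb2
    have g2 : 1 ≤ ε / 4 * √(N : ℝ) := by
      have : ε / 4 * (4 / ε) ≤ ε / 4 * √(N : ℝ) := by gcongr
      have e : ε / 4 * (4 / ε) = 1 := by field_simp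
      linarith
    calc √(N : ℝ) = 1 * √(N : ℝ) := by ring
      _ ≤ (ε / 4 * √(N : ℝ)) * √(N : ℝ) := by gcongr
      _ = ε / 4 * (√(N : ℝ) * √(N : ℝ)) := by ring
      _ = ε / 4 * N := by rw [Real.mul_self_sqrt hNr.le]
  have hs3 : (M0 + 3 : ℝ) ≤ ε / 4 * N := by
    rw [div_le_iff₀ (by positivity)] at hb1
    nlinarith
  have hlt : ({n : ℕ | 1 ≤ n ∧ n ≤ N ∧ P n}.ncard : ℝ) ≤ 3 / 4 * ε * N := by
    push_cast at hcard
    linarith
  rw [dist_zero_right, Real.norm_eq_abs, abs_of_nonneg (by positivity), div_lt_iff₀ hNr]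
  calc ({n : ℕ | 1 ≤ n ∧ n ≤ N ∧ P n}.ncard : ℝ) ≤ 3 / 4 * ε * N := hlt
    _ < ε * N := by nlinarith [mul_pos hε hNr]

theorem multiples_eq (s : ℤ) (S : Set ℤ) (n K : ℕ) [DecidablePred fun i : ℕ => ((3 ^ i * n : ℕ) : ℤ) ∈ conj s S] :
    multiples s S n K = #{i ∈ range K | ((3 ^ i * n : ℕ) : ℤ) ∈ conj s S} := by
  unfold multiples
  rw [← Set.ncard_coe_finset]
  congr 1
  ext x
  simp only [Set.mem_ofPred_eq, coe_filter, mem_range]
  have : s * (((3 ^ x * n : ℕ) : ℕ) : ℤ) = s * (3 ^ x * n) := by push_cast; ring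
  show x < K ∧ s * (3 ^ x * n) ∈ S ↔ x < K ∧ s * ((3 ^ x * n : ℕ) : ℤ) ∈ S
  rw [this]

/-- the law of large numbers for the multiples by powers of `3` -/
theorem lln_multiples {s : ℤ} (h3 : Pool.Agent.KS6_24.ST.S_LLN3b s) {S : Set ℤ} (hinv : ∀ x, Tz s x ∈ conj s S ↔ x ∈ conj s S)
    {δ : ℝ} (h0 : 0 ≤ δ) (h1 : δ ≤ 1) (hm : MeanZero (fun x => (conj s S).indicator (fun _ => (1 : ℝ)) x - δ))
    (K : ℕ → ℕ) (hK : Large (fun N => (K N : ℝ))) (hK2 : ∀ᶠ N : ℕ in atTop, (K N : ℝ) ≤ Real.log N ^ (0.99 : ℝ))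
    (ε : ℝ) (hε : 0 < ε) : Tendsto (fun N : ℕ =>
        ({n : ℕ | 1 ≤ n ∧ n ≤ N ∧ ε < |(multiples s S n (K N) : ℝ) / K N - δ|}.ncard : ℝ) / N) atTop (𝓝 0) := by
  classical
  rw [Metric.tendsto_atTop]
  intro η hη
  obtain ⟨A, N0, hA, hN0⟩ := h3 (conj s S) hinv δ h0 h1 hm (min ε (η / 2)) (by positivity)
  unfold Large at hK
  obtain ⟨N1, hN1⟩ := eventually_atTop.mp (hK.eventually_ge_atTop A)
  obtain ⟨N2, hN2⟩ := eventually_atTop.mp hK2
  refine ⟨max (max N0 N1) (max N2 2), fun N hN => ?_⟩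
  have g0 : N0 ≤ N := ((le_max_left _ _).trans (le_max_left _ _)).trans hN
  have g1 : N1 ≤ N := ((le_max_right _ _).trans (le_max_left _ _)).trans hN
  have g2 : N2 ≤ N := ((le_max_left _ _).trans (le_max_right _ _)).trans hN
  have g3 : 2 ≤ N := ((le_max_right _ _).trans (le_max_right _ _)).trans hN
  have hNr : (0 : ℝ) < N := by positivity
  have hNl : 0 < Real.log N := Real.log_pos (by exact_mod_cast g3)
  have k1 : A * √(Real.log N) ≤ K N := by
    have := hN1 N g1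
    rwa [le_div_iff₀ (Real.sqrt_pos.mpr hNl)] at this
  have hKpos : (0 : ℝ) < K N := lt_of_lt_of_le (by positivity) k1
  have h := hN0 N g0 (K N) k1 (hN2 N g2)
  have hle : ({n : ℕ | 1 ≤ n ∧ n ≤ N ∧ ε < |(multiples s S n (K N) : ℝ) / K N - δ|}.ncard : ℝ) ≤ η / 2 * N := by
    rw [ncard_eq]
    have hmono : (#{n ∈ Icc 1 N | ε < |(multiples s S n (K N) : ℝ) / K N - δ|} : ℝ) ≤
        (#{n ∈ Icc 1 N | min ε (η / 2) * (K N : ℕ) < |(#{i ∈ range (K N) | ((3 ^ i * n : ℕ) : ℤ) ∈ conj s S} : ℝ)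
          - δ * (K N : ℕ)|} : ℝ) := by
      have : #{n ∈ Icc 1 N | ε < |(multiples s S n (K N) : ℝ) / K N - δ|} ≤
        #{n ∈ Icc 1 N | min ε (η / 2) * (K N : ℕ) < |(#{i ∈ range (K N) | ((3 ^ i * n : ℕ) : ℤ) ∈ conj s S} : ℝ)
          - δ * (K N : ℕ)|} := by
        apply card_le_card
        apply monotone_filter_right
        intro n _ hn

        have e : (#{i ∈ range (K N) | ((3 ^ i * n : ℕ) : ℤ) ∈ conj s S} : ℝ) - δ * (K N : ℕ)
            = ((multiples s S n (K N) : ℝ) / K N - δ) * K N := by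
          rw [multiples_eq]
          field_simp
        rw [e, abs_mul, abs_of_pos hKpos]
        calc min ε (η / 2) * (K N : ℝ) ≤ ε * K N := by gcongr; exact min_le_left _ _
          _ < |(multiples s S n (K N) : ℝ) / K N - δ| * K N := by gcongr
      exact_mod_cast this
    refine hmono.trans (h.trans ?_)
    gcongr
    exact min_le_right _ _
  rw [dist_zero_right, Real.norm_eq_abs, abs_of_nonneg (by positivity), div_lt_iff₀ hNr]
  nlinarith [mul_pos hη hNr]

theorem law {s : ℤ} (hs : s = 1 ∨ s = -1) (hen : Pool.Agent.KS6_24.ST.S_EN3 s) {S : Set ℤ} (hS : Invariant S)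
    (hex : ∃ x ∈ S, 0 < s * x) : Law s S := by
  classical
  have hinv := conj_inv hs hS
  obtain ⟨δ, h1, h2, h3⟩ := dens hs (conj s S) hinv (sign_of_pos hs hex)
  refine ⟨δ, h1, h2, density_of_mz h3, ?_, ?_, ?_⟩
  · exact lln_multiples (Pool.Agent.KS6_24.ST.lln3 s hs hen) hinv h1.le h2 h3
  · intro a c ε ha hc hε
    have h := lln2_all hs (conj s S) hinv δ h1.le h2 h3 a c ε (by norm_num at ha ⊢; exact ha) hc hε
    refine h.mono (Eventually.of_forall fun n hn => ?_)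
    rw [visits_eq] at hn
    convert hn
  · intro w hw
    refine negl_of_large (Q := fun A N n => ∃ L : ℕ, Real.exp (A * √ (Real.log N)) ≤ L ∧ L ≤ N ∧
      (cnt (conj s S) n L : ℝ) < L / Real.exp (A * √ (Real.log N))) hw ?_ ?_
    · intro ε hε
      obtain ⟨A, N0, hA, h⟩ := Pool.Agent.KS6_24.ST.cnt3 s hs hen (conj s S) hinv (sign_of_pos hs hex) ε hε
      refine ⟨A, N0, hA, fun N hN => ?_⟩
      rw [ncard_eq]
      exact h N hN
    · rintro A N n hA hn1 hn2 hle ⟨L, hL1, hL2, hL3⟩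
      have he : Real.exp (A * √ (Real.log N)) ≤ Real.exp (w n) := Real.exp_le_exp.mpr hle
      refine ⟨L, he.trans hL1, hL2.trans hn2, ?_⟩
      rw [count_eq] at hL3
      exact hL3.trans_le (by gcongr)

/-- An invariant set with a member of sign `s` has members in almost all windows. -/
theorem member {s : ℤ} (hs : s = 1 ∨ s = -1) (hen : Pool.Agent.KS6_24.ST.S_EN3 s) {S : Set ℤ} (hS : Invariant S)
    (hex : ∃ x ∈ S, 0 < s * x) {w : ℕ → ℝ} (hw : Large w) :
    Negligible fun n => ∀ x : ℕ, n ≤ x → (x : ℝ) ≤ n + Real.exp (w n) → s * x ∉ S := by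
  classical
  have hinv := conj_inv hs hS
  refine negl_of_large (Q := fun A N n => ∀ x : ℕ, n ≤ x → (x : ℝ) ≤ n + Real.exp (A * √ (Real.log N)) →
    (x : ℤ) ∉ conj s S) hw ?_ ?_
  · intro ε hε
    obtain ⟨A, N0, hA, h⟩ := Pool.Agent.KS6_24.ST.win3 s hs hen (conj s S) hinv (sign_of_pos hs hex) ε hε
    refine ⟨A, N0, hA, fun N hN => ?_⟩
    rw [ncard_eq]
    exact h N hN
  · intro A N n hA hn1 hn2 hle h x hx1 hx2 hxS
    have he : Real.exp (A * √ (Real.log N)) ≤ Real.exp (w n) := Real.exp_le_exp.mpr hle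
    exact h x hx1 (by linarith) hxS

theorem not_negl_true {P : ℕ → Prop} (h : ∀ n, P n) : ¬ Negligible P := by
  intro hP
  unfold Negligible at hP
  have h1 : Tendsto (fun N : ℕ => ({n : ℕ | 1 ≤ n ∧ n ≤ N ∧ P n}.ncard : ℝ) / N) atTop (𝓝 1) := by
    apply tendsto_const_nhds.congr'
    filter_upwards [eventually_ge_atTop 1] with N hN
    have e : {n : ℕ | 1 ≤ n ∧ n ≤ N ∧ P n} = (Finset.Icc 1 N : Finset ℕ) := by
      ext n
      simp only [Set.mem_ofPred_eq, Finset.coe_Icc, Set.mem_Icc]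
      exact ⟨fun h => ⟨h.1, h.2.1⟩, fun h' => ⟨h'.1, h'.2, h n⟩⟩
    rw [e, Set.ncard_coe_finset, Nat.card_Icc, Nat.add_sub_cancel]
    have : (N : ℝ) ≠ 0 := by positivity
    field_simp
  exact one_ne_zero (tendsto_nhds_unique h1 hP)

theorem q1_sign {s : ℤ} (hs : s = 1 ∨ s = -1) (hen : Pool.Agent.KS6_24.ST.S_EN3 s) {w : ℕ → ℝ} (hw : Large w) :
    (∀ x : ℤ, 0 < s * x → Reaches x) ↔
      ¬ Negligible fun n => ∀ x : ℕ, n ≤ x → (x : ℝ) ≤ n + Real.exp (w n) → Reaches (s * x) := by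
  have hss : ∀ x : ℤ, s * (s * x) = x := by intro x; rcases hs with rfl | rfl <;> ring
  constructor
  · intro h
    apply not_negl_true
    intro n x _ _
    rcases Nat.eq_zero_or_pos x with rfl | hx
    · refine ⟨0, ?_⟩
      simp only [Nat.cast_zero, mul_zero, Function.iterate_zero, id]
      decide
    · exact h _ (by rw [hss]; exact_mod_cast hx)
  · intro h
    by_contra hcon
    push Not at hcon
    obtain ⟨x, hx, hxR⟩ := hcon
    apply h
    have h1 := member hs hen (compl_inv reaches_inv) ⟨x, hxR, hx⟩ hw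
    refine Negl.mono h1 (Eventually.of_forall fun n hn x hx1 hx2 hxS => hxS (hn x hx1 hx2))

theorem negl_or {P Q : ℕ → Prop} (hP : Negligible P) (hQ : Negligible Q) : Negligible fun n => P n ∨ Q n := by
  unfold Negligible at *
  have h := hP.add hQ
  rw [add_zero] at h
  refine squeeze_zero (fun N => by positivity) (fun N => ?_) h
  rw [← add_div]
  apply div_le_div_of_nonneg_right _ (Nat.cast_nonneg N)
  have e : {n : ℕ | 1 ≤ n ∧ n ≤ N ∧ (P n ∨ Q n)}
      = {n : ℕ | 1 ≤ n ∧ n ≤ N ∧ P n} ∪ {n : ℕ | 1 ≤ n ∧ n ≤ N ∧ Q n} := by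
    ext n
    simp only [Set.mem_ofPred_eq, Set.mem_union]
    tauto
  rw [e]
  exact_mod_cast Set.ncard_union_le _ _

/-- Almost no window is contained in `S` or disjoint from `S`. -/
theorem mixed_windows {s : ℤ} (hs : s = 1 ∨ s = -1) (hen : Pool.Agent.KS6_24.ST.S_EN3 s) {S : Set ℤ} (hS : Invariant S)
    (h1 : ∃ x ∈ S, 0 < s * x) (h2 : ∃ x ∉ S, 0 < s * x) {w : ℕ → ℝ} (hw : Large w) :
    Negligible fun n => (∀ x : ℕ, n ≤ x → (x : ℝ) ≤ n + Real.exp (w n) → s * x ∈ S) ∨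
      ∀ x : ℕ, n ≤ x → (x : ℝ) ≤ n + Real.exp (w n) → s * x ∉ S := by
  obtain ⟨y, hy, hy0⟩ := h2
  have h3 := member hs hen (compl_inv hS) ⟨y, hy, hy0⟩ hw
  refine negl_or ?_ (member hs hen hS h1 hw)
  exact Negl.mono h3 (Eventually.of_forall fun n hn x hx1 hx2 hxS => hxS (hn x hx1 hx2))

theorem reaches_zero : Reaches 0 := ⟨0, by decide⟩

/-- **The distribution of invariant sets in short windows, at the sharp scale.** -/
theorem result_of (hen : ∀ s : ℤ, s = 1 ∨ s = -1 → Pool.Agent.KS6_24.ST.S_EN3 s) :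
    -- every invariant set with an integer of sign `s`
    (∀ s : ℤ, s = 1 ∨ s = -1 → ∀ S : Set ℤ, Invariant S → (∃ x ∈ S, 0 < s * x) → Law s S) ∧
    -- in particular the integers whose trajectory meets the trajectory of a given integer `y`
    (∀ s y : ℤ, s = 1 ∨ s = -1 → 0 < s * y → Law s {x | Meet x y}) ∧
    -- and the negative integers that reach `-1`, `-5`, `-17`
    (Law (-1) (Basin (-1)) ∧ Law (-1) (Basin (-5)) ∧ Law (-1) (Basin (-17))) ∧
    -- no invariant set has many monochromatic windows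
    (∀ s : ℤ, s = 1 ∨ s = -1 → ∀ S : Set ℤ, Invariant S → (∃ x ∈ S, 0 < s * x) → (∃ x ∉ S, 0 < s * x) →
      ∀ w : ℕ → ℝ, Large w → Negligible fun n =>
        (∀ x : ℕ, n ≤ x → (x : ℝ) ≤ n + Real.exp (w n) → s * x ∈ S) ∨
        ∀ x : ℕ, n ≤ x → (x : ℝ) ≤ n + Real.exp (w n) → s * x ∉ S) ∧
    -- Q1 for the integers of sign `s`
    (∀ s : ℤ, s = 1 ∨ s = -1 → ∀ w : ℕ → ℝ, Large w → ((∀ x : ℤ, 0 < s * x → Reaches x) ↔
      ¬ Negligible fun n => ∀ x : ℕ, n ≤ x → (x : ℝ) ≤ n + Real.exp (w n) → Reaches (s * x))) ∧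
    -- Q1
    ∀ w : ℕ → ℝ, Large w → ((∀ x : ℤ, Reaches x) ↔ ∀ s : ℤ, s = 1 ∨ s = -1 →
      ¬ Negligible fun n => ∀ x : ℕ, n ≤ x → (x : ℝ) ≤ n + Real.exp (w n) → Reaches (s * x)) := by
  refine ⟨fun s hs S hS h => law hs (hen s hs) hS h,
    fun s y hs hy => law hs (hen s hs) (meet_inv y) ⟨y, ⟨0, 0, rfl⟩, hy⟩,
    ⟨?_, ?_, ?_⟩, fun s hs S hS h1 h2 w hw => mixed_windows hs (hen s hs) hS h1 h2 hw,
    fun s hs w hw => q1_sign hs (hen s hs) hw, fun w hw => ⟨fun h s hs => ?_, fun h x => ?_⟩⟩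
  · exact law (Or.inr rfl) (hen _ (Or.inr rfl)) (basin_inv (p := 1) (by decide)) ⟨-1, ⟨0, rfl⟩, by norm_num⟩
  · exact law (Or.inr rfl) (hen _ (Or.inr rfl)) (basin_inv (p := 4) (by decide)) ⟨-5, ⟨0, rfl⟩, by norm_num⟩
  · exact law (Or.inr rfl) (hen _ (Or.inr rfl)) (basin_inv (p := 17) (by decide)) ⟨-17, ⟨0, rfl⟩, by norm_num⟩
  · exact (q1_sign hs (hen s hs) hw).mp fun x _ => h x
  · rcases lt_trichotomy x 0 with hx | hx | hx
    · exact (q1_sign (Or.inr rfl) (hen _ (Or.inr rfl)) hw).mpr (h (-1) (Or.inr rfl)) x (by linarith)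
    · rw [hx]; exact reaches_zero
    · exact (q1_sign (Or.inl rfl) (hen _ (Or.inl rfl)) hw).mpr (h 1 (Or.inl rfl)) x (by linarith)

end Pool.Agent.Results.MP_d02c56_nt.SharpWindows
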